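import Pool.Agent.Lib.MP_c725eb_pr.B0

/-!
# The class `a` of the vertical system is the mirror image of the class `b`
-/

set_option autoImplicit false

namespace C7

open MeasureTheory Filter Set
open scoped ENNReal Topology

theorem gE_gE {g g' : V → V} (hg : Aut g g') (e : Ed) : gE g' (gE g e) = e := by
  have h1 := toE_eq (hg.nb (nb_nxt e))
  have h2 := toE_eq (hg.nb' (nb_nxt (gE g e)))
  have h1' : (gE g e).1 = g e.1 ∧ nxt (gE g e) = g (nxt e) ∨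
      (gE g e).1 = g (nxt e) ∧ nxt (gE g e) = g e.1 := h1
  have h2' : (gE g' (gE g e)).1 = g' (gE g e).1 ∧ nxt (gE g' (gE g e)) = g' (nxt (gE g e)) ∨
      (gE g' (gE g e)).1 = g' (nxt (gE g e)) ∧ nxt (gE g' (gE g e)) = g' (gE g e).1 := h2
  rcases h1' with ⟨h3, h4⟩ | ⟨h3, h4⟩ <;> rcases h2' with ⟨h5, h6⟩ | ⟨h5, h6⟩
  · rw [h3, hg.left_inv] at h5
    rw [h4, hg.left_inv] at h6
    exact ed_ext h5 h6
  · rw [h4, hg.left_inv] at h5
    rw [h3, hg.left_inv] at h6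
    exact (ed_ext' h5 h6).elim
  · rw [h3, hg.left_inv] at h5
    rw [h4, hg.left_inv] at h6
    exact (ed_ext' h5 h6).elim
  · rw [h4, hg.left_inv] at h5
    rw [h3, hg.left_inv] at h6
    exact ed_ext h5 h6

theorem gO_gO {g g' : V → V} (hg : Aut g g') (ω : Om) : gO g (gO g' ω) = ω := by
  funext e
  rw [gO_apply, gO_apply, gE_gE hg]

/-- Properties of the image configuration. -/
theorem ae_of_ae_gO {F : Measure ℝ} [IsProbabilityMeasure F] {g g' : V → V} (hg : Aut g g') {P : Om → Prop}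
    (h : ∀ᵐ ω ∂(iid Ed F), P (gO g ω)) : ∀ᵐ ω ∂(iid Ed F), P ω := by
  have h1 := (measurePreserving_gO F hg.symm).quasiMeasurePreserving.ae h
  filter_upwards [h1] with ω h2
  rwa [gO_gO hg] at h2

theorem pot_refl (f : ℤ → ℝ) (i : ℤ) : pot (fun j => -f (-j - 1)) i = pot f (-i) := by
  have h := pot_unique (f := fun j => -f (-j - 1)) (g := fun i => pot f (-i)) (fun j => by
    have := pot_sub_succ f (-j - 1)
    rw [show -j - 1 + 1 = -j by ring] at this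
    rw [show -(j + 1) = -j - 1 by ring]
    linarith) i
  rw [neg_zero, pot_zero, zero_add] at h
  exact h.symm

section

variable {K : ℝ≥0∞} {w : W} {φ : ℤ → ℤ → ℝ} {τ : ℕ → V}

theorem tpot_rfw (hw : ∀ v, w v 2 = ⊤) {σ : ℤ} (hσ : σ = 0 ∨ σ = 1) (t : V) (l i : ℤ) :
    tpot σ K (rfw σ w) (rf σ t) l i = tpot σ K w t l (-i) := by
  unfold tpot
  rw [T_rfw hσ hw, pk_rfw hσ, rf_rf hσ, rf_rf hσ]
  congr 2
  ext x
  rw [rf_image hσ, mem_Rg_rfw hσ, rf_rf hσ]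

theorem T_univ_rfw (hw : ∀ v, w v 2 = ⊤) {σ : ℤ} (hσ : σ = 0 ∨ σ = 1) (l i j : ℤ) :
    T (rfw σ w) univ (pk σ (rfw σ w) K l i) (pk σ (rfw σ w) K l j) =
      T w univ (pk σ w K l (-i)) (pk σ w K l (-j)) := by
  rw [T_rfw hσ hw, pk_rfw hσ, pk_rfw hσ, rf_rf hσ, rf_rf hσ]
  congr 1
  ext x
  rw [rf_image hσ]
  simp

/-- Limits in the reflected configuration. -/
theorem Lim.rfw (hw : ∀ v, w v 2 = ⊤) (hL : Lim 0 K w φ τ) :
    Lim 0 K (rfw 0 w) (fun l j => φ l (-j)) (fun r => rf 0 (τ r)) := by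
  have hσ : (0 : ℤ) = 0 ∨ (0 : ℤ) = 1 := Or.inl rfl
  refine ⟨fun l => ?_, ?_, fun l i => ?_, fun l => ?_, fun l => ?_⟩
  · filter_upwards [hL.mem l] with r hr
    rw [mem_Rg_rfw hσ, rf_rf hσ]
    exact hr
  · refine hL.col.congr fun r => ?_
    rw [rf_zero]
  · refine (hL.lim l (-i)).congr fun r => ?_
    rw [tpot_rfw hw hσ, tpot_rfw hw hσ, neg_zero]
  · obtain ⟨η, hη, C, hC⟩ := hL.co0 l
    refine ⟨η, hη, C, fun j => ?_⟩
    rw [T_univ_rfw hw hσ, neg_zero]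
    have h1 := hC (-j)
    have e : |((-j : ℤ) : ℝ)| = |(j : ℝ)| := by push_cast; exact abs_neg _
    rwa [e] at h1
  · obtain ⟨η, hη, C, hC⟩ := hL.co l
    refine ⟨η, hη, C, hC.mono fun r hr j => ?_⟩
    rw [T_univ_rfw hw hσ, tpot_rfw hw hσ, tpot_rfw hw hσ, neg_zero]
    have h1 := hr (-j)
    have e : |((-j : ℤ) : ℝ)| = |(j : ℝ)| := by push_cast; exact abs_neg _
    rwa [e] at h1

end

section

variable {K : ℝ≥0∞} {F : Measure ℝ} [IsProbabilityMeasure F]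

theorem rf_ua (j : ℕ) : rf 0 (ua j) = ub (j + 2) := by
  rw [rf_zero]
  unfold ua ub
  simp only [neg_neg]
  push_cast
  ring_nf

theorem rfw_sh0 (hσ : (0 : ℤ) = 0 ∨ (0 : ℤ) = 1) (l j : ℤ) (ω : Om) :
    sh (l, j) (rfw 0 (wt ω)) = rfw 0 (sh (l, -j) (wt ω)) := by
  have h1 := gO_shO (aut_rf hσ) (rf_tr hσ) (l, j) ω
  have h2 := congrArg wt h1
  rw [wt_gO_rf hσ, wt_shO, wt_shO, wt_gO_rf hσ, rf_zero] at h2
  exact h2.symm

/-- The lower classes of the reflected configuration. -/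
theorem Glo_ua_rfw {w : W} (h : Cb 0 K w) (hN : Nice 0 K w) (hN' : Nice 0 K (rfw 0 w)) (j : ℕ) (i : ℤ) :
    Glo 0 K (ua j) (-i - 1) (rfw 0 w) = -Gup 0 K (ub (j + 2)) i w := by
  have hσ : (0 : ℤ) = 0 ∨ (0 : ℤ) = 1 := Or.inl rfl
  have hg : GLo 0 K (rf 0 (ub (j + 2))) (rfw 0 w) := by
    refine h.conv_rf ?_ (fun _ => ⟨?_, ?_⟩) (fun h => absurd h (by norm_num))
    · change 0 < ((j + 2 : ℕ) : ℤ) + 2; omega
    · change -(((j + 2 : ℕ) : ℤ) + 2) < 1; omega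
    · change (1 : ℤ) < ((j + 2 : ℕ) : ℤ) + 2; omega
  have e : rf 0 (ub (j + 2)) = ua j := by rw [← rf_ua, rf_rf hσ]
  have h1 := fun L => gup_eq (u := ub (j + 2)) h hg L i
  rw [e] at h1
  have h2 := (tendsto_gup_L hσ h.hK hN (dup_ub 0 (j + 2)) i).neg
  have h3 := tendsto_glo_L hσ h.hK hN' (dlo_ua 0 j) (-i - 1)
  refine tendsto_nhds_unique h3 (h2.congr fun L => ?_)
  rw [h1 L, neg_neg]

/-- The class `a` of the reflected configuration. -/
theorem alo_rfw {w : W} (h : Cb 0 K w) (hN : Nice 0 K w) (hN' : Nice 0 K (rfw 0 w)) (i : ℤ) :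
    alo 0 K (-i - 1) (rfw 0 w) = -bup 0 K i w := by
  have hσ : (0 : ℤ) = 0 ∨ (0 : ℤ) = 1 := Or.inl rfl
  have h1 := tendsto_Glo_ua hσ h.hK hN' (-i - 1)
  have h2 := ((tendsto_Gup_ub hσ h.hK hN i).comp (tendsto_add_atTop_nat 2)).neg
  refine tendsto_nhds_unique h1 (h2.congr fun j => ?_)
  rw [Glo_ua_rfw h hN hN']
  rfl

theorem bup_vert {w : W} (hσ : (0 : ℤ) = 0 ∨ (0 : ℤ) = 1) (hK : K ≠ ⊤) (hN : Nice 0 K w)
    (hN' : Nice 0 K (sh (vert 0) w)) (i : ℤ) : bup 0 K i (sh (vert 0) w) = bup 0 K (i + 1) w := by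
  have h1 := tendsto_Gup_ub hσ hK hN' i
  have h2 := tendsto_Gup_ub hσ hK hN (i + 1)
  refine tendsto_nhds_unique h1 (h2.congr fun j => ?_)
  have := Gup_vert hσ hK hN (dup_ub 0 j) i
  rw [add_zero] at this
  exact this.symm

theorem ae_alo_mirror (hK : SmallK F K) : ∀ᵐ ω ∂(iid Ed F), ∀ l j,
    mv 0 (alo 0 K) l j (rfw 0 (wt ω)) = -mv 0 (blo 0 K) l (-j - 1) (wt ω) := by
  have hσ : (0 : ℤ) = 0 ∨ (0 : ℤ) = 1 := Or.inl rfl
  have hnice := ae_shift_all (F := F) (ae_nice (F := F) hK hσ)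
  have hnice' := (measurePreserving_gO F (aut_rf hσ)).quasiMeasurePreserving.ae hnice
  have hbe := ae_shift_all (F := F) (P := fun w => ∀ i, blo 0 K i w = bup 0 K i w)
    (ae_blo_eq_bup hK hσ)
  filter_upwards [hnice, hnice', hbe, ae_cb hK hσ] with ω h1 h2 h3 h4 l j
  have h2' : ∀ s, Nice 0 K (sh s (rfw 0 (wt ω))) := fun s => by
    have := h2 s
    rwa [wt_gO_rf hσ] at this
  rw [mv_zero, mv_zero, h3, rfw_sh0 hσ]
  have h5 := alo_rfw (h4.sh (l, -j)) (h1 (l, -j)) (by rw [← rfw_sh0 hσ]; exact h2' (l, j)) (-1)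
  rw [show -(-1 : ℤ) - 1 = 0 by norm_num] at h5
  rw [h5]
  have e : sh (l, -j) (wt ω) = sh (vert 0) (sh (l, -j - 1) (wt ω)) := by
    rw [sh_sh]
    congr 1
    unfold vert
    ext
    · simp
    · simp only; ring
  have h6 := bup_vert hσ hK.1 (h1 (l, -j - 1)) (by rw [← e]; exact h1 (l, -j)) (-1)
  rw [e, h6]
  norm_num

/-- The potentials of the class `a` are limits of target potentials. -/
theorem ae_lim_alo (hK : SmallK F K) {τ : ℕ → V}
    (h : ∀ᵐ ω ∂(iid Ed F), Lim 0 K (wt ω) (fun l => pot fun i => mv 0 (blo 0 K) l i (wt ω)) τ) :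
    ∀ᵐ ω ∂(iid Ed F), Lim 0 K (wt ω) (fun l => pot fun i => mv 0 (alo 0 K) l i (wt ω))
      (fun r => rf 0 (τ r)) := by
  have hσ : (0 : ℤ) = 0 ∨ (0 : ℤ) = 1 := Or.inl rfl
  refine ae_of_ae_gO (aut_rf hσ) (P := fun ω => Lim 0 K (wt ω)
    (fun l => pot fun i => mv 0 (alo 0 K) l i (wt ω)) (fun r => rf 0 (τ r))) ?_
  filter_upwards [h, ae_alo_mirror hK] with ω h1 h2
  rw [wt_gO_rf hσ]
  have h3 := h1.rfw (fun v => wt_two ω v)
  have e : (fun l j => pot (fun i => mv 0 (blo 0 K) l i (wt ω)) (-j)) =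
      fun l => pot fun i => mv 0 (alo 0 K) l i (rfw 0 (wt ω)) := by
    funext l j
    rw [← pot_refl]
    congr 1
    funext i
    exact (h2 l i).symm
  rw [e] at h3
  exact h3

/-- The mean of the class `a`. -/
theorem EV_alo_zero (hK : SmallK F K) : EV 0 F (alo 0 K) = -EV 0 F (blo 0 K) := by
  have hσ : (0 : ℤ) = 0 ∨ (0 : ℤ) = 1 := Or.inl rfl
  have e1 : EV 0 F (alo 0 K) = ∫ ω, alo 0 K 0 (wt ω) ∂(iid Ed F) := by
    rw [EV_eq_sum hσ (adm_alo 0 K), add_zero, show Finset.Ico (0 : ℤ) 1 = {0} from rfl,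
      Finset.sum_singleton]
  have e2 : EV 0 F (blo 0 K) = ∫ ω, blo 0 K 0 (wt ω) ∂(iid Ed F) := by
    rw [EV_eq_sum hσ (adm_blo 0 K), add_zero, show Finset.Ico (0 : ℤ) 1 = {0} from rfl,
      Finset.sum_singleton]
  rw [e1, e2, ← integral_neg]
  have h1 := (measurePreserving_gO F (aut_rf hσ))
  have h2 := integral_map (μ := iid Ed F) h1.measurable.aemeasurable
    (f := fun ω => alo 0 K 0 (wt ω)) (measurable_alo measurable_wt3 0 K 0).aestronglyMeasurable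
  rw [h1.map_eq] at h2
  rw [h2]
  have h3 : ∫ ω, -blo 0 K 0 (wt (shO (0, -1) ω)) ∂(iid Ed F) = ∫ ω, -blo 0 K 0 (wt ω) ∂(iid Ed F) := by
    have h4 := measurePreserving_shO F (0, -1)
    have h5 := integral_map (μ := iid Ed F) h4.measurable.aemeasurable
      (f := fun ω => -blo 0 K 0 (wt ω)) (measurable_blo measurable_wt3 0 K 0).neg.aestronglyMeasurable
    rw [h4.map_eq] at h5
    exact h5.symm
  rw [← h3]
  refine integral_congr_ae ?_
  filter_upwards [ae_alo_mirror hK] with ω h4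
  have h5 := h4 0 0
  rw [mv_zero, mv_zero] at h5
  have e3 : sh (0, 0) (rfw 0 (wt ω)) = rfw 0 (wt ω) := by
    funext v d
    unfold sh
    simp
  rw [e3] at h5
  rw [wt_gO_rf hσ, h5, wt_shO]
  norm_num

end

end C7
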