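import Mathlib

/-!
# First-passage percolation on the triangular lattice with one edge type absent: basics

Vertices are `(column, height)`. Directions: `0 = (1,0)`, `1 = (0,1)`, `2 = (1,1)`. An absent edge has weight `⊤`.
System C (columns): direction `2` absent. System D (diagonal lines `x₁ + x₂ = j`, height `x₂`): direction `1` absent.
-/

set_option autoImplicit false

namespace C7

open scoped ENNReal

/-- Vertices: (column, height). -/
abbrev V := ℤ × ℤ

/-- Weight configurations. -/
abbrev W := V → Fin 3 → ℝ≥0∞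

/-- Neighbours in the triangular lattice. -/
def Adj (u v : V) : Prop :=
  v = (u.1 + 1, u.2) ∨ u = (v.1 + 1, v.2) ∨ v = (u.1, u.2 + 1) ∨ u = (v.1, v.2 + 1) ∨
    v = (u.1 + 1, u.2 + 1) ∨ u = (v.1 + 1, v.2 + 1)

/-- Cost of a step, `⊤` if the vertices are not neighbours. -/
noncomputable def step (w : W) (u v : V) : ℝ≥0∞ :=
  if v = (u.1 + 1, u.2) then w u 0
  else if u = (v.1 + 1, v.2) then w v 0
  else if v = (u.1, u.2 + 1) then w u 1
  else if u = (v.1, v.2 + 1) then w v 1
  else if v = (u.1 + 1, u.2 + 1) then w u 2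
  else if u = (v.1 + 1, v.2 + 1) then w v 2
  else ⊤

/-- Cost of a list of vertices. -/
noncomputable def cost (w : W) : List V → ℝ≥0∞
  | [] => 0
  | [_] => 0
  | u :: v :: l => step w u v + cost w (v :: l)

/-- `l` is a walk (list of vertices) inside `D` from `x` to `y`; neighbourhood is encoded by finite cost. -/
def IsW (D : Set V) (x y : V) (l : List V) : Prop :=
  l.head? = some x ∧ l.getLast? = some y ∧ ∀ v ∈ l, v ∈ D

/-- Passage time inside the domain `D`. -/
noncomputable def T (w : W) (D : Set V) (x y : V) : ℝ≥0∞ :=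
  ⨅ (l : List V) (_ : IsW D x y l), cost w l

theorem step_comm (w : W) (u v : V) : step w u v = step w v u := by
  rcases u with ⟨a, b⟩
  rcases v with ⟨c, d⟩
  unfold step
  simp only [Prod.mk.injEq]
  split_ifs <;> first | rfl | (exfalso; omega)

theorem adj_of_step_ne_top {w : W} {u v : V} (h : step w u v ≠ ⊤) : Adj u v := by
  unfold step at h
  unfold Adj
  split_ifs at h <;> tauto

theorem Adj.symm {u v : V} (h : Adj u v) : Adj v u := by
  unfold Adj at *
  tauto

@[simp] theorem cost_nil (w : W) : cost w [] = 0 := rfl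
@[simp] theorem cost_single (w : W) (u : V) : cost w [u] = 0 := rfl
@[simp] theorem cost_cons_cons (w : W) (u v : V) (l : List V) :
    cost w (u :: v :: l) = step w u v + cost w (v :: l) := rfl

/-- Cost of a concatenation through a common vertex. -/
theorem cost_append (w : W) (l₁ l₂ : List V) (c : V) :
    cost w (l₁ ++ c :: l₂) = cost w (l₁ ++ [c]) + cost w (c :: l₂) := by
  induction l₁ with
  | nil => simp
  | cons a l ih =>
    cases l with
    | nil => simp
    | cons b l' =>
      simp only [List.cons_append, cost_cons_cons] at ih ⊢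
      rw [ih, add_assoc]

theorem cost_reverse (w : W) (l : List V) : cost w l.reverse = cost w l := by
  induction l with
  | nil => rfl
  | cons a l ih =>
    cases l with
    | nil => rfl
    | cons b l' =>
      have h1 : (a :: b :: l').reverse = l'.reverse ++ b :: [a] := by simp
      rw [h1, cost_append, cost_cons_cons, cost_cons_cons, cost_single, add_zero, step_comm w b a]
      have h2 : l'.reverse ++ [b] = (b :: l').reverse := by simp
      rw [h2, ih, add_comm]

theorem cost_cons_le (w : W) (a : V) (l : List V) : cost w l ≤ cost w (a :: l) := by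
  cases l with
  | nil => simp
  | cons b l' => rw [cost_cons_cons]; exact le_add_self

/-- Consecutive vertices of a list of finite cost are neighbours. -/
theorem chain_of_cost_ne_top {w : W} {l : List V} (h : cost w l ≠ ⊤) : List.IsChain Adj l := by
  induction l with
  | nil => simp
  | cons a l ih =>
    cases l with
    | nil => simp
    | cons b l' =>
      rw [cost_cons_cons] at h
      rw [List.isChain_cons_cons]
      constructor
      · exact adj_of_step_ne_top (w := w) (fun h' => h (by rw [h', top_add]))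
      · exact ih (fun h' => h (by rw [h', add_top]))

theorem T_le {w : W} {D : Set V} {x y : V} {l : List V} (h : IsW D x y l) : T w D x y ≤ cost w l :=
  iInf₂_le l h

theorem le_T {w : W} {D : Set V} {x y : V} {c : ℝ≥0∞} (h : ∀ l, IsW D x y l → c ≤ cost w l) :
    c ≤ T w D x y := le_iInf₂ h

theorem IsW.mono {D D' : Set V} (hD : D ⊆ D') {x y : V} {l : List V} (h : IsW D x y l) : IsW D' x y l :=
  ⟨h.1, h.2.1, fun v hv => hD (h.2.2 v hv)⟩

theorem T_mono {w : W} {D D' : Set V} (hD : D ⊆ D') (x y : V) : T w D' x y ≤ T w D x y :=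
  le_T fun _ h => T_le (h.mono hD)

theorem IsW.reverse {D : Set V} {x y : V} {l : List V} (h : IsW D x y l) : IsW D y x l.reverse := by
  refine ⟨?_, ?_, ?_⟩
  · rw [List.head?_reverse]; exact h.2.1
  · rw [List.getLast?_reverse]; exact h.1
  · intro v hv; exact h.2.2 v (List.mem_reverse.1 hv)

theorem T_comm (w : W) (D : Set V) (x y : V) : T w D x y = T w D y x := by
  apply le_antisymm
  · exact le_T fun l h => by rw [← cost_reverse]; exact T_le h.reverse
  · exact le_T fun l h => by rw [← cost_reverse]; exact T_le h.reverse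

theorem isW_single {D : Set V} {x : V} (hx : x ∈ D) : IsW D x x [x] := by
  refine ⟨rfl, rfl, ?_⟩
  intro v hv
  rw [List.mem_singleton] at hv
  rw [hv]; exact hx

theorem T_self (w : W) {D : Set V} {x : V} (hx : x ∈ D) : T w D x x = 0 :=
  le_antisymm (by simpa using T_le (w := w) (isW_single hx)) (by exact bot_le)

theorem isW_ne_nil {D : Set V} {x y : V} {l : List V} (h : IsW D x y l) : l ≠ [] := by
  rintro rfl; simp [IsW] at h

/-- Decomposition of a walk starting at `x`. -/
theorem IsW.eq_cons {D : Set V} {x y : V} {l : List V} (h : IsW D x y l) : ∃ l', l = x :: l' := by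
  cases l with
  | nil => simp [IsW] at h
  | cons a l' => exact ⟨l', by have := h.1; simp at this; rw [this]⟩

theorem IsW.eq_concat {D : Set V} {x y : V} {l : List V} (h : IsW D x y l) : ∃ l', l = l' ++ [y] := by
  obtain ⟨l', hl'⟩ := h.reverse.eq_cons
  exact ⟨l'.reverse, by rw [← List.reverse_reverse l, hl']; simp⟩

theorem IsW.left_mem {D : Set V} {x y : V} {l : List V} (h : IsW D x y l) : x ∈ D := by
  obtain ⟨l', rfl⟩ := h.eq_cons
  exact h.2.2 x (by simp)

theorem IsW.right_mem {D : Set V} {x y : V} {l : List V} (h : IsW D x y l) : y ∈ D := by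
  obtain ⟨l', rfl⟩ := h.eq_concat
  exact h.2.2 y (by simp)

/-- Concatenation of walks. -/
theorem IsW.append {D : Set V} {x y z : V} {l₁ l₂ : List V} (h₁ : IsW D x y l₁) (h₂ : IsW D y z l₂) :
    IsW D x z (l₁ ++ l₂.tail) := by
  obtain ⟨a, rfl⟩ := h₂.eq_cons
  obtain ⟨b, rfl⟩ := h₁.eq_cons
  refine ⟨by simp, ?_, ?_⟩
  · have h := h₂.2.1
    cases a with
    | nil =>
      simp at h; subst h
      simpa using h₁.2.1
    | cons c a' =>
      rw [List.tail_cons, List.getLast?_append_of_ne_nil _ (by simp)]
      simpa using h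
  · intro v hv
    rw [List.mem_append] at hv
    rcases hv with hv | hv
    · exact h₁.2.2 v hv
    · exact h₂.2.2 v (List.mem_of_mem_tail hv)

theorem cost_append_walk {w : W} {D D' : Set V} {x y z : V} {l₁ l₂ : List V} (h₁ : IsW D x y l₁)
    (h₂ : IsW D' y z l₂) : cost w (l₁ ++ l₂.tail) = cost w l₁ + cost w l₂ := by
  obtain ⟨a, rfl⟩ := h₂.eq_cons
  obtain ⟨b, rfl⟩ := h₁.eq_concat
  rw [List.tail_cons, List.append_assoc, List.singleton_append, cost_append]

theorem T_triangle (w : W) (D : Set V) (x y z : V) : T w D x z ≤ T w D x y + T w D y z := by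
  rw [T, T, T, ENNReal.iInf_add]
  refine le_iInf fun l₁ => ?_
  rw [ENNReal.iInf_add]
  refine le_iInf fun h₁ => ?_
  rw [ENNReal.add_iInf]
  refine le_iInf fun l₂ => ?_
  rw [ENNReal.add_iInf]
  refine le_iInf fun h₂ => ?_
  rw [← cost_append_walk h₁ h₂]
  exact T_le (h₁.append h₂)

theorem T_le_step (w : W) {D : Set V} {x y : V} (hx : x ∈ D) (hy : y ∈ D) : T w D x y ≤ step w x y := by
  have h : IsW D x y [x, y] := ⟨rfl, rfl, by intro v hv; simp at hv; rcases hv with rfl | rfl <;> assumption⟩
  simpa using T_le (w := w) h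

/-- Splitting a walk at a vertex. -/
theorem IsW.split {D : Set V} {x y c : V} {l : List V} (h : IsW D x y l) (hc : c ∈ l) :
    ∃ l₁ l₂, l = l₁ ++ c :: l₂ ∧ IsW D x c (l₁ ++ [c]) ∧ IsW D c y (c :: l₂) ∧
      ∀ w : W, cost w l = cost w (l₁ ++ [c]) + cost w (c :: l₂) := by
  obtain ⟨l₁, l₂, rfl⟩ := List.append_of_mem hc
  refine ⟨l₁, l₂, rfl, ⟨?_, by simp, ?_⟩, ⟨rfl, ?_, ?_⟩, fun w => cost_append w l₁ l₂ c⟩
  · have := h.1
    cases l₁ with
    | nil => simpa using this
    | cons a l' => simpa using this
  · intro v hv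
    apply h.2.2 v
    simp at hv ⊢
    tauto
  · have := h.2.1
    rw [List.getLast?_append_of_ne_nil _ (by simp)] at this
    exact this
  · intro v hv
    apply h.2.2 v
    simp at hv ⊢
    tauto

end C7
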