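import Mathlib

/-!
# Lipschitz percolation in the half plane (Dirr, Dondl, Grimmett, Holroyd, Scheutzow)

`C u x` says that the site at distance `u` from the boundary line and height `x` is closed.
`Reach C u x`: the site can be reached from the boundary line by steps away from the line into
closed sites and by arbitrary diagonal steps towards the line.  `F C x` is the least distance `u`
such that `(u, x)` is not reachable.  Then `(F C x, x)` is not closed, `F C` is a Lipschitz
function of `x`, and if every finite set `S` of sites is closed with probability at most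
`s ^ (2 |S|)`, `s ≤ 1 / 6`, then `F C x` has exponential tails.
-/

namespace Pool.Agent.MPc725eb.Hwy

open MeasureTheory ProbabilityTheory
open scoped ENNReal

/-- reachable sites -/
inductive Reach (C : ℕ → ℤ → Prop) : ℕ → ℤ → Prop
  | base (x : ℤ) : Reach C 0 x
  | up {u : ℕ} {x : ℤ} : Reach C u x → C (u + 1) x → Reach C (u + 1) x
  | left {u : ℕ} {x : ℤ} : Reach C (u + 1) x → Reach C u (x - 1)
  | right {u : ℕ} {x : ℤ} : Reach C (u + 1) x → Reach C u (x + 1)

/-- the least distance of a site that is not reachable -/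
noncomputable def F (C : ℕ → ℤ → Prop) (x : ℤ) : ℕ := sInf {u | ¬ Reach C u x}

section det

variable {C : ℕ → ℤ → Prop} {x : ℤ}

theorem not_reach (h : ∃ u, ¬ Reach C u x) : ¬ Reach C (F C x) x := Nat.sInf_mem h

theorem reach_of_lt {u : ℕ} (h : u < F C x) : Reach C u x := by
  by_contra h'
  exact absurd (Nat.sInf_le h') (not_le.2 h)

theorem F_pos (h : ∃ u, ¬ Reach C u x) : 1 ≤ F C x := by
  rcases Nat.eq_zero_or_pos (F C x) with h0 | h0
  · have := not_reach h
    rw [h0] at this
    exact absurd (Reach.base x) this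
  · exact h0

/-- the site `(F x, x)` is open -/
theorem open_F (h : ∃ u, ¬ Reach C u x) : ¬ C (F C x) x := by
  intro hc
  obtain ⟨v, hv⟩ : ∃ v, F C x = v + 1 := ⟨F C x - 1, by have := F_pos h; omega⟩
  have h1 : Reach C v x := reach_of_lt (by omega)
  rw [hv] at hc
  have h2 := Reach.up h1 hc
  rw [← hv] at h2
  exact not_reach h h2

theorem F_right (h : ∃ u, ¬ Reach C u (x + 1)) : F C x ≤ F C (x + 1) + 1 := by
  by_contra hlt
  have h1 : Reach C (F C (x + 1) + 1) x := reach_of_lt (by omega)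
  exact not_reach h (Reach.right h1)

theorem F_left (h : ∃ u, ¬ Reach C u (x - 1)) : F C x ≤ F C (x - 1) + 1 := by
  by_contra hlt
  have h1 : Reach C (F C (x - 1) + 1) x := reach_of_lt (by omega)
  exact not_reach h (Reach.left h1)

/-- `F` is a Lipschitz function -/
theorem F_lip (h : ∀ x, ∃ u, ¬ Reach C u x) (x : ℤ) :
    F C (x + 1) ≤ F C x + 1 ∧ F C x ≤ F C (x + 1) + 1 := by
  refine ⟨?_, F_right (h _)⟩
  have := F_left (C := C) (x := x + 1) (by rw [add_sub_cancel_right]; exact h x)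
  rwa [add_sub_cancel_right] at this

end det

/-! ### backward words -/

/-- the three backward moves -/
def mv : Fin 3 → ℤ × ℤ → ℤ × ℤ
  | 0, v => (v.1 - 1, v.2)
  | 1, v => (v.1 + 1, v.2 + 1)
  | 2, v => (v.1 + 1, v.2 - 1)

/-- the final position -/
def pos : List (Fin 3) → ℤ × ℤ → ℤ × ℤ
  | [], v => v
  | m :: w, v => pos w (mv m v)

/-- the sites at which the first move is made -/
def us : List (Fin 3) → ℤ × ℤ → List (ℤ × ℤ)
  | [], _ => []
  | m :: w, v => if m = 0 then v :: us w (mv m v) else us w (mv m v)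

theorem pos_append (a b : List (Fin 3)) (v : ℤ × ℤ) : pos (a ++ b) v = pos b (pos a v) := by
  induction a generalizing v with
  | nil => rfl
  | cons m a ih => exact ih (mv m v)

theorem us_append (a b : List (Fin 3)) (v : ℤ × ℤ) :
    us (a ++ b) v = us a v ++ us b (pos a v) := by
  induction a generalizing v with
  | nil => rfl
  | cons m a ih =>
    simp only [List.cons_append, us, pos, ih]
    split_ifs <;> simp

theorem exists_split {w : List (Fin 3)} {v s : ℤ × ℤ} (h : s ∈ us w v) :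
    ∃ a c, w = a ++ 0 :: c ∧ pos a v = s := by
  induction w generalizing v with
  | nil => simp [us] at h
  | cons m w ih =>
    simp only [us] at h
    split_ifs at h with hm
    · rcases List.mem_cons.1 h with h | h
      · exact ⟨[], w, by simp [hm], h.symm⟩
      · obtain ⟨a, c, h1, h2⟩ := ih h
        exact ⟨m :: a, c, by simp [h1], h2⟩
    · obtain ⟨a, c, h1, h2⟩ := ih h
      exact ⟨m :: a, c, by simp [h1], h2⟩

/-- the word leads to the line, and all its sites are closed -/
def Ok (D : ℤ × ℤ → Prop) (w : List (Fin 3)) (v : ℤ × ℤ) : Prop :=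
  (pos w v).1 = 0 ∧ ∀ s ∈ us w v, D s

theorem Ok.tail {D : ℤ × ℤ → Prop} {m : Fin 3} {w : List (Fin 3)} {v : ℤ × ℤ}
    (h : Ok D (m :: w) v) : Ok D w (mv m v) := by
  refine ⟨h.1, fun s hs => h.2 s ?_⟩
  simp only [us]
  split_ifs
  · exact List.mem_cons_of_mem _ hs
  · exact hs

theorem Ok.cons {D : ℤ × ℤ → Prop} {m : Fin 3} {w w' : List (Fin 3)} {v : ℤ × ℤ}
    (h : Ok D (m :: w) v) (h' : Ok D w' (mv m v)) : Ok D (m :: w') v := by
  refine ⟨h'.1, fun s hs => ?_⟩
  simp only [us] at hs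
  split_ifs at hs with hm
  · rcases List.mem_cons.1 hs with h1 | h1
    · refine h.2 s ?_
      simp [us, hm, h1]
    · exact h'.2 s h1
  · exact h'.2 s hs

theorem Ok.drop {D : ℤ × ℤ → Prop} {a c : List (Fin 3)} {v : ℤ × ℤ}
    (h : Ok D (a ++ c) v) : Ok D c (pos a v) := by
  refine ⟨by rw [← pos_append]; exact h.1, fun s hs => h.2 s ?_⟩
  rw [us_append]
  exact List.mem_append_right _ hs

/-- a shortest word has no repetitions among its sites -/
theorem nodup_of_min {D : ℤ × ℤ → Prop} (w : List (Fin 3)) (v : ℤ × ℤ) (h : Ok D w v)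
    (hmin : ∀ w', Ok D w' v → w.length ≤ w'.length) : (us w v).Nodup := by
  induction w generalizing v with
  | nil => simp [us]
  | cons m w ih =>
    have h1 : (us w (mv m v)).Nodup := by
      refine ih _ h.tail fun w' hw' => ?_
      have := hmin _ (h.cons hw')
      simpa using this
    simp only [us]
    split_ifs with hm
    · refine List.nodup_cons.2 ⟨fun hv => ?_, h1⟩
      obtain ⟨a, c, e, hp⟩ := exists_split hv
      have h2 : Ok D (a ++ 0 :: c) (mv m v) := e ▸ h.tail
      have h3 := h2.drop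
      rw [hp] at h3
      have := hmin _ h3
      rw [e] at this
      simp at this
      omega
    · exact h1

theorem exists_min {D : ℤ × ℤ → Prop} {v : ℤ × ℤ} (h : ∃ w, Ok D w v) :
    ∃ w, Ok D w v ∧ ∀ w', Ok D w' v → w.length ≤ w'.length := by
  classical
  have h' : ∃ n, ∃ w, Ok D w v ∧ w.length = n := by
    obtain ⟨w, hw⟩ := h
    exact ⟨_, w, hw, rfl⟩
  obtain ⟨w, hw, hl⟩ := Nat.find_spec h'
  refine ⟨w, hw, fun w' hw' => ?_⟩
  rw [hl]
  exact Nat.find_min' h' ⟨w', hw', rfl⟩

theorem pos_fst (w : List (Fin 3)) (v : ℤ × ℤ) :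
    (pos w v).1 = v.1 - 2 * (us w v).length + w.length := by
  induction w generalizing v with
  | nil => simp [pos, us]
  | cons m w ih =>
    simp only [pos, us, ih, List.length_cons]
    fin_cases m
    · simp [mv]; ring
    · simp [mv]; ring
    · simp [mv]; ring

/-- closedness with integer distances -/
def clZ (C : ℕ → ℤ → Prop) (v : ℤ × ℤ) : Prop := C v.1.toNat v.2

theorem exists_word {C : ℕ → ℤ → Prop} {u : ℕ} {x : ℤ} (h : Reach C u x) :
    ∃ w, Ok (clZ C) w ((u : ℤ), x) := by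
  induction h with
  | base x => exact ⟨[], rfl, by simp [us]⟩
  | @up u x _ hc ih =>
    obtain ⟨w, hw1, hw2⟩ := ih
    refine ⟨0 :: w, ?_, ?_⟩
    · simpa [pos, mv] using hw1
    · intro s hs
      simp only [us, if_true, mv] at hs
      rcases List.mem_cons.1 hs with rfl | hs
      · simpa [clZ] using hc
      · refine hw2 s ?_
        simpa using hs
  | @left u x _ ih =>
    obtain ⟨w, hw1, hw2⟩ := ih
    refine ⟨1 :: w, ?_, ?_⟩
    · simpa [pos, mv] using hw1
    · intro s hs
      refine hw2 s ?_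
      simpa [us, mv] using hs
  | @right u x _ ih =>
    obtain ⟨w, hw1, hw2⟩ := ih
    refine ⟨2 :: w, ?_, ?_⟩
    · simpa [pos, mv] using hw1
    · intro s hs
      refine hw2 s ?_
      simpa [us, mv] using hs

/-- a reachable site at distance `h` has a word of length `h + n` with distinct closed sites, whose
number is at least half the length -/
theorem exists_good_word {C : ℕ → ℤ → Prop} {h : ℕ} {x : ℤ} (hr : Reach C h x) :
    ∃ n, ∃ w : List.Vector (Fin 3) (h + n),
      h + n ≤ 2 * ((us w.1 ((h : ℤ), x)).toFinset).card ∧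
      ∀ s ∈ (us w.1 ((h : ℤ), x)).toFinset, clZ C s := by
  obtain ⟨w, hw, hmin⟩ := exists_min (exists_word hr)
  have hnd := nodup_of_min w _ hw hmin
  have h1 := pos_fst w ((h : ℤ), x)
  rw [hw.1] at h1
  have hlen : (us w ((h : ℤ), x)).length ≤ w.length := by
    clear h1 hnd hmin hw
    generalize ((h : ℤ), x) = v
    induction w generalizing v with
    | nil => simp [us]
    | cons m w ih =>
      simp only [us, List.length_cons]
      split_ifs
      · simpa using ih _
      · exact (ih _).trans (Nat.le_succ _)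
  simp only at h1
  obtain ⟨n, hn⟩ : ∃ n, w.length = h + n := ⟨w.length - h, by omega⟩
  refine ⟨n, ⟨w, hn⟩, ?_, ?_⟩
  · rw [List.toFinset_card_of_nodup hnd]
    omega
  · intro s hs
    exact hw.2 s (List.mem_toFinset.1 hs)

/-! ### probability -/

section prob

variable {Ω : Type*} [MeasurableSpace Ω] {μ : Measure Ω} {cl : Ω → ℕ → ℤ → Prop} {s : ℝ≥0∞}

theorem reach_prob (hs : s ≤ 1 / 6)
    (H : ∀ S : Finset (ℤ × ℤ), μ {ω | ∀ v ∈ S, clZ (cl ω) v} ≤ s ^ (2 * S.card)) (h : ℕ) (x : ℤ) :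
    μ {ω | Reach (cl ω) h x} ≤ 2 * (3 * s) ^ h := by
  have hs1 : s ≤ 1 := hs.trans (by
    rw [one_div]; exact ENNReal.inv_le_one.2 (by norm_num))
  have hsub : {ω | Reach (cl ω) h x} ⊆ ⋃ n : ℕ, ⋃ w : List.Vector (Fin 3) (h + n),
      {ω | h + n ≤ 2 * ((us w.1 ((h : ℤ), x)).toFinset).card ∧
        ∀ v ∈ (us w.1 ((h : ℤ), x)).toFinset, clZ (cl ω) v} := by
    intro ω hω
    obtain ⟨n, w, h1, h2⟩ := exists_good_word (hω : Reach (cl ω) h x)
    simp only [Set.mem_iUnion]
    exact ⟨n, w, h1, h2⟩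
  refine (measure_mono hsub).trans ((measure_iUnion_le _).trans ?_)
  have hterm : ∀ n : ℕ, μ (⋃ w : List.Vector (Fin 3) (h + n),
      {ω | h + n ≤ 2 * ((us w.1 ((h : ℤ), x)).toFinset).card ∧
        ∀ v ∈ (us w.1 ((h : ℤ), x)).toFinset, clZ (cl ω) v}) ≤ (3 * s) ^ h * (3 * s) ^ n := by
    intro n
    refine (measure_iUnion_fintype_le _ _).trans ?_
    have : ∀ w : List.Vector (Fin 3) (h + n),
        μ {ω | h + n ≤ 2 * ((us w.1 ((h : ℤ), x)).toFinset).card ∧
          ∀ v ∈ (us w.1 ((h : ℤ), x)).toFinset, clZ (cl ω) v} ≤ s ^ (h + n) := by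
      intro w
      by_cases hle : h + n ≤ 2 * ((us w.1 ((h : ℤ), x)).toFinset).card
      · refine (measure_mono fun ω hω => hω.2).trans ((H _).trans ?_)
        exact pow_le_pow_of_le_one (by positivity) hs1 hle
      · have : {ω | h + n ≤ 2 * ((us w.1 ((h : ℤ), x)).toFinset).card ∧
          ∀ v ∈ (us w.1 ((h : ℤ), x)).toFinset, clZ (cl ω) v} = ∅ := by
          ext ω
          simp only [Set.mem_ofPred_eq, Set.mem_empty_iff_false, iff_false, not_and]
          intro h1
          exact absurd h1 hle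
        rw [this]
        simp
    refine (Finset.sum_le_sum fun w _ => this w).trans ?_
    rw [Finset.sum_const, nsmul_eq_mul]
    rw [← pow_add, mul_pow]
    simp
  refine (ENNReal.tsum_le_tsum hterm).trans ?_
  rw [ENNReal.tsum_mul_left, ENNReal.tsum_geometric, mul_comm]
  refine mul_le_mul' ?_ le_rfl
  have h3 : 3 * s ≤ 1 / 2 := by
    calc 3 * s ≤ 3 * (1 / 6) := mul_le_mul' le_rfl hs
      _ = 1 / 2 := by
        rw [show (6 : ℝ≥0∞) = 3 * 2 by norm_num, one_div, ENNReal.mul_inv (by norm_num)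
          (by norm_num), ← mul_assoc, ENNReal.mul_inv_cancel (by norm_num) (by norm_num),
          one_mul, one_div]
  have h4 : (1 : ℝ≥0∞) / 2 ≤ 1 - 3 * s := by
    have : (1 : ℝ≥0∞) - 1 / 2 ≤ 1 - 3 * s := tsub_le_tsub_left h3 1
    rwa [one_div, ENNReal.one_sub_inv_two, ← one_div] at this
  calc (1 - 3 * s)⁻¹ ≤ (1 / 2)⁻¹ := ENNReal.inv_le_inv.2 h4
    _ = 2 := by rw [one_div, inv_inv]

theorem three_mul_le (hs : s ≤ 1 / 6) : 3 * s ≤ 1 / 2 := by
  calc 3 * s ≤ 3 * (1 / 6) := mul_le_mul' le_rfl hs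
    _ = 1 / 2 := by
      rw [show (6 : ℝ≥0∞) = 3 * 2 by norm_num, one_div, ENNReal.mul_inv (by norm_num)
        (by norm_num), ← mul_assoc, ENNReal.mul_inv_cancel (by norm_num) (by norm_num),
        one_mul, one_div]

/-- almost surely there is a site at every height which is not reachable -/
theorem ae_exists (hs : s ≤ 1 / 6)
    (H : ∀ S : Finset (ℤ × ℤ), μ {ω | ∀ v ∈ S, clZ (cl ω) v} ≤ s ^ (2 * S.card)) :
    ∀ᵐ ω ∂μ, ∀ x, ∃ u, ¬ Reach (cl ω) u x := by
  rw [ae_all_iff]
  intro x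
  rw [ae_iff]
  have hle : ∀ h : ℕ, μ {ω | ¬ ∃ u, ¬ Reach (cl ω) u x} ≤ 2 * (1 / 2) ^ h := by
    intro h
    refine (measure_mono fun ω hω => ?_).trans ((reach_prob hs H h x).trans ?_)
    · by_contra h'
      exact hω ⟨h, h'⟩
    · exact mul_le_mul' le_rfl (pow_le_pow_left' (three_mul_le hs) h)
  have hlim : Filter.Tendsto (fun h : ℕ => (2 : ℝ≥0∞) * (1 / 2) ^ h) Filter.atTop (nhds (2 * 0)) := by
    refine ENNReal.Tendsto.const_mul ?_ (Or.inr (by norm_num))
    exact ENNReal.tendsto_pow_atTop_nhds_zero_of_lt_one (by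
      rw [one_div]; exact ENNReal.inv_lt_one.2 (by norm_num))
  rw [mul_zero] at hlim
  exact le_antisymm (ge_of_tendsto' hlim hle) zero_le

/-- exponential tails of `F` -/
theorem F_tail (hs : s ≤ 1 / 6)
    (H : ∀ S : Finset (ℤ × ℤ), μ {ω | ∀ v ∈ S, clZ (cl ω) v} ≤ s ^ (2 * S.card)) (h : ℕ) (x : ℤ) :
    μ {ω | h < F (cl ω) x} ≤ 2 * (1 / 2) ^ h := by
  refine (measure_mono fun ω hω => ?_).trans ((reach_prob hs H h x).trans
    (mul_le_mul' le_rfl (pow_le_pow_left' (three_mul_le hs) h)))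
  exact reach_of_lt hω

end prob

/-! ### finite range dependence -/

section col

variable {Ω V : Type*} [MeasurableSpace Ω] {μ : Measure Ω} {cl : Ω → V → Prop}

/-- If the sites of each colour are closed with probability at most `q ^ |S|`, then all finite
sets `S` of sites are closed with probability at most `s ^ (2 |S|)`. -/
theorem color_bound {K : ℕ} (col : V → Fin K) {q s : ℝ≥0∞} (hs1 : s ≤ 1)
    (hq : q ≤ s ^ (2 * K))
    (H : ∀ (c : Fin K) (S : Finset V), (∀ v ∈ S, col v = c) →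
      μ {ω | ∀ v ∈ S, cl ω v} ≤ q ^ S.card) (S : Finset V) :
    μ {ω | ∀ v ∈ S, cl ω v} ≤ s ^ (2 * S.card) ∨ K = 0 := by
  classical
  rcases Nat.eq_zero_or_pos K with hK | hK
  · exact Or.inr hK
  left
  have : Nonempty (Fin K) := ⟨⟨0, hK⟩⟩
  obtain ⟨c, hc⟩ : ∃ c : Fin K, S.card ≤ K * (S.filter fun v => col v = c).card := by
    by_contra hcon
    push Not at hcon
    have h1 : S.card = ∑ c : Fin K, (S.filter fun v => col v = c).card :=
      Finset.card_eq_sum_card_fiberwise (fun v _ => Finset.mem_coe.2 (Finset.mem_univ _))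
    have h2 : ∑ c : Fin K, K * (S.filter fun v => col v = c).card < ∑ _c : Fin K, S.card :=
      Finset.sum_lt_sum_of_nonempty Finset.univ_nonempty (fun c _ => hcon c)
    rw [← Finset.mul_sum, ← h1] at h2
    simp at h2
  calc μ {ω | ∀ v ∈ S, cl ω v} ≤ μ {ω | ∀ v ∈ S.filter (fun v => col v = c), cl ω v} :=
        measure_mono fun ω hω v hv => hω v (Finset.mem_filter.1 hv).1
    _ ≤ q ^ (S.filter fun v => col v = c).card := H c _ (fun v hv => (Finset.mem_filter.1 hv).2)
    _ ≤ (s ^ (2 * K)) ^ (S.filter fun v => col v = c).card := pow_le_pow_left' hq _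
    _ = s ^ (2 * (K * (S.filter fun v => col v = c).card)) := by rw [← pow_mul]; ring_nf
    _ ≤ s ^ (2 * S.card) := pow_le_pow_of_le_one (by positivity) hs1 (by omega)

/-- Sites with disjoint neighbourhoods `N v`, which are closed if some edge of the neighbourhood
has a weight in the bad set `B`: independent weights. -/
theorem indep_bound {E β : Type*} [MeasurableSpace β] {t : E → Ω → β}
    (hind : iIndepFun t μ) {B : Set β} (hB : MeasurableSet B) {δ : ℝ≥0∞}
    (hδ : ∀ e, μ {ω | t e ω ∈ B} ≤ δ) (N : V → Finset E) {m : ℕ} (hN : ∀ v, (N v).card ≤ m)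
    (S : Finset V) (hdis : ∀ v ∈ S, ∀ w ∈ S, v ≠ w → Disjoint (N v) (N w)) :
    μ {ω | ∀ v ∈ S, ∃ e ∈ N v, t e ω ∈ B} ≤ (m * δ) ^ S.card := by
  classical
  have hsub : {ω | ∀ v ∈ S, ∃ e ∈ N v, t e ω ∈ B} ⊆
      ⋃ φ ∈ S.pi N, {ω | ∀ v (hv : v ∈ S), t (φ v hv) ω ∈ B} := by
    intro ω hω
    choose f hf1 hf2 using hω
    simp only [Set.mem_iUnion]
    exact ⟨f, Finset.mem_pi.2 hf1, hf2⟩
  refine (measure_mono hsub).trans ((measure_biUnion_finset_le _ _).trans ?_)
  have hterm : ∀ φ ∈ S.pi N, μ {ω | ∀ v (hv : v ∈ S), t (φ v hv) ω ∈ B} ≤ δ ^ S.card := by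
    intro φ hφ
    rw [Finset.mem_pi] at hφ
    have hinj : Function.Injective (fun v : {v // v ∈ S} => φ v.1 v.2) := by
      intro v w hvw
      by_contra hne
      have hne' : v.1 ≠ w.1 := fun h => hne (Subtype.ext h)
      have := hdis v.1 v.2 w.1 w.2 hne'
      rw [Finset.disjoint_left] at this
      refine this (hφ v.1 v.2) ?_
      have e : φ v.1 v.2 = φ w.1 w.2 := hvw
      rw [e]
      exact hφ w.1 w.2
    have h1 : {ω | ∀ v (hv : v ∈ S), t (φ v hv) ω ∈ B} =
        ⋂ e ∈ S.attach.map ⟨_, hinj⟩, t e ⁻¹' B := by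
      ext ω
      simp only [Set.mem_ofPred_eq, Finset.mem_map, Finset.mem_attach, true_and,
        Function.Embedding.coeFn_mk, Set.mem_iInter, Set.mem_preimage, Subtype.exists]
      constructor
      · rintro h e ⟨v, hv, rfl⟩
        exact h v hv
      · intro h v hv
        exact h _ ⟨v, hv, rfl⟩
    rw [h1, hind.measure_inter_preimage_eq_mul (S := S.attach.map ⟨_, hinj⟩)
      (sets := fun _ => B) (fun _ _ => hB)]
    calc _ ≤ ∏ _e ∈ S.attach.map ⟨_, hinj⟩, δ := Finset.prod_le_prod' fun e _ => hδ e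
      _ = δ ^ S.card := by rw [Finset.prod_const, Finset.card_map, Finset.card_attach]
  refine (Finset.sum_le_sum hterm).trans ?_
  rw [Finset.sum_const, nsmul_eq_mul, mul_pow]
  refine mul_le_mul' ?_ le_rfl
  rw [Finset.card_pi]
  push_cast
  calc ∏ v ∈ S, ((N v).card : ℝ≥0∞) ≤ ∏ _v ∈ S, (m : ℝ≥0∞) :=
        Finset.prod_le_prod' fun v _ => by exact_mod_cast hN v
    _ = (m : ℝ≥0∞) ^ S.card := by rw [Finset.prod_const]

end col

end Pool.Agent.MPc725eb.Hwy
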