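import Mathlib
import Pool.Agent.Lib.MP_c725eb_pr.Highway

/-!
# Lipschitz percolation above a slanted line

`C v` says that the site `v` is closed. The base is `{v | v.1 ≤ g v.2}`. `Rch C g v`: the site `v`
can be reached from the base by steps `(1, 0)` into closed sites and by arbitrary steps `(-1, ±1)`.
`Lam C g i` is the least `j` such that `(j, i)` is not reachable. Then `(Lam i, i)` is not closed and
`Lam` is a Lipschitz function.
-/

set_option autoImplicit false

namespace C7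

open MeasureTheory ProbabilityTheory
open scoped ENNReal

/-- Sites connected to the base by admissible steps. -/
inductive Rch (C : ℤ × ℤ → Prop) (g : ℤ → ℤ) : ℤ × ℤ → Prop
  | base {v : ℤ × ℤ} : v.1 ≤ g v.2 → Rch C g v
  | fwd {v : ℤ × ℤ} : Rch C g v → C (v.1 + 1, v.2) → Rch C g (v.1 + 1, v.2)
  | dn {v : ℤ × ℤ} : Rch C g v → Rch C g (v.1 - 1, v.2 - 1)
  | up {v : ℤ × ℤ} : Rch C g v → Rch C g (v.1 - 1, v.2 + 1)

section det

variable {C C' : ℤ × ℤ → Prop} {g g' : ℤ → ℤ}

theorem Rch.mono (hC : ∀ v, C v → C' v) (hg : ∀ x, g x ≤ g' x) {v : ℤ × ℤ} (h : Rch C g v) :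
    Rch C' g' v := by
  induction h with
  | base h => exact .base (h.trans (hg _))
  | fwd _ hc ih => exact .fwd ih (hC _ hc)
  | dn _ ih => exact .dn ih
  | up _ ih => exact .up ih

/-- Reachability depends only on the sites beyond the base. -/
theorem Rch.congr (hC : ∀ v : ℤ × ℤ, g v.2 < v.1 → C v → C' v) {v : ℤ × ℤ} (h : Rch C g v) :
    Rch C' g v := by
  induction h with
  | base h => exact .base h
  | @fwd v _ hc ih =>
    rcases le_or_gt (v.1 + 1) (g v.2) with h1 | h1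
    · exact .base h1
    · exact .fwd ih (hC _ h1 hc)
  | dn _ ih => exact .dn ih
  | up _ ih => exact .up ih

theorem rch_iff_congr (hC : ∀ v : ℤ × ℤ, g v.2 < v.1 → (C v ↔ C' v)) (v : ℤ × ℤ) :
    Rch C g v ↔ Rch C' g v :=
  ⟨fun h => h.congr fun v hv => (hC v hv).1, fun h => h.congr fun v hv => (hC v hv).2⟩

theorem Rch.back {v : ℤ × ℤ} (h : Rch C g v) : Rch C g (v.1 - 1, v.2) := by
  induction h with
  | @base v h => exact .base (by simp only; omega)
  | @fwd v h _ _ => simpa using h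
  | @dn v _ ih => exact .dn ih
  | @up v _ ih => exact .up ih

theorem Rch.back_nat {v : ℤ × ℤ} (h : Rch C g v) (n : ℕ) : Rch C g (v.1 - n, v.2) := by
  induction n with
  | zero => simpa using h
  | succ n ih =>
    have := ih.back
    simp only at this
    rw [Nat.cast_succ, ← sub_sub]
    exact this

theorem Rch.le {i j j' : ℤ} (h : Rch C g (j, i)) (hj : j' ≤ j) : Rch C g (j', i) := by
  have := h.back_nat (j - j').toNat
  simp only at this
  rwa [Int.toNat_of_nonneg (by omega), sub_sub_cancel] at this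

theorem Rch.shift (s : ℤ × ℤ) {v : ℤ × ℤ}
    (h : Rch (fun v => C (v.1 + s.1, v.2 + s.2)) (fun i => g (i + s.2) - s.1) v) :
    Rch C g (v.1 + s.1, v.2 + s.2) := by
  induction h with
  | base h => exact .base (by simp only; omega)
  | @fwd v _ hc ih =>
    have h1 : C (v.1 + s.1 + 1, v.2 + s.2) := by
      have : v.1 + 1 + s.1 = v.1 + s.1 + 1 := by ring
      simpa only [this] using hc
    have h2 := Rch.fwd ih h1
    have e : v.1 + 1 + s.1 = v.1 + s.1 + 1 := by ring
    simp only [e]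
    exact h2
  | @dn v _ ih =>
    have h2 := Rch.dn ih
    have e1 : v.1 - 1 + s.1 = v.1 + s.1 - 1 := by ring
    have e2 : v.2 - 1 + s.2 = v.2 + s.2 - 1 := by ring
    simp only [e1, e2]
    exact h2
  | @up v _ ih =>
    have h2 := Rch.up ih
    have e1 : v.1 - 1 + s.1 = v.1 + s.1 - 1 := by ring
    have e2 : v.2 + 1 + s.2 = v.2 + s.2 + 1 := by ring
    simp only [e1, e2]
    exact h2

theorem rch_shift_iff (s : ℤ × ℤ) (v : ℤ × ℤ) :
    Rch (fun v => C (v.1 + s.1, v.2 + s.2)) (fun i => g (i + s.2) - s.1) v ↔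
      Rch C g (v.1 + s.1, v.2 + s.2) := by
  refine ⟨Rch.shift s, fun h => ?_⟩
  have h1 := Rch.shift (C := fun v => C (v.1 + s.1, v.2 + s.2)) (g := fun i => g (i + s.2) - s.1)
    (-s) (v := (v.1 + s.1, v.2 + s.2)) (by simpa using h)
  simpa using h1

/-- Finiteness: in every row there is a site which is not reachable. -/
def Fin' (C : ℤ × ℤ → Prop) (g : ℤ → ℤ) : Prop := ∀ i, ∃ u : ℕ, ¬ Rch C g (g i + u, i)

/-- The boundary curve. -/
noncomputable def Lam (C : ℤ × ℤ → Prop) (g : ℤ → ℤ) (i : ℤ) : ℤ :=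
  g i + (sInf {u : ℕ | ¬ Rch C g (g i + u, i)} : ℕ)

variable (hf : Fin' C g)
include hf

theorem not_rch_Lam (i : ℤ) : ¬ Rch C g (Lam C g i, i) := Nat.sInf_mem (hf i)

theorem rch_iff (v : ℤ × ℤ) : Rch C g v ↔ v.1 < Lam C g v.2 := by
  obtain ⟨j, i⟩ := v
  simp only
  constructor
  · intro h
    by_contra hlt
    exact not_rch_Lam hf i (h.le (not_lt.1 hlt))
  · intro h
    rcases le_or_gt j (g i) with h1 | h1
    · exact .base h1
    · by_contra h2
      have h3 : (j - g i).toNat ∈ {u : ℕ | ¬ Rch C g (g i + u, i)} := by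
        simp only [Set.mem_setOf_eq]
        rwa [Int.toNat_of_nonneg (by omega), add_sub_cancel]
      have h4 := Nat.sInf_le h3
      unfold Lam at h
      omega

theorem lt_Lam (i : ℤ) : g i < Lam C g i := by
  have := (rch_iff hf (g i, i)).1 (.base le_rfl)
  simpa using this

theorem not_closed_Lam (i : ℤ) : ¬ C (Lam C g i, i) := by
  intro hc
  have h1 : Rch C g (Lam C g i - 1, i) := (rch_iff hf _).2 (by simp)
  have h2 := Rch.fwd h1 (by simpa using hc)
  simp only [sub_add_cancel] at h2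
  exact not_rch_Lam hf i h2

theorem Lam_lip (i : ℤ) : Lam C g (i + 1) ≤ Lam C g i + 1 ∧ Lam C g i ≤ Lam C g (i + 1) + 1 := by
  constructor
  · by_contra hlt
    have h1 : Rch C g (Lam C g i + 1, i + 1) := (rch_iff hf _).2 (by simp only; omega)
    have h2 := Rch.dn h1
    simp only [add_sub_cancel_right] at h2
    exact not_rch_Lam hf i h2
  · by_contra hlt
    have h1 : Rch C g (Lam C g (i + 1) + 1, i) := (rch_iff hf _).2 (by simp only; omega)
    have h2 := Rch.up h1
    simp only [add_sub_cancel_right] at h2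
    exact not_rch_Lam hf (i + 1) h2

omit hf in
theorem Lam_congr (hC : ∀ v : ℤ × ℤ, g v.2 < v.1 → (C v ↔ C' v)) (i : ℤ) :
    Lam C g i = Lam C' g i := by
  unfold Lam
  simp only [rch_iff_congr hC]

omit hf in
theorem Lam_shift (s : ℤ × ℤ) (i : ℤ) :
    Lam (fun v => C (v.1 + s.1, v.2 + s.2)) (fun i => g (i + s.2) - s.1) i =
      Lam C g (i + s.2) - s.1 := by
  unfold Lam
  simp only [rch_shift_iff]
  have e : ∀ u : ℕ, g (i + s.2) - s.1 + (u : ℤ) + s.1 = g (i + s.2) + u := fun u => by ring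
  simp only [e]
  ring

theorem Lam_mono (hC : ∀ v, C v → C' v) (hg : ∀ x, g x ≤ g' x) (hf' : Fin' C' g') (i : ℤ) :
    Lam C g i ≤ Lam C' g' i := by
  by_contra hlt
  have h1 : Rch C g (Lam C' g' i, i) := (rch_iff hf _).2 (by simpa using hlt)
  exact not_rch_Lam hf' i (h1.mono hC hg)

end det

/-! ### words -/

open Pool.Agent.MPc725eb.Hwy (mv pos us pos_append us_append exists_split)

/-- The word leads to the base, and all its sites are closed. -/
def Okg (g : ℤ → ℤ) (D : ℤ × ℤ → Prop) (w : List (Fin 3)) (v : ℤ × ℤ) : Prop :=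
  (pos w v).1 ≤ g (pos w v).2 ∧ ∀ s ∈ us w v, D s

section words

variable {g : ℤ → ℤ} {D : ℤ × ℤ → Prop}

theorem Okg.tail {m : Fin 3} {w : List (Fin 3)} {v : ℤ × ℤ}
    (h : Okg g D (m :: w) v) : Okg g D w (mv m v) := by
  refine ⟨h.1, fun s hs => h.2 s ?_⟩
  simp only [us]
  split_ifs
  · exact List.mem_cons_of_mem _ hs
  · exact hs

theorem Okg.cons {m : Fin 3} {w w' : List (Fin 3)} {v : ℤ × ℤ}
    (h : Okg g D (m :: w) v) (h' : Okg g D w' (mv m v)) : Okg g D (m :: w') v := by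
  refine ⟨h'.1, fun s hs => ?_⟩
  simp only [us] at hs
  split_ifs at hs with hm
  · rcases List.mem_cons.1 hs with h1 | h1
    · refine h.2 s ?_
      simp [us, hm, h1]
    · exact h'.2 s h1
  · exact h'.2 s hs

theorem Okg.drop {a c : List (Fin 3)} {v : ℤ × ℤ}
    (h : Okg g D (a ++ c) v) : Okg g D c (pos a v) := by
  refine ⟨by rw [← pos_append]; exact h.1, fun s hs => h.2 s ?_⟩
  rw [us_append]
  exact List.mem_append_right _ hs

theorem nodup_of_min (w : List (Fin 3)) (v : ℤ × ℤ) (h : Okg g D w v)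
    (hmin : ∀ w', Okg g D w' v → w.length ≤ w'.length) : (us w v).Nodup := by
  induction w generalizing v with
  | nil => simp [us]
  | cons m w ih =>
    have h1 : (us w (mv m v)).Nodup := by
      refine ih _ h.tail fun w' hw' => ?_
      have := hmin _ (h.cons hw')
      simpa using this
    simp only [us]
    split_ifs with hm
    · refine List.nodup_cons.2 ⟨fun hv => ?_, h1⟩
      obtain ⟨a, c, e, hp⟩ := exists_split hv
      have h2 : Okg g D (a ++ 0 :: c) (mv m v) := e ▸ h.tail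
      have h3 := h2.drop
      rw [hp] at h3
      have := hmin _ h3
      rw [e] at this
      simp at this
      omega
    · exact h1

theorem exists_min {v : ℤ × ℤ} (h : ∃ w, Okg g D w v) :
    ∃ w, Okg g D w v ∧ ∀ w', Okg g D w' v → w.length ≤ w'.length := by
  classical
  have h' : ∃ n, ∃ w, Okg g D w v ∧ w.length = n := by
    obtain ⟨w, hw⟩ := h
    exact ⟨_, w, hw, rfl⟩
  obtain ⟨w, hw, hl⟩ := Nat.find_spec h'
  refine ⟨w, hw, fun w' hw' => ?_⟩
  rw [hl]
  exact Nat.find_min' h' ⟨w', hw', rfl⟩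

theorem pos_snd (w : List (Fin 3)) (v : ℤ × ℤ) :
    |(pos w v).2 - v.2| + (us w v).length ≤ w.length := by
  induction w generalizing v with
  | nil => simp [pos, us]
  | cons m w ih =>
    have h := ih (mv m v)
    simp only [pos, us, List.length_cons]
    fin_cases m
    · simp [mv] at h ⊢; omega
    · simp [mv] at h ⊢
      rw [abs_sub_comm] at h ⊢
      have : |v.2 - (pos w (v.1 + 1, v.2 + 1)).2| ≤ |v.2 + 1 - (pos w (v.1 + 1, v.2 + 1)).2| + 1 := by
        have := abs_sub_abs_le_abs_sub (v.2 - (pos w (v.1 + 1, v.2 + 1)).2)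
          (v.2 + 1 - (pos w (v.1 + 1, v.2 + 1)).2)
        have e : v.2 - (pos w (v.1 + 1, v.2 + 1)).2 - (v.2 + 1 - (pos w (v.1 + 1, v.2 + 1)).2) = -1 := by
          ring
        rw [e] at this
        simp at this
        omega
      omega
    · simp [mv] at h ⊢
      rw [abs_sub_comm] at h ⊢
      have : |v.2 - (pos w (v.1 + 1, v.2 - 1)).2| ≤ |v.2 - 1 - (pos w (v.1 + 1, v.2 - 1)).2| + 1 := by
        have := abs_sub_abs_le_abs_sub (v.2 - (pos w (v.1 + 1, v.2 - 1)).2)
          (v.2 - 1 - (pos w (v.1 + 1, v.2 - 1)).2)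
        have e : v.2 - (pos w (v.1 + 1, v.2 - 1)).2 - (v.2 - 1 - (pos w (v.1 + 1, v.2 - 1)).2) = 1 := by
          ring
        rw [e] at this
        simp at this
        omega
      omega

theorem exists_word {C : ℤ × ℤ → Prop} {v : ℤ × ℤ} (h : Rch C g v) : ∃ w, Okg g C w v := by
  induction h with
  | base h => exact ⟨[], h, by simp [us]⟩
  | @fwd v _ hc ih =>
    obtain ⟨w, hw1, hw2⟩ := ih
    refine ⟨0 :: w, ?_, ?_⟩
    · simpa [pos, mv] using hw1
    · intro s hs
      simp only [us, if_true, mv] at hs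
      rcases List.mem_cons.1 hs with rfl | hs
      · exact hc
      · refine hw2 s ?_
        simpa using hs
  | @dn v _ ih =>
    obtain ⟨w, hw1, hw2⟩ := ih
    refine ⟨1 :: w, ?_, ?_⟩
    · simpa [pos, mv] using hw1
    · intro s hs
      refine hw2 s ?_
      simpa [us, mv] using hs
  | @up v _ ih =>
    obtain ⟨w, hw1, hw2⟩ := ih
    refine ⟨2 :: w, ?_, ?_⟩
    · simpa [pos, mv] using hw1
    · intro s hs
      refine hw2 s ?_
      simpa [us, mv] using hs

/-- Slope condition for the base. -/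
def Slope (g : ℤ → ℤ) : Prop := ∀ x y, 2 * (g x - g y) ≤ |x - y| + 2

/-- A reachable site at distance `h` from the base has a word with many distinct closed sites. -/
theorem exists_good_word (hg : Slope g) {C : ℤ × ℤ → Prop} {h : ℕ} {x : ℤ}
    (hr : Rch C g (g x + h, x)) :
    ∃ n, ∃ w : List.Vector (Fin 3) n,
      n + 2 * h ≤ 3 * ((us w.1 (g x + h, x)).toFinset).card + 2 ∧
      ∀ s ∈ (us w.1 (g x + h, x)).toFinset, C s := by
  obtain ⟨w, hw, hmin⟩ := exists_min (exists_word hr)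
  have hnd := nodup_of_min w _ hw hmin
  have h1 := Pool.Agent.MPc725eb.Hwy.pos_fst w (g x + h, x)
  have h2 := pos_snd w (g x + h, x)
  have h3 := hw.1
  have h4 := hg (pos w (g x + h, x)).2 x
  simp only at h1 h2
  refine ⟨w.length, ⟨w, rfl⟩, ?_, ?_⟩
  · rw [List.toFinset_card_of_nodup hnd]
    omega
  · intro s hs
    exact hw.2 s (List.mem_toFinset.1 hs)

end words

/-! ### probability -/

section prob

variable {Ω : Type*} [MeasurableSpace Ω] {μ : Measure Ω} {cl : Ω → ℤ × ℤ → Prop} {s : ℝ≥0∞}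
  {g : ℤ → ℤ}

theorem rch_prob (hg : Slope g) (hs : s ≤ 1 / 6)
    (H : ∀ S : Finset (ℤ × ℤ), μ {ω | ∀ v ∈ S, cl ω v} ≤ s ^ (3 * S.card)) (h : ℕ) (x : ℤ) :
    μ {ω | Rch (cl ω) g (g x + (h + 1 : ℕ), x)} ≤ 2 * s ^ (2 * h) := by
  have hs1 : s ≤ 1 := hs.trans (by
    rw [one_div]; exact ENNReal.inv_le_one.2 (by norm_num))
  have hsub : {ω | Rch (cl ω) g (g x + (h + 1 : ℕ), x)} ⊆ ⋃ n : ℕ, ⋃ w : List.Vector (Fin 3) n,
      {ω | n + 2 * (h + 1) ≤ 3 * ((us w.1 (g x + (h + 1 : ℕ), x)).toFinset).card + 2 ∧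
        ∀ v ∈ (us w.1 (g x + (h + 1 : ℕ), x)).toFinset, cl ω v} := by
    intro ω hω
    obtain ⟨n, w, h1, h2⟩ := exists_good_word hg (hω : Rch (cl ω) g (g x + (h + 1 : ℕ), x))
    simp only [Set.mem_iUnion]
    exact ⟨n, w, h1, h2⟩
  refine (measure_mono hsub).trans ((measure_iUnion_le _).trans ?_)
  have hterm : ∀ n : ℕ, μ (⋃ w : List.Vector (Fin 3) n,
      {ω | n + 2 * (h + 1) ≤ 3 * ((us w.1 (g x + (h + 1 : ℕ), x)).toFinset).card + 2 ∧
        ∀ v ∈ (us w.1 (g x + (h + 1 : ℕ), x)).toFinset, cl ω v}) ≤ s ^ (2 * h) * (3 * s) ^ n := by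
    intro n
    refine (measure_iUnion_fintype_le _ _).trans ?_
    have : ∀ w : List.Vector (Fin 3) n,
        μ {ω | n + 2 * (h + 1) ≤ 3 * ((us w.1 (g x + (h + 1 : ℕ), x)).toFinset).card + 2 ∧
          ∀ v ∈ (us w.1 (g x + (h + 1 : ℕ), x)).toFinset, cl ω v} ≤ s ^ (n + 2 * h) := by
      intro w
      by_cases hle : n + 2 * (h + 1) ≤ 3 * ((us w.1 (g x + (h + 1 : ℕ), x)).toFinset).card + 2
      · refine (measure_mono fun ω hω => hω.2).trans ((H _).trans ?_)
        exact pow_le_pow_of_le_one (by positivity) hs1 (by omega)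
      · have : {ω | n + 2 * (h + 1) ≤ 3 * ((us w.1 (g x + (h + 1 : ℕ), x)).toFinset).card + 2 ∧
          ∀ v ∈ (us w.1 (g x + (h + 1 : ℕ), x)).toFinset, cl ω v} = ∅ := by
          ext ω
          simp only [Set.mem_setOf_eq, Set.mem_empty_iff_false, iff_false, not_and]
          intro h1
          exact absurd h1 hle
        rw [this]
        simp
    refine (Finset.sum_le_sum fun w _ => this w).trans ?_
    rw [Finset.sum_const, nsmul_eq_mul]
    rw [pow_add, mul_pow]
    simp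
    rw [mul_comm (s ^ (2 * h)), mul_assoc]
  refine (ENNReal.tsum_le_tsum hterm).trans ?_
  rw [ENNReal.tsum_mul_left, ENNReal.tsum_geometric, mul_comm]
  refine mul_le_mul' ?_ le_rfl
  have h3 : 3 * s ≤ 1 / 2 := Pool.Agent.MPc725eb.Hwy.three_mul_le hs
  have h4 : (1 : ℝ≥0∞) / 2 ≤ 1 - 3 * s := by
    have : (1 : ℝ≥0∞) - 1 / 2 ≤ 1 - 3 * s := tsub_le_tsub_left h3 1
    rwa [one_div, ENNReal.one_sub_inv_two, ← one_div] at this
  calc (1 - 3 * s)⁻¹ ≤ (1 / 2)⁻¹ := ENNReal.inv_le_inv.2 h4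
    _ = 2 := by rw [one_div, inv_inv]

/-- The curve is almost surely finite. -/
theorem ae_fin (hg : Slope g) (hs : s ≤ 1 / 6)
    (H : ∀ S : Finset (ℤ × ℤ), μ {ω | ∀ v ∈ S, cl ω v} ≤ s ^ (3 * S.card)) :
    ∀ᵐ ω ∂μ, Fin' (cl ω) g := by
  unfold Fin'
  rw [ae_all_iff]
  intro x
  rw [ae_iff]
  have hle : ∀ h : ℕ, μ {ω | ¬ ∃ u : ℕ, ¬ Rch (cl ω) g (g x + u, x)} ≤ 2 * (1 / 2) ^ h := by
    intro h
    refine (measure_mono fun ω hω => ?_).trans ((rch_prob hg hs H h x).trans ?_)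
    · by_contra h'
      exact hω ⟨h + 1, h'⟩
    · refine mul_le_mul' le_rfl ?_
      rw [pow_mul]
      refine pow_le_pow_left' ?_ h
      calc s ^ 2 ≤ (1 / 6) ^ 2 := pow_le_pow_left' hs 2
        _ ≤ 1 / 2 := by
          rw [one_div, one_div, ← ENNReal.inv_pow]
          exact ENNReal.inv_le_inv.2 (by norm_num)
  have hlim : Filter.Tendsto (fun h : ℕ => (2 : ℝ≥0∞) * (1 / 2) ^ h) Filter.atTop (nhds (2 * 0)) := by
    refine ENNReal.Tendsto.const_mul ?_ (Or.inr (by norm_num))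
    exact ENNReal.tendsto_pow_atTop_nhds_zero_of_lt_one (by
      rw [one_div]; exact ENNReal.inv_lt_one.2 (by norm_num))
  rw [mul_zero] at hlim
  exact le_antisymm (ge_of_tendsto' hlim hle) zero_le

/-- Exponential tails of the distance of the curve from the base. -/
theorem Lam_tail (hg : Slope g) (hs : s ≤ 1 / 6)
    (H : ∀ S : Finset (ℤ × ℤ), μ {ω | ∀ v ∈ S, cl ω v} ≤ s ^ (3 * S.card)) (h : ℕ) (x : ℤ) :
    μ {ω | g x + (h + 1 : ℕ) < Lam (cl ω) g x} ≤ 2 * s ^ (2 * h) := by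
  refine le_trans (measure_mono_ae ?_) (rch_prob hg hs H h x)
  filter_upwards [ae_fin hg hs H] with ω hω h1
  exact (rch_iff hω _).2 h1

end prob

end C7
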