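import Mathlib
import Pool.Agent.Lib.MP_c725eb_pr.Basic
import Pool.Agent.Lib.MP_c725eb_pr.Perc

/-!
# Open curves and the regions on their right

`σ = 0`: columns (line of a vertex `x₁`, index `x₂`); `σ = 1`: antidiagonals (line `x₁ + x₂`, index
`x₂ - x₁`). A curve is a function `c : ℤ → ℤ`, its vertices are `pt σ c i = (c i, σ c i + i)`, its
region is `reg σ c`. `crv σ w K g` is the leftmost open curve to the right of the base `g`, and
`ck σ w K k` the one to the right of the line `k` (its vertices lie on lines `≥ k`, and it depends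
only on the weights of the edges attached to the vertices on lines `≥ k`).
-/

set_option autoImplicit false

namespace C7

open MeasureTheory ProbabilityTheory
open scoped ENNReal

/-- Neighbours in the square lattice. -/
def Nb (u v : V) : Prop :=
  v = (u.1 + 1, u.2) ∨ u = (v.1 + 1, v.2) ∨ v = (u.1, u.2 + 1) ∨ u = (v.1, v.2 + 1)

theorem Nb.symm {u v : V} (h : Nb u v) : Nb v u := by
  unfold Nb at *
  tauto

theorem Nb.adj {u v : V} (h : Nb u v) : Adj u v := by
  unfold Nb at h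
  unfold Adj
  tauto

/-- If the diagonal edges are absent, then a step of finite cost is a step in the square lattice. -/
theorem nb_of_step_ne_top {w : W} (hw : ∀ v, w v 2 = ⊤) {u v : V} (h : step w u v ≠ ⊤) : Nb u v := by
  unfold step at h
  unfold Nb
  split_ifs at h with h1 h2 h3 h4 h5 h6
  · tauto
  · tauto
  · tauto
  · tauto
  · exact absurd (hw u) h
  · exact absurd (hw v) h
  · exact absurd rfl h

theorem step_right (w : W) (u : V) : step w u (u.1 + 1, u.2) = w u 0 := by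
  unfold step
  rw [if_pos rfl]

theorem step_up (w : W) (u : V) : step w u (u.1, u.2 + 1) = w u 1 := by
  obtain ⟨a, b⟩ := u
  unfold step
  simp only [Prod.mk.injEq]
  split_ifs <;> first | rfl | (exfalso; omega)

/-- Index of a vertex. -/
def ix (σ : ℤ) (x : V) : ℤ := x.2 - σ * x.1

/-- Line of a vertex. -/
def ln (σ : ℤ) (x : V) : ℤ := x.1 + σ * x.2

/-- Vertices of a curve. -/
def pt (σ : ℤ) (c : ℤ → ℤ) (i : ℤ) : V := (c i, σ * c i + i)

/-- Region to the right of a curve. -/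
def reg (σ : ℤ) (c : ℤ → ℤ) : Set V := {x | c (ix σ x) ≤ x.1}

/-- Step condition for curves. -/
def Stp (σ : ℤ) (c : ℤ → ℤ) : Prop := ∀ i, -1 ≤ c (i + 1) - c i ∧ c (i + 1) - c i ≤ 1 - σ

theorem ix_pt (σ : ℤ) (c : ℤ → ℤ) (i : ℤ) : ix σ (pt σ c i) = i := by
  unfold ix pt; ring

theorem pt_mem (σ : ℤ) (c : ℤ → ℤ) (i : ℤ) : pt σ c i ∈ reg σ c := by
  change c (ix σ (pt σ c i)) ≤ (pt σ c i).1
  rw [ix_pt]; exact le_rfl

theorem pt_inj {σ : ℤ} {c : ℤ → ℤ} {i j : ℤ} (h : pt σ c i = pt σ c j) : i = j := by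
  rw [← ix_pt σ c i, h, ix_pt]

theorem eq_pt {σ : ℤ} {c : ℤ → ℤ} {x : V} (h : x.1 = c (ix σ x)) : x = pt σ c (ix σ x) := by
  unfold pt
  rw [← h]
  unfold ix
  ext
  · rfl
  · simp

theorem reg_mono {σ : ℤ} {c c' : ℤ → ℤ} (h : ∀ i, c i ≤ c' i) : reg σ c' ⊆ reg σ c :=
  fun x hx => (h _).trans hx

/-- A region can only be entered at a vertex of the curve. -/
theorem entrance {σ : ℤ} (hσ : σ = 0 ∨ σ = 1) {c : ℤ → ℤ} (h : Stp σ c) {u v : V} (huv : Nb u v)
    (hu : u ∉ reg σ c) (hv : v ∈ reg σ c) : v = pt σ c (ix σ v) := by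
  apply eq_pt
  obtain ⟨u1, u2⟩ := u
  obtain ⟨v1, v2⟩ := v
  simp only [reg, Set.mem_setOf_eq, not_le, ix] at hu hv ⊢
  rcases hσ with rfl | rfl
  · simp only [zero_mul, sub_zero] at hu hv ⊢
    rcases huv with e | e | e | e <;> simp only [Prod.mk.injEq] at e
    · obtain ⟨rfl, rfl⟩ := e
      omega
    · obtain ⟨rfl, rfl⟩ := e
      omega
    · obtain ⟨rfl, rfl⟩ := e
      have := h u2
      omega
    · obtain ⟨rfl, rfl⟩ := e
      have := h v2
      omega
  · simp only [one_mul] at hu hv ⊢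
    rcases huv with e | e | e | e <;> simp only [Prod.mk.injEq] at e
    · obtain ⟨rfl, rfl⟩ := e
      have := h (v2 - (u1 + 1))
      have e : v2 - (u1 + 1) + 1 = v2 - u1 := by ring
      rw [e] at this
      omega
    · obtain ⟨rfl, rfl⟩ := e
      have := h (u2 - (v1 + 1))
      have e : u2 - (v1 + 1) + 1 = u2 - v1 := by ring
      rw [e] at this
      omega
    · obtain ⟨rfl, rfl⟩ := e
      have := h (u2 - v1)
      have e : u2 - v1 + 1 = u2 + 1 - v1 := by ring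
      rw [e] at this
      omega
    · obtain ⟨rfl, rfl⟩ := e
      have := h (v2 - u1)
      have e : v2 - u1 + 1 = v2 + 1 - u1 := by ring
      rw [e] at this
      omega

/-- Open vertices: the edges to the right and up (and down, for `σ = 0`) have weight at most `K`. -/
def Opn (σ : ℤ) (w : W) (K : ℝ≥0∞) (v : V) : Prop :=
  w v 0 ≤ K ∧ w v 1 ≤ K ∧ (σ = 0 → w (v.1, v.2 - 1) 1 ≤ K)

/-- Consecutive vertices of an open curve are close to each other, inside the region. -/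
theorem T_pt_succ {σ : ℤ} (hσ : σ = 0 ∨ σ = 1) {c : ℤ → ℤ} (h : Stp σ c) {w : W} {K : ℝ≥0∞}
    (ho : ∀ i, Opn σ w K (pt σ c i)) (i : ℤ) :
    T w (reg σ c) (pt σ c i) (pt σ c (i + 1)) ≤ 2 * K := by
  have hK : K ≤ 2 * K := by rw [two_mul]; exact le_self_add
  have hi := h i
  rcases hσ with rfl | rfl
  · simp only [sub_zero] at hi
    rcases (by omega : c (i + 1) = c i ∨ c (i + 1) = c i + 1 ∨ c (i + 1) = c i - 1) with e | e | e
    · refine (T_le_step w (pt_mem _ _ _) (pt_mem _ _ _)).trans ?_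
      have e2 : pt 0 c (i + 1) = ((pt 0 c i).1, (pt 0 c i).2 + 1) := by
        simp [pt, e]
      rw [e2, step_up]
      exact (ho i).2.1.trans hK
    · set m : V := ((pt 0 c i).1 + 1, (pt 0 c i).2) with hm
      have hmem : m ∈ reg 0 c := by
        simp [hm, reg, pt, ix]
      have e2 : pt 0 c (i + 1) = (m.1, m.2 + 1) := by
        simp [pt, hm, e]
      have e3 : ((pt 0 c (i + 1)).1, (pt 0 c (i + 1)).2 - 1) = m := by
        rw [e2]; simp
      refine (T_triangle w _ _ m _).trans ?_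
      rw [two_mul]
      refine add_le_add ((T_le_step w (pt_mem _ _ _) hmem).trans ?_)
        ((T_le_step w hmem (pt_mem _ _ _)).trans ?_)
      · rw [hm, step_right]
        exact (ho i).1
      · have h3 := (ho (i + 1)).2.2 rfl
        rw [e3] at h3
        rw [e2, step_up]
        exact h3
    · set m : V := ((pt 0 c i).1, (pt 0 c i).2 + 1) with hm
      have hmem : m ∈ reg 0 c := by
        simp [hm, reg, pt, ix, e]
      have e2 : m = ((pt 0 c (i + 1)).1 + 1, (pt 0 c (i + 1)).2) := by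
        simp [pt, hm, e]
      refine (T_triangle w _ _ m _).trans ?_
      rw [two_mul]
      refine add_le_add ((T_le_step w (pt_mem _ _ _) hmem).trans ?_)
        ((T_le_step w hmem (pt_mem _ _ _)).trans ?_)
      · rw [hm, step_up]
        exact (ho i).2.1
      · rw [step_comm, e2, step_right]
        exact (ho (i + 1)).1
  · rcases (by omega : c (i + 1) = c i ∨ c (i + 1) = c i - 1) with e | e
    · refine (T_le_step w (pt_mem _ _ _) (pt_mem _ _ _)).trans ?_
      have e2 : pt 1 c (i + 1) = ((pt 1 c i).1, (pt 1 c i).2 + 1) := by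
        simp only [pt, e, Prod.mk.injEq, true_and]; ring
      rw [e2, step_up]
      exact (ho i).2.1.trans hK
    · refine (T_le_step w (pt_mem _ _ _) (pt_mem _ _ _)).trans ?_
      have e2 : pt 1 c i = ((pt 1 c (i + 1)).1 + 1, (pt 1 c (i + 1)).2) := by
        simp only [pt, e, Prod.mk.injEq]
        constructor <;> ring
      rw [step_comm, e2, step_right]
      exact (ho (i + 1)).1.trans hK

theorem T_pt_le {σ : ℤ} (hσ : σ = 0 ∨ σ = 1) {c : ℤ → ℤ} (h : Stp σ c) {w : W} {K : ℝ≥0∞}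
    (ho : ∀ i, Opn σ w K (pt σ c i)) (i : ℤ) (n : ℕ) :
    T w (reg σ c) (pt σ c i) (pt σ c (i + n)) ≤ n * (2 * K) := by
  induction n with
  | zero =>
    simp only [Nat.cast_zero, add_zero, zero_mul]
    exact (T_self w (pt_mem _ _ _)).le
  | succ n ih =>
    have h1 := T_pt_succ hσ h ho (i + n)
    have e : i + ((n + 1 : ℕ) : ℤ) = i + n + 1 := by push_cast; ring
    rw [e]
    refine (T_triangle w _ _ (pt σ c (i + n)) _).trans ?_
    rw [Nat.cast_succ, add_mul, one_mul]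
    exact add_le_add ih h1

/-! ### the leftmost open curve -/

/-- The least first coordinate of a vertex of index `i` on a line `≥ j`. -/
def fx (σ j i : ℤ) : ℤ := (j - σ * i + σ) / (1 + σ)

/-- Closed sites in (line, index) coordinates. -/
def ClP (σ : ℤ) (w : W) (K : ℝ≥0∞) (v : ℤ × ℤ) : Prop :=
  ¬ Opn σ w K (fx σ v.1 v.2, σ * fx σ v.1 v.2 + v.2)

/-- The leftmost open curve. -/
noncomputable def crv (σ : ℤ) (w : W) (K : ℝ≥0∞) (g : ℤ → ℤ) (i : ℤ) : ℤ :=
  fx σ (Lam (ClP σ w K) g i) i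

theorem fx_le_iff {σ : ℤ} (hσ : σ = 0 ∨ σ = 1) (j : ℤ) (x : V) :
    fx σ j (ix σ x) ≤ x.1 ↔ j ≤ ln σ x := by
  obtain ⟨a, b⟩ := x
  unfold fx ix ln
  rcases hσ with rfl | rfl
  · simp
  · simp only [one_mul]
    omega

theorem lt_ln_pt {σ : ℤ} (hσ : σ = 0 ∨ σ = 1) (c : ℤ → ℤ) (j i : ℤ) (h : c i = fx σ j i) :
    j ≤ ln σ (pt σ c i) ∧ ln σ (pt σ c i) ≤ j + σ := by
  unfold ln pt
  simp only [h, fx]
  rcases hσ with rfl | rfl
  · simp
  · simp only [one_mul]
    omega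

section crv

variable {σ : ℤ} (hσ : σ = 0 ∨ σ = 1) {w w' : W} {K : ℝ≥0∞} {g g' : ℤ → ℤ}

include hσ

theorem crv_stp (hf : Fin' (ClP σ w K) g) : Stp σ (crv σ w K g) := by
  intro i
  have h := Lam_lip hf i
  unfold crv fx
  rcases hσ with rfl | rfl
  · simp only [zero_mul, sub_zero, add_zero, Int.ediv_one]
    omega
  · simp only [one_mul]
    omega

omit hσ in
theorem crv_open (hf : Fin' (ClP σ w K) g) (i : ℤ) : Opn σ w K (pt σ (crv σ w K g) i) := by
  have h := not_closed_Lam hf i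
  unfold ClP at h
  rw [not_not] at h
  exact h

theorem mem_reg_crv (hf : Fin' (ClP σ w K) g) (x : V) :
    x ∈ reg σ (crv σ w K g) ↔ ¬ Rch (ClP σ w K) g (ln σ x, ix σ x) := by
  change fx σ (Lam (ClP σ w K) g (ix σ x)) (ix σ x) ≤ x.1 ↔ _
  rw [fx_le_iff hσ, rch_iff hf, not_lt]

theorem crv_line (i : ℤ) : Lam (ClP σ w K) g i ≤ ln σ (pt σ (crv σ w K g) i) ∧
    ln σ (pt σ (crv σ w K g) i) ≤ Lam (ClP σ w K) g i + σ :=
  lt_ln_pt hσ _ _ i rfl

theorem lt_crv (hf : Fin' (ClP σ w K) g) (i : ℤ) : g i < ln σ (pt σ (crv σ w K g) i) :=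
  (lt_Lam hf i).trans_le (crv_line hσ i).1

theorem crv_mono (hf : Fin' (ClP σ w K) g) (hf' : Fin' (ClP σ w K) g') (hg : ∀ i, g i ≤ g' i)
    (i : ℤ) : crv σ w K g i ≤ crv σ w K g' i := by
  have h := Lam_mono hf (fun v hv => hv) hg hf' i
  unfold crv fx
  refine Int.ediv_le_ediv ?_ (by omega)
  rcases hσ with rfl | rfl <;> omega

/-- Shift of the configuration. -/
def sh (s : V) (w : W) : W := fun v d => w (v.1 + s.1, v.2 + s.2) d

omit hσ in
theorem opn_sh (s : V) (v : V) : Opn σ (sh s w) K v ↔ Opn σ w K (v.1 + s.1, v.2 + s.2) := by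
  unfold Opn sh
  simp only
  have e : v.2 - 1 + s.2 = v.2 + s.2 - 1 := by ring
  rw [e]

theorem fx_add (s : V) (j i : ℤ) : fx σ (j + ln σ s) (i + ix σ s) = fx σ j i + s.1 := by
  obtain ⟨a, b⟩ := s
  unfold fx ln ix
  rcases hσ with rfl | rfl
  · simp
  · simp only [one_mul]
    omega

theorem clP_sh (s : V) : ClP σ (sh s w) K = fun v => ClP σ w K (v.1 + ln σ s, v.2 + ix σ s) := by
  funext v
  unfold ClP
  rw [opn_sh, fx_add hσ]
  have e : σ * fx σ v.1 v.2 + v.2 + s.2 = σ * (fx σ v.1 v.2 + s.1) + (v.2 + ix σ s) := by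
    unfold ix; ring
  simp only [e]

theorem crv_sh (s : V) (i : ℤ) :
    crv σ (sh s w) K (fun i => g (i + ix σ s) - ln σ s) i = crv σ w K g (i + ix σ s) - s.1 := by
  unfold crv
  rw [clP_sh hσ, Lam_shift (ln σ s, ix σ s)]
  have h := fx_add hσ s (Lam (ClP σ w K) g (i + ix σ s) - ln σ s) i
  rw [sub_add_cancel] at h
  rw [h]
  ring

theorem fin_sh (s : V) (hf : Fin' (ClP σ w K) g) :
    Fin' (ClP σ (sh s w) K) (fun i => g (i + ix σ s) - ln σ s) := by
  intro i
  obtain ⟨u, hu⟩ := hf (i + ix σ s)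
  refine ⟨u, ?_⟩
  rw [clP_sh hσ, rch_shift_iff (ln σ s, ix σ s)]
  have e : g (i + ix σ s) - ln σ s + (u : ℤ) + ln σ s = g (i + ix σ s) + u := by ring
  simp only [e]
  exact hu

end crv

/-! ### the curve of a line -/

/-- The leftmost open curve on lines `≥ k`. -/
noncomputable def ck (σ : ℤ) (w : W) (K : ℝ≥0∞) (k : ℤ) : ℤ → ℤ := crv σ w K fun _ => k - 1

/-- The region of the line `k`. -/
noncomputable def Rg (σ : ℤ) (w : W) (K : ℝ≥0∞) (k : ℤ) : Set V := reg σ (ck σ w K k)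

/-- The vertices of the curve of the line `k`. -/
noncomputable def pk (σ : ℤ) (w : W) (K : ℝ≥0∞) (k i : ℤ) : V := pt σ (ck σ w K k) i

/-- All curves exist. -/
def Good (σ : ℤ) (w : W) (K : ℝ≥0∞) : Prop := ∀ k : ℤ, Fin' (ClP σ w K) fun _ => k - 1

section ck

variable {σ : ℤ} (hσ : σ = 0 ∨ σ = 1) {w w' : W} {K : ℝ≥0∞}

theorem ck_stp (hσ : σ = 0 ∨ σ = 1) (hf : Good σ w K) (k : ℤ) : Stp σ (ck σ w K k) :=
  crv_stp hσ (hf k)

theorem pk_open (hf : Good σ w K) (k i : ℤ) : Opn σ w K (pk σ w K k i) := crv_open (hf k) i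

theorem ix_pk (k i : ℤ) : ix σ (pk σ w K k i) = i := ix_pt _ _ _

theorem pk_mem (k i : ℤ) : pk σ w K k i ∈ Rg σ w K k := pt_mem _ _ _

theorem pk_inj {k i j : ℤ} (h : pk σ w K k i = pk σ w K k j) : i = j := pt_inj h

theorem Rg_anti (hσ : σ = 0 ∨ σ = 1) (hf : Good σ w K) {k l : ℤ} (h : k ≤ l) :
    Rg σ w K l ⊆ Rg σ w K k :=
  reg_mono fun i => crv_mono hσ (hf k) (hf l) (fun _ => by omega) i

theorem le_ln_pk (hσ : σ = 0 ∨ σ = 1) (hf : Good σ w K) (k i : ℤ) : k ≤ ln σ (pk σ w K k i) := by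
  have := lt_crv hσ (hf k) i
  unfold pk ck
  omega

theorem le_ln_of_mem (hσ : σ = 0 ∨ σ = 1) (hf : Good σ w K) {k : ℤ} {x : V}
    (hx : x ∈ Rg σ w K k) : k ≤ ln σ x := by
  by_contra hlt
  have h1 := (mem_reg_crv hσ (hf k) x).1 hx
  exact h1 (.base (by simp only; omega))

/-- Regions are entered at the vertices of their curves. -/
theorem Rg_entrance (hσ : σ = 0 ∨ σ = 1) (hf : Good σ w K) {k : ℤ} {u v : V} (huv : Nb u v)
    (hu : u ∉ Rg σ w K k) (hv : v ∈ Rg σ w K k) : v = pk σ w K k (ix σ v) :=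
  entrance hσ (ck_stp hσ hf k) huv hu hv

theorem T_pk_succ (hσ : σ = 0 ∨ σ = 1) (hf : Good σ w K) (k i : ℤ) :
    T w (Rg σ w K k) (pk σ w K k i) (pk σ w K k (i + 1)) ≤ 2 * K :=
  T_pt_succ hσ (ck_stp hσ hf k) (pk_open hf k) i

theorem T_pk_le (hσ : σ = 0 ∨ σ = 1) (hf : Good σ w K) (k i : ℤ) (n : ℕ) :
    T w (Rg σ w K k) (pk σ w K k i) (pk σ w K k (i + n)) ≤ n * (2 * K) :=
  T_pt_le hσ (ck_stp hσ hf k) (pk_open hf k) i n

/-- Every vertex belongs to the region of a line far to the left. -/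
theorem mem_Rg_of_tail (hσ : σ = 0 ∨ σ = 1) (hf : Good σ w K) {k : ℤ} {x : V}
    (h : ck σ w K k (ix σ x) ≤ x.1) : x ∈ Rg σ w K k := h

theorem opn_congr {k : ℤ} (hσ : σ = 0 ∨ σ = 1)
    (h : ∀ x : V, k ≤ ln σ x → w x 0 = w' x 0 ∧ w x 1 = w' x 1) {v : V} (hv : k ≤ ln σ v) :
    Opn σ w K v ↔ Opn σ w' K v := by
  unfold Opn
  rw [(h v hv).1, (h v hv).2]
  rcases hσ with rfl | rfl
  · have h2 : k ≤ ln 0 (v.1, v.2 - 1) := by
      unfold ln at hv ⊢
      simpa using hv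
    rw [(h _ h2).2]
  · simp

/-- The curve of the line `k` depends only on the weights of the edges of the vertices on lines
`≥ k`. -/
theorem ck_congr (hσ : σ = 0 ∨ σ = 1) {k : ℤ}
    (h : ∀ x : V, k ≤ ln σ x → w x 0 = w' x 0 ∧ w x 1 = w' x 1) : ck σ w K k = ck σ w' K k := by
  funext i
  unfold ck crv
  rw [Lam_congr (C' := ClP σ w' K)]
  intro v hv
  unfold ClP
  rw [not_iff_not]
  apply opn_congr hσ h
  have e : v.2 = ix σ (fx σ v.1 v.2, σ * fx σ v.1 v.2 + v.2) := by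
    unfold ix; ring
  have h1 : v.1 ≤ ln σ (fx σ v.1 v.2, σ * fx σ v.1 v.2 + v.2) := by
    rw [← fx_le_iff hσ, ← e]
  omega

theorem Rg_congr (hσ : σ = 0 ∨ σ = 1) {k : ℤ}
    (h : ∀ x : V, k ≤ ln σ x → w x 0 = w' x 0 ∧ w x 1 = w' x 1) : Rg σ w K k = Rg σ w' K k := by
  unfold Rg
  rw [ck_congr hσ h]

theorem ck_sh (hσ : σ = 0 ∨ σ = 1) (s : V) (k i : ℤ) :
    ck σ (sh s w) K (k - ln σ s) i = ck σ w K k (i + ix σ s) - s.1 := by
  have := crv_sh hσ (w := w) (K := K) (g := fun _ => k - 1) s i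
  unfold ck
  rw [← this]
  congr 1
  funext i
  ring

theorem pk_sh (hσ : σ = 0 ∨ σ = 1) (s : V) (k i : ℤ) :
    pk σ (sh s w) K (k - ln σ s) i =
      ((pk σ w K k (i + ix σ s)).1 - s.1, (pk σ w K k (i + ix σ s)).2 - s.2) := by
  unfold pk pt
  simp only [ck_sh hσ s k i, Prod.mk.injEq, true_and]
  unfold ix
  ring

theorem mem_Rg_sh (hσ : σ = 0 ∨ σ = 1) (s : V) (k : ℤ) (x : V) :
    x ∈ Rg σ (sh s w) K (k - ln σ s) ↔ (x.1 + s.1, x.2 + s.2) ∈ Rg σ w K k := by
  unfold Rg reg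
  simp only [Set.mem_setOf_eq]
  rw [ck_sh hσ s k]
  have e : ix σ x + ix σ s = ix σ (x.1 + s.1, x.2 + s.2) := by
    unfold ix; ring
  rw [e]
  omega

theorem good_sh (hσ : σ = 0 ∨ σ = 1) (s : V) (hf : Good σ w K) : Good σ (sh s w) K := by
  intro k
  have := fin_sh hσ s (hf (k + ln σ s))
  have e : (fun i : ℤ => (fun _ : ℤ => k + ln σ s - 1) (i + ix σ s) - ln σ s) = fun _ => k - 1 := by
    funext i
    simp only
    ring
  rw [e] at this
  exact this

end ck

/-! ### passage times and shifts -/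

theorem step_sh (w : W) (s u v : V) :
    step (sh s w) u v = step w (u.1 + s.1, u.2 + s.2) (v.1 + s.1, v.2 + s.2) := by
  obtain ⟨a, b⟩ := u
  obtain ⟨c, d⟩ := v
  obtain ⟨e, f⟩ := s
  unfold step sh
  simp only [Prod.mk.injEq]
  split_ifs <;> first | rfl | (exfalso; omega)

/-- Translation of vertices. -/
def tr (s : V) (v : V) : V := (v.1 + s.1, v.2 + s.2)

theorem cost_sh (w : W) (s : V) (l : List V) : cost (sh s w) l = cost w (l.map (tr s)) := by
  induction l with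
  | nil => rfl
  | cons a l ih =>
    cases l with
    | nil => rfl
    | cons b l' =>
      simp only [List.map_cons, cost_cons_cons] at ih ⊢
      rw [ih, step_sh]
      rfl

theorem IsW.tr {D : Set V} {x y : V} {l : List V} (s : V) (h : IsW D x y l) :
    IsW (C7.tr s '' D) (C7.tr s x) (C7.tr s y) (l.map (C7.tr s)) := by
  refine ⟨?_, ?_, ?_⟩
  · rw [List.head?_map, h.1]; rfl
  · rw [List.getLast?_map, h.2.1]; rfl
  · intro v hv
    obtain ⟨u, hu, rfl⟩ := List.mem_map.1 hv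
    exact ⟨u, h.2.2 u hu, rfl⟩

theorem tr_tr (s : V) (v : V) : tr (-s.1, -s.2) (tr s v) = v := by
  unfold tr
  ext <;> simp

theorem tr_tr' (s : V) (v : V) : tr s (tr (-s.1, -s.2) v) = v := by
  unfold tr
  ext <;> simp

theorem T_sh (w : W) (s : V) (D : Set V) (x y : V) :
    T (sh s w) D x y = T w (tr s '' D) (tr s x) (tr s y) := by
  apply le_antisymm
  · refine le_T fun l hl => ?_
    have h1 := hl.tr (-s.1, -s.2)
    rw [tr_tr, tr_tr] at h1
    have e : tr (-s.1, -s.2) '' (tr s '' D) = D := by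
      rw [← Set.image_comp]
      have e0 : tr (-s.1, -s.2) ∘ tr s = id := by
        funext v
        exact tr_tr s v
      rw [e0, Set.image_id]
    rw [e] at h1
    refine (T_le h1).trans ?_
    rw [cost_sh, List.map_map]
    have e2 : tr s ∘ tr (-s.1, -s.2) = id := by
      funext v
      exact tr_tr' s v
    rw [e2, List.map_id]
  · refine le_T fun l hl => ?_
    rw [cost_sh]
    exact T_le (hl.tr s)

end C7
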