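import Mathlib
import Pool.Agent.Lib.MP_c725eb_pr.Curve

/-!
# Blocking (deterministic part)

Slow vertices `I` to the left of the line `l`, bounded by a frame `Fr` and the vertices `Wi` of the
line `l` with indices strictly between `tm` and `tp`.  A walk which comes from the left of the line
`l`, outside of `I`, and ends at the vertex of the curve `l` with index `u`, `tm < u < tp`, is not
optimal.
-/

set_option autoImplicit false

namespace C7

open scoped ENNReal

/-- Vertices of the line `l` with index strictly between `tm` and `tp`. -/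
def Wi (σ l tm tp : ℤ) : Set V := {y | ln σ y = l ∧ tm < ix σ y ∧ ix σ y < tp}

/-- The half plane to the right of the line `l`. -/
def Hl (σ l : ℤ) : Set V := {v | l ≤ ln σ v}

/-- Graph distance in the square lattice. -/
def d1 (x y : V) : ℕ := (x.1 - y.1).natAbs + (x.2 - y.2).natAbs

/-- Blocking configuration. -/
structure Blk (σ : ℤ) (w : W) (D : Set V) (l tm tp : ℤ) (I Fr : Set V) (R0 R1 : ℝ≥0∞) : Prop where
  slow : ∀ x ∈ I, ∀ y, R1 ≤ step w x y
  nb : ∀ x ∈ I, ∀ y, Nb x y → y ∈ I ∨ y ∈ Fr ∨ y ∈ Wi σ l tm tp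
  win : ∀ y ∈ Wi σ l tm tp, ∀ x, Nb x y → ln σ x < l → x ∈ I
  bl : ∀ f y, f ∈ Fr ∨ f ∈ Wi σ l tm tp → y ∈ Wi σ l tm tp → T w D f y ≤ d1 f y * R0

theorem d1_le_succ {f x y : V} (h : Nb x y) {n : ℕ} (hn : d1 f x ≤ n) : d1 f y ≤ n + 1 := by
  obtain ⟨f1, f2⟩ := f
  obtain ⟨x1, x2⟩ := x
  obtain ⟨y1, y2⟩ := y
  simp only [d1, Nb, Prod.mk.injEq] at *
  omega

theorem d1_le_one {x y : V} (h : Nb x y) : d1 x y ≤ 1 := by
  obtain ⟨x1, x2⟩ := x
  obtain ⟨y1, y2⟩ := y
  simp only [d1, Nb, Prod.mk.injEq] at *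
  omega

theorem cost_concat (w : W) (l : List V) (a b : V) :
    cost w (l ++ [a] ++ [b]) = cost w (l ++ [a]) + step w a b := by
  have h := cost_append w l [b] a
  rw [cost_cons_cons, cost_single, add_zero] at h
  rw [← h, List.append_assoc, List.singleton_append]

section

variable {σ : ℤ} {w : W} {D : Set V} {l tm tp : ℤ} {I Fr : Set V} {R0 R1 : ℝ≥0∞}

/-- A walk which ends in the slow region. -/
theorem Blk.run (hB : Blk σ w D l tm tp I Fr R0 R1) (hw : ∀ v, w v 2 = ⊤) {x : V} (hx : x ∉ I)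
    (L : List V) : ∀ {z : V}, z ∈ I → IsW D x z L → cost w L ≠ ⊤ →
      ∃ f, (f ∈ Fr ∨ f ∈ Wi σ l tm tp) ∧ ∃ n : ℕ, d1 f z ≤ n ∧ T w D x f + n * R1 ≤ cost w L := by
  induction L using List.reverseRecOn with
  | nil => intro z _ hL; exact absurd rfl (isW_ne_nil hL)
  | append_singleton L a ih =>
    intro z hz hL hfin
    have ha : a = z := by simpa using hL.2.1
    subst ha
    rcases List.eq_nil_or_concat L with rfl | ⟨L', z', hL'⟩
    · have : a = x := by simpa using hL.1
      exact absurd (this ▸ hz) hx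
    · subst hL'
      rw [List.concat_eq_append] at *
      rw [cost_concat] at hfin ⊢
      have h1 : step w z' a ≠ ⊤ := fun h => hfin (by rw [h, add_top])
      have h2 : cost w (L' ++ [z']) ≠ ⊤ := fun h => hfin (by rw [h, top_add])
      have hnb := nb_of_step_ne_top hw h1
      have hW : IsW D x z' (L' ++ [z']) := by
        refine ⟨?_, by simp, fun v hv => hL.2.2 v (List.mem_append_left _ hv)⟩
        have := hL.1
        rw [List.head?_append_of_ne_nil _ (by simp)] at this
        exact this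
      have h3 : R1 ≤ step w z' a := by
        rw [step_comm]
        exact hB.slow a hz z'
      by_cases hz' : z' ∈ I
      · obtain ⟨f, hf, n, hn, h4⟩ := ih hz' hW h2
        refine ⟨f, hf, n + 1, d1_le_succ hnb hn, ?_⟩
        push_cast
        rw [add_mul, one_mul, ← add_assoc]
        exact add_le_add h4 h3
      · refine ⟨z', ?_, 1, d1_le_one hnb, ?_⟩
        · rcases hB.nb a hz z' hnb.symm with h | h | h
          · exact absurd h hz'
          · exact Or.inl h
          · exact Or.inr h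
        · rw [Nat.cast_one, one_mul]
          exact add_le_add (T_le hW) h3

/-- A walk which leaves the slow region through the line `l`. -/
theorem Blk.run_end (hB : Blk σ w D l tm tp I Fr R0 R1) (hw : ∀ v, w v 2 = ⊤) {x y z : V}
    (hx : x ∉ I) (hz : z ∈ I) (hy : y ∈ Wi σ l tm tp) {L : List V} (hL : IsW D x z L)
    {δ : ℝ≥0∞} (hδ : R0 + δ ≤ R1) : T w D x y + δ ≤ cost w L + step w z y := by
  by_cases hfin : cost w L + step w z y = ⊤
  · rw [hfin]; exact le_top
  have h1 : step w z y ≠ ⊤ := fun h => hfin (by rw [h, add_top])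
  have h2 : cost w L ≠ ⊤ := fun h => hfin (by rw [h, top_add])
  obtain ⟨f, hf, n, hn, h3⟩ := hB.run hw hx L hz hL h2
  have hnb := nb_of_step_ne_top hw h1
  have h4 : d1 f y ≤ n + 1 := d1_le_succ hnb hn
  have h5 := hB.bl f y hf hy
  calc T w D x y + δ ≤ (T w D x f + T w D f y) + δ := by gcongr; exact T_triangle _ _ _ _ _
    _ ≤ (T w D x f + ((n + 1 : ℕ) : ℝ≥0∞) * R0) + ((n + 1 : ℕ) : ℝ≥0∞) * δ := by
        gcongr
        · refine h5.trans ?_
          gcongr
        · calc δ = 1 * δ := (one_mul δ).symm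
            _ ≤ ((n + 1 : ℕ) : ℝ≥0∞) * δ := by gcongr; exact_mod_cast Nat.le_add_left 1 n
    _ = T w D x f + ((n + 1 : ℕ) : ℝ≥0∞) * (R0 + δ) := by rw [mul_add, add_assoc]
    _ ≤ T w D x f + ((n + 1 : ℕ) : ℝ≥0∞) * R1 := by gcongr
    _ = (T w D x f + n * R1) + R1 := by push_cast; rw [add_mul, one_mul, add_assoc]
    _ ≤ cost w L + step w z y := add_le_add h3 (hB.slow z hz y)

end

/-! ### Splitting lists -/

theorem split_last {P : V → Prop} (l : List V) (h : ∃ z ∈ l, P z)
    (hl : ∀ z ∈ l.getLast?, ¬ P z) :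
    ∃ l₁ a b l₂, l = l₁ ++ a :: b :: l₂ ∧ P a ∧ ∀ z ∈ b :: l₂, ¬ P z := by
  induction l with
  | nil => obtain ⟨z, hz, -⟩ := h; simp at hz
  | cons x l ih =>
    by_cases h1 : ∃ z ∈ l, P z
    · have hne : l ≠ [] := by
        rintro rfl
        obtain ⟨z, hz, -⟩ := h1
        simp at hz
      obtain ⟨l₁, a, b, l₂, h2, h3, h4⟩ := ih h1 (by
        intro z hz
        apply hl
        cases l with
        | nil => exact absurd rfl hne
        | cons y l' => simpa using hz)
      exact ⟨x :: l₁, a, b, l₂, by rw [h2]; rfl, h3, h4⟩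
    · push Not at h1
      have hx : P x := by
        obtain ⟨z, hz, hz'⟩ := h
        rcases List.mem_cons.mp hz with rfl | hz
        · exact hz'
        · exact absurd hz' (h1 z hz)
      cases l with
      | nil => exact absurd hx (hl x (by simp))
      | cons b l₂ => exact ⟨[], x, b, l₂, rfl, hx, h1⟩

theorem split_first {P : V → Prop} (l : List V) (h : ∃ z ∈ l, P z) :
    ∃ l₁ c l₂, l = l₁ ++ c :: l₂ ∧ P c ∧ ∀ z ∈ l₁, ¬ P z := by
  induction l with
  | nil => obtain ⟨z, hz, -⟩ := h; simp at hz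
  | cons x l ih =>
    by_cases hx : P x
    · exact ⟨[], x, l, rfl, hx, by simp⟩
    · obtain ⟨z, hz, hz'⟩ := h
      rcases List.mem_cons.mp hz with rfl | hz
      · exact absurd hz' hx
      · obtain ⟨l₁, c, l₂, h1, h2, h3⟩ := ih ⟨z, hz, hz'⟩
        refine ⟨x :: l₁, c, l₂, by rw [h1]; rfl, h2, fun y hy => ?_⟩
        rcases List.mem_cons.mp hy with rfl | hy
        · exact hx
        · exact h3 y hy

theorem ix_nb {σ : ℤ} (hσ : σ = 0 ∨ σ = 1) {x y : V} (h : Nb x y) :
    ix σ y ≤ ix σ x + 1 ∧ ix σ x ≤ ix σ y + 1 := by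
  obtain ⟨x1, x2⟩ := x
  obtain ⟨y1, y2⟩ := y
  simp only [Nb, ix, Prod.mk.injEq] at *
  rcases hσ with rfl | rfl <;> omega

theorem ln_nb {σ : ℤ} (hσ : σ = 0 ∨ σ = 1) {x y : V} (h : Nb x y) :
    ln σ y ≤ ln σ x + 1 ∧ ln σ x ≤ ln σ y + 1 := by
  obtain ⟨x1, x2⟩ := x
  obtain ⟨y1, y2⟩ := y
  simp only [Nb, ln, Prod.mk.injEq] at *
  rcases hσ with rfl | rfl <;> omega

/-- A walk avoiding the indices `tm` and `tp` stays on its side. -/
theorem side_keep {σ : ℤ} (hσ : σ = 0 ∨ σ = 1) {w : W} (hw : ∀ v, w v 2 = ⊤) {tm tp : ℤ}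
    (L : List V) (c : V) (hfin : cost w (L ++ [c]) ≠ ⊤)
    (hL : ∀ z ∈ L, ix σ z ≠ tm ∧ ix σ z ≠ tp)
    (hh : ∀ z ∈ (L ++ [c]).head?, ix σ z ≤ tm ∨ tp ≤ ix σ z) : ix σ c ≤ tm ∨ tp ≤ ix σ c := by
  induction L with
  | nil => exact hh c (by simp)
  | cons z L ih =>
    have hz := hh z (by simp)
    have hz' := hL z (by simp)
    -- the next vertex
    obtain ⟨b, L', hb⟩ : ∃ b L', L ++ [c] = b :: L' := by
      cases L with
      | nil => exact ⟨c, [], rfl⟩
      | cons b L' => exact ⟨b, L' ++ [c], rfl⟩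
    rw [List.cons_append, hb, cost_cons_cons] at hfin
    have h1 : step w z b ≠ ⊤ := fun h => hfin (by rw [h, top_add])
    have h2 : cost w (b :: L') ≠ ⊤ := fun h => hfin (by rw [h, add_top])
    have hnb := ix_nb hσ (nb_of_step_ne_top hw h1)
    refine ih (by rw [hb]; exact h2) (fun y hy => hL y (List.mem_cons_of_mem _ hy)) ?_
    intro y hy
    rw [hb] at hy
    have : y = b := by simpa using hy.symm
    subst this
    omega

section

variable {σ : ℤ} {w : W} {K : ℝ≥0∞}

theorem ln_eq {σ : ℤ} (hσ : σ = 0 ∨ σ = 1) (v : V) : ln σ v = (1 + σ) * v.1 + σ * ix σ v := by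
  unfold ln ix
  rcases hσ with rfl | rfl <;> ring

/-- If the curve touches the line `l` at the index `t`, then all vertices of index `t` on lines
`≥ l` belong to the region. -/
theorem mem_Rg_of_touch (hσ : σ = 0 ∨ σ = 1) {l t : ℤ} (ht : ln σ (pk σ w K l t) = l) {v : V}
    (hv : l ≤ ln σ v) (hi : ix σ v = t) : v ∈ Rg σ w K l := by
  rw [ln_eq hσ, ix_pk] at ht
  rw [ln_eq hσ, hi] at hv
  have h1 : (pk σ w K l t).1 = ck σ w K l t := rfl
  rw [h1] at ht
  change ck σ w K l (ix σ v) ≤ v.1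
  rw [hi]
  rcases hσ with rfl | rfl <;> omega

/-- A vertex of the region on the line `l` is a vertex of the curve. -/
theorem eq_pk_of_line (hσ : σ = 0 ∨ σ = 1) (hf : Good σ w K) {l : ℤ} {v : V}
    (hv : v ∈ Rg σ w K l) (hl : ln σ v = l) : v = pk σ w K l (ix σ v) := by
  have h1 := le_ln_pk hσ hf l (ix σ v)
  rw [ln_eq hσ, ix_pk] at h1
  rw [ln_eq hσ] at hl
  have h2 : (pk σ w K l (ix σ v)).1 = ck σ w K l (ix σ v) := rfl
  rw [h2] at h1
  change ck σ w K l (ix σ v) ≤ v.1 at hv
  apply eq_pt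
  rcases hσ with rfl | rfl <;> omega

/-- A walk in the half plane which starts outside of the window passes through a vertex of the
curve outside of the window. -/
theorem hit_aux (hσ : σ = 0 ∨ σ = 1) (hw : ∀ v, w v 2 = ⊤) (hf : Good σ w K) {D : Set V}
    {l tm tp : ℤ} (htm : ln σ (pk σ w K l tm) = l) (htp : ln σ (pk σ w K l tp) = l) {b : V} {u : ℤ}
    (hib : ix σ b ≤ tm ∨ tp ≤ ix σ b) (hbR : b ∈ Rg σ w K l → b = pk σ w K l (ix σ b))
    {L : List V} (hW : IsW D b (pk σ w K l u) L) (hH : ∀ z ∈ L, l ≤ ln σ z)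
    (hfin : cost w L ≠ ⊤) :
    ∃ j, (j ≤ tm ∨ tp ≤ j) ∧ T w D b (pk σ w K l j) +
      T w (Hl σ l) (pk σ w K l j) (pk σ w K l u) ≤ cost w L := by
  obtain ⟨M₁, c, M₂, rfl, hc, hM₁⟩ := split_first (P := fun v => v ∈ Rg σ w K l) L
    ⟨pk σ w K l u, by
      obtain ⟨L', hL'⟩ := hW.eq_concat
      rw [hL']; simp, pk_mem _ _⟩
  have hcost2 := cost_append w M₁ M₂ c
  have hf1 : cost w (M₁ ++ [c]) ≠ ⊤ := fun h => hfin (by rw [hcost2, h, top_add])
  have hix : ix σ c ≤ tm ∨ tp ≤ ix σ c := by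
    refine side_keep hσ hw M₁ c hf1 (fun z hz => ?_) (fun z hz => ?_)
    · have h1 := hH z (List.mem_append_left _ hz)
      have h2 := hM₁ z hz
      constructor
      · intro h3
        exact h2 (mem_Rg_of_touch hσ htm h1 h3)
      · intro h3
        exact h2 (mem_Rg_of_touch hσ htp h1 h3)
    · have h1 : (M₁ ++ [c]).head? = some b := by
        have := hW.1
        cases M₁ with
        | nil => simpa using this
        | cons c' l' => simpa using this
      rw [h1] at hz
      have : z = b := by simpa using hz.symm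
      subst this
      exact hib
  have hcp : c = pk σ w K l (ix σ c) := by
    rcases List.eq_nil_or_concat M₁ with rfl | ⟨M', z, hM'⟩
    · have hcb : c = b := by
        have := hW.1
        simpa using this
      rw [hcb] at hc ⊢
      exact hbR hc
    · rw [List.concat_eq_append] at hM'
      subst hM'
      have hz := hM₁ z (by simp)
      rw [cost_concat] at hf1
      have h1 : step w z c ≠ ⊤ := fun h => hf1 (by rw [h, add_top])
      exact Rg_entrance hσ hf (nb_of_step_ne_top hw h1) hz hc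
  have hW1 : IsW D b c (M₁ ++ [c]) := by
    refine ⟨?_, by simp, fun v hv => hW.2.2 v ?_⟩
    · have := hW.1
      cases M₁ with
      | nil => simpa using this
      | cons c' l' => simpa using this
    · rcases List.mem_append.mp hv with h | h
      · exact List.mem_append_left _ h
      · exact List.mem_append_right _ (by simp at h; simp [h])
  have hW2 : IsW (Hl σ l) c (pk σ w K l u) (c :: M₂) := by
    refine ⟨rfl, ?_, fun v hv => hH v (List.mem_append_right _ hv)⟩
    have := hW.2.1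
    rw [List.getLast?_append_of_ne_nil _ (by simp)] at this
    exact this
  refine ⟨ix σ c, hix, ?_⟩
  rw [← hcp, hcost2]
  exact add_le_add (T_le hW1) (T_le hW2)

/-- **Blocking.** -/
theorem hit (hσ : σ = 0 ∨ σ = 1) (hw : ∀ v, w v 2 = ⊤) (hf : Good σ w K) {D : Set V}
    {l tm tp : ℤ} {I Fr : Set V} {R0 R1 : ℝ≥0∞} (hB : Blk σ w D l tm tp I Fr R0 R1) {δ : ℝ}
    (hδ : R0 + ENNReal.ofReal δ ≤ R1) (htm : ln σ (pk σ w K l tm) = l)
    (htp : ln σ (pk σ w K l tp) = l) {x : V} (hxI : x ∉ I)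
    (hx : l ≤ ln σ x → (ix σ x ≤ tm ∨ tp ≤ ix σ x) ∧
      (x ∈ Rg σ w K l → x = pk σ w K l (ix σ x))) {u : ℤ}
    {φx : ℝ} {φ : ℤ → ℝ}
    (hφ : ∀ j, ENNReal.ofReal (φx - φ j) ≤ T w D x (pk σ w K l j))
    (hco : ∀ j, j ≤ tm ∨ tp ≤ j →
      ENNReal.ofReal (φ j - φ u + δ) ≤ T w (Hl σ l) (pk σ w K l j) (pk σ w K l u)) :
    ENNReal.ofReal (φx - φ u + δ) ≤ T w D x (pk σ w K l u) := by
  refine le_T fun L hL => ?_
  by_cases hfin : cost w L = ⊤
  · rw [hfin]; exact le_top
  -- combination of the estimates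
  have fin : ∀ j, (j ≤ tm ∨ tp ≤ j) → ENNReal.ofReal (φx - φ u + δ) ≤
      T w D x (pk σ w K l j) + T w (Hl σ l) (pk σ w K l j) (pk σ w K l u) := by
    intro j hj
    calc ENNReal.ofReal (φx - φ u + δ)
        = ENNReal.ofReal ((φx - φ j) + (φ j - φ u + δ)) := by congr 1; ring
      _ ≤ ENNReal.ofReal (φx - φ j) + ENNReal.ofReal (φ j - φ u + δ) := ENNReal.ofReal_add_le
      _ ≤ _ := add_le_add (hφ j) (hco j hj)
  by_cases hvis : ∃ z ∈ L, ln σ z < l
  swap
  · -- the walk stays in the half plane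
    push Not at hvis
    have hxl : l ≤ ln σ x := hvis x (by obtain ⟨L', rfl⟩ := hL.eq_cons; simp)
    obtain ⟨hib, hbR⟩ := hx hxl
    obtain ⟨j, hj, h1⟩ := hit_aux hσ hw hf htm htp hib hbR hL hvis hfin
    exact (fin j hj).trans h1
  -- the last visit to the left of the line `l`
  obtain ⟨L₁, a, b, L₂, rfl, ha, hb⟩ := split_last (P := fun v => ln σ v < l) L
    hvis (by
      intro z hz
      rw [hL.2.1] at hz
      have : z = pk σ w K l u := by simpa using hz.symm
      subst this
      have := le_ln_pk hσ hf l u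
      show ¬ ln σ (pk σ w K l u) < l
      omega)
  have hb' : ∀ z ∈ b :: L₂, l ≤ ln σ z := fun z hz => not_lt.mp (hb z hz)
  have hcost : cost w (L₁ ++ a :: b :: L₂) = cost w (L₁ ++ [a]) + step w a b + cost w (b :: L₂) := by
    rw [cost_append, cost_cons_cons, add_assoc]
  rw [hcost] at hfin ⊢
  have hs1 : step w a b ≠ ⊤ := fun h => hfin (by rw [h, add_top, top_add])
  have hnb := nb_of_step_ne_top hw hs1
  have hWa : IsW D x a (L₁ ++ [a]) := by
    refine ⟨?_, by simp, fun v hv => hL.2.2 v ?_⟩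
    · have := hL.1
      cases L₁ with
      | nil => simpa using this
      | cons c l' => simpa using this
    · rcases List.mem_append.mp hv with h | h
      · exact List.mem_append_left _ h
      · exact List.mem_append_right _ (by simp at h; simp [h])
  have hWb : IsW D b (pk σ w K l u) (b :: L₂) := by
    refine ⟨rfl, ?_, fun v hv => hL.2.2 v (List.mem_append_right _ (List.mem_cons_of_mem _ hv))⟩
    have := hL.2.1
    rw [List.getLast?_append_of_ne_nil _ (by simp), List.getLast?_cons_cons] at this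
    exact this
  by_cases hbW : b ∈ Wi σ l tm tp
  · -- the walk comes out of the slow region
    have haI : a ∈ I := hB.win b hbW a hnb ha
    have h1 := hB.run_end hw hxI haI hbW hWa hδ
    calc ENNReal.ofReal (φx - φ u + δ) ≤ ENNReal.ofReal (φx - φ u) + ENNReal.ofReal δ :=
          ENNReal.ofReal_add_le
      _ ≤ T w D x (pk σ w K l u) + ENNReal.ofReal δ := by gcongr; exact hφ u
      _ ≤ (T w D x b + T w D b (pk σ w K l u)) + ENNReal.ofReal δ := by
          gcongr; exact T_triangle _ _ _ _ _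
      _ = (T w D x b + ENNReal.ofReal δ) + T w D b (pk σ w K l u) := by ring
      _ ≤ _ := add_le_add h1 (T_le hWb)
  · -- the walk enters the half plane outside of the window
    have hlb : ln σ b = l := by
      have h1 := ln_nb hσ hnb
      have h2 := hb' b (by simp)
      have h3 : ln σ a < l := ha
      omega
    have hib : ix σ b ≤ tm ∨ tp ≤ ix σ b := by
      by_contra h
      push Not at h
      exact hbW ⟨hlb, h⟩
    have hfb : cost w (b :: L₂) ≠ ⊤ := fun h => hfin (by rw [h, add_top])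
    obtain ⟨j, hj, h1⟩ := hit_aux hσ hw hf htm htp hib
      (fun hR => eq_pk_of_line hσ hf hR hlb) hWb hb' hfb
    refine (fin j hj).trans ?_
    calc T w D x (pk σ w K l j) + T w (Hl σ l) (pk σ w K l j) (pk σ w K l u)
        ≤ (T w D x a + step w a b + T w D b (pk σ w K l j)) +
          T w (Hl σ l) (pk σ w K l j) (pk σ w K l u) := by
          gcongr
          have ha' : a ∈ D := hWa.right_mem
          have hb'' : b ∈ D := hWb.left_mem
          calc T w D x (pk σ w K l j) ≤ T w D x b + T w D b (pk σ w K l j) := T_triangle _ _ _ _ _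
            _ ≤ (T w D x a + T w D a b) + T w D b (pk σ w K l j) := by
              gcongr; exact T_triangle _ _ _ _ _
            _ ≤ _ := by gcongr; exact T_le_step w ha' hb''
      _ = (T w D x a + step w a b) + (T w D b (pk σ w K l j) +
          T w (Hl σ l) (pk σ w K l j) (pk σ w K l u)) := by ring
      _ ≤ _ := by gcongr; exact T_le hWa

end

end C7
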