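import Mathlib
import Pool.Agent.Lib.MP_c725eb_pr.Hit

/-!
# Blocking configurations

The slow region `Ib`, its frame `Fb`, for `σ = 0` (a rectangle to the left of the line `l`) and
`σ = 1` (a square cut by the line `l`); the block lemma.
-/

set_option autoImplicit false

namespace C7

open scoped ENNReal NNReal

/-- A chain of steps of cost at most `c`. -/
theorem T_chain {w : W} {D : Set V} {c : ℝ≥0∞} (n : ℕ) (f : ℕ → V) (hD : ∀ i ≤ n, f i ∈ D)
    (hs : ∀ i < n, step w (f i) (f (i + 1)) ≤ c) : T w D (f 0) (f n) ≤ n * c := by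
  induction n with
  | zero => rw [T_self w (hD 0 le_rfl)]; simp
  | succ n ih =>
    have h1 := ih (fun i hi => hD i (by omega)) (fun i hi => hs i (by omega))
    calc T w D (f 0) (f (n + 1)) ≤ T w D (f 0) (f n) + T w D (f n) (f (n + 1)) :=
          T_triangle _ _ _ _ _
      _ ≤ n * c + c := add_le_add h1
          ((T_le_step w (hD n (by omega)) (hD (n + 1) le_rfl)).trans (hs n (by omega)))
      _ = ((n + 1 : ℕ) : ℝ≥0∞) * c := by push_cast; rw [add_mul, one_mul]

/-- other end of the edge with base `x` and direction `d` -/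
def oth (x : V) (d : Fin 2) : V := if d = 0 then (x.1 + 1, x.2) else (x.1, x.2 + 1)

theorem oth_zero (x : V) : oth x 0 = (x.1 + 1, x.2) := rfl
theorem oth_one (x : V) : oth x 1 = (x.1, x.2 + 1) := rfl

/-- horizontal line -/
theorem T_hor {w : W} {D : Set V} {c : ℝ≥0∞} {a b h : ℤ} (hab : a ≤ b)
    (hD : ∀ x, a ≤ x → x ≤ b → (x, h) ∈ D) (hs : ∀ x, a ≤ x → x < b → w (x, h) 0 ≤ c) :
    T w D (a, h) (b, h) ≤ (b - a).toNat * c := by
  have h1 := T_chain (w := w) (D := D) (c := c) (b - a).toNat (fun i => (a + i, h))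
    (fun i hi => hD _ (by omega) (by omega)) (fun i hi => by
      have h2 := step_right w (a + i, h)
      simp only at h2
      have h3 : ((a + ((i + 1 : ℕ) : ℤ), h) : V) = (a + i + 1, h) := by
        push_cast; rw [add_assoc]
      rw [h3, h2]
      exact hs _ (by omega) (by omega))
  have h4 : a + (((b - a).toNat : ℕ) : ℤ) = b := by omega
  simp only [Nat.cast_zero, add_zero, h4] at h1
  exact h1

/-- vertical line -/
theorem T_ver {w : W} {D : Set V} {c : ℝ≥0∞} {a g h : ℤ} (hgh : g ≤ h)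
    (hD : ∀ x, g ≤ x → x ≤ h → (a, x) ∈ D) (hs : ∀ x, g ≤ x → x < h → w (a, x) 1 ≤ c) :
    T w D (a, g) (a, h) ≤ (h - g).toNat * c := by
  have h1 := T_chain (w := w) (D := D) (c := c) (h - g).toNat (fun i => (a, g + i))
    (fun i hi => hD _ (by omega) (by omega)) (fun i hi => by
      have h2 := step_up w (a, g + i)
      simp only at h2
      have h3 : ((a, g + ((i + 1 : ℕ) : ℤ)) : V) = (a, g + i + 1) := by
        push_cast; rw [add_assoc]
      rw [h3, h2]
      exact hs _ (by omega) (by omega))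
  have h4 : g + (((h - g).toNat : ℕ) : ℤ) = h := by omega
  simp only [Nat.cast_zero, add_zero, h4] at h1
  exact h1

theorem num_le {θ R0 : ℝ≥0} {n1 n2 d : ℕ} (h : (n1 : ℝ) * θ + n2 * R0 ≤ d * R0) :
    (n1 : ℝ≥0∞) * θ + n2 * R0 ≤ d * R0 := by
  have h1 : (n1 : ℝ≥0) * θ + n2 * R0 ≤ d * R0 := by
    rw [← NNReal.coe_le_coe]
    push_cast
    exact h
  exact_mod_cast h1

/-! ### Columns -/

/-- slow region, `σ = 0` -/
def I0 (l tm tp m : ℤ) : Set V := {x | l - m < x.1 ∧ x.1 < l ∧ tm < x.2 ∧ x.2 < tp}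

/-- frame, `σ = 0` -/
def F0 (l tm tp m : ℤ) : Set V :=
  {x | (l - m ≤ x.1 ∧ x.1 ≤ l ∧ (x.2 = tm ∨ x.2 = tp)) ∨ (x.1 = l - m ∧ tm ≤ x.2 ∧ x.2 ≤ tp)}

/-- box, `σ = 0` -/
def B0 (l tm tp m : ℤ) : Set V := {x | l - m ≤ x.1 ∧ x.1 ≤ l ∧ tm ≤ x.2 ∧ x.2 ≤ tp}

theorem blk0 {w : W} (hw : ∀ v, w v 2 = ⊤) {D : Set V} {l tm tp m : ℤ} (ht : tm < tp) (hm0 : 2 ≤ m)
    {θ R0 : ℝ≥0} {R1 : ℝ≥0∞} (hθ : θ ≤ R0)
    (hm : (4 * (tp - tm) : ℝ) * R0 + m * θ ≤ m * R0)
    (hslow : ∀ x d, (x ∈ I0 l tm tp m ∨ oth x d ∈ I0 l tm tp m) → R1 ≤ w x d.castSucc)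
    (hfr : ∀ x d, x ∈ F0 l tm tp m → oth x d ∈ F0 l tm tp m → ln 0 x < l →
      w x d.castSucc ≤ θ)
    (hline : ∀ x, ln 0 x = l → tm ≤ ix 0 x → ix 0 x ≤ tp → w x 0 ≤ R0 ∧ w x 1 ≤ R0)
    (hD : B0 l tm tp m ⊆ D) :
    Blk 0 w D l tm tp (I0 l tm tp m) (F0 l tm tp m) R0 R1 := by
  have hc0 : (0 : Fin 2).castSucc = (0 : Fin 3) := rfl
  have hc1 : (1 : Fin 2).castSucc = (1 : Fin 3) := rfl
  have hwi : ∀ y : V, y ∈ Wi 0 l tm tp ↔ y.1 = l ∧ tm < y.2 ∧ y.2 < tp := by
    rintro ⟨y1, y2⟩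
    unfold Wi ln ix
    simp only [Set.mem_ofPred_eq]
    constructor <;> rintro ⟨h1, h2, h3⟩ <;> refine ⟨by omega, by omega, by omega⟩
  refine ⟨?_, ?_, ?_, ?_⟩
  · -- slow
    rintro ⟨x1, x2⟩ hx ⟨y1, y2⟩
    unfold step
    split_ifs with h1 h2 h3 h4 h5 h6
    · exact hslow _ 0 (Or.inl hx)
    · refine hslow (y1, y2) 0 (Or.inr ?_)
      rw [oth_zero, ← h2]; exact hx
    · exact hslow _ 1 (Or.inl hx)
    · refine hslow (y1, y2) 1 (Or.inr ?_)
      rw [oth_one, ← h4]; exact hx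
    · rw [hw]; exact le_top
    · rw [hw]; exact le_top
    · exact le_top
  · -- neighbours
    rintro ⟨x1, x2⟩ hx ⟨y1, y2⟩ hxy
    rw [hwi]
    simp only [I0, F0, Nb, Set.mem_ofPred_eq, Prod.mk.injEq] at *
    omega
  · -- window
    rintro ⟨y1, y2⟩ hy ⟨x1, x2⟩ hxy hx
    rw [hwi] at hy
    simp only [I0, Nb, ln, Set.mem_ofPred_eq, Prod.mk.injEq] at *
    omega
  · -- block lemma
    rintro ⟨f1, f2⟩ ⟨y1, y2⟩ hf hy
    rw [hwi] at hf hy
    simp only at hf hy
    obtain ⟨rfl, hy1, hy2⟩ := hy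
    -- from the ends of the window to `y`
    have hP2 : T w D (y1, tp) (y1, y2) ≤ (tp - y2).toNat * R0 := by
      rw [T_comm]
      refine T_ver (by omega) (fun x h1 h2 => hD ⟨by simp only; omega, by simp only; omega,
        by simp only; omega, by simp only; omega⟩) fun x h1 h2 => ?_
      exact (hline (y1, x) (by unfold ln; ring) (by unfold ix; simp only; omega)
        (by unfold ix; simp only; omega)).2
    have hP0 : T w D (y1, tm) (y1, y2) ≤ (y2 - tm).toNat * R0 := by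
      refine T_ver (by omega) (fun x h1 h2 => hD ⟨by simp only; omega, by simp only; omega,
        by simp only; omega, by simp only; omega⟩) fun x h1 h2 => ?_
      exact (hline (y1, x) (by unfold ln; ring) (by unfold ix; simp only; omega)
        (by unfold ix; simp only; omega)).2
    -- along the top and the bottom
    have htop : ∀ a, y1 - m ≤ a → a ≤ y1 → T w D (a, tp) (y1, tp) ≤ (y1 - a).toNat * θ := by
      intro a h1 h2
      refine T_hor h2 (fun x h3 h4 => hD ⟨by simp only; omega, by simp only; omega,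
        by simp only; omega, by simp only; omega⟩) fun x h3 h4 => ?_
      rw [← hc0]
      refine hfr (x, tp) 0 (Or.inl ⟨?_, ?_, Or.inr rfl⟩) (Or.inl ⟨?_, ?_, Or.inr rfl⟩) ?_
      · show y1 - m ≤ x; omega
      · show x ≤ y1; omega
      · show y1 - m ≤ x + 1; omega
      · show x + 1 ≤ y1; omega
      · unfold ln; simp only; omega
    have hbot : ∀ a, y1 - m ≤ a → a ≤ y1 → T w D (a, tm) (y1, tm) ≤ (y1 - a).toNat * θ := by
      intro a h1 h2
      refine T_hor h2 (fun x h3 h4 => hD ⟨by simp only; omega, by simp only; omega,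
        by simp only; omega, by simp only; omega⟩) fun x h3 h4 => ?_
      rw [← hc0]
      refine hfr (x, tm) 0 (Or.inl ⟨?_, ?_, Or.inl rfl⟩) (Or.inl ⟨?_, ?_, Or.inl rfl⟩) ?_
      · show y1 - m ≤ x; omega
      · show x ≤ y1; omega
      · show y1 - m ≤ x + 1; omega
      · show x + 1 ≤ y1; omega
      · unfold ln; simp only; omega
    have hleft : ∀ h, tm ≤ h → h ≤ tp → T w D (y1 - m, h) (y1 - m, tp) ≤ (tp - h).toNat * θ := by
      intro h h1 h2
      refine T_ver h2 (fun x h3 h4 => hD ⟨by simp only; omega, by simp only; omega,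
        by simp only; omega, by simp only; omega⟩) fun x h3 h4 => ?_
      rw [← hc1]
      refine hfr (y1 - m, x) 1 (Or.inr ⟨rfl, ?_, ?_⟩) (Or.inr ⟨rfl, ?_, ?_⟩) ?_
      · show tm ≤ x; omega
      · show x ≤ tp; omega
      · show tm ≤ x + 1; omega
      · show x + 1 ≤ tp; omega
      · unfold ln; simp only; omega
    have hθ' : (θ : ℝ) ≤ R0 := by exact_mod_cast hθ
    have hθ0 : (0 : ℝ) ≤ θ := θ.2
    have hR00 : (0 : ℝ) ≤ R0 := R0.2
    rcases hf with (⟨h1, h2, h3 | h3⟩ | ⟨h1, h2, h3⟩) | ⟨h1, h2, h3⟩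
    · -- bottom
      subst h3
      refine (T_triangle w D _ (y1, f2) _).trans ((add_le_add (hbot f1 h1 h2) hP0).trans
        (num_le ?_))
      have e1 : ((d1 (f1, f2) (y1, y2) : ℕ) : ℝ) =
          (((y1 - f1).toNat : ℕ) : ℝ) + (((y2 - f2).toNat : ℕ) : ℝ) := by
        rw [← Nat.cast_add]; congr 1; unfold d1; simp only; omega
      rw [e1, add_mul]
      have : (((y1 - f1).toNat : ℕ) : ℝ) * θ ≤ (((y1 - f1).toNat : ℕ) : ℝ) * R0 := by gcongr
      linarith
    · -- top
      subst h3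
      refine (T_triangle w D _ (y1, f2) _).trans ((add_le_add (htop f1 h1 h2) hP2).trans
        (num_le ?_))
      have e1 : ((d1 (f1, f2) (y1, y2) : ℕ) : ℝ) =
          (((y1 - f1).toNat : ℕ) : ℝ) + (((f2 - y2).toNat : ℕ) : ℝ) := by
        rw [← Nat.cast_add]; congr 1; unfold d1; simp only; omega
      rw [e1, add_mul]
      have : (((y1 - f1).toNat : ℕ) : ℝ) * θ ≤ (((y1 - f1).toNat : ℕ) : ℝ) * R0 := by gcongr
      linarith
    · -- left side
      subst h1
      have h4 : T w D (y1 - m, f2) (y1, y2) ≤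
          (((tp - f2).toNat + m.toNat : ℕ) : ℝ≥0∞) * θ + ((tp - y2).toNat : ℕ) * R0 := by
        calc T w D (y1 - m, f2) (y1, y2)
            ≤ T w D (y1 - m, f2) (y1 - m, tp) + T w D (y1 - m, tp) (y1, y2) :=
              T_triangle _ _ _ _ _
          _ ≤ T w D (y1 - m, f2) (y1 - m, tp) +
              (T w D (y1 - m, tp) (y1, tp) + T w D (y1, tp) (y1, y2)) := by
              gcongr; exact T_triangle _ _ _ _ _
          _ ≤ (tp - f2).toNat * θ + ((y1 - (y1 - m)).toNat * θ + (tp - y2).toNat * R0) := by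
              gcongr
              · exact hleft f2 h2 h3
              · exact htop (y1 - m) (by omega) (by omega)
          _ = _ := by
              have : y1 - (y1 - m) = m := by ring
              rw [this, ← add_assoc, ← add_mul]
              push_cast
              rfl
      refine h4.trans (num_le ?_)
      have e1 : (m : ℝ) ≤ ((d1 (y1 - m, f2) (y1, y2) : ℕ) : ℝ) := by
        have : m ≤ ((d1 (y1 - m, f2) (y1, y2) : ℕ) : ℤ) := by unfold d1; simp only; omega
        exact_mod_cast this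
      have e2 : ((((tp - f2).toNat + m.toNat : ℕ)) : ℝ) ≤ (tp - tm : ℝ) + m := by
        have : ((((tp - f2).toNat + m.toNat : ℕ)) : ℤ) ≤ (tp - tm) + m := by omega
        exact_mod_cast this
      have e3 : ((((tp - y2).toNat : ℕ)) : ℝ) ≤ (tp - tm : ℝ) := by
        have : ((((tp - y2).toNat : ℕ)) : ℤ) ≤ (tp - tm) := by omega
        exact_mod_cast this
      have e4 : (0 : ℝ) ≤ (tp - tm : ℝ) := by
        have : (tm : ℝ) < tp := by exact_mod_cast ht
        linarith
      nlinarith [mul_le_mul_of_nonneg_right e1 hR00, mul_le_mul_of_nonneg_right e2 hθ0,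
        mul_le_mul_of_nonneg_right e3 hR00, mul_le_mul_of_nonneg_left hθ' e4]
    · -- window
      subst h1
      rcases le_total f2 y2 with h4 | h4
      · have h5 : T w D (f1, f2) (f1, y2) ≤ (y2 - f2).toNat * R0 := by
          refine T_ver h4 (fun x h1 h2 => hD ⟨by simp only; omega, by simp only; omega,
            by simp only; omega, by simp only; omega⟩) fun x h1 h2 => ?_
          exact (hline (f1, x) (by unfold ln; ring) (by unfold ix; simp only; omega)
            (by unfold ix; simp only; omega)).2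
        refine h5.trans (by gcongr; unfold d1; simp only; omega)
      · have h5 : T w D (f1, y2) (f1, f2) ≤ (f2 - y2).toNat * R0 := by
          refine T_ver h4 (fun x h1 h2 => hD ⟨by simp only; omega, by simp only; omega,
            by simp only; omega, by simp only; omega⟩) fun x h1 h2 => ?_
          exact (hline (f1, x) (by unfold ln; ring) (by unfold ix; simp only; omega)
            (by unfold ix; simp only; omega)).2
        rw [T_comm]
        refine h5.trans (by gcongr; unfold d1; simp only; omega)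

/-! ### Antidiagonals -/

/-- staircase along the line `x₁ + x₂ = l` -/
theorem T_stair {w : W} {D : Set V} {c : ℝ≥0∞} {l : ℤ} (a : ℤ) (n : ℕ)
    (hD : ∀ x, a ≤ x → x ≤ a + n → (x, l - x) ∈ D ∧ (x < a + n → (x + 1, l - x) ∈ D))
    (hs : ∀ x, a ≤ x → x ≤ a + n →
      (x < a + n → w (x, l - x) 0 ≤ c) ∧ (a < x → w (x, l - x) 1 ≤ c)) :
    T w D (a, l - a) (a + n, l - (a + n)) ≤ ((2 * n : ℕ) : ℝ≥0∞) * c := by
  induction n with
  | zero =>
    simp only [add_zero, mul_zero, CharP.cast_eq_zero, zero_mul]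
    rw [T_self w (hD a le_rfl (by simp)).1]
  | succ n ih =>
    have h1 := ih (fun x h1 h2 => ⟨(hD x h1 (by push_cast; omega)).1,
      fun h3 => (hD x h1 (by push_cast; omega)).2 (by push_cast; omega)⟩)
      (fun x h1 h2 => ⟨fun h3 => (hs x h1 (by push_cast; omega)).1 (by push_cast; omega),
        (hs x h1 (by push_cast; omega)).2⟩)
    have p0 := (hD (a + n) (by omega) (by push_cast; omega)).1
    have p1 := (hD (a + n) (by omega) (by push_cast; omega)).2 (by push_cast; omega)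
    have p2 := (hD (a + n + 1) (by omega) (by push_cast; omega)).1
    have e : ((a + ((n + 1 : ℕ) : ℤ), l - (a + ((n + 1 : ℕ) : ℤ))) : V) =
        (a + n + 1, l - (a + n + 1)) := by
      push_cast
      rw [add_assoc]
    rw [e]
    have s1 : step w (a + n, l - (a + n)) (a + n + 1, l - (a + n)) ≤ c := by
      have := step_right w (a + n, l - (a + n))
      simp only at this
      rw [this]
      exact (hs (a + n) (by omega) (by push_cast; omega)).1 (by push_cast; omega)
    have s2 : step w (a + n + 1, l - (a + n)) (a + n + 1, l - (a + n + 1)) ≤ c := by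
      have := step_up w (a + n + 1, l - (a + n + 1))
      simp only at this
      have e2 : l - (a + n + 1) + 1 = l - (a + n) := by ring
      rw [e2] at this
      rw [step_comm, this]
      exact (hs (a + n + 1) (by omega) (by push_cast; omega)).2 (by omega)
    calc T w D (a, l - a) (a + n + 1, l - (a + n + 1))
        ≤ T w D (a, l - a) (a + n, l - (a + n)) +
          T w D (a + n, l - (a + n)) (a + n + 1, l - (a + n + 1)) := T_triangle _ _ _ _ _
      _ ≤ T w D (a, l - a) (a + n, l - (a + n)) +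
          (T w D (a + n, l - (a + n)) (a + n + 1, l - (a + n)) +
            T w D (a + n + 1, l - (a + n)) (a + n + 1, l - (a + n + 1))) := by
          gcongr; exact T_triangle _ _ _ _ _
      _ ≤ ((2 * n : ℕ) : ℝ≥0∞) * c + (c + c) := by
          gcongr
          · exact (T_le_step w p0 p1).trans s1
          · exact (T_le_step w p1 p2).trans s2
      _ = ((2 * (n + 1) : ℕ) : ℝ≥0∞) * c := by
          have : ((2 * (n + 1) : ℕ) : ℝ≥0∞) = ((2 * n : ℕ) : ℝ≥0∞) + 2 := by push_cast; ring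
          rw [this, add_mul, two_mul c]

/-- slow region, `σ = 1` -/
def I1 (l a0 a2 m : ℤ) : Set V :=
  {x | x.1 + x.2 < l ∧ x.2 < l - a2 ∧ x.1 < a0 ∧ a0 - m < x.1 ∧ l - a2 - m < x.2}

/-- frame, `σ = 1` -/
def F1 (l a0 a2 m : ℤ) : Set V :=
  {x | (x.2 = l - a2 ∧ a0 - m ≤ x.1 ∧ x.1 ≤ a2) ∨
    (x.1 = a0 ∧ l - a2 - m ≤ x.2 ∧ x.2 ≤ l - a0) ∨
    (x.1 = a0 - m ∧ l - a2 - m ≤ x.2 ∧ x.2 ≤ l - a2) ∨
    (x.2 = l - a2 - m ∧ a0 - m ≤ x.1 ∧ x.1 ≤ a0)}

/-- box, `σ = 1` -/
def B1 (l a0 a2 m : ℤ) : Set V :=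
  {x | a0 - m ≤ x.1 ∧ x.1 ≤ a0 ∧ l - a2 - m ≤ x.2 ∧ x.2 ≤ l - a2}

theorem blk1 {w : W} (hw : ∀ v, w v 2 = ⊤) {D : Set V} {l a0 a2 m : ℤ} (ha : a2 < a0)
    (hma : a0 - a2 < m) {θ R0 : ℝ≥0} {R1 : ℝ≥0∞} (hθ : θ ≤ R0)
    (hm : (8 * (a0 - a2) : ℝ) * R0 + m * θ ≤ m * R0)
    (hslow : ∀ x d, (x ∈ I1 l a0 a2 m ∨ oth x d ∈ I1 l a0 a2 m) → R1 ≤ w x d.castSucc)
    (hfr : ∀ x d, x ∈ F1 l a0 a2 m → oth x d ∈ F1 l a0 a2 m → ln 1 x < l →
      w x d.castSucc ≤ θ)
    (hline : ∀ x, ln 1 x = l → l - 2 * a0 ≤ ix 1 x → ix 1 x ≤ l - 2 * a2 →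
      w x 0 ≤ R0 ∧ w x 1 ≤ R0)
    (hD : B1 l a0 a2 m ⊆ D) :
    Blk 1 w D l (l - 2 * a0) (l - 2 * a2) (I1 l a0 a2 m) (F1 l a0 a2 m) R0 R1 := by
  have hc0 : (0 : Fin 2).castSucc = (0 : Fin 3) := rfl
  have hc1 : (1 : Fin 2).castSucc = (1 : Fin 3) := rfl
  have hwi : ∀ y : V, y ∈ Wi 1 l (l - 2 * a0) (l - 2 * a2) ↔
      y.2 = l - y.1 ∧ a2 < y.1 ∧ y.1 < a0 := by
    rintro ⟨y1, y2⟩
    unfold Wi ln ix
    simp only [Set.mem_ofPred_eq]
    constructor <;> rintro ⟨h1, h2, h3⟩ <;> refine ⟨by omega, by omega, by omega⟩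
  refine ⟨?_, ?_, ?_, ?_⟩
  · -- slow
    rintro ⟨x1, x2⟩ hx ⟨y1, y2⟩
    unfold step
    split_ifs with h1 h2 h3 h4 h5 h6
    · exact hslow _ 0 (Or.inl hx)
    · refine hslow (y1, y2) 0 (Or.inr ?_)
      rw [oth_zero, ← h2]; exact hx
    · exact hslow _ 1 (Or.inl hx)
    · refine hslow (y1, y2) 1 (Or.inr ?_)
      rw [oth_one, ← h4]; exact hx
    · rw [hw]; exact le_top
    · rw [hw]; exact le_top
    · exact le_top
  · -- neighbours
    rintro ⟨x1, x2⟩ hx ⟨y1, y2⟩ hxy
    rw [hwi]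
    simp only [I1, F1, Nb, Set.mem_ofPred_eq, Prod.mk.injEq] at *
    omega
  · -- window
    rintro ⟨y1, y2⟩ hy ⟨x1, x2⟩ hxy hx
    rw [hwi] at hy
    simp only [I1, Nb, ln, Set.mem_ofPred_eq, Prod.mk.injEq] at *
    omega
  · -- block lemma
    rintro ⟨f1, f2⟩ ⟨y1, y2⟩ hf hy
    rw [hwi] at hf hy
    simp only at hf hy
    obtain ⟨hy0, hy1, hy2⟩ := hy
    subst hy0
    have hbox : ∀ x1 x2 : ℤ, a0 - m ≤ x1 → x1 ≤ a0 → l - a2 - m ≤ x2 → x2 ≤ l - a2 →
        ((x1, x2) : V) ∈ D := fun x1 x2 h1 h2 h3 h4 => hD ⟨h1, h2, h3, h4⟩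
    -- staircases between vertices of the line
    have hst : ∀ b c : ℤ, a2 ≤ b → b ≤ c → c ≤ a0 →
        T w D (b, l - b) (c, l - c) ≤ ((2 * (c - b).toNat : ℕ) : ℝ≥0∞) * R0 := by
      intro b c h1 h2 h3
      have h4 := T_stair (w := w) (D := D) (c := R0) (l := l) b (c - b).toNat
        (fun x h4 h5 => ⟨hbox _ _ (by omega) (by omega) (by omega) (by omega),
          fun h6 => hbox _ _ (by omega) (by omega) (by omega) (by omega)⟩)
        (fun x h4 h5 => ⟨fun _ => (hline (x, l - x) (by unfold ln; simp only; ring)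
          (by unfold ix; simp only; omega) (by unfold ix; simp only; omega)).1,
          fun _ => (hline (x, l - x) (by unfold ln; simp only; ring)
          (by unfold ix; simp only; omega) (by unfold ix; simp only; omega)).2⟩)
      have h5 : b + (((c - b).toNat : ℕ) : ℤ) = c := by omega
      rw [h5] at h4
      exact h4
    have hP2 : T w D (a2, l - a2) (y1, l - y1) ≤ ((2 * (y1 - a2).toNat : ℕ) : ℝ≥0∞) * R0 :=
      hst a2 y1 le_rfl hy1.le hy2.le
    have hP0 : T w D (a0, l - a0) (y1, l - y1) ≤ ((2 * (a0 - y1).toNat : ℕ) : ℝ≥0∞) * R0 := by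
      rw [T_comm]; exact hst y1 a0 hy1.le hy2.le le_rfl
    -- along the frame
    have htop : ∀ a, a0 - m ≤ a → a ≤ a2 →
        T w D (a, l - a2) (a2, l - a2) ≤ (a2 - a).toNat * θ := by
      intro a h1 h2
      refine T_hor h2 (fun x h3 h4 => hbox _ _ (by omega) (by omega) (by omega) (by omega))
        fun x h3 h4 => ?_
      rw [← hc0]
      refine hfr (x, l - a2) 0 (Or.inl ⟨rfl, ?_, ?_⟩) (Or.inl ⟨rfl, ?_, ?_⟩) ?_
      · show a0 - m ≤ x; omega
      · show x ≤ a2; omega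
      · show a0 - m ≤ x + 1; omega
      · show x + 1 ≤ a2; omega
      · unfold ln; simp only; omega
    have hright : ∀ h, l - a2 - m ≤ h → h ≤ l - a0 →
        T w D (a0, h) (a0, l - a0) ≤ (l - a0 - h).toNat * θ := by
      intro h h1 h2
      refine T_ver h2 (fun x h3 h4 => hbox _ _ (by omega) (by omega) (by omega) (by omega))
        fun x h3 h4 => ?_
      rw [← hc1]
      refine hfr (a0, x) 1 (Or.inr (Or.inl ⟨rfl, ?_, ?_⟩)) (Or.inr (Or.inl ⟨rfl, ?_, ?_⟩)) ?_
      · show l - a2 - m ≤ x; omega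
      · show x ≤ l - a0; omega
      · show l - a2 - m ≤ x + 1; omega
      · show x + 1 ≤ l - a0; omega
      · unfold ln; simp only; omega
    have hleft : ∀ h, l - a2 - m ≤ h → h ≤ l - a2 →
        T w D (a0 - m, h) (a0 - m, l - a2) ≤ (l - a2 - h).toNat * θ := by
      intro h h1 h2
      refine T_ver h2 (fun x h3 h4 => hbox _ _ (by omega) (by omega) (by omega) (by omega))
        fun x h3 h4 => ?_
      rw [← hc1]
      refine hfr (a0 - m, x) 1 (Or.inr (Or.inr (Or.inl ⟨rfl, ?_, ?_⟩)))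
        (Or.inr (Or.inr (Or.inl ⟨rfl, ?_, ?_⟩))) ?_
      · show l - a2 - m ≤ x; omega
      · show x ≤ l - a2; omega
      · show l - a2 - m ≤ x + 1; omega
      · show x + 1 ≤ l - a2; omega
      · unfold ln; simp only; omega
    have hbot : ∀ a, a0 - m ≤ a → a ≤ a0 →
        T w D (a, l - a2 - m) (a0, l - a2 - m) ≤ (a0 - a).toNat * θ := by
      intro a h1 h2
      refine T_hor h2 (fun x h3 h4 => hbox _ _ (by omega) (by omega) (by omega) (by omega))
        fun x h3 h4 => ?_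
      rw [← hc0]
      refine hfr (x, l - a2 - m) 0 (Or.inr (Or.inr (Or.inr ⟨rfl, ?_, ?_⟩)))
        (Or.inr (Or.inr (Or.inr ⟨rfl, ?_, ?_⟩))) ?_
      · show a0 - m ≤ x; omega
      · show x ≤ a0; omega
      · show a0 - m ≤ x + 1; omega
      · show x + 1 ≤ a0; omega
      · unfold ln; simp only; omega
    have hθ' : (θ : ℝ) ≤ R0 := by exact_mod_cast hθ
    have hθ0 : (0 : ℝ) ≤ θ := θ.2
    have hR00 : (0 : ℝ) ≤ R0 := R0.2
    rcases hf with (⟨h1, h2, h3⟩ | ⟨h1, h2, h3⟩ | ⟨h1, h2, h3⟩ | ⟨h1, h2, h3⟩) | ⟨h1, h2, h3⟩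
    · -- top
      simp only at h1 h2 h3
      subst h1
      refine (T_triangle w D _ (a2, l - a2) _).trans ((add_le_add (htop f1 h2 h3) hP2).trans
        (num_le ?_))
      have e1 : ((d1 (f1, l - a2) (y1, l - y1) : ℕ) : ℝ) =
          (((a2 - f1).toNat : ℕ) : ℝ) + ((2 * (y1 - a2).toNat : ℕ) : ℝ) := by
        rw [← Nat.cast_add]; congr 1; unfold d1; simp only; omega
      rw [e1, add_mul]
      have : (((a2 - f1).toNat : ℕ) : ℝ) * θ ≤ (((a2 - f1).toNat : ℕ) : ℝ) * R0 := by gcongr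
      linarith
    · -- right
      simp only at h1 h2 h3
      subst h1
      refine (T_triangle w D _ (f1, l - f1) _).trans ((add_le_add (hright f2 h2 h3) hP0).trans
        (num_le ?_))
      have e1 : ((d1 (f1, f2) (y1, l - y1) : ℕ) : ℝ) =
          (((l - f1 - f2).toNat : ℕ) : ℝ) + ((2 * (f1 - y1).toNat : ℕ) : ℝ) := by
        rw [← Nat.cast_add]; congr 1; unfold d1; simp only; omega
      rw [e1, add_mul]
      have : (((l - f1 - f2).toNat : ℕ) : ℝ) * θ ≤ (((l - f1 - f2).toNat : ℕ) : ℝ) * R0 := by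
        gcongr
      linarith
    · -- left side
      simp only at h1 h2 h3
      subst h1
      have h4 : T w D (a0 - m, f2) (y1, l - y1) ≤
          (((l - a2 - f2).toNat + (a2 - (a0 - m)).toNat : ℕ) : ℝ≥0∞) * θ +
            ((2 * (y1 - a2).toNat : ℕ) : ℝ≥0∞) * R0 := by
        calc T w D (a0 - m, f2) (y1, l - y1)
            ≤ T w D (a0 - m, f2) (a0 - m, l - a2) + T w D (a0 - m, l - a2) (y1, l - y1) :=
              T_triangle _ _ _ _ _
          _ ≤ T w D (a0 - m, f2) (a0 - m, l - a2) +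
              (T w D (a0 - m, l - a2) (a2, l - a2) + T w D (a2, l - a2) (y1, l - y1)) := by
              gcongr; exact T_triangle _ _ _ _ _
          _ ≤ (l - a2 - f2).toNat * θ + ((a2 - (a0 - m)).toNat * θ +
                ((2 * (y1 - a2).toNat : ℕ) : ℝ≥0∞) * R0) := by
              gcongr
              · exact hleft f2 h2 h3
              · exact htop (a0 - m) le_rfl (by omega)
          _ = _ := by
              rw [← add_assoc, ← add_mul]
              push_cast
              rfl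
      refine h4.trans (num_le ?_)
      -- s = l - a2 - f2
      have e1 : (m : ℝ) + (l - a2 - f2 : ℝ) - 2 * (a0 - a2 : ℝ) ≤
          ((d1 (a0 - m, f2) (y1, l - y1) : ℕ) : ℝ) := by
        have : m + (l - a2 - f2) - 2 * (a0 - a2) ≤
            ((d1 (a0 - m, f2) (y1, l - y1) : ℕ) : ℤ) := by
          unfold d1; simp only; omega
        exact_mod_cast this
      have e2 : ((((l - a2 - f2).toNat + (a2 - (a0 - m)).toNat : ℕ)) : ℝ) ≤
          (l - a2 - f2 : ℝ) + m := by
        have : ((((l - a2 - f2).toNat + (a2 - (a0 - m)).toNat : ℕ)) : ℤ) ≤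
          (l - a2 - f2) + m := by omega
        exact_mod_cast this
      have e3 : (((2 * (y1 - a2).toNat : ℕ)) : ℝ) ≤ 2 * (a0 - a2 : ℝ) := by
        have : (((2 * (y1 - a2).toNat : ℕ)) : ℤ) ≤ 2 * (a0 - a2) := by omega
        exact_mod_cast this
      have e4 : (0 : ℝ) ≤ (l - a2 - f2 : ℝ) := by
        have : (0 : ℤ) ≤ l - a2 - f2 := by omega
        exact_mod_cast this
      have e5 : (0 : ℝ) ≤ (a0 - a2 : ℝ) := by
        have : (0 : ℤ) ≤ a0 - a2 := by omega
        exact_mod_cast this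
      nlinarith [mul_le_mul_of_nonneg_right e1 hR00, mul_le_mul_of_nonneg_right e2 hθ0,
        mul_le_mul_of_nonneg_right e3 hR00, mul_le_mul_of_nonneg_left hθ' e4,
        mul_nonneg e5 hR00]
    · -- bottom
      simp only at h1 h2 h3
      subst h1
      have h4 : T w D (f1, l - a2 - m) (y1, l - y1) ≤
          (((a0 - f1).toNat + (l - a0 - (l - a2 - m)).toNat : ℕ) : ℝ≥0∞) * θ +
            ((2 * (a0 - y1).toNat : ℕ) : ℝ≥0∞) * R0 := by
        calc T w D (f1, l - a2 - m) (y1, l - y1)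
            ≤ T w D (f1, l - a2 - m) (a0, l - a2 - m) +
              T w D (a0, l - a2 - m) (y1, l - y1) := T_triangle _ _ _ _ _
          _ ≤ T w D (f1, l - a2 - m) (a0, l - a2 - m) +
              (T w D (a0, l - a2 - m) (a0, l - a0) + T w D (a0, l - a0) (y1, l - y1)) := by
              gcongr; exact T_triangle _ _ _ _ _
          _ ≤ (a0 - f1).toNat * θ + ((l - a0 - (l - a2 - m)).toNat * θ +
                ((2 * (a0 - y1).toNat : ℕ) : ℝ≥0∞) * R0) := by
              gcongr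
              · exact hbot f1 h2 h3
              · exact hright (l - a2 - m) le_rfl (by omega)
          _ = _ := by
              rw [← add_assoc, ← add_mul]
              push_cast
              rfl
      refine h4.trans (num_le ?_)
      have e1 : (m : ℝ) + (a0 - f1 : ℝ) - 2 * (a0 - a2 : ℝ) ≤
          ((d1 (f1, l - a2 - m) (y1, l - y1) : ℕ) : ℝ) := by
        have : m + (a0 - f1) - 2 * (a0 - a2) ≤
            ((d1 (f1, l - a2 - m) (y1, l - y1) : ℕ) : ℤ) := by
          unfold d1; simp only; omega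
        exact_mod_cast this
      have e2 : ((((a0 - f1).toNat + (l - a0 - (l - a2 - m)).toNat : ℕ)) : ℝ) ≤
          (a0 - f1 : ℝ) + m := by
        have : ((((a0 - f1).toNat + (l - a0 - (l - a2 - m)).toNat : ℕ)) : ℤ) ≤
          (a0 - f1) + m := by omega
        exact_mod_cast this
      have e3 : (((2 * (a0 - y1).toNat : ℕ)) : ℝ) ≤ 2 * (a0 - a2 : ℝ) := by
        have : (((2 * (a0 - y1).toNat : ℕ)) : ℤ) ≤ 2 * (a0 - a2) := by omega
        exact_mod_cast this
      have e4 : (0 : ℝ) ≤ (a0 - f1 : ℝ) := by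
        have : (0 : ℤ) ≤ a0 - f1 := by omega
        exact_mod_cast this
      have e5 : (0 : ℝ) ≤ (a0 - a2 : ℝ) := by
        have : (0 : ℤ) ≤ a0 - a2 := by omega
        exact_mod_cast this
      nlinarith [mul_le_mul_of_nonneg_right e1 hR00, mul_le_mul_of_nonneg_right e2 hθ0,
        mul_le_mul_of_nonneg_right e3 hR00, mul_le_mul_of_nonneg_left hθ' e4,
        mul_nonneg e5 hR00]
    · -- window
      subst h1
      rcases le_total f1 y1 with h4 | h4
      · refine (hst f1 y1 h2.le h4 hy2.le).trans ?_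
        gcongr
        unfold d1; simp only; omega
      · rw [T_comm]
        refine (hst y1 f1 hy1.le h4 h3.le).trans ?_
        gcongr
        unfold d1; simp only; omega

end C7
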