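import Mathlib
import Pool.Agent.Lib.MP_c725eb_pr.Curve

/-!
# Open curves for independent weights: existence, tails, measurability
-/

set_option autoImplicit false

namespace C7

open MeasureTheory ProbabilityTheory
open Pool.Agent.MPc725eb.Hwy (mv pos us)
open scoped ENNReal

/-! ### measurability -/

theorem rch_of_okg {C : ℤ × ℤ → Prop} {g : ℤ → ℤ} (w : List (Fin 3)) (v : ℤ × ℤ)
    (h : Okg g C w v) : Rch C g v := by
  induction w generalizing v with
  | nil => exact .base h.1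
  | cons m w ih =>
    have h1 := ih _ h.tail
    fin_cases m
    · have h2 : C v := h.2 v (by simp [us])
      have h3 := Rch.fwd h1 (C := C) (by simpa [mv] using h2)
      simpa [mv] using h3
    · have h3 := Rch.dn h1
      simpa [mv] using h3
    · have h3 := Rch.up h1
      simpa [mv] using h3

theorem rch_iff_word {C : ℤ × ℤ → Prop} {g : ℤ → ℤ} {v : ℤ × ℤ} :
    Rch C g v ↔ ∃ w, Okg g C w v := ⟨exists_word, fun ⟨w, hw⟩ => rch_of_okg w v hw⟩

section meas

variable {Ω : Type*} [MeasurableSpace Ω]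

theorem measurableSet_rch {cl : Ω → ℤ × ℤ → Prop} (hcl : ∀ v, MeasurableSet {ω | cl ω v})
    (g : ℤ → ℤ) (v : ℤ × ℤ) : MeasurableSet {ω | Rch (cl ω) g v} := by
  have : {ω | Rch (cl ω) g v} = ⋃ w : List (Fin 3), {ω | Okg g (cl ω) w v} := by
    ext ω
    simp only [Set.mem_setOf_eq, Set.mem_iUnion]
    exact rch_iff_word
  rw [this]
  refine MeasurableSet.iUnion fun w => ?_
  unfold Okg
  by_cases h : (pos w v).1 ≤ g (pos w v).2
  · have e : {ω | (pos w v).1 ≤ g (pos w v).2 ∧ ∀ s ∈ us w v, cl ω s} =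
        ⋂ s ∈ us w v, {ω | cl ω s} := by
      ext ω
      simp [h]
    rw [e]
    exact MeasurableSet.biInter (Set.to_countable {s | s ∈ us w v}) fun s _ => hcl s
  · have e : {ω | (pos w v).1 ≤ g (pos w v).2 ∧ ∀ s ∈ us w v, cl ω s} = ∅ := by
      ext ω
      simp only [Set.mem_setOf_eq, Set.mem_empty_iff_false, iff_false]
      exact fun h' => h h'.1
    rw [e]
    exact MeasurableSet.empty

theorem measurable_sInf_nat {A : ℕ → Set Ω} (hA : ∀ u, MeasurableSet (A u)) :
    Measurable fun ω => sInf {u : ℕ | ω ∈ A u} := by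
  refine measurable_to_nat fun ω₀ => ?_
  set m := sInf {u : ℕ | ω₀ ∈ A u} with hm
  have e : (fun ω => sInf {u : ℕ | ω ∈ A u}) ⁻¹' {m} =
      if m = 0 then A 0 ∪ ⋂ u, (A u)ᶜ else A m ∩ ⋂ u ∈ Set.Iio m, (A u)ᶜ := by
    ext ω
    simp only [Set.mem_preimage, Set.mem_singleton_iff]
    split_ifs with h0
    · rw [h0, Nat.sInf_eq_zero]
      simp only [Set.mem_setOf_eq, Set.mem_union, Set.mem_iInter, Set.mem_compl_iff,
        Set.eq_empty_iff_forall_notMem]
    · constructor
      · intro h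
        have hne : {u : ℕ | ω ∈ A u}.Nonempty := by
          rw [Set.nonempty_iff_ne_empty]
          intro he
          rw [he, Nat.sInf_empty] at h
          exact h0 h.symm
        refine ⟨?_, ?_⟩
        · have := Nat.sInf_mem hne
          rw [h] at this
          exact this
        · simp only [Set.mem_iInter, Set.mem_Iio, Set.mem_compl_iff]
          intro u hu hmem
          have := Nat.sInf_le (s := {u : ℕ | ω ∈ A u}) hmem
          omega
      · rintro ⟨h1, h2⟩
        simp only [Set.mem_iInter, Set.mem_Iio, Set.mem_compl_iff] at h2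
        apply le_antisymm
        · exact Nat.sInf_le h1
        · by_contra hlt
          push Not at hlt
          have hne : {u : ℕ | ω ∈ A u}.Nonempty := ⟨m, h1⟩
          exact h2 _ hlt (Nat.sInf_mem hne)
  rw [e]
  split_ifs
  · exact (hA 0).union (MeasurableSet.iInter fun u => (hA u).compl)
  · exact (hA m).inter (MeasurableSet.biInter (Set.to_countable _) fun u _ => (hA u).compl)

theorem measurable_Lam {cl : Ω → ℤ × ℤ → Prop} (hcl : ∀ v, MeasurableSet {ω | cl ω v})
    (g : ℤ → ℤ) (i : ℤ) : Measurable fun ω => Lam (cl ω) g i := by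
  unfold Lam
  have h := measurable_sInf_nat (A := fun u : ℕ => {ω | Rch (cl ω) g (g i + u, i)}ᶜ)
    fun u => (measurableSet_rch hcl g _).compl
  exact measurable_const.add ((measurable_from_top (f := fun n : ℕ => (n : ℤ))).comp h)

variable {w : Ω → W}

theorem measurableSet_clP (σ : ℤ) (hm : ∀ (v : V) (d : Fin 2), Measurable fun ω => w ω v d.castSucc)
    (K : ℝ≥0∞) (v : ℤ × ℤ) : MeasurableSet {ω | ClP σ (w ω) K v} := by
  unfold ClP Opn
  have h0 : ∀ v : V, Measurable fun ω => w ω v 0 := fun v => hm v 0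
  have h1 : ∀ v : V, Measurable fun ω => w ω v 1 := fun v => hm v 1
  refine MeasurableSet.compl ?_
  refine (measurableSet_le (h0 _) measurable_const).inter
    ((measurableSet_le (h1 _) measurable_const).inter ?_)
  by_cases h : σ = 0
  · simp only [h, true_imp_iff]
    exact measurableSet_le (h1 _) measurable_const
  · simp only [h, false_imp_iff]
    exact MeasurableSet.univ

theorem measurable_ck (σ : ℤ) (hm : ∀ (v : V) (d : Fin 2), Measurable fun ω => w ω v d.castSucc)
    (K : ℝ≥0∞) (k i : ℤ) : Measurable fun ω => ck σ (w ω) K k i := by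
  unfold ck crv fx
  exact (measurable_from_top (f := fun j : ℤ => (j - σ * i + σ) / (1 + σ))).comp
    (measurable_Lam (measurableSet_clP σ hm K) _ i)

theorem measurable_pk (σ : ℤ) (hm : ∀ (v : V) (d : Fin 2), Measurable fun ω => w ω v d.castSucc)
    (K : ℝ≥0∞) (k i : ℤ) : Measurable fun ω => pk σ (w ω) K k i := by
  unfold pk pt
  exact (measurable_from_top (f := fun j : ℤ => (j, σ * j + i))).comp (measurable_ck σ hm K k i)

theorem measurableSet_mem_Rg (σ : ℤ)
    (hm : ∀ (v : V) (d : Fin 2), Measurable fun ω => w ω v d.castSucc)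
    (K : ℝ≥0∞) (k : ℤ) (x : V) : MeasurableSet {ω | x ∈ Rg σ (w ω) K k} := by
  unfold Rg reg
  exact measurableSet_le (measurable_ck σ hm K k _) measurable_const

end meas

/-! ### tails -/

section prob

variable {Ω : Type*} [MeasurableSpace Ω] {μ : Measure Ω} [IsProbabilityMeasure μ] {w : Ω → W}

/-- Edges attached to a site in (line, index) coordinates. -/
def Ned (σ : ℤ) (v : ℤ × ℤ) : Finset (V × Fin 2) :=
  let x : V := (fx σ v.1 v.2, σ * fx σ v.1 v.2 + v.2)
  if σ = 0 then {(x, 0), (x, 1), ((x.1, x.2 - 1), 1)} else {(x, 0), (x, 1)}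

/-- Colour of a site. -/
def colr (σ : ℤ) (v : ℤ × ℤ) : Fin 2 :=
  if σ = 0 then (if v.2 % 2 = 0 then 0 else 1) else (if v.1 % 2 = 0 then 0 else 1)

theorem ned_disjoint {σ : ℤ} (hσ : σ = 0 ∨ σ = 1) {v v' : ℤ × ℤ} (hne : v ≠ v')
    (hc : colr σ v = colr σ v') : Disjoint (Ned σ v) (Ned σ v') := by
  obtain ⟨a, b⟩ := v
  obtain ⟨c, d⟩ := v'
  have hne' : ¬ (a = c ∧ b = d) := fun h => hne (by rw [h.1, h.2])
  rw [Finset.disjoint_left]
  rcases hσ with rfl | rfl
  · intro e he he'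
    simp only [Ned, fx, zero_mul, sub_zero, add_zero, Int.ediv_one, zero_add, if_true,
      Finset.mem_insert, Finset.mem_singleton] at he he'
    simp only [colr, if_true] at hc
    have hpar : b % 2 = d % 2 := by
      split_ifs at hc with h1 h2 h2
      · omega
      · exact absurd hc (by decide)
      · exact absurd hc (by decide)
      · omega
    rcases he with rfl | rfl | rfl <;> simp only [Prod.mk.injEq] at he' <;> omega
  · intro e he he'
    simp only [Ned, fx, one_mul, one_ne_zero, if_false,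
      Finset.mem_insert, Finset.mem_singleton] at he he'
    simp only [colr, one_ne_zero, if_false] at hc
    have hpar : a % 2 = c % 2 := by
      split_ifs at hc with h1 h2 h2
      · omega
      · exact absurd hc (by decide)
      · exact absurd hc (by decide)
      · omega
    rcases he with rfl | rfl <;> simp only [Prod.mk.injEq] at he' <;> omega

theorem clP_bound {σ : ℤ} (hσ : σ = 0 ∨ σ = 1)
    (hind : iIndepFun (fun (e : V × Fin 2) ω => w ω e.1 e.2.castSucc) μ)
    {K δ : ℝ≥0∞} (hδ : ∀ e : V × Fin 2, μ {ω | K < w ω e.1 e.2.castSucc} ≤ δ)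
    (hδ' : 3 * δ ≤ ((1 / 3) ^ 3) ^ 4) (S : Finset (ℤ × ℤ)) :
    μ {ω | ∀ v ∈ S, ClP σ (w ω) K v} ≤ (1 / 9) ^ (3 * S.card) := by
  have h3 : (1 : ℝ≥0∞) / 3 ≤ 1 := by
    rw [one_div]; exact ENNReal.inv_le_one.2 (by norm_num)
  have hkey := Pool.Agent.MPc725eb.Hwy.color_bound (μ := μ) (cl := fun ω v => ClP σ (w ω) K v)
    (K := 2) (colr σ) (q := 3 * δ) (s := (1 / 3) ^ 3) (pow_le_one₀ (by positivity) h3)
    hδ' ?_ S
  · rcases hkey with h | h
    · refine h.trans (le_of_eq ?_)
      have e : (1 / 9 : ℝ≥0∞) = (1 / 3) ^ 2 := by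
        rw [one_div, one_div, ← ENNReal.inv_pow]
        norm_num
      rw [e, ← pow_mul, ← pow_mul]
      congr 1
      ring
    · exact absurd h (by norm_num)
  · intro c S hS
    have h1 := Pool.Agent.MPc725eb.Hwy.indep_bound (μ := μ) hind (B := Set.Ioi K)
      measurableSet_Ioi (δ := δ) (fun e => hδ e) (Ned σ) (m := 3) (fun v => ?_) S ?_
    · refine le_trans (measure_mono ?_) h1
      intro ω hω v hv
      have h2 : ClP σ (w ω) K v := hω v hv
      unfold ClP Opn at h2
      rcases hσ with rfl | rfl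
      · simp only [true_imp_iff, not_and_or, not_le] at h2
        rcases h2 with h2 | h2 | h2
        · exact ⟨(_, 0), by simp [Ned], h2⟩
        · exact ⟨(_, 1), by simp [Ned], h2⟩
        · exact ⟨((fx 0 v.1 v.2, 0 * fx 0 v.1 v.2 + v.2 - 1), 1), by simp [Ned], h2⟩
      · simp only [one_ne_zero, false_imp_iff, and_true, not_and_or, not_le] at h2
        rcases h2 with h2 | h2
        · exact ⟨((fx 1 v.1 v.2, 1 * fx 1 v.1 v.2 + v.2), 0), by simp [Ned], h2⟩
        · exact ⟨((fx 1 v.1 v.2, 1 * fx 1 v.1 v.2 + v.2), 1), by simp [Ned], h2⟩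
    · unfold Ned
      simp only
      split_ifs
      · exact Finset.card_le_three
      · exact Finset.card_le_two.trans (by norm_num)
    · intro v hv v' hv' hne
      exact ned_disjoint hσ hne ((hS v hv).trans (hS v' hv').symm)

theorem slope_const (k : ℤ) : Slope fun _ => k := by
  intro x y
  have := abs_nonneg (x - y)
  simp only [sub_self, mul_zero]
  omega

theorem ninth_le : (1 / 9 : ℝ≥0∞) ≤ 1 / 6 := by
  rw [one_div, one_div]
  exact ENNReal.inv_le_inv.2 (by norm_num)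

theorem ae_good {σ : ℤ} (hσ : σ = 0 ∨ σ = 1)
    (hind : iIndepFun (fun (e : V × Fin 2) ω => w ω e.1 e.2.castSucc) μ)
    {K δ : ℝ≥0∞} (hδ : ∀ e : V × Fin 2, μ {ω | K < w ω e.1 e.2.castSucc} ≤ δ)
    (hδ' : 3 * δ ≤ ((1 / 3) ^ 3) ^ 4) : ∀ᵐ ω ∂μ, Good σ (w ω) K := by
  unfold Good
  rw [ae_all_iff]
  intro k
  exact ae_fin (slope_const _) ninth_le (clP_bound hσ hind hδ hδ')

/-- The curve of a slanted line exists. -/
theorem ae_fin_slope {σ : ℤ} (hσ : σ = 0 ∨ σ = 1)
    (hind : iIndepFun (fun (e : V × Fin 2) ω => w ω e.1 e.2.castSucc) μ)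
    {K δ : ℝ≥0∞} (hδ : ∀ e : V × Fin 2, μ {ω | K < w ω e.1 e.2.castSucc} ≤ δ)
    (hδ' : 3 * δ ≤ ((1 / 3) ^ 3) ^ 4) {g : ℤ → ℤ} (hg : Slope g) :
    ∀ᵐ ω ∂μ, Fin' (ClP σ (w ω) K) g :=
  ae_fin hg ninth_le (clP_bound hσ hind hδ hδ')

/-- Exponential tails of the distance of a curve from its base. -/
theorem crv_tail {σ : ℤ} (hσ : σ = 0 ∨ σ = 1)
    (hind : iIndepFun (fun (e : V × Fin 2) ω => w ω e.1 e.2.castSucc) μ)
    {K δ : ℝ≥0∞} (hδ : ∀ e : V × Fin 2, μ {ω | K < w ω e.1 e.2.castSucc} ≤ δ)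
    (hδ' : 3 * δ ≤ ((1 / 3) ^ 3) ^ 4) {g : ℤ → ℤ} (hg : Slope g) (h : ℕ) (i : ℤ) :
    μ {ω | g i + (h + 2 : ℕ) < ln σ (pt σ (crv σ (w ω) K g) i)} ≤ 2 * (1 / 9) ^ (2 * h) := by
  refine (measure_mono fun ω hω => ?_).trans
    (Lam_tail hg ninth_le (clP_bound hσ hind hδ hδ') h i)
  have h1 := (crv_line hσ (w := w ω) (K := K) (g := g) i).2
  simp only [Set.mem_setOf_eq] at hω ⊢
  push_cast at hω ⊢
  rcases hσ with rfl | rfl <;> omega

/-- Exponential tails for the curve of a line. -/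
theorem pk_tail {σ : ℤ} (hσ : σ = 0 ∨ σ = 1)
    (hind : iIndepFun (fun (e : V × Fin 2) ω => w ω e.1 e.2.castSucc) μ)
    {K δ : ℝ≥0∞} (hδ : ∀ e : V × Fin 2, μ {ω | K < w ω e.1 e.2.castSucc} ≤ δ)
    (hδ' : 3 * δ ≤ ((1 / 3) ^ 3) ^ 4) (h : ℕ) (k i : ℤ) :
    μ {ω | k + (h + 1 : ℕ) < ln σ (pk σ (w ω) K k i)} ≤ 2 * (1 / 9) ^ (2 * h) := by
  refine (measure_mono fun ω hω => ?_).trans
    (crv_tail hσ hind hδ hδ' (slope_const (k - 1)) h i)
  simp only [Set.mem_setOf_eq] at hω ⊢
  unfold pk ck at hω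
  push_cast at hω ⊢
  omega

end prob

end C7
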