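import Mathlib

/-!
# Probability toolbox: i.i.d. configurations

`iid ι F` is the law of an i.i.d. family indexed by `ι` with law `F`.  Reindexing, resampling,
independence, finite energy, ergodicity of shifts, near ties, mass transport.
-/

set_option autoImplicit false
set_option linter.unusedSectionVars false

namespace C7

open MeasureTheory Filter Set
open scoped ENNReal Topology

section general

variable {ι X : Type*} [MeasurableSpace X] (F : Measure X)

/-- The law of an i.i.d. family with law `F`. -/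
noncomputable def iid (ι : Type*) {X : Type*} [MeasurableSpace X] (F : Measure X) :
    Measure (ι → X) := Measure.infinitePi fun _ : ι => F

instance [IsProbabilityMeasure F] : IsProbabilityMeasure (iid ι F) := by
  unfold iid; infer_instance

/-- Reindexing of a configuration. -/
def reix {α : Type*} (f : α → ι) (ω : ι → X) : α → X := fun i => ω (f i)

@[fun_prop]
theorem measurable_reix {α : Type*} (f : α → ι) :
    Measurable (reix f : (ι → X) → (α → X)) := by
  unfold reix; fun_prop

/-- Reindexing by an injective map preserves the i.i.d. measures. -/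
theorem measurePreserving_reix [IsProbabilityMeasure F] {α : Type*} {f : α → ι}
    (hf : Function.Injective f) : MeasurePreserving (reix f) (iid ι F) (iid α F) := by
  classical
  refine ⟨measurable_reix f, ?_⟩
  refine Measure.eq_infinitePi _ fun s t ht => ?_
  rw [Measure.map_apply (measurable_reix f) (.pi s.countable_toSet fun _ _ => ht _)]
  rcases isEmpty_or_nonempty α with hα | hα
  · have : s = ∅ := Finset.eq_empty_of_isEmpty s
    subst this
    simp
  have h1 : reix f ⁻¹' ((s : Set α).pi t) =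
      ((s.map ⟨f, hf⟩ : Finset ι) : Set ι).pi (fun i => t (Function.invFun f i)) := by
    ext ω
    simp only [mem_preimage, Set.mem_pi, Finset.mem_coe, Finset.mem_map,
      Function.Embedding.coeFn_mk, reix]
    constructor
    · rintro h _ ⟨a, ha, rfl⟩
      rw [Function.leftInverse_invFun hf a]
      exact h a ha
    · intro h a ha
      have := h (f a) ⟨a, ha, rfl⟩
      rwa [Function.leftInverse_invFun hf a] at this
  rw [h1, iid, Measure.infinitePi_pi _ fun i _ => ht _, Finset.prod_map]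
  refine Finset.prod_congr rfl fun a _ => ?_
  rw [Function.Embedding.coeFn_mk, Function.leftInverse_invFun hf a]

open Classical in
/-- The configuration `ω` with the coordinates in `S` replaced by those of `ω'`. -/
noncomputable def mix (S : Set ι) (ω ω' : ι → X) : ι → X := fun i => if i ∈ S then ω' i else ω i

theorem mix_mem {S : Set ι} {i : ι} (hi : i ∈ S) (ω ω' : ι → X) : mix S ω ω' i = ω' i := if_pos hi

theorem mix_notMem {S : Set ι} {i : ι} (hi : i ∉ S) (ω ω' : ι → X) : mix S ω ω' i = ω i :=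
  if_neg hi

@[fun_prop]
theorem measurable_mix (S : Set ι) :
    Measurable (fun p : (ι → X) × (ι → X) => mix S p.1 p.2) := by
  refine measurable_pi_lambda _ fun i => ?_
  by_cases hi : i ∈ S
  · simp only [mix_mem hi]; fun_prop
  · simp only [mix_notMem hi]; fun_prop

/-- Resampling the coordinates in `S` preserves the i.i.d. measure. -/
theorem measurePreserving_mix [IsProbabilityMeasure F] (S : Set ι) :
    MeasurePreserving (fun p : (ι → X) × (ι → X) => mix S p.1 p.2)
      ((iid ι F).prod (iid ι F)) (iid ι F) := by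
  classical
  refine ⟨measurable_mix S, ?_⟩
  refine Measure.eq_infinitePi _ fun s t ht => ?_
  rw [Measure.map_apply (measurable_mix S) (.pi s.countable_toSet fun _ _ => ht _)]
  have h1 : (fun p : (ι → X) × (ι → X) => mix S p.1 p.2) ⁻¹' ((s : Set ι).pi t) =
      (((s.filter fun i => i ∉ S : Finset ι) : Set ι).pi t) ×ˢ
        (((s.filter fun i => i ∈ S : Finset ι) : Set ι).pi t) := by
    ext ⟨ω, ω'⟩
    simp only [mem_preimage, Set.mem_pi, Finset.mem_coe, mem_prod, Finset.mem_filter]
    constructor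
    · intro h
      refine ⟨fun i hi => ?_, fun i hi => ?_⟩
      · have := h i hi.1
        rwa [mix_notMem hi.2] at this
      · have := h i hi.1
        rwa [mix_mem hi.2] at this
    · rintro ⟨h1, h2⟩ i hi
      by_cases hS : i ∈ S
      · rw [mix_mem hS]; exact h2 i ⟨hi, hS⟩
      · rw [mix_notMem hS]; exact h1 i ⟨hi, hS⟩
  rw [h1, Measure.prod_prod, iid, Measure.infinitePi_pi _ fun i _ => ht _,
    Measure.infinitePi_pi _ fun i _ => ht _, mul_comm]
  exact Finset.prod_filter_mul_prod_filter_not s (fun i => i ∈ S) fun i => F (t i)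

/-! ### Functions and events depending on some of the coordinates -/

/-- `f` depends only on the coordinates in `S`. -/
def DepOn {β : Type*} (S : Set ι) (f : (ι → X) → β) : Prop :=
  ∀ ω ω' : ι → X, (∀ i ∈ S, ω i = ω' i) → f ω = f ω'

theorem DepOn.mono {β : Type*} {S S' : Set ι} {f : (ι → X) → β} (h : DepOn S f) (hS : S ⊆ S') :
    DepOn S' f := fun ω ω' hω => h ω ω' fun i hi => hω i (hS hi)

theorem DepOn.comp {β γ : Type*} {S : Set ι} {f : (ι → X) → β} (h : DepOn S f) (g : β → γ) :
    DepOn S fun ω => g (f ω) := fun ω ω' hω => congrArg g (h ω ω' hω)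

theorem DepOn.mix_right {β : Type*} {S : Set ι} {f : (ι → X) → β} (h : DepOn S f)
    (ω ω' : ι → X) : f (mix S ω ω') = f ω' := h _ _ fun _ hi => mix_mem hi ω ω'

theorem DepOn.mix_left {β : Type*} {S : Set ι} {f : (ι → X) → β} (h : DepOn Sᶜ f)
    (ω ω' : ι → X) : f (mix S ω ω') = f ω := h _ _ fun _ hi => mix_notMem hi ω ω'

/-- Independence of functions of disjoint sets of coordinates. -/
theorem lintegral_mul_of_depOn [IsProbabilityMeasure F] {S : Set ι} {f g : (ι → X) → ℝ≥0∞}
    (hf : DepOn S f) (hg : DepOn Sᶜ g) (hfm : Measurable f) (hgm : Measurable g) :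
    ∫⁻ ω, f ω * g ω ∂(iid ι F) = (∫⁻ ω, f ω ∂(iid ι F)) * ∫⁻ ω, g ω ∂(iid ι F) := by
  have h1 := (measurePreserving_mix F S).lintegral_comp (f := fun ω => f ω * g ω) (hfm.mul hgm)
  rw [← h1]
  simp only [hf.mix_right, hg.mix_left]
  rw [mul_comm (∫⁻ ω, f ω ∂(iid ι F)), ← lintegral_prod_mul hgm.aemeasurable hfm.aemeasurable]
  simp only [mul_comm]

theorem measure_inter_of_depOn [IsProbabilityMeasure F] {S : Set ι} {A B : Set (ι → X)}
    (hA : DepOn S (· ∈ A)) (hB : DepOn Sᶜ (· ∈ B)) (hAm : MeasurableSet A) (hBm : MeasurableSet B) :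
    iid ι F (A ∩ B) = iid ι F A * iid ι F B := by
  rw [← (measurePreserving_mix F S).measure_preimage (hAm.inter hBm).nullMeasurableSet]
  have h1 : (fun p : (ι → X) × (ι → X) => mix S p.1 p.2) ⁻¹' (A ∩ B) = B ×ˢ A := by
    ext ⟨ω, ω'⟩
    simp only [mem_preimage, mem_inter_iff, mem_prod]
    have h1 := hA.mix_right ω ω'
    have h2 := hB.mix_left ω ω'
    simp only [eq_iff_iff] at h1 h2
    rw [h1, h2]
    exact and_comm
  rw [h1, Measure.prod_prod, mul_comm]

/-! ### Finite energy -/

/-- **Finite energy.**  If `A` has positive probability and the coordinates in the finite set `S` may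
take values in `B i` with positive probability, then with positive probability the configuration
has coordinates in `B i` on `S` and agrees off `S` with a configuration in `A`.  (Outer measure.) -/
theorem finite_energy [IsProbabilityMeasure F] (S : Finset ι) (B : ι → Set X)
    (hBm : ∀ i ∈ S, MeasurableSet (B i)) (hB : ∀ i ∈ S, F (B i) ≠ 0) {A : Set (ι → X)}
    (hA : iid ι F A ≠ 0) :
    iid ι F {ω | (∀ i ∈ S, ω i ∈ B i) ∧ ∃ ω' ∈ A, ∀ i ∉ S, ω' i = ω i} ≠ 0 := by
  set D : Set (ι → X) := {ω | (∀ i ∈ S, ω i ∈ B i) ∧ ∃ ω' ∈ A, ∀ i ∉ S, ω' i = ω i} with hD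
  intro h0
  have h1 := (measurePreserving_mix F (S : Set ι)).quasiMeasurePreserving.preimage_null h0
  have h2 : A ×ˢ (((S : Finset ι) : Set ι).pi B) ⊆
      (fun p : (ι → X) × (ι → X) => mix (S : Set ι) p.1 p.2) ⁻¹' D := by
    rintro ⟨ω, ω'⟩ ⟨hω, hω'⟩
    refine ⟨fun i hi => ?_, ω, hω, fun i hi => ?_⟩
    · have h3 : mix (S : Set ι) ω ω' i = ω' i := mix_mem (Finset.mem_coe.mpr hi) ω ω'
      show mix (S : Set ι) ω ω' i ∈ B i
      rw [h3]
      exact hω' i (Finset.mem_coe.mpr hi)
    · exact (mix_notMem (fun h => hi (Finset.mem_coe.mp h)) ω ω').symm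
  have h3 := measure_mono_null h2 h1
  rw [Measure.prod_prod, mul_eq_zero] at h3
  rcases h3 with h3 | h3
  · exact hA h3
  · rw [iid, Measure.infinitePi_pi _ hBm, Finset.prod_eq_zero_iff] at h3
    obtain ⟨i, hi, h4⟩ := h3
    exact hB i hi h4

/-! ### Ergodicity -/

theorem reix_pow (e : ι ≃ ι) (n : ℕ) : (reix e : (ι → X) → (ι → X))^[n] = reix (e ^ n : Equiv.Perm ι) := by
  induction n with
  | zero => rfl
  | succ n ih =>
    rw [Function.iterate_succ, ih]
    funext ω
    show (fun i => ω (e ((e ^ n : Equiv.Perm ι) i))) = fun i => ω ((e ^ (n + 1) : Equiv.Perm ι) i)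
    funext i
    rw [pow_succ', Equiv.Perm.mul_apply]

/-- approximation of an event by an event depending on finitely many coordinates -/
theorem exists_cylinder [IsProbabilityMeasure F] {A : Set (ι → X)} (hA : MeasurableSet A) {ε : ℝ}
    (hε : 0 < ε) : ∃ (S : Finset ι) (B : Set (ι → X)), MeasurableSet B ∧
      DepOn (S : Set ι) (· ∈ B) ∧ (iid ι F).real (symmDiff A B) < ε := by
  have hd : (iid ι F).MeasureDense (measurableCylinders fun _ : ι => X) :=
    Measure.MeasureDense.of_generateFrom_isSetAlgebra_finite (iid ι F)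
      isSetAlgebra_measurableCylinders generateFrom_measurableCylinders.symm
  obtain ⟨B, hB, h⟩ := hd.approx A hA (measure_ne_top _ _) ε hε
  rw [mem_measurableCylinders] at hB
  obtain ⟨S, B0, hB0, rfl⟩ := hB
  refine ⟨S, cylinder S B0, hB0.cylinder S, fun ω ω' hω => ?_, ?_⟩
  · simp only [mem_cylinder, eq_iff_iff]
    have : S.restrict ω = S.restrict ω' := by
      funext i
      exact hω i i.2
    rw [this]
  · rw [measureReal_def]
    exact (ENNReal.toReal_lt_of_lt_ofReal h)

theorem abs_measureReal_sub_le {α : Type*} [MeasurableSpace α] (μ : Measure α) [IsFiniteMeasure μ]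
    (A B : Set α) : |μ.real A - μ.real B| ≤ μ.real (symmDiff A B) := by
  have h1 : μ.real A ≤ μ.real B + μ.real (symmDiff A B) := by
    refine (measureReal_mono (fun x hx => ?_) (measure_ne_top _ _)).trans
      (measureReal_union_le B (symmDiff A B))
    by_cases h : x ∈ B
    · exact Or.inl h
    · exact Or.inr (Or.inl ⟨hx, h⟩)
  have h2 : μ.real B ≤ μ.real A + μ.real (symmDiff A B) := by
    refine (measureReal_mono (fun x hx => ?_) (measure_ne_top _ _)).trans
      (measureReal_union_le A (symmDiff A B))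
    by_cases h : x ∈ A
    · exact Or.inl h
    · exact Or.inr (Or.inr ⟨hx, h⟩)
  rw [abs_le]
  constructor <;> linarith

/-- **Ergodicity** of a reindexing some power of which moves a given finite set off itself. -/
theorem ergodic_reix [IsProbabilityMeasure F] (e : ι ≃ ι)
    (he : ∀ S : Finset ι, ∃ n : ℕ, ∀ i ∈ S, (e ^ n : Equiv.Perm ι) i ∉ S) :
    Ergodic (reix e : (ι → X) → (ι → X)) (iid ι F) := by
  refine ⟨measurePreserving_reix F e.injective, ⟨fun A hA hinv => ?_⟩⟩
  set μ := iid ι F with hμ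
  -- P(A) = P(A)^2
  have key : ∀ ε : ℝ, 0 < ε → |μ.real A - μ.real A ^ 2| ≤ 4 * ε := by
    intro ε hε
    obtain ⟨S, B, hBm, hB, hAB⟩ := exists_cylinder F hA hε
    obtain ⟨n, hn⟩ := he S
    set T : (ι → X) → (ι → X) := reix (e ^ n : Equiv.Perm ι) with hT
    have hTmp : MeasurePreserving T μ μ := measurePreserving_reix F (Equiv.injective _)
    have hTA : T ⁻¹' A = A := by
      rw [hT, ← reix_pow]
      clear hTmp
      clear_value T
      clear hT hn
      induction n with
      | zero => rfl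
      | succ n ih => rw [Function.iterate_succ, preimage_comp, ih, hinv]
    have hTB : DepOn ((S : Set ι)ᶜ) (· ∈ T ⁻¹' B) := by
      intro ω ω' hω
      refine hB _ _ fun i hi => ?_
      exact hω _ (hn i hi)
    have h1 : μ (B ∩ T ⁻¹' B) = μ B * μ B := by
      rw [hμ, measure_inter_of_depOn F hB hTB hBm (hTmp.measurable hBm), ← hμ,
        hTmp.measure_preimage hBm.nullMeasurableSet]
    have h2 : μ.real (B ∩ T ⁻¹' B) = μ.real B ^ 2 := by
      rw [measureReal_def, h1, ENNReal.toReal_mul, sq]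
      rfl
    have h3 : μ.real (symmDiff A (B ∩ T ⁻¹' B)) ≤ 2 * ε := by
      have h4 : symmDiff A (B ∩ T ⁻¹' B) ⊆ symmDiff A B ∪ T ⁻¹' (symmDiff A B) := by
        intro x hx
        have h5 : x ∈ A ↔ T x ∈ A := by
          conv_lhs => rw [← hTA]
          rfl
        simp only [mem_union, mem_preimage, mem_symmDiff, mem_inter_iff] at hx ⊢
        tauto
      have h6 : μ.real (T ⁻¹' (symmDiff A B)) = μ.real (symmDiff A B) := by
        rw [measureReal_def, hTmp.measure_preimage (hA.symmDiff hBm).nullMeasurableSet]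
        rfl
      have h7 := (measureReal_mono h4 (measure_ne_top μ _)).trans (measureReal_union_le _ _)
      rw [h6] at h7
      linarith
    have h8 := abs_measureReal_sub_le μ A (B ∩ T ⁻¹' B)
    have h9 := abs_measureReal_sub_le μ A B
    rw [h2] at h8
    have ha0 : 0 ≤ μ.real A := measureReal_nonneg
    have ha1 : μ.real A ≤ 1 := measureReal_le_one
    have hb0 : 0 ≤ μ.real B := measureReal_nonneg
    have hb1 : μ.real B ≤ 1 := measureReal_le_one
    have h10 : |μ.real B ^ 2 - μ.real A ^ 2| ≤ 2 * ε := by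
      have : μ.real B ^ 2 - μ.real A ^ 2 = (μ.real B + μ.real A) * -(μ.real A - μ.real B) := by ring
      rw [this, abs_mul, abs_neg, abs_of_nonneg (by linarith)]
      have : |μ.real A - μ.real B| ≤ ε := by linarith
      nlinarith [abs_nonneg (μ.real A - μ.real B)]
    calc |μ.real A - μ.real A ^ 2|
        = |(μ.real A - μ.real B ^ 2) + (μ.real B ^ 2 - μ.real A ^ 2)| := by ring_nf
      _ ≤ |μ.real A - μ.real B ^ 2| + |μ.real B ^ 2 - μ.real A ^ 2| := abs_add_le _ _
      _ ≤ 4 * ε := by linarith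
  have h0 : μ.real A - μ.real A ^ 2 = 0 := by
    by_contra h
    have h1 : 0 < |μ.real A - μ.real A ^ 2| := abs_pos.mpr h
    have h2 := key (|μ.real A - μ.real A ^ 2| / 8) (by positivity)
    linarith
  have h1 : μ.real A = 0 ∨ μ.real A = 1 := by
    have : μ.real A * (1 - μ.real A) = 0 := by linarith
    rcases mul_eq_zero.mp this with h | h
    · exact Or.inl h
    · exact Or.inr (by linarith)
  rw [eventuallyConst_set]
  rcases h1 with h1 | h1
  · right
    rw [← measure_eq_zero_iff_ae_notMem]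
    rwa [measureReal_eq_zero_iff] at h1
  · left
    have h2 : μ A = 1 := by
      rw [← ENNReal.toReal_eq_one_iff]
      exact h1
    rwa [← prob_compl_eq_zero_iff hA, ← mem_ae_iff] at h2

/-- an event of positive probability occurs along infinitely many iterates of an ergodic map -/
theorem ae_frequently_mem {α : Type*} [MeasurableSpace α] {μ : Measure α} [IsProbabilityMeasure μ]
    {T : α → α} (hT : Ergodic T μ) {A : Set α} (hA : MeasurableSet A) (h : μ A ≠ 0) :
    ∀ᵐ x ∂μ, ∃ᶠ n in atTop, T^[n] x ∈ A := by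
  set I : Set α := {x | ∃ᶠ n in atTop, T^[n] x ∈ A} with hI
  have hIm : MeasurableSet I := by
    have : I = ⋂ N : ℕ, ⋃ n : ℕ, ⋃ (_ : N ≤ n), T^[n] ⁻¹' A := by
      ext x
      simp only [hI, mem_ofPred_eq, frequently_atTop, mem_iInter, mem_iUnion, mem_preimage,
        exists_prop]
    rw [this]
    refine MeasurableSet.iInter fun N => MeasurableSet.iUnion fun n => MeasurableSet.iUnion fun _ =>
      (hT.measurable.iterate n) hA
  have hinv : T ⁻¹' I = I := by
    ext x
    simp only [hI, mem_preimage, mem_ofPred_eq]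
    have h1 : (∃ᶠ n in atTop, T^[n] (T x) ∈ A) ↔ ∃ᶠ n in atTop, T^[n + 1] x ∈ A := by
      simp only [Function.iterate_succ_apply]
    rw [h1, frequently_atTop, frequently_atTop]
    constructor
    · intro h2 N
      obtain ⟨n, hn, h3⟩ := h2 N
      exact ⟨n + 1, by omega, h3⟩
    · intro h2 N
      obtain ⟨n, hn, h3⟩ := h2 (N + 1)
      refine ⟨n - 1, by omega, ?_⟩
      have : n - 1 + 1 = n := by omega
      rwa [this]
  have hc := hT.toMeasurePreserving.conservative
  have h1 := hc.ae_mem_imp_frequently_image_mem hA.nullMeasurableSet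
  rcases eventuallyConst_set.mp (hT.aeconst_set hIm hinv) with h2 | h2
  · exact h2
  · exfalso
    apply h
    rw [measure_eq_zero_iff_ae_notMem]
    filter_upwards [h1, h2] with x hx hx' hxA
    exact hx' (hx hxA)

end general

/-! ### Near ties -/

section ties

variable {ι : Type*} (F : Measure ℝ)

/-- the largest mass of an interval of length `2 η` -/
noncomputable def conc (η : ℝ) : ℝ≥0∞ := ⨆ a : ℝ, F (Icc (a - η) (a + η))

theorem le_conc (η a : ℝ) : F (Icc (a - η) (a + η)) ≤ conc F η := le_iSup (fun a : ℝ => F (Icc (a - η) (a + η))) a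

theorem conc_mono {η η' : ℝ} (h : η ≤ η') : conc F η ≤ conc F η' :=
  iSup_mono fun a => measure_mono (Icc_subset_Icc (by linarith) (by linarith))

/-- near ties: `ω i` is close to a random variable which does not depend on `ω i` -/
theorem near_tie [IsProbabilityMeasure F] (i : ι) {g : (ι → ℝ) → ℝ} (hg : Measurable g)
    (hdep : DepOn ({i}ᶜ : Set ι) g) (η : ℝ) : iid ι F {ω | |ω i - g ω| ≤ η} ≤ conc F η := by
  have hm : MeasurableSet {ω : ι → ℝ | |ω i - g ω| ≤ η} := by
    have : Measurable fun ω : ι → ℝ => |ω i - g ω| := by fun_prop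
    exact measurableSet_le this measurable_const
  rw [← (measurePreserving_mix F ({i} : Set ι)).measure_preimage hm.nullMeasurableSet]
  have h1 : (fun p : (ι → ℝ) × (ι → ℝ) => mix {i} p.1 p.2) ⁻¹' {ω | |ω i - g ω| ≤ η} =
      {p | |p.2 i - g p.1| ≤ η} := by
    ext ⟨ω, ω'⟩
    simp only [mem_preimage, mem_ofPred_eq]
    rw [hdep.mix_left, mix_mem (mem_singleton i)]
  rw [h1, Measure.prod_apply (by
    have : Measurable fun p : (ι → ℝ) × (ι → ℝ) => |p.2 i - g p.1| := by fun_prop
    exact measurableSet_le this measurable_const)]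
  have h2 : ∀ ω : ι → ℝ, iid ι F (Prod.mk ω ⁻¹' {p : (ι → ℝ) × (ι → ℝ) | |p.2 i - g p.1| ≤ η})
      ≤ conc F η := by
    intro ω
    have h3 : Prod.mk ω ⁻¹' {p : (ι → ℝ) × (ι → ℝ) | |p.2 i - g p.1| ≤ η} =
        Function.eval i ⁻¹' Icc (g ω - η) (g ω + η) := by
      ext ω'
      simp only [mem_preimage, mem_ofPred_eq, Function.eval, mem_Icc, abs_le]
      constructor <;> rintro ⟨h4, h5⟩ <;> constructor <;> linarith
    rw [h3, iid, (measurePreserving_eval_infinitePi (fun _ : ι => F) i).measure_preimage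
      measurableSet_Icc.nullMeasurableSet]
    exact le_conc F η (g ω)
  calc ∫⁻ ω, iid ι F (Prod.mk ω ⁻¹' {p : (ι → ℝ) × (ι → ℝ) | |p.2 i - g p.1| ≤ η}) ∂(iid ι F)
      ≤ ∫⁻ _ω, conc F η ∂(iid ι F) := lintegral_mono h2
    _ = conc F η := by rw [lintegral_const, measure_univ, mul_one]

/-- the same when `g` may also depend on `ω i` through a variable with finitely many values -/
theorem near_tie_fin [IsProbabilityMeasure F] {κ : Type*} [Fintype κ] (i : ι)
    {g : κ → (ι → ℝ) → ℝ} (hg : ∀ s, Measurable (g s)) (hdep : ∀ s, DepOn ({i}ᶜ : Set ι) (g s))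
    (η : ℝ) : iid ι F {ω | ∃ s, |ω i - g s ω| ≤ η} ≤ Fintype.card κ * conc F η := by
  have h1 : {ω : ι → ℝ | ∃ s, |ω i - g s ω| ≤ η} = ⋃ s ∈ (Finset.univ : Finset κ),
      {ω | |ω i - g s ω| ≤ η} := by
    ext ω; simp
  rw [h1]
  refine (measure_biUnion_finset_le _ _).trans ?_
  refine (Finset.sum_le_sum fun s _ => near_tie F i (hg s) (hdep s) η).trans ?_
  rw [Finset.sum_const, nsmul_eq_mul, Finset.card_univ]

/-- no atoms: the concentration function tends to zero -/
theorem tendsto_conc [IsProbabilityMeasure F] (hF : ∀ a, F {a} = 0) :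
    Tendsto (conc F) (𝓝[>] 0) (𝓝 0) := by
  rw [ENNReal.tendsto_nhds_zero]
  intro ε hε
  by_contra hcon
  have h1 : ∀ η : ℝ, 0 < η → ε < conc F η := by
    intro η hη
    by_contra h
    apply hcon
    filter_upwards [Ioo_mem_nhdsGT hη] with x hx
    exact (conc_mono F hx.2.le).trans (not_lt.mp h)
  have h2 : ∀ n : ℕ, ∃ a : ℝ, ε < F (Icc (a - 1 / ((n : ℝ) + 1)) (a + 1 / ((n : ℝ) + 1))) :=
    fun n => lt_iSup_iff.mp (h1 _ (by positivity))
  choose a ha using h2
  have hεt : ε ≠ ⊤ := ((ha 0).trans_le (le_top)).ne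
  obtain ⟨K, hK, hFK⟩ := isTightMeasureSet_iff_exists_isCompact_measure_compl_le.mp
    (isTightMeasureSet_singleton (μ := F)) (ε / 2) (ENNReal.half_pos hε.ne')
  have hFK' := hFK F (mem_singleton F)
  obtain ⟨R, hR⟩ := hK.isBounded.subset_closedBall (0 : ℝ)
  have h3 : ∀ n, a n ∈ Metric.closedBall (0 : ℝ) (R + 1) := by
    intro n
    by_contra h
    have h4 : Icc (a n - 1 / ((n : ℝ) + 1)) (a n + 1 / ((n : ℝ) + 1)) ⊆ Kᶜ := by
      intro x hx hxK
      apply h
      have h5 := hR hxK
      rw [Metric.mem_closedBall, Real.dist_eq, sub_zero] at h5 ⊢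
      have h6 : 1 / ((n : ℝ) + 1) ≤ 1 := by
        rw [div_le_one (by positivity)]
        linarith [(Nat.cast_nonneg n : (0 : ℝ) ≤ n)]
      rw [abs_le] at h5 ⊢
      constructor <;> linarith [hx.1, hx.2, h5.1, h5.2]
    have h5 := (ha n).trans_le ((measure_mono h4).trans hFK')
    exact absurd h5 (not_lt.mpr (ENNReal.half_le_self))
  obtain ⟨b, -, φ, hφ, hlim⟩ := (isCompact_closedBall (0 : ℝ) (R + 1)).tendsto_subseq h3
  have h4 : ∀ r : ℝ, 0 < r → ε ≤ F (Icc (b - r) (b + r)) := by
    intro r hr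
    have h5 : ∀ᶠ n in atTop, |a (φ n) - b| < r / 2 := by
      have := (Metric.tendsto_nhds.mp hlim) (r / 2) (by linarith)
      simpa [Real.dist_eq] using this
    have h6 : ∀ᶠ n : ℕ in atTop, 1 / (((φ n : ℕ) : ℝ) + 1) < r / 2 :=
      (tendsto_one_div_add_atTop_nhds_zero_nat.comp hφ.tendsto_atTop).eventually
        (gt_mem_nhds (by linarith))
    obtain ⟨n, h7, h8⟩ := (h5.and h6).exists
    refine (ha (φ n)).le.trans (measure_mono (Icc_subset_Icc ?_ ?_))
    · have := (abs_lt.mp h7).1; linarith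
    · have := (abs_lt.mp h7).2; linarith
  have h5 := tendsto_measure_Icc_nhdsWithin_right' F b
  rw [hF b] at h5
  have h6 : ε ≤ 0 := ge_of_tendsto h5 (by
    filter_upwards [self_mem_nhdsWithin] with r hr
    exact h4 r hr)
  exact absurd h6 (not_le.mpr hε)

end ties

/-! ### Mass transport -/

/-- mass transport for a kernel which is invariant under the diagonal shift by `p` -/
theorem mass_transport {p : ℕ} (hp : p ≠ 0) {M : ℤ → ℤ → ℝ≥0∞}
    (hM : ∀ i j, M (i + p) (j + p) = M i j) :
    ∑ i : Fin p, ∑' j : ℤ, M (i : ℕ) j = ∑ i : Fin p, ∑' j : ℤ, M j (i : ℕ) := by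
  have : NeZero p := ⟨hp⟩
  have h1 : ∀ k : ℤ, ∀ i j, M (i + k * p) (j + k * p) = M i j := by
    intro k
    induction k using Int.induction_on with
    | zero => intro i j; simp
    | succ k ih =>
      intro i j
      have h := hM (i + (k : ℤ) * p) (j + (k : ℤ) * p)
      rw [ih] at h
      rw [← h]
      congr 1 <;> ring
    | pred k ih =>
      intro i j
      have h := hM (i + (-(k : ℤ) - 1) * p) (j + (-(k : ℤ) - 1) * p)
      rw [← h, ← ih i j]
      congr 1 <;> ring
  have h2 : ∀ f : ℤ → ℝ≥0∞, ∑' j : ℤ, f j = ∑ r : Fin p, ∑' k : ℤ, f (k * p + (r : ℕ)) := by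
    intro f
    have h3 : ∑' j : ℤ, f j = ∑' q : ℤ × Fin p, f (q.1 * p + ((q.2 : ℕ) : ℤ)) :=
      ((Int.divModEquiv p).symm.tsum_eq f).symm
    rw [h3, ENNReal.tsum_prod (f := fun (k : ℤ) (r : Fin p) => f (k * p + ((r : ℕ) : ℤ))),
      ENNReal.tsum_comm, tsum_fintype]
  have e1 : ∀ i : Fin p, ∑' j : ℤ, M (i : ℕ) j =
      ∑ r : Fin p, ∑' k : ℤ, M (i : ℕ) (k * p + (r : ℕ)) := fun i => h2 _
  have e2 : ∀ i : Fin p, ∑' j : ℤ, M j (i : ℕ) =
      ∑ r : Fin p, ∑' k : ℤ, M (k * p + (r : ℕ)) (i : ℕ) := fun i => h2 fun j => M j (i : ℕ)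
  rw [Finset.sum_congr rfl fun i _ => e1 i, Finset.sum_congr rfl fun i _ => e2 i, Finset.sum_comm]
  refine Finset.sum_congr rfl fun r _ => Finset.sum_congr rfl fun i _ => ?_
  rw [← (Equiv.neg ℤ).tsum_eq]
  refine tsum_congr fun k => ?_
  show M (i : ℕ) (-k * p + (r : ℕ)) = M (k * p + (i : ℕ)) (r : ℕ)
  rw [← h1 k ((i : ℕ) : ℤ) (-k * p + (r : ℕ))]
  congr 1
  · ring
  · ring

/-! ### The configuration space of the square lattice

The coordinate `(v, 0)` is the edge from `v` to the right, `(v, 1)` the edge from `v` upwards. -/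

section lattice

/-- Index set of the edges of the square lattice. -/
abbrev Ed := (ℤ × ℤ) × Fin 2

/-- Configurations. -/
abbrev Om := Ed → ℝ

/-- Translation of the edges. -/
def shE (a : ℤ × ℤ) : Ed ≃ Ed where
  toFun e := ((e.1.1 + a.1, e.1.2 + a.2), e.2)
  invFun e := ((e.1.1 - a.1, e.1.2 - a.2), e.2)
  left_inv e := by simp
  right_inv e := by simp

theorem shE_pow (a : ℤ × ℤ) (n : ℕ) (e : Ed) :
    ((shE a) ^ n : Equiv.Perm Ed) e = ((e.1.1 + n * a.1, e.1.2 + n * a.2), e.2) := by
  induction n with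
  | zero => simp
  | succ n ih =>
    rw [pow_succ', Equiv.Perm.mul_apply, ih]
    simp only [shE, Equiv.coe_fn_mk, Prod.mk.injEq, and_true]
    push_cast
    constructor <;> ring

/-- Translation of the configuration: `(shO a ω) (v, d) = ω (v + a, d)`. -/
def shO (a : ℤ × ℤ) (ω : Om) : Om := reix (shE a) ω

theorem shO_apply (a : ℤ × ℤ) (ω : Om) (v : ℤ × ℤ) (d : Fin 2) :
    shO a ω (v, d) = ω ((v.1 + a.1, v.2 + a.2), d) := rfl

theorem shO_zero (ω : Om) : shO 0 ω = ω := by
  funext ⟨v, d⟩
  simp [shO_apply]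

theorem shO_add (a b : ℤ × ℤ) (ω : Om) : shO a (shO b ω) = shO (a + b) ω := by
  funext ⟨v, d⟩
  simp only [shO_apply, Prod.fst_add, Prod.snd_add, add_assoc]

variable (F : Measure ℝ) [IsProbabilityMeasure F]

theorem measurePreserving_shO (a : ℤ × ℤ) : MeasurePreserving (shO a) (iid Ed F) (iid Ed F) :=
  measurePreserving_reix F (shE a).injective

/-- Every nontrivial translation is ergodic. -/
theorem ergodic_shO {a : ℤ × ℤ} (ha : a ≠ 0) : Ergodic (shO a) (iid Ed F) := by
  refine ergodic_reix F (shE a) fun S => ?_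
  -- a bound for the coordinates in `S`
  obtain ⟨N, hN⟩ : ∃ N : ℕ, ∀ e ∈ S, |e.1.1| ≤ N ∧ |e.1.2| ≤ N := by
    refine ⟨S.sup fun e => max e.1.1.natAbs e.1.2.natAbs, fun e he => ?_⟩
    have h : max e.1.1.natAbs e.1.2.natAbs ≤ S.sup fun e => max e.1.1.natAbs e.1.2.natAbs :=
      Finset.le_sup (f := fun e : Ed => max e.1.1.natAbs e.1.2.natAbs) he
    rw [Int.abs_eq_natAbs, Int.abs_eq_natAbs]
    constructor <;> omega
  refine ⟨2 * N + 1, fun e he he' => ?_⟩
  rw [shE_pow] at he'
  have h1 := hN e he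
  have h2 := hN _ he'
  simp only [abs_le] at h1 h2
  push_cast at h2
  have ha' : a.1 ≠ 0 ∨ a.2 ≠ 0 := by
    by_contra h
    push Not at h
    exact ha (Prod.ext h.1 h.2)
  rcases ha' with h | h
  · rcases lt_or_gt_of_ne h with h | h
    · nlinarith
    · nlinarith
  · rcases lt_or_gt_of_ne h with h | h
    · nlinarith
    · nlinarith

/-- mass transport along a line: `m` is invariant under the translation by `a`, which moves the
indices by `p` -/
theorem mass_transport_shO {p : ℕ} (hp : p ≠ 0) (a : ℤ × ℤ) {m : ℤ → ℤ → Om → ℝ≥0∞}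
    (hmeas : ∀ i j, AEMeasurable (m i j) (iid Ed F))
    (hm : ∀ i j, ∀ᵐ ω ∂(iid Ed F), m (i + p) (j + p) ω = m i j (shO a ω)) :
    ∑ i : Fin p, ∑' j : ℤ, ∫⁻ ω, m (i : ℕ) j ω ∂(iid Ed F) =
      ∑ i : Fin p, ∑' j : ℤ, ∫⁻ ω, m j (i : ℕ) ω ∂(iid Ed F) := by
  refine mass_transport hp (M := fun i j => ∫⁻ ω, m i j ω ∂(iid Ed F)) fun i j => ?_
  show ∫⁻ ω, m (i + p) (j + p) ω ∂(iid Ed F) = ∫⁻ ω, m i j ω ∂(iid Ed F)
  rw [lintegral_congr_ae (hm i j)]
  have h := measurePreserving_shO F a
  rw [← lintegral_map' (by rw [h.map_eq]; exact hmeas i j) h.measurable.aemeasurable, h.map_eq]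

end lattice

end C7
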