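import Mathlib
import Pool.Agent.Lib.MP_c725eb_pr.Curve
import Pool.Agent.Lib.MP_c725eb_pr.Prob

/-!
# Reduction of the frozen statement to the canonical space

`wt ω` are the weights of the configuration `ω`.  The frozen statement follows from a statement on
i.i.d. configurations whose law has no atoms and is supported on `[0, ∞)`.
-/

set_option autoImplicit false

namespace C7

open MeasureTheory ProbabilityTheory Filter Set
open scoped ENNReal Topology

/-- The weights of a configuration (no diagonal edges). -/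
noncomputable def wt (ω : Om) : W := fun v d =>
  if d = 0 then ENNReal.ofReal (ω (v, 0)) else if d = 1 then ENNReal.ofReal (ω (v, 1)) else ⊤

@[simp] theorem wt_zero (ω : Om) (v : V) : wt ω v 0 = ENNReal.ofReal (ω (v, 0)) := if_pos rfl
@[simp] theorem wt_one (ω : Om) (v : V) : wt ω v 1 = ENNReal.ofReal (ω (v, 1)) := rfl
@[simp] theorem wt_two (ω : Om) (v : V) : wt ω v 2 = ⊤ := rfl

theorem wt_shO (a : V) (ω : Om) : wt (shO a ω) = sh a (wt ω) := by
  funext v d
  rfl

/-- The square lattice of the frozen statement. -/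
abbrev Sq : SimpleGraph (ℤ × ℤ) :=
  SimpleGraph.boxProd (SimpleGraph.fromRel (fun a b : ℤ => b = a + 1))
    (SimpleGraph.fromRel (fun a b : ℤ => b = a + 1))

theorem sq_adj (u v : V) : Sq.Adj u v ↔ Nb u v := by
  obtain ⟨u1, u2⟩ := u
  obtain ⟨v1, v2⟩ := v
  simp only [SimpleGraph.boxProd_adj, SimpleGraph.fromRel_adj, Nb, Prod.mk.injEq]
  omega

/-- The edge with a given index. -/
def edg (e : Ed) : Sq.edgeSet :=
  if h : e.2 = 0 then ⟨s(e.1, (e.1.1 + 1, e.1.2)), by
    rw [SimpleGraph.mem_edgeSet, sq_adj]; exact Or.inl rfl⟩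
  else ⟨s(e.1, (e.1.1, e.1.2 + 1)), by
    rw [SimpleGraph.mem_edgeSet, sq_adj]; exact Or.inr (Or.inr (Or.inl rfl))⟩

theorem edg_zero (v : V) : (edg (v, 0) : Sym2 V) = s(v, (v.1 + 1, v.2)) := rfl
theorem edg_one (v : V) : (edg (v, 1) : Sym2 V) = s(v, (v.1, v.2 + 1)) := rfl

theorem edg_injective : Function.Injective edg := by
  rintro ⟨⟨a, b⟩, d⟩ ⟨⟨a', b'⟩, d'⟩ h
  have h1 := congrArg Subtype.val h
  fin_cases d <;> fin_cases d' <;>
    simp only [Fin.zero_eta, Fin.mk_one, edg_zero, edg_one, Sym2.eq_iff, Prod.mk.injEq] at h1 ⊢ <;>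
    first
      | omega
      | (refine ⟨?_, trivial⟩; omega)

theorem step_edg {c : Sq.edgeSet → ℝ} {u v : V} (h : Sq.Adj u v) :
    step (wt fun e => c (edg e)) u v = ENNReal.ofReal (c ⟨s(u, v), h⟩) := by
  have h' := (sq_adj u v).1 h
  rcases h' with h' | h' | h' | h'
  · subst h'
    rw [step_right, wt_zero]; rfl
  · subst h'
    rw [step_comm, step_right, wt_zero]
    congr 2
    exact Subtype.ext (by rw [edg_zero]; exact Sym2.eq_swap)
  · subst h'
    rw [step_up, wt_one]; rfl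
  · subst h'
    rw [step_comm, step_up, wt_one]
    congr 2
    exact Subtype.ext (by rw [edg_one]; exact Sym2.eq_swap)

/-- cost of a walk of the graph -/
theorem cost_support {c : Sq.edgeSet → ℝ} (hc : ∀ e, 0 ≤ c e) {x y : V} (p : Sq.Walk x y) :
    cost (wt fun e => c (edg e)) p.support =
      ENNReal.ofReal ((p.darts.map fun d => c ⟨d.edge, d.edge_mem⟩).sum) := by
  induction p with
  | nil => simp
  | cons h p ih =>
    rename_i x y z
    rw [SimpleGraph.Walk.support_cons, SimpleGraph.Walk.darts_cons, List.map_cons, List.sum_cons,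
      ENNReal.ofReal_add (hc _) (List.sum_nonneg (by
        intro r hr
        obtain ⟨d, -, rfl⟩ := List.mem_map.mp hr
        exact hc _)), ← ih]
    rw [← p.cons_tail_support, cost_cons_cons, step_edg h]
    rfl

theorem isW_support {x y : V} (p : Sq.Walk x y) : IsW univ x y p.support := by
  refine ⟨?_, ?_, fun _ _ => mem_univ _⟩
  · rw [← p.cons_tail_support]; rfl
  · rw [List.getLast?_eq_some_getLast p.support_ne_nil, p.getLast_support]

/-- a list of finite cost is a walk of the graph -/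
theorem exists_walk {c : Sq.edgeSet → ℝ} {x y : V} {l : List V} (hl : IsW univ x y l)
    (hfin : cost (wt fun e => c (edg e)) l ≠ ⊤) : ∃ q : Sq.Walk x y, q.support = l := by
  induction l generalizing x with
  | nil => exact absurd rfl (isW_ne_nil hl)
  | cons a l ih =>
    have hxa : a = x := by simpa using hl.1
    subst hxa
    cases l with
    | nil =>
      have : a = y := by simpa using hl.2.1
      subst this
      exact ⟨SimpleGraph.Walk.nil, rfl⟩
    | cons b l' =>
      rw [cost_cons_cons] at hfin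
      have h1 : step (wt fun e => c (edg e)) a b ≠ ⊤ := fun h => hfin (by rw [h, top_add])
      have h2 : cost (wt fun e => c (edg e)) (b :: l') ≠ ⊤ := fun h => hfin (by rw [h, add_top])
      have hadj : Sq.Adj a b := (sq_adj a b).2 (nb_of_step_ne_top (fun v => wt_two _ v) h1)
      obtain ⟨q, hq⟩ := ih (x := b) ⟨rfl, by simpa using hl.2.1, fun _ _ => mem_univ _⟩ h2
      exact ⟨SimpleGraph.Walk.cons hadj q, by rw [SimpleGraph.Walk.support_cons, hq]⟩

/-- a vertex on a minimal walk -/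
theorem T_add_eq {c : Sq.edgeSet → ℝ} (hc : ∀ e, 0 ≤ c e) {x y v : V} (p : Sq.Walk x y)
    (hp : ∀ q : Sq.Walk x y, (p.darts.map fun d => c ⟨d.edge, d.edge_mem⟩).sum ≤
      (q.darts.map fun d => c ⟨d.edge, d.edge_mem⟩).sum) (hv : v ∈ p.support) :
    T (wt fun e => c (edg e)) univ x v + T (wt fun e => c (edg e)) univ v y =
      T (wt fun e => c (edg e)) univ x y := by
  refine le_antisymm ?_ (T_triangle _ _ _ _ _)
  have h1 : cost (wt fun e => c (edg e)) p.support ≤ T (wt fun e => c (edg e)) univ x y := by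
    refine le_T fun l hl => ?_
    by_cases hfin : cost (wt fun e => c (edg e)) l = ⊤
    · rw [hfin]; exact le_top
    · obtain ⟨q, rfl⟩ := exists_walk hl hfin
      rw [cost_support hc, cost_support hc]
      exact ENNReal.ofReal_le_ofReal (hp q)
  obtain ⟨l₁, l₂, -, h2, h3, h4⟩ := (isW_support p).split hv
  refine le_trans ?_ h1
  rw [h4]
  exact add_le_add (T_le h2) (T_le h3)

/-! ### No atoms -/

/-- the indices of the edges incident to a vertex -/
def inc (v : V) : Finset Ed :=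
  {(v, 0), (v, 1), ((v.1 - 1, v.2), 0), ((v.1, v.2 - 1), 1)}

theorem mem_inc {u v : V} (h : Sq.Adj u v) : ∃ e ∈ inc u, edg e = ⟨s(u, v), h⟩ := by
  have h' := (sq_adj u v).1 h
  rcases h' with h' | h' | h' | h'
  · subst h'
    exact ⟨(u, 0), by simp [inc], rfl⟩
  · subst h'
    refine ⟨(v, 0), ?_, Subtype.ext (by rw [edg_zero]; exact Sym2.eq_swap)⟩
    simp [inc]
  · subst h'
    exact ⟨(u, 1), by simp [inc], rfl⟩
  · subst h'
    refine ⟨(v, 1), ?_, Subtype.ext (by rw [edg_one]; exact Sym2.eq_swap)⟩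
    simp [inc]

/-- a walk ending at `y` with at least one step costs at least the weight of the edges at `y` -/
theorem le_sum_of_ne {c : Sq.edgeSet → ℝ} (hc : ∀ e, 0 ≤ c e) {a : ℝ} {y : V}
    (hy : ∀ u (h : Sq.Adj u y), c ⟨s(u, y), h⟩ = a) {z : V} (q : Sq.Walk z y) (hz : z ≠ y) :
    a ≤ (q.darts.map fun d => c ⟨d.edge, d.edge_mem⟩).sum := by
  induction q with
  | nil => exact absurd rfl hz
  | cons h p ih =>
    rename_i x z y
    rw [SimpleGraph.Walk.darts_cons, List.map_cons, List.sum_cons]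
    have h0 : (0 : ℝ) ≤ (p.darts.map fun d => c ⟨d.edge, d.edge_mem⟩).sum :=
      List.sum_nonneg (by
        intro r hr
        obtain ⟨d, -, rfl⟩ := List.mem_map.mp hr
        exact hc _)
    by_cases hzy : z = y
    · subst hzy
      have h1 := hy x h
      have h2 : c ⟨s(x, z), h⟩ ≤ c ⟨s(x, z), h⟩ +
          (p.darts.map fun d => c ⟨d.edge, d.edge_mem⟩).sum := by linarith
      rw [h1] at h2
      have h3 : c ⟨(⟨(x, z), h⟩ : Sq.Dart).edge, (⟨(x, z), h⟩ : Sq.Dart).edge_mem⟩ = a := h1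
      rw [h3]
      linarith
    · have h1 := ih hy hzy
      have h2 := hc ⟨(⟨(x, z), h⟩ : Sq.Dart).edge, (⟨(x, z), h⟩ : Sq.Dart).edge_mem⟩
      linarith

/-- two different minimal paths if all the edges at `(0,0)` and `(1,1)` have the same weight -/
theorem not_unique {c : Sq.edgeSet → ℝ} (hc : ∀ e, 0 ≤ c e) {a : ℝ}
    (h0 : ∀ e ∈ inc (0, 0), c (edg e) = a) (h1 : ∀ e ∈ inc (1, 1), c (edg e) = a) :
    ¬ ∃! p : Sq.Walk ((0, 0) : V) (1, 1), p.IsPath ∧ ∀ q : Sq.Walk ((0, 0) : V) (1, 1),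
      (p.darts.map (fun d => c ⟨d.edge, d.edge_mem⟩)).sum ≤
        (q.darts.map (fun d => c ⟨d.edge, d.edge_mem⟩)).sum := by
  rintro ⟨p, -, huniq⟩
  have hx : ∀ v (h : Sq.Adj (0, 0) v), c ⟨s((0, 0), v), h⟩ = a := by
    intro v h
    obtain ⟨e, he, h2⟩ := mem_inc h
    rw [← h2]; exact h0 e he
  have hy : ∀ u (h : Sq.Adj u (1, 1)), c ⟨s(u, (1, 1)), h⟩ = a := by
    intro u h
    obtain ⟨e, he, h2⟩ := mem_inc h.symm
    have h3 : (⟨s(u, (1, 1)), h⟩ : Sq.edgeSet) = ⟨s((1, 1), u), h.symm⟩ :=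
      Subtype.ext Sym2.eq_swap
    rw [h3, ← h2]; exact h1 e he
  have hmin : ∀ q : Sq.Walk ((0, 0) : V) (1, 1),
      a + a ≤ (q.darts.map (fun d => c ⟨d.edge, d.edge_mem⟩)).sum := by
    intro q
    cases q with
    | cons h p =>
      rename_i z
      rw [SimpleGraph.Walk.darts_cons, List.map_cons, List.sum_cons]
      have h2 : c ⟨(⟨((0, 0), z), h⟩ : Sq.Dart).edge, (⟨((0, 0), z), h⟩ : Sq.Dart).edge_mem⟩ = a :=
        hx z h
      rw [h2]
      have h3 : z ≠ (1, 1) := by
        rintro rfl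
        have := (sq_adj _ _).1 h
        simp [Nb] at this
      have := le_sum_of_ne hc hy p h3
      linarith
  have e1 : Sq.Adj ((0, 0) : V) (1, 0) := (sq_adj _ _).2 (Or.inl rfl)
  have e2 : Sq.Adj ((1, 0) : V) (1, 1) := (sq_adj _ _).2 (Or.inr (Or.inr (Or.inl rfl)))
  have e3 : Sq.Adj ((0, 0) : V) (0, 1) := (sq_adj _ _).2 (Or.inr (Or.inr (Or.inl rfl)))
  have e4 : Sq.Adj ((0, 1) : V) (1, 1) := (sq_adj _ _).2 (Or.inl rfl)
  have hp1 := huniq (SimpleGraph.Walk.cons e1 (SimpleGraph.Walk.cons e2 SimpleGraph.Walk.nil))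
    ⟨by simp [SimpleGraph.Walk.isPath_def], fun q => by
      have h2 : ((SimpleGraph.Walk.cons e1 (SimpleGraph.Walk.cons e2
          SimpleGraph.Walk.nil)).darts.map (fun d => c ⟨d.edge, d.edge_mem⟩)).sum =
          c ⟨s((0, 0), (1, 0)), e1⟩ + (c ⟨s((1, 0), (1, 1)), e2⟩ + 0) := rfl
      rw [h2, hx _ e1, hy _ e2, add_zero]
      exact hmin q⟩
  have hp2 := huniq (SimpleGraph.Walk.cons e3 (SimpleGraph.Walk.cons e4 SimpleGraph.Walk.nil))
    ⟨by simp [SimpleGraph.Walk.isPath_def], fun q => by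
      have h2 : ((SimpleGraph.Walk.cons e3 (SimpleGraph.Walk.cons e4
          SimpleGraph.Walk.nil)).darts.map (fun d => c ⟨d.edge, d.edge_mem⟩)).sum =
          c ⟨s((0, 0), (0, 1)), e3⟩ + (c ⟨s((0, 1), (1, 1)), e4⟩ + 0) := rfl
      rw [h2, hx _ e3, hy _ e4, add_zero]
      exact hmin q⟩
  have h3 := congrArg SimpleGraph.Walk.support (hp1.trans hp2.symm)
  simp at h3

/-! ### Reduction -/

/-- **Reduction of the frozen statement.** -/
theorem frozen_of_canonical
    (hmain : ∀ (F : Measure ℝ) [IsProbabilityMeasure F], F (Iio 0) = 0 → (∀ a, F {a} = 0) →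
      ∀ᵐ ω ∂(iid Ed F), ∀ v : V, Set.Finite {n : ℕ |
        T (wt ω) univ (-(n : ℤ), 0) v + T (wt ω) univ v ((n : ℤ), 0) =
          T (wt ω) univ (-(n : ℤ), 0) ((n : ℤ), 0)}) :
  ∀ G : SimpleGraph (ℤ × ℤ),
    G = SimpleGraph.boxProd (SimpleGraph.fromRel (fun a b : ℤ => b = a + 1))
          (SimpleGraph.fromRel (fun a b : ℤ => b = a + 1)) →
  ∀ (Ω : Type) [MeasurableSpace Ω] (P : Measure Ω) [IsProbabilityMeasure P]
    (t : G.edgeSet → Ω → ℝ),
    (∀ e, Measurable (t e)) →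
    iIndepFun t P →
    (∀ e e', IdentDistrib (t e) (t e') P P) →
    (∀ e, ∀ᵐ ω ∂P, 0 ≤ t e ω) →
    (∀ᵐ ω ∂P, ∀ x y : ℤ × ℤ, ∃! p : G.Walk x y, p.IsPath ∧
        ∀ q : G.Walk x y,
          (p.darts.map (fun d => t ⟨d.edge, d.edge_mem⟩ ω)).sum ≤
            (q.darts.map (fun d => t ⟨d.edge, d.edge_mem⟩ ω)).sum) →
    ∀ᵐ ω ∂P, ∀ v : ℤ × ℤ,
      Set.Finite {n : ℕ | ∃ p : G.Walk (((-(n : ℤ)), (0 : ℤ)) : ℤ × ℤ) (((n : ℤ), (0 : ℤ)) : ℤ × ℤ),
        p.IsPath ∧
        (∀ q : G.Walk (((-(n : ℤ)), (0 : ℤ)) : ℤ × ℤ) (((n : ℤ), (0 : ℤ)) : ℤ × ℤ),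
          (p.darts.map (fun d => t ⟨d.edge, d.edge_mem⟩ ω)).sum ≤
            (q.darts.map (fun d => t ⟨d.edge, d.edge_mem⟩ ω)).sum) ∧
        v ∈ p.support} := by
  intro G hG Ω _ P _ t hmeas hindep hident hpos huniq
  subst hG
  set e0 : Sq.edgeSet := edg ((0, 0), 0) with he0
  set F : Measure ℝ := P.map (t e0) with hF
  have hFp : IsProbabilityMeasure F := Measure.isProbabilityMeasure_map (hmeas e0).aemeasurable
  have hmap : ∀ e, P.map (t e) = F := fun e => (hident e e0).map_eq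
  -- the law of the configuration
  set φ : Ω → Om := fun ω e => t (edg e) ω with hφ
  have hφm : Measurable φ := measurable_pi_lambda _ fun e => hmeas _
  have hlaw : P.map φ = iid Ed F := by
    have h1 : iIndepFun (fun e : Ed => t (edg e)) P := hindep.precomp edg_injective
    have h2 := h1.map_fun_eq_infinitePi_map (fun e => hmeas (edg e))
    rw [hφ, h2, iid]
    congr 1
    funext e
    exact hmap _
  have hnonneg : ∀ᵐ ω ∂P, ∀ e, 0 ≤ t e ω := ae_all_iff.2 hpos
  -- no negative weights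
  have hF0 : F (Iio 0) = 0 := by
    rw [hF, Measure.map_apply (hmeas e0) measurableSet_Iio]
    have := hpos e0
    rw [ae_iff] at this
    convert this using 2
    ext ω
    simp
  -- no atoms
  have hFa : ∀ a, F {a} = 0 := by
    intro a
    by_contra ha
    set S : Finset Ed := inc (0, 0) ∪ inc (1, 1) with hS
    have h1 : P (φ ⁻¹' ((S : Set Ed).pi fun _ => {a})) ≠ 0 := by
      rw [← Measure.map_apply hφm (.pi S.countable_toSet fun _ _ => measurableSet_singleton a),
        hlaw, iid, Measure.infinitePi_pi _ fun _ _ => measurableSet_singleton a,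
        Finset.prod_ne_zero_iff]
      exact fun _ _ => ha
    obtain ⟨ω, h2, h3, h4⟩ : ∃ ω, ω ∈ φ ⁻¹' ((S : Set Ed).pi fun _ => {a}) ∧
        (∀ e, 0 ≤ t e ω) ∧ ∀ x y : ℤ × ℤ, ∃! p : Sq.Walk x y, p.IsPath ∧
        ∀ q : Sq.Walk x y,
          (p.darts.map (fun d => t ⟨d.edge, d.edge_mem⟩ ω)).sum ≤
            (q.darts.map (fun d => t ⟨d.edge, d.edge_mem⟩ ω)).sum := by
      by_contra hcon
      apply h1
      rw [measure_eq_zero_iff_ae_notMem]
      filter_upwards [hnonneg, huniq] with ω h3 h4 h2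
      exact hcon ⟨ω, h2, h3, h4⟩
    refine not_unique (c := fun e => t e ω) h3 (a := a) (fun e he => ?_) (fun e he => ?_)
      (h4 (0, 0) (1, 1))
    · exact h2 e (Finset.mem_coe.2 (Finset.mem_union_left _ he))
    · exact h2 e (Finset.mem_coe.2 (Finset.mem_union_right _ he))
  have hfin := hmain F hF0 hFa
  rw [← hlaw] at hfin
  have hfin' := ae_of_ae_map hφm.aemeasurable hfin
  filter_upwards [hfin', hnonneg] with ω h1 h2 v
  refine (h1 v).subset ?_
  rintro n ⟨p, -, hp, hv⟩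
  exact T_add_eq (c := fun e => t e ω) h2 p hp hv

end C7
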