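import Mathlib
import Pool.Agent.Lib.MP_c725eb_pr.Hit
import Pool.Agent.Lib.MP_c725eb_pr.Transfer

/-!
# Flow systems

A flow system is a family of maps `v ω k l` from the indices of the curve `k` to the indices of the
curve `l ≥ k` (last entrances of the geodesics of a class), with potentials `φ ω l` on the curves.
This file: classes of indices, the mass transport argument: every end of the curve `l` is hit from
the curve `k`.
-/

set_option autoImplicit false

namespace C7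

open MeasureTheory Filter Set
open scoped ENNReal Topology

/-- The configurations agree on the edges whose base is on a line `≥ l`. -/
def AgreeR (σ l : ℤ) (ω ω' : Om) : Prop := ∀ e : Ed, l ≤ ln σ e.1 → ω e = ω' e

/-- Flow systems. -/
structure FlowSys (σ : ℤ) (K : ℝ≥0∞) (F : Measure ℝ) where
  /-- the flow -/
  v : Om → ℤ → ℤ → ℤ → ℤ
  /-- the potential -/
  φ : Om → ℤ → ℤ → ℝ
  mono : ∀ᵐ ω ∂(iid Ed F), ∀ k l, k ≤ l → Monotone (v ω k l)
  comp : ∀ᵐ ω ∂(iid Ed F), ∀ k l m, k ≤ l → l ≤ m → ∀ i, v ω l m (v ω k l i) = v ω k m i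
  shift : ∀ s : V, ∀ᵐ ω ∂(iid Ed F), ∀ k l i, k ≤ l →
    v (shO s ω) (k - ln σ s) (l - ln σ s) i + ix σ s = v ω k l (i + ix σ s)
  meas : ∀ k l i j, k ≤ l → NullMeasurableSet {ω | v ω k l i = j} (iid Ed F)
  dep_v : ∀ l N i ω ω', l ≤ N → AgreeR σ l ω ω' → v ω l N i = v ω' l N i
  dep_φ : ∀ l i j ω ω', AgreeR σ l ω ω' → φ ω l i - φ ω l j = φ ω' l i - φ ω' l j
  opt : ∀ᵐ ω ∂(iid Ed F), ∀ k l x, k ≤ l → ∃ φx : ℝ,
    (∀ j, ENNReal.ofReal (φx - φ ω l j) ≤
      T (wt ω) (Rg σ (wt ω) K k) (pk σ (wt ω) K k x) (pk σ (wt ω) K l j)) ∧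
    T (wt ω) (Rg σ (wt ω) K k) (pk σ (wt ω) K k x) (pk σ (wt ω) K l (v ω k l x)) ≤
      ENNReal.ofReal (φx - φ ω l (v ω k l x)) ∧ φ ω l (v ω k l x) ≤ φx
  coer : ∀ᵐ ω ∂(iid Ed F), ∀ l u, ∃ L0 : ℕ, ∃ δ : ℝ, 0 < δ ∧ ∀ j, (L0 : ℤ) ≤ |j - u| →
    ENNReal.ofReal (φ ω l j - φ ω l u + δ) ≤
      T (wt ω) (Hl σ l) (pk σ (wt ω) K l j) (pk σ (wt ω) K l u)

namespace FlowSys

variable {σ : ℤ} {K : ℝ≥0∞} {F : Measure ℝ}

/-- the indices have the same images on some curve -/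
def Sim (S : FlowSys σ K F) (ω : Om) (k i j : ℤ) : Prop := ∃ N, k ≤ N ∧ S.v ω k N i = S.v ω k N j

/-- `i` is the last index of its class -/
def Dd (S : FlowSys σ K F) (ω : Om) (k i : ℤ) : Prop :=
  ∀ N, k ≤ N → S.v ω k N i ≠ S.v ω k N (i + 1)

/-- Regularity of a configuration. -/
def Reg (S : FlowSys σ K F) (ω : Om) : Prop :=
  (∀ k l, k ≤ l → Monotone (S.v ω k l)) ∧
    ∀ k l m, k ≤ l → l ≤ m → ∀ i, S.v ω l m (S.v ω k l i) = S.v ω k m i

theorem ae_reg (S : FlowSys σ K F) : ∀ᵐ ω ∂(iid Ed F), S.Reg ω := S.mono.and S.comp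

variable {S : FlowSys σ K F} {ω : Om}

theorem Reg.later (h : S.Reg ω) {k N N' i j : ℤ} (hk : k ≤ N) (hN : N ≤ N')
    (he : S.v ω k N i = S.v ω k N j) : S.v ω k N' i = S.v ω k N' j := by
  rw [← h.2 k N N' hk hN i, he, h.2 k N N' hk hN j]

theorem Sim.refl (k i : ℤ) : S.Sim ω k i i := ⟨k, le_rfl, rfl⟩

theorem Sim.symm {k i j : ℤ} (h : S.Sim ω k i j) : S.Sim ω k j i := by
  obtain ⟨N, hN, he⟩ := h
  exact ⟨N, hN, he.symm⟩

theorem Reg.trans (h : S.Reg ω) {k i j r : ℤ} (h1 : S.Sim ω k i j) (h2 : S.Sim ω k j r) :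
    S.Sim ω k i r := by
  obtain ⟨N, hN, he⟩ := h1
  obtain ⟨N', hN', he'⟩ := h2
  refine ⟨max N N', by omega, ?_⟩
  rw [h.later hN (le_max_left N N') he, h.later hN' (le_max_right N N') he']

/-- classes are intervals -/
theorem Reg.between (h : S.Reg ω) {k i j r : ℤ} (h1 : S.Sim ω k i j) (hi : i ≤ r) (hj : r ≤ j) :
    S.Sim ω k i r := by
  obtain ⟨N, hN, he⟩ := h1
  refine ⟨N, hN, le_antisymm (h.1 k N hN hi) ?_⟩
  rw [he]
  exact h.1 k N hN hj

theorem dd_iff {k i : ℤ} : S.Dd ω k i ↔ ¬ S.Sim ω k i (i + 1) := by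
  unfold Dd Sim
  push Not
  rfl

theorem Reg.sim_image (h : S.Reg ω) {k l i j : ℤ} (hkl : k ≤ l) :
    S.Sim ω l (S.v ω k l i) (S.v ω k l j) ↔ S.Sim ω k i j := by
  constructor
  · rintro ⟨N, hN, he⟩
    rw [h.2 k l N hkl hN, h.2 k l N hkl hN] at he
    exact ⟨N, hkl.trans hN, he⟩
  · rintro ⟨N, hN, he⟩
    refine ⟨max N l, le_max_right _ _, ?_⟩
    rw [h.2 k l _ hkl (le_max_right _ _), h.2 k l _ hkl (le_max_right _ _)]
    exact h.later hN (le_max_left _ _) he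

/-- an end separates -/
theorem Reg.not_sim (h : S.Reg ω) {k i j : ℤ} (hi : S.Dd ω k i) (hij : i < j) :
    ¬ S.Sim ω k i j := fun hs => dd_iff.mp hi (h.between hs (by omega) (by omega))

/-- the last index of the class of the image of an end -/
theorem Reg.exists_end (h : S.Reg ω) {k l i : ℤ} (hkl : k ≤ l) (hi : S.Dd ω k i) :
    ∃ j, S.Dd ω l j ∧ S.Sim ω l (S.v ω k l i) j := by
  have h1 : ¬ S.Sim ω l (S.v ω k l i) (S.v ω k l (i + 1)) := fun hs =>
    dd_iff.mp hi ((h.sim_image hkl).mp hs)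
  have hle : S.v ω k l i ≤ S.v ω k l (i + 1) := h.1 k l hkl (by omega)
  -- the greatest index of the class
  obtain ⟨j, hj, hmax⟩ := Int.exists_greatest_of_bdd (P := fun j => S.Sim ω l (S.v ω k l i) j)
    ⟨S.v ω k l (i + 1), fun z hz => by
      by_contra hlt
      push Not at hlt
      exact h1 (h.between hz hle hlt.le)⟩ ⟨_, Sim.refl _ _⟩
  refine ⟨j, dd_iff.mpr fun hs => ?_, hj⟩
  have := hmax (j + 1) (h.trans hj hs)
  omega

/-- two ends of the same class coincide -/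
theorem Reg.end_unique (h : S.Reg ω) {l j j' : ℤ} (hj : S.Dd ω l j) (hj' : S.Dd ω l j')
    (hs : S.Sim ω l j j') : j = j' := by
  rcases lt_trichotomy j j' with hlt | heq | hgt
  · exact absurd hs (h.not_sim hj hlt)
  · exact heq
  · exact absurd hs.symm (h.not_sim hj' hgt)

/-! ### Shifts -/

theorem ae_shift_sim (S : FlowSys σ K F) [IsProbabilityMeasure F] (s : V) :
    ∀ᵐ ω ∂(iid Ed F), ∀ k i j, S.Sim (shO s ω) (k - ln σ s) i j ↔
      S.Sim ω k (i + ix σ s) (j + ix σ s) := by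
  filter_upwards [S.shift s] with ω h k i j
  constructor
  · rintro ⟨N, hN, he⟩
    refine ⟨N + ln σ s, by omega, ?_⟩
    have h1 := h k (N + ln σ s) i (by omega)
    have h2 := h k (N + ln σ s) j (by omega)
    rw [add_sub_cancel_right] at h1 h2
    rw [← h1, ← h2, he]
  · rintro ⟨N, hN, he⟩
    refine ⟨N - ln σ s, by omega, ?_⟩
    have h1 := h k N i hN
    have h2 := h k N j hN
    rw [he, ← h2] at h1
    exact add_right_cancel h1

theorem ae_shift_dd (S : FlowSys σ K F) [IsProbabilityMeasure F] (s : V) :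
    ∀ᵐ ω ∂(iid Ed F), ∀ k i, S.Dd (shO s ω) (k - ln σ s) i ↔ S.Dd ω k (i + ix σ s) := by
  filter_upwards [S.ae_shift_sim s] with ω h k i
  rw [dd_iff, dd_iff, h k i (i + 1)]
  have : i + 1 + ix σ s = i + ix σ s + 1 := by ring
  rw [this]

/-! ### Measurability -/

theorem nms_eq (S : FlowSys σ K F) {k l : ℤ} (h : k ≤ l) (i j : ℤ) :
    NullMeasurableSet {ω | S.v ω k l i = S.v ω k l j} (iid Ed F) := by
  have : {ω | S.v ω k l i = S.v ω k l j} =
      ⋃ u : ℤ, ({ω | S.v ω k l i = u} ∩ {ω | S.v ω k l j = u}) := by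
    ext ω
    simp only [mem_ofPred_eq, mem_iUnion, mem_inter_iff]
    exact ⟨fun h => ⟨_, h, rfl⟩, fun ⟨u, h1, h2⟩ => h1.trans h2.symm⟩
  rw [this]
  exact NullMeasurableSet.iUnion fun u => (S.meas k l i u h).inter (S.meas k l j u h)

theorem nms_sim (S : FlowSys σ K F) (k i j : ℤ) :
    NullMeasurableSet {ω | S.Sim ω k i j} (iid Ed F) := by
  have : {ω | S.Sim ω k i j} = ⋃ n : ℕ, {ω | S.v ω k (k + n) i = S.v ω k (k + n) j} := by
    ext ω
    simp only [mem_ofPred_eq, mem_iUnion, Sim]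
    constructor
    · rintro ⟨N, hN, he⟩
      refine ⟨(N - k).toNat, ?_⟩
      have : k + (((N - k).toNat : ℕ) : ℤ) = N := by omega
      rw [this]; exact he
    · rintro ⟨n, he⟩
      exact ⟨k + n, by omega, he⟩
  rw [this]
  exact NullMeasurableSet.iUnion fun n => S.nms_eq (by omega) i j

theorem nms_dd (S : FlowSys σ K F) (k i : ℤ) :
    NullMeasurableSet {ω | S.Dd ω k i} (iid Ed F) := by
  have : {ω | S.Dd ω k i} = {ω | S.Sim ω k i (i + 1)}ᶜ := by
    ext ω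
    exact dd_iff
  rw [this]
  exact (S.nms_sim k i (i + 1)).compl

theorem nms_sim_v (S : FlowSys σ K F) {k l : ℤ} (h : k ≤ l) (i j : ℤ) :
    NullMeasurableSet {ω | S.Sim ω l (S.v ω k l i) j} (iid Ed F) := by
  have : {ω | S.Sim ω l (S.v ω k l i) j} =
      ⋃ u : ℤ, ({ω | S.v ω k l i = u} ∩ {ω | S.Sim ω l u j}) := by
    ext ω
    simp only [mem_ofPred_eq, mem_iUnion, mem_inter_iff]
    exact ⟨fun h => ⟨_, rfl, h⟩, fun ⟨u, h1, h2⟩ => by rw [h1]; exact h2⟩
  rw [this]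
  exact NullMeasurableSet.iUnion fun u => (S.meas k l i u h).inter (S.nms_sim l u j)

/-! ### Mass transport -/

/-- translation along the lines -/
def av (σ : ℤ) : V := (-σ, 1)

theorem ln_av (σ : ℤ) : ln σ (av σ) = 0 := by unfold ln av; ring

theorem ix_av {σ : ℤ} (hσ : σ = 0 ∨ σ = 1) : ix σ (av σ) = ((1 + σ).toNat : ℕ) := by
  unfold ix av
  rcases hσ with rfl | rfl <;> rfl

theorem shift_toNat_ne {σ : ℤ} (hσ : σ = 0 ∨ σ = 1) : (1 + σ).toNat ≠ 0 := by
  rcases hσ with rfl | rfl <;> decide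

/-- sums over a period -/
theorem sum_period {σ : ℤ} (hσ : σ = 0 ∨ σ = 1) {g : ℤ → ℝ≥0∞}
    (hg : ∀ i, g (i + (1 + σ)) = g i) (c : ℤ) :
    ∑ i : Fin (1 + σ).toNat, g ((i : ℕ) + c) = ∑ i : Fin (1 + σ).toNat, g (i : ℕ) := by
  have hk : ∀ k : ℤ, ∀ i, g (i + k * (1 + σ)) = g i := by
    intro k
    induction k using Int.induction_on with
    | zero => intro i; simp
    | succ k ih =>
      intro i
      have h := hg (i + (k : ℤ) * (1 + σ))
      rw [ih i] at h
      rw [← h]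
      congr 1; ring
    | pred k ih =>
      intro i
      have h := hg (i + (-(k : ℤ) - 1) * (1 + σ))
      rw [← h, ← ih i]
      congr 1; ring
  rcases hσ with rfl | rfl
  · show ∑ i : Fin 1, g ((i : ℕ) + c) = ∑ i : Fin 1, g (i : ℕ)
    rw [Fin.sum_univ_one, Fin.sum_univ_one]
    have := hk c 0
    simp only [Fin.val_zero, Nat.cast_zero, zero_add, add_zero, mul_one] at this ⊢
    exact this
  · show ∑ i : Fin 2, g ((i : ℕ) + c) = ∑ i : Fin 2, g (i : ℕ)
    rw [Fin.sum_univ_two, Fin.sum_univ_two]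
    simp only [Fin.val_zero, Nat.cast_zero, zero_add, Fin.val_one, Nat.cast_one]
    rcases Int.even_or_odd' c with ⟨b, rfl | rfl⟩
    · have h0 := hk b 0
      have h1 := hk b 1
      rw [show (0 : ℤ) + b * (1 + 1) = 2 * b by ring] at h0
      rw [show (1 : ℤ) + b * (1 + 1) = 1 + 2 * b by ring] at h1
      rw [h0, h1]
    · have h0 := hk b 1
      have h1 := hk (b + 1) 0
      rw [show (1 : ℤ) + b * (1 + 1) = 2 * b + 1 by ring] at h0
      rw [show (0 : ℤ) + (b + 1) * (1 + 1) = 1 + (2 * b + 1) by ring] at h1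
      rw [h0, h1, add_comm]

variable [IsProbabilityMeasure F]

theorem P_dd_period (hσ : σ = 0 ∨ σ = 1) (S : FlowSys σ K F) (k i : ℤ) :
    iid Ed F {ω | S.Dd ω k (i + (1 + σ))} = iid Ed F {ω | S.Dd ω k i} := by
  have h1 := (measurePreserving_shO F (av σ)).measure_preimage (S.nms_dd k i)
  rw [← h1]
  refine measure_congr ?_
  filter_upwards [S.ae_shift_dd (av σ)] with ω h
  have h2 := h k i
  rw [ln_av, sub_zero, ix_av hσ] at h2
  have h3 : (((1 + σ).toNat : ℕ) : ℤ) = 1 + σ := by rcases hσ with rfl | rfl <;> rfl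
  rw [h3] at h2
  exact propext h2.symm

theorem P_dd_shift (S : FlowSys σ K F) (k l i : ℤ) :
    iid Ed F {ω | S.Dd ω k (i + -σ * (k - l))} = iid Ed F {ω | S.Dd ω l i} := by
  have h1 := (measurePreserving_shO F (k - l, 0)).measure_preimage (S.nms_dd l i)
  rw [← h1]
  refine measure_congr ?_
  filter_upwards [S.ae_shift_dd (k - l, 0)] with ω h
  have h2 := h k i
  have e1 : ln σ ((k - l, 0) : V) = k - l := by unfold ln; simp
  have e2 : ix σ ((k - l, 0) : V) = -σ * (k - l) := by unfold ix; simp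
  rw [e1, e2, sub_sub_cancel] at h2
  exact propext h2.symm

/-- **Every end of the curve `l` is hit from the curve `k`.** -/
theorem ae_hit_one (hσ : σ = 0 ∨ σ = 1) (S : FlowSys σ K F) {k l : ℤ} (hkl : k ≤ l) (j : ℤ) :
    ∀ᵐ ω ∂(iid Ed F), S.Dd ω l j → ∃ i, S.Sim ω l (S.v ω k l i) j := by
  set P := iid Ed F with hP
  set p : ℕ := (1 + σ).toNat with hp
  have hp' : ((p : ℕ) : ℤ) = 1 + σ := by rcases hσ with rfl | rfl <;> rfl
  set E : ℤ → ℤ → Set Om := fun i j =>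
    {ω | S.Dd ω k i} ∩ ({ω | S.Dd ω l j} ∩ {ω | S.Sim ω l (S.v ω k l i) j}) with hE
  have hEm : ∀ i j, NullMeasurableSet (E i j) P := fun i j =>
    (S.nms_dd k i).inter ((S.nms_dd l j).inter (S.nms_sim_v hkl i j))
  -- shift covariance of the sets `E`
  have hEshift : ∀ i j, P (E (i + p) (j + p)) = P (E i j) := by
    intro i j
    have h1 := (measurePreserving_shO F (av σ)).measure_preimage (hEm i j)
    rw [← hP] at h1
    rw [← h1]
    refine measure_congr ?_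
    filter_upwards [S.ae_shift_dd (av σ), S.ae_shift_sim (av σ), S.shift (av σ)] with ω h2 h3 h4
    have e1 := h2 k i
    have e2 := h2 l j
    have e4 := h4 k l i hkl
    rw [ln_av, sub_zero, ix_av hσ] at e1 e2
    rw [ln_av, sub_zero, sub_zero, ix_av hσ] at e4
    have e3 := h3 l (S.v (shO (av σ) ω) k l i) j
    rw [ln_av, sub_zero, ix_av hσ] at e3
    rw [← hp] at e1 e2 e3 e4
    rw [e4] at e3
    apply propext
    show (S.Dd ω k (i + p) ∧ S.Dd ω l (j + p) ∧ S.Sim ω l (S.v ω k l (i + p)) (j + p)) ↔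
      (S.Dd (shO (av σ) ω) k i ∧ S.Dd (shO (av σ) ω) l j ∧
        S.Sim (shO (av σ) ω) l (S.v (shO (av σ) ω) k l i) j)
    rw [e1, e2, e3]
  -- outgoing mass
  have hout : ∀ i, ∑' j : ℤ, P (E i j) = P {ω | S.Dd ω k i} := by
    intro i
    rw [← measure_iUnion₀ ?_ fun j => hEm i j]
    · refine measure_congr ?_
      filter_upwards [S.ae_reg] with ω h
      apply propext
      constructor
      · intro h1
        obtain ⟨j, h2⟩ := mem_iUnion.mp h1
        exact h2.1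
      · intro h1
        obtain ⟨j, h2, h3⟩ := h.exists_end hkl h1
        exact mem_iUnion.mpr ⟨j, h1, h2, h3⟩
    · intro j j' hjj'
      refine measure_mono_null (t := {ω | ¬ S.Reg ω}) ?_ (ae_iff.mp S.ae_reg)
      rintro ω ⟨⟨-, h1, h2⟩, -, h3, h4⟩ hreg
      exact hjj' (hreg.end_unique h1 h3 (hreg.trans h2.symm h4))
  -- incoming mass
  have hin : ∀ j, ∑' i : ℤ, P (E i j) = P (⋃ i : ℤ, E i j) := by
    intro j
    rw [← measure_iUnion₀ ?_ fun i => hEm i j]
    intro i i' hii'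
    refine measure_mono_null (t := {ω | ¬ S.Reg ω}) ?_ (ae_iff.mp S.ae_reg)
    rintro ω ⟨⟨h1, -, h2⟩, h3, -, h4⟩ hreg
    exact hii' (hreg.end_unique h1 h3 ((hreg.sim_image hkl).mp (hreg.trans h2 h4.symm)))
  have hmt := mass_transport (shift_toNat_ne hσ) (M := fun i j => P (E i j)) hEshift
  simp only [hout, hin] at hmt
  -- equality of the densities
  have hdens : ∑ i : Fin p, P {ω | S.Dd ω k (i : ℕ)} = ∑ i : Fin p, P {ω | S.Dd ω l (i : ℕ)} := by
    have h1 := sum_period hσ (g := fun i => P {ω | S.Dd ω k i}) (fun i => S.P_dd_period hσ k i)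
      (-σ * (k - l))
    have h2 : ∀ i : Fin p, P {ω | S.Dd ω k ((i : ℕ) + -σ * (k - l))} =
        P {ω | S.Dd ω l (i : ℕ)} := fun i => S.P_dd_shift k l (i : ℕ)
    simp only [h2] at h1
    exact h1.symm
  rw [← hp] at hmt
  rw [hdens] at hmt
  -- so every end is hit, for `j < p`
  have hsub : ∀ j, (⋃ i : ℤ, E i j) ⊆ {ω | S.Dd ω l j} := fun j ω h => by
    obtain ⟨i, h1⟩ := mem_iUnion.mp h
    exact h1.2.1
  have hUm : ∀ j, NullMeasurableSet (⋃ i : ℤ, E i j) P := fun j =>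
    NullMeasurableSet.iUnion fun i => hEm i j
  have hsplit : ∀ j, P (⋃ i : ℤ, E i j) + P ({ω | S.Dd ω l j} \ ⋃ i : ℤ, E i j) =
      P {ω | S.Dd ω l j} := by
    intro j
    have h1 := measure_inter_add_sdiff₀ {ω | S.Dd ω l j} (hUm j)
    rwa [inter_eq_self_of_subset_right (hsub j)] at h1
  have hzero : ∑ j : Fin p, P ({ω | S.Dd ω l (j : ℕ)} \ ⋃ i : ℤ, E i (j : ℕ)) = 0 := by
    have h1 : ∑ j : Fin p, P {ω | S.Dd ω l (j : ℕ)} =
        ∑ j : Fin p, P (⋃ i : ℤ, E i (j : ℕ)) +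
          ∑ j : Fin p, P ({ω | S.Dd ω l (j : ℕ)} \ ⋃ i : ℤ, E i (j : ℕ)) := by
      rw [← Finset.sum_add_distrib]
      exact Finset.sum_congr rfl fun j _ => (hsplit _).symm
    rw [hmt] at h1
    have hne : ∑ j : Fin p, P (⋃ i : ℤ, E i (j : ℕ)) ≠ ⊤ :=
      ENNReal.sum_ne_top.2 fun j _ => measure_ne_top _ _
    exact (ENNReal.add_right_inj hne).mp (by rw [add_zero]; exact h1.symm)
  -- all `j`
  have hall : ∀ j, P ({ω | S.Dd ω l j} \ ⋃ i : ℤ, E i j) = 0 := by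
    have hper : ∀ j, P ({ω | S.Dd ω l (j + (1 + σ))} \ ⋃ i : ℤ, E i (j + (1 + σ))) =
        P ({ω | S.Dd ω l j} \ ⋃ i : ℤ, E i j) := by
      intro j
      have hm : NullMeasurableSet ({ω | S.Dd ω l j} \ ⋃ i : ℤ, E i j) P :=
        (S.nms_dd l j).diff (hUm j)
      have h1 := (measurePreserving_shO F (av σ)).measure_preimage hm
      rw [← hP] at h1
      rw [← h1]
      refine measure_congr ?_
      filter_upwards [S.ae_shift_dd (av σ), S.ae_shift_sim (av σ), S.shift (av σ)]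
        with ω h2 h3 h4
      have e2 := h2 l j
      rw [ln_av, sub_zero, ix_av hσ, ← hp, hp'] at e2
      have e5 : (∃ i, S.Dd ω k i ∧ S.Dd ω l (j + (1 + σ)) ∧
          S.Sim ω l (S.v ω k l i) (j + (1 + σ))) ↔
          (∃ i, S.Dd (shO (av σ) ω) k i ∧ S.Dd (shO (av σ) ω) l j ∧
            S.Sim (shO (av σ) ω) l (S.v (shO (av σ) ω) k l i) j) := by
        have key : ∀ i, (S.Dd ω k (i + (1 + σ)) ∧ S.Dd ω l (j + (1 + σ)) ∧
            S.Sim ω l (S.v ω k l (i + (1 + σ))) (j + (1 + σ))) ↔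
            (S.Dd (shO (av σ) ω) k i ∧ S.Dd (shO (av σ) ω) l j ∧
              S.Sim (shO (av σ) ω) l (S.v (shO (av σ) ω) k l i) j) := by
          intro i
          have e1 := h2 k i
          have e4 := h4 k l i hkl
          rw [ln_av, sub_zero, ix_av hσ, ← hp, hp'] at e1
          rw [ln_av, sub_zero, sub_zero, ix_av hσ, ← hp, hp'] at e4
          have e3 := h3 l (S.v (shO (av σ) ω) k l i) j
          rw [ln_av, sub_zero, ix_av hσ, ← hp, hp', e4] at e3
          rw [e1, e2, e3]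
        constructor
        · rintro ⟨i, hi⟩
          refine ⟨i - (1 + σ), (key _).mp ?_⟩
          rw [sub_add_cancel]; exact hi
        · rintro ⟨i, hi⟩
          exact ⟨_, (key i).mpr hi⟩
      apply propext
      show (S.Dd ω l (j + (1 + σ)) ∧ ω ∉ ⋃ i : ℤ, E i (j + (1 + σ))) ↔
        (S.Dd (shO (av σ) ω) l j ∧ shO (av σ) ω ∉ ⋃ i : ℤ, E i j)
      have e6 : ω ∈ (⋃ i : ℤ, E i (j + (1 + σ))) ↔ ∃ i, S.Dd ω k i ∧
          S.Dd ω l (j + (1 + σ)) ∧ S.Sim ω l (S.v ω k l i) (j + (1 + σ)) := mem_iUnion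
      have e7 : shO (av σ) ω ∈ (⋃ i : ℤ, E i j) ↔ ∃ i, S.Dd (shO (av σ) ω) k i ∧
          S.Dd (shO (av σ) ω) l j ∧ S.Sim (shO (av σ) ω) l (S.v (shO (av σ) ω) k l i) j :=
        mem_iUnion
      rw [e6, e7, e5, e2]
    have hk : ∀ b : ℤ, ∀ j, P ({ω | S.Dd ω l (j + b * (1 + σ))} \
        ⋃ i : ℤ, E i (j + b * (1 + σ))) = P ({ω | S.Dd ω l j} \ ⋃ i : ℤ, E i j) := by
      intro b
      induction b using Int.induction_on with
      | zero => intro j; simp
      | succ b ih =>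
        intro j
        have h := hper (j + (b : ℤ) * (1 + σ))
        rw [ih j] at h
        rw [← h]
        have : j + ((b : ℤ) + 1) * (1 + σ) = j + (b : ℤ) * (1 + σ) + (1 + σ) := by ring
        rw [this]
      | pred b ih =>
        intro j
        have h := hper (j + (-(b : ℤ) - 1) * (1 + σ))
        rw [← h, ← ih j]
        have : j + (-(b : ℤ) - 1) * (1 + σ) + (1 + σ) = j + -(b : ℤ) * (1 + σ) := by ring
        rw [this]
    intro j
    have hpos : 0 < (1 + σ) := by rcases hσ with rfl | rfl <;> norm_num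
    have h1 := hk (j / (1 + σ)) (j % (1 + σ))
    have h2 : j % (1 + σ) + j / (1 + σ) * (1 + σ) = j := by
      rw [mul_comm]; exact Int.emod_add_mul_ediv j (1 + σ)
    rw [h2] at h1
    rw [h1]
    have h3 := Int.emod_nonneg j hpos.ne'
    have h4 := Int.emod_lt_of_pos j hpos
    have h5 := (Finset.sum_eq_zero_iff.mp hzero) ⟨(j % (1 + σ)).toNat, by omega⟩
      (Finset.mem_univ _)
    have h6 : (((j % (1 + σ)).toNat : ℕ) : ℤ) = j % (1 + σ) := Int.toNat_of_nonneg h3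
    simp only [h6] at h5
    exact h5
  have h1 := hall j
  rw [measure_eq_zero_iff_ae_notMem] at h1
  filter_upwards [h1] with ω h2 hD
  by_contra hcon
  apply h2
  refine ⟨hD, fun h3 => ?_⟩
  obtain ⟨i, -, -, h4⟩ := mem_iUnion.mp h3
  exact hcon ⟨i, h4⟩

theorem ae_hit (hσ : σ = 0 ∨ σ = 1) (S : FlowSys σ K F) :
    ∀ᵐ ω ∂(iid Ed F), ∀ k l j, k ≤ l → S.Dd ω l j → ∃ i, S.Sim ω l (S.v ω k l i) j := by
  rw [ae_all_iff]; intro k
  rw [ae_all_iff]; intro l
  rw [ae_all_iff]; intro j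
  by_cases h : k ≤ l
  · filter_upwards [S.ae_hit_one hσ h j] with ω h1 _
    exact h1
  · exact ae_of_all _ fun ω h' => absurd h' h

end FlowSys

end C7
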