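import Mathlib
import Pool.Agent.Lib.MP_c725eb_pr.CurveProb
import Pool.Agent.Lib.MP_c725eb_pr.FlowSys

/-!
# Touching points of the curves, two-sided recurrence along a line
-/

set_option autoImplicit false

namespace C7

open MeasureTheory Filter Set
open scoped ENNReal Topology
open FlowSys (av ln_av)

section det

variable {σ : ℤ} {w : W} {K : ℝ≥0∞}

/-- If the curve of the line `l` does not touch the line, then it is the curve of the line
`l + 1`. -/
theorem ck_eq_of_no_touch (hσ : σ = 0 ∨ σ = 1) (hf : Good σ w K) {l : ℤ}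
    (h : ∀ i, ln σ (pk σ w K l i) ≠ l) (i : ℤ) : ck σ w K (l + 1) i = ck σ w K l i := by
  set C := ClP σ w K with hC
  have hf1 : Fin' C fun _ => l - 1 := hf l
  have hf2 : Fin' C fun _ => l := by
    have := hf (l + 1)
    simpa using this
  have e2 : (fun _ : ℤ => l + 1 - 1) = fun _ => l := by funext; ring
  have hge : ∀ i, l ≤ Lam C (fun _ => l - 1) i := fun i => by
    have := lt_Lam hf1 i
    omega
  -- rounding
  have hround : ∀ i, Lam C (fun _ => l - 1) i = l → fx σ (l + 1) i = fx σ l i := by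
    intro i hi
    have h1 := crv_line hσ (w := w) (K := K) (g := fun _ => l - 1) i
    have h2 : ln σ (pt σ (crv σ w K fun _ => l - 1) i) ≠ l := h i
    rw [← hC, hi] at h1
    rw [ln_eq hσ, ix_pt] at h1 h2
    have h3 : (pt σ (crv σ w K fun _ => l - 1) i).1 = fx σ l i := by
      show crv σ w K (fun _ => l - 1) i = fx σ l i
      unfold crv
      rw [← hC, hi]
    rw [h3] at h1 h2
    unfold fx at *
    rcases hσ with rfl | rfl <;> omega
  -- sites reachable from the line `l`
  have hS : ∀ v, Rch C (fun _ => l) v → Rch C (fun _ => l - 1) v ∨ v.1 ≤ l := by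
    intro v hv
    induction hv with
    | base h => exact Or.inr h
    | @fwd v _ hc ih =>
      rcases ih with ih | ih
      · exact Or.inl (.fwd ih hc)
      · by_cases hv1 : v.1 + 1 ≤ l
        · exact Or.inr hv1
        · have hvl : v.1 = l := by omega
          left
          by_cases hr : Rch C (fun _ => l - 1) v
          · exact .fwd hr hc
          · exfalso
            rw [rch_iff hf1] at hr
            have hL : Lam C (fun _ => l - 1) v.2 = l := by
              have := hge v.2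
              omega
            have h1 := not_closed_Lam hf1 v.2
            rw [hL] at h1
            apply h1
            have h2 := hround v.2 hL
            rw [hvl] at hc
            change ¬ Opn σ w K (fx σ (l + 1) v.2, σ * fx σ (l + 1) v.2 + v.2) at hc
            rw [h2] at hc
            exact hc
    | dn _ ih =>
      rcases ih with ih | ih
      · exact Or.inl (.dn ih)
      · exact Or.inr (by simp only; omega)
    | up _ ih =>
      rcases ih with ih | ih
      · exact Or.inl (.up ih)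
      · exact Or.inr (by simp only; omega)
  have hle : Lam C (fun _ => l) i ≤ max (Lam C (fun _ => l - 1) i) (l + 1) := by
    by_contra hlt
    push Not at hlt
    have h1 : Rch C (fun _ => l) (max (Lam C (fun _ => l - 1) i) (l + 1), i) :=
      (rch_iff hf2 _).2 hlt
    rcases hS _ h1 with h2 | h2
    · rw [rch_iff hf1] at h2
      simp only at h2
      have := le_max_left (Lam C (fun _ => l - 1) i) (l + 1)
      omega
    · simp only at h2
      have := le_max_right (Lam C (fun _ => l - 1) i) (l + 1)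
      omega
  have hge2 : Lam C (fun _ => l - 1) i ≤ Lam C (fun _ => l) i :=
    Lam_mono hf1 (fun _ h => h) (fun _ => by omega) hf2 i
  unfold ck crv
  rw [e2, ← hC]
  rcases (hge i).eq_or_lt with h1 | h1
  · have h2 := hround i h1.symm
    rw [← h1] at hle hge2 ⊢
    have h3 : Lam C (fun _ => l) i = l ∨ Lam C (fun _ => l) i = l + 1 := by
      have := max_eq_right (show l ≤ l + 1 by omega)
      omega
    rcases h3 with h3 | h3
    · rw [h3]
    · rw [h3, h2]
  · have h2 : max (Lam C (fun _ => l - 1) i) (l + 1) = Lam C (fun _ => l - 1) i := by omega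
    rw [h2] at hle
    rw [le_antisymm hle hge2]

/-- Some curve touches its line. -/
theorem exists_touch (hσ : σ = 0 ∨ σ = 1) (hf : Good σ w K) (l : ℤ) :
    ∃ l', l ≤ l' ∧ ∃ i, ln σ (pk σ w K l' i) = l' := by
  by_contra hcon
  push Not at hcon
  have h1 : ∀ n : ℕ, ck σ w K (l + n) 0 = ck σ w K l 0 := by
    intro n
    induction n with
    | zero => simp
    | succ n ih =>
      have := ck_eq_of_no_touch hσ hf (l := l + n) (hcon (l + n) (by omega)) 0
      rw [← ih, ← this]
      push_cast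
      rw [add_assoc]
  have h2 := le_ln_pk hσ hf l 0
  have h3 := le_ln_pk hσ hf (l + ((ln σ (pk σ w K l 0) - l).toNat + 1 : ℕ)) 0
  have h4 : ln σ (pk σ w K (l + ((ln σ (pk σ w K l 0) - l).toNat + 1 : ℕ)) 0) =
      ln σ (pk σ w K l 0) := by
    unfold pk pt
    rw [h1]
  rw [h4] at h3
  push_cast at h3
  omega

theorem ln_pk_sh (hσ : σ = 0 ∨ σ = 1) (s : V) (k i : ℤ) :
    ln σ (pk σ (sh s w) K (k - ln σ s) i) = ln σ (pk σ w K k (i + ix σ s)) - ln σ s := by
  rw [pk_sh hσ]
  unfold ln
  ring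

end det

section prob

variable {σ : ℤ} {K : ℝ≥0∞} {F : Measure ℝ} [IsProbabilityMeasure F]

theorem measurable_wt (v : V) (d : Fin 2) : Measurable fun ω : Om => wt ω v d.castSucc := by
  fin_cases d
  · show Measurable fun ω : Om => ENNReal.ofReal (ω (v, 0))
    fun_prop
  · show Measurable fun ω : Om => ENNReal.ofReal (ω (v, 1))
    fun_prop

theorem measurableSet_touch (σ : ℤ) (K : ℝ≥0∞) (l i : ℤ) :
    MeasurableSet {ω : Om | ln σ (pk σ (wt ω) K l i) = l} := by
  have h1 : Measurable fun ω : Om => pk σ (wt ω) K l i := measurable_pk σ measurable_wt K l i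
  have h2 : Measurable fun v : V => ln σ v := measurable_of_countable _
  exact (h2.comp h1) (measurableSet_singleton l)

/-- Touching points have positive probability. -/
theorem exists_P_touch (hσ : σ = 0 ∨ σ = 1)
    (hg : ∀ᵐ ω ∂(iid Ed F), Good σ (wt ω) K) (l : ℤ) :
    ∃ i, iid Ed F {ω | ln σ (pk σ (wt ω) K l i) = l} ≠ 0 := by
  by_contra hcon
  push Not at hcon
  -- all lines
  have h1 : ∀ l' i, iid Ed F {ω | ln σ (pk σ (wt ω) K l' i) = l'} = 0 := by
    intro l' i
    have h2 := (measurePreserving_shO F (l' - l, 0)).measure_preimage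
      (measurableSet_touch σ K l (i - ix σ (l' - l, 0))).nullMeasurableSet
    rw [hcon] at h2
    rw [← h2]
    congr 1
    ext ω
    have e1 : ln σ ((l' - l, 0) : V) = l' - l := by unfold ln; simp
    have e2 := ln_pk_sh (w := wt ω) (K := K) hσ (l' - l, 0) l' (i - ix σ (l' - l, 0))
    rw [e1, sub_sub_cancel, sub_add_cancel, ← wt_shO] at e2
    simp only [mem_ofPred_eq, mem_preimage]
    rw [e2]
    omega
  have h2 : ∀ᵐ ω ∂(iid Ed F), ∀ l' i, ln σ (pk σ (wt ω) K l' i) ≠ l' := by
    rw [ae_all_iff]; intro l'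
    rw [ae_all_iff]; intro i
    rw [ae_iff]
    simpa using h1 l' i
  obtain ⟨ω, h3, h4⟩ := (hg.and h2).exists
  obtain ⟨l', -, i, h5⟩ := exists_touch hσ h3 l
  exact h4 l' i h5

theorem shO_iterate (a : V) (n : ℕ) (ω : Om) : (shO a)^[n] ω = shO (n • a) ω := by
  induction n with
  | zero => rw [zero_smul, shO_zero]; rfl
  | succ n ih => rw [Function.iterate_succ_apply', ih, shO_add, succ_nsmul']

theorem ln_nsmul (σ : ℤ) (n : ℕ) (a : V) : ln σ (n • a) = n * ln σ a := by
  unfold ln
  rw [Prod.smul_fst, Prod.smul_snd, nsmul_eq_mul, nsmul_eq_mul]; ring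

theorem ix_nsmul (σ : ℤ) (n : ℕ) (a : V) : ix σ (n • a) = n * ix σ a := by
  unfold ix
  rw [Prod.smul_fst, Prod.smul_snd, nsmul_eq_mul, nsmul_eq_mul]; ring

/-- an event of positive probability occurs infinitely often along iterates of a shift -/
theorem ae_frequently_shift {Q : Om → ℤ → Prop}
    (hm : ∀ i, NullMeasurableSet {ω | Q ω i} (iid Ed F))
    (hs : ∀ s : V, ln σ s = 0 → ∀ᵐ ω ∂(iid Ed F), ∀ i, Q (shO s ω) i ↔ Q ω (i + ix σ s))
    {i0 : ℤ} (h0 : iid Ed F {ω | Q ω i0} ≠ 0) {a : V} (ha : a ≠ 0) (hla : ln σ a = 0) :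
    ∀ᵐ ω ∂(iid Ed F), ∃ᶠ n : ℕ in atTop, Q ω (i0 + n * ix σ a) := by
  obtain ⟨A, hA, hAe⟩ := (hm i0)
  have h1 : iid Ed F A ≠ 0 := by
    rwa [← measure_congr hAe]
  have h2 := ae_frequently_mem (ergodic_shO F ha) hA h1
  have h3 : ∀ᵐ ω ∂(iid Ed F), ∀ n : ℕ, ((shO a)^[n] ω ∈ A ↔ Q ((shO a)^[n] ω) i0) := by
    rw [ae_all_iff]
    intro n
    have h4 : ∀ᵐ ω ∂(iid Ed F), (ω ∈ A ↔ Q ω i0) := by
      filter_upwards [hAe] with ω h5
      exact (iff_of_eq h5).symm
    exact ((measurePreserving_shO F a).iterate n).quasiMeasurePreserving.ae h4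
  have h4 : ∀ᵐ ω ∂(iid Ed F), ∀ n : ℕ, (Q (shO (n • a) ω) i0 ↔ Q ω (i0 + n * ix σ a)) := by
    rw [ae_all_iff]
    intro n
    filter_upwards [hs (n • a) (by rw [ln_nsmul, hla, mul_zero])] with ω h5
    rw [h5 i0, ix_nsmul]
  filter_upwards [h2, h3, h4] with ω h5 h6 h7
  refine h5.mono fun n hn => ?_
  have h8 := (h6 n).mp hn
  rw [shO_iterate] at h8
  exact (h7 n).mp h8

/-- Two-sided recurrence along a line. -/
theorem ae_two_sided (hσ : σ = 0 ∨ σ = 1) {Q : Om → ℤ → Prop}
    (hm : ∀ i, NullMeasurableSet {ω | Q ω i} (iid Ed F))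
    (hs : ∀ s : V, ln σ s = 0 → ∀ᵐ ω ∂(iid Ed F), ∀ i, Q (shO s ω) i ↔ Q ω (i + ix σ s))
    {i0 : ℤ} (h0 : iid Ed F {ω | Q ω i0} ≠ 0) :
    ∀ᵐ ω ∂(iid Ed F), ∀ N : ℤ, (∃ i, N ≤ i ∧ Q ω i) ∧ ∃ i, i ≤ N ∧ Q ω i := by
  have ha : av σ ≠ 0 := by
    intro h
    have := congrArg Prod.snd h
    simp [av] at this
  have hix : 1 ≤ ix σ (av σ) := by
    unfold ix av
    rcases hσ with rfl | rfl <;> norm_num
  have h1 := ae_frequently_shift (σ := σ) hm hs h0 ha (ln_av σ)
  have h2 := ae_frequently_shift (σ := σ) hm hs h0 (neg_ne_zero.mpr ha)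
    (by unfold ln av; simp)
  filter_upwards [h1, h2] with ω h3 h4 N
  constructor
  · obtain ⟨n, hn, h5⟩ := (frequently_atTop.mp h3) (N - i0).toNat
    refine ⟨_, ?_, h5⟩
    have : (n : ℤ) ≤ n * ix σ (av σ) := by nlinarith
    omega
  · obtain ⟨n, hn, h5⟩ := (frequently_atTop.mp h4) (i0 - N).toNat
    refine ⟨_, ?_, h5⟩
    have e : ix σ (-av σ) = -ix σ (av σ) := by unfold ix; simp only [Prod.fst_neg, Prod.snd_neg]; ring
    rw [e]
    have : (n : ℤ) ≤ n * ix σ (av σ) := by nlinarith
    have : (n : ℤ) * -ix σ (av σ) ≤ -n := by linarith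
    omega

end prob

end C7
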