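import Mathlib
import Pool.Agent.Lib.MP_c725eb_pr.Block
import Pool.Agent.Lib.MP_c725eb_pr.Touch

/-!
# Coalescence of flows: preliminaries

Passage times in half planes depend on the edges of the half plane; the pattern of the blocking
lemma; tails of the law of a weight; the curves move to the left.
-/

set_option autoImplicit false

namespace C7

open MeasureTheory Filter Set
open scoped ENNReal NNReal Topology
open FlowSys (av ln_av)

/-! ### Dependence of passage times in half planes -/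

theorem step_congr_Hl {σ : ℤ} {l : ℤ} {ω ω' : Om} (h : AgreeR σ l ω ω')
    {u v : V} (hu : u ∈ Hl σ l) (hv : v ∈ Hl σ l) : step (wt ω) u v = step (wt ω') u v := by
  unfold step
  simp only [wt_zero, wt_one, wt_two]
  rw [h (u, 0) hu, h (u, 1) hu, h (v, 0) hv, h (v, 1) hv]

theorem cost_congr_Hl {σ : ℤ} {l : ℤ} {ω ω' : Om} (h : AgreeR σ l ω ω') (L : List V)
    (hL : ∀ v ∈ L, v ∈ Hl σ l) : cost (wt ω) L = cost (wt ω') L := by
  induction L with
  | nil => rfl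
  | cons a L ih =>
    cases L with
    | nil => rfl
    | cons b L' =>
      rw [cost_cons_cons, cost_cons_cons, ih fun v hv => hL v (List.mem_cons_of_mem _ hv),
        step_congr_Hl h (hL a (by simp)) (hL b (by simp))]

theorem T_congr_Hl {σ : ℤ} {l : ℤ} {ω ω' : Om} (h : AgreeR σ l ω ω') (x y : V) :
    T (wt ω) (Hl σ l) x y = T (wt ω') (Hl σ l) x y := by
  apply le_antisymm
  · exact le_T fun L hL => by rw [← cost_congr_Hl h L hL.2.2]; exact T_le hL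
  · exact le_T fun L hL => by rw [cost_congr_Hl h L hL.2.2]; exact T_le hL

theorem ck_congr_agree {σ : ℤ} (hσ : σ = 0 ∨ σ = 1) {l : ℤ} {ω ω' : Om} (h : AgreeR σ l ω ω')
    (K : ℝ≥0∞) : ck σ (wt ω) K l = ck σ (wt ω') K l := by
  refine ck_congr hσ fun x hx => ?_
  rw [wt_zero, wt_one, wt_zero, wt_one, h (x, 0) hx, h (x, 1) hx]
  exact ⟨rfl, rfl⟩

theorem pk_congr_agree {σ : ℤ} (hσ : σ = 0 ∨ σ = 1) {l : ℤ} {ω ω' : Om} (h : AgreeR σ l ω ω')
    (K : ℝ≥0∞) (i : ℤ) : pk σ (wt ω) K l i = pk σ (wt ω') K l i := by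
  unfold pk
  rw [ck_congr_agree hσ h]

/-! ### The pattern -/

theorem exists_pattern {σ : ℤ} (hσ : σ = 0 ∨ σ = 1) {l tm tp : ℤ} (ht : tm < tp)
    (hpar : σ = 1 → (l - tm) % 2 = 0 ∧ (l - tp) % 2 = 0) {θ R0 : ℝ≥0} (hθ : θ < R0) :
    ∃ I Fr B : Set V, B.Finite ∧ I ⊆ B ∧ Fr ⊆ B ∧ (∀ x ∈ I, x ∉ Fr) ∧ (∀ x ∈ I, ln σ x < l) ∧
      ∀ (w : W), (∀ v, w v 2 = ⊤) → ∀ (D : Set V), B ⊆ D → ∀ R1 : ℝ≥0∞,
        (∀ x d, (x ∈ I ∨ oth x d ∈ I) → R1 ≤ w x d.castSucc) →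
        (∀ x d, x ∈ Fr → oth x d ∈ Fr → ln σ x < l → w x d.castSucc ≤ θ) →
        (∀ x, ln σ x = l → tm ≤ ix σ x → ix σ x ≤ tp → w x 0 ≤ R0 ∧ w x 1 ≤ R0) →
        Blk σ w D l tm tp I Fr R0 R1 := by
  have hθ' : (θ : ℝ) < R0 := by exact_mod_cast hθ
  have hpos : (0 : ℝ) < R0 - θ := by linarith
  rcases hσ with rfl | rfl
  · obtain ⟨n, hn⟩ := exists_nat_gt ((4 * (tp - tm) : ℝ) * R0 / (R0 - θ))
    rw [div_lt_iff₀ hpos] at hn
    set m : ℤ := max 2 n with hm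
    have hmn : (n : ℝ) ≤ m := by
      have : (n : ℤ) ≤ m := le_max_right _ _
      exact_mod_cast this
    refine ⟨I0 l tm tp m, F0 l tm tp m, B0 l tm tp m, ?_, ?_, ?_, ?_, ?_, ?_⟩
    · refine ((Set.finite_Icc (l - m) l).prod (Set.finite_Icc tm tp)).subset ?_
      rintro ⟨x1, x2⟩ ⟨h1, h2, h3, h4⟩
      exact ⟨⟨h1, h2⟩, ⟨h3, h4⟩⟩
    · rintro ⟨x1, x2⟩ ⟨h1, h2, h3, h4⟩
      exact ⟨h1.le, h2.le, h3.le, h4.le⟩
    · rintro ⟨x1, x2⟩ (⟨h1, h2, h3⟩ | ⟨h1, h2, h3⟩)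
      · refine ⟨h1, h2, ?_, ?_⟩
        · simp only at h3 ⊢; omega
        · simp only at h3 ⊢; omega
      · have := le_max_left (2 : ℤ) n
        refine ⟨?_, ?_, h2, h3⟩
        · simp only at h1 ⊢; omega
        · simp only at h1 ⊢; omega
    · rintro ⟨x1, x2⟩ ⟨h1, h2, h3, h4⟩ (⟨h5, h6, h7⟩ | ⟨h5, h6, h7⟩)
      · simp only at *; omega
      · simp only at *; omega
    · rintro ⟨x1, x2⟩ ⟨h1, h2, h3, h4⟩
      unfold ln
      simp only at *
      omega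
    · intro w hw D hD R1 h1 h2 h3
      refine blk0 hw ht (le_max_left _ _) hθ.le ?_ h1 h2 h3 hD
      nlinarith
  · obtain ⟨h1, h2⟩ := hpar rfl
    obtain ⟨a0, ha0⟩ : ∃ a0, l - tm = 2 * a0 := ⟨(l - tm) / 2, by omega⟩
    obtain ⟨a2, ha2⟩ : ∃ a2, l - tp = 2 * a2 := ⟨(l - tp) / 2, by omega⟩
    have htm : tm = l - 2 * a0 := by omega
    have htp : tp = l - 2 * a2 := by omega
    subst htm htp
    obtain ⟨n, hn⟩ := exists_nat_gt ((8 * (a0 - a2) : ℝ) * R0 / (R0 - θ))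
    rw [div_lt_iff₀ hpos] at hn
    set m : ℤ := max (a0 - a2 + 1) n with hm
    have hmn : (n : ℝ) ≤ m := by
      have : (n : ℤ) ≤ m := le_max_right _ _
      exact_mod_cast this
    have hm' : a0 - a2 + 1 ≤ m := le_max_left _ _
    refine ⟨I1 l a0 a2 m, F1 l a0 a2 m, B1 l a0 a2 m, ?_, ?_, ?_, ?_, ?_, ?_⟩
    · refine ((Set.finite_Icc (a0 - m) a0).prod (Set.finite_Icc (l - a2 - m) (l - a2))).subset ?_
      rintro ⟨x1, x2⟩ ⟨h1, h2, h3, h4⟩
      exact ⟨⟨h1, h2⟩, ⟨h3, h4⟩⟩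
    · rintro ⟨x1, x2⟩ ⟨h1, h2, h3, h4, h5⟩
      exact ⟨h4.le, h3.le, h5.le, h2.le⟩
    · rintro ⟨x1, x2⟩ h
      simp only [F1, B1, Set.mem_ofPred_eq] at h ⊢
      omega
    · rintro ⟨x1, x2⟩ h h'
      simp only [F1, I1, Set.mem_ofPred_eq] at h h'
      omega
    · rintro ⟨x1, x2⟩ h
      simp only [I1, Set.mem_ofPred_eq] at h
      unfold ln
      simp only
      omega
    · intro w hw D hD R1 h1 h2 h3
      refine blk1 hw (by omega) (by omega) hθ.le ?_ h1 h2 h3 hD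
      nlinarith

/-! ### The law of a weight -/

section law

variable {F : Measure ℝ}

theorem null_right (hF : ∀ a, F {a} = 0) : F {x | F (Ioi x) = 0} = 0 := by
  set S : Set ℝ := {x | F (Ioi x) = 0} with hS
  have hup : ∀ x y, x ∈ S → x ≤ y → y ∈ S := fun x y hx hxy =>
    measure_mono_null (Ioi_subset_Ioi hxy) hx
  have h1 : S ⊆ (⋃ q : {q : ℚ // (q : ℝ) ∈ S}, Ioi (q.1 : ℝ)) ∪ {x | IsLeast S x} := by
    intro x hx
    by_cases h : ∀ y ∈ S, x ≤ y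
    · exact Or.inr ⟨hx, h⟩
    · push Not at h
      obtain ⟨y, hy, hyx⟩ := h
      obtain ⟨q, hq1, hq2⟩ := exists_rat_btwn hyx
      exact Or.inl (mem_iUnion.mpr ⟨⟨q, hup y q hy hq1.le⟩, hq2⟩)
  refine measure_mono_null h1 (measure_union_null ?_ ?_)
  · exact measure_iUnion_null fun q => q.2
  · have : {x | IsLeast S x}.Subsingleton := fun x hx y hy => hx.unique hy
    rcases this.eq_empty_or_singleton with h | ⟨a, h⟩
    · rw [h]; exact measure_empty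
    · rw [h]; exact hF a

theorem null_left (hF : ∀ a, F {a} = 0) : F {x | F (Iic x) = 0} = 0 := by
  set S : Set ℝ := {x | F (Iic x) = 0} with hS
  have hup : ∀ x y, x ∈ S → y ≤ x → y ∈ S := fun x y hx hxy =>
    measure_mono_null (Iic_subset_Iic.mpr hxy) hx
  have h1 : S ⊆ (⋃ q : {q : ℚ // (q : ℝ) ∈ S}, Iic (q.1 : ℝ)) ∪ {x | IsGreatest S x} := by
    intro x hx
    by_cases h : ∀ y ∈ S, y ≤ x
    · exact Or.inr ⟨hx, h⟩
    · push Not at h
      obtain ⟨y, hy, hyx⟩ := h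
      obtain ⟨q, hq1, hq2⟩ := exists_rat_btwn hyx
      exact Or.inl (mem_iUnion.mpr ⟨⟨q, hup y q hy hq2.le⟩, hq1.le⟩)
  refine measure_mono_null h1 (measure_union_null ?_ ?_)
  · exact measure_iUnion_null fun q => q.2
  · have : {x | IsGreatest S x}.Subsingleton := fun x hx y hy => hx.unique hy
    rcases this.eq_empty_or_singleton with h | ⟨a, h⟩
    · rw [h]; exact measure_empty
    · rw [h]; exact hF a

/-- continuity of the tail -/
theorem exists_rat_tail {x : ℝ} (hx : F (Ioi x) ≠ 0) : ∃ q : ℚ, x < q ∧ F (Ioi (q : ℝ)) ≠ 0 := by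
  by_contra hcon
  push Not at hcon
  apply hx
  have h1 : Ioi x ⊆ ⋃ q : {q : ℚ // x < q}, Ioi (q.1 : ℝ) := by
    intro y hy
    obtain ⟨q, hq1, hq2⟩ := exists_rat_btwn (show x < y from hy)
    exact mem_iUnion.mpr ⟨⟨q, hq1⟩, hq2⟩
  exact measure_mono_null h1 (measure_iUnion_null fun q => hcon q.1 q.2)

theorem exists_theta [IsProbabilityMeasure F] (hF : ∀ a, F {a} = 0) (h0 : F (Iio 0) = 0) :
    ∃ θ : ℝ≥0, F (Iic (θ : ℝ)) ≠ 0 ∧ F (Ioi (θ : ℝ)) ≠ 0 := by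
  have h1 : ∀ᵐ x ∂F, F (Ioi x) ≠ 0 := by rw [ae_iff]; simpa using null_right hF
  have h2 : ∀ᵐ x ∂F, F (Iic x) ≠ 0 := by rw [ae_iff]; simpa using null_left hF
  have h3 : ∀ᵐ x ∂F, 0 ≤ x := by
    rw [ae_iff]
    simp only [not_le]
    exact h0
  obtain ⟨x, hx1, hx2, hx3⟩ := (h1.and (h2.and h3)).exists
  exact ⟨⟨x, hx3⟩, hx2, hx1⟩

theorem ae_coord [IsProbabilityMeasure F] {p : ℝ → Prop} (hp : ∀ᵐ x ∂F, p x) : ∀ᵐ ω ∂(iid Ed F), ∀ e, p (ω e) := by
  rw [ae_all_iff]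
  intro e
  have h1 : MeasurePreserving (fun ω : Om => ω e) (iid Ed F) F :=
    measurePreserving_eval_infinitePi _ e
  exact h1.quasiMeasurePreserving.ae hp

end law

/-! ### The curves move to the left -/

section left

variable {σ : ℤ} {K : ℝ≥0∞} {F : Measure ℝ} [IsProbabilityMeasure F]

theorem ln_pk_mono (hσ : σ = 0 ∨ σ = 1) {w : W} (hf : Good σ w K) {k l : ℤ} (h : k ≤ l) (i : ℤ) :
    ln σ (pk σ w K k i) ≤ ln σ (pk σ w K l i) := by
  have h1 : ck σ w K k i ≤ ck σ w K l i := crv_mono hσ (hf k) (hf l) (fun _ => by omega) i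
  rw [ln_eq hσ, ln_eq hσ, ix_pk, ix_pk]
  have h2 : (pk σ w K k i).1 = ck σ w K k i := rfl
  have h3 : (pk σ w K l i).1 = ck σ w K l i := rfl
  rw [h2, h3]
  rcases hσ with rfl | rfl <;> omega

theorem ae_left (hσ : σ = 0 ∨ σ = 1) (hg : ∀ᵐ ω ∂(iid Ed F), Good σ (wt ω) K) :
    ∀ᵐ ω ∂(iid Ed F), ∀ i c : ℤ, ∃ k, ∀ k' ≤ k, ln σ (pk σ (wt ω) K k' i) < c := by
  have key : ∀ i c : ℤ, ∀ᵐ ω ∂(iid Ed F), ∃ k, ln σ (pk σ (wt ω) K k i) < c := by
    intro i c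
    rw [ae_iff]
    push Not
    set D : ℕ → Set Om := fun m => {ω | c + (1 + σ) * m ≤ ln σ (pk σ (wt ω) K 0 i)} with hD
    have hmeas : ∀ m, MeasurableSet (D m) := by
      intro m
      have h1 : Measurable fun ω : Om => pk σ (wt ω) K 0 i := measurable_pk σ measurable_wt K 0 i
      have h2 : Measurable fun v : V => ln σ v := measurable_of_countable _
      exact measurableSet_le measurable_const (h2.comp h1)
    have hle : ∀ m, iid Ed F {ω | ∀ k, c ≤ ln σ (pk σ (wt ω) K k i)} ≤ iid Ed F (D m) := by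
      intro m
      have h1 := (measurePreserving_shO F (-(m : ℤ), σ * -(m : ℤ))).measure_preimage
        (hmeas m).nullMeasurableSet
      rw [← h1]
      refine measure_mono fun ω hω => ?_
      have h2 := hω (ln σ ((-(m : ℤ), σ * -(m : ℤ)) : V))
      have h3 := ln_pk_sh (w := wt ω) (K := K) hσ (-(m : ℤ), σ * -(m : ℤ))
        (ln σ ((-(m : ℤ), σ * -(m : ℤ)) : V)) i
      have e1 : ix σ ((-(m : ℤ), σ * -(m : ℤ)) : V) = 0 := by unfold ix; simp
      have e2 : ln σ ((-(m : ℤ), σ * -(m : ℤ)) : V) = -((1 + σ) * m) := by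
        unfold ln
        rcases hσ with rfl | rfl <;> (simp <;> ring)
      rw [sub_self, e1, add_zero, ← wt_shO, e2] at h3
      rw [e2] at h2
      show c + (1 + σ) * m ≤ ln σ (pk σ (wt (shO (-(m : ℤ), σ * -(m : ℤ)) ω)) K 0 i)
      rw [h3]
      linarith
    have hanti : Antitone D := by
      intro m m' hmm ω hω
      have hω' : c + (1 + σ) * m' ≤ ln σ (pk σ (wt ω) K 0 i) := hω
      show c + (1 + σ) * m ≤ ln σ (pk σ (wt ω) K 0 i)
      have h1 : (m : ℤ) ≤ m' := by exact_mod_cast hmm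
      have h2 : (0 : ℤ) ≤ 1 + σ := by rcases hσ with rfl | rfl <;> norm_num
      nlinarith
    have hempty : ⋂ m, D m = ∅ := by
      rw [eq_empty_iff_forall_notMem]
      intro ω hω
      rw [mem_iInter] at hω
      have h1 : c + (1 + σ) * (((ln σ (pk σ (wt ω) K 0 i) - c).toNat + 1 : ℕ) : ℤ) ≤
        ln σ (pk σ (wt ω) K 0 i) := hω _
      push_cast at h1
      have h2 : (1 : ℤ) ≤ 1 + σ := by rcases hσ with rfl | rfl <;> norm_num
      have h3 : ln σ (pk σ (wt ω) K 0 i) - c ≤ ((ln σ (pk σ (wt ω) K 0 i) - c).toNat : ℤ) :=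
        Int.self_le_toNat _
      have h4 : (0 : ℤ) ≤ ((ln σ (pk σ (wt ω) K 0 i) - c).toNat : ℤ) := by positivity
      nlinarith
    have htend := tendsto_measure_iInter_atTop (μ := iid Ed F)
      (fun m => (hmeas m).nullMeasurableSet) hanti ⟨0, measure_ne_top _ _⟩
    rw [hempty, measure_empty] at htend
    exact le_antisymm (ge_of_tendsto' htend hle) (by exact bot_le)
  have key' : ∀ᵐ ω ∂(iid Ed F), ∀ i c : ℤ, ∃ k, ln σ (pk σ (wt ω) K k i) < c := by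
    rw [ae_all_iff]; intro i
    rw [ae_all_iff]; intro c
    exact key i c
  filter_upwards [hg, key'] with ω hf h i c
  obtain ⟨k, hk⟩ := h i c
  exact ⟨k, fun k' hk' => (ln_pk_mono hσ hf hk' i).trans_lt hk⟩

end left

end C7
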