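import Mathlib
import Pool.Agent.Lib.MP_c725eb_pr.CoalPre

/-!
# Coalescence of flows, and: every index is eventually not hit from the left

`FlowSys.ae_coal`: almost surely any two indices of a curve have the same image on some curve.
`FlowSys.ae_A4`: almost surely every index of a curve is outside of the range of the flow from some
curve to the left.
-/

set_option autoImplicit false

namespace C7

open MeasureTheory Filter Set
open scoped ENNReal NNReal Topology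

namespace FlowSys

variable {σ : ℤ} {K : ℝ≥0∞} {F : Measure ℝ}

/-- The event of the half plane to the right of the line `l`. -/
structure AEv (S : FlowSys σ K F) (ω : Om) (l tm tp : ℤ) (R0 : ℝ≥0) (δ : ℝ) : Prop where
  htm : ln σ (pk σ (wt ω) K l tm) = l
  htp : ln σ (pk σ (wt ω) K l tp) = l
  cl : ∀ u, S.Sim ω l 0 u → tm < u ∧ u < tp ∧ ∀ j, j ≤ tm ∨ tp ≤ j →
    ENNReal.ofReal (S.φ ω l j - S.φ ω l u + δ) ≤
      T (wt ω) (Hl σ l) (pk σ (wt ω) K l j) (pk σ (wt ω) K l u)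
  line : ∀ x, ln σ x = l → tm ≤ ix σ x → ix σ x ≤ tp → wt ω x 0 ≤ R0 ∧ wt ω x 1 ≤ R0

theorem sim_congr (S : FlowSys σ K F) {l : ℤ} {ω ω' : Om} (h : AgreeR σ l ω ω') (i j : ℤ) :
    S.Sim ω l i j ↔ S.Sim ω' l i j := by
  unfold Sim
  constructor
  · rintro ⟨N, hN, he⟩
    exact ⟨N, hN, by rw [← S.dep_v l N i ω ω' hN h, ← S.dep_v l N j ω ω' hN h]; exact he⟩
  · rintro ⟨N, hN, he⟩
    exact ⟨N, hN, by rw [S.dep_v l N i ω ω' hN h, S.dep_v l N j ω ω' hN h]; exact he⟩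

theorem AEv.congr {S : FlowSys σ K F} (hσ : σ = 0 ∨ σ = 1) {ω ω' : Om} {l tm tp : ℤ} {R0 : ℝ≥0}
    {δ : ℝ} (h : AEv S ω l tm tp R0 δ) (hag : AgreeR σ l ω ω') : AEv S ω' l tm tp R0 δ := by
  have hpk := pk_congr_agree hσ hag K
  refine ⟨by rw [← hpk]; exact h.htm, by rw [← hpk]; exact h.htp, fun u hu => ?_,
    fun x hx h1 h2 => ?_⟩
  · obtain ⟨h1, h2, h3⟩ := h.cl u ((S.sim_congr hag 0 u).mpr hu)
    refine ⟨h1, h2, fun j hj => ?_⟩
    rw [← hpk, ← hpk, ← T_congr_Hl hag, ← S.dep_φ l j u ω ω' hag]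
    exact h3 j hj
  · have h3 := h.line x hx h1 h2
    rw [wt_zero, wt_one] at h3 ⊢
    rw [← hag (x, 0) hx.ge, ← hag (x, 1) hx.ge]
    exact h3

/-- Existence of the parameters. -/
theorem exists_param {S : FlowSys σ K F} (hσ : σ = 0 ∨ σ = 1) {ω : Om} {l : ℤ} (hreg : S.Reg ω)
    (hcoer : ∀ u, ∃ L0 : ℕ, ∃ δ : ℝ, 0 < δ ∧ ∀ j, (L0 : ℤ) ≤ |j - u| →
      ENNReal.ofReal (S.φ ω l j - S.φ ω l u + δ) ≤
        T (wt ω) (Hl σ l) (pk σ (wt ω) K l j) (pk σ (wt ω) K l u))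
    (hdd : ∀ N : ℤ, (∃ i, N ≤ i ∧ S.Dd ω l i) ∧ ∃ i, i ≤ N ∧ S.Dd ω l i)
    (htouch : ∀ N : ℤ, (∃ i, N ≤ i ∧ ln σ (pk σ (wt ω) K l i) = l) ∧
      ∃ i, i ≤ N ∧ ln σ (pk σ (wt ω) K l i) = l)
    (htail : ∀ e, F (Ioi (ω e)) ≠ 0) {θ : ℝ≥0} (hθ : F (Ioi (θ : ℝ)) ≠ 0) :
    ∃ (tm tp : ℤ) (r0 r1 : ℚ) (n : ℕ), (θ : ℝ) < r0 ∧ (r0 : ℝ) + 1 / ((n : ℝ) + 1) ≤ r1 ∧
      F (Ioi (r1 : ℝ)) ≠ 0 ∧ AEv S ω l tm tp (Real.toNNReal r0) (1 / ((n : ℝ) + 1)) := by
  obtain ⟨i2, hi2, hd2⟩ := (hdd 0).1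
  obtain ⟨i1, hi1, hd1⟩ := (hdd (-1)).2
  have hclass : ∀ u, S.Sim ω l 0 u → i1 < u ∧ u ≤ i2 := by
    intro u hu
    constructor
    · by_contra hlt
      push Not at hlt
      have h1 := hreg.between hu.symm hlt (by omega)
      exact hreg.not_sim hd1 (show i1 < 0 by omega) (hreg.trans h1.symm hu.symm)
    · by_contra hlt
      push Not at hlt
      have h1 := hreg.between hu hi2 hlt.le
      exact hreg.not_sim hd2 hlt (hreg.trans h1.symm hu)
  choose L0 d hd hco using hcoer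
  -- uniform constants
  obtain ⟨Lm, hLm⟩ : ∃ Lm : ℕ, ∀ u ∈ Finset.Icc i1 i2, L0 u ≤ Lm :=
    ⟨(Finset.Icc i1 i2).sup L0, fun u hu => Finset.le_sup hu⟩
  obtain ⟨u0, -, hu0'⟩ := Finset.exists_min_image (Finset.Icc i1 i2) d
    ⟨i1, Finset.mem_Icc.mpr ⟨le_rfl, by omega⟩⟩
  obtain ⟨tp, htp, htp'⟩ := (htouch (i2 + 1 + Lm)).1
  obtain ⟨tm, htm, htm'⟩ := (htouch (i1 - Lm)).2
  -- weights
  set E : Set Ed := {e | ln σ e.1 = l ∧ tm ≤ ix σ e.1 ∧ ix σ e.1 ≤ tp} with hE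
  have hEfin : E.Finite := by
    set N : ℤ := |l| + |tm| + |tp| with hN
    refine (((Set.finite_Icc (-N) N).prod (Set.finite_Icc (-N) N)).prod
      (Set.finite_univ (α := Fin 2))).subset ?_
    rintro ⟨⟨x1, x2⟩, dd⟩ ⟨h1, h2, h3⟩
    have a1 := le_abs_self l
    have a2 := neg_abs_le l
    have a3 := le_abs_self tm
    have a4 := neg_abs_le tm
    have a5 := le_abs_self tp
    have a6 := neg_abs_le tp
    unfold ln at h1
    unfold ix at h2 h3
    simp only at h1 h2 h3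
    refine ⟨⟨?_, ?_⟩, mem_univ _⟩
    · simp only [mem_Icc]
      rcases hσ with rfl | rfl
      · constructor <;> omega
      · constructor <;> omega
    · simp only [mem_Icc]
      rcases hσ with rfl | rfl
      · constructor <;> omega
      · constructor <;> omega
  obtain ⟨M, hMmem, hMmax⟩ := Finset.exists_max_image (insert (θ : ℝ) (hEfin.toFinset.image ω))
    (fun x => x) ⟨(θ : ℝ), Finset.mem_insert_self _ _⟩
  have hMtail : F (Ioi M) ≠ 0 := by
    rcases Finset.mem_insert.mp hMmem with h | h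
    · rw [h]; exact hθ
    · obtain ⟨e, -, he⟩ := Finset.mem_image.mp h
      rw [← he]; exact htail e
  obtain ⟨r1, hr1, hr1'⟩ := exists_rat_tail hMtail
  obtain ⟨r0, hr0, hr0'⟩ := exists_rat_btwn hr1
  obtain ⟨n, hn⟩ := exists_nat_one_div_lt (show (0 : ℝ) < min (d u0) (r1 - r0) from
    lt_min (hd u0) (by linarith))
  have hθM : (θ : ℝ) ≤ M := hMmax _ (Finset.mem_insert_self _ _)
  refine ⟨tm, tp, r0, r1, n, by linarith, ?_, hr1', htm', htp', fun u hu => ?_, fun x hx h1 h2 => ?_⟩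
  · have := hn.le.trans (min_le_right _ _)
    linarith
  · obtain ⟨h1, h2⟩ := hclass u hu
    have hmem : u ∈ Finset.Icc i1 i2 := Finset.mem_Icc.mpr ⟨h1.le, h2⟩
    have h3 := hLm u hmem
    refine ⟨by omega, by omega, fun j hj => ?_⟩
    refine le_trans (ENNReal.ofReal_le_ofReal ?_) (hco u j ?_)
    · have h4 := hu0' u hmem
      have h5 := hn.le.trans (min_le_left _ _)
      linarith
    · rcases hj with hj | hj
      · rw [abs_of_nonpos (by omega)]; omega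
      · rw [abs_of_nonneg (by omega)]; omega
  · have hle : ∀ dd, ω (x, dd) ≤ r0 := by
      intro dd
      have h3 : ω (x, dd) ≤ M := hMmax _ (Finset.mem_insert_of_mem (Finset.mem_image_of_mem _
        (hEfin.mem_toFinset.mpr ⟨hx, h1, h2⟩)))
      linarith
    rw [wt_zero, wt_one]
    exact ⟨ENNReal.ofReal_le_ofReal (hle 0), ENNReal.ofReal_le_ofReal (hle 1)⟩

theorem ln_lt_of_oth {σ : ℤ} (hσ : σ = 0 ∨ σ = 1) {x : V} {d : Fin 2} {l : ℤ}
    (h : ln σ (oth x d) < l) : ln σ x < l := by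
  have h1 : d = 0 ∨ d = 1 := by fin_cases d <;> simp
  rcases h1 with rfl | rfl
  · rw [oth_zero] at h
    unfold ln at *
    simp only at h
    omega
  · rw [oth_one] at h
    unfold ln at *
    simp only at h
    rcases hσ with rfl | rfl <;> omega

variable [IsProbabilityMeasure F]

/-- **There are no ends.** -/
theorem P_dd (hσ : σ = 0 ∨ σ = 1) (S : FlowSys σ K F) (hg : ∀ᵐ ω ∂(iid Ed F), Good σ (wt ω) K)
    (hF : ∀ a, F {a} = 0) (hF0 : F (Iio 0) = 0) (l i0 : ℤ) :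
    iid Ed F {ω | S.Dd ω l i0} = 0 := by
  by_contra hpos
  obtain ⟨θ, hθ1, hθ2⟩ := exists_theta hF hF0
  -- almost sure properties
  have hdd := ae_two_sided hσ (Q := fun ω i => S.Dd ω l i) (fun i => S.nms_dd l i)
    (fun s hs => by
      filter_upwards [S.ae_shift_dd s] with ω h i
      have := h l i
      rwa [hs, sub_zero] at this) hpos
  obtain ⟨t0, ht0⟩ := exists_P_touch hσ hg l
  have htouch := ae_two_sided hσ (Q := fun ω i => ln σ (pk σ (wt ω) K l i) = l)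
    (fun i => (measurableSet_touch σ K l i).nullMeasurableSet)
    (fun s hs => by
      refine ae_of_all _ fun ω i => ?_
      have h1 := ln_pk_sh (w := wt ω) (K := K) hσ s l i
      rw [hs, sub_zero, sub_zero, ← wt_shO] at h1
      rw [h1]) ht0
  have htail : ∀ᵐ ω ∂(iid Ed F), ∀ e, F (Ioi (ω e)) ≠ 0 :=
    ae_coord (p := fun x => F (Ioi x) ≠ 0) (by rw [ae_iff]; simpa using null_right hF)
  -- the parameters
  have hparam : ∀ᵐ ω ∂(iid Ed F), ∃ (tm tp : ℤ) (r0 r1 : ℚ) (n : ℕ), (θ : ℝ) < r0 ∧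
      (r0 : ℝ) + 1 / ((n : ℝ) + 1) ≤ r1 ∧ F (Ioi (r1 : ℝ)) ≠ 0 ∧
      AEv S ω l tm tp (Real.toNNReal r0) (1 / ((n : ℝ) + 1)) := by
    filter_upwards [S.ae_reg, S.coer, hdd, htouch, htail] with ω h1 h2 h3 h4 h5
    exact exists_param hσ h1 (h2 l) h3 h4 h5 hθ2
  obtain ⟨tm, tp, r0, r1, n, hr0, hr1, hr2, hA⟩ : ∃ (tm tp : ℤ) (r0 r1 : ℚ) (n : ℕ),
      (θ : ℝ) < r0 ∧ (r0 : ℝ) + 1 / ((n : ℝ) + 1) ≤ r1 ∧ F (Ioi (r1 : ℝ)) ≠ 0 ∧
      iid Ed F {ω | AEv S ω l tm tp (Real.toNNReal r0) (1 / ((n : ℝ) + 1))} ≠ 0 := by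
    by_contra hcon
    push Not at hcon
    have h1 : ∀ᵐ ω ∂(iid Ed F), ∀ (tm tp : ℤ) (r0 r1 : ℚ) (n : ℕ), (θ : ℝ) < r0 →
        (r0 : ℝ) + 1 / ((n : ℝ) + 1) ≤ r1 → F (Ioi (r1 : ℝ)) ≠ 0 →
        ¬ AEv S ω l tm tp (Real.toNNReal r0) (1 / ((n : ℝ) + 1)) := by
      rw [ae_all_iff]; intro tm
      rw [ae_all_iff]; intro tp
      rw [ae_all_iff]; intro r0
      rw [ae_all_iff]; intro r1
      rw [ae_all_iff]; intro n
      by_cases hc : (θ : ℝ) < r0 ∧ (r0 : ℝ) + 1 / ((n : ℝ) + 1) ≤ r1 ∧ F (Ioi (r1 : ℝ)) ≠ 0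
      · have h2 := hcon tm tp r0 r1 n hc.1 hc.2.1 hc.2.2
        have h3 : ∀ᵐ ω ∂(iid Ed F), ¬ AEv S ω l tm tp (Real.toNNReal r0) (1 / ((n : ℝ) + 1)) := by
          rw [ae_iff]
          simpa using h2
        filter_upwards [h3] with ω h4 _ _ _
        exact h4
      · exact ae_of_all _ fun ω a b c => absurd ⟨a, b, c⟩ hc
    obtain ⟨ω, h2, tm, tp, r0, r1, n, a, b, c, h3⟩ := (h1.and hparam).exists
    exact h2 tm tp r0 r1 n a b c h3
  set A : Set Om := {ω | AEv S ω l tm tp (Real.toNNReal r0) (1 / ((n : ℝ) + 1))} with hAdef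
  have hδ : (0 : ℝ) < 1 / ((n : ℝ) + 1) := by positivity
  have hr00 : (0 : ℝ) ≤ r0 := θ.2.trans hr0.le
  obtain ⟨ω₀, hω₀⟩ : A.Nonempty := by
    rw [nonempty_iff_ne_empty]
    rintro h
    rw [h, measure_empty] at hA
    exact hA rfl
  have htmtp : tm < tp := by
    have h1 := hω₀.cl 0 (Sim.refl l 0)
    omega
  have hpar : σ = 1 → (l - tm) % 2 = 0 ∧ (l - tp) % 2 = 0 := by
    intro hσ1
    have h1 := hω₀.htm
    have h2 := hω₀.htp
    rw [ln_eq hσ, ix_pk, hσ1] at h1 h2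
    omega
  have hθR : θ < Real.toNNReal r0 := by
    rw [← NNReal.coe_lt_coe, Real.coe_toNNReal _ hr00]
    exact hr0
  obtain ⟨I, Fr, B, hBfin, hIB, hFrB, hIFr, hIl, hpat⟩ :=
    exists_pattern hσ (l := l) htmtp hpar hθR
  -- the edges of the pattern
  set slow : Ed → Prop := fun e => e.1 ∈ I ∨ oth e.1 e.2 ∈ I with hslow
  set frame : Ed → Prop := fun e => e.1 ∈ Fr ∧ oth e.1 e.2 ∈ Fr ∧ ln σ e.1 < l with hframe
  have hslow_l : ∀ e, slow e → ln σ e.1 < l := by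
    rintro e (he | he)
    · exact hIl _ he
    · exact ln_lt_of_oth hσ (hIl _ he)
  have hSfin : {e : Ed | slow e ∨ frame e}.Finite := by
    have h1 : {e : Ed | slow e ∨ frame e} ⊆ {e : Ed | e.1 ∈ B} ∪ {e : Ed | oth e.1 e.2 ∈ B} := by
      rintro e ((he | he) | he)
      · exact Or.inl (hIB he)
      · exact Or.inr (hIB he)
      · exact Or.inl (hFrB he.1)
    refine Set.Finite.subset (Set.Finite.union ?_ ?_) h1
    · refine (hBfin.prod (Set.finite_univ (α := Fin 2))).subset ?_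
      rintro ⟨x, dd⟩ hx
      exact ⟨hx, mem_univ _⟩
    · have h2 : ({e : Ed | oth e.1 e.2 ∈ B} : Set Ed) ⊆
          (fun p : V × Fin 2 => (((p.1.1 - (if p.2 = 0 then 1 else 0),
            p.1.2 - (if p.2 = 0 then 0 else 1)) : V), p.2)) '' (B ×ˢ (univ : Set (Fin 2))) := by
        rintro ⟨⟨x1, x2⟩, dd⟩ hx
        refine ⟨(oth (x1, x2) dd, dd), ⟨hx, mem_univ _⟩, ?_⟩
        have h1 : dd = 0 ∨ dd = 1 := by fin_cases dd <;> simp
        rcases h1 with rfl | rfl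
        · simp [oth_zero]
        · simp [oth_one]
      exact ((hBfin.prod (Set.finite_univ (α := Fin 2))).image _).subset h2
  classical
  set Sf : Finset Ed := hSfin.toFinset with hSf
  have hSfmem : ∀ e, e ∈ Sf ↔ slow e ∨ frame e := fun e => hSfin.mem_toFinset
  set Bs : Ed → Set ℝ := fun e => if slow e then Ici (r1 : ℝ) else Iic (θ : ℝ) with hBs
  have hen := finite_energy (F := F) Sf Bs
    (fun e _ => by
      simp only [hBs]
      split_ifs
      · exact measurableSet_Ici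
      · exact measurableSet_Iic)
    (fun e _ => by
      simp only [hBs]
      split_ifs
      · exact fun h => hr2 (measure_mono_null Ioi_subset_Ici_self h)
      · exact hθ1) hA
  -- a configuration
  have hfreq := frequently_ae_mem_iff.mpr hen
  obtain ⟨ω, ⟨hωS, ω', hω'A, hω'⟩, hreg, hgood, hopt, hhit, hleft⟩ := (hfreq.and_eventually
    (S.ae_reg.and (hg.and (S.opt.and ((ae_hit hσ S).and (ae_left hσ hg)))))).exists
  have hag : AgreeR σ l ω' ω := by
    intro e he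
    refine hω' e fun hmem => ?_
    rcases (hSfmem e).mp hmem with h | h
    · have := hslow_l e h
      omega
    · have := h.2.2
      omega
  have hAE : AEv S ω l tm tp (Real.toNNReal r0) (1 / ((n : ℝ) + 1)) :=
    (show AEv S ω' l tm tp (Real.toNNReal r0) (1 / ((n : ℝ) + 1)) from hω'A).congr hσ hag
  -- the line `k`
  obtain ⟨c0, hc0⟩ : ∃ c0 : ℤ, ∀ x ∈ insert l (hBfin.toFinset.image (ln σ)), c0 ≤ x :=
    (Finset.bddBelow _).imp fun c hc x hx => hc (Finset.mem_coe.mpr hx)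
  have hc0l : c0 ≤ l := hc0 l (Finset.mem_insert_self _ _)
  have hc0B : ∀ x ∈ B, c0 ≤ ln σ x := fun x hx => hc0 _ (Finset.mem_insert_of_mem
    (Finset.mem_image_of_mem _ (hBfin.mem_toFinset.mpr hx)))
  choose κ hκ using fun i => hleft i c0
  obtain ⟨k, hk⟩ : ∃ k : ℤ, ∀ x ∈ insert l ((hBfin.toFinset.image (ix σ) ∪
      Finset.Icc tm tp).image κ), k ≤ x :=
    (Finset.bddBelow _).imp fun c hc x hx => hc (Finset.mem_coe.mpr hx)
  have hkl : k ≤ l := hk l (Finset.mem_insert_self _ _)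
  have hkJ : ∀ i, i ∈ hBfin.toFinset.image (ix σ) ∪ Finset.Icc tm tp →
      ln σ (pk σ (wt ω) K k i) < c0 := fun i hi =>
    hκ i k (hk _ (Finset.mem_insert_of_mem (Finset.mem_image_of_mem _ hi)))
  have hkB : ∀ x ∈ B, ln σ (pk σ (wt ω) K k (ix σ x)) < c0 := fun x hx =>
    hkJ _ (Finset.mem_union_left _ (Finset.mem_image_of_mem _ (hBfin.mem_toFinset.mpr hx)))
  have hBR : B ⊆ Rg σ (wt ω) K k := by
    intro x hx
    have h1 := (hkB x hx).trans_le (hc0B x hx)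
    rw [ln_eq hσ, ln_eq hσ x, ix_pk] at h1
    have h2 : (pk σ (wt ω) K k (ix σ x)).1 = ck σ (wt ω) K k (ix σ x) := rfl
    rw [h2] at h1
    show ck σ (wt ω) K k (ix σ x) ≤ x.1
    rcases hσ with rfl | rfl <;> omega
  -- blocking
  have hBlk : Blk σ (wt ω) (Rg σ (wt ω) K k) l tm tp I Fr (Real.toNNReal r0)
      (ENNReal.ofReal r1) := by
    refine hpat (wt ω) (fun v => rfl) _ hBR _ ?_ ?_ hAE.line
    · intro x d hxd
      have h1 : slow (x, d) := hxd
      have h2 := hωS (x, d) ((hSfmem _).mpr (Or.inl h1))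
      simp only [hBs, if_pos h1] at h2
      have h3 : d = 0 ∨ d = 1 := by fin_cases d <;> simp
      rcases h3 with rfl | rfl
      · exact ENNReal.ofReal_le_ofReal h2
      · exact ENNReal.ofReal_le_ofReal h2
    · intro x d hx1 hx2 hx3
      have h1 : frame (x, d) := ⟨hx1, hx2, hx3⟩
      have h0 : ¬ slow (x, d) := by
        rintro (h | h)
        · exact hIFr _ h hx1
        · exact hIFr _ h hx2
      have h2 := hωS (x, d) ((hSfmem _).mpr (Or.inr h1))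
      simp only [hBs, if_neg h0] at h2
      have h4 : ENNReal.ofReal (ω (x, d)) ≤ (θ : ℝ≥0∞) := by
        rw [← ENNReal.ofReal_coe_nnreal]
        exact ENNReal.ofReal_le_ofReal h2
      have h3 : d = 0 ∨ d = 1 := by fin_cases d <;> simp
      rcases h3 with rfl | rfl
      · exact h4
      · exact h4
  -- the end of the class of `0`
  obtain ⟨j, hj, hjmax⟩ := Int.exists_greatest_of_bdd (P := fun j => S.Sim ω l 0 j)
    ⟨tp, fun z hz => (hAE.cl z hz).2.1.le⟩ ⟨0, Sim.refl _ _⟩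
  have hjD : S.Dd ω l j := dd_iff.mpr fun hs => by
    have := hjmax (j + 1) (hreg.trans hj hs)
    omega
  obtain ⟨i, hi⟩ := hhit k l j hkl hjD
  set u := S.v ω k l i with hu
  have hu0 : S.Sim ω l 0 u := hreg.trans hj hi.symm
  obtain ⟨φx, hφ1, hφ2, hφ3⟩ := hopt k l i hkl
  rw [← hu] at hφ2 hφ3
  have hfin := hit hσ (fun v => rfl) hgood hBlk (δ := 1 / ((n : ℝ) + 1)) ?_ hAE.htm hAE.htp
    (x := pk σ (wt ω) K k i) ?_ ?_ (u := u) (φx := φx) (φ := S.φ ω l) hφ1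
    (fun j hj => (hAE.cl u hu0).2.2 j hj)
  · have h1 := hfin.trans hφ2
    rw [ENNReal.ofReal_le_ofReal_iff (by linarith)] at h1
    linarith
  · change ENNReal.ofReal (r0 : ℝ) + ENNReal.ofReal (1 / ((n : ℝ) + 1)) ≤ ENNReal.ofReal (r1 : ℝ)
    rw [← ENNReal.ofReal_add hr00 hδ.le]
    exact ENNReal.ofReal_le_ofReal hr1
  · intro hmem
    have h1 := hkB _ (hIB hmem)
    have h2 := hc0B _ (hIB hmem)
    rw [ix_pk] at h1
    omega
  · intro hl
    rw [ix_pk]
    constructor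
    · by_contra hcon
      push Not at hcon
      have h1 := hkJ i (Finset.mem_union_right _ (Finset.mem_Icc.mpr ⟨hcon.1.le, hcon.2.le⟩))
      omega
    · intro hmem
      have h1 : ck σ (wt ω) K l (ix σ (pk σ (wt ω) K k i)) ≤ ck σ (wt ω) K k i := hmem
      rw [ix_pk] at h1
      have h2 : ck σ (wt ω) K k i ≤ ck σ (wt ω) K l i :=
        crv_mono hσ (hgood k) (hgood l) (fun _ => by omega) i
      unfold pk pt
      rw [le_antisymm h2 h1]

/-- **Coalescence.** -/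
theorem ae_coal (hσ : σ = 0 ∨ σ = 1) (S : FlowSys σ K F)
    (hg : ∀ᵐ ω ∂(iid Ed F), Good σ (wt ω) K) (hF : ∀ a, F {a} = 0) (hF0 : F (Iio 0) = 0) :
    ∀ᵐ ω ∂(iid Ed F), ∀ k i j, S.Sim ω k i j := by
  have h1 : ∀ᵐ ω ∂(iid Ed F), ∀ k i, ¬ S.Dd ω k i := by
    rw [ae_all_iff]; intro k
    rw [ae_all_iff]; intro i
    rw [ae_iff]
    simpa using S.P_dd hσ hg hF hF0 k i
  filter_upwards [h1, S.ae_reg] with ω h2 hreg k
  have h3 : ∀ i (n : ℕ), S.Sim ω k i (i + n) := by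
    intro i n
    induction n with
    | zero => simpa using Sim.refl k i
    | succ n ih =>
      have h4 : S.Sim ω k (i + n) (i + n + 1) := by
        by_contra h5
        exact h2 k (i + n) (dd_iff.mpr h5)
      have := hreg.trans ih h4
      push_cast
      rwa [← add_assoc]
  intro i j
  rcases le_total i j with h | h
  · have := h3 i (j - i).toNat
    rwa [show i + (((j - i).toNat : ℕ) : ℤ) = j by omega] at this
  · have := h3 j (i - j).toNat
    rw [show j + (((i - j).toNat : ℕ) : ℤ) = i by omega] at this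
    exact this.symm

end FlowSys

end C7
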