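import Mathlib
import Pool.Agent.Lib.MP_c725eb_pr.Coal

/-!
# Every index is eventually not hit from the left
-/

set_option autoImplicit false

namespace C7

open MeasureTheory Filter Set
open scoped ENNReal NNReal Topology

/-- mass transport, inequality at one index -/
theorem mt_le {p : ℕ} (hp : p ≠ 0) {M : ℤ → ℤ → ℝ≥0∞}
    (hM : ∀ i j, M (i + p) (j + p) = M i j) (c : ℤ) :
    ∑' j : ℤ, M j c ≤ ∑ i : Fin p, ∑' j : ℤ, M ((i : ℕ) + c) j := by
  have h := mass_transport hp (M := fun i j => M (i + c) (j + c)) (fun i j => by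
    have h1 := hM (i + c) (j + c)
    rw [← h1]
    congr 1 <;> ring)
  have e1 : ∀ i : ℤ, ∑' j : ℤ, M (i + c) (j + c) = ∑' j : ℤ, M (i + c) j := fun i =>
    (Equiv.addRight c).tsum_eq (fun j => M (i + c) j)
  have e2 : ∀ i : ℤ, ∑' j : ℤ, M (j + c) (i + c) = ∑' j : ℤ, M j (i + c) := fun i =>
    (Equiv.addRight c).tsum_eq (fun j => M j (i + c))
  simp only [e1, e2] at h
  rw [h]
  have hpos : 0 < p := Nat.pos_of_ne_zero hp
  refine (le_of_eq ?_).trans (Finset.single_le_sum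
    (f := fun i : Fin p => ∑' j : ℤ, M j (((i : ℕ) : ℤ) + c)) (fun _ _ => by exact bot_le)
    (Finset.mem_univ (⟨0, hpos⟩ : Fin p)))
  simp

namespace FlowSys

variable {σ : ℤ} {K : ℝ≥0∞} {F : Measure ℝ} [IsProbabilityMeasure F]

/-- the probability that two neighbours have not met yet -/
noncomputable def gN (S : FlowSys σ K F) (N : ℕ) (y : ℤ) : ℝ≥0∞ :=
  iid Ed F {ω | S.v ω 0 N y ≠ S.v ω 0 N (y + 1)}

theorem gN_period (hσ : σ = 0 ∨ σ = 1) (S : FlowSys σ K F) (N : ℕ) (y : ℤ) :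
    S.gN N (y + (1 + σ)) = S.gN N y := by
  have hm : NullMeasurableSet {ω | S.v ω 0 N y ≠ S.v ω 0 N (y + 1)} (iid Ed F) :=
    (S.nms_eq (by omega) y (y + 1)).compl
  unfold gN
  rw [← (measurePreserving_shO F (av σ)).measure_preimage hm]
  refine measure_congr ?_
  filter_upwards [S.shift (av σ)] with ω h
  have h1 := h 0 N y (by omega)
  have h2 := h 0 N (y + 1) (by omega)
  have h3 : (((1 + σ).toNat : ℕ) : ℤ) = 1 + σ := by rcases hσ with rfl | rfl <;> rfl
  rw [ln_av, sub_zero, sub_zero, ix_av hσ, h3] at h1 h2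
  apply propext
  show S.v ω 0 N (y + (1 + σ)) ≠ S.v ω 0 N (y + (1 + σ) + 1) ↔
    S.v (shO (av σ) ω) 0 N y ≠ S.v (shO (av σ) ω) 0 N (y + 1)
  rw [show y + (1 + σ) + 1 = y + 1 + (1 + σ) by ring, ← h1, ← h2]
  constructor
  · intro h4 h5
    exact h4 (by rw [h5])
  · intro h4 h5
    exact h4 (by linarith)

theorem gN_le (hσ : σ = 0 ∨ σ = 1) (S : FlowSys σ K F) (N : ℕ) (y : ℤ) :
    S.gN N y ≤ ∑ r : Fin (1 + σ).toNat, S.gN N ((r : ℕ) : ℤ) := by
  have h := sum_period hσ (g := fun y => S.gN N y) (fun y => S.gN_period hσ N y) y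
  rw [← h]
  have hpos : 0 < (1 + σ).toNat := Nat.pos_of_ne_zero (shift_toNat_ne hσ)
  refine (le_of_eq ?_).trans (Finset.single_le_sum
    (f := fun i : Fin (1 + σ).toNat => S.gN N (((i : ℕ) : ℤ) + y)) (fun _ _ => by exact bot_le)
    (Finset.mem_univ (⟨0, hpos⟩ : Fin (1 + σ).toNat)))
  simp

theorem tendsto_gN (S : FlowSys σ K F) (hd : ∀ i, iid Ed F {ω | S.Dd ω 0 i} = 0) (y : ℤ) :
    Tendsto (fun N : ℕ => S.gN N y) atTop (𝓝 0) := by
  set D : ℕ → Set Om := fun N => ⋃ m : ℕ, ⋃ (_ : N ≤ m), {ω | S.v ω 0 m y ≠ S.v ω 0 m (y + 1)}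
    with hD
  have hDm : ∀ N, NullMeasurableSet (D N) (iid Ed F) := fun N =>
    NullMeasurableSet.iUnion fun m => NullMeasurableSet.iUnion fun _ =>
      (S.nms_eq (by omega) y (y + 1)).compl
  have hanti : Antitone D := by
    intro N N' hN ω hω
    simp only [hD, mem_iUnion] at hω ⊢
    obtain ⟨m, hm, h⟩ := hω
    exact ⟨m, hN.trans hm, h⟩
  have hnull : iid Ed F (⋂ N, D N) = 0 := by
    have h1 : ∀ᵐ ω ∂(iid Ed F), ω ∉ ⋂ N, D N := by
      have h2 : ∀ᵐ ω ∂(iid Ed F), ¬ S.Dd ω 0 y := by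
        rw [ae_iff]; simpa using hd y
      filter_upwards [h2, S.ae_reg] with ω h3 hreg h4
      apply h3
      intro N hN he
      rw [mem_iInter] at h4
      have h5 := h4 N.toNat
      simp only [hD, mem_iUnion] at h5
      obtain ⟨m, hm, h6⟩ := h5
      exact h6 (hreg.later hN (by omega) he)
    exact measure_eq_zero_iff_ae_notMem.mpr h1
  have htend := tendsto_measure_iInter_atTop (μ := iid Ed F) hDm hanti ⟨0, measure_ne_top _ _⟩
  rw [hnull] at htend
  refine tendsto_of_tendsto_of_tendsto_of_le_of_le tendsto_const_nhds htend (fun _ => by exact bot_le)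
    fun N => ?_
  refine measure_mono ?_
  intro ω hω
  exact mem_iUnion.mpr ⟨N, mem_iUnion.mpr ⟨le_rfl, hω⟩⟩

/-- the probability that an index is hit -/
theorem P_range_le (hσ : σ = 0 ∨ σ = 1) (S : FlowSys σ K F) (k : ℤ) (N : ℕ) (c : ℤ) :
    iid Ed F {ω | ∃ x, S.v ω (k - N) k x = c} ≤
      (1 + σ).toNat * ∑ r : Fin (1 + σ).toNat, S.gN N ((r : ℕ) : ℤ) := by
  set P := iid Ed F with hP
  set p : ℕ := (1 + σ).toNat with hp
  have hp' : ((p : ℕ) : ℤ) = 1 + σ := by rcases hσ with rfl | rfl <;> rfl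
  have hkk : k - N ≤ k := by omega
  -- shift by `av`
  have hsh : ∀ᵐ ω ∂P, ∀ x, S.v ω (k - N) k (x + p) = S.v (shO (av σ) ω) (k - N) k x + p := by
    filter_upwards [S.shift (av σ)] with ω h x
    have h1 := h (k - N) k x hkk
    rw [ln_av, sub_zero, sub_zero, ix_av hσ] at h1
    exact h1.symm
  -- finiteness of the preimages
  have hM1 : ∀ x i, P {ω | S.v ω (k - N) k (x + p) = i + p} = P {ω | S.v ω (k - N) k x = i} := by
    intro x i
    rw [← (measurePreserving_shO F (av σ)).measure_preimage (S.meas (k - N) k x i hkk)]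
    refine measure_congr ?_
    filter_upwards [hsh] with ω h
    apply propext
    show S.v ω (k - N) k (x + p) = i + p ↔ S.v (shO (av σ) ω) (k - N) k x = i
    rw [h x]
    exact add_left_inj _
  have hfin : ∀ᵐ ω ∂P, {x : ℤ | ω ∈ {ω | S.v ω (k - N) k x = c}}.Finite := by
    refine ae_finite_setOfPred_mem (ne_top_of_le_ne_top ?_ (mt_le (shift_toNat_ne hσ)
      (M := fun x i => P {ω | S.v ω (k - N) k x = i}) hM1 c))
    refine ENNReal.sum_ne_top.2 fun i _ => ?_
    refine ne_top_of_le_ne_top (measure_ne_top P univ) (tsum_measure_le_measure_univ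
      (fun j => S.meas (k - N) k _ j hkk) fun j j' hjj' => ?_)
    refine (Set.disjoint_left.mpr fun ω h1 h2 => hjj' ?_).aedisjoint
    exact (show S.v ω (k - N) k _ = j from h1).symm.trans h2
  -- the transport
  set E : ℤ → ℤ → Set Om := fun x i =>
    {ω | S.v ω (k - N) k x = i} ∩ {ω | S.v ω (k - N) k x ≠ S.v ω (k - N) k (x + 1)} with hE
  have hEm : ∀ x i, NullMeasurableSet (E x i) P := fun x i =>
    (S.meas (k - N) k x i hkk).inter (S.nms_eq hkk x (x + 1)).compl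
  have hM2 : ∀ x i, P (E (x + p) (i + p)) = P (E x i) := by
    intro x i
    rw [← (measurePreserving_shO F (av σ)).measure_preimage (hEm x i)]
    refine measure_congr ?_
    filter_upwards [hsh] with ω h
    apply propext
    show (S.v ω (k - N) k (x + p) = i + p ∧
      S.v ω (k - N) k (x + p) ≠ S.v ω (k - N) k (x + p + 1)) ↔
      (S.v (shO (av σ) ω) (k - N) k x = i ∧
        S.v (shO (av σ) ω) (k - N) k x ≠ S.v (shO (av σ) ω) (k - N) k (x + 1))
    rw [show x + (p : ℤ) + 1 = x + 1 + p by ring, h x, h (x + 1)]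
    constructor
    · rintro ⟨h1, h2⟩
      exact ⟨by linarith, fun h3 => h2 (by rw [h3])⟩
    · rintro ⟨h1, h2⟩
      exact ⟨by linarith, fun h3 => h2 (by linarith)⟩
  -- outgoing mass
  have hout : ∀ x, ∑' i : ℤ, P (E x i) ≤ ∑ r : Fin p, S.gN N ((r : ℕ) : ℤ) := by
    intro x
    refine le_trans ?_ (S.gN_le hσ N (x - ix σ ((k - N, 0) : V)))
    rw [← measure_iUnion₀ ?_ fun i => hEm x i]
    · have hm : NullMeasurableSet {ω | S.v ω 0 N (x - ix σ ((k - N, 0) : V)) ≠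
          S.v ω 0 N (x - ix σ ((k - N, 0) : V) + 1)} P := (S.nms_eq (by omega) _ _).compl
      unfold gN
      rw [← hP, ← (measurePreserving_shO F (k - N, 0)).measure_preimage hm, ← hP]
      refine measure_mono_ae ?_
      filter_upwards [S.shift (k - N, 0)] with ω h h1
      obtain ⟨i, h2⟩ := mem_iUnion.mp h1
      have h3 : S.v ω (k - N) k x ≠ S.v ω (k - N) k (x + 1) := h2.2
      have e1 : ln σ ((k - N, 0) : V) = k - N := by unfold ln; simp
      have h4 := h (k - N) k (x - ix σ ((k - N, 0) : V)) hkk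
      have h5 := h (k - N) k (x - ix σ ((k - N, 0) : V) + 1) hkk
      rw [e1, sub_self, sub_sub_cancel, sub_add_cancel] at h4
      rw [e1, sub_self, sub_sub_cancel, show x - ix σ ((k - N, 0) : V) + 1 +
        ix σ ((k - N, 0) : V) = x + 1 by ring] at h5
      intro h6
      apply h3
      rw [← h4, ← h5]
      exact congrArg (· + ix σ ((k - N, 0) : V)) h6
    · intro i i' hii'
      refine (Set.disjoint_left.mpr fun ω h1 h2 => hii' ?_).aedisjoint
      exact (show S.v ω (k - N) k _ = i from h1.1).symm.trans h2.1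
  calc P {ω | ∃ x, S.v ω (k - N) k x = c} ≤ P (⋃ x : ℤ, E x c) := by
        refine measure_mono_ae ?_
        filter_upwards [hfin] with ω hf h1
        obtain ⟨x, hx⟩ := h1
        obtain ⟨b, hb⟩ := hf.bddAbove
        obtain ⟨y, hy, hmax⟩ := Int.exists_greatest_of_bdd (P := fun y => S.v ω (k - N) k y = c)
          ⟨b, fun z hz => hb hz⟩ ⟨x, hx⟩
        refine mem_iUnion.mpr ⟨y, hy, fun h2 => ?_⟩
        have := hmax (y + 1) (by rw [← hy]; exact h2.symm)
        omega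
    _ ≤ ∑' x : ℤ, P (E x c) := measure_iUnion_le _
    _ ≤ ∑ i : Fin p, ∑' j : ℤ, P (E ((i : ℕ) + c) j) :=
        mt_le (shift_toNat_ne hσ) (M := fun x i => P (E x i)) hM2 c
    _ ≤ ∑ _i : Fin p, ∑ r : Fin p, S.gN N ((r : ℕ) : ℤ) := Finset.sum_le_sum fun i _ => hout _
    _ = p * ∑ r : Fin p, S.gN N ((r : ℕ) : ℤ) := by
        rw [Finset.sum_const, Finset.card_univ, Fintype.card_fin, nsmul_eq_mul]

/-- **Every index is eventually not hit from the left.** -/
theorem ae_A4 (hσ : σ = 0 ∨ σ = 1) (S : FlowSys σ K F)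
    (hg : ∀ᵐ ω ∂(iid Ed F), Good σ (wt ω) K) (hF : ∀ a, F {a} = 0) (hF0 : F (Iio 0) = 0) :
    ∀ᵐ ω ∂(iid Ed F), ∀ k c, ∃ k' ≤ k, ∀ x, S.v ω k' k x ≠ c := by
  rw [ae_all_iff]; intro k
  rw [ae_all_iff]; intro c
  rw [ae_iff]
  push Not
  have h1 : ∀ N : ℕ, iid Ed F {ω | ∀ k' ≤ k, ∃ x, S.v ω k' k x = c} ≤
      (1 + σ).toNat * ∑ r : Fin (1 + σ).toNat, S.gN N ((r : ℕ) : ℤ) := fun N =>
    (measure_mono fun ω (hω : ∀ k' ≤ k, ∃ x, S.v ω k' k x = c) =>
      (show ∃ x, S.v ω (k - N) k x = c from hω (k - N) (by omega))).trans (S.P_range_le hσ k N c)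
  have h2 : Tendsto (fun N : ℕ => ((1 + σ).toNat : ℝ≥0∞) *
      ∑ r : Fin (1 + σ).toNat, S.gN N ((r : ℕ) : ℤ)) atTop (𝓝 0) := by
    have h3 : Tendsto (fun N : ℕ => ∑ r : Fin (1 + σ).toNat, S.gN N ((r : ℕ) : ℤ)) atTop
        (𝓝 (∑ _r : Fin (1 + σ).toNat, (0 : ℝ≥0∞))) :=
      tendsto_finsetSum _ fun r _ => S.tendsto_gN (fun i => S.P_dd hσ hg hF hF0 0 i) _
    rw [Finset.sum_const_zero] at h3
    have h4 := ENNReal.Tendsto.const_mul (a := ((1 + σ).toNat : ℝ≥0∞)) h3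
      (Or.inr (ENNReal.natCast_ne_top _))
    rwa [mul_zero] at h4
  exact le_antisymm (ge_of_tendsto' h2 h1) (by exact bot_le)

end FlowSys

end C7
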