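import Pool.Agent.Lib.MP_c725eb_pr.AsmD
import Pool.Agent.Lib.MP_c725eb_pr.A0

/-!
# Assembly of the case of strict convexity
-/

set_option autoImplicit false

namespace C7

open MeasureTheory Filter Set
open scoped ENNReal Topology

section

variable {K : ℝ≥0∞} {F : Measure ℝ} [IsProbabilityMeasure F]

/-- Domination from below of the increments of the horizontal targets by the class `a`. -/
theorem ae_dom_hor_a (hK : SmallK F K) (hF : ∀ a, F {a} = 0) (hF0 : F (Iio 0) = 0) :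
    ∀ᵐ ω ∂(iid Ed F), ∀ (k i : ℤ) (δ : ℝ), 0 < δ → ∀ᶠ n : ℕ in atTop,
      mv 0 (alo 0 K) k i (wt ω) - δ ≤
        tpot 0 K (wt ω) ((n : ℤ), 0) k i - tpot 0 K (wt ω) ((n : ℤ), 0) k (i + 1) := by
  have hσ : (0 : ℤ) = 0 ∨ (0 : ℤ) = 1 := Or.inl rfl
  refine ae_of_ae_gO (aut_rf hσ) (P := fun ω => ∀ (k i : ℤ) (δ : ℝ), 0 < δ → ∀ᶠ n : ℕ in atTop,
    mv 0 (alo 0 K) k i (wt ω) - δ ≤
        tpot 0 K (wt ω) ((n : ℤ), 0) k i - tpot 0 K (wt ω) ((n : ℤ), 0) k (i + 1)) ?_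
  filter_upwards [ae_cfg hK hσ hF hF0, ae_tgt hK hσ, ae_alo_mirror hK] with ω h1 h2 h3 k i δ hδ
  rw [wt_gO_rf hσ]
  filter_upwards [dom_hor h1 h2 k (-i - 1) hδ] with n hn
  have e : rf 0 (((n : ℤ), 0) : V) = ((n : ℤ), 0) := by rw [rf_zero]; simp
  have e1 := tpot_rfw (K := K) h1.hw hσ ((n : ℤ), 0) k i
  have e2 := tpot_rfw (K := K) h1.hw hσ ((n : ℤ), 0) k (i + 1)
  rw [e] at e1 e2
  rw [h3, e1, e2, show -(i + 1) = -i - 1 by ring]
  rw [show -i - 1 + 1 = -i by ring] at hn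
  linarith

/-- **THE CASE OF STRICT CONVEXITY**. -/
theorem nondiamond_case (hK : SmallK F K) (hF : ∀ a, F {a} = 0) (hF0 : F (Iio 0) = 0)
    (hd : rho 0 F K (1, 1) < 2 * rho 0 F K (1, 0)) :
    ∀ᵐ ω ∂(iid Ed F), ∀ (v : V) (𝓤 : Ultrafilter ℕ), (𝓤 : Filter ℕ) ≤ atTop → ¬ OnG (wt ω) v 𝓤 := by
  have hσ : (0 : ℤ) = 0 ∨ (0 : ℤ) = 1 := Or.inl rfl
  have H := xh_zero hK hF hF0 hd
  have hga := ae_genG_alo_zero hK hF hF0 hd
  -- tightness
  obtain ⟨j, L, hL⟩ := nondiamond_lo hK hd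
  obtain ⟨j', L', hL'⟩ := nondiamond_up hK hd
  have hDir : Dir 0 (ub j) := ⟨by unfold ub; simp only; omega, fun _ => ⟨by
    unfold ub; simp only; omega, by unfold ub; simp only; omega⟩, fun h => absurd h (by norm_num)⟩
  have t1 := ae_tig_up hK hσ hDir (by unfold ub; simp only; omega) hL
  have t2 := ae_tig_down hK (u := ((j' : ℤ) + 2, -1)) (by simp only; omega) (by simp only; omega)
    (by simp only; omega) hL'
  have htg : ∀ᵐ ω ∂(iid Ed F), TgOn 0 K (wt ω) := by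
    filter_upwards [t1, t2] with ω h1 h2 v 𝓤 h𝓤 hon l
    exact tgt_of_tig ((h1 v l).mono h𝓤) ((h2 v l).mono h𝓤)
  have hPD := ae_PD (xsys H) (ae_cfg hK hσ hF hF0) (fun _ _ _ _ _ => rfl) (fun _ _ _ _ _ => rfl)
    (fun _ _ _ _ _ _ => rfl) (xsys_incr H) (xsys_frel H) (ae_tgt hK hσ)
    (fun h => absurd h (by norm_num)) htg
  have hno := no_path hσ (xsys H)
    (flowG 0 K (alo 0 K) F hK hσ (adm_alo 0 K) (loc_alo 0 K) hga (abs_EV_alo_zero hK hd))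
    (Eventually.of_forall fun _ _ _ _ => rfl)
    (by
      filter_upwards [hga] with ω h
      exact uniqArg_of_flw h.cfg h.flw fun k l x hkl => h.en hkl x)
    (ae_good_wt hK hσ) hF hF0
  filter_upwards [hPD, hno, ae_dom_hor_a hK hF hF0, hga] with ω h1 h2 h3 h4 v 𝓤 h𝓤 hon
  obtain ⟨z, κ, p1, -, p2⟩ := h1 v 𝓤 h𝓤 hon
  refine h2 z κ p1 fun k i => ?_
  have e : phG 0 K (alo 0 K) ω k i - phG 0 K (alo 0 K) ω k (i + 1) = mv 0 (alo 0 K) k i (wt ω) :=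
    phG_sub_succ (h4.gd k) i
  change phG 0 K (alo 0 K) ω k i - phG 0 K (alo 0 K) ω k (i + 1) ≤ _
  rw [e]
  refine le_of_forall_pos_le_add fun δ hδ => ?_
  have h5 := ge_of_tendsto (p2 k i (i + 1)) (h𝓤 (h3 k i δ hδ))
  linarith

end

end C7
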