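import Pool.Agent.Lib.MP_c725eb_pr.Coer

/-!
# Drift of the moved functionals along the lines, and events which occur infinitely often
-/

set_option autoImplicit false

namespace C7

open MeasureTheory Filter Set
open scoped ENNReal Topology

/-! ### events of probability tending to one -/

section freq

variable {Ω : Type*} [MeasurableSpace Ω] {P : Measure Ω}

theorem ae_frequently_of_tendsto {B : ℕ → Set Ω} (h : Tendsto (fun m => P (B m)) atTop (𝓝 0)) :
    ∀ᵐ ω ∂P, ∃ᶠ m in atTop, ω ∉ B m := by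
  have h1 : P (⋃ N : ℕ, ⋂ m ≥ N, B m) = 0 := by
    refine measure_iUnion_null fun N => le_antisymm ?_ zero_le
    refine ge_of_tendsto h ?_
    filter_upwards [eventually_ge_atTop N] with m hm
    exact measure_mono (biInter_subset_of_mem (by exact hm))
  rw [ae_iff]
  refine measure_mono_null (fun ω hω => ?_) h1
  simp only [mem_ofPred_eq, not_frequently, not_not] at hω
  obtain ⟨N, hN⟩ := eventually_atTop.1 hω
  exact mem_iUnion.2 ⟨N, mem_iInter₂.2 hN⟩

theorem tendsto_bad [IsProbabilityMeasure P] {A : ℕ → Set Ω} (hA : Monotone A)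
    (hAm : ∀ B, MeasurableSet (A B)) (hall : ∀ᵐ ω ∂P, ∃ B, ω ∈ A B) {θ : ℕ → Ω → Ω}
    (hθ : ∀ m, MeasurePreserving (θ m) P P) {f : ℕ → ℕ} (hf : Tendsto f atTop atTop) :
    Tendsto (fun m => P (θ m ⁻¹' (A (f m))ᶜ)) atTop (𝓝 0) := by
  have h1 : Tendsto (fun B => P (A B)ᶜ) atTop (𝓝 (P (⋂ B, (A B)ᶜ))) :=
    tendsto_measure_iInter_atTop (fun B => (hAm B).compl.nullMeasurableSet)
      (fun _ _ h => compl_subset_compl.2 (hA h)) ⟨0, measure_ne_top _ _⟩
  have h2 : P (⋂ B, (A B)ᶜ) = 0 := by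
    rw [← compl_iUnion]
    rw [← compl_mem_ae_iff, compl_compl]
    filter_upwards [hall] with ω hω
    exact mem_iUnion.2 hω
  rw [h2] at h1
  refine (h1.comp hf).congr fun m => ?_
  exact ((hθ m).measure_preimage (hAm _).compl.nullMeasurableSet).symm

end freq

/-! ### drift -/

/-- Drift of a potential from the index `a` in the direction `s`. -/
def DrE (f : ℤ → ℝ) (a s : ℤ) (c C : ℝ) : Prop :=
  ∀ j : ℤ, 0 ≤ s * (j - a) → -(pot f j - pot f a) ≤ c * |((j - a : ℤ) : ℝ)| + C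

theorem DrE.mono {f : ℤ → ℝ} {a s : ℤ} {c C C' : ℝ} (h : DrE f a s c C) (hC : C ≤ C') : DrE f a s c C' :=
  fun j hj => (h j hj).trans (by linarith)

theorem DrE.anchor {f : ℤ → ℝ} {M : ℝ} (hf : ∀ i, |f i| ≤ M) {b s : ℤ} (hs : s = 1 ∨ s = -1) {c C : ℝ}
    (h : DrE f b s c C) (a : ℤ) : DrE f a s c (|C| + (|c| + M) * |((a - b : ℤ) : ℝ)|) := by
  have hM : 0 ≤ M := (abs_nonneg _).trans (hf 0)
  have hab := abs_pot_sub_le hf a b
  have e1 : |((b - a : ℤ) : ℝ)| = |((a - b : ℤ) : ℝ)| := by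
    rw [← abs_neg]; congr 1; push_cast; ring
  rw [e1] at hab
  have hab' := abs_le.1 hab
  intro j hj
  by_cases hjb : 0 ≤ s * (j - b)
  · have h1 := h j hjb
    have h2 : c * |((j - b : ℤ) : ℝ)| ≤ c * |((j - a : ℤ) : ℝ)| + |c| * |((a - b : ℤ) : ℝ)| := by
      have h3 : |(|((j - b : ℤ) : ℝ)| - |((j - a : ℤ) : ℝ)|)| ≤ |((a - b : ℤ) : ℝ)| := by
        refine (abs_abs_sub_abs_le _ _).trans (le_of_eq ?_)
        congr 1; push_cast; ring
      have h4 : c * (|((j - b : ℤ) : ℝ)| - |((j - a : ℤ) : ℝ)|) ≤ |c| * |((a - b : ℤ) : ℝ)| :=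
        calc c * (|((j - b : ℤ) : ℝ)| - |((j - a : ℤ) : ℝ)|)
            ≤ |c * (|((j - b : ℤ) : ℝ)| - |((j - a : ℤ) : ℝ)|)| := le_abs_self _
          _ = |c| * |(|((j - b : ℤ) : ℝ)| - |((j - a : ℤ) : ℝ)|)| := abs_mul _ _
          _ ≤ |c| * |((a - b : ℤ) : ℝ)| := mul_le_mul_of_nonneg_left h3 (abs_nonneg _)
      linarith
    have h5 := le_abs_self C
    linarith [hab'.1, hab'.2]
  · push Not at hjb
    have hja : |((j - a : ℤ) : ℝ)| ≤ |((a - b : ℤ) : ℝ)| := by
      have : |j - a| ≤ |a - b| := by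
        rcases hs with rfl | rfl
        · have h1 : a ≤ j := by linarith
          have h2 : j < b := by linarith
          rw [abs_of_nonneg (by omega), abs_of_nonpos (by omega)]
          omega
        · have h1 : j ≤ a := by linarith
          have h2 : b < j := by linarith
          rw [abs_of_nonpos (by omega), abs_of_nonneg (by omega)]
          omega
      exact_mod_cast this
    have h1 := abs_le.1 (abs_pot_sub_le hf a j)
    have h2 : M * |((j - a : ℤ) : ℝ)| ≤ M * |((a - b : ℤ) : ℝ)| := mul_le_mul_of_nonneg_left hja hM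
    have h3 : -(|c| * |((a - b : ℤ) : ℝ)|) ≤ c * |((j - a : ℤ) : ℝ)| := by
      have h4 : abs (c * |((j - a : ℤ) : ℝ)|) ≤ |c| * |((a - b : ℤ) : ℝ)| := by
        rw [abs_mul, abs_abs]
        exact mul_le_mul_of_nonneg_left hja (abs_nonneg _)
      exact (abs_le.1 h4).1
    have h5 := abs_nonneg C
    linarith [h1.1, h1.2]

section ae

variable {F : Measure ℝ} [IsProbabilityMeasure F] {σ : ℤ} (hσ : σ = 0 ∨ σ = 1)

include hσ

/-- Drift along all lines, in both directions. -/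
theorem ae_drift {g : ℤ → W → ℝ} {M : ℝ} (hg : Adm g M) {s : ℤ} (hs : s = 1 ∨ s = -1) {c : ℝ}
    (hc : s * EV σ F g < c) :
    ∀ᵐ ω ∂(iid Ed F), ∀ l a : ℤ, ∃ C : ℕ, DrE (fun i => mv σ g l i (wt ω)) a s (c / (1 + σ)) C := by
  -- the direction
  obtain ⟨d, hd, hd0, hix, hint⟩ : ∃ d : V, ln σ d = 0 ∧ d ≠ 0 ∧ ix σ d = s * (1 + σ) ∧
      ∫ ω, -pot (fun i => mv σ g 0 i (wt ω)) (ix σ d) ∂(iid Ed F) = s * EV σ F g := by
    rcases hs with rfl | rfl
    · refine ⟨vert σ, ln_vert σ, vert_ne_zero σ, by rw [ix_vert hσ, one_mul], ?_⟩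
      rw [ix_vert hσ]
      unfold EV
      simp
    · refine ⟨-vert σ, by rw [ln_neg, ln_vert, neg_zero], neg_ne_zero.2 (vert_ne_zero σ),
        by rw [ix_neg, ix_vert hσ]; ring, ?_⟩
      rw [integral_pot_neg hσ hg]
      simp
  have hσ1 : (1 : ℝ) ≤ 1 + σ := by rcases hσ with rfl | rfl <;> norm_num
  have hσ2 : (1 : ℤ) ≤ 1 + σ := by omega
  have hbound : ∀ ω : Om, |-pot (fun i => mv σ g 0 i (wt ω)) (ix σ d)| ≤ M * |((ix σ d : ℤ) : ℝ)| := by
    intro ω
    have h := abs_pot_sub_le (fun i => hg.mv_le σ 0 i (wt ω)) 0 (ix σ d)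
    rw [pot_zero, zero_sub, sub_zero] at h
    exact h
  have hbk := birkhoff_le (ergodic_shO F hd0) (ξ := fun ω => -pot (fun i => mv σ g 0 i (wt ω)) (ix σ d))
    (measurable_pot (fun i => hg.measurable_mv σ 0 i) _).neg hbound (c := c) (by rw [hint]; exact hc)
  -- the base line
  have hbase : ∀ᵐ ω ∂(iid Ed F), ∃ C : ℝ, DrE (fun i => mv σ g 0 i (wt ω)) 0 s (c / (1 + σ)) C := by
    filter_upwards [hbk] with ω h1
    obtain ⟨N, hN⟩ := eventually_atTop.1 h1
    set β := fun i => mv σ g 0 i (wt ω) with hβ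
    have hM := hg.nonneg
    have hβM : ∀ i, |β i| ≤ M := fun i => hg.mv_le σ 0 i _
    refine ⟨|c| + M * (1 + σ) + (|c| + M * (1 + σ)) * (N + 1), fun j hj => ?_⟩
    rw [sub_zero] at hj ⊢
    rw [pot_zero, sub_zero]
    set n : ℕ := j.natAbs / (1 + σ).toNat with hn
    have hper : ((1 + σ).toNat : ℤ) = 1 + σ := Int.toNat_of_nonneg (by omega)
    have hpos : 0 < (1 + σ).toNat := by omega
    have hn1 : n * (1 + σ).toNat ≤ j.natAbs := Nat.div_mul_le_self _ _
    have hn2 : j.natAbs < (n + 1) * (1 + σ).toNat := by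
      have := Nat.lt_succ_iff.2 (le_refl (j.natAbs / (1 + σ).toNat))
      rw [Nat.div_lt_iff_lt_mul hpos] at this
      simpa [hn] using this
    have hn1' : (n : ℤ) * (1 + σ) ≤ |j| := by
      rw [← hper, Int.abs_eq_natAbs]; exact_mod_cast hn1
    have hn2' : |j| < ((n : ℤ) + 1) * (1 + σ) := by
      rw [← hper, Int.abs_eq_natAbs]; exact_mod_cast hn2
    have habs : |j| = s * j := by
      rcases hs with rfl | rfl
      · rw [one_mul] at hj ⊢; exact abs_of_nonneg hj
      · rw [abs_of_nonpos (by linarith)]; ring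
    have hdist : |((n : ℤ) * ix σ d - j)| ≤ 1 + σ := by
      rw [hix]
      rcases hs with rfl | rfl
      · rw [habs] at hn1' hn2'
        rw [abs_le]; constructor <;> nlinarith
      · rw [habs] at hn1' hn2'
        rw [abs_le]; constructor <;> nlinarith
    have hdistR : |(((n : ℤ) * ix σ d - j : ℤ) : ℝ)| ≤ 1 + σ := by
      have : ((|((n : ℤ) * ix σ d - j)| : ℤ) : ℝ) ≤ ((1 + σ : ℤ) : ℝ) := by exact_mod_cast hdist
      push_cast at this ⊢
      exact this
    have hjR : |(j : ℝ)| ≤ ((n : ℝ) + 1) * (1 + σ) := by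
      have : ((|j| : ℤ) : ℝ) ≤ ((((n : ℤ) + 1) * (1 + σ) : ℤ) : ℝ) := by exact_mod_cast hn2'.le
      push_cast at this
      exact this
    have hjL : (n : ℝ) * (1 + σ) ≤ |(j : ℝ)| := by
      have : (((n : ℤ) * (1 + σ) : ℤ) : ℝ) ≤ ((|j| : ℤ) : ℝ) := by exact_mod_cast hn1'
      push_cast at this
      exact this
    -- c n is close to c / (1 + σ) |j|
    have hcn : c * n ≤ c / (1 + σ) * |(j : ℝ)| + |c| := by
      have e : c / (1 + σ) * |(j : ℝ)| = c * (|(j : ℝ)| / (1 + σ)) := by ring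
      have h2 : |(n : ℝ) - |(j : ℝ)| / (1 + σ)| ≤ 1 := by
        have h3 : (n : ℝ) ≤ |(j : ℝ)| / (1 + σ) := by rw [le_div_iff₀ (by linarith)]; exact hjL
        have h4 : |(j : ℝ)| / (1 + σ) ≤ n + 1 := by rw [div_le_iff₀ (by linarith)]; exact hjR
        rw [abs_le]; constructor <;> linarith
      have h3 : c * (n - |(j : ℝ)| / (1 + σ)) ≤ |c| * 1 :=
        (le_abs_self _).trans (by rw [abs_mul]; exact mul_le_mul_of_nonneg_left h2 (abs_nonneg _))
      rw [e]; linarith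
    have h4 := abs_pot_sub_le hβM j (n * ix σ d)
    have h5 : M * |(((n : ℤ) * ix σ d - j : ℤ) : ℝ)| ≤ M * (1 + σ) :=
      mul_le_mul_of_nonneg_left hdistR hM
    have h6 := abs_le.1 (h4.trans h5)
    have e0 : ((j : ℤ) : ℝ) = (j : ℝ) := rfl
    by_cases hnN : N ≤ n
    · have h2 := hN n hnN
      rw [bs_pot hσ g hd] at h2
      have : (fun i => mv σ g 0 i (wt ω)) = β := rfl
      rw [this] at h2
      have h7 : 0 ≤ (|c| + M * (1 + (σ : ℝ))) * ((N : ℝ) + 1) := by
        have := abs_nonneg c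
        positivity
      linarith [h6.1, h6.2]
    · push Not at hnN
      have hnN' : (n : ℝ) + 1 ≤ N + 1 := by
        have : (n : ℝ) ≤ N := by exact_mod_cast hnN.le
        linarith
      have h7 := abs_pot_sub_le hβM 0 j
      rw [pot_zero, zero_sub, sub_zero, abs_neg] at h7
      have h8 := (abs_le.1 h7).1
      have h9 : M * |(j : ℝ)| ≤ M * (1 + σ) * (N + 1) := by
        calc M * |(j : ℝ)| ≤ M * (((n : ℝ) + 1) * (1 + σ)) := mul_le_mul_of_nonneg_left hjR hM
          _ = M * (1 + σ) * (n + 1) := by ring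
          _ ≤ M * (1 + σ) * (N + 1) := mul_le_mul_of_nonneg_left hnN' (by positivity)
      have h10 : -(|c| * (N + 1)) ≤ c / (1 + σ) * |(j : ℝ)| := by
        have h11 : abs (c / (1 + σ) * |(j : ℝ)|) ≤ |c| * (N + 1) := by
          rw [abs_mul, abs_abs, abs_div, abs_of_nonneg (show (0 : ℝ) ≤ 1 + σ by linarith), div_mul_eq_mul_div,
            div_le_iff₀ (by linarith), mul_assoc]
          refine mul_le_mul_of_nonneg_left (hjR.trans ?_) (abs_nonneg _)
          exact mul_le_mul_of_nonneg_right hnN' (by linarith)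
        exact (abs_le.1 h11).1
      have h12 : 0 ≤ M * (1 + (σ : ℝ)) := by positivity
      have h13 := abs_nonneg c
      linarith
  rw [ae_all_iff]
  intro l
  have h1 := (measurePreserving_shO F (ss σ l 0)).quasiMeasurePreserving.ae hbase
  filter_upwards [h1] with ω ⟨C, hC⟩ a
  have hln : ln σ (ss σ l 0) = l := ln_ss hσ l 0
  have h2 : DrE (fun i => mv σ g l i (wt ω)) (ix σ (ss σ l 0)) s (c / (1 + σ)) C := by
    intro j hj
    have h3 := hC (j - ix σ (ss σ l 0)) (by rwa [sub_zero])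
    rw [pot_mv_shO hσ, pot_mv_shO hσ, zero_add, hln, sub_zero, sub_add_cancel, zero_add] at h3
    linarith
  have h3 := h2.anchor (fun i => hg.mv_le σ l i (wt ω)) hs a
  obtain ⟨C', hC'⟩ := exists_nat_ge (|C| + (|c / (1 + σ)| + M) * |((a - ix σ (ss σ l 0) : ℤ) : ℝ)|)
  exact ⟨C', h3.mono hC'⟩

omit hσ in
theorem measurableSet_drE {g : ℤ → W → ℝ} {M : ℝ} (hg : Adm g M) (l a s : ℤ) (c C : ℝ) :
    MeasurableSet {ω : Om | DrE (fun i => mv σ g l i (wt ω)) a s c C} := by
  have e : {ω : Om | DrE (fun i => mv σ g l i (wt ω)) a s c C} =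
      ⋂ j ∈ {j : ℤ | 0 ≤ s * (j - a)}, {ω : Om | -(pot (fun i => mv σ g l i (wt ω)) j -
        pot (fun i => mv σ g l i (wt ω)) a) ≤ c * |((j - a : ℤ) : ℝ)| + C} := by
    ext ω
    simp only [DrE, mem_ofPred_eq, mem_iInter]
  rw [e]
  refine MeasurableSet.biInter (Set.to_countable _) fun j _ => ?_
  exact measurableSet_le ((measurable_pot (fun i => hg.measurable_mv σ l i) _).sub
    (measurable_pot (fun i => hg.measurable_mv σ l i) _)).neg measurable_const

/-- The drift event for shifts which preserve the indices. -/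
theorem drE_shO {g : ℤ → W → ℝ} {d : V} (hd : ix σ d = 0) (l a s : ℤ) (c C : ℝ) (ω : Om) :
    DrE (fun i => mv σ g l i (wt (shO d ω))) a s c C ↔
      DrE (fun i => mv σ g (l + ln σ d) i (wt ω)) a s c C := by
  unfold DrE
  simp only [pot_mv_shO hσ, hd, add_zero, sub_sub_sub_cancel_right]

end ae

end C7
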