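import Pool.Agent.Lib.MP_c725eb_pr.ClsRefl
import Pool.Agent.Lib.MP_c725eb_pr.Drift

/-!
# Label inputs of the final arguments
-/

set_option autoImplicit false

namespace C7

open MeasureTheory Filter Set
open scoped ENNReal Topology

section lab

variable {F : Measure ℝ} [IsProbabilityMeasure F] {K : ℝ≥0∞} (hK : SmallK F K) {σ : ℤ}
  (hσ : σ = 0 ∨ σ = 1)

include hK hσ

theorem tendsto_EV_Glo_ub :
    Tendsto (fun j : ℕ => EV σ F (Glo σ K (ub j))) atTop (𝓝 (EV σ F (blo σ K))) := by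
  rw [EV_eq hσ (adm_blo σ K)]
  have h : ∀ j : ℕ, EV σ F (Glo σ K (ub j)) =
      ∑ i ∈ Finset.range (per σ), ∫ ω, Glo σ K (ub j) i (wt ω) ∂(iid Ed F) := fun j =>
    EV_eq hσ (adm_Glo σ K (ub j))
  simp only [h]
  exact tendsto_finsetSum _ fun i _ => tendsto_int_Glo_ub hK hσ i

theorem exists_lo_lt {c : ℝ} (h : EV σ F (blo σ K) < c) :
    ∃ j L : ℕ, EV σ F (glo σ K (ub j) L) < c := by
  obtain ⟨j, hj⟩ := ((tendsto_EV_Glo_ub (F := F) hK hσ).eventually (eventually_lt_nhds h)).exists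
  obtain ⟨L, hL⟩ := ((tendsto_EV_glo (F := F) hK hσ (dup_ub σ j).toDlo).eventually
    (eventually_lt_nhds hj)).exists
  exact ⟨j, L, hL⟩

omit hK in
/-- Functionals with the same mean which are ordered are equal. -/
theorem ae_eq_of_per {f g : ℤ → W → ℝ} {M : ℝ} (hf : Adm f M) (hg : Adm g M)
    (hle : ∀ᵐ ω ∂(iid Ed F), ∀ i, g i (wt ω) ≤ f i (wt ω))
    (hpf : ∀ i, ∫ ω, f (i + (1 + σ)) (wt ω) ∂(iid Ed F) = ∫ ω, f i (wt ω) ∂(iid Ed F))
    (hpg : ∀ i, ∫ ω, g (i + (1 + σ)) (wt ω) ∂(iid Ed F) = ∫ ω, g i (wt ω) ∂(iid Ed F))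
    (hEV : EV σ F f ≤ EV σ F g) : ∀ᵐ ω ∂(iid Ed F), ∀ i : ℤ, f i (wt ω) = g i (wt ω) := by
  have hif : ∀ i, Integrable (fun ω => f i (wt ω)) (iid Ed F) := fun i =>
    integrable_of_abs (hf.meas wt measurable_wt3 i) fun ω => hf.bdd i (wt ω)
  have hig : ∀ i, Integrable (fun ω => g i (wt ω)) (iid Ed F) := fun i =>
    integrable_of_abs (hg.meas wt measurable_wt3 i) fun ω => hg.bdd i (wt ω)
  set e : ℤ → ℝ := fun i => ∫ ω, f i (wt ω) ∂(iid Ed F) - ∫ ω, g i (wt ω) ∂(iid Ed F) with he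
  have hpos : ∀ i, 0 ≤ e i := by
    intro i
    have : ∫ ω, g i (wt ω) ∂(iid Ed F) ≤ ∫ ω, f i (wt ω) ∂(iid Ed F) :=
      integral_mono_ae (hig i) (hif i) (hle.mono fun ω h => h i)
    simp only [he]
    linarith
  have hper : ∀ i, e (i + (1 + σ)) = e i := fun i => by
    simp only [he]
    rw [hpf, hpg]
  have hsum : ∑ i ∈ Finset.range (per σ), e i ≤ 0 := by
    rw [EV_eq hσ hf, EV_eq hσ hg] at hEV
    simp only [he, Finset.sum_sub_distrib]
    linarith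
  have h0 : ∀ i : ℕ, i < per σ → e i = 0 := by
    intro i hi
    have h1 : e i ≤ ∑ i ∈ Finset.range (per σ), e i :=
      Finset.single_le_sum (f := fun i : ℕ => e i) (fun j _ => hpos j) (Finset.mem_range.2 hi)
    have := hpos i
    linarith
  have hper' : ∀ (n : ℤ) (i : ℤ), e (i + n * (1 + σ)) = e i := by
    intro n
    induction n using Int.induction_on with
    | zero => intro i; simp
    | succ n ih =>
      intro i
      rw [show i + ((n : ℤ) + 1) * (1 + σ) = (i + n * (1 + σ)) + (1 + σ) by ring, hper, ih]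
    | pred n ih =>
      intro i
      rw [← hper (i + (-(n : ℤ) - 1) * (1 + σ)),
        show i + (-(n : ℤ) - 1) * (1 + σ) + (1 + σ) = i + -(n : ℤ) * (1 + σ) by ring, ih]
  have hall : ∀ i, e i = 0 := by
    intro i
    have h1 : (0 : ℤ) < 1 + σ := by omega
    have h2 := Int.emod_nonneg i h1.ne'
    have h3 := Int.emod_lt_of_pos i h1
    have h4 := Int.emod_add_mul_ediv i (1 + σ)
    have h5 := hper' (i / (1 + σ)) (i % (1 + σ))
    rw [mul_comm (i / (1 + σ)), h4] at h5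
    rw [h5]
    have h6 := h0 (i % (1 + σ)).toNat (by
      have := per_cast hσ
      omega)
    rwa [Int.toNat_of_nonneg h2] at h6
  rw [ae_all_iff]
  intro i
  have h1 : 0 ≤ᵐ[iid Ed F] fun ω => f i (wt ω) - g i (wt ω) :=
    hle.mono fun ω h => sub_nonneg.2 (h i)
  have h2 : ∫ ω, (f i (wt ω) - g i (wt ω)) ∂(iid Ed F) = 0 := by
    rw [integral_sub (hif i) (hig i)]
    exact hall i
  have h3 := (integral_eq_zero_iff_of_nonneg_ae h1 ((hif i).sub (hig i))).1 h2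
  filter_upwards [h3] with ω hω
  have : f i (wt ω) - g i (wt ω) = 0 := hω
  linarith

end lab

theorem dlo_one_two : Dlo 1 ((1, 2) : V) :=
  ⟨by norm_num, by norm_num, fun h => absurd h (by norm_num)⟩

section fin

variable {F : Measure ℝ} [IsProbabilityMeasure F] {K : ℝ≥0∞} (hK : SmallK F K)

include hK

/-- Non-diamond case: lower walls. -/
theorem nondiamond_lo (h : rho 0 F K (1, 1) < 2 * rho 0 F K (1, 0)) :
    ∃ j L : ℕ, EV 0 F (glo 0 K (ub j) L) < rho 0 F K (vert 0) := by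
  refine exists_lo_lt hK (Or.inl rfl) ?_
  have := nondiamond hK h (ε := 1) (Or.inl rfl)
  simpa using this

/-- Non-diamond case: upper walls. -/
theorem nondiamond_up (h : rho 0 F K (1, 1) < 2 * rho 0 F K (1, 0)) :
    ∃ j L : ℕ, -EV 0 F (gup 0 K ((j : ℤ) + 2, -1) L) < rho 0 F K (vert 0) := by
  have h0 : (0 : ℤ) = 0 ∨ (0 : ℤ) = 1 := Or.inl rfl
  obtain ⟨j, L, hL⟩ := nondiamond_lo hK h
  have hu : Dup 0 (((j : ℤ) + 2, -1) : V) := by
    have := Int.natCast_nonneg j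
    exact ⟨⟨by simp only; omega, by simp only; omega, fun _ => by simp only; omega⟩,
      fun h => absurd h (by norm_num)⟩
  have e : rf 0 (((j : ℤ) + 2, -1) : V) = ub j := by
    rw [rf_zero]
    unfold ub
    simp
  refine ⟨j, L + 1, ?_⟩
  rw [← EV_glo_rf hK h0 hu L, e]
  exact hL

/-- Diamond case: lower walls. -/
theorem diamond_lo (h : rho 1 F K (1, 1) = 2 * rho 1 F K (1, 0)) (hμ : 0 < rho 1 F K (1, 0)) :
    ∃ j L : ℕ, EV 1 F (glo 1 K (ub j) L) < rho 1 F K (vert 1) := by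
  refine exists_lo_lt hK (Or.inr rfl) ?_
  have := diamond hK h hμ 1
  simpa using this

/-- Diamond case: the classes of the slopes `2` and `1/2` have small drift. -/
theorem hlab_diamond (h : rho 1 F K (1, 1) = 2 * rho 1 F K (1, 0)) :
    ∀ δ > 0, ∃ L L' : ℕ, EV 1 F (glo 1 K (1, 2) L) < δ ∧ -EV 1 F (gup 1 K (2, 1) L') < δ := by
  intro δ hδ
  obtain ⟨L, h1, h2⟩ := (zero_drift hK h (half_pos hδ)).exists
  exact ⟨L, L, by linarith, by linarith⟩

theorem EV_Glo_one_two : EV 1 F (Glo 1 K (1, 2)) = -EV 1 F (Gup 1 K (2, 1)) := by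
  have h1 : (1 : ℤ) = 0 ∨ (1 : ℤ) = 1 := Or.inr rfl
  have hu : Dup 1 ((2, 1) : V) := dup_ub 1 0
  have e : ((1, 2) : V) = rf 1 (2, 1) := by rw [rf_one]
  have t1 := tendsto_EV_glo (F := F) hK h1 (hu.rf h1)
  have t2 := ((tendsto_EV_gup (F := F) hK h1 hu).comp (tendsto_add_atTop_nat 1)).neg
  rw [e]
  exact tendsto_nhds_unique t1 (t2.congr fun L => (EV_glo_rf hK h1 hu L).symm)

/-- Diamond case: the classes of the slopes `1/2` and `2` are equal to `b`. -/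
theorem hcls_diamond (h : rho 1 F K (1, 1) = 2 * rho 1 F K (1, 0)) :
    ∀ᵐ ω ∂(iid Ed F), ∀ i : ℤ, Glo 1 K (1, 2) i (wt ω) = blo 1 K i (wt ω) ∧
      Gup 1 K (2, 1) i (wt ω) = blo 1 K i (wt ω) := by
  have h1 : (1 : ℤ) = 0 ∨ (1 : ℤ) = 1 := Or.inr rfl
  have hu : Dup 1 ((2, 1) : V) := dup_ub 1 0
  have hle1 : ∀ᵐ ω ∂(iid Ed F), ∀ i, blo 1 K i (wt ω) ≤ Gup 1 K (2, 1) i (wt ω) := by
    filter_upwards [ae_blo_eq_bup (F := F) hK h1] with ω hω i
    rw [hω]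
    exact bup_le_Gup_ub 0 i
  have hle2 : ∀ᵐ ω ∂(iid Ed F), ∀ i, Gup 1 K (2, 1) i (wt ω) ≤ Glo 1 K (1, 2) i (wt ω) := by
    filter_upwards [ae_nice (F := F) hK h1] with ω hω i
    exact Gup_le_Glo h1 hK.1 hω hu (by norm_num) dlo_one_two (by unfold det; norm_num)
  have hle3 : ∀ᵐ ω ∂(iid Ed F), ∀ i, blo 1 K i (wt ω) ≤ Glo 1 K (1, 2) i (wt ω) := by
    filter_upwards [hle1, hle2] with ω a1 a2 i
    exact (a1 i).trans (a2 i)
  have h3 : ∀ᵐ ω ∂(iid Ed F), ∀ i : ℤ, Glo 1 K (1, 2) i (wt ω) = blo 1 K i (wt ω) := by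
    refine ae_eq_of_per h1 (adm_Glo 1 K (1, 2)) (adm_blo 1 K) hle3
      (fun i => integral_Glo_per hK h1 dlo_one_two i) (fun i => integral_blo_per hK h1 i) ?_
    rw [EV_Glo_one_two hK, EV_blo_one hK h]
    have := EV_Gup_two_one hK h
    linarith
  filter_upwards [hle1, hle2, h3] with ω a1 a2 a3 i
  refine ⟨a3 i, le_antisymm ?_ (a1 i)⟩
  rw [← a3 i]
  exact a2 i

/-- Diamond case: drift of the class `a`. -/
theorem hal_diamond (h : rho 1 F K (1, 1) = 2 * rho 1 F K (1, 0)) :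
    ∀ᵐ ω ∂(iid Ed F), ∀ k z : ℤ, ∀ ε : ℝ, 0 < ε → ∃ C : ℝ, ∀ x ≤ z,
      pot (fun i => mv 1 (alo 1 K) k i (wt ω)) x - pot (fun i => mv 1 (alo 1 K) k i (wt ω)) z ≤
        -(rho 1 F K (1, 0) - ε) * ((z - x : ℤ) : ℝ) + C := by
  have h1 : (1 : ℤ) = 0 ∨ (1 : ℤ) = 1 := Or.inr rfl
  set μ := rho 1 F K (1, 0) with hμ
  have key : ∀ᵐ ω ∂(iid Ed F), ∀ n : ℕ, ∀ l a : ℤ, ∃ C : ℕ,
      DrE (fun i => mv 1 (fun i w => -alo 1 K i w) l i (wt ω)) a (-1)
        ((-(2 * μ) + 2 / ((n : ℝ) + 1)) / (1 + ((1 : ℤ) : ℝ))) C := by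
    rw [ae_all_iff]
    intro n
    refine ae_drift h1 (adm_alo 1 K).neg (Or.inr rfl) ?_
    rw [EV_neg]
    have h2 := EV_alo_one hK h
    have h3 : (0 : ℝ) < 2 / ((n : ℝ) + 1) := by positivity
    push_cast
    linarith
  filter_upwards [key] with ω hω k z ε hε
  obtain ⟨n, hn⟩ := exists_nat_gt (1 / ε)
  obtain ⟨C, hC⟩ := hω n k z
  refine ⟨C, fun x hx => ?_⟩
  have h2 := hC x (by omega)
  have e : (fun i => mv 1 (fun i w => -alo 1 K i w) k i (wt ω)) =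
      fun i => -mv 1 (alo 1 K) k i (wt ω) := rfl
  rw [e, pot_neg, pot_neg] at h2
  have h3 : |((x - z : ℤ) : ℝ)| = ((z - x : ℤ) : ℝ) := by
    have h4 : ((x - z : ℤ) : ℝ) ≤ 0 := by exact_mod_cast (by omega : x - z ≤ 0)
    rw [abs_of_nonpos h4]
    push_cast; ring
  rw [h3] at h2
  have h5 : (0 : ℝ) ≤ ((z - x : ℤ) : ℝ) := by exact_mod_cast (by omega : 0 ≤ z - x)
  have h6 : 1 / ((n : ℝ) + 1) ≤ ε := by
    have h7 : 1 / ε ≤ (n : ℝ) + 1 := by linarith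
    rw [div_le_iff₀ hε] at h7
    rw [div_le_iff₀ (by positivity)]
    linarith
  have h8 : (-(2 * μ) + 2 / ((n : ℝ) + 1)) / (1 + ((1 : ℤ) : ℝ)) = -μ + 1 / ((n : ℝ) + 1) := by
    push_cast
    field_simp
    ring
  rw [h8] at h2
  have h9 := mul_le_mul_of_nonneg_right h6 h5
  nlinarith

end fin

end C7
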