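import Mathlib
import Pool.Agent.Lib.MP_c725eb_pr.Curve

/-!
# Routes between two curves along a transversal curve
-/

set_option autoImplicit false

namespace C7

open scoped ENNReal

/-- Neighbourhood of a vertex. -/
def Bal (x : V) : Set V := {v | |v.1 - x.1| ≤ 1 ∧ |v.2 - x.2| ≤ 1}

theorem mem_Bal (x : V) : x ∈ Bal x := by simp [Bal]

theorem mem_Bal_right (x : V) : (x.1 + 1, x.2) ∈ Bal x := by simp [Bal]

theorem mem_Bal_up (x : V) : (x.1, x.2 + 1) ∈ Bal x := by simp [Bal]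

/-- Consecutive vertices of an open curve are connected near the curve, inside the region. -/
theorem T_pt_succ_bal {σ : ℤ} (hσ : σ = 0 ∨ σ = 1) {c : ℤ → ℤ} (h : Stp σ c) {w : W} {K : ℝ≥0∞}
    (ho : ∀ i, Opn σ w K (pt σ c i)) (i : ℤ) :
    T w (Bal (pt σ c i) ∩ reg σ c) (pt σ c i) (pt σ c (i + 1)) ≤ 2 * K := by
  have hK : K ≤ 2 * K := by rw [two_mul]; exact le_self_add
  have hi := h i
  have hx : pt σ c i ∈ Bal (pt σ c i) ∩ reg σ c := ⟨mem_Bal _, pt_mem _ _ _⟩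
  have hy : pt σ c (i + 1) ∈ Bal (pt σ c i) ∩ reg σ c := by
    refine ⟨?_, pt_mem _ _ _⟩
    simp only [Bal, pt, Set.mem_setOf_eq]
    rcases hσ with rfl | rfl
    · simp only [sub_zero] at hi
      constructor
      · rw [abs_le]; omega
      · simp
    · constructor
      · rw [abs_le]; omega
      · rw [abs_le]; omega
  rcases hσ with rfl | rfl
  · simp only [sub_zero] at hi
    rcases (by omega : c (i + 1) = c i ∨ c (i + 1) = c i + 1 ∨ c (i + 1) = c i - 1) with e | e | e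
    · refine (T_le_step w hx hy).trans ?_
      have e2 : pt 0 c (i + 1) = ((pt 0 c i).1, (pt 0 c i).2 + 1) := by
        simp [pt, e]
      rw [e2, step_up]
      exact (ho i).2.1.trans hK
    · set m : V := ((pt 0 c i).1 + 1, (pt 0 c i).2) with hm
      have hmem : m ∈ Bal (pt 0 c i) ∩ reg 0 c :=
        ⟨mem_Bal_right _, by simp [hm, reg, pt, ix]⟩
      have e2 : pt 0 c (i + 1) = (m.1, m.2 + 1) := by
        simp [pt, hm, e]
      have e3 : ((pt 0 c (i + 1)).1, (pt 0 c (i + 1)).2 - 1) = m := by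
        rw [e2]; simp
      refine (T_triangle w _ _ m _).trans ?_
      rw [two_mul]
      refine add_le_add ((T_le_step w hx hmem).trans ?_) ((T_le_step w hmem hy).trans ?_)
      · rw [hm, step_right]
        exact (ho i).1
      · have h3 := (ho (i + 1)).2.2 rfl
        rw [e3] at h3
        rw [e2, step_up]
        exact h3
    · set m : V := ((pt 0 c i).1, (pt 0 c i).2 + 1) with hm
      have hmem : m ∈ Bal (pt 0 c i) ∩ reg 0 c :=
        ⟨mem_Bal_up _, by simp [hm, reg, pt, ix, e]⟩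
      have e2 : m = ((pt 0 c (i + 1)).1 + 1, (pt 0 c (i + 1)).2) := by
        simp [pt, hm, e]
      refine (T_triangle w _ _ m _).trans ?_
      rw [two_mul]
      refine add_le_add ((T_le_step w hx hmem).trans ?_) ((T_le_step w hmem hy).trans ?_)
      · rw [hm, step_up]
        exact (ho i).2.1
      · rw [step_comm, e2, step_right]
        exact (ho (i + 1)).1
  · rcases (by omega : c (i + 1) = c i ∨ c (i + 1) = c i - 1) with e | e
    · refine (T_le_step w hx hy).trans ?_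
      have e2 : pt 1 c (i + 1) = ((pt 1 c i).1, (pt 1 c i).2 + 1) := by
        simp only [pt, e, Prod.mk.injEq, true_and]; ring
      rw [e2, step_up]
      exact (ho i).2.1.trans hK
    · refine (T_le_step w hx hy).trans ?_
      have e2 : pt 1 c i = ((pt 1 c (i + 1)).1 + 1, (pt 1 c (i + 1)).2) := by
        simp only [pt, e, Prod.mk.injEq]
        constructor <;> ring
      rw [step_comm, e2, step_right]
      exact (ho (i + 1)).1.trans hK

/-- Moving along an open curve inside a domain. -/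
theorem T_curve_le {σ : ℤ} (hσ : σ = 0 ∨ σ = 1) {c : ℤ → ℤ} (h : Stp σ c) {w : W} {K : ℝ≥0∞}
    (ho : ∀ i, Opn σ w K (pt σ c i)) {D : Set V} (i : ℤ) (n : ℕ)
    (hD : ∀ j, i ≤ j → j ≤ i + n → Bal (pt σ c j) ⊆ D) :
    T w (D ∩ reg σ c) (pt σ c i) (pt σ c (i + n)) ≤ n * (2 * K) := by
  induction n with
  | zero =>
    simp only [Nat.cast_zero, add_zero, zero_mul]
    have hmem : pt σ c i ∈ D ∩ reg σ c := ⟨hD i le_rfl (by simp) (mem_Bal _), pt_mem _ _ _⟩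
    exact (T_self w hmem).le
  | succ n ih =>
    have h1 := T_pt_succ_bal hσ h ho (i + n)
    have hsub : Bal (pt σ c (i + n)) ∩ reg σ c ⊆ D ∩ reg σ c :=
      Set.inter_subset_inter_left _ (hD (i + n) (by omega) (by push_cast; omega))
    have e : i + ((n + 1 : ℕ) : ℤ) = i + n + 1 := by push_cast; ring
    rw [e]
    refine (T_triangle w _ _ (pt σ c (i + n)) _).trans ?_
    rw [Nat.cast_succ, add_mul, one_mul]
    refine add_le_add (ih fun j h1 h2 => hD j h1 (by push_cast; omega)) ?_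
    exact (T_mono hsub _ _).trans h1

theorem T_curve_le' {σ : ℤ} (hσ : σ = 0 ∨ σ = 1) {c : ℤ → ℤ} (h : Stp σ c) {w : W} {K : ℝ≥0∞}
    (ho : ∀ i, Opn σ w K (pt σ c i)) {D : Set V} {i j : ℤ} {n : ℕ} (hn : |j - i| ≤ n)
    (hD : ∀ k, min i j ≤ k → k ≤ max i j → Bal (pt σ c k) ⊆ D) :
    T w (D ∩ reg σ c) (pt σ c i) (pt σ c j) ≤ n * (2 * K) := by
  rcases le_total i j with hij | hij
  · rw [min_eq_left hij, max_eq_right hij] at hD
    have h1 := T_curve_le hσ h ho (D := D) i (j - i).toNat (fun k h1 h2 => hD k h1 (by omega))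
    have e : i + ((j - i).toNat : ℤ) = j := by omega
    rw [e] at h1
    refine h1.trans (mul_le_mul' ?_ le_rfl)
    rw [abs_of_nonneg (by omega)] at hn
    exact_mod_cast (by omega : (j - i).toNat ≤ n)
  · rw [min_eq_right hij, max_eq_left hij] at hD
    have h1 := T_curve_le hσ h ho (D := D) j (i - j).toNat (fun k h1 h2 => hD k h1 (by omega))
    have e : j + ((i - j).toNat : ℤ) = i := by omega
    rw [e, T_comm] at h1
    refine h1.trans (mul_le_mul' ?_ le_rfl)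
    rw [abs_of_nonpos (by omega)] at hn
    exact_mod_cast (by omega : (i - j).toNat ≤ n)

/-! ### last entrance -/

theorem exists_last_notMem {R : Set V} : ∀ l : List V, (∃ v ∈ l, v ∉ R) →
    ∃ l₁ v l₂, l = l₁ ++ v :: l₂ ∧ v ∉ R ∧ ∀ u ∈ l₂, u ∈ R := by
  intro l
  induction l with
  | nil => rintro ⟨v, hv, _⟩; simp at hv
  | cons a l ih =>
    intro h
    by_cases h1 : ∃ v ∈ l, v ∉ R
    · obtain ⟨l₁, v, l₂, e, h2, h3⟩ := ih h1
      exact ⟨a :: l₁, v, l₂, by rw [e]; rfl, h2, h3⟩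
    · push Not at h1
      obtain ⟨v, hv, hvR⟩ := h
      rcases List.mem_cons.1 hv with rfl | hv
      · exact ⟨[], v, l, rfl, hvR, h1⟩
      · exact absurd (h1 v hv) hvR

theorem cost_suffix_le (w : W) (l₁ l₂ : List V) : cost w l₂ ≤ cost w (l₁ ++ l₂) := by
  induction l₁ with
  | nil => simp
  | cons a l₁ ih => exact ih.trans (by rw [List.cons_append]; exact cost_cons_le w a _)

/-- A walk of finite cost which enters a region has a last entrance, at a vertex of the curve. -/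
theorem exists_last_entrance {σ : ℤ} (hσ : σ = 0 ∨ σ = 1) {c : ℤ → ℤ} (h : Stp σ c) {w : W}
    (hw : ∀ v, w v 2 = ⊤) {D : Set V} {x y : V} {l : List V} (hl : IsW D x y l)
    (hc : cost w l ≠ ⊤) (hx : x ∉ reg σ c) (hy : y ∈ reg σ c) :
    ∃ i, pt σ c i ∈ l ∧ T w (D ∩ reg σ c) (pt σ c i) y ≤ cost w l := by
  obtain ⟨l', hl'⟩ := hl.eq_cons
  obtain ⟨l₁, v, l₂, e, hv, h2⟩ := exists_last_notMem (R := reg σ c) l
    ⟨x, by rw [hl']; simp, hx⟩
  cases l₂ with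
  | nil =>
    have h3 := hl.2.1
    rw [e, List.getLast?_append] at h3
    simp at h3
    exact absurd (h3 ▸ hy) hv
  | cons u l₃ =>
    have hu : u ∈ reg σ c := h2 u (by simp)
    have h4 : cost w (v :: u :: l₃) ≠ ⊤ := by
      refine ne_top_of_le_ne_top hc ?_
      rw [e]
      exact cost_suffix_le w l₁ _
    rw [cost_cons_cons] at h4
    have h5 : step w v u ≠ ⊤ := fun h' => h4 (by rw [h', top_add])
    have h6 := entrance hσ h (nb_of_step_ne_top hw h5) hv hu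
    refine ⟨ix σ u, ?_, ?_⟩
    · rw [← h6, e]; simp
    · rw [← h6]
      have hisw : IsW (D ∩ reg σ c) u y (u :: l₃) := by
        refine ⟨rfl, ?_, ?_⟩
        · have h7 := hl.2.1
          rw [e, List.getLast?_append_of_ne_nil _ (by simp)] at h7
          simpa using h7
        · intro z hz
          refine ⟨hl.2.2 z ?_, h2 z hz⟩
          rw [e]
          simp only [List.mem_append, List.mem_cons] at hz ⊢
          tauto
      refine (T_le hisw).trans ?_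
      rw [e]
      have h8 := cost_suffix_le w (l₁ ++ [v]) (u :: l₃)
      simpa using h8

/-- the neighbourhood of a piece of a curve -/
def Nbh (σ : ℤ) (c : ℤ → ℤ) (i₁ i₂ : ℤ) : Set V := ⋃ j ∈ Set.Icc i₁ i₂, Bal (pt σ c j)

theorem T_curve_nbh {σ : ℤ} (hσ : σ = 0 ∨ σ = 1) {c : ℤ → ℤ} (h : Stp σ c) {w : W} {K : ℝ≥0∞}
    (ho : ∀ i, Opn σ w K (pt σ c i)) {i₁ i₂ : ℤ} (hi : i₁ ≤ i₂) :
    T w (Nbh σ c i₁ i₂) (pt σ c i₁) (pt σ c i₂) ≤ (i₂ - i₁).toNat * (2 * K) := by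
  have h1 := T_curve_le hσ h ho (D := Nbh σ c i₁ i₂) i₁ (i₂ - i₁).toNat ?_
  · have e : i₁ + ((i₂ - i₁).toNat : ℤ) = i₂ := by omega
    rw [e] at h1
    exact (T_mono Set.inter_subset_left _ _).trans h1
  · intro j hj1 hj2
    exact Set.subset_biUnion_of_mem (u := fun j => Bal (pt σ c j))
      (show j ∈ Set.Icc i₁ i₂ from ⟨hj1, by omega⟩)

/-- Crossing a curve: one end of the transversal curve is outside of the region, the other one is
inside. -/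
theorem exists_cross {σ σ' : ℤ} (hσ : σ = 0 ∨ σ = 1) (hσ' : σ' = 0 ∨ σ' = 1) {c c' : ℤ → ℤ}
    (h : Stp σ c) (h' : Stp σ' c') {w : W} (hw : ∀ v, w v 2 = ⊤) {K : ℝ≥0∞} (hK : K ≠ ⊤)
    (ho' : ∀ i, Opn σ' w K (pt σ' c' i)) {i₁ i₂ : ℤ} (hi : i₁ ≤ i₂) {x y : V}
    (hxy : (x = pt σ' c' i₁ ∧ y = pt σ' c' i₂) ∨ (x = pt σ' c' i₂ ∧ y = pt σ' c' i₁))
    (hx : x ∉ reg σ c) (hy : y ∈ reg σ c) :
    ∃ i, pt σ c i ∈ Nbh σ' c' i₁ i₂ ∧
      T w (Nbh σ' c' i₁ i₂ ∩ reg σ c) (pt σ c i) y ≤ (i₂ - i₁).toNat * (2 * K) + 1 := by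
  have h1 : T w (Nbh σ' c' i₁ i₂) x y ≤ (i₂ - i₁).toNat * (2 * K) := by
    have h2 := T_curve_nbh hσ' h' ho' hi
    rcases hxy with ⟨rfl, rfl⟩ | ⟨rfl, rfl⟩
    · exact h2
    · rw [T_comm]; exact h2
  have hfin : ((i₂ - i₁).toNat * (2 * K) : ℝ≥0∞) ≠ ⊤ :=
    ENNReal.mul_ne_top (ENNReal.natCast_ne_top _) (ENNReal.mul_ne_top (by norm_num) hK)
  have h2 : T w (Nbh σ' c' i₁ i₂) x y < (i₂ - i₁).toNat * (2 * K) + 1 :=
    lt_of_le_of_lt h1 (ENNReal.lt_add_right hfin (by norm_num))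
  rw [T] at h2
  simp only [iInf_lt_iff] at h2
  obtain ⟨l, hl, hcost⟩ := h2
  obtain ⟨i, hi1, hi2⟩ := exists_last_entrance hσ h hw hl (ne_top_of_lt hcost) hx hy
  exact ⟨i, hl.2.2 _ hi1, hi2.trans hcost.le⟩

/-- THE ROUTE LEMMA: going from one curve to another one along a transversal curve. -/
theorem route {σ σ' : ℤ} (hσ : σ = 0 ∨ σ = 1) (hσ' : σ' = 0 ∨ σ' = 1) {c₀ c₁ c' : ℤ → ℤ}
    (h₀ : Stp σ c₀) (h₁ : Stp σ c₁) (h' : Stp σ' c') (hreg : reg σ c₁ ⊆ reg σ c₀)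
    {w : W} (hw : ∀ v, w v 2 = ⊤) {K : ℝ≥0∞} (hK : K ≠ ⊤)
    (ho₀ : ∀ i, Opn σ w K (pt σ c₀ i)) (ho₁ : ∀ i, Opn σ w K (pt σ c₁ i))
    (ho' : ∀ i, Opn σ' w K (pt σ' c' i)) {i₁ i₂ : ℤ} (hi : i₁ ≤ i₂) {x y : V}
    (hxy : (x = pt σ' c' i₁ ∧ y = pt σ' c' i₂) ∨ (x = pt σ' c' i₂ ∧ y = pt σ' c' i₁))
    (hx : x ∉ reg σ c₀) (hy : y ∈ reg σ c₁) {D : Set V} (hD : Nbh σ' c' i₁ i₂ ⊆ D) {a b : ℤ}
    {m n₀ n₁ : ℕ} (hm : i₂ - i₁ ≤ m)
    (hA : ∀ i, pt σ c₀ i ∈ Nbh σ' c' i₁ i₂ → |i - a| ≤ n₀ ∧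
      ∀ k, min a i ≤ k → k ≤ max a i → Bal (pt σ c₀ k) ⊆ D)
    (hB : ∀ i, pt σ c₁ i ∈ Nbh σ' c' i₁ i₂ → |i - b| ≤ n₁ ∧
      ∀ k, min b i ≤ k → k ≤ max b i → Bal (pt σ c₁ k) ⊆ D) :
    T w (D ∩ reg σ c₀) (pt σ c₀ a) (pt σ c₁ b) ≤ (n₀ + n₁ + 2 * m) * (2 * K) + 2 := by
  obtain ⟨e₀, he₀, ht₀⟩ := exists_cross hσ hσ' h₀ h' hw hK ho' hi hxy hx (hreg hy)
  obtain ⟨e₁, he₁, ht₁⟩ := exists_cross hσ hσ' h₁ h' hw hK ho' hi hxy
    (fun hh => hx (hreg hh)) hy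
  have hmn : ((i₂ - i₁).toNat : ℝ≥0∞) ≤ m := by exact_mod_cast (by omega : (i₂ - i₁).toNat ≤ m)
  have k1 : T w (D ∩ reg σ c₀) (pt σ c₀ a) (pt σ c₀ e₀) ≤ n₀ * (2 * K) :=
    T_curve_le' hσ h₀ ho₀ (hA e₀ he₀).1 (hA e₀ he₀).2
  have k2 : T w (D ∩ reg σ c₀) (pt σ c₀ e₀) y ≤ m * (2 * K) + 1 := by
    refine (T_mono (Set.inter_subset_inter_left _ hD) _ _).trans (ht₀.trans ?_)
    gcongr
  have k3 : T w (D ∩ reg σ c₀) y (pt σ c₁ e₁) ≤ m * (2 * K) + 1 := by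
    rw [T_comm]
    refine (T_mono (Set.inter_subset_inter hD hreg) _ _).trans (ht₁.trans ?_)
    gcongr
  have k4 : T w (D ∩ reg σ c₀) (pt σ c₁ e₁) (pt σ c₁ b) ≤ n₁ * (2 * K) := by
    rw [T_comm]
    refine (T_mono (Set.inter_subset_inter_right _ hreg) _ _).trans ?_
    exact T_curve_le' hσ h₁ ho₁ (hB e₁ he₁).1 (hB e₁ he₁).2
  calc T w (D ∩ reg σ c₀) (pt σ c₀ a) (pt σ c₁ b)
      ≤ T w (D ∩ reg σ c₀) (pt σ c₀ a) (pt σ c₀ e₀) +
        (T w (D ∩ reg σ c₀) (pt σ c₀ e₀) y + (T w (D ∩ reg σ c₀) y (pt σ c₁ e₁) +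
          T w (D ∩ reg σ c₀) (pt σ c₁ e₁) (pt σ c₁ b))) := by
        refine (T_triangle w _ _ (pt σ c₀ e₀) _).trans (add_le_add le_rfl ?_)
        refine (T_triangle w _ _ y _).trans (add_le_add le_rfl ?_)
        exact T_triangle w _ _ _ _
    _ ≤ n₀ * (2 * K) + ((m * (2 * K) + 1) + ((m * (2 * K) + 1) + n₁ * (2 * K))) := by
        gcongr
    _ = (n₀ + n₁ + 2 * m) * (2 * K) + 2 := by ring

end C7
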