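import Pool.Agent.Lib.MP_c725eb_pr.Refl
import Pool.Agent.Lib.MP_c725eb_pr.Route

/-!
# Real valued dominations between Busemann increments
-/

set_option autoImplicit false

namespace C7

open scoped ENNReal Topology
open Filter

/-! ### basic facts on `TI`, `BI` -/

section basic

variable {σ : ℤ} {w : W} {E E' : Set V} {c : ℤ → ℤ} {K : ℝ≥0∞} {t : V}

theorem BI_self (x : ℤ) : BI w σ E c t x x = 0 := by
  unfold BI; ring

theorem BI_add (x y z : ℤ) : BI w σ E c t x y + BI w σ E c t y z = BI w σ E c t x z := by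
  unfold BI; ring

theorem BI_neg (x y : ℤ) : BI w σ E c t y x = -BI w σ E c t x y := by
  unfold BI; ring

theorem TI_congr_env (h : ∀ v ∈ reg σ c, (v ∈ E ↔ v ∈ E')) (x : ℤ) (t : V) :
    TI w σ E c x t = TI w σ E' c x t := by
  have e : reg σ c ∩ E = reg σ c ∩ E' := by
    ext v
    constructor
    · rintro ⟨h1, h2⟩; exact ⟨h1, (h v h1).1 h2⟩
    · rintro ⟨h1, h2⟩; exact ⟨h1, (h v h1).2 h2⟩
  unfold TI
  rw [e]

theorem BI_congr_env (h : ∀ v ∈ reg σ c, (v ∈ E ↔ v ∈ E')) (x y : ℤ) (t : V) :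
    BI w σ E c t x y = BI w σ E' c t x y := by
  unfold BI
  rw [TI_congr_env h, TI_congr_env h]

/-- The connection of the vertices `i` and `i + 1` of the curve is inside `E`. -/
def Cin (σ : ℤ) (E : Set V) (c : ℤ → ℤ) (i : ℤ) : Prop :=
  pt σ c i ∈ E ∧ pt σ c (i + 1) ∈ E ∧ (σ = 0 → c (i + 1) = c i + 1 → ((c i + 1, i) : V) ∈ E) ∧
    (σ = 0 → c (i + 1) = c i - 1 → ((c i, i + 1) : V) ∈ E)

theorem cin_of_bal {σ : ℤ} (hσ : σ = 0 ∨ σ = 1) {c : ℤ → ℤ} (h : Stp σ c) {E : Set V} {i : ℤ}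
    (hB : Bal (pt σ c i) ⊆ E) : Cin σ E c i := by
  have hi := h i
  refine ⟨hB (mem_Bal _), hB ?_, ?_, ?_⟩
  · simp only [Bal, pt, Set.mem_setOf_eq]
    rcases hσ with rfl | rfl
    · simp only [sub_zero] at hi
      constructor
      · rw [abs_le]; omega
      · simp
    · constructor
      · rw [abs_le]; omega
      · rw [abs_le]; omega
  · rintro rfl _
    apply hB
    simp [Bal, pt]
  · rintro rfl _
    apply hB
    simp [Bal, pt]

theorem cin_univ (i : ℤ) : Cin σ Set.univ c i := ⟨trivial, trivial, fun _ _ => trivial, fun _ _ => trivial⟩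

theorem cin_lft {σ : ℤ} (hσ : σ = 0 ∨ σ = 1) {c d : ℤ → ℤ} (hcd : ∀ i, c i + (1 - σ) ≤ d i) (i : ℤ) :
    Cin σ (lft σ d) c i := by
  have h0 : ∀ i, pt σ c i ∈ lft σ d := by
    intro i
    change (pt σ c i).1 ≤ d (ix σ (pt σ c i))
    rw [ix_pt]
    have := hcd i
    have e : (pt σ c i).1 = c i := rfl
    rcases hσ with rfl | rfl <;> omega
  refine ⟨h0 i, h0 _, ?_, ?_⟩
  · rintro rfl _
    change c i + 1 ≤ d (ix 0 (c i + 1, i))
    unfold ix
    simp only [zero_mul, sub_zero]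
    have := hcd i
    omega
  · rintro rfl h
    change c i ≤ d (ix 0 (c i, i + 1))
    unfold ix
    simp only [zero_mul, sub_zero]
    have := hcd (i + 1)
    omega

theorem cin_mono {i : ℤ} (hE : ∀ v ∈ reg σ c, v ∈ E → v ∈ E') (hσ : σ = 0 ∨ σ = 1) (h : Stp σ c)
    (hc : Cin σ E c i) : Cin σ E' c i := by
  refine ⟨hE _ (pt_mem _ _ _) hc.1, hE _ (pt_mem _ _ _) hc.2.1, ?_, ?_⟩
  · rintro rfl h1
    refine hE _ ?_ (hc.2.2.1 rfl h1)
    simp [reg, ix]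
  · rintro rfl h1
    refine hE _ ?_ (hc.2.2.2 rfl h1)
    simp [reg, ix, h1]

/-- Consecutive vertices of an open curve, in an environment. -/
theorem T_pt_succ_env {σ : ℤ} (hσ : σ = 0 ∨ σ = 1) {c : ℤ → ℤ} (h : Stp σ c) {w : W} {K : ℝ≥0∞}
    (ho : ∀ i, Opn σ w K (pt σ c i)) {E : Set V} {i : ℤ} (hi : Cin σ E c i) :
    T w (reg σ c ∩ E) (pt σ c i) (pt σ c (i + 1)) ≤ 2 * K := by
  have hK : K ≤ 2 * K := by rw [two_mul]; exact le_self_add
  obtain ⟨h1, h2, h3, h4⟩ := hi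
  have hi := h i
  have hx : pt σ c i ∈ reg σ c ∩ E := ⟨pt_mem _ _ _, h1⟩
  have hy : pt σ c (i + 1) ∈ reg σ c ∩ E := ⟨pt_mem _ _ _, h2⟩
  rcases hσ with rfl | rfl
  · simp only [sub_zero] at hi
    rcases (by omega : c (i + 1) = c i ∨ c (i + 1) = c i + 1 ∨ c (i + 1) = c i - 1) with e | e | e
    · refine (T_le_step w hx hy).trans ?_
      have e2 : pt 0 c (i + 1) = ((pt 0 c i).1, (pt 0 c i).2 + 1) := by
        simp [pt, e]
      rw [e2, step_up]
      exact (ho i).2.1.trans hK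
    · set m : V := ((pt 0 c i).1 + 1, (pt 0 c i).2) with hm
      have hmem : m ∈ reg 0 c ∩ E := by
        refine ⟨by simp [hm, reg, pt, ix], ?_⟩
        have := h3 rfl e
        simpa [hm, pt] using this
      have e2 : pt 0 c (i + 1) = (m.1, m.2 + 1) := by
        simp [pt, hm, e]
      have e3 : ((pt 0 c (i + 1)).1, (pt 0 c (i + 1)).2 - 1) = m := by
        rw [e2]; simp
      refine (T_triangle w _ _ m _).trans ?_
      rw [two_mul]
      refine add_le_add ((T_le_step w hx hmem).trans ?_) ((T_le_step w hmem hy).trans ?_)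
      · rw [hm, step_right]
        exact (ho i).1
      · have h3 := (ho (i + 1)).2.2 rfl
        rw [e3] at h3
        rw [e2, step_up]
        exact h3
    · set m : V := ((pt 0 c i).1, (pt 0 c i).2 + 1) with hm
      have hmem : m ∈ reg 0 c ∩ E := by
        refine ⟨by simp [hm, reg, pt, ix, e], ?_⟩
        have := h4 rfl e
        simpa [hm, pt] using this
      have e2 : m = ((pt 0 c (i + 1)).1 + 1, (pt 0 c (i + 1)).2) := by
        simp [pt, hm, e]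
      refine (T_triangle w _ _ m _).trans ?_
      rw [two_mul]
      refine add_le_add ((T_le_step w hx hmem).trans ?_) ((T_le_step w hmem hy).trans ?_)
      · rw [hm, step_up]
        exact (ho i).2.1
      · rw [step_comm, e2, step_right]
        exact (ho (i + 1)).1
  · rcases (by omega : c (i + 1) = c i ∨ c (i + 1) = c i - 1) with e | e
    · refine (T_le_step w hx hy).trans ?_
      have e2 : pt 1 c (i + 1) = ((pt 1 c i).1, (pt 1 c i).2 + 1) := by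
        simp only [pt, e, Prod.mk.injEq, true_and]; ring
      rw [e2, step_up]
      exact (ho i).2.1.trans hK
    · refine (T_le_step w hx hy).trans ?_
      have e2 : pt 1 c i = ((pt 1 c (i + 1)).1 + 1, (pt 1 c (i + 1)).2) := by
        simp only [pt, e, Prod.mk.injEq]
        constructor <;> ring
      rw [step_comm, e2, step_right]
      exact (ho (i + 1)).1.trans hK

theorem TI_succ_le (hσ : σ = 0 ∨ σ = 1) (h : Stp σ c) (ho : ∀ i, Opn σ w K (pt σ c i)) {i : ℤ}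
    (hi : Cin σ E c i) (t : V) : TI w σ E c i t ≤ 2 * K + TI w σ E c (i + 1) t :=
  (T_triangle w _ _ _ _).trans (add_le_add (T_pt_succ_env hσ h ho hi) le_rfl)

theorem TI_le_succ (hσ : σ = 0 ∨ σ = 1) (h : Stp σ c) (ho : ∀ i, Opn σ w K (pt σ c i)) {i : ℤ}
    (hi : Cin σ E c i) (t : V) : TI w σ E c (i + 1) t ≤ 2 * K + TI w σ E c i t := by
  refine (T_triangle w _ _ (pt σ c i) _).trans (add_le_add ?_ le_rfl)
  rw [T_comm]
  exact T_pt_succ_env hσ h ho hi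

/-- One step increments are bounded (no finiteness of the passage times needed). -/
theorem abs_BI_succ_le (hσ : σ = 0 ∨ σ = 1) (h : Stp σ c) (ho : ∀ i, Opn σ w K (pt σ c i)) (hK : K ≠ ⊤)
    {i : ℤ} (hi : Cin σ E c i) (t : V) : |BI w σ E c t i (i + 1)| ≤ (2 * K).toReal := by
  have h2K : 2 * K ≠ ⊤ := ENNReal.mul_ne_top (by norm_num) hK
  have h1 := TI_succ_le hσ h ho hi t
  have h2 := TI_le_succ hσ h ho hi t
  unfold BI
  by_cases ht : TI w σ E c (i + 1) t = ⊤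
  · have ht' : TI w σ E c i t = ⊤ := by
      by_contra hne
      apply hne
      by_contra hne'
      rw [ht] at h2
      exact (ENNReal.add_ne_top.2 ⟨h2K, hne'⟩) (top_le_iff.1 h2)
    rw [ht, ht']
    simp
  · have ht' : TI w σ E c i t ≠ ⊤ := ne_top_of_le_ne_top (ENNReal.add_ne_top.2 ⟨h2K, ht⟩) h1
    have h3 := ENNReal.toReal_mono (ENNReal.add_ne_top.2 ⟨h2K, ht⟩) h1
    have h4 := ENNReal.toReal_mono (ENNReal.add_ne_top.2 ⟨h2K, ht'⟩) h2
    rw [ENNReal.toReal_add h2K ht] at h3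
    rw [ENNReal.toReal_add h2K ht'] at h4
    rw [abs_le]
    constructor <;> linarith

theorem abs_BI_le (hσ : σ = 0 ∨ σ = 1) (h : Stp σ c) (ho : ∀ i, Opn σ w K (pt σ c i)) (hK : K ≠ ⊤)
    {x x' : ℤ} (hx : x ≤ x') (hi : ∀ i, x ≤ i → i < x' → Cin σ E c i) (t : V) :
    |BI w σ E c t x x'| ≤ (x' - x) * (2 * K).toReal := by
  induction x', hx using Int.leInduction with
  | base => rw [BI_self]; simp
  | succ y hy ih =>
    have h1 := ih fun i hi1 hi2 => hi i hi1 (by omega)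
    have h2 := abs_BI_succ_le hσ h ho hK (hi y hy (by omega)) t
    rw [← BI_add x y (y + 1)]
    refine (abs_add_le _ _).trans ?_
    push_cast
    linarith

theorem TI_ne_top_iff (hσ : σ = 0 ∨ σ = 1) (h : Stp σ c) (ho : ∀ i, Opn σ w K (pt σ c i)) (hK : K ≠ ⊤)
    {x x' : ℤ} (hx : x ≤ x') (hi : ∀ i, x ≤ i → i < x' → Cin σ E c i) (t : V) :
    TI w σ E c x t ≠ ⊤ ↔ TI w σ E c x' t ≠ ⊤ := by
  have h2K : 2 * K ≠ ⊤ := ENNReal.mul_ne_top (by norm_num) hK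
  induction x', hx using Int.leInduction with
  | base => exact Iff.rfl
  | succ y hy ih =>
    refine (ih fun i hi1 hi2 => hi i hi1 (by omega)).trans ?_
    have h1 := TI_succ_le hσ h ho (hi y hy (by omega)) t
    have h2 := TI_le_succ hσ h ho (hi y hy (by omega)) t
    constructor
    · intro h3
      exact ne_top_of_le_ne_top (ENNReal.add_ne_top.2 ⟨h2K, h3⟩) h2
    · intro h3
      exact ne_top_of_le_ne_top (ENNReal.add_ne_top.2 ⟨h2K, h3⟩) h1

/-- Change of the target. -/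
theorem TI_target_le (x : ℤ) (t t' : V) : TI w σ E c x t ≤ TI w σ E c x t' + T w (reg σ c ∩ E) t' t :=
  T_triangle _ _ _ _ _

end basic

/-! ### geometry of the walls -/

section geom

variable {σ : ℤ} {w : W} {c d : ℤ → ℤ} {u u' : V} {L L' : ℤ}

theorem stp_le {σ : ℤ} (hσ : σ = 0 ∨ σ = 1) {c : ℤ → ℤ} (h : Stp σ c) {i j : ℤ} (hij : i ≤ j) :
    -(j - i) ≤ c j - c i ∧ c j - c i ≤ (1 - σ) * (j - i) := by
  induction j, hij using Int.leInduction with
  | base => simp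
  | succ j hj ih =>
    have hi := h j
    rcases hσ with rfl | rfl <;> constructor <;> simp only [sub_zero, sub_self, zero_mul, one_mul] at * <;> omega

/-- Slopes for which the vertices of the region above a vertex of the curve are above the wall. -/
theorem hxc_lo (hσ : σ = 0 ∨ σ = 1) (h : Stp σ c) (hu1 : 0 < u.1) (hu2 : -u.1 ≤ u.2) {x : ℤ} (hx : ∀ j, x ≤ j → pt σ c j ∈ Wlo σ u L) :
    ∀ v ∈ reg σ c, x ≤ ix σ v → v.1 < c x → v ∈ Wlo σ u L := by
  rintro ⟨a, b⟩ hv hvx hvc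
  change -(L * ln σ u) ≤ det u (a, b)
  have h1 : -(L * ln σ u) ≤ det u (pt σ c x) := hx x le_rfl
  have h2 : -(L * ln σ u) ≤ det u (pt σ c (ix σ (a, b))) := hx _ hvx
  have h3 := stp_le hσ h hvx
  have hv' : c (ix σ (a, b)) ≤ a := hv
  unfold det pt ix at *
  simp only at *
  rcases hσ with rfl | rfl
  · simp only [zero_mul, sub_zero, zero_add, one_mul] at *
    have e1 : -(b - x) ≤ a - c x := by omega
    have e2 : a - c x ≤ 0 := by omega
    nlinarith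
  · simp only [one_mul, sub_self, zero_mul] at *
    by_cases hs : u.2 ≤ u.1
    · nlinarith
    · push Not at hs
      nlinarith

/-- The vertices of the region below a vertex of the curve are below the wall. -/
theorem hxc_up (hσ : σ = 0 ∨ σ = 1) (h : Stp σ c) (hu1 : 0 < u.1) (hu2 : u.2 ≤ u.1) {x' : ℤ}
    (hx : pt σ c x' ∈ Wup σ u L) : ∀ v ∈ reg σ c, ix σ v ≤ x' → v.1 < c x' → v ∈ Wup σ u L := by
  rintro ⟨a, b⟩ hv hvx hvc
  change det u (a, b) ≤ L * ln σ u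
  have h1 : det u (pt σ c x') ≤ L * ln σ u := hx
  have h3 := stp_le hσ h hvx
  have hv' : c (ix σ (a, b)) ≤ a := hv
  unfold det pt ix at *
  simp only at *
  rcases hσ with rfl | rfl
  · simp only [zero_mul, sub_zero, zero_add, one_mul] at *
    have e1 : c x' - a ≤ x' - b := by omega
    have e2 : 0 ≤ c x' - a := by omega
    nlinarith
  · simp only [one_mul, sub_self, zero_mul] at *
    omega

/-- The point below `t` is below the wall. -/
theorem below_of_det (hu1 : 0 < u.1) {t : V} (ht : det u t < -(L * ln σ u) + u.1) :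
    ∀ r, r < t.2 → (t.1, r) ∉ Wlo σ u L := by
  intro r hr h
  have h1 : -(L * ln σ u) ≤ det u (t.1, r) := h
  unfold det at h1 ht
  simp only at h1
  nlinarith

theorem det_lt_of_not_mem {t : V} (ht : t ∉ Wlo σ u L) : det u t < -(L * ln σ u) := not_le.1 ht

end geom

/-! ### lower walls -/

section lower

variable {σ : ℤ} {w : W} {E : Set V} {c d : ℤ → ℤ} {u u' : V} {L L' : ℤ} {K : ℝ≥0∞}

/-- (1) Monotonicity in the target. -/
theorem BI_wlo_mono (hσ : σ = 0 ∨ σ = 1) (hu : 0 < u.1) {x x' m m' : ℤ} (hx : x ≤ x') (hm : m ≤ m')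
    (hcx : c x ≤ (tlo σ u L m).1) (hcx' : c x' ≤ (tlo σ u L m).1)
    (h1 : TI w σ (Wlo σ u L) c x' (tlo σ u L m) ≠ ⊤) (h2 : TI w σ (Wlo σ u L) c x (tlo σ u L m') ≠ ⊤) :
    BI w σ (Wlo σ u L) c (tlo σ u L m) x x' ≤ BI w σ (Wlo σ u L) c (tlo σ u L m') x x' :=
  toReal_exchange (wlo_mono hσ hu hx hm hcx hcx') h1 h2

/-- (2) Domination: an environment `E ⊇ Wlo` (in the region), a target `t₂` at the wall or below it;
up to `ε`, for all targets `t₁` far to the right. -/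
theorem BI_le_wlo_far (hσ : σ = 0 ∨ σ = 1) (h : Stp σ c) (hu1 : 0 < u.1) (hu2 : -u.1 ≤ u.2)
    {x x' : ℤ} (hx : x ≤ x') (hE : ∀ v ∈ reg σ c, v ∈ Wlo σ u L → v ∈ E) {t₂ : V}
    (ht₂ : det u t₂ < -(L * ln σ u) + u.1) (hxt : c x ≤ t₂.1 ∨ t₂ ∉ Wlo σ u L)
    (hin : ∀ j, x ≤ j → pt σ c j ∈ Wlo σ u L) (hT : TI w σ E c x' t₂ ≠ ⊤) {ε : ℝ} (hε : 0 < ε) :
    ∃ q : ℤ, ∀ t₁ : V, q < t₁.1 → TI w σ (Wlo σ u L) c x t₁ ≠ ⊤ →
      BI w σ E c t₂ x x' ≤ BI w σ (Wlo σ u L) c t₁ x x' + ε := by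
  have hlt : TI w σ E c x' t₂ < TI w σ E c x' t₂ + ENNReal.ofReal ε :=
    ENNReal.lt_add_right hT (by positivity)
  unfold TI T at hlt
  obtain ⟨A, hA⟩ := iInf_lt_iff.1 hlt
  obtain ⟨hA, hcA⟩ := iInf_lt_iff.1 hA
  obtain ⟨q, hq⟩ := exists_fst_le A
  refine ⟨q, fun t₁ ht₁ hT₁ => ?_⟩
  have hA' : IsW (reg σ c ∩ {v | v ∈ reg σ c → v ∈ E}) (pt σ c x') t₂ A :=
    ⟨hA.1, hA.2.1, fun v hv => ⟨(hA.2.2 v hv).1, fun _ => (hA.2.2 v hv).2⟩⟩
  have hcA' : cost w A ≠ ⊤ := ne_top_of_lt hcA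
  have key := wlo_dom_fix hσ hu1 hx (E := {v | v ∈ reg σ c → v ∈ E}) (fun v hv hv' => hE v hv' hv) hA' hcA'
    (below_of_det hu1 ht₂) hxt (fun p hp => lt_of_le_of_lt (hq p hp) ht₁)
    (hxc_lo hσ h hu1 hu2 hin)
  rw [TI_congr_env (E := {v | v ∈ reg σ c → v ∈ E}) (E' := E)
    (fun v hv => ⟨fun (h : v ∈ reg σ c → v ∈ E) => h hv, fun h _ => h⟩)] at key
  have h1 := toReal_exchange key hcA' hT₁
  have h2 : (cost w A).toReal ≤ (TI w σ E c x' t₂).toReal + ε := by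
    have := ENNReal.toReal_mono (ENNReal.add_ne_top.2 ⟨hT, ENNReal.ofReal_ne_top⟩) hcA.le
    rwa [ENNReal.toReal_add hT ENNReal.ofReal_ne_top, ENNReal.toReal_ofReal hε.le] at this
  unfold BI
  linarith

theorem tlo_fst (σ : ℤ) (u : V) (L m : ℤ) : (tlo σ u L m).1 = m * u.1 + σ * L := rfl

theorem tendsto_tlo_fst (hu1 : 0 < u.1) : Tendsto (fun m : ℤ => (tlo σ u L m).1) atTop atTop := by
  have h1 : Tendsto (fun m : ℤ => m + σ * L) atTop atTop := tendsto_atTop_add_const_right _ _ tendsto_id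
  refine tendsto_atTop_mono' _ ?_ h1
  filter_upwards [eventually_ge_atTop 0] with m hm
  rw [tlo_fst]
  nlinarith

/-- (2) Domination, for the targets on the wall. -/
theorem BI_le_wlo_ev (hσ : σ = 0 ∨ σ = 1) (h : Stp σ c) (hu1 : 0 < u.1) (hu2 : -u.1 ≤ u.2)
    {x x' : ℤ} (hx : x ≤ x') (hE : ∀ v ∈ reg σ c, v ∈ Wlo σ u L → v ∈ E) {t₂ : V}
    (ht₂ : det u t₂ < -(L * ln σ u) + u.1) (hxt : c x ≤ t₂.1 ∨ t₂ ∉ Wlo σ u L)
    (hin : ∀ j, x ≤ j → pt σ c j ∈ Wlo σ u L) (hT : TI w σ E c x' t₂ ≠ ⊤)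
    (hfin : ∀ᶠ m : ℤ in atTop, TI w σ (Wlo σ u L) c x (tlo σ u L m) ≠ ⊤) {ε : ℝ} (hε : 0 < ε) :
    ∀ᶠ m : ℤ in atTop, BI w σ E c t₂ x x' ≤ BI w σ (Wlo σ u L) c (tlo σ u L m) x x' + ε := by
  obtain ⟨q, hq⟩ := BI_le_wlo_far hσ h hu1 hu2 hx hE ht₂ hxt hin hT hε
  filter_upwards [hfin, (tendsto_tlo_fst (σ := σ) (L := L) hu1).eventually_gt_atTop q] with m h1 h2
  exact hq _ h2 h1

/-- (2) Domination by the limit. -/
theorem BI_le_lim (hσ : σ = 0 ∨ σ = 1) (h : Stp σ c) (hu1 : 0 < u.1) (hu2 : -u.1 ≤ u.2)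
    {x x' : ℤ} (hx : x ≤ x') (hE : ∀ v ∈ reg σ c, v ∈ Wlo σ u L → v ∈ E) {t₂ : V}
    (ht₂ : det u t₂ < -(L * ln σ u) + u.1) (hxt : c x ≤ t₂.1 ∨ t₂ ∉ Wlo σ u L)
    (hin : ∀ j, x ≤ j → pt σ c j ∈ Wlo σ u L) (hT : TI w σ E c x' t₂ ≠ ⊤)
    (hfin : ∀ᶠ m : ℤ in atTop, TI w σ (Wlo σ u L) c x (tlo σ u L m) ≠ ⊤) {ℓ : ℝ}
    (hℓ : Tendsto (fun m : ℤ => BI w σ (Wlo σ u L) c (tlo σ u L m) x x') atTop (𝓝 ℓ)) :
    BI w σ E c t₂ x x' ≤ ℓ := by
  apply le_of_forall_pos_le_add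
  intro ε hε
  exact ge_of_tendsto (hℓ.add_const ε) (BI_le_wlo_ev hσ h hu1 hu2 hx hE ht₂ hxt hin hT hfin hε)

/-- (1) Existence of the limit along the wall. -/
theorem exists_lim_wlo (hσ : σ = 0 ∨ σ = 1) (h : Stp σ c) (ho : ∀ i, Opn σ w K (pt σ c i)) (hK : K ≠ ⊤)
    (hu1 : 0 < u.1) {x x' : ℤ} (hx : x ≤ x') (hi : ∀ i, x ≤ i → i < x' → Cin σ (Wlo σ u L) c i)
    (hfin : ∀ᶠ m : ℤ in atTop, TI w σ (Wlo σ u L) c x (tlo σ u L m) ≠ ⊤) :
    ∃ ℓ : ℝ, Tendsto (fun m : ℤ => BI w σ (Wlo σ u L) c (tlo σ u L m) x x') atTop (𝓝 ℓ) := by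
  have h1 := (tendsto_tlo_fst (σ := σ) (L := L) hu1).eventually_ge_atTop (max (c x) (c x'))
  obtain ⟨M, hM⟩ := (hfin.and h1).exists_forall_of_atTop
  have hmono : MonotoneOn (fun m : ℤ => BI w σ (Wlo σ u L) c (tlo σ u L m) x x') (Set.Ici M) := by
    intro m hm m' hm' hmm
    have h2 := hM m hm
    have h3 := hM m' hm'
    refine BI_wlo_mono hσ hu1 hx hmm (le_trans (le_max_left _ _) h2.2) (le_trans (le_max_right _ _) h2.2) ?_ h3.1
    exact (TI_ne_top_iff hσ h ho hK hx hi _).1 h2.1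
  have hbd : ∀ m : ℤ, |BI w σ (Wlo σ u L) c (tlo σ u L m) x x'| ≤ (x' - x) * (2 * K).toReal :=
    fun m => abs_BI_le hσ h ho hK hx hi _
  -- shift to a monotone function
  set f : ℤ → ℝ := fun m => BI w σ (Wlo σ u L) c (tlo σ u L m) x x' with hf
  have hg : Monotone fun m : ℤ => f (max m M) := by
    intro m m' hmm
    exact hmono (Set.mem_Ici.2 (le_max_right _ _)) (Set.mem_Ici.2 (le_max_right _ _)) (max_le_max hmm le_rfl)
  have hb : BddAbove (Set.range fun m : ℤ => f (max m M)) := by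
    refine ⟨(x' - x) * (2 * K).toReal, ?_⟩
    rintro _ ⟨m, rfl⟩
    exact (le_abs_self _).trans (hbd _)
  refine ⟨_, (tendsto_atTop_ciSup hg hb).congr' ?_⟩
  filter_upwards [eventually_ge_atTop M] with m hm
  simp only [max_eq_left hm]

end lower

/-! ### finiteness -/

section finite

variable {σ : ℤ} {w : W} {D E : Set V} {c d : ℤ → ℤ} {u u' : V} {L L' : ℤ} {K : ℝ≥0∞}

theorem fin_trans {x y z : V} (h1 : T w D x y ≠ ⊤) (h2 : T w D y z ≠ ⊤) : T w D x z ≠ ⊤ :=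
  ne_top_of_le_ne_top (ENNReal.add_ne_top.2 ⟨h1, h2⟩) (T_triangle w D x y z)

theorem fin_symm {x y : V} (h : T w D x y ≠ ⊤) : T w D y x ≠ ⊤ := by rwa [T_comm]

theorem fin_hor (hw : ∀ v, w v 0 ≠ ⊤ ∧ w v 1 ≠ ⊤) {a a' b : ℤ} (h : a ≤ a')
    (hD : ∀ y, a ≤ y → y ≤ a' → ((y, b) : V) ∈ D) : T w D (a, b) (a', b) ≠ ⊤ := by
  induction a', h using Int.leInduction with
  | base => rw [T_self w (hD a le_rfl le_rfl)]; simp
  | succ y hy ih =>
    refine fin_trans (ih fun z h1 h2 => hD z h1 (by omega)) ?_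
    refine ne_top_of_le_ne_top ?_ (T_le_step w (hD y hy (by omega)) (hD (y + 1) (by omega) le_rfl))
    have := step_right w (y, b)
    simp only at this
    rw [this]
    exact (hw _).1

theorem fin_ver (hw : ∀ v, w v 0 ≠ ⊤ ∧ w v 1 ≠ ⊤) {a b b' : ℤ} (h : b ≤ b')
    (hD : ∀ r, b ≤ r → r ≤ b' → ((a, r) : V) ∈ D) : T w D (a, b) (a, b') ≠ ⊤ := by
  induction b', h using Int.leInduction with
  | base => rw [T_self w (hD b le_rfl le_rfl)]; simp
  | succ y hy ih =>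
    refine fin_trans (ih fun z h1 h2 => hD z h1 (by omega)) ?_
    refine ne_top_of_le_ne_top ?_ (T_le_step w (hD y hy (by omega)) (hD (y + 1) (by omega) le_rfl))
    have := step_up w (a, y)
    simp only at this
    rw [this]
    exact (hw _).2

/-- Finite passage times along the curve. -/
theorem fin_curve (hσ : σ = 0 ∨ σ = 1) (h : Stp σ c) (ho : ∀ i, Opn σ w K (pt σ c i)) (hK : K ≠ ⊤)
    {x x' : ℤ} (hx : x ≤ x') (hx0 : pt σ c x ∈ E) (hi : ∀ i, x ≤ i → i < x' → Cin σ E c i) :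
    T w (reg σ c ∩ E) (pt σ c x) (pt σ c x') ≠ ⊤ := by
  have h2K : 2 * K ≠ ⊤ := ENNReal.mul_ne_top (by norm_num) hK
  induction x', hx using Int.leInduction with
  | base =>
    have h0 : pt σ c x ∈ reg σ c ∩ E := ⟨pt_mem _ _ _, hx0⟩
    rw [T_self w h0]; simp
  | succ y hy ih =>
    exact fin_trans (ih fun i h1 h2 => hi i h1 (by omega))
      (ne_top_of_le_ne_top h2K (T_pt_succ_env hσ h ho (hi y hy (by omega))))

/-- `σ = 1`: two vertices of the region above a wall have finite distance. -/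
theorem fin_wlo_one (h : Stp 1 c) (hw : ∀ v, w v 0 ≠ ⊤ ∧ w v 1 ≠ ⊤) (hu1 : 0 < u.1) {v v' : V}
    (hv : v ∈ reg 1 c ∩ Wlo 1 u L) (hv' : v' ∈ reg 1 c ∩ Wlo 1 u L) :
    T w (reg 1 c ∩ Wlo 1 u L) v v' ≠ ⊤ := by
  wlog hvv : v.1 ≤ v'.1 generalizing v v'
  · exact fin_symm (this hv' hv (by omega))
  obtain ⟨a, b⟩ := v
  obtain ⟨a', b'⟩ := v'
  simp only at hvv
  obtain ⟨H, hH1, hH2, hH3⟩ : ∃ H : ℤ, b ≤ H ∧ b' ≤ H ∧ |L * ln 1 u| + |u.2| * (|a| + |a'|) ≤ H :=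
    ⟨max (max b b') (|L * ln 1 u| + |u.2| * (|a| + |a'|)), by omega, by omega, by omega⟩
  have up : ∀ {a b : ℤ}, ((a, b) : V) ∈ reg 1 c ∩ Wlo 1 u L → ∀ r, b ≤ r → ((a, r) : V) ∈ reg 1 c ∩ Wlo 1 u L := by
    intro a b hab r hr
    refine ⟨?_, wlo_up hu1 hab.2 hr⟩
    have h1 : c (ix 1 (a, b)) ≤ a := hab.1
    change c (ix 1 (a, r)) ≤ a
    unfold ix at h1 ⊢
    simp only [one_mul] at h1 ⊢
    have := stp_le (Or.inr rfl) h (i := b - a) (j := r - a) (by omega)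
    simp only [sub_self, zero_mul] at this
    omega
  refine fin_trans (fin_ver (D := reg 1 c ∩ Wlo 1 u L) hw hH1 fun r h1 _ => up hv r h1) (fin_trans ?_
    (fin_symm (fin_ver (D := reg 1 c ∩ Wlo 1 u L) hw hH2 fun r h1 _ => up hv' r h1)))
  refine fin_hor (D := reg 1 c ∩ Wlo 1 u L) hw hvv fun y h1 h2 => ⟨?_, ?_⟩
  · have h3 : c (ix 1 (a, H)) ≤ a := (up hv H hH1).1
    change c (ix 1 (y, H)) ≤ y
    unfold ix at h3 ⊢
    simp only [one_mul] at h3 ⊢
    have := stp_le (Or.inr rfl) h (i := H - y) (j := H - a) (by omega)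
    omega
  · change -(L * ln 1 u) ≤ det u (y, H)
    unfold det
    simp only
    have h4 : u.2 * y ≤ |u.2| * (|a| + |a'|) := by
      have h5 : u.2 * y ≤ |u.2| * |y| := by
        rw [← abs_mul]; exact le_abs_self _
      have h6 : |y| ≤ |a| + |a'| := by
        rw [abs_le]
        have := neg_abs_le a
        have := le_abs_self a'
        have := abs_nonneg a
        have := abs_nonneg a'
        constructor <;> omega
      exact h5.trans (mul_le_mul_of_nonneg_left h6 (abs_nonneg _))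
    have h7 : 0 ≤ H := le_trans (by positivity) hH3
    have h8 := neg_abs_le (L * ln 1 u)
    have h9 := le_abs_self (L * ln 1 u)
    nlinarith

/-- `σ = 0`: from the curve to a target above a wall. -/
theorem fin_wlo_zero (h : Stp 0 c) (ho : ∀ i, Opn 0 w K (pt 0 c i)) (hK : K ≠ ⊤)
    (hw : ∀ v, w v 0 ≠ ⊤ ∧ w v 1 ≠ ⊤) (hu1 : 0 < u.1) {i : ℤ} {t : V} (ht : t ∈ Wlo 0 u L)
    (hcol : ∀ r, t.2 ≤ r → r ≤ max t.2 i → c r ≤ t.1) (hi0 : ∀ l, i ≤ l → l ≤ max t.2 i → pt 0 c l ∈ Wlo 0 u L)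
    (hi : ∀ l, i ≤ l → l < max t.2 i → Cin 0 (Wlo 0 u L) c l) :
    TI w 0 (Wlo 0 u L) c i t ≠ ⊤ := by
  obtain ⟨a, b⟩ := t
  simp only at hcol hi hi0
  set j := max b i with hj
  have hbj : b ≤ j := le_max_left _ _
  have hij : i ≤ j := le_max_right _ _
  unfold TI
  refine fin_trans (fin_curve (Or.inl rfl) h ho hK hij (hi0 i le_rfl hij) hi) ?_
  have e : pt 0 c j = (c j, j) := by simp [pt]
  rw [e]
  have hcj := hcol j hbj le_rfl
  have htop : ∀ r, b ≤ r → ((a, r) : V) ∈ Wlo 0 u L := fun r hr => wlo_up hu1 ht hr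
  refine fin_trans (y := ((a, j) : V)) (fin_hor hw hcj fun y h1 h2 => ⟨?_, ?_⟩)
    (fin_symm (fin_ver hw hbj fun r h1 h2 => ⟨?_, htop r h1⟩))
  · change c (ix 0 (y, j)) ≤ y
    unfold ix
    simpa using h1
  · have h3 : -(L * ln 0 u) ≤ det u (pt 0 c j) := hi0 j hij le_rfl
    have h4 : -(L * ln 0 u) ≤ det u (a, j) := htop j hbj
    rw [e] at h3
    change -(L * ln 0 u) ≤ det u (y, j)
    unfold det at *
    simp only at *
    by_cases hs : 0 ≤ u.2
    · nlinarith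
    · push Not at hs
      nlinarith
  · change c (ix 0 (a, r)) ≤ a
    unfold ix
    simp only [zero_mul, sub_zero]
    exact hcol r h1 h2

/-- The targets of a lower wall are eventually in the region (`σ = 0`, and more). -/
theorem tlo_zero_ev (h : Stp 0 c) (hu2 : -u.1 < u.2) (hu3 : u.2 < u.1) (i : ℤ) :
    ∀ᶠ m : ℤ in atTop, ∀ r, (tlo 0 u L m).2 ≤ r → r ≤ max (tlo 0 u L m).2 i → c r ≤ (tlo 0 u L m).1 := by
  filter_upwards [eventually_ge_atTop (|c i| + |i| + |L|), eventually_ge_atTop 0] with m hm hm0 r h1 h2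
  unfold tlo at *
  simp only [zero_mul, add_zero] at *
  have a1 := le_abs_self (c i)
  have a2 := le_abs_self i
  have a3 := neg_abs_le i
  have a4 := le_abs_self L
  have a5 := neg_abs_le L
  by_cases hri : r ≤ i
  · have h3 := stp_le (Or.inl rfl) h hri
    simp only [sub_zero, one_mul] at h3
    nlinarith
  · push Not at hri
    have h3 := stp_le (Or.inl rfl) h hri.le
    simp only [sub_zero, one_mul] at h3
    have h4 : r ≤ m * u.2 - L := by omega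
    nlinarith

theorem tlo_one_ev (h : Stp 1 c) (hu2 : 0 < u.2) (hu3 : u.2 ≤ u.1) :
    ∀ᶠ m : ℤ in atTop, tlo 1 u L m ∈ reg 1 c := by
  filter_upwards [eventually_ge_atTop (|c 0| + 3 * |L|), eventually_ge_atTop 0] with m hm hm0
  change c (ix 1 (tlo 1 u L m)) ≤ (tlo 1 u L m).1
  unfold tlo ix
  simp only [one_mul]
  have a1 := le_abs_self (c 0)
  have a2 := neg_abs_le (c 0)
  have a4 := le_abs_self L
  have a5 := neg_abs_le L
  by_cases hri : m * u.2 - L - (m * u.1 + L) ≤ 0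
  · have h3 := stp_le (Or.inr rfl) h hri
    nlinarith
  · push Not at hri
    have h3 := stp_le (Or.inr rfl) h hri.le
    simp only [sub_self, zero_mul] at h3
    nlinarith

/-- (3) Eventual finiteness along a lower wall. -/
theorem TI_wlo_ne_top_ev (hσ : σ = 0 ∨ σ = 1) (h : Stp σ c) (ho : ∀ i, Opn σ w K (pt σ c i)) (hK : K ≠ ⊤)
    (hw : ∀ v, w v 0 ≠ ⊤ ∧ w v 1 ≠ ⊤) (hu1 : 0 < u.1) (hu2 : σ = 0 → -u.1 < u.2 ∧ u.2 < u.1) {i : ℤ}
    (hi : ∀ l, i ≤ l → Cin σ (Wlo σ u L) c l) (ht : σ = 1 → ∀ᶠ m : ℤ in atTop, tlo σ u L m ∈ reg σ c) :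
    ∀ᶠ m : ℤ in atTop, TI w σ (Wlo σ u L) c i (tlo σ u L m) ≠ ⊤ := by
  rcases hσ with rfl | rfl
  · filter_upwards [tlo_zero_ev (L := L) h (hu2 rfl).1 (hu2 rfl).2 i] with m hm
    exact fin_wlo_zero h ho hK hw hu1 (tlo_mem _ _ _ _) hm (fun l h1 _ => (hi l h1).1) (fun l h1 _ => hi l h1)
  · filter_upwards [ht rfl] with m hm
    exact fin_wlo_one h hw hu1 ⟨pt_mem _ _ _, (hi i le_rfl).1⟩ ⟨hm, tlo_mem _ _ _ _⟩

end finite

end C7
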