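import Mathlib
import Pool.Agent.Lib.MP_c725eb_pr.Route

/-!
# The route lemma at scale `t` (deterministic)
-/

set_option autoImplicit false

namespace C7

open scoped ENNReal

/-- The wall domains: `s = 1` above, `s = -1` below the line of direction `d`. -/
def DW (s : ℤ) (d : V) (L : ℤ) : Set V := {x | s * (d.2 * x.1 - d.1 * x.2) ≤ L}

/-- The wall domain contains a cone. -/
theorem mem_DW {s : ℤ} (hs : s = 1 ∨ s = -1) {d : V} (hd : 2 * |d.2| ≤ d.1) {L : ℤ} (hL : 0 ≤ L)
    {v : V} (hv : |v.1| ≤ 2 * (s * v.2)) : v ∈ DW s d L := by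
  obtain ⟨q, p⟩ := d
  obtain ⟨x, y⟩ := v
  simp only [DW, Set.mem_setOf_eq] at *
  have h1 : p * x ≤ |p| * |x| := by rw [← abs_mul]; exact le_abs_self _
  have h1' : -(p * x) ≤ |p| * |x| := by rw [← abs_mul]; exact neg_le_abs _
  have h2 : 2 * (|p| * |x|) ≤ q * |x| := by
    have := mul_le_mul_of_nonneg_right hd (abs_nonneg x)
    linarith
  have hq : 0 ≤ q := by have := abs_nonneg p; omega
  have h3 : q * |x| ≤ q * (2 * (s * y)) := mul_le_mul_of_nonneg_left hv hq
  rcases hs with rfl | rfl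
  · nlinarith
  · nlinarith

/-- The shift by `d` preserves the wall domain. -/
theorem DW_shift (s : ℤ) (d : V) (L : ℤ) (x : V) :
    (x.1 + d.1, x.2 + d.2) ∈ DW s d L ↔ x ∈ DW s d L := by
  unfold DW
  simp only [Set.mem_setOf_eq]
  have e : s * (d.2 * (x.1 + d.1) - d.1 * (x.2 + d.2)) = s * (d.2 * x.1 - d.1 * x.2) := by ring
  rw [e]

theorem DW_mono (s : ℤ) (d : V) {L L' : ℤ} (h : L ≤ L') : DW s d L ⊆ DW s d L' :=
  fun _ hx => le_trans hx h

theorem mem_reg_iff_ln {σ : ℤ} (hσ : σ = 0 ∨ σ = 1) (c : ℤ → ℤ) (x : V) :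
    x ∈ reg σ c ↔ ln σ (pt σ c (ix σ x)) ≤ ln σ x := by
  obtain ⟨a, b⟩ := x
  unfold reg ln pt ix
  simp only [Set.mem_setOf_eq]
  rcases hσ with rfl | rfl
  · simp
  · simp only [one_mul]; omega

/-- The curve of line `k` stays within distance `t` of the line in a window. -/
def Win (σ : ℤ) (w : W) (K : ℝ≥0∞) (k M t : ℤ) : Prop :=
  ∀ i : ℤ, |i| ≤ M → ln σ (pk σ w K k i) ≤ k + t

/-- THE ROUTE LEMMA AT SCALE `t`. -/
theorem route_scale {σ : ℤ} (hσ : σ = 0 ∨ σ = 1) {s : ℤ} (hs : s = 1 ∨ s = -1) {w : W}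
    (hw : ∀ v, w v 2 = ⊤) {K : ℝ≥0∞} (hK : K ≠ ⊤) (hg : Good σ w K) (hg' : Good (1 - σ) w K)
    {n t : ℕ} (hnt : n ≤ t) (ht : 4 ≤ t) (hW₀ : Win σ w K 0 (30 * t) t)
    (hW₁ : Win σ w K n (30 * t) t)
    (hW' : Win (1 - σ) w K ((1 - 2 * σ) * (s * (8 * t))) (30 * t) t)
    {D : Set V} (hD : ∀ v : V, |v.1| ≤ 2 * (s * v.2) → v ∈ D)
    {a b : ℤ} (ha : |a| ≤ 2 * t) (hb : |b| ≤ 2 * t)
    (haD : ∀ i, s * a ≤ s * i → Bal (pk σ w K 0 i) ⊆ D)
    (hbD : ∀ i, s * b ≤ s * i → Bal (pk σ w K n i) ⊆ D) :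
    T w (D ∩ Rg σ w K 0) (pk σ w K 0 a) (pk σ w K n b) ≤ (80 * t : ℕ) * (2 * K) + 2 := by
  have hσ' : (1 - σ : ℤ) = 0 ∨ (1 - σ : ℤ) = 1 := by rcases hσ with rfl | rfl <;> simp
  set k' : ℤ := (1 - 2 * σ) * (s * (8 * t)) with hk'
  set c' : ℤ → ℤ := ck (1 - σ) w K k' with hc'
  -- the position of the vertices of the transversal curve
  have hlo : ∀ i : ℤ, k' ≤ ln (1 - σ) (pt (1 - σ) c' i) := fun i => le_ln_pk hσ' hg' k' i
  have hup : ∀ i : ℤ, |i| ≤ 30 * t → ln (1 - σ) (pt (1 - σ) c' i) ≤ k' + t := fun i hi =>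
    hW' i hi
  have ht' : (4 : ℤ) ≤ t := by exact_mod_cast ht
  have hnt' : (n : ℤ) ≤ t := by exact_mod_cast hnt
  have hn0 : (0 : ℤ) ≤ n := by positivity
  have hreg : Rg σ w K n ⊆ Rg σ w K 0 := Rg_anti hσ hg (by positivity)
  rw [abs_le] at ha hb
  -- membership in the region of a curve, through the window
  have hin : ∀ x : V, |ix σ x| ≤ 30 * t → (n : ℤ) + t ≤ ln σ x → x ∈ Rg σ w K n := by
    intro x h1 h2
    exact (mem_reg_iff_ln hσ _ _).2 ((hW₁ _ h1).trans h2)
  have hout : ∀ x : V, ln σ x < 0 → x ∉ Rg σ w K 0 := by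
    intro x h1 h2
    have := le_ln_of_mem hσ hg h2
    omega
  -- the four cases
  obtain ⟨i₁, i₂, x, y, hi, hm, hb1, hxy, hx, hy⟩ : ∃ i₁ i₂ : ℤ, ∃ x y : V, i₁ ≤ i₂ ∧
      i₂ - i₁ ≤ (10 * t : ℕ) ∧
      (∀ i, i₁ ≤ i → i ≤ i₂ → |i| ≤ 30 * t ∧
        (∀ v ∈ Bal (pt (1 - σ) c' i), |v.1| ≤ 2 * (s * v.2) ∧ |ix σ v| ≤ 25 * t ∧
          2 * t ≤ s * ix σ v)) ∧
      ((x = pt (1 - σ) c' i₁ ∧ y = pt (1 - σ) c' i₂) ∨
        (x = pt (1 - σ) c' i₂ ∧ y = pt (1 - σ) c' i₁)) ∧ x ∉ Rg σ w K 0 ∧ y ∈ Rg σ w K n := by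
    rcases hσ with rfl | rfl
    · -- columns; the transversal curve is an antidiagonal
      simp only [mul_zero, sub_zero, one_mul] at hk' hlo hup
      simp only [sub_zero]
      have hlo' : ∀ i : ℤ, k' ≤ 2 * c' i + i := fun i => by
        have := hlo i
        simp only [ln, pt, one_mul] at this
        omega
      have hup' : ∀ i : ℤ, |i| ≤ 30 * t → 2 * c' i + i ≤ k' + t := fun i hi => by
        have := hup i hi
        simp only [ln, pt, one_mul] at this
        omega
      refine ⟨k' - 2 * n - 2 * t, k' + t + 2, pt 1 c' (k' + t + 2),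
        pt 1 c' (k' - 2 * n - 2 * t), by omega, by push_cast; omega, ?_, Or.inr ⟨rfl, rfl⟩, ?_, ?_⟩
      · intro i h1 h2
        have hi30 : |i| ≤ 30 * t := by
          rw [abs_le]
          rcases hs with rfl | rfl <;> omega
        refine ⟨hi30, ?_⟩
        have h3 := hlo' i
        have h4 := hup' i hi30
        rintro ⟨v1, v2⟩ ⟨hv1, hv2⟩
        simp only [pt, one_mul, ix, zero_mul, sub_zero] at hv1 hv2 ⊢
        rw [abs_le] at hv1 hv2
        rcases hs with rfl | rfl
        · refine ⟨?_, ?_, ?_⟩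
          · rw [abs_le]; omega
          · rw [abs_le]; omega
          · omega
        · refine ⟨?_, ?_, ?_⟩
          · rw [abs_le]; omega
          · rw [abs_le]; omega
          · omega
      · apply hout
        have hi30 : |k' + t + 2| ≤ 30 * t := by
          rw [abs_le]
          rcases hs with rfl | rfl <;> omega
        have h4 := hup' _ hi30
        simp only [ln, pt, zero_mul, add_zero]
        omega
      · have h3 := hlo' (k' - 2 * n - 2 * t)
        have hi30 : |k' - 2 * n - 2 * t| ≤ 30 * t := by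
          rw [abs_le]
          rcases hs with rfl | rfl <;> omega
        have h4 := hup' _ hi30
        apply hin
        · simp only [ix, pt, one_mul, zero_mul, sub_zero]
          rw [abs_le]
          rcases hs with rfl | rfl <;> omega
        · simp only [ln, pt, zero_mul, add_zero]
          omega
    · -- antidiagonals; the transversal curve is a column
      have e2 : (1 - 2 * 1 : ℤ) = -1 := by norm_num
      rw [e2] at hk'
      simp only [sub_self] at hlo hup
      simp only [sub_self]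
      have hlo' : ∀ i : ℤ, k' ≤ c' i := fun i => by
        have := hlo i
        simp only [ln, pt, zero_mul, add_zero] at this
        omega
      have hup' : ∀ i : ℤ, |i| ≤ 30 * t → c' i ≤ k' + t := fun i hi => by
        have := hup i hi
        simp only [ln, pt, zero_mul, add_zero] at this
        omega
      refine ⟨-k' - t - 1, n + t - k', pt 0 c' (-k' - t - 1),
        pt 0 c' (n + t - k'), by omega, by push_cast; omega, ?_, Or.inl ⟨rfl, rfl⟩, ?_, ?_⟩
      · intro i h1 h2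
        have hi30 : |i| ≤ 30 * t := by
          rw [abs_le]
          rcases hs with rfl | rfl <;> omega
        refine ⟨hi30, ?_⟩
        have h3 := hlo' i
        have h4 := hup' i hi30
        rintro ⟨v1, v2⟩ ⟨hv1, hv2⟩
        simp only [pt, one_mul, ix, zero_mul, zero_add] at hv1 hv2 ⊢
        rw [abs_le] at hv1 hv2
        rcases hs with rfl | rfl
        · refine ⟨?_, ?_, ?_⟩
          · rw [abs_le]; omega
          · rw [abs_le]; omega
          · omega
        · refine ⟨?_, ?_, ?_⟩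
          · rw [abs_le]; omega
          · rw [abs_le]; omega
          · omega
      · apply hout
        have hi30 : |-k' - t - 1| ≤ 30 * t := by
          rw [abs_le]
          rcases hs with rfl | rfl <;> omega
        have h4 := hup' _ hi30
        simp only [ln, pt, one_mul, zero_mul, zero_add]
        omega
      · have h3 := hlo' (n + t - k')
        have hi30 : |n + t - k'| ≤ 30 * t := by
          rw [abs_le]
          rcases hs with rfl | rfl <;> omega
        have h4 := hup' _ hi30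
        apply hin
        · simp only [ix, pt, one_mul, zero_mul, zero_add]
          rw [abs_le]
          rcases hs with rfl | rfl <;> omega
        · simp only [ln, pt, one_mul, zero_mul, zero_add]
          omega
  have hND : Nbh (1 - σ) c' i₁ i₂ ⊆ D := by
    intro v hv
    simp only [Nbh, Set.mem_iUnion] at hv
    obtain ⟨i, hi, hv⟩ := hv
    exact hD v ((hb1 i hi.1 hi.2).2 v hv).1
  have hNi : ∀ v ∈ Nbh (1 - σ) c' i₁ i₂, |ix σ v| ≤ 25 * t ∧ 2 * t ≤ s * ix σ v := by
    intro v hv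
    simp only [Nbh, Set.mem_iUnion] at hv
    obtain ⟨i, hi, hv⟩ := hv
    exact ((hb1 i hi.1 hi.2).2 v hv).2
  have hkey : ∀ {l a : ℤ} (_ : -(2 * t) ≤ a ∧ a ≤ 2 * t)
      (_ : ∀ i, s * a ≤ s * i → Bal (pk σ w K l i) ⊆ D) (i : ℤ),
      pk σ w K l i ∈ Nbh (1 - σ) c' i₁ i₂ → |i - a| ≤ (30 * t : ℕ) ∧
        ∀ k, min a i ≤ k → k ≤ max a i → Bal (pk σ w K l k) ⊆ D := by
    intro l a ha haD i hi
    have h1 := hNi _ hi
    rw [ix_pk, abs_le] at h1
    constructor
    · rw [abs_le]; push_cast; omega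
    · intro k hk1 hk2
      apply haD
      rcases hs with rfl | rfl
      · simp only [one_mul] at h1 ⊢
        have : min a i = a := min_eq_left (by omega)
        omega
      · have : max a i = a := max_eq_left (by omega)
        omega
  have hfinal := route hσ hσ' (ck_stp hσ hg 0) (ck_stp hσ hg n) (ck_stp hσ' hg' k') hreg hw hK
    (pk_open hg 0) (pk_open hg n) (pk_open hg' k') hi hxy hx hy hND (a := a) (b := b)
    (m := 10 * t) (n₀ := 30 * t) (n₁ := 30 * t) hm (hkey ha haD) (hkey hb hbD)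
  refine hfinal.trans (le_of_eq ?_)
  push_cast
  ring

/-- Sufficient condition for the neighbourhood of a vertex of the curve of line `0` to be in the
cone. -/
theorem bal_subset {σ : ℤ} (hσ : σ = 0 ∨ σ = 1) {s : ℤ} (hs : s = 1 ∨ s = -1) {w : W} {K : ℝ≥0∞}
    (hg : Good σ w K) {D : Set V} (hD : ∀ v : V, |v.1| ≤ 2 * (s * v.2) → v ∈ D) {i : ℤ}
    (h : 3 * ln σ (pk σ w K 0 i) + 6 ≤ s * i) : Bal (pk σ w K 0 i) ⊆ D := by
  intro v hv
  apply hD
  have h0 := le_ln_pk hσ hg 0 i
  obtain ⟨v1, v2⟩ := v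
  obtain ⟨hv1, hv2⟩ := hv
  rw [abs_le] at hv1 hv2 ⊢
  simp only [pk, pt, ln] at *
  rcases hσ with rfl | rfl <;> rcases hs with rfl | rfl
  · simp only [zero_mul, add_zero, zero_add, one_mul] at *; omega
  · simp only [zero_mul, add_zero, zero_add] at *; omega
  · simp only [one_mul] at *; omega
  · simp only [one_mul] at *; omega

end C7
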