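import Mathlib
import Pool.Agent.Lib.MP_c725eb_pr.CurveProb
import Pool.Agent.Lib.MP_c725eb_pr.Scale
import Pool.Agent.Lib.MP_c725eb_pr.Transfer

/-!
# Curves and passage times on the canonical space: measurability, tails, domination

`SmallK F K`: the level `K` is admissible for the law `F`.  Main result: `exists_dom`, a dominating
variable of finite expectation for passage times between curve vertices, uniformly in the domains
which contain a cone.
-/

set_option autoImplicit false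

namespace C7

open MeasureTheory ProbabilityTheory Filter Set
open scoped ENNReal Topology

/-! ### measurability -/

section meas

variable {Ω : Type*} [MeasurableSpace Ω]

theorem measurable_step {w : Ω → W} (hw : ∀ v d, Measurable fun ω => w ω v d) (u v : V) :
    Measurable fun ω => step (w ω) u v := by
  unfold step
  split_ifs <;> first | exact hw _ _ | exact measurable_const

theorem measurable_cost {w : Ω → W} (hw : ∀ v d, Measurable fun ω => w ω v d) (l : List V) :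
    Measurable fun ω => cost (w ω) l := by
  induction l with
  | nil => exact measurable_const
  | cons a l ih =>
    cases l with
    | nil => exact measurable_const
    | cons b l =>
      simp only [cost_cons_cons]
      exact (measurable_step hw a b).add ih

theorem measurableSet_isW {D : Ω → Set V} (hD : ∀ v, MeasurableSet {ω | v ∈ D ω}) {x y : Ω → V}
    (hx : Measurable x) (hy : Measurable y) (l : List V) :
    MeasurableSet {ω | IsW (D ω) (x ω) (y ω) l} := by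
  have h1 : ∀ {z : Ω → V}, Measurable z → ∀ o : Option V, MeasurableSet {ω | o = some (z ω)} := by
    intro z hz o
    cases o with
    | none =>
      have : {ω | (none : Option V) = some (z ω)} = ∅ := by
        ext ω; simp
      rw [this]; exact MeasurableSet.empty
    | some a =>
      have : {ω | some a = some (z ω)} = z ⁻¹' {a} := by
        ext ω
        simp only [Option.some.injEq, mem_ofPred_eq, mem_preimage, mem_singleton_iff]
        exact eq_comm
      rw [this]; exact hz (measurableSet_singleton a)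
  have e : {ω | IsW (D ω) (x ω) (y ω) l} =
      {ω | l.head? = some (x ω)} ∩ ({ω | l.getLast? = some (y ω)} ∩
        ⋂ v ∈ {v : V | v ∈ l}, {ω | v ∈ D ω}) := by
    ext ω
    simp only [IsW, mem_ofPred_eq, mem_inter_iff, mem_iInter]
  rw [e]
  exact (h1 hx _).inter ((h1 hy _).inter (MeasurableSet.biInter (to_countable _) fun v _ => hD v))

/-- Measurability of passage times with random domains and end points. -/
theorem measurable_T {w : Ω → W} (hw : ∀ v d, Measurable fun ω => w ω v d) {D : Ω → Set V}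
    (hD : ∀ v, MeasurableSet {ω | v ∈ D ω}) {x y : Ω → V} (hx : Measurable x) (hy : Measurable y) :
    Measurable fun ω => T (w ω) (D ω) (x ω) (y ω) := by
  classical
  have e : (fun ω => T (w ω) (D ω) (x ω) (y ω)) = fun ω => ⨅ l : List V,
      if IsW (D ω) (x ω) (y ω) l then cost (w ω) l else ⊤ := by
    funext ω
    unfold T
    refine iInf_congr fun l => ?_
    by_cases h : IsW (D ω) (x ω) (y ω) l
    · simp [h]
    · simp [h]
  rw [e]
  refine Measurable.iInf fun l => Measurable.ite (measurableSet_isW hD hx hy l)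
    (measurable_cost hw l) measurable_const

end meas

theorem measurable_wt3 (v : V) (d : Fin 3) : Measurable fun ω : Om => wt ω v d := by
  unfold wt
  split_ifs <;> fun_prop

theorem measurable_wt2 (v : V) (d : Fin 2) : Measurable fun ω : Om => wt ω v d.castSucc :=
  measurable_wt3 v _

theorem measurable_pk_wt (σ : ℤ) (K : ℝ≥0∞) (k i : ℤ) :
    Measurable fun ω : Om => pk σ (wt ω) K k i := measurable_pk σ measurable_wt2 K k i

theorem measurableSet_mem_Rg_wt (σ : ℤ) (K : ℝ≥0∞) (k : ℤ) (x : V) :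
    MeasurableSet {ω : Om | x ∈ Rg σ (wt ω) K k} := measurableSet_mem_Rg σ measurable_wt2 K k x

/-! ### admissible levels -/

/-- Admissible levels. -/
def SmallK (F : Measure ℝ) (K : ℝ≥0∞) : Prop :=
  K ≠ ⊤ ∧ 3 * F {x | K < ENNReal.ofReal x} ≤ ((1 / 3) ^ 3) ^ 4

theorem exists_smallK (F : Measure ℝ) [IsProbabilityMeasure F] : ∃ K, SmallK F K := by
  have h1 : Tendsto (fun n : ℕ => F {x | (n : ℝ≥0∞) < ENNReal.ofReal x}) atTop (𝓝 (F ∅)) := by
    have e : (⋂ n : ℕ, {x : ℝ | (n : ℝ≥0∞) < ENNReal.ofReal x}) = ∅ := by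
      ext x
      simp only [mem_iInter, mem_ofPred_eq, mem_empty_iff_false, iff_false, not_forall, not_lt]
      obtain ⟨n, hn⟩ := exists_nat_ge x
      refine ⟨n, ?_⟩
      rw [← ENNReal.ofReal_natCast]
      exact ENNReal.ofReal_le_ofReal hn
    rw [← e]
    refine tendsto_measure_iInter_atTop (fun n => ?_) ?_ ⟨0, measure_ne_top _ _⟩
    · exact (measurableSet_lt measurable_const ENNReal.measurable_ofReal).nullMeasurableSet
    · intro m n hmn x hx
      simp only [mem_ofPred_eq] at hx ⊢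
      refine lt_of_le_of_lt ?_ hx
      exact_mod_cast hmn
  rw [measure_empty] at h1
  have hpos : (0 : ℝ≥0∞) < ((1 / 3) ^ 3) ^ 4 / 3 := by
    refine ENNReal.div_pos ?_ (by norm_num)
    refine pow_ne_zero _ (pow_ne_zero _ ?_)
    rw [one_div]
    exact ENNReal.inv_ne_zero.2 (by norm_num)
  obtain ⟨n, hn⟩ := (h1.eventually (gt_mem_nhds hpos)).exists
  refine ⟨n, ENNReal.natCast_ne_top n, ?_⟩
  have h2 : 3 * F {x | (n : ℝ≥0∞) < ENNReal.ofReal x} ≤ 3 * (((1 / 3) ^ 3) ^ 4 / 3) :=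
    mul_le_mul' le_rfl hn.le
  rwa [ENNReal.mul_div_cancel (by norm_num) (by norm_num)] at h2

section canonical

variable {F : Measure ℝ} [IsProbabilityMeasure F] {K : ℝ≥0∞}

theorem iIndepFun_wt : iIndepFun (fun (e : V × Fin 2) (ω : Om) => wt ω e.1 e.2.castSucc)
    (iid Ed F) := by
  have h := iIndepFun_infinitePi (P := fun _ : Ed => F) (X := fun _ : Ed => ENNReal.ofReal)
    (fun _ => ENNReal.measurable_ofReal)
  have e : (fun (e : V × Fin 2) (ω : Om) => wt ω e.1 e.2.castSucc) =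
      fun (e : Ed) (ω : Om) => ENNReal.ofReal (ω e) := by
    funext ⟨v, d⟩ ω
    fin_cases d
    · rfl
    · rfl
  rw [e]
  exact h

theorem measure_wt_gt (e : V × Fin 2) (K : ℝ≥0∞) :
    iid Ed F {ω : Om | K < wt ω e.1 e.2.castSucc} = F {x | K < ENNReal.ofReal x} := by
  have e1 : {ω : Om | K < wt ω e.1 e.2.castSucc} =
      Function.eval e ⁻¹' {x | K < ENNReal.ofReal x} := by
    obtain ⟨v, d⟩ := e
    fin_cases d
    · rfl
    · rfl
  rw [e1, iid, (measurePreserving_eval_infinitePi (fun _ : Ed => F) e).measure_preimage]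
  exact (measurableSet_lt measurable_const ENNReal.measurable_ofReal).nullMeasurableSet

theorem ae_good_wt (hK : SmallK F K) {σ : ℤ} (hσ : σ = 0 ∨ σ = 1) :
    ∀ᵐ ω ∂(iid Ed F), Good σ (wt ω) K :=
  ae_good hσ iIndepFun_wt (fun e => (measure_wt_gt e K).le) hK.2

/-- Exponential tails of the distances of the curve vertices from their lines. -/
theorem pk_tail_wt (hK : SmallK F K) {σ : ℤ} (hσ : σ = 0 ∨ σ = 1) (k i : ℤ) (t : ℕ) :
    iid Ed F {ω : Om | k + t < ln σ (pk σ (wt ω) K k i)} ≤ 162 * (1 / 64) ^ t := by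
  rcases Nat.eq_zero_or_pos t with rfl | ht
  · rw [pow_zero, mul_one]
    exact prob_le_one.trans (by norm_num)
  · obtain ⟨h, rfl⟩ : ∃ h, t = h + 1 := ⟨t - 1, by omega⟩
    refine (pk_tail hσ iIndepFun_wt (fun e => (measure_wt_gt e K).le) hK.2 h k i).trans ?_
    have e1 : ((1 : ℝ≥0∞) / 9) ^ (2 * h) = (1 / 81) ^ h := by
      rw [pow_mul]
      congr 1
      rw [one_div, one_div, ← ENNReal.inv_pow]
      norm_num
    rw [e1]
    have e2 : ((1 : ℝ≥0∞) / 81) ^ h ≤ (1 / 64) ^ h := by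
      refine pow_le_pow_left' ?_ h
      rw [one_div, one_div]
      exact ENNReal.inv_le_inv.2 (by norm_num)
    have e3 : (64 : ℝ≥0∞) * (1 / 64) = 1 := by
      rw [one_div]
      exact ENNReal.mul_inv_cancel (by norm_num) (by norm_num)
    calc 2 * ((1 : ℝ≥0∞) / 81) ^ h ≤ 2 * (1 / 64) ^ h := by gcongr
      _ = 2 * (1 / 64) ^ h * (64 * (1 / 64)) := by rw [e3, mul_one]
      _ = 128 * (1 / 64) ^ (h + 1) := by ring
      _ ≤ 162 * (1 / 64) ^ (h + 1) := by
          gcongr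
          norm_num

end canonical

/-! ### summation -/

theorem nat_succ_le_two_pow (t : ℕ) : t + 1 ≤ 2 ^ t := by
  have := Nat.lt_two_pow_self (n := t)
  omega

theorem tsum_geom_half : ∑' t : ℕ, ((1 : ℝ≥0∞) / 2) ^ t ≠ ⊤ := by
  rw [ENNReal.tsum_geometric]
  rw [ENNReal.inv_ne_top]
  have : (1 : ℝ≥0∞) / 2 < 1 := by
    rw [one_div]; exact ENNReal.one_half_lt_one
  exact (tsub_pos_of_lt this).ne'

theorem succ_mul_pow_le (t : ℕ) : ((t : ℝ≥0∞) + 1) * (1 / 4) ^ t ≤ (1 / 2) ^ t := by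
  have h1 : ((t : ℝ≥0∞) + 1) ≤ 2 ^ t := by exact_mod_cast nat_succ_le_two_pow t
  have h2 : (2 : ℝ≥0∞) * (1 / 4) = 1 / 2 := by
    rw [one_div, one_div, show (4 : ℝ≥0∞) = 2 * 2 by norm_num,
      ENNReal.mul_inv (by norm_num) (by norm_num), ← mul_assoc,
      ENNReal.mul_inv_cancel (by norm_num) (by norm_num), one_mul]
  calc ((t : ℝ≥0∞) + 1) * (1 / 4) ^ t ≤ 2 ^ t * (1 / 4) ^ t := by gcongr
    _ = (1 / 2) ^ t := by rw [← mul_pow, h2]

theorem pow_sub_le (i c : ℕ) : ((1 : ℝ≥0∞) / 4) ^ (i - c) ≤ 4 ^ c * (1 / 4) ^ i := by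
  have e3 : (4 : ℝ≥0∞) * (1 / 4) = 1 := by
    rw [one_div]
    exact ENNReal.mul_inv_cancel (by norm_num) (by norm_num)
  have h1 : (1 : ℝ≥0∞) / 4 ≤ 1 := by
    rw [one_div]; exact ENNReal.inv_le_one.2 (by norm_num)
  calc ((1 : ℝ≥0∞) / 4) ^ (i - c) = (4 * (1 / 4)) ^ c * (1 / 4) ^ (i - c) := by
        rw [e3, one_pow, one_mul]
    _ = 4 ^ c * (1 / 4) ^ (c + (i - c)) := by rw [mul_pow, mul_assoc, ← pow_add]
    _ ≤ 4 ^ c * (1 / 4) ^ i :=
        mul_le_mul' le_rfl (pow_le_pow_right_of_le_one' h1 (by omega))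

/-! ### a random good scale -/

section scale

variable {Ω : Type*} [MeasurableSpace Ω] {P : Measure Ω}

/-- There is a good scale above `t₀` and below an integrable variable. -/
theorem exists_good_scale {G : ℕ → Set Ω} (hGm : ∀ t, MeasurableSet (G t))
    (hG : ∑' t, P (G t)ᶜ ≠ ⊤) {t₀ : Ω → ℕ} (ht₀m : Measurable t₀)
    (ht₀ : ∫⁻ ω, (t₀ ω : ℝ≥0∞) ∂P ≠ ⊤) :
    ∃ Z : Ω → ℝ≥0∞, Measurable Z ∧ ∫⁻ ω, Z ω ∂P ≠ ⊤ ∧
      ∀ᵐ ω ∂P, ∃ t : ℕ, t₀ ω ≤ t ∧ (t : ℝ≥0∞) ≤ Z ω ∧ ω ∈ G t := by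
  classical
  set S : Ω → ℝ≥0∞ := fun ω => ∑' t, (G t)ᶜ.indicator (fun _ => (1 : ℝ≥0∞)) ω with hS
  have hSm : Measurable S := Measurable.tsum fun t =>
    measurable_const.indicator (hGm t).compl
  have hSi : ∫⁻ ω, S ω ∂P ≠ ⊤ := by
    rw [hS, lintegral_tsum fun t => (measurable_const.indicator (hGm t).compl).aemeasurable]
    simp only [lintegral_indicator (hGm _).compl, lintegral_const, one_mul,
      Measure.restrict_apply MeasurableSet.univ, univ_inter]
    exact hG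
  have hcast : Measurable fun ω => (t₀ ω : ℝ≥0∞) :=
    (measurable_from_top (f := fun n : ℕ => (n : ℝ≥0∞))).comp ht₀m
  refine ⟨fun ω => t₀ ω + S ω, hcast.add hSm, ?_, ?_⟩
  · rw [lintegral_add_left hcast]
    exact ENNReal.add_ne_top.2 ⟨ht₀, hSi⟩
  · filter_upwards [ae_lt_top hSm hSi] with ω hω
    set n : ℕ := ⌊(S ω).toReal⌋₊ with hn
    have h1 : (n : ℝ≥0∞) ≤ S ω := by
      rw [← ENNReal.ofReal_toReal hω.ne, ← ENNReal.ofReal_natCast]
      exact ENNReal.ofReal_le_ofReal (Nat.floor_le ENNReal.toReal_nonneg)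
    have h2 : S ω < (n : ℝ≥0∞) + 1 := by
      have h3 := Nat.lt_floor_add_one (S ω).toReal
      rw [← hn] at h3
      rw [← ENNReal.ofReal_toReal hω.ne]
      have h4 : (n : ℝ≥0∞) + 1 = ENNReal.ofReal ((n : ℝ) + 1) := by
        rw [ENNReal.ofReal_add (by positivity) zero_le_one, ENNReal.ofReal_natCast,
          ENNReal.ofReal_one]
      rw [h4]
      exact (ENNReal.ofReal_lt_ofReal_iff (by positivity)).2 h3
    by_contra hcon
    push Not at hcon
    have h3 : ∀ t ∈ Finset.Icc (t₀ ω) (t₀ ω + n), ω ∉ G t := by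
      intro t ht
      rw [Finset.mem_Icc] at ht
      refine hcon t ht.1 ?_
      refine le_trans ?_ (add_le_add le_rfl h1)
      exact_mod_cast ht.2
    have h4 : ((n : ℝ≥0∞) + 1) ≤ S ω := by
      calc ((n : ℝ≥0∞) + 1) = ∑ t ∈ Finset.Icc (t₀ ω) (t₀ ω + n), (1 : ℝ≥0∞) := by
            rw [Finset.sum_const, Nat.card_Icc, nsmul_eq_mul, mul_one]
            have : t₀ ω + n + 1 - t₀ ω = n + 1 := by omega
            rw [this]
            push_cast
            rfl
        _ = ∑ t ∈ Finset.Icc (t₀ ω) (t₀ ω + n), (G t)ᶜ.indicator (fun _ => (1 : ℝ≥0∞)) ω := by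
            refine Finset.sum_congr rfl fun t ht => ?_
            rw [indicator_of_mem (h3 t ht)]
        _ ≤ S ω := ENNReal.sum_le_tsum _
    exact absurd h4 (not_le.2 h2)

end scale

/-! ### windows -/

section win

variable {F : Measure ℝ} [IsProbabilityMeasure F] {K : ℝ≥0∞}

theorem measurable_ln_pk (σ : ℤ) (K : ℝ≥0∞) (k i : ℤ) :
    Measurable fun ω : Om => ln σ (pk σ (wt ω) K k i) :=
  (measurable_of_countable (ln σ)).comp (measurable_pk_wt σ K k i)

theorem measurableSet_win (σ : ℤ) (K : ℝ≥0∞) (k M t : ℤ) :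
    MeasurableSet {ω : Om | Win σ (wt ω) K k M t} := by
  have e : {ω : Om | Win σ (wt ω) K k M t} =
      ⋂ i ∈ {i : ℤ | |i| ≤ M}, {ω : Om | ln σ (pk σ (wt ω) K k i) ≤ k + t} := by
    ext ω
    simp only [Win, mem_ofPred_eq, mem_iInter]
  rw [e]
  exact MeasurableSet.biInter (to_countable _) fun i _ =>
    measurableSet_le (measurable_ln_pk σ K k i) measurable_const

theorem measure_win_compl (hK : SmallK F K) {σ : ℤ} (hσ : σ = 0 ∨ σ = 1) (k : ℤ) (t : ℕ) :
    iid Ed F {ω : Om | Win σ (wt ω) K k (30 * t) t}ᶜ ≤ 9882 * (1 / 2) ^ t := by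
  have h1 : {ω : Om | Win σ (wt ω) K k (30 * t) t}ᶜ ⊆
      ⋃ i ∈ Finset.Icc (-(30 * t : ℤ)) (30 * t), {ω | k + t < ln σ (pk σ (wt ω) K k i)} := by
    intro ω hω
    simp only [Win, mem_compl_iff, mem_ofPred_eq, not_forall, not_le] at hω
    obtain ⟨i, hi, h⟩ := hω
    simp only [mem_iUnion, Finset.mem_Icc]
    exact ⟨i, abs_le.1 hi, h⟩
  have h2 : (1 / 64 : ℝ≥0∞) ≤ 1 / 4 := by
    rw [one_div, one_div]
    exact ENNReal.inv_le_inv.2 (by norm_num)
  calc iid Ed F {ω : Om | Win σ (wt ω) K k (30 * t) t}ᶜ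
      ≤ ∑ i ∈ Finset.Icc (-(30 * t : ℤ)) (30 * t), 162 * (1 / 64 : ℝ≥0∞) ^ t :=
        (measure_mono h1).trans ((measure_biUnion_finset_le _ _).trans
          (Finset.sum_le_sum fun i _ => pk_tail_wt hK hσ k i t))
    _ = (60 * t + 1 : ℕ) * (162 * (1 / 64 : ℝ≥0∞) ^ t) := by
        rw [Finset.sum_const, Int.card_Icc, nsmul_eq_mul]
        congr 2
        omega
    _ ≤ (61 * (t + 1)) * (162 * (1 / 4 : ℝ≥0∞) ^ t) := by
        gcongr
        push_cast
        have : (60 * t + 1 : ℝ≥0∞) ≤ 61 * (t + 1) := by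
          have : (60 * t + 1 : ℕ) ≤ 61 * (t + 1) := by omega
          exact_mod_cast this
        exact this
    _ = 9882 * ((t + 1) * (1 / 4 : ℝ≥0∞) ^ t) := by ring
    _ ≤ 9882 * (1 / 2) ^ t := by
        gcongr
        exact succ_mul_pow_le t

/-! ### the first good index -/

/-- The cone `|x₁| ≤ 2 s x₂`. -/
def Cone (s : ℤ) : Set V := {v | |v.1| ≤ 2 * (s * v.2)}

/-- The first index from which on the curve of the line `0` stays in the domain. -/
noncomputable def ia (σ s : ℤ) (w : W) (K : ℝ≥0∞) (D : Set V) : ℕ :=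
  sInf {a : ℕ | ∀ i : ℤ, a ≤ s * i → Bal (pk σ w K 0 i) ⊆ D}

/-- The curve of the line `0` is eventually in the domain. -/
def Iaf (σ s : ℤ) (w : W) (K : ℝ≥0∞) (D : Set V) : Prop :=
  ∃ a : ℕ, ∀ i : ℤ, a ≤ s * i → Bal (pk σ w K 0 i) ⊆ D

theorem ia_spec {σ s : ℤ} {w : W} {K : ℝ≥0∞} {D : Set V} (h : Iaf σ s w K D) {i : ℤ}
    (hi : (ia σ s w K D : ℤ) ≤ s * i) : Bal (pk σ w K 0 i) ⊆ D :=
  (Nat.sInf_mem (s := {a : ℕ | ∀ i : ℤ, a ≤ s * i → Bal (pk σ w K 0 i) ⊆ D}) h) i hi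

theorem ia_le {σ s : ℤ} {w : W} {K : ℝ≥0∞} {D : Set V} {a : ℕ}
    (h : ∀ i : ℤ, a ≤ s * i → Bal (pk σ w K 0 i) ⊆ D) : ia σ s w K D ≤ a := Nat.sInf_le h

theorem Iaf.mono {σ s : ℤ} {w : W} {K : ℝ≥0∞} {D D' : Set V} (h : Iaf σ s w K D) (hD : D ⊆ D') :
    Iaf σ s w K D' := by
  obtain ⟨a, ha⟩ := h
  exact ⟨a, fun i hi => (ha i hi).trans hD⟩

theorem ia_anti {σ s : ℤ} {w : W} {K : ℝ≥0∞} {D D' : Set V} (h : Iaf σ s w K D) (hD : D ⊆ D') :
    ia σ s w K D' ≤ ia σ s w K D :=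
  ia_le fun _ hi => (ia_spec h hi).trans hD

theorem measurableSet_bal (σ : ℤ) (K : ℝ≥0∞) (k i : ℤ) (D : Set V) :
    MeasurableSet {ω : Om | Bal (pk σ (wt ω) K k i) ⊆ D} :=
  (measurable_pk_wt σ K k i) (MeasurableSet.of_discrete (s := {x : V | Bal x ⊆ D}))

theorem measurable_ia (σ s : ℤ) (K : ℝ≥0∞) (D : Set V) :
    Measurable fun ω : Om => ia σ s (wt ω) K D := by
  refine measurable_sInf_nat (A := fun a : ℕ =>
    {ω : Om | ∀ i : ℤ, a ≤ s * i → Bal (pk σ (wt ω) K 0 i) ⊆ D}) fun a => ?_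
  have e : {ω : Om | ∀ i : ℤ, a ≤ s * i → Bal (pk σ (wt ω) K 0 i) ⊆ D} =
      ⋂ i ∈ {i : ℤ | (a : ℤ) ≤ s * i}, {ω : Om | Bal (pk σ (wt ω) K 0 i) ⊆ D} := by
    ext ω
    simp only [mem_ofPred_eq, mem_iInter]
  rw [e]
  exact MeasurableSet.biInter (to_countable _) fun i _ => measurableSet_bal σ K 0 i D

theorem measure_bad_index (hK : SmallK F K) {σ : ℤ} (hσ : σ = 0 ∨ σ = 1) (s : ℤ) (i : ℕ) :
    iid Ed F {ω : Om | (i : ℤ) < 3 * ln σ (pk σ (wt ω) K 0 (s * i)) + 6} ≤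
      162 * 4 ^ 8 * (1 / 4) ^ i := by
  have h1 : {ω : Om | (i : ℤ) < 3 * ln σ (pk σ (wt ω) K 0 (s * i)) + 6} ⊆
      if 6 ≤ i then {ω : Om | (0 : ℤ) + ((i - 6) / 3 : ℕ) < ln σ (pk σ (wt ω) K 0 (s * i))}
        else univ := by
    intro ω hω
    split_ifs with h
    · simp only [mem_ofPred_eq] at hω ⊢
      omega
    · trivial
  have h2 : iid Ed F {ω : Om | (i : ℤ) < 3 * ln σ (pk σ (wt ω) K 0 (s * i)) + 6} ≤
      162 * (1 / 64) ^ ((i - 6) / 3) := by
    split_ifs at h1 with h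
    · exact (measure_mono h1).trans (pk_tail_wt hK hσ 0 (s * i) _)
    · have e : (i - 6) / 3 = 0 := by omega
      rw [e, pow_zero, mul_one]
      exact prob_le_one.trans (by norm_num)
  refine h2.trans ?_
  have h3 : (1 : ℝ≥0∞) / 4 ≤ 1 := by
    rw [one_div]; exact ENNReal.inv_le_one.2 (by norm_num)
  have e : ((1 : ℝ≥0∞) / 64) = (1 / 4) ^ 3 := by
    rw [one_div, one_div, ← ENNReal.inv_pow]
    norm_num
  rw [e, ← pow_mul, mul_assoc]
  refine mul_le_mul' le_rfl ?_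
  exact (pow_le_pow_right_of_le_one' h3 (by omega)).trans (pow_sub_le i 8)

/-- The first good index is integrable (and the curve is eventually in the cone). -/
theorem ae_iaf (hK : SmallK F K) {σ : ℤ} (hσ : σ = 0 ∨ σ = 1) {s : ℤ} (hs : s = 1 ∨ s = -1) :
    (∀ᵐ ω ∂(iid Ed F), Iaf σ s (wt ω) K (Cone s)) ∧
      ∫⁻ ω, (ia σ s (wt ω) K (Cone s) : ℝ≥0∞) ∂(iid Ed F) ≠ ⊤ := by
  classical
  set E : ℕ → Set Om := fun i => {ω : Om | (i : ℤ) < 3 * ln σ (pk σ (wt ω) K 0 (s * i)) + 6}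
    with hE
  have hEm : ∀ i, MeasurableSet (E i) := fun i =>
    measurableSet_lt measurable_const
      (((measurable_ln_pk σ K 0 (s * i)).const_mul 3).add_const 6)
  set Q : Om → ℝ≥0∞ := fun ω => ∑' i : ℕ, (E i).indicator (fun _ => ((i : ℝ≥0∞) + 1)) ω with hQ
  have hQm : Measurable Q := Measurable.tsum fun i => measurable_const.indicator (hEm i)
  have hQi : ∫⁻ ω, Q ω ∂(iid Ed F) ≠ ⊤ := by
    rw [hQ, lintegral_tsum fun i => (measurable_const.indicator (hEm i)).aemeasurable]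
    simp only [lintegral_indicator (hEm _), lintegral_const,
      Measure.restrict_apply MeasurableSet.univ, univ_inter]
    have h1 : ∑' i : ℕ, ((i : ℝ≥0∞) + 1) * iid Ed F (E i) ≤
        ∑' i : ℕ, 162 * 4 ^ 8 * (1 / 2 : ℝ≥0∞) ^ i := by
      refine ENNReal.tsum_le_tsum fun i => ?_
      calc ((i : ℝ≥0∞) + 1) * iid Ed F (E i)
          ≤ ((i : ℝ≥0∞) + 1) * (162 * 4 ^ 8 * (1 / 4) ^ i) := by
            gcongr
            exact measure_bad_index hK hσ s i
        _ = 162 * 4 ^ 8 * (((i : ℝ≥0∞) + 1) * (1 / 4) ^ i) := by ring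
        _ ≤ 162 * 4 ^ 8 * (1 / 2 : ℝ≥0∞) ^ i := by
            gcongr
            exact succ_mul_pow_le i
    refine ne_top_of_le_ne_top ?_ h1
    rw [ENNReal.tsum_mul_left]
    exact ENNReal.mul_ne_top (by norm_num) tsum_geom_half
  have key : ∀ᵐ ω ∂(iid Ed F), Iaf σ s (wt ω) K (Cone s) ∧
      (ia σ s (wt ω) K (Cone s) : ℝ≥0∞) ≤ Q ω + 1 := by
    filter_upwards [ae_lt_top hQm hQi, ae_good_wt hK hσ] with ω hω hg
    set a : ℕ := ⌈(Q ω).toReal⌉₊ with ha
    have h1 : Q ω ≤ a := by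
      rw [← ENNReal.ofReal_toReal hω.ne, ← ENNReal.ofReal_natCast]
      exact ENNReal.ofReal_le_ofReal (Nat.le_ceil _)
    have h2 : (a : ℝ≥0∞) ≤ Q ω + 1 := by
      have h3 := (Nat.ceil_lt_add_one (ENNReal.toReal_nonneg (a := Q ω))).le
      rw [← ha] at h3
      rw [← ENNReal.ofReal_toReal hω.ne, ← ENNReal.ofReal_natCast, ← ENNReal.ofReal_one,
        ← ENNReal.ofReal_add ENNReal.toReal_nonneg zero_le_one]
      exact ENNReal.ofReal_le_ofReal h3
    have h3 : ∀ i : ℤ, (a : ℤ) ≤ s * i → Bal (pk σ (wt ω) K 0 i) ⊆ Cone s := by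
      intro i hi
      obtain ⟨m, hm⟩ : ∃ m : ℕ, (m : ℤ) = s * i := ⟨(s * i).toNat, by omega⟩
      have hsi : s * (m : ℤ) = i := by
        rw [hm]
        rcases hs with rfl | rfl <;> ring
      have h4 : ω ∉ E m := by
        intro hmem
        have h5 : (m : ℝ≥0∞) + 1 ≤ Q ω := by
          have h6 := ENNReal.le_tsum (f := fun i : ℕ =>
            (E i).indicator (fun _ => ((i : ℝ≥0∞) + 1)) ω) m
          rw [indicator_of_mem hmem] at h6
          exact h6
        have h7 : (m : ℝ≥0∞) + 1 ≤ a := h5.trans h1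
        have h8 : m + 1 ≤ a := by exact_mod_cast h7
        omega
      simp only [hE, mem_ofPred_eq, not_lt, hsi] at h4
      refine bal_subset hσ hs hg (fun v hv => hv) ?_
      omega
    refine ⟨⟨a, h3⟩, ?_⟩
    refine le_trans ?_ h2
    exact_mod_cast ia_le h3
  refine ⟨key.mono fun ω h => h.1, ?_⟩
  refine ne_top_of_le_ne_top ?_ (lintegral_mono_ae (key.mono fun ω h => h.2))
  rw [lintegral_add_right _ measurable_const, lintegral_const]
  exact ENNReal.add_ne_top.2 ⟨hQi, ENNReal.mul_ne_top (by norm_num) (measure_ne_top _ _)⟩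

/-! ### domination -/

/-- THE DOMINATING VARIABLE for passage times between vertices of the curves of the lines `0` and
`n`, in domains containing the cone. -/
theorem exists_dom (hK : SmallK F K) {σ : ℤ} (hσ : σ = 0 ∨ σ = 1) {s : ℤ} (hs : s = 1 ∨ s = -1)
    (n : ℕ) {A : Om → ℕ} (hA : Measurable A)
    (hAi : ∫⁻ ω, (A ω : ℝ≥0∞) ∂(iid Ed F) ≠ ⊤) :
    ∃ Dm : Om → ℝ≥0∞, Measurable Dm ∧ ∫⁻ ω, Dm ω ∂(iid Ed F) ≠ ⊤ ∧
      ∀ᵐ ω ∂(iid Ed F), ∀ D : Set V, Cone s ⊆ D → ∀ a b : ℤ, |a| ≤ A ω → |b| ≤ A ω →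
        (∀ i, s * a ≤ s * i → Bal (pk σ (wt ω) K 0 i) ⊆ D) →
        (∀ i, s * b ≤ s * i → Bal (pk σ (wt ω) K n i) ⊆ D) →
        T (wt ω) (D ∩ Rg σ (wt ω) K 0) (pk σ (wt ω) K 0 a) (pk σ (wt ω) K n b) ≤ Dm ω := by
  have hσ' : (1 - σ : ℤ) = 0 ∨ (1 - σ : ℤ) = 1 := by rcases hσ with rfl | rfl <;> simp
  set G : ℕ → Set Om := fun t => {ω : Om | Win σ (wt ω) K 0 (30 * t) t} ∩
    ({ω : Om | Win σ (wt ω) K n (30 * t) t} ∩
      {ω : Om | Win (1 - σ) (wt ω) K ((1 - 2 * σ) * (s * (8 * t))) (30 * t) t}) with hG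
  have hGm : ∀ t, MeasurableSet (G t) := fun t =>
    (measurableSet_win _ _ _ _ _).inter
      ((measurableSet_win _ _ _ _ _).inter (measurableSet_win _ _ _ _ _))
  have hGs : ∑' t, iid Ed F (G t)ᶜ ≠ ⊤ := by
    have h1 : ∑' t, iid Ed F (G t)ᶜ ≤ ∑' t : ℕ, 29646 * (1 / 2 : ℝ≥0∞) ^ t := by
      refine ENNReal.tsum_le_tsum fun t => ?_
      rw [hG]
      simp only [compl_inter]
      calc _ ≤ 9882 * (1 / 2 : ℝ≥0∞) ^ t + (9882 * (1 / 2 : ℝ≥0∞) ^ t +
            9882 * (1 / 2 : ℝ≥0∞) ^ t) := by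
            refine (measure_union_le _ _).trans (add_le_add (measure_win_compl hK hσ 0 t) ?_)
            exact (measure_union_le _ _).trans (add_le_add (measure_win_compl hK hσ n t)
              (measure_win_compl hK hσ' _ t))
        _ = 29646 * (1 / 2 : ℝ≥0∞) ^ t := by ring
    refine ne_top_of_le_ne_top ?_ h1
    rw [ENNReal.tsum_mul_left]
    exact ENNReal.mul_ne_top (by norm_num) tsum_geom_half
  obtain ⟨Z, hZm, hZi, hZ⟩ := exists_good_scale hGm hGs (t₀ := fun ω => A ω + (n + 4))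
    ((measurable_from_top (f := fun m : ℕ => m + (n + 4))).comp hA) (by
      push_cast
      rw [lintegral_add_right _ measurable_const, lintegral_const]
      refine ENNReal.add_ne_top.2 ⟨hAi, ENNReal.mul_ne_top ?_ (measure_ne_top _ _)⟩
      exact_mod_cast ENNReal.natCast_ne_top (n + 4))
  refine ⟨fun ω => 80 * Z ω * (2 * K) + 2, ((hZm.const_mul _).mul_const _).add_const _, ?_, ?_⟩
  · rw [lintegral_add_right _ measurable_const, lintegral_const, lintegral_mul_const _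
      (hZm.const_mul _), lintegral_const_mul _ hZm]
    refine ENNReal.add_ne_top.2 ⟨ENNReal.mul_ne_top (ENNReal.mul_ne_top (by norm_num) hZi)
      (ENNReal.mul_ne_top (by norm_num) hK.1), ENNReal.mul_ne_top (by norm_num)
        (measure_ne_top _ _)⟩
  · filter_upwards [hZ, ae_good_wt hK hσ, ae_good_wt hK hσ'] with ω hω hg hg' D hD a b ha hb haD hbD
    obtain ⟨t, ht, htZ, hw1, hw2, hw3⟩ := hω
    have h1 := route_scale hσ hs (fun v => wt_two ω v) hK.1 hg hg' (n := n) (t := t) (by omega)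
      (by omega) hw1 hw2 hw3 (fun v hv => hD hv) (a := a) (b := b) (by omega) (by omega) haD hbD
    refine h1.trans ?_
    gcongr
    push_cast
    gcongr

/-- Passage times in the region of the line `0`, fixed indices. -/
theorem lintegral_T_ne_top (hK : SmallK F K) {σ : ℤ} (hσ : σ = 0 ∨ σ = 1) (n : ℕ) (i j : ℤ) :
    ∫⁻ ω, T (wt ω) (Rg σ (wt ω) K 0) (pk σ (wt ω) K 0 i) (pk σ (wt ω) K n j) ∂(iid Ed F) ≠ ⊤ := by
  obtain ⟨Dm, hm, hi, h⟩ := exists_dom hK hσ (s := 1) (Or.inl rfl) n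
    (A := fun _ => i.natAbs + j.natAbs) measurable_const (by
      rw [lintegral_const]
      exact ENNReal.mul_ne_top (ENNReal.natCast_ne_top _) (measure_ne_top _ _))
  refine ne_top_of_le_ne_top hi (lintegral_mono_ae (h.mono fun ω hω => ?_))
  have h1 := hω univ (subset_univ _) i j (by simp only [Int.abs_eq_natAbs]; omega)
    (by simp only [Int.abs_eq_natAbs]; omega) (fun _ _ => subset_univ _)
    (fun _ _ => subset_univ _)
  rwa [univ_inter] at h1

end win

/-! ### the two curve systems -/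

/-- The curves of the lines `0` of the two systems are close to each other. -/
theorem T_cross_scale {w : W} (hw : ∀ v, w v 2 = ⊤) {K : ℝ≥0∞} (hK : K ≠ ⊤) (hg : Good 0 w K)
    (hg' : Good 1 w K) {t : ℕ} (ht : 4 ≤ t) (hW : Win 0 w K 0 (30 * t) t)
    (hW' : Win 1 w K 0 (30 * t) t) :
    T w univ (pk 0 w K 0 0) (pk 1 w K 0 0) ≤ (10 * t : ℕ) * (2 * K) + 1 := by
  have hσ0 : (0 : ℤ) = 0 ∨ (0 : ℤ) = 1 := Or.inl rfl
  have hσ1 : (1 : ℤ) = 0 ∨ (1 : ℤ) = 1 := Or.inr rfl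
  set c : ℤ → ℤ := ck 0 w K 0 with hc
  set c' : ℤ → ℤ := ck 1 w K 0 with hc'
  have ht' : (4 : ℤ) ≤ t := by exact_mod_cast ht
  have hlo : ∀ i : ℤ, 0 ≤ 2 * c' i + i := fun i => by
    have : 0 ≤ ln 1 (pt 1 c' i) := le_ln_pk hσ1 hg' 0 i
    simp only [ln, pt, one_mul] at this
    omega
  have hup : ∀ i : ℤ, |i| ≤ 30 * t → 2 * c' i + i ≤ t := fun i hi => by
    have : ln 1 (pt 1 c' i) ≤ 0 + t := hW' i hi
    simp only [ln, pt, one_mul] at this
    omega
  have hx : pt 1 c' (t + 2) ∉ Rg 0 w K 0 := by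
    intro hmem
    have h1 := le_ln_of_mem hσ0 hg hmem
    have h2 := hup (t + 2) (by rw [abs_le]; omega)
    simp only [ln, pt, zero_mul, add_zero] at h1
    omega
  have hy : pt 1 c' (-(2 * t + 2)) ∈ Rg 0 w K 0 := by
    have h1 := hlo (-(2 * t + 2))
    have h2 := hup (-(2 * t + 2)) (by rw [abs_le]; omega)
    refine (mem_reg_iff_ln hσ0 _ _).2 ((hW (ix 0 (pt 1 c' (-(2 * t + 2)))) ?_).trans ?_)
    · simp only [ix, pt, one_mul, zero_mul, sub_zero]
      rw [abs_le]; omega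
    · simp only [ln, pt, zero_mul, add_zero]
      omega
  obtain ⟨i, hi, hT⟩ := exists_cross hσ0 hσ1 (ck_stp hσ0 hg 0) (ck_stp hσ1 hg' 0) hw hK
    (pk_open hg' 0) (i₁ := -(2 * t + 2)) (i₂ := t + 2) (by omega)
    (x := pt 1 c' (t + 2)) (y := pt 1 c' (-(2 * t + 2))) (Or.inr ⟨rfl, rfl⟩) hx hy
  have hib : |i - 0| ≤ (2 * t : ℕ) := by
    have hi' : pt 0 c i ∈ Nbh 1 c' (-(2 * t + 2)) (t + 2) := hi
    simp only [Nbh, mem_iUnion] at hi'
    obtain ⟨j, hj, hb⟩ := hi'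
    have h1 := hlo j
    have h2 := hup j (by rw [abs_le]; have := hj.1; have := hj.2; omega)
    have h3 := hb.2
    simp only [pt, one_mul, zero_mul, zero_add] at h3
    rw [abs_le] at h3 ⊢
    have := hj.1
    have := hj.2
    push_cast
    omega
  have k1 : T w univ (pk 0 w K 0 0) (pk 0 w K 0 i) ≤ (2 * t : ℕ) * (2 * K) := by
    have h := T_curve_le' hσ0 (ck_stp hσ0 hg 0) (pk_open hg 0) (D := univ) (i := 0) (j := i)
      hib (fun _ _ _ => subset_univ _)
    exact (T_mono (subset_univ _) _ _).trans h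
  have k2 : T w univ (pk 0 w K 0 i) (pt 1 c' (-(2 * t + 2))) ≤ (4 * t : ℕ) * (2 * K) + 1 := by
    refine (T_mono (subset_univ _) _ _).trans (hT.trans ?_)
    gcongr
    have : ((t : ℤ) + 2 - -(2 * t + 2)).toNat ≤ 4 * t := by omega
    exact_mod_cast this
  have k3 : T w univ (pt 1 c' (-(2 * t + 2))) (pk 1 w K 0 0) ≤ (4 * t : ℕ) * (2 * K) := by
    have h := T_curve_le' hσ1 (ck_stp hσ1 hg' 0) (pk_open hg' 0) (D := univ)
      (i := -(2 * t + 2)) (j := 0) (n := 4 * t) (by rw [abs_le]; push_cast; omega)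
      (fun _ _ _ => subset_univ _)
    exact (T_mono (subset_univ _) _ _).trans h
  calc T w univ (pk 0 w K 0 0) (pk 1 w K 0 0)
      ≤ T w univ (pk 0 w K 0 0) (pk 0 w K 0 i) + (T w univ (pk 0 w K 0 i)
        (pt 1 c' (-(2 * t + 2))) + T w univ (pt 1 c' (-(2 * t + 2))) (pk 1 w K 0 0)) :=
        (T_triangle w _ _ (pk 0 w K 0 i) _).trans (add_le_add le_rfl (T_triangle w _ _ _ _))
    _ ≤ (2 * t : ℕ) * (2 * K) + ((4 * t : ℕ) * (2 * K) + 1 + (4 * t : ℕ) * (2 * K)) := by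
        gcongr
    _ = (10 * t : ℕ) * (2 * K) + 1 := by push_cast; ring

theorem lintegral_T_cross_ne_top {F : Measure ℝ} [IsProbabilityMeasure F] {K : ℝ≥0∞}
    (hK : SmallK F K) :
    ∫⁻ ω, T (wt ω) univ (pk 0 (wt ω) K 0 0) (pk 1 (wt ω) K 0 0) ∂(iid Ed F) ≠ ⊤ := by
  set G : ℕ → Set Om := fun t => {ω : Om | Win 0 (wt ω) K 0 (30 * t) t} ∩
      {ω : Om | Win 1 (wt ω) K 0 (30 * t) t} with hG
  have hGm : ∀ t, MeasurableSet (G t) := fun t =>
    (measurableSet_win _ _ _ _ _).inter (measurableSet_win _ _ _ _ _)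
  have hGs : ∑' t, iid Ed F (G t)ᶜ ≠ ⊤ := by
    have h1 : ∑' t, iid Ed F (G t)ᶜ ≤ ∑' t : ℕ, 19764 * (1 / 2 : ℝ≥0∞) ^ t := by
      refine ENNReal.tsum_le_tsum fun t => ?_
      rw [hG]
      simp only [compl_inter]
      calc _ ≤ 9882 * (1 / 2 : ℝ≥0∞) ^ t + 9882 * (1 / 2 : ℝ≥0∞) ^ t :=
            (measure_union_le _ _).trans (add_le_add (measure_win_compl hK (Or.inl rfl) 0 t)
              (measure_win_compl hK (Or.inr rfl) 0 t))
        _ = 19764 * (1 / 2 : ℝ≥0∞) ^ t := by ring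
    refine ne_top_of_le_ne_top ?_ h1
    rw [ENNReal.tsum_mul_left]
    exact ENNReal.mul_ne_top (by norm_num) tsum_geom_half
  obtain ⟨Z, hZm, hZi, hZ⟩ := exists_good_scale hGm hGs (t₀ := fun _ => 4)
    measurable_const (by
      rw [lintegral_const]
      exact ENNReal.mul_ne_top (ENNReal.natCast_ne_top _) (measure_ne_top _ _))
  have h1 : ∫⁻ ω, (10 * Z ω * (2 * K) + 1) ∂(iid Ed F) ≠ ⊤ := by
    rw [lintegral_add_right _ measurable_const, lintegral_const, lintegral_mul_const _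
      (hZm.const_mul _), lintegral_const_mul _ hZm]
    exact ENNReal.add_ne_top.2 ⟨ENNReal.mul_ne_top (ENNReal.mul_ne_top (by norm_num) hZi)
      (ENNReal.mul_ne_top (by norm_num) hK.1), ENNReal.mul_ne_top (by norm_num)
        (measure_ne_top _ _)⟩
  refine ne_top_of_le_ne_top h1 (lintegral_mono_ae ?_)
  filter_upwards [hZ, ae_good_wt hK (σ := 0) (Or.inl rfl), ae_good_wt hK (σ := 1) (Or.inr rfl)]
    with ω hω hg hg'
  obtain ⟨t, ht, htZ, hw1, hw2⟩ := hω
  refine (T_cross_scale (fun v => wt_two ω v) hK.1 hg hg' ht hw1 hw2).trans ?_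
  gcongr
  push_cast
  gcongr

end C7
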