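import Pool.Agent.Lib.MP_c725eb_pr.WallCross
import Pool.Agent.Lib.MP_c725eb_pr.Route
import Pool.Agent.Lib.MP_c725eb_pr.Hwy2
import Pool.Agent.Lib.MP_c725eb_pr.Dom

/-!
# The classes of increments: definitions, bounds, measurability, locality, covariance

Everything is defined on the curve of the base line `0`; for the line `k` and the index `i` the
configuration is shifted (`mv`).
-/

set_option autoImplicit false

namespace C7

open MeasureTheory Filter Set
open scoped ENNReal Topology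

/-! ### measurability of passage times with random domains and end points -/

section meas

variable {Ω : Type*} [MeasurableSpace Ω] {w : Ω → W}

theorem measurable_step_rv (hm : ∀ v d, Measurable fun ω => w ω v d) {x y : Ω → V}
    (hx : Measurable x) (hy : Measurable y) : Measurable fun ω => step (w ω) (x ω) (y ω) := by
  have h : Measurable fun p : (V × V) × Ω => step (w p.2) p.1.1 p.1.2 := by
    refine measurable_from_prod_countable_right fun p => ?_
    exact measurable_step hm p.1 p.2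
  exact h.comp ((hx.prodMk hy).prodMk measurable_id)

theorem measurable_Kn (hm : ∀ v d, Measurable fun ω => w ω v d) {D R : Ω → Set V}
    (hD : ∀ v, MeasurableSet {ω | v ∈ D ω}) (hR : ∀ v, MeasurableSet {ω | v ∈ R ω}) {x y : Ω → V}
    (hx : Measurable x) (hy : Measurable y) : Measurable fun ω => Kn (w ω) (D ω) (R ω) (x ω) (y ω) := by
  classical
  have e : (fun ω => Kn (w ω) (D ω) (R ω) (x ω) (y ω)) =
      fun ω => min (if x ω = y ω then 0 else ⊤)
        (⨅ p : V, if p ∈ D ω ∧ p ∉ R ω then T (w ω) (D ω) (x ω) p + step (w ω) p (y ω) else ⊤) := by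
    funext ω
    unfold Kn
    congr 1
    refine iInf_congr fun p => ?_
    by_cases h : p ∈ D ω ∧ p ∉ R ω
    · have h' : p ∈ D ω \ R ω := h
      simp [h, h']
    · have h' : p ∉ D ω \ R ω := h
      simp [h, h']
  rw [e]
  refine Measurable.min ?_ ?_
  · exact Measurable.ite (measurableSet_eq_fun hx hy) measurable_const measurable_const
  · refine Measurable.iInf fun p => Measurable.ite ((hD p).inter (hR p).compl) ?_ measurable_const
    exact (measurable_T hm hD hx measurable_const).add (measurable_step_rv hm measurable_const hy)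

end meas

/-! ### locality -/

theorem cost_local {w w' : W} {D : Set V} (h : ∀ a ∈ D, ∀ b ∈ D, step w a b = step w' a b) :
    ∀ {l : List V}, (∀ v ∈ l, v ∈ D) → cost w l = cost w' l := by
  intro l
  induction l with
  | nil => intro _; rfl
  | cons a l ih =>
    intro hl
    cases l with
    | nil => rfl
    | cons b l' =>
      rw [cost_cons_cons, cost_cons_cons, h a (hl a (by simp)) b (hl b (by simp)),
        ih fun v hv => hl v (by simp at hv ⊢; tauto)]

theorem T_local {w w' : W} {D : Set V} (h : ∀ a ∈ D, ∀ b ∈ D, step w a b = step w' a b) (x y : V) :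
    T w D x y = T w' D x y := by
  unfold T
  refine iInf_congr fun l => iInf_congr fun hl => ?_
  exact cost_local h hl.2.2

/-! ### definitions -/

/-- Truncation. -/
noncomputable def clp (c x : ℝ) : ℝ := max (-c) (min c x)

theorem abs_clp_le {c : ℝ} (hc : 0 ≤ c) (x : ℝ) : |clp c x| ≤ c := by
  unfold clp
  rw [abs_le]
  exact ⟨le_max_left _ _, max_le (by linarith) (min_le_left _ _)⟩

theorem clp_of_abs_le {c x : ℝ} (h : |x| ≤ c) : clp c x = x := by
  unfold clp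
  rw [min_eq_right (abs_le.1 h).2, max_eq_right (abs_le.1 h).1]

theorem clp_mono (c : ℝ) : Monotone (clp c) := fun x y h =>
  max_le_max le_rfl (min_le_min le_rfl h)

theorem measurable_clp (c : ℝ) : Measurable (clp c) := by
  unfold clp; fun_prop

/-- From the index `i` on the base curve is inside the environment `Wlo σ u L`. -/
def OKlo (σ : ℤ) (K : ℝ≥0∞) (u : V) (L : ℕ) (i : ℤ) (w : W) : Prop :=
  ∀ j, i ≤ j → Cin σ (Wlo σ u L) (ck σ w K 0) j

/-- Up to the index `i` the base curve is inside the environment `Wup σ u L`. -/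
def OKup (σ : ℤ) (K : ℝ≥0∞) (u : V) (L : ℕ) (i : ℤ) (w : W) : Prop :=
  ∀ j, j ≤ i → Cin σ (Wup σ u L) (ck σ w K 0) j

open Classical in
/-- Lower class: increments towards the targets at the lower wall. -/
noncomputable def glo (σ : ℤ) (K : ℝ≥0∞) (u : V) (L : ℕ) (i : ℤ) (w : W) : ℝ :=
  if OKlo σ K u L i w then
    limsup (fun m : ℕ => clp (2 * K.toReal)
      (BI w σ (Wlo σ u L) (ck σ w K 0) (tlo σ u L m) i (i + 1))) atTop
  else 2 * K.toReal

open Classical in
/-- Upper class: increments towards the targets at the upper wall. -/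
noncomputable def gup (σ : ℤ) (K : ℝ≥0∞) (u : V) (L : ℕ) (i : ℤ) (w : W) : ℝ :=
  if OKup σ K u L i w then
    limsup (fun m : ℕ => clp (2 * K.toReal)
      (BI w σ (Wup σ u L) (ck σ w K 0) (tup σ u L m) i (i + 1))) atTop
  else -(2 * K.toReal)

theorem abs_limsup_le {f : ℕ → ℝ} {c : ℝ} (h : ∀ n, |f n| ≤ c) : |limsup f atTop| ≤ c := by
  have h1 : ∀ n, -c ≤ f n := fun n => (abs_le.1 (h n)).1
  have h2 : ∀ n, f n ≤ c := fun n => (abs_le.1 (h n)).2
  have hb : IsBoundedUnder (· ≤ ·) atTop f := isBoundedUnder_of ⟨c, h2⟩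
  have hb' : IsBoundedUnder (· ≥ ·) atTop f := isBoundedUnder_of ⟨-c, h1⟩
  rw [abs_le]
  constructor
  · exact le_limsup_of_frequently_le (Frequently.of_forall h1) hb
  · exact limsup_le_of_le hb'.isCoboundedUnder_le (Eventually.of_forall h2)

theorem abs_glo_le (σ : ℤ) (K : ℝ≥0∞) (u : V) (L : ℕ) (i : ℤ) (w : W) :
    |glo σ K u L i w| ≤ 2 * K.toReal := by
  have hc : 0 ≤ 2 * K.toReal := by positivity
  unfold glo
  split_ifs
  · exact abs_limsup_le fun n => abs_clp_le hc _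
  · rw [abs_of_nonneg hc]

theorem abs_gup_le (σ : ℤ) (K : ℝ≥0∞) (u : V) (L : ℕ) (i : ℤ) (w : W) :
    |gup σ K u L i w| ≤ 2 * K.toReal := by
  have hc : 0 ≤ 2 * K.toReal := by positivity
  unfold gup
  split_ifs
  · exact abs_limsup_le fun n => abs_clp_le hc _
  · rw [abs_neg, abs_of_nonneg hc]

/-- The class of slopes `0+` from below. -/
noncomputable def blo (σ : ℤ) (K : ℝ≥0∞) (i : ℤ) (w : W) : ℝ :=
  ⨅ j : ℕ, ⨅ L : ℕ, glo σ K ((j : ℤ) + 2, 1) L i w

/-- The class of slopes `0+` from above. -/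
noncomputable def bup (σ : ℤ) (K : ℝ≥0∞) (i : ℤ) (w : W) : ℝ :=
  ⨅ j : ℕ, ⨆ L : ℕ, gup σ K ((j : ℤ) + 2, 1) L i w

/-- The class of slopes `0-`. -/
noncomputable def alo (σ : ℤ) (K : ℝ≥0∞) (i : ℤ) (w : W) : ℝ :=
  ⨆ j : ℕ, ⨅ L : ℕ, glo σ K ((j : ℤ) + 4, -1) L i w

theorem abs_ciInf_le {ι : Type*} [Nonempty ι] {f : ι → ℝ} {c : ℝ} (h : ∀ n, |f n| ≤ c) :
    |⨅ n, f n| ≤ c := by
  have hb : BddBelow (range f) := ⟨-c, by rintro _ ⟨n, rfl⟩; exact (abs_le.1 (h n)).1⟩
  obtain ⟨n⟩ := ‹Nonempty ι›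
  rw [abs_le]
  exact ⟨le_ciInf fun n => (abs_le.1 (h n)).1, (ciInf_le hb n).trans (abs_le.1 (h n)).2⟩

theorem abs_ciSup_le {ι : Type*} [Nonempty ι] {f : ι → ℝ} {c : ℝ} (h : ∀ n, |f n| ≤ c) :
    |⨆ n, f n| ≤ c := by
  have hb : BddAbove (range f) := ⟨c, by rintro _ ⟨n, rfl⟩; exact (abs_le.1 (h n)).2⟩
  obtain ⟨n⟩ := ‹Nonempty ι›
  rw [abs_le]
  exact ⟨(abs_le.1 (h n)).1.trans (le_ciSup hb n), ciSup_le fun n => (abs_le.1 (h n)).2⟩

theorem abs_blo_le (σ : ℤ) (K : ℝ≥0∞) (i : ℤ) (w : W) : |blo σ K i w| ≤ 2 * K.toReal :=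
  abs_ciInf_le fun _ => abs_ciInf_le fun _ => abs_glo_le _ _ _ _ _ _

theorem abs_bup_le (σ : ℤ) (K : ℝ≥0∞) (i : ℤ) (w : W) : |bup σ K i w| ≤ 2 * K.toReal :=
  abs_ciInf_le fun _ => abs_ciSup_le fun _ => abs_gup_le _ _ _ _ _ _

theorem abs_alo_le (σ : ℤ) (K : ℝ≥0∞) (i : ℤ) (w : W) : |alo σ K i w| ≤ 2 * K.toReal :=
  abs_ciSup_le fun _ => abs_ciInf_le fun _ => abs_glo_le _ _ _ _ _ _

/-! ### measurability -/

theorem measurableSet_mem_Rg3 {Ω : Type*} [MeasurableSpace Ω] {w : Ω → W}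
    (hm : ∀ v d, Measurable fun ω => w ω v d) (σ : ℤ) (K : ℝ≥0∞) (k : ℤ) (x : V) :
    MeasurableSet {ω | x ∈ Rg σ (w ω) K k} :=
  measurableSet_mem_Rg σ (fun v d => hm v d.castSucc) K k x

section

variable {Ω : Type*} [MeasurableSpace Ω] {w : Ω → W} (hm : ∀ v d, Measurable fun ω => w ω v d)

include hm

theorem measurable_TI {E : Set V} (σ : ℤ) (K : ℝ≥0∞) (k i : ℤ) (t : V) :
    Measurable fun ω => TI (w ω) σ E (ck σ (w ω) K k) i t := by
  unfold TI
  refine measurable_T hm (fun v => ?_) (measurable_pk σ (fun v d => hm v d.castSucc) K k i)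
    measurable_const
  exact (measurableSet_mem_Rg3 hm σ K k v).inter (MeasurableSet.const _)

theorem measurable_BI {E : Set V} (σ : ℤ) (K : ℝ≥0∞) (k i j : ℤ) (t : V) :
    Measurable fun ω => BI (w ω) σ E (ck σ (w ω) K k) t i j := by
  unfold BI
  exact (measurable_TI hm σ K k i t).ennreal_toReal.sub (measurable_TI hm σ K k j t).ennreal_toReal

theorem measurableSet_cin {E : Set V} (σ : ℤ) (K : ℝ≥0∞) (k j : ℤ) :
    MeasurableSet {ω | Cin σ E (ck σ (w ω) K k) j} := by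
  have h : ∀ i, Measurable fun ω => ck σ (w ω) K k i :=
    fun i => measurable_ck σ (fun v d => hm v d.castSucc) K k i
  exact ((h j).prodMk (h (j + 1))) (Set.to_countable {z : ℤ × ℤ | ((z.1, σ * z.1 + j) : V) ∈ E ∧
    ((z.2, σ * z.2 + (j + 1)) : V) ∈ E ∧ (σ = 0 → z.2 = z.1 + 1 → ((z.1 + 1, j) : V) ∈ E) ∧
      (σ = 0 → z.2 = z.1 - 1 → ((z.1, j + 1) : V) ∈ E)}).measurableSet

theorem measurableSet_OKlo (σ : ℤ) (K : ℝ≥0∞) (u : V) (L : ℕ) (i : ℤ) :
    MeasurableSet {ω | OKlo σ K u L i (w ω)} := by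
  have e : {ω | OKlo σ K u L i (w ω)} =
      ⋂ j ∈ {j : ℤ | i ≤ j}, {ω | Cin σ (Wlo σ u L) (ck σ (w ω) K 0) j} := by
    ext ω
    simp only [OKlo, mem_ofPred_eq, mem_iInter]
  rw [e]
  exact MeasurableSet.biInter (Set.to_countable _) fun j _ => measurableSet_cin hm σ K 0 j

theorem measurableSet_OKup (σ : ℤ) (K : ℝ≥0∞) (u : V) (L : ℕ) (i : ℤ) :
    MeasurableSet {ω | OKup σ K u L i (w ω)} := by
  have e : {ω | OKup σ K u L i (w ω)} =
      ⋂ j ∈ {j : ℤ | j ≤ i}, {ω | Cin σ (Wup σ u L) (ck σ (w ω) K 0) j} := by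
    ext ω
    simp only [OKup, mem_ofPred_eq, mem_iInter]
  rw [e]
  exact MeasurableSet.biInter (Set.to_countable _) fun j _ => measurableSet_cin hm σ K 0 j

theorem measurable_glo (σ : ℤ) (K : ℝ≥0∞) (u : V) (L : ℕ) (i : ℤ) :
    Measurable fun ω => glo σ K u L i (w ω) := by
  classical
  unfold glo
  refine Measurable.ite (measurableSet_OKlo hm σ K u L i) ?_ measurable_const
  exact Measurable.limsup fun m => (measurable_clp _).comp (measurable_BI hm σ K 0 i (i + 1) _)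

theorem measurable_gup (σ : ℤ) (K : ℝ≥0∞) (u : V) (L : ℕ) (i : ℤ) :
    Measurable fun ω => gup σ K u L i (w ω) := by
  classical
  unfold gup
  refine Measurable.ite (measurableSet_OKup hm σ K u L i) ?_ measurable_const
  exact Measurable.limsup fun m => (measurable_clp _).comp (measurable_BI hm σ K 0 i (i + 1) _)

theorem measurable_blo (σ : ℤ) (K : ℝ≥0∞) (i : ℤ) : Measurable fun ω => blo σ K i (w ω) := by
  unfold blo
  exact Measurable.iInf fun j => Measurable.iInf fun L => measurable_glo hm _ _ _ _ _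

theorem measurable_bup (σ : ℤ) (K : ℝ≥0∞) (i : ℤ) : Measurable fun ω => bup σ K i (w ω) := by
  unfold bup
  exact Measurable.iInf fun j => Measurable.iSup fun L => measurable_gup hm _ _ _ _ _

theorem measurable_alo (σ : ℤ) (K : ℝ≥0∞) (i : ℤ) : Measurable fun ω => alo σ K i (w ω) := by
  unfold alo
  exact Measurable.iSup fun j => Measurable.iInf fun L => measurable_glo hm _ _ _ _ _

end

/-! ### locality of the classes -/

/-- The configurations have the same curve of the line `k` and the same steps inside its region. -/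
def Same (σ : ℤ) (K : ℝ≥0∞) (k : ℤ) (w w' : W) : Prop :=
  ck σ w K k = ck σ w' K k ∧ ∀ a ∈ Rg σ w K k, ∀ b ∈ Rg σ w K k, step w a b = step w' a b

theorem Same.rg {σ : ℤ} {K : ℝ≥0∞} {k : ℤ} {w w' : W} (h : Same σ K k w w') :
    Rg σ w K k = Rg σ w' K k := by unfold Rg; rw [h.1]

theorem Same.pk {σ : ℤ} {K : ℝ≥0∞} {k : ℤ} {w w' : W} (h : Same σ K k w w') (i : ℤ) :
    pk σ w K k i = C7.pk σ w' K k i := by unfold C7.pk; rw [h.1]

theorem Same.T {σ : ℤ} {K : ℝ≥0∞} {k : ℤ} {w w' : W} (h : Same σ K k w w') {D : Set V}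
    (hD : D ⊆ Rg σ w K k) (x y : V) : T w D x y = C7.T w' D x y :=
  T_local (fun a ha b hb => h.2 a (hD ha) b (hD hb)) x y

theorem Same.TI {σ : ℤ} {K : ℝ≥0∞} {k : ℤ} {w w' : W} (h : Same σ K k w w') (E : Set V)
    (i : ℤ) (t : V) : TI w σ E (ck σ w K k) i t = C7.TI w' σ E (ck σ w' K k) i t := by
  unfold C7.TI
  rw [← h.1]
  exact h.T inter_subset_left _ _

theorem Same.BI {σ : ℤ} {K : ℝ≥0∞} {k : ℤ} {w w' : W} (h : Same σ K k w w') (E : Set V)
    (t : V) (i j : ℤ) : BI w σ E (ck σ w K k) t i j = C7.BI w' σ E (ck σ w' K k) t i j := by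
  unfold C7.BI
  rw [h.TI, h.TI]

theorem Same.oklo {σ : ℤ} {K : ℝ≥0∞} {w w' : W} (h : Same σ K 0 w w') (u : V) (L : ℕ) (i : ℤ) :
    OKlo σ K u L i w ↔ OKlo σ K u L i w' := by
  unfold OKlo
  rw [h.1]

theorem Same.okup {σ : ℤ} {K : ℝ≥0∞} {w w' : W} (h : Same σ K 0 w w') (u : V) (L : ℕ) (i : ℤ) :
    OKup σ K u L i w ↔ OKup σ K u L i w' := by
  unfold OKup
  rw [h.1]

theorem Same.glo {σ : ℤ} {K : ℝ≥0∞} {w w' : W} (h : Same σ K 0 w w') (u : V) (L : ℕ) (i : ℤ) :
    glo σ K u L i w = C7.glo σ K u L i w' := by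
  classical
  unfold C7.glo
  simp only [h.oklo, h.BI]

theorem Same.gup {σ : ℤ} {K : ℝ≥0∞} {w w' : W} (h : Same σ K 0 w w') (u : V) (L : ℕ) (i : ℤ) :
    gup σ K u L i w = C7.gup σ K u L i w' := by
  classical
  unfold C7.gup
  simp only [h.okup, h.BI]

/-- Base functionals which only see the curve of the line `0` and its region. -/
def Loc (σ : ℤ) (K : ℝ≥0∞) (g : ℤ → W → ℝ) : Prop :=
  ∀ w w', Same σ K 0 w w' → ∀ i, g i w = g i w'

theorem loc_glo (σ : ℤ) (K : ℝ≥0∞) (u : V) (L : ℕ) : Loc σ K (glo σ K u L) :=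
  fun _ _ h i => h.glo u L i

theorem loc_gup (σ : ℤ) (K : ℝ≥0∞) (u : V) (L : ℕ) : Loc σ K (gup σ K u L) :=
  fun _ _ h i => h.gup u L i

theorem loc_blo (σ : ℤ) (K : ℝ≥0∞) : Loc σ K (blo σ K) := fun _ _ h i => by
  unfold blo; simp only [h.glo]

theorem loc_bup (σ : ℤ) (K : ℝ≥0∞) : Loc σ K (bup σ K) := fun _ _ h i => by
  unfold bup; simp only [h.gup]

theorem loc_alo (σ : ℤ) (K : ℝ≥0∞) : Loc σ K (alo σ K) := fun _ _ h i => by
  unfold alo; simp only [h.glo]

/-! ### moving a base functional -/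

/-- Remainder of an index. -/
def rr (σ k i : ℤ) : ℤ := (σ * (k + i)) % 2

/-- The shift which moves the line `k` to the line `0` and the index `i` to `rr σ k i`. -/
def ss (σ k i : ℤ) : V := if σ = 0 then (k, i) else (k - (k + i) / 2, (k + i) / 2)

/-- The functional of the line `k`. -/
noncomputable def mv (σ : ℤ) (g : ℤ → W → ℝ) (k i : ℤ) (w : W) : ℝ := g (rr σ k i) (sh (ss σ k i) w)

theorem ln_ss {σ : ℤ} (hσ : σ = 0 ∨ σ = 1) (k i : ℤ) : ln σ (ss σ k i) = k := by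
  rcases hσ with rfl | rfl
  · unfold ln ss; simp
  · unfold ln ss; simp

theorem ix_ss {σ : ℤ} (hσ : σ = 0 ∨ σ = 1) (k i : ℤ) : ix σ (ss σ k i) = i - rr σ k i := by
  rcases hσ with rfl | rfl
  · unfold ix ss rr; simp
  · unfold ix ss rr
    rw [if_neg one_ne_zero]
    simp only [one_mul]
    omega

theorem rr_cases {σ : ℤ} (hσ : σ = 0 ∨ σ = 1) (k i : ℤ) : rr σ k i = 0 ∨ (σ = 1 ∧ rr σ k i = 1) := by
  rcases hσ with rfl | rfl
  · left; unfold rr; simp
  · unfold rr; rw [one_mul]; omega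

theorem sh_sh (s s' : V) (w : W) : sh s (sh s' w) = sh (s.1 + s'.1, s.2 + s'.2) w := by
  funext v d
  unfold sh
  simp only [add_assoc]

theorem rr_shift {σ : ℤ} (hσ : σ = 0 ∨ σ = 1) (s : V) (k i : ℤ) :
    rr σ (k - ln σ s) i = rr σ k (i + ix σ s) := by
  rcases hσ with rfl | rfl
  · unfold rr; simp
  · unfold rr ln ix
    simp only [one_mul]
    omega

theorem ss_shift {σ : ℤ} (hσ : σ = 0 ∨ σ = 1) (s : V) (k i : ℤ) :
    ((ss σ (k - ln σ s) i).1 + s.1, (ss σ (k - ln σ s) i).2 + s.2) = ss σ k (i + ix σ s) := by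
  rcases hσ with rfl | rfl
  · unfold ss ln ix; simp
  · unfold ss ln ix
    simp only [one_mul, if_neg one_ne_zero, Prod.mk.injEq]
    omega

/-- Covariance. -/
theorem mv_shift {σ : ℤ} (hσ : σ = 0 ∨ σ = 1) (g : ℤ → W → ℝ) (s : V) (k i : ℤ) (w : W) :
    mv σ g (k - ln σ s) i (sh s w) = mv σ g k (i + ix σ s) w := by
  unfold mv
  rw [sh_sh, ss_shift hσ, rr_shift hσ]

theorem mv_base {σ : ℤ} (g : ℤ → W → ℝ) (w : W) : mv σ g 0 0 w = g 0 w := by
  have h1 : rr σ 0 0 = 0 := by unfold rr; simp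
  have h2 : ss σ 0 0 = (0, 0) := by
    unfold ss
    split_ifs <;> simp
  have h3 : sh (0, 0) w = w := by
    funext v d
    unfold sh
    simp
  unfold mv
  rw [h1, h2, h3]

/-- Locality of the moved functional. -/
theorem mv_local {σ : ℤ} (hσ : σ = 0 ∨ σ = 1) {K : ℝ≥0∞} {g : ℤ → W → ℝ} (hg : Loc σ K g) {k : ℤ}
    {w w' : W} (h : Same σ K k w w') (i : ℤ) : mv σ g k i w = mv σ g k i w' := by
  unfold mv
  refine hg _ _ ⟨?_, ?_⟩ _
  · funext j
    have h1 := ck_sh hσ (w := w) (K := K) (ss σ k i) k j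
    have h2 := ck_sh hσ (w := w') (K := K) (ss σ k i) k j
    rw [ln_ss hσ, sub_self] at h1 h2
    rw [h1, h2, h.1]
  · intro a ha b hb
    have h1 := mem_Rg_sh hσ (w := w) (K := K) (ss σ k i) k
    rw [ln_ss hσ, sub_self] at h1
    rw [step_sh, step_sh]
    exact h.2 _ ((h1 a).1 ha) _ ((h1 b).1 hb)

theorem measurable_mv {Ω : Type*} [MeasurableSpace Ω] {w : Ω → W}
    (hm : ∀ v d, Measurable fun ω => w ω v d) {g : ℤ → W → ℝ}
    (hg : ∀ (w : Ω → W), (∀ v d, Measurable fun ω => w ω v d) → ∀ i, Measurable fun ω => g i (w ω))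
    (σ k i : ℤ) : Measurable fun ω => mv σ g k i (w ω) := by
  unfold mv
  exact hg (fun ω => sh (ss σ k i) (w ω)) (fun v d => hm _ _) _

end C7
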