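import Mathlib

/-!
# Covering arguments: coercivity (Katznelson-Weiss), Birkhoff bounds, maximal inequality
-/

set_option autoImplicit false
set_option linter.unusedSectionVars false
set_option linter.deprecated false

namespace C7

open MeasureTheory Filter Topology
open scoped ENNReal

variable {Ω : Type*} [MeasurableSpace Ω] {P : Measure Ω}

/-- Birkhoff sums. -/
def bs {R : Type*} [AddCommMonoid R] (θ : Ω → Ω) (ξ : Ω → R) (n : ℕ) (ω : Ω) : R :=
  ∑ i ∈ Finset.range n, ξ (θ^[i] ω)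

section bs

variable {R : Type*} [AddCommMonoid R] (θ : Ω → Ω) (ξ : Ω → R)

@[simp] theorem bs_zero (ω : Ω) : bs θ ξ 0 ω = 0 := by simp [bs]

theorem bs_succ (n : ℕ) (ω : Ω) : bs θ ξ (n + 1) ω = bs θ ξ n ω + ξ (θ^[n] ω) := by
  simp [bs, Finset.sum_range_succ]

theorem bs_add (m n : ℕ) (ω : Ω) : bs θ ξ (m + n) ω = bs θ ξ m ω + bs θ ξ n (θ^[m] ω) := by
  induction n with
  | zero => simp
  | succ n ih =>
    rw [← add_assoc, bs_succ, bs_succ, ih, add_assoc, ← Function.iterate_add_apply, add_comm n m]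

theorem bs_succ' (n : ℕ) (ω : Ω) : bs θ ξ (n + 1) ω = ξ ω + bs θ ξ n (θ ω) := by
  rw [add_comm n 1, bs_add]
  simp [bs]

end bs

theorem measurable_bs {R : Type*} [AddCommMonoid R] [MeasurableSpace R] [MeasurableAdd₂ R]
    {θ : Ω → Ω} (hθ : Measurable θ) {ξ : Ω → R} (hξ : Measurable ξ) (n : ℕ) :
    Measurable (bs θ ξ n) := by
  unfold bs
  exact Finset.measurable_sum _ fun i _ => hξ.comp (hθ.iterate i)

theorem abs_bs_le {θ : Ω → Ω} {ξ : Ω → ℝ} {M : ℝ} (hξ : ∀ ω, |ξ ω| ≤ M) (n : ℕ) (ω : Ω) :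
    |bs θ ξ n ω| ≤ n * M := by
  unfold bs
  refine (Finset.abs_sum_le_sum_abs _ _).trans ?_
  refine (Finset.sum_le_sum fun i _ => hξ _).trans ?_
  simp

theorem integral_bs [IsProbabilityMeasure P] {θ : Ω → Ω} (hθ : MeasurePreserving θ P P) {ξ : Ω → ℝ} (hξm : Measurable ξ)
    {M : ℝ} (hξ : ∀ ω, |ξ ω| ≤ M) (n : ℕ) : ∫ ω, bs θ ξ n ω ∂P = n * ∫ ω, ξ ω ∂P := by
  unfold bs
  have hi : ∀ i, Integrable (fun ω => ξ (θ^[i] ω)) P := fun i =>
    Integrable.of_bound (hξm.comp (hθ.iterate i).measurable).aestronglyMeasurable M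
      (Eventually.of_forall fun ω => by rw [Real.norm_eq_abs]; exact hξ _)
  rw [integral_finset_sum _ fun i _ => hi i]
  have : ∀ i, ∫ ω, ξ (θ^[i] ω) ∂P = ∫ ω, ξ ω ∂P := by
    intro i
    have h := integral_map (μ := P) (hθ.iterate i).measurable.aemeasurable
      (f := ξ) hξm.aestronglyMeasurable
    rw [(hθ.iterate i).map_eq] at h
    exact h.symm
  simp [this]

/-! ### Katznelson-Weiss covering -/

/-- Deterministic covering estimate. -/
theorem cover_bound {θ : Ω → Ω} {T : ℕ → Ω → ℝ} {ξ : Ω → ℝ} {M ρ : ℝ} (hM : 0 ≤ M) (hρ : 0 ≤ ρ)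
    {G : Set Ω} (hG : ∀ ω ∈ G, θ ω ∈ G)
    (h0 : ∀ ω ∈ G, T 0 ω ≤ 0)
    (hsub : ∀ ω ∈ G, ∀ m n, T (m + n) ω ≤ T m ω + T n (θ^[m] ω))
    (hup : ∀ ω ∈ G, T 1 ω ≤ M) (hξ : ∀ ω, |ξ ω| ≤ M) {L : ℕ} {B : Set Ω}
    (hB : ∀ ω ∈ G, ω ∉ B → ∃ l, 1 ≤ l ∧ l ≤ L ∧ T l ω ≤ bs θ ξ l ω + ρ * l) :
    ∀ N : ℕ, ∀ ω ∈ G, T N ω ≤ bs θ ξ N ω + ρ * N + 2 * M * bs θ (B.indicator 1) N ω + 2 * M * L := by
  have hGi : ∀ i, ∀ ω ∈ G, θ^[i] ω ∈ G := by
    intro i
    induction i with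
    | zero => intro ω h; exact h
    | succ i ih => intro ω h; rw [Function.iterate_succ_apply']; exact hG _ (ih ω h)
  have hNM : ∀ N : ℕ, ∀ ω ∈ G, T N ω ≤ N * M := by
    intro N
    induction N with
    | zero => intro ω h; simpa using h0 ω h
    | succ N ih =>
      intro ω h
      have := hsub ω h N 1
      have h2 := hup _ (hGi N ω h)
      have h3 := ih ω h
      push_cast
      linarith
  have hbi : ∀ (N : ℕ) (ω : Ω), 0 ≤ bs θ (B.indicator (1 : Ω → ℝ)) N ω := by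
    intro N ω
    exact Finset.sum_nonneg fun i _ => Set.indicator_nonneg (fun _ _ => zero_le_one) _
  intro N
  induction N using Nat.strong_induction_on with
  | _ N ih =>
    intro ω hω
    rcases Nat.eq_zero_or_pos N with rfl | hN
    · have := h0 ω hω
      simp only [bs_zero, Nat.cast_zero, mul_zero]
      have : 0 ≤ 2 * M * (L : ℝ) := by positivity
      linarith
    by_cases hb : ω ∈ B
    · obtain ⟨N', rfl⟩ : ∃ N', N = N' + 1 := ⟨N - 1, by omega⟩
      have h1 := ih N' (by omega) (θ ω) (hG ω hω)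
      have h2 := hsub ω hω 1 N'
      have h3 := hup ω hω
      have h4 := (abs_le.1 (hξ ω)).1
      rw [bs_succ', bs_succ']
      have h5 : (B.indicator (1 : Ω → ℝ)) ω = 1 := by simp [hb]
      rw [h5]
      rw [add_comm 1 N'] at h2
      simp only [Function.iterate_one] at h2
      push_cast
      nlinarith
    · obtain ⟨l, hl1, hlL, hl⟩ := hB ω hω hb
      by_cases hlN : l ≤ N
      · obtain ⟨N', rfl⟩ : ∃ N', N = l + N' := ⟨N - l, by omega⟩
        have h1 := ih N' (by omega) (θ^[l] ω) (hGi l ω hω)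
        have h2 := hsub ω hω l N'
        rw [bs_add, bs_add]
        have h3 := hbi l ω
        push_cast
        have h4 : 0 ≤ 2 * M * bs θ (B.indicator (1 : Ω → ℝ)) l ω := by positivity
        nlinarith
      · have h1 := hNM N ω hω
        have h2 := (abs_le.1 (abs_bs_le hξ N ω (θ := θ))).1
        have h3 := hbi N ω
        have h4 : (N : ℝ) ≤ L := by exact_mod_cast (by omega : N ≤ L)
        have h5 : 0 ≤ 2 * M * bs θ (B.indicator (1 : Ω → ℝ)) N ω := by positivity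
        have h6 : 0 ≤ ρ * N := by positivity
        nlinarith

theorem ae_iterate [IsProbabilityMeasure P] {θ : Ω → Ω} (hθ : MeasurePreserving θ P P) {p : Ω → Prop}
    (h : ∀ᵐ ω ∂P, p ω) : ∀ᵐ ω ∂P, ∀ i : ℕ, p (θ^[i] ω) :=
  ae_all_iff.2 fun i => (hθ.iterate i).quasiMeasurePreserving.ae h

/-- **Coercivity.** -/
theorem kw [IsProbabilityMeasure P] {θ : Ω → Ω} (hθ : Ergodic θ P) {T : ℕ → Ω → ℝ}
    (hTm : ∀ n, Measurable (T n)) {M : ℝ}
    (h0 : ∀ᵐ ω ∂P, T 0 ω ≤ 0)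
    (hsub : ∀ m n, ∀ᵐ ω ∂P, T (m + n) ω ≤ T m ω + T n (θ^[m] ω))
    (hup : ∀ᵐ ω ∂P, T 1 ω ≤ M) (hlow : ∀ n, ∀ᵐ ω ∂P, T n (θ ω) ≤ T (n + 1) ω + M)
    (hTi : ∀ n, Integrable (T n) P)
    {ξ : Ω → ℝ} (hξm : Measurable ξ) (hξ : ∀ ω, |ξ ω| ≤ M) {ν : ℝ}
    (hν : ∀ n : ℕ, n * ν ≤ ∫ ω, T n ω ∂P) (hlt : ∫ ω, ξ ω ∂P < ν) :
    ∃ η > 0, ∀ᵐ ω ∂P, ∀ᶠ n : ℕ in atTop, η * n ≤ T n ω - bs θ ξ n ω := by
  classical
  have hmp := hθ.toMeasurePreserving
  have hM : 0 ≤ M := by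
    have : (Set.univ : Set Ω).Nonempty := nonempty_of_measure_ne_zero (μ := P) (by simp)
    obtain ⟨ω, _⟩ := this
    exact (abs_nonneg _).trans (hξ ω)
  set δ : ℝ := ν - ∫ ω, ξ ω ∂P with hδ
  have hδ0 : 0 < δ := by linarith
  set η : ℝ := δ / 4 with hη
  have hη0 : 0 < η := by positivity
  refine ⟨η, hη0, ?_⟩
  -- the good set
  let p : Ω → Prop := fun ω => T 0 ω ≤ 0 ∧ (∀ m n, T (m + n) ω ≤ T m ω + T n (θ^[m] ω)) ∧ T 1 ω ≤ M ∧
    ∀ n, T n (θ ω) ≤ T (n + 1) ω + M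
  have hp : ∀ᵐ ω ∂P, p ω := by
    filter_upwards [h0, ae_all_iff.2 fun m => ae_all_iff.2 fun n => hsub m n, hup,
      ae_all_iff.2 hlow] with ω a b c d
    exact ⟨a, b, c, d⟩
  have hpi := ae_iterate hmp hp
  let D : ℕ → Ω → ℝ := fun n ω => T n ω - bs θ ξ n ω
  have hDm : ∀ n, Measurable (D n) := fun n => (hTm n).sub (measurable_bs hmp.measurable hξm n)
  -- the bad event
  let A : Set Ω := {ω | ∀ j : ℕ, ∃ᶠ n : ℕ in atTop, D n ω < (η + 1 / (j + 1)) * n}
  have hAm : MeasurableSet A := by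
    have : A = ⋂ j : ℕ, ⋂ m : ℕ, ⋃ n : ℕ, ⋃ (_ : m ≤ n), {ω | D n ω < (η + 1 / (j + 1)) * n} := by
      ext ω
      simp only [A, Set.mem_iInter, Set.mem_iUnion, Set.mem_setOf_eq, frequently_atTop, exists_prop, ge_iff_le]
    rw [this]
    exact .iInter fun j => .iInter fun m => .iUnion fun n => .iUnion fun _ =>
      measurableSet_lt (hDm n) measurable_const
  have hAinv : A ≤ᵐ[P] θ ⁻¹' A := by
    filter_upwards [hp] with ω hω
    intro (hA : ω ∈ A)
    change θ ω ∈ A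
    intro j
    rw [frequently_atTop]
    intro m
    obtain ⟨j', hj'⟩ : ∃ j' : ℕ, j + 1 ≤ j' := ⟨j + 1, le_rfl⟩
    -- choose n large
    have hjj : (1 : ℝ) / (j' + 1) < 1 / (j + 1) := by
      apply one_div_lt_one_div_of_lt (by positivity)
      have : ((j : ℝ) + 1) ≤ j' := by exact_mod_cast hj'
      linarith
    obtain ⟨m₁, hm₁⟩ := exists_nat_gt (((η + 1 / ((j : ℝ) + 1)) + 2 * M) / (1 / ((j : ℝ) + 1) - 1 / (j' + 1)))
    obtain ⟨n, hn, hn2⟩ := (frequently_atTop.1 (hA j')) (max m₁ (m + 1))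
    obtain ⟨n', rfl⟩ : ∃ n', n = n' + 1 := ⟨n - 1, by omega⟩
    refine ⟨n', by omega, ?_⟩
    have h1 := hω.2.2.2 n'
    have h2 : bs θ ξ (n' + 1) ω = ξ ω + bs θ ξ n' (θ ω) := bs_succ' _ _ _ _
    have h3 := (abs_le.1 (hξ ω)).2
    have h4 : D n' (θ ω) ≤ D (n' + 1) ω + 2 * M := by
      change T n' (θ ω) - bs θ ξ n' (θ ω) ≤ T (n' + 1) ω - bs θ ξ (n' + 1) ω + 2 * M
      rw [h2]
      linarith
    have h5 : (m₁ : ℝ) ≤ (n' + 1 : ℕ) := by exact_mod_cast (le_max_left _ _).trans hn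
    rw [div_lt_iff₀ (by linarith)] at hm₁
    push_cast at hn2 h5 ⊢
    have h6 : (η + 1 / ((j : ℝ) + 1)) + 2 * M < ((n' : ℝ) + 1) * (1 / ((j : ℝ) + 1) - 1 / (j' + 1)) := by
      refine hm₁.trans_le ?_
      exact mul_le_mul_of_nonneg_right h5 (by linarith)
    nlinarith
  have hA01 := hθ.ae_empty_or_univ_of_ae_le_preimage hAm.nullMeasurableSet hAinv
  rcases hA01 with hA0 | hA1
  · -- good case
    have : ∀ᵐ ω ∂P, ω ∉ A := by
      filter_upwards [hA0] with ω hω h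
      have : ω ∈ (∅ : Set Ω) := by
        change (∅ : Set Ω) ω
        rw [← hω]
        exact h
      exact this
    filter_upwards [this] with ω hω
    simp only [A, Set.mem_setOf_eq, not_forall, not_frequently, not_lt] at hω
    obtain ⟨j, hj⟩ := hω
    filter_upwards [hj] with n hn
    refine le_trans ?_ hn
    have : (0 : ℝ) ≤ 1 / (j + 1) * n := by positivity
    nlinarith
  · -- the covering
    exfalso
    have hA : ∀ᵐ ω ∂P, ω ∈ A := by
      filter_upwards [hA1] with ω hω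
      change A ω
      rw [hω]
      trivial
    -- exceptional sets
    let B : ℕ → Set Ω := fun L => {ω | ∀ l, 1 ≤ l → l ≤ L → ¬ (T l ω ≤ bs θ ξ l ω + 2 * η * l)}
    have hBm : ∀ L, MeasurableSet (B L) := by
      intro L
      have : B L = ⋂ l : ℕ, ⋂ (_ : 1 ≤ l), ⋂ (_ : l ≤ L), {ω | T l ω ≤ bs θ ξ l ω + 2 * η * l}ᶜ := by
        ext ω
        simp only [B, Set.mem_iInter, Set.mem_setOf_eq, Set.mem_compl_iff]
      rw [this]
      exact .iInter fun l => .iInter fun _ => .iInter fun _ =>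
        (measurableSet_le (hTm l) ((measurable_bs hmp.measurable hξm l).add measurable_const)).compl
    have hBanti : Antitone B := fun L L' h ω hω l h1 h2 => hω l h1 (h2.trans h)
    have hBlim : Tendsto (fun L => P (B L)) atTop (𝓝 0) := by
      have h1 : P (⋂ L, B L) = 0 := by
        refine measure_mono_null ?_ (ae_iff.1 hA)
        intro ω hω hωA
        simp only [Set.mem_iInter] at hω
        obtain ⟨j, hj⟩ : ∃ j : ℕ, 1 / ((j : ℝ) + 1) < η := exists_nat_one_div_lt hη0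
        obtain ⟨n, hn, hn2⟩ := (frequently_atTop.1 (hωA j)) 1
        refine hω n n hn le_rfl ?_
        have hn' : (0 : ℝ) ≤ n := by positivity
        have h5 : D n ω = T n ω - bs θ ξ n ω := rfl
        nlinarith
      rw [← h1]
      exact tendsto_measure_iInter_atTop (fun L => (hBm L).nullMeasurableSet) hBanti ⟨0, by finiteness⟩
    obtain ⟨L, hL⟩ : ∃ L, P.real (B L) * (2 * M) < δ / 4 := by
      have h1 : Tendsto (fun L => P.real (B L) * (2 * M)) atTop (𝓝 (0 * (2 * M))) :=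
        Tendsto.mul_const _ ((ENNReal.tendsto_toReal (by simp : (0 : ℝ≥0∞) ≠ ⊤)).comp hBlim)
      rw [zero_mul] at h1
      exact (h1.eventually (gt_mem_nhds (by positivity))).exists
    let G : Set Ω := {ω | ∀ i : ℕ, p (θ^[i] ω)}
    have hGθ : ∀ ω ∈ G, θ ω ∈ G := by
      intro ω hω i
      have := hω (i + 1)
      rwa [Function.iterate_succ_apply] at this
    have hcov := cover_bound (θ := θ) (T := T) (ξ := ξ) (M := M) (ρ := 2 * η) hM (by positivity)
      hGθ (fun ω hω => (hω 0).1) (fun ω hω => (hω 0).2.1) (fun ω hω => (hω 0).2.2.1) hξ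
      (L := L) (B := B L) (by
        intro ω _ hb
        simp only [B, Set.mem_setOf_eq, not_forall, not_not] at hb
        obtain ⟨l, h1, h2, h3⟩ := hb
        exact ⟨l, h1, h2, by linarith⟩)
    have hone : ∀ ω, |((B L).indicator (1 : Ω → ℝ)) ω| ≤ 1 := by
      intro ω
      rw [Set.indicator_apply]
      split_ifs <;> simp
    have hindm : Measurable ((B L).indicator (1 : Ω → ℝ)) := measurable_one.indicator (hBm L)
    have hbsi : ∀ {ζ : Ω → ℝ} {M' : ℝ}, Measurable ζ → (∀ ω, |ζ ω| ≤ M') → ∀ N, Integrable (bs θ ζ N) P := by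
      intro ζ M' hζ hb N
      exact Integrable.of_bound (measurable_bs hmp.measurable hζ N).aestronglyMeasurable (N * M')
        (Eventually.of_forall fun ω => by rw [Real.norm_eq_abs]; exact abs_bs_le hb N ω)
    have hint : ∀ N : ℕ, N * ν ≤ N * (∫ ω, ξ ω ∂P) + 2 * η * N + 2 * M * (N * P.real (B L)) + 2 * M * L := by
      intro N
      refine (hν N).trans ?_
      have h1 : ∫ ω, T N ω ∂P ≤ ∫ ω, (bs θ ξ N ω + 2 * η * N + 2 * M * bs θ ((B L).indicator 1) N ω + 2 * M * L) ∂P := by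
        refine integral_mono_ae (hTi N) ?_ ?_
        · exact (((hbsi hξm hξ N).add (integrable_const _)).add ((hbsi hindm hone N).const_mul _)).add (integrable_const _)
        · filter_upwards [hpi] with ω hω
          exact hcov N ω hω
      refine h1.trans (le_of_eq ?_)
      have e1 : ∫ ω, 2 * M * bs θ ((B L).indicator 1) N ω ∂P = 2 * M * (N * P.real (B L)) := by
        rw [integral_const_mul, integral_bs hmp hindm hone, integral_indicator_one (hBm L)]
      rw [integral_add, integral_add, integral_add, integral_bs hmp hξm hξ, e1]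
      · simp
      · exact hbsi hξm hξ N
      · exact integrable_const _
      · exact (hbsi hξm hξ N).add (integrable_const _)
      · exact (hbsi hindm hone N).const_mul _
      · exact ((hbsi hξm hξ N).add (integrable_const _)).add ((hbsi hindm hone N).const_mul _)
      · exact integrable_const _
    obtain ⟨N, hN⟩ := exists_nat_gt (2 * M * L / (δ / 4))
    rw [div_lt_iff₀ (by positivity)] at hN
    have h1 := hint N
    have h2 : (N : ℝ) * (P.real (B L) * (2 * M)) ≤ N * (δ / 4) := by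
      exact mul_le_mul_of_nonneg_left hL.le (by positivity)
    have h3 : (N : ℝ) * ν = N * δ + N * ∫ ω, ξ ω ∂P := by rw [hδ]; ring
    have h4 : 2 * η * N = N * (δ / 2) := by rw [hη]; ring
    nlinarith

/-- Upper Birkhoff bound for bounded functions. -/
theorem birkhoff_le [IsProbabilityMeasure P] {θ : Ω → Ω} (hθ : Ergodic θ P) {ξ : Ω → ℝ}
    (hξm : Measurable ξ) {M : ℝ} (hξ : ∀ ω, |ξ ω| ≤ M) {c : ℝ} (hc : ∫ ω, ξ ω ∂P < c) :
    ∀ᵐ ω ∂P, ∀ᶠ n : ℕ in atTop, bs θ ξ n ω ≤ c * n := by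
  have hM : 0 ≤ M := by
    have : (Set.univ : Set Ω).Nonempty := nonempty_of_measure_ne_zero (μ := P) (by simp)
    obtain ⟨ω, _⟩ := this
    exact (abs_nonneg _).trans (hξ ω)
  have hc1 : |c| ≤ M + |c| := by linarith
  have hc2 : c ≤ |c| := le_abs_self c
  have hc3 : -c ≤ |c| := neg_le_abs c
  obtain ⟨η, hη, h⟩ := kw (T := fun n _ => c * n) (M := M + |c|) hθ (fun n => measurable_const)
    (Eventually.of_forall fun ω => by simp) (fun m n => Eventually.of_forall fun ω => by push_cast; linarith)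
    (Eventually.of_forall fun ω => by push_cast; linarith)
    (fun n => Eventually.of_forall fun ω => by push_cast; linarith)
    (fun n => integrable_const _) hξm (fun ω => (hξ ω).trans (by linarith [abs_nonneg c])) (ν := c)
    (fun n => by simp [mul_comm]) hc
  filter_upwards [h] with ω hω
  filter_upwards [hω] with n hn
  have : (0 : ℝ) ≤ η * n := by positivity
  linarith

theorem bs_neg (θ : Ω → Ω) (ξ : Ω → ℝ) (n : ℕ) (ω : Ω) : bs θ (fun ω => - ξ ω) n ω = - bs θ ξ n ω := by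
  simp [bs]

/-- Lower Birkhoff bound for bounded functions. -/
theorem le_birkhoff [IsProbabilityMeasure P] {θ : Ω → Ω} (hθ : Ergodic θ P) {ξ : Ω → ℝ}
    (hξm : Measurable ξ) {M : ℝ} (hξ : ∀ ω, |ξ ω| ≤ M) {c : ℝ} (hc : c < ∫ ω, ξ ω ∂P) :
    ∀ᵐ ω ∂P, ∀ᶠ n : ℕ in atTop, c * n ≤ bs θ ξ n ω := by
  have h := birkhoff_le hθ hξm.neg (M := M) (fun ω => by simpa using hξ ω) (c := -c) (by
    simp only [Pi.neg_apply]
    rw [integral_neg]
    linarith)
  filter_upwards [h] with ω hω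
  filter_upwards [hω] with n hn
  have := bs_neg θ ξ n ω
  have h2 : bs θ (-ξ) n ω = - bs θ ξ n ω := this
  rw [h2] at hn
  linarith

/-! ### Maximal inequality -/

theorem maximal_det {θ : Ω → Ω} {f : Ω → ℝ≥0∞} {η : ℝ≥0∞} {L : ℕ} {B : Set Ω}
    (hB : ∀ ω ∈ B, ∃ n, 1 ≤ n ∧ n ≤ L ∧ η * n ≤ bs θ f n ω) :
    ∀ N : ℕ, ∀ ω, η * bs θ (B.indicator 1) N ω ≤ bs θ f (N + L) ω := by
  classical
  have hle : ∀ (N : ℕ) (ω : Ω), bs θ (B.indicator (1 : Ω → ℝ≥0∞)) N ω ≤ N := by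
    intro N ω
    unfold bs
    refine (Finset.sum_le_sum (g := fun _ => (1 : ℝ≥0∞)) fun i _ => ?_).trans (by simp)
    rw [Set.indicator_apply]
    split_ifs <;> simp
  intro N
  induction N using Nat.strong_induction_on with
  | _ N ih =>
    intro ω
    rcases Nat.eq_zero_or_pos N with rfl | hN
    · simp
    by_cases hb : ω ∈ B
    · obtain ⟨n, h1, h2, h3⟩ := hB ω hb
      by_cases hn : n ≤ N
      · obtain ⟨N', rfl⟩ : ∃ N', N = n + N' := ⟨N - n, by omega⟩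
        rw [bs_add, add_assoc n N' L, bs_add, mul_add]
        exact add_le_add ((mul_le_mul_right (hle n ω) η).trans h3) (ih N' (by omega) _)
      · refine (mul_le_mul_right (hle N ω) η).trans ?_
        refine (mul_le_mul_right (by exact_mod_cast (by omega : N ≤ n) : (N : ℝ≥0∞) ≤ n) η).trans ?_
        refine h3.trans ?_
        obtain ⟨k, hk⟩ : ∃ k, N + L = n + k := ⟨N + L - n, by omega⟩
        rw [hk, bs_add]
        exact le_self_add
    · obtain ⟨N', rfl⟩ : ∃ N', N = N' + 1 := ⟨N - 1, by omega⟩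
      rw [bs_succ', Set.indicator_of_notMem hb, zero_add]
      refine (ih N' (by omega) (θ ω)).trans ?_
      have e : N' + 1 + L = (N' + L) + 1 := by ring
      rw [e, bs_succ']
      exact le_add_self

theorem lintegral_bs {θ : Ω → Ω} (hθ : MeasurePreserving θ P P) {f : Ω → ℝ≥0∞} (hf : Measurable f) (n : ℕ) :
    ∫⁻ ω, bs θ f n ω ∂P = n * ∫⁻ ω, f ω ∂P := by
  unfold bs
  have h0 := lintegral_finset_sum (μ := P) (Finset.range n) (f := fun i ω => f (θ^[i] ω))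
    (fun i _ => hf.comp (hθ.iterate i).measurable)
  rw [h0]
  have : ∀ i, ∫⁻ ω, f (θ^[i] ω) ∂P = ∫⁻ ω, f ω ∂P := fun i => (hθ.iterate i).lintegral_comp hf
  simp [this]

/-- **Maximal inequality.** -/
theorem maximal [IsProbabilityMeasure P] {θ : Ω → Ω} (hθ : MeasurePreserving θ P P) {f : Ω → ℝ≥0∞}
    (hf : Measurable f) (η : ℝ≥0∞) :
    η * P {ω | ∃ n : ℕ, 1 ≤ n ∧ η * n ≤ bs θ f n ω} ≤ ∫⁻ ω, f ω ∂P := by
  classical
  let B : ℕ → Set Ω := fun L => {ω | ∃ n : ℕ, 1 ≤ n ∧ n ≤ L ∧ η * n ≤ bs θ f n ω}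
  have hBm : ∀ L, MeasurableSet (B L) := by
    intro L
    have : B L = ⋃ n : ℕ, ⋃ (_ : 1 ≤ n), ⋃ (_ : n ≤ L), {ω | η * n ≤ bs θ f n ω} := by
      ext ω
      simp only [B, Set.mem_iUnion, Set.mem_setOf_eq, exists_prop]
    rw [this]
    exact .iUnion fun n => .iUnion fun _ => .iUnion fun _ =>
      measurableSet_le measurable_const (measurable_bs hθ.measurable hf n)
  have hmono : Monotone B := fun L L' h ω ⟨n, h1, h2, h3⟩ => ⟨n, h1, h2.trans h, h3⟩
  have hU : {ω | ∃ n : ℕ, 1 ≤ n ∧ η * n ≤ bs θ f n ω} = ⋃ L, B L := by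
    ext ω
    simp only [B, Set.mem_iUnion, Set.mem_setOf_eq]
    constructor
    · rintro ⟨n, h1, h2⟩; exact ⟨n, n, h1, le_rfl, h2⟩
    · rintro ⟨_, n, h1, _, h2⟩; exact ⟨n, h1, h2⟩
  rw [hU, hmono.measure_iUnion, ENNReal.mul_iSup]
  refine iSup_le fun L => ?_
  -- finite level
  by_cases hinf : ∫⁻ ω, f ω ∂P = ⊤
  · rw [hinf]; exact le_top
  have hN : ∀ N : ℕ, (N : ℝ≥0∞) * (η * P (B L)) ≤ N * (∫⁻ ω, f ω ∂P) + L * ∫⁻ ω, f ω ∂P := by
    intro N
    have h1 : ∫⁻ ω, η * bs θ ((B L).indicator 1) N ω ∂P ≤ ∫⁻ ω, bs θ f (N + L) ω ∂P :=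
      lintegral_mono fun ω => maximal_det (B := B L) (L := L) (fun ω h => h) N ω
    rw [lintegral_const_mul _ (measurable_bs hθ.measurable (measurable_one.indicator (hBm L)) N),
      lintegral_bs hθ (measurable_one.indicator (hBm L)), lintegral_bs hθ hf,
      lintegral_indicator_one (hBm L)] at h1
    rw [← add_mul, ← Nat.cast_add]
    calc (N : ℝ≥0∞) * (η * P (B L)) = η * (N * P (B L)) := by ring
      _ ≤ _ := h1
  by_contra hcon
  rw [not_le] at hcon
  -- contradiction for large N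
  set a := ∫⁻ ω, f ω ∂P with ha
  set b := η * P (B L) with hb
  have hb' : ∃ b' : ℝ≥0∞, a < b' ∧ b' ≤ b ∧ b' ≠ ⊤ := by
    obtain ⟨b', h1, h2⟩ := exists_between hcon
    exact ⟨b', h1, h2.le, (h2.trans_le le_top).ne⟩
  obtain ⟨b', h1, h2, h3⟩ := hb'
  have hN' : ∀ N : ℕ, (N : ℝ) * b'.toReal ≤ N * a.toReal + L * a.toReal := by
    intro N
    have h4 : (N : ℝ≥0∞) * b' ≤ N * a + L * a := (mul_le_mul_right h2 _).trans (hN N)
    have h5 : (N : ℝ≥0∞) * a + L * a ≠ ⊤ := by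
      finiteness
    have h6 := ENNReal.toReal_mono h5 h4
    rw [ENNReal.toReal_add (by finiteness) (by finiteness)] at h6
    simpa using h6
  have h4 : a.toReal < b'.toReal := (ENNReal.toReal_lt_toReal hinf h3).2 h1
  obtain ⟨N, hN2⟩ := exists_nat_gt (L * a.toReal / (b'.toReal - a.toReal))
  rw [div_lt_iff₀ (by linarith)] at hN2
  have := hN' N
  nlinarith

/-- If `∑ E f_r < ∞` then a.s. all Birkhoff averages of `f_r` are eventually uniformly small. -/
theorem maximal_bc [IsProbabilityMeasure P] {θ : Ω → Ω} (hθ : MeasurePreserving θ P P) {f : ℕ → Ω → ℝ≥0∞}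
    (hf : ∀ r, Measurable (f r)) (hsum : ∑' r, ∫⁻ ω, f r ω ∂P ≠ ⊤) {η : ℝ≥0∞} (hη : η ≠ 0) (hη' : η ≠ ⊤) :
    ∀ᵐ ω ∂P, ∀ᶠ r in atTop, ∀ n : ℕ, bs θ (f r) n ω ≤ η * n := by
  have h1 : ∑' r, P {ω | ∃ n : ℕ, 1 ≤ n ∧ η * n ≤ bs θ (f r) n ω} ≠ ⊤ := by
    have h2 : ∑' r, P {ω | ∃ n : ℕ, 1 ≤ n ∧ η * n ≤ bs θ (f r) n ω} ≤ η⁻¹ * ∑' r, ∫⁻ ω, f r ω ∂P := by
      rw [← ENNReal.tsum_mul_left]
      refine ENNReal.tsum_le_tsum fun r => ?_
      have h3 := maximal hθ (hf r) η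
      calc P {ω | ∃ n : ℕ, 1 ≤ n ∧ η * n ≤ bs θ (f r) n ω}
          = η⁻¹ * (η * P {ω | ∃ n : ℕ, 1 ≤ n ∧ η * n ≤ bs θ (f r) n ω}) := by
            rw [← mul_assoc, ENNReal.inv_mul_cancel hη hη', one_mul]
        _ ≤ _ := mul_le_mul_right h3 _
    exact (h2.trans_lt (ENNReal.mul_lt_top (ENNReal.inv_lt_top.2 (pos_iff_ne_zero.2 hη)) hsum.lt_top)).ne
  have h2 := ae_eventually_notMem h1
  filter_upwards [h2] with ω hω
  filter_upwards [hω] with r hr n
  simp only [Set.mem_setOf_eq, not_exists, not_and, not_le] at hr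
  rcases Nat.eq_zero_or_pos n with rfl | hn
  · simp
  · exact (hr n hn).le

end C7
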