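import Pool.Agent.Lib.MP_c725eb_pr.Rho
import Pool.Agent.Lib.MP_c725eb_pr.Cover
import Pool.Agent.Lib.MP_c725eb_pr.Cls
import Pool.Agent.Lib.MP_c725eb_pr.Touch

/-!
# Coercivity: passage times along the curves against sums of increments
-/

set_option autoImplicit false

namespace C7

open MeasureTheory Filter Set
open scoped ENNReal Topology

/-! ### potentials of increments -/

/-- The potential of the increments `f`: `pot f 0 = 0`, `pot f i - pot f (i + 1) = f i`. -/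
noncomputable def pot (f : ℤ → ℝ) (i : ℤ) : ℝ :=
  ∑ j ∈ Finset.Ico i 0, f j - ∑ j ∈ Finset.Ico 0 i, f j

@[simp] theorem pot_zero (f : ℤ → ℝ) : pot f 0 = 0 := by simp [pot]

theorem pot_sub_succ (f : ℤ → ℝ) (i : ℤ) : pot f i - pot f (i + 1) = f i := by
  unfold pot
  rcases lt_or_ge i 0 with hi | hi
  · rw [Finset.Ico_eq_empty (a := (0 : ℤ)) (b := i) (by simp; omega),
      Finset.Ico_eq_empty (a := (0 : ℤ)) (b := i + 1) (by simp; omega)]
    have h : Finset.Ico i 0 = insert i (Finset.Ico (i + 1) 0) := by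
      ext x; simp only [Finset.mem_Ico, Finset.mem_insert]; omega
    rw [h, Finset.sum_insert (by simp)]
    simp
  · rw [Finset.Ico_eq_empty (a := i) (b := (0 : ℤ)) (by simp; omega),
      Finset.Ico_eq_empty (a := i + 1) (b := (0 : ℤ)) (by simp; omega)]
    have h : Finset.Ico 0 (i + 1) = insert i (Finset.Ico 0 i) := by
      ext x; simp only [Finset.mem_Ico, Finset.mem_insert]; omega
    rw [h, Finset.sum_insert (by simp)]
    simp

theorem pot_sub {f : ℤ → ℝ} {a b : ℤ} (h : a ≤ b) : pot f a - pot f b = ∑ j ∈ Finset.Ico a b, f j := by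
  induction b, h using Int.leInduction with
  | base => simp
  | succ b hb ih =>
    have h : Finset.Ico a (b + 1) = insert b (Finset.Ico a b) := by
      ext x; simp only [Finset.mem_Ico, Finset.mem_insert]; omega
    rw [h, Finset.sum_insert (by simp), ← ih, ← pot_sub_succ f b]
    ring

/-- A function with the increments `f` differs from `pot f` by a constant. -/
theorem pot_unique {f g : ℤ → ℝ} (h : ∀ i, g i - g (i + 1) = f i) (i : ℤ) : g i = g 0 + pot f i := by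
  have key : ∀ a b : ℤ, a ≤ b → g a - g b = pot f a - pot f b := by
    intro a b hab
    induction b, hab using Int.leInduction with
    | base => simp
    | succ b hb ih =>
      have h1 := h b
      have h2 := pot_sub_succ f b
      linarith
  rcases le_total 0 i with hi | hi
  · have := key 0 i hi
    rw [pot_zero] at this
    linarith
  · have := key i 0 hi
    rw [pot_zero] at this
    linarith

theorem pot_le_of_le {f g : ℤ → ℝ} {a b : ℤ} (hab : a ≤ b) (h : ∀ i, a ≤ i → i < b → f i ≤ g i) :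
    pot f a - pot f b ≤ pot g a - pot g b := by
  rw [pot_sub hab, pot_sub hab]
  exact Finset.sum_le_sum fun i hi => h i (Finset.mem_Ico.1 hi).1 (Finset.mem_Ico.1 hi).2

theorem abs_pot_sub_le {f : ℤ → ℝ} {M : ℝ} (hf : ∀ i, |f i| ≤ M) (a b : ℤ) :
    |pot f a - pot f b| ≤ M * |((b - a : ℤ) : ℝ)| := by
  have key : ∀ a b : ℤ, a ≤ b → |pot f a - pot f b| ≤ M * ((b - a : ℤ) : ℝ) := by
    intro a b hab
    rw [pot_sub hab]
    refine (Finset.abs_sum_le_sum_abs _ _).trans ?_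
    refine (Finset.sum_le_sum fun i _ => hf i).trans ?_
    rw [Finset.sum_const, Int.card_Ico, nsmul_eq_mul, mul_comm]
    have : (((b - a).toNat : ℕ) : ℝ) = ((b - a : ℤ) : ℝ) := by
      have h1 : (((b - a).toNat : ℕ) : ℤ) = b - a := by omega
      exact_mod_cast h1
    rw [this]
  rcases le_total a b with h | h
  · refine (key a b h).trans ?_
    have hM : 0 ≤ M := (abs_nonneg _).trans (hf 0)
    exact mul_le_mul_of_nonneg_left (le_abs_self _) hM
  · rw [abs_sub_comm]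
    refine (key b a h).trans ?_
    have hM : 0 ≤ M := (abs_nonneg _).trans (hf 0)
    refine mul_le_mul_of_nonneg_left ?_ hM
    have e : ((b - a : ℤ) : ℝ) = -((a - b : ℤ) : ℝ) := by push_cast; ring
    rw [e, abs_neg]
    exact le_abs_self _

theorem pot_shift (f : ℤ → ℝ) (a j : ℤ) : pot (fun i => f (i + a)) j = pot f (j + a) - pot f a := by
  have h := pot_unique (f := fun i => f (i + a)) (g := fun i => pot f (i + a)) (fun i => by
    have := pot_sub_succ f (i + a)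
    rw [show i + 1 + a = i + a + 1 by ring]
    exact this) j
  simp only [zero_add] at h
  linarith

theorem pot_neg (f : ℤ → ℝ) (j : ℤ) : pot (fun i => -f i) j = -pot f j := by
  unfold pot
  simp only [Finset.sum_neg_distrib]
  ring

/-! ### the covering theorem along a line -/

section kw

variable {F : Measure ℝ} [IsProbabilityMeasure F] {K : ℝ≥0∞} (hK : SmallK F K) {σ : ℤ}
  (hσ : σ = 0 ∨ σ = 1)

include hK hσ

theorem tf_le_line {ω : Om} (hg : Good σ (wt ω) K) {x y : V} (h : ln σ x = ln σ y) :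
    tf σ K x y ω ≤ (ix σ y - ix σ x).natAbs * (2 * K) := by
  unfold tf op
  rw [h]
  have key : ∀ i j : ℤ, i ≤ j → T (wt ω) univ (pk σ (wt ω) K (ln σ y) i) (pk σ (wt ω) K (ln σ y) j) ≤
      (j - i).natAbs * (2 * K) := by
    intro i j hij
    have h1 := T_pk_le hσ hg (ln σ y) i (j - i).natAbs
    have e : i + ((j - i).natAbs : ℤ) = j := by omega
    rw [e] at h1
    exact (T_mono (subset_univ _) _ _).trans h1
  rcases le_total (ix σ x) (ix σ y) with h1 | h1
  · exact key _ _ h1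
  · rw [T_comm]
    have := key _ _ h1
    rwa [show (ix σ y - ix σ x).natAbs = (ix σ x - ix σ y).natAbs by omega]

/-- COVERING along a direction of the line. -/
theorem kw_dir {s : V} (hs : ln σ s = 0) (hs0 : s ≠ 0) {ξ : Om → ℝ} (hξm : Measurable ξ) {M : ℝ}
    (hξ : ∀ ω, |ξ ω| ≤ M) (hlt : ∫ ω, ξ ω ∂(iid Ed F) < rho σ F K s) :
    ∃ η > 0, ∀ᵐ ω ∂(iid Ed F), ∀ᶠ n : ℕ in atTop,
      η * n ≤ (tf σ K 0 (n • s) ω).toReal - bs (shO s) ξ n ω := by
  have hgood := ae_good_wt (F := F) hK hσ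
  have hKt : K ≠ ⊤ := hK.1
  set C : ℝ := (ix σ s).natAbs * (2 * K.toReal) with hC
  have hC0 : 0 ≤ C := by positivity
  have hln : ∀ n : ℕ, ln σ (n • s) = 0 := fun n => by rw [ln_nsmul, hs, mul_zero]
  have hbd : ∀ n : ℕ, ∀ᵐ ω ∂(iid Ed F), tf σ K 0 (n • s) ω ≤ ENNReal.ofReal (C * n) := by
    intro n
    filter_upwards [hgood] with ω hg
    have h1 := tf_le_line hK hσ hg (x := 0) (y := n • s) (by rw [ln_zero, hln])
    refine h1.trans (le_of_eq ?_)
    rw [ix_zero, sub_zero, ix_nsmul, Int.natAbs_mul, Int.natAbs_natCast, hC]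
    rw [show ((ix σ s).natAbs : ℝ) * (2 * K.toReal) * n = ((n * (ix σ s).natAbs : ℕ) : ℝ) * (2 * K.toReal) by
      push_cast; ring]
    rw [ENNReal.ofReal_mul (by positivity), ENNReal.ofReal_natCast, ENNReal.ofReal_mul (by norm_num),
      ENNReal.ofReal_toReal hKt]
    norm_num
  have hfin : ∀ n : ℕ, ∀ᵐ ω ∂(iid Ed F), tf σ K 0 (n • s) ω ≠ ⊤ := fun n =>
    (hbd n).mono fun ω h => ne_top_of_le_ne_top ENNReal.ofReal_ne_top h
  have hshift : ∀ (m n : ℕ) (ω : Om), tf σ K (m • s) ((m + n) • s) ω = tf σ K 0 (n • s) ((shO s)^[m] ω) := by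
    intro m n ω
    rw [shO_iterate, tf_shO hσ, zero_add, add_comm (n • s), add_smul]
  refine kw (ergodic_shO F hs0) (T := fun n ω => (tf σ K 0 (n • s) ω).toReal) (M := M + C)
    (fun n => (measurable_tf σ K _ _).ennreal_toReal) ?_ ?_ ?_ ?_ ?_ hξm
    (fun ω => (hξ ω).trans (by linarith)) (ν := rho σ F K s) ?_ hlt
  · refine Eventually.of_forall fun ω => ?_
    simp only [zero_smul]
    have : tf σ K 0 0 ω = 0 := T_self _ (mem_univ _)
    rw [this]; simp
  · intro m n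
    have h1 := hfin m
    have h2 : ∀ᵐ ω ∂(iid Ed F), tf σ K 0 (n • s) ((shO s)^[m] ω) ≠ ⊤ :=
      ((measurePreserving_shO F s).iterate m).quasiMeasurePreserving.ae (hfin n)
    filter_upwards [h1, h2] with ω h3 h4
    rw [← ENNReal.toReal_add h3 h4]
    refine ENNReal.toReal_mono (ENNReal.add_ne_top.2 ⟨h3, h4⟩) ?_
    rw [← hshift]
    exact tf_triangle _ _ _ _
  · filter_upwards [hbd 1] with ω h
    have h1 := ENNReal.toReal_mono ENNReal.ofReal_ne_top h
    rw [ENNReal.toReal_ofReal (by positivity)] at h1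
    have hM : 0 ≤ M := (abs_nonneg _).trans (hξ ω)
    simp only [Nat.cast_one, mul_one] at h1
    linarith
  · intro n
    filter_upwards [hbd 1, hfin (n + 1)] with ω h h'
    have h1 := ENNReal.toReal_mono ENNReal.ofReal_ne_top h
    rw [ENNReal.toReal_ofReal (by positivity)] at h1
    have hM : 0 ≤ M := (abs_nonneg _).trans (hξ ω)
    simp only [Nat.cast_one, mul_one] at h1
    have hf1 : tf σ K 0 (1 • s) ω ≠ ⊤ := ne_top_of_le_ne_top ENNReal.ofReal_ne_top h
    have h2 : tf σ K 0 (n • s) (shO s ω) ≤ tf σ K 0 (1 • s) ω + tf σ K 0 ((n + 1) • s) ω := by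
      have h3 := hshift 1 n ω
      rw [Function.iterate_one] at h3
      rw [← h3, add_comm 1 n, tf_comm 0 (1 • s)]
      exact tf_triangle _ _ _ _
    have h3 := ENNReal.toReal_mono (ENNReal.add_ne_top.2 ⟨hf1, h'⟩) h2
    rw [ENNReal.toReal_add hf1 h'] at h3
    linarith
  · intro n
    refine Integrable.of_bound (measurable_tf σ K _ _).ennreal_toReal.aestronglyMeasurable (C * n) ?_
    filter_upwards [hbd n] with ω h
    have h1 := ENNReal.toReal_mono ENNReal.ofReal_ne_top h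
    rw [ENNReal.toReal_ofReal (by positivity)] at h1
    rw [Real.norm_eq_abs, abs_of_nonneg ENNReal.toReal_nonneg]
    exact h1
  · intro n
    have h1 := mul_rho_le hK hσ s n
    refine h1.trans (le_of_eq ?_)
    unfold em
    rw [← integral_toReal (measurable_tf σ K _ _).aemeasurable]
    exact (hfin n).mono fun ω h => h.lt_top

end kw

/-! ### all lines -/

theorem ln_vert (σ : ℤ) : ln σ (vert σ) = 0 := by unfold ln vert; ring

theorem ix_vert {σ : ℤ} (hσ : σ = 0 ∨ σ = 1) : ix σ (vert σ) = 1 + σ := by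
  unfold ix vert
  rcases hσ with rfl | rfl <;> norm_num

theorem vert_ne_zero (σ : ℤ) : vert σ ≠ 0 := by
  intro h
  have := congrArg Prod.snd h
  simp [vert] at this

/-- Mean of the increments of one period. -/
noncomputable def EV (σ : ℤ) (F : Measure ℝ) (g : ℤ → W → ℝ) : ℝ :=
  ∫ ω, -pot (fun i => mv σ g 0 i (wt ω)) (1 + σ) ∂(iid Ed F)

/-- Admissible base functionals: measurable and bounded. -/
structure Adm (g : ℤ → W → ℝ) (M : ℝ) : Prop where
  meas : ∀ (w : Om → W), (∀ v d, Measurable fun ω => w ω v d) → ∀ i, Measurable fun ω => g i (w ω)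
  bdd : ∀ i w, |g i w| ≤ M

theorem Adm.mv_le {g : ℤ → W → ℝ} {M : ℝ} (hg : Adm g M) (σ k i : ℤ) (w : W) : |mv σ g k i w| ≤ M :=
  hg.bdd _ _

theorem Adm.measurable_mv {g : ℤ → W → ℝ} {M : ℝ} (hg : Adm g M) (σ k i : ℤ) :
    Measurable fun ω : Om => mv σ g k i (wt ω) :=
  C7.measurable_mv measurable_wt3 (fun w hw i => hg.meas w hw i) σ k i

theorem Adm.nonneg {g : ℤ → W → ℝ} {M : ℝ} (hg : Adm g M) : 0 ≤ M :=
  (abs_nonneg _).trans (hg.bdd 0 fun _ _ => 0)

theorem Adm.neg {g : ℤ → W → ℝ} {M : ℝ} (hg : Adm g M) : Adm (fun i w => -g i w) M :=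
  ⟨fun w hw i => (hg.meas w hw i).neg, fun i w => by rw [abs_neg]; exact hg.bdd i w⟩

theorem mv_neg (σ : ℤ) (g : ℤ → W → ℝ) (k i : ℤ) (w : W) :
    mv σ (fun i w => -g i w) k i w = -mv σ g k i w := rfl

theorem measurable_pot {f : Om → ℤ → ℝ} (hf : ∀ i, Measurable fun ω => f ω i) (j : ℤ) :
    Measurable fun ω => pot (f ω) j := by
  unfold pot
  exact (Finset.measurable_sum _ fun i _ => hf i).sub (Finset.measurable_sum _ fun i _ => hf i)

theorem EV_neg (σ : ℤ) (F : Measure ℝ) (g : ℤ → W → ℝ) : EV σ F (fun i w => -g i w) = -EV σ F g := by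
  unfold EV
  rw [← integral_neg]
  congr 1
  funext ω
  have : (fun i => mv σ (fun i w => -g i w) 0 i (wt ω)) = fun i => -mv σ g 0 i (wt ω) := by
    funext i; rfl
  rw [this, pot_neg]

theorem mv_wt_shO {σ : ℤ} (hσ : σ = 0 ∨ σ = 1) (g : ℤ → W → ℝ) (s : V) (k i : ℤ) (ω : Om) :
    mv σ g k i (wt (shO s ω)) = mv σ g (k + ln σ s) (i + ix σ s) (wt ω) := by
  rw [wt_shO]
  have := mv_shift hσ g s (k + ln σ s) i (wt ω)
  rw [add_sub_cancel_right] at this
  exact this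

theorem pot_mv_shO {σ : ℤ} (hσ : σ = 0 ∨ σ = 1) (g : ℤ → W → ℝ) (s : V) (k j : ℤ) (ω : Om) :
    pot (fun i => mv σ g k i (wt (shO s ω))) j =
      pot (fun i => mv σ g (k + ln σ s) i (wt ω)) (j + ix σ s) -
        pot (fun i => mv σ g (k + ln σ s) i (wt ω)) (ix σ s) := by
  rw [← pot_shift]
  congr 1
  funext i
  exact mv_wt_shO hσ g s k i ω

/-- The potential along the multiples of a shift is a Birkhoff sum. -/
theorem bs_pot {σ : ℤ} (hσ : σ = 0 ∨ σ = 1) (g : ℤ → W → ℝ) {s : V} (hs : ln σ s = 0) (n : ℕ) (ω : Om) :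
    bs (shO s) (fun ω => -pot (fun i => mv σ g 0 i (wt ω)) (ix σ s)) n ω =
      -pot (fun i => mv σ g 0 i (wt ω)) (n * ix σ s) := by
  induction n with
  | zero => simp
  | succ n ih =>
    rw [bs_succ, ih, shO_iterate, pot_mv_shO hσ, ln_nsmul, hs, mul_zero, add_zero, ix_nsmul]
    have e : ix σ s + n * ix σ s = ((n + 1 : ℕ) : ℤ) * ix σ s := by push_cast; ring
    rw [e]
    ring

theorem integral_pot_neg {σ : ℤ} (hσ : σ = 0 ∨ σ = 1) {F : Measure ℝ} [IsProbabilityMeasure F]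
    {g : ℤ → W → ℝ} {M : ℝ} (hg : Adm g M) :
    ∫ ω, -pot (fun i => mv σ g 0 i (wt ω)) (ix σ (-vert σ)) ∂(iid Ed F) = -EV σ F g := by
  unfold EV
  have h := (measurePreserving_shO F (vert σ))
  have hm : AEStronglyMeasurable (fun ω => -pot (fun i => mv σ g 0 i (wt ω)) (ix σ (-vert σ)))
      (Measure.map (shO (vert σ)) (iid Ed F)) :=
    (measurable_pot (fun i => hg.measurable_mv σ 0 i) _).neg.aestronglyMeasurable
  have h1 := integral_map h.measurable.aemeasurable hm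
  rw [h.map_eq] at h1
  rw [h1, ← integral_neg]
  congr 1
  funext ω
  rw [pot_mv_shO hσ, ln_vert, ix_neg, neg_add_cancel, pot_zero, ix_vert hσ]
  simp only [add_zero]
  ring

section anchor

variable {w : W} {σ : ℤ} {K : ℝ≥0∞} {l : ℤ}

/-- Changing the anchor. -/
theorem anchor (hfin : ∀ i j, T w univ (pk σ w K l i) (pk σ w K l j) ≠ ⊤) {ψ : ℤ → ℝ} {M : ℝ} (hM : 0 ≤ M)
    (hψ : ∀ i j, |ψ i - ψ j| ≤ M * |((j - i : ℤ) : ℝ)|) {ε : ℤ} (hε : ε = 1 ∨ ε = -1) {η C : ℝ} (hη : 0 < η)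
    {a : ℤ} (h : ∀ j : ℤ, 0 ≤ ε * (j - a) → η * |((j - a : ℤ) : ℝ)| - C ≤
      (T w univ (pk σ w K l a) (pk σ w K l j)).toReal + ψ j - ψ a) (b : ℤ) :
    ∃ C', ∀ j : ℤ, 0 ≤ ε * (j - b) → η * |((j - b : ℤ) : ℝ)| - C' ≤
      (T w univ (pk σ w K l b) (pk σ w K l j)).toReal + ψ j - ψ b := by
  set t : ℝ := (T w univ (pk σ w K l a) (pk σ w K l b)).toReal with ht
  have ht0 : 0 ≤ t := ENNReal.toReal_nonneg
  set A : ℝ := |((a - b : ℤ) : ℝ)| with hA
  have hA0 : 0 ≤ A := abs_nonneg _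
  have hAba : |((b - a : ℤ) : ℝ)| = A := by
    rw [hA, ← abs_neg]; congr 1; push_cast; ring
  refine ⟨|C| + η * A + t + M * A, fun j hj => ?_⟩
  by_cases hja : 0 ≤ ε * (j - a)
  · have h1 := h j hja
    have h2 : (T w univ (pk σ w K l a) (pk σ w K l j)).toReal ≤ t + (T w univ (pk σ w K l b) (pk σ w K l j)).toReal := by
      rw [ht, ← ENNReal.toReal_add (hfin _ _) (hfin _ _)]
      exact ENNReal.toReal_mono (ENNReal.add_ne_top.2 ⟨hfin _ _, hfin _ _⟩) (T_triangle _ _ _ _ _)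
    have h3 := hψ b a
    have h4 := abs_le.1 h3
    have h5 : |((j - b : ℤ) : ℝ)| ≤ |((j - a : ℤ) : ℝ)| + A := by
      rw [hA]
      refine le_trans (le_of_eq ?_) (abs_add_le _ _)
      congr 1; push_cast; ring
    have h6 := le_abs_self C
    have h7 : η * |((j - b : ℤ) : ℝ)| ≤ η * |((j - a : ℤ) : ℝ)| + η * A := by
      rw [← mul_add]
      exact mul_le_mul_of_nonneg_left h5 hη.le
    linarith [h4.1, h4.2]
  · have h5 : |((j - b : ℤ) : ℝ)| ≤ A := by
      rw [hA]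
      have : |j - b| ≤ |a - b| := by
        rcases hε with rfl | rfl
        · rw [abs_le]; constructor <;> rcases abs_cases (a - b) with h' | h' <;> omega
        · rw [abs_le]; constructor <;> rcases abs_cases (a - b) with h' | h' <;> omega
      exact_mod_cast this
    have h3 := hψ j b
    have e : |((b - j : ℤ) : ℝ)| = |((j - b : ℤ) : ℝ)| := by
      rw [← abs_neg]; congr 1; push_cast; ring
    rw [e] at h3
    have h4 := abs_le.1 h3
    have h6 : η * |((j - b : ℤ) : ℝ)| ≤ η * A := mul_le_mul_of_nonneg_left h5 hη.le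
    have h7 : M * |((j - b : ℤ) : ℝ)| ≤ M * A := mul_le_mul_of_nonneg_left h5 hM
    have h8 := abs_nonneg C
    have h9 : 0 ≤ (T w univ (pk σ w K l b) (pk σ w K l j)).toReal := ENNReal.toReal_nonneg
    linarith [h4.1]

end anchor

section line

variable {w : W} {σ : ℤ} {K : ℝ≥0∞}

/-- Passage times along a curve, inside its region. -/
theorem T_line_le (hσ : σ = 0 ∨ σ = 1) (hg : Good σ w K) (hK : K ≠ ⊤) (l i j : ℤ) :
    T w (Rg σ w K l) (pk σ w K l i) (pk σ w K l j) ≤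
      ENNReal.ofReal (2 * K.toReal * |((j - i : ℤ) : ℝ)|) := by
  have key : ∀ i j : ℤ, i ≤ j → T w (Rg σ w K l) (pk σ w K l i) (pk σ w K l j) ≤
      ENNReal.ofReal (2 * K.toReal * |((j - i : ℤ) : ℝ)|) := by
    intro i j hij
    have h1 := T_pk_le hσ hg l i (j - i).natAbs
    have e : i + ((j - i).natAbs : ℤ) = j := by omega
    rw [e] at h1
    refine h1.trans (le_of_eq ?_)
    have e2 : |((j - i : ℤ) : ℝ)| = ((j - i).natAbs : ℝ) := by
      rw [Nat.cast_natAbs]; push_cast; rfl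
    rw [e2, mul_comm (2 * K.toReal), ENNReal.ofReal_mul (by positivity), ENNReal.ofReal_natCast,
      ENNReal.ofReal_mul (by norm_num), ENNReal.ofReal_toReal hK]
    norm_num
  rcases le_total i j with h | h
  · exact key i j h
  · rw [T_comm]
    have h1 := key j i h
    have e : |((i - j : ℤ) : ℝ)| = |((j - i : ℤ) : ℝ)| := by
      rw [← abs_neg]; congr 1; push_cast; ring
    rwa [e] at h1

theorem T_line_ne_top (hσ : σ = 0 ∨ σ = 1) (hg : Good σ w K) (hK : K ≠ ⊤) (l i j : ℤ) :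
    T w (Rg σ w K l) (pk σ w K l i) (pk σ w K l j) ≠ ⊤ :=
  ne_top_of_le_ne_top ENNReal.ofReal_ne_top (T_line_le hσ hg hK l i j)

theorem T_line_univ_ne_top (hσ : σ = 0 ∨ σ = 1) (hg : Good σ w K) (hK : K ≠ ⊤) (l i j : ℤ) :
    T w univ (pk σ w K l i) (pk σ w K l j) ≠ ⊤ :=
  ne_top_of_le_ne_top (T_line_ne_top hσ hg hK l i j) (T_mono (subset_univ _) _ _)

theorem T_line_toReal_le (hσ : σ = 0 ∨ σ = 1) (hg : Good σ w K) (hK : K ≠ ⊤) (l i j : ℤ) :
    (T w (Rg σ w K l) (pk σ w K l i) (pk σ w K l j)).toReal ≤ 2 * K.toReal * |((j - i : ℤ) : ℝ)| := by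
  have h := ENNReal.toReal_mono ENNReal.ofReal_ne_top (T_line_le hσ hg hK l i j)
  rwa [ENNReal.toReal_ofReal (by positivity)] at h

theorem T_line_univ_toReal_le (hσ : σ = 0 ∨ σ = 1) (hg : Good σ w K) (hK : K ≠ ⊤) (l i j : ℤ) :
    (T w univ (pk σ w K l i) (pk σ w K l j)).toReal ≤ 2 * K.toReal * |((j - i : ℤ) : ℝ)| :=
  (ENNReal.toReal_mono (T_line_ne_top hσ hg hK l i j) (T_mono (subset_univ _) _ _)).trans
    (T_line_toReal_le hσ hg hK l i j)

end line

/-- Coercivity in one direction of the line `l`: `T + ψ` grows. -/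
def CoD (σ : ℤ) (K : ℝ≥0∞) (w : W) (l ε : ℤ) (η : ℝ) (ψ : ℤ → ℝ) : Prop :=
  ∃ C, ∀ j : ℤ, 0 ≤ ε * j → η * |(j : ℝ)| - C ≤ (T w univ (pk σ w K l 0) (pk σ w K l j)).toReal + ψ j

section coer

variable {F : Measure ℝ} [IsProbabilityMeasure F] {K : ℝ≥0∞} (hK : SmallK F K) {σ : ℤ}
  (hσ : σ = 0 ∨ σ = 1)

include hK hσ

theorem coer_base {g : ℤ → W → ℝ} {M : ℝ} (hg : Adm g M) {ε : ℤ} (hε : ε = 1 ∨ ε = -1)
    (hlt : ε * EV σ F g < rho σ F K (vert σ)) :
    ∃ η > 0, ∀ᵐ ω ∂(iid Ed F), CoD σ K (wt ω) 0 ε η (pot fun i => mv σ g 0 i (wt ω)) := by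
  -- the direction
  obtain ⟨s, hs, hs0, hix, hrho, hint⟩ : ∃ s : V, ln σ s = 0 ∧ s ≠ 0 ∧ ix σ s = ε * (1 + σ) ∧
      rho σ F K s = rho σ F K (vert σ) ∧
      ∫ ω, -pot (fun i => mv σ g 0 i (wt ω)) (ix σ s) ∂(iid Ed F) = ε * EV σ F g := by
    rcases hε with rfl | rfl
    · refine ⟨vert σ, ln_vert σ, vert_ne_zero σ, by rw [ix_vert hσ, one_mul], rfl, ?_⟩
      rw [ix_vert hσ]
      unfold EV
      simp
    · refine ⟨-vert σ, by rw [ln_neg, ln_vert, neg_zero], neg_ne_zero.2 (vert_ne_zero σ),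
        by rw [ix_neg, ix_vert hσ]; ring, rho_neg hK hσ _, ?_⟩
      rw [integral_pot_neg hσ hg]
      simp
  have hσ1 : (1 : ℝ) ≤ 1 + σ := by rcases hσ with rfl | rfl <;> norm_num
  have hσ2 : (1 : ℤ) ≤ 1 + σ := by omega
  have hbound : ∀ ω : Om, |-pot (fun i => mv σ g 0 i (wt ω)) (ix σ s)| ≤ M * |((ix σ s : ℤ) : ℝ)| := by
    intro ω
    have h := abs_pot_sub_le (fun i => hg.mv_le σ 0 i (wt ω)) 0 (ix σ s)
    rw [pot_zero, zero_sub, sub_zero] at h
    exact h
  obtain ⟨η₀, hη₀, hkw⟩ := kw_dir hK hσ hs hs0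
    (ξ := fun ω => -pot (fun i => mv σ g 0 i (wt ω)) (ix σ s))
    (measurable_pot (fun i => hg.measurable_mv σ 0 i) _).neg hbound
    (by rw [hint, hrho]; exact hlt)
  refine ⟨η₀ / (1 + σ), by positivity, ?_⟩
  filter_upwards [hkw, ae_good_wt hK hσ] with ω h1 hgood
  obtain ⟨N, hN⟩ := eventually_atTop.1 h1
  set β := fun i => mv σ g 0 i (wt ω) with hβ
  have hM := hg.nonneg
  have hK0 : 0 ≤ K.toReal := ENNReal.toReal_nonneg
  have hβM : ∀ i, |β i| ≤ M := fun i => hg.mv_le σ 0 i _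
  have htf : ∀ n : ℕ, tf σ K 0 (n • s) ω = T (wt ω) univ (pk σ (wt ω) K 0 0) (pk σ (wt ω) K 0 (n * ix σ s)) := by
    intro n
    unfold tf op
    rw [ln_zero, ix_zero, ln_nsmul, hs, mul_zero, ix_nsmul]
  refine ⟨η₀ + (2 * K.toReal + M) * (1 + σ) + (η₀ + M * (1 + σ)) * (N + 1), fun j hj => ?_⟩
  -- the block of `j`
  set n : ℕ := j.natAbs / (1 + σ).toNat with hn
  have hper : ((1 + σ).toNat : ℤ) = 1 + σ := Int.toNat_of_nonneg (by omega)
  have hpos : 0 < (1 + σ).toNat := by omega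
  have hn1 : n * (1 + σ).toNat ≤ j.natAbs := Nat.div_mul_le_self _ _
  have hn2 : j.natAbs < (n + 1) * (1 + σ).toNat := by
    have := Nat.lt_succ_iff.2 (le_refl (j.natAbs / (1 + σ).toNat))
    rw [Nat.div_lt_iff_lt_mul hpos] at this
    simpa [hn] using this
  have hn1' : (n : ℤ) * (1 + σ) ≤ |j| := by
    rw [← hper, Int.abs_eq_natAbs]; exact_mod_cast hn1
  have hn2' : |j| < ((n : ℤ) + 1) * (1 + σ) := by
    rw [← hper, Int.abs_eq_natAbs]; exact_mod_cast hn2
  have habs : |j| = ε * j := by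
    rcases hε with rfl | rfl
    · rw [one_mul] at hj ⊢; exact abs_of_nonneg hj
    · rw [abs_of_nonpos (by linarith)]; ring
  have hdist : |((n : ℤ) * ix σ s - j)| ≤ 1 + σ := by
    rw [hix]
    rcases hε with rfl | rfl
    · rw [habs] at hn1' hn2'
      rw [abs_le]; constructor <;> nlinarith
    · rw [habs] at hn1' hn2'
      rw [abs_le]; constructor <;> nlinarith
  have hdistR : |(((n : ℤ) * ix σ s - j : ℤ) : ℝ)| ≤ 1 + σ := by
    have : ((|((n : ℤ) * ix σ s - j)| : ℤ) : ℝ) ≤ ((1 + σ : ℤ) : ℝ) := by exact_mod_cast hdist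
    push_cast at this ⊢
    exact this
  have hjR : |(j : ℝ)| ≤ ((n : ℝ) + 1) * (1 + σ) := by
    have : ((|j| : ℤ) : ℝ) ≤ ((((n : ℤ) + 1) * (1 + σ) : ℤ) : ℝ) := by exact_mod_cast hn2'.le
    push_cast at this
    exact this
  have hηj : η₀ / (1 + σ) * |(j : ℝ)| ≤ η₀ * (n + 1) := by
    calc η₀ / (1 + σ) * |(j : ℝ)| ≤ η₀ / (1 + σ) * (((n : ℝ) + 1) * (1 + σ)) :=
          mul_le_mul_of_nonneg_left hjR (by positivity)
      _ = η₀ * (n + 1) := by field_simp
  by_cases hnN : N ≤ n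
  · have h2 := hN n hnN
    rw [bs_pot hσ g hs, htf] at h2
    have h3 : (T (wt ω) univ (pk σ (wt ω) K 0 0) (pk σ (wt ω) K 0 (n * ix σ s))).toReal ≤
        (T (wt ω) univ (pk σ (wt ω) K 0 0) (pk σ (wt ω) K 0 j)).toReal + 2 * K.toReal * (1 + σ) := by
      have h4 := T_triangle (wt ω) univ (pk σ (wt ω) K 0 0) (pk σ (wt ω) K 0 j)
        (pk σ (wt ω) K 0 (n * ix σ s))
      have h5 := ENNReal.toReal_mono (ENNReal.add_ne_top.2
        ⟨T_line_univ_ne_top hσ hgood hK.1 0 0 j, T_line_univ_ne_top hσ hgood hK.1 0 j _⟩) h4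
      rw [ENNReal.toReal_add (T_line_univ_ne_top hσ hgood hK.1 0 0 j)
        (T_line_univ_ne_top hσ hgood hK.1 0 j _)] at h5
      have h6 := T_line_univ_toReal_le hσ hgood hK.1 0 j (n * ix σ s)
      have h7 : 2 * K.toReal * |(((n : ℤ) * ix σ s - j : ℤ) : ℝ)| ≤ 2 * K.toReal * (1 + σ) :=
        mul_le_mul_of_nonneg_left hdistR (by positivity)
      linarith
    have h4 := abs_pot_sub_le hβM j (n * ix σ s)
    have h5 : M * |(((n : ℤ) * ix σ s - j : ℤ) : ℝ)| ≤ M * (1 + σ) :=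
      mul_le_mul_of_nonneg_left hdistR hM
    have h6 := abs_le.1 (h4.trans h5)
    have h7 : 0 ≤ (η₀ + M * (1 + σ)) * ((N : ℝ) + 1) := by positivity
    have h8 : η₀ * (n : ℝ) ≤ (T (wt ω) univ (pk σ (wt ω) K 0 0) (pk σ (wt ω) K 0 (n * ix σ s))).toReal +
        pot β (n * ix σ s) := by
      have : (fun i => mv σ g 0 i (wt ω)) = β := rfl
      rw [this] at h2
      linarith
    have h9 := h6.1
    have h10 := h6.2
    nlinarith
  · push Not at hnN
    have hnN' : (n : ℝ) + 1 ≤ N + 1 := by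
      have : (n : ℝ) ≤ N := by exact_mod_cast hnN.le
      linarith
    have h4 := abs_pot_sub_le hβM 0 j
    rw [pot_zero, zero_sub, sub_zero, abs_neg] at h4
    have h5 : M * |(j : ℝ)| ≤ M * (((n : ℝ) + 1) * (1 + σ)) := mul_le_mul_of_nonneg_left hjR hM
    have h6 := (abs_le.1 h4).1
    have h7 : 0 ≤ (T (wt ω) univ (pk σ (wt ω) K 0 0) (pk σ (wt ω) K 0 j)).toReal := ENNReal.toReal_nonneg
    have h8 : M * (((n : ℝ) + 1) * (1 + σ)) ≤ M * (1 + σ) * (N + 1) := by
      have := mul_le_mul_of_nonneg_left hnN' (show 0 ≤ M * (1 + (σ : ℝ)) by positivity)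
      linarith
    have h9 : η₀ * ((n : ℝ) + 1) ≤ η₀ * (N + 1) := mul_le_mul_of_nonneg_left hnN' hη₀.le
    have h10 : 0 ≤ (2 * K.toReal + M) * (1 + (σ : ℝ)) := by positivity
    nlinarith

/-- COERCIVITY on all lines. -/
theorem coer_line {g : ℤ → W → ℝ} {M : ℝ} (hg : Adm g M) {ε : ℤ} (hε : ε = 1 ∨ ε = -1)
    (hlt : ε * EV σ F g < rho σ F K (vert σ)) :
    ∃ η > 0, ∀ᵐ ω ∂(iid Ed F), ∀ l, CoD σ K (wt ω) l ε η (pot fun i => mv σ g l i (wt ω)) := by
  obtain ⟨η, hη, h⟩ := coer_base hK hσ hg hε hlt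
  refine ⟨η, hη, ?_⟩
  rw [ae_all_iff]
  intro l
  have h1 := (measurePreserving_shO F (ss σ l 0)).quasiMeasurePreserving.ae h
  filter_upwards [h1, ae_good_wt hK hσ] with ω ⟨C, hC⟩ hgood
  set s := ss σ l 0 with hs
  have hln : ln σ s = l := ln_ss hσ l 0
  set a := ix σ s with ha
  set ψ := pot fun i => mv σ g l i (wt ω) with hψ
  have hbd : ∀ i j, |ψ i - ψ j| ≤ M * |((j - i : ℤ) : ℝ)| :=
    fun i j => abs_pot_sub_le (fun i => hg.mv_le σ l i (wt ω)) i j
  have h2 : ∀ j : ℤ, 0 ≤ ε * (j - a) → η * |((j - a : ℤ) : ℝ)| - C ≤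
      (T (wt ω) univ (pk σ (wt ω) K l a) (pk σ (wt ω) K l j)).toReal + ψ j - ψ a := by
    intro j hj
    have h3 := hC (j - a) hj
    rw [pot_mv_shO hσ, T_shO, image_tr_univ, pk_shO hσ, pk_shO hσ, zero_add, zero_add, hln, ← ha,
      sub_add_cancel, ← hψ] at h3
    linarith
  obtain ⟨C', hC'⟩ := anchor (fun i j => T_line_univ_ne_top hσ hgood hK.1 l i j) hg.nonneg hbd hε hη h2 0
  refine ⟨C', fun j hj => ?_⟩
  have h3 := hC' j (by rwa [sub_zero])
  have h4 : ψ 0 = 0 := pot_zero _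
  rw [h4, sub_zero, sub_zero] at h3
  exact h3

end coer

end C7
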