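import Pool.Agent.Lib.MP_c725eb_pr.ClsLabel
import Pool.Agent.Lib.MP_c725eb_pr.Coer

/-!
# The class b: the two definitions agree, values of the labels
-/

set_option autoImplicit false

namespace C7

open MeasureTheory Filter Set
open scoped ENNReal Topology

/-! ### the two sequences of directions -/

/-- Small positive slopes. -/
def ub (j : ℕ) : V := ((j : ℤ) + 2, 1)

/-- Small negative slopes. -/
def ua (j : ℕ) : V := ((j : ℤ) + 4, -1)

theorem dup_ub (σ : ℤ) (j : ℕ) : Dup σ (ub j) := by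
  have := Int.natCast_nonneg j
  exact ⟨⟨by change 0 < (j : ℤ) + 2; omega, by change 0 < (j : ℤ) + 2 + 1; omega,
    fun _ => by change (1 : ℤ) < (j : ℤ) + 2; omega⟩, fun _ => one_pos⟩

theorem dlo_ua (σ : ℤ) (j : ℕ) : Dlo σ (ua j) := by
  have := Int.natCast_nonneg j
  exact ⟨by change 0 < (j : ℤ) + 4; omega, by change 0 < (j : ℤ) + 4 + -1; omega,
    fun _ => by change (-1 : ℤ) < (j : ℤ) + 4; omega⟩

theorem ub_slope (j : ℕ) : 2 * |(ub j).2| ≤ (ub j).1 := by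
  change 2 * |(1 : ℤ)| ≤ (j : ℤ) + 2
  rw [abs_one]
  omega

theorem ua_slope (j : ℕ) : 2 * |(ua j).2| ≤ (ua j).1 := by
  change 2 * |(-1 : ℤ)| ≤ (j : ℤ) + 4
  rw [abs_neg, abs_one]
  omega

theorem det_ub {j j' : ℕ} (h : j < j') : 0 < det (ub j') (ub j) := by
  unfold det ub
  simp only
  have : (j : ℤ) < j' := by exact_mod_cast h
  linarith

theorem det_ua {j j' : ℕ} (h : j < j') : 0 < det (ua j) (ua j') := by
  unfold det ua
  simp only
  have : (j : ℤ) < j' := by exact_mod_cast h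
  linarith

theorem det_ua_ub (j j' : ℕ) : 0 < det (ua j) (ub j') := by
  unfold det ua ub
  simp only
  have := Int.natCast_nonneg j
  have := Int.natCast_nonneg j'
  linarith

theorem blo_eq (σ : ℤ) (K : ℝ≥0∞) (i : ℤ) (w : W) : blo σ K i w = ⨅ j : ℕ, Glo σ K (ub j) i w := rfl
theorem bup_eq (σ : ℤ) (K : ℝ≥0∞) (i : ℤ) (w : W) : bup σ K i w = ⨅ j : ℕ, Gup σ K (ub j) i w := rfl
theorem alo_eq (σ : ℤ) (K : ℝ≥0∞) (i : ℤ) (w : W) : alo σ K i w = ⨆ j : ℕ, Glo σ K (ua j) i w := rfl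

section nice

variable {σ : ℤ} {K : ℝ≥0∞} {w : W} (hσ : σ = 0 ∨ σ = 1) (hK : K ≠ ⊤) (hN : Nice σ K w)

include hσ hK hN

theorem anti_Glo_ub (i : ℤ) : Antitone fun j : ℕ => Glo σ K (ub j) i w := by
  intro j j' h
  rcases h.eq_or_lt with rfl | h
  · exact le_rfl
  · exact Glo_le_Glo hσ hK hN (dup_ub σ j').toDlo (dup_ub σ j).toDlo (det_ub h)

theorem anti_Gup_ub (i : ℤ) : Antitone fun j : ℕ => Gup σ K (ub j) i w := by
  intro j j' h
  rcases h.eq_or_lt with rfl | h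
  · exact le_rfl
  · exact Gup_le_Gup hσ hK hN (dup_ub σ j') (dup_ub σ j) (det_ub h)

theorem mono_Glo_ua (i : ℤ) : Monotone fun j : ℕ => Glo σ K (ua j) i w := by
  intro j j' h
  rcases h.eq_or_lt with rfl | h
  · exact le_rfl
  · exact Glo_le_Glo hσ hK hN (dlo_ua σ j) (dlo_ua σ j') (det_ua h)

theorem tendsto_Glo_ub (i : ℤ) : Tendsto (fun j : ℕ => Glo σ K (ub j) i w) atTop (𝓝 (blo σ K i w)) :=
  tendsto_atTop_ciInf (anti_Glo_ub hσ hK hN i) (bddBelow_of_abs fun j => abs_Glo_le σ K (ub j) i w)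

theorem tendsto_Gup_ub (i : ℤ) : Tendsto (fun j : ℕ => Gup σ K (ub j) i w) atTop (𝓝 (bup σ K i w)) :=
  tendsto_atTop_ciInf (anti_Gup_ub hσ hK hN i) (bddBelow_of_abs fun j => abs_Gup_le σ K (ub j) i w)

theorem tendsto_Glo_ua (i : ℤ) : Tendsto (fun j : ℕ => Glo σ K (ua j) i w) atTop (𝓝 (alo σ K i w)) :=
  tendsto_atTop_ciSup (mono_Glo_ua hσ hK hN i) (bddAbove_of_abs fun j => abs_Glo_le σ K (ua j) i w)

theorem Gup_ub_le_Glo_ub {j j' : ℕ} (h : j < j') (i : ℤ) : Gup σ K (ub j') i w ≤ Glo σ K (ub j) i w := by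
  refine Gup_le_Glo hσ hK hN (dup_ub σ j') ?_ (dup_ub σ j).toDlo (det_ub h)
  have h1 := ub_slope j'
  have h2 := abs_nonneg (ub j').2
  have h3 := le_abs_self (ub j').2
  omega

theorem bup_le_blo (i : ℤ) : bup σ K i w ≤ blo σ K i w := by
  rw [blo_eq]
  refine le_ciInf fun j => ?_
  rw [bup_eq]
  exact (ciInf_le (bddBelow_of_abs fun j => abs_Gup_le σ K (ub j) i w) (j + 1)).trans
    (Gup_ub_le_Glo_ub hσ hK hN (Nat.lt_succ_self j) i)

omit hσ hK hN in
theorem blo_le_Glo_ub (j : ℕ) (i : ℤ) : blo σ K i w ≤ Glo σ K (ub j) i w := by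
  rw [blo_eq]
  exact ciInf_le (bddBelow_of_abs fun j => abs_Glo_le σ K (ub j) i w) j

omit hσ hK hN in
theorem bup_le_Gup_ub (j : ℕ) (i : ℤ) : bup σ K i w ≤ Gup σ K (ub j) i w := by
  rw [bup_eq]
  exact ciInf_le (bddBelow_of_abs fun j => abs_Gup_le σ K (ub j) i w) j

omit hσ hK hN in
theorem Glo_ua_le_alo (j : ℕ) (i : ℤ) : Glo σ K (ua j) i w ≤ alo σ K i w := by
  rw [alo_eq]
  exact le_ciSup (bddAbove_of_abs fun j => abs_Glo_le σ K (ua j) i w) j

/-- The class of slopes `0-` is below the class of slopes `0+`. -/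
theorem alo_le_blo (i : ℤ) : alo σ K i w ≤ blo σ K i w := by
  rw [alo_eq, blo_eq]
  exact ciSup_le fun j => le_ciInf fun j' =>
    Glo_le_Glo hσ hK hN (dlo_ua σ j) (dup_ub σ j').toDlo (det_ua_ub j j')

end nice

theorem tendsto_integral_bdd {F : Measure ℝ} [IsProbabilityMeasure F] {f : ℕ → Om → ℝ} {g : Om → ℝ} {C : ℝ} (hm : ∀ n, Measurable (f n))
    (hb : ∀ n ω, |f n ω| ≤ C) (h : ∀ᵐ ω ∂(iid Ed F), Tendsto (fun n => f n ω) atTop (𝓝 (g ω))) :
    Tendsto (fun n => ∫ ω, f n ω ∂(iid Ed F)) atTop (𝓝 (∫ ω, g ω ∂(iid Ed F))) :=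
  tendsto_integral_of_dominated_convergence (fun _ => C) (fun n => (hm n).aestronglyMeasurable)
    (integrable_const _) (fun n => Eventually.of_forall fun ω => by
      rw [Real.norm_eq_abs]; exact hb n ω) h

theorem integrable_of_abs {F : Measure ℝ} [IsProbabilityMeasure F] {g : Om → ℝ} {C : ℝ}
    (hm : Measurable g) (hb : ∀ ω, |g ω| ≤ C) : Integrable g (iid Ed F) :=
  Integrable.of_bound hm.aestronglyMeasurable C (Eventually.of_forall hb)

section labels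

variable {F : Measure ℝ} [IsProbabilityMeasure F] {K : ℝ≥0∞}

theorem integrable_blo (σ : ℤ) (K : ℝ≥0∞) (i : ℤ) : Integrable (fun ω => blo σ K i (wt ω)) (iid Ed F) :=
  integrable_of_abs (measurable_blo measurable_wt3 σ K i) fun ω => abs_blo_le σ K i (wt ω)

theorem integrable_bup (σ : ℤ) (K : ℝ≥0∞) (i : ℤ) : Integrable (fun ω => bup σ K i (wt ω)) (iid Ed F) :=
  integrable_of_abs (measurable_bup measurable_wt3 σ K i) fun ω => abs_bup_le σ K i (wt ω)

variable (hK : SmallK F K) {σ : ℤ} (hσ : σ = 0 ∨ σ = 1)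

include hK hσ

theorem tendsto_int_Glo_ub (i : ℤ) :
    Tendsto (fun j : ℕ => ∫ ω, Glo σ K (ub j) i (wt ω) ∂(iid Ed F)) atTop
      (𝓝 (∫ ω, blo σ K i (wt ω) ∂(iid Ed F))) :=
  tendsto_integral_bdd (fun j => measurable_Glo_wt σ K (ub j) i)
    (fun j ω => abs_Glo_le σ K (ub j) i (wt ω))
    ((ae_nice (F := F) hK hσ).mono fun _ h => tendsto_Glo_ub hσ hK.1 h i)

theorem tendsto_int_Gup_ub (i : ℤ) :
    Tendsto (fun j : ℕ => ∫ ω, Gup σ K (ub j) i (wt ω) ∂(iid Ed F)) atTop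
      (𝓝 (∫ ω, bup σ K i (wt ω) ∂(iid Ed F))) :=
  tendsto_integral_bdd (fun j => measurable_Gup_wt σ K (ub j) i)
    (fun j ω => abs_Gup_le σ K (ub j) i (wt ω))
    ((ae_nice (F := F) hK hσ).mono fun _ h => tendsto_Gup_ub hσ hK.1 h i)

theorem tendsto_int_Glo_ua (i : ℤ) :
    Tendsto (fun j : ℕ => ∫ ω, Glo σ K (ua j) i (wt ω) ∂(iid Ed F)) atTop
      (𝓝 (∫ ω, alo σ K i (wt ω) ∂(iid Ed F))) :=
  tendsto_integral_bdd (fun j => measurable_Glo_wt σ K (ua j) i)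
    (fun j ω => abs_Glo_le σ K (ua j) i (wt ω))
    ((ae_nice (F := F) hK hσ).mono fun _ h => tendsto_Glo_ua hσ hK.1 h i)

omit hK in
theorem ub_step (j : ℕ) : (j + 3 + σ.toNat) • ub j = (j + 2 + σ.toNat) • ub (j + 1) + ((1 : ℕ) : ℤ) • vert σ := by
  refine Prod.ext ?_ ?_
  · rw [nsmul_fst, Prod.fst_add, nsmul_fst, zsmul_fst]
    unfold ub vert
    rcases hσ with rfl | rfl
    · simp only [Int.toNat_zero]; push_cast; ring
    · simp only [Int.toNat_one]; push_cast; ring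
  · rw [nsmul_snd, Prod.snd_add, nsmul_snd, zsmul_snd]
    unfold ub vert
    push_cast; ring

/-- The labels of the lower classes are below the labels of the steeper upper classes. -/
theorem label_lo_le_up (j : ℕ) :
    ∑ i ∈ Finset.range (per σ), ∫ ω, Glo σ K (ub (j + 1)) i (wt ω) ∂(iid Ed F) ≤
      ∑ i ∈ Finset.range (per σ), ∫ ω, Gup σ K (ub j) i (wt ω) ∂(iid Ed F) := by
  have h1 := label_lo (F := F) hK hσ (dup_ub σ (j + 1)).toDlo (ub_slope (j + 1))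
    (N := j + 2 + σ.toNat) (by omega) 1
  have h2 := label_up (F := F) hK hσ (dup_ub σ j) (ub_slope j) (N := j + 3 + σ.toNat) (by omega) 1
  rw [← ub_step hσ j] at h1
  have e : (j + 3 + σ.toNat) • ub j - ((1 : ℕ) : ℤ) • vert σ = (j + 2 + σ.toNat) • ub (j + 1) := by
    rw [ub_step hσ j, add_sub_cancel_right]
  rw [e] at h2
  simp only [Nat.cast_one, one_mul] at h1 h2
  linarith

theorem sum_blo_le_bup :
    ∑ i ∈ Finset.range (per σ), ∫ ω, blo σ K i (wt ω) ∂(iid Ed F) ≤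
      ∑ i ∈ Finset.range (per σ), ∫ ω, bup σ K i (wt ω) ∂(iid Ed F) := by
  have h1 : Tendsto (fun j : ℕ => ∑ i ∈ Finset.range (per σ), ∫ ω, Glo σ K (ub (j + 1)) i (wt ω) ∂(iid Ed F))
      atTop (𝓝 (∑ i ∈ Finset.range (per σ), ∫ ω, blo σ K i (wt ω) ∂(iid Ed F))) :=
    tendsto_finsetSum _ fun i _ => (tendsto_int_Glo_ub hK hσ i).comp (tendsto_add_atTop_nat 1)
  have h2 : Tendsto (fun j : ℕ => ∑ i ∈ Finset.range (per σ), ∫ ω, Gup σ K (ub j) i (wt ω) ∂(iid Ed F))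
      atTop (𝓝 (∑ i ∈ Finset.range (per σ), ∫ ω, bup σ K i (wt ω) ∂(iid Ed F))) :=
    tendsto_finsetSum _ fun i _ => tendsto_int_Gup_ub hK hσ i
  exact le_of_tendsto_of_tendsto' h1 h2 fun j => label_lo_le_up hK hσ j

theorem integral_blo_per (i : ℤ) :
    ∫ ω, blo σ K (i + (1 + σ)) (wt ω) ∂(iid Ed F) = ∫ ω, blo σ K i (wt ω) ∂(iid Ed F) :=
  tendsto_nhds_unique (tendsto_int_Glo_ub hK hσ _) ((tendsto_int_Glo_ub hK hσ i).congr fun j =>
    (integral_Glo_per hK hσ (dup_ub σ j).toDlo i).symm)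

theorem integral_bup_per (i : ℤ) :
    ∫ ω, bup σ K (i + (1 + σ)) (wt ω) ∂(iid Ed F) = ∫ ω, bup σ K i (wt ω) ∂(iid Ed F) :=
  tendsto_nhds_unique (tendsto_int_Gup_ub hK hσ _) ((tendsto_int_Gup_ub hK hσ i).congr fun j =>
    (integral_Gup_per hK hσ (dup_ub σ j) i).symm)

/-- THE TWO DEFINITIONS OF THE CLASS b AGREE. -/
theorem ae_blo_eq_bup : ∀ᵐ ω ∂(iid Ed F), ∀ i : ℤ, blo σ K i (wt ω) = bup σ K i (wt ω) := by
  set e : ℤ → ℝ := fun i => ∫ ω, blo σ K i (wt ω) ∂(iid Ed F) - ∫ ω, bup σ K i (wt ω) ∂(iid Ed F) with he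
  have hpos : ∀ i, 0 ≤ e i := by
    intro i
    have : ∫ ω, bup σ K i (wt ω) ∂(iid Ed F) ≤ ∫ ω, blo σ K i (wt ω) ∂(iid Ed F) :=
      integral_mono_ae (integrable_bup σ K i) (integrable_blo σ K i)
        ((ae_nice (F := F) hK hσ).mono fun ω h => bup_le_blo hσ hK.1 h i)
    simp only [he]
    linarith
  have hper : ∀ i, e (i + (1 + σ)) = e i := fun i => by
    simp only [he]
    rw [integral_blo_per hK hσ, integral_bup_per hK hσ]
  have hsum : ∑ i ∈ Finset.range (per σ), e i ≤ 0 := by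
    have := sum_blo_le_bup (F := F) hK hσ
    simp only [he, Finset.sum_sub_distrib]
    linarith
  have h0 : ∀ i : ℕ, i < per σ → e i = 0 := by
    intro i hi
    have h1 : e i ≤ ∑ i ∈ Finset.range (per σ), e i :=
      Finset.single_le_sum (f := fun i : ℕ => e i) (fun j _ => hpos j) (Finset.mem_range.2 hi)
    have := hpos i
    linarith
  have hper' : ∀ (n : ℤ) (i : ℤ), e (i + n * (1 + σ)) = e i := by
    intro n
    induction n using Int.induction_on with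
    | zero => intro i; simp
    | succ n ih =>
      intro i
      rw [show i + ((n : ℤ) + 1) * (1 + σ) = (i + n * (1 + σ)) + (1 + σ) by ring, hper, ih]
    | pred n ih =>
      intro i
      rw [← hper (i + (-(n : ℤ) - 1) * (1 + σ)),
        show i + (-(n : ℤ) - 1) * (1 + σ) + (1 + σ) = i + -(n : ℤ) * (1 + σ) by ring, ih]
  have hall : ∀ i, e i = 0 := by
    intro i
    have h1 : (0 : ℤ) < 1 + σ := by omega
    have h2 := Int.emod_nonneg i h1.ne'
    have h3 := Int.emod_lt_of_pos i h1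
    have h4 := Int.emod_add_mul_ediv i (1 + σ)
    have h5 := hper' (i / (1 + σ)) (i % (1 + σ))
    rw [mul_comm (i / (1 + σ)), h4] at h5
    rw [h5]
    have h6 := h0 (i % (1 + σ)).toNat (by
      have := per_cast hσ
      omega)
    rwa [Int.toNat_of_nonneg h2] at h6
  rw [ae_all_iff]
  intro i
  have h1 : 0 ≤ᵐ[iid Ed F] fun ω => blo σ K i (wt ω) - bup σ K i (wt ω) :=
    (ae_nice (F := F) hK hσ).mono fun ω h => sub_nonneg.2 (bup_le_blo hσ hK.1 h i)
  have h2 : ∫ ω, (blo σ K i (wt ω) - bup σ K i (wt ω)) ∂(iid Ed F) = 0 := by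
    rw [integral_sub (integrable_blo σ K i) (integrable_bup σ K i)]
    exact hall i
  have h3 := (integral_eq_zero_iff_of_nonneg_ae h1
    ((integrable_blo σ K i).sub (integrable_bup σ K i))).1 h2
  filter_upwards [h3] with ω hω
  have : blo σ K i (wt ω) - bup σ K i (wt ω) = 0 := hω
  linarith

end labels

end C7
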