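import Pool.Agent.Lib.MP_c725eb_pr.EscB
import Pool.Agent.Lib.MP_c725eb_pr.ClsB

/-!
# Targets of the cone: convergence to the class `b` and coercivity (diamond case)
-/

set_option autoImplicit false

namespace C7

open MeasureTheory Filter Set
open scoped ENNReal Topology

section det

variable {w : W} {K : ℝ≥0∞}

/-- Convergence of the increments towards the targets of the cone, for one configuration. -/
theorem cone_conv (h : Cb 1 K w) (hfl : Fluct 1 K w)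
    (h1 : ∀ (s : V) (i : ℤ), Tendsto (fun L : ℕ => glo 1 K (1, 2) L i (sh s w)) atTop (𝓝 (blo 1 K i (sh s w))))
    (h2 : ∀ (s : V) (i : ℤ), Tendsto (fun L : ℕ => gup 1 K (2, 1) L i (sh s w)) atTop (𝓝 (blo 1 K i (sh s w))))
    (l i : ℤ) {ε : ℝ} (hε : 0 < ε) : ∃ N : ℤ, ∀ t : V, Cn t → N ≤ t.1 →
      |BI w 1 univ (ck 1 w K l) t i (i + 1) - mv 1 (blo 1 K) l i w| ≤ ε := by
  obtain ⟨L, hL⟩ := ((h1 (ss 1 l i) (rr 1 l i)).eventually (eventually_lt_nhds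
    (show blo 1 K (rr 1 l i) (sh (ss 1 l i) w) < blo 1 K (rr 1 l i) (sh (ss 1 l i) w) + ε by linarith))).exists
  obtain ⟨L', hL'⟩ := ((h2 (ss 1 l i) (rr 1 l i)).eventually (eventually_gt_nhds
    (show blo 1 K (rr 1 l i) (sh (ss 1 l i) w) - ε < blo 1 K (rr 1 l i) (sh (ss 1 l i) w) by linarith))).exists
  obtain ⟨N1, hN1⟩ := domH_glo h hfl L l i
  obtain ⟨N2, hN2⟩ := domL_gup h hfl L' l i
  refine ⟨max N1 N2, fun t ht hN => ?_⟩
  have h3 := hN1 t ht ((le_max_left _ _).trans hN) i le_rfl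
  have h4 := hN2 t ht ((le_max_right _ _).trans hN) i le_rfl
  unfold mv at h3 h4 ⊢
  rw [abs_le]
  constructor <;> linarith

/-- Coercivity for the targets of the cone, for one configuration. -/
theorem cone_co {gH gL : ℤ → W → ℝ} (hH : DomH K gH w) (hL : DomL K gL w)
    {c Cv C : ℝ} {l : ℤ} (hc : 0 ≤ c) (hlin : LinB w c Cv (pk 1 w K l 0))
    (d1 : DrE (fun i => mv 1 gH l i w) 0 1 (c / 2) C)
    (d2 : DrE (fun i => mv 1 gL l i w) 0 (-1) (c / 2) C) :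
    ∃ N : ℤ, ∀ t : V, Cn t → N ≤ t.1 → ∀ j : ℤ,
      c / 2 * |(j : ℝ)| - (C + Cv) ≤ (T w univ (pk 1 w K l 0) (pk 1 w K l j)).toReal +
        (tpot 1 K w t l j - tpot 1 K w t l 0) := by
  obtain ⟨N1, hN1⟩ := hH l 0
  obtain ⟨N2, hN2⟩ := hL l 0
  refine ⟨max N1 N2, fun t ht hN j => ?_⟩
  have h1 : ZB 1 K w l 0 (c / 2) C t := zb_of_drift d1 d2
    (fun j hj => hN1 t ht ((le_max_left _ _).trans hN) j hj)
    (fun j hj => hN2 t ht ((le_max_right _ _).trans hN) j hj)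
  have h2 := h1 j
  rw [← tpot_sub, sub_zero] at h2
  have h3 := (hlin (pk 1 w K l j)).2
  have h4 := abs_ix_sub_le (σ := 1) (Or.inr rfl) (pk 1 w K l j) (pk 1 w K l 0)
  rw [ix_pk, ix_pk, sub_zero] at h4
  have h5 := mul_le_mul_of_nonneg_left h4 hc
  linarith

end det

section prob

variable {F : Measure ℝ} [IsProbabilityMeasure F] {K : ℝ≥0∞}

/-- **Targets of the cone.** -/
theorem ae_cone (hK : SmallK F K) (hF : ∀ a, F {a} = 0) (hF0 : F (Iio 0) = 0)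
    (hlab : ∀ δ > 0, ∃ L L' : ℕ, EV 1 F (glo 1 K (1, 2) L) < δ ∧ -EV 1 F (gup 1 K (2, 1) L') < δ)
    (hcls : ∀ᵐ ω ∂(iid Ed F), ∀ i : ℤ, Glo 1 K (1, 2) i (wt ω) = blo 1 K i (wt ω) ∧
      Gup 1 K (2, 1) i (wt ω) = blo 1 K i (wt ω)) :
    ∀ᵐ ω ∂(iid Ed F),
      (∀ (l i : ℤ) (ε : ℝ), 0 < ε → ∃ N : ℤ, ∀ t : V, Cn t → N ≤ t.1 →
        |(tpot 1 K (wt ω) t l i - tpot 1 K (wt ω) t l (i + 1)) - mv 1 (blo 1 K) l i (wt ω)| ≤ ε) ∧
      (∀ l : ℤ, ∃ η > 0, ∃ C : ℝ, ∃ N : ℤ, ∀ t : V, Cn t → N ≤ t.1 → ∀ j : ℤ,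
        η * |(j : ℝ)| - C ≤ (T (wt ω) univ (pk 1 (wt ω) K l 0) (pk 1 (wt ω) K l j)).toReal +
          (tpot 1 K (wt ω) t l j - tpot 1 K (wt ω) t l 0)) := by
  obtain ⟨c, hc, hlin⟩ := ae_linB hF hF0
  obtain ⟨L, L', e1, e2⟩ := hlab c hc
  have e3 : (1 : ℝ) + ((1 : ℤ) : ℝ) = 2 := by norm_num
  have d1 := ae_drift (F := F) (Or.inr rfl) (adm_glo 1 K (1, 2) L) (s := 1) (Or.inl rfl) (c := c)
    (by simpa using e1)
  have d2 := ae_drift (F := F) (Or.inr rfl) (adm_gup 1 K (2, 1) L') (s := -1) (Or.inr rfl) (c := c)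
    (by simpa using e2)
  rw [e3] at d1 d2
  have n1 := ae_shift_all (F := F) (P := Nice 1 K) (ae_nice hK (Or.inr rfl))
  have n2 := ae_shift_all (F := F) (P := fun w => ∀ i : ℤ, Glo 1 K (1, 2) i w = blo 1 K i w ∧
      Gup 1 K (2, 1) i w = blo 1 K i w) hcls
  have D12 : Dlo 1 ((1, 2) : V) := ⟨by norm_num, by norm_num, by norm_num⟩
  have D21 : Dup 1 ((2, 1) : V) := ⟨⟨by norm_num, by norm_num, by norm_num⟩, by norm_num⟩
  filter_upwards [n1, n2, hlin, d1, d2, ae_good_wt hK (Or.inr rfl), ae_fluct hK (Or.inr rfl)]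
    with ω m1 m2 hl hd1 hd2 hG hfl
  have hcb := Cb_wt (K := K) hK.1 (Or.inr rfl) hG
  constructor
  · intro l i ε hε
    obtain ⟨N, hN⟩ := cone_conv hcb hfl
      (fun s i => by
        rw [← (m2 s i).1]
        exact tendsto_glo_L (Or.inr rfl) hK.1 (m1 s) D12 i)
      (fun s i => by
        rw [← (m2 s i).2]
        exact tendsto_gup_L (Or.inr rfl) hK.1 (m1 s) D21 i) l i hε
    refine ⟨N, fun t ht hNt => ?_⟩
    rw [tpot_sub]
    exact hN t ht hNt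
  · intro l
    obtain ⟨C1, hC1⟩ := hd1 l 0
    obtain ⟨C2, hC2⟩ := hd2 l 0
    obtain ⟨Cv, hCv⟩ := hl (pk 1 (wt ω) K l 0)
    obtain ⟨N, hN⟩ := cone_co (domH_glo hcb hfl L) (domL_gup hcb hfl L') hc.le hCv
      (hC1.mono (le_max_left (C1 : ℝ) C2)) (hC2.mono (le_max_right (C1 : ℝ) C2))
    exact ⟨c / 2, by positivity, max (C1 : ℝ) C2 + Cv, N, hN⟩

end prob

end C7
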