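import Mathlib

/-!
# Rigidity: min-plus pairs, levels, telescoping

`Pair Kr φ φ' v`: the potentials `φ h` of a line are obtained from the potentials `φ' h` of a later
line by the kernel `Kr`; `v h x` is the minimiser.
-/

set_option autoImplicit false

namespace C7

open MeasureTheory Set
open scoped ENNReal

namespace Rig

/-! ### Levels of a monotone function on the integers -/

/-- `x` is the level of `f`. -/
def IsLev (F : ℤ → ℝ) (f : ℝ) (x : ℤ) : Prop := F (x - 1) ≤ f ∧ f < F x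

theorem IsLev.le {F : ℤ → ℝ} (hF : Monotone F) {f : ℝ} {x y : ℤ} (h : IsLev F f x) (hy : f < F y) :
    x ≤ y := by
  by_contra hlt
  push Not at hlt
  have := hF (show y ≤ x - 1 by omega)
  have := h.1
  linarith

theorem IsLev.unique {F : ℤ → ℝ} (hF : Monotone F) {f : ℝ} {x y : ℤ} (h : IsLev F f x)
    (h' : IsLev F f y) : x = y := le_antisymm (h.le hF h'.2) (h'.le hF h.2)

theorem exists_lev {F : ℤ → ℝ} (hF : Monotone F) {f : ℝ} {a b : ℤ} (ha : F a ≤ f) (hb : f < F b) :
    ∃ x, IsLev F f x := by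
  obtain ⟨x, hx, hmin⟩ := Int.exists_least_of_bdd (P := fun x => f < F x)
    ⟨a, fun z hz => by
      by_contra hlt
      push Not at hlt
      have := hF hlt.le
      linarith⟩ ⟨b, hb⟩
  refine ⟨x, ?_, hx⟩
  by_contra hlt
  push Not at hlt
  have := hmin (x - 1) hlt
  omega

/-! ### Pairs of lines -/

/-- Monge property. -/
def Monge (φ : ℤ → ℤ → ℝ) : Prop :=
  ∀ h h' x x', h ≤ h' → x ≤ x' → φ h x + φ h' x' ≤ φ h x' + φ h' x

theorem Monge.monotone {φ : ℤ → ℤ → ℝ} (hm : Monge φ) {h r : ℤ} (hr : h ≤ r) :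
    Monotone fun x => φ h x - φ r x := by
  intro x x' hx
  have := hm h r x x' hr hx
  show φ h x - φ r x ≤ φ h x' - φ r x'
  linarith

/-- Potentials of two lines. -/
structure Pair (Kr : ℤ → ℤ → ℝ≥0∞) (φ φ' : ℤ → ℤ → ℝ) (v : ℤ → ℤ → ℤ) : Prop where
  fin : ∀ h x, Kr x (v h x) ≠ ⊤
  att : ∀ h x, φ h x = (Kr x (v h x)).toReal + φ' h (v h x)
  le : ∀ h x u, Kr x u ≠ ⊤ → φ h x ≤ (Kr x u).toReal + φ' h u
  vmono : ∀ h h' x, h ≤ h' → v h x ≤ v h' x

section pair

variable {Kr : ℤ → ℤ → ℝ≥0∞} {φ φ' : ℤ → ℤ → ℝ} {v : ℤ → ℤ → ℤ}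

theorem Pair.chi_le (hp : Pair Kr φ φ' v) (h r x : ℤ) :
    φ h x - φ r x ≤ φ' h (v r x) - φ' r (v r x) := by
  have h1 := hp.le h x (v r x) (hp.fin r x)
  have h2 := hp.att r x
  linarith

theorem Pair.le_chi (hp : Pair Kr φ φ' v) (h r x : ℤ) :
    φ' h (v h x) - φ' r (v h x) ≤ φ h x - φ r x := by
  have h1 := hp.le r x (v h x) (hp.fin h x)
  have h2 := hp.att h x
  linarith

/-- The range of the increments grows; the level moves to the left of the minimiser. -/
theorem Pair.exists_lev (hp : Pair Kr φ φ' v) (hm : Monge φ') {h x : ℤ} {f : ℝ}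
    (hx : IsLev (fun x => φ h x - φ (h + 1) x) f x) :
    ∃ x', IsLev (fun x => φ' h x - φ' (h + 1) x) f x' ∧ x' ≤ v (h + 1) x := by
  have hmono := hm.monotone (show h ≤ h + 1 by omega)
  have h1 := hp.le_chi h (h + 1) (x - 1)
  have h2 := hp.chi_le h (h + 1) x
  have h3 : f < φ' h (v (h + 1) x) - φ' (h + 1) (v (h + 1) x) := lt_of_lt_of_le hx.2 h2
  obtain ⟨x', hx'⟩ := Rig.exists_lev hmono (f := f) (a := v h (x - 1)) (b := v (h + 1) x)
    (h1.trans hx.1) h3
  exact ⟨x', hx', hx'.le hmono h3⟩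

/-- The level of the next line is to the left of the minimiser. -/
theorem Pair.lev_le (hp : Pair Kr φ φ' v) (hm : Monge φ') {h x x' : ℤ} {f : ℝ}
    (hx : IsLev (fun x => φ h x - φ (h + 1) x) f x)
    (hx' : IsLev (fun x => φ' h x - φ' (h + 1) x) f x') : x' ≤ v (h + 1) x :=
  hx'.le (hm.monotone (show h ≤ h + 1 by omega)) (lt_of_lt_of_le hx.2 (hp.chi_le h (h + 1) x))

theorem Pair.defect_nonneg (hp : Pair Kr φ φ' v) (h r x : ℤ) :
    0 ≤ (Kr x (v h x)).toReal + φ' r (v h x) - φ r x := by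
  have := hp.le r x (v h x) (hp.fin h x)
  linarith

/-- The defect is at most the decrease of the reference along the levels. -/
theorem Pair.defect_le (hp : Pair Kr φ φ' v) (hm : Monge φ') {h r x x' : ℤ} {f : ℝ} (hr : h + 1 ≤ r)
    (hx : IsLev (fun x => φ h x - φ (h + 1) x) f x)
    (hx' : IsLev (fun x => φ' h x - φ' (h + 1) x) f x') :
    (Kr x (v (h + 1) x)).toReal + φ' r (v (h + 1) x) - φ r x ≤
      (φ (h + 1) x - φ r x) - (φ' (h + 1) x' - φ' r x') := by
  have h1 : φ' (h + 1) x' - φ' r x' ≤ φ' (h + 1) (v (h + 1) x) - φ' r (v (h + 1) x) :=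
    hm.monotone hr (hp.lev_le hm hx hx')
  have h2 := hp.att (h + 1) x
  linarith

theorem Pair.dec_nonneg (hp : Pair Kr φ φ' v) (hm : Monge φ') {h r x x' : ℤ} {f : ℝ} (hr : h + 1 ≤ r)
    (hx : IsLev (fun x => φ h x - φ (h + 1) x) f x)
    (hx' : IsLev (fun x => φ' h x - φ' (h + 1) x) f x') :
    0 ≤ (φ (h + 1) x - φ r x) - (φ' (h + 1) x' - φ' r x') :=
  (hp.defect_nonneg (h + 1) r x).trans (hp.defect_le hm hr hx hx')

/-- Monotonicity in the reference. -/
theorem Pair.dec_mono (hp : Pair Kr φ φ' v) (hm : Monge φ') {h r r' x x' : ℤ} {f : ℝ}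
    (hr : h + 1 ≤ r) (hr' : r ≤ r')
    (hx : IsLev (fun x => φ h x - φ (h + 1) x) f x)
    (hx' : IsLev (fun x => φ' h x - φ' (h + 1) x) f x') :
    (φ (h + 1) x - φ r x) - (φ' (h + 1) x' - φ' r x') ≤
      (φ (h + 1) x - φ r' x) - (φ' (h + 1) x' - φ' r' x') := by
  have h1 := hp.le_chi r r' x
  have h2 : x' ≤ v r x := (hp.lev_le hm hx hx').trans (hp.vmono _ _ x hr)
  have h3 : φ' r x' - φ' r' x' ≤ φ' r (v r x) - φ' r' (v r x) := hm.monotone hr' h2
  linarith

end pair

/-! ### The measure of the levels -/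

/-- Mass of the gap ending at `x`. -/
noncomputable def Gm (F F' ψ ψ' : ℤ → ℝ) (x : ℤ) : ℝ≥0∞ :=
  ∑' x' : ℤ, ENNReal.ofReal (min (F x) (F' x') - max (F (x - 1)) (F' (x' - 1))) *
    ENNReal.ofReal (ψ x - ψ' x')

/-- Density of the mass at the level `f`. -/
noncomputable def Um (F F' ψ ψ' : ℤ → ℝ) (x : ℤ) (f : ℝ) : ℝ≥0∞ :=
  ∑' x' : ℤ, (Ico (max (F (x - 1)) (F' (x' - 1))) (min (F x) (F' x'))).indicator
    (fun _ => ENNReal.ofReal (ψ x - ψ' x')) f

theorem measurable_Um (F F' ψ ψ' : ℤ → ℝ) (x : ℤ) : Measurable (Um F F' ψ ψ' x) :=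
  Measurable.tsum fun _ => measurable_const.indicator measurableSet_Ico

theorem Gm_eq (F F' ψ ψ' : ℤ → ℝ) (x : ℤ) : Gm F F' ψ ψ' x = ∫⁻ f, Um F F' ψ ψ' x f := by
  unfold Gm Um
  rw [lintegral_tsum fun _ => (measurable_const.indicator measurableSet_Ico).aemeasurable]
  refine tsum_congr fun x' => ?_
  rw [lintegral_indicator measurableSet_Ico, lintegral_const, Measure.restrict_apply_univ,
    Real.volume_Ico, mul_comm]

theorem Um_of_lev {F F' ψ ψ' : ℤ → ℝ} (hF' : Monotone F') {x x' : ℤ} {f : ℝ} (hx : IsLev F f x)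
    (hx' : IsLev F' f x') : Um F F' ψ ψ' x f = ENNReal.ofReal (ψ x - ψ' x') := by
  unfold Um
  rw [tsum_eq_single x']
  · rw [indicator_of_mem]
    exact ⟨max_le hx.1 hx'.1, lt_min hx.2 hx'.2⟩
  · intro y hy
    rw [indicator_of_notMem]
    rintro ⟨h1, h2⟩
    exact hy (IsLev.unique hF' ⟨(le_max_right _ _).trans h1, h2.trans_le (min_le_right _ _)⟩ hx')

theorem Um_of_not {F F' ψ ψ' : ℤ → ℝ} {x : ℤ} {f : ℝ} (hx : ¬ IsLev F f x) :
    Um F F' ψ ψ' x f = 0 := by
  unfold Um
  rw [ENNReal.tsum_eq_zero]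
  intro y
  rw [indicator_of_notMem]
  rintro ⟨h1, h2⟩
  exact hx ⟨(le_max_left _ _).trans h1, h2.trans_le (min_le_left _ _)⟩

/-- Total density. -/
theorem tsum_Um {F F' ψ ψ' : ℤ → ℝ} (hF : Monotone F) (hF' : Monotone F') {x x' : ℤ} {f : ℝ}
    (hx : IsLev F f x) (hx' : IsLev F' f x') :
    ∑' y, Um F F' ψ ψ' y f = ENNReal.ofReal (ψ x - ψ' x') := by
  rw [tsum_eq_single x, Um_of_lev hF' hx hx']
  intro y hy
  exact Um_of_not fun h => hy (h.unique hF hx)

theorem tsum_Um_zero {F F' ψ ψ' : ℤ → ℝ} {f : ℝ} (h : ∀ x, ¬ IsLev F f x) :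
    ∑' y, Um F F' ψ ψ' y f = 0 := by
  rw [ENNReal.tsum_eq_zero]
  exact fun y => Um_of_not (h y)

/-- **Telescoping.**  `F k` are monotone, bounded by `C`, `ψ k` are bounded by `B`; every level of
the line `k` is a level of the line `k + 1`; `ψ` decreases along levels. -/
theorem telescope {F ψ : ℕ → ℤ → ℝ} {C B : ℝ} (n L : ℕ) (hF : ∀ k ≤ n + L, Monotone (F k))
    (hC : ∀ k ≤ n + L, ∀ x, |F k x| ≤ C) (hB : ∀ k ≤ n + L, ∀ x, |ψ k x| ≤ B)
    (hlev : ∀ k < n + L, ∀ f x, IsLev (F k) f x → ∃ x', IsLev (F (k + 1)) f x')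
    (hdec : ∀ k < n, ∀ f x x', IsLev (F k) f x → IsLev (F (k + L)) f x' → ψ (k + L) x' ≤ ψ k x) :
    ∑ k ∈ Finset.range n, ∑' x, Gm (F k) (F (k + L)) (ψ k) (ψ (k + L)) x ≤
      ENNReal.ofReal (2 * L * B) * ENNReal.ofReal (2 * C) := by
  have hB0 : 0 ≤ B := (abs_nonneg _).trans (hB 0 (by omega) 0)
  have h1 : ∀ k, ∑' x, Gm (F k) (F (k + L)) (ψ k) (ψ (k + L)) x =
      ∫⁻ f, ∑' x, Um (F k) (F (k + L)) (ψ k) (ψ (k + L)) x f := by
    intro k
    rw [lintegral_tsum fun x => (measurable_Um _ _ _ _ x).aemeasurable]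
    exact tsum_congr fun x => Gm_eq _ _ _ _ x
  rw [Finset.sum_congr rfl fun k _ => h1 k, ← lintegral_finsetSum _ fun k _ =>
    Measurable.tsum fun x => measurable_Um _ _ _ _ x]
  -- pointwise
  have key : ∀ f, ∑ k ∈ Finset.range n, ∑' x, Um (F k) (F (k + L)) (ψ k) (ψ (k + L)) x f ≤
      (Icc (-C) C).indicator (fun _ => ENNReal.ofReal (2 * L * B)) f := by
    intro f
    by_cases hf : f ∈ Icc (-C) C
    swap
    · rw [indicator_of_notMem hf, nonpos_iff_eq_zero, Finset.sum_eq_zero_iff]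
      intro k hk
      rw [Finset.mem_range] at hk
      refine tsum_Um_zero fun x hx => hf ?_
      have h2 := abs_le.mp (hC k (by omega) (x - 1))
      have h3 := abs_le.mp (hC k (by omega) x)
      exact ⟨h2.1.trans hx.1, hx.2.le.trans h3.2⟩
    rw [indicator_of_mem hf]
    classical
    -- the value along the level
    set R : ℕ → Prop := fun k => ∃ x, IsLev (F k) f x with hR
    have hRmono : ∀ k < n + L, R k → R (k + 1) := fun k hk ⟨x, hx⟩ => hlev k hk f x hx
    have hRmono' : ∀ j, ∀ k, k + j ≤ n + L → R k → R (k + j) := by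
      intro j
      induction j with
      | zero => intro k _ h; exact h
      | succ j ih =>
        intro k hk h
        have h2 := hRmono (k + j) (by omega) (ih k (by omega) h)
        rwa [← add_assoc]
    set s : ℕ → ℝ := fun k => if h : R k then ψ k h.choose else 0 with hs
    have hsB : ∀ k ≤ n + L, |s k| ≤ B := by
      intro k hk
      simp only [hs]
      split_ifs with h
      · exact hB k hk _
      · rw [abs_zero]; exact hB0
    set b : ℕ → ℝ := fun k => ∑ j ∈ Finset.range L, s (k + j) with hb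
    have hbB : ∀ k ≤ n, |b k| ≤ L * B := by
      intro k hk
      refine (Finset.abs_sum_le_sum_abs _ _).trans ?_
      refine (Finset.sum_le_sum fun j hj => hsB (k + j) (by
        rw [Finset.mem_range] at hj; omega)).trans ?_
      rw [Finset.sum_const, Finset.card_range, nsmul_eq_mul]
    have hbdiff : ∀ k, b k - b (k + 1) = s k - s (k + L) := by
      intro k
      have e1 : b (k + 1) = ∑ j ∈ Finset.range L, s (k + (j + 1)) :=
        Finset.sum_congr rfl fun j _ => by rw [add_assoc, add_comm 1 j]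
      have e2 := Finset.sum_range_succ (fun j => s (k + j)) L
      have e3 := Finset.sum_range_succ' (fun j => s (k + j)) L
      rw [e1]
      simp only [hb, add_zero] at e2 e3 ⊢
      linarith
    set t : ℕ → ℝ := fun k => if R k then b k else L * B with ht
    have htB : ∀ k ≤ n, |t k| ≤ L * B := by
      intro k hk
      simp only [ht]
      split_ifs
      · exact hbB k hk
      · rw [abs_of_nonneg (by positivity)]
    have hstep : ∀ k ∈ Finset.range n, ∑' x, Um (F k) (F (k + L)) (ψ k) (ψ (k + L)) x f ≤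
        ENNReal.ofReal (t k - t (k + 1)) := by
      intro k hk
      rw [Finset.mem_range] at hk
      by_cases hRk : R k
      · have hRL := hRmono' L k (by omega) hRk
        have hR1 := hRmono k (by omega) hRk
        rw [tsum_Um (hF k (by omega)) (hF _ (by omega)) hRk.choose_spec hRL.choose_spec]
        refine ENNReal.ofReal_le_ofReal (le_of_eq ?_)
        simp only [ht, if_pos hRk, if_pos hR1]
        rw [hbdiff k]
        simp only [hs, dif_pos hRk, dif_pos hRL]
      · rw [tsum_Um_zero fun x hx => hRk ⟨x, hx⟩]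
        exact bot_le
    have hnn : ∀ k < n, 0 ≤ t k - t (k + 1) := by
      intro k hk
      by_cases hRk : R k
      · have hRL := hRmono' L k (by omega) hRk
        have hR1 := hRmono k (by omega) hRk
        simp only [ht, if_pos hRk, if_pos hR1]
        rw [hbdiff k]
        simp only [hs, dif_pos hRk, dif_pos hRL]
        have := hdec k hk f _ _ hRk.choose_spec hRL.choose_spec
        linarith
      · simp only [ht, if_neg hRk]
        have := (abs_le.mp (htB (k + 1) (by omega))).2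
        simp only [ht] at this
        linarith
    calc ∑ k ∈ Finset.range n, ∑' x, Um (F k) (F (k + L)) (ψ k) (ψ (k + L)) x f
        ≤ ∑ k ∈ Finset.range n, ENNReal.ofReal (t k - t (k + 1)) := Finset.sum_le_sum hstep
      _ = ENNReal.ofReal (∑ k ∈ Finset.range n, (t k - t (k + 1))) :=
          (ENNReal.ofReal_sum_of_nonneg fun k hk => hnn k (Finset.mem_range.mp hk)).symm
      _ ≤ ENNReal.ofReal (2 * L * B) := by
          refine ENNReal.ofReal_le_ofReal ?_
          rw [Finset.sum_range_sub' t n]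
          have h2 := abs_le.mp (htB 0 (by omega))
          have h3 := abs_le.mp (htB n le_rfl)
          linarith
  refine (lintegral_mono key).trans ?_
  rw [lintegral_indicator measurableSet_Icc, lintegral_const, Measure.restrict_apply_univ,
    Real.volume_Icc]
  refine le_of_eq ?_
  congr 2
  ring

/-- Comparison of the masses of a gap for two references. -/
theorem Gm_mono {F F' ψ ψ' χ χ' : ℤ → ℝ} {x : ℤ}
    (h : ∀ f x', IsLev F f x → IsLev F' f x' → ψ x - ψ' x' ≤ χ x - χ' x') :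
    Gm F F' ψ ψ' x ≤ Gm F F' χ χ' x := by
  refine ENNReal.tsum_le_tsum fun x' => ?_
  by_cases hle : min (F x) (F' x') - max (F (x - 1)) (F' (x' - 1)) ≤ 0
  · rw [ENNReal.ofReal_of_nonpos hle, zero_mul, zero_mul]
  · push Not at hle
    have h1 : max (F (x - 1)) (F' (x' - 1)) < min (F x) (F' x') := by linarith
    have h2 := h (max (F (x - 1)) (F' (x' - 1))) x'
      ⟨le_max_left _ _, h1.trans_le (min_le_left _ _)⟩
      ⟨le_max_right _ _, h1.trans_le (min_le_right _ _)⟩
    gcongr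

/-- A lower bound for the mass of a gap. -/
theorem le_Gm {F F' ψ ψ' : ℤ → ℝ} (hF' : Monotone F') {x : ℤ} {η : ℝ}
    (hlev : ∀ f, IsLev F f x → ∃ x', IsLev F' f x')
    (h : ∀ f x', IsLev F f x → IsLev F' f x' → η ≤ ψ x - ψ' x') :
    ENNReal.ofReal η * ENNReal.ofReal (F x - F (x - 1)) ≤ Gm F F' ψ ψ' x := by
  rw [Gm_eq]
  have h1 : ENNReal.ofReal η * ENNReal.ofReal (F x - F (x - 1)) =
      ∫⁻ f, (Ico (F (x - 1)) (F x)).indicator (fun _ => ENNReal.ofReal η) f := by
    rw [lintegral_indicator measurableSet_Ico, lintegral_const, Measure.restrict_apply_univ,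
      Real.volume_Ico]
  rw [h1]
  refine lintegral_mono fun f => ?_
  by_cases hf : f ∈ Ico (F (x - 1)) (F x)
  · rw [indicator_of_mem hf]
    obtain ⟨x', hx'⟩ := hlev f hf
    rw [Um_of_lev hF' hf hx']
    exact ENNReal.ofReal_le_ofReal (h f x' hf hx')
  · rw [indicator_of_notMem hf]
    exact bot_le

end Rig

end C7
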