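import Mathlib
import Pool.Agent.Lib.MP_c725eb_pr.A4
import Pool.Agent.Lib.MP_c725eb_pr.Rigid

/-!
# Rigidity in expectation

Strips: `ph ω n h k x` is the potential of the line `k` in the strip with right line `n`, for the
target with index `h`.  Telescoping along the lines and mass transport along a line give a strip in
which the total mass of the gaps at a given index is small.
-/

set_option autoImplicit false

namespace C7

open MeasureTheory Filter Set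
open scoped ENNReal NNReal Topology
open FlowSys (av ln_av ix_av shift_toNat_ne sum_period)

/-- Strips. -/
structure StripSys (σ : ℤ) (F : Measure ℝ) where
  /-- bound of the increments in the target -/
  C : ℝ
  /-- potentials -/
  ph : Om → ℤ → ℤ → ℤ → ℤ → ℝ
  /-- kernels -/
  kn : Om → ℤ → ℤ → ℤ → ℤ → ℤ → ℝ≥0∞
  /-- minimisers -/
  v : Om → ℤ → ℤ → ℤ → ℤ → ℤ → ℤ
  meas : ∀ n h k x, k < n → AEMeasurable (fun ω => ph ω n h k x) (iid Ed F)
  shift : ∀ s : V, ∀ᵐ ω ∂(iid Ed F), ∀ n h k x, k < n →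
    ph (shO s ω) (n - ln σ s) h (k - ln σ s) x = ph ω n (h + ix σ s) k (x + ix σ s)
  monge : ∀ᵐ ω ∂(iid Ed F), ∀ n k, k < n → Rig.Monge fun h x => ph ω n h k x
  bdd : ∀ᵐ ω ∂(iid Ed F), ∀ n h k x, k < n → |ph ω n h k x - ph ω n (h + 1) k x| ≤ C
  pair : ∀ᵐ ω ∂(iid Ed F), ∀ n k l, k ≤ l → l < n →
    Rig.Pair (kn ω n k l) (fun h x => ph ω n h k x) (fun h x => ph ω n h l x)
      (fun h x => v ω n k l h x)
  xmono : ∀ᵐ ω ∂(iid Ed F), ∀ n k l h, k ≤ l → l < n → Monotone (v ω n k l h)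

namespace StripSys

variable {σ : ℤ} {F : Measure ℝ}

/-- Increments in the target. -/
def Fh (Z : StripSys σ F) (ω : Om) (n h k x : ℤ) : ℝ := Z.ph ω n h k x - Z.ph ω n (h + 1) k x

/-- Relative reference. -/
def ps (Z : StripSys σ F) (ω : Om) (n h r k x : ℤ) : ℝ := Z.ph ω n (h + 1) k x - Z.ph ω n r k x

/-- Mass of the gaps, relative reference. -/
noncomputable def Gk (Z : StripSys σ F) (ω : Om) (n Λ k L h x : ℤ) : ℝ≥0∞ :=
  Rig.Gm (Z.Fh ω n h k) (Z.Fh ω n h (k + L)) (Z.ps ω n h (h + 1 + Λ) k)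
    (Z.ps ω n h (h + 1 + Λ) (k + L)) x

theorem Gk_shift (Z : StripSys σ F) (s : V) : ∀ᵐ ω ∂(iid Ed F), ∀ n Λ k L h x, k < n → k + L < n →
    Z.Gk (shO s ω) (n - ln σ s) Λ (k - ln σ s) L h x =
      Z.Gk ω n Λ k L (h + ix σ s) (x + ix σ s) := by
  filter_upwards [Z.shift s] with ω hs n Λ k L h x hk hkL
  have e1 : ∀ h x, Z.Fh (shO s ω) (n - ln σ s) h (k - ln σ s) x =
      Z.Fh ω n (h + ix σ s) k (x + ix σ s) := by
    intro h x
    unfold Fh
    rw [hs n h k x hk, hs n (h + 1) k x hk, show h + 1 + ix σ s = h + ix σ s + 1 by ring]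
  have e1' : ∀ h x, Z.Fh (shO s ω) (n - ln σ s) h (k - ln σ s + L) x =
      Z.Fh ω n (h + ix σ s) (k + L) (x + ix σ s) := by
    intro h x
    have e : k - ln σ s + L = k + L - ln σ s := by ring
    unfold Fh
    rw [e, hs n h (k + L) x hkL, hs n (h + 1) (k + L) x hkL,
      show h + 1 + ix σ s = h + ix σ s + 1 by ring]
  have e2 : ∀ h x, Z.ps (shO s ω) (n - ln σ s) h (h + 1 + Λ) (k - ln σ s) x =
      Z.ps ω n (h + ix σ s) (h + ix σ s + 1 + Λ) k (x + ix σ s) := by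
    intro h x
    unfold ps
    rw [hs n (h + 1) k x hk, hs n (h + 1 + Λ) k x hk,
      show h + 1 + ix σ s = h + ix σ s + 1 by ring,
      show h + 1 + Λ + ix σ s = h + ix σ s + 1 + Λ by ring]
  have e2' : ∀ h x, Z.ps (shO s ω) (n - ln σ s) h (h + 1 + Λ) (k - ln σ s + L) x =
      Z.ps ω n (h + ix σ s) (h + ix σ s + 1 + Λ) (k + L) (x + ix σ s) := by
    intro h x
    have e : k - ln σ s + L = k + L - ln σ s := by ring
    unfold ps
    rw [e, hs n (h + 1) (k + L) x hkL, hs n (h + 1 + Λ) (k + L) x hkL,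
      show h + 1 + ix σ s = h + ix σ s + 1 by ring,
      show h + 1 + Λ + ix σ s = h + ix σ s + 1 + Λ by ring]
  unfold Gk Rig.Gm
  simp only [e1, e1', e2, e2']
  rw [← (Equiv.addRight (ix σ s)).tsum_eq (fun x' : ℤ =>
    ENNReal.ofReal (min (Z.Fh ω n (h + ix σ s) k (x + ix σ s)) (Z.Fh ω n (h + ix σ s) (k + L) x') -
      max (Z.Fh ω n (h + ix σ s) k (x + ix σ s - 1)) (Z.Fh ω n (h + ix σ s) (k + L) (x' - 1))) *
    ENNReal.ofReal (Z.ps ω n (h + ix σ s) (h + ix σ s + 1 + Λ) k (x + ix σ s) -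
      Z.ps ω n (h + ix σ s) (h + ix σ s + 1 + Λ) (k + L) x'))]
  refine tsum_congr fun x' => ?_
  have e3 : x - 1 + ix σ s = x + ix σ s - 1 := by ring
  have e4 : x' - 1 + ix σ s = x' + ix σ s - 1 := by ring
  simp only [Equiv.coe_addRight, e3, e4]

theorem aemeasurable_Fh (Z : StripSys σ F) (n h k x : ℤ) (hk : k < n) :
    AEMeasurable (fun ω => Z.Fh ω n h k x) (iid Ed F) :=
  (Z.meas n h k x hk).sub (Z.meas n (h + 1) k x hk)

theorem aemeasurable_ps (Z : StripSys σ F) (n h r k x : ℤ) (hk : k < n) :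
    AEMeasurable (fun ω => Z.ps ω n h r k x) (iid Ed F) :=
  (Z.meas n (h + 1) k x hk).sub (Z.meas n r k x hk)

theorem aemeasurable_Gk (Z : StripSys σ F) (n Λ k L h x : ℤ) (hk : k < n) (hkL : k + L < n) :
    AEMeasurable (fun ω => Z.Gk ω n Λ k L h x) (iid Ed F) := by
  have h1 : ∀ x' : ℤ, AEMeasurable (fun ω => ENNReal.ofReal
      (min (Z.Fh ω n h k x) (Z.Fh ω n h (k + L) x') -
        max (Z.Fh ω n h k (x - 1)) (Z.Fh ω n h (k + L) (x' - 1)))) (iid Ed F) := fun x' =>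
    ENNReal.measurable_ofReal.comp_aemeasurable
      (((Z.aemeasurable_Fh n h k x hk).min (Z.aemeasurable_Fh n h (k + L) x' hkL)).sub
      ((Z.aemeasurable_Fh n h k (x - 1) hk).max (Z.aemeasurable_Fh n h (k + L) (x' - 1) hkL)))
  have h2 : ∀ x' : ℤ, AEMeasurable (fun ω => ENNReal.ofReal
      (Z.ps ω n h (h + 1 + Λ) k x - Z.ps ω n h (h + 1 + Λ) (k + L) x')) (iid Ed F) := fun x' =>
    ENNReal.measurable_ofReal.comp_aemeasurable
      ((Z.aemeasurable_ps n h _ k x hk).sub (Z.aemeasurable_ps n h _ (k + L) x' hkL))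
  exact AEMeasurable.tsum fun x' => (h1 x').mul (h2 x')

variable [IsProbabilityMeasure F]

/-- Expected mass of a gap. -/
noncomputable def EG (Z : StripSys σ F) (n Λ k L h x : ℤ) : ℝ≥0∞ :=
  ∫⁻ ω, Z.Gk ω n Λ k L h x ∂(iid Ed F)

theorem EG_shift (Z : StripSys σ F) (s : V) (n Λ k L h x : ℤ) (hk : k < n) (hkL : k + L < n) :
    Z.EG n Λ k L (h + ix σ s) (x + ix σ s) = Z.EG (n - ln σ s) Λ (k - ln σ s) L h x := by
  unfold EG
  have h1 : ∫⁻ ω, Z.Gk ω n Λ k L (h + ix σ s) (x + ix σ s) ∂(iid Ed F) =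
      ∫⁻ ω, Z.Gk (shO s ω) (n - ln σ s) Λ (k - ln σ s) L h x ∂(iid Ed F) := by
    refine lintegral_congr_ae ?_
    filter_upwards [Z.Gk_shift s] with ω hω
    exact (hω n Λ k L h x hk hkL).symm
  rw [h1]
  have h2 := measurePreserving_shO F s
  have h3 : AEMeasurable (fun ω => Z.Gk ω (n - ln σ s) Λ (k - ln σ s) L h x) (iid Ed F) :=
    Z.aemeasurable_Gk _ _ _ _ _ _ (by omega) (by omega)
  have h4 := lintegral_map' (μ := iid Ed F) (g := shO s)
    (f := fun ω => Z.Gk ω (n - ln σ s) Λ (k - ln σ s) L h x)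
    (by rw [h2.map_eq]; exact h3) h2.measurable.aemeasurable
  rw [h2.map_eq] at h4
  exact h4.symm

/-- Expected total mass for the target `h`. -/
noncomputable def gt (Z : StripSys σ F) (n Λ k L h : ℤ) : ℝ≥0∞ := ∑' x : ℤ, Z.EG n Λ k L h x

theorem gt_shift (Z : StripSys σ F) (s : V) (n Λ k L h : ℤ) (hk : k < n) (hkL : k + L < n) :
    Z.gt n Λ k L (h + ix σ s) = Z.gt (n - ln σ s) Λ (k - ln σ s) L h := by
  unfold gt
  rw [← (Equiv.addRight (ix σ s)).tsum_eq (fun x : ℤ => Z.EG n Λ k L (h + ix σ s) x)]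
  exact tsum_congr fun x => Z.EG_shift s n Λ k L h x hk hkL

theorem gt_period (hσ : σ = 0 ∨ σ = 1) (Z : StripSys σ F) (n Λ k L h : ℤ) (hk : k < n)
    (hkL : k + L < n) : Z.gt n Λ k L (h + (1 + σ)) = Z.gt n Λ k L h := by
  have h1 := Z.gt_shift (av σ) n Λ k L h hk hkL
  have h3 : (((1 + σ).toNat : ℕ) : ℤ) = 1 + σ := by rcases hσ with rfl | rfl <;> rfl
  rwa [ln_av, sub_zero, sub_zero, ix_av hσ, h3] at h1

/-- Expected total mass. -/
noncomputable def gs (Z : StripSys σ F) (n Λ L : ℤ) : ℝ≥0∞ :=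
  ∑ h : Fin (1 + σ).toNat, Z.gt n Λ 0 L (h : ℕ)

theorem sum_gt (hσ : σ = 0 ∨ σ = 1) (Z : StripSys σ F) (n Λ k L : ℤ) (hk : k < n)
    (hkL : k + L < n) :
    ∑ h : Fin (1 + σ).toNat, Z.gt n Λ k L (h : ℕ) = Z.gs (n - k) Λ L := by
  have e1 : ln σ ((k, 0) : V) = k := by unfold ln; simp
  have h1 : ∀ h : ℤ, Z.gt n Λ k L h = Z.gt (n - k) Λ 0 L (h + -ix σ ((k, 0) : V)) := by
    intro h
    have h2 := Z.gt_shift (k, 0) n Λ k L (h + -ix σ ((k, 0) : V)) hk hkL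
    rw [e1, sub_self, neg_add_cancel_right] at h2
    exact h2
  unfold gs
  rw [← sum_period hσ (g := fun h => Z.gt (n - k) Λ 0 L h)
    (fun h => Z.gt_period hσ _ _ _ _ h (by omega) (by omega)) (-ix σ ((k, 0) : V))]
  exact Finset.sum_congr rfl fun h _ => h1 _

/-- Mass transport: the expected mass of the gaps at a given index. -/
theorem tsum_EG_le (hσ : σ = 0 ∨ σ = 1) (Z : StripSys σ F) (n Λ L : ℤ) (hn : 0 < n) (hL : L < n)
    (x0 : ℤ) : ∑' h : ℤ, Z.EG n Λ 0 L h x0 ≤ Z.gs n Λ L := by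
  have hper : ∀ h x, Z.EG n Λ 0 L (h + ((1 + σ).toNat : ℕ)) (x + ((1 + σ).toNat : ℕ)) =
      Z.EG n Λ 0 L h x := by
    intro h x
    have h1 := Z.EG_shift (av σ) n Λ 0 L h x hn (by omega)
    rwa [ln_av, sub_zero, sub_zero, ix_av hσ] at h1
  refine (mt_le (shift_toNat_ne hσ) (M := fun h x => Z.EG n Λ 0 L h x) hper x0).trans (le_of_eq ?_)
  exact sum_period hσ (g := fun h => Z.gt n Λ 0 L h)
    (fun h => Z.gt_period hσ _ _ _ _ h hn (by omega)) x0

omit [IsProbabilityMeasure F] in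
theorem abs_ps_le {Z : StripSys σ F} {ω : Om} {n k : ℤ}
    (hb : ∀ h x, |Z.ph ω n h k x - Z.ph ω n (h + 1) k x| ≤ Z.C) (h x : ℤ) (Λ : ℕ) :
    |Z.ps ω n h (h + 1 + Λ) k x| ≤ Λ * Z.C := by
  unfold ps
  induction Λ with
  | zero => simp
  | succ Λ ih =>
    have h1 := hb (h + 1 + Λ) x
    push_cast
    rw [show h + 1 + ((Λ : ℤ) + 1) = h + 1 + Λ + 1 by ring]
    have h2 := abs_add_le (Z.ph ω n (h + 1) k x - Z.ph ω n (h + 1 + Λ) k x)
      (Z.ph ω n (h + 1 + Λ) k x - Z.ph ω n (h + 1 + Λ + 1) k x)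
    rw [show Z.ph ω n (h + 1) k x - Z.ph ω n (h + 1 + Λ) k x +
      (Z.ph ω n (h + 1 + Λ) k x - Z.ph ω n (h + 1 + Λ + 1) k x) =
      Z.ph ω n (h + 1) k x - Z.ph ω n (h + 1 + Λ + 1) k x by ring] at h2
    linarith

omit [IsProbabilityMeasure F] in
/-- Telescoping for one configuration. -/
theorem ae_telescope (Z : StripSys σ F) (N h : ℤ) (Λ L n' : ℕ) (hN : (n' : ℤ) + L < N) :
    ∀ᵐ ω ∂(iid Ed F), ∑ k ∈ Finset.range n', ∑' x : ℤ, Z.Gk ω N Λ (k : ℕ) L h x ≤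
      ENNReal.ofReal (2 * L * (Λ * Z.C)) * ENNReal.ofReal (2 * Z.C) := by
  filter_upwards [Z.monge, Z.bdd, Z.pair] with ω hmon hbdd hpair
  have h1 := Rig.telescope (F := fun k : ℕ => Z.Fh ω N h k)
    (ψ := fun k : ℕ => Z.ps ω N h (h + 1 + Λ) k) (C := Z.C) (B := Λ * Z.C) n' L
    (fun k hk => (hmon N k (by omega)).monotone (show h ≤ h + 1 by omega))
    (fun k hk x => hbdd N h k x (by omega))
    (fun k hk x => abs_ps_le (fun h x => hbdd N h k x (by omega)) h x Λ)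
    (fun k hk f x hx => by
      obtain ⟨x', hx', -⟩ := (hpair N k ((k + 1 : ℕ) : ℤ) (by omega) (by omega)).exists_lev
        (hmon N ((k + 1 : ℕ) : ℤ) (by omega)) (h := h) hx
      exact ⟨x', hx'⟩)
    (fun k hk f x x' hx hx' => by
      have h2 := (hpair N k ((k + L : ℕ) : ℤ) (by omega) (by omega)).dec_nonneg
        (hmon N ((k + L : ℕ) : ℤ) (by omega)) (h := h) (r := h + 1 + Λ) (by omega) hx hx'
      show Z.ph ω N (h + 1) ((k + L : ℕ) : ℤ) x' - Z.ph ω N (h + 1 + Λ) ((k + L : ℕ) : ℤ) x' ≤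
        Z.ph ω N (h + 1) k x - Z.ph ω N (h + 1 + Λ) k x
      linarith)
  simp only [Nat.cast_add] at h1
  exact h1

/-- **Rigidity in expectation.** -/
theorem exists_strip (hσ : σ = 0 ∨ σ = 1) (Z : StripSys σ F) (N : ℤ) (Λ L n' : ℕ) (hn' : 0 < n')
    (hN : (n' : ℤ) + L < N) :
    ∃ k : ℕ, k < n' ∧ ∀ x0 : ℤ, (n' : ℝ≥0∞) * ∑' h : ℤ, Z.EG (N - k) Λ 0 L h x0 ≤
      (1 + σ).toNat * (ENNReal.ofReal (2 * L * (Λ * Z.C)) * ENNReal.ofReal (2 * Z.C)) := by
  set B : ℝ≥0∞ := ENNReal.ofReal (2 * L * (Λ * Z.C)) * ENNReal.ofReal (2 * Z.C) with hB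
  have h1 : ∀ h : ℤ, ∑ k ∈ Finset.range n', Z.gt N Λ (k : ℕ) L h ≤ B := by
    intro h
    have h2 : ∑ k ∈ Finset.range n', Z.gt N Λ (k : ℕ) L h =
        ∫⁻ ω, ∑ k ∈ Finset.range n', ∑' x : ℤ, Z.Gk ω N Λ (k : ℕ) L h x ∂(iid Ed F) := by
      have hmeas : ∀ k ∈ Finset.range n', AEMeasurable
          (fun ω => ∑' x : ℤ, Z.Gk ω N Λ (k : ℕ) L h x) (iid Ed F) := fun k hk =>
        AEMeasurable.tsum fun x =>
        Z.aemeasurable_Gk N Λ k L h x (by rw [Finset.mem_range] at hk; omega)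
          (by rw [Finset.mem_range] at hk; omega)
      rw [lintegral_finsetSum' (Finset.range n') hmeas]
      refine Finset.sum_congr rfl fun k hk => ?_
      rw [lintegral_tsum fun x => Z.aemeasurable_Gk N Λ k L h x
        (by rw [Finset.mem_range] at hk; omega) (by rw [Finset.mem_range] at hk; omega)]
      rfl
    rw [h2]
    refine (lintegral_mono_ae (Z.ae_telescope N h Λ L n' hN)).trans (le_of_eq ?_)
    rw [lintegral_const, measure_univ, mul_one]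
  have h2 : ∑ k ∈ Finset.range n', Z.gs (N - k) Λ L ≤ (1 + σ).toNat * B := by
    have h3 : ∀ k ∈ Finset.range n', Z.gs (N - k) Λ L =
        ∑ h : Fin (1 + σ).toNat, Z.gt N Λ (k : ℕ) L (h : ℕ) := fun k hk =>
      (Z.sum_gt hσ N Λ k L (by rw [Finset.mem_range] at hk; omega)
        (by rw [Finset.mem_range] at hk; omega)).symm
    rw [Finset.sum_congr rfl h3, Finset.sum_comm]
    have h4 : ∑ y : Fin (1 + σ).toNat, ∑ k ∈ Finset.range n', Z.gt N Λ (k : ℕ) L ((y : ℕ) : ℤ) ≤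
        ∑ _y : Fin (1 + σ).toNat, B := Finset.sum_le_sum fun y _ => h1 ((y : ℕ) : ℤ)
    refine h4.trans (le_of_eq ?_)
    rw [Finset.sum_const, Finset.card_univ, Fintype.card_fin, nsmul_eq_mul]
  obtain ⟨k, hk, hmin⟩ := Finset.exists_min_image (Finset.range n')
    (fun k : ℕ => Z.gs (N - k) Λ L) ⟨0, Finset.mem_range.mpr hn'⟩
  refine ⟨k, Finset.mem_range.mp hk, fun x0 => ?_⟩
  have hk' := Finset.mem_range.mp hk
  calc (n' : ℝ≥0∞) * ∑' h : ℤ, Z.EG (N - k) Λ 0 L h x0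
      ≤ (n' : ℝ≥0∞) * Z.gs (N - k) Λ L := by
        gcongr
        exact Z.tsum_EG_le hσ _ _ _ (by omega) (by omega) x0
    _ = ∑ _k ∈ Finset.range n', Z.gs (N - k) Λ L := by
        rw [Finset.sum_const, Finset.card_range, nsmul_eq_mul]
    _ ≤ ∑ k ∈ Finset.range n', Z.gs (N - k) Λ L := Finset.sum_le_sum fun j hj => hmin j hj
    _ ≤ _ := h2

end StripSys

end C7
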