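import Mathlib
import Pool.Agent.Lib.MP_c725eb_pr.Rigid

/-!
# Theorem X, deterministic core
-/

set_option autoImplicit false

namespace C7

open MeasureTheory Set
open scoped ENNReal

namespace Rig

/-- Increments of `D` are controlled by `g` along a descending interval. -/
theorem desc_bound {D g : ℤ → ℝ} {W w : ℤ} (hw : w ≤ W) (hg : ∀ j, 0 ≤ g j)
    (hD : ∀ j, j < W → D j - D (j + 1) ≤ g j) (n : ℕ) (hn : W - n ≤ w) :
    D (W - n) - D w ≤ ∑ t ∈ Finset.range n, g (W - 1 - t) := by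
  have h0 : (W - w).toNat ≤ n := by omega
  induction n, h0 using Nat.le_induction with
  | base =>
    have : W - ((W - w).toNat : ℤ) = w := by omega
    rw [this, sub_self]
    exact Finset.sum_nonneg fun t _ => hg _
  | succ n hn' ih =>
    rw [Finset.sum_range_succ]
    have h1 := ih (by omega)
    have h2 := hD (W - 1 - n) (by omega)
    have e1 : W - ((n + 1 : ℕ) : ℤ) = W - 1 - n := by push_cast; ring
    have e2 : W - 1 - (n : ℤ) + 1 = W - n := by ring
    rw [e1]
    rw [e2] at h2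
    linarith

/-- **Deterministic core of Theorem X.** -/
theorem x_core {φ φ' : ℤ → ℤ → ℝ} {Kn Ki : ℤ → ℤ → ℝ≥0∞} {v : ℤ → ℤ → ℤ}
    (hp : Pair Kn φ φ' v) (hm : Monge φ) (hm' : Monge φ') (hx : ∀ h, Monotone (v h))
    (hKle : ∀ x u, Ki x u ≤ Kn x u) {bφ : ℤ → ℝ} {wb : ℤ → ℤ} {i : ℤ} {y : ℕ} {η η' : ℝ}
    (hη : 0 < η)
    (hgap : ∀ t < y, ∀ u ≠ wb (i - t), Ki (i - t) u ≠ ⊤ →
      η * (1 + |((u - wb (i - t) : ℤ) : ℝ)|) ≤ (Ki (i - t) u).toReal + bφ u -
        ((Ki (i - t) (wb (i - t))).toReal + bφ (wb (i - t))))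
    (hfin : ∀ t < y, Ki (i - t) (wb (i - t)) ≠ ⊤ ∧
      Kn (i - t) (wb (i - t)) = Ki (i - t) (wb (i - t)))
    (hcoal : ∀ t < y, wb (i - t) = wb i) {W : ℤ} (hW : |wb i| ≤ W) {R₀ R Λ : ℤ} {cu : ℤ → ℝ}
    (hcu : ∀ j, j < W → cu j ≤ φ' R j - φ' R (j + 1))
    (hmax : ∀ n : ℕ, 1 ≤ n → ∑ t ∈ Finset.range n,
      max 0 ((bφ (W - 1 - t) - bφ (W - 1 - t + 1)) - cu (W - 1 - t)) ≤ η' * n)
    (hη'0 : 0 ≤ η') (hη1 : η' * (2 * W) ≤ η / 4) (hη2 : η' ≤ η / 2)
    {hs zL : ℤ} (hz : v hs i = zL) (hzle : zL ≤ wb i) {A c : ℝ} (hc : 0 < c)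
    (h1 : A + c ≤ φ hs (i - y) - φ hs i) (h2 : A + 3 / 4 * c ≤ φ R (i - y) - φ R i)
    (h3 : φ R₀ (i - y) - φ R₀ i ≤ A + c / 4) (hΛ : R - R₀ ≤ Λ)
    (hmass : ∑ t ∈ Finset.range y, ∑' h : ℤ, Gm (fun x => φ h x - φ (h + 1) x)
      (fun x => φ' h x - φ' (h + 1) x) (fun x => φ (h + 1) x - φ (h + 1 + Λ) x)
      (fun x => φ' (h + 1) x - φ' (h + 1 + Λ) x) (i - t) <
        ENNReal.ofReal (η / 4) * ENNReal.ofReal (c / 2)) : zL = wb i := by
  -- the difference in the window
  set B : ℤ → ℝ := fun h => φ h (i - y) - φ h i with hB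
  have hBmono : Monotone B := by
    intro h h' hh
    have := hm h h' (i - y) i hh (by omega)
    show φ h (i - y) - φ h i ≤ φ h' (i - y) - φ h' i
    linarith
  -- the top target
  obtain ⟨h', hh1, hh2, hh3⟩ : ∃ h', h' ≤ hs ∧ h' ≤ R ∧ A + 3 / 4 * c ≤ B h' := by
    rcases le_total hs R with h | h
    · exact ⟨hs, le_rfl, h, by simp only [hB]; linarith⟩
    · exact ⟨R, h, le_rfl, h2⟩
  have hRh : R₀ ≤ h' := by
    by_contra hlt
    push Not at hlt
    have h4 := hBmono hlt.le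
    have h5 : B R₀ ≤ A + c / 4 := h3
    linarith
  obtain ⟨T, hT⟩ : ∃ T : ℕ, R₀ + (T : ℤ) = h' := ⟨(h' - R₀).toNat, by omega⟩
  -- a level with a small decrease
  have hex : ∃ t < y, ∃ τ < T, ∃ f x', IsLev (fun x => φ (R₀ + τ) x - φ (R₀ + τ + 1) x) f (i - t) ∧
      IsLev (fun x => φ' (R₀ + τ) x - φ' (R₀ + τ + 1) x) f x' ∧
      (φ (R₀ + τ + 1) (i - t) - φ R (i - t)) - (φ' (R₀ + τ + 1) x' - φ' R x') < η / 4 := by
    by_contra hcon
    push Not at hcon
    apply absurd hmass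
    rw [not_lt]
    have hstep : ∀ t < y, ∀ τ < T, ENNReal.ofReal (η / 4) *
        ENNReal.ofReal ((φ (R₀ + τ) (i - t) - φ (R₀ + τ + 1) (i - t)) -
          (φ (R₀ + τ) (i - t - 1) - φ (R₀ + τ + 1) (i - t - 1))) ≤
        Gm (fun x => φ (R₀ + τ) x - φ (R₀ + τ + 1) x)
          (fun x => φ' (R₀ + τ) x - φ' (R₀ + τ + 1) x)
          (fun x => φ (R₀ + τ + 1) x - φ (R₀ + τ + 1 + Λ) x)
          (fun x => φ' (R₀ + τ + 1) x - φ' (R₀ + τ + 1 + Λ) x) (i - t) := by
      intro t ht τ hτ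
      have hr1 : R₀ + (τ : ℤ) + 1 ≤ R := by omega
      refine (le_Gm (F := fun x => φ (R₀ + τ) x - φ (R₀ + τ + 1) x)
        (F' := fun x => φ' (R₀ + τ) x - φ' (R₀ + τ + 1) x)
        (ψ := fun x => φ (R₀ + τ + 1) x - φ R x) (ψ' := fun x => φ' (R₀ + τ + 1) x - φ' R x)
        (hm'.monotone (by omega)) (x := i - t) (η := η / 4) (fun f hf => ?_)
        (fun f x' hf hf' => ?_)).trans (Gm_mono fun f x' hf hf' => ?_)
      · obtain ⟨x', hx', -⟩ := hp.exists_lev hm' hf
        exact ⟨x', hx'⟩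
      · exact hcon t ht τ hτ f x' hf hf'
      · exact hp.dec_mono hm' hr1 (by omega) hf hf'
    have hnn : ∀ τ : ℕ, ∀ x, 0 ≤ (φ (R₀ + τ) x - φ (R₀ + τ + 1) x) -
        (φ (R₀ + τ) (x - 1) - φ (R₀ + τ + 1) (x - 1)) := by
      intro τ x
      have := hm (R₀ + τ) (R₀ + τ + 1) (x - 1) x (by omega) (by omega)
      linarith
    calc ENNReal.ofReal (η / 4) * ENNReal.ofReal (c / 2)
        ≤ ENNReal.ofReal (η / 4) * ENNReal.ofReal (∑ t ∈ Finset.range y, ∑ τ ∈ Finset.range T,
            ((φ (R₀ + τ) (i - t) - φ (R₀ + τ + 1) (i - t)) -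
              (φ (R₀ + τ) (i - t - 1) - φ (R₀ + τ + 1) (i - t - 1)))) := by
          gcongr
          rw [Finset.sum_comm]
          have e1 : ∀ τ ∈ Finset.range T, ∑ t ∈ Finset.range y,
              ((φ (R₀ + τ) (i - t) - φ (R₀ + τ + 1) (i - t)) -
                (φ (R₀ + τ) (i - t - 1) - φ (R₀ + τ + 1) (i - t - 1))) =
              B (R₀ + ((τ + 1 : ℕ) : ℤ)) - B (R₀ + τ) := by
            intro τ _
            have e2 := Finset.sum_range_sub' (fun t : ℕ =>
              φ (R₀ + τ) (i - t) - φ (R₀ + τ + 1) (i - t)) y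
            simp only [Nat.cast_add, Nat.cast_one, Nat.cast_zero, sub_zero] at e2
            have e3 : ∀ t : ℕ, i - ((t : ℤ) + 1) = i - t - 1 := fun t => by ring
            simp only [e3] at e2
            rw [e2]
            simp only [hB]
            push_cast
            rw [← add_assoc]
            ring
          rw [Finset.sum_congr rfl e1, Finset.sum_range_sub (fun τ : ℕ => B (R₀ + (τ : ℤ))) T]
          rw [hT]
          have h5 : B R₀ ≤ A + c / 4 := h3
          simp only [Nat.cast_zero, add_zero]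
          linarith
      _ = ∑ t ∈ Finset.range y, ∑ τ ∈ Finset.range T, ENNReal.ofReal (η / 4) *
            ENNReal.ofReal ((φ (R₀ + τ) (i - t) - φ (R₀ + τ + 1) (i - t)) -
              (φ (R₀ + τ) (i - t - 1) - φ (R₀ + τ + 1) (i - t - 1))) := by
          rw [ENNReal.ofReal_sum_of_nonneg fun t _ => Finset.sum_nonneg fun τ _ => hnn τ _,
            Finset.mul_sum]
          refine Finset.sum_congr rfl fun t _ => ?_
          rw [ENNReal.ofReal_sum_of_nonneg fun τ _ => hnn τ _, Finset.mul_sum]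
      _ ≤ _ := by
          refine Finset.sum_le_sum fun t ht => ?_
          rw [Finset.mem_range] at ht
          refine (Finset.sum_le_sum fun τ hτ => hstep t ht τ (Finset.mem_range.mp hτ)).trans ?_
          have hinj : Function.Injective fun τ : ℕ => R₀ + (τ : ℤ) := by
            intro a b hab
            simp only at hab
            omega
          refine (ENNReal.sum_le_tsum (f := fun τ : ℕ =>
            Gm (fun x => φ (R₀ + τ) x - φ (R₀ + τ + 1) x)
            (fun x => φ' (R₀ + τ) x - φ' (R₀ + τ + 1) x)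
            (fun x => φ (R₀ + τ + 1) x - φ (R₀ + τ + 1 + Λ) x)
            (fun x => φ' (R₀ + τ + 1) x - φ' (R₀ + τ + 1 + Λ) x) (i - t)) _).trans ?_
          exact ENNReal.tsum_comp_le_tsum_of_injective hinj (fun h : ℤ =>
            Gm (fun x => φ h x - φ (h + 1) x) (fun x => φ' h x - φ' (h + 1) x)
              (fun x => φ (h + 1) x - φ (h + 1 + Λ) x)
              (fun x => φ' (h + 1) x - φ' (h + 1 + Λ) x) (i - t))
  obtain ⟨t, ht, τ, hτ, f, x', hf, hf', hsmall⟩ := hex
  set x : ℤ := i - t with hxdef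
  set h : ℤ := R₀ + τ with hhdef
  have hhR : h + 1 ≤ R := by omega
  have hdef := hp.defect_le hm' hhR hf hf'
  set u : ℤ := v (h + 1) x with hu
  -- the minimiser is to the left of `zL`
  have huz : u ≤ zL := by
    rw [← hz]
    exact (hp.vmono (h + 1) hs x (by omega)).trans (hx hs (by omega))
  have hwx : wb x = wb i := hcoal t ht
  -- and to the right of the flow of the class `b`
  have hwu : wb i ≤ u := by
    by_contra hlt
    push Not at hlt
    obtain ⟨hK1, hK2⟩ := hfin t ht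
    rw [← hxdef] at hK1 hK2
    rw [hwx] at hK1 hK2
    have hKu : Kn x u ≠ ⊤ := hp.fin (h + 1) x
    have hKiu : Ki x u ≠ ⊤ := ne_top_of_le_ne_top hKu (hKle x u)
    have g1 := hgap t ht u (by rw [← hxdef, hwx]; exact hlt.ne) hKiu
    rw [← hxdef, hwx] at g1
    have g2 : (Ki x u).toReal ≤ (Kn x u).toReal := ENNReal.toReal_mono hKu (hKle x u)
    have g3 := hp.le R x (wb i) (by rw [hK2]; exact hK1)
    rw [hK2] at g3
    -- the sum
    have hWw : wb i ≤ W := (le_abs_self _).trans hW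
    set D : ℤ → ℝ := fun j => bφ j - φ' R j with hD
    set g : ℤ → ℝ := fun j => max 0 ((bφ j - bφ (j + 1)) - cu j) with hg
    have g4 := desc_bound (D := D) (g := g) hWw (fun j => le_max_left _ _)
      (fun j hj => by
        have h4 := hcu j hj
        refine le_trans ?_ (le_max_right _ _)
        simp only [hD]
        linarith) (W - u).toNat (by omega)
    have e1 : W - ((W - u).toNat : ℤ) = u := by omega
    rw [e1] at g4
    have g5 := hmax (W - u).toNat (by omega)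
    have g6 : D u - D (wb i) ≤ η' * ((W - u).toNat : ℕ) := g4.trans g5
    have e2 : (((W - u).toNat : ℕ) : ℝ) = (W : ℝ) - u := by
      have : (((W - u).toNat : ℕ) : ℤ) = W - u := by omega
      exact_mod_cast this
    rw [e2] at g6
    have e3 : |((u - wb i : ℤ) : ℝ)| = (wb i : ℝ) - u := by
      push_cast
      rw [abs_sub_comm, abs_of_pos]
      have : (u : ℝ) < wb i := by exact_mod_cast hlt
      linarith
    rw [e3] at g1
    have hWl : -(W : ℝ) ≤ wb i := by
      have := neg_abs_le (wb i)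
      have h5 : -W ≤ wb i := by omega
      exact_mod_cast h5
    have hlt' : (0 : ℝ) ≤ (wb i : ℝ) - u := by
      have : (u : ℝ) < wb i := by exact_mod_cast hlt
      linarith
    have g7 : η' * ((W : ℝ) - u) ≤ η / 4 + η / 2 * ((wb i : ℝ) - u) := by
      have g8 : η' * ((W : ℝ) - wb i) ≤ η' * (2 * W) := by
        refine mul_le_mul_of_nonneg_left ?_ hη'0
        linarith
      have g9 : η' * ((wb i : ℝ) - u) ≤ η / 2 * ((wb i : ℝ) - u) :=
        mul_le_mul_of_nonneg_right hη2 hlt'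
      have g10 : η' * ((W : ℝ) - u) = η' * ((W : ℝ) - wb i) + η' * ((wb i : ℝ) - u) := by ring
      rw [g10]
      linarith
    simp only [hD] at g6
    nlinarith
  exact le_antisymm hzle (hwu.trans huz)

end Rig

end C7
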