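import Mathlib
import Pool.Agent.Lib.MP_c725eb_pr.RigidProb
import Pool.Agent.Lib.MP_c725eb_pr.XCore
import Pool.Agent.Lib.MP_c725eb_pr.Cover

/-!
# Theorem X: the maximal inequality along a line, strips with a general base line
-/

set_option autoImplicit false

namespace C7

open MeasureTheory Filter Set
open scoped ENNReal NNReal Topology
open FlowSys (av ln_av ix_av shift_toNat_ne sum_period)

/-- blocks of a sum -/
theorem sum_range_blocks {M : Type*} [AddCommMonoid M] (p : ℕ) (f : ℕ → M) (n : ℕ) :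
    ∑ q ∈ Finset.range n, ∑ r ∈ Finset.range p, f (p * q + r) = ∑ t ∈ Finset.range (p * n), f t := by
  induction n with
  | zero => simp
  | succ n ih =>
    rw [Finset.sum_range_succ, ih, Nat.mul_succ, Finset.sum_range_add]

section

variable {σ : ℤ} {F : Measure ℝ} [IsProbabilityMeasure F]

/-- **Maximal inequality along a line**, downwards from the index `W - 1`. -/
theorem max_down (hσ : σ = 0 ∨ σ = 1) {f : ℤ → Om → ℝ≥0∞}
    (hm : ∀ j, AEMeasurable (f j) (iid Ed F))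
    (hs : ∀ᵐ ω ∂(iid Ed F), ∀ j, f j (shO (-av σ) ω) = f (j - (1 + σ)) ω) (W : ℤ) (η : ℝ≥0∞) :
    η * iid Ed F {ω | ∃ n : ℕ, 1 ≤ n ∧ η * n < ∑ t ∈ Finset.range n, f (W - 1 - t) ω} ≤
      ∑ r ∈ Finset.range (1 + σ).toNat, ∫⁻ ω, f (W - 1 - r) ω ∂(iid Ed F) := by
  set P := iid Ed F with hP
  set p : ℕ := (1 + σ).toNat with hp
  have hp' : ((p : ℕ) : ℤ) = 1 + σ := by rcases hσ with rfl | rfl <;> rfl
  have hp1 : 1 ≤ p := Nat.one_le_iff_ne_zero.mpr (shift_toNat_ne hσ)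
  set θ : Om → Om := shO (-av σ) with hθ
  have hθP : MeasurePreserving θ P P := measurePreserving_shO F (-av σ)
  set g : Om → ℝ≥0∞ := fun ω => ∑ r ∈ Finset.range p, f (W - 1 - r) ω with hg
  have hgm : AEMeasurable g P := Finset.aemeasurable_fun_sum _ fun r _ => hm _
  -- iterates
  have hiter : ∀ᵐ ω ∂P, ∀ q : ℕ, ∀ j, f j (θ^[q] ω) = f (j - (1 + σ) * q) ω := by
    rw [ae_all_iff]
    intro q
    induction q with
    | zero => exact ae_of_all _ fun ω j => by simp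
    | succ q ih =>
      have h1 := (hθP.iterate q).quasiMeasurePreserving.ae hs
      filter_upwards [ih, h1] with ω h2 h3 j
      rw [Function.iterate_succ_apply', h3 j, h2]
      congr 1
      push_cast
      ring
  have hmk : ∀ᵐ ω ∂P, ∀ q : ℕ, hgm.mk g (θ^[q] ω) = g (θ^[q] ω) := by
    rw [ae_all_iff]
    intro q
    have h1 := (hθP.iterate q).quasiMeasurePreserving.ae hgm.ae_eq_mk
    filter_upwards [h1] with ω h2
    exact h2.symm
  have hmax := maximal hθP hgm.measurable_mk η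
  have hint : ∫⁻ ω, hgm.mk g ω ∂P = ∑ r ∈ Finset.range p, ∫⁻ ω, f (W - 1 - r) ω ∂P := by
    rw [lintegral_congr_ae hgm.ae_eq_mk.symm]
    exact lintegral_finsetSum' _ fun r _ => hm _
  rw [hint] at hmax
  refine le_trans ?_ hmax
  refine mul_le_mul' le_rfl (measure_mono_ae ?_)
  filter_upwards [hiter, hmk] with ω h1 h2 h3
  obtain ⟨n, hn, h4⟩ := h3
  obtain ⟨n', hn1, hn2, hn3⟩ : ∃ n' : ℕ, 1 ≤ n' ∧ n' ≤ n ∧ n ≤ p * n' := by
    refine ⟨(n + p - 1) / p, ?_, ?_, ?_⟩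
    · rw [Nat.one_le_div_iff (by omega)]; omega
    · rcases hσ with rfl | rfl
      · have : p = 1 := rfl
        rw [this]; omega
      · have : p = 2 := rfl
        rw [this]; omega
    · rcases hσ with rfl | rfl
      · have : p = 1 := rfl
        rw [this]; omega
      · have : p = 2 := rfl
        rw [this]; omega
  refine ⟨n', hn1, ?_⟩
  have h5 : bs θ (hgm.mk g) n' ω = ∑ t ∈ Finset.range (p * n'), f (W - 1 - t) ω := by
    unfold bs
    rw [← sum_range_blocks p (fun t => f (W - 1 - t) ω) n']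
    refine Finset.sum_congr rfl fun q _ => ?_
    rw [h2 q]
    refine Finset.sum_congr rfl fun r _ => ?_
    rw [h1 q]
    congr 1
    push_cast
    rw [hp']
    ring
  rw [h5]
  calc η * n' ≤ η * n := by gcongr
    _ ≤ ∑ t ∈ Finset.range n, f (W - 1 - t) ω := h4.le
    _ ≤ ∑ t ∈ Finset.range (p * n'), f (W - 1 - t) ω :=
        Finset.sum_le_sum_of_subset (Finset.range_mono hn3)

namespace StripSys

/-- General base line. -/
theorem tsum_EG_base (Z : StripSys σ F) (n Λ k L x : ℤ) (hk : k < n) (hkL : k + L < n) :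
    ∑' h : ℤ, Z.EG n Λ k L h x = ∑' h : ℤ, Z.EG (n - k) Λ 0 L h (x - ix σ ((k, 0) : V)) := by
  have e1 : ln σ ((k, 0) : V) = k := by unfold ln; simp
  rw [← (Equiv.addRight (ix σ ((k, 0) : V))).tsum_eq (fun h : ℤ => Z.EG n Λ k L h x)]
  refine tsum_congr fun h => ?_
  have h1 := Z.EG_shift (k, 0) n Λ k L h (x - ix σ ((k, 0) : V)) hk hkL
  rw [e1, sub_self, sub_add_cancel] at h1
  exact h1

/-- Rigidity in expectation, general base line, window of length `y`. -/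
theorem exists_strip_base (hσ : σ = 0 ∨ σ = 1) (Z : StripSys σ F) (hC : 0 ≤ Z.C) (k i : ℤ)
    (y L : ℕ) {δ : ℝ} (hδ : 0 < δ) (M' : ℤ) :
    ∃ (n : ℤ) (R : ℕ), M' ≤ n ∧ k + L < n ∧ k < n ∧ δ * n ≤ R ∧
      ∫⁻ ω, ∑ t ∈ Finset.range y, ∑' h : ℤ, Z.Gk ω n (2 * R : ℕ) k L h (i - t) ∂(iid Ed F) ≤
        ENNReal.ofReal (24 * y * (1 + σ).toNat * L * Z.C ^ 2 * δ) := by
  set p : ℕ := (1 + σ).toNat with hp
  obtain ⟨n', hn'⟩ := exists_nat_ge (max (((L : ℝ) + 1 + |(k : ℝ)|) + 1 / δ)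
    (max 1 (|(k : ℝ)| + |(M' : ℝ)|)))
  have hn1 : ((L : ℝ) + 1 + |(k : ℝ)|) + 1 / δ ≤ n' := (le_max_left _ _).trans hn'
  have hn2 : (1 : ℝ) ≤ n' := (le_max_left _ _).trans ((le_max_right _ _).trans hn')
  have hn3 : |(k : ℝ)| + |(M' : ℝ)| ≤ n' := (le_max_right _ _).trans ((le_max_right _ _).trans hn')
  have hn2' : 0 < n' := by
    have : (1 : ℕ) ≤ n' := by exact_mod_cast hn2
    omega
  set N : ℤ := 2 * n' + L + 1 with hN
  set R : ℕ := ⌈δ * (N + |(k : ℝ)|)⌉₊ with hR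
  have hNpos : (0 : ℝ) ≤ δ * (N + |(k : ℝ)|) := by
    have : (0 : ℝ) ≤ N := by rw [hN]; push_cast; positivity
    positivity
  have hR1 : δ * (N + |(k : ℝ)|) ≤ R := Nat.le_ceil _
  have hR2 : (R : ℝ) ≤ 3 * δ * n' := by
    have h1 : (R : ℝ) < δ * (N + |(k : ℝ)|) + 1 := Nat.ceil_lt_add_one hNpos
    have h2 : (N : ℝ) = 2 * n' + L + 1 := by rw [hN]; push_cast; ring
    rw [h2] at h1
    have h3 : δ * (((L : ℝ) + 1 + |(k : ℝ)|) + 1 / δ) ≤ δ * n' :=
      mul_le_mul_of_nonneg_left hn1 hδ.le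
    have h4 : δ * (((L : ℝ) + 1 + |(k : ℝ)|) + 1 / δ) = δ * ((L : ℝ) + 1 + |(k : ℝ)|) + 1 := by
      field_simp
    rw [h4] at h3
    nlinarith
  obtain ⟨k', hk', hbound⟩ := Z.exists_strip hσ N (2 * R) L n' hn2' (by omega)
  set n : ℤ := N - k' + k with hn
  have hnk : n - k = N - k' := by ring
  have hkn : k < n := by omega
  have hkLn : k + L < n := by omega
  refine ⟨n, R, ?_, hkLn, hkn, ?_, ?_⟩
  · have h1 : |k| + |M'| ≤ (n' : ℤ) := by exact_mod_cast hn3
    have h2 := neg_abs_le k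
    have h3 := le_abs_self M'
    omega
  · refine le_trans ?_ hR1
    have h1 : (n : ℝ) = (N : ℝ) - k' + k := by rw [hn]; push_cast; ring
    rw [h1]
    refine mul_le_mul_of_nonneg_left ?_ hδ.le
    have h2 := le_abs_self (k : ℝ)
    have h3 : (0 : ℝ) ≤ k' := Nat.cast_nonneg _
    linarith
  · have hmeas : ∀ t ∈ Finset.range y, AEMeasurable
        (fun ω => ∑' h : ℤ, Z.Gk ω n (2 * R : ℕ) k L h (i - t)) (iid Ed F) := fun t _ =>
      AEMeasurable.tsum fun h => Z.aemeasurable_Gk _ _ _ _ _ _ hkn hkLn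
    rw [lintegral_finsetSum' _ hmeas]
    have h1 : ∀ t ∈ Finset.range y,
        ∫⁻ ω, ∑' h : ℤ, Z.Gk ω n (2 * R : ℕ) k L h (i - t) ∂(iid Ed F) =
        ∑' h : ℤ, Z.EG (N - k') (2 * R : ℕ) 0 L h (i - t - ix σ ((k, 0) : V)) := by
      intro t _
      rw [lintegral_tsum fun h => Z.aemeasurable_Gk _ _ _ _ _ _ hkn hkLn, ← hnk,
        ← Z.tsum_EG_base n (2 * R : ℕ) k L (i - t) hkn hkLn]
      rfl
    rw [Finset.sum_congr rfl h1]
    -- cancel `n'`
    have hne : (n' : ℝ≥0∞) ≠ 0 := by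
      rw [Nat.cast_ne_zero]; omega
    rw [← ENNReal.mul_le_mul_iff_right hne (ENNReal.natCast_ne_top n'), Finset.mul_sum]
    calc ∑ t ∈ Finset.range y, (n' : ℝ≥0∞) *
          ∑' h : ℤ, Z.EG (N - k') (2 * R : ℕ) 0 L h (i - t - ix σ ((k, 0) : V))
        ≤ ∑ _t ∈ Finset.range y, ((p : ℝ≥0∞) *
            (ENNReal.ofReal (2 * L * ((2 * R : ℕ) * Z.C)) * ENNReal.ofReal (2 * Z.C))) :=
          Finset.sum_le_sum fun t _ => hbound _
      _ = ENNReal.ofReal (y * (p * ((2 * L * ((2 * R : ℕ) * Z.C)) * (2 * Z.C)))) := by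
          rw [Finset.sum_const, Finset.card_range, nsmul_eq_mul,
            ← ENNReal.ofReal_mul (by positivity), ← ENNReal.ofReal_natCast p,
            ← ENNReal.ofReal_mul (by positivity), ← ENNReal.ofReal_natCast y,
            ← ENNReal.ofReal_mul (by positivity)]
      _ ≤ ENNReal.ofReal (n' * (24 * y * p * L * Z.C ^ 2 * δ)) := by
          refine ENNReal.ofReal_le_ofReal ?_
          push_cast
          have h2 : (0 : ℝ) ≤ 8 * y * p * L * Z.C ^ 2 := by positivity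
          nlinarith [mul_le_mul_of_nonneg_left hR2 h2]
      _ = _ := by
          rw [ENNReal.ofReal_mul (by positivity), ENNReal.ofReal_natCast]

end StripSys

end

end C7
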