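import Mathlib
import Pool.Agent.Lib.MP_c725eb_pr.XPre

/-!
# Theorem X

If a bi-infinite path of the class `z` has at the line `k` an excess over the class `a`, then it
follows the class `b` to the right of the line `k`.
-/

set_option autoImplicit false

namespace C7

open MeasureTheory Filter Set
open scoped ENNReal NNReal Topology
open FlowSys (av ln_av ix_av shift_toNat_ne sum_period)

/-- The hypotheses of Theorem X. -/
structure XSys (σ : ℤ) (K : ℝ≥0∞) (F : Measure ℝ) where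
  /-- strips -/
  Z : StripSys σ F
  /-- the class `b` -/
  S : FlowSys σ K F
  /-- the kernel of the whole region -/
  ki : Om → ℤ → ℤ → ℤ → ℤ → ℝ≥0∞
  ki_fin : ∀ᵐ ω ∂(iid Ed F), ∀ k l x, k ≤ l → ki ω k l x (S.v ω k l x) ≠ ⊤
  ki_le : ∀ᵐ ω ∂(iid Ed F), ∀ n k l x u, k ≤ l → l < n → ki ω k l x u ≤ Z.kn ω n k l x u
  ki_ev : ∀ᵐ ω ∂(iid Ed F), ∀ k l x, k ≤ l → ∃ n0 : ℤ, ∀ n ≥ n0,
    Z.kn ω n k l x (S.v ω k l x) = ki ω k l x (S.v ω k l x)
  gap : ∀ᵐ ω ∂(iid Ed F), ∀ k l x, k ≤ l → ∃ η : ℝ, 0 < η ∧ ∀ u ≠ S.v ω k l x,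
    ki ω k l x u ≠ ⊤ → η * (1 + |((u - S.v ω k l x : ℤ) : ℝ)|) ≤
      (ki ω k l x u).toReal + S.φ ω l u -
        ((ki ω k l x (S.v ω k l x)).toReal + S.φ ω l (S.v ω k l x))
  /-- potential of the class `a` -/
  al : Om → ℤ → ℤ → ℝ
  /-- increments of upper wedges -/
  cu : ℕ → Om → ℤ → ℤ → ℝ
  /-- increments of lower wedges -/
  cl : ℕ → Om → ℤ → ℤ → ℝ
  /-- slopes -/
  e : ℕ → ℝ
  he : Tendsto e atTop (𝓝 0)
  meas_cu : ∀ r l j, AEMeasurable (fun ω => S.φ ω l j - S.φ ω l (j + 1) - cu r ω l j) (iid Ed F)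
  meas_cl : ∀ r l j, AEMeasurable (fun ω => cl r ω l j - (al ω l j - al ω l (j + 1))) (iid Ed F)
  shift_cu : ∀ r, ∀ᵐ ω ∂(iid Ed F), ∀ l j,
    S.φ (shO (-av σ) ω) l j - S.φ (shO (-av σ) ω) l (j + 1) - cu r (shO (-av σ) ω) l j =
      S.φ ω l (j - (1 + σ)) - S.φ ω l (j - (1 + σ) + 1) - cu r ω l (j - (1 + σ))
  lim_cu : ∀ l j, Tendsto (fun r => ∫⁻ ω, ENNReal.ofReal
    (S.φ ω l j - S.φ ω l (j + 1) - cu r ω l j) ∂(iid Ed F)) atTop (𝓝 0)
  lim_cl : ∀ l j, Tendsto (fun r => ∫⁻ ω, ENNReal.ofReal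
    (cl r ω l j - (al ω l j - al ω l (j + 1))) ∂(iid Ed F)) atTop (𝓝 0)
  dom_cu : ∀ (r : ℕ) (δ : ℝ), e r < δ → ∀ᵐ ω ∂(iid Ed F), ∀ l J : ℤ, ∃ n0 : ℤ, ∀ n ≥ n0,
    ∀ R : ℤ, δ * n ≤ R → ∀ j ≤ J,
      cu r ω l j ≤ Z.ph ω n (-σ * n + R) l j - Z.ph ω n (-σ * n + R) l (j + 1)
  dom_cl : ∀ (r : ℕ) (δ : ℝ), e r < δ → ∀ᵐ ω ∂(iid Ed F), ∀ l J : ℤ, ∃ n0 : ℤ, ∀ n ≥ n0,
    ∀ R : ℤ, δ * n ≤ R → ∀ j, |j| ≤ J →
      Z.ph ω n (-σ * n - R) l j - Z.ph ω n (-σ * n - R) l (j + 1) ≤ cl r ω l j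

namespace XSys

variable {σ : ℤ} {K : ℝ≥0∞} {F : Measure ℝ}

/-- The bad configurations. -/
def Bad (X : XSys σ K F) (k i : ℤ) (y m : ℕ) (c : ℝ) (ω : Om) : Prop :=
  ∃ z : ℤ → ℤ,
    (∀ l, k < l → z l ≤ X.S.v ω k l i ∧
      (z l = X.S.v ω k l i → ∀ m', k < m' → m' < l → z m' = X.S.v ω k m' i)) ∧
    (∀ l, k < l → ∃ n0 : ℤ, ∀ n ≥ n0, ∃ h, X.Z.v ω n k l h i = z l ∧
      (X.al ω k (i - y) - X.al ω k i) + c ≤ X.Z.ph ω n h k (i - y) - X.Z.ph ω n h k i) ∧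
    (X.al ω k (i - y) - X.al ω k i) + c ≤ X.S.φ ω k (i - y) - X.S.φ ω k i ∧
    z (k + m) ≠ X.S.v ω k (k + m) i

/-- Bad configurations with fixed constants. -/
structure A2 (X : XSys σ K F) (k i : ℤ) (y L : ℕ) (c : ℝ) (M : ℕ) (ω : Om) : Prop where
  reg : X.S.Reg ω
  coal : X.S.v ω k (k + L) (i - y) = X.S.v ω k (k + L) i
  exz : ∃ zl : ℤ, zl ≤ X.S.v ω k (k + L) i ∧ zl ≠ X.S.v ω k (k + L) i ∧
    ∀ n ≥ (M : ℤ), ∃ h, X.Z.v ω n k (k + L) h i = zl ∧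
      (X.al ω k (i - y) - X.al ω k i) + c ≤ X.Z.ph ω n h k (i - y) - X.Z.ph ω n h k i
  exc : (X.al ω k (i - y) - X.al ω k i) + c ≤ X.S.φ ω k (i - y) - X.S.φ ω k i
  gap : ∀ t < y, ∀ u ≠ X.S.v ω k (k + L) (i - t), X.ki ω k (k + L) (i - t) u ≠ ⊤ →
    1 / ((M : ℝ) + 1) * (1 + |((u - X.S.v ω k (k + L) (i - t) : ℤ) : ℝ)|) ≤
      (X.ki ω k (k + L) (i - t) u).toReal + X.S.φ ω (k + L) u -
        ((X.ki ω k (k + L) (i - t) (X.S.v ω k (k + L) (i - t))).toReal +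
          X.S.φ ω (k + L) (X.S.v ω k (k + L) (i - t)))
  win : |X.S.v ω k (k + L) i| ≤ M
  ker : ∀ t < y, ∀ n ≥ (M : ℤ), X.Z.kn ω n k (k + L) (i - t) (X.S.v ω k (k + L) (i - t)) =
    X.ki ω k (k + L) (i - t) (X.S.v ω k (k + L) (i - t))

/-- Existence of the constants. -/
theorem exists_A2 {X : XSys σ K F} {k i : ℤ} {y m : ℕ} (hm : 0 < m) {c : ℝ} {ω : Om}
    (hreg : X.S.Reg ω) (hsim : X.S.Sim ω k (i - y) i)
    (hev : ∀ k l x, k ≤ l → ∃ n0 : ℤ, ∀ n ≥ n0,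
      X.Z.kn ω n k l x (X.S.v ω k l x) = X.ki ω k l x (X.S.v ω k l x))
    (hgap : ∀ k l x, k ≤ l → ∃ η : ℝ, 0 < η ∧ ∀ u ≠ X.S.v ω k l x,
      X.ki ω k l x u ≠ ⊤ → η * (1 + |((u - X.S.v ω k l x : ℤ) : ℝ)|) ≤
        (X.ki ω k l x u).toReal + X.S.φ ω l u -
          ((X.ki ω k l x (X.S.v ω k l x)).toReal + X.S.φ ω l (X.S.v ω k l x)))
    (hbad : X.Bad k i y m c ω) : ∃ L M : ℕ, 0 < L ∧ X.A2 k i y L c M ω := by
  obtain ⟨z, hz1, hz2, hz3, hz4⟩ := hbad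
  obtain ⟨N, hN, hNe⟩ := hsim
  set L : ℕ := (N - k).toNat + m + 1 with hL
  have hL0 : k < k + (L : ℤ) := by omega
  have hcoal : X.S.v ω k (k + L) (i - y) = X.S.v ω k (k + L) i :=
    hreg.later hN (by omega) hNe
  have hne : z (k + L) ≠ X.S.v ω k (k + L) i := fun h =>
    hz4 ((hz1 (k + L) hL0).2 h (k + m) (by omega) (by omega))
  obtain ⟨n0, hn0⟩ := hz2 (k + L) hL0
  choose η hη hgap' using fun t : ℕ => hgap k (k + L) (i - t) hL0.le
  choose n1 hn1 using fun t : ℕ => hev k (k + L) (i - t) hL0.le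
  obtain ⟨q, hq⟩ : ∃ q : ℕ, ∀ t ∈ Finset.range y, 1 / ((q : ℝ) + 1) ≤ η t := by
    rcases (Finset.range y).eq_empty_or_nonempty with h | h
    · exact ⟨0, by rw [h]; simp⟩
    · obtain ⟨t0, -, ht0⟩ := Finset.exists_min_image (Finset.range y) η h
      obtain ⟨q, hq⟩ := exists_nat_one_div_lt (hη t0)
      exact ⟨q, fun t ht => hq.le.trans (ht0 t ht)⟩
  obtain ⟨N1, hN1⟩ : ∃ N1 : ℤ, ∀ t ∈ Finset.range y, n1 t ≤ N1 := by
    obtain ⟨N1, h⟩ := Finset.bddAbove ((Finset.range y).image n1)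
    exact ⟨N1, fun t ht => h (Finset.mem_coe.mpr (Finset.mem_image_of_mem _ ht))⟩
  set M : ℕ := q + n0.toNat + N1.toNat + (X.S.v ω k (k + L) i).natAbs with hM
  refine ⟨L, M, by omega, hreg, hcoal, ⟨z (k + L), (hz1 _ hL0).1, hne, fun n hn => ?_⟩, hz3,
    fun t ht u hu hfin => ?_, ?_, fun t ht n hn => ?_⟩
  · exact hn0 n (by omega)
  · refine le_trans ?_ (hgap' t u hu hfin)
    refine mul_le_mul_of_nonneg_right ?_ (by positivity)
    refine le_trans ?_ (hq t (Finset.mem_range.mpr ht))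
    refine one_div_le_one_div_of_le (by positivity) ?_
    have : q ≤ M := by omega
    have : (q : ℝ) ≤ M := by exact_mod_cast this
    linarith
  · rw [Int.abs_eq_natAbs]
    omega
  · have h1 := hN1 t (Finset.mem_range.mpr ht)
    exact hn1 t n (by omega)

variable [IsProbabilityMeasure F]

omit [IsProbabilityMeasure F] in
/-- Markov inequality for the sum over a window. -/
theorem markov_window {f : ℕ → Om → ℝ} (hf : ∀ t, AEMeasurable (f t) (iid Ed F)) (y : ℕ)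
    (c : ℝ) :
    ENNReal.ofReal c * iid Ed F {ω | c < ∑ t ∈ Finset.range y, f t ω} ≤
      ∑ t ∈ Finset.range y, ∫⁻ ω, ENNReal.ofReal (f t ω) ∂(iid Ed F) := by
  have hm : ∀ t ∈ Finset.range y, AEMeasurable (fun ω => ENNReal.ofReal (f t ω)) (iid Ed F) :=
    fun t _ => ENNReal.measurable_ofReal.comp_aemeasurable (hf t)
  rw [← lintegral_finsetSum' _ hm]
  refine le_trans (mul_le_mul' le_rfl (measure_mono ?_))
    (mul_meas_ge_le_lintegral₀ (Finset.aemeasurable_fun_sum _ hm) (ENNReal.ofReal c))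
  intro ω hω
  have h1 : c < ∑ t ∈ Finset.range y, f t ω := hω
  show ENNReal.ofReal c ≤ ∑ t ∈ Finset.range y, ENNReal.ofReal (f t ω)
  calc ENNReal.ofReal c ≤ ENNReal.ofReal (∑ t ∈ Finset.range y, max 0 (f t ω)) := by
        refine ENNReal.ofReal_le_ofReal (h1.le.trans (Finset.sum_le_sum fun t _ => le_max_right _ _))
    _ = ∑ t ∈ Finset.range y, ENNReal.ofReal (max 0 (f t ω)) :=
        ENNReal.ofReal_sum_of_nonneg fun t _ => le_max_left _ _
    _ = _ := by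
        refine Finset.sum_congr rfl fun t _ => ?_
        rcases le_total (f t ω) 0 with h | h
        · rw [max_eq_left h, ENNReal.ofReal_zero, ENNReal.ofReal_of_nonpos h]
        · rw [max_eq_right h]

theorem exists_small {f : ℕ → ℝ≥0∞} (hf : Tendsto f atTop (𝓝 0)) {a b : ℝ≥0∞} (ha : a ≠ 0)
    (hb : b ≠ 0) : ∀ᶠ r in atTop, f r < a * b := by
  have h : 0 < a * b := pos_iff_ne_zero.mpr (mul_ne_zero ha hb)
  exact hf.eventually_lt_const h

theorem lt_of_mul_lt {a b x : ℝ≥0∞} (h : a * x < a * b) : x < b := by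
  by_contra hlt
  push Not at hlt
  exact absurd h (not_lt.mpr (mul_le_mul' le_rfl hlt))

/-- **The bad sets with fixed constants are null.** -/
theorem A2_null (hσ : σ = 0 ∨ σ = 1) (X : XSys σ K F) (k i : ℤ) (y L : ℕ) (hL : 0 < L) {c : ℝ}
    (hc : 0 < c) (M : ℕ) : iid Ed F {ω | X.A2 k i y L c M ω} = 0 := by
  by_contra hpos
  set P := iid Ed F with hP
  set q := P {ω | X.A2 k i y L c M ω} with hq
  have hqt : q ≠ ⊤ := measure_ne_top _ _
  have hC : 0 ≤ X.Z.C := by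
    obtain ⟨ω, hω⟩ := X.Z.bdd.exists
    exact (abs_nonneg _).trans (hω 1 0 0 0 (by norm_num))
  -- constants
  set η : ℝ := 1 / ((M : ℝ) + 1) with hη
  have hη0 : 0 < η := by positivity
  set η' : ℝ := η / (8 * ((M : ℝ) + 1)) with hη'
  have hη'0 : 0 < η' := by positivity
  have hη1 : η' * (2 * (M : ℝ)) ≤ η / 4 := by
    rw [hη', div_mul_eq_mul_div, div_le_div_iff₀ (by positivity) (by norm_num)]
    nlinarith
  have hη2 : η' ≤ η / 2 := by
    rw [hη']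
    refine div_le_div_of_nonneg_left hη0.le (by norm_num) ?_
    have : (0 : ℝ) ≤ M := Nat.cast_nonneg _
    linarith
  set ε0 : ℝ := η / 4 * (c / 2) with hε0
  have hε0' : 0 < ε0 := by positivity
  set A : ℝ := 24 * y * (1 + σ).toNat * L * X.Z.C ^ 2 with hA
  have hA0 : 0 ≤ A := by positivity
  have hq0 : 0 < q.toReal := ENNReal.toReal_pos hpos hqt
  set δ : ℝ := ε0 * (q.toReal / 8) / (A + 1) with hδ
  have hδ0 : 0 < δ := by positivity
  have hAδ : A * δ < ε0 * (q.toReal / 4) := by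
    have h1 : A * δ ≤ ε0 * (q.toReal / 8) := by
      rw [hδ, mul_div_assoc', div_le_iff₀ (by positivity)]
      nlinarith [mul_pos hε0' hq0]
    have h2 : ε0 * (q.toReal / 8) < ε0 * (q.toReal / 4) :=
      mul_lt_mul_of_pos_left (by linarith) hε0'
    linarith
  have hq8 : q / 8 ≠ 0 := by
    rw [Ne, ENNReal.div_eq_zero_iff]
    push Not
    exact ⟨hpos, by norm_num⟩
  -- the choice of `r`
  have hofη' : ENNReal.ofReal η' ≠ 0 := by
    rw [Ne, ENNReal.ofReal_eq_zero]; push Not; exact hη'0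
  have hofc : ENNReal.ofReal (c / 4) ≠ 0 := by
    rw [Ne, ENNReal.ofReal_eq_zero]; push Not; positivity
  have hev1 : ∀ᶠ r in atTop, X.e r < δ := X.he.eventually_lt_const hδ0
  have hev2 : ∀ᶠ r in atTop, ∑ s ∈ Finset.range (1 + σ).toNat, ∫⁻ ω, ENNReal.ofReal
      (X.S.φ ω (k + L) ((M : ℤ) - 1 - s) - X.S.φ ω (k + L) ((M : ℤ) - 1 - s + 1) -
        X.cu r ω (k + L) ((M : ℤ) - 1 - s)) ∂P < ENNReal.ofReal η' * (q / 8) := by
    refine exists_small ?_ hofη' hq8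
    have h1 := tendsto_finsetSum (Finset.range (1 + σ).toNat)
      fun (s : ℕ) _ => X.lim_cu (k + L) ((M : ℤ) - 1 - s)
    rwa [Finset.sum_const_zero] at h1
  have hev3 : ∀ᶠ r in atTop, ∑ t ∈ Finset.range y, ∫⁻ ω, ENNReal.ofReal
      (X.S.φ ω k (i - 1 - t) - X.S.φ ω k (i - 1 - t + 1) - X.cu r ω k (i - 1 - t)) ∂P <
        ENNReal.ofReal (c / 4) * (q / 8) := by
    refine exists_small ?_ hofc hq8
    have h1 := tendsto_finsetSum (Finset.range y) fun (t : ℕ) _ => X.lim_cu k (i - 1 - t)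
    rwa [Finset.sum_const_zero] at h1
  have hev4 : ∀ᶠ r in atTop, ∑ t ∈ Finset.range y, ∫⁻ ω, ENNReal.ofReal
      (X.cl r ω k (i - 1 - t) - (X.al ω k (i - 1 - t) - X.al ω k (i - 1 - t + 1))) ∂P <
        ENNReal.ofReal (c / 4) * (q / 8) := by
    refine exists_small ?_ hofc hq8
    have h1 := tendsto_finsetSum (Finset.range y) fun (t : ℕ) _ => X.lim_cl k (i - 1 - t)
    rwa [Finset.sum_const_zero] at h1
  obtain ⟨r, hr1, hr2, hr3, hr4⟩ := (hev1.and (hev2.and (hev3.and hev4))).exists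
  -- the exceptional sets
  set G1 : Set Om := {ω | ∃ n : ℕ, 1 ≤ n ∧ ENNReal.ofReal η' * n < ∑ t ∈ Finset.range n,
    ENNReal.ofReal (X.S.φ ω (k + L) ((M : ℤ) - 1 - t) - X.S.φ ω (k + L) ((M : ℤ) - 1 - t + 1) -
      X.cu r ω (k + L) ((M : ℤ) - 1 - t))} with hG1
  set G2 : Set Om := {ω | c / 4 < ∑ t ∈ Finset.range y, (X.S.φ ω k (i - 1 - t) -
    X.S.φ ω k (i - 1 - t + 1) - X.cu r ω k (i - 1 - t))} with hG2
  set G3 : Set Om := {ω | c / 4 < ∑ t ∈ Finset.range y, (X.cl r ω k (i - 1 - t) -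
    (X.al ω k (i - 1 - t) - X.al ω k (i - 1 - t + 1)))} with hG3
  have hPG1 : P G1 < q / 8 := by
    refine lt_of_mul_lt ((max_down hσ
      (f := fun j ω => ENNReal.ofReal (X.S.φ ω (k + L) j - X.S.φ ω (k + L) (j + 1) -
        X.cu r ω (k + L) j))
      (fun j => ENNReal.measurable_ofReal.comp_aemeasurable (X.meas_cu r (k + L) j))
      ?_ (M : ℤ) (ENNReal.ofReal η')).trans_lt hr2)
    filter_upwards [X.shift_cu r] with ω h j
    rw [h (k + L) j]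
  have hPG2 : P G2 < q / 8 :=
    lt_of_mul_lt ((markov_window
      (fun t => X.meas_cu r k (i - 1 - t)) y (c / 4)).trans_lt hr3)
  have hPG3 : P G3 < q / 8 :=
    lt_of_mul_lt ((markov_window
      (fun t => X.meas_cl r k (i - 1 - t)) y (c / 4)).trans_lt hr4)
  -- the remaining set
  set A3 : Set Om := {ω | X.A2 k i y L c M ω} \ (G1 ∪ (G2 ∪ G3)) with hA3
  set Dm : ℕ → Om → Prop := fun M' ω => ∀ n ≥ (M' : ℤ), ∀ R : ℤ, δ * n ≤ R →
    (∀ j ≤ (M : ℤ), X.cu r ω (k + L) j ≤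
      X.Z.ph ω n (-σ * n + R) (k + L) j - X.Z.ph ω n (-σ * n + R) (k + L) (j + 1)) ∧
    (∀ j ≤ i, X.cu r ω k j ≤
      X.Z.ph ω n (-σ * n + R) k j - X.Z.ph ω n (-σ * n + R) k (j + 1)) ∧
    (∀ j, |j| ≤ |i| + y →
      X.Z.ph ω n (-σ * n - R) k j - X.Z.ph ω n (-σ * n - R) k (j + 1) ≤ X.cl r ω k j) with hDm
  have hDae : ∀ᵐ ω ∂P, ∃ M', Dm M' ω := by
    filter_upwards [X.dom_cu r δ hr1, X.dom_cl r δ hr1] with ω h1 h2
    obtain ⟨n1, hn1⟩ := h1 (k + L) M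
    obtain ⟨n2, hn2⟩ := h1 k i
    obtain ⟨n3, hn3⟩ := h2 k (|i| + y)
    refine ⟨n1.toNat + n2.toNat + n3.toNat, fun n hn R hR => ⟨hn1 n (by omega) R hR,
      hn2 n (by omega) R hR, hn3 n (by omega) R hR⟩⟩
  set A4 : ℕ → Set Om := fun M' => A3 ∩ {ω | Dm M' ω} with hA4
  have hA4mono : Monotone A4 := by
    intro a b hab ω hω
    refine ⟨hω.1, fun n hn R hR => hω.2 n ?_ R hR⟩
    have : (a : ℤ) ≤ b := by exact_mod_cast hab
    omega
  have hq4 : q / 4 < P (⋃ M', A4 M') := by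
    by_contra hlt
    push Not at hlt
    have h1 : q ≤ P (⋃ M', A4 M') + (P G1 + (P G2 + P G3)) := by
      calc q ≤ P ((⋃ M', A4 M') ∪ (G1 ∪ (G2 ∪ G3))) := by
            refine measure_mono_ae ?_
            filter_upwards [hDae] with ω ⟨M', h2⟩ h3
            by_cases h4 : ω ∈ G1 ∪ (G2 ∪ G3)
            · exact Or.inr h4
            · exact Or.inl (mem_iUnion.mpr ⟨M', ⟨h3, h4⟩, h2⟩)
        _ ≤ P (⋃ M', A4 M') + P (G1 ∪ (G2 ∪ G3)) := measure_union_le _ _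
        _ ≤ P (⋃ M', A4 M') + (P G1 + P (G2 ∪ G3)) := by gcongr; exact measure_union_le _ _
        _ ≤ _ := by gcongr; exact measure_union_le _ _
    have h2 : q < q := by
      calc q ≤ P (⋃ M', A4 M') + (P G1 + (P G2 + P G3)) := h1
        _ < q / 4 + (q / 8 + (q / 8 + q / 8)) + q / 8 := by
            have h3 : P (⋃ M', A4 M') + (P G1 + (P G2 + P G3)) ≤
                q / 4 + (q / 8 + (q / 8 + q / 8)) := by gcongr
            refine h3.trans_lt (ENNReal.lt_add_right ?_ hq8)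
            refine ENNReal.add_ne_top.2 ⟨ENNReal.div_ne_top hqt (by norm_num),
              ENNReal.add_ne_top.2 ⟨ENNReal.div_ne_top hqt (by norm_num),
              ENNReal.add_ne_top.2 ⟨ENNReal.div_ne_top hqt (by norm_num),
              ENNReal.div_ne_top hqt (by norm_num)⟩⟩⟩
        _ ≤ q := by
            lift q to ℝ≥0 using hqt with q'
            have h4 : (q' : ℝ≥0∞) / 4 = ((q' / 4 : ℝ≥0) : ℝ≥0∞) := by
              rw [ENNReal.coe_div (by norm_num)]; norm_num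
            have h8 : (q' : ℝ≥0∞) / 8 = ((q' / 8 : ℝ≥0) : ℝ≥0∞) := by
              rw [ENNReal.coe_div (by norm_num)]; norm_num
            rw [h4, h8]
            norm_cast
            rw [← NNReal.coe_le_coe]
            push_cast
            have := q'.2
            nlinarith [show (0 : ℝ) ≤ q' from q'.2]
    exact lt_irrefl _ h2
  obtain ⟨M', hM'⟩ : ∃ M', q / 4 < P (A4 M') := by
    have htend := tendsto_measure_iUnion_atTop (μ := P) hA4mono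
    exact (htend.eventually_const_lt hq4).exists
  -- the strip
  obtain ⟨n, R, hn1, hn2, hn3, hn4, hn5⟩ := X.Z.exists_strip_base hσ hC k i y L hδ0
    (max (M : ℤ) (M' : ℤ))
  set G4 : Set Om := {ω | ENNReal.ofReal (η / 4) * ENNReal.ofReal (c / 2) ≤
    ∑ t ∈ Finset.range y, ∑' h : ℤ, X.Z.Gk ω n (2 * R : ℕ) k L h (i - t)} with hG4
  have hPG4 : P G4 ≤ q / 4 := by
    have h1 : AEMeasurable (fun ω => ∑ t ∈ Finset.range y,
        ∑' h : ℤ, X.Z.Gk ω n (2 * R : ℕ) k L h (i - t)) P :=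
      Finset.aemeasurable_fun_sum _ fun t _ => AEMeasurable.tsum fun h =>
        X.Z.aemeasurable_Gk _ _ _ _ _ _ hn3 hn2
    have h2 := mul_meas_ge_le_lintegral₀ h1 (ENNReal.ofReal (η / 4) * ENNReal.ofReal (c / 2))
    have h3 := h2.trans hn5
    have h4 : ENNReal.ofReal (η / 4) * ENNReal.ofReal (c / 2) = ENNReal.ofReal ε0 :=
      (ENNReal.ofReal_mul (by positivity)).symm
    have h5 : ENNReal.ofReal (A * δ) ≤ ENNReal.ofReal ε0 * (q / 4) := by
      have h6 : ENNReal.ofReal ε0 * (q / 4) = ENNReal.ofReal (ε0 * (q.toReal / 4)) := by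
        rw [ENNReal.ofReal_mul hε0'.le, ENNReal.ofReal_div_of_pos (by norm_num),
          ENNReal.ofReal_toReal hqt]
        norm_num
      rw [h6]
      exact ENNReal.ofReal_le_ofReal hAδ.le
    have h7 : ENNReal.ofReal ε0 * P G4 ≤ ENNReal.ofReal ε0 * (q / 4) := by
      rw [← h4] at h5 ⊢
      exact h3.trans h5
    have h8 : ENNReal.ofReal ε0 ≠ 0 := by
      rw [Ne, ENNReal.ofReal_eq_zero]; push Not; exact hε0'
    exact (ENNReal.mul_le_mul_iff_right h8 ENNReal.ofReal_ne_top).mp h7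
  -- a configuration
  have hne : P (A4 M' \ G4) ≠ 0 := by
    intro h0
    have h1 : P (A4 M') ≤ P (A4 M' \ G4) + P G4 := by
      refine (measure_mono ?_).trans (measure_union_le _ _)
      intro ω hω
      by_cases h : ω ∈ G4
      · exact Or.inr h
      · exact Or.inl ⟨hω, h⟩
    rw [h0, zero_add] at h1
    exact absurd (hM'.trans_le (h1.trans hPG4)) (lt_irrefl _)
  have hfreq := frequently_ae_mem_iff.mpr hne
  obtain ⟨ω, ⟨⟨⟨hA2, hG⟩, hD⟩, hG4'⟩, hmon, hpair, hxm, hkf, hkl⟩ := (hfreq.and_eventually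
    (X.Z.monge.and (X.Z.pair.and (X.Z.xmono.and (X.ki_fin.and X.ki_le))))).exists
  have hA2' : X.A2 k i y L c M ω := hA2
  have hnM : (M : ℤ) ≤ n := (le_max_left _ _).trans hn1
  have hnM' : (M' : ℤ) ≤ n := (le_max_right _ _).trans hn1
  have hG1' : ω ∉ G1 := fun h => hG (Or.inl h)
  have hG2' : ω ∉ G2 := fun h => hG (Or.inr (Or.inl h))
  have hG3' : ω ∉ G3 := fun h => hG (Or.inr (Or.inr h))
  simp only [hG4, mem_ofPred_eq, not_le] at hG4'
  obtain ⟨hD1, hD2, hD3⟩ := hD n hnM' R (by exact_mod_cast hn4)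
  obtain ⟨zl, hzl1, hzl2, hzl3⟩ := hA2'.exz
  obtain ⟨h, hh1, hh2⟩ := hzl3 n hnM
  have hkL : k ≤ k + (L : ℤ) := by omega
  -- telescoping along the window
  have htele : ∀ f : ℤ → ℝ, ∑ t ∈ Finset.range y, (f (i - 1 - t) - f (i - 1 - t + 1)) =
      f (i - y) - f i := by
    intro f
    have h1 := Finset.sum_range_sub (fun t : ℕ => f (i - t)) y
    simp only [Nat.cast_zero, sub_zero] at h1
    rw [← h1]
    refine Finset.sum_congr rfl fun t _ => ?_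
    have e1 : i - 1 - (t : ℤ) = i - ((t + 1 : ℕ) : ℤ) := by push_cast; ring
    have e2 : i - 1 - (t : ℤ) + 1 = i - t := by ring
    rw [e2, e1]
  refine hzl2 (Rig.x_core (hpair n k (k + L) hkL hn2) (hmon n k hn3) (hmon n (k + L) hn2)
    (fun h => hxm n k (k + L) h hkL hn2) (Ki := X.ki ω k (k + L)) (fun x u => hkl n k (k + L) x u hkL hn2)
    (bφ := X.S.φ ω (k + L)) (wb := X.S.v ω k (k + L)) (i := i) (y := y) (η := η) (η' := η') hη0
    hA2'.gap (fun t ht => ⟨hkf k (k + L) _ hkL, hA2'.ker t ht n hnM⟩) (fun t ht => ?_)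
    (W := (M : ℤ)) hA2'.win (R₀ := -σ * n - R) (R := -σ * n + R) (Λ := ((2 * R : ℕ) : ℤ))
    (cu := X.cu r ω (k + L))
    (fun j hj => hD1 j hj.le) (fun N hN => ?_) hη'0.le (by exact_mod_cast hη1) hη2 (hs := h) hh1 hzl1
    (A := X.al ω k (i - y) - X.al ω k i) hc hh2 ?_ ?_ (by push_cast; linarith) hG4')
  · -- coalescence
    have h1 : X.S.v ω k (k + L) (i - y) ≤ X.S.v ω k (k + L) (i - t) :=
      hA2'.reg.1 k (k + L) hkL (by omega)
    have h2 : X.S.v ω k (k + L) (i - t) ≤ X.S.v ω k (k + L) i :=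
      hA2'.reg.1 k (k + L) hkL (by omega)
    rw [hA2'.coal] at h1
    exact le_antisymm h2 h1
  · -- maximal inequality
    have h1 : ¬ (ENNReal.ofReal η' * N < ∑ t ∈ Finset.range N,
        ENNReal.ofReal (X.S.φ ω (k + L) ((M : ℤ) - 1 - t) -
          X.S.φ ω (k + L) ((M : ℤ) - 1 - t + 1) - X.cu r ω (k + L) ((M : ℤ) - 1 - t))) :=
      fun h2 => hG1' ⟨N, hN, h2⟩
    rw [not_lt] at h1
    have h2 : ∑ t ∈ Finset.range N, ENNReal.ofReal (X.S.φ ω (k + L) ((M : ℤ) - 1 - t) -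
          X.S.φ ω (k + L) ((M : ℤ) - 1 - t + 1) - X.cu r ω (k + L) ((M : ℤ) - 1 - t)) =
        ENNReal.ofReal (∑ t ∈ Finset.range N, max 0 (X.S.φ ω (k + L) ((M : ℤ) - 1 - t) -
          X.S.φ ω (k + L) ((M : ℤ) - 1 - t + 1) - X.cu r ω (k + L) ((M : ℤ) - 1 - t))) := by
      rw [ENNReal.ofReal_sum_of_nonneg fun t _ => le_max_left _ _]
      refine Finset.sum_congr rfl fun t _ => ?_
      rcases le_total (X.S.φ ω (k + L) ((M : ℤ) - 1 - t) -
          X.S.φ ω (k + L) ((M : ℤ) - 1 - t + 1) - X.cu r ω (k + L) ((M : ℤ) - 1 - t)) 0 with h3 | h3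
      · rw [max_eq_left h3, ENNReal.ofReal_zero, ENNReal.ofReal_of_nonpos h3]
      · rw [max_eq_right h3]
    rw [h2, ← ENNReal.ofReal_natCast, ← ENNReal.ofReal_mul hη'0.le,
      ENNReal.ofReal_le_ofReal_iff (by positivity)] at h1
    exact h1
  · -- the upper target
    have h1 : ¬ (c / 4 < ∑ t ∈ Finset.range y, (X.S.φ ω k (i - 1 - t) -
        X.S.φ ω k (i - 1 - t + 1) - X.cu r ω k (i - 1 - t))) := hG2'
    rw [not_lt, Finset.sum_sub_distrib, htele (X.S.φ ω k)] at h1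
    have h2 : ∑ t ∈ Finset.range y, X.cu r ω k (i - 1 - t) ≤
        X.Z.ph ω n (-σ * n + R) k (i - y) - X.Z.ph ω n (-σ * n + R) k i := by
      rw [← htele (X.Z.ph ω n (-σ * n + R) k)]
      exact Finset.sum_le_sum fun t _ => hD2 _ (by omega)
    have h3 := hA2'.exc
    linarith
  · -- the lower target
    have h1 : ¬ (c / 4 < ∑ t ∈ Finset.range y, (X.cl r ω k (i - 1 - t) -
        (X.al ω k (i - 1 - t) - X.al ω k (i - 1 - t + 1)))) := hG3'
    rw [not_lt, Finset.sum_sub_distrib, htele (X.al ω k)] at h1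
    have h2 : X.Z.ph ω n (-σ * n - R) k (i - y) - X.Z.ph ω n (-σ * n - R) k i ≤
        ∑ t ∈ Finset.range y, X.cl r ω k (i - 1 - t) := by
      rw [← htele (X.Z.ph ω n (-σ * n - R) k)]
      refine Finset.sum_le_sum fun t ht => hD3 _ ?_
      rw [Finset.mem_range] at ht
      have h3 := neg_abs_le i
      have h4 := le_abs_self i
      rw [abs_le]
      constructor <;> omega
    linarith

/-- **Theorem X.** -/
theorem main (hσ : σ = 0 ∨ σ = 1) (X : XSys σ K F) (hg : ∀ᵐ ω ∂(iid Ed F), Good σ (wt ω) K)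
    (hF : ∀ a, F {a} = 0) (hF0 : F (Iio 0) = 0) :
    ∀ᵐ ω ∂(iid Ed F), ∀ (k i : ℤ) (y m : ℕ) (c : ℝ), 0 < m → 0 < c → ¬ X.Bad k i y m c ω := by
  have h1 : ∀ᵐ ω ∂(iid Ed F), ∀ (k i : ℤ) (y L : ℕ) (c : ℚ) (M : ℕ), 0 < L → 0 < c →
      ¬ X.A2 k i y L c M ω := by
    rw [ae_all_iff]; intro k
    rw [ae_all_iff]; intro i
    rw [ae_all_iff]; intro y
    rw [ae_all_iff]; intro L
    rw [ae_all_iff]; intro c
    rw [ae_all_iff]; intro M
    by_cases h : 0 < L ∧ 0 < c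
    · have h2 := X.A2_null hσ k i y L h.1 (c := c) (by exact_mod_cast h.2) M
      have h3 : ∀ᵐ ω ∂(iid Ed F), ¬ X.A2 k i y L c M ω := by
        rw [ae_iff]
        simpa using h2
      filter_upwards [h3] with ω h4 _ _
      exact h4
    · exact ae_of_all _ fun ω a b => absurd ⟨a, b⟩ h
  filter_upwards [h1, X.S.ae_reg, X.S.ae_coal hσ hg hF hF0, X.ki_ev, X.gap]
    with ω h2 h3 h4 h5 h6 k i y m c hm hc hbad
  obtain ⟨q, hq1, hq2⟩ := exists_rat_btwn hc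
  have hbad' : X.Bad k i y m q ω := by
    obtain ⟨z, hz1, hz2, hz3, hz4⟩ := hbad
    refine ⟨z, hz1, fun l hl => ?_, by linarith, hz4⟩
    obtain ⟨n0, hn0⟩ := hz2 l hl
    refine ⟨n0, fun n hn => ?_⟩
    obtain ⟨h, hh1, hh2⟩ := hn0 n hn
    exact ⟨h, hh1, by linarith⟩
  obtain ⟨L, M, hL, hA2⟩ := exists_A2 hm h3 (h4 k (i - y) i) h5 h6 hbad'
  exact h2 k i y L q M hL (by exact_mod_cast hq1) hA2

end XSys

end C7
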