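import Mathlib
import Pool.Agent.Lib.MP_c725eb_pr.X

/-!
# Paths of a class between `a` and `b`

`PD X ω z κ`: the indices `z k` of a path at the lines and the potentials `κ k` of its class.
`PD.follow`: an excess over the class `a` at the line `k` forces the path to follow the class `b`
to the right of the line `k`.  `no_path`: if the class of the path is between `a` and `b`, then the
path does not exist.
-/

set_option autoImplicit false

namespace C7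

open MeasureTheory Filter Set
open scoped ENNReal NNReal Topology

variable {σ : ℤ} {K : ℝ≥0∞} {F : Measure ℝ}

/-- Path data for a configuration. -/
structure PD (X : XSys σ K F) (ω : Om) (z : ℤ → ℤ) (κ : ℤ → ℤ → ℝ) : Prop where
  fin : ∀ k l, k < l → X.ki ω k l (z k) (z l) ≠ ⊤
  arg : ∀ k l, k < l → ∀ u, X.ki ω k l (z k) u ≠ ⊤ →
    (X.ki ω k l (z k) (z l)).toReal + κ l (z l) ≤ (X.ki ω k l (z k) u).toReal + κ l u
  via : ∀ k m l, k < m → m < l → z l = X.S.v ω k l (z k) → z m = X.S.v ω k m (z k)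
  strip : ∀ k l, k < l → ∃ n0 : ℤ, ∀ n ≥ n0, ∀ x : ℤ, ∀ ε : ℝ, 0 < ε → ∃ h,
    X.Z.v ω n k l h (z k) = z l ∧
      κ k x - κ k (z k) - ε ≤ X.Z.ph ω n h k x - X.Z.ph ω n h k (z k)
  le_b : ∀ k i, κ k i - κ k (i + 1) ≤ X.S.φ ω k i - X.S.φ ω k (i + 1)

/-- Summation of inequalities between increments. -/
theorem incr_le {f g : ℤ → ℝ} (h : ∀ i, f i - f (i + 1) ≤ g i - g (i + 1)) {x y : ℤ} (hxy : x ≤ y) :
    f x - f y ≤ g x - g y := by
  obtain ⟨n, hn⟩ : ∃ n : ℕ, y = x + n := ⟨(y - x).toNat, by omega⟩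
  subst hn
  clear hxy
  induction n with
  | zero => simp
  | succ n ih =>
    have := h (x + n)
    push_cast
    rw [← add_assoc]
    linarith

/-- Uniqueness of the minimiser of a flow. -/
def UniqArg (ki : Om → ℤ → ℤ → ℤ → ℤ → ℝ≥0∞) (S : FlowSys σ K F) (ω : Om) : Prop :=
  ∀ k l x, k ≤ l → ki ω k l x (S.v ω k l x) ≠ ⊤ ∧ ∀ u ≠ S.v ω k l x, ki ω k l x u ≠ ⊤ →
    (ki ω k l x (S.v ω k l x)).toReal + S.φ ω l (S.v ω k l x) < (ki ω k l x u).toReal + S.φ ω l u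

theorem XSys.ae_uniqArg (X : XSys σ K F) : ∀ᵐ ω ∂(iid Ed F), UniqArg X.ki X.S ω := by
  filter_upwards [X.ki_fin, X.gap] with ω h1 h2 k l x hkl
  refine ⟨h1 k l x hkl, fun u hu hfin => ?_⟩
  obtain ⟨η, hη, h3⟩ := h2 k l x hkl
  have h4 := h3 u hu hfin
  have h5 : 0 < η * (1 + |((u - X.S.v ω k l x : ℤ) : ℝ)|) := by positivity
  linarith

/-- The path is to the left of the flow of `b`. -/
theorem PD.le_v {X : XSys σ K F} {ω : Om} {z : ℤ → ℤ} {κ : ℤ → ℤ → ℝ} (h : PD X ω z κ)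
    (hu : UniqArg X.ki X.S ω) {k l : ℤ} (hkl : k < l) : z l ≤ X.S.v ω k l (z k) := by
  by_contra hlt
  push Not at hlt
  obtain ⟨h1, h2⟩ := hu k l (z k) hkl.le
  have h3 := h2 (z l) hlt.ne' (h.fin k l hkl)
  have h4 := h.arg k l hkl _ h1
  have h5 := incr_le (f := κ l) (g := X.S.φ ω l) (h.le_b l) hlt.le
  linarith

/-- The path is to the right of the flow of a class `a` which is below its class. -/
theorem PD.v_le {X : XSys σ K F} {ω : Om} {z : ℤ → ℤ} {κ : ℤ → ℤ → ℝ} (h : PD X ω z κ)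
    {Sa : FlowSys σ K F} (hu : UniqArg X.ki Sa ω)
    (hle : ∀ k i, Sa.φ ω k i - Sa.φ ω k (i + 1) ≤ κ k i - κ k (i + 1)) {k l : ℤ} (hkl : k < l) :
    Sa.v ω k l (z k) ≤ z l := by
  by_contra hlt
  push Not at hlt
  obtain ⟨h1, h2⟩ := hu k l (z k) hkl.le
  have h3 := h2 (z l) hlt.ne (h.fin k l hkl)
  have h4 := h.arg k l hkl _ h1
  have h5 := incr_le (f := Sa.φ ω l) (g := κ l) (hle l) hlt.le
  linarith

variable [IsProbabilityMeasure F]

/-- **Theorem X for paths.** -/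
theorem PD.follow (hσ : σ = 0 ∨ σ = 1) (X : XSys σ K F)
    (hg : ∀ᵐ ω ∂(iid Ed F), Good σ (wt ω) K) (hF : ∀ a, F {a} = 0) (hF0 : F (Iio 0) = 0) :
    ∀ᵐ ω ∂(iid Ed F), ∀ z κ, PD X ω z κ → ∀ k x, x < z k →
      X.al ω k x - X.al ω k (z k) < κ k x - κ k (z k) → ∀ l, k < l → z l = X.S.v ω k l (z k) := by
  filter_upwards [X.main hσ hg hF hF0, X.ae_uniqArg] with ω h1 h2 z κ h k x hx hlt l hl
  by_contra hne
  set c : ℝ := ((κ k x - κ k (z k)) - (X.al ω k x - X.al ω k (z k))) / 2 with hc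
  have hc0 : 0 < c := by rw [hc]; linarith
  refine h1 k (z k) (z k - x).toNat (l - k).toNat c (by omega) hc0 ⟨z, fun l' hl' => ?_,
    fun l' hl' => ?_, ?_, ?_⟩
  · refine ⟨h.le_v h2 hl', fun he m' hm1 hm2 => h.via k m' l' hm1 hm2 he⟩
  · obtain ⟨n0, hn0⟩ := h.strip k l' hl'
    refine ⟨n0, fun n hn => ?_⟩
    obtain ⟨h', hh1, hh2⟩ := hn0 n hn x c hc0
    refine ⟨h', hh1, ?_⟩
    have e : z k - ((z k - x).toNat : ℤ) = x := by omega
    rw [e]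
    rw [hc] at hh2 ⊢
    linarith
  · have e : z k - ((z k - x).toNat : ℤ) = x := by omega
    rw [e]
    have h3 := incr_le (f := κ k) (g := X.S.φ ω k) (h.le_b k) hx.le
    rw [hc] at hc0 ⊢
    linarith
  · have e : k + ((l - k).toNat : ℤ) = l := by omega
    rw [e]
    exact hne

/-- A path which follows `b` does not exist. -/
theorem no_flow_path (hσ : σ = 0 ∨ σ = 1) (S : FlowSys σ K F)
    (hg : ∀ᵐ ω ∂(iid Ed F), Good σ (wt ω) K) (hF : ∀ a, F {a} = 0) (hF0 : F (Iio 0) = 0) :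
    ∀ᵐ ω ∂(iid Ed F), ∀ (z : ℤ → ℤ) (k0 : ℤ), ¬ ∀ k l, k < l → l ≤ k0 → z l = S.v ω k l (z k) := by
  filter_upwards [S.ae_A4 hσ hg hF hF0, S.ae_reg] with ω h1 h2 z k0 h3
  obtain ⟨k, hk, h4⟩ := h1 k0 (z k0)
  rcases hk.eq_or_lt with he | hlt
  · subst he
    have h5 := h3 (k - 1) k (by omega) le_rfl
    refine h4 (S.v ω (k - 1) k (z (k - 1))) ?_
    rw [h2.2 (k - 1) k k (by omega) le_rfl, ← h5]
  · exact h4 (z k) (h3 k k0 hlt le_rfl).symm

/-- **There is no path whose class is between `a` and `b`.** -/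
theorem no_path (hσ : σ = 0 ∨ σ = 1) (X : XSys σ K F) (Sa : FlowSys σ K F)
    (hal : ∀ᵐ ω ∂(iid Ed F), ∀ k i j, X.al ω k i - X.al ω k j = Sa.φ ω k i - Sa.φ ω k j)
    (hua : ∀ᵐ ω ∂(iid Ed F), UniqArg X.ki Sa ω)
    (hg : ∀ᵐ ω ∂(iid Ed F), Good σ (wt ω) K) (hF : ∀ a, F {a} = 0) (hF0 : F (Iio 0) = 0) :
    ∀ᵐ ω ∂(iid Ed F), ∀ z κ, PD X ω z κ →
      ¬ ∀ k i, Sa.φ ω k i - Sa.φ ω k (i + 1) ≤ κ k i - κ k (i + 1) := by
  filter_upwards [PD.follow hσ X hg hF hF0, no_flow_path hσ X.S hg hF hF0, hua, hal,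
    Sa.ae_A4 hσ hg hF hF0, Sa.ae_reg] with ω h1 h2 h3 h4 h5 h5' z κ h hle
  refine h2 z 0 fun k l hkl _ => ?_
  -- the excess at the line `k`
  obtain ⟨m, hm, h6⟩ := h5 k (z k)
  have hmk : ∃ m, m < k ∧ Sa.v ω m k (z m) ≠ z k := by
    rcases hm.eq_or_lt with he | hlt
    · subst he
      refine ⟨m - 1, by omega, fun h7 => h6 (Sa.v ω (m - 1) m (z (m - 1))) ?_⟩
      rw [h5'.2 (m - 1) m m (by omega) le_rfl, h7]
    · exact ⟨m, hlt, h6 (z m)⟩
  obtain ⟨m, hm, h6⟩ := hmk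
  set u := Sa.v ω m k (z m) with hu
  have huz : u < z k := lt_of_le_of_ne (h.v_le h3 hle hm) h6
  obtain ⟨h7, h8⟩ := h3 m k (z m) hm.le
  have h9 := h8 (z k) (fun e => h6 e.symm) (h.fin m k hm)
  have h10 := h.arg m k hm u h7
  refine h1 z κ h k u huz ?_ l hkl
  rw [h4 k u (z k)]
  linarith

end C7
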