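import Pool.Agent.Lib.MP_c725eb_pr.MonoPlanar
import Pool.Agent.Lib.MP_c725eb_pr.Dom

/-!
# Monotonicity of the last entrance
-/

set_option autoImplicit false

namespace C7

open scoped ENNReal

/-- Uniqueness of geodesics, in all domains. -/
def UniqGeo (w : W) : Prop := ∀ (D : Set V) (x y : V) (l l' : List V), IsW D x y l → IsW D x y l' →
  cost w l = T w D x y → cost w l' = T w D x y → T w D x y ≠ ⊤ → l = l'

/-- Existence of geodesics, in all domains. -/
def ExGeo (w : W) : Prop := ∀ (D : Set V) (x y : V), T w D x y ≠ ⊤ → ∃ l, IsW D x y l ∧ cost w l = T w D x y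

/-- Head: an optimal walk for the kernel; `A` does not contain the entrance `y`. -/
def Hd (w : W) (D R : Set V) (x y : V) (A : List V) : Prop :=
  IsW D x y (A ++ [y]) ∧ (∀ q, A.getLast? = some q → q ∉ R) ∧ cost w (A ++ [y]) = Kn w D R x y ∧
    Kn w D R x y ≠ ⊤

/-- Coordinates (column, minus index). -/
def gm (σ : ℤ) (v : V) : V := (v.1, -ix σ v)

theorem gm_inj {σ : ℤ} {u v : V} (h : gm σ u = gm σ v) : u = v := by
  unfold gm ix at h
  simp only [Prod.mk.injEq] at h
  obtain ⟨h1, h2⟩ := h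
  apply Prod.ext h1
  rw [h1] at h2
  linarith

theorem adj_gm {σ : ℤ} (hσ : σ = 0 ∨ σ = 1) {u v : V} (h : Nb u v) : Adj (gm σ u) (gm σ v) := by
  obtain ⟨a, b⟩ := u
  obtain ⟨c, d⟩ := v
  unfold Nb at h
  unfold gm ix Adj
  simp only [Prod.mk.injEq] at *
  rcases hσ with rfl | rfl
  · omega
  · omega

theorem chain_gm {σ : ℤ} (hσ : σ = 0 ∨ σ = 1) {w : W} (hw : ∀ v, w v 2 = ⊤) {l : List V} (hc : cost w l ≠ ⊤) :
    List.IsChain Adj (l.map (gm σ)) := by
  induction l with
  | nil => simp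
  | cons a l ih =>
    cases l with
    | nil => simp
    | cons b l' =>
      rw [cost_cons_cons] at hc
      rw [List.map_cons, List.map_cons, List.isChain_cons_cons]
      refine ⟨adj_gm hσ (nb_of_step_ne_top hw (w := w) fun h' => hc (by rw [h', top_add])), ?_⟩
      exact ih fun h' => hc (by rw [h', add_top])

section mono

variable {σ : ℤ} {w : W} {c c' : ℤ → ℤ} {D D' E : Set V}

/-- MONOTONICITY for given walks. -/
theorem mono_walk (hσ : σ = 0 ∨ σ = 1) (hw : ∀ v, w v 2 = ⊤) (hc' : Stp σ c') (hcc : ∀ i, c i ≤ c' i)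
    {x x' u u' : ℤ} (hx : x < x') {t : V} {A B A' B' : List V}
    (hγ : IsW (reg σ c) (pt σ c x) t (A ++ B)) (hcγ : cost w (A ++ B) ≠ ⊤)
    (hγ' : IsW (reg σ c) (pt σ c x') t (A' ++ B')) (hcγ' : cost w (A' ++ B') ≠ ⊤)
    (hB : IsW (reg σ c') (pt σ c' u) t B) (hB' : IsW (reg σ c') (pt σ c' u') t B')
    (hA : ∀ q, A.getLast? = some q → q ∉ reg σ c') (hA' : ∀ q, A'.getLast? = some q → q ∉ reg σ c')
    (d1 : ∀ v ∈ A', v ∉ A ∧ v ∉ B) (d2 : ∀ v ∈ B', v ∉ A)
    (r1 : ∀ v ∈ A, ix σ v = ix σ t → v.1 ≤ t.1) (r2 : ∀ v ∈ A', ix σ v = ix σ t → v.1 ≤ t.1) : u ≤ u' := by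
  by_contra hlt
  push Not at hlt
  have htB' : t ∈ B' := by obtain ⟨a, rfl⟩ := hB'.eq_concat; simp
  have htreg : t ∈ reg σ c := reg_mono hcc (hB.right_mem)
  -- membership in the region
  have mA : ∀ v ∈ A, c (ix σ v) ≤ v.1 := fun v hv => hγ.2.2 v (by simp [hv])
  have mA' : ∀ v ∈ A', c (ix σ v) ≤ v.1 := fun v hv => hγ'.2.2 v (by simp [hv])
  have mB : ∀ v ∈ B, c (ix σ v) ≤ v.1 := fun v hv => reg_mono hcc (hB.2.2 v hv)
  have mB' : ∀ v ∈ B', c (ix σ v) ≤ v.1 := fun v hv => reg_mono hcc (hB'.2.2 v hv)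
  have mt : c (ix σ t) ≤ t.1 := htreg
  -- heads of the lists
  have hBh : (B.map (gm σ)).head? = some (gm σ (pt σ c' u)) := by rw [List.head?_map, hB.1]; rfl
  have hBl : (B.map (gm σ)).getLast? = some (gm σ t) := by rw [List.getLast?_map, hB.2.1]; rfl
  have hBh' : (B'.map (gm σ)).head? = some (gm σ (pt σ c' u')) := by rw [List.head?_map, hB'.1]; rfl
  have hBl' : (B'.map (gm σ)).getLast? = some (gm σ t) := by rw [List.getLast?_map, hB'.2.1]; rfl
  -- last elements of the extended heads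
  have lastA : ∀ (A : List V) (x : ℤ), (∀ q, A.getLast? = some q → q ∉ reg σ c') →
      ∃ Q : V, (((c x - 1, -x) : V) :: A.map (gm σ)).getLast? = some Q ∧ Q.1 < c' (-Q.2) := by
    intro A x hA
    rcases A.eq_nil_or_concat with rfl | ⟨A₀, q, rfl⟩
    · refine ⟨(c x - 1, -x), rfl, ?_⟩
      simp only [neg_neg]
      have := hcc x
      omega
    · refine ⟨gm σ q, ?_, ?_⟩
      · have e : (((c x - 1, -x) : V) :: (A₀.concat q).map (gm σ)) =
            (((c x - 1, -x) : V) :: A₀.map (gm σ)) ++ [gm σ q] := by simp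
        rw [e, List.getLast?_append_of_ne_nil _ (by simp)]
        rfl
      have := hA q (by simp)
      unfold gm
      simp only [neg_neg]
      exact not_le.1 this
  obtain ⟨Q, hQ, hQ1⟩ := lastA A x hA
  obtain ⟨Q', hQ', hQ1'⟩ := lastA A' x' hA'
  have chain : ∀ (l : List V) (x : ℤ), l.head? = some (pt σ c x) → cost w l ≠ ⊤ →
      List.IsChain Adj (((c x - 1, -x) : V) :: l.map (gm σ)) := by
    intro l x hl hc
    cases l with
    | nil => simp at hl
    | cons a l' =>
      simp at hl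
      subst hl
      rw [List.map_cons, List.isChain_cons_cons]
      refine ⟨?_, ?_⟩
      · left
        unfold gm
        rw [ix_pt]
        ext
        · change c x = c x - 1 + 1; ring
        · rfl
      · have := chain_gm hσ hw hc
        rwa [List.map_cons] at this
  refine mono_planar (f := fun r => c' (-r)) ?_ (α := ((c x - 1, -x) : V) :: A.map (gm σ)) (B := B.map (gm σ))
    (α' := ((c x' - 1, -x') : V) :: A'.map (gm σ)) (B' := B'.map (gm σ)) ?_ ?_ rfl hQ hBh hBl rfl hQ' hBh' hBl'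
    ?_ ?_ ?_ ?_ ?_ hQ1 hQ1' ?_ ?_ ?_ ?_ ?_ ?_ ?_
  · intro r
    have := (hc' (-(r + 1))).1
    rw [show -(r + 1) + 1 = -r by ring] at this
    change c' (-(r + 1)) - c' (-r) ≤ 1
    omega
  · have := chain (A ++ B) x hγ.1 hcγ
    rwa [List.map_append] at this
  · have := chain (A' ++ B') x' hγ'.1 hcγ'
    rwa [List.map_append] at this
  · simp only; omega
  · unfold gm
    rw [ix_pt, ix_pt]
    simp only; omega
  · unfold gm
    rw [ix_pt]
    simp only [neg_neg]
    rfl
  · intro p hp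
    obtain ⟨v, hv, rfl⟩ := List.mem_map.1 hp
    unfold gm
    simp only [neg_neg]
    exact hB.2.2 v hv
  · intro p hp
    obtain ⟨v, hv, rfl⟩ := List.mem_map.1 hp
    unfold gm
    simp only [neg_neg]
    exact hB'.2.2 v hv
  · -- d1
    intro p hp
    rcases List.mem_cons.1 hp with rfl | hp
    · constructor
      · intro h
        rcases List.mem_cons.1 h with h | h
        · simp only [Prod.mk.injEq] at h; omega
        · obtain ⟨v, hv, h⟩ := List.mem_map.1 h
          unfold gm at h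
          simp only [Prod.mk.injEq] at h
          have := mA v hv
          have e : ix σ v = x' := by omega
          rw [e] at this
          omega
      · intro h
        obtain ⟨v, hv, h⟩ := List.mem_map.1 h
        unfold gm at h
        simp only [Prod.mk.injEq] at h
        have := mB v hv
        have e : ix σ v = x' := by omega
        rw [e] at this
        omega
    · obtain ⟨v, hv, rfl⟩ := List.mem_map.1 hp
      constructor
      · intro h
        rcases List.mem_cons.1 h with h | h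
        · unfold gm at h
          simp only [Prod.mk.injEq] at h
          have := mA' v hv
          have e : ix σ v = x := by omega
          rw [e] at this
          omega
        · obtain ⟨v', hv', h⟩ := List.mem_map.1 h
          rw [gm_inj h] at hv'
          exact (d1 v hv).1 hv'
      · intro h
        obtain ⟨v', hv', h⟩ := List.mem_map.1 h
        rw [gm_inj h] at hv'
        exact (d1 v hv).2 hv'
  · -- d2
    intro p hp
    obtain ⟨v, hv, rfl⟩ := List.mem_map.1 hp
    intro h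
    rcases List.mem_cons.1 h with h | h
    · unfold gm at h
      simp only [Prod.mk.injEq] at h
      have := mB' v hv
      have e : ix σ v = x := by omega
      rw [e] at this
      omega
    · obtain ⟨v', hv', h⟩ := List.mem_map.1 h
      rw [gm_inj h] at hv'
      exact d2 v hv hv'
  · intro p hp
    rcases List.mem_cons.1 hp with rfl | hp
    · simp only; omega
    · obtain ⟨v, hv, rfl⟩ := List.mem_map.1 hp
      unfold gm
      simp only
      rintro ⟨h1, h2⟩
      have := mA' v hv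
      have e : ix σ v = x := by omega
      rw [e] at this
      omega
  · intro p hp
    obtain ⟨v, hv, rfl⟩ := List.mem_map.1 hp
    unfold gm
    simp only
    rintro ⟨h1, h2⟩
    have := mB' v hv
    have e : ix σ v = x := by omega
    rw [e] at this
    omega
  · intro p hp
    rw [List.mem_append] at hp
    rcases hp with hp | hp
    · rcases List.mem_cons.1 hp with rfl | hp
      · simp only; omega
      · obtain ⟨v, hv, rfl⟩ := List.mem_map.1 hp
        unfold gm
        simp only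
        rintro ⟨h1, h2⟩
        have := mA v hv
        have e : ix σ v = x' := by omega
        rw [e] at this
        omega
    · obtain ⟨v, hv, rfl⟩ := List.mem_map.1 hp
      unfold gm
      simp only
      rintro ⟨h1, h2⟩
      have := mB v hv
      have e : ix σ v = x' := by omega
      rw [e] at this
      omega
  · intro p hp
    rcases List.mem_cons.1 hp with rfl | hp
    · unfold gm
      simp only
      rintro ⟨h1, h2⟩
      have e : ix σ t = x := by omega
      rw [e] at mt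
      omega
    · obtain ⟨v, hv, rfl⟩ := List.mem_map.1 hp
      unfold gm
      simp only
      rintro ⟨h1, h2⟩
      have e : ix σ v = ix σ t := by omega
      have h3 := r1 v hv e
      have h4 : v.1 = t.1 := le_antisymm h3 h2
      have h5 : v = t := gm_inj (σ := σ) (by unfold gm; rw [h4, e])
      rw [h5] at hv
      exact d2 t htB' hv
  · intro p hp
    rcases List.mem_cons.1 hp with rfl | hp
    · unfold gm
      simp only
      rintro ⟨h1, h2⟩
      have e : ix σ t = x' := by omega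
      rw [e] at mt
      omega
    · obtain ⟨v, hv, rfl⟩ := List.mem_map.1 hp
      unfold gm
      simp only
      rintro ⟨h1, h2⟩
      have e : ix σ v = ix σ t := by omega
      have h3 := r2 v hv e
      omega

/-- Suffixes of geodesics are geodesics. -/
theorem geo_suffix {x t a : V} {l₁ l₂ : List V} (h : IsW D x t (l₁ ++ a :: l₂))
    (hc : cost w (l₁ ++ a :: l₂) = T w D x t) (hT : T w D x t ≠ ⊤) :
    cost w (a :: l₂) = T w D a t ∧ T w D a t ≠ ⊤ := by
  have h1 : T w D x t ≤ cost w (l₁ ++ [a]) + T w D a t :=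
    (T_triangle w D x a t).trans (add_le_add (T_le h.pre) le_rfl)
  have h2 : T w D a t ≤ cost w (a :: l₂) := T_le h.suffix
  rw [← hc, cost_append] at h1
  rw [← hc, cost_append] at hT
  have h3 := ENNReal.add_ne_top.1 hT
  have h4 := (ENNReal.add_le_add_iff_left h3.1).1 h1
  have h5 := le_antisymm h4 h2
  exact ⟨h5, h5 ▸ h3.2⟩

/-- The decomposition at the last vertex outside a set is unique. -/
theorem tail_unique {R : Set V} {l₁ l₂ B B' : List V} (h : l₁ ++ B = l₂ ++ B') (hB : ∀ v ∈ B, v ∈ R)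
    (hB' : ∀ v ∈ B', v ∈ R) (h1 : ∀ q, l₁.getLast? = some q → q ∉ R) (h2 : ∀ q, l₂.getLast? = some q → q ∉ R) :
    l₁ = l₂ ∧ B = B' := by
  rcases List.append_eq_append_iff.1 h with ⟨a, rfl, rfl⟩ | ⟨a, rfl, rfl⟩
  · rcases a.eq_nil_or_concat with rfl | ⟨a₀, q, rfl⟩
    · simp
    · exfalso
      apply h2 q
      · rw [List.concat_eq_append, ← List.append_assoc, List.getLast?_append_of_ne_nil _ (by simp)]
        rfl
      · exact hB q (by simp)
  · rcases a.eq_nil_or_concat with rfl | ⟨a₀, q, rfl⟩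
    · simp
    · exfalso
      apply h1 q
      · rw [List.concat_eq_append, ← List.append_assoc, List.getLast?_append_of_ne_nil _ (by simp)]
        rfl
      · exact hB' q (by simp)

theorem getLast?_append_cons {l₁ l₂ : List V} {a q : V} (h : (l₁ ++ a :: l₂).getLast? = some q) :
    (a :: l₂).getLast? = some q := by
  rwa [List.getLast?_append_of_ne_nil _ (by simp)] at h

/-- If two geodesics with the same target meet in the head of one of them, then the tails are equal. -/
theorem tails_eq (hU : UniqGeo w) {R : Set V} {x x' t a : V} {A B A' B' : List V}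
    (hγ : IsW D x t (A ++ B)) (hcγ : cost w (A ++ B) = T w D x t) (hT : T w D x t ≠ ⊤)
    (hγ' : IsW D x' t (A' ++ B')) (hcγ' : cost w (A' ++ B') = T w D x' t) (hT' : T w D x' t ≠ ⊤)
    (hB : ∀ v ∈ B, v ∈ R) (hB' : ∀ v ∈ B', v ∈ R) (hA : ∀ q, A.getLast? = some q → q ∉ R)
    (hA' : ∀ q, A'.getLast? = some q → q ∉ R) (ha : a ∈ A') (ha' : a ∈ A ++ B) : B = B' := by
  obtain ⟨S₁, S₂, rfl⟩ := List.append_of_mem ha
  obtain ⟨l₁, l₂, hl⟩ := List.append_of_mem ha'
  have e1 : (S₁ ++ a :: S₂) ++ B' = S₁ ++ a :: (S₂ ++ B') := by simp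
  rw [e1] at hγ' hcγ'
  have h1 := geo_suffix hγ' hcγ' hT'
  rw [hl] at hγ hcγ
  have h2 := geo_suffix hγ hcγ hT
  have h3 := hU D a t _ _ hγ'.suffix hγ.suffix h1.1 h2.1 h1.2
  have e2 : A ++ B = (l₁ ++ a :: S₂) ++ B' := by
    rw [hl, ← h3]; simp
  refine (tail_unique e2 hB hB' hA ?_).2
  intro q hq
  apply hA'
  have h4 := getLast?_append_cons hq
  rw [List.getLast?_append_of_ne_nil _ (by simp)]
  exact h4

/-- MONOTONICITY for geodesics. -/
theorem mono_geo (hσ : σ = 0 ∨ σ = 1) (hw : ∀ v, w v 2 = ⊤) (hU : UniqGeo w) (hc' : Stp σ c')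
    (hcc : ∀ i, c i ≤ c' i) {x x' u u' : ℤ} (hx : x < x') {t : V} {A B A' B' : List V}
    (hγ : IsW (reg σ c ∩ E) (pt σ c x) t (A ++ B)) (hcγ : cost w (A ++ B) = TI w σ E c x t)
    (hT : TI w σ E c x t ≠ ⊤)
    (hγ' : IsW (reg σ c ∩ E) (pt σ c x') t (A' ++ B')) (hcγ' : cost w (A' ++ B') = TI w σ E c x' t)
    (hT' : TI w σ E c x' t ≠ ⊤)
    (hB : IsW (reg σ c' ∩ E) (pt σ c' u) t B) (hB' : IsW (reg σ c' ∩ E) (pt σ c' u') t B')
    (hA : ∀ q, A.getLast? = some q → q ∉ reg σ c') (hA' : ∀ q, A'.getLast? = some q → q ∉ reg σ c')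
    (r1 : ∀ v ∈ A, ix σ v = ix σ t → v.1 ≤ t.1) (r2 : ∀ v ∈ A', ix σ v = ix σ t → v.1 ≤ t.1) : u ≤ u' := by
  have hsame : B = B' → u ≤ u' := by
    rintro rfl
    have h1 := hB.1
    rw [hB'.1] at h1
    simp at h1
    exact (pt_inj h1).ge
  by_cases h1 : ∃ a ∈ A', a ∈ A ++ B
  · obtain ⟨a, ha, ha'⟩ := h1
    exact hsame (tails_eq hU (R := reg σ c') hγ hcγ hT hγ' hcγ' hT' (fun v hv => (hB.2.2 v hv).1)
      (fun v hv => (hB'.2.2 v hv).1) hA hA' ha ha')
  by_cases h2 : ∃ a ∈ A, a ∈ A' ++ B'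
  · obtain ⟨a, ha, ha'⟩ := h2
    exact hsame (tails_eq hU (R := reg σ c') hγ' hcγ' hT' hγ hcγ hT (fun v hv => (hB'.2.2 v hv).1)
      (fun v hv => (hB.2.2 v hv).1) hA' hA ha ha').symm
  push Not at h1 h2
  refine mono_walk hσ hw hc' hcc hx (hγ.mono Set.inter_subset_left) (by rw [hcγ]; exact hT)
    (hγ'.mono Set.inter_subset_left) (by rw [hcγ']; exact hT') (hB.mono Set.inter_subset_left)
    (hB'.mono Set.inter_subset_left) hA hA' ?_ ?_ r1 r2
  · intro v hv
    have := h1 v hv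
    rw [List.mem_append] at this
    tauto
  · intro v hv hv'
    have := h2 v hv'
    rw [List.mem_append] at this
    tauto

/-! ### argmins -/

/-- `u` is a last entrance index: argmin of `K(x, ·) + T(·, t)`. -/
def AM (w : W) (σ : ℤ) (E : Set V) (c c' : ℤ → ℤ) (t : V) (x u : ℤ) : Prop :=
  TI w σ E c x t = KI w σ E c c' x u + TI w σ E c' u t ∧ TI w σ E c x t ≠ ⊤

variable {t : V} {x u : ℤ}

theorem AM.fin (h : AM w σ E c c' t x u) : KI w σ E c c' x u ≠ ⊤ ∧ TI w σ E c' u t ≠ ⊤ :=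
  ENNReal.add_ne_top.1 (h.1 ▸ h.2)

theorem AM.mem {x u : ℤ} (h : AM w σ E c c' t x u) : pt σ c x ∈ E ∧ pt σ c' u ∈ E ∧ t ∈ reg σ c' ∩ E := by
  refine ⟨?_, ?_, ?_⟩
  · by_contra h'
    exact h.2 (T_eq_top_of_left fun h'' => h' h''.2)
  · by_contra h'
    exact h.fin.2 (T_eq_top_of_left fun h'' => h' h''.2)
  · by_contra h'
    exact h.fin.2 (T_eq_top_of_right h')

/-- Heads exist. -/
theorem exists_head (hE : ExGeo w) {R : Set V} {x y : V} (hx : x ∈ D) (hy : y ∈ D) (hK : Kn w D R x y ≠ ⊤) :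
    ∃ A, Hd w D R x y A := by
  by_cases hxy : x = y
  · subst hxy
    refine ⟨[], isW_single hx, by simp, ?_, hK⟩
    rw [Kn_self]
    simp
  · -- the minimum over the neighbours
    classical
    set f : V → ℝ≥0∞ := fun p => if p ∈ D \ R then T w D x p + step w p y else ⊤ with hf
    have hKf : Kn w D R x y = ⨅ p, f p := by
      unfold Kn
      rw [if_neg hxy, min_eq_right le_top]
      congr 1
      funext p
      rw [hf]
      by_cases hp : p ∈ D \ R
      · simp [hp]
      · simp [hp]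
    set N : Finset V := {(y.1 + 1, y.2), (y.1 - 1, y.2), (y.1, y.2 + 1), (y.1, y.2 - 1), (y.1 + 1, y.2 + 1),
      (y.1 - 1, y.2 - 1)} with hN
    obtain ⟨p₀, hp₀, hmin⟩ := N.exists_min_image f ⟨_, by rw [hN]; exact Finset.mem_insert_self _ _⟩
    have hall : ∀ p, f p₀ ≤ f p := by
      intro p
      by_cases hp : p ∈ N
      · exact hmin p hp
      · rw [hf]
        simp only
        by_cases hpD : p ∈ D \ R
        · rw [if_pos hpD]
          have : step w p y = ⊤ := by
            by_contra hne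
            have hadj := adj_of_step_ne_top hne
            apply hp
            rw [hN]
            obtain ⟨p1, p2⟩ := p
            obtain ⟨y1, y2⟩ := y
            unfold Adj at hadj
            simp only [Prod.mk.injEq] at hadj
            simp only [Finset.mem_insert, Finset.mem_singleton, Prod.mk.injEq]
            omega
          rw [this, add_top]
          exact le_top
        · rw [if_neg hpD]
          exact le_top
    have he : Kn w D R x y = f p₀ := by
      rw [hKf]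
      exact le_antisymm (iInf_le _ _) (le_iInf hall)
    have hp₀D : p₀ ∈ D \ R := by
      by_contra hne
      apply hK
      rw [he, hf]
      simp only
      rw [if_neg hne]
    have hfp : f p₀ = T w D x p₀ + step w p₀ y := by
      rw [hf]
      simp only
      rw [if_pos hp₀D]
    have hfin : T w D x p₀ ≠ ⊤ := by
      intro h
      apply hK
      rw [he, hfp, h, top_add]
    obtain ⟨l, hl, hcl⟩ := hE D x p₀ hfin
    obtain ⟨l₀, rfl⟩ := hl.eq_concat
    refine ⟨l₀ ++ [p₀], ⟨?_, by simp, ?_⟩, ?_, ?_, hK⟩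
    · have := hl.1
      cases l₀ with
      | nil => simpa using this
      | cons a l' => simpa using this
    · intro v hv
      rw [List.mem_append] at hv
      rcases hv with hv | hv
      · exact hl.2.2 v hv
      · simp at hv; rw [hv]; exact hy
    · intro q hq
      simp at hq
      rw [← hq]
      exact hp₀D.2
    · rw [he, hfp, ← hcl]
      rw [show (l₀ ++ [p₀]) ++ [y] = l₀ ++ p₀ :: [y] by simp, cost_append]
      simp

/-- Geodesics through a last entrance with a given head. -/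
theorem AM.walk (hE : ExGeo w) (hcc : ∀ i, c i ≤ c' i) {x u : ℤ} (h : AM w σ E c c' t x u) {A : List V}
    (hA : Hd w (reg σ c ∩ E) (reg σ c' ∩ E) (pt σ c x) (pt σ c' u) A) :
    ∃ B, IsW (reg σ c' ∩ E) (pt σ c' u) t B ∧ IsW (reg σ c ∩ E) (pt σ c x) t (A ++ B) ∧
      cost w (A ++ B) = TI w σ E c x t ∧ ∀ q, A.getLast? = some q → q ∉ reg σ c' := by
  obtain ⟨B, hB, hcB⟩ := hE _ _ _ h.fin.2
  have hsub : reg σ c' ∩ E ⊆ reg σ c ∩ E := Set.inter_subset_inter_left _ (reg_mono hcc)
  obtain ⟨B₀, rfl⟩ := hB.eq_cons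
  refine ⟨_, hB, ?_, ?_, ?_⟩
  · have := hA.1.append (hB.mono hsub)
    simpa using this
  · have : A ++ pt σ c' u :: B₀ = (A ++ [pt σ c' u]) ++ (pt σ c' u :: B₀).tail := by simp
    rw [this, cost_append_walk hA.1 hB, hA.2.2.1, hcB, h.1]
    rfl
  · intro q hq hq'
    have hqD : q ∈ reg σ c ∩ E := hA.1.2.2 q (by
      rw [List.mem_append]
      exact Or.inl (List.mem_of_getLast? hq))
    exact hA.2.1 q hq ⟨hq', hqD.2⟩

theorem AM.exists_walk (hE : ExGeo w) (hcc : ∀ i, c i ≤ c' i) {x u : ℤ} (h : AM w σ E c c' t x u) :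
    ∃ A B, IsW (reg σ c' ∩ E) (pt σ c' u) t B ∧ IsW (reg σ c ∩ E) (pt σ c x) t (A ++ B) ∧
      cost w (A ++ B) = TI w σ E c x t ∧ (∀ q, A.getLast? = some q → q ∉ reg σ c') ∧
      Hd w (reg σ c ∩ E) (reg σ c' ∩ E) (pt σ c x) (pt σ c' u) A := by
  obtain ⟨A, hA⟩ := exists_head hE (D := reg σ c ∩ E) (R := reg σ c' ∩ E) ⟨pt_mem _ _ _, h.mem.1⟩
    ⟨reg_mono hcc (pt_mem _ _ _), h.mem.2.1⟩ h.fin.1
  obtain ⟨B, h1, h2, h3, h4⟩ := h.walk hE hcc hA
  exact ⟨A, B, h1, h2, h3, h4, hA⟩

/-- UNIQUENESS of the last entrance. -/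
theorem AM.unique (hU : UniqGeo w) (hE : ExGeo w) (hcc : ∀ i, c i ≤ c' i) {x u u' : ℤ}
    (h : AM w σ E c c' t x u) (h' : AM w σ E c c' t x u') : u = u' := by
  obtain ⟨A, B, h1, h2, h3, h4, _⟩ := h.exists_walk hE hcc
  obtain ⟨A', B', h1', h2', h3', h4', _⟩ := h'.exists_walk hE hcc
  have e := hU _ _ _ _ _ h2 h2' h3 h3' h.2
  have h5 := (tail_unique e (fun v hv => (h1.2.2 v hv).1) (fun v hv => (h1'.2.2 v hv).1) h4 h4').2
  subst h5
  have h6 := h1.1
  rw [h1'.1] at h6
  simp at h6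
  exact (pt_inj h6).symm

/-- EXISTENCE of the last entrance. -/
theorem exists_AM (hσ : σ = 0 ∨ σ = 1) (hw : ∀ v, w v 2 = ⊤) (hE : ExGeo w) (hc' : Stp σ c')
    (hcc : ∀ i, c i ≤ c' i) {x : ℤ} (ht : t ∈ reg σ c' ∩ E) (hT : TI w σ E c x t ≠ ⊤) :
    ∃ u, AM w σ E c c' t x u := by
  obtain ⟨l, hl, hcl⟩ := hE _ _ _ hT
  have hxE : pt σ c x ∈ E := hl.left_mem.2
  by_cases h : ∃ v ∈ l, ¬ (v ∈ reg σ c')
  · obtain ⟨l₁, p, l₂, rfl, hp, h2⟩ := exists_last_not h
    have hlast := hl.2.1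
    cases l₂ with
    | nil =>
      simp at hlast
      exact absurd (hlast ▸ ht.1) hp
    | cons q l₃ =>
      have hq : q ∈ reg σ c' := h2 q (by simp)
      have hst : step w p q ≠ ⊤ := by
        intro h'
        apply hT
        unfold TI
        rw [← hcl, cost_append, cost_cons_cons, h', top_add, add_top]
      have hqe := entrance hσ hc' (nb_of_step_ne_top hw hst) hp hq
      have hqE : q ∈ E := (hl.2.2 q (by simp)).2
      have hw2 : IsW (reg σ c' ∩ E) q t (q :: l₃) := by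
        refine ⟨rfl, ?_, fun v hv => ⟨h2 v hv, (hl.2.2 v (by simp at hv ⊢; tauto)).2⟩⟩
        rw [List.getLast?_append_of_ne_nil _ (by simp)] at hlast
        simpa using hlast
      refine ⟨ix σ q, le_antisymm (TI_le hcc hxE) ?_, hT⟩
      unfold KI
      rw [← hqe]
      have h3 : TI w σ E c x t = cost w (l₁ ++ [p]) + (step w p q + cost w (q :: l₃)) := by
        unfold TI
        rw [← hcl, cost_append, cost_cons_cons]
      rw [h3, ← add_assoc]
      refine add_le_add ?_ ?_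
      · refine (Kn_le (hl.2.2 p (by simp)) fun h' => hp h'.1).trans (add_le_add (T_le hl.pre) le_rfl)
      · unfold TI
        rw [← hqe]
        exact T_le hw2
  · push Not at h
    have hx : pt σ c x ∈ reg σ c' := h _ (by obtain ⟨a, rfl⟩ := hl.eq_cons; simp)
    have e : pt σ c x = pt σ c' x := by
      have h1 : c' (ix σ (pt σ c x)) ≤ (pt σ c x).1 := hx
      rw [ix_pt] at h1
      have h2 : c x = c' x := le_antisymm (hcc x) h1
      unfold pt
      rw [h2]
    refine ⟨x, le_antisymm (TI_le hcc hxE) ?_, hT⟩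
    unfold KI
    rw [← e, Kn_self, zero_add]
    unfold TI
    rw [← e, ← hcl]
    exact T_le ⟨hl.1, hl.2.1, fun v hv => ⟨h v hv, (hl.2.2 v hv).2⟩⟩

/-- COMPOSITION of last entrances. -/
theorem AM.comp {c'' : ℤ → ℤ} (hcc : ∀ i, c i ≤ c' i) (hcc' : ∀ i, c' i ≤ c'' i) {x u z : ℤ}
    (h : AM w σ E c c' t x u) (h' : AM w σ E c' c'' t u z) : AM w σ E c c'' t x z := by
  have hsub : reg σ c' ∩ E ⊆ reg σ c ∩ E := Set.inter_subset_inter_left _ (reg_mono hcc)
  have hsub' : reg σ c'' ∩ E ⊆ reg σ c' ∩ E := Set.inter_subset_inter_left _ (reg_mono hcc')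
  refine ⟨le_antisymm (TI_le (fun i => (hcc i).trans (hcc' i)) h.mem.1) ?_, h.2⟩
  rw [h.1, h'.1, ← add_assoc]
  refine add_le_add ?_ le_rfl
  unfold KI
  rw [Kn_comp hsub hsub' ⟨pt_mem _ _ _, h.mem.1⟩ ⟨pt_mem _ _ _, h'.mem.2.1⟩]
  exact iInf₂_le (pt σ c' u) ⟨pt_mem _ _ _, h.mem.2.1⟩

/-- MONOTONICITY of the last entrance, with given heads which do not cross the right ray of the target. -/
theorem AM.mono_heads (hσ : σ = 0 ∨ σ = 1) (hw : ∀ v, w v 2 = ⊤) (hU : UniqGeo w) (hE : ExGeo w) (hc' : Stp σ c')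
    (hcc : ∀ i, c i ≤ c' i) {x x' u u' : ℤ} (hx : x < x') (h : AM w σ E c c' t x u) (h' : AM w σ E c c' t x' u')
    {A A' : List V} (hA : Hd w (reg σ c ∩ E) (reg σ c' ∩ E) (pt σ c x) (pt σ c' u) A)
    (hA' : Hd w (reg σ c ∩ E) (reg σ c' ∩ E) (pt σ c x') (pt σ c' u') A')
    (r1 : ∀ v ∈ A, ix σ v = ix σ t → v.1 ≤ t.1) (r2 : ∀ v ∈ A', ix σ v = ix σ t → v.1 ≤ t.1) : u ≤ u' := by
  obtain ⟨B, h1, h2, h3, h4⟩ := h.walk hE hcc hA
  obtain ⟨B', h1', h2', h3', h4'⟩ := h'.walk hE hcc hA'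
  exact mono_geo hσ hw hU hc' hcc hx h2 h3 h.2 h2' h3' h'.2 h1 h1' h4 h4' r1 r2

/-- MONOTONICITY of the last entrance in strips. -/
theorem AM.mono_strip (hσ : σ = 0 ∨ σ = 1) (hw : ∀ v, w v 2 = ⊤) (hU : UniqGeo w) (hE : ExGeo w) (hc' : Stp σ c')
    (hcc : ∀ i, c i ≤ c' i) {d : ℤ → ℤ} {x x' u u' h : ℤ} (hx : x ≤ x')
    (h1 : AM w σ (lft σ d) c c' (pt σ d h) x u) (h2 : AM w σ (lft σ d) c c' (pt σ d h) x' u') : u ≤ u' := by
  rcases hx.eq_or_lt with rfl | hx
  · exact (h1.unique hU hE hcc h2).le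
  obtain ⟨A, B, _, k2, _, _, hA⟩ := h1.exists_walk hE hcc
  obtain ⟨A', B', _, k2', _, _, hA'⟩ := h2.exists_walk hE hcc
  refine h1.mono_heads hσ hw hU hE hc' hcc hx h2 hA hA' ?_ ?_
  · intro v hv he
    rw [ix_pt] at he
    have h3 : v.1 ≤ d (ix σ v) := (k2.2.2 v (by simp [hv])).2
    rw [he] at h3
    exact h3
  · intro v hv he
    rw [ix_pt] at he
    have h3 : v.1 ≤ d (ix σ v) := (k2'.2.2 v (by simp [hv])).2
    rw [he] at h3
    exact h3

/-- In strips the last entrance is nondecreasing in the target. -/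
theorem AM.mono_target (hσ : σ = 0 ∨ σ = 1) (hU : UniqGeo w) (hE : ExGeo w)
    (hcc : ∀ i, c i ≤ c' i) {d : ℤ → ℤ} {x u u' h h' : ℤ} (hh : h ≤ h')
    (h1 : AM w σ (lft σ d) c c' (pt σ d h) x u) (h2 : AM w σ (lft σ d) c c' (pt σ d h') x u') : u ≤ u' := by
  by_contra hlt
  push Not at hlt
  apply hlt.ne'
  apply h1.unique hU hE hcc
  have m := strip_monge (w := w) (c := c') (d := d) hσ hlt.le hh
  have a1 := TI_le (w := w) (σ := σ) (E := lft σ d) (u := u') (t := pt σ d h) hcc h1.mem.1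
  have a2 := TI_le (w := w) (σ := σ) (E := lft σ d) (u := u) (t := pt σ d h') hcc h2.mem.1
  refine ⟨le_antisymm a1 ?_, h1.2⟩
  have b1 := h1.fin
  have b2 := h2.fin
  have e1 := h1.1
  have e2 := h2.1
  -- K(x,u') + φ^h(u') ≤ K(x,u) + φ^h(u)
  rw [e2] at a2
  rw [e1]
  have s1 : TI w σ (lft σ d) c' u' (pt σ d h) + TI w σ (lft σ d) c' u (pt σ d h') ≠ ⊤ :=
    ne_top_of_le_ne_top (ENNReal.add_ne_top.2 ⟨b1.2, b2.2⟩) m
  have s2 := ENNReal.add_ne_top.1 s1
  lift KI w σ (lft σ d) c c' x u to NNReal using b1.1 with k1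
  lift KI w σ (lft σ d) c c' x u' to NNReal using b2.1 with k2
  lift TI w σ (lft σ d) c' u (pt σ d h) to NNReal using b1.2 with t1
  lift TI w σ (lft σ d) c' u' (pt σ d h') to NNReal using b2.2 with t2
  lift TI w σ (lft σ d) c' u' (pt σ d h) to NNReal using s2.1 with t3
  lift TI w σ (lft σ d) c' u (pt σ d h') to NNReal using s2.2 with t4
  norm_cast at *
  have m' : (t3 : ℝ) + t4 ≤ t1 + t2 := by exact_mod_cast m
  have a2' : (k2 : ℝ) + t2 ≤ k1 + t4 := by exact_mod_cast a2
  have : (k2 : ℝ) + t3 ≤ k1 + t1 := by linarith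
  exact_mod_cast this

end mono

end C7
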