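import Pool.Agent.Lib.MP_c725eb_pr.DomUp

/-!
# Strips: finiteness, bounds, domination by the walls
-/

set_option autoImplicit false

namespace C7

open scoped ENNReal Topology
open Filter

section strip

variable {σ : ℤ} {w : W} {D E : Set V} {c d e : ℤ → ℤ} {u u' : V} {L L' : ℤ} {K : ℝ≥0∞}

/-- From the curve to a vertex of the same index on its right. -/
theorem fin_row (hσ : σ = 0 ∨ σ = 1) (h : Stp σ c) (hw : ∀ v, w v 0 ≠ ⊤ ∧ w v 1 ≠ ⊤) {v : V}
    (hv : v ∈ reg σ c) (hE : ∀ y, c (ix σ v) ≤ y → y ≤ v.1 → ((y, σ * y + ix σ v) : V) ∈ E)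
    (hE' : σ = 1 → ∀ y, c (ix σ v) ≤ y → y < v.1 → ((y + 1, y + ix σ v) : V) ∈ E) :
    T w (reg σ c ∩ E) (pt σ c (ix σ v)) v ≠ ⊤ := by
  obtain ⟨a, b⟩ := v
  have hv' : c (ix σ (a, b)) ≤ a := hv
  have hreg : ∀ y, c (ix σ (a, b)) ≤ y → ((y, σ * y + ix σ (a, b)) : V) ∈ reg σ c := by
    intro y hy
    change c (ix σ (y, σ * y + ix σ (a, b))) ≤ y
    rw [show ix σ (y, σ * y + ix σ (a, b)) = ix σ (a, b) by unfold ix; simp only; ring]
    exact hy
  rcases hσ with rfl | rfl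
  · have e1 : pt 0 c (ix 0 (a, b)) = (c (ix 0 (a, b)), b) := by simp [pt, ix]
    rw [e1]
    refine fin_hor hw hv' fun y h1 h2 => ?_
    have h3 := hreg y h1
    have h4 := hE y h1 h2
    have e2 : ((y, 0 * y + ix 0 (a, b)) : V) = (y, b) := by simp [ix]
    rw [e2] at h3 h4
    exact ⟨h3, h4⟩
  · have key : ∀ y, c (ix 1 (a, b)) ≤ y → y ≤ a →
        T w (reg 1 c ∩ E) (pt 1 c (ix 1 (a, b))) (y, y + ix 1 (a, b)) ≠ ⊤ := by
      intro y hy
      induction y, hy using Int.leInduction with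
      | base =>
        intro h1
        have e1 : pt 1 c (ix 1 (a, b)) = (c (ix 1 (a, b)), c (ix 1 (a, b)) + ix 1 (a, b)) := by simp [pt]
        have h0 : pt 1 c (ix 1 (a, b)) ∈ reg 1 c ∩ E := by
          refine ⟨pt_mem _ _ _, ?_⟩
          have := hE _ le_rfl h1
          rw [one_mul] at this
          rw [e1]; exact this
        rw [← e1, T_self w h0]
        simp
      | succ y hy ih =>
        intro h1
        have m0 : ((y, y + ix 1 (a, b)) : V) ∈ reg 1 c ∩ E := by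
          have h3 := hreg y hy
          have h4 := hE y hy (by simp only; omega)
          rw [one_mul] at h3 h4
          exact ⟨h3, h4⟩
        have m1 : ((y + 1, y + ix 1 (a, b)) : V) ∈ reg 1 c ∩ E := by
          refine ⟨?_, hE' rfl y hy (by simp only; omega)⟩
          change c (ix 1 (y + 1, y + ix 1 (a, b))) ≤ y + 1
          have e2 : ix 1 (y + 1, y + ix 1 (a, b)) = ix 1 (a, b) - 1 := by unfold ix; simp only; ring
          rw [e2]
          have := h (ix 1 (a, b) - 1)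
          rw [sub_add_cancel] at this
          omega
        have m2 : ((y + 1, y + 1 + ix 1 (a, b)) : V) ∈ reg 1 c ∩ E := by
          have h3 := hreg (y + 1) (by omega)
          have h4 := hE (y + 1) (by omega) h1
          rw [one_mul] at h3 h4
          exact ⟨h3, h4⟩
        refine fin_trans (ih (by omega)) (fin_trans (y := ((y + 1, y + ix 1 (a, b)) : V)) ?_ ?_)
        · refine ne_top_of_le_ne_top ?_ (T_le_step w m0 m1)
          have := step_right w (y, y + ix 1 (a, b))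
          simp only at this
          rw [this]
          exact (hw _).1
        · refine ne_top_of_le_ne_top ?_ (T_le_step w m1 m2)
          have := step_up w (y + 1, y + ix 1 (a, b))
          simp only at this
          rw [show y + 1 + ix 1 (a, b) = y + ix 1 (a, b) + 1 by ring, this]
          exact (hw _).2
    have := key a hv' le_rfl
    rw [show ((a, a + ix 1 (a, b)) : V) = (a, b) by unfold ix; ext <;> simp] at this
    exact this

/-- Passage times in the full region are finite. -/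
theorem TI_univ_ne_top (hσ : σ = 0 ∨ σ = 1) (h : Stp σ c) (ho : ∀ i, Opn σ w K (pt σ c i)) (hK : K ≠ ⊤)
    (hw : ∀ v, w v 0 ≠ ⊤ ∧ w v 1 ≠ ⊤) (x : ℤ) {t : V} (ht : t ∈ reg σ c) : TI w σ Set.univ c x t ≠ ⊤ := by
  have h1 := fin_row (E := Set.univ) hσ h hw ht (fun _ _ _ => trivial) (fun _ _ _ _ => trivial)
  unfold TI
  rcases le_total x (ix σ t) with hx | hx
  · exact fin_trans (fin_curve hσ h ho hK hx trivial fun i _ _ => cin_univ i) h1
  · exact fin_trans (fin_symm (fin_curve hσ h ho hK hx trivial fun i _ _ => cin_univ i)) h1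

/-- Passage times in strips are finite. -/
theorem TI_lft_ne_top (hσ : σ = 0 ∨ σ = 1) (h : Stp σ c) (hd : Stp σ d) (ho : ∀ i, Opn σ w K (pt σ c i))
    (hK : K ≠ ⊤) (hw : ∀ v, w v 0 ≠ ⊤ ∧ w v 1 ≠ ⊤) (hcd : ∀ i, c i + (1 - σ) ≤ d i) (x : ℤ) {t : V}
    (ht : t ∈ reg σ c) (ht' : t ∈ lft σ d) : TI w σ (lft σ d) c x t ≠ ⊤ := by
  have h1 := fin_row (E := lft σ d) hσ h hw ht
    (by
      intro y h1 h2
      change y ≤ d (ix σ (y, σ * y + ix σ t))
      rw [show ix σ (y, σ * y + ix σ t) = ix σ t by unfold ix; simp only; ring]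
      exact h2.trans ht')
    (by
      rintro rfl y h1 h2
      change y + 1 ≤ d (ix 1 (y + 1, y + ix 1 t))
      rw [show ix 1 (y + 1, y + ix 1 t) = ix 1 t - 1 by unfold ix; simp only; ring]
      have h3 := hd (ix 1 t - 1)
      rw [sub_add_cancel] at h3
      have h4 : t.1 ≤ d (ix 1 t) := ht'
      omega)
  unfold TI
  rcases le_total x (ix σ t) with hx | hx
  · exact fin_trans (fin_curve hσ h ho hK hx (cin_lft hσ hcd x).1 fun i _ _ => cin_lft hσ hcd i) h1
  · exact fin_trans (fin_symm (fin_curve hσ h ho hK hx (cin_lft hσ hcd _).1 fun i _ _ => cin_lft hσ hcd i)) h1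

/-- Consecutive targets of a strip: `e` is an open curve, the right boundary is `e + (1 - σ)`. -/
theorem T_wh_succ (hσ : σ = 0 ∨ σ = 1) (he : Stp σ e) (hoe : ∀ i, Opn σ w K (pt σ e i))
    (hce : ∀ i, c i ≤ e i) (hd : ∀ i, d i = e i + (1 - σ)) (i : ℤ) :
    T w (reg σ c ∩ lft σ d) (pt σ d i) (pt σ d (i + 1)) ≤ 4 * K := by
  have hsub : reg σ e ∩ lft σ d ⊆ reg σ c ∩ lft σ d := Set.inter_subset_inter_left _ (reg_mono hce)
  have h1 : T w (reg σ c ∩ lft σ d) (pt σ e i) (pt σ e (i + 1)) ≤ 2 * K :=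
    (T_mono hsub _ _).trans (T_pt_succ_env hσ he hoe (cin_lft hσ (fun i => (hd i).ge) i))
  have hm : ∀ i, pt σ e i ∈ reg σ c ∩ lft σ d := fun i =>
    ⟨reg_mono hce (pt_mem _ _ _), (cin_lft hσ (fun i => (hd i).ge) i).1⟩
  have h2 : ∀ i, T w (reg σ c ∩ lft σ d) (pt σ d i) (pt σ e i) ≤ K := by
    intro i
    rcases hσ with rfl | rfl
    · have e1 : pt 0 d i = ((pt 0 e i).1 + 1, (pt 0 e i).2) := by
        simp [pt, hd i]
      have hm' : pt 0 d i ∈ reg 0 c ∩ lft 0 d := by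
        refine ⟨?_, ?_⟩
        · change c (ix 0 (pt 0 d i)) ≤ (pt 0 d i).1
          rw [ix_pt]
          have := hce i
          have := hd i
          have e : (pt 0 d i).1 = d i := rfl
          omega
        · change (pt 0 d i).1 ≤ d (ix 0 (pt 0 d i))
          rw [ix_pt]
          exact le_rfl
      rw [T_comm]
      refine (T_le_step w (hm i) hm').trans ?_
      rw [e1, step_right]
      exact (hoe i).1
    · have e1 : pt 1 d i = pt 1 e i := by
        simp [pt, hd i]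
      rw [e1, T_self w (hm i)]
      exact zero_le
  calc T w (reg σ c ∩ lft σ d) (pt σ d i) (pt σ d (i + 1))
      ≤ T w (reg σ c ∩ lft σ d) (pt σ d i) (pt σ e i) + (T w (reg σ c ∩ lft σ d) (pt σ e i) (pt σ e (i + 1)) +
        T w (reg σ c ∩ lft σ d) (pt σ e (i + 1)) (pt σ d (i + 1))) :=
        (T_triangle _ _ _ _ _).trans (add_le_add le_rfl (T_triangle _ _ _ _ _))
    _ ≤ K + (2 * K + K) := add_le_add (h2 i) (add_le_add h1 (by rw [T_comm]; exact h2 (i + 1)))
    _ = 4 * K := by ring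

/-- The condition on the right boundary of a strip in the domination by a lower wall: the boundary
below the index `h` is below the wall, with a margin. -/
theorem hr_lo (hσ : σ = 0 ∨ σ = 1) {h : ℤ}
    (hb : ∀ i, i ≤ h → det u (pt σ d i) + 2 * (|u.1| + |u.2|) < -(L * ln σ u)) :
    ∀ v ∈ Wlo σ u L, d (ix σ v) < v.1 → v.1 ≤ d (ix σ v) + 2 → h < ix σ v := by
  intro v hv h1 h2
  by_contra hcon
  push Not at hcon
  have h3 := hb _ hcon
  have h4 : -(L * ln σ u) ≤ det u v := hv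
  obtain ⟨a, b⟩ := v
  have e1 : det u (a, b) = det u (pt σ d (ix σ (a, b))) + (a - d (ix σ (a, b))) * (σ * u.1 - u.2) := by
    unfold det pt ix
    simp only
    ring
  rw [e1] at h4
  simp only at h1 h2
  have a1 := le_abs_self u.1
  have a2 := neg_abs_le u.2
  have a3 := abs_nonneg u.1
  have a4 := abs_nonneg u.2
  have h5 : (a - d (ix σ (a, b))) * (σ * u.1 - u.2) ≤ 2 * (|u.1| + |u.2|) := by
    have h6 : σ * u.1 - u.2 ≤ |u.1| + |u.2| := by
      rcases hσ with rfl | rfl <;> simp only [zero_mul, one_mul] <;> linarith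
    have h7 : 0 < a - d (ix σ (a, b)) := by omega
    have h8 : a - d (ix σ (a, b)) ≤ 2 := by omega
    calc (a - d (ix σ (a, b))) * (σ * u.1 - u.2) ≤ (a - d (ix σ (a, b))) * (|u.1| + |u.2|) :=
          mul_le_mul_of_nonneg_left h6 h7.le
      _ ≤ 2 * (|u.1| + |u.2|) := mul_le_mul_of_nonneg_right h8 (by positivity)
  linarith

/-- DOMINATION in strips by lower walls. -/
theorem BI_lft_le_wlo_far (hσ : σ = 0 ∨ σ = 1) (hw2 : ∀ v, w v 2 = ⊤) (hc : Stp σ c) (hd : Stp σ d)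
    (hu1 : 0 < u.1) (hu2 : -u.1 ≤ u.2) {x x' h : ℤ} (hx : x ≤ x')
    (hb : ∀ i, i ≤ h → det u (pt σ d i) + 2 * (|u.1| + |u.2|) < -(L * ln σ u))
    (hxd : pt σ c x ∈ lft σ d)
    (hin : ∀ j, x ≤ j → pt σ c j ∈ Wlo σ u L) (hT : TI w σ (lft σ d) c x' (pt σ d h) ≠ ⊤) {ε : ℝ} (hε : 0 < ε) :
    ∃ q : ℤ, ∀ t₁ : V, q < t₁.1 → TI w σ (Wlo σ u L) c x t₁ ≠ ⊤ →
      BI w σ (lft σ d) c (pt σ d h) x x' ≤ BI w σ (Wlo σ u L) c t₁ x x' + ε := by
  have hlt : TI w σ (lft σ d) c x' (pt σ d h) < TI w σ (lft σ d) c x' (pt σ d h) + ENNReal.ofReal ε :=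
    ENNReal.lt_add_right hT (by positivity)
  unfold TI T at hlt
  obtain ⟨A, hA⟩ := iInf_lt_iff.1 hlt
  obtain ⟨hA, hcA⟩ := iInf_lt_iff.1 hA
  obtain ⟨q, hq⟩ := exists_fst_le A
  refine ⟨q, fun t₁ ht₁ hT₁ => ?_⟩
  have hcA' : cost w A ≠ ⊤ := ne_top_of_lt hcA
  have hnot : pt σ d h ∉ Wlo σ u L := by
    intro h'
    have h1 : -(L * ln σ u) ≤ det u (pt σ d h) := h'
    have h2 := hb h le_rfl
    have a3 := abs_nonneg u.1
    have a4 := abs_nonneg u.2
    linarith
  have key := wlo_dom_strip_fix hσ hu1 hd hw2 hx hA hcA'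
    (below_of_det hu1 (by have := det_lt_of_not_mem hnot; linarith)) (Or.inr hnot)
    (fun p hp => lt_of_le_of_lt (hq p hp) ht₁) hxd (hxc_lo hσ hc hu1 hu2 hin) (hr_lo hσ hb)
  have h1 := toReal_exchange key hcA' hT₁
  have h2 : (cost w A).toReal ≤ (TI w σ (lft σ d) c x' (pt σ d h)).toReal + ε := by
    have := ENNReal.toReal_mono (ENNReal.add_ne_top.2 ⟨hT, ENNReal.ofReal_ne_top⟩) hcA.le
    rwa [ENNReal.toReal_add hT ENNReal.ofReal_ne_top, ENNReal.toReal_ofReal hε.le] at this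
  unfold BI
  linarith

theorem BI_lft_le_lim (hσ : σ = 0 ∨ σ = 1) (hw2 : ∀ v, w v 2 = ⊤) (hc : Stp σ c) (hd : Stp σ d)
    (hu1 : 0 < u.1) (hu2 : -u.1 ≤ u.2) {x x' h : ℤ} (hx : x ≤ x')
    (hb : ∀ i, i ≤ h → det u (pt σ d i) + 2 * (|u.1| + |u.2|) < -(L * ln σ u))
    (hxd : pt σ c x ∈ lft σ d)
    (hin : ∀ j, x ≤ j → pt σ c j ∈ Wlo σ u L) (hT : TI w σ (lft σ d) c x' (pt σ d h) ≠ ⊤)
    (hfin : ∀ᶠ m : ℤ in atTop, TI w σ (Wlo σ u L) c x (tlo σ u L m) ≠ ⊤) {ℓ : ℝ}
    (hℓ : Tendsto (fun m : ℤ => BI w σ (Wlo σ u L) c (tlo σ u L m) x x') atTop (𝓝 ℓ)) :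
    BI w σ (lft σ d) c (pt σ d h) x x' ≤ ℓ := by
  apply le_of_forall_pos_le_add
  intro ε hε
  refine ge_of_tendsto (hℓ.add_const ε) ?_
  obtain ⟨q, hq⟩ := BI_lft_le_wlo_far hσ hw2 hc hd hu1 hu2 hx hb hxd hin hT hε
  filter_upwards [hfin, (tendsto_tlo_fst (σ := σ) (L := L) hu1).eventually_gt_atTop q] with m h1 h2
  exact hq _ h2 h1

/-- DOMINATION in strips by upper walls. -/
theorem lim_le_BI_lft (hσ : σ = 0 ∨ σ = 1) (hw2 : ∀ v, w v 2 = ⊤) (hc : Stp σ c) (hd : Stp σ d)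
    (hu1 : 0 < u.1) (hu2 : σ = 0 → u.2 ≤ u.1) (hu3 : σ = 1 → 0 < u.2) {x x' h : ℤ} (hx : x ≤ x')
    (hb : ∀ i, h ≤ i → L * ln σ u < det u (pt σ d i) - 2 * (|u.1| + |u.2|))
    (hxd : pt σ c x' ∈ lft σ d)
    (hin : ∀ j, j ≤ x' → pt σ c j ∈ Wup σ u L) (hT : TI w σ (lft σ d) c x (pt σ d h) ≠ ⊤)
    (hfin : ∀ᶠ m : ℤ in atTop, TI w σ (Wup σ u L) c x' (tup σ u L m) ≠ ⊤) {ℓ : ℝ}
    (hℓ : Tendsto (fun m : ℤ => BI w σ (Wup σ u L) c (tup σ u L m) x x') atTop (𝓝 ℓ)) :
    ℓ ≤ BI w σ (lft σ d) c (pt σ d h) x x' := by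
  have h1 := TI_lft hσ hw2 c d h
  have key := BI_lft_le_lim (w := rfw σ w) (c := rfc σ c) (d := rfc σ d) (u := rf σ u) (L := L) (h := -h)
    (ℓ := -ℓ) hσ (rfw_diag σ w)
    (rfc_stp hσ hc) (rfc_stp hσ hd) (rf_fst_pos hσ hu1 hu3) (rf_slope hσ hu1 hu2 hu3) (neg_le_neg hx)
    (by
      intro i hi
      have h2 := hb (-i) (by omega)
      rw [pt_rfc hσ, det_rf hσ, ln_rf hσ]
      have h3 : |(rf σ u).1| + |(rf σ u).2| = |u.1| + |u.2| := by
        rcases hσ with rfl | rfl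
        · rw [rf_zero]; simp
        · rw [rf_one]; simp only; ring
      rw [h3]
      linarith)
    (by rw [pt_rfc hσ, ← mem_lft_rf hσ, rf_rf hσ, neg_neg]; exact hxd)
    (by
      intro j hj
      rw [pt_rfc hσ, ← mem_wup_rf hσ, rf_rf hσ]
      exact hin _ (by omega))
    (by rw [← TI_lft hσ hw2]; exact hT)
    (by
      filter_upwards [hfin] with m hm
      rw [← TI_wup hσ hw2]
      exact hm)
    (by
      have := hℓ.neg
      refine this.congr fun m => ?_
      rw [BI_wup hσ hw2, BI_neg (-x') (-x), neg_neg])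
  have h4 : BI w σ (lft σ d) c (pt σ d h) x x' =
      BI (rfw σ w) σ (lft σ (rfc σ d)) (rfc σ c) (pt σ (rfc σ d) (-h)) (-x) (-x') := by
    unfold BI
    rw [TI_lft hσ hw2, TI_lft hσ hw2]
  rw [h4, BI_neg (-x') (-x)]
  linarith

end strip

/-! ### the curve is in the wall domains -/

section inside

variable {σ : ℤ} {w : W} {c : ℤ → ℤ} {u : V} {K : ℝ≥0∞}

/-- The neighbourhoods of the vertices of the curve above the index `i` are above the walls with
large `L`. -/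
theorem exists_bal_wlo (hσ : σ = 0 ∨ σ = 1) (h : Stp σ c) (hu1 : 0 < u.1) (hln : 0 < ln σ u) (hu3 : u.2 ≤ u.1)
    {k : ℤ} (hk : ∀ j, k ≤ ln σ (pt σ c j)) (i : ℤ) :
    ∃ L₀ : ℤ, ∀ L, L₀ ≤ L → ∀ j, i ≤ j → Bal (pt σ c j) ⊆ Wlo σ u L := by
  -- a lower bound for the determinants
  obtain ⟨B, hB⟩ : ∃ B : ℤ, ∀ j, i ≤ j → B ≤ det u (pt σ c j) := by
    rcases hσ with rfl | rfl
    · refine ⟨min (u.1 * i - u.2 * c i) (u.1 * i + min (-u.2 * k) 0 - |u.2 * k|), fun j hj => ?_⟩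
      have h3 := stp_le (Or.inl rfl) h hj
      have h4 : k ≤ c j := by
        have := hk j
        unfold ln pt at this
        simpa using this
      unfold det pt
      simp only [zero_mul, zero_add, sub_zero, one_mul] at *
      by_cases hs : 0 ≤ u.2
      · refine (min_le_left _ _).trans ?_
        nlinarith
      · push Not at hs
        refine (min_le_right _ _).trans ?_
        have h5 : -u.2 * k ≤ -u.2 * c j := mul_le_mul_of_nonneg_left h4 (by omega)
        have h6 : u.1 * i ≤ u.1 * j := mul_le_mul_of_nonneg_left hj hu1.le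
        have h7 := abs_nonneg (u.2 * k)
        have h8 := min_le_left (-u.2 * k) 0
        nlinarith
    · -- the line bound
      refine ⟨-(|u.1 * i| + |u.2 * i| + |(u.1 - u.2) * k| + 1) * 2, fun j hj => ?_⟩
      have h4 : k ≤ 2 * c j + j := by
        have := hk j
        unfold ln pt at this
        simp only [one_mul] at this
        linarith
      unfold ln at hln
      simp only [one_mul] at hln
      unfold det pt
      simp only [one_mul]
      have h5 : (u.1 - u.2) * k ≤ (u.1 - u.2) * (2 * c j + j) := mul_le_mul_of_nonneg_left h4 (by omega)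
      have h6 : (u.1 + u.2) * i ≤ (u.1 + u.2) * j := mul_le_mul_of_nonneg_left hj hln.le
      have a1 := neg_abs_le (u.1 * i)
      have a2 := neg_abs_le (u.2 * i)
      have a3 := neg_abs_le ((u.1 - u.2) * k)
      have a4 := abs_nonneg (u.1 * i)
      have a5 := abs_nonneg (u.2 * i)
      have a6 := abs_nonneg ((u.1 - u.2) * k)
      nlinarith
  refine ⟨|B| + |u.1| + |u.2|, fun L hL j hj v hv => ?_⟩
  change -(L * ln σ u) ≤ det u v
  have h1 := hB j hj
  obtain ⟨hv1, hv2⟩ := hv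
  have h2 : det u v = det u (pt σ c j) + (u.1 * (v.2 - (pt σ c j).2) - u.2 * (v.1 - (pt σ c j).1)) := by
    unfold det; ring
  have h3 : -(|u.1| + |u.2|) ≤ u.1 * (v.2 - (pt σ c j).2) - u.2 * (v.1 - (pt σ c j).1) := by
    have h4 : |u.1 * (v.2 - (pt σ c j).2)| ≤ |u.1| * 1 := by
      rw [abs_mul]; exact mul_le_mul_of_nonneg_left hv2 (abs_nonneg _)
    have h5 : |u.2 * (v.1 - (pt σ c j).1)| ≤ |u.2| * 1 := by
      rw [abs_mul]; exact mul_le_mul_of_nonneg_left hv1 (abs_nonneg _)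
    rw [abs_le] at h4 h5
    linarith [h4.1, h5.2]
  have h6 := neg_abs_le B
  have h7 : L * 1 ≤ L * ln σ u := mul_le_mul_of_nonneg_left (by omega) (le_trans (by positivity) hL)
  linarith

end inside

end C7
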