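import Pool.Agent.Lib.MP_c725eb_pr.Uniq
import Pool.Agent.Lib.MP_c725eb_pr.Coer
import Pool.Agent.Lib.MP_c725eb_pr.StripDom
import Pool.Agent.Lib.MP_c725eb_pr.Mono

/-!
# Flows of potentials, for one configuration
-/

set_option autoImplicit false

namespace C7

open MeasureTheory Filter Set
open scoped ENNReal Topology

/-- Regular configurations. -/
structure Cfg (σ : ℤ) (K : ℝ≥0∞) (w : W) : Prop where
  hσ : σ = 0 ∨ σ = 1
  hK : K ≠ ⊤
  hw : ∀ v, w v 2 = ⊤
  good : Good σ w K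
  fin : ∀ v, w v 0 ≠ ⊤ ∧ w v 1 ≠ ⊤
  pos : ∀ v, w v 0 ≠ 0 ∧ w v 1 ≠ 0
  ug : UniqGeo w
  eg : ExGeo w

section

variable {σ : ℤ} {K : ℝ≥0∞} {w : W}

theorem step_ne_zero (hw : ∀ v, w v 2 = ⊤) (hp : ∀ v, w v 0 ≠ 0 ∧ w v 1 ≠ 0) (x y : V) :
    step w x y ≠ 0 := by
  unfold step
  split_ifs
  · exact (hp _).1
  · exact (hp _).1
  · exact (hp _).2
  · exact (hp _).2
  · rw [hw]; exact ENNReal.top_ne_zero
  · rw [hw]; exact ENNReal.top_ne_zero
  · exact ENNReal.top_ne_zero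

/-- Passage times between different vertices are positive. -/
theorem T_ne_zero (hw : ∀ v, w v 2 = ⊤) (hp : ∀ v, w v 0 ≠ 0 ∧ w v 1 ≠ 0) (D : Set V) {x y : V}
    (hxy : x ≠ y) : T w D x y ≠ 0 := by
  set m := min (min (w x 0) (w (x.1 - 1, x.2) 0)) (min (w x 1) (w (x.1, x.2 - 1) 1)) with hm
  have hm0 : m ≠ 0 := by
    intro h
    rcases min_choice (min (w x 0) (w (x.1 - 1, x.2) 0)) (min (w x 1) (w (x.1, x.2 - 1) 1)) with h1 | h1
    · rcases min_choice (w x 0) (w (x.1 - 1, x.2) 0) with h2 | h2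
      · exact (hp x).1 (by rw [← h2, ← h1, ← hm, h])
      · exact (hp (x.1 - 1, x.2)).1 (by rw [← h2, ← h1, ← hm, h])
    · rcases min_choice (w x 1) (w (x.1, x.2 - 1) 1) with h2 | h2
      · exact (hp x).2 (by rw [← h2, ← h1, ← hm, h])
      · exact (hp (x.1, x.2 - 1)).2 (by rw [← h2, ← h1, ← hm, h])
  have key : m ≤ T w D x y := by
    refine le_T fun l hl => ?_
    obtain ⟨l', rfl⟩ := hl.eq_cons
    cases l' with
    | nil =>
      have := hl.2.1
      simp at this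
      exact absurd this hxy
    | cons b l'' =>
      rw [cost_cons_cons]
      refine le_trans ?_ le_self_add
      by_cases hst : step w x b = ⊤
      · rw [hst]; exact le_top
      · rcases nb_of_step_ne_top hw hst with h | h | h | h
        · rw [h, step_right]
          exact (min_le_left _ _).trans (min_le_left _ _)
        · have e : (x.1 - 1, x.2) = b := by rw [h]; simp
          rw [step_comm]
          conv_rhs => rw [h, step_right]
          rw [← e]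
          exact (min_le_left _ _).trans (min_le_right _ _)
        · rw [h, step_up]
          exact (min_le_right _ _).trans (min_le_left _ _)
        · have e : (x.1, x.2 - 1) = b := by rw [h]; simp
          rw [step_comm]
          conv_rhs => rw [h, step_up]
          rw [← e]
          exact (min_le_right _ _).trans (min_le_right _ _)
  intro h
  rw [h] at key
  exact hm0 (le_antisymm key zero_le)

theorem T_univ_ne_top (hw : ∀ v, w v 0 ≠ ⊤ ∧ w v 1 ≠ ⊤) (x y : V) : T w univ x y ≠ ⊤ := by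
  have h1 : T w univ (x.1, x.2) (y.1, x.2) ≠ ⊤ := by
    rcases le_total x.1 y.1 with h | h
    · exact fin_hor hw h fun _ _ _ => trivial
    · exact fin_symm (fin_hor hw h fun _ _ _ => trivial)
  have h2 : T w univ (y.1, x.2) (y.1, y.2) ≠ ⊤ := by
    rcases le_total x.2 y.2 with h | h
    · exact fin_ver hw h fun _ _ _ => trivial
    · exact fin_symm (fin_ver hw h fun _ _ _ => trivial)
  exact fin_trans h1 h2

theorem Cfg.ck_mono (h : Cfg σ K w) {k l : ℤ} (hkl : k ≤ l) (i : ℤ) : ck σ w K k i ≤ ck σ w K l i :=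
  crv_mono h.hσ (h.good k) (h.good l) (fun _ => by omega) i

theorem TI_univ (c : ℤ → ℤ) (x : ℤ) (t : V) : TI w σ univ c x t = T w (reg σ c) (pt σ c x) t := by
  unfold TI; rw [inter_univ]

theorem KI_univ (c c' : ℤ → ℤ) (x u : ℤ) :
    KI w σ univ c c' x u = Kn w (reg σ c) (reg σ c') (pt σ c x) (pt σ c' u) := by
  unfold KI; rw [inter_univ, inter_univ]

/-- Finite passage times in the regions. -/
theorem Cfg.fin_Rg (h : Cfg σ K w) (k x : ℤ) {t : V} (ht : t ∈ Rg σ w K k) :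
    T w (Rg σ w K k) (pk σ w K k x) t ≠ ⊤ := by
  have := TI_univ_ne_top h.hσ (ck_stp h.hσ h.good k) (pk_open h.good k) h.hK h.fin x ht
  rwa [TI_univ] at this

theorem Cfg.eh (h : Cfg σ K w) {k l : ℤ} (hkl : k ≤ l) (x : ℤ) :
    EH w (Rg σ w K k) (Rg σ w K l) (pk σ w K k x) (pk σ w K l) where
  hw := h.hw
  sub := Rg_anti h.hσ h.good hkl
  hp := pk_mem _ _
  hq := fun u => pk_mem _ _
  dec := fun j => by
    have := TI_eq (w := w) (σ := σ) (E := univ) h.hσ h.hw (ck_stp h.hσ h.good l) (h.ck_mono hkl)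
      (x := x) (t := pk σ w K l j) ⟨pk_mem _ _, trivial⟩ trivial
    simp only [TI_univ, KI_univ] at this
    exact this
  fin := fun j => h.fin_Rg k x (Rg_anti h.hσ h.good hkl (pk_mem _ _))
  fin' := fun u j => h.fin_Rg l u (pk_mem _ _)

/-- Potentials of the targets. -/
noncomputable def tpot (σ : ℤ) (K : ℝ≥0∞) (w : W) (t : V) (l j : ℤ) : ℝ :=
  (T w (Rg σ w K l) (pk σ w K l j) t).toReal

theorem Cfg.tpot_lip (h : Cfg σ K w) {l : ℤ} {t : V} (ht : t ∈ Rg σ w K l) :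
    Lip w (Rg σ w K l) (pk σ w K l) (tpot σ K w t l) := by
  intro u j
  unfold tpot
  have h1 := T_triangle w (Rg σ w K l) (pk σ w K l u) (pk σ w K l j) t
  have h2 := h.fin_Rg l u (pk_mem l j)
  have h3 := h.fin_Rg l j ht
  have h4 := ENNReal.toReal_mono (ENNReal.add_ne_top.2 ⟨h2, h3⟩) h1
  rw [ENNReal.toReal_add h2 h3] at h4
  linarith

/-- The entrances of the target potentials are the last entrances of the geodesics. -/
theorem Cfg.ent_iff_am (h : Cfg σ K w) {k l : ℤ} (hkl : k ≤ l) (x u : ℤ) {t : V} (ht : t ∈ Rg σ w K l) :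
    Ent w (Rg σ w K k) (Rg σ w K l) (pk σ w K k x) (pk σ w K l) (tpot σ K w t l) u ↔
      AM w σ univ (ck σ w K k) (ck σ w K l) t x u := by
  have htk : t ∈ Rg σ w K k := Rg_anti h.hσ h.good hkl ht
  have hdec := TI_eq (w := w) (σ := σ) (E := univ) h.hσ h.hw (ck_stp h.hσ h.good l) (h.ck_mono hkl)
      (x := x) (t := t) ⟨ht, trivial⟩ trivial
  have hle := TI_le (w := w) (σ := σ) (E := univ) (h.ck_mono hkl) (x := x) (u := u) (t := t) trivial
  simp only [TI_univ, KI_univ] at hdec hle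
  unfold AM
  rw [TI_univ, TI_univ, KI_univ]
  have hT := h.fin_Rg k x htk
  have hTl := fun j => h.fin_Rg l j ht
  constructor
  · rintro ⟨h1, h2⟩
    refine ⟨le_antisymm hle ?_, hT⟩
    rw [hdec]
    refine le_iInf fun j => ?_
    by_cases hj : Kn w (reg σ (ck σ w K k)) (reg σ (ck σ w K l)) (pt σ (ck σ w K k) x) (pt σ (ck σ w K l) j) = ⊤
    · rw [hj, top_add]; exact le_top
    · have h3 : (Kn w (Rg σ w K k) (Rg σ w K l) (pk σ w K k x) (pk σ w K l u)).toReal + tpot σ K w t l u ≤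
          (Kn w (Rg σ w K k) (Rg σ w K l) (pk σ w K k x) (pk σ w K l j)).toReal + tpot σ K w t l j :=
        Ent.le_kn (h.eh hkl x) ⟨h1, h2⟩ hj
      unfold tpot at h3
      have h4 : Kn w (Rg σ w K k) (Rg σ w K l) (pk σ w K k x) (pk σ w K l u) +
          T w (Rg σ w K l) (pk σ w K l u) t ≤ Kn w (Rg σ w K k) (Rg σ w K l) (pk σ w K k x) (pk σ w K l j) +
          T w (Rg σ w K l) (pk σ w K l j) t := by
        rw [← ENNReal.ofReal_toReal h1, ← ENNReal.ofReal_toReal (hTl u), ← ENNReal.ofReal_toReal (hTl j),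
          ← ENNReal.ofReal_toReal (show Kn w (Rg σ w K k) (Rg σ w K l) (pk σ w K k x) (pk σ w K l j) ≠ ⊤ from hj),
          ← ENNReal.ofReal_add ENNReal.toReal_nonneg ENNReal.toReal_nonneg,
          ← ENNReal.ofReal_add ENNReal.toReal_nonneg ENNReal.toReal_nonneg]
        exact ENNReal.ofReal_le_ofReal h3
      exact h4
  · rintro ⟨h1, h2⟩
    have h3 := ENNReal.add_ne_top.1 (h1 ▸ h2)
    refine ⟨h3.1, fun j => ?_⟩
    have h4 := congrArg ENNReal.toReal h1
    rw [ENNReal.toReal_add h3.1 h3.2] at h4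
    have h5 : (T w (Rg σ w K k) (pk σ w K k x) t).toReal ≤
        (T w (Rg σ w K k) (pk σ w K k x) (pk σ w K l j)).toReal + tpot σ K w t l j := by
      have h6 : T w (Rg σ w K k) (pk σ w K k x) t ≤ T w (Rg σ w K k) (pk σ w K k x) (pk σ w K l j) +
          T w (Rg σ w K l) (pk σ w K l j) t :=
        (T_triangle w _ _ (pk σ w K l j) _).trans (add_le_add le_rfl (T_mono (Rg_anti h.hσ h.good hkl) _ _))
      have h7 := (h.eh hkl x).fin j
      have h8 := ENNReal.toReal_mono (ENNReal.add_ne_top.2 ⟨h7, hTl j⟩) h6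
      rwa [ENNReal.toReal_add h7 (hTl j)] at h8
    unfold tpot at h5 ⊢
    exact h4.symm.le.trans h5

/-- The minimum for a target. -/
theorem Cfg.isMin_t (h : Cfg σ K w) {k l : ℤ} (hkl : k ≤ l) (x : ℤ) {t : V} (ht : t ∈ Rg σ w K l) :
    IsMin w (Rg σ w K k) (pk σ w K k x) (pk σ w K l) (tpot σ K w t l) (tpot σ K w t k x) := by
  have htk : t ∈ Rg σ w K k := Rg_anti h.hσ h.good hkl ht
  obtain ⟨u, hu⟩ := exists_AM (σ := σ) (E := univ) (c := ck σ w K k) h.hσ h.hw h.eg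
    (ck_stp h.hσ h.good l) (h.ck_mono hkl) (x := x) (t := t) ⟨ht, trivial⟩ (by
      rw [TI_univ]; exact h.fin_Rg k x htk)
  have hE := (h.ent_iff_am hkl x u ht).2 hu
  have h1 := hE.isMin (h.eh hkl x) (h.tpot_lip ht)
  have h2 : (T w (Rg σ w K k) (pk σ w K k x) (pk σ w K l u)).toReal + tpot σ K w t l u = tpot σ K w t k x := by
    rw [← hE.kn_eq (h.eh hkl x) (h.tpot_lip ht)]
    have h3 : T w (Rg σ w K k) (pk σ w K k x) t =
        Kn w (Rg σ w K k) (Rg σ w K l) (pk σ w K k x) (pk σ w K l u) + T w (Rg σ w K l) (pk σ w K l u) t := by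
      have := hu.1
      rwa [TI_univ, TI_univ, KI_univ] at this
    have h4 := congrArg ENNReal.toReal h3
    rw [ENNReal.toReal_add hE.1 (h.fin_Rg l u ht)] at h4
    exact h4.symm
  rwa [h2] at h1

/-! ### flows -/

/-- A family of potentials with flow relations. -/
structure Flw (σ : ℤ) (K : ℝ≥0∞) (w : W) (φ : ℤ → ℤ → ℝ) : Prop where
  lip : ∀ l, Lip w (Rg σ w K l) (pk σ w K l) (φ l)
  coer : ∀ k l x (M : ℝ), {j | (T w univ (pk σ w K k x) (pk σ w K l j)).toReal + φ l j ≤ M}.Finite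
  coer0 : ∀ k l x (M : ℝ), {j | (T w univ (pk σ w K k x) (pk σ w K l j)).toReal ≤ M}.Finite
  rel : ∀ k l, k ≤ l → ∃ c, ∀ x, IsMin w (Rg σ w K k) (pk σ w K k x) (pk σ w K l) (φ l) (φ k x + c)
  uniq : ∀ k l x, k ≤ l → ∀ u j,
    Ent w (Rg σ w K k) (Rg σ w K l) (pk σ w K k x) (pk σ w K l) (φ l) u →
    Ent w (Rg σ w K k) (Rg σ w K l) (pk σ w K k x) (pk σ w K l) (φ l) j → u = j

/-- Entrances between lines. -/
def En (σ : ℤ) (K : ℝ≥0∞) (w : W) (φ : ℤ → ℝ) (k l x u : ℤ) : Prop :=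
  Ent w (Rg σ w K k) (Rg σ w K l) (pk σ w K k x) (pk σ w K l) φ u

variable {φ : ℤ → ℤ → ℝ}

theorem Flw.exists (h : Cfg σ K w) (hF : Flw σ K w φ) {k l : ℤ} (hkl : k ≤ l) (x : ℤ) :
    ∃ u, En σ K w (φ l) k l x u := by
  refine Ent.exists (h.eh hkl x) (hF.lip l) (fun M => ?_) (fun M => ?_)
  · refine (hF.coer k l x M).subset fun j hj => ?_
    have h1 := ENNReal.toReal_mono ((h.eh hkl x).fin j) (T_mono (w := w) (subset_univ (Rg σ w K k)) (pk σ w K k x)
      (pk σ w K l j))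
    simp only [mem_ofPred_eq] at hj ⊢
    linarith
  · refine (hF.coer0 k l x M).subset fun j hj => ?_
    have h1 := ENNReal.toReal_mono ((h.eh hkl x).fin j) (T_mono (w := w) (subset_univ (Rg σ w K k)) (pk σ w K k x)
      (pk σ w K l j))
    simp only [mem_ofPred_eq] at hj ⊢
    linarith

/-- COMPOSITION. -/
theorem Flw.comp (h : Cfg σ K w) (hF : Flw σ K w φ) {k l m : ℤ} (hkl : k ≤ l) (hlm : l ≤ m) {x u z : ℤ}
    (h1 : En σ K w (φ l) k l x u) (h2 : En σ K w (φ m) l m u z) : En σ K w (φ m) k m x z := by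
  obtain ⟨c, hc⟩ := hF.rel k l hkl
  obtain ⟨c', hc'⟩ := hF.rel l m hlm
  have e1 := ((hc x).ent_iff (h.eh hkl x) (hF.lip l) u).1 h1
  have e2 := ((hc' u).ent_iff (h.eh hlm u) (hF.lip m) z).1 h2
  -- the kernel
  have hK : Kn w (Rg σ w K k) (Rg σ w K m) (pk σ w K k x) (pk σ w K m z) ≤
      Kn w (Rg σ w K k) (Rg σ w K l) (pk σ w K k x) (pk σ w K l u) +
        Kn w (Rg σ w K l) (Rg σ w K m) (pk σ w K l u) (pk σ w K m z) := by
    rw [Kn_comp (Rg_anti h.hσ h.good hkl) (Rg_anti h.hσ h.good hlm) (pk_mem _ _) (pk_mem _ _)]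
    exact iInf₂_le (pk σ w K l u) (pk_mem _ _)
  have hKt : Kn w (Rg σ w K k) (Rg σ w K m) (pk σ w K k x) (pk σ w K m z) ≠ ⊤ :=
    ne_top_of_le_ne_top (ENNReal.add_ne_top.2 ⟨e1.1, e2.1⟩) hK
  have hKr := ENNReal.toReal_mono (ENNReal.add_ne_top.2 ⟨e1.1, e2.1⟩) hK
  rw [ENNReal.toReal_add e1.1 e2.1] at hKr
  refine ⟨hKt, fun j => ?_⟩
  -- lower bound for the passage times to the line `m`
  have hj : pk σ w K m j ∈ Rg σ w K l := Rg_anti h.hσ h.good hlm (pk_mem _ _)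
  have hmin := (h.isMin_t hkl x hj)
  obtain ⟨i, hi⟩ := hmin.2
  have h3 := (hc x).1 i
  have h4 := (hc' i).1 j
  unfold tpot at hi
  linarith [e1.2, e2.2]

/-- The entrance on the same line. -/
theorem Flw.self (hF : Flw σ K w φ) (k x : ℤ) : En σ K w (φ k) k k x x := by
  refine ⟨by rw [Kn_self]; exact ENNReal.zero_ne_top, fun j => ?_⟩
  rw [Kn_self]
  have := hF.lip k x j
  simp only [ENNReal.toReal_zero]
  linarith

/-! ### limits of target potentials -/

/-- The potentials are limits of target potentials, with uniform coercivity. -/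
structure Lim (σ : ℤ) (K : ℝ≥0∞) (w : W) (φ : ℤ → ℤ → ℝ) (τ : ℕ → V) : Prop where
  mem : ∀ l, ∀ᶠ r in atTop, τ r ∈ Rg σ w K l
  col : Tendsto (fun r => (τ r).1) atTop atTop
  lim : ∀ l i, Tendsto (fun r => tpot σ K w (τ r) l i - tpot σ K w (τ r) l 0) atTop (𝓝 (φ l i))
  co0 : ∀ l, ∃ η > 0, ∃ C, ∀ j : ℤ, η * |(j : ℝ)| - C ≤ (T w univ (pk σ w K l 0) (pk σ w K l j)).toReal
  co : ∀ l, ∃ η > 0, ∃ C, ∀ᶠ r in atTop, ∀ j : ℤ, η * |(j : ℝ)| - C ≤
    (T w univ (pk σ w K l 0) (pk σ w K l j)).toReal + (tpot σ K w (τ r) l j - tpot σ K w (τ r) l 0)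

variable {τ : ℕ → V}

theorem finite_of_co {η C M : ℝ} (hη : 0 < η) {f : ℤ → ℝ} (hf : ∀ j : ℤ, η * |(j : ℝ)| - C ≤ f j) :
    {j | f j ≤ M}.Finite := by
  refine (Set.finite_Icc (-(⌈(M + C) / η⌉)) ⌈(M + C) / η⌉).subset fun j hj => ?_
  simp only [mem_ofPred_eq] at hj
  have h1 := hf j
  have h2 : |(j : ℝ)| ≤ (M + C) / η := by
    rw [le_div_iff₀ hη]; linarith
  have h3 : |(j : ℝ)| ≤ (⌈(M + C) / η⌉ : ℝ) := h2.trans (Int.le_ceil _)
  have h4 : |j| ≤ ⌈(M + C) / η⌉ := by exact_mod_cast h3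
  exact abs_le.1 h4

/-- Change of the starting point. -/
theorem T_univ_anchor (h : Cfg σ K w) (p q r : V) :
    (T w univ q r).toReal ≤ (T w univ q p).toReal + (T w univ p r).toReal := by
  rw [← ENNReal.toReal_add (T_univ_ne_top h.fin _ _) (T_univ_ne_top h.fin _ _)]
  exact ENNReal.toReal_mono (ENNReal.add_ne_top.2 ⟨T_univ_ne_top h.fin _ _, T_univ_ne_top h.fin _ _⟩)
    (T_triangle _ _ _ _ _)

theorem Lim.zero (hL : Lim σ K w φ τ) (l : ℤ) : φ l 0 = 0 := by
  have h1 := hL.lim l 0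
  simp only [sub_self] at h1
  exact tendsto_nhds_unique h1 tendsto_const_nhds |>.symm ▸ rfl

theorem Lim.lip (h : Cfg σ K w) (hL : Lim σ K w φ τ) (l : ℤ) : Lip w (Rg σ w K l) (pk σ w K l) (φ l) := by
  intro u j
  have h1 := (hL.lim l u).sub (hL.lim l j)
  refine le_of_tendsto h1 ?_
  filter_upwards [hL.mem l] with r hr
  have := h.tpot_lip hr u j
  linarith

theorem Lim.co_phi (hL : Lim σ K w φ τ) (l : ℤ) : ∃ η > 0, ∃ C, ∀ j : ℤ, η * |(j : ℝ)| - C ≤
    (T w univ (pk σ w K l 0) (pk σ w K l j)).toReal + φ l j := by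
  obtain ⟨η, hη, C, hC⟩ := hL.co l
  refine ⟨η, hη, C, fun j => ?_⟩
  exact ge_of_tendsto ((hL.lim l j).const_add _) (hC.mono fun r hr => hr j)

/-- Uniform coercivity seen from any point, in the form needed for the limit lemmas. -/
theorem Lim.unif (h : Cfg σ K w) (hL : Lim σ K w φ τ) {k l : ℤ} (hkl : k ≤ l) (x : ℤ) (M : ℝ) :
    ∃ J : Finset ℤ, ∀ᶠ r in atTop, ∀ j ∉ J,
      M < (T w (Rg σ w K k) (pk σ w K k x) (pk σ w K l j)).toReal +
        (tpot σ K w (τ r) l j - tpot σ K w (τ r) l 0) := by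
  obtain ⟨η, hη, C, hC⟩ := hL.co l
  set A := (T w univ (pk σ w K l 0) (pk σ w K k x)).toReal with hA
  have hfin : {j : ℤ | η * |(j : ℝ)| - C - A ≤ M}.Finite :=
    finite_of_co (C := C + A) hη (fun j => by linarith)
  refine ⟨hfin.toFinset, hC.mono fun r hr j hj => ?_⟩
  simp only [Finite.mem_toFinset, mem_ofPred_eq, not_le] at hj
  have h1 := T_univ_anchor h (pk σ w K k x) (pk σ w K l 0) (pk σ w K l j)
  have h2 := ENNReal.toReal_mono ((h.eh hkl x).fin j) (T_mono (w := w) (subset_univ (Rg σ w K k)) (pk σ w K k x)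
      (pk σ w K l j))
  have h3 := hr j
  linarith

theorem Lim.coer (h : Cfg σ K w) (hL : Lim σ K w φ τ) (k l x : ℤ) (M : ℝ) :
    {j | (T w univ (pk σ w K k x) (pk σ w K l j)).toReal + φ l j ≤ M}.Finite := by
  obtain ⟨η, hη, C, hC⟩ := hL.co_phi l
  refine finite_of_co (η := η) (C := C + (T w univ (pk σ w K l 0) (pk σ w K k x)).toReal) hη fun j => ?_
  have h1 := T_univ_anchor h (pk σ w K k x) (pk σ w K l 0) (pk σ w K l j)
  have h3 := hC j
  linarith

theorem Lim.coer0 (h : Cfg σ K w) (hL : Lim σ K w φ τ) (k l x : ℤ) (M : ℝ) :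
    {j | (T w univ (pk σ w K k x) (pk σ w K l j)).toReal ≤ M}.Finite := by
  obtain ⟨η, hη, C, hC⟩ := hL.co0 l
  refine finite_of_co (η := η) (C := C + (T w univ (pk σ w K l 0) (pk σ w K k x)).toReal) hη fun j => ?_
  have h1 := T_univ_anchor h (pk σ w K k x) (pk σ w K l 0) (pk σ w K l j)
  have h3 := hC j
  linarith

theorem isMin_add {D : Set V} {p : V} {q : ℤ → V} {φ : ℤ → ℝ} {m : ℝ} (c : ℝ) (h : IsMin w D p q φ m) :
    IsMin w D p q (fun j => φ j + c) (m + c) := by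
  obtain ⟨h1, j, h2⟩ := h
  exact ⟨fun j => by have := h1 j; linarith, j, by linarith⟩

theorem Lim.exists_ent (h : Cfg σ K w) (hL : Lim σ K w φ τ) {k l : ℤ} (hkl : k ≤ l) (x : ℤ) :
    ∃ u, En σ K w (φ l) k l x u := by
  refine Ent.exists (h.eh hkl x) (hL.lip h l) (fun M => ?_) (fun M => ?_)
  · refine (hL.coer h k l x M).subset fun j hj => ?_
    have h1 := ENNReal.toReal_mono ((h.eh hkl x).fin j) (T_mono (w := w) (subset_univ (Rg σ w K k)) (pk σ w K k x)
      (pk σ w K l j))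
    simp only [mem_ofPred_eq] at hj ⊢
    linarith
  · refine (hL.coer0 h k l x M).subset fun j hj => ?_
    have h1 := ENNReal.toReal_mono ((h.eh hkl x).fin j) (T_mono (w := w) (subset_univ (Rg σ w K k)) (pk σ w K k x)
      (pk σ w K l j))
    simp only [mem_ofPred_eq] at hj ⊢
    linarith

/-- The minima of the target potentials converge. -/
theorem Lim.tendsto_min (h : Cfg σ K w) (hL : Lim σ K w φ τ) {k l : ℤ} (hkl : k ≤ l) (x : ℤ) {m : ℝ}
    (hm : IsMin w (Rg σ w K k) (pk σ w K k x) (pk σ w K l) (φ l) m) :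
    Tendsto (fun r => tpot σ K w (τ r) k x - tpot σ K w (τ r) l 0) atTop (𝓝 m) := by
  refine IsMin.tendsto (φr := fun r j => tpot σ K w (τ r) l j - tpot σ K w (τ r) l 0) (hL.lim l) hm ?_
    (hL.unif h hkl x)
  filter_upwards [hL.mem l] with r hr
  have := isMin_add (-tpot σ K w (τ r) l 0) (h.isMin_t hkl x hr)
  simpa only [← sub_eq_add_neg] using this

/-- FLOW RELATIONS. -/
theorem Lim.rel (h : Cfg σ K w) (hL : Lim σ K w φ τ) {k l : ℤ} (hkl : k ≤ l) :
    ∃ c, ∀ x, IsMin w (Rg σ w K k) (pk σ w K k x) (pk σ w K l) (φ l) (φ k x + c) := by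
  have hm : ∀ x, ∃ m, IsMin w (Rg σ w K k) (pk σ w K k x) (pk σ w K l) (φ l) m := by
    intro x
    obtain ⟨u, hu⟩ := hL.exists_ent h hkl x
    exact ⟨_, Ent.isMin (h.eh hkl x) (hL.lip h l) hu⟩
  choose m hm using hm
  refine ⟨m 0, fun x => ?_⟩
  have h1 := (hL.tendsto_min h hkl x (hm x)).sub (hL.tendsto_min h hkl 0 (hm 0))
  have h2 := tendsto_nhds_unique (h1.congr fun r => by ring) (hL.lim k x)
  have h3 : φ k x + m 0 = m x := by linarith
  rw [h3]
  exact hm x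

/-- THE FLOW OF A LIMIT. -/
theorem Lim.flw (h : Cfg σ K w) (hL : Lim σ K w φ τ)
    (hun : ∀ k l x, k ≤ l → ∀ u j, En σ K w (φ l) k l x u → En σ K w (φ l) k l x j → u = j) :
    Flw σ K w φ where
  lip := hL.lip h
  coer := hL.coer h
  coer0 := hL.coer0 h
  rel := fun k l hkl => hL.rel h hkl
  uniq := hun

/-- The last entrances for the targets converge. -/
theorem Lim.eventually_am (h : Cfg σ K w) (hL : Lim σ K w φ τ)
    (hun : ∀ k l x, k ≤ l → ∀ u j, En σ K w (φ l) k l x u → En σ K w (φ l) k l x j → u = j)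
    {k l : ℤ} (hkl : k ≤ l) {x u : ℤ} (hu : En σ K w (φ l) k l x u) :
    ∀ᶠ r in atTop, AM w σ univ (ck σ w K k) (ck σ w K l) (τ r) x u := by
  have hex : ∀ r, ∃ ur, τ r ∈ Rg σ w K l →
      AM w σ univ (ck σ w K k) (ck σ w K l) (τ r) x ur := by
    intro r
    by_cases hr : τ r ∈ Rg σ w K l
    · obtain ⟨ur, hur⟩ := exists_AM (σ := σ) (E := univ) (c := ck σ w K k) h.hσ h.hw h.eg
        (ck_stp h.hσ h.good l) (h.ck_mono hkl) (x := x) (t := τ r) ⟨hr, trivial⟩ (by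
          rw [TI_univ]; exact h.fin_Rg k x (Rg_anti h.hσ h.good hkl hr))
      exact ⟨ur, fun _ => hur⟩
    · exact ⟨0, fun h' => absurd h' hr⟩
  choose ur hur using hex
  have h1 : ∀ᶠ r in atTop, ur r = u := by
    refine Ent.eventually_eq (h.eh hkl x) (hL.lip h l)
      (φr := fun r j => tpot σ K w (τ r) l j - tpot σ K w (τ r) l 0) (hL.lim l) ?_ (hL.unif h hkl x)
      fun j hj => hun k l x hkl j u hj hu
    filter_upwards [hL.mem l] with r hr
    have h2 := (h.ent_iff_am hkl x (ur r) hr).2 (hur r hr)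
    have h3 := h2.add_const (-tpot σ K w (τ r) l 0)
    simpa only [← sub_eq_add_neg] using h3
  filter_upwards [h1, hL.mem l] with r h2 h3
  rw [← h2]
  exact hur r h3

/-- MONOTONICITY of the flow of a limit. -/
theorem Lim.mono (h : Cfg σ K w) (hL : Lim σ K w φ τ)
    (hun : ∀ k l x, k ≤ l → ∀ u j, En σ K w (φ l) k l x u → En σ K w (φ l) k l x j → u = j)
    {k l : ℤ} (hkl : k ≤ l) {x x' u u' : ℤ} (hx : x ≤ x') (hu : En σ K w (φ l) k l x u)
    (hu' : En σ K w (φ l) k l x' u') : u ≤ u' := by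
  rcases hx.eq_or_lt with rfl | hx
  · exact (hun k l x hkl _ _ hu hu').le
  have hcc := h.ck_mono hkl
  obtain ⟨A, hA⟩ := exists_head h.eg (D := reg σ (ck σ w K k) ∩ univ) (R := reg σ (ck σ w K l) ∩ univ)
    (x := pt σ (ck σ w K k) x) (y := pt σ (ck σ w K l) u) ⟨pt_mem _ _ _, trivial⟩
    ⟨reg_mono hcc (pt_mem _ _ _), trivial⟩ (by rw [inter_univ, inter_univ]; exact hu.1)
  obtain ⟨A', hA'⟩ := exists_head h.eg (D := reg σ (ck σ w K k) ∩ univ) (R := reg σ (ck σ w K l) ∩ univ)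
    (x := pt σ (ck σ w K k) x') (y := pt σ (ck σ w K l) u') ⟨pt_mem _ _ _, trivial⟩
    ⟨reg_mono hcc (pt_mem _ _ _), trivial⟩ (by rw [inter_univ, inter_univ]; exact hu'.1)
  obtain ⟨q, hq⟩ := exists_fst_le A
  obtain ⟨q', hq'⟩ := exists_fst_le A'
  obtain ⟨r, h1, h2, h3⟩ := ((hL.eventually_am h hun hkl hu).and ((hL.eventually_am h hun hkl hu').and
    (hL.col.eventually_ge_atTop (max q q')))).exists
  refine h1.mono_heads h.hσ h.hw h.ug h.eg (ck_stp h.hσ h.good l) hcc hx h2 hA hA' ?_ ?_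
  · intro v hv _
    exact (hq v hv).trans ((le_max_left _ _).trans h3)
  · intro v hv _
    exact (hq' v hv).trans ((le_max_right _ _).trans h3)

end

end C7
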