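import Pool.Agent.Lib.MP_c725eb_pr.WallCross

/-!
# Reflections: `σ = 0`: `x₂ ↦ -x₂`; `σ = 1`: `x₁ ↔ x₂`. They exchange upper and lower walls.
-/

set_option autoImplicit false

namespace C7

open scoped ENNReal

/-- The reflection of the system. -/
def rf (σ : ℤ) (x : V) : V := if σ = 0 then (x.1, -x.2) else (x.2, x.1)

/-- The reflected configuration. -/
noncomputable def rfw (σ : ℤ) (w : W) : W := fun v d =>
  if d = 0 then step w (rf σ v) (rf σ (v.1 + 1, v.2))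
  else if d = 1 then step w (rf σ v) (rf σ (v.1, v.2 + 1))
  else ⊤

/-- The reflected curve. -/
def rfc (σ : ℤ) (c : ℤ → ℤ) : ℤ → ℤ := fun i => c (-i) - σ * i

theorem rf_zero (x : V) : rf 0 x = (x.1, -x.2) := by unfold rf; simp
theorem rf_one (x : V) : rf 1 x = (x.2, x.1) := by unfold rf; simp

theorem rf_rf {σ : ℤ} (hσ : σ = 0 ∨ σ = 1) (x : V) : rf σ (rf σ x) = x := by
  rcases hσ with rfl | rfl
  · rw [rf_zero, rf_zero]; simp
  · rw [rf_one, rf_one]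

theorem rf_image {σ : ℤ} (hσ : σ = 0 ∨ σ = 1) (D : Set V) (x : V) : x ∈ rf σ '' D ↔ rf σ x ∈ D := by
  constructor
  · rintro ⟨y, hy, rfl⟩
    rw [rf_rf hσ]; exact hy
  · intro h
    exact ⟨rf σ x, h, rf_rf hσ x⟩

theorem nb_rf {σ : ℤ} (hσ : σ = 0 ∨ σ = 1) {u v : V} (h : Nb u v) : Nb (rf σ u) (rf σ v) := by
  obtain ⟨a, b⟩ := u
  obtain ⟨c, d⟩ := v
  unfold Nb at *
  simp only [Prod.mk.injEq] at h
  rcases hσ with rfl | rfl
  · rw [rf_zero, rf_zero]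
    simp only [Prod.mk.injEq]
    omega
  · rw [rf_one, rf_one]
    simp only [Prod.mk.injEq]
    omega

theorem rfw_diag (σ : ℤ) (w : W) (v : V) : rfw σ w v 2 = ⊤ := by
  unfold rfw
  simp

theorem step_rfw {σ : ℤ} (hσ : σ = 0 ∨ σ = 1) {w : W} (hw : ∀ v, w v 2 = ⊤) (u v : V) :
    step (rfw σ w) u v = step w (rf σ u) (rf σ v) := by
  by_cases h : Nb u v
  · rcases h with h | h | h | h
    · subst h
      rw [step_right]
      unfold rfw
      simp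
    · subst h
      rw [step_comm, step_right, step_comm w]
      unfold rfw
      simp
    · subst h
      rw [step_up]
      unfold rfw
      simp
    · subst h
      rw [step_comm, step_up, step_comm w]
      unfold rfw
      simp
  · have h1 : step (rfw σ w) u v = ⊤ := by
      by_contra hne
      exact h (nb_of_step_ne_top (rfw_diag σ w) hne)
    have h2 : step w (rf σ u) (rf σ v) = ⊤ := by
      by_contra hne
      apply h
      have := nb_rf hσ (nb_of_step_ne_top hw hne)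
      rwa [rf_rf hσ, rf_rf hσ] at this
    rw [h1, h2]

theorem cost_rfw {σ : ℤ} (hσ : σ = 0 ∨ σ = 1) {w : W} (hw : ∀ v, w v 2 = ⊤) (l : List V) :
    cost (rfw σ w) l = cost w (l.map (rf σ)) := by
  induction l with
  | nil => rfl
  | cons a l ih =>
    cases l with
    | nil => rfl
    | cons b l' =>
      simp only [List.map_cons, cost_cons_cons] at ih ⊢
      rw [ih, step_rfw hσ hw]

theorem IsW.rf {σ : ℤ} {D : Set V} {x y : V} {l : List V} (h : IsW D x y l) :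
    IsW (C7.rf σ '' D) (C7.rf σ x) (C7.rf σ y) (l.map (C7.rf σ)) := by
  refine ⟨?_, ?_, ?_⟩
  · rw [List.head?_map, h.1]; rfl
  · rw [List.getLast?_map, h.2.1]; rfl
  · intro v hv
    obtain ⟨u, hu, rfl⟩ := List.mem_map.1 hv
    exact ⟨u, h.2.2 u hu, rfl⟩

theorem rf_image_image {σ : ℤ} (hσ : σ = 0 ∨ σ = 1) (D : Set V) : rf σ '' (rf σ '' D) = D := by
  ext x
  rw [rf_image hσ, rf_image hσ, rf_rf hσ]

/-- Passage times of the reflected configuration. -/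
theorem T_rfw {σ : ℤ} (hσ : σ = 0 ∨ σ = 1) {w : W} (hw : ∀ v, w v 2 = ⊤) (D : Set V) (x y : V) :
    T (rfw σ w) D x y = T w (rf σ '' D) (rf σ x) (rf σ y) := by
  apply le_antisymm
  · refine le_T fun l hl => ?_
    have h1 := hl.rf (σ := σ)
    rw [rf_rf hσ, rf_rf hσ, rf_image_image hσ] at h1
    refine (T_le h1).trans ?_
    rw [cost_rfw hσ hw, List.map_map]
    have e2 : rf σ ∘ rf σ = id := by
      funext v
      exact rf_rf hσ v
    rw [e2, List.map_id]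
  · refine le_T fun l hl => ?_
    rw [cost_rfw hσ hw]
    exact T_le hl.rf

theorem ix_rf {σ : ℤ} (hσ : σ = 0 ∨ σ = 1) (x : V) : ix σ (rf σ x) = -ix σ x := by
  unfold ix
  rcases hσ with rfl | rfl
  · rw [rf_zero]; simp
  · rw [rf_one]; simp

theorem ln_rf {σ : ℤ} (hσ : σ = 0 ∨ σ = 1) (x : V) : ln σ (rf σ x) = ln σ x := by
  unfold ln
  rcases hσ with rfl | rfl
  · rw [rf_zero]; simp
  · rw [rf_one]; simp only; ring

theorem det_rf {σ : ℤ} (hσ : σ = 0 ∨ σ = 1) (u v : V) : det (rf σ u) (rf σ v) = -det u v := by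
  unfold det
  rcases hσ with rfl | rfl
  · rw [rf_zero, rf_zero]; simp only; ring
  · rw [rf_one, rf_one]; simp only; ring

theorem pt_rfc {σ : ℤ} (hσ : σ = 0 ∨ σ = 1) (c : ℤ → ℤ) (i : ℤ) : pt σ (rfc σ c) i = rf σ (pt σ c (-i)) := by
  unfold pt rfc
  rcases hσ with rfl | rfl
  · rw [rf_zero]; simp
  · rw [rf_one]
    ext
    · simp only; ring
    · simp

theorem rfc_rfc {σ : ℤ} (c : ℤ → ℤ) : rfc σ (rfc σ c) = c := by
  funext i
  unfold rfc
  rw [neg_neg]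
  ring

theorem rfc_stp {σ : ℤ} (hσ : σ = 0 ∨ σ = 1) {c : ℤ → ℤ} (h : Stp σ c) : Stp σ (rfc σ c) := by
  intro i
  have h1 := h (-(i + 1))
  have e : -(i + 1) + 1 = -i := by ring
  rw [e] at h1
  unfold rfc
  rcases hσ with rfl | rfl
  · simp only [zero_mul, sub_zero] at *
    omega
  · simp only [one_mul] at *
    omega

theorem mem_reg_rf {σ : ℤ} (hσ : σ = 0 ∨ σ = 1) (c : ℤ → ℤ) (x : V) :
    rf σ x ∈ reg σ c ↔ x ∈ reg σ (rfc σ c) := by
  change c (ix σ (rf σ x)) ≤ (rf σ x).1 ↔ rfc σ c (ix σ x) ≤ x.1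
  rw [ix_rf hσ]
  unfold rfc
  rcases hσ with rfl | rfl
  · rw [rf_zero]; simp
  · rw [rf_one]
    unfold ix
    simp only [one_mul]
    constructor <;> intro h <;> linarith

theorem mem_lft_rf {σ : ℤ} (hσ : σ = 0 ∨ σ = 1) (c : ℤ → ℤ) (x : V) :
    rf σ x ∈ lft σ c ↔ x ∈ lft σ (rfc σ c) := by
  change (rf σ x).1 ≤ c (ix σ (rf σ x)) ↔ x.1 ≤ rfc σ c (ix σ x)
  rw [ix_rf hσ]
  unfold rfc
  rcases hσ with rfl | rfl
  · rw [rf_zero]; simp
  · rw [rf_one]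
    unfold ix
    simp only [one_mul]
    constructor <;> intro h <;> linarith

theorem mem_wup_rf {σ : ℤ} (hσ : σ = 0 ∨ σ = 1) (u : V) (L : ℤ) (x : V) :
    rf σ x ∈ Wup σ u L ↔ x ∈ Wlo σ (rf σ u) L := by
  change det u (rf σ x) ≤ L * ln σ u ↔ -(L * ln σ (rf σ u)) ≤ det (rf σ u) x
  have h := det_rf hσ u (rf σ x)
  rw [rf_rf hσ] at h
  rw [ln_rf hσ, h]
  constructor <;> intro h <;> linarith

theorem mem_wlo_rf {σ : ℤ} (hσ : σ = 0 ∨ σ = 1) (u : V) (L : ℤ) (x : V) :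
    rf σ x ∈ Wlo σ u L ↔ x ∈ Wup σ (rf σ u) L := by
  have h := mem_wup_rf hσ (rf σ u) L (rf σ x)
  rw [rf_rf hσ, rf_rf hσ] at h
  exact h.symm

theorem rf_tlo {σ : ℤ} (hσ : σ = 0 ∨ σ = 1) (u : V) (L m : ℤ) :
    rf σ (tlo σ (rf σ u) L m) = tup σ u L m := by
  unfold tlo tup
  rcases hσ with rfl | rfl
  · rw [rf_zero, rf_zero]
    ext
    · simp
    · simp only; ring
  · rw [rf_one, rf_one]
    ext
    · simp
    · simp

/-- Passage times from the vertices of a curve, in the reflected configuration. -/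
theorem TI_rfw {σ : ℤ} (hσ : σ = 0 ∨ σ = 1) {w : W} (hw : ∀ v, w v 2 = ⊤) {E E' : Set V}
    (hE : ∀ x, rf σ x ∈ E ↔ x ∈ E') (c : ℤ → ℤ) (x : ℤ) (t : V) :
    TI (rfw σ w) σ E' (rfc σ c) x t = TI w σ E c (-x) (rf σ t) := by
  unfold TI
  rw [T_rfw hσ hw, pt_rfc hσ, rf_rf hσ]
  congr 1
  ext v
  rw [rf_image hσ]
  constructor
  · rintro ⟨h1, h2⟩
    rw [← mem_reg_rf hσ, rf_rf hσ] at h1
    rw [← hE, rf_rf hσ] at h2
    exact ⟨h1, h2⟩
  · rintro ⟨h1, h2⟩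
    refine ⟨?_, ?_⟩
    · rw [← mem_reg_rf hσ, rf_rf hσ]; exact h1
    · rw [← hE, rf_rf hσ]; exact h2

/-- Upper walls are reflected lower walls. -/
theorem TI_wup {σ : ℤ} (hσ : σ = 0 ∨ σ = 1) {w : W} (hw : ∀ v, w v 2 = ⊤) (c : ℤ → ℤ) (u : V) (L m x : ℤ) :
    TI w σ (Wup σ u L) c x (tup σ u L m) =
      TI (rfw σ w) σ (Wlo σ (rf σ u) L) (rfc σ c) (-x) (tlo σ (rf σ u) L m) := by
  rw [TI_rfw hσ hw (E := Wup σ u L) (mem_wup_rf hσ u L), neg_neg, rf_tlo hσ]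

theorem BI_wup {σ : ℤ} (hσ : σ = 0 ∨ σ = 1) {w : W} (hw : ∀ v, w v 2 = ⊤) (c : ℤ → ℤ) (u : V) (L m x y : ℤ) :
    BI w σ (Wup σ u L) c (tup σ u L m) x y =
      BI (rfw σ w) σ (Wlo σ (rf σ u) L) (rfc σ c) (tlo σ (rf σ u) L m) (-x) (-y) := by
  unfold BI
  rw [TI_wup hσ hw, TI_wup hσ hw]

/-- Strips are reflected strips. -/
theorem TI_lft {σ : ℤ} (hσ : σ = 0 ∨ σ = 1) {w : W} (hw : ∀ v, w v 2 = ⊤) (c d : ℤ → ℤ) (h x : ℤ) :
    TI w σ (lft σ d) c x (pt σ d h) =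
      TI (rfw σ w) σ (lft σ (rfc σ d)) (rfc σ c) (-x) (pt σ (rfc σ d) (-h)) := by
  rw [TI_rfw hσ hw (E := lft σ d) (mem_lft_rf hσ d), neg_neg, pt_rfc hσ, rf_rf hσ, neg_neg]

end C7
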