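import Mathlib
import Pool.Agent.Lib.MP_c725eb_pr.Refl
import Pool.Agent.Lib.MP_c725eb_pr.Hwy2

/-!
# Symmetries of the square lattice, acting on configurations and on the canonical space

`gw g w` is the configuration `w` transported by the automorphism `g` of the lattice, `gO g ω` the
corresponding element of the canonical space.  The curve systems are invariant under `rf σ`.
-/

set_option autoImplicit false

namespace C7

open MeasureTheory ProbabilityTheory Filter Set
open scoped ENNReal Topology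

/-! ### transport of configurations -/

/-- The transported configuration. -/
noncomputable def gw (g : V → V) (w : W) : W := fun v d =>
  if d = 0 then step w (g v) (g (v.1 + 1, v.2))
  else if d = 1 then step w (g v) (g (v.1, v.2 + 1))
  else ⊤

theorem rfw_eq_gw (σ : ℤ) (w : W) : rfw σ w = gw (rf σ) w := rfl

/-- Automorphisms of the lattice (`g'` is the inverse). -/
structure Aut (g g' : V → V) : Prop where
  left_inv : ∀ x, g' (g x) = x
  right_inv : ∀ x, g (g' x) = x
  nb : ∀ {u v}, Nb u v → Nb (g u) (g v)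
  nb' : ∀ {u v}, Nb u v → Nb (g' u) (g' v)

theorem Aut.symm {g g' : V → V} (h : Aut g g') : Aut g' g := ⟨h.right_inv, h.left_inv, h.nb', h.nb⟩

theorem Aut.comp {g g' f f' : V → V} (h : Aut g g') (k : Aut f f') : Aut (g ∘ f) (f' ∘ g') :=
  ⟨fun x => by simp [h.left_inv, k.left_inv], fun x => by simp [h.right_inv, k.right_inv],
    fun hn => h.nb (k.nb hn), fun hn => k.nb' (h.nb' hn)⟩

theorem aut_rf {σ : ℤ} (hσ : σ = 0 ∨ σ = 1) : Aut (rf σ) (rf σ) :=
  ⟨rf_rf hσ, rf_rf hσ, nb_rf hσ, nb_rf hσ⟩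

/-- The reflection `x₁ ↦ -x₁`. -/
def rx (x : V) : V := (-x.1, x.2)

/-- The point reflection. -/
def rn (x : V) : V := (-x.1, -x.2)

theorem aut_rx : Aut rx rx := by
  refine ⟨fun x => by simp [rx], fun x => by simp [rx], ?_, ?_⟩ <;>
  · intro u v h
    obtain ⟨a, b⟩ := u
    obtain ⟨c, d⟩ := v
    simp only [Nb, rx, Prod.mk.injEq] at h ⊢
    omega

theorem aut_rn : Aut rn rn := by
  refine ⟨fun x => by simp [rn], fun x => by simp [rn], ?_, ?_⟩ <;>
  · intro u v h
    obtain ⟨a, b⟩ := u
    obtain ⟨c, d⟩ := v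
    simp only [Nb, rn, Prod.mk.injEq] at h ⊢
    omega

section transport

variable {g g' : V → V} (hg : Aut g g')
include hg

theorem Aut.image_image (D : Set V) : g' '' (g '' D) = D := by
  rw [← image_comp]
  have e : g' ∘ g = id := funext hg.left_inv
  rw [e, image_id]

theorem Aut.mem_image (D : Set V) (x : V) : x ∈ g '' D ↔ g' x ∈ D := by
  constructor
  · rintro ⟨y, hy, rfl⟩
    rw [hg.left_inv]; exact hy
  · intro h
    exact ⟨g' x, h, hg.right_inv x⟩

theorem step_gw {w : W} (hw : ∀ v, w v 2 = ⊤) (u v : V) :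
    step (gw g w) u v = step w (g u) (g v) := by
  have hd : ∀ v, gw g w v 2 = ⊤ := fun v => by simp [gw]
  by_cases h : Nb u v
  · rcases h with h | h | h | h
    · subst h
      rw [step_right]
      unfold gw
      simp
    · subst h
      rw [step_comm, step_right, step_comm w]
      unfold gw
      simp
    · subst h
      rw [step_up]
      unfold gw
      simp
    · subst h
      rw [step_comm, step_up, step_comm w]
      unfold gw
      simp
  · have h1 : step (gw g w) u v = ⊤ := by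
      by_contra hne
      exact h (nb_of_step_ne_top hd hne)
    have h2 : step w (g u) (g v) = ⊤ := by
      by_contra hne
      apply h
      have := hg.nb' (nb_of_step_ne_top hw hne)
      rwa [hg.left_inv, hg.left_inv] at this
    rw [h1, h2]

theorem cost_gw {w : W} (hw : ∀ v, w v 2 = ⊤) (l : List V) :
    cost (gw g w) l = cost w (l.map g) := by
  induction l with
  | nil => rfl
  | cons a l ih =>
    cases l with
    | nil => rfl
    | cons b l' =>
      simp only [List.map_cons, cost_cons_cons] at ih ⊢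
      rw [ih, step_gw hg hw]

omit hg in
theorem IsW.map (g : V → V) {D : Set V} {x y : V} {l : List V} (h : IsW D x y l) :
    IsW (g '' D) (g x) (g y) (l.map g) := by
  refine ⟨?_, ?_, ?_⟩
  · rw [List.head?_map, h.1]; rfl
  · rw [List.getLast?_map, h.2.1]; rfl
  · intro v hv
    obtain ⟨u, hu, rfl⟩ := List.mem_map.1 hv
    exact ⟨u, h.2.2 u hu, rfl⟩

/-- Passage times of the transported configuration. -/
theorem T_gw {w : W} (hw : ∀ v, w v 2 = ⊤) (D : Set V) (x y : V) :
    T (gw g w) D x y = T w (g '' D) (g x) (g y) := by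
  apply le_antisymm
  · refine le_T fun l hl => ?_
    have h1 := hl.map g'
    rw [hg.left_inv, hg.left_inv, hg.image_image] at h1
    refine (T_le h1).trans ?_
    rw [cost_gw hg hw, List.map_map]
    have e2 : g ∘ g' = id := funext hg.right_inv
    rw [e2, List.map_id]
  · refine le_T fun l hl => ?_
    rw [cost_gw hg hw]
    exact T_le (hl.map g)

theorem T_gw_univ {w : W} (hw : ∀ v, w v 2 = ⊤) (x y : V) :
    T (gw g w) univ x y = T w univ (g x) (g y) := by
  rw [T_gw hg hw]
  have e : g '' univ = univ := by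
    rw [image_univ]
    exact range_eq_univ.2 fun x => ⟨g' x, hg.right_inv x⟩
  rw [e]

end transport

/-! ### the canonical space -/

/-- The edge between two neighbours. -/
def toE (u v : V) : Ed :=
  if v = (u.1 + 1, u.2) then (u, 0)
  else if u = (v.1 + 1, v.2) then (v, 0)
  else if v = (u.1, u.2 + 1) then (u, 1)
  else (v, 1)

/-- The second end point of an edge. -/
def nxt (e : Ed) : V := if e.2 = 0 then (e.1.1 + 1, e.1.2) else (e.1.1, e.1.2 + 1)

theorem nb_nxt (e : Ed) : Nb e.1 (nxt e) := by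
  unfold nxt
  split_ifs
  · exact Or.inl rfl
  · exact Or.inr (Or.inr (Or.inl rfl))

theorem toE_eq {u v : V} (h : Nb u v) :
    ((toE u v).1 = u ∧ nxt (toE u v) = v) ∨ ((toE u v).1 = v ∧ nxt (toE u v) = u) := by
  obtain ⟨a, b⟩ := u
  obtain ⟨c, d⟩ := v
  unfold toE
  split_ifs with h1 h2 h3
  · left; exact ⟨rfl, h1.symm⟩
  · right; exact ⟨rfl, h2.symm⟩
  · left; exact ⟨rfl, h3.symm⟩
  · right
    refine ⟨rfl, ?_⟩
    rcases h with h | h | h | h
    · exact absurd h h1
    · exact absurd h h2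
    · exact absurd h h3
    · exact h.symm

theorem step_wt_eq (ω : Om) {u v : V} (h : Nb u v) :
    step (wt ω) u v = ENNReal.ofReal (ω (toE u v)) := by
  obtain ⟨a, b⟩ := u
  obtain ⟨c, d⟩ := v
  unfold toE
  split_ifs with h1 h2 h3
  · rw [h1, step_right, wt_zero]
  · rw [h2, step_comm, step_right, wt_zero]
  · rw [h3, step_up, wt_one]
  · rcases h with h | h | h | h
    · exact absurd h h1
    · exact absurd h h2
    · exact absurd h h3
    · rw [h, step_comm, step_up, wt_one]

/-- The action on edges. -/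
def gE (g : V → V) (e : Ed) : Ed := toE (g e.1) (g (nxt e))

/-- The action on the canonical space. -/
def gO (g : V → V) (ω : Om) : Om := reix (gE g) ω

theorem gO_apply (g : V → V) (ω : Om) (e : Ed) : gO g ω e = ω (gE g e) := rfl

theorem ed_ext {e e' : Ed} (h1 : e.1 = e'.1) (h2 : nxt e = nxt e') : e = e' := by
  obtain ⟨⟨a, b⟩, d⟩ := e
  obtain ⟨⟨a', b'⟩, d'⟩ := e'
  simp only [Prod.mk.injEq] at h1
  obtain ⟨rfl, rfl⟩ := h1
  fin_cases d <;> fin_cases d' <;> simp_all [nxt]

theorem ed_ext' {e e' : Ed} (h1 : e.1 = nxt e') (h2 : nxt e = e'.1) : False := by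
  obtain ⟨⟨a, b⟩, d⟩ := e
  obtain ⟨⟨a', b'⟩, d'⟩ := e'
  fin_cases d <;> fin_cases d' <;> simp only [nxt] at h1 h2 <;>
    simp at h1 h2 <;> omega

theorem gE_injective {g g' : V → V} (hg : Aut g g') : Function.Injective (gE g) := by
  intro e e' h
  have hinj : Function.Injective g := Function.LeftInverse.injective hg.left_inv
  have h1 := toE_eq (hg.nb (nb_nxt e))
  have h2 := toE_eq (hg.nb (nb_nxt e'))
  unfold gE at h
  rw [h] at h1
  rcases h1 with ⟨h3, h4⟩ | ⟨h3, h4⟩ <;> rcases h2 with ⟨h5, h6⟩ | ⟨h5, h6⟩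
  · exact ed_ext (hinj (h3.symm.trans h5)) (hinj (h4.symm.trans h6))
  · exact (ed_ext' (hinj (h3.symm.trans h5)) (hinj (h4.symm.trans h6))).elim
  · exact (ed_ext' (hinj (h4.symm.trans h6)) (hinj (h3.symm.trans h5))).elim
  · exact ed_ext (hinj (h4.symm.trans h6)) (hinj (h3.symm.trans h5))

theorem wt_gO {g g' : V → V} (hg : Aut g g') (ω : Om) : wt (gO g ω) = gw g (wt ω) := by
  funext v d
  fin_cases d
  · show wt (gO g ω) v 0 = gw g (wt ω) v 0
    rw [wt_zero, gO_apply]
    unfold gw gE
    rw [if_pos rfl]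
    exact (step_wt_eq ω (hg.nb (nb_nxt (v, 0)))).symm
  · show wt (gO g ω) v 1 = gw g (wt ω) v 1
    rw [wt_one, gO_apply]
    unfold gw gE
    rw [if_neg (by decide), if_pos rfl]
    exact (step_wt_eq ω (hg.nb (nb_nxt (v, 1)))).symm
  · show wt (gO g ω) v 2 = gw g (wt ω) v 2
    rw [wt_two]
    unfold gw
    rfl

theorem measurePreserving_gO (F : Measure ℝ) [IsProbabilityMeasure F] {g g' : V → V}
    (hg : Aut g g') : MeasurePreserving (gO g) (iid Ed F) (iid Ed F) :=
  measurePreserving_reix F (gE_injective hg)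

/-- Translations. -/
theorem gE_tr {g g' f : V → V} (hg : Aut g g') {s s' : V}
    (h : ∀ x, g (tr s x) = tr s' (f x)) (hf : ∀ x, f x = g x) (e : Ed) :
    gE g (tr s e.1, e.2) = (tr s' (gE g e).1, (gE g e).2) := by
  have hn : nxt (tr s e.1, e.2) = tr s (nxt e) := by
    unfold nxt tr
    split_ifs <;> refine Prod.ext ?_ ?_ <;> simp only <;> first | rfl | ring
  unfold gE
  rw [hn]
  simp only
  rw [h, h, hf, hf]
  have key : ∀ u v : V, toE (tr s' u) (tr s' v) = (tr s' (toE u v).1, (toE u v).2) := by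
    rintro ⟨a, b⟩ ⟨c, d⟩
    unfold toE tr
    simp only [Prod.mk.injEq]
    split_ifs <;> first | rfl | (exfalso; omega)
  exact key _ _

theorem rf_tr {σ : ℤ} (hσ : σ = 0 ∨ σ = 1) (s x : V) : rf σ (tr s x) = tr (rf σ s) (rf σ x) := by
  unfold tr
  rcases hσ with rfl | rfl
  · simp only [rf_zero, Prod.mk.injEq, true_and]; ring
  · simp only [rf_one]

theorem rx_tr (s x : V) : rx (tr s x) = tr (rx s) (rx x) := by
  unfold tr rx
  simp only [Prod.mk.injEq, and_true]; ring

theorem rn_tr (s x : V) : rn (tr s x) = tr (rn s) (rn x) := by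
  unfold tr rn
  simp only [Prod.mk.injEq]
  constructor <;> ring

/-- Transport and shifts. -/
theorem gO_shO {g g' : V → V} (hg : Aut g g') (hadd : ∀ s x, g (tr s x) = tr (g s) (g x))
    (s : V) (ω : Om) : gO g (shO (g s) ω) = shO s (gO g ω) := by
  funext ⟨v, d⟩
  have h := gE_tr hg (s := s) (s' := g s) (f := g) (hadd s) (fun _ => rfl) (v, d)
  show shO (g s) ω (gE g (v, d)) = ω (gE g (tr s (v, d).1, (v, d).2))
  rw [h]
  generalize gE g (v, d) = q
  obtain ⟨q1, q2⟩ := q
  rw [shO_apply]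
  rfl

/-! ### the curves -/

section curves

variable {σ : ℤ} {w : W} {K : ℝ≥0∞}

theorem rch_refl {C : ℤ × ℤ → Prop} {g : ℤ → ℤ} {v : ℤ × ℤ} (h : Rch C g v) :
    Rch (fun v => C (v.1, -v.2)) (fun i => g (-i)) (v.1, -v.2) := by
  induction h with
  | base h => exact .base (by simpa using h)
  | @fwd v _ hc ih => exact .fwd (v := (v.1, -v.2)) ih (by simpa using hc)
  | @dn v _ ih =>
    have := Rch.up ih
    simp only at this ⊢
    rwa [show -v.2 + 1 = -(v.2 - 1) by ring] at this
  | @up v _ ih =>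
    have := Rch.dn ih
    simp only at this ⊢
    rwa [show -v.2 - 1 = -(v.2 + 1) by ring] at this

theorem rch_refl_iff {C : ℤ × ℤ → Prop} {g : ℤ → ℤ} {v : ℤ × ℤ} :
    Rch (fun v => C (v.1, -v.2)) (fun i => g (-i)) v ↔ Rch C g (v.1, -v.2) := by
  constructor
  · intro h
    have := rch_refl h
    simpa using this
  · intro h
    have := rch_refl h
    simpa using this

theorem Lam_refl (C : ℤ × ℤ → Prop) (g : ℤ → ℤ) (i : ℤ) :
    Lam (fun v => C (v.1, -v.2)) (fun i => g (-i)) i = Lam C g (-i) := by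
  unfold Lam
  simp only [rch_refl_iff]

theorem opn_gw_rf (hσ : σ = 0 ∨ σ = 1) (v : V) : Opn σ (rfw σ w) K v ↔ Opn σ w K (rf σ v) := by
  obtain ⟨a, b⟩ := v
  rcases hσ with rfl | rfl
  · unfold Opn rfw
    simp only [rf_zero, if_true, true_imp_iff]
    have e1 : step w (a, -b) (a + 1, -b) = w (a, -b) 0 := step_right w (a, -b)
    have e2 : step w (a, -b) (a, -(b + 1)) = w (a, -b - 1) 1 := by
      rw [step_comm]
      have := step_up w (a, -b - 1)
      simp only [sub_add_cancel] at this
      rw [← this]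
      congr 2
      ring
    have e3 : step w (a, -(b - 1)) (a, -(b - 1 + 1)) = w (a, -b) 1 := by
      rw [step_comm]
      have := step_up w (a, -b)
      simp only at this
      rw [← this]
      congr 2 <;> ring
    rw [e1]
    simp only [if_neg (show ¬ (1 : Fin 3) = 0 by decide)]
    rw [e2, e3]
    tauto
  · unfold Opn rfw
    simp only [rf_one, if_true, one_ne_zero, false_imp_iff, and_true]
    have e1 : step w (b, a) (b, a + 1) = w (b, a) 1 := step_up w (b, a)
    have e2 : step w (b, a) (b + 1, a) = w (b, a) 0 := step_right w (b, a)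
    rw [e1, e2]
    tauto

theorem clP_rfw (hσ : σ = 0 ∨ σ = 1) :
    ClP σ (rfw σ w) K = fun v => ClP σ w K (v.1, -v.2) := by
  funext ⟨j, i⟩
  unfold ClP
  rw [opn_gw_rf hσ]
  congr 2
  rcases hσ with rfl | rfl
  · simp [rf_zero, fx]
  · simp only [rf_one, fx, one_mul, Prod.mk.injEq]
    constructor <;> omega

/-- The curves are invariant under the reflection of the system. -/
theorem ck_rfw (hσ : σ = 0 ∨ σ = 1) (k : ℤ) : ck σ (rfw σ w) K k = rfc σ (ck σ w K k) := by
  funext i
  unfold ck crv rfc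
  rw [clP_rfw hσ]
  have h := Lam_refl (ClP σ w K) (fun _ => k - 1) i
  rw [h]
  unfold fx
  rcases hσ with rfl | rfl
  · simp
  · simp only [one_mul]; omega

theorem pk_rfw (hσ : σ = 0 ∨ σ = 1) (k i : ℤ) :
    pk σ (rfw σ w) K k i = rf σ (pk σ w K k (-i)) := by
  unfold pk
  rw [ck_rfw hσ, pt_rfc hσ]

theorem mem_Rg_rfw (hσ : σ = 0 ∨ σ = 1) (k : ℤ) (x : V) :
    x ∈ Rg σ (rfw σ w) K k ↔ rf σ x ∈ Rg σ w K k := by
  unfold Rg
  rw [ck_rfw hσ]
  exact (mem_reg_rf hσ _ x).symm

theorem good_rfw (hσ : σ = 0 ∨ σ = 1) (h : Good σ w K) : Good σ (rfw σ w) K := by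
  intro k i
  obtain ⟨u, hu⟩ := h k (-i)
  refine ⟨u, ?_⟩
  rw [clP_rfw hσ]
  have h1 := rch_refl_iff (C := ClP σ w K) (g := fun _ => k - 1) (v := (k - 1 + u, i))
  exact fun h2 => hu (h1.1 h2)

/-- The reflection of the system on the canonical space. -/
theorem wt_gO_rf (hσ : σ = 0 ∨ σ = 1) (ω : Om) : wt (gO (rf σ) ω) = rfw σ (wt ω) :=
  wt_gO (aut_rf hσ) ω

end curves

end C7
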