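import Mathlib
import Pool.Agent.Lib.MP_c725eb_pr.Final0
import Pool.Agent.Lib.MP_c725eb_pr.Flow
import Pool.Agent.Lib.MP_c725eb_pr.Sym

/-!
# The diamond case: definitions, likely events, and the case without escape

`OnG w v 𝓤`: the vertex `v` is on the geodesic from `(-n,0)` to `(n,0)` for `𝓤`-most `n`.
`Esc K w v 𝓤`: the geodesics from `v` to `(n,0)` escape along a curve of the diagonal system.
`Dat X ω 𝓤 z κ`: the limit path and its class.  `no_dat`: there are no data for `ω` and for its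
reflection at the same time.
-/

set_option autoImplicit false

namespace C7

open MeasureTheory Filter Set
open scoped ENNReal NNReal Topology

/-! ### likely events -/

/-- Events whose probability tends to `1`. -/
def Lk (F : Measure ℝ) (P : ℕ → Om → Prop) : Prop :=
  Tendsto (fun m => (iid Ed F) {ω | ¬ P m ω}) atTop (𝓝 0)

theorem Lk.and {F : Measure ℝ} {P Q : ℕ → Om → Prop} (hP : Lk F P) (hQ : Lk F Q) :
    Lk F fun m ω => P m ω ∧ Q m ω := by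
  have h := hP.add hQ
  rw [add_zero] at h
  refine tendsto_of_tendsto_of_tendsto_of_le_of_le tendsto_const_nhds h (fun _ => zero_le) fun m => ?_
  refine (measure_mono ?_).trans (measure_union_le _ _)
  intro ω hω
  simp only [mem_ofPred_eq, mem_union] at hω ⊢
  tauto

theorem Lk.comp {F : Measure ℝ} {P : ℕ → Om → Prop} (hP : Lk F P) {g : Om → Om}
    (hg : MeasurePreserving g (iid Ed F) (iid Ed F)) : Lk F fun m ω => P m (g ω) := by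
  refine tendsto_of_tendsto_of_tendsto_of_le_of_le tendsto_const_nhds hP (fun _ => zero_le)
    fun m => ?_
  have h := Measure.le_map_apply hg.aemeasurable {ω | ¬ P m ω}
  rw [hg.map_eq] at h
  exact h

theorem Lk.mono {F : Measure ℝ} {P Q : ℕ → Om → Prop} (hP : Lk F P) (h : ∀ m ω, P m ω → Q m ω) :
    Lk F Q := by
  refine tendsto_of_tendsto_of_tendsto_of_le_of_le tendsto_const_nhds hP (fun _ => zero_le)
    fun m => measure_mono ?_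
  intro ω hω hp
  exact hω (h m ω hp)

theorem Lk.mono_ae {F : Measure ℝ} {P Q : ℕ → Om → Prop} (hP : Lk F P)
    (h : ∀ᵐ ω ∂(iid Ed F), ∀ m, P m ω → Q m ω) : Lk F Q := by
  refine tendsto_of_tendsto_of_tendsto_of_le_of_le tendsto_const_nhds hP (fun _ => zero_le)
    fun m => measure_mono_ae ?_
  filter_upwards [h] with ω hω hq hp
  exact hq (hω m hp)

/-- Likely events happen for arbitrarily large indices. -/
theorem Lk.frequently {F : Measure ℝ} {P : ℕ → Om → Prop} (hP : Lk F P) :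
    ∀ᵐ ω ∂(iid Ed F), ∃ᶠ m in atTop, P m ω := by
  have key : ∀ M : ℕ, (iid Ed F) {ω | ∀ m ≥ M, ¬ P m ω} = 0 := by
    intro M
    refine le_antisymm (ge_of_tendsto hP ?_) zero_le
    filter_upwards [eventually_ge_atTop M] with m hm
    exact measure_mono fun ω hω => hω m hm
  have h : (iid Ed F) (⋃ M : ℕ, {ω | ∀ m ≥ M, ¬ P m ω}) = 0 := measure_iUnion_null key
  rw [ae_iff]
  refine measure_mono_null ?_ h
  intro ω hω
  simp only [mem_ofPred_eq, Filter.not_frequently, eventually_atTop] at hω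
  obtain ⟨M, hM⟩ := hω
  exact mem_iUnion.2 ⟨M, hM⟩

/-! ### the ray data -/

/-- The vertex `v` is on the geodesics from `(-n,0)` to `(n,0)`. -/
def OnG (w : W) (v : V) (𝓤 : Filter ℕ) : Prop :=
  ∀ᶠ n : ℕ in 𝓤, T w univ (-(n : ℤ), 0) v + T w univ v ((n : ℤ), 0) =
    T w univ (-(n : ℤ), 0) ((n : ℤ), 0)

/-- Escape of the geodesics from `v` along a curve of the diagonal system. -/
def Esc (K : ℝ≥0∞) (w : W) (v : V) (𝓤 : Filter ℕ) : Prop :=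
  ∃ l, ∀ M : ℤ, ∀ᶠ n : ℕ in 𝓤, ∃ i ≤ -M, T w univ v (pk 1 w K l i) +
    T w univ (pk 1 w K l i) ((n : ℤ), 0) = T w univ v ((n : ℤ), 0)

theorem OnG.rf0 {w : W} (hw : ∀ v, w v 2 = ⊤) {v : V} {𝓤 : Filter ℕ} (h : OnG w v 𝓤) :
    OnG (gw (rf 0) w) (rf 0 v) 𝓤 := by
  have hσ : (0 : ℤ) = 0 ∨ (0 : ℤ) = 1 := Or.inl rfl
  filter_upwards [h] with n hn
  rw [T_gw_univ (aut_rf hσ) hw, T_gw_univ (aut_rf hσ) hw, T_gw_univ (aut_rf hσ) hw, rf_rf hσ]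
  simpa [rf_zero] using hn

theorem OnG.rx {w : W} (hw : ∀ v, w v 2 = ⊤) {v : V} {𝓤 : Filter ℕ} (h : OnG w v 𝓤) :
    OnG (gw C7.rx w) (C7.rx v) 𝓤 := by
  filter_upwards [h] with n hn
  rw [T_gw_univ aut_rx hw, T_gw_univ aut_rx hw, T_gw_univ aut_rx hw, aut_rx.left_inv]
  have e1 : C7.rx (-(n : ℤ), 0) = ((n : ℤ), 0) := by simp [C7.rx]
  have e2 : C7.rx ((n : ℤ), 0) = (-(n : ℤ), 0) := by simp [C7.rx]
  rw [e1, e2, T_comm w univ ((n : ℤ), 0) v, T_comm w univ v (-(n : ℤ), 0),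
    T_comm w univ ((n : ℤ), 0) (-(n : ℤ), 0), add_comm]
  exact hn

theorem OnG.rn {w : W} (hw : ∀ v, w v 2 = ⊤) {v : V} {𝓤 : Filter ℕ} (h : OnG w v 𝓤) :
    OnG (gw C7.rn w) (C7.rn v) 𝓤 := by
  filter_upwards [h] with n hn
  rw [T_gw_univ aut_rn hw, T_gw_univ aut_rn hw, T_gw_univ aut_rn hw, aut_rn.left_inv]
  have e1 : C7.rn (-(n : ℤ), 0) = ((n : ℤ), 0) := by simp [C7.rn]
  have e2 : C7.rn ((n : ℤ), 0) = (-(n : ℤ), 0) := by simp [C7.rn]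
  rw [e1, e2, T_comm w univ ((n : ℤ), 0) v, T_comm w univ v (-(n : ℤ), 0),
    T_comm w univ ((n : ℤ), 0) (-(n : ℤ), 0), add_comm]
  exact hn

/-! ### one side -/

/-- The lower bound of the increments at `v` and `v - (0,m)` on one side. -/
theorem one_side {K : ℝ≥0∞} {w : W} (h : Cfg 1 K w) {𝓤 : Filter ℕ} [𝓤.NeBot] {t : ℕ → V} {v : V}
    {k z : ℤ} {κ a : ℤ → ℝ} {μ ε C : ℝ}
    (h0 : ∀ᶠ n in 𝓤, t n ∈ Rg 1 w K k)
    (h1 : ∀ᶠ n in 𝓤, T w univ (pk 1 w K k z) (t n) = T w (Rg 1 w K k) (pk 1 w K k z) (t n))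
    (h2 : ∀ x, Tendsto (fun n => tpot 1 K w (t n) k x - tpot 1 K w (t n) k z) 𝓤 (𝓝 (κ x - κ z)))
    (h3 : ∀ x < z, κ x - κ z ≤ a x - a z)
    (h4 : ∀ x ≤ z, a x - a z ≤ -(μ - ε) * ((z - x : ℤ) : ℝ) + C)
    {m : ℕ} (hm : 0 < m)
    (h5 : (T w univ (pk 1 w K k (z - 2 * m)) (v.1, v.2 - m)).toReal ≤ (μ + ε) * m) :
    ∀ᶠ n in 𝓤, (μ - 3 * ε) * m - C - (T w univ v (pk 1 w K k z)).toReal - 1 ≤
      (T w univ v (t n)).toReal - (T w univ (v.1, v.2 - m) (t n)).toReal := by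
  have hm' : (0 : ℤ) < m := by exact_mod_cast hm
  have h6 := h3 (z - 2 * m) (by omega)
  have h7 := h4 (z - 2 * m) (by omega)
  have h8 : ∀ᶠ n in 𝓤, tpot 1 K w (t n) k (z - 2 * m) - tpot 1 K w (t n) k z <
      κ (z - 2 * m) - κ z + 1 := (h2 (z - 2 * m)).eventually (eventually_lt_nhds (by linarith))
  filter_upwards [h0, h1, h8] with n hn0 hn1 hn8
  have e1 : ((z - (z - 2 * (m : ℤ)) : ℤ) : ℝ) = 2 * m := by push_cast; ring
  rw [e1] at h7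
  -- the three inequalities
  have i1 := T_univ_anchor h v (pk 1 w K k z) (t n)
  rw [T_comm w univ (pk 1 w K k z) v] at i1
  have i2 := T_univ_anchor h (pk 1 w K k (z - 2 * m)) (v.1, v.2 - (m : ℤ)) (t n)
  rw [T_comm w univ (v.1, v.2 - (m : ℤ)) (pk 1 w K k (z - 2 * m))] at i2
  have i3 : (T w univ (pk 1 w K k (z - 2 * m)) (t n)).toReal ≤ tpot 1 K w (t n) k (z - 2 * m) :=
    ENNReal.toReal_mono (h.fin_Rg k _ hn0) (T_mono (subset_univ _) _ _)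
  have i4 : (T w univ (pk 1 w K k z) (t n)).toReal = tpot 1 K w (t n) k z := by
    rw [hn1]; rfl
  nlinarith

variable {K : ℝ≥0∞} {F : Measure ℝ}

/-- The limit path and its class. -/
structure Dat (X : XSys 1 K F) (ω : Om) (𝓤 : Filter ℕ) (z : ℤ → ℤ) (κ : ℤ → ℤ → ℝ) : Prop where
  pd : PD X ω z κ
  mem : ∀ k, ∀ᶠ n : ℕ in 𝓤, (((n : ℤ), 0) : V) ∈ Rg 1 (wt ω) K k
  full : ∀ k, ∀ᶠ n : ℕ in 𝓤, T (wt ω) univ (pk 1 (wt ω) K k (z k)) ((n : ℤ), 0) =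
    T (wt ω) (Rg 1 (wt ω) K k) (pk 1 (wt ω) K k (z k)) ((n : ℤ), 0)
  lim : ∀ k x, Tendsto (fun n : ℕ => tpot 1 K (wt ω) ((n : ℤ), 0) k x -
    tpot 1 K (wt ω) ((n : ℤ), 0) k (z k)) 𝓤 (𝓝 (κ k x - κ k (z k)))

variable [IsProbabilityMeasure F]

/-- There is a line without excess over the class `a`. -/
theorem Dat.exists_line (X : XSys 1 K F)
    (hg : ∀ᵐ ω ∂(iid Ed F), Good 1 (wt ω) K) (hF : ∀ a, F {a} = 0) (hF0 : F (Iio 0) = 0) :
    ∀ᵐ ω ∂(iid Ed F), ∀ 𝓤 z κ, Dat X ω 𝓤 z κ →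
      ∃ k, ∀ x < z k, κ k x - κ k (z k) ≤ X.al ω k x - X.al ω k (z k) := by
  have hσ : (1 : ℤ) = 0 ∨ (1 : ℤ) = 1 := Or.inr rfl
  filter_upwards [PD.follow hσ X hg hF hF0, no_flow_path hσ X.S hg hF hF0] with ω h1 h2 𝓤 z κ hd
  by_contra hcon
  push Not at hcon
  refine h2 z 0 fun k l hkl _ => ?_
  obtain ⟨x, hx, hlt⟩ := hcon k
  exact h1 z κ hd.pd k x hx hlt l hkl

/-- **Without escape there is no path.** -/
theorem no_dat (X : XSys 1 K F) (hcfg : ∀ᵐ ω ∂(iid Ed F), Cfg 1 K (wt ω))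
    (hF : ∀ a, F {a} = 0) (hF0 : F (Iio 0) = 0) {μ : ℝ} (hμ : 0 < μ)
    (hal : ∀ᵐ ω ∂(iid Ed F), ∀ k z : ℤ, ∀ ε : ℝ, 0 < ε → ∃ C : ℝ, ∀ x ≤ z,
      X.al ω k x - X.al ω k z ≤ -(μ - ε) * ((z - x : ℤ) : ℝ) + C)
    (hup : ∀ (v : V) (k z : ℤ) (ε : ℝ), 0 < ε → Lk F fun m ω =>
      (T (wt ω) univ (pk 1 (wt ω) K k (z - 2 * m)) (v.1, v.2 - m)).toReal ≤ (μ + ε) * m) :
    ∀ᵐ ω ∂(iid Ed F), ∀ (v : V) (𝓤 : Filter ℕ), 𝓤.NeBot → OnG (wt ω) v 𝓤 →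
      ∀ z κ, Dat X ω 𝓤 z κ → ∀ z' κ', ¬ Dat X (gO rx ω) 𝓤 z' κ' := by
  have hσ : (1 : ℤ) = 0 ∨ (1 : ℤ) = 1 := Or.inr rfl
  have hmp := measurePreserving_gO F aut_rx
  have hg : ∀ᵐ ω ∂(iid Ed F), Good 1 (wt ω) K := hcfg.mono fun ω h => h.good
  have hline := Dat.exists_line X hg hF hF0
  have hfr : ∀ᵐ ω ∂(iid Ed F), ∀ (v : V) (k z k' z' : ℤ), ∃ᶠ m : ℕ in atTop,
      (T (wt ω) univ (pk 1 (wt ω) K k (z - 2 * m)) (v.1, v.2 - m)).toReal ≤ (μ + μ / 6) * m ∧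
      (T (wt (gO rx ω)) univ (pk 1 (wt (gO rx ω)) K k' (z' - 2 * m))
        ((rx v).1, (rx v).2 - m)).toReal ≤ (μ + μ / 6) * m := by
    rw [ae_all_iff]; intro v
    rw [ae_all_iff]; intro k
    rw [ae_all_iff]; intro z
    rw [ae_all_iff]; intro k'
    rw [ae_all_iff]; intro z'
    exact ((hup v k z (μ / 6) (by positivity)).and
      ((hup (rx v) k' z' (μ / 6) (by positivity)).comp hmp)).frequently
  filter_upwards [hline, hmp.quasiMeasurePreserving.ae hline, hal,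
    hmp.quasiMeasurePreserving.ae hal, hcfg, hmp.quasiMeasurePreserving.ae hcfg, hfr]
    with ω h1 h2 h3 h4 h5 h6 h7 v 𝓤 hne hon z κ hd z' κ' hd'
  obtain ⟨k, hk⟩ := h1 𝓤 z κ hd
  obtain ⟨k', hk'⟩ := h2 𝓤 z' κ' hd'
  obtain ⟨C, hC⟩ := h3 k (z k) (μ / 6) (by positivity)
  obtain ⟨C', hC'⟩ := h4 k' (z' k') (μ / 6) (by positivity)
  set A := (T (wt ω) univ v (pk 1 (wt ω) K k (z k))).toReal with hA
  set A' := (T (wt (gO rx ω)) univ (rx v) (pk 1 (wt (gO rx ω)) K k' (z' k'))).toReal with hA'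
  obtain ⟨N, hN⟩ := exists_nat_gt ((C + C' + A + A' + 2) / μ)
  obtain ⟨m, ⟨hm1, hm2⟩, hm3⟩ := ((h7 v k (z k) k' (z' k')).and_eventually
    (eventually_ge_atTop (N + 1))).exists
  have hm0 : 0 < m := by omega
  have s1 := one_side h5 (v := v) (hd.mem k) (hd.full k) (hd.lim k) hk hC hm0 hm1
  have s2 := one_side h6 (v := rx v) (hd'.mem k') (hd'.full k') (hd'.lim k') hk' hC' hm0 hm2
  obtain ⟨n, ⟨hn1, hn2⟩, hn3⟩ := ((s1.and s2).and hon).exists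
  -- transport
  have hw2 : ∀ v, wt ω v 2 = ⊤ := h5.hw
  have e1 : rx ((rx v).1, (rx v).2 - (m : ℤ)) = (v.1, v.2 - (m : ℤ)) := by simp [rx]
  have e2 : rx ((n : ℤ), 0) = (-(n : ℤ), 0) := by simp [rx]
  have hn4 : (μ - 3 * (μ / 6)) * m - C' - A' - 1 ≤ (T (wt ω) univ v (-(n : ℤ), 0)).toReal -
      (T (wt ω) univ (v.1, v.2 - (m : ℤ)) (-(n : ℤ), 0)).toReal := by
    rw [← hA'] at hn2
    clear_value A'
    rw [wt_gO aut_rx] at hn2
    simp only [T_gw_univ aut_rx hw2] at hn2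
    rw [e1, e2, aut_rx.left_inv] at hn2
    exact hn2
  -- the geodesic
  have j1 := congrArg ENNReal.toReal hn3
  rw [ENNReal.toReal_add (T_univ_ne_top h5.fin _ _) (T_univ_ne_top h5.fin _ _),
    T_comm (wt ω) univ (-(n : ℤ), 0) v] at j1
  have j2 := T_univ_anchor h5 (v.1, v.2 - (m : ℤ)) (-(n : ℤ), 0) ((n : ℤ), 0)
  rw [T_comm (wt ω) univ (-(n : ℤ), 0) (v.1, v.2 - (m : ℤ))] at j2
  have hNm : ((N : ℝ) + 1) ≤ m := by exact_mod_cast hm3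
  rw [div_lt_iff₀ hμ] at hN
  nlinarith

end C7
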