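import Pool.Agent.Lib.MP_c725eb_pr.GShift
import Pool.Agent.Lib.MP_c725eb_pr.CoalPre

/-!
# The flow system of a base functional
-/

set_option autoImplicit false

namespace C7

open MeasureTheory Filter Set
open scoped ENNReal Topology

section guard

variable {σ : ℤ} {K : ℝ≥0∞}

/-- The region of the line `l` is in its half plane. -/
def Gd (σ : ℤ) (K : ℝ≥0∞) (w : W) (l : ℤ) : Prop := Rg σ w K l ⊆ Hl σ l

theorem gd_of_good (hσ : σ = 0 ∨ σ = 1) {w : W} (hg : Good σ w K) (l : ℤ) : Gd σ K w l :=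
  fun _ hx => le_ln_of_mem hσ hg hx

theorem Rg_congr_agree (hσ : σ = 0 ∨ σ = 1) {l : ℤ} {ω ω' : Om} (h : AgreeR σ l ω ω') :
    Rg σ (wt ω) K l = Rg σ (wt ω') K l := by
  unfold Rg
  rw [ck_congr_agree hσ h]

theorem AgreeR.mono {l N : ℤ} (hlN : l ≤ N) {ω ω' : Om} (h : AgreeR σ l ω ω') : AgreeR σ N ω ω' :=
  fun e he => h e (hlN.trans he)

theorem AgreeR.symm {l : ℤ} {ω ω' : Om} (h : AgreeR σ l ω ω') : AgreeR σ l ω' ω :=
  fun e he => (h e he).symm

theorem gd_congr (hσ : σ = 0 ∨ σ = 1) {l : ℤ} {ω ω' : Om} (h : AgreeR σ l ω ω') :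
    Gd σ K (wt ω) l ↔ Gd σ K (wt ω') l := by
  unfold Gd
  rw [Rg_congr_agree hσ h]

theorem same_of_agree (hσ : σ = 0 ∨ σ = 1) {l : ℤ} {ω ω' : Om} (h : AgreeR σ l ω ω')
    (hg : Gd σ K (wt ω) l) : Same σ K l (wt ω) (wt ω') :=
  ⟨ck_congr_agree hσ h K, fun _ ha _ hb => step_congr_Hl h (hg ha) (hg hb)⟩

theorem Kn_congr {w w' : W} {D R : Set V} {x y : V} (hT : ∀ p, T w D x p = T w' D x p)
    (hs : ∀ p ∈ D, step w p y = step w' p y) : Kn w D R x y = Kn w' D R x y := by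
  unfold Kn
  congr 1
  refine iInf_congr fun p => iInf_congr fun hp => ?_
  rw [hT, hs p hp.1]

theorem Kn_sh (w : W) (s : V) (D R : Set V) (x y : V) :
    Kn (sh s w) D R x y = Kn w (tr s '' D) (tr s '' R) (tr s x) (tr s y) := by
  have hinj : Function.Injective (tr s) := fun a b hab => by
    rw [← tr_tr s a, ← tr_tr s b, hab]
  have hsurj : Function.Surjective (tr s) := fun a => ⟨_, tr_tr' s a⟩
  unfold Kn
  congr 1
  · by_cases h : x = y
    · rw [if_pos h, if_pos (by rw [h])]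
    · rw [if_neg h, if_neg (fun h' => h (hinj h'))]
  · rw [← hsurj.iInf_comp (g := fun p => ⨅ (_ : p ∈ tr s '' D \ tr s '' R),
      T w (tr s '' D) (tr s x) p + step w p (tr s y))]
    refine iInf_congr fun p => ?_
    have e : tr s p ∈ tr s '' D \ tr s '' R ↔ p ∈ D \ R := by
      simp only [Set.mem_sdiff, hinj.mem_set_image]
    by_cases hp : p ∈ D \ R
    · rw [iInf_pos hp, iInf_pos (e.2 hp), T_sh, step_sh]
      rfl
    · rw [iInf_neg hp, iInf_neg (fun h' => hp (e.1 h'))]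

end guard

section flow

variable {σ : ℤ} {K : ℝ≥0∞} {g : ℤ → W → ℝ} {M : ℝ}

open Classical in
/-- Guarded potentials. -/
noncomputable def phG (σ : ℤ) (K : ℝ≥0∞) (g : ℤ → W → ℝ) (ω : Om) (l j : ℤ) : ℝ :=
  if Gd σ K (wt ω) l then pot (fun i => mv σ g l i (wt ω)) j else 0

theorem phG_of_gd {ω : Om} {l : ℤ} (h : Gd σ K (wt ω) l) (j : ℤ) :
    phG σ K g ω l j = pot (fun i => mv σ g l i (wt ω)) j := by unfold phG; rw [if_pos h]

theorem phG_congr_same (hσ : σ = 0 ∨ σ = 1) (hl : Loc σ K g) {ω ω' : Om} {l : ℤ}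
    (h : Same σ K l (wt ω) (wt ω')) (j : ℤ) : phG σ K g ω l j = phG σ K g ω' l j := by
  have e : Gd σ K (wt ω) l ↔ Gd σ K (wt ω') l := by unfold Gd; rw [h.rg]
  unfold phG
  by_cases hg : Gd σ K (wt ω) l
  · rw [if_pos hg, if_pos (e.1 hg)]
    congr 1
    funext i
    exact mv_local hσ hl h i
  · rw [if_neg hg, if_neg (fun h' => hg (e.2 h'))]

theorem locP_phG (hσ : σ = 0 ∨ σ = 1) (hl : Loc σ K g) : LocP σ K (phG σ K g) :=
  fun ω ω' l h i j => by rw [phG_congr_same hσ hl h, phG_congr_same hσ hl h]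

theorem measurableSet_gd (σ : ℤ) (K : ℝ≥0∞) (l : ℤ) : MeasurableSet {ω : Om | Gd σ K (wt ω) l} := by
  have e : {ω : Om | Gd σ K (wt ω) l} = ⋂ x ∈ {x : V | x ∉ Hl σ l}, {ω : Om | x ∈ Rg σ (wt ω) K l}ᶜ := by
    ext ω
    simp only [Gd, mem_iInter, mem_compl_iff, mem_ofPred_eq]
    constructor
    · intro h x hx hx'
      exact hx (h hx')
    · intro h x hx
      by_contra hn
      exact h x hn hx
  rw [e]
  exact MeasurableSet.biInter (to_countable _) fun x _ => (measurableSet_mem_Rg_wt σ K l x).compl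

theorem measurable_phG (hg : Adm g M) (l j : ℤ) : Measurable fun ω => phG σ K g ω l j := by
  classical
  unfold phG
  exact Measurable.ite (measurableSet_gd σ K l) (measurable_pot (fun i => hg.measurable_mv σ l i) j)
    measurable_const

/-- The unique entrance. -/
def UEn (σ : ℤ) (K : ℝ≥0∞) (g : ℤ → W → ℝ) (ω : Om) (k l x u : ℤ) : Prop :=
  En σ K (wt ω) (phG σ K g ω l) k l x u ∧ ∀ j, En σ K (wt ω) (phG σ K g ω l) k l x j → j = u

open Classical in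
/-- The flow. -/
noncomputable def vG (σ : ℤ) (K : ℝ≥0∞) (g : ℤ → W → ℝ) (ω : Om) (k l x : ℤ) : ℤ :=
  if h : (Gd σ K (wt ω) k ∧ Gd σ K (wt ω) l) ∧ ∃ u, UEn σ K g ω k l x u then h.2.choose else 0

theorem vG_eq {ω : Om} {k l x u : ℤ} (h1 : Gd σ K (wt ω) k) (h2 : Gd σ K (wt ω) l)
    (hu : UEn σ K g ω k l x u) : vG σ K g ω k l x = u := by
  have h : (Gd σ K (wt ω) k ∧ Gd σ K (wt ω) l) ∧ ∃ u, UEn σ K g ω k l x u := ⟨⟨h1, h2⟩, u, hu⟩
  unfold vG
  rw [dif_pos h]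
  exact hu.2 _ h.2.choose_spec.1

theorem en_congr_agree (hσ : σ = 0 ∨ σ = 1) (hl : Loc σ K g) {k l : ℤ} (hkl : k ≤ l) {ω ω' : Om}
    (h : AgreeR σ k ω ω') (h1 : Gd σ K (wt ω) k) (h2 : Gd σ K (wt ω) l) (x u : ℤ) :
    En σ K (wt ω) (phG σ K g ω l) k l x u ↔ En σ K (wt ω') (phG σ K g ω' l) k l x u := by
  have hs := same_of_agree hσ h h1
  have hl' : AgreeR σ l ω ω' := h.mono hkl
  have hsl := same_of_agree hσ hl' h2
  have ep : ∀ i, pk σ (wt ω) K k i = pk σ (wt ω') K k i := fun i => hs.pk i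
  have eq : ∀ i, pk σ (wt ω) K l i = pk σ (wt ω') K l i := fun i => hsl.pk i
  have eT : ∀ p, T (wt ω) (Rg σ (wt ω) K k) (pk σ (wt ω) K k x) p =
      T (wt ω') (Rg σ (wt ω) K k) (pk σ (wt ω) K k x) p := fun p => hs.T Subset.rfl _ _
  have eK : ∀ j, Kn (wt ω) (Rg σ (wt ω) K k) (Rg σ (wt ω) K l) (pk σ (wt ω) K k x) (pk σ (wt ω) K l j) =
      Kn (wt ω') (Rg σ (wt ω) K k) (Rg σ (wt ω) K l) (pk σ (wt ω) K k x) (pk σ (wt ω) K l j) := by
    intro j
    refine Kn_congr eT fun p hp => step_congr_Hl h (h1 hp) ?_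
    exact hkl.trans (h2 (pk_mem l j))
  have eφ : ∀ j, phG σ K g ω l j = phG σ K g ω' l j := fun j => phG_congr_same hσ hl hsl j
  unfold En Ent
  simp only [eK, eT, eφ]
  rw [← hs.rg, ← hsl.rg]
  simp only [← ep, ← eq]

/-- Covariance of the potentials. -/
theorem phG_shO (hσ : σ = 0 ∨ σ = 1) (s : V) {ω : Om} {l : ℤ} (h1 : Gd σ K (wt ω) (l + ln σ s))
    (h2 : Gd σ K (wt (shO s ω)) l) (j : ℤ) : phG σ K g (shO s ω) l j =
      phG σ K g ω (l + ln σ s) (j + ix σ s) - phG σ K g ω (l + ln σ s) (ix σ s) := by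
  rw [phG_of_gd h1, phG_of_gd h1, phG_of_gd h2]
  exact pot_mv_shO hσ g s l j ω

theorem en_shO (hσ : σ = 0 ∨ σ = 1) (s : V) {ω : Om} {k l : ℤ}
    (h1 : Gd σ K (wt ω) (l + ln σ s)) (h2 : Gd σ K (wt (shO s ω)) l) (x u : ℤ) :
    En σ K (wt (shO s ω)) (phG σ K g (shO s ω) l) k l x u ↔
      En σ K (wt ω) (phG σ K g ω (l + ln σ s)) (k + ln σ s) (l + ln σ s) (x + ix σ s) (u + ix σ s) := by
  have eT : ∀ j, T (wt (shO s ω)) (Rg σ (wt (shO s ω)) K k) (pk σ (wt (shO s ω)) K k x)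
      (pk σ (wt (shO s ω)) K l j) = T (wt ω) (Rg σ (wt ω) K (k + ln σ s))
        (pk σ (wt ω) K (k + ln σ s) (x + ix σ s)) (pk σ (wt ω) K (l + ln σ s) (j + ix σ s)) := by
    intro j
    rw [T_shO, image_Rg hσ, pk_shO hσ, pk_shO hσ]
  have eK : ∀ j, Kn (wt (shO s ω)) (Rg σ (wt (shO s ω)) K k) (Rg σ (wt (shO s ω)) K l)
      (pk σ (wt (shO s ω)) K k x) (pk σ (wt (shO s ω)) K l j) =
      Kn (wt ω) (Rg σ (wt ω) K (k + ln σ s)) (Rg σ (wt ω) K (l + ln σ s))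
        (pk σ (wt ω) K (k + ln σ s) (x + ix σ s)) (pk σ (wt ω) K (l + ln σ s) (j + ix σ s)) := by
    intro j
    rw [wt_shO, Kn_sh, ← wt_shO, image_Rg hσ, image_Rg hσ, pk_shO hσ, pk_shO hσ]
  unfold En Ent
  simp only [eT, eK, phG_shO hσ s h1 h2]
  refine and_congr Iff.rfl ⟨fun h j => ?_, fun h j => ?_⟩
  · have h3 := h (j - ix σ s)
    rw [sub_add_cancel] at h3
    linarith
  · have h3 := h (j + ix σ s)
    linarith

theorem measurableSet_en (hg : Adm g M) (k l x u : ℤ) :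
    MeasurableSet {ω : Om | En σ K (wt ω) (phG σ K g ω l) k l x u} := by
  have hR : ∀ k (v : V), MeasurableSet {ω : Om | v ∈ Rg σ (wt ω) K k} := measurableSet_mem_Rg_wt σ K
  have hK : Measurable fun ω : Om => Kn (wt ω) (Rg σ (wt ω) K k) (Rg σ (wt ω) K l) (pk σ (wt ω) K k x)
      (pk σ (wt ω) K l u) :=
    measurable_Kn measurable_wt3 (hR k) (hR l) (measurable_pk_wt σ K k x) (measurable_pk_wt σ K l u)
  have hT : ∀ j, Measurable fun ω : Om => T (wt ω) (Rg σ (wt ω) K k) (pk σ (wt ω) K k x)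
      (pk σ (wt ω) K l j) := fun j =>
    measurable_T measurable_wt3 (hR k) (measurable_pk_wt σ K k x) (measurable_pk_wt σ K l j)
  have e : {ω : Om | En σ K (wt ω) (phG σ K g ω l) k l x u} =
      {ω : Om | Kn (wt ω) (Rg σ (wt ω) K k) (Rg σ (wt ω) K l) (pk σ (wt ω) K k x)
        (pk σ (wt ω) K l u) = ⊤}ᶜ ∩ ⋂ j : ℤ, {ω : Om |
        (Kn (wt ω) (Rg σ (wt ω) K k) (Rg σ (wt ω) K l) (pk σ (wt ω) K k x)
        (pk σ (wt ω) K l u)).toReal + phG σ K g ω l u ≤ (T (wt ω) (Rg σ (wt ω) K k) (pk σ (wt ω) K k x)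
      (pk σ (wt ω) K l j)).toReal + phG σ K g ω l j} := by
    ext ω
    simp only [En, Ent, mem_inter_iff, mem_compl_iff, mem_iInter, mem_ofPred_eq, ne_eq]
  rw [e]
  refine (measurableSet_eq_fun hK measurable_const).compl.inter (MeasurableSet.iInter fun j => ?_)
  exact measurableSet_le (hK.ennreal_toReal.add (measurable_phG hg l u))
    ((hT j).ennreal_toReal.add (measurable_phG hg l j))

end flow

/-! ### generic configurations -/

section generic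

variable {σ : ℤ} {K : ℝ≥0∞} {g : ℤ → W → ℝ} {M : ℝ}

/-- Generic configurations for the base functional `g`. -/
structure GenG (σ : ℤ) (K : ℝ≥0∞) (g : ℤ → W → ℝ) (ω : Om) : Prop where
  cfg : Cfg σ K (wt ω)
  lim : ∃ τ, Lim σ K (wt ω) (phG σ K g ω) τ
  uniq : ∀ k l x, k ≤ l → ∀ u j, En σ K (wt ω) (phG σ K g ω l) k l x u →
    En σ K (wt ω) (phG σ K g ω l) k l x j → u = j

variable {ω : Om}

theorem GenG.gd (h : GenG σ K g ω) (l : ℤ) : Gd σ K (wt ω) l := gd_of_good h.cfg.hσ h.cfg.good l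

theorem GenG.ex (h : GenG σ K g ω) {k l : ℤ} (hkl : k ≤ l) (x : ℤ) : ∃ u, UEn σ K g ω k l x u := by
  obtain ⟨τ, hτ⟩ := h.lim
  obtain ⟨u, hu⟩ := hτ.exists_ent h.cfg hkl x
  exact ⟨u, hu, fun j hj => h.uniq k l x hkl j u hj hu⟩

theorem GenG.uen (h : GenG σ K g ω) {k l : ℤ} (hkl : k ≤ l) (x : ℤ) :
    UEn σ K g ω k l x (vG σ K g ω k l x) := by
  obtain ⟨u, hu⟩ := h.ex hkl x
  rw [vG_eq (h.gd k) (h.gd l) hu]
  exact hu

theorem GenG.en (h : GenG σ K g ω) {k l : ℤ} (hkl : k ≤ l) (x : ℤ) :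
    En σ K (wt ω) (phG σ K g ω l) k l x (vG σ K g ω k l x) := (h.uen hkl x).1

theorem GenG.eq (h : GenG σ K g ω) {k l : ℤ} (hkl : k ≤ l) {x u : ℤ}
    (hu : En σ K (wt ω) (phG σ K g ω l) k l x u) : vG σ K g ω k l x = u :=
  ((h.uen hkl x).2 u hu).symm

theorem GenG.flw (h : GenG σ K g ω) : Flw σ K (wt ω) (phG σ K g ω) := by
  obtain ⟨τ, hτ⟩ := h.lim
  exact hτ.flw h.cfg h.uniq

theorem GenG.mono (h : GenG σ K g ω) {k l : ℤ} (hkl : k ≤ l) : Monotone (vG σ K g ω k l) := by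
  intro x x' hx
  obtain ⟨τ, hτ⟩ := h.lim
  exact hτ.mono h.cfg h.uniq hkl hx (h.en hkl x) (h.en hkl x')

theorem GenG.comp (h : GenG σ K g ω) {k l m : ℤ} (hkl : k ≤ l) (hlm : l ≤ m) (i : ℤ) :
    vG σ K g ω l m (vG σ K g ω k l i) = vG σ K g ω k m i :=
  (h.eq (hkl.trans hlm) (h.flw.comp h.cfg hkl hlm (h.en hkl i) (h.en hlm _))).symm

theorem GenG.opt (h : GenG σ K g ω) {k l : ℤ} (hkl : k ≤ l) (x : ℤ) : ∃ φx : ℝ,
    (∀ j, ENNReal.ofReal (φx - phG σ K g ω l j) ≤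
      T (wt ω) (Rg σ (wt ω) K k) (pk σ (wt ω) K k x) (pk σ (wt ω) K l j)) ∧
    T (wt ω) (Rg σ (wt ω) K k) (pk σ (wt ω) K k x) (pk σ (wt ω) K l (vG σ K g ω k l x)) ≤
      ENNReal.ofReal (φx - phG σ K g ω l (vG σ K g ω k l x)) ∧ phG σ K g ω l (vG σ K g ω k l x) ≤ φx := by
  have hE := h.en hkl x
  have hM := Ent.isMin (h.cfg.eh hkl x) (h.flw.lip l) hE
  refine ⟨(T (wt ω) (Rg σ (wt ω) K k) (pk σ (wt ω) K k x) (pk σ (wt ω) K l (vG σ K g ω k l x))).toReal +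
      phG σ K g ω l (vG σ K g ω k l x), fun j => ?_, ?_, ?_⟩
  · have h1 := hM.1 j
    refine ENNReal.ofReal_le_of_le_toReal ?_
    linarith
  · rw [add_sub_cancel_right, ENNReal.ofReal_toReal ((h.cfg.eh hkl x).fin _)]
  · linarith [ENNReal.toReal_nonneg (a := T (wt ω) (Rg σ (wt ω) K k) (pk σ (wt ω) K k x)
      (pk σ (wt ω) K l (vG σ K g ω k l x)))]

/-- The gap of the minimum. -/
theorem GenG.gap (h : GenG σ K g ω) {k l : ℤ} (hkl : k ≤ l) (x : ℤ) : ∃ η : ℝ, 0 < η ∧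
    ∀ u ≠ vG σ K g ω k l x, Kn (wt ω) (Rg σ (wt ω) K k) (Rg σ (wt ω) K l) (pk σ (wt ω) K k x)
      (pk σ (wt ω) K l u) ≠ ⊤ → η * (1 + |((u - vG σ K g ω k l x : ℤ) : ℝ)|) ≤
      (Kn (wt ω) (Rg σ (wt ω) K k) (Rg σ (wt ω) K l) (pk σ (wt ω) K k x) (pk σ (wt ω) K l u)).toReal +
        phG σ K g ω l u - ((Kn (wt ω) (Rg σ (wt ω) K k) (Rg σ (wt ω) K l) (pk σ (wt ω) K k x)
          (pk σ (wt ω) K l (vG σ K g ω k l x))).toReal + phG σ K g ω l (vG σ K g ω k l x)) := by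
  classical
  set v := vG σ K g ω k l x with hv
  set f : ℤ → ℝ := fun u => (Kn (wt ω) (Rg σ (wt ω) K k) (Rg σ (wt ω) K l) (pk σ (wt ω) K k x)
    (pk σ (wt ω) K l u)).toReal + phG σ K g ω l u with hf
  have hE : En σ K (wt ω) (phG σ K g ω l) k l x v := h.en hkl x
  obtain ⟨τ, hτ⟩ := h.lim
  -- coercivity
  obtain ⟨η, hη, C, hC⟩ := hτ.co_phi l
  set A := (T (wt ω) univ (pk σ (wt ω) K l 0) (pk σ (wt ω) K k x)).toReal with hA
  have hfar : ∀ u, Kn (wt ω) (Rg σ (wt ω) K k) (Rg σ (wt ω) K l) (pk σ (wt ω) K k x) (pk σ (wt ω) K l u) ≠ ⊤ →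
      η * |(u : ℝ)| - C - A ≤ f u := by
    intro u hu
    have h1 := hC u
    have h2 := T_univ_anchor h.cfg (pk σ (wt ω) K k x) (pk σ (wt ω) K l 0) (pk σ (wt ω) K l u)
    have h3 := ENNReal.toReal_mono ((h.cfg.eh hkl x).fin u) (T_mono (w := wt ω)
      (subset_univ (Rg σ (wt ω) K k)) (pk σ (wt ω) K k x) (pk σ (wt ω) K l u))
    have h4 := ENNReal.toReal_mono hu (T_le_Kn (w := wt ω) (R := Rg σ (wt ω) K l) (pk_mem k x)
      (Rg_anti h.cfg.hσ h.cfg.good hkl (pk_mem l u)))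
    simp only [hf]
    linarith
  -- strictness
  have hstrict : ∀ u, u ≠ v → Kn (wt ω) (Rg σ (wt ω) K k) (Rg σ (wt ω) K l) (pk σ (wt ω) K k x)
      (pk σ (wt ω) K l u) ≠ ⊤ → 0 < f u - f v := by
    intro u hu hK
    have h1 := Ent.le_kn (h.cfg.eh hkl x) hE hK
    rcases h1.eq_or_lt with h2 | h2
    · exfalso
      apply hu
      refine h.uniq k l x hkl u v ⟨hK, fun j => ?_⟩ hE
      rw [← h2]
      exact hE.2 j
    · simp only [hf]; linarith
  -- far indices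
  obtain ⟨N, hN⟩ := exists_nat_gt ((C + A + f v + η * (1 + |(v : ℝ)|)) * 2 / η)
  have hNfar : ∀ u : ℤ, (N : ℝ) < |(u : ℝ)| → Kn (wt ω) (Rg σ (wt ω) K k) (Rg σ (wt ω) K l)
      (pk σ (wt ω) K k x) (pk σ (wt ω) K l u) ≠ ⊤ → η / 2 * (1 + |((u - v : ℤ) : ℝ)|) ≤ f u - f v := by
    intro u hu hK
    have h1 := hfar u hK
    have h2 : |((u - v : ℤ) : ℝ)| ≤ |(u : ℝ)| + |(v : ℝ)| := by
      push_cast
      exact abs_sub _ _
    have h3 : (C + A + f v + η * (1 + |(v : ℝ)|)) * 2 < |(u : ℝ)| * η := by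
      rw [div_lt_iff₀ hη] at hN
      nlinarith
    have h4 : η / 2 * (1 + |((u - v : ℤ) : ℝ)|) ≤ η / 2 * (1 + (|(u : ℝ)| + |(v : ℝ)|)) := by
      apply mul_le_mul_of_nonneg_left _ (by positivity)
      linarith
    have h5 : 0 ≤ η * (1 + |(v : ℝ)|) := by positivity
    nlinarith
  -- near indices
  set S : Finset ℤ := (Finset.Icc (-(N : ℤ)) N).filter fun u => u ≠ v ∧
    Kn (wt ω) (Rg σ (wt ω) K k) (Rg σ (wt ω) K l) (pk σ (wt ω) K k x) (pk σ (wt ω) K l u) ≠ ⊤ with hS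
  obtain ⟨η', hη', hnear⟩ : ∃ η' > 0, ∀ u ∈ S, η' * (1 + |((u - v : ℤ) : ℝ)|) ≤ f u - f v := by
    rcases S.eq_empty_or_nonempty with h0 | h0
    · exact ⟨1, one_pos, fun u hu => by rw [h0] at hu; simp at hu⟩
    · obtain ⟨u0, hu0, hmin⟩ := Finset.exists_min_image S
        (fun u => (f u - f v) / (1 + |((u - v : ℤ) : ℝ)|)) h0
      have h1 := (Finset.mem_filter.1 hu0).2
      refine ⟨(f u0 - f v) / (1 + |((u0 - v : ℤ) : ℝ)|), ?_, fun u hu => ?_⟩
      · exact div_pos (hstrict u0 h1.1 h1.2) (by positivity)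
      · have h2 := hmin u hu
        rwa [le_div_iff₀ (by positivity)] at h2
  refine ⟨min (η / 2) η', lt_min (by positivity) hη', fun u hu hK => ?_⟩
  by_cases hu' : (N : ℝ) < |(u : ℝ)|
  · refine le_trans ?_ (hNfar u hu' hK)
    exact mul_le_mul_of_nonneg_right (min_le_left _ _) (by positivity)
  · push Not at hu'
    refine le_trans (mul_le_mul_of_nonneg_right (min_le_right _ _) (by positivity)) (hnear u ?_)
    rw [hS, Finset.mem_filter, Finset.mem_Icc]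
    have h1 : |u| ≤ (N : ℤ) := by exact_mod_cast hu'
    exact ⟨abs_le.1 h1, hu, hK⟩

end generic

/-! ### almost sure uniqueness and the flow system -/

section prob

variable {σ : ℤ} {K : ℝ≥0∞} {g : ℤ → W → ℝ} {M : ℝ} {F : Measure ℝ} [IsProbabilityMeasure F]

theorem ae_uniq (hσ : σ = 0 ∨ σ = 1) (hK : K ≠ ⊤) (hF : ∀ a, F {a} = 0) (hF0 : F (Iio 0) = 0)
    (hg : Adm g M) (hl : Loc σ K g) : ∀ᵐ ω ∂(iid Ed F), Cfg σ K (wt ω) →
      (∀ l, Lip (wt ω) (Rg σ (wt ω) K l) (pk σ (wt ω) K l) (phG σ K g ω l)) →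
      ∀ k l x, k ≤ l → ∀ u j, En σ K (wt ω) (phG σ K g ω l) k l x u →
        En σ K (wt ω) (phG σ K g ω l) k l x j → u = j := by
  have h1 : ∀ᵐ ω ∂(iid Ed F), ∀ (k l x u j : ℤ) (y z : V), Nb y z → y ∉ Rg σ (wt ω) K l →
      pk σ (wt ω) K l u = z →
      NoTie (wt ω) (Rg σ (wt ω) K k) (pk σ (wt ω) K k x) (pk σ (wt ω) K l) (phG σ K g ω l) y u j := by
    simp only [ae_all_iff]
    intro k l x u j y z hyz
    exact null_tie hK hF hF0 (locP_phG hσ hl)
      (fun l i j => (measurable_phG hg l i).sub (measurable_phG hg l j)) k l x u j hyz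
  filter_upwards [h1] with ω h2 hc hlip k l x hkl u j hu hj
  refine Ent.unique (hc.eh hkl x) (hlip l) (fun a b hab => T_ne_zero hc.hw hc.pos _ hab)
    (fun a b hab => pk_inj hab) (fun y _ hyR u j _ hn => h2 k l x u j y _ hn hyR rfl) hu hj

/-- Generic configurations are generic. -/
theorem ae_genG (hσ : σ = 0 ∨ σ = 1) (hK : K ≠ ⊤) (hF : ∀ a, F {a} = 0) (hF0 : F (Iio 0) = 0)
    (hg : Adm g M) (hl : Loc σ K g) (hcfg : ∀ᵐ ω ∂(iid Ed F), Cfg σ K (wt ω))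
    (hlim : ∀ᵐ ω ∂(iid Ed F), ∃ τ, Lim σ K (wt ω) (fun l => pot fun i => mv σ g l i (wt ω)) τ) :
    ∀ᵐ ω ∂(iid Ed F), GenG σ K g ω := by
  filter_upwards [hcfg, hlim, ae_uniq hσ hK hF hF0 hg hl] with ω h1 h2 h3
  have e : (fun l => pot fun i => mv σ g l i (wt ω)) = phG σ K g ω := by
    funext l j
    rw [phG_of_gd (gd_of_good hσ h1.good l)]
  rw [e] at h2
  obtain ⟨τ, hτ⟩ := h2
  exact ⟨h1, ⟨τ, hτ⟩, h3 h1 fun l => hτ.lip h1 l⟩

variable (σ K F g) in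
/-- THE FLOW SYSTEM of a base functional. -/
noncomputable def flowG (hK : SmallK F K) (hσ : σ = 0 ∨ σ = 1)
    (hg : Adm g M) (hl : Loc σ K g) (hgen : ∀ᵐ ω ∂(iid Ed F), GenG σ K g ω)
    (hev : |EV σ F g| < rho σ F K (vert σ)) : FlowSys σ K F where
  v := vG σ K g
  φ := phG σ K g
  mono := by
    filter_upwards [hgen] with ω h k l hkl
    exact h.mono hkl
  comp := by
    filter_upwards [hgen] with ω h k l m hkl hlm i
    exact h.comp hkl hlm i
  shift := by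
    intro s
    have h2 := (measurePreserving_shO F s).quasiMeasurePreserving.ae hgen
    filter_upwards [hgen, h2] with ω h h' k l i hkl
    have hkl' : k - ln σ s ≤ l - ln σ s := by omega
    have h3 := h'.en hkl' i
    have h4 := (en_shO (g := g) hσ s (k := k - ln σ s) (l := l - ln σ s) (h.gd _) (h'.gd _) i
      (vG σ K g (shO s ω) (k - ln σ s) (l - ln σ s) i)).1 h3
    rw [sub_add_cancel, sub_add_cancel] at h4
    exact (h.eq hkl h4).symm
  meas := by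
    intro k l i j hkl
    have h1 : {ω | vG σ K g ω k l i = j} =ᵐ[iid Ed F] {ω | En σ K (wt ω) (phG σ K g ω l) k l i j} := by
      filter_upwards [hgen] with ω h
      apply propext
      constructor
      · intro (h3 : vG σ K g ω k l i = j)
        exact h3 ▸ h.en hkl i
      · intro (h3 : En σ K (wt ω) (phG σ K g ω l) k l i j)
        exact h.eq hkl h3
    exact (measurableSet_en hg k l i j).nullMeasurableSet.congr h1.symm
  dep_v := by
    intro l N i ω ω' hlN hag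
    by_cases h1 : Gd σ K (wt ω) l ∧ Gd σ K (wt ω) N
    · have h1' : Gd σ K (wt ω') l ∧ Gd σ K (wt ω') N :=
        ⟨(gd_congr hσ hag).1 h1.1, (gd_congr hσ (hag.mono hlN)).1 h1.2⟩
      have hiff : ∀ u, UEn σ K g ω l N i u ↔ UEn σ K g ω' l N i u := by
        intro u
        unfold UEn
        simp only [en_congr_agree hσ hl hlN hag h1.1 h1.2]
      by_cases hex : ∃ u, UEn σ K g ω l N i u
      · obtain ⟨u, hu⟩ := hex
        rw [vG_eq h1.1 h1.2 hu, vG_eq h1'.1 h1'.2 ((hiff u).1 hu)]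
      · have hex' : ¬ ∃ u, UEn σ K g ω' l N i u := fun ⟨u, hu⟩ => hex ⟨u, (hiff u).2 hu⟩
        unfold vG
        rw [dif_neg (fun h => hex h.2), dif_neg (fun h => hex' h.2)]
    · have h1' : ¬ (Gd σ K (wt ω') l ∧ Gd σ K (wt ω') N) := fun h =>
        h1 ⟨(gd_congr hσ hag).2 h.1, (gd_congr hσ (hag.mono hlN)).2 h.2⟩
      unfold vG
      rw [dif_neg (fun h => h1 h.1), dif_neg (fun h => h1' h.1)]
  dep_φ := by
    intro l i j ω ω' hag
    by_cases h1 : Gd σ K (wt ω) l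
    · have hs := same_of_agree hσ hag h1
      rw [phG_congr_same hσ hl hs, phG_congr_same hσ hl hs]
    · have h1' : ¬ Gd σ K (wt ω') l := fun h => h1 ((gd_congr hσ hag).2 h)
      unfold phG
      rw [if_neg h1, if_neg h1', if_neg h1, if_neg h1']
  opt := by
    filter_upwards [hgen] with ω h k l x hkl
    exact h.opt hkl x
  coer := by
    have hev' := abs_lt.1 hev
    -- the potential `-φ`
    obtain ⟨η1, hη1, hc1⟩ := coer_line hK hσ hg.neg (ε := 1) (Or.inl rfl) (by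
      rw [EV_neg]; push_cast; linarith [hev'.1])
    obtain ⟨η2, hη2, hc2⟩ := coer_line hK hσ hg.neg (ε := -1) (Or.inr rfl) (by
      rw [EV_neg]; push_cast; linarith [hev'.2])
    filter_upwards [hgen, hc1, hc2] with ω h h1 h2 l u
    obtain ⟨C1, hC1⟩ := h1 l
    obtain ⟨C2, hC2⟩ := h2 l
    set η := min η1 η2 with hη
    have hη0 : 0 < η := lt_min hη1 hη2
    set C := max C1 C2 with hC
    have key : ∀ j : ℤ, η * |(j : ℝ)| - C ≤
        (T (wt ω) univ (pk σ (wt ω) K l 0) (pk σ (wt ω) K l j)).toReal - phG σ K g ω l j := by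
      intro j
      rw [phG_of_gd (h.gd l)]
      have e : pot (fun i => mv σ (fun i w => -g i w) l i (wt ω)) j =
          -pot (fun i => mv σ g l i (wt ω)) j := by
        rw [← pot_neg]; rfl
      rcases le_total 0 j with hj | hj
      · have h3 := hC1 j (by rw [one_mul]; exact hj)
        rw [e] at h3
        have h4 : η * |(j : ℝ)| ≤ η1 * |(j : ℝ)| := mul_le_mul_of_nonneg_right (min_le_left _ _) (abs_nonneg _)
        have h5 := le_max_left C1 C2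
        linarith
      · have h3 := hC2 j (by linarith)
        rw [e] at h3
        have h4 : η * |(j : ℝ)| ≤ η2 * |(j : ℝ)| := mul_le_mul_of_nonneg_right (min_le_right _ _) (abs_nonneg _)
        have h5 := le_max_right C1 C2
        linarith
    set B := (T (wt ω) univ (pk σ (wt ω) K l 0) (pk σ (wt ω) K l u)).toReal with hB
    obtain ⟨L0, hL0⟩ := exists_nat_gt ((C + B - phG σ K g ω l u + 1) / η + |(u : ℝ)|)
    refine ⟨L0, 1, one_pos, fun j hj => ?_⟩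
    have h3 := key j
    have h4 : ENNReal.ofReal (phG σ K g ω l j - phG σ K g ω l u + 1) ≤
        T (wt ω) univ (pk σ (wt ω) K l j) (pk σ (wt ω) K l u) := by
      refine ENNReal.ofReal_le_of_le_toReal ?_
      have h5 := T_univ_anchor h.cfg (pk σ (wt ω) K l u) (pk σ (wt ω) K l 0) (pk σ (wt ω) K l j)
      rw [T_comm (wt ω) univ (pk σ (wt ω) K l j)]
      have h6 : (L0 : ℝ) ≤ |(j : ℝ)| + |(u : ℝ)| := by
        have h7 : ((|j - u| : ℤ) : ℝ) ≤ |(j : ℝ)| + |(u : ℝ)| := by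
          push_cast
          exact abs_sub _ _
        have h8 : ((L0 : ℤ) : ℝ) ≤ ((|j - u| : ℤ) : ℝ) := by exact_mod_cast hj
        push_cast at h8 h7
        linarith
      have h9 : (C + B - phG σ K g ω l u + 1) / η < |(j : ℝ)| := by linarith
      rw [div_lt_iff₀ hη0] at h9
      linarith
    exact h4.trans (T_mono (subset_univ _) _ _)

end prob

end C7
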