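import Mathlib
import Pool.Agent.Lib.MP_c725eb_pr.DTwo
import Pool.Agent.Lib.MP_c725eb_pr.Drift
import Pool.Agent.Lib.MP_c725eb_pr.FlowG

/-!
# Drift of the class `a` in the diamond case; finiteness from ultrafilters
-/

set_option autoImplicit false

namespace C7

open MeasureTheory Filter Set
open scoped ENNReal NNReal Topology

/-- Drift of a class with small mean below an index. -/
theorem ae_drift_below {K : ℝ≥0∞} {F : Measure ℝ} [IsProbabilityMeasure F] {g : ℤ → W → ℝ} {M : ℝ}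
    (hg : Adm g M) (hgood : ∀ᵐ ω ∂(iid Ed F), Good 1 (wt ω) K) {μ : ℝ} (hμ : EV 1 F g ≤ -(2 * μ)) :
    ∀ᵐ ω ∂(iid Ed F), ∀ k z : ℤ, ∀ ε : ℝ, 0 < ε → ∃ C : ℝ, ∀ x ≤ z,
      phG 1 K g ω k x - phG 1 K g ω k z ≤ -(μ - ε) * ((z - x : ℤ) : ℝ) + C := by
  have hσ : (1 : ℤ) = 0 ∨ (1 : ℤ) = 1 := Or.inr rfl
  have h1 : ∀ n : ℕ, ∀ᵐ ω ∂(iid Ed F), ∀ l a : ℤ, ∃ C : ℕ,
      DrE (fun i => mv 1 (fun i w => -g i w) l i (wt ω)) a (-1)
        ((-(2 * (μ - 1 / ((n : ℝ) + 1)))) / (1 + ((1 : ℤ) : ℝ))) C := by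
    intro n
    refine ae_drift hσ hg.neg (Or.inr rfl) ?_
    rw [EV_neg]
    have : (0 : ℝ) < 1 / ((n : ℝ) + 1) := by positivity
    push_cast
    linarith
  filter_upwards [ae_all_iff.2 h1, hgood] with ω h2 h3 k z ε hε
  obtain ⟨n, hn⟩ := exists_nat_one_div_lt hε
  obtain ⟨C, hC⟩ := h2 n k z
  refine ⟨C, fun x hx => ?_⟩
  have h4 := hC x (by omega)
  have e : pot (fun i => mv 1 (fun i w => -g i w) k i (wt ω)) =
      fun j => -pot (fun i => mv 1 g k i (wt ω)) j := by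
    funext j
    rw [← pot_neg]; rfl
  rw [e] at h4
  rw [phG_of_gd (gd_of_good hσ h3 k), phG_of_gd (gd_of_good hσ h3 k)]
  have h5 : |((x - z : ℤ) : ℝ)| = ((z - x : ℤ) : ℝ) := by
    have h6 : ((x - z : ℤ) : ℝ) = -((z - x : ℤ) : ℝ) := by push_cast; ring
    rw [h6, abs_neg, abs_of_nonneg]
    exact_mod_cast (by omega : 0 ≤ z - x)
  rw [h5] at h4
  have h7 : (0 : ℝ) ≤ ((z - x : ℤ) : ℝ) := by exact_mod_cast (by omega : 0 ≤ z - x)
  have h8 : (-(2 * (μ - 1 / ((n : ℝ) + 1)))) / (1 + ((1 : ℤ) : ℝ)) = -(μ - 1 / ((n : ℝ) + 1)) := by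
    push_cast; ring
  rw [h8] at h4
  have h9 : 1 / ((n : ℝ) + 1) * ((z - x : ℤ) : ℝ) ≤ ε * ((z - x : ℤ) : ℝ) :=
    mul_le_mul_of_nonneg_right hn.le h7
  simp only at h4
  nlinarith

/-- Finiteness from ultrafilters. -/
theorem finite_of_not_onG {w : W}
    (h : ∀ (v : V) (𝓤 : Ultrafilter ℕ), (𝓤 : Filter ℕ) ≤ atTop → ¬ OnG w v 𝓤) (v : V) :
    Set.Finite {n : ℕ | T w univ (-(n : ℤ), 0) v + T w univ v ((n : ℤ), 0) =
      T w univ (-(n : ℤ), 0) ((n : ℤ), 0)} := by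
  by_contra hinf
  set S := {n : ℕ | T w univ (-(n : ℤ), 0) v + T w univ v ((n : ℤ), 0) =
      T w univ (-(n : ℤ), 0) ((n : ℤ), 0)} with hS
  have hne : (atTop ⊓ 𝓟 S : Filter ℕ).NeBot := by
    rw [← frequently_mem_iff_neBot]
    exact Nat.frequently_atTop_iff_infinite.2 hinf
  refine h v (Ultrafilter.of (atTop ⊓ 𝓟 S)) ((Ultrafilter.of_le _).trans inf_le_left) ?_
  have h1 : (Ultrafilter.of (atTop ⊓ 𝓟 S) : Filter ℕ) ≤ 𝓟 S := (Ultrafilter.of_le _).trans inf_le_right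
  exact le_principal_iff.1 h1

end C7
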