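import Pool.Agent.Lib.MP_c725eb_pr.Flow

/-!
# Last entrances of geodesics with moving end points, along an ultrafilter

`LEn σ K w l x t z`: `z` is the index of the last entrance into the region of the line `l` of the
geodesic from `x` to `t`.  `data_core`: the sequence of the limits of the last entrances.
-/

set_option autoImplicit false

namespace C7

open MeasureTheory Filter Set
open scoped ENNReal Topology

/-- `z` is the index of the last entrance into `R_l` of a geodesic from `x` to `t`. -/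
def LEn (σ : ℤ) (K : ℝ≥0∞) (w : W) (l : ℤ) (x t : V) (z : ℤ) : Prop :=
  ∃ A B, IsW univ x t (A ++ B) ∧ cost w (A ++ B) = T w univ x t ∧
    IsW (Rg σ w K l) (pk σ w K l z) t B ∧ ∃ q, A.getLast? = some q ∧ q ∉ Rg σ w K l

section det

variable {σ : ℤ} {K : ℝ≥0∞} {w : W}

theorem notMem_Rg_of_ln (h : Cfg σ K w) {l : ℤ} {q : V} (hq : ln σ q < l) : q ∉ Rg σ w K l := by
  intro hR
  have h1 : ck σ w K l (ix σ q) ≤ q.1 := hR
  have h2 := le_ln_pk h.hσ h.good l (ix σ q)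
  unfold pk ln pt at h2
  unfold ln at hq
  simp only at h2
  have hix : σ * q.1 + ix σ q = q.2 := by unfold ix; ring
  rcases h.hσ with rfl | rfl
  · simp only [zero_mul, add_zero] at h2 hq
    omega
  · simp only [one_mul] at h2 hq hix
    omega

theorem LEn.exists (h : Cfg σ K w) {l : ℤ} {x t : V} (hx : x ∉ Rg σ w K l) (ht : t ∈ Rg σ w K l) :
    ∃ z, LEn σ K w l x t z := by
  obtain ⟨γ, hγ, hc⟩ := h.eg univ x t (T_univ_ne_top h.fin x t)
  have hct : cost w γ ≠ ⊤ := by rw [hc]; exact T_univ_ne_top h.fin x t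
  obtain ⟨l', hl'⟩ := hγ.eq_cons
  obtain ⟨l₁, v, l₂, e, hv, h2⟩ := exists_last_notMem (R := Rg σ w K l) γ ⟨x, by rw [hl']; simp, hx⟩
  cases l₂ with
  | nil =>
    have h3 := hγ.2.1
    rw [e, List.getLast?_append] at h3
    simp at h3
    exact absurd (h3 ▸ ht) hv
  | cons u l₃ =>
    have hu : u ∈ Rg σ w K l := h2 u (by simp)
    have h4 : cost w (v :: u :: l₃) ≠ ⊤ := by
      refine ne_top_of_le_ne_top hct ?_
      rw [e]
      exact cost_suffix_le w l₁ _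
    rw [cost_cons_cons] at h4
    have h5 : step w v u ≠ ⊤ := fun h' => h4 (by rw [h', top_add])
    have h6 := entrance h.hσ (ck_stp h.hσ h.good l) (nb_of_step_ne_top h.hw h5) hv hu
    have e2 : γ = (l₁ ++ [v]) ++ (u :: l₃) := by rw [e]; simp
    refine ⟨ix σ u, l₁ ++ [v], u :: l₃, e2 ▸ hγ, e2 ▸ hc, ⟨?_, ?_, h2⟩, v, by simp, hv⟩
    · simp only [List.head?_cons, Option.some.injEq]
      exact h6
    · have h7 := hγ.2.1
      rw [e2, List.getLast?_append_of_ne_nil _ (by simp)] at h7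
      exact h7

theorem cost_tail_eq (h : Cfg σ K w) {x t p : V} {A B : List V} (h1 : IsW univ x t (A ++ B))
    (hc : cost w (A ++ B) = T w univ x t) {D : Set V} (hB : IsW D p t B) :
    cost w B = T w univ p t ∧ T w D p t = T w univ p t := by
  obtain ⟨B₀, rfl⟩ := hB.eq_cons
  have h2 := geo_suffix h1 hc (T_univ_ne_top h.fin x t)
  refine ⟨h2.1, le_antisymm ?_ (T_mono (subset_univ _) _ _)⟩
  rw [← h2.1]
  exact T_le hB

theorem LEn.full (h : Cfg σ K w) {l : ℤ} {x t : V} {z : ℤ} (hz : LEn σ K w l x t z) :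
    T w univ (pk σ w K l z) t = T w (Rg σ w K l) (pk σ w K l z) t := by
  obtain ⟨A, B, h1, h2, h3, _⟩ := hz
  exact (cost_tail_eq h h1 h2 h3).2.symm

theorem LEn.geo (h : Cfg σ K w) {l : ℤ} {x t : V} {z : ℤ} (hz : LEn σ K w l x t z) :
    T w univ x (pk σ w K l z) + T w univ (pk σ w K l z) t = T w univ x t := by
  obtain ⟨A, B, h1, h2, h3, _⟩ := hz
  refine le_antisymm ?_ (T_triangle _ _ _ _ _)
  rw [← (cost_tail_eq h h1 h2 h3).1, ← h2]
  obtain ⟨B₀, rfl⟩ := h3.eq_cons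
  rw [cost_append]
  exact add_le_add (T_le h1.pre) le_rfl

/-- A vertex on the geodesic outside of the region is before the last entrance. -/
theorem LEn.of_geo (h : Cfg σ K w) {l : ℤ} {x t q : V} {z : ℤ} (hz : LEn σ K w l x t z)
    (hq : T w univ x q + T w univ q t = T w univ x t) (hql : q ∉ Rg σ w K l) :
    T w univ q (pk σ w K l z) + T w (Rg σ w K l) (pk σ w K l z) t = T w univ q t := by
  obtain ⟨A, B, h1, h2, h3, _⟩ := hz
  obtain ⟨C, hC, hcC⟩ := h.eg univ x q (T_univ_ne_top h.fin x q)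
  obtain ⟨D, hD, hcD⟩ := h.eg univ q t (T_univ_ne_top h.fin q t)
  have e : A ++ B = C ++ D.tail := by
    refine h.ug univ x t _ _ h1 (hC.append hD) h2 ?_ (T_univ_ne_top h.fin x t)
    rw [cost_append_walk hC hD, hcC, hcD, hq]
  have hqm : q ∈ A ++ B := by
    rw [e]
    obtain ⟨C₀, rfl⟩ := hC.eq_concat
    simp
  have hqA : q ∈ A := by
    rcases List.mem_append.1 hqm with h' | h'
    · exact h'
    · exact absurd (h3.2.2 q h') hql
  obtain ⟨A₁, A₂, rfl⟩ := List.append_of_mem hqA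
  have e1 : (A₁ ++ q :: A₂) ++ B = A₁ ++ q :: (A₂ ++ B) := by simp
  have hfull := cost_tail_eq h h1 h2 h3
  rw [e1] at h1 h2
  have h4 := geo_suffix h1 h2 (T_univ_ne_top h.fin x t)
  refine le_antisymm ?_ ((T_triangle w univ q (pk σ w K l z) t).trans
    (add_le_add le_rfl (T_mono (subset_univ _) _ _)))
  rw [hfull.2, ← hfull.1, ← h4.1]
  obtain ⟨B₀, rfl⟩ := h3.eq_cons
  have h5 := h1.suffix
  rw [show q :: (A₂ ++ pk σ w K l z :: B₀) = (q :: A₂) ++ pk σ w K l z :: B₀ by simp] at h5 ⊢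
  rw [cost_append]
  exact add_le_add (T_le h5.pre) le_rfl

/-- Last entrances into two regions. -/
theorem LEn.am (h : Cfg σ K w) {k l : ℤ} (hkl : k ≤ l) {x t : V} {z u : ℤ} (hz : LEn σ K w k x t z)
    (hu : LEn σ K w l x t u) : AM w σ univ (ck σ w K k) (ck σ w K l) t z u := by
  obtain ⟨A, B, h1, h2, h3, q, hq, hqR⟩ := hz
  obtain ⟨A', B', h1', h2', h3', q', hq', hqR'⟩ := hu
  have e := h.ug univ x t _ _ h1 h1' h2 h2' (T_univ_ne_top h.fin x t)
  have hsub : Rg σ w K l ⊆ Rg σ w K k := Rg_anti h.hσ h.good hkl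
  -- `B = M ++ B'`
  have hM : ∃ M, B = M ++ B' ∧ A' = A ++ M := by
    rcases List.append_eq_append_iff.1 e with ⟨a, rfl, rfl⟩ | ⟨a, rfl, rfl⟩
    · exact ⟨a, rfl, rfl⟩
    · rcases a.eq_nil_or_concat with rfl | ⟨a₀, q₀, rfl⟩
      · exact ⟨[], by simp, by simp⟩
      · exfalso
        apply hqR
        have h4 : q = q₀ := by
          rw [List.concat_eq_append, ← List.append_assoc, List.getLast?_append_of_ne_nil _ (by simp)] at hq
          simpa using hq.symm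
        rw [h4]
        exact hsub (h3'.2.2 q₀ (by simp))
  obtain ⟨M, rfl, rfl⟩ := hM
  have c1 := cost_tail_eq h h1 h2 h3
  have c2 := cost_tail_eq h h1' h2' h3'
  have ht : t ∈ Rg σ w K l := h3'.right_mem
  have hfin : TI w σ univ (ck σ w K k) z t ≠ ⊤ := by
    rw [TI_univ]
    exact h.fin_Rg k z (hsub ht)
  refine ⟨le_antisymm (TI_le (h.ck_mono hkl) trivial) ?_, hfin⟩
  have e3 : TI w σ univ (ck σ w K k) z t = cost w (M ++ B') := by
    rw [TI_univ, c1.1]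
    exact c1.2
  have e4 : TI w σ univ (ck σ w K l) u t = cost w B' := by
    rw [TI_univ, c2.1]
    exact c2.2
  rw [e3, e4, KI_univ]
  rcases M.eq_nil_or_concat with rfl | ⟨M₀, p, rfl⟩
  · have h4 : pk σ w K k z = pk σ w K l u := by
      have h5 := h3.1
      rw [List.nil_append, h3'.1] at h5
      simpa using h5.symm
    unfold pk at h4
    rw [h4, Kn_self, zero_add, List.nil_append]
  · obtain ⟨B₀, rfl⟩ := h3'.eq_cons
    have h5 : q' = p := by
      rw [List.concat_eq_append, ← List.append_assoc, List.getLast?_append_of_ne_nil _ (by simp)] at hq'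
      simpa using hq'.symm
    subst h5
    have e5 : M₀.concat q' ++ pk σ w K l u :: B₀ = M₀ ++ q' :: pk σ w K l u :: B₀ := by simp
    rw [e5] at h3 ⊢
    rw [cost_append, cost_cons_cons, ← add_assoc]
    refine add_le_add ?_ le_rfl
    have h6 := h3.pre
    exact (Kn_le (h6.2.2 q' (by simp)) hqR').trans (add_le_add (T_le h6) le_rfl)

end det

/-! ### limits along an ultrafilter -/

theorem ultra_bdd {𝓤 : Ultrafilter ℕ} {P : ℕ → ℤ → Prop} {M : ℤ}
    (h : ∀ᶠ n in (𝓤 : Filter ℕ), ∃ z, |z| ≤ M ∧ P n z) : ∃ z, ∀ᶠ n in (𝓤 : Filter ℕ), P n z := by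
  have h1 : (⋃ z ∈ Set.Icc (-M) M, {n | P n z}) ∈ (𝓤 : Filter ℕ) := by
    filter_upwards [h] with n hn
    obtain ⟨z, hz, hP⟩ := hn
    exact mem_biUnion (show z ∈ Set.Icc (-M) M from abs_le.1 hz) hP
  have h2 := (Ultrafilter.finite_biUnion_mem_iff (f := 𝓤) (Set.finite_Icc (-M) M)
    (s := fun z => {n | P n z})).1 h1
  obtain ⟨z, _, hz⟩ := h2
  exact ⟨z, hz⟩

section core

variable {σ : ℤ} {K : ℝ≥0∞} {w : W}

/-- Tightness of the last entrances into the region of the line `l` of the geodesics from `q`. -/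
def Tgt (σ : ℤ) (K : ℝ≥0∞) (w : W) (𝓤 : Filter ℕ) (q : V) (s : ℕ → V) (l : ℤ) : Prop :=
  ∃ M : ℤ, ∀ᶠ n in 𝓤, ∀ i, M < |i| →
    T w univ q (pk σ w K l i) + T w (Rg σ w K l) (pk σ w K l i) (s n) ≠ T w univ q (s n)

theorem exists_lim_entrance (h : Cfg σ K w) {𝓤 : Ultrafilter ℕ} {r s : ℕ → V} {l : ℤ} {q : V}
    (hs : ∀ᶠ n in (𝓤 : Filter ℕ), s n ∈ Rg σ w K l)
    (hr : ∀ᶠ n in (𝓤 : Filter ℕ), r n ∉ Rg σ w K l)
    (hql : q ∉ Rg σ w K l)
    (hg : ∀ᶠ n in (𝓤 : Filter ℕ), T w univ (r n) q + T w univ q (s n) = T w univ (r n) (s n))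
    (ht : Tgt σ K w 𝓤 q s l) :
    ∃ z, ∀ᶠ n in (𝓤 : Filter ℕ), LEn σ K w l (r n) (s n) z := by
  obtain ⟨M, hM⟩ := ht
  refine ultra_bdd (M := M) ?_
  filter_upwards [hs, hr, hg, hM] with n h1 h2 h3 h4
  obtain ⟨z, hz⟩ := LEn.exists h h2 h1
  refine ⟨z, ?_, hz⟩
  by_contra hlt
  push Not at hlt
  exact h4 z hlt (hz.of_geo h h3 hql)

/-- **The core of the data.** -/
theorem data_core (h : Cfg σ K w) {𝓤 : Ultrafilter ℕ} {r s : ℕ → V}
    (hs : ∀ l, ∀ᶠ n in (𝓤 : Filter ℕ), s n ∈ Rg σ w K l)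
    (hr : ∀ l, ∀ᶠ n in (𝓤 : Filter ℕ), r n ∉ Rg σ w K l)
    (hq : ∀ l, ∃ q, ln σ q < l ∧
      (∀ᶠ n in (𝓤 : Filter ℕ), T w univ (r n) q + T w univ q (s n) = T w univ (r n) (s n)) ∧
      Tgt σ K w 𝓤 q s l) :
    ∃ z : ℤ → ℤ, ∀ l, ∀ᶠ n in (𝓤 : Filter ℕ), LEn σ K w l (r n) (s n) (z l) := by
  have key : ∀ l, ∃ z, ∀ᶠ n in (𝓤 : Filter ℕ), LEn σ K w l (r n) (s n) z := by
    intro l
    obtain ⟨q, h1, h2, h3⟩ := hq l
    exact exists_lim_entrance h (hs l) (hr l) (notMem_Rg_of_ln h h1) h2 h3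
  choose z hz using key
  exact ⟨z, hz⟩

end core

end C7
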