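import Pool.Agent.Lib.MP_c725eb_pr.StripInst
import Pool.Agent.Lib.MP_c725eb_pr.Cls

/-!
# The increments of the strips dominate, and are dominated by, the increments of wedges

`ae_fluct`: almost surely the distance of the curve `n` from the line `n` at the index `i` is at
most `(|i| + n) / q`, for all large `n` and all `i`.
-/

set_option autoImplicit false

namespace C7

open MeasureTheory Filter Set
open scoped ENNReal Topology

/-! ### fluctuations of the curves -/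

section fluct

/-- Almost surely the fluctuations of the curves are small. -/
def Fluct (σ : ℤ) (K : ℝ≥0∞) (w : W) : Prop :=
  ∀ q : ℕ, 0 < q → ∃ n0 : ℕ, ∀ n : ℕ, n0 ≤ n → ∀ i : ℤ,
    ln σ (pk σ w K n i) ≤ n + ((i.natAbs + n) / q : ℕ)

theorem tsum_pow_div (q : ℕ) (hq : 0 < q) : ∑' a : ℕ, ((1 : ℝ≥0∞) / 64) ^ (a / q) ≠ ⊤ := by
  have : NeZero q := ⟨hq.ne'⟩
  have h1 : ∑' a : ℕ, ((1 : ℝ≥0∞) / 64) ^ (a / q) =
      ∑' p : ℕ × Fin q, ((1 : ℝ≥0∞) / 64) ^ p.1 := by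
    rw [← (Nat.divModEquiv q).tsum_eq]
    rfl
  rw [h1, ENNReal.tsum_prod (f := fun (a : ℕ) (_ : Fin q) => ((1 : ℝ≥0∞) / 64) ^ a)]
  simp only [tsum_fintype, Finset.sum_const, Finset.card_univ, Fintype.card_fin, nsmul_eq_mul]
  rw [ENNReal.tsum_mul_left, ENNReal.tsum_geometric]
  refine ENNReal.mul_ne_top (ENNReal.natCast_ne_top q) (ENNReal.inv_ne_top.2 ?_)
  have h2 : (1 : ℝ≥0∞) / 64 < 1 := by
    rw [ENNReal.div_lt_iff (by norm_num) (by norm_num)]
    norm_num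
  exact (tsub_pos_of_lt h2).ne'

variable {F : Measure ℝ} [IsProbabilityMeasure F] {K : ℝ≥0∞}

theorem ae_fluct (hK : SmallK F K) {σ : ℤ} (hσ : σ = 0 ∨ σ = 1) :
    ∀ᵐ ω ∂(iid Ed F), Fluct σ K (wt ω) := by
  unfold Fluct
  rw [ae_all_iff]
  intro q
  by_cases hq : 0 < q
  swap
  · exact Filter.Eventually.of_forall fun ω h => absurd h hq
  set s : ℕ × ℤ → Set Om := fun p => {ω : Om | (p.1 : ℤ) + ((p.2.natAbs + p.1) / q : ℕ) <
    ln σ (pk σ (wt ω) K p.1 p.2)} with hs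
  have hsum : ∑' p : ℕ × ℤ, iid Ed F (s p) ≠ ⊤ := by
    set f : ℕ → ℝ≥0∞ := fun a => ((1 : ℝ≥0∞) / 64) ^ (a / q) with hf
    have h1 : ∀ p : ℕ × ℤ, iid Ed F (s p) ≤ 162 * (f p.1 * f p.2.natAbs) := by
      intro p
      refine (pk_tail_wt hK hσ p.1 p.2 _).trans (mul_le_mul' le_rfl ?_)
      rw [hf]
      simp only
      rw [← pow_add]
      refine pow_le_pow_right_of_le_one' ?_ ?_
      · rw [one_div]; exact ENNReal.inv_le_one.2 (by norm_num)
      · rw [add_comm (p.1 / q)]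
        exact Nat.div_add_div_le_add_div
    have h2 : ∑' i : ℤ, f i.natAbs ≤ 2 * ∑' a : ℕ, f a := by
      have hinj : Function.Injective fun i : ℤ => ((i.natAbs, decide (i < 0)) : ℕ × Bool) := by
        intro i j hij
        simp only [Prod.mk.injEq, decide_eq_decide] at hij
        omega
      calc ∑' i : ℤ, f i.natAbs = ∑' i : ℤ, (fun p : ℕ × Bool => f p.1) (i.natAbs, decide (i < 0)) := rfl
        _ ≤ ∑' p : ℕ × Bool, f p.1 := ENNReal.tsum_comp_le_tsum_of_injective hinj _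
        _ = 2 * ∑' a : ℕ, f a := by
          rw [ENNReal.tsum_prod (f := fun (a : ℕ) (_ : Bool) => f a)]
          simp only [tsum_fintype, Finset.sum_const, Finset.card_univ, Fintype.card_bool, nsmul_eq_mul]
          rw [ENNReal.tsum_mul_left]
          norm_num
    have h3 : ∑' p : ℕ × ℤ, iid Ed F (s p) ≤ 162 * ((∑' a : ℕ, f a) * (2 * ∑' a : ℕ, f a)) := by
      refine (ENNReal.tsum_le_tsum h1).trans ?_
      rw [ENNReal.tsum_mul_left]
      refine mul_le_mul' le_rfl ?_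
      rw [ENNReal.tsum_prod (f := fun (a : ℕ) (b : ℤ) => f a * f b.natAbs)]
      simp only [ENNReal.tsum_mul_left]
      rw [ENNReal.tsum_mul_right]
      exact mul_le_mul' le_rfl h2
    refine ne_top_of_le_ne_top ?_ h3
    have h4 := tsum_pow_div q hq
    exact ENNReal.mul_ne_top (by norm_num) (ENNReal.mul_ne_top h4 (ENNReal.mul_ne_top (by norm_num) h4))
  filter_upwards [ae_finite_setOfPred_mem hsum] with ω hω _
  obtain ⟨B, hB⟩ : ∃ B : ℕ, ∀ p ∈ {p : ℕ × ℤ | ω ∈ s p}, p.1 ≤ B := by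
    obtain ⟨B, hB⟩ := (hω.image Prod.fst).bddAbove
    exact ⟨B, fun p hp => hB ⟨p, hp, rfl⟩⟩
  refine ⟨B + 1, fun n hn i => ?_⟩
  by_contra hcon
  push Not at hcon
  have := hB (n, i) hcon
  simp only at this
  omega

end fluct

/-! ### the position of the right ends of the strips -/

section pos

variable {σ : ℤ} {w : W} {K : ℝ≥0∞}

theorem Fluct.int (h : Fluct σ K w) {q : ℤ} (hq : 0 < q) : ∃ n0 : ℤ, 0 ≤ n0 ∧ ∀ n ≥ n0, ∀ i : ℤ,
    q * (ln σ (pk σ w K n i) - n) ≤ |i| + n := by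
  obtain ⟨n0, hn0⟩ := h q.toNat (by omega)
  refine ⟨n0, by positivity, fun n hn i => ?_⟩
  have h1 := hn0 n.toNat (by omega) i
  have e1 : ((n.toNat : ℕ) : ℤ) = n := Int.toNat_of_nonneg (by omega)
  rw [e1] at h1
  have h2 : ((((i.natAbs + n.toNat) / q.toNat : ℕ)) : ℤ) * q ≤ |i| + n := by
    have h3 : ((i.natAbs + n.toNat) / q.toNat) * q.toNat ≤ i.natAbs + n.toNat := Nat.div_mul_le_self _ _
    have h4 : ((((i.natAbs + n.toNat) / q.toNat * q.toNat : ℕ)) : ℤ) ≤ ((i.natAbs + n.toNat : ℕ) : ℤ) := by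
      exact_mod_cast h3
    push_cast at h4
    rw [Int.toNat_of_nonneg hq.le, e1] at h4
    push_cast
    rw [Int.toNat_of_nonneg hq.le, e1]
    exact h4
  nlinarith

theorem det_wh (u : V) (n i : ℤ) : det u (wh σ w K n i) =
    u.1 * (σ * (ck σ w K n i + (1 - σ)) + i) - u.2 * (ck σ w K n i + (1 - σ)) := rfl

theorem ln_pk_eq (n i : ℤ) : ln σ (pk σ w K n i) = ck σ w K n i + σ * (σ * ck σ w K n i + i) := rfl

/-- The right ends of the strips above the index `-σ n + R`, `R ≥ δ n`, are far above the wall of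
direction `u` if `2 u₂ / u₁ < δ`. -/
theorem det_wh_up (hσ : σ = 0 ∨ σ = 1) (hG : Good σ w K) (hfl : Fluct σ K w) {u : V} (hu1 : 0 < u.1)
    (hu2 : 0 < u.2) (hu3 : u.2 ≤ u.1) {δ : ℝ} (hδ : 2 * (u.2 : ℝ) < δ * u.1) :
    ∃ κ : ℝ, 0 < κ ∧ ∃ C : ℝ, ∃ n0 : ℤ, ∀ n ≥ n0, ∀ R : ℤ, δ * n ≤ R → ∀ i : ℤ, -(σ * n) + R ≤ i →
      κ * n - C ≤ (det u (wh σ w K n i) : ℝ) := by
  have u1 : (0 : ℝ) < u.1 := by exact_mod_cast hu1
  have u2 : (0 : ℝ) < u.2 := by exact_mod_cast hu2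
  have u3 : (u.2 : ℝ) ≤ u.1 := by exact_mod_cast hu3
  have hδ0 : 0 < δ := by
    by_contra hcon
    push Not at hcon
    nlinarith
  obtain ⟨n0, hn0, hn⟩ := hfl.int (q := 4) (by norm_num)
  rcases hσ with rfl | rfl
  · refine ⟨u.2 / 4, by positivity, u.2, n0, fun n hn' R hR i hi => ?_⟩
    have h1 := hn n hn' i
    rw [det_wh, ln_pk_eq] at *
    simp only [zero_mul, add_zero, zero_add, sub_zero, neg_zero] at *
    have n1 : (0 : ℝ) ≤ n := by exact_mod_cast hn0.trans hn'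
    have i1 : δ * n ≤ (i : ℝ) := hR.trans (by exact_mod_cast hi)
    have i2 : (0 : ℝ) ≤ i := (by positivity : (0 : ℝ) ≤ δ * n).trans i1
    have i3 : (0 : ℤ) ≤ i := by exact_mod_cast i2
    rw [abs_of_nonneg i3] at h1
    have h2 : 4 * ((ck 0 w K n i : ℝ) - n) ≤ (i : ℝ) + n := by exact_mod_cast h1
    push_cast
    -- det = u1 i - u2 (c + 1)
    have h3 : (ck 0 w K n i : ℝ) ≤ n + (i + n) / 4 := by linarith
    have h4 : (u.2 : ℝ) * ck 0 w K n i ≤ u.2 * (n + (i + n) / 4) := mul_le_mul_of_nonneg_left h3 u2.le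
    have h5 : ((u.1 : ℝ) - u.2 / 4) * (δ * n) ≤ (u.1 - u.2 / 4) * i :=
      mul_le_mul_of_nonneg_left i1 (by linarith)
    have h6 : (3 / 4 : ℝ) * (u.1 * (δ * n)) ≤ (u.1 - u.2 / 4) * (δ * n) := by
      rw [← mul_assoc]
      exact mul_le_mul_of_nonneg_right (by linarith) (by positivity)
    have h7 : 2 * (u.2 : ℝ) * n ≤ u.1 * (δ * n) := by
      rw [← mul_assoc]
      exact mul_le_mul_of_nonneg_right (by linarith) n1
    nlinarith
  · refine ⟨(δ * u.1 - 2 * u.2) / 2, by linarith, 0, 0, fun n hn' R hR i hi => ?_⟩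
    have h1 := le_ln_pk (Or.inr rfl) hG n i
    rw [det_wh, ln_pk_eq] at *
    simp only [one_mul, sub_self, add_zero] at *
    have n1 : (0 : ℝ) ≤ n := by exact_mod_cast hn'
    have i1 : δ * n - n ≤ (i : ℝ) := by
      have : (-(n : ℝ)) + R ≤ i := by exact_mod_cast hi
      linarith
    have h2 : (n : ℝ) ≤ ck 1 w K n i + (ck 1 w K n i + i) := by exact_mod_cast h1
    push_cast
    have h3 : ((u.1 : ℝ) - u.2) * n ≤ (u.1 - u.2) * (ck 1 w K n i + (ck 1 w K n i + i)) :=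
      mul_le_mul_of_nonneg_left h2 (by linarith)
    have h4 : ((u.1 : ℝ) + u.2) * (δ * n - n) ≤ (u.1 + u.2) * i := mul_le_mul_of_nonneg_left i1 (by linarith)
    have h5 : 0 ≤ (u.2 : ℝ) * (δ * n) := by positivity
    nlinarith

/-- The right ends of the strips below the index `-σ n - R`, `R ≥ δ n`, are far below the wall of
direction `u` with `u₂ < 0` if `4 |u₂| / u₁ < δ`. -/
theorem det_wh_lo (hσ : σ = 0 ∨ σ = 1) (hfl : Fluct σ K w) {u : V} (hu2 : u.2 < 0)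
    (hu3 : -(2 * u.2) ≤ u.1) {δ : ℝ} (hδ : -(4 * (u.2 : ℝ)) < δ * u.1) :
    ∃ κ : ℝ, 0 < κ ∧ ∃ C : ℝ, ∃ n0 : ℤ, ∀ n ≥ n0, ∀ R : ℤ, δ * n ≤ R → ∀ i : ℤ, i ≤ -(σ * n) - R →
      (det u (wh σ w K n i) : ℝ) ≤ -(κ * n - C) := by
  obtain ⟨v, hv⟩ : ∃ v : ℤ, u.2 = -v := ⟨-u.2, by ring⟩
  have hv0 : 0 < v := by omega
  have v0 : (0 : ℝ) < v := by exact_mod_cast hv0
  have u1 : (0 : ℝ) < u.1 := by
    have : 0 < u.1 := by omega
    exact_mod_cast this
  have u3 : 2 * (v : ℝ) ≤ u.1 := by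
    have : 2 * v ≤ u.1 := by omega
    exact_mod_cast this
  rw [hv] at hδ
  push_cast at hδ
  have hδ0 : 0 < δ := by
    by_contra hcon
    push Not at hcon
    nlinarith
  rcases hσ with rfl | rfl
  · obtain ⟨n0, hn0, hn⟩ := hfl.int (q := 4) (by norm_num)
    refine ⟨v / 4, by positivity, v, n0, fun n hn' R hR i hi => ?_⟩
    have h1 := hn n hn' i
    rw [det_wh, ln_pk_eq] at *
    simp only [zero_mul, add_zero, zero_add, sub_zero, neg_zero, zero_sub] at *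
    have n1 : (0 : ℝ) ≤ n := by exact_mod_cast hn0.trans hn'
    have i1 : δ * n ≤ -(i : ℝ) := by
      have : (i : ℝ) ≤ -R := by exact_mod_cast hi
      linarith
    have i2 : (0 : ℝ) ≤ -i := (by positivity : (0 : ℝ) ≤ δ * n).trans i1
    have i3 : i ≤ 0 := by
      have : (i : ℝ) ≤ 0 := by linarith
      exact_mod_cast this
    rw [abs_of_nonpos i3] at h1
    have h2 : 4 * ((ck 0 w K n i : ℝ) - n) ≤ -(i : ℝ) + n := by exact_mod_cast h1
    rw [hv]
    push_cast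
    have h3 : (ck 0 w K n i : ℝ) ≤ n + (-i + n) / 4 := by linarith
    have h4 : (v : ℝ) * ck 0 w K n i ≤ v * (n + (-i + n) / 4) := mul_le_mul_of_nonneg_left h3 v0.le
    have h5 : ((u.1 : ℝ) - v / 4) * (δ * n) ≤ (u.1 - v / 4) * (-i) :=
      mul_le_mul_of_nonneg_left i1 (by linarith)
    have h6 : (3 / 4 : ℝ) * (u.1 * (δ * n)) ≤ (u.1 - v / 4) * (δ * n) := by
      rw [← mul_assoc]
      exact mul_le_mul_of_nonneg_right (by linarith) (by positivity)
    have h7 : 2 * (v : ℝ) * n ≤ u.1 * (δ * n) := by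
      rw [← mul_assoc]
      exact mul_le_mul_of_nonneg_right (by linarith) n1
    nlinarith
  · set r : ℝ := δ * (u.1 - v) - 2 * v with hr
    have hr0 : 0 < r := by
      have h1 : δ * (u.1 / 2) ≤ δ * (u.1 - v) := mul_le_mul_of_nonneg_left (by linarith) hδ0.le
      rw [hr]; linarith
    obtain ⟨q, hq⟩ := exists_nat_gt (2 * ((u.1 + v) * (2 + δ)) / r)
    have hq0 : (0 : ℝ) < q := lt_of_le_of_lt (by positivity) hq
    have hq1 : (0 : ℤ) < (q : ℤ) := by exact_mod_cast hq0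
    obtain ⟨n0, hn0, hn⟩ := hfl.int hq1
    refine ⟨r / 4, by positivity, 0, n0, fun n hn' R hR i hi => ?_⟩
    have h1 := hn n hn' i
    rw [det_wh, ln_pk_eq] at *
    simp only [one_mul, sub_self, add_zero] at *
    have n1 : (0 : ℝ) ≤ n := by exact_mod_cast hn0.trans hn'
    have i1 : n + δ * n ≤ -(i : ℝ) := by
      have : (i : ℝ) ≤ -(n : ℝ) - R := by exact_mod_cast hi
      linarith
    have i2 : (0 : ℝ) ≤ -i := (by positivity : (0 : ℝ) ≤ n + δ * n).trans i1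
    have i3 : i ≤ 0 := by
      have : (i : ℝ) ≤ 0 := by linarith
      exact_mod_cast this
    rw [abs_of_nonpos i3] at h1
    have h2 : (q : ℝ) * ((ck 1 w K n i : ℝ) + (ck 1 w K n i + i) - n) ≤ -(i : ℝ) + n := by exact_mod_cast h1
    rw [hv]
    push_cast
    set a : ℝ := -(i : ℝ) with ha
    have ei : (i : ℝ) = -a := by rw [ha]; ring
    set s : ℝ := (u.1 + v) / q with hs
    have hs0 : 0 ≤ s := by positivity
    have hs1 : s * (2 + δ) ≤ r / 2 := by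
      rw [div_lt_iff₀ hr0] at hq
      rw [hs, div_mul_eq_mul_div, div_le_iff₀ hq0]
      linarith
    have h3 : (ck 1 w K n i : ℝ) + (ck 1 w K n i + i) ≤ n + (a + n) / q := by
      have : (ck 1 w K n i : ℝ) + (ck 1 w K n i + i) - n ≤ (a + n) / q := by
        rw [le_div_iff₀ hq0]; linarith
      linarith
    have h4 : ((u.1 : ℝ) + v) * ((ck 1 w K n i : ℝ) + (ck 1 w K n i + i)) ≤
        (u.1 + v) * n + s * (a + n) := by
      have h5 := mul_le_mul_of_nonneg_left h3 (by linarith : (0 : ℝ) ≤ (u.1 : ℝ) + v)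
      have h6 : ((u.1 : ℝ) + v) * (n + (a + n) / q) = (u.1 + v) * n + s * (a + n) := by
        rw [hs]; ring
      linarith
    have h7 : 0 ≤ (u.1 : ℝ) - v - s := by
      have h8 : s * 1 ≤ s * (2 + δ) := mul_le_mul_of_nonneg_left (by linarith) hs0
      have h9 : s * (2 + δ) ≤ δ * (u.1 - v) / 2 := by linarith
      have h10 : s * (2 + δ) ≤ (u.1 - v) * (2 + δ) := by nlinarith
      have h11 := le_of_mul_le_mul_right h10 (by positivity : (0 : ℝ) < 2 + δ)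
      linarith
    have h8 : ((u.1 : ℝ) - v - s) * (n + δ * n) ≤ (u.1 - v - s) * a := mul_le_mul_of_nonneg_left i1 h7
    have h9 : s * (2 + δ) * n ≤ r / 2 * n := mul_le_mul_of_nonneg_right hs1 n1
    rw [ei] at h4 ⊢
    nlinarith

end pos

/-! ### domination for moving walls -/

section dom

variable {σ : ℤ} {w : W} {K : ℝ≥0∞}

/-- The increments towards the targets at the lower wall converge. -/
def LimLo (σ : ℤ) (K : ℝ≥0∞) (u : V) (L : ℕ) (w : W) : Prop :=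
  ∀ i, OKlo σ K u L i w → (∀ᶠ m : ℤ in atTop, TI w σ (Wlo σ u L) (ck σ w K 0) i (tlo σ u L m) ≠ ⊤) ∧
    Tendsto (fun m : ℤ => BI w σ (Wlo σ u L) (ck σ w K 0) (tlo σ u L m) i (i + 1)) atTop
      (𝓝 (glo σ K u L i w))

/-- The increments towards the targets at the upper wall converge. -/
def LimUp (σ : ℤ) (K : ℝ≥0∞) (u : V) (L : ℕ) (w : W) : Prop :=
  ∀ i, OKup σ K u L i w → (∀ᶠ m : ℤ in atTop, TI w σ (Wup σ u L) (ck σ w K 0) (i + 1) (tup σ u L m) ≠ ⊤) ∧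
    Tendsto (fun m : ℤ => BI w σ (Wup σ u L) (ck σ w K 0) (tup σ u L m) i (i + 1)) atTop
      (𝓝 (gup σ K u L i w))

theorem det_ss_le (hσ : σ = 0 ∨ σ = 1) {u : V} (hu1 : 0 < u.1) (hu2 : σ = 1 → 0 < u.1 + u.2) (l J : ℤ) :
    ∃ B : ℤ, ∀ j ≤ J, det u (ss σ l j) ≤ B := by
  rcases hσ with rfl | rfl
  · refine ⟨u.1 * J - u.2 * l, fun j hj => ?_⟩
    have e : ss 0 l j = (l, j) := by unfold ss; simp
    rw [e]
    unfold det
    simp only
    have := mul_le_mul_of_nonneg_left hj hu1.le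
    linarith
  · refine ⟨(u.1 + u.2) * ((l + J) / 2) - u.2 * l, fun j hj => ?_⟩
    have e : ss 1 l j = (l - (l + j) / 2, (l + j) / 2) := by unfold ss; rw [if_neg one_ne_zero]
    rw [e]
    unfold det
    simp only
    have h1 : (l + j) / 2 ≤ (l + J) / 2 := by omega
    have := mul_le_mul_of_nonneg_left h1 (hu2 rfl).le
    nlinarith

theorem le_det_ss (hσ : σ = 0 ∨ σ = 1) {u : V} (hu1 : 0 < u.1) (hu2 : σ = 1 → 0 < u.1 + u.2) (l J : ℤ) :
    ∃ B : ℤ, ∀ j, J ≤ j → -B ≤ det u (ss σ l j) := by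
  rcases hσ with rfl | rfl
  · refine ⟨-(u.1 * J - u.2 * l), fun j hj => ?_⟩
    have e : ss 0 l j = (l, j) := by unfold ss; simp
    rw [e]
    unfold det
    simp only
    have := mul_le_mul_of_nonneg_left hj hu1.le
    linarith
  · refine ⟨-((u.1 + u.2) * ((l + J) / 2) - u.2 * l), fun j hj => ?_⟩
    have e : ss 1 l j = (l - (l + j) / 2, (l + j) / 2) := by unfold ss; rw [if_neg one_ne_zero]
    rw [e]
    unfold det
    simp only
    have h1 : (l + J) / 2 ≤ (l + j) / 2 := by omega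
    have := mul_le_mul_of_nonneg_left h1 (hu2 rfl).le
    nlinarith

/-- The increments of strips as increments of the moved configuration. -/
theorem phS_sub (hσ : σ = 0 ∨ σ = 1) (n h l j : ℤ) :
    phS σ K w n h l j - phS σ K w n h l (j + 1) =
      BI (sh (ss σ l j) w) σ (St σ (sh (ss σ l j) w) K (n - l)) (ck σ (sh (ss σ l j) w) K 0)
        (wh σ (sh (ss σ l j) w) K (n - l) (h - ix σ (ss σ l j))) (rr σ l j) (rr σ l j + 1) := by
  have h1 := TI_St_sh (w := w) (K := K) hσ (ss σ l j) n (h - ix σ (ss σ l j)) l (rr σ l j)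
  have h2 := TI_St_sh (w := w) (K := K) hσ (ss σ l j) n (h - ix σ (ss σ l j)) l (rr σ l j + 1)
  have e := ix_ss hσ l j
  rw [ln_ss hσ, sub_self, sub_add_cancel] at h1 h2
  rw [show rr σ l j + ix σ (ss σ l j) = j by omega] at h1
  rw [show rr σ l j + 1 + ix σ (ss σ l j) = j + 1 by omega] at h2
  unfold phS BI
  rw [h1, h2]

theorem det_wh_sh (hσ : σ = 0 ∨ σ = 1) (u s : V) (n i : ℤ) :
    det u (wh σ (sh s w) K (n - ln σ s) i) = det u (wh σ w K n (i + ix σ s)) - det u s := by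
  rw [← tr_wh hσ]
  unfold det tr
  simp only
  ring

/-- DOMINATION from below, upper walls. -/
theorem dom_cu (hσ : σ = 0 ∨ σ = 1) (hw2 : ∀ v, w v 2 = ⊤) (hw : ∀ v, w v 0 ≠ ⊤ ∧ w v 1 ≠ ⊤)
    (hK : K ≠ ⊤) (hG : Good σ w K) (hfl : Fluct σ K w) {u : V} (hu1 : 0 < u.1)
    (hu2 : 0 < u.2) (hu3 : u.2 ≤ u.1) {L : ℕ} (hlim : ∀ s, LimUp σ K u L (sh s w)) {δ : ℝ}
    (hδ : 2 * (u.2 : ℝ) < δ * u.1) (l J : ℤ) :
    ∃ n0 : ℤ, ∀ n ≥ n0, ∀ R : ℤ, δ * n ≤ R → ∀ j ≤ J, mv σ (gup σ K u L) l j w ≤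
      phS σ K w n (-(σ * n) + R) l j - phS σ K w n (-(σ * n) + R) l (j + 1) := by
  obtain ⟨κ, hκ, C, n0, hn0⟩ := det_wh_up hσ hG hfl hu1 hu2 hu3 hδ
  obtain ⟨B, hB⟩ := det_ss_le hσ hu1 (fun _ => by omega) l J
  obtain ⟨n1, hn1⟩ := exists_int_gt ((L * ln σ u + 2 * (|u.1| + |u.2|) + B + C) / κ)
  refine ⟨max (max n0 n1) l, fun n hn R hR j hj => ?_⟩
  have hn' : n0 ≤ n := le_trans (le_trans (le_max_left _ _) (le_max_left _ _)) hn
  have hn1' : n1 ≤ n := le_trans (le_trans (le_max_right _ _) (le_max_left _ _)) hn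
  have hnl : l ≤ n := le_trans (le_max_right _ _) hn
  have hbig : (L * ln σ u + 2 * (|u.1| + |u.2|) + B + C : ℝ) < κ * n := by
    rw [div_lt_iff₀ hκ] at hn1
    have : (n1 : ℝ) ≤ n := by exact_mod_cast hn1'
    nlinarith
  set s := ss σ l j with hs
  have hG' : Good σ (sh s w) K := good_sh hσ s hG
  have H := stripH_of_good (w := sh s w) hσ (fun v => hw2 _) (fun v => hw _) hK hG' (n - l)
  have hc := curvH_of_good (w := sh s w) hσ hG' (show (0 : ℤ) ≤ n - l by omega)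
  have hcd : ∀ i, ck σ (sh s w) K 0 i + (1 - σ) ≤ rb σ (sh s w) K (n - l) i := by
    intro i
    have := ck_le (w := sh s w) hσ hG' (show (0 : ℤ) ≤ n - l by omega) i
    unfold rb
    omega
  rw [phS_sub hσ, ← hs]
  unfold mv
  rw [← hs]
  by_cases hok : OKup σ K u L (rr σ l j) (sh s w)
  · obtain ⟨h1, h2⟩ := hlim s _ hok
    refine lim_le_BI_lft (w := sh s w) (d := rb σ (sh s w) K (n - l)) hσ (fun v => hw2 _) (ck_stp hσ hG' 0)
      H.hds hu1 (fun _ => hu3) (fun _ => hu2) (by omega) ?_ ?_ ?_ (H.fin hc _ _) h1 h2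
    · intro i hi
      have h3 := det_wh_sh (w := w) (K := K) hσ u s n i
      rw [hs, ln_ss hσ, ← hs] at h3
      have h4 : det u (pt σ (rb σ (sh s w) K (n - l)) i) = det u (wh σ w K n (i + ix σ s)) - det u s := h3
      have h5 := hn0 n hn' R hR (i + ix σ s) (by omega)
      have h6 := hB j hj
      rw [← hs] at h6
      have h7 : (det u s : ℝ) ≤ B := by exact_mod_cast h6
      have h8 : (L * ln σ u : ℝ) < ((det u (wh σ w K n (i + ix σ s)) - det u s - 2 * (|u.1| + |u.2|) : ℤ) : ℝ) := by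
        rw [Int.cast_abs, Int.cast_abs] at hbig
        push_cast
        linarith
      rw [h4]
      exact_mod_cast h8
    · exact (cin_lft hσ hcd _).2.1
    · intro k hk
      have := (hok (k - 1) (by omega)).2.1
      rwa [sub_add_cancel] at this
  · rw [gup, if_neg hok]
    have h3 := abs_BI_succ_le (w := sh s w) (E := St σ (sh s w) K (n - l)) hσ (ck_stp hσ hG' 0)
      (pk_open hG' 0) hK (cin_lft hσ hcd (rr σ l j)) (wh σ (sh s w) K (n - l) (-(σ * n) + R - ix σ s))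
    rw [ENNReal.toReal_mul] at h3
    have h4 := (abs_le.1 h3).1
    norm_num at h4
    linarith

/-- DOMINATION from above, lower walls. -/
theorem dom_cl (hσ : σ = 0 ∨ σ = 1) (hw2 : ∀ v, w v 2 = ⊤) (hw : ∀ v, w v 0 ≠ ⊤ ∧ w v 1 ≠ ⊤)
    (hK : K ≠ ⊤) (hG : Good σ w K) (hfl : Fluct σ K w) {u : V} (hu2 : u.2 < 0)
    (hu3 : -(2 * u.2) ≤ u.1) {L : ℕ} (hlim : ∀ s, LimLo σ K u L (sh s w)) {δ : ℝ}
    (hδ : -(4 * (u.2 : ℝ)) < δ * u.1) (l J : ℤ) :
    ∃ n0 : ℤ, ∀ n ≥ n0, ∀ R : ℤ, δ * n ≤ R → ∀ j, J ≤ j →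
      phS σ K w n (-(σ * n) - R) l j - phS σ K w n (-(σ * n) - R) l (j + 1) ≤ mv σ (glo σ K u L) l j w := by
  obtain ⟨κ, hκ, C, n0, hn0⟩ := det_wh_lo hσ hfl hu2 hu3 hδ
  obtain ⟨B, hB⟩ := le_det_ss (u := u) hσ (by omega) (fun _ => by omega) l J
  obtain ⟨n1, hn1⟩ := exists_int_gt ((L * ln σ u + 2 * (|u.1| + |u.2|) + B + C) / κ)
  refine ⟨max (max n0 n1) l, fun n hn R hR j hj => ?_⟩
  have hn' : n0 ≤ n := le_trans (le_trans (le_max_left _ _) (le_max_left _ _)) hn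
  have hn1' : n1 ≤ n := le_trans (le_trans (le_max_right _ _) (le_max_left _ _)) hn
  have hnl : l ≤ n := le_trans (le_max_right _ _) hn
  have hbig : (L * ln σ u + 2 * (|u.1| + |u.2|) + B + C : ℝ) < κ * n := by
    rw [div_lt_iff₀ hκ] at hn1
    have : (n1 : ℝ) ≤ n := by exact_mod_cast hn1'
    nlinarith
  set s := ss σ l j with hs
  have hG' : Good σ (sh s w) K := good_sh hσ s hG
  have H := stripH_of_good (w := sh s w) hσ (fun v => hw2 _) (fun v => hw _) hK hG' (n - l)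
  have hc := curvH_of_good (w := sh s w) hσ hG' (show (0 : ℤ) ≤ n - l by omega)
  have hcd : ∀ i, ck σ (sh s w) K 0 i + (1 - σ) ≤ rb σ (sh s w) K (n - l) i := by
    intro i
    have := ck_le (w := sh s w) hσ hG' (show (0 : ℤ) ≤ n - l by omega) i
    unfold rb
    omega
  rw [phS_sub hσ, ← hs]
  unfold mv
  rw [← hs]
  by_cases hok : OKlo σ K u L (rr σ l j) (sh s w)
  · obtain ⟨h1, h2⟩ := hlim s _ hok
    refine BI_lft_le_lim (w := sh s w) (d := rb σ (sh s w) K (n - l)) hσ (fun v => hw2 _) (ck_stp hσ hG' 0)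
      H.hds (by omega) (by omega) (by omega) ?_ ?_ ?_ (H.fin hc _ _) h1 h2
    · intro i hi
      have h3 := det_wh_sh (w := w) (K := K) hσ u s n i
      rw [hs, ln_ss hσ, ← hs] at h3
      have h4 : det u (pt σ (rb σ (sh s w) K (n - l)) i) = det u (wh σ w K n (i + ix σ s)) - det u s := h3
      have h5 := hn0 n hn' R hR (i + ix σ s) (by omega)
      have h6 := hB j hj
      rw [← hs] at h6
      have h7 : (-B : ℝ) ≤ det u s := by exact_mod_cast h6
      have h8 : ((det u (wh σ w K n (i + ix σ s)) - det u s + 2 * (|u.1| + |u.2|) : ℤ) : ℝ) <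
          -(L * ln σ u : ℝ) := by
        rw [Int.cast_abs, Int.cast_abs] at hbig
        push_cast
        linarith
      rw [h4]
      exact_mod_cast h8
    · exact (cin_lft hσ hcd _).1
    · intro k hk
      exact (hok k hk).1
  · rw [glo, if_neg hok]
    have h3 := abs_BI_succ_le (w := sh s w) (E := St σ (sh s w) K (n - l)) hσ (ck_stp hσ hG' 0)
      (pk_open hG' 0) hK (cin_lft hσ hcd (rr σ l j)) (wh σ (sh s w) K (n - l) (-(σ * n) - R - ix σ s))
    rw [ENNReal.toReal_mul] at h3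
    have h4 := (abs_le.1 h3).2
    norm_num at h4
    linarith

end dom

/-! ### almost sure forms -/

section ae

variable {F : Measure ℝ} [IsProbabilityMeasure F] {K : ℝ≥0∞} {σ : ℤ}

/-- An almost sure property holds for all translates. -/
theorem ae_shift_all {P : W → Prop} (h : ∀ᵐ ω ∂(iid Ed F), P (wt ω)) :
    ∀ᵐ ω ∂(iid Ed F), ∀ s : V, P (sh s (wt ω)) := by
  rw [ae_all_iff]
  intro s
  have h1 := (measurePreserving_shO F s).quasiMeasurePreserving.ae h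
  filter_upwards [h1] with ω hω
  rwa [wt_shO] at hω

theorem ae_dom_cu (hσ : σ = 0 ∨ σ = 1) (hK : SmallK F K) {u : V} (hu1 : 0 < u.1)
    (hu2 : 0 < u.2) (hu3 : u.2 ≤ u.1) {L : ℕ} (hlim : ∀ᵐ ω ∂(iid Ed F), LimUp σ K u L (wt ω)) {δ : ℝ}
    (hδ : 2 * (u.2 : ℝ) < δ * u.1) : ∀ᵐ ω ∂(iid Ed F), ∀ l J : ℤ,
    ∃ n0 : ℤ, ∀ n ≥ n0, ∀ R : ℤ, δ * n ≤ R → ∀ j ≤ J, mv σ (gup σ K u L) l j (wt ω) ≤
      phS σ K (wt ω) n (-(σ * n) + R) l j - phS σ K (wt ω) n (-(σ * n) + R) l (j + 1) := by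
  filter_upwards [ae_shift_all hlim, ae_good_wt hK hσ, ae_fluct hK hσ] with ω h1 h2 h3 l J
  exact dom_cu hσ (wt_two ω) (wt_ne_top ω) hK.1 h2 h3 hu1 hu2 hu3 h1 hδ l J

theorem ae_dom_cl (hσ : σ = 0 ∨ σ = 1) (hK : SmallK F K) {u : V} (hu2 : u.2 < 0)
    (hu3 : -(2 * u.2) ≤ u.1) {L : ℕ} (hlim : ∀ᵐ ω ∂(iid Ed F), LimLo σ K u L (wt ω)) {δ : ℝ}
    (hδ : -(4 * (u.2 : ℝ)) < δ * u.1) : ∀ᵐ ω ∂(iid Ed F), ∀ l J : ℤ,
    ∃ n0 : ℤ, ∀ n ≥ n0, ∀ R : ℤ, δ * n ≤ R → ∀ j, J ≤ j →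
      phS σ K (wt ω) n (-(σ * n) - R) l j - phS σ K (wt ω) n (-(σ * n) - R) l (j + 1) ≤
        mv σ (glo σ K u L) l j (wt ω) := by
  filter_upwards [ae_shift_all hlim, ae_good_wt hK hσ, ae_fluct hK hσ] with ω h1 h2 h3 l J
  exact dom_cl hσ (wt_two ω) (wt_ne_top ω) hK.1 h2 h3 hu2 hu3 h1 hδ l J

end ae

end C7
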