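import Pool.Agent.Lib.MP_c725eb_pr.Sym

/-!
# Linear growth of passage times

`ae_linear`: there is `c > 0` such that almost surely the cost of every self-avoiding path with `n`
steps which starts at `v` is at least `c n - C(v)`.
-/

set_option autoImplicit false

namespace C7

open MeasureTheory ProbabilityTheory Filter Set
open scoped ENNReal Topology

/-! ### edges of lists -/

/-- The edges of a list of vertices. -/
def eds : List V → List Ed
  | [] => []
  | [_] => []
  | a :: b :: l => toE a b :: eds (b :: l)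

theorem eds_cons_cons (a b : V) (l : List V) : eds (a :: b :: l) = toE a b :: eds (b :: l) := rfl

theorem length_eds : ∀ l : List V, (eds l).length = l.length - 1
  | [] => rfl
  | [_] => rfl
  | a :: b :: l => by
    rw [eds_cons_cons, List.length_cons, length_eds (b :: l)]
    simp

/-- The end points of the edges of a chain are vertices of the chain. -/
theorem mem_of_mem_eds : ∀ {l : List V}, List.IsChain Nb l → ∀ {e : Ed}, e ∈ eds l → e.1 ∈ l ∧ nxt e ∈ l
  | [], _, e, h => by simp [eds] at h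
  | [_], _, e, h => by simp [eds] at h
  | a :: b :: l, hc, e, h => by
    rw [eds_cons_cons, List.mem_cons] at h
    rw [List.isChain_cons_cons] at hc
    rcases h with rfl | h
    · rcases toE_eq hc.1 with ⟨h1, h2⟩ | ⟨h1, h2⟩ <;> rw [h1, h2] <;> simp
    · have := mem_of_mem_eds hc.2 h
      exact ⟨List.mem_cons_of_mem _ this.1, List.mem_cons_of_mem _ this.2⟩

/-- The edges of a self-avoiding chain are different. -/
theorem nodup_eds : ∀ {l : List V}, List.IsChain Nb l → l.Nodup → (eds l).Nodup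
  | [], _, _ => List.nodup_nil
  | [_], _, _ => List.nodup_nil
  | a :: b :: l, hc, hn => by
    rw [List.isChain_cons_cons] at hc
    rw [List.nodup_cons] at hn
    rw [eds_cons_cons, List.nodup_cons]
    refine ⟨fun h => ?_, nodup_eds hc.2 hn.2⟩
    have h1 := mem_of_mem_eds hc.2 h
    rcases toE_eq hc.1 with ⟨h2, h3⟩ | ⟨h2, h3⟩
    · rw [h2] at h1; exact hn.1 h1.1
    · rw [h3] at h1; exact hn.1 h1.2

theorem cost_wt (ω : Om) : ∀ {l : List V}, List.IsChain Nb l →
    cost (wt ω) l = ((eds l).map fun e => ENNReal.ofReal (ω e)).sum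
  | [], _ => rfl
  | [_], _ => rfl
  | a :: b :: l, hc => by
    rw [List.isChain_cons_cons] at hc
    rw [cost_cons_cons, step_wt_eq ω hc.1, cost_wt ω hc.2, eds_cons_cons, List.map_cons, List.sum_cons]

/-! ### enumeration of the paths -/

/-- The neighbours of a vertex. -/
def nbF (v : V) : Finset V := {(v.1 + 1, v.2), (v.1 - 1, v.2), (v.1, v.2 + 1), (v.1, v.2 - 1)}

theorem card_nbF (v : V) : (nbF v).card ≤ 4 := Finset.card_le_four

theorem mem_nbF {u v : V} (h : Nb u v) : v ∈ nbF u := by
  obtain ⟨a, b⟩ := u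
  obtain ⟨c, d⟩ := v
  unfold nbF
  simp only [Finset.mem_insert, Finset.mem_singleton, Prod.mk.injEq]
  rcases h with h | h | h | h <;> simp only [Prod.mk.injEq] at h <;> omega

/-- The paths with `n` steps from `v`. -/
def pth : ℕ → V → Finset (List V)
  | 0, v => {[v]}
  | n + 1, v => (nbF v).biUnion fun u => (pth n u).image (List.cons v)

theorem card_pth (n : ℕ) : ∀ v, (pth n v).card ≤ 4 ^ n := by
  induction n with
  | zero => intro v; simp [pth]
  | succ n ih =>
    intro v
    unfold pth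
    refine Finset.card_biUnion_le.trans ?_
    calc ∑ u ∈ nbF v, ((pth n u).image (List.cons v)).card ≤ ∑ _u ∈ nbF v, 4 ^ n :=
          Finset.sum_le_sum fun u _ => Finset.card_image_le.trans (ih u)
      _ = (nbF v).card * 4 ^ n := by rw [Finset.sum_const, smul_eq_mul]
      _ ≤ 4 * 4 ^ n := Nat.mul_le_mul_right _ (card_nbF v)
      _ = 4 ^ (n + 1) := by ring

theorem mem_pth (n : ℕ) : ∀ {v : V} {l : List V}, List.IsChain Nb (v :: l) → l.length = n →
    v :: l ∈ pth n v := by
  induction n with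
  | zero =>
    intro v l _ hl
    rw [List.length_eq_zero_iff] at hl
    subst hl
    simp [pth]
  | succ n ih =>
    intro v l hc hl
    cases l with
    | nil => simp at hl
    | cons u l =>
      rw [List.isChain_cons_cons] at hc
      unfold pth
      rw [Finset.mem_biUnion]
      exact ⟨u, mem_nbF hc.1, Finset.mem_image.2 ⟨u :: l, ih hc.2 (by simpa using hl), rfl⟩⟩

/-! ### the bound -/

section

variable {F : Measure ℝ} [IsProbabilityMeasure F]

theorem measure_all_le (δ : ℝ) (S : Finset Ed) :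
    iid Ed F {ω : Om | ∀ e ∈ S, ω e ≤ δ} = F (Iic δ) ^ S.card := by
  have h := iIndepFun_infinitePi (P := fun _ : Ed => F) (X := fun _ : Ed => (id : ℝ → ℝ))
    (fun _ => measurable_id)
  have h1 : {ω : Om | ∀ e ∈ S, ω e ≤ δ} = ⋂ e ∈ S, (fun ω : Om => id (ω e)) ⁻¹' Iic δ := by
    ext ω; simp
  rw [h1]
  have h2 := h.measure_inter_preimage_eq_mul (S := S) (sets := fun _ => Iic δ) (fun _ _ => measurableSet_Iic)
  have h3 : ∀ e : Ed, Measure.infinitePi (fun _ : Ed => F) ((fun ω : Om => id (ω e)) ⁻¹' Iic δ) = F (Iic δ) := by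
    intro e
    have h4 := (measurePreserving_eval_infinitePi (fun _ : Ed => F) e).measure_preimage
      (measurableSet_Iic (a := δ)).nullMeasurableSet
    exact h4
  rw [iid]
  refine h2.trans ?_
  simp only [h3, Finset.prod_const]

/-- Paths with many cheap edges are unlikely. -/
theorem measure_cheap_le {δ : ℝ} {q : ℝ≥0∞} (hq : F (Iic δ) ≤ q ^ 2) (hq1 : q ≤ 1) {l : List Ed}
    (hl : l.Nodup) :
    iid Ed F {ω : Om | l.length ≤ 2 * (l.toFinset.filter fun e => ω e ≤ δ).card} ≤ (2 * q) ^ l.length := by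
  classical
  set E := l.toFinset with hE
  have hcard : E.card = l.length := List.toFinset_card_of_nodup hl
  have hsub : {ω : Om | l.length ≤ 2 * (E.filter fun e => ω e ≤ δ).card} ⊆
      ⋃ S ∈ E.powerset.filter (fun S => l.length ≤ 2 * S.card), {ω : Om | ∀ e ∈ S, ω e ≤ δ} := by
    intro ω hω
    simp only [mem_iUnion]
    exact ⟨E.filter fun e => ω e ≤ δ, Finset.mem_filter.2 ⟨Finset.mem_powerset.2 (Finset.filter_subset _ _), hω⟩,
      fun e he => (Finset.mem_filter.1 he).2⟩
  calc iid Ed F {ω : Om | l.length ≤ 2 * (E.filter fun e => ω e ≤ δ).card}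
      ≤ ∑ S ∈ E.powerset.filter (fun S => l.length ≤ 2 * S.card), iid Ed F {ω : Om | ∀ e ∈ S, ω e ≤ δ} :=
        (measure_mono hsub).trans (measure_biUnion_finset_le _ _)
    _ ≤ ∑ _S ∈ E.powerset.filter (fun S => l.length ≤ 2 * S.card), q ^ l.length := by
        refine Finset.sum_le_sum fun S hS => ?_
        rw [measure_all_le]
        refine (pow_le_pow_left' hq _).trans ?_
        rw [← pow_mul]
        exact pow_le_pow_of_le_one (by positivity) hq1 (Finset.mem_filter.1 hS).2
    _ ≤ ∑ _S ∈ E.powerset, q ^ l.length :=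
        Finset.sum_le_sum_of_subset (Finset.filter_subset _ _)
    _ = (2 * q) ^ l.length := by
        rw [Finset.sum_const, Finset.card_powerset, hcard, nsmul_eq_mul, mul_pow]
        push_cast
        rfl

theorem measure_bad_path_le {δ : ℝ} (hδ : F (Iic δ) ≤ (1 / 16) ^ 2) (v : V) (n : ℕ) :
    iid Ed F {ω : Om | ∃ l : List V, l.head? = some v ∧ List.IsChain Nb l ∧ l.Nodup ∧ l.length = n + 1 ∧
      (eds l).length ≤ 2 * ((eds l).toFinset.filter fun e => ω e ≤ δ).card} ≤ (1 / 2) ^ n := by
  classical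
  have hsub : {ω : Om | ∃ l : List V, l.head? = some v ∧ List.IsChain Nb l ∧ l.Nodup ∧ l.length = n + 1 ∧
      (eds l).length ≤ 2 * ((eds l).toFinset.filter fun e => ω e ≤ δ).card} ⊆
      ⋃ l ∈ (pth n v).filter (fun l => List.IsChain Nb l ∧ l.Nodup ∧ l.length = n + 1),
        {ω : Om | (eds l).length ≤ 2 * ((eds l).toFinset.filter fun e => ω e ≤ δ).card} := by
    rintro ω ⟨l, h1, h2, h3, h4, h5⟩
    simp only [mem_iUnion]
    refine ⟨l, Finset.mem_filter.2 ⟨?_, h2, h3, h4⟩, h5⟩
    cases l with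
    | nil => simp at h1
    | cons a l =>
      simp at h1
      subst h1
      exact mem_pth n h2 (by simpa using h4)
  calc _ ≤ ∑ l ∈ (pth n v).filter (fun l => List.IsChain Nb l ∧ l.Nodup ∧ l.length = n + 1),
        iid Ed F {ω : Om | (eds l).length ≤ 2 * ((eds l).toFinset.filter fun e => ω e ≤ δ).card} :=
        (measure_mono hsub).trans (measure_biUnion_finset_le _ _)
    _ ≤ ∑ _l ∈ (pth n v).filter (fun l => List.IsChain Nb l ∧ l.Nodup ∧ l.length = n + 1), (1 / 8 : ℝ≥0∞) ^ n := by
        refine Finset.sum_le_sum fun l hl => ?_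
        obtain ⟨h1, h2, h3⟩ := (Finset.mem_filter.1 hl).2
        have h4 := measure_cheap_le hδ (by rw [one_div]; exact ENNReal.inv_le_one.2 (by norm_num)) (nodup_eds h1 h2)
        refine h4.trans (le_of_eq ?_)
        rw [length_eds, h3, Nat.add_sub_cancel]
        congr 1
        rw [show (16 : ℝ≥0∞) = 2 * 8 by norm_num, one_div, ENNReal.mul_inv (by norm_num) (by norm_num),
          ← mul_assoc, ENNReal.mul_inv_cancel (by norm_num) (by norm_num), one_mul, one_div]
    _ ≤ (4 ^ n : ℕ) * (1 / 8 : ℝ≥0∞) ^ n := by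
        rw [Finset.sum_const, nsmul_eq_mul]
        refine mul_le_mul' ?_ le_rfl
        exact_mod_cast (Finset.card_filter_le _ _).trans (card_pth n v)
    _ = (1 / 2) ^ n := by
        push_cast
        rw [← mul_pow]
        congr 1
        rw [show (8 : ℝ≥0∞) = 4 * 2 by norm_num, one_div, ENNReal.mul_inv (by norm_num) (by norm_num),
          ← mul_assoc, ENNReal.mul_inv_cancel (by norm_num) (by norm_num), one_mul, one_div]

/-- Cheap edges are rare for a suitable level. -/
theorem exists_level (hF : ∀ a, F {a} = 0) (hF0 : F (Iio 0) = 0) :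
    ∃ δ : ℝ, 0 < δ ∧ F (Iic δ) ≤ (1 / 16) ^ 2 := by
  have h0 : F (Iic 0) = 0 := by
    rw [← Iio_union_right]
    exact le_antisymm ((measure_union_le _ _).trans (by rw [hF0, hF, add_zero])) zero_le
  have h1 : Tendsto (fun n : ℕ => F (Iic (1 / ((n : ℝ) + 1)))) atTop (𝓝 (F (⋂ n : ℕ, Iic (1 / ((n : ℝ) + 1))))) := by
    refine tendsto_measure_iInter_atTop (fun n => measurableSet_Iic.nullMeasurableSet) ?_ ⟨0, measure_ne_top _ _⟩
    intro m n hmn
    refine Iic_subset_Iic.2 ?_
    exact one_div_le_one_div_of_le (by positivity) (by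
      have : (m : ℝ) ≤ n := by exact_mod_cast hmn
      linarith)
  have e : (⋂ n : ℕ, Iic (1 / ((n : ℝ) + 1))) = Iic 0 := by
    ext x
    simp only [mem_iInter, mem_Iic]
    constructor
    · intro h
      refine ge_of_tendsto (tendsto_one_div_add_atTop_nhds_zero_nat (𝕜 := ℝ)) ?_
      exact Eventually.of_forall h
    · intro h n
      exact h.trans (by positivity)
  rw [e, h0] at h1
  have hpos : (0 : ℝ≥0∞) < (1 / 16) ^ 2 := by
    rw [one_div]
    exact pos_iff_ne_zero.2 (pow_ne_zero 2 (ENNReal.inv_ne_zero.2 (by norm_num)))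
  obtain ⟨n, hn⟩ := (h1.eventually (gt_mem_nhds hpos)).exists
  exact ⟨1 / ((n : ℝ) + 1), by positivity, hn.le⟩

/-- Lower bound of the cost of a path with few cheap edges. -/
theorem cost_ge_of_few {ω : Om} {l : List V} (hc : List.IsChain Nb l) (hn : l.Nodup) {δ : ℝ}
    (h : ¬ (eds l).length ≤ 2 * ((eds l).toFinset.filter fun e => ω e ≤ δ).card) :
    ENNReal.ofReal (δ / 2 * (eds l).length) ≤ cost (wt ω) l := by
  classical
  rcases le_or_gt δ 0 with hδ | hδ
  · rw [ENNReal.ofReal_of_nonpos]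
    · exact zero_le
    · have : (0 : ℝ) ≤ (eds l).length := by positivity
      nlinarith
  set E := (eds l).toFinset with hE
  have hcard : E.card = (eds l).length := List.toFinset_card_of_nodup (nodup_eds hc hn)
  rw [cost_wt ω hc, ← List.sum_toFinset _ (nodup_eds hc hn)]
  have h1 : ∑ e ∈ E.filter (fun e => ¬ ω e ≤ δ), ENNReal.ofReal δ ≤ ∑ e ∈ E, ENNReal.ofReal (ω e) := by
    refine le_trans (Finset.sum_le_sum fun e he => ?_)
      (Finset.sum_le_sum_of_subset (Finset.filter_subset (fun e => ¬ ω e ≤ δ) _))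
    exact ENNReal.ofReal_le_ofReal (not_le.1 (Finset.mem_filter.1 he).2).le
  refine le_trans ?_ h1
  rw [Finset.sum_const, nsmul_eq_mul]
  have h2 : (E.filter fun e => ω e ≤ δ).card + (E.filter fun e => ¬ ω e ≤ δ).card = E.card :=
    Finset.card_filter_add_card_filter_not _
  rw [← ENNReal.ofReal_natCast, ← ENNReal.ofReal_mul (by positivity)]
  refine ENNReal.ofReal_le_ofReal ?_
  have h3 : ((eds l).length : ℝ) ≤ 2 * ((E.filter fun e => ¬ ω e ≤ δ).card : ℝ) := by
    have h4 : ¬ (eds l).length ≤ 2 * (E.filter fun e => ω e ≤ δ).card := h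
    rw [← hcard] at h4 ⊢
    exact_mod_cast (by omega : E.card ≤ 2 * (E.filter fun e => ¬ ω e ≤ δ).card)
  nlinarith

/-- **Linear growth.** -/
theorem ae_linear (hF : ∀ a, F {a} = 0) (hF0 : F (Iio 0) = 0) : ∃ c : ℝ, 0 < c ∧
    ∀ᵐ ω ∂(iid Ed F), ∀ v : V, ∃ C : ℝ, 0 ≤ C ∧ ∀ l : List V, l.head? = some v → List.IsChain Nb l → l.Nodup →
      ENNReal.ofReal (c * ((l.length : ℝ) - 1) - C) ≤ cost (wt ω) l := by
  obtain ⟨δ, hδ, hq⟩ := exists_level hF hF0
  refine ⟨δ / 2, by positivity, ?_⟩
  rw [ae_all_iff]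
  intro v
  set s : ℕ → Set Om := fun n => {ω : Om | ∃ l : List V, l.head? = some v ∧ List.IsChain Nb l ∧ l.Nodup ∧
    l.length = n + 1 ∧ (eds l).length ≤ 2 * ((eds l).toFinset.filter fun e => ω e ≤ δ).card} with hs
  have hsum : ∑' n, iid Ed F (s n) ≠ ⊤ := by
    refine ne_top_of_le_ne_top ?_ (ENNReal.tsum_le_tsum fun n => measure_bad_path_le hq v n)
    rw [ENNReal.tsum_geometric]
    refine ENNReal.inv_ne_top.2 ?_
    have : (1 : ℝ≥0∞) / 2 < 1 := by
      rw [ENNReal.div_lt_iff (by norm_num) (by norm_num)]; norm_num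
    exact (tsub_pos_of_lt this).ne'
  filter_upwards [ae_eventually_notMem hsum] with ω hω
  obtain ⟨N, hN⟩ := eventually_atTop.1 hω
  refine ⟨δ / 2 * N, by positivity, fun l h1 h2 h3 => ?_⟩
  have hl : 1 ≤ l.length := by
    cases l with
    | nil => simp at h1
    | cons a l => simp
  by_cases hlN : N + 1 ≤ l.length
  · have h4 : ω ∉ s (l.length - 1) := hN _ (by omega)
    have h5 : ¬ (eds l).length ≤ 2 * ((eds l).toFinset.filter fun e => ω e ≤ δ).card := fun h =>
      h4 ⟨l, h1, h2, h3, by omega, h⟩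
    refine le_trans (ENNReal.ofReal_le_ofReal ?_) (cost_ge_of_few h2 h3 h5)
    rw [length_eds, Nat.cast_sub hl]
    push_cast
    have : 0 ≤ δ / 2 * (N : ℝ) := by positivity
    linarith
  · rw [ENNReal.ofReal_of_nonpos]
    · exact zero_le
    · push Not at hlN
      have : (l.length : ℝ) - 1 ≤ N := by
        have : (l.length : ℝ) ≤ N + 1 := by exact_mod_cast hlN.le
        linarith
      have := mul_le_mul_of_nonneg_left this (by positivity : 0 ≤ δ / 2)
      linarith

end

/-! ### self-avoiding walks -/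

/-- Loop erasure. -/
theorem exists_nodup_walk (w : W) (D : Set V) (y : V) : ∀ (n : ℕ) (x : V) (l : List V), l.length ≤ n →
    IsW D x y l → ∃ l', IsW D x y l' ∧ l'.Nodup ∧ (∀ v ∈ l', v ∈ l) ∧ cost w l' ≤ cost w l := by
  intro n
  induction n with
  | zero =>
    intro x l hl h
    exact absurd (List.length_eq_zero_iff.1 (Nat.le_zero.1 hl)) (isW_ne_nil h)
  | succ n ih =>
    intro x l hl h
    obtain ⟨l₁, rfl⟩ := h.eq_cons
    cases l₁ with
    | nil => exact ⟨[x], h, List.nodup_singleton x, fun v hv => hv, le_rfl⟩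
    | cons b l₂ =>
      have hb : IsW D b y (b :: l₂) := by
        refine ⟨rfl, ?_, fun v hv => h.2.2 v (List.mem_cons_of_mem _ hv)⟩
        have := h.2.1
        simpa using this
      by_cases hx : x ∈ b :: l₂
      · obtain ⟨m₁, m₂, hm⟩ := List.append_of_mem hx
        have hw : IsW D x y (x :: m₂) := by
          refine ⟨rfl, ?_, fun v hv => h.2.2 v ?_⟩
          · have h1 := hb.2.1
            rw [hm, List.getLast?_append_of_ne_nil _ (by simp)] at h1
            exact h1
          · rw [hm]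
            exact List.mem_cons_of_mem _ (List.mem_append_right _ hv)
        have hlen : (x :: m₂).length ≤ n := by
          have h1 := congrArg List.length hm
          simp only [List.length_cons, List.length_append] at h1 hl ⊢
          omega
        obtain ⟨l', h1, h2, h3, h4⟩ := ih x (x :: m₂) hlen hw
        refine ⟨l', h1, h2, fun v hv => ?_, h4.trans ?_⟩
        · rw [hm]
          exact List.mem_cons_of_mem _ (List.mem_append_right _ (h3 v hv))
        · rw [hm]
          exact (cost_suffix_le w m₁ _).trans (cost_cons_le w x _)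
      · obtain ⟨l', h1, h2, h3, h4⟩ := ih b (b :: l₂) (by simp at hl ⊢; omega) hb
        obtain ⟨l'', rfl⟩ := h1.eq_cons
        refine ⟨x :: b :: l'', ⟨rfl, ?_, ?_⟩, List.nodup_cons.2 ⟨fun h' => hx (h3 x h'), h2⟩, ?_, ?_⟩
        · have := h1.2.1
          simpa using this
        · intro v hv
          rcases List.mem_cons.1 hv with rfl | hv
          · exact h.left_mem
          · exact h1.2.2 v hv
        · intro v hv
          rcases List.mem_cons.1 hv with rfl | hv
          · simp
          · exact List.mem_cons_of_mem _ (h3 v hv)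
        · rw [cost_cons_cons, cost_cons_cons]
          exact add_le_add le_rfl h4

/-- Walks of finite cost are chains. -/
theorem chain_nb {w : W} (hw : ∀ v, w v 2 = ⊤) : ∀ {l : List V}, cost w l ≠ ⊤ → List.IsChain Nb l
  | [], _ => List.isChain_nil
  | [_], _ => List.isChain_singleton _
  | a :: b :: l, h => by
    rw [cost_cons_cons] at h
    rw [List.isChain_cons_cons]
    have h1 := ENNReal.add_ne_top.1 h
    exact ⟨nb_of_step_ne_top hw h1.1, chain_nb hw h1.2⟩

theorem dist_le_of_chain : ∀ (l : List V) {x y : V}, List.IsChain Nb (x :: l) → (x :: l).getLast? = some y →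
    |y.1 - x.1| + |y.2 - x.2| ≤ (l.length : ℤ)
  | [], x, y, _, h => by
    simp at h
    subst h
    simp
  | b :: l, x, y, hc, h => by
    rw [List.isChain_cons_cons] at hc
    have h1 := dist_le_of_chain l (x := b) (y := y) hc.2 (by simpa using h)
    have h2 : |b.1 - x.1| + |b.2 - x.2| ≤ 1 := by
      obtain ⟨x1, x2⟩ := x
      obtain ⟨b1, b2⟩ := b
      rcases hc.1 with h' | h' | h' | h' <;> simp only [Prod.mk.injEq] at h' <;> obtain ⟨rfl, rfl⟩ := h' <;> simp
    have h3 := abs_sub_le y.1 b.1 x.1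
    have h4 := abs_sub_le y.2 b.2 x.2
    simp only [List.length_cons]
    push_cast
    linarith

/-- **Linear growth of the passage times**, in all domains. -/
theorem ae_T_linear {F : Measure ℝ} [IsProbabilityMeasure F] (hF : ∀ a, F {a} = 0) (hF0 : F (Iio 0) = 0) :
    ∃ c : ℝ, 0 < c ∧ ∀ᵐ ω ∂(iid Ed F), ∀ v : V, ∃ C : ℝ, 0 ≤ C ∧ ∀ (D : Set V) (x : V),
      ENNReal.ofReal (c * (|((x.1 - v.1 : ℤ) : ℝ)| + |((x.2 - v.2 : ℤ) : ℝ)|) - C) ≤ T (wt ω) D v x := by
  obtain ⟨c, hc, h⟩ := ae_linear hF hF0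
  refine ⟨c, hc, ?_⟩
  filter_upwards [h] with ω hω v
  obtain ⟨C, hC, h1⟩ := hω v
  refine ⟨C, hC, fun D x => le_T fun l hl => ?_⟩
  obtain ⟨l', h2, h3, -, h4⟩ := exists_nodup_walk (wt ω) D x l.length v l le_rfl hl
  refine le_trans ?_ h4
  by_cases htop : cost (wt ω) l' = ⊤
  · rw [htop]; exact le_top
  · have h5 := chain_nb (wt_two ω) htop
    refine le_trans (ENNReal.ofReal_le_ofReal ?_) (h1 l' h2.1 h5 h3)
    obtain ⟨l'', rfl⟩ := h2.eq_cons
    have h6 := dist_le_of_chain l'' h5 h2.2.1
    have h7 : |((x.1 - v.1 : ℤ) : ℝ)| + |((x.2 - v.2 : ℤ) : ℝ)| ≤ (l''.length : ℝ) := by exact_mod_cast h6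
    have h8 := mul_le_mul_of_nonneg_left h7 hc.le
    have e : ((List.length (v :: l'') : ℕ) : ℝ) - 1 = l''.length := by
      rw [List.length_cons]; push_cast; ring
    rw [e]
    linarith

end C7
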