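import Pool.Agent.Lib.MP_c725eb_pr.ClsB
import Pool.Agent.Lib.MP_c725eb_pr.Lin

/-!
# Values of the labels; the two cases of the time constant; reflections of the classes
-/

set_option autoImplicit false

namespace C7

open MeasureTheory Filter Set
open scoped ENNReal Topology

/-! ### the norm -/

section norm

variable {F : Measure ℝ} [IsProbabilityMeasure F] {K : ℝ≥0∞} (hK : SmallK F K) {σ : ℤ}
  (hσ : σ = 0 ∨ σ = 1)

include hK hσ

theorem rho_nat_mul (n : ℕ) (a b : ℤ) : rho σ F K ((n : ℤ) * a, (n : ℤ) * b) = n * rho σ F K (a, b) := by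
  rw [← rho_nsmul hK hσ]
  have e : (((n : ℤ) * a, (n : ℤ) * b) : V) = n • ((a, b) : V) :=
    Prod.ext (nsmul_fst n (a, b)).symm (nsmul_snd n (a, b)).symm
  rw [e]

theorem rho_axis (a : ℤ) : rho σ F K (a, 0) = |(a : ℝ)| * rho σ F K (1, 0) := by
  rw [← rho_abs hK hσ a 0]
  have h := rho_nat_mul hK hσ a.natAbs 1 0
  rw [mul_one, mul_zero, Int.natCast_natAbs, Nat.cast_natAbs, Int.cast_abs] at h
  rw [abs_zero]
  exact h

theorem rho_axis' (b : ℤ) : rho σ F K (0, b) = |(b : ℝ)| * rho σ F K (1, 0) := by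
  rw [rho_swap hK hσ b 0, rho_axis hK hσ]

theorem rho_le_l1 (a b : ℤ) : rho σ F K (a, b) ≤ (|(a : ℝ)| + |(b : ℝ)|) * rho σ F K (1, 0) := by
  have h := rho_add_le hK hσ ((a, 0) : V) ((0, b) : V)
  rw [rho_axis hK hσ, rho_axis' hK hσ] at h
  have e : ((a, 0) : V) + ((0, b) : V) = (a, b) := Prod.ext (by simp) (by simp)
  rw [e] at h
  linarith

theorem rho_diag_le : rho σ F K (1, 1) ≤ 2 * rho σ F K (1, 0) := by
  have h := rho_le_l1 hK hσ 1 1
  simp only [Int.cast_one, abs_one] at h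
  linarith

theorem rho_ge_axis (a b : ℤ) : |(a : ℝ)| * rho σ F K (1, 0) ≤ rho σ F K (a, b) := by
  have h := rho_add_le hK hσ ((a, b) : V) ((a, -b) : V)
  have e : ((a, b) : V) + ((a, -b) : V) = (2 * a, 0) := Prod.ext (by simp; ring) (by simp)
  rw [e, rho_axis hK hσ, rho_neg_snd hK hσ] at h
  push_cast at h
  rw [abs_mul, abs_two] at h
  linarith

/-- The time constant in the diamond case. -/
theorem rho_diamond (h : rho σ F K (1, 1) = 2 * rho σ F K (1, 0)) (a b : ℤ) :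
    rho σ F K (a, b) = (|(a : ℝ)| + |(b : ℝ)|) * rho σ F K (1, 0) := by
  refine le_antisymm (rho_le_l1 hK hσ a b) ?_
  have key : ∀ p q : ℕ, q ≤ p → ((p : ℝ) + q) * rho σ F K (1, 0) ≤ rho σ F K ((p : ℤ), (q : ℤ)) := by
    intro p q hqp
    have h1 := rho_add_le hK hσ (((p : ℤ), (q : ℤ)) : V) ((0, ((p - q : ℕ) : ℤ)) : V)
    have e : (((p : ℤ), (q : ℤ)) : V) + ((0, ((p - q : ℕ) : ℤ)) : V) = ((p : ℤ) * 1, (p : ℤ) * 1) :=
      Prod.ext (by simp) (by simp [Nat.cast_sub hqp])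
    rw [e, rho_nat_mul hK hσ, rho_axis' hK hσ, h] at h1
    have e2 : |(((p - q : ℕ) : ℤ) : ℝ)| = (p : ℝ) - q := by
      rw [Int.cast_natCast, Nat.abs_cast, Nat.cast_sub hqp]
    rw [e2] at h1
    linarith
  rw [← rho_abs hK hσ a b]
  have e1 : |a| = (a.natAbs : ℤ) := Int.abs_eq_natAbs a
  have e2 : |b| = (b.natAbs : ℤ) := Int.abs_eq_natAbs b
  have e3 : |(a : ℝ)| = (a.natAbs : ℝ) := by rw [Nat.cast_natAbs, Int.cast_abs]
  have e4 : |(b : ℝ)| = (b.natAbs : ℝ) := by rw [Nat.cast_natAbs, Int.cast_abs]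
  rw [e1, e2, e3, e4]
  rcases le_total b.natAbs a.natAbs with hab | hab
  · exact key _ _ hab
  · rw [← rho_swap hK hσ (a.natAbs : ℤ) (b.natAbs : ℤ), add_comm]
    exact key _ _ hab

end norm

/-! ### means -/

theorem adm_blo (σ : ℤ) (K : ℝ≥0∞) : Adm (blo σ K) (2 * K.toReal) :=
  ⟨fun _ hw i => measurable_blo hw σ K i, fun i w => abs_blo_le σ K i w⟩

theorem adm_bup (σ : ℤ) (K : ℝ≥0∞) : Adm (bup σ K) (2 * K.toReal) :=
  ⟨fun _ hw i => measurable_bup hw σ K i, fun i w => abs_bup_le σ K i w⟩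

theorem adm_alo (σ : ℤ) (K : ℝ≥0∞) : Adm (alo σ K) (2 * K.toReal) :=
  ⟨fun _ hw i => measurable_alo hw σ K i, fun i w => abs_alo_le σ K i w⟩

theorem adm_glo (σ : ℤ) (K : ℝ≥0∞) (u : V) (L : ℕ) : Adm (glo σ K u L) (2 * K.toReal) :=
  ⟨fun _ hw i => measurable_glo hw σ K u L i, fun i w => abs_glo_le σ K u L i w⟩

theorem adm_gup (σ : ℤ) (K : ℝ≥0∞) (u : V) (L : ℕ) : Adm (gup σ K u L) (2 * K.toReal) :=
  ⟨fun _ hw i => measurable_gup hw σ K u L i, fun i w => abs_gup_le σ K u L i w⟩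

theorem adm_Glo (σ : ℤ) (K : ℝ≥0∞) (u : V) : Adm (Glo σ K u) (2 * K.toReal) :=
  ⟨fun _ hw i => Measurable.iInf fun L => measurable_glo hw σ K u L i, fun i w => abs_Glo_le σ K u i w⟩

theorem adm_Gup (σ : ℤ) (K : ℝ≥0∞) (u : V) : Adm (Gup σ K u) (2 * K.toReal) :=
  ⟨fun _ hw i => Measurable.iSup fun L => measurable_gup hw σ K u L i, fun i w => abs_Gup_le σ K u i w⟩

theorem mv_one_one (g : ℤ → W → ℝ) (w : W) : mv 1 g 0 1 w = g 1 w := by
  have h1 : rr 1 0 1 = 1 := by unfold rr; norm_num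
  have h2 : ss 1 0 1 = (0, 0) := by
    unfold ss
    norm_num
  have h3 : sh (0, 0) w = w := by
    funext v d
    unfold sh
    simp
  unfold mv
  rw [h1, h2, h3]

/-- The mean over one period. -/
theorem EV_eq {F : Measure ℝ} [IsProbabilityMeasure F] {σ : ℤ} (hσ : σ = 0 ∨ σ = 1) {g : ℤ → W → ℝ} {M : ℝ}
    (hg : Adm g M) : EV σ F g = ∑ j ∈ Finset.range (per σ), ∫ ω, g j (wt ω) ∂(iid Ed F) := by
  have hi : ∀ i, Integrable (fun ω => g i (wt ω)) (iid Ed F) := fun i =>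
    integrable_of_abs (hg.meas wt measurable_wt3 i) fun ω => hg.bdd i (wt ω)
  have hpot : ∀ (f : ℤ → ℝ) (n : ℕ), -pot f n = ∑ j ∈ Finset.range n, f j := by
    intro f n
    induction n with
    | zero => simp
    | succ n ih =>
      rw [Finset.sum_range_succ, ← ih]
      have := pot_sub_succ f n
      push_cast
      linarith
  unfold EV
  have hs : ∑ j ∈ Finset.range (per σ), ∫ ω, g j (wt ω) ∂(iid Ed F) =
      ∫ ω, ∑ j ∈ Finset.range (per σ), g j (wt ω) ∂(iid Ed F) :=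
    (integral_finsetSum (Finset.range (per σ)) (f := fun (i : ℕ) (ω : Om) => g i (wt ω))
      fun i _ => hi i).symm
  rw [hs]
  refine integral_congr_ae (Eventually.of_forall fun ω => ?_)
  simp only
  rcases hσ with rfl | rfl
  · have h := hpot (fun i => mv 0 g 0 i (wt ω)) 1
    have e : per 0 = 1 := rfl
    rw [e]
    simp only [Finset.range_one, Finset.sum_singleton, Nat.cast_one, Nat.cast_zero, mv_base] at h ⊢
    simpa using h
  · have h := hpot (fun i => mv 1 g 0 i (wt ω)) 2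
    have e : per 1 = 2 := rfl
    rw [e]
    simp only [Finset.sum_range_succ, Finset.range_zero, Finset.sum_empty, zero_add, Nat.cast_one,
      Nat.cast_zero, mv_base, mv_one_one] at h ⊢
    have e2 : (1 : ℤ) + 1 = ((2 : ℕ) : ℤ) := by norm_num
    rw [e2]
    exact h

section values

variable {F : Measure ℝ} [IsProbabilityMeasure F] {K : ℝ≥0∞} (hK : SmallK F K) {σ : ℤ}
  (hσ : σ = 0 ∨ σ = 1)

include hK hσ

omit hK in
theorem EV_blo_le_Glo (j : ℕ) : EV σ F (blo σ K) ≤ EV σ F (Glo σ K (ub j)) := by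
  rw [EV_eq hσ (adm_blo σ K), EV_eq hσ (adm_Glo σ K (ub j))]
  refine Finset.sum_le_sum fun i _ => integral_mono (integrable_blo σ K i)
    (integrable_of_abs (measurable_Glo_wt σ K (ub j) i) fun ω => abs_Glo_le σ K (ub j) i (wt ω)) fun ω => ?_
  exact blo_le_Glo_ub j i

theorem EV_blo_eq_bup : EV σ F (blo σ K) = EV σ F (bup σ K) := by
  rw [EV_eq hσ (adm_blo σ K), EV_eq hσ (adm_bup σ K)]
  refine Finset.sum_congr rfl fun i _ => integral_congr_ae ?_
  filter_upwards [ae_blo_eq_bup (F := F) hK hσ] with ω h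
  exact h i

theorem label_Glo {u : V} (hu : Dlo σ u) (hu2 : 2 * |u.2| ≤ u.1) {N : ℕ} (hN : 0 < N) (k : ℕ) :
    k * EV σ F (Glo σ K u) ≤ rho σ F K (N • u + (k : ℤ) • vert σ) - rho σ F K (N • u) := by
  rw [EV_eq hσ (adm_Glo σ K u)]
  exact label_lo hK hσ hu hu2 hN k

theorem label_Gup {u : V} (hu : Dup σ u) (hu2 : 2 * |u.2| ≤ u.1) {N : ℕ} (hN : 0 < N) (k : ℕ) :
    rho σ F K (N • u) - rho σ F K (N • u - (k : ℤ) • vert σ) ≤ k * EV σ F (Gup σ K u) := by
  rw [EV_eq hσ (adm_Gup σ K u)]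
  exact label_up hK hσ hu hu2 hN k

/-- Lower bounds of the labels of the upper classes pass to the class `b`. -/
theorem le_EV_blo {c : ℝ} (h : ∀ j : ℕ, c ≤ EV σ F (Gup σ K (ub j))) : c ≤ EV σ F (blo σ K) := by
  rw [EV_blo_eq_bup hK hσ, EV_eq hσ (adm_bup σ K)]
  have h2 : Tendsto (fun j : ℕ => ∑ i ∈ Finset.range (per σ), ∫ ω, Gup σ K (ub j) i (wt ω) ∂(iid Ed F))
      atTop (𝓝 (∑ i ∈ Finset.range (per σ), ∫ ω, bup σ K i (wt ω) ∂(iid Ed F))) :=
    tendsto_finsetSum _ fun i _ => tendsto_int_Gup_ub hK hσ i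
  refine ge_of_tendsto' h2 fun j => ?_
  rw [← EV_eq hσ (adm_Gup σ K (ub j))]
  exact h j

/-- Upper bounds of the labels of slopes `0-` pass to the class `a`. -/
theorem EV_alo_le {c : ℝ} (h : ∀ j : ℕ, EV σ F (Glo σ K (ua j)) ≤ c) : EV σ F (alo σ K) ≤ c := by
  rw [EV_eq hσ (adm_alo σ K)]
  have h2 : Tendsto (fun j : ℕ => ∑ i ∈ Finset.range (per σ), ∫ ω, Glo σ K (ua j) i (wt ω) ∂(iid Ed F))
      atTop (𝓝 (∑ i ∈ Finset.range (per σ), ∫ ω, alo σ K i (wt ω) ∂(iid Ed F))) :=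
    tendsto_finsetSum _ fun i _ => tendsto_int_Glo_ua hK hσ i
  refine le_of_tendsto' h2 fun j => ?_
  rw [← EV_eq hσ (adm_Glo σ K (ua j))]
  exact h j

end values

section cases

variable {F : Measure ℝ} [IsProbabilityMeasure F] {K : ℝ≥0∞} (hK : SmallK F K)

include hK

/-- `σ = 0`: the label of `b` is nonnegative. -/
theorem EV_blo_zero_nonneg : 0 ≤ EV 0 F (blo 0 K) := by
  have h0 : (0 : ℤ) = 0 ∨ (0 : ℤ) = 1 := Or.inl rfl
  refine le_EV_blo hK h0 fun j => ?_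
  have h := label_Gup (F := F) hK h0 (dup_ub 0 j) (ub_slope j) (N := 1) one_pos 2
  have e1 : 1 • ub j = (((j : ℤ) + 2, 1) : V) := by rw [one_smul]; rfl
  have e2 : 1 • ub j - ((2 : ℕ) : ℤ) • vert 0 = (((j : ℤ) + 2, -1) : V) := by
    rw [e1]
    refine Prod.ext ?_ ?_
    · rw [Prod.fst_sub, zsmul_fst]; unfold vert; simp
    · rw [Prod.snd_sub, zsmul_snd]; unfold vert; simp
  rw [e2, e1, rho_neg_snd hK h0] at h
  push_cast at h
  linarith

/-- `σ = 0`: the label of `b` against the time constant. -/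
theorem EV_blo_zero_le : EV 0 F (blo 0 K) ≤ rho 0 F K (1, 1) - rho 0 F K (1, 0) := by
  have h0 : (0 : ℤ) = 0 ∨ (0 : ℤ) = 1 := Or.inl rfl
  set D := rho 0 F K (1, 1) - rho 0 F K (1, 0) with hD
  set v := EV 0 F (blo 0 K) with hv
  have key : ∀ j : ℕ, ((j : ℝ) + 1) * v ≤ ((j : ℝ) + 2) * D := by
    intro j
    have h := label_Glo (F := F) hK h0 (dup_ub 0 j).toDlo (ub_slope j) (N := 1) one_pos (j + 1)
    have e1 : 1 • ub j = (((j : ℤ) + 2, 1) : V) := by rw [one_smul]; rfl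
    have e2 : 1 • ub j + ((j + 1 : ℕ) : ℤ) • vert 0 =
        ((((j + 2 : ℕ) : ℤ) * 1, ((j + 2 : ℕ) : ℤ) * 1) : V) := by
      rw [e1]
      refine Prod.ext ?_ ?_
      · rw [Prod.fst_add, zsmul_fst]; unfold vert; push_cast; ring
      · rw [Prod.snd_add, zsmul_snd]; unfold vert; push_cast; ring
    rw [e2, e1, rho_nat_mul hK h0] at h
    have h1 := rho_ge_axis hK h0 ((j : ℤ) + 2) 1
    have e3 : |((((j : ℤ) + 2 : ℤ)) : ℝ)| = (j : ℝ) + 2 := by
      push_cast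
      exact abs_of_nonneg (by positivity)
    rw [e3] at h1
    have h2 := EV_blo_le_Glo (F := F) (K := K) h0 j
    push_cast at h
    have h3 : ((j : ℝ) + 1) * v ≤ ((j : ℝ) + 1) * EV 0 F (Glo 0 K (ub j)) :=
      mul_le_mul_of_nonneg_left h2 (by positivity)
    rw [hD]
    nlinarith
  by_contra hlt
  push Not at hlt
  obtain ⟨j, hj⟩ := exists_nat_gt (|D| / (v - D))
  have h1 := key j
  rw [div_lt_iff₀ (by linarith)] at hj
  have h2 := le_abs_self D
  nlinarith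

/-- `σ = 1`, diamond: the label of `b` is zero. -/
theorem EV_blo_one (h : rho 1 F K (1, 1) = 2 * rho 1 F K (1, 0)) : EV 1 F (blo 1 K) = 0 := by
  have h1 : (1 : ℤ) = 0 ∨ (1 : ℤ) = 1 := Or.inr rfl
  refine le_antisymm ?_ (le_EV_blo hK h1 fun j => ?_)
  · have h2 := label_Glo (F := F) hK h1 (dup_ub 1 0).toDlo (ub_slope 0) (N := 1) one_pos 1
    have e1 : 1 • ub 0 = ((2, 1) : V) := by rw [one_smul]; rfl
    have e2 : 1 • ub 0 + ((1 : ℕ) : ℤ) • vert 1 = ((1, 2) : V) := by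
      rw [e1]; rfl
    rw [e2, e1, rho_diamond hK h1 h 1 2, rho_diamond hK h1 h 2 1] at h2
    have h3 := EV_blo_le_Glo (F := F) (K := K) h1 0
    norm_num at h2
    linarith
  · have h2 := label_Gup (F := F) hK h1 (dup_ub 1 j) (ub_slope j) (N := 1) one_pos 1
    have e1 : 1 • ub j = (((j : ℤ) + 2, 1) : V) := by rw [one_smul]; rfl
    have e2 : 1 • ub j - ((1 : ℕ) : ℤ) • vert 1 = (((j : ℤ) + 3, 0) : V) := by
      rw [e1]
      refine Prod.ext ?_ ?_
      · rw [Prod.fst_sub, zsmul_fst]; unfold vert; push_cast; ring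
      · rw [Prod.snd_sub, zsmul_snd]; unfold vert; norm_num
    rw [e2, e1, rho_diamond hK h1 h ((j : ℤ) + 2) 1, rho_diamond hK h1 h ((j : ℤ) + 3) 0] at h2
    have e3 : |((((j : ℤ) + 2 : ℤ)) : ℝ)| = (j : ℝ) + 2 := by
      push_cast
      exact abs_of_nonneg (by positivity)
    have e4 : |((((j : ℤ) + 3 : ℤ)) : ℝ)| = (j : ℝ) + 3 := by
      push_cast
      exact abs_of_nonneg (by positivity)
    rw [e3, e4] at h2
    norm_num at h2
    linarith

/-- `σ = 1`, diamond: the label of `a`. -/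
theorem EV_alo_one (h : rho 1 F K (1, 1) = 2 * rho 1 F K (1, 0)) :
    EV 1 F (alo 1 K) ≤ -(2 * rho 1 F K (1, 0)) := by
  have h1 : (1 : ℤ) = 0 ∨ (1 : ℤ) = 1 := Or.inr rfl
  refine EV_alo_le hK h1 fun j => ?_
  have h2 := label_Glo (F := F) hK h1 (dlo_ua 1 j) (ua_slope j) (N := 1) one_pos 1
  have e1 : 1 • ua j = (((j : ℤ) + 4, -1) : V) := by rw [one_smul]; rfl
  have e2 : 1 • ua j + ((1 : ℕ) : ℤ) • vert 1 = (((j : ℤ) + 3, 0) : V) := by
    rw [e1]
    refine Prod.ext ?_ ?_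
    · rw [Prod.fst_add, zsmul_fst]; unfold vert; push_cast; ring
    · rw [Prod.snd_add, zsmul_snd]; unfold vert; norm_num
  rw [e2, e1, rho_diamond hK h1 h ((j : ℤ) + 4) (-1), rho_diamond hK h1 h ((j : ℤ) + 3) 0] at h2
  have e3 : |((((j : ℤ) + 4 : ℤ)) : ℝ)| = (j : ℝ) + 4 := by
    push_cast
    exact abs_of_nonneg (by positivity)
  have e4 : |((((j : ℤ) + 3 : ℤ)) : ℝ)| = (j : ℝ) + 3 := by
    push_cast
    exact abs_of_nonneg (by positivity)
  rw [e3, e4] at h2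
  norm_num at h2
  linarith

theorem rho_vert_zero : rho 0 F K (vert 0) = rho 0 F K (1, 0) := by
  have e : vert 0 = ((0, 1) : V) := by unfold vert; simp
  rw [e, rho_swap hK (Or.inl rfl)]

theorem rho_vert_one (h : rho 1 F K (1, 1) = 2 * rho 1 F K (1, 0)) :
    rho 1 F K (vert 1) = 2 * rho 1 F K (1, 0) := by
  have e : vert 1 = ((-1, 1) : V) := rfl
  rw [e, rho_neg_fst hK (Or.inr rfl)]
  exact h

/-- NON-DIAMOND CASE: `b` is not extremal in the axis system. -/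
theorem nondiamond (h : rho 0 F K (1, 1) < 2 * rho 0 F K (1, 0)) {ε : ℤ} (hε : ε = 1 ∨ ε = -1) :
    ε * EV 0 F (blo 0 K) < rho 0 F K (vert 0) := by
  rw [rho_vert_zero hK]
  have h1 := EV_blo_zero_nonneg (F := F) hK
  have h2 := EV_blo_zero_le (F := F) hK
  rcases hε with rfl | rfl
  · push_cast; linarith
  · have h3 := rho_nonneg (F := F) hK (Or.inl rfl : (0 : ℤ) = 0 ∨ (0 : ℤ) = 1) (1, 1)
    have h4 := rho_ge_axis (F := F) hK (Or.inl rfl : (0 : ℤ) = 0 ∨ (0 : ℤ) = 1) 1 1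
    simp only [Int.cast_one, abs_one, one_mul] at h4
    push_cast
    linarith

/-- DIAMOND CASE: `b` is not extremal in the diagonal system. -/
theorem diamond (h : rho 1 F K (1, 1) = 2 * rho 1 F K (1, 0)) (hμ : 0 < rho 1 F K (1, 0)) (ε : ℤ) :
    ε * EV 1 F (blo 1 K) < rho 1 F K (vert 1) := by
  rw [rho_vert_one hK h, EV_blo_one hK h]
  simp only [mul_zero]
  linarith

end cases

end C7
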