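import Pool.Agent.Lib.MP_c725eb_pr.GDom
import Pool.Agent.Lib.MP_c725eb_pr.DomX
import Pool.Agent.Lib.MP_c725eb_pr.Flow

/-!
# The classes of all lines: domination of the increments towards targets
-/

set_option autoImplicit false

namespace C7

open MeasureTheory Filter Set
open scoped ENNReal Topology

section

variable {σ : ℤ} {K : ℝ≥0∞} {w : W} {u u' : V} {L L' : ℕ} {i : ℤ}

theorem Cfg.cb (h : Cfg σ K w) : Cb σ K w := ⟨h.hσ, h.hK, h.hw, h.good, h.fin⟩

theorem Cb.sh (h : Cb σ K w) (s : V) : Cb σ K (sh s w) where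
  hσ := h.hσ
  hK := h.hK
  hw := fun _ => h.hw _
  good := good_sh h.hσ s h.good
  fin := fun _ => h.fin _

/-- Increments towards a target, seen from the moved configuration. -/
theorem BI_univ_mv (hσ : σ = 0 ∨ σ = 1) (k i : ℤ) (t : V) :
    BI w σ univ (ck σ w K k) t i (i + 1) =
      BI (sh (ss σ k i) w) σ univ (ck σ (sh (ss σ k i) w) K 0) (tr (-(ss σ k i).1, -(ss σ k i).2) t)
        (rr σ k i) (rr σ k i + 1) := by
  have h := fun x => TI_sh (w := w) (σ := σ) (ss σ k i) (c := ck σ w K k) (c' := ck σ (sh (ss σ k i) w) K 0)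
    (E := univ) (E' := univ) (fun j => by
      have := ck_sh (w := w) (K := K) hσ (ss σ k i) k j
      rwa [ln_ss hσ, sub_self] at this) (fun _ => Iff.rfl) x (tr (-(ss σ k i).1, -(ss σ k i).2) t)
  have e := ix_ss hσ k i
  unfold BI
  rw [h, h, tr_tr', show rr σ k i + ix σ (ss σ k i) = i by omega,
    show rr σ k i + 1 + ix σ (ss σ k i) = i + 1 by omega]

theorem mem_Rg_mv (hσ : σ = 0 ∨ σ = 1) (k i : ℤ) {t : V} (ht : t ∈ Rg σ w K k) :
    tr (-(ss σ k i).1, -(ss σ k i).2) t ∈ Rg σ (sh (ss σ k i) w) K 0 := by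
  have h1 := mem_Rg_sh (w := w) (K := K) hσ (ss σ k i) k (tr (-(ss σ k i).1, -(ss σ k i).2) t)
  rw [ln_ss hσ, sub_self] at h1
  refine h1.2 ?_
  have := tr_tr' (ss σ k i) t
  unfold tr at this ⊢
  rw [this]
  exact ht

theorem det_tr_neg (u s t : V) : det u (tr (-s.1, -s.2) t) = det u t - det u s := by
  unfold det tr
  simp only
  ring

/-- (M4) for all lines, lower walls. -/
theorem BI_le_mv (h : Cb σ K w) (hg : ∀ s, GLo σ K u (sh s w)) (hu1 : 0 < u.1) (hu2 : -u.1 ≤ u.2) {k : ℤ}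
    {t : V} (ht : t ∈ Rg σ w K k) (hd : det u t - det u (ss σ k i) < -(L * ln σ u)) :
    BI w σ univ (ck σ w K k) t i (i + 1) ≤ mv σ (glo σ K u L) k i w := by
  rw [BI_univ_mv h.hσ]
  unfold mv
  refine BI_le_glo0 (h.sh _) (hg _) hu1 hu2 (mem_Rg_mv h.hσ k i ht) ?_ (Or.inr ?_)
  · rw [det_tr_neg]; linarith
  · intro h'
    have h1 : -(L * ln σ u) ≤ det u (tr (-(ss σ k i).1, -(ss σ k i).2) t) := h'
    rw [det_tr_neg] at h1
    linarith

/-- (M4) for all lines, upper walls. -/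
theorem mv_le_BI (h : Cb σ K w) (hg : ∀ s, GUp σ K u (sh s w)) (hu1 : 0 < u.1) (hu2 : σ = 0 → u.2 ≤ u.1)
    (hu3 : σ = 1 → 0 < u.2) {k : ℤ}
    {t : V} (ht : t ∈ Rg σ w K k) (hd : L * ln σ u < det u t - det u (ss σ k i)) :
    mv σ (gup σ K u L) k i w ≤ BI w σ univ (ck σ w K k) t i (i + 1) := by
  rw [BI_univ_mv h.hσ]
  unfold mv
  refine gup_le_BI0 (h.sh _) (hg _) hu1 hu2 hu3 (mem_Rg_mv h.hσ k i ht) ?_ (Or.inr ?_)
  · rw [det_tr_neg]
    have := rf_fst_pos (u := u) h.hσ hu1 hu3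
    linarith
  · intro h'
    have h1 : det u (tr (-(ss σ k i).1, -(ss σ k i).2) t) ≤ L * ln σ u := h'
    rw [det_tr_neg] at h1
    linarith

/-- Targets far below the wall: domination for all indices on one side. -/
theorem exists_dom_lo (h : Cb σ K w) (hg : ∀ s, GLo σ K u (sh s w)) (hu1 : 0 < u.1) (hu2 : -u.1 ≤ u.2)
    (hu3 : σ = 1 → 0 < u.1 + u.2) (L : ℕ) (k J : ℤ) :
    ∃ B : ℤ, ∀ t ∈ Rg σ w K k, det u t < -B → ∀ j, J ≤ j →
      BI w σ univ (ck σ w K k) t j (j + 1) ≤ mv σ (glo σ K u L) k j w := by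
  obtain ⟨B, hB⟩ := le_det_ss (u := u) h.hσ hu1 hu3 k J
  refine ⟨B + L * ln σ u, fun t ht hd j hj => BI_le_mv h hg hu1 hu2 ht ?_⟩
  have := hB j hj
  linarith

/-- Targets far above the wall: domination for all indices on one side. -/
theorem exists_dom_up (h : Cb σ K w) (hg : ∀ s, GUp σ K u (sh s w)) (hu1 : 0 < u.1) (hu2 : σ = 0 → u.2 ≤ u.1)
    (hu3 : σ = 1 → 0 < u.2) (L : ℕ) (k J : ℤ) :
    ∃ B : ℤ, ∀ t ∈ Rg σ w K k, B < det u t → ∀ j ≤ J,
      mv σ (gup σ K u L) k j w ≤ BI w σ univ (ck σ w K k) t j (j + 1) := by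
  obtain ⟨B, hB⟩ := det_ss_le (u := u) h.hσ hu1 (fun h1 => by have := hu3 h1; omega) k J
  refine ⟨B + L * ln σ u, fun t ht hd j hj => mv_le_BI h hg hu1 hu2 hu3 ht ?_⟩
  have := hB j hj
  linarith

/-- Increments of the target potentials. -/
theorem tpot_sub (w : W) (t : V) (l i j : ℤ) :
    tpot σ K w t l i - tpot σ K w t l j = BI w σ univ (ck σ w K l) t i j := by
  unfold tpot BI
  rw [TI_univ, TI_univ]
  rfl

/-- The potentials towards a target, from its increments. -/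
theorem tpot_eq_pot (w : W) (t : V) (l j : ℤ) :
    tpot σ K w t l j - tpot σ K w t l 0 = pot (fun i => BI w σ univ (ck σ w K l) t i (i + 1)) j := by
  have h := pot_unique (f := fun i => BI w σ univ (ck σ w K l) t i (i + 1)) (g := fun i => tpot σ K w t l i)
    (fun i => tpot_sub w t l i (i + 1)) j
  linarith

/-! ### almost sure forms -/

section prob

variable {F : Measure ℝ} [IsProbabilityMeasure F]

/-- Generic configurations: convergence along all walls, for all translates. -/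
structure Cv (σ : ℤ) (K : ℝ≥0∞) (w : W) : Prop where
  cb : Cb σ K w
  lo : ∀ s u, Dir σ u → GLo σ K u (sh s w)

theorem ae_cv (hK : SmallK F K) (hσ : σ = 0 ∨ σ = 1) : ∀ᵐ ω ∂(iid Ed F), Cv σ K (wt ω) := by
  have h1 := ae_shift_all (F := F) (P := fun w => ∀ u, Dir σ u → GLo σ K u w) (ae_glo hK hσ)
  filter_upwards [ae_cb hK hσ, h1] with ω h2 h3
  exact ⟨h2, fun s u hu => h3 s u hu⟩

end prob

/-- Upper walls of positive slope. -/
theorem Cb.up (h : Cb σ K w) (hu1 : 0 < u.1) (h0 : σ = 0 → -u.1 < u.2 ∧ u.2 < u.1)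
    (h1 : σ = 1 → 0 < u.2) (s : V) : GUp σ K u (C7.sh s w) := (h.sh s).conv_up hu1 h0 h1

theorem Cb.lo (h : Cb σ K w) (hu1 : 0 < u.1) (h0 : σ = 0 → -u.1 < u.2 ∧ u.2 < u.1)
    (h1 : σ = 1 → 0 < u.2) (s : V) : GLo σ K u (C7.sh s w) := by
  rcases h.hσ with rfl | rfl
  · exact gl_zero (h.sh s) hu1 (h0 rfl).1 (h0 rfl).2
  · exact gl_one (h.sh s) hu1 (h1 rfl)

end

end C7
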