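import Pool.Agent.Lib.MP_c725eb_pr.Curve

/-!
# Last-entrance kernels, environments (strips, walls), targets

An ENVIRONMENT is a set `E` of vertices; the domain of a curve `c` in it is `reg σ c ∩ E`.
* `E = Set.univ` : the region of the curve;
* `E = lft σ d` : a strip with right boundary the curve `d` (vertices `pt σ d h`);
* `E = Wlo σ u L` : above the wall through `-L * vert σ` in the direction `u`, targets `tlo σ u L m`;
* `E = Wup σ u L` : below the wall through `L * vert σ` in the direction `u`, targets `tup σ u L m`.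
-/

set_option autoImplicit false

namespace C7

open scoped ENNReal

/-- Last-entrance kernel: walks in `D` from `x` to `y ∈ R` whose last step enters `R` (the empty walk
is allowed if `x = y`). -/
noncomputable def Kn (w : W) (D R : Set V) (x y : V) : ℝ≥0∞ :=
  min (if x = y then 0 else ⊤) (⨅ (p : V) (_ : p ∈ D \ R), T w D x p + step w p y)

theorem Kn_self (w : W) (D R : Set V) (x : V) : Kn w D R x x = 0 := by
  unfold Kn
  rw [if_pos rfl]
  exact min_eq_left zero_le

theorem Kn_le {w : W} {D R : Set V} {x p y : V} (hp : p ∈ D) (hp' : p ∉ R) :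
    Kn w D R x y ≤ T w D x p + step w p y :=
  (min_le_right _ _).trans (iInf₂_le p ⟨hp, hp'⟩)

theorem le_Kn {w : W} {D R : Set V} {x y : V} {a : ℝ≥0∞} (h0 : x = y → a = 0)
    (h : ∀ p, p ∈ D → p ∉ R → a ≤ T w D x p + step w p y) : a ≤ Kn w D R x y := by
  unfold Kn
  apply le_min
  · by_cases hxy : x = y
    · rw [if_pos hxy, h0 hxy]
    · rw [if_neg hxy]; exact le_top
  · exact le_iInf₂ fun p hp => h p hp.1 hp.2

theorem T_le_Kn {w : W} {D R : Set V} {x y : V} (hx : x ∈ D) (hy : y ∈ D) : T w D x y ≤ Kn w D R x y := by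
  apply le_Kn
  · rintro rfl; exact T_self w hx
  · intro p hp _
    exact (T_triangle w D x p y).trans (add_le_add le_rfl (T_le_step w hp hy))

theorem T_eq_top_of_left {w : W} {D : Set V} {x y : V} (hx : x ∉ D) : T w D x y = ⊤ :=
  top_le_iff.1 (le_T fun _ hl => absurd hl.left_mem hx)

theorem T_eq_top_of_right {w : W} {D : Set V} {x y : V} (hy : y ∉ D) : T w D x y = ⊤ :=
  top_le_iff.1 (le_T fun _ hl => absurd hl.right_mem hy)

theorem exists_last_not {α : Type*} {P : α → Prop} : ∀ {l : List α}, (∃ v ∈ l, ¬ P v) →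
    ∃ l₁ p l₂, l = l₁ ++ p :: l₂ ∧ ¬ P p ∧ ∀ v ∈ l₂, P v := by
  intro l
  induction l with
  | nil => rintro ⟨v, hv, _⟩; simp at hv
  | cons a l ih =>
    intro h
    by_cases h1 : ∃ v ∈ l, ¬ P v
    · obtain ⟨l₁, p, l₂, rfl, h2, h3⟩ := ih h1
      exact ⟨a :: l₁, p, l₂, rfl, h2, h3⟩
    · push Not at h1
      obtain ⟨v, hv, hv'⟩ := h
      rcases List.mem_cons.1 hv with rfl | hv
      · exact ⟨[], v, l, rfl, hv', h1⟩
      · exact absurd (h1 v hv) hv'

theorem exists_first {α : Type*} {P : α → Prop} : ∀ {l : List α}, (∃ v ∈ l, P v) →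
    ∃ l₁ p l₂, l = l₁ ++ p :: l₂ ∧ P p ∧ ∀ v ∈ l₁, ¬ P v := by
  intro l
  induction l with
  | nil => rintro ⟨v, hv, _⟩; simp at hv
  | cons a l ih =>
    intro h
    by_cases h1 : P a
    · exact ⟨[], a, l, rfl, h1, by simp⟩
    · obtain ⟨v, hv, hv'⟩ := h
      rcases List.mem_cons.1 hv with rfl | hv
      · exact absurd hv' h1
      · obtain ⟨l₁, p, l₂, rfl, h2, h3⟩ := ih ⟨v, hv, hv'⟩
        refine ⟨a :: l₁, p, l₂, rfl, h2, ?_⟩
        intro z hz
        rcases List.mem_cons.1 hz with rfl | hz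
        · exact h1
        · exact h3 z hz

/-- Decomposition at the last entrance. -/
theorem T_eq_Kn {w : W} {D R : Set V} (hR : R ⊆ D) {x t : V} (hx : x ∈ D) (ht : t ∈ R) :
    T w D x t = ⨅ (y : V) (_ : y ∈ R), Kn w D R x y + T w R y t := by
  apply le_antisymm
  · refine le_iInf₂ fun y hy => ?_
    exact (T_triangle w D x y t).trans (add_le_add (T_le_Kn hx (hR hy)) (T_mono hR y t))
  · refine le_T fun l hl => ?_
    by_cases h : ∃ v ∈ l, ¬ (v ∈ R)
    · obtain ⟨l₁, p, l₂, rfl, hp, h2⟩ := exists_last_not h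
      have hlast := hl.2.1
      cases l₂ with
      | nil =>
        simp at hlast
        exact absurd (hlast ▸ ht) hp
      | cons q l₃ =>
        have hq : q ∈ R := h2 q (by simp)
        have hw1 : IsW D x p (l₁ ++ [p]) := by
          refine ⟨?_, by simp, ?_⟩
          · have := hl.1
            cases l₁ with
            | nil => simpa using this
            | cons a l' => simpa using this
          · intro v hv
            apply hl.2.2 v
            simp at hv ⊢
            tauto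
        have hw2 : IsW R q t (q :: l₃) := by
          refine ⟨rfl, ?_, fun v hv => h2 v hv⟩
          rw [List.getLast?_append_of_ne_nil _ (by simp)] at hlast
          simpa using hlast
        refine (iInf₂_le q hq).trans ?_
        rw [cost_append, cost_cons_cons, ← add_assoc]
        exact add_le_add ((Kn_le (hl.2.2 p (by simp)) hp).trans (add_le_add (T_le hw1) le_rfl)) (T_le hw2)
    · push Not at h
      have hxR : x ∈ R := by
        obtain ⟨l', rfl⟩ := hl.eq_cons
        exact h x (by simp)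
      refine (iInf₂_le x hxR).trans ?_
      rw [Kn_self, zero_add]
      exact T_le ⟨hl.1, hl.2.1, h⟩

/-- Composition of the kernels. -/
theorem Kn_comp {w : W} {D R R' : Set V} (hR : R ⊆ D) (hR' : R' ⊆ R) {x u : V} (hx : x ∈ D) (hu : u ∈ R') :
    Kn w D R' x u = ⨅ (y : V) (_ : y ∈ R), Kn w D R x y + Kn w R R' y u := by
  apply le_antisymm
  · refine le_iInf₂ fun y hy => ?_
    by_cases hyu : y = u
    · subst hyu
      rw [Kn_self, add_zero]
      apply le_Kn
      · rintro rfl; exact Kn_self _ _ _ _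
      · intro p hp hp'
        exact Kn_le hp fun h => hp' (hR' h)
    · conv_rhs => rw [Kn, Kn]
      rw [if_neg hyu, min_eq_right le_top, ← Kn, ENNReal.add_iInf]
      refine le_iInf fun p => ?_
      rw [ENNReal.add_iInf]
      refine le_iInf fun hp => ?_
      refine (Kn_le (hR hp.1) hp.2).trans ?_
      rw [← add_assoc]
      refine add_le_add ?_ le_rfl
      exact (T_triangle w D x y p).trans (add_le_add (T_le_Kn hx (hR hy)) (T_mono hR y p))
  · apply le_Kn
    · rintro rfl
      refine le_antisymm ((iInf₂_le x (hR' hu)).trans ?_) zero_le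
      rw [Kn_self, Kn_self, add_zero]
    · intro p hp hp'
      by_cases hpR : p ∈ R
      · rw [T_eq_Kn hR hx hpR, ENNReal.iInf_add]
        refine le_iInf fun y => ?_
        rw [ENNReal.iInf_add]
        refine le_iInf fun hy => ?_
        refine (iInf₂_le y hy).trans ?_
        rw [add_assoc]
        exact add_le_add le_rfl (Kn_le hpR hp')
      · refine (iInf₂_le u (hR' hu)).trans ?_
        rw [Kn_self, add_zero]
        exact Kn_le hp hpR

theorem Kn_anti {w : W} {D R D' R' : Set V} (hD : D' ⊆ D) (hR : ∀ p ∈ D', p ∉ R' → p ∉ R) (x y : V) :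
    Kn w D R x y ≤ Kn w D' R' x y := by
  apply le_Kn
  · rintro rfl; exact Kn_self _ _ _ _
  · intro p hp hp'
    exact (Kn_le (hD hp) (hR p hp hp')).trans (add_le_add (T_mono hD x p) le_rfl)

/-! ### environments -/

/-- Left of a curve (including the curve). -/
def lft (σ : ℤ) (d : ℤ → ℤ) : Set V := {x | x.1 ≤ d (ix σ x)}

/-- Determinant. -/
def det (u v : V) : ℤ := u.1 * v.2 - u.2 * v.1

/-- The vertical direction of the system: line `0`, index `1 + σ`. -/
def vert (σ : ℤ) : V := (-σ, 1)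

/-- Above the wall in the direction `u` through `-L * vert σ`. -/
def Wlo (σ : ℤ) (u : V) (L : ℤ) : Set V := {v | -(L * ln σ u) ≤ det u v}

/-- Below the wall in the direction `u` through `L * vert σ`. -/
def Wup (σ : ℤ) (u : V) (L : ℤ) : Set V := {v | det u v ≤ L * ln σ u}

/-- Targets on the lower wall. -/
def tlo (σ : ℤ) (u : V) (L m : ℤ) : V := (m * u.1 + σ * L, m * u.2 - L)

/-- Targets on the upper wall. -/
def tup (σ : ℤ) (u : V) (L m : ℤ) : V := (m * u.1 - σ * L, m * u.2 + L)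

theorem det_tlo (σ : ℤ) (u : V) (L m : ℤ) : det u (tlo σ u L m) = -(L * ln σ u) := by
  unfold det tlo ln; simp only; ring

theorem det_tup (σ : ℤ) (u : V) (L m : ℤ) : det u (tup σ u L m) = L * ln σ u := by
  unfold det tup ln; simp only; ring

theorem tlo_mem (σ : ℤ) (u : V) (L m : ℤ) : tlo σ u L m ∈ Wlo σ u L := by
  change -(L * ln σ u) ≤ det u (tlo σ u L m)
  rw [det_tlo]

theorem tup_mem (σ : ℤ) (u : V) (L m : ℤ) : tup σ u L m ∈ Wup σ u L := by
  change det u (tup σ u L m) ≤ L * ln σ u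
  rw [det_tup]

/-- Right boundary of the strips for the line `N`: the curve, moved by one to the right if `σ = 0`. -/
noncomputable def rb (σ : ℤ) (w : W) (K : ℝ≥0∞) (N : ℤ) : ℤ → ℤ := fun i => ck σ w K N i + (1 - σ)

/-- The strip between the lines `k` and `N` is `reg σ (ck σ w K k) ∩ St σ w K N`. -/
noncomputable def St (σ : ℤ) (w : W) (K : ℝ≥0∞) (N : ℤ) : Set V := lft σ (rb σ w K N)

/-- Targets of the strips. -/
noncomputable def wh (σ : ℤ) (w : W) (K : ℝ≥0∞) (N h : ℤ) : V := pt σ (rb σ w K N) h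

/-- Passage time from the `x`-th vertex of the curve `c` to `t` in the environment `E`. -/
noncomputable def TI (w : W) (σ : ℤ) (E : Set V) (c : ℤ → ℤ) (x : ℤ) (t : V) : ℝ≥0∞ :=
  T w (reg σ c ∩ E) (pt σ c x) t

/-- Kernel between two curves in the environment `E`. -/
noncomputable def KI (w : W) (σ : ℤ) (E : Set V) (c c' : ℤ → ℤ) (x u : ℤ) : ℝ≥0∞ :=
  Kn w (reg σ c ∩ E) (reg σ c' ∩ E) (pt σ c x) (pt σ c' u)

/-- Difference of passage times (Busemann increment) from the vertices of the curve `c`. -/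
noncomputable def BI (w : W) (σ : ℤ) (E : Set V) (c : ℤ → ℤ) (t : V) (x y : ℤ) : ℝ :=
  (TI w σ E c x t).toReal - (TI w σ E c y t).toReal

section

variable {σ : ℤ} {w : W} {E : Set V} {c c' c'' : ℤ → ℤ}

/-- The kernel sees only the vertices of the curve. -/
theorem eq_pt_of_Kn (hσ : σ = 0 ∨ σ = 1) (hw : ∀ v, w v 2 = ⊤) (hc' : Stp σ c') (hcc : ∀ i, c i ≤ c' i)
    {x : ℤ} {y : V} (hy : y ∈ reg σ c' ∩ E)
    (h : Kn w (reg σ c ∩ E) (reg σ c' ∩ E) (pt σ c x) y ≠ ⊤) : y = pt σ c' (ix σ y) := by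
  by_contra hne
  apply h
  apply top_le_iff.1
  apply le_Kn
  · intro e
    exfalso
    apply hne
    apply eq_pt
    subst e
    have h1 : c' (ix σ (pt σ c x)) ≤ (pt σ c x).1 := hy.1
    rw [ix_pt] at h1 ⊢
    exact le_antisymm (hcc x) h1
  · intro p hp hp'
    by_contra hlt
    rw [not_le, lt_top_iff_ne_top] at hlt
    have hs : step w p y ≠ ⊤ := fun h' => hlt (by rw [h', add_top])
    have hpc : p ∉ reg σ c' := fun h' => hp' ⟨h', hp.2⟩
    exact hne (entrance hσ hc' (nb_of_step_ne_top hw hs) hpc hy.1)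

/-- Decomposition at the last entrance, in indices. -/
theorem TI_eq (hσ : σ = 0 ∨ σ = 1) (hw : ∀ v, w v 2 = ⊤) (hc' : Stp σ c') (hcc : ∀ i, c i ≤ c' i)
    {x : ℤ} {t : V} (ht : t ∈ reg σ c' ∩ E) (hx : pt σ c x ∈ E) :
    TI w σ E c x t = ⨅ u : ℤ, KI w σ E c c' x u + TI w σ E c' u t := by
  have hsub : reg σ c' ∩ E ⊆ reg σ c ∩ E := Set.inter_subset_inter_left _ (reg_mono hcc)
  unfold TI
  rw [T_eq_Kn hsub ⟨pt_mem σ c x, hx⟩ ht]
  apply le_antisymm
  · refine le_iInf fun u => ?_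
    by_cases hu : pt σ c' u ∈ E
    · exact iInf₂_le (pt σ c' u) ⟨pt_mem _ _ _, hu⟩
    · have : T w (reg σ c' ∩ E) (pt σ c' u) t = ⊤ := T_eq_top_of_left fun h => hu h.2
      rw [this, add_top]
      exact le_top
  · refine le_iInf₂ fun y hy => ?_
    by_cases htop : Kn w (reg σ c ∩ E) (reg σ c' ∩ E) (pt σ c x) y = ⊤
    · rw [htop, top_add]; exact le_top
    · have e := eq_pt_of_Kn hσ hw hc' hcc hy htop
      refine (iInf_le _ (ix σ y)).trans ?_
      unfold KI
      rw [← e]

theorem TI_le (hcc : ∀ i, c i ≤ c' i) {x u : ℤ} {t : V} (hx : pt σ c x ∈ E) :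
    TI w σ E c x t ≤ KI w σ E c c' x u + TI w σ E c' u t := by
  have hsub : reg σ c' ∩ E ⊆ reg σ c ∩ E := Set.inter_subset_inter_left _ (reg_mono hcc)
  by_cases hu : pt σ c' u ∈ E
  · unfold TI KI
    exact (T_triangle w _ _ (pt σ c' u) _).trans (add_le_add
      (T_le_Kn ⟨pt_mem _ _ _, hx⟩ (hsub ⟨pt_mem _ _ _, hu⟩)) (T_mono hsub _ _))
  · have : TI w σ E c' u t = ⊤ := T_eq_top_of_left fun h => hu h.2
    rw [this, add_top]
    exact le_top

/-- Composition of the kernels, in indices. -/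
theorem KI_comp (hσ : σ = 0 ∨ σ = 1) (hw : ∀ v, w v 2 = ⊤) (hc' : Stp σ c') (hcc : ∀ i, c i ≤ c' i)
    (hcc' : ∀ i, c' i ≤ c'' i) {x u : ℤ} (hx : pt σ c x ∈ E) (hu : pt σ c'' u ∈ E)
    (hE : ∀ y, Kn w (reg σ c' ∩ E) (reg σ c'' ∩ E) (pt σ c' y) (pt σ c'' u) ≠ ⊤ → pt σ c' y ∈ E) :
    KI w σ E c c'' x u = ⨅ y : ℤ, KI w σ E c c' x y + KI w σ E c' c'' y u := by
  have hsub : reg σ c' ∩ E ⊆ reg σ c ∩ E := Set.inter_subset_inter_left _ (reg_mono hcc)
  have hsub' : reg σ c'' ∩ E ⊆ reg σ c' ∩ E := Set.inter_subset_inter_left _ (reg_mono hcc')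
  unfold KI
  rw [Kn_comp hsub hsub' ⟨pt_mem σ c x, hx⟩ ⟨pt_mem _ _ _, hu⟩]
  apply le_antisymm
  · refine le_iInf fun y => ?_
    by_cases htop : Kn w (reg σ c' ∩ E) (reg σ c'' ∩ E) (pt σ c' y) (pt σ c'' u) = ⊤
    · rw [htop, add_top]; exact le_top
    · exact iInf₂_le (pt σ c' y) ⟨pt_mem _ _ _, hE y htop⟩
  · refine le_iInf₂ fun y hy => ?_
    by_cases htop : Kn w (reg σ c ∩ E) (reg σ c' ∩ E) (pt σ c x) y = ⊤
    · rw [htop, top_add]; exact le_top
    · have e := eq_pt_of_Kn hσ hw hc' hcc hy htop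
      refine (iInf_le _ (ix σ y)).trans ?_
      rw [← e]

end

end C7
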