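import Pool.Agent.Lib.MP_c725eb_pr.Curve
import Pool.Agent.Lib.MP_c725eb_pr.Region

/-!
# Passage times to far targets through the curve of a line

`lemH`: lower bound of `T v t - T x t` by the entrances into the region of a line.
-/

set_option autoImplicit false

namespace C7

open Set
open scoped ENNReal

section

variable {σ : ℤ} {w : W} {K : ℝ≥0∞} {l : ℤ}

/-- A walk into the region of a line enters it at a vertex of the curve. -/
theorem T_entrance_ge (hσ : σ = 0 ∨ σ = 1) (hw2 : ∀ v, w v 2 = ⊤) (hG : Good σ w K) {v t : V}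
    (hv : v ∉ Rg σ w K l) (ht : t ∈ Rg σ w K l) :
    ⨅ z : ℤ, T w univ v (pk σ w K l z) + T w (Rg σ w K l) (pk σ w K l z) t ≤ T w univ v t := by
  rw [T_eq_Kn (subset_univ (Rg σ w K l)) (mem_univ v) ht]
  refine le_iInf₂ fun y hy => ?_
  by_cases htop : Kn w univ (Rg σ w K l) v y = ⊤
  · rw [htop, top_add]; exact le_top
  · have e : y = pk σ w K l (ix σ y) := by
      by_contra hne
      apply htop
      apply top_le_iff.1
      apply le_Kn
      · rintro rfl
        exact absurd hy hv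
      · intro p _ hp'
        by_contra hlt
        rw [not_le, lt_top_iff_ne_top] at hlt
        have hs : step w p y ≠ ⊤ := fun h' => hlt (by rw [h', add_top])
        exact hne (Rg_entrance hσ hG (nb_of_step_ne_top hw2 hs) hp' hy)
    refine (iInf_le _ (ix σ y)).trans ?_
    rw [← e]
    exact add_le_add (T_le_Kn (mem_univ _) (mem_univ _)) le_rfl

/-- LEMMA H. -/
theorem lemH (hσ : σ = 0 ∨ σ = 1) (hw2 : ∀ v, w v 2 = ⊤) (hG : Good σ w K) {v t : V}
    (hv : v ∉ Rg σ w K l) (ht : t ∈ Rg σ w K l) {x : V} {i : ℤ} {A : ℝ}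
    (hfin : ∀ z, T w (Rg σ w K l) (pk σ w K l z) t ≠ ⊤) (hvt : T w univ v t ≠ ⊤)
    (hxi : T w univ x (pk σ w K l i) ≠ ⊤)
    (h : ∀ z, T w univ v (pk σ w K l z) ≠ ⊤ →
      A ≤ (T w univ v (pk σ w K l z)).toReal + BI w σ univ (ck σ w K l) t z i) :
    A - (T w univ x (pk σ w K l i)).toReal ≤ (T w univ v t).toReal - (T w univ x t).toReal := by
  have hTI : ∀ z, TI w σ univ (ck σ w K l) z t = T w (Rg σ w K l) (pk σ w K l z) t := by
    intro z
    unfold TI
    rw [inter_univ]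
    rfl
  have h1 : (T w univ x t).toReal ≤ (T w univ x (pk σ w K l i)).toReal +
      (T w (Rg σ w K l) (pk σ w K l i) t).toReal := by
    have h2 : T w univ x t ≤ T w univ x (pk σ w K l i) + T w (Rg σ w K l) (pk σ w K l i) t :=
      (T_triangle _ _ _ _ _).trans (add_le_add le_rfl (T_mono (subset_univ _) _ _))
    have h3 := ENNReal.toReal_mono (ENNReal.add_ne_top.2 ⟨hxi, hfin i⟩) h2
    rwa [ENNReal.toReal_add hxi (hfin i)] at h3
  have h4 : ENNReal.ofReal (A + (T w (Rg σ w K l) (pk σ w K l i) t).toReal) ≤ T w univ v t := by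
    refine le_trans (le_iInf fun z => ?_) (T_entrance_ge hσ hw2 hG hv ht)
    by_cases hz : T w univ v (pk σ w K l z) = ⊤
    · rw [hz, top_add]; exact le_top
    · have h5 := h z hz
      unfold BI at h5
      rw [hTI, hTI] at h5
      rw [← ENNReal.ofReal_toReal hz, ← ENNReal.ofReal_toReal (hfin z),
        ← ENNReal.ofReal_add ENNReal.toReal_nonneg ENNReal.toReal_nonneg]
      exact ENNReal.ofReal_le_ofReal (by linarith)
  have h6 : A + (T w (Rg σ w K l) (pk σ w K l i) t).toReal ≤ (T w univ v t).toReal := by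
    rw [← ENNReal.ofReal_toReal hvt] at h4
    exact (ENNReal.ofReal_le_ofReal_iff ENNReal.toReal_nonneg).1 h4
  linarith

/-- Bounds of the increments on the line `l` with the base index `a`: upper bound for all indices,
lower bound for one index. -/
def ZB (σ : ℤ) (K : ℝ≥0∞) (w : W) (l a : ℤ) (ε C : ℝ) (t : V) : Prop :=
  ∀ z : ℤ, BI w σ univ (ck σ w K l) t a z ≤ ε * |((z - a : ℤ) : ℝ)| + C

/-- Linear growth of passage times. -/
def LinB (w : W) (c C : ℝ) (v : V) : Prop :=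
  ∀ x : V, T w univ v x ≠ ⊤ ∧ c * (|((x.1 - v.1 : ℤ) : ℝ)| + |((x.2 - v.2 : ℤ) : ℝ)|) - C ≤ (T w univ v x).toReal

theorem BI_split (w : W) (σ : ℤ) (E : Set V) (c : ℤ → ℤ) (t : V) (a b d : ℤ) :
    BI w σ E c t a d = BI w σ E c t a b + BI w σ E c t b d := by
  unfold BI; ring

/-- The index distance is at most the distance. -/
theorem abs_ix_sub_le (hσ : σ = 0 ∨ σ = 1) (x v : V) :
    |((ix σ x - ix σ v : ℤ) : ℝ)| ≤ |((x.1 - v.1 : ℤ) : ℝ)| + |((x.2 - v.2 : ℤ) : ℝ)| := by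
  have h : |ix σ x - ix σ v| ≤ |x.1 - v.1| + |x.2 - v.2| := by
    have e : ix σ x - ix σ v = (x.2 - v.2) - σ * (x.1 - v.1) := by unfold ix; ring
    rw [e]
    rcases hσ with rfl | rfl
    · simp only [zero_mul, sub_zero]
      linarith [abs_nonneg (x.1 - v.1)]
    · rw [one_mul]
      exact (abs_sub _ _).trans (by linarith)
  exact_mod_cast h

/-- The line distance is at most the distance. -/
theorem ln_sub_le (hσ : σ = 0 ∨ σ = 1) (x v : V) :
    ((ln σ x - ln σ v : ℤ) : ℝ) ≤ |((x.1 - v.1 : ℤ) : ℝ)| + |((x.2 - v.2 : ℤ) : ℝ)| := by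
  have h : ln σ x - ln σ v ≤ |x.1 - v.1| + |x.2 - v.2| := by
    have e : ln σ x - ln σ v = (x.1 - v.1) + σ * (x.2 - v.2) := by unfold ln; ring
    rw [e]
    have h1 := le_abs_self (x.1 - v.1)
    have h2 := le_abs_self (x.2 - v.2)
    rcases hσ with rfl | rfl
    · rw [zero_mul]
      linarith [abs_nonneg (x.2 - v.2)]
    · rw [one_mul]
      linarith
  exact_mod_cast h

/-- Step (B1): along the line. -/
theorem stepB1 (hσ : σ = 0 ∨ σ = 1) (hw2 : ∀ v, w v 2 = ⊤) (hG : Good σ w K) {v t : V}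
    (ht : t ∈ Rg σ w K (ln σ v + 1)) {x : V} {i : ℤ}
    (hfin : ∀ z, T w (Rg σ w K (ln σ v + 1)) (pk σ w K (ln σ v + 1) z) t ≠ ⊤)
    {c ε Cv C : ℝ} (hlin : LinB w c Cv v) (hc : 0 ≤ c) (hεc : ε ≤ c)
    (hzb : ZB σ K w (ln σ v + 1) (ix σ v) ε C t)
    (hlow : -(ε * |((i - ix σ v : ℤ) : ℝ)| + C) ≤ BI w σ univ (ck σ w K (ln σ v + 1)) t (ix σ v) i)
    (hxi : T w univ x (pk σ w K (ln σ v + 1) i) ≠ ⊤) :
    -(ε * |((i - ix σ v : ℤ) : ℝ)|) - 2 * C - Cv - (T w univ x (pk σ w K (ln σ v + 1) i)).toReal ≤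
      (T w univ v t).toReal - (T w univ x t).toReal := by
  have hv : v ∉ Rg σ w K (ln σ v + 1) := fun h => by
    have := le_ln_of_mem hσ hG h
    omega
  refine lemH hσ hw2 hG hv ht hfin (hlin t).1 hxi fun z _ => ?_
  have h1 := (hlin (pk σ w K (ln σ v + 1) z)).2
  have h2 := hzb z
  have h3 := BI_split w σ univ (ck σ w K (ln σ v + 1)) t z (ix σ v) i
  have h4 : BI w σ univ (ck σ w K (ln σ v + 1)) t z (ix σ v) =
      -BI w σ univ (ck σ w K (ln σ v + 1)) t (ix σ v) z := by unfold BI; ring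
  have h5 := abs_ix_sub_le hσ (pk σ w K (ln σ v + 1) z) v
  rw [ix_pk] at h5
  have h6 : ε * |((z - ix σ v : ℤ) : ℝ)| ≤ c * |((z - ix σ v : ℤ) : ℝ)| :=
    mul_le_mul_of_nonneg_right hεc (abs_nonneg _)
  have h7 := mul_le_mul_of_nonneg_left h5 hc
  linarith

/-- Step (B2): across the lines. -/
theorem stepB2 (hσ : σ = 0 ∨ σ = 1) (hw2 : ∀ v, w v 2 = ⊤) (hG : Good σ w K) {v t : V}
    (hvl : ln σ v < l) (ht : t ∈ Rg σ w K l) {x : V}
    (hfin : ∀ z, T w (Rg σ w K l) (pk σ w K l z) t ≠ ⊤)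
    {c ε Cv C : ℝ} (hlin : LinB w c Cv v) (hc : 0 ≤ c) (hεc : 2 * ε ≤ c)
    (hzb : ZB σ K w l (ix σ v) ε C t) (hxi : T w univ x (pk σ w K l (ix σ v)) ≠ ⊤) :
    c / 2 * ((l - ln σ v : ℤ) : ℝ) - C - Cv - (T w univ x (pk σ w K l (ix σ v))).toReal ≤
      (T w univ v t).toReal - (T w univ x t).toReal := by
  have hv : v ∉ Rg σ w K l := fun h => by
    have := le_ln_of_mem hσ hG h
    omega
  refine lemH hσ hw2 hG hv ht hfin (hlin t).1 hxi fun z _ => ?_
  have h1 := (hlin (pk σ w K l z)).2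
  have h2 := hzb z
  have h4 : BI w σ univ (ck σ w K l) t z (ix σ v) =
      -BI w σ univ (ck σ w K l) t (ix σ v) z := by unfold BI; ring
  have h5 := abs_ix_sub_le hσ (pk σ w K l z) v
  rw [ix_pk] at h5
  have h6 := ln_sub_le hσ (pk σ w K l z) v
  have h7 : ((l - ln σ v : ℤ) : ℝ) ≤ ((ln σ (pk σ w K l z) - ln σ v : ℤ) : ℝ) := by
    have := le_ln_pk hσ hG l z
    exact_mod_cast (by omega : l - ln σ v ≤ ln σ (pk σ w K l z) - ln σ v)
  have h8 : 2 * ε * |((z - ix σ v : ℤ) : ℝ)| ≤ c * |((z - ix σ v : ℤ) : ℝ)| :=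
    mul_le_mul_of_nonneg_right hεc (abs_nonneg _)
  have h9 := mul_le_mul_of_nonneg_left h5 hc
  have h10 := mul_le_mul_of_nonneg_left (h7.trans h6) hc
  linarith

end

end C7
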