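import Pool.Agent.Lib.MP_c725eb_pr.DTwo
import Pool.Agent.Lib.MP_c725eb_pr.LemH
import Pool.Agent.Lib.MP_c725eb_pr.Drift
import Pool.Agent.Lib.MP_c725eb_pr.DomX
import Pool.Agent.Lib.MP_c725eb_pr.GShift
import Pool.Agent.Lib.MP_c725eb_pr.Lin
import Pool.Agent.Lib.MP_c725eb_pr.Flow
import Pool.Agent.Lib.MP_c725eb_pr.ClsVal

/-!
# No escape of both rays of a geodesic
-/

set_option autoImplicit false

namespace C7

open MeasureTheory Filter Set
open scoped ENNReal Topology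

/-! ### geometry -/

/-- The cone around the direction `(1, 1)`. -/
def Cn (t : V) : Prop := 2 * t.1 ≤ 3 * t.2 ∧ 2 * t.2 ≤ 3 * t.1

section geo

variable {w : W} {K : ℝ≥0∞}

theorem fluct_line {σ : ℤ} (hσ : σ = 0 ∨ σ = 1) (hG : Good σ w K) (hfl : Fluct σ K w) (l : ℤ) {q : ℤ} (hq : 0 < q) :
    ∃ C : ℤ, ∀ i : ℤ, q * ln σ (pk σ w K l i) ≤ |i| + C := by
  obtain ⟨n0, hn0, h⟩ := hfl.int hq
  refine ⟨(q + 1) * max n0 l, fun i => ?_⟩
  have h1 := h (max n0 l) (le_max_left _ _) i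
  have h2 := ck_le hσ hG (le_max_right n0 l) i
  have h3 : ln σ (pk σ w K l i) ≤ ln σ (pk σ w K (max n0 l) i) := by
    rw [ln_pk_eq, ln_pk_eq]
    rcases hσ with rfl | rfl
    · simpa using h2
    · simp only [one_mul]; omega
  have h4 : q * ln σ (pk σ w K l i) ≤ q * ln σ (pk σ w K (max n0 l) i) := mul_le_mul_of_nonneg_left h3 hq.le
  nlinarith

/-- The mirror images of the vertices of the curve with very negative index are in the cone, far away. -/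
theorem esc_cone (hG : Good 1 w K) (hfl : Fluct 1 K w) (l N : ℤ) :
    ∃ M : ℤ, ∀ i ≤ -M, Cn (rf 0 (pk 1 w K l i)) ∧ N ≤ (rf 0 (pk 1 w K l i)).1 := by
  obtain ⟨C, hC⟩ := fluct_line (Or.inr rfl) hG hfl l (q := 10) (by norm_num)
  refine ⟨|C| + 5 * |l| + 2 * |N|, fun i hi => ?_⟩
  have h1 := hC i
  have h2 := le_ln_pk (Or.inr rfl) hG l i
  have e : pk 1 w K l i = (ck 1 w K l i, 1 * ck 1 w K l i + i) := rfl
  rw [ln_pk_eq] at h1 h2
  rw [e, rf_zero]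
  unfold Cn
  simp only [one_mul] at *
  have a1 := abs_nonneg C
  have a2 := abs_nonneg l
  have a3 := abs_nonneg N
  have a4 := le_abs_self C
  have a5 := neg_abs_le l
  have a6 := le_abs_self N
  rw [abs_of_nonpos (by omega : i ≤ 0)] at h1
  omega

/-- Far vertices of the cone are in the regions. -/
theorem cn_mem_Rg (hG : Good 1 w K) (hfl : Fluct 1 K w) (l : ℤ) :
    ∃ N : ℤ, ∀ t : V, Cn t → N ≤ t.1 → t ∈ Rg 1 w K l := by
  obtain ⟨C, hC⟩ := fluct_line (Or.inr rfl) hG hfl l (q := 10) (by norm_num)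
  refine ⟨|C|, fun t ht hN => ?_⟩
  change ck 1 w K l (ix 1 t) ≤ t.1
  have h1 := hC (ix 1 t)
  rw [ln_pk_eq] at h1
  obtain ⟨h2, h3⟩ := ht
  have a1 := abs_nonneg C
  have a4 := le_abs_self C
  have h4 : |ix 1 t| ≤ t.1 := by
    unfold ix
    rw [abs_le]
    constructor <;> omega
  unfold ix at *
  simp only [one_mul] at *
  omega

theorem Cb.fin_Rg (h : Cb 1 K w) (l z : ℤ) {t : V} (ht : t ∈ Rg 1 w K l) :
    T w (Rg 1 w K l) (pk 1 w K l z) t ≠ ⊤ := by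
  have h1 := TI_univ_ne_top h.hσ (ck_stp h.hσ h.good l) (pk_open h.good l) h.hK h.fin z ht
  unfold TI at h1
  rw [inter_univ] at h1
  exact h1

end geo

/-! ### from the dominations to the bounds -/

section zb

variable {σ : ℤ} {w : W} {K : ℝ≥0∞} {l a : ℤ} {t : V} {ε C : ℝ}

/-- Sums of increments. -/
theorem BI_tpot (t : V) (i j : ℤ) : BI w σ univ (ck σ w K l) t i j =
    pot (fun k => BI w σ univ (ck σ w K l) t k (k + 1)) i - pot (fun k => BI w σ univ (ck σ w K l) t k (k + 1)) j := by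
  have h : ∀ i, (TI w σ univ (ck σ w K l) i t).toReal - (TI w σ univ (ck σ w K l) (i + 1) t).toReal =
      BI w σ univ (ck σ w K l) t i (i + 1) := fun i => rfl
  have h1 := pot_unique h i
  have h2 := pot_unique h j
  have h3 : BI w σ univ (ck σ w K l) t i j =
      (TI w σ univ (ck σ w K l) i t).toReal - (TI w σ univ (ck σ w K l) j t).toReal := rfl
  rw [h3]
  linarith

theorem zb_of_drift {fH fL : ℤ → ℝ} (hH : DrE fH a 1 ε C) (hL : DrE fL a (-1) ε C)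
    (dH : ∀ j, a ≤ j → BI w σ univ (ck σ w K l) t j (j + 1) ≤ fH j)
    (dL : ∀ j, j ≤ a → fL j ≤ BI w σ univ (ck σ w K l) t j (j + 1)) : ZB σ K w l a ε C t := by
  intro z
  rw [BI_tpot]
  rcases le_total a z with h | h
  · have h1 := hH z (by linarith)
    have h2 := pot_le_of_le h (fun i h1 _ => dH i h1)
    linarith
  · have h1 := hL z (by linarith)
    have h2 := pot_le_of_le h (fun i _ h2 => dL i h2.le)
    linarith

theorem low_of_drift {fL : ℤ → ℝ} {i : ℤ} (hi : a ≤ i) (hL : DrE (fun j => -fL j) a 1 ε C)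
    (dL : ∀ j, j ≤ i → fL j ≤ BI w σ univ (ck σ w K l) t j (j + 1)) :
    -(ε * |((i - a : ℤ) : ℝ)| + C) ≤ BI w σ univ (ck σ w K l) t a i := by
  rw [BI_tpot]
  have h1 := hL i (by linarith)
  rw [pot_neg, pot_neg] at h1
  have h2 := pot_le_of_le hi (fun j _ h2 => dL j h2.le)
  linarith

end zb

/-! ### the two rays -/

section rays

variable {w : W}

theorem ray_ge (hfin : ∀ x y, T w univ x y ≠ ⊤) {v p t : V}
    (h : T w univ v p + T w univ p t = T w univ v t) (x : V) :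
    (T w univ v p).toReal - (T w univ x p).toReal ≤ (T w univ v t).toReal - (T w univ x t).toReal := by
  have h1 := ENNReal.toReal_mono (ENNReal.add_ne_top.2 ⟨hfin x p, hfin p t⟩) (T_triangle w univ x p t)
  rw [ENNReal.toReal_add (hfin x p) (hfin p t)] at h1
  have h2 := congrArg ENNReal.toReal h
  rw [ENNReal.toReal_add (hfin v p) (hfin p t)] at h2
  linarith

theorem two_rays_le (hfin : ∀ x y, T w univ x y ≠ ⊤) {v p q a b : V}
    (hg : T w univ a v + T w univ v b = T w univ a b)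
    (hp : T w univ v p + T w univ p b = T w univ v b)
    (hq : T w univ v q + T w univ q a = T w univ v a) (x : V) :
    ((T w univ v p).toReal - (T w univ x p).toReal) + ((T w univ v q).toReal - (T w univ x q).toReal) ≤ 0 := by
  have h1 := ray_ge hfin hp x
  have h2 := ray_ge hfin hq x
  have h3 := ENNReal.toReal_mono (ENNReal.add_ne_top.2 ⟨hfin a x, hfin x b⟩) (T_triangle w univ a x b)
  rw [ENNReal.toReal_add (hfin a x) (hfin x b)] at h3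
  have h4 := congrArg ENNReal.toReal hg
  rw [ENNReal.toReal_add (hfin a v) (hfin v b)] at h4
  rw [T_comm w univ a v] at h4
  rw [T_comm w univ a x] at h3
  linarith

theorem rn_rx (q : V) : rn (rx q) = rf 0 q := by
  rw [rf_zero]
  unfold rn rx
  simp

end rays

/-! ### probability -/

section prob

/-- Domination by the upper functional, for all far targets of the cone. -/
def DomH (K : ℝ≥0∞) (g : ℤ → W → ℝ) (w : W) : Prop := ∀ l a : ℤ, ∃ N : ℤ, ∀ t : V, Cn t → N ≤ t.1 →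
  ∀ j, a ≤ j → BI w 1 univ (ck 1 w K l) t j (j + 1) ≤ mv 1 g l j w

/-- Domination by the lower functional, for all far targets of the cone. -/
def DomL (K : ℝ≥0∞) (g : ℤ → W → ℝ) (w : W) : Prop := ∀ l a : ℤ, ∃ N : ℤ, ∀ t : V, Cn t → N ≤ t.1 →
  ∀ j, j ≤ a → mv 1 g l j w ≤ BI w 1 univ (ck 1 w K l) t j (j + 1)

variable {F : Measure ℝ} [IsProbabilityMeasure F] {K : ℝ≥0∞}

/-- The event with constant `B` at the vertex `v`. -/
def EvA (K : ℝ≥0∞) (gH gL : ℤ → W → ℝ) (ε : ℝ) (v : V) (B : ℕ) : Set Om :=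
  {ω | (T (wt ω) univ v (pk 1 (wt ω) K (ln 1 v + 1) (ix 1 v)) ≤ B ∧
    DrE (fun i => mv 1 gH (ln 1 v + 1) i (wt ω)) (ix 1 v) 1 ε B) ∧
    DrE (fun i => mv 1 gL (ln 1 v + 1) i (wt ω)) (ix 1 v) (-1) ε B}

theorem EvA_mono (K : ℝ≥0∞) (gH gL : ℤ → W → ℝ) (ε : ℝ) (v : V) : Monotone (EvA K gH gL ε v) := by
  rintro B B' h ω ⟨⟨h1, h2⟩, h3⟩
  have h4 : (B : ℝ) ≤ B' := by exact_mod_cast h
  exact ⟨⟨h1.trans (by exact_mod_cast h), h2.mono h4⟩, h3.mono h4⟩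

theorem measurableSet_EvA {gH gL : ℤ → W → ℝ} {MH ML : ℝ} (hgH : Adm gH MH) (hgL : Adm gL ML) (ε : ℝ) (v : V)
    (B : ℕ) : MeasurableSet (EvA K gH gL ε v B) := by
  refine (MeasurableSet.inter ?_ (measurableSet_drE hgH _ _ _ _ _)).inter (measurableSet_drE hgL _ _ _ _ _)
  exact measurableSet_le (measurable_T measurable_wt3 (fun _ => MeasurableSet.univ) measurable_const
    (measurable_pk_wt 1 K _ _)) measurable_const

theorem ae_EvA {gH gL : ℤ → W → ℝ} {MH ML : ℝ} (hgH : Adm gH MH) (hgL : Adm gL ML) {c : ℝ}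
    (hH : EV 1 F gH < c) (hL : -EV 1 F gL < c) :
    ∀ᵐ ω ∂(iid Ed F), ∀ v, ∃ B, ω ∈ EvA K gH gL (c / 2) v B := by
  have e2 : (1 : ℝ) + ((1 : ℤ) : ℝ) = 2 := by norm_num
  have h1 := ae_drift (F := F) (Or.inr rfl) hgH (s := 1) (Or.inl rfl) (c := c) (by simpa using hH)
  have h2 := ae_drift (F := F) (Or.inr rfl) hgL (s := -1) (Or.inr rfl) (c := c) (by simpa using hL)
  rw [e2] at h1 h2
  filter_upwards [h1, h2] with ω h3 h4 v
  obtain ⟨C1, hC1⟩ := h3 (ln 1 v + 1) (ix 1 v)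
  obtain ⟨C2, hC2⟩ := h4 (ln 1 v + 1) (ix 1 v)
  obtain ⟨C3, hC3⟩ := exists_nat_ge (T (wt ω) univ v (pk 1 (wt ω) K (ln 1 v + 1) (ix 1 v))).toReal
  have hfin : T (wt ω) univ v (pk 1 (wt ω) K (ln 1 v + 1) (ix 1 v)) ≠ ⊤ := T_univ_ne_top (wt_ne_top ω) _ _
  refine ⟨max C3 (max C1 C2), ⟨?_, hC1.mono ?_⟩, hC2.mono ?_⟩
  · rw [← ENNReal.ofReal_toReal hfin, ← ENNReal.ofReal_natCast]
    refine ENNReal.ofReal_le_ofReal (hC3.trans ?_)
    exact_mod_cast le_max_left _ _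
  · exact_mod_cast (le_max_left C1 C2).trans (le_max_right _ _)
  · exact_mod_cast (le_max_right C1 C2).trans (le_max_right _ _)

/-- Linear bounds in real form. -/
theorem ae_linB (hF : ∀ a, F {a} = 0) (hF0 : F (Iio 0) = 0) : ∃ c : ℝ, 0 < c ∧
    ∀ᵐ ω ∂(iid Ed F), ∀ v : V, ∃ C : ℝ, LinB (wt ω) c C v := by
  obtain ⟨c, hc, h⟩ := ae_T_linear hF hF0
  refine ⟨c, hc, ?_⟩
  filter_upwards [h] with ω hω v
  obtain ⟨C, hC, h1⟩ := hω v
  refine ⟨C, fun x => ⟨T_univ_ne_top (wt_ne_top ω) _ _, ?_⟩⟩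
  have h2 := h1 univ x
  rw [← ENNReal.ofReal_toReal (T_univ_ne_top (wt_ne_top ω) v x)] at h2
  by_cases h3 : 0 ≤ c * (|((x.1 - v.1 : ℤ) : ℝ)| + |((x.2 - v.2 : ℤ) : ℝ)|) - C
  · exact (ENNReal.ofReal_le_ofReal_iff ENNReal.toReal_nonneg).1 h2
  · exact (not_le.1 h3).le.trans ENNReal.toReal_nonneg

theorem T_gO {g g' : V → V} (hg : Aut g g') (ω : Om) (x y : V) :
    T (wt (gO g ω)) univ (g' x) (g' y) = T (wt ω) univ x y := by
  rw [wt_gO hg, T_gw_univ hg (wt_two ω), hg.right_inv, hg.right_inv]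

theorem Cb_wt (hK : K ≠ ⊤) {σ : ℤ} (hσ : σ = 0 ∨ σ = 1) {ω : Om} (hG : Good σ (wt ω) K) : Cb σ K (wt ω) :=
  ⟨hσ, hK, wt_two ω, hG, wt_ne_top ω⟩

/-- One direction: the bound of (B1) for a configuration. -/
theorem boundB1 {ω : Om} (hCb : Cb 1 K (wt ω)) (hfl : Fluct 1 K (wt ω)) {gH gL : ℤ → W → ℝ}
    (hH : DomH K gH (wt ω)) (hL : DomL K gL (wt ω)) {c ε Cv C1 : ℝ} {v : V} (hlin : LinB (wt ω) c Cv v)
    (hc : 0 ≤ c) (hε : ε ≤ c)
    (d1 : DrE (fun i => mv 1 gH (ln 1 v + 1) i (wt ω)) (ix 1 v) 1 ε C1)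
    (d2 : DrE (fun i => mv 1 gL (ln 1 v + 1) i (wt ω)) (ix 1 v) (-1) ε C1)
    (d3 : DrE (fun i => -mv 1 gL (ln 1 v + 1) i (wt ω)) (ix 1 v) 1 ε C1) (m : ℕ) :
    ∃ N : ℤ, ∀ t, Cn t → N ≤ t.1 → ∀ x : V,
      -(ε * (2 * m)) - 2 * C1 - Cv - (T (wt ω) univ x (pk 1 (wt ω) K (ln 1 v + 1) (ix 1 v + 2 * m))).toReal ≤
        (T (wt ω) univ v t).toReal - (T (wt ω) univ x t).toReal := by
  obtain ⟨N1, hN1⟩ := hH (ln 1 v + 1) (ix 1 v)
  obtain ⟨N2, hN2⟩ := hL (ln 1 v + 1) (ix 1 v + 2 * m)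
  obtain ⟨N3, hN3⟩ := cn_mem_Rg hCb.good hfl (ln 1 v + 1)
  refine ⟨max N1 (max N2 N3), fun t ht hN x => ?_⟩
  have ht3 := hN3 t ht ((le_max_right _ _).trans ((le_max_right _ _).trans hN))
  have e : |((ix 1 v + 2 * m - ix 1 v : ℤ) : ℝ)| = 2 * m := by
    have : (ix 1 v + 2 * m - ix 1 v : ℤ) = 2 * m := by ring
    rw [this]
    push_cast
    exact abs_of_nonneg (by positivity)
  have key := stepB1 (t := t) (x := x) (i := ix 1 v + 2 * m) (Or.inr rfl) (wt_two ω) hCb.good ht3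
    (fun z => hCb.fin_Rg _ z ht3) hlin hc hε
    (zb_of_drift d1 d2 (fun j hj => hN1 t ht ((le_max_left _ _).trans hN) j hj)
      (fun j hj => hN2 t ht ((le_max_left _ _).trans ((le_max_right _ _).trans hN)) j (by
        have : (0 : ℤ) ≤ m := Int.natCast_nonneg m
        omega)))
    (low_of_drift (by
        have : (0 : ℤ) ≤ m := Int.natCast_nonneg m
        omega) d3
      (fun j hj => hN2 t ht ((le_max_left _ _).trans ((le_max_right _ _).trans hN)) j hj))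
    (T_univ_ne_top (wt_ne_top ω) _ _)
  rw [e] at key
  exact key

/-- The other direction: the bound of (B2) for a configuration. -/
theorem boundB2 {ω : Om} (hCb : Cb 1 K (wt ω)) (hfl : Fluct 1 K (wt ω)) {gH gL : ℤ → W → ℝ}
    (hH : DomH K gH (wt ω)) (hL : DomL K gL (wt ω)) {c ε Cv C2 : ℝ} {v : V} (hlin : LinB (wt ω) c Cv v)
    (hc : 0 ≤ c) (hε : 2 * ε ≤ c) {l : ℤ} (hl : ln 1 v < l)
    (d1 : DrE (fun i => mv 1 gH l i (wt ω)) (ix 1 v) 1 ε C2)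
    (d2 : DrE (fun i => mv 1 gL l i (wt ω)) (ix 1 v) (-1) ε C2) :
    ∃ N : ℤ, ∀ t, Cn t → N ≤ t.1 → ∀ x : V,
      c / 2 * ((l - ln 1 v : ℤ) : ℝ) - C2 - Cv - (T (wt ω) univ x (pk 1 (wt ω) K l (ix 1 v))).toReal ≤
        (T (wt ω) univ v t).toReal - (T (wt ω) univ x t).toReal := by
  obtain ⟨N1, hN1⟩ := hH l (ix 1 v)
  obtain ⟨N2, hN2⟩ := hL l (ix 1 v)
  obtain ⟨N3, hN3⟩ := cn_mem_Rg hCb.good hfl l
  refine ⟨max N1 (max N2 N3), fun t ht hN x => ?_⟩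
  have ht3 := hN3 t ht ((le_max_right _ _).trans ((le_max_right _ _).trans hN))
  exact stepB2 (t := t) (x := x) (Or.inr rfl) (wt_two ω) hCb.good hl ht3
    (fun z => hCb.fin_Rg _ z ht3) hlin hc hε
    (zb_of_drift d1 d2 (fun j hj => hN1 t ht ((le_max_left _ _).trans hN) j hj)
      (fun j hj => hN2 t ht ((le_max_left _ _).trans ((le_max_right _ _).trans hN)) j hj))
    (T_univ_ne_top (wt_ne_top ω) _ _)

/-- **The two rays of a geodesic do not both escape.** -/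
theorem ae_no_two_esc (hK : SmallK F K) {c : ℝ} (hc : 0 < c)
    (hlin : ∀ᵐ ω ∂(iid Ed F), ∀ v : V, ∃ C : ℝ, LinB (wt ω) c C v)
    {gH gL : ℤ → W → ℝ} {MH ML : ℝ} (hgH : Adm gH MH) (hgL : Adm gL ML)
    (hEH : EV 1 F gH < c / 2) (hEL : -EV 1 F gL < c / 2)
    (hDH : ∀ᵐ ω ∂(iid Ed F), DomH K gH (wt ω)) (hDL : ∀ᵐ ω ∂(iid Ed F), DomL K gL (wt ω)) :
    ∀ᵐ ω ∂(iid Ed F), ∀ (v : V) (𝓤 : Filter ℕ), 𝓤.NeBot → OnG (wt ω) v 𝓤 → Esc K (wt ω) v 𝓤 →
      ¬ Esc K (wt (gO rx ω)) (rx v) 𝓤 := by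
  have aF : Aut (rf 0) (rf 0) := aut_rf (Or.inl rfl)
  -- the good configurations
  set Gd : Om → Prop := fun ω => Good 1 (wt ω) K ∧ Fluct 1 K (wt ω) with hGd
  have hgd : ∀ᵐ ω ∂(iid Ed F), Gd ω := by
    filter_upwards [ae_good_wt hK (Or.inr rfl), ae_fluct hK (Or.inr rfl)] with ω h1 h2
    exact ⟨h1, h2⟩
  have e2 : (1 : ℝ) + ((1 : ℤ) : ℝ) = 2 := by norm_num
  have hdr := ae_drift (F := F) (σ := 1) (Or.inr rfl) hgL.neg (s := 1) (Or.inl rfl) (c := c / 2)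
    (by rw [EV_neg]; simpa using hEL)
  rw [e2] at hdr
  set Fu : Om → Prop := fun ω => Gd ω ∧ (∀ v : V, ∃ C : ℝ, LinB (wt ω) c C v) ∧ DomH K gH (wt ω) ∧
    DomL K gL (wt ω) ∧ (∀ l a : ℤ, ∃ C : ℕ, DrE (fun i => -mv 1 gL l i (wt ω)) a 1 (c / 2 / 2) C) ∧
    (∀ v, ∃ B, ω ∈ EvA K gH gL (c / 2 / 2) v B) with hFu
  have hfu : ∀ᵐ ω ∂(iid Ed F), Fu ω := by
    filter_upwards [hgd, hlin, hDH, hDL, hdr, ae_EvA hgH hgL hEH hEL] with ω h1 h2 h3 h4 h5 h6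
    exact ⟨h1, h2, h3, h4, h5, h6⟩
  have m1 := (measurePreserving_gO F aF).quasiMeasurePreserving.ae hfu
  have m2 := (measurePreserving_gO F aut_rn).quasiMeasurePreserving.ae hfu
  have m3 := (measurePreserving_gO F aut_rx).quasiMeasurePreserving.ae hgd
  -- the events which occur infinitely often
  set f : ℕ → ℕ := fun m => ⌊c / 16 * m⌋₊ with hf
  have hft : Tendsto f atTop atTop :=
    tendsto_nat_floor_atTop.comp (tendsto_natCast_atTop_atTop.const_mul_atTop (by positivity))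
  have hfreq : ∀ᵐ ω ∂(iid Ed F), ∀ v : V, ∃ᶠ m : ℕ in atTop,
      shO (-(m : ℤ), (m : ℤ)) (gO (rf 0) ω) ∈ EvA K gH gL (c / 2 / 2) (rf 0 v) (f m) ∧
      shO ((m : ℤ), (m : ℤ)) (gO rn ω) ∈ EvA K gH gL (c / 2 / 2) (rn v) (f m) := by
    rw [ae_all_iff]
    intro v
    have t1 := tendsto_bad (P := iid Ed F) (EvA_mono K gH gL (c / 2 / 2) (rf 0 v))
      (measurableSet_EvA hgH hgL _ _) ((ae_EvA hgH hgL hEH hEL).mono fun ω h => h _)
      (θ := fun m => shO (-(m : ℤ), (m : ℤ)) ∘ gO (rf 0))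
      (fun m => (measurePreserving_shO F _).comp (measurePreserving_gO F aF)) hft
    have t2 := tendsto_bad (P := iid Ed F) (EvA_mono K gH gL (c / 2 / 2) (rn v))
      (measurableSet_EvA hgH hgL _ _) ((ae_EvA hgH hgL hEH hEL).mono fun ω h => h _)
      (θ := fun m => shO ((m : ℤ), (m : ℤ)) ∘ gO rn)
      (fun m => (measurePreserving_shO F _).comp (measurePreserving_gO F aut_rn)) hft
    have t3 := t1.add t2
    rw [add_zero] at t3
    have t4 := tendsto_of_tendsto_of_tendsto_of_le_of_le tendsto_const_nhds t3 (fun _ => zero_le)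
      (fun m => measure_union_le ((shO (-(m : ℤ), (m : ℤ)) ∘ gO (rf 0)) ⁻¹'
        (EvA K gH gL (c / 2 / 2) (rf 0 v) (f m))ᶜ) ((shO ((m : ℤ), (m : ℤ)) ∘ gO rn) ⁻¹'
        (EvA K gH gL (c / 2 / 2) (rn v) (f m))ᶜ))
    filter_upwards [ae_frequently_of_tendsto t4] with ω hω
    refine hω.mono fun m hm => ?_
    simp only [mem_union, mem_preimage, mem_compl_iff, not_or, not_not, Function.comp_apply] at hm
    exact hm
  filter_upwards [hgd, m1, m2, m3, hfreq] with ω g0 g1 g2 g3 hfr v 𝓤 hne hgeo hesc hesc'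
  obtain ⟨gg1, lin1, H1, L1, dr1, ev1⟩ := g1
  obtain ⟨gg2, lin2, H2, L2, dr2, ev2⟩ := g2
  obtain ⟨Cv1, hCv1⟩ := lin1 (rf 0 v)
  obtain ⟨Cv2, hCv2⟩ := lin2 (rn v)
  obtain ⟨Ca, hCa⟩ := dr1 (ln 1 (rf 0 v) + 1) (ix 1 (rf 0 v))
  obtain ⟨Cb', hCb'⟩ := ev1 (rf 0 v)
  -- the number `m`
  have hcb1 := Cb_wt (K := K) hK.1 (Or.inr rfl) gg1.1
  have hcb2 := Cb_wt (K := K) hK.1 (Or.inr rfl) gg2.1
  set C1 : ℝ := max (Ca : ℝ) Cb' with hC1
  obtain ⟨m0, hm0⟩ := exists_nat_gt ((2 * C1 + Cv1 + Cv2) / (c * (5 / 16)))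
  obtain ⟨m, ⟨hE1, hE2⟩, hm⟩ := ((hfr v).and_eventually (eventually_ge_atTop m0)).exists
  have hmbig : 2 * C1 + Cv1 + Cv2 < c * (5 / 16) * m := by
    rw [div_lt_iff₀ (by positivity)] at hm0
    have h1 : (m0 : ℝ) ≤ m := by exact_mod_cast hm
    have h2 := mul_le_mul_of_nonneg_left h1 (by positivity : 0 ≤ c * (5 / 16))
    linarith
  have hfm : (f m : ℝ) ≤ c / 16 * m := Nat.floor_le (by positivity)
  set x : V := (v.1 - m, v.2 - m) with hx
  have hx1 : rf 0 x = tr (-(m : ℤ), (m : ℤ)) (rf 0 v) := by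
    rw [rf_zero, rf_zero]
    unfold tr
    simp only [hx, Prod.mk.injEq]
    constructor <;> ring
  have hx2 : rn x = tr ((m : ℤ), (m : ℤ)) (rn v) := by
    unfold tr rn
    simp only [hx, Prod.mk.injEq]
    constructor <;> ring
  have l1 : ln 1 ((-(m : ℤ), (m : ℤ)) : V) = 0 := by unfold ln; ring
  have i1 : ix 1 ((-(m : ℤ), (m : ℤ)) : V) = 2 * m := by unfold ix; ring
  have l2 : ln 1 (((m : ℤ), (m : ℤ)) : V) = 2 * m := by unfold ln; ring
  have i2 : ix 1 (((m : ℤ), (m : ℤ)) : V) = 0 := by unfold ix; ring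
  -- the passage times to the curves
  have hX : (T (wt (gO (rf 0) ω)) univ (rf 0 x)
      (pk 1 (wt (gO (rf 0) ω)) K (ln 1 (rf 0 v) + 1) (ix 1 (rf 0 v) + 2 * m))).toReal ≤ f m := by
    have h1 := hE1.1.1
    rw [T_shO, image_tr_univ, pk_shO (Or.inr rfl), l1, i1, add_zero, ← hx1] at h1
    have h2 := ENNReal.toReal_mono (ENNReal.natCast_ne_top _) h1
    simpa using h2
  have hY : (T (wt (gO rn ω)) univ (rn x)
      (pk 1 (wt (gO rn ω)) K (ln 1 (rn v) + 1 + 2 * m) (ix 1 (rn v)))).toReal ≤ f m := by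
    have h1 := hE2.1.1
    rw [T_shO, image_tr_univ, pk_shO (Or.inr rfl), l2, i2, add_zero, ← hx2] at h1
    have h2 := ENNReal.toReal_mono (ENNReal.natCast_ne_top _) h1
    simpa using h2
  have hD1 := (drE_shO (σ := 1) (Or.inr rfl) (g := gH) i2 _ _ _ _ _ _).1 hE2.1.2
  have hD2 := (drE_shO (σ := 1) (Or.inr rfl) (g := gL) i2 _ _ _ _ _ _).1 hE2.2
  rw [l2] at hD1 hD2
  -- the bounds
  obtain ⟨N1, hN1⟩ := boundB1 hcb1 gg1.2 H1 L1 (C1 := C1) hCv1 hc.le (ε := c / 2 / 2) (by linarith)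
    (hCb'.1.2.mono (le_max_right _ _)) (hCb'.2.mono (le_max_right _ _)) (hCa.mono (le_max_left _ _)) m
  obtain ⟨N2, hN2⟩ := boundB2 hcb2 gg2.2 H2 L2 (l := ln 1 (rn v) + 1 + 2 * m) hCv2 hc.le (ε := c / 2 / 2)
    (by linarith) (by
      have : (0 : ℤ) ≤ m := Int.natCast_nonneg m
      omega) hD1 hD2
  -- the escaping points
  obtain ⟨l0, hl0⟩ := hesc
  obtain ⟨l0', hl0'⟩ := hesc'
  obtain ⟨M1, hM1⟩ := esc_cone (K := K) g0.1 g0.2 l0 N1
  obtain ⟨M2, hM2⟩ := esc_cone (K := K) g3.1 g3.2 l0' N2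
  obtain ⟨n, ⟨hn1, hn2⟩, hn3⟩ := ((hgeo.and (hl0 M1)).and (hl0' M2)).exists
  obtain ⟨i, hi, hpi⟩ := hn2
  obtain ⟨j, hj, hqj⟩ := hn3
  set p := pk 1 (wt ω) K l0 i with hp
  set q := pk 1 (wt (gO rx ω)) K l0' j with hq
  have hB1 := hN1 (rf 0 p) (hM1 i hi).1 (hM1 i hi).2 (rf 0 x)
  have hB2 := hN2 (rf 0 q) (hM2 j hj).1 (hM2 j hj).2 (rn x)
  rw [T_gO aF, T_gO aF] at hB1
  have hq' : rf 0 q = rn (rx q) := (rn_rx q).symm
  rw [hq', T_gO aut_rn, T_gO aut_rn] at hB2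
  have hqq : T (wt ω) univ v (rx q) + T (wt ω) univ (rx q) (-(n : ℤ), 0) = T (wt ω) univ v (-(n : ℤ), 0) := by
    have e1 : q = rx (rx q) := (aut_rx.left_inv q).symm
    have e3 : (((n : ℤ), 0) : V) = rx (-(n : ℤ), 0) := by unfold rx; simp
    rw [e1, e3, T_gO aut_rx, T_gO aut_rx, T_gO aut_rx] at hqj
    exact hqj
  have hfin := T_univ_ne_top (wt_ne_top ω)
  have key := two_rays_le hfin hn1 hpi hqq x
  have e4 : ((ln 1 (rn v) + 1 + 2 * m - ln 1 (rn v) : ℤ) : ℝ) = 2 * m + 1 := by push_cast; ring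
  rw [e4] at hB2
  have hm00 : (0 : ℝ) ≤ m := by positivity
  nlinarith

/-! ### the functionals -/

theorem domH_glo {w : W} (h : Cb 1 K w) (hfl : Fluct 1 K w) (L : ℕ) : DomH K (glo 1 K (1, 2) L) w := by
  intro l a
  obtain ⟨B, hB⟩ := exists_dom_lo (u := (1, 2)) h (fun s => h.lo (by norm_num) (by norm_num) (by norm_num) s)
    (by norm_num) (by norm_num) (by norm_num) L l a
  obtain ⟨N, hN⟩ := cn_mem_Rg h.good hfl l
  refine ⟨max N (2 * |B| + 2), fun t ht hNt j hj => hB t (hN t ht ((le_max_left _ _).trans hNt)) ?_ j hj⟩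
  have h1 := (le_max_right N (2 * |B| + 2)).trans hNt
  have h2 := le_abs_self B
  obtain ⟨h3, h4⟩ := ht
  unfold det
  simp only
  omega

theorem domL_gup {w : W} (h : Cb 1 K w) (hfl : Fluct 1 K w) (L : ℕ) : DomL K (gup 1 K (2, 1) L) w := by
  intro l a
  obtain ⟨B, hB⟩ := exists_dom_up (u := (2, 1)) h (fun s => h.up (by norm_num) (by norm_num) (by norm_num) s)
    (by norm_num) (by norm_num) (by norm_num) L l a
  obtain ⟨N, hN⟩ := cn_mem_Rg h.good hfl l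
  refine ⟨max N (3 * |B| + 3), fun t ht hNt j hj => hB t (hN t ht ((le_max_left _ _).trans hNt)) ?_ j hj⟩
  have h1 := (le_max_right N (3 * |B| + 3)).trans hNt
  have h2 := le_abs_self B
  obtain ⟨h3, h4⟩ := ht
  unfold det
  simp only
  omega

/-- **(D1)(B).** In the diamond case (labels of the two classes) the two rays do not both escape. -/
theorem ae_esc_B (hK : SmallK F K) (hF : ∀ a, F {a} = 0) (hF0 : F (Iio 0) = 0)
    (hlab : ∀ δ > 0, ∃ L L' : ℕ, EV 1 F (glo 1 K (1, 2) L) < δ ∧ -EV 1 F (gup 1 K (2, 1) L') < δ) :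
    ∀ᵐ ω ∂(iid Ed F), ∀ (v : V) (𝓤 : Filter ℕ), 𝓤.NeBot → OnG (wt ω) v 𝓤 → Esc K (wt ω) v 𝓤 →
      ¬ Esc K (wt (gO rx ω)) (rx v) 𝓤 := by
  obtain ⟨c, hc, hlin⟩ := ae_linB hF hF0
  obtain ⟨L, L', h1, h2⟩ := hlab (c / 2) (by positivity)
  refine ae_no_two_esc hK hc hlin (adm_glo 1 K (1, 2) L) (adm_gup 1 K (2, 1) L') h1 h2 ?_ ?_
  · filter_upwards [ae_good_wt hK (Or.inr rfl), ae_fluct hK (Or.inr rfl)] with ω h3 h4
    exact domH_glo (Cb_wt hK.1 (Or.inr rfl) h3) h4 L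
  · filter_upwards [ae_good_wt hK (Or.inr rfl), ae_fluct hK (Or.inr rfl)] with ω h3 h4
    exact domL_gup (Cb_wt hK.1 (Or.inr rfl) h3) h4 L'

end prob

end C7
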