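import Mathlib
import Pool.Agent.Lib.MP_c725eb_pr.DTwo
import Pool.Agent.Lib.MP_c725eb_pr.DataCore
import Pool.Agent.Lib.MP_c725eb_pr.DomX
import Pool.Agent.Lib.MP_c725eb_pr.EscB

/-!
# The diamond case: escape of the forward ray only

If the geodesics from `v` to `(n,0)` escape in the direction `(1,-1)`, then after the reflection
`x₂ ↦ -x₂` the escaping points are targets in the direction `(1,1)`, for which the classes converge
to the class `b`.  If the reversed ray does not escape, then the geodesics converge to a bi-infinite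
path which follows the flow of `b`, which is impossible.
-/

set_option autoImplicit false

namespace C7

open MeasureTheory Filter Set
open scoped ENNReal NNReal Topology

/-- An escaping sequence. -/
theorem exists_seq {P : ℕ → ℤ → Prop} {𝓤 : Filter ℕ} (h𝓤 : 𝓤 ≤ atTop)
    (h : ∀ M : ℤ, ∀ᶠ n in 𝓤, ∃ i ≤ -M, P n i) :
    ∃ i : ℕ → ℤ, Tendsto i 𝓤 atBot ∧ ∀ᶠ n in 𝓤, P n (i n) := by
  classical
  set G : ℕ → ℕ := fun n => Nat.findGreatest (fun M => ∃ i ≤ -(M : ℤ), P n i) n with hG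
  have key : ∀ n, ∃ i : ℤ, (∃ i ≤ -((0 : ℕ) : ℤ), P n i) → i ≤ -(G n : ℤ) ∧ P n i := by
    intro n
    by_cases h0 : ∃ i ≤ -((0 : ℕ) : ℤ), P n i
    · have h1 := Nat.findGreatest_spec (P := fun M => ∃ i ≤ -(M : ℤ), P n i) (Nat.zero_le n) h0
      obtain ⟨i, hi1, hi2⟩ := h1
      exact ⟨i, fun _ => ⟨hi1, hi2⟩⟩
    · exact ⟨0, fun h' => absurd h' h0⟩
  choose i hi using key
  have h0 : ∀ᶠ n in 𝓤, ∃ i ≤ -((0 : ℕ) : ℤ), P n i := by
    have := h 0
    simpa using this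
  refine ⟨i, ?_, h0.mono fun n hn => (hi n hn).2⟩
  rw [tendsto_atBot]
  intro b
  filter_upwards [h0, h (b.natAbs : ℤ), h𝓤 (eventually_ge_atTop b.natAbs)] with n h1 h2 h3
  have h4 : b.natAbs ≤ G n := Nat.le_findGreatest h3 h2
  have h5 := (hi n h1).1
  omega

/-- Horizontal targets are in the regions. -/
theorem hor_mem_Rg {K : ℝ≥0∞} {w : W} (h : Cfg 1 K w) (hf : Fluct 1 K w) (l : ℤ) :
    ∀ᶠ n : ℕ in atTop, (((n : ℤ), 0) : V) ∈ Rg 1 w K l := by
  obtain ⟨n0, hn0, h1⟩ := hf.int (q := 2) (by norm_num)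
  filter_upwards [eventually_ge_atTop (4 * (max l n0).natAbs)] with n hn
  have h2 := h1 (max l n0) (le_max_right _ _) (-(n : ℤ))
  have h3 := h.ck_mono (le_max_left l n0) (-(n : ℤ))
  change ck 1 w K l (ix 1 ((n : ℤ), 0)) ≤ (n : ℤ)
  have e1 : ix 1 ((n : ℤ), 0) = -(n : ℤ) := by unfold ix; ring
  rw [e1]
  rw [ln_pk_eq, abs_neg, abs_of_nonneg (by positivity : (0 : ℤ) ≤ (n : ℤ))] at h2
  have h4 : (0 : ℤ) ≤ max l n0 := hn0.trans (le_max_right _ _)
  simp only [one_mul] at h2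
  omega

/-- The vertices of a curve far down are, after the reflection, near the diagonal. -/
theorem cone_of_far {K : ℝ≥0∞} {w : W} (h : Cfg 1 K w) (hf : Fluct 1 K w) (l N : ℤ) :
    ∀ᶠ i : ℤ in atBot, Cn (rf 0 (pk 1 w K l i)) ∧ N ≤ (rf 0 (pk 1 w K l i)).1 := by
  obtain ⟨n0, hn0, h1⟩ := hf.int (q := 10) (by norm_num)
  filter_upwards [eventually_le_atBot (-(100 * ((max l n0) + |l| + |N| + 1)))] with i hi
  have h4 : (0 : ℤ) ≤ max l n0 := hn0.trans (le_max_right _ _)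
  have h2 := h1 (max l n0) (le_max_right _ _) i
  have h3 := h.ck_mono (le_max_left l n0) i
  have h5 := le_ln_pk h.hσ h.good l i
  have a1 := neg_abs_le l
  have a2 := le_abs_self N
  have a3 := abs_nonneg l
  have a4 := abs_nonneg N
  have hi0 : i ≤ 0 := by omega
  rw [ln_pk_eq, abs_of_nonpos hi0] at h2
  rw [ln_pk_eq] at h5
  simp only [one_mul] at h2 h5
  have e : rf 0 (pk 1 w K l i) = (ck 1 w K l i, -(ck 1 w K l i + i)) := by
    unfold pk pt
    rw [rf_zero]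
    simp only [one_mul]
  rw [e]
  unfold Cn
  simp only
  refine ⟨⟨by omega, by omega⟩, by omega⟩

/-- Targets in the cone are in the regions. -/
theorem cone_mem_Rg {K : ℝ≥0∞} {w : W} (h : Cfg 1 K w) (l : ℤ) {t : V} (h1 : Cn t)
    (h3 : 2 * |ck 1 w K l 0| ≤ t.1) : t ∈ Rg 1 w K l := by
  unfold Cn at h1
  change ck 1 w K l (ix 1 t) ≤ t.1
  have hst := ck_stp h.hσ h.good (K := K) (w := w) l
  have a1 := le_abs_self (ck 1 w K l 0)
  have a2 := abs_nonneg (ck 1 w K l 0)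
  have e : ix 1 t = t.2 - t.1 := by unfold ix; ring
  rw [e]
  rcases le_total (t.2 - t.1) 0 with h4 | h4
  · have h5 := stp_le h.hσ hst h4
    omega
  · have h5 := stp_le h.hσ hst h4
    simp only [sub_self, zero_mul] at h5
    omega

variable {K : ℝ≥0∞} {F : Measure ℝ}

/-- The classes of the targets in the cone around the direction `(1,1)` converge to `b`. -/
structure ConeB (S : FlowSys 1 K F) (ω : Om) : Prop where
  conv : ∀ (l i : ℤ) (ε : ℝ), 0 < ε → ∃ N : ℤ, ∀ t : V, Cn t → N ≤ t.1 →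
    |(tpot 1 K (wt ω) t l i - tpot 1 K (wt ω) t l (i + 1)) - (S.φ ω l i - S.φ ω l (i + 1))| ≤ ε
  co : ∀ l : ℤ, ∃ η > 0, ∃ C : ℝ, ∃ N : ℤ, ∀ t : V, Cn t → N ≤ t.1 →
    ∀ j : ℤ, η * |(j : ℝ)| - C ≤ (T (wt ω) univ (pk 1 (wt ω) K l 0) (pk 1 (wt ω) K l j)).toReal +
      (tpot 1 K (wt ω) t l j - tpot 1 K (wt ω) t l 0)

/-- Convergence of all increments from the convergence of the unit increments. -/
theorem tendsto_incr {f : ℕ → ℤ → ℝ} {g : ℤ → ℝ} {𝓤 : Filter ℕ}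
    (h : ∀ i, Tendsto (fun n => f n i - f n (i + 1)) 𝓤 (𝓝 (g i - g (i + 1)))) (x y : ℤ) :
    Tendsto (fun n => f n x - f n y) 𝓤 (𝓝 (g x - g y)) := by
  have key : ∀ m : ℕ, ∀ x : ℤ, Tendsto (fun n => f n x - f n (x + m)) 𝓤 (𝓝 (g x - g (x + m))) := by
    intro m
    induction m with
    | zero => intro x; simpa using tendsto_const_nhds
    | succ m ih =>
      intro x
      have h1 := (ih x).add (h (x + m))
      have e : x + ((m : ℤ) + 1) = x + m + 1 := by ring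
      push_cast
      rw [e]
      have e2 : g x - g (x + m) + (g (x + m) - g (x + m + 1)) = g x - g (x + m + 1) := by ring
      rw [e2] at h1
      refine h1.congr fun n => ?_
      ring
  rcases le_total x y with hxy | hxy
  · obtain ⟨m, hm⟩ : ∃ m : ℕ, y = x + m := ⟨(y - x).toNat, by omega⟩
    rw [hm]
    exact key m x
  · obtain ⟨m, hm⟩ : ∃ m : ℕ, x = y + m := ⟨(x - y).toNat, by omega⟩
    rw [hm]
    have h1 := (key m y).neg
    rw [neg_sub] at h1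
    refine h1.congr fun n => ?_
    ring

/-- The minimum property in the limit. -/
theorem AM.lim_arg {σ : ℤ} {w : W} (h : Cfg σ K w) {𝓤 : Filter ℕ} [𝓤.NeBot] {s : ℕ → V} {k l : ℤ}
    (hkl : k ≤ l) {x u : ℤ} (ham : ∀ᶠ n in 𝓤, AM w σ univ (ck σ w K k) (ck σ w K l) (s n) x u)
    (hs : ∀ᶠ n in 𝓤, s n ∈ Rg σ w K l) {κ : ℤ → ℝ}
    (hlim : ∀ i, Tendsto (fun n => tpot σ K w (s n) l i - tpot σ K w (s n) l u) 𝓤 (𝓝 (κ i - κ u)))
    {j : ℤ} (hj : KI w σ univ (ck σ w K k) (ck σ w K l) x j ≠ ⊤) :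
    (KI w σ univ (ck σ w K k) (ck σ w K l) x u).toReal + κ u ≤
      (KI w σ univ (ck σ w K k) (ck σ w K l) x j).toReal + κ j := by
  have h1 : (KI w σ univ (ck σ w K k) (ck σ w K l) x u).toReal -
      (KI w σ univ (ck σ w K k) (ck σ w K l) x j).toReal ≤ κ j - κ u := by
    refine ge_of_tendsto (hlim j) ?_
    filter_upwards [ham, hs] with n h2 h3
    have h4 := TI_le (w := w) (σ := σ) (E := univ) (h.ck_mono hkl) (x := x) (u := j) (t := s n) trivial
    have h5 := h2.fin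
    rw [h2.1] at h4
    have hT : TI w σ univ (ck σ w K l) j (s n) ≠ ⊤ := by
      rw [TI_univ]
      exact h.fin_Rg l j h3
    have h6 := ENNReal.toReal_mono (ENNReal.add_ne_top.2 ⟨hj, hT⟩) h4
    rw [ENNReal.toReal_add h5.1 h5.2, ENNReal.toReal_add hj hT] at h6
    have e1 : (TI w σ univ (ck σ w K l) j (s n)).toReal = tpot σ K w (s n) l j := by
      rw [TI_univ]; rfl
    have e2 : (TI w σ univ (ck σ w K l) u (s n)).toReal = tpot σ K w (s n) l u := by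
      rw [TI_univ]; rfl
    rw [e1, e2] at h6
    linarith
  linarith

/-- Tightness from coercivity. -/
theorem tgt_of_co {σ : ℤ} {w : W} (h : Cfg σ K w) {𝓤 : Filter ℕ} {s : ℕ → V} {l : ℤ} {η C : ℝ}
    (hη : 0 < η) (hs : ∀ᶠ n in 𝓤, s n ∈ Rg σ w K l)
    (hco : ∀ᶠ n in 𝓤, ∀ j : ℤ, η * |(j : ℝ)| - C ≤
      (T w univ (pk σ w K l 0) (pk σ w K l j)).toReal + (tpot σ K w (s n) l j - tpot σ K w (s n) l 0))
    (q : V) : Tgt σ K w 𝓤 q s l := by
  set A := (T w univ q (pk σ w K l 0)).toReal with hA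
  obtain ⟨M, hM⟩ := exists_nat_gt ((C + 2 * A) / η)
  refine ⟨M, ?_⟩
  filter_upwards [hs, hco] with n h1 h2 i hi he
  have h3 := h2 i
  have hT := h.fin_Rg l i h1
  have e1 := congrArg ENNReal.toReal he
  rw [ENNReal.toReal_add (T_univ_ne_top h.fin _ _) hT] at e1
  have e2 : (T w univ q (s n)).toReal ≤ A + tpot σ K w (s n) l 0 := by
    have h5 : T w univ q (s n) ≤ T w univ q (pk σ w K l 0) + T w (Rg σ w K l) (pk σ w K l 0) (s n) :=
      (T_triangle w univ q (pk σ w K l 0) (s n)).trans (add_le_add le_rfl (T_mono (subset_univ _) _ _))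
    have h6 := ENNReal.toReal_mono (ENNReal.add_ne_top.2 ⟨T_univ_ne_top h.fin _ _, h.fin_Rg l 0 h1⟩) h5
    rwa [ENNReal.toReal_add (T_univ_ne_top h.fin _ _) (h.fin_Rg l 0 h1)] at h6
  have e3 : (T w (Rg σ w K l) (pk σ w K l i) (s n)).toReal = tpot σ K w (s n) l i := rfl
  have e4 := T_univ_anchor h q (pk σ w K l 0) (pk σ w K l i)
  rw [T_comm w univ (pk σ w K l 0) q] at e4
  have h7 : (M : ℝ) < |(i : ℝ)| := by
    have : (((M : ℤ)) : ℝ) < ((|i| : ℤ) : ℝ) := by exact_mod_cast hi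
    push_cast at this
    exact this
  have h8 : (C + 2 * A) / η < |(i : ℝ)| := hM.trans h7
  rw [div_lt_iff₀ hη] at h8
  rw [e3] at e1
  nlinarith

/-- Fixed points of the reversed ray: the forward ray of the reflected configuration. -/
theorem exists_fixed {w : W} (h' : Cfg 1 K (gw rx w))
    (hw : ∀ v, w v 2 = ⊤) {𝓤 : Ultrafilter ℕ} {v : V}
    (hmem : ∀ l, ∀ᶠ n : ℕ in (𝓤 : Filter ℕ), (((n : ℤ), 0) : V) ∈ Rg 1 (gw rx w) K l)
    (htgt : ∀ l, ln 1 (rx v) < l → Tgt 1 K (gw rx w) 𝓤 (rx v) (fun n : ℕ => ((n : ℤ), 0)) l) (l : ℤ) :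
    ∃ q : V, ln 1 q < l ∧ ∀ᶠ n : ℕ in (𝓤 : Filter ℕ),
      T (gw (rf 0) w) univ (-(n : ℤ), 0) q + T (gw (rf 0) w) univ q (rf 0 v) =
        T (gw (rf 0) w) univ (-(n : ℤ), 0) (rf 0 v) := by
  have hσ : (0 : ℤ) = 0 ∨ (0 : ℤ) = 1 := Or.inl rfl
  set l' := max (1 - l) (ln 1 (rx v) + 1) with hl'
  have hvl : ln 1 (rx v) < l' := lt_of_lt_of_le (by omega) (le_max_right _ _)
  obtain ⟨z, hz⟩ := exists_lim_entrance h' (r := fun _ => rx v) (hmem l')
    (Eventually.of_forall fun _ => notMem_Rg_of_ln h' hvl) (notMem_Rg_of_ln h' hvl)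
    (Eventually.of_forall fun n => by
      rw [T_self _ (mem_univ _), zero_add]) (htgt l' hvl)
  set P := pk 1 (gw rx w) K l' z with hP
  refine ⟨rn P, ?_, ?_⟩
  · have h1 := le_ln_pk h'.hσ h'.good l' z
    rw [← hP] at h1
    have h2 : ln 1 (rn P) = -ln 1 P := by unfold ln rn; simp only; ring
    have h3 : 1 - l ≤ l' := le_max_left _ _
    omega
  · filter_upwards [hz] with n hn
    have h1 := hn.geo h'
    rw [← hP] at h1
    simp only [T_gw_univ aut_rx hw, T_gw_univ (aut_rf hσ) hw, rf_rf hσ, aut_rx.left_inv] at h1 ⊢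
    have e1 : rf 0 (-(n : ℤ), 0) = (-(n : ℤ), 0) := by simp [rf_zero]
    have e2 : rx ((n : ℤ), 0) = (-(n : ℤ), 0) := by simp [rx]
    have e3 : rf 0 (rn P) = rx P := by simp [rf_zero, rn, rx]
    rw [e2] at h1
    rw [e1, e3, T_comm w univ (-(n : ℤ), 0) (rx P), T_comm w univ (rx P) v,
      T_comm w univ (-(n : ℤ), 0) v, add_comm]
    exact h1

variable [IsProbabilityMeasure F]

/-- **Escape of the forward ray implies escape of the reversed ray.** -/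
theorem esc_imp_esc (S : FlowSys 1 K F) (hcfg : ∀ᵐ ω ∂(iid Ed F), Cfg 1 K (wt ω))
    (hF : ∀ a, F {a} = 0) (hF0 : F (Iio 0) = 0)
    (hun : ∀ᵐ ω ∂(iid Ed F), UniqArg (fun ω k l x u => KI (wt ω) 1 univ (ck 1 (wt ω) K k)
      (ck 1 (wt ω) K l) x u) S ω)
    (hcone : ∀ᵐ ω ∂(iid Ed F), ConeB S ω) (hfl : ∀ᵐ ω ∂(iid Ed F), Fluct 1 K (wt ω))
    (hT1 : ∀ᵐ ω ∂(iid Ed F), ∀ (v : V) (l : ℤ), ln 1 v < l → ∃ M : ℤ, ∀ᶠ n : ℕ in atTop, ∀ i > M,
      T (wt ω) univ v (pk 1 (wt ω) K l i) + T (wt ω) (Rg 1 (wt ω) K l) (pk 1 (wt ω) K l i) ((n : ℤ), 0) ≠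
        T (wt ω) univ v ((n : ℤ), 0)) :
    ∀ᵐ ω ∂(iid Ed F), ∀ (v : V) (𝓤 : Ultrafilter ℕ), (𝓤 : Filter ℕ) ≤ atTop → OnG (wt ω) v 𝓤 →
      Esc K (wt ω) v 𝓤 → Esc K (wt (gO rx ω)) (rx v) 𝓤 := by
  have hσ0 : (0 : ℤ) = 0 ∨ (0 : ℤ) = 1 := Or.inl rfl
  have hσ1 : (1 : ℤ) = 0 ∨ (1 : ℤ) = 1 := Or.inr rfl
  have hg : ∀ᵐ ω ∂(iid Ed F), Good 1 (wt ω) K := hcfg.mono fun ω h => h.good
  have hx := (measurePreserving_gO F aut_rx).quasiMeasurePreserving
  have h0 := (measurePreserving_gO F (aut_rf hσ0)).quasiMeasurePreserving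
  filter_upwards [hcfg, hx.ae hcfg, h0.ae hcfg, h0.ae hun, h0.ae hcone, hfl, hx.ae hfl, hx.ae hT1,
    h0.ae (no_flow_path hσ1 S hg hF hF0)] with ω c1 c2 c3 u3 b3 f1 f2 t2 n3 v 𝓤 h𝓤 hon hesc
  by_contra hne
  -- tightness of the reversed ray
  have hw2 : ∀ v, wt ω v 2 = ⊤ := c1.hw
  rw [wt_gO aut_rx] at c2 f2 t2 hne
  have htgt : ∀ l, ln 1 (rx v) < l → Tgt 1 K (gw rx (wt ω)) 𝓤 (rx v) (fun n : ℕ => ((n : ℤ), 0)) l := by
    intro l hl
    obtain ⟨M, hM⟩ := t2 (rx v) l hl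
    unfold Esc at hne
    push Not at hne
    obtain ⟨M', hM'⟩ := hne l
    refine ⟨max |M| |M'|, ?_⟩
    filter_upwards [h𝓤 hM, hM'] with n h1 h2 i hi he
    rcases le_total 0 i with hi0 | hi0
    · rw [abs_of_nonneg hi0] at hi
      have a1 := le_max_left |M| |M'|
      have a2 := le_abs_self M
      exact h1 i (by omega) he
    · rw [abs_of_nonpos hi0] at hi
      have a1 := le_max_right |M| |M'|
      have a2 := le_abs_self M'
      refine h2 i (by omega) (le_antisymm ?_ (T_triangle _ _ _ _ _))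
      rw [← he]
      exact add_le_add le_rfl (T_mono (subset_univ _) _ _)
  have hfix := exists_fixed c2 hw2 (fun l => h𝓤 (hor_mem_Rg c2 f2 l)) htgt
  -- the escaping sequence
  obtain ⟨l₀, hl₀⟩ := hesc
  obtain ⟨i, hi, hgeo⟩ := exists_seq h𝓤 hl₀
  set s : ℕ → V := fun n => rf 0 (pk 1 (wt ω) K l₀ (i n)) with hs
  set r : ℕ → V := fun n => (-(n : ℤ), 0) with hr
  set w' := wt (gO (rf 0) ω) with hw'
  have ew' : w' = gw (rf 0) (wt ω) := wt_gO (aut_rf hσ0) ω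
  have hcn : ∀ N : ℤ, ∀ᶠ n in (𝓤 : Filter ℕ), Cn (s n) ∧ N ≤ (s n).1 :=
    fun N => hi.eventually (cone_of_far c1 f1 l₀ N)
  have hsm : ∀ l, ∀ᶠ n in (𝓤 : Filter ℕ), s n ∈ Rg 1 w' K l := by
    intro l
    filter_upwards [hcn (2 * |ck 1 w' K l 0|)] with n hn
    exact cone_mem_Rg c3 l hn.1 hn.2
  have hrm : ∀ l, ∀ᶠ n in (𝓤 : Filter ℕ), r n ∉ Rg 1 w' K l := by
    intro l
    filter_upwards [h𝓤 (eventually_ge_atTop (l.natAbs + 1))] with n hn
    refine notMem_Rg_of_ln c3 ?_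
    have : ln 1 (r n) = -(n : ℤ) := by unfold ln; rw [hr]; simp
    omega
  -- the vertex `rf 0 v` is on the geodesics from `r n` to `s n`
  have hon' := hon.rf0 hw2
  have hvs : ∀ᶠ n in (𝓤 : Filter ℕ), T w' univ (r n) (rf 0 v) + T w' univ (rf 0 v) (s n) =
      T w' univ (r n) (s n) := by
    filter_upwards [hon', hgeo] with n h1 h2
    rw [← ew'] at h1
    have h3 : T w' univ (rf 0 v) (s n) + T w' univ (s n) ((n : ℤ), 0) =
        T w' univ (rf 0 v) ((n : ℤ), 0) := by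
      rw [ew']
      simp only [T_gw_univ (aut_rf hσ0) hw2, rf_rf hσ0, hs]
      have e1 : rf 0 ((n : ℤ), 0) = ((n : ℤ), 0) := by simp [rf_zero]
      rw [e1]
      exact h2
    refine le_antisymm ?_ (T_triangle _ _ _ _ _)
    have h4 := T_triangle w' univ (r n) (s n) ((n : ℤ), 0)
    have h5 : T w' univ (r n) ((n : ℤ), 0) =
        (T w' univ (r n) (rf 0 v) + T w' univ (rf 0 v) (s n)) + T w' univ (s n) ((n : ℤ), 0) := by
      rw [add_assoc, h3]
      exact h1.symm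
    rw [h5] at h4
    exact (ENNReal.add_le_add_iff_right (T_univ_ne_top c3.fin _ _)).1 h4
  -- the limits of the last entrances
  obtain ⟨z, hz⟩ := data_core c3 (r := r) (s := s) hsm hrm (fun l => by
    obtain ⟨q, hq1, hq2⟩ := hfix l
    refine ⟨q, hq1, ?_, ?_⟩
    · filter_upwards [hq2, hvs] with n h1 h2
      rw [← ew'] at h1
      refine le_antisymm ?_ (T_triangle _ _ _ _ _)
      rw [← h2, ← h1, add_assoc]
      exact add_le_add le_rfl (T_triangle _ _ _ _ _)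
    · obtain ⟨η, hη, C, N, hco⟩ := b3.co l
      refine tgt_of_co c3 hη (C := C) (hsm l) ?_ q
      filter_upwards [hcn N] with n hn j
      exact hco (s n) hn.1 hn.2 j)
  refine n3 z 0 fun k l hkl _ => ?_
  -- the minimum property
  have ham : ∀ᶠ n in (𝓤 : Filter ℕ), AM w' 1 univ (ck 1 w' K k) (ck 1 w' K l) (s n) (z k) (z l) := by
    filter_upwards [hz k, hz l] with n h1 h2
    exact h1.am c3 hkl.le h2
  have hlim : ∀ j, Tendsto (fun n => tpot 1 K w' (s n) l j - tpot 1 K w' (s n) l (z l)) 𝓤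
      (𝓝 (S.φ (gO (rf 0) ω) l j - S.φ (gO (rf 0) ω) l (z l))) := by
    intro j
    refine tendsto_incr (f := fun n j => tpot 1 K w' (s n) l j) (fun i => ?_) j (z l)
    rw [Metric.tendsto_nhds]
    intro ε hε
    obtain ⟨N, hN⟩ := b3.conv l i (ε / 2) (by positivity)
    filter_upwards [hcn N] with n hn
    have := hN (s n) hn.1 hn.2
    rw [Real.dist_eq]
    linarith
  obtain ⟨u1, u2⟩ := u3 k l (z k) hkl.le
  by_contra hzne
  obtain ⟨n, hn⟩ := ham.exists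
  have h6 := u2 (z l) hzne hn.fin.1
  have h7 := AM.lim_arg c3 hkl.le ham (hsm l) hlim u1
  exact absurd h6 (not_lt.2 h7)

end C7
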