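import Pool.Agent.Lib.MP_c725eb_pr.StripFacts
import Pool.Agent.Lib.MP_c725eb_pr.RigidProb
import Pool.Agent.Lib.MP_c725eb_pr.Hwy2

/-!
# The strips of first-passage percolation as an instance of `StripSys`
-/

set_option autoImplicit false

namespace C7

open MeasureTheory Filter Set
open scoped ENNReal

section det

variable {σ : ℤ} {w : W} {K : ℝ≥0∞}

theorem stripH_of_good (hσ : σ = 0 ∨ σ = 1) (hw2 : ∀ v, w v 2 = ⊤) (hw : ∀ v, w v 0 ≠ ⊤ ∧ w v 1 ≠ ⊤)
    (hK : K ≠ ⊤) (hG : Good σ w K) (n : ℤ) : StripH σ w K (rb σ w K n) (ck σ w K n) :=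
  ⟨hσ, hw2, hw, hK, ck_stp hσ hG n, pk_open hG n, fun _ => rfl⟩

theorem ck_le (hσ : σ = 0 ∨ σ = 1) (hG : Good σ w K) {k l : ℤ} (h : k ≤ l) (i : ℤ) :
    ck σ w K k i ≤ ck σ w K l i := crv_mono hσ (hG k) (hG l) (fun _ => by omega) i

theorem curvH_of_good (hσ : σ = 0 ∨ σ = 1) (hG : Good σ w K) {k n : ℤ} (h : k ≤ n) :
    CurvH σ w K (ck σ w K n) (ck σ w K k) :=
  ⟨ck_stp hσ hG k, pk_open hG k, ck_le hσ hG h⟩

theorem wh_mem (hσ : σ = 0 ∨ σ = 1) (hG : Good σ w K) {l n : ℤ} (h : l ≤ n) (j : ℤ) :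
    wh σ w K n j ∈ reg σ (ck σ w K l) ∩ St σ w K n := by
  constructor
  · change ck σ w K l (ix σ (wh σ w K n j)) ≤ (wh σ w K n j).1
    unfold wh
    rw [ix_pt]
    have h1 : (pt σ (rb σ w K n) j).1 = ck σ w K n j + (1 - σ) := rfl
    have h2 := ck_le hσ hG h j
    rw [h1]
    rcases hσ with rfl | rfl <;> omega
  · change (pt σ (rb σ w K n) j).1 ≤ rb σ w K n (ix σ (pt σ (rb σ w K n) j))
    rw [ix_pt]
    exact le_rfl

/-- Passage times of the shifted configuration. -/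
theorem TI_sh (s : V) {c c' : ℤ → ℤ} {E E' : Set V} (hc : ∀ i, c' i = c (i + ix σ s) - s.1)
    (hE : ∀ v, v ∈ E' ↔ tr s v ∈ E) (x : ℤ) (t : V) :
    TI (sh s w) σ E' c' x t = TI w σ E c (x + ix σ s) (tr s t) := by
  unfold TI
  rw [T_sh]
  congr 1
  · ext v
    constructor
    · rintro ⟨u, ⟨h1, h2⟩, rfl⟩
      refine ⟨?_, (hE u).1 h2⟩
      have h3 : c' (ix σ u) ≤ u.1 := h1
      change c (ix σ (tr s u)) ≤ (tr s u).1
      rw [hc] at h3
      rw [show ix σ (tr s u) = ix σ u + ix σ s by unfold ix tr; ring]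
      unfold tr
      simp only
      omega
    · rintro ⟨h1, h2⟩
      refine ⟨tr (-s.1, -s.2) v, ⟨?_, ?_⟩, tr_tr' s v⟩
      · have h3 : c (ix σ v) ≤ v.1 := h1
        change c' (ix σ (tr (-s.1, -s.2) v)) ≤ (tr (-s.1, -s.2) v).1
        rw [hc, show ix σ (tr (-s.1, -s.2) v) + ix σ s = ix σ v by unfold ix tr; ring]
        unfold tr
        simp only
        omega
      · rw [hE, tr_tr']
        exact h2
  · unfold tr pt
    simp only [hc]
    unfold ix
    ext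
    · simp
    · simp only; ring

theorem ck_sh' (hσ : σ = 0 ∨ σ = 1) (s : V) (k i : ℤ) :
    ck σ (sh s w) K (k - ln σ s) i = ck σ w K k (i + ix σ s) - s.1 := ck_sh hσ s k i

theorem mem_St_sh (hσ : σ = 0 ∨ σ = 1) (s : V) (n : ℤ) (v : V) :
    v ∈ St σ (sh s w) K (n - ln σ s) ↔ tr s v ∈ St σ w K n := by
  change v.1 ≤ ck σ (sh s w) K (n - ln σ s) (ix σ v) + (1 - σ) ↔
    (tr s v).1 ≤ ck σ w K n (ix σ (tr s v)) + (1 - σ)
  rw [ck_sh hσ, show ix σ (tr s v) = ix σ v + ix σ s by unfold ix tr; ring]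
  unfold tr
  simp only
  omega

theorem tr_wh (hσ : σ = 0 ∨ σ = 1) (s : V) (n h : ℤ) :
    tr s (wh σ (sh s w) K (n - ln σ s) h) = wh σ w K n (h + ix σ s) := by
  unfold wh pt rb tr
  simp only [ck_sh hσ]
  unfold ix
  ext
  · simp only; ring
  · simp only; ring

/-- Potentials of strips are covariant. -/
theorem TI_St_sh (hσ : σ = 0 ∨ σ = 1) (s : V) (n h k x : ℤ) :
    TI (sh s w) σ (St σ (sh s w) K (n - ln σ s)) (ck σ (sh s w) K (k - ln σ s)) x
      (wh σ (sh s w) K (n - ln σ s) h) =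
    TI w σ (St σ w K n) (ck σ w K k) (x + ix σ s) (wh σ w K n (h + ix σ s)) := by
  rw [TI_sh s (ck_sh hσ s k) (mem_St_sh hσ s n), tr_wh hσ]

end det

section inst

/-- The minimiser in the strip. -/
noncomputable def vS (σ : ℤ) (K : ℝ≥0∞) (w : W) (n k l h x : ℤ) : ℤ :=
  open Classical in
  if H : ∃ u, AM w σ (St σ w K n) (ck σ w K k) (ck σ w K l) (wh σ w K n h) x u then H.choose else 0

/-- The potential in the strip. -/
noncomputable def phS (σ : ℤ) (K : ℝ≥0∞) (w : W) (n h k x : ℤ) : ℝ :=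
  (TI w σ (St σ w K n) (ck σ w K k) x (wh σ w K n h)).toReal

variable {σ : ℤ} {w : W} {K : ℝ≥0∞}

theorem AM_vS (hσ : σ = 0 ∨ σ = 1) (hw2 : ∀ v, w v 2 = ⊤) (hw : ∀ v, w v 0 ≠ ⊤ ∧ w v 1 ≠ ⊤)
    (hK : K ≠ ⊤) (hG : Good σ w K) (hE : ExGeo w) {n k l : ℤ} (hkl : k ≤ l) (hln : l ≤ n) (h x : ℤ) :
    AM w σ (St σ w K n) (ck σ w K k) (ck σ w K l) (wh σ w K n h) x (vS σ K w n k l h x) := by
  have H := stripH_of_good hσ hw2 hw hK hG n
  have hex : ∃ u, AM w σ (St σ w K n) (ck σ w K k) (ck σ w K l) (wh σ w K n h) x u :=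
    exists_AM hσ hw2 hE (ck_stp hσ hG l) (ck_le hσ hG hkl) (wh_mem hσ hG hln h)
      (H.fin (curvH_of_good hσ hG (hkl.trans hln)) h x)
  unfold vS
  rw [dif_pos hex]
  exact hex.choose_spec

theorem measurable_wh (K : ℝ≥0∞) (n h : ℤ) : Measurable fun ω : Om => wh σ (wt ω) K n h := by
  have h1 : Measurable fun ω : Om => ck σ (wt ω) K n h := measurable_ck σ measurable_wt2 K n h
  have h2 : (fun ω : Om => wh σ (wt ω) K n h) = (fun z : ℤ => ((z + (1 - σ), σ * (z + (1 - σ)) + h) : V)) ∘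
      fun ω : Om => ck σ (wt ω) K n h := rfl
  rw [h2]
  exact (measurable_of_countable _).comp h1

theorem measurable_phS (K : ℝ≥0∞) (n h k x : ℤ) : Measurable fun ω : Om => phS σ K (wt ω) n h k x := by
  unfold phS TI
  refine (measurable_T measurable_wt3 (fun v => ?_) (measurable_pk_wt σ K k x)
    (measurable_wh K n h)).ennreal_toReal
  refine (measurableSet_mem_Rg_wt σ K k v).inter ?_
  have h1 : Measurable fun ω : Om => ck σ (wt ω) K n (ix σ v) := measurable_ck σ measurable_wt2 K n _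
  exact h1 (Set.to_countable {z : ℤ | v.1 ≤ z + (1 - σ)}).measurableSet

theorem wt_ne_top (ω : Om) (v : V) : wt ω v 0 ≠ ⊤ ∧ wt ω v 1 ≠ ⊤ := by
  rw [wt_zero, wt_one]
  exact ⟨ENNReal.ofReal_ne_top, ENNReal.ofReal_ne_top⟩

/-- The strips. -/
noncomputable def stripSys (hσ : σ = 0 ∨ σ = 1) {F : Measure ℝ} (hK : K ≠ ⊤)
    (hG : ∀ᵐ ω ∂(iid Ed F), Good σ (wt ω) K) (hgen : ∀ᵐ ω ∂(iid Ed F), UniqGeo (wt ω) ∧ ExGeo (wt ω)) :
    StripSys σ F where
  C := 4 * K.toReal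
  ph := fun ω n h k x => phS σ K (wt ω) n h k x
  kn := fun ω n k l x u => KI (wt ω) σ (St σ (wt ω) K n) (ck σ (wt ω) K k) (ck σ (wt ω) K l) x u
  v := fun ω n k l h x => vS σ K (wt ω) n k l h x
  meas := fun n h k x _ => (measurable_phS K n h k x).aemeasurable
  shift := fun s => Filter.Eventually.of_forall fun ω n h k x _ => by
    unfold phS
    rw [wt_shO, TI_St_sh hσ]
  monge := by
    filter_upwards [hG] with ω hω n k hkn h h' x x' hh hx
    have H := stripH_of_good hσ (wt_two ω) (wt_ne_top ω) hK hω n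
    have h1 := H.monge (curvH_of_good hσ hω hkn.le) hh hx
    change phS σ K (wt ω) n h k x + phS σ K (wt ω) n h' k x' ≤ phS σ K (wt ω) n h k x' + phS σ K (wt ω) n h' k x
    change phS σ K (wt ω) n h k x - phS σ K (wt ω) n h' k x ≤ phS σ K (wt ω) n h k x' - phS σ K (wt ω) n h' k x' at h1
    linarith
  bdd := by
    filter_upwards [hG] with ω hω n h k x hkn
    have H := stripH_of_good hσ (wt_two ω) (wt_ne_top ω) hK hω n
    exact H.abs_dF_le (curvH_of_good hσ hω hkn.le) h x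
  pair := by
    filter_upwards [hG, hgen] with ω hω hg n k l hkl hln
    have H := stripH_of_good hσ (wt_two ω) (wt_ne_top ω) hK hω n
    have hc := curvH_of_good hσ hω (hkl.trans hln.le)
    have hc' := curvH_of_good hσ hω hln.le
    have key := fun h x => AM_vS hσ (wt_two ω) (wt_ne_top ω) hK hω hg.2 hkl hln.le h x
    refine ⟨fun h x => (key h x).fin.1, fun h x => ?_, fun h x u hu => ?_, fun h h' x hh => ?_⟩
    · have h1 := congrArg ENNReal.toReal (key h x).1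
      rw [ENNReal.toReal_add (key h x).fin.1 (key h x).fin.2] at h1
      exact h1
    · have h1 := TI_le (w := wt ω) (σ := σ) (E := St σ (wt ω) K n) (x := x) (u := u) (t := wh σ (wt ω) K n h)
        (ck_le hσ hω hkl) (key h x).mem.1
      have h2 : TI (wt ω) σ (St σ (wt ω) K n) (ck σ (wt ω) K l) u (wh σ (wt ω) K n h) ≠ ⊤ := H.fin hc' h u
      have h3 := ENNReal.toReal_mono (ENNReal.add_ne_top.2 ⟨hu, h2⟩) h1
      rw [ENNReal.toReal_add hu h2] at h3
      exact h3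
    · exact AM.mono_target hσ hg.1 hg.2 (ck_le hσ hω hkl) hh (key h x) (key h' x)
  xmono := by
    filter_upwards [hG, hgen] with ω hω hg n k l h hkl hln x x' hx
    have key := fun x => AM_vS hσ (wt_two ω) (wt_ne_top ω) hK hω hg.2 hkl hln.le h x
    exact AM.mono_strip hσ (wt_two ω) hg.1 hg.2 (ck_stp hσ hω l) (ck_le hσ hω hkl) hx (key x) (key x')

/-! ### kernels in strips and in the full region -/

theorem KI_univ_le (n k l x u : ℤ) :
    KI w σ univ (ck σ w K k) (ck σ w K l) x u ≤ KI w σ (St σ w K n) (ck σ w K k) (ck σ w K l) x u := by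
  unfold KI
  refine Kn_anti (Set.inter_subset_inter_right _ (Set.subset_univ _)) ?_ _ _
  rintro p ⟨_, hp⟩ hp' hp''
  exact hp' ⟨hp''.1, hp⟩

/-- Every vertex is in the strips with `n` large. -/
theorem mem_St_ev (hσ : σ = 0 ∨ σ = 1) (hG : Good σ w K) (v : V) : ∀ᶠ n : ℤ in atTop, v ∈ St σ w K n := by
  filter_upwards [eventually_ge_atTop (2 * |v.1| + |ix σ v|)] with n hn
  change v.1 ≤ ck σ w K n (ix σ v) + (1 - σ)
  have h1 := le_ln_pk hσ hG n (ix σ v)
  unfold pk ln pt at h1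
  simp only at h1
  have h2 := le_abs_self v.1
  have h3 := le_abs_self (ix σ v)
  have h4 := abs_nonneg v.1
  have h5 := abs_nonneg (ix σ v)
  rcases hσ with rfl | rfl
  · simp only [zero_mul, add_zero, sub_zero] at *
    omega
  · simp only [one_mul, sub_self, add_zero] at *
    omega

/-- Kernels in strips are eventually equal to the full kernel. -/
theorem KI_eq_ev (hσ : σ = 0 ∨ σ = 1) (hG : Good σ w K) (hE : ExGeo w) {k l : ℤ} (hkl : k ≤ l) {x u : ℤ}
    (hK' : KI w σ univ (ck σ w K k) (ck σ w K l) x u ≠ ⊤) :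
    ∀ᶠ n : ℤ in atTop, KI w σ (St σ w K n) (ck σ w K k) (ck σ w K l) x u =
      KI w σ univ (ck σ w K k) (ck σ w K l) x u := by
  obtain ⟨A, hA⟩ := exists_head hE (D := reg σ (ck σ w K k) ∩ univ) (R := reg σ (ck σ w K l) ∩ univ)
    ⟨pt_mem _ _ _, trivial⟩ ⟨reg_mono (ck_le hσ hG hkl) (pt_mem _ _ _), trivial⟩ hK'
  have h1 : ∀ᶠ n : ℤ in atTop, ∀ v ∈ A ++ [pt σ (ck σ w K l) u], v ∈ St σ w K n := by
    have h2 : {v | v ∈ A ++ [pt σ (ck σ w K l) u]}.Finite := List.finite_toSet _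
    exact (h2.eventually_all).2 fun v _ => mem_St_ev hσ hG v
  filter_upwards [h1] with n hn
  refine le_antisymm ?_ (KI_univ_le n k l x u)
  have e : KI w σ univ (ck σ w K k) (ck σ w K l) x u = cost w (A ++ [pt σ (ck σ w K l) u]) := hA.2.2.1.symm
  rw [e]
  unfold KI
  rcases A.eq_nil_or_concat with rfl | ⟨A₀, q, rfl⟩
  · have h3 : pt σ (ck σ w K k) x = pt σ (ck σ w K l) u := by
      have := hA.1.1
      simpa using this.symm
    rw [h3, Kn_self]
    exact zero_le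
  · have h3 : (A₀.concat q) ++ [pt σ (ck σ w K l) u] = A₀ ++ q :: [pt σ (ck σ w K l) u] := by simp
    have hq : q ∉ reg σ (ck σ w K l) ∩ univ := hA.2.1 q (by simp)
    have hW := hA.1
    rw [h3] at hn hW
    have hW' : IsW (reg σ (ck σ w K k) ∩ St σ w K n) (pt σ (ck σ w K k) x) (pt σ (ck σ w K l) u)
        (A₀ ++ q :: [pt σ (ck σ w K l) u]) :=
      ⟨hW.1, hW.2.1, fun v hv => ⟨(hW.2.2 v hv).1, hn v hv⟩⟩
    rw [h3, cost_append]
    refine (Kn_le (hW'.2.2 q (by simp)) fun h' => hq ⟨h'.1, trivial⟩).trans ?_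
    refine add_le_add (T_le hW'.pre) ?_
    rw [cost_cons_cons]
    simp

end inst

end C7
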