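import Pool.Agent.Lib.MP_c725eb_pr.GShift
import Pool.Agent.Lib.MP_c725eb_pr.DTwo

/-!
# Tightness of the last entrances

`LeE σ K w l v t i`: the curve vertex `p^l_i` is on an optimal way from `v` to `t` which stays in the
region `R_l` after `p^l_i`.  `Tig σ K w l v t 𝓕 ε`: these indices are bounded in the direction `ε`.
-/

set_option autoImplicit false

namespace C7

open MeasureTheory Filter Set
open scoped ENNReal Topology

section det

variable {σ : ℤ} {K : ℝ≥0∞} {w : W}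

/-- `p^l_i` is a possible last entrance of an optimal way from `v` to `t`. -/
def LeE (σ : ℤ) (K : ℝ≥0∞) (w : W) (l : ℤ) (v t : V) (i : ℤ) : Prop :=
  T w univ v (pk σ w K l i) + T w (Rg σ w K l) (pk σ w K l i) t ≤ T w univ v t

/-- Tightness in the direction `ε`. -/
def Tig (σ : ℤ) (K : ℝ≥0∞) (w : W) (l : ℤ) (v : V) (t : ℕ → V) (𝓕 : Filter ℕ) (ε : ℤ) : Prop :=
  ∃ M : ℤ, ∀ᶠ n in 𝓕, ∀ i, M < ε * i → ¬ LeE σ K w l v (t n) i

/-- Deterministic form of tightness. -/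
theorem tig_of_coer (hfin : ∀ v, w v 0 ≠ ⊤ ∧ w v 1 ≠ ⊤) {l ε : ℤ} (hε : ε = 1 ∨ ε = -1) {η : ℝ}
    (hη : 0 < η) {ψ : ℤ → ℝ} (hco : CoD σ K w l ε η ψ) {t : ℕ → V} {𝓕 : Filter ℕ}
    (ht : ∀ᶠ n in 𝓕, ∀ i, T w (Rg σ w K l) (pk σ w K l i) (t n) ≠ ⊤)
    (hdom : ∀ᶠ n in 𝓕, ∀ i, 0 ≤ ε * i → tpot σ K w (t n) l 0 - tpot σ K w (t n) l i ≤ -ψ i) (v : V) :
    Tig σ K w l v t 𝓕 ε := by
  obtain ⟨C, hC⟩ := hco
  set a : ℝ := (T w univ v (pk σ w K l 0)).toReal with ha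
  obtain ⟨M, hM⟩ := exists_nat_ge ((2 * a + C) / η)
  refine ⟨M, ?_⟩
  filter_upwards [ht, hdom] with n h1 h2 i hi h3
  have hi0 : 0 ≤ ε * i := by
    have : (0 : ℤ) ≤ M := by positivity
    omega
  have h4 := h2 i hi0
  have h5 := hC i hi0
  have f0 := T_univ_ne_top hfin v (pk σ w K l 0)
  have fi := T_univ_ne_top hfin v (pk σ w K l i)
  have ft := T_univ_ne_top hfin v (t n)
  -- real form of the hypothesis
  have h6 : (T w univ v (pk σ w K l i)).toReal + tpot σ K w (t n) l i ≤ a + tpot σ K w (t n) l 0 := by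
    have h7 : T w univ v (pk σ w K l i) + T w (Rg σ w K l) (pk σ w K l i) (t n) ≤
        T w univ v (pk σ w K l 0) + T w (Rg σ w K l) (pk σ w K l 0) (t n) :=
      h3.trans ((T_triangle w univ v (pk σ w K l 0) (t n)).trans
        (add_le_add le_rfl (T_mono (subset_univ _) _ _)))
    have h8 := ENNReal.toReal_mono (ENNReal.add_ne_top.2 ⟨f0, h1 0⟩) h7
    rwa [ENNReal.toReal_add fi (h1 i), ENNReal.toReal_add f0 (h1 0)] at h8
  have h9 : (T w univ (pk σ w K l 0) (pk σ w K l i)).toReal ≤ a + (T w univ v (pk σ w K l i)).toReal := by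
    have h10 := T_triangle w univ (pk σ w K l 0) v (pk σ w K l i)
    rw [T_comm w univ (pk σ w K l 0) v] at h10
    have h11 := ENNReal.toReal_mono (ENNReal.add_ne_top.2 ⟨f0, fi⟩) h10
    rwa [ENNReal.toReal_add f0 fi] at h11
  have h12 : η * |(i : ℝ)| ≤ 2 * a + C := by linarith
  have h13 : |(i : ℝ)| = ((ε * i : ℤ) : ℝ) := by
    push_cast
    rcases hε with rfl | rfl
    · have : (0 : ℝ) ≤ i := by exact_mod_cast (by omega : (0 : ℤ) ≤ i)
      rw [abs_of_nonneg this]; push_cast; ring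
    · have : (i : ℝ) ≤ 0 := by exact_mod_cast (by omega : i ≤ (0 : ℤ))
      rw [abs_of_nonpos this]; push_cast; ring
  have h14 : ((ε * i : ℤ) : ℝ) ≤ M := by
    refine le_trans ?_ hM
    rw [le_div_iff₀ hη, ← h13, mul_comm]
    exact h12
  have h15 : ε * i ≤ M := by exact_mod_cast h14
  omega

/-- Tightness from domination of the increments, upper side. -/
theorem tig_up (hfin : ∀ v, w v 0 ≠ ⊤ ∧ w v 1 ≠ ⊤) {l : ℤ} {η : ℝ} (hη : 0 < η) {f : ℤ → ℝ}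
    (hco : CoD σ K w l 1 η (pot f)) {t : ℕ → V} {𝓕 : Filter ℕ}
    (ht : ∀ᶠ n in 𝓕, ∀ i, T w (Rg σ w K l) (pk σ w K l i) (t n) ≠ ⊤)
    (hdom : ∀ᶠ n in 𝓕, ∀ j, 0 ≤ j → BI w σ univ (ck σ w K l) (t n) j (j + 1) ≤ f j) (v : V) :
    Tig σ K w l v t 𝓕 1 := by
  refine tig_of_coer hfin (Or.inl rfl) hη hco ht ?_ v
  filter_upwards [hdom] with n h1 i hi
  have hi' : 0 ≤ i := by omega
  have h2 := tpot_eq_pot (σ := σ) (K := K) w (t n) l i
  have h3 := pot_le_of_le hi' (fun j hj _ => h1 j hj)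
  rw [pot_zero, pot_zero] at h3
  linarith

/-- Tightness from domination of the increments, lower side. -/
theorem tig_down (hfin : ∀ v, w v 0 ≠ ⊤ ∧ w v 1 ≠ ⊤) {l : ℤ} {η : ℝ} (hη : 0 < η) {f : ℤ → ℝ}
    (hco : CoD σ K w l (-1) η (pot f)) {t : ℕ → V} {𝓕 : Filter ℕ}
    (ht : ∀ᶠ n in 𝓕, ∀ i, T w (Rg σ w K l) (pk σ w K l i) (t n) ≠ ⊤)
    (hdom : ∀ᶠ n in 𝓕, ∀ j, j < 0 → f j ≤ BI w σ univ (ck σ w K l) (t n) j (j + 1)) (v : V) :
    Tig σ K w l v t 𝓕 (-1) := by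
  refine tig_of_coer hfin (Or.inr rfl) hη hco ht ?_ v
  filter_upwards [hdom] with n h1 i hi
  have hi' : i ≤ 0 := by omega
  have h2 := tpot_eq_pot (σ := σ) (K := K) w (t n) l i
  have h3 := pot_le_of_le (f := f) (g := fun j => BI w σ univ (ck σ w K l) (t n) j (j + 1)) hi'
    (fun j _ hj => h1 j hj)
  rw [pot_zero, pot_zero] at h3
  linarith

theorem Tig.ne {l : ℤ} {v : V} {t : ℕ → V} {𝓕 : Filter ℕ} {ε : ℤ} (h : Tig σ K w l v t 𝓕 ε) :
    ∃ M : ℤ, ∀ᶠ n in 𝓕, ∀ i, M < ε * i →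
      T w univ v (pk σ w K l i) + T w (Rg σ w K l) (pk σ w K l i) (t n) ≠ T w univ v (t n) := by
  obtain ⟨M, hM⟩ := h
  refine ⟨M, ?_⟩
  filter_upwards [hM] with n hn i hi he
  exact hn i hi he.le

theorem Tig.mono {l : ℤ} {v : V} {t : ℕ → V} {𝓕 𝓖 : Filter ℕ} {ε : ℤ} (h : Tig σ K w l v t 𝓕 ε)
    (hle : 𝓖 ≤ 𝓕) : Tig σ K w l v t 𝓖 ε := by
  obtain ⟨M, hM⟩ := h
  exact ⟨M, hM.filter_mono hle⟩

/-- Two-sided tightness. -/
theorem Tig.both {l : ℤ} {v : V} {t : ℕ → V} {𝓕 : Filter ℕ} (h : Tig σ K w l v t 𝓕 1)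
    (h' : Tig σ K w l v t 𝓕 (-1)) :
    ∃ M : ℕ, ∀ᶠ n in 𝓕, ∀ i, LeE σ K w l v (t n) i → |i| ≤ M := by
  obtain ⟨M, hM⟩ := h
  obtain ⟨M', hM'⟩ := h'
  refine ⟨(max M M').toNat, ?_⟩
  filter_upwards [hM, hM'] with n h1 h2 i hi
  have h3 : ¬ M < 1 * i := fun h => h1 i h hi
  have h4 : ¬ M' < (-1) * i := fun h => h2 i h hi
  rw [abs_le]
  constructor <;> omega

/-- Without escape the last entrances are bounded below. -/
theorem tig_of_not_esc {v : V} {𝓤 : Ultrafilter ℕ} (h : ¬ Esc K w v 𝓤) (l : ℤ) :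
    Tig 1 K w l v (fun n => ((n : ℤ), 0)) 𝓤 (-1) := by
  unfold Esc at h
  push Not at h
  obtain ⟨M, hM⟩ := h l
  refine ⟨M, ?_⟩
  filter_upwards [hM] with n hn i hi hle
  refine hn i (by omega) ?_
  refine le_antisymm ?_ (T_triangle _ _ _ _ _)
  exact (add_le_add le_rfl (T_mono (subset_univ _) _ _)).trans hle

/-- The targets `(n,0)` are in the region of the line `0`. -/
theorem tgt_mem_base (hσ : σ = 0 ∨ σ = 1) (hc : σ = 1 → Iaf 1 (-1) w K (Cone (-1))) :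
    ∀ᶠ n : ℕ in atTop, (((n : ℤ), 0) : V) ∈ Rg σ w K 0 := by
  rcases hσ with rfl | rfl
  · filter_upwards [eventually_ge_atTop (ck 0 w K 0 0).toNat] with n hn
    show ck 0 w K 0 (ix 0 (((n : ℤ), 0) : V)) ≤ (n : ℤ)
    have : ix 0 (((n : ℤ), 0) : V) = 0 := by simp [ix]
    rw [this]
    omega
  · obtain ⟨a, ha⟩ := hc rfl
    filter_upwards [eventually_ge_atTop a] with n hn
    have h1 : pk 1 w K 0 (-(n : ℤ)) ∈ Cone (-1) :=
      ha (-(n : ℤ)) (by push_cast; omega) (by simp [Bal])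
    show ck 1 w K 0 (ix 1 (((n : ℤ), 0) : V)) ≤ (n : ℤ)
    have : ix 1 (((n : ℤ), 0) : V) = -(n : ℤ) := by simp [ix]
    rw [this]
    unfold Cone pk pt at h1
    simp only [mem_setOf_eq] at h1
    rw [abs_le] at h1
    omega

end det

section prob

variable {F : Measure ℝ} [IsProbabilityMeasure F] {K : ℝ≥0∞} {σ : ℤ}

/-- The targets `(n,0)` are in all the regions. -/
theorem ae_tgt (hK : SmallK F K) (hσ : σ = 0 ∨ σ = 1) :
    ∀ᵐ ω ∂(iid Ed F), ∀ l : ℤ, ∀ᶠ n : ℕ in atTop, (((n : ℤ), 0) : V) ∈ Rg σ (wt ω) K l := by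
  have h1 : ∀ᵐ ω ∂(iid Ed F), (σ = 1 → Iaf 1 (-1) (wt ω) K (Cone (-1))) := by
    rcases hσ with rfl | rfl
    · exact Eventually.of_forall fun ω h => absurd h (by norm_num)
    · filter_upwards [(ae_iaf hK (Or.inr rfl) (s := -1) (Or.inr rfl)).1] with ω h _
      exact h
  have h2 := ae_shift_all (F := F) (P := fun w => σ = 1 → Iaf 1 (-1) w K (Cone (-1))) h1
  filter_upwards [h2] with ω h3 l
  have h4 := tgt_mem_base (w := sh ((l, 0) : V) (wt ω)) (K := K) hσ (h3 (l, 0))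
  obtain ⟨N, hN⟩ := eventually_atTop.1 h4
  filter_upwards [eventually_ge_atTop (N + l.natAbs)] with n hn
  have h5 := hN (((n : ℤ) - l).toNat) (by omega)
  have h6 := mem_Rg_sh (w := wt ω) (K := K) hσ ((l, 0) : V) l (((((n : ℤ) - l).toNat : ℤ), 0) : V)
  have e1 : l - ln σ ((l, 0) : V) = 0 := by simp [ln]
  rw [e1] at h6
  have h7 := h6.1 h5
  have e2 : ((((n : ℤ) - l).toNat : ℤ) + l) = n := by omega
  simp only [e2, add_zero] at h7
  exact h7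

/-- **(T1)** tightness above. -/
theorem ae_tig_up (hK : SmallK F K) (hσ : σ = 0 ∨ σ = 1) {u : V} {L : ℕ} (hu : Dir σ u) (hu2 : 0 < u.2)
    (hEV : EV σ F (glo σ K u L) < rho σ F K (vert σ)) :
    ∀ᵐ ω ∂(iid Ed F), ∀ (v : V) (l : ℤ), Tig σ K (wt ω) l v (fun n => ((n : ℤ), 0)) atTop 1 := by
  have hadm : Adm (glo σ K u L) (2 * K.toReal) :=
    ⟨fun w hw i => measurable_glo hw σ K u L i, fun i w => abs_glo_le _ _ _ _ _ _⟩
  obtain ⟨η, hη, hco⟩ := coer_line hK hσ hadm (ε := 1) (Or.inl rfl) (by push_cast; rw [one_mul]; exact hEV)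
  filter_upwards [hco, ae_cv hK hσ, ae_tgt hK hσ] with ω h1 h2 h3 v l
  have hu1 := hu.1
  have hneg : -u.1 ≤ u.2 := by omega
  obtain ⟨B, hB⟩ := exists_dom_lo h2.cb (fun s => h2.lo s u hu) hu.1 hneg (fun _ => by omega) L l 0
  refine tig_up h2.cb.fin hη (h1 l) ?_ ?_ v
  · filter_upwards [h3 l] with n hn i
    have := TI_univ_ne_top hσ (ck_stp hσ h2.cb.good l) (pk_open h2.cb.good l) hK.1 h2.cb.fin i hn
    rwa [TI_univ] at this
  · filter_upwards [h3 l, eventually_gt_atTop B.toNat] with n hn hn2 j hj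
    refine hB _ hn ?_ j hj
    unfold det
    simp only [mul_zero, zero_sub, neg_lt_neg_iff]
    have : B < (n : ℤ) := by omega
    nlinarith

/-- **(T2)** tightness below for columns. -/
theorem ae_tig_down (hK : SmallK F K) {u : V} {L : ℕ} (hu1 : 0 < u.1) (hu2 : u.2 < 0)
    (hu3 : -u.1 < u.2) (hEV : -EV 0 F (gup 0 K u L) < rho 0 F K (vert 0)) :
    ∀ᵐ ω ∂(iid Ed F), ∀ (v : V) (l : ℤ), Tig 0 K (wt ω) l v (fun n => ((n : ℤ), 0)) atTop (-1) := by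
  have hσ : (0 : ℤ) = 0 ∨ (0 : ℤ) = 1 := Or.inl rfl
  have hadm : Adm (gup 0 K u L) (2 * K.toReal) :=
    ⟨fun w hw i => measurable_gup hw 0 K u L i, fun i w => abs_gup_le _ _ _ _ _ _⟩
  obtain ⟨η, hη, hco⟩ := coer_line hK hσ hadm (ε := -1) (Or.inr rfl) (by
    push_cast; rw [neg_one_mul]; exact hEV)
  filter_upwards [hco, ae_cb hK hσ, ae_tgt hK hσ] with ω h1 h2 h3 v l
  obtain ⟨B, hB⟩ := exists_dom_up h2 (fun s => h2.up hu1 (fun _ => ⟨hu3, by omega⟩)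
    (fun h => absurd h (by norm_num)) s) hu1 (fun _ => by omega) (fun h => absurd h (by norm_num)) L l 0
  refine tig_down h2.fin hη (h1 l) ?_ ?_ v
  · filter_upwards [h3 l] with n hn i
    have := TI_univ_ne_top hσ (ck_stp hσ h2.good l) (pk_open h2.good l) hK.1 h2.fin i hn
    rwa [TI_univ] at this
  · filter_upwards [h3 l, eventually_gt_atTop B.toNat] with n hn hn2 j hj
    refine hB _ hn ?_ j hj.le
    unfold det
    simp only [mul_zero, zero_sub]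
    have : B < (n : ℤ) := by omega
    nlinarith

end prob

end C7
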