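import Mathlib
import Pool.Agent.Lib.MP_c725eb_pr.DEscA
import Pool.Agent.Lib.MP_c725eb_pr.Tight
import Pool.Agent.Lib.MP_c725eb_pr.StripInst

/-!
# The limit path of the geodesics and its class
-/

set_option autoImplicit false

namespace C7

open MeasureTheory Filter Set
open scoped ENNReal NNReal Topology

/-! ### leaving a strip -/

/-- A strip can only be left at a vertex of its right boundary. -/
theorem exit_lft {σ : ℤ} (hσ : σ = 0 ∨ σ = 1) {d : ℤ → ℤ} (h : Stp σ d) {u v : V} (huv : Nb u v)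
    (hu : u ∈ lft σ d) (hv : v ∉ lft σ d) : u = pt σ d (ix σ u) := by
  apply eq_pt
  obtain ⟨u1, u2⟩ := u
  obtain ⟨v1, v2⟩ := v
  simp only [lft, Set.mem_ofPred_eq, not_le, ix] at hu hv ⊢
  rcases hσ with rfl | rfl
  · simp only [zero_mul, sub_zero] at hu hv ⊢
    rcases huv with e | e | e | e <;> simp only [Prod.mk.injEq] at e
    · obtain ⟨rfl, rfl⟩ := e
      omega
    · obtain ⟨rfl, rfl⟩ := e
      omega
    · obtain ⟨rfl, rfl⟩ := e
      have := h u2
      omega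
    · obtain ⟨rfl, rfl⟩ := e
      have := h v2
      omega
  · simp only [one_mul] at hu hv ⊢
    rcases huv with e | e | e | e <;> simp only [Prod.mk.injEq] at e
    · obtain ⟨rfl, rfl⟩ := e
      have := h (v2 - (u1 + 1))
      have e : v2 - (u1 + 1) + 1 = v2 - u1 := by ring
      rw [e] at this
      omega
    · obtain ⟨rfl, rfl⟩ := e
      have := h (u2 - (v1 + 1))
      have e : u2 - (v1 + 1) + 1 = u2 - v1 := by ring
      rw [e] at this
      omega
    · obtain ⟨rfl, rfl⟩ := e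
      have := h (u2 - v1)
      have e : u2 - v1 + 1 = u2 + 1 - v1 := by ring
      rw [e] at this
      omega
    · obtain ⟨rfl, rfl⟩ := e
      have := h (v2 - u1)
      have e : v2 - u1 + 1 = v2 + 1 - u1 := by ring
      rw [e] at this
      omega

theorem stp_rb {σ : ℤ} {K : ℝ≥0∞} {w : W} (h : Cfg σ K w) (N : ℤ) : Stp σ (rb σ w K N) := by
  intro i
  have := ck_stp h.hσ h.good (K := K) (w := w) N i
  unfold rb
  omega

section det

variable {σ : ℤ} {K : ℝ≥0∞} {w : W}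

/-- Prefixes of geodesics are geodesics. -/
theorem geo_prefix {D : Set V} {x t a : V} {l₁ l₂ : List V} (h : IsW D x t (l₁ ++ a :: l₂))
    (hc : cost w (l₁ ++ a :: l₂) = T w D x t) (hT : T w D x t ≠ ⊤) :
    cost w (l₁ ++ [a]) = T w D x a ∧ T w D x a + T w D a t = T w D x t := by
  have h1 := geo_suffix h hc hT
  have h2 : T w D x a ≤ cost w (l₁ ++ [a]) := T_le h.pre
  have h3 : T w D x t ≤ T w D x a + T w D a t := T_triangle w D x a t
  rw [← hc, cost_append, h1.1] at h3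
  rw [← hc, cost_append, h1.1] at hT
  have h5 : cost w (l₁ ++ [a]) = T w D x a :=
    le_antisymm ((ENNReal.add_le_add_iff_right (ENNReal.add_ne_top.1 hT).2).1 h3) h2
  refine ⟨h5, ?_⟩
  rw [← hc, cost_append, h5, h1.1]

/-- The strip property of a last entrance: for a target outside of the strip there is a vertex of the
right boundary. -/
theorem strip_of_am (h : Cfg σ K w) {k l : ℤ} (hkl : k ≤ l) {x u : ℤ} {A : List V}
    (hA : Hd w (Rg σ w K k) (Rg σ w K l) (pk σ w K k x) (pk σ w K l u) A) {N : ℤ} (hlN : l ≤ N)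
    (hin : ∀ v ∈ A ++ [pk σ w K l u], v ∈ St σ w K N) {t : V} (ht : t ∉ St σ w K N)
    (ham : AM w σ univ (ck σ w K k) (ck σ w K l) t x u) :
    ∃ j, vS σ K w N k l j x = u ∧
      ∀ y, tpot σ K w t k y - tpot σ K w t k x ≤ phS σ K w N j k y - phS σ K w N j k x := by
  have htl : t ∈ Rg σ w K l := by
    have := ham.mem.2.2
    rwa [inter_univ] at this
  have htk : t ∈ Rg σ w K k := Rg_anti h.hσ h.good hkl htl
  have hA' : Hd w (reg σ (ck σ w K k) ∩ univ) (reg σ (ck σ w K l) ∩ univ) (pt σ (ck σ w K k) x)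
      (pt σ (ck σ w K l) u) A := by rw [inter_univ, inter_univ]; exact hA
  obtain ⟨B, hB, hAB, hcAB, hlast⟩ := ham.walk h.eg (h.ck_mono hkl) hA'
  rw [inter_univ] at hB hAB
  change IsW (Rg σ w K k) (pk σ w K k x) t (A ++ B) at hAB
  change IsW (Rg σ w K l) (pk σ w K l u) t B at hB
  rw [TI_univ] at hcAB
  change cost w (A ++ B) = T w (Rg σ w K k) (pk σ w K k x) t at hcAB
  have hTk := h.fin_Rg k x htk
  -- the first exit from the strip
  obtain ⟨B₁, b, B₂, hBe, hb, hB1⟩ := exists_first (P := fun v => v ∉ St σ w K N) (l := B)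
    ⟨t, by obtain ⟨B₀, rfl⟩ := hB.eq_concat; simp, ht⟩
  have hB1' : ∀ v ∈ B₁, v ∈ St σ w K N := fun v hv => by
    have := hB1 v hv
    rwa [not_not] at this
  rcases B₁.eq_nil_or_concat with hnil | ⟨B₀, a, hBa⟩
  · exfalso
    rw [hnil, List.nil_append] at hBe
    obtain ⟨B₃, hB3⟩ := hB.eq_cons
    rw [hBe] at hB3
    have e : b = pk σ w K l u := by
      have := List.cons.inj hB3
      exact this.1
    exact hb (e ▸ hin _ (by simp))
  rw [List.concat_eq_append] at hBa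
  subst hBa
  have ha : a ∈ St σ w K N := hB1' a (by simp)
  have eB : B = B₀ ++ a :: (b :: B₂) := by rw [hBe]; simp
  have eAB : A ++ B = (A ++ B₀) ++ a :: (b :: B₂) := by rw [eB]; simp
  -- `a` is a boundary vertex
  have hctop : cost w (A ++ B) ≠ ⊤ := by rw [hcAB]; exact hTk
  have hstep : step w a b ≠ ⊤ := by
    intro h'
    apply hctop
    rw [eAB, cost_append, cost_cons_cons, h', top_add, add_top]
  have hexit := exit_lft h.hσ (stp_rb h N) (nb_of_step_ne_top h.hw hstep) ha hb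
  set j := ix σ a with hj
  have haw : a = wh σ w K N j := hexit
  -- the walk up to `a`
  have hAB' := hAB
  rw [eAB] at hAB' hcAB
  have hpre := geo_prefix hAB' hcAB hTk
  have hBpre : IsW (Rg σ w K l) (pk σ w K l u) a (B₀ ++ [a]) := by
    have := hB
    rw [eB] at this
    exact this.pre
  have hSt : ∀ v ∈ (A ++ B₀) ++ [a], v ∈ St σ w K N := by
    intro v hv
    simp only [List.mem_append, List.mem_singleton] at hv
    rcases hv with (hv | hv) | hv
    · exact hin v (by simp [hv])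
    · exact hB1' v (by simp [hv])
    · rw [hv]; exact ha
  have hW : IsW (Rg σ w K k ∩ St σ w K N) (pk σ w K k x) a ((A ++ B₀) ++ [a]) := by
    have := hAB'.pre
    exact ⟨this.1, this.2.1, fun v hv => ⟨this.2.2 v hv, hSt v hv⟩⟩
  have hWl : IsW (Rg σ w K l ∩ St σ w K N) (pk σ w K l u) a (B₀ ++ [a]) :=
    ⟨hBpre.1, hBpre.2.1, fun v hv => ⟨hBpre.2.2 v hv, hSt v (by
      simp only [List.mem_append, List.mem_singleton] at hv ⊢; tauto)⟩⟩
  have hTI : TI w σ (St σ w K N) (ck σ w K k) x (wh σ w K N j) = T w (Rg σ w K k) (pk σ w K k x) a := by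
    rw [← haw]
    refine le_antisymm ?_ (T_mono inter_subset_left _ _)
    rw [← hpre.1]
    exact T_le hW
  have hfin : T w (Rg σ w K k) (pk σ w K k x) a ≠ ⊤ := by
    intro h'
    apply hTk
    rw [← hpre.2, h', top_add]
  -- the last entrance in the strip
  have hamS : AM w σ (St σ w K N) (ck σ w K k) (ck σ w K l) (wh σ w K N j) x u := by
    have hxS : pt σ (ck σ w K k) x ∈ St σ w K N := by
      have h1 := hW.left_mem
      exact h1.2
    refine ⟨le_antisymm (TI_le (h.ck_mono hkl) hxS) ?_, by rw [hTI]; exact hfin⟩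
    rw [hTI, ← hpre.1]
    have h1 : TI w σ (St σ w K N) (ck σ w K l) u (wh σ w K N j) ≤ cost w (B₀ ++ [a]) := by
      rw [← haw]
      exact T_le hWl
    obtain ⟨B₃, hB3⟩ := hWl.eq_cons
    have h2 : cost w ((A ++ B₀) ++ [a]) = cost w (A ++ [pk σ w K l u]) + cost w (B₀ ++ [a]) := by
      rw [List.append_assoc, hB3, cost_append]
    rw [h2]
    refine add_le_add ?_ h1
    rw [hA.2.2.1]
    rcases A.eq_nil_or_concat with rfl | ⟨A₀, q, rfl⟩
    · have h3 : pk σ w K k x = pk σ w K l u := by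
        have := hA.1.1
        simpa using this.symm
      unfold KI
      unfold pk at h3
      rw [h3, Kn_self]
      exact zero_le
    · rw [← hA.2.2.1]
      have h3 : (A₀.concat q) ++ [pk σ w K l u] = A₀ ++ q :: [pk σ w K l u] := by simp
      have hq : q ∉ Rg σ w K l := hA.2.1 q (by simp)
      have hW1 := hA.1
      rw [h3] at hin hW1
      have hW' : IsW (reg σ (ck σ w K k) ∩ St σ w K N) (pt σ (ck σ w K k) x) (pt σ (ck σ w K l) u)
          (A₀ ++ q :: [pk σ w K l u]) :=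
        ⟨hW1.1, hW1.2.1, fun v hv => ⟨hW1.2.2 v hv, hin v hv⟩⟩
      rw [h3, cost_append]
      unfold KI
      refine (Kn_le (hW'.2.2 q (by simp)) fun h' => hq h'.1).trans ?_
      refine add_le_add (T_le hW'.pre) ?_
      rw [cost_cons_cons]
      simp
      rfl
  refine ⟨j, ?_, fun y => ?_⟩
  · exact AM.unique h.ug h.eg (h.ck_mono hkl) (AM_vS h.hσ h.hw h.fin h.hK h.good h.eg hkl hlN j x) hamS
  · have hfinW := (stripH_of_good h.hσ h.hw h.fin h.hK h.good N).fin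
      (curvH_of_good h.hσ h.good (hkl.trans hlN)) j y
    have hat : T w (Rg σ w K k) a t ≠ ⊤ := by
      intro h'
      apply hTk
      rw [← hpre.2, h', add_top]
    have h1 : T w (Rg σ w K k) (pk σ w K k y) t ≤
        TI w σ (St σ w K N) (ck σ w K k) y (wh σ w K N j) + T w (Rg σ w K k) a t := by
      refine (T_triangle w _ _ a _).trans (add_le_add ?_ le_rfl)
      rw [← haw]
      exact T_mono inter_subset_left _ _
    have hfinW' : TI w σ (St σ w K N) (ck σ w K k) y (wh σ w K N j) ≠ ⊤ := hfinW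
    have h2 := ENNReal.toReal_mono (ENNReal.add_ne_top.2 ⟨hfinW', hat⟩) h1
    rw [ENNReal.toReal_add hfinW' hat] at h2
    have h3 := congrArg ENNReal.toReal hpre.2
    rw [ENNReal.toReal_add hfin hat] at h3
    have h4 : phS σ K w N j k x = (T w (Rg σ w K k) (pk σ w K k x) a).toReal := by
      unfold phS
      rw [hTI]
    unfold tpot
    rw [h4]
    unfold phS
    linarith

end det

/-! ### ultrafilter limits -/

theorem ultra_tendsto {𝓤 : Ultrafilter ℕ} {f : ℕ → ℝ} {C : ℝ} (h : ∀ᶠ n in (𝓤 : Filter ℕ), |f n| ≤ C) :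
    ∃ a, Tendsto f 𝓤 (𝓝 a) := by
  have h1 : ((𝓤.map f : Ultrafilter ℝ) : Filter ℝ) ≤ 𝓟 (Icc (-C) C) := by
    rw [Ultrafilter.coe_map, le_principal_iff, mem_map]
    filter_upwards [h] with n hn
    exact abs_le.1 hn
  obtain ⟨a, _, ha⟩ := isCompact_Icc.ultrafilter_le_nhds (𝓤.map f) h1
  exact ⟨a, ha⟩

section frel

variable {σ : ℤ} {K : ℝ≥0∞} {F : Measure ℝ}

/-- Flow relations with the kernels. -/
def Frel (ki : Om → ℤ → ℤ → ℤ → ℤ → ℝ≥0∞) (S : FlowSys σ K F) (ω : Om) : Prop :=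
  ∀ k l, k ≤ l → ∃ c : ℝ, ∀ x,
    (∀ u, ki ω k l x u ≠ ⊤ → S.φ ω k x + c ≤ (ki ω k l x u).toReal + S.φ ω l u) ∧
    (ki ω k l x (S.v ω k l x)).toReal + S.φ ω l (S.v ω k l x) = S.φ ω k x + c

/-- The kernels of the whole regions. -/
noncomputable def kiU (σ : ℤ) (K : ℝ≥0∞) (ω : Om) (k l x u : ℤ) : ℝ≥0∞ :=
  KI (wt ω) σ univ (ck σ (wt ω) K k) (ck σ (wt ω) K l) x u

theorem frel_of_flw {S : FlowSys σ K F} {ω : Om} (h : Cfg σ K (wt ω)) (hF : Flw σ K (wt ω) (S.φ ω))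
    (hv : ∀ k l x, k ≤ l → En σ K (wt ω) (S.φ ω l) k l x (S.v ω k l x)) : Frel (kiU σ K) S ω := by
  intro k l hkl
  obtain ⟨c, hc⟩ := hF.rel k l hkl
  refine ⟨c, fun x => ⟨fun u hu => ?_, ?_⟩⟩
  · have h1 := (hc x).1 u
    unfold kiU at hu ⊢
    rw [KI_univ] at hu ⊢
    have h2 := ENNReal.toReal_mono hu (T_le_Kn (w := wt ω) (R := Rg σ (wt ω) K l) (pk_mem k x)
      (Rg_anti h.hσ h.good hkl (pk_mem l u)))
    have h3 : (T (wt ω) (Rg σ (wt ω) K k) (pk σ (wt ω) K k x) (pk σ (wt ω) K l u)).toReal ≤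
      (Kn (wt ω) (reg σ (ck σ (wt ω) K k)) (reg σ (ck σ (wt ω) K l)) (pt σ (ck σ (wt ω) K k) x)
        (pt σ (ck σ (wt ω) K l) u)).toReal := h2
    linarith
  · unfold kiU
    rw [KI_univ]
    exact (((hc x).ent_iff (h.eh hkl x) (hF.lip l) _).1 (hv k l x hkl)).2

theorem uniqArg_of_flw {S : FlowSys σ K F} {ω : Om} (h : Cfg σ K (wt ω)) (hF : Flw σ K (wt ω) (S.φ ω))
    (hv : ∀ k l x, k ≤ l → En σ K (wt ω) (S.φ ω l) k l x (S.v ω k l x)) : UniqArg (kiU σ K) S ω := by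
  intro k l x hkl
  have hE := hv k l x hkl
  unfold kiU
  refine ⟨by rw [KI_univ]; exact hE.1, fun u hu hfin => ?_⟩
  rw [KI_univ] at hfin ⊢
  rw [KI_univ]
  have h1 := Ent.le_kn (h.eh hkl x) hE hfin
  rcases h1.eq_or_lt with h2 | h2
  · exfalso
    apply hu
    refine hF.uniq k l x hkl u _ ⟨hfin, fun j => ?_⟩ hE
    have h3 := hE.2 j
    have h4 : (Kn (wt ω) (Rg σ (wt ω) K k) (Rg σ (wt ω) K l) (pk σ (wt ω) K k x)
      (pk σ (wt ω) K l (S.v ω k l x))).toReal + S.φ ω l (S.v ω k l x) =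
      (Kn (wt ω) (Rg σ (wt ω) K k) (Rg σ (wt ω) K l) (pk σ (wt ω) K k x)
      (pk σ (wt ω) K l u)).toReal + S.φ ω l u := h2
    rw [← h4]
    exact h3
  · exact h2

end frel

section pd

variable {σ : ℤ} {K : ℝ≥0∞} {F : Measure ℝ}

/-- **The class of the limit path.** -/
theorem exists_PD (X : XSys σ K F) {ω : Om} (h : Cfg σ K (wt ω))
    (hki : ∀ k l x u, X.ki ω k l x u = kiU σ K ω k l x u)
    (hph : ∀ n h k x, X.Z.ph ω n h k x = phS σ K (wt ω) n h k x)
    (hvS : ∀ n k l h x, X.Z.v ω n k l h x = vS σ K (wt ω) n k l h x)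
    (hreg : X.S.Reg ω) (hun : UniqArg X.ki X.S ω) (hrel : Frel X.ki X.S ω)
    (hdom : ∀ (k i : ℤ) (δ : ℝ), 0 < δ → ∀ᶠ n : ℕ in atTop,
      tpot σ K (wt ω) ((n : ℤ), 0) k i - tpot σ K (wt ω) ((n : ℤ), 0) k (i + 1) ≤
        X.S.φ ω k i - X.S.φ ω k (i + 1) + δ)
    (hmem : ∀ l, ∀ᶠ n : ℕ in atTop, (((n : ℤ), 0) : V) ∈ Rg σ (wt ω) K l)
    (hst : ∀ N, ∀ᶠ n : ℕ in atTop, (((n : ℤ), 0) : V) ∉ St σ (wt ω) K N)
    {𝓤 : Ultrafilter ℕ} (h𝓤 : (𝓤 : Filter ℕ) ≤ atTop) {r : ℕ → V} {z : ℤ → ℤ}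
    (hz : ∀ l, ∀ᶠ n : ℕ in (𝓤 : Filter ℕ), LEn σ K (wt ω) l (r n) ((n : ℤ), 0) (z l)) :
    ∃ κ : ℤ → ℤ → ℝ, PD X ω z κ ∧ ∀ k x y, Tendsto (fun n : ℕ => tpot σ K (wt ω) ((n : ℤ), 0) k x -
      tpot σ K (wt ω) ((n : ℤ), 0) k y) 𝓤 (𝓝 (κ k x - κ k y)) := by
  -- the class
  have hbd : ∀ k i, ∃ a, Tendsto (fun n : ℕ => tpot σ K (wt ω) ((n : ℤ), 0) k i -
      tpot σ K (wt ω) ((n : ℤ), 0) k 0) 𝓤 (𝓝 a) := by
    intro k i
    refine ultra_tendsto (C := (T (wt ω) (Rg σ (wt ω) K k) (pk σ (wt ω) K k i) (pk σ (wt ω) K k 0)).toReal) ?_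
    filter_upwards [h𝓤 (hmem k)] with n hn
    have h1 := h.tpot_lip hn i 0
    have h2 := h.tpot_lip hn 0 i
    rw [T_comm (wt ω) (Rg σ (wt ω) K k) (pk σ (wt ω) K k 0)] at h2
    rw [abs_le]
    constructor <;> linarith
  choose κ hκ using hbd
  have hlim : ∀ k x y, Tendsto (fun n : ℕ => tpot σ K (wt ω) ((n : ℤ), 0) k x -
      tpot σ K (wt ω) ((n : ℤ), 0) k y) 𝓤 (𝓝 (κ k x - κ k y)) := by
    intro k x y
    refine ((hκ k x).sub (hκ k y)).congr fun n => ?_
    ring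
  refine ⟨κ, ?_, hlim⟩
  have ham : ∀ k l, k ≤ l → ∀ᶠ n : ℕ in (𝓤 : Filter ℕ),
      AM (wt ω) σ univ (ck σ (wt ω) K k) (ck σ (wt ω) K l) ((n : ℤ), 0) (z k) (z l) := by
    intro k l hkl
    filter_upwards [hz k, hz l] with n h1 h2
    exact h1.am h hkl h2
  have hfin : ∀ k l, k ≤ l → kiU σ K ω k l (z k) (z l) ≠ ⊤ := by
    intro k l hkl
    obtain ⟨n, hn⟩ := (ham k l hkl).exists
    exact hn.fin.1
  have harg : ∀ k l, k ≤ l → ∀ u, kiU σ K ω k l (z k) u ≠ ⊤ →
      (kiU σ K ω k l (z k) (z l)).toReal + κ l (z l) ≤ (kiU σ K ω k l (z k) u).toReal + κ l u := by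
    intro k l hkl u hu
    exact AM.lim_arg h hkl (ham k l hkl) (h𝓤 (hmem l)) (fun i => hlim l i (z l)) hu
  have hleb : ∀ k i, κ k i - κ k (i + 1) ≤ X.S.φ ω k i - X.S.φ ω k (i + 1) := by
    intro k i
    refine le_of_forall_pos_le_add fun δ hδ => ?_
    refine le_of_tendsto (hlim k i (i + 1)) ?_
    exact h𝓤 (hdom k i δ hδ)
  have hcomp : ∀ k m l, k ≤ m → m ≤ l → kiU σ K ω k l (z k) (z l) =
      kiU σ K ω k m (z k) (z m) + kiU σ K ω m l (z m) (z l) := by
    intro k m l hkm hml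
    obtain ⟨n, h1, h2, h3⟩ := ((ham k m hkm).and ((ham m l hml).and (ham k l (hkm.trans hml)))).exists
    have e1 := h1.1
    have e2 := h2.1
    have e3 := h3.1
    rw [e2, ← add_assoc] at e1
    rw [e1] at e3
    exact ((ENNReal.add_left_inj h3.fin.2).1 e3).symm
  refine ⟨fun k l hkl => ?_, fun k l hkl u hu => ?_, fun k m l hkm hml hzl => ?_, fun k l hkl => ?_, hleb⟩
  · rw [hki]; exact hfin k l hkl.le
  · rw [hki] at hu
    rw [hki, hki]
    exact harg k l hkl.le u hu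
  · -- the intermediate points of a flow path
    by_contra hne
    set u := X.S.v ω k m (z k) with hu
    have hkm' := hkm.le
    have hml' := hml.le
    have hvl : X.S.v ω m l u = z l := by rw [hu, hreg.2 k m l hkm' hml', hzl]
    obtain ⟨u1, u2⟩ := hun k m (z k) hkm'
    have h1 := u2 (z m) hne (by rw [hki]; exact hfin k m hkm')
    obtain ⟨c, hc⟩ := hrel m l hml'
    have h2 := (hc (z m)).1 (z l) (by rw [hki]; exact hfin m l hml')
    have h3 := (hc u).2
    rw [hvl] at h3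
    have h4 : X.ki ω m l u (z l) ≠ ⊤ := by
      have := (hun m l u hml').1
      rwa [hvl] at this
    -- composition of the kernels
    have h5 : X.ki ω k l (z k) (z l) ≤ X.ki ω k m (z k) u + X.ki ω m l u (z l) := by
      rw [hki, hki, hki]
      unfold kiU
      rw [KI_univ, KI_univ, KI_univ]
      have h6 := Kn_comp (w := wt ω) (Rg_anti h.hσ h.good hkm') (Rg_anti h.hσ h.good hml')
        (pk_mem (σ := σ) (w := wt ω) (K := K) k (z k)) (pk_mem (σ := σ) (w := wt ω) (K := K) l (z l))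
      have h7 : Kn (wt ω) (Rg σ (wt ω) K k) (Rg σ (wt ω) K l) (pk σ (wt ω) K k (z k))
          (pk σ (wt ω) K l (z l)) ≤
        Kn (wt ω) (Rg σ (wt ω) K k) (Rg σ (wt ω) K m) (pk σ (wt ω) K k (z k)) (pk σ (wt ω) K m u) +
          Kn (wt ω) (Rg σ (wt ω) K m) (Rg σ (wt ω) K l) (pk σ (wt ω) K m u) (pk σ (wt ω) K l (z l)) := by
        rw [h6]
        exact iInf₂_le (pk σ (wt ω) K m u) (pk_mem _ _)
      exact h7
    have h8 := ENNReal.toReal_mono (ENNReal.add_ne_top.2 ⟨u1, h4⟩) h5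
    rw [ENNReal.toReal_add u1 h4] at h8
    have h9 : (X.ki ω k l (z k) (z l)).toReal = (X.ki ω k m (z k) (z m)).toReal +
        (X.ki ω m l (z m) (z l)).toReal := by
      rw [hki, hki, hki, hcomp k m l hkm' hml', ENNReal.toReal_add (hfin k m hkm') (hfin m l hml')]
    linarith
  · -- strips
    obtain ⟨A, hA⟩ := exists_head h.eg (D := Rg σ (wt ω) K k) (R := Rg σ (wt ω) K l)
      (x := pk σ (wt ω) K k (z k)) (y := pk σ (wt ω) K l (z l)) (pk_mem _ _)
      (Rg_anti h.hσ h.good hkl.le (pk_mem _ _)) (by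
        have := hfin k l hkl.le
        unfold kiU at this
        rwa [KI_univ] at this)
    have h1 : ∀ᶠ n : ℤ in atTop, ∀ v ∈ A ++ [pk σ (wt ω) K l (z l)], v ∈ St σ (wt ω) K n := by
      have h2 : {v | v ∈ A ++ [pk σ (wt ω) K l (z l)]}.Finite := List.finite_toSet _
      exact (h2.eventually_all).2 fun v _ => mem_St_ev h.hσ h.good v
    obtain ⟨n0, hn0⟩ := eventually_atTop.1 h1
    refine ⟨max n0 l, fun N hN x ε hε => ?_⟩
    have hlim' := hlim k x (z k)
    have h3 : ∀ᶠ n : ℕ in (𝓤 : Filter ℕ), κ k x - κ k (z k) - ε <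
        tpot σ K (wt ω) ((n : ℤ), 0) k x - tpot σ K (wt ω) ((n : ℤ), 0) k (z k) :=
      hlim'.eventually (eventually_gt_nhds (by linarith))
    obtain ⟨n, h4, h5, h6⟩ := (h3.and ((ham k l hkl.le).and (h𝓤 (hst N)))).exists
    obtain ⟨j, hj1, hj2⟩ := strip_of_am h hkl.le hA ((le_max_right n0 l).trans hN)
      (hn0 N ((le_max_left n0 l).trans hN)) h6 h5
    refine ⟨j, by rw [hvS]; exact hj1, ?_⟩
    rw [hph, hph]
    have := hj2 x
    linarith

end pd

end C7
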