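import Mathlib
import Pool.Agent.Lib.MP_c725eb_pr.DataPD

/-!
# The limit path exists if the last entrances are tight
-/

set_option autoImplicit false

namespace C7

open MeasureTheory Filter Set
open scoped ENNReal NNReal Topology

section det

variable {σ : ℤ} {K : ℝ≥0∞} {w : W}

/-- Domination of the increments of the horizontal targets by the class `b`. -/
theorem dom_hor (h : Cfg σ K w) (hmem : ∀ l, ∀ᶠ n : ℕ in atTop, (((n : ℤ), 0) : V) ∈ Rg σ w K l)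
    (k i : ℤ) {δ : ℝ} (hδ : 0 < δ) : ∀ᶠ n : ℕ in atTop,
      tpot σ K w ((n : ℤ), 0) k i - tpot σ K w ((n : ℤ), 0) k (i + 1) ≤ mv σ (blo σ K) k i w + δ := by
  set w' := sh (ss σ k i) w with hw'
  set i' := rr σ k i with hi'
  have e : mv σ (blo σ K) k i w = ⨅ j : ℕ, ⨅ L : ℕ, glo σ K ((j : ℤ) + 2, 1) L i' w' := rfl
  have hlt : (⨅ j : ℕ, ⨅ L : ℕ, glo σ K ((j : ℤ) + 2, 1) L i' w') < mv σ (blo σ K) k i w + δ := by
    rw [← e]; linarith
  obtain ⟨j, hj⟩ := exists_lt_of_ciInf_lt hlt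
  obtain ⟨L, hL⟩ := exists_lt_of_ciInf_lt hj
  set u : V := ((j : ℤ) + 2, 1) with hu
  have hu1 : 0 < u.1 := by rw [hu]; simp only; positivity
  have hu2 : (0 : ℤ) < u.2 := by rw [hu]; simp
  have hu3 : u.2 < u.1 := by rw [hu]; simp only; omega
  obtain ⟨B, hB⟩ := exists_dom_lo h.cb (fun s => h.cb.lo hu1 (fun _ => ⟨by omega, hu3⟩)
    (fun _ => hu2) s) hu1 (by omega) (fun _ => by omega) L k i
  filter_upwards [hmem k, eventually_ge_atTop (B.natAbs + 1)] with n h1 h2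
  have hd : det u ((n : ℤ), 0) < -B := by
    unfold det
    simp only [mul_zero, zero_sub]
    have h5 : (B.natAbs : ℤ) + 1 ≤ n := by exact_mod_cast h2
    rw [Int.natCast_natAbs] at h5
    have h6 := le_abs_self B
    have h7 : (n : ℤ) ≤ u.2 * n := le_mul_of_one_le_left (by positivity) (by omega)
    omega
  rw [tpot_sub]
  exact (hB _ h1 hd i le_rfl).trans (le_of_lt hL)

/-- Horizontal targets are eventually outside of the strips. -/
theorem hor_notMem_St (h : Cfg σ K w) (hf : σ = 1 → Fluct 1 K w) (N : ℤ) :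
    ∀ᶠ n : ℕ in atTop, (((n : ℤ), 0) : V) ∉ St σ w K N := by
  rcases h.hσ with rfl | rfl
  · filter_upwards [eventually_ge_atTop ((ck 0 w K N 0).natAbs + 2)] with n hn hmem
    have h1 : (n : ℤ) ≤ ck 0 w K N (ix 0 (((n : ℤ), 0) : V)) + (1 - 0) := hmem
    have e : ix 0 (((n : ℤ), 0) : V) = 0 := by simp [ix]
    rw [e] at h1
    omega
  · obtain ⟨n0, hn0, h1⟩ := (hf rfl).int (q := 2) (by norm_num)
    filter_upwards [eventually_ge_atTop (4 * (max N n0).natAbs + 1)] with n hn hmem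
    have h0 : (n : ℤ) ≤ ck 1 w K N (ix 1 (((n : ℤ), 0) : V)) + (1 - 1) := hmem
    have e : ix 1 (((n : ℤ), 0) : V) = -(n : ℤ) := by simp [ix]
    rw [e] at h0
    have h2 := h1 (max N n0) (le_max_right _ _) (-(n : ℤ))
    have h3 := h.ck_mono (le_max_left N n0) (-(n : ℤ))
    rw [ln_pk_eq, abs_neg, abs_of_nonneg (by positivity : (0 : ℤ) ≤ (n : ℤ))] at h2
    have h4 : (0 : ℤ) ≤ max N n0 := hn0.trans (le_max_right _ _)
    simp only [one_mul] at h2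
    omega

/-- The limits of the last entrances exist if the forward ray and the reversed ray are tight. -/
theorem exists_z (h : Cfg σ K w) (h' : Cfg σ K (gw rn w))
    (hmem : ∀ l, ∀ᶠ n : ℕ in atTop, (((n : ℤ), 0) : V) ∈ Rg σ w K l)
    (hmem' : ∀ l, ∀ᶠ n : ℕ in atTop, (((n : ℤ), 0) : V) ∈ Rg σ (gw rn w) K l)
    {𝓤 : Ultrafilter ℕ} (h𝓤 : (𝓤 : Filter ℕ) ≤ atTop) {v : V} (hon : OnG w v 𝓤)
    (ht : ∀ q, OnG w q 𝓤 → ∀ l, Tgt σ K w 𝓤 q (fun n : ℕ => ((n : ℤ), 0)) l)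
    (ht' : ∀ l, Tgt σ K (gw rn w) 𝓤 (rn v) (fun n : ℕ => ((n : ℤ), 0)) l) :
    ∃ z : ℤ → ℤ, ∀ l, ∀ᶠ n : ℕ in (𝓤 : Filter ℕ), LEn σ K w l (-(n : ℤ), 0) ((n : ℤ), 0) (z l) := by
  refine data_core h (r := fun n : ℕ => (-(n : ℤ), 0)) (s := fun n : ℕ => ((n : ℤ), 0))
    (fun l => h𝓤 (hmem l)) (fun l => ?_) (fun l => ?_)
  · filter_upwards [h𝓤 (eventually_ge_atTop (l.natAbs + 1))] with n hn
    refine notMem_Rg_of_ln h ?_
    have : ln σ (-(n : ℤ), 0) = -(n : ℤ) := by unfold ln; simp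
    omega
  · set l' := max (1 - l) (ln σ (rn v) + 1) with hl'
    have hvl : ln σ (rn v) < l' := lt_of_lt_of_le (by omega) (le_max_right _ _)
    obtain ⟨z, hz⟩ := exists_lim_entrance h' (r := fun _ => rn v) (h𝓤 (hmem' l'))
      (Eventually.of_forall fun _ => notMem_Rg_of_ln h' hvl) (notMem_Rg_of_ln h' hvl)
      (Eventually.of_forall fun n => by
        rw [T_self _ (mem_univ _), zero_add]) (ht' l')
    set P := pk σ (gw rn w) K l' z with hP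
    have hq : OnG w (rn P) 𝓤 := by
      filter_upwards [hz, hon] with n hn hv
      have h1 := hn.geo h'
      rw [← hP] at h1
      simp only [T_gw_univ aut_rn h.hw, aut_rn.left_inv] at h1
      have e2 : rn ((n : ℤ), 0) = (-(n : ℤ), 0) := by simp [rn]
      rw [e2] at h1
      refine le_antisymm ?_ (T_triangle _ _ _ _ _)
      rw [← hv, T_comm w univ (-(n : ℤ), 0) v, ← h1, T_comm w univ (-(n : ℤ), 0) (rn P),
        add_comm (T w univ v (rn P)), add_assoc]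
      exact add_le_add le_rfl (by
        rw [T_comm w univ v (rn P)]
        exact T_triangle _ _ _ _ _)
    refine ⟨rn P, ?_, hq, ht _ hq l⟩
    have h1 := le_ln_pk h'.hσ h'.good l' z
    rw [← hP] at h1
    have h2 : ln σ (rn P) = -ln σ P := by unfold ln rn; simp only; ring
    have h3 : 1 - l ≤ l' := le_max_left _ _
    omega

end det

section prob

variable {σ : ℤ} {K : ℝ≥0∞} {F : Measure ℝ} [IsProbabilityMeasure F]

/-- Tightness for all the vertices on the geodesics. -/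
def TgOn (σ : ℤ) (K : ℝ≥0∞) (w : W) : Prop := ∀ (v : V) (𝓤 : Ultrafilter ℕ), (𝓤 : Filter ℕ) ≤ atTop →
  OnG w v 𝓤 → ∀ l, Tgt σ K w 𝓤 v (fun n : ℕ => ((n : ℤ), 0)) l

/-- **The limit path and its class.** -/
theorem ae_PD (X : XSys σ K F) (hcfg : ∀ᵐ ω ∂(iid Ed F), Cfg σ K (wt ω))
    (hki : ∀ ω k l x u, X.ki ω k l x u = kiU σ K ω k l x u)
    (hph : ∀ ω n h k x, X.Z.ph ω n h k x = phS σ K (wt ω) n h k x)
    (hvS : ∀ ω n k l h x, X.Z.v ω n k l h x = vS σ K (wt ω) n k l h x)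
    (hφ : ∀ᵐ ω ∂(iid Ed F), ∀ k i, X.S.φ ω k i - X.S.φ ω k (i + 1) = mv σ (blo σ K) k i (wt ω))
    (hrel : ∀ᵐ ω ∂(iid Ed F), Frel (kiU σ K) X.S ω)
    (hmem : ∀ᵐ ω ∂(iid Ed F), ∀ l, ∀ᶠ n : ℕ in atTop, (((n : ℤ), 0) : V) ∈ Rg σ (wt ω) K l)
    (hfl : σ = 1 → ∀ᵐ ω ∂(iid Ed F), Fluct 1 K (wt ω))
    (htg : ∀ᵐ ω ∂(iid Ed F), TgOn σ K (wt ω)) :
    ∀ᵐ ω ∂(iid Ed F), ∀ (v : V) (𝓤 : Ultrafilter ℕ), (𝓤 : Filter ℕ) ≤ atTop → OnG (wt ω) v 𝓤 →
      ∃ z κ, PD X ω z κ ∧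
        (∀ k, ∀ᶠ n : ℕ in (𝓤 : Filter ℕ), T (wt ω) univ (pk σ (wt ω) K k (z k)) ((n : ℤ), 0) =
          T (wt ω) (Rg σ (wt ω) K k) (pk σ (wt ω) K k (z k)) ((n : ℤ), 0)) ∧
        ∀ k x y, Tendsto (fun n : ℕ => tpot σ K (wt ω) ((n : ℤ), 0) k x -
          tpot σ K (wt ω) ((n : ℤ), 0) k y) 𝓤 (𝓝 (κ k x - κ k y)) := by
  have hn := (measurePreserving_gO F aut_rn).quasiMeasurePreserving
  have hfl' : ∀ᵐ ω ∂(iid Ed F), σ = 1 → Fluct 1 K (wt ω) := by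
    by_cases h1 : σ = 1
    · exact (hfl h1).mono fun ω h _ => h
    · exact Eventually.of_forall fun ω h => absurd h h1
  filter_upwards [hcfg, hn.ae hcfg, hφ, hrel, X.S.ae_reg, X.ae_uniqArg, hmem, hn.ae hmem, hfl', htg,
    hn.ae htg] with ω c1 c2 f1 r1 g1 u1 m1 m2 l1 t1 t2 v 𝓤 h𝓤 hon
  have hw2 : ∀ v, wt ω v 2 = ⊤ := c1.hw
  have hon2 := hon.rn hw2
  have ht' : ∀ l, Tgt σ K (gw rn (wt ω)) 𝓤 (rn v) (fun n : ℕ => ((n : ℤ), 0)) l := by
    intro l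
    have := t2 (rn v) 𝓤 h𝓤 (by rw [wt_gO aut_rn]; exact hon2) l
    rwa [wt_gO aut_rn] at this
  rw [wt_gO aut_rn] at c2 m2
  obtain ⟨z, hz⟩ := exists_z c1 c2 m1 m2 h𝓤 hon (fun q hq l => t1 q 𝓤 h𝓤 hq l) ht'
  have hrel' : Frel X.ki X.S ω := by
    have e : X.ki = kiU σ K := by
      funext ω k l x u
      exact hki ω k l x u
    rw [e]; exact r1
  obtain ⟨κ, h1, h2⟩ := exists_PD X c1 (hki ω) (hph ω) (hvS ω) g1 u1 hrel'
    (fun k i δ hδ => by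
      rw [f1 k i]
      exact dom_hor c1 m1 k i hδ) m1 (hor_notMem_St c1 l1) h𝓤 (r := fun n : ℕ => (-(n : ℤ), 0)) hz
  refine ⟨z, κ, h1, fun k => ?_, h2⟩
  filter_upwards [hz k] with n hn
  exact hn.full c1

end prob

end C7
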