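import Pool.Agent.Lib.MP_c725eb_pr.Cls
import Pool.Agent.Lib.MP_c725eb_pr.StripDom
import Pool.Agent.Lib.MP_c725eb_pr.Sym

/-!
# The classes at the base line: convergence, monotonicity, domination
-/

set_option autoImplicit false

namespace C7

open MeasureTheory Filter Set
open scoped ENNReal Topology

/-- Basic configurations. -/
structure Cb (σ : ℤ) (K : ℝ≥0∞) (w : W) : Prop where
  hσ : σ = 0 ∨ σ = 1
  hK : K ≠ ⊤
  hw : ∀ v, w v 2 = ⊤
  good : Good σ w K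
  fin : ∀ v, w v 0 ≠ ⊤ ∧ w v 1 ≠ ⊤

section

variable {σ : ℤ} {K : ℝ≥0∞} {w : W} {u u' : V} {L L' : ℕ} {i : ℤ}

theorem Cb.rfw (h : Cb σ K w) : Cb σ K (rfw σ w) where
  hσ := h.hσ
  hK := h.hK
  hw := rfw_diag σ w
  good := good_rfw h.hσ h.good
  fin := rfw_ne_top h.hσ h.fin

theorem Cb.stp (h : Cb σ K w) (k : ℤ) : Stp σ (ck σ w K k) := ck_stp h.hσ h.good k

theorem Cb.opn (h : Cb σ K w) (k i : ℤ) : Opn σ w K (pt σ (ck σ w K k) i) := pk_open h.good k i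

theorem two_K : (2 * K).toReal = 2 * K.toReal := by
  rw [ENNReal.toReal_mul]; norm_num

/-- Convergence to the lower class. -/
def GLo (σ : ℤ) (K : ℝ≥0∞) (u : V) (w : W) : Prop := ∀ (L : ℕ) (i : ℤ), OKlo σ K u L i w →
  (∀ᶠ m : ℤ in atTop, TI w σ (Wlo σ u L) (ck σ w K 0) i (tlo σ u L m) ≠ ⊤) ∧
    Tendsto (fun m : ℤ => BI w σ (Wlo σ u L) (ck σ w K 0) (tlo σ u L m) i (i + 1)) atTop
      (𝓝 (glo σ K u L i w))

theorem gl_of_fin (h : Cb σ K w) (hu1 : 0 < u.1) (hf : ∀ (L : ℕ) (i : ℤ), OKlo σ K u L i w →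
    ∀ᶠ m : ℤ in atTop, TI w σ (Wlo σ u L) (ck σ w K 0) i (tlo σ u L m) ≠ ⊤) : GLo σ K u w := by
  classical
  intro L i hi
  refine ⟨hf L i hi, ?_⟩
  obtain ⟨ℓ, hℓ⟩ := exists_lim_wlo h.hσ (h.stp 0) (h.opn 0) h.hK hu1 (x := i) (x' := i + 1)
    (by omega) (fun j h1 _ => hi j h1) (hf L i hi)
  have hbd : ∀ m : ℤ, |BI w σ (Wlo σ u L) (ck σ w K 0) (tlo σ u L m) i (i + 1)| ≤ 2 * K.toReal := by
    intro m
    rw [← two_K]
    exact abs_BI_succ_le h.hσ (h.stp 0) (h.opn 0) h.hK (hi i le_rfl) _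
  have h1 : glo σ K u L i w = ℓ := by
    unfold glo
    rw [if_pos hi]
    have h2 : Tendsto (fun m : ℕ => clp (2 * K.toReal)
        (BI w σ (Wlo σ u L) (ck σ w K 0) (tlo σ u L m) i (i + 1))) atTop (𝓝 ℓ) := by
      have h3 := hℓ.comp tendsto_natCast_atTop_atTop
      refine h3.congr fun m => ?_
      simp only [Function.comp]
      rw [clp_of_abs_le (hbd _)]
    exact h2.limsup_eq
  rw [h1]
  exact hℓ

/-- `σ = 0`: convergence for slopes in `(-1, 1)`. -/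
theorem gl_zero (h : Cb 0 K w) (hu1 : 0 < u.1) (hu2 : -u.1 < u.2) (hu3 : u.2 < u.1) : GLo 0 K u w :=
  gl_of_fin h hu1 fun _ _ hi => TI_wlo_ne_top_ev (Or.inl rfl) (h.stp 0) (h.opn 0) h.hK h.fin hu1
    (fun _ => ⟨hu2, hu3⟩) hi (fun h' => absurd h' (by norm_num))

theorem tlo_mem_reg_one {c : ℤ → ℤ} (h : Stp 1 c) (hu1 : 0 < u.1) (hu2 : 0 < u.2) (L : ℤ) :
    ∀ᶠ m : ℤ in atTop, tlo 1 u L m ∈ reg 1 c := by
  rcases le_total u.2 u.1 with h12 | h12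
  · exact tlo_one_ev h hu2 h12
  · filter_upwards [eventually_ge_atTop (|c 0| + 3 * |L|), eventually_ge_atTop 0] with m hm hm0
    change c (ix 1 (tlo 1 u L m)) ≤ (tlo 1 u L m).1
    unfold tlo ix
    simp only [one_mul]
    have a1 := le_abs_self (c 0)
    have a2 := neg_abs_le (c 0)
    have a4 := le_abs_self L
    have a5 := neg_abs_le L
    by_cases hri : m * u.2 - L - (m * u.1 + L) ≤ 0
    · have h3 := stp_le (Or.inr rfl) h hri
      nlinarith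
    · push Not at hri
      have h3 := stp_le (Or.inr rfl) h hri.le
      simp only [sub_self, zero_mul] at h3
      nlinarith

/-- `σ = 1`: convergence for positive slopes. -/
theorem gl_one (h : Cb 1 K w) (hu1 : 0 < u.1) (hu2 : 0 < u.2) : GLo 1 K u w :=
  gl_of_fin h hu1 fun _ _ hi => TI_wlo_ne_top_ev (Or.inr rfl) (h.stp 0) (h.opn 0) h.hK h.fin hu1
    (fun h' => absurd h' (by norm_num)) hi (fun _ => tlo_mem_reg_one (h.stp 0) hu1 hu2 _)

/-- Convergence for the directions used for the class `b`. -/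
theorem gl_pos (h : Cb σ K w) (hu1 : 0 < u.1) (hu2 : 0 < u.2) (hu3 : σ = 0 → u.2 < u.1) : GLo σ K u w := by
  rcases h.hσ with rfl | rfl
  · exact gl_zero h hu1 (by omega) (hu3 rfl)
  · exact gl_one h hu1 hu2

/-! ### reflection -/

theorem okup_iff (h : Cb σ K w) : OKup σ K u L i w ↔ OKlo σ K (rf σ u) L (-i - 1) (rfw σ w) := by
  have e := ck_rfw (w := w) (K := K) h.hσ 0
  unfold OKup OKlo
  rw [e]
  constructor
  · intro h1 j hj
    have h2 := cin_rf h.hσ (mem_wup_rf h.hσ u L) (h1 (-j - 1) (by omega))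
    rwa [show -(-j - 1) - 1 = j by ring] at h2
  · intro h1 j hj
    have h2 := cin_rf h.hσ (mem_wlo_rf h.hσ (rf σ u) L) (h1 (-j - 1) (by omega))
    rwa [show -(-j - 1) - 1 = j by ring, rfc_rfc, rf_rf h.hσ] at h2

theorem clp_neg (c x : ℝ) (hc : 0 ≤ c) : clp c (-x) = -clp c x := by
  unfold clp
  rcases le_total x (-c) with h1 | h1
  · rw [min_eq_left (by linarith), min_eq_right (by linarith : x ≤ c), max_eq_left h1,
      max_eq_right (by linarith)]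
    ring
  · rcases le_total x c with h2 | h2
    · rw [min_eq_right (by linarith), min_eq_right h2, max_eq_right (by linarith), max_eq_right h1]
    · rw [min_eq_right (by linarith), min_eq_left h2, max_eq_left (by linarith),
        max_eq_right (by linarith)]

/-- The upper class is the reflected lower class. -/
theorem gup_eq (h : Cb σ K w) (hg : GLo σ K (rf σ u) (rfw σ w)) (L : ℕ) (i : ℤ) :
    gup σ K u L i w = -glo σ K (rf σ u) L (-i - 1) (rfw σ w) := by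
  classical
  have hc : 0 ≤ 2 * K.toReal := by positivity
  by_cases hi : OKup σ K u L i w
  · have hi' := (okup_iff h).1 hi
    obtain ⟨h1, h2⟩ := hg L (-i - 1) hi'
    unfold gup
    rw [if_pos hi]
    have h3 : Tendsto (fun m : ℕ => clp (2 * K.toReal)
        (BI w σ (Wup σ u L) (ck σ w K 0) (tup σ u L m) i (i + 1))) atTop
        (𝓝 (-glo σ K (rf σ u) L (-i - 1) (rfw σ w))) := by
      have h4 := (h2.comp tendsto_natCast_atTop_atTop).neg
      refine h4.congr fun m => ?_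
      simp only [Function.comp]
      have h5 := abs_BI_succ_le h.hσ (h.rfw.stp 0) (h.rfw.opn 0) h.hK (hi' _ le_rfl) (tlo σ (rf σ u) L m)
      rw [show -i - 1 + 1 = -i by ring, two_K] at h5
      rw [BI_wup h.hσ h.hw, ← ck_rfw h.hσ, BI_neg (-(i + 1)) (-i), show -(i + 1) = -i - 1 by ring,
        show -i - 1 + 1 = -i by ring, clp_neg _ _ hc, clp_of_abs_le h5]
    exact h3.limsup_eq
  · have hi' : ¬ OKlo σ K (rf σ u) L (-i - 1) (rfw σ w) := fun h' => hi ((okup_iff h).2 h')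
    unfold gup glo
    rw [if_neg hi, if_neg hi']

/-- Increments towards a target in the reflected system. -/
theorem BI_univ_rfw (h : Cb σ K w) (k : ℤ) (t : V) (i : ℤ) :
    BI w σ univ (ck σ w K k) t i (i + 1) =
      -BI (rfw σ w) σ univ (ck σ (rfw σ w) K k) (rf σ t) (-i - 1) (-i - 1 + 1) := by
  rw [BI_rfw h.hσ h.hw (E := univ) (E' := univ) (fun _ => Iff.rfl), ← ck_rfw h.hσ, BI_neg,
    show -(i + 1) = -i - 1 by ring, show -i - 1 + 1 = -i by ring]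

/-! ### inclusions of the walls in the region of the base line -/

theorem Cb.ln_nonneg (h : Cb σ K w) {v : V} (hv : v ∈ reg σ (ck σ w K 0)) : 0 ≤ ln σ v :=
  le_ln_of_mem h.hσ h.good hv

theorem wlo_subL (hdet : 0 ≤ det u' u)
    (hln' : 0 ≤ ln σ u') (hln : 0 < ln σ u)
    (hL : L ≤ L') {v : V} (hv : 0 ≤ ln σ v) (hvW : v ∈ Wlo σ u L) : v ∈ Wlo σ u' L' := by
  have h1 : -((L : ℤ) * ln σ u) ≤ det u v := hvW
  change -((L' : ℤ) * ln σ u') ≤ det u' v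
  have hLL : (L : ℤ) ≤ L' := by exact_mod_cast hL
  have e1 : ln σ u * det u' v = ln σ u' * det u v + det u' u * ln σ v := by
    unfold det ln; ring
  have h2 : ln σ u * (-((L' : ℤ) * ln σ u')) ≤ ln σ u * det u' v := by
    rw [e1]
    have h3 : ln σ u' * (-((L : ℤ) * ln σ u)) ≤ ln σ u' * det u v := mul_le_mul_of_nonneg_left h1 hln'
    have h4 : 0 ≤ det u' u * ln σ v := mul_nonneg hdet hv
    have h5 : ln σ u * ((L : ℤ) * ln σ u') ≤ ln σ u * ((L' : ℤ) * ln σ u') :=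
      mul_le_mul_of_nonneg_left (mul_le_mul_of_nonneg_right hLL hln') hln.le
    nlinarith
  exact le_of_mul_le_mul_left h2 hln

/-- The upper analogue: convergence along the upper walls. -/
def GUp (σ : ℤ) (K : ℝ≥0∞) (u : V) (w : W) : Prop := ∀ (L : ℕ) (i : ℤ), OKup σ K u L i w →
  (∀ᶠ m : ℤ in atTop, TI w σ (Wup σ u L) (ck σ w K 0) (i + 1) (tup σ u L m) ≠ ⊤) ∧
    Tendsto (fun m : ℤ => BI w σ (Wup σ u L) (ck σ w K 0) (tup σ u L m) i (i + 1)) atTop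
      (𝓝 (gup σ K u L i w))

theorem gup_conv (h : Cb σ K w) (hg : GLo σ K (rf σ u) (rfw σ w)) : GUp σ K u w := by
  intro L i hi
  have hi' := (okup_iff h).1 hi
  obtain ⟨h1, h2⟩ := hg L (-i - 1) hi'
  rw [gup_eq h hg]
  constructor
  · filter_upwards [h1] with m hm
    rw [TI_wup h.hσ h.hw, ← ck_rfw h.hσ, show -(i + 1) = -i - 1 by ring]
    exact hm
  · refine h2.neg.congr fun m => ?_
    rw [BI_wup h.hσ h.hw, ← ck_rfw h.hσ, BI_neg (-(i + 1)) (-i), show -(i + 1) = -i - 1 by ring,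
      show -i - 1 + 1 = -i by ring]

/-! ### (M1), (M2): monotonicity in the wall -/

theorem Cb.ln_pt (h : Cb σ K w) (j : ℤ) : 0 ≤ ln σ (pt σ (ck σ w K 0) j) := h.ln_nonneg (pt_mem _ _ _)

theorem OKlo.mono (h : Cb σ K w) (hdet : 0 ≤ det u' u) (hln' : 0 ≤ ln σ u') (hln : 0 < ln σ u)
    (hL : L ≤ L') (hi : OKlo σ K u L i w) : OKlo σ K u' L' i w := fun j hj =>
  cin_mono (fun _ hv hvW => wlo_subL hdet hln' hln hL (h.ln_nonneg hv) hvW) h.hσ (h.stp 0) (hi j hj)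

theorem OKlo.le {i' : ℤ} (hi : OKlo σ K u L i w) (h : i ≤ i') : OKlo σ K u L i' w :=
  fun j hj => hi j (h.trans hj)

theorem OKup.le {i' : ℤ} (hi : OKup σ K u L i w) (h : i' ≤ i) : OKup σ K u L i' w :=
  fun j hj => hi j (hj.trans h)

theorem OKlo.pt_in (hi : OKlo σ K u L i w) {j : ℤ} (hj : i ≤ j) : pt σ (ck σ w K 0) j ∈ Wlo σ u L :=
  (hi j hj).1

theorem OKup.pt_in (hi : OKup σ K u L i w) {j : ℤ} (hj : j ≤ i + 1) : pt σ (ck σ w K 0) j ∈ Wup σ u L := by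
  have := (hi (j - 1) (by omega)).2.1
  rwa [sub_add_cancel] at this

theorem det_tlo_gen (σ : ℤ) (u u' : V) (L m : ℤ) : det u (tlo σ u' L m) = -(L * ln σ u) - m * det u' u := by
  unfold det tlo ln
  simp only
  ring

theorem det_tup_gen (σ : ℤ) (u u' : V) (L m : ℤ) : det u (tup σ u' L m) = L * ln σ u - m * det u' u := by
  unfold det tup ln
  simp only
  ring

theorem glo_le_two_K (i : ℤ) : glo σ K u L i w ≤ 2 * K.toReal := (abs_le.1 (abs_glo_le σ K u L i w)).2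

theorem le_gup (i : ℤ) : -(2 * K.toReal) ≤ gup σ K u L i w := (abs_le.1 (abs_gup_le σ K u L i w)).1

theorem glo_of_not (hi : ¬ OKlo σ K u L i w) : glo σ K u L i w = 2 * K.toReal := by
  unfold glo; rw [if_neg hi]

theorem gup_of_not (hi : ¬ OKup σ K u L i w) : gup σ K u L i w = -(2 * K.toReal) := by
  unfold gup; rw [if_neg hi]

/-- (M1), (M2) -/
theorem glo_mono (h : Cb σ K w) (hg : GLo σ K u w) (hg' : GLo σ K u' w) (hu1 : 0 < u.1) (hu2 : -u.1 ≤ u.2)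
    (hu1' : 0 < u'.1) (hdet : 0 ≤ det u' u) (hln' : 0 ≤ ln σ u') (hln : 0 < ln σ u) (hL : L ≤ L') (i : ℤ) :
    glo σ K u' L' i w ≤ glo σ K u L i w := by
  by_cases hi : OKlo σ K u L i w
  · have hi' : OKlo σ K u' L' i w := hi.mono h hdet hln' hln hL
    obtain ⟨f1, f2⟩ := hg L i hi
    obtain ⟨f1', f2'⟩ := hg' L' i hi'
    refine le_of_tendsto f2' ?_
    have hLL : (L : ℤ) ≤ L' := by exact_mod_cast hL
    filter_upwards [f1', eventually_ge_atTop 0,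
      (tendsto_tlo_fst (σ := σ) (L := (L' : ℤ)) hu1').eventually_ge_atTop (ck σ w K 0 i)] with m hm hm0 hmc
    refine BI_le_lim h.hσ (h.stp 0) hu1 hu2 (x := i) (x' := i + 1) (by omega)
      (fun _ hv hvW => wlo_subL hdet hln' hln hL (h.ln_nonneg hv) hvW) ?_ (Or.inl hmc)
      (fun j hj => hi.pt_in hj) ?_ f1 f2
    · rw [det_tlo_gen]
      have h1 : 0 ≤ m * det u' u := mul_nonneg hm0 hdet
      have h2 : (L : ℤ) * ln σ u ≤ L' * ln σ u := mul_le_mul_of_nonneg_right hLL hln.le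
      linarith
    · exact (TI_ne_top_iff h.hσ (h.stp 0) (h.opn 0) h.hK (by omega) (fun j h1 _ => hi' j h1) _).1 hm
  · rw [glo_of_not hi]
    exact glo_le_two_K i

theorem rf_fst_pos' (hσ : σ = 0 ∨ σ = 1) (hu1 : 0 < u.1) (hu3 : σ = 1 → 0 < u.2) : 0 < (rf σ u).1 :=
  rf_fst_pos hσ hu1 hu3

/-- (M1), (M2), upper walls. -/
theorem gup_mono (h : Cb σ K w) (hg : GLo σ K (rf σ u) (rfw σ w)) (hg' : GLo σ K (rf σ u') (rfw σ w))
    (hu1 : 0 < u.1) (hu2 : σ = 0 → u.2 ≤ u.1) (hu3 : σ = 1 → 0 < u.2) (hu1' : 0 < u'.1)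
    (hu3' : σ = 1 → 0 < u'.2) (hdet : 0 ≤ det u u') (hln' : 0 ≤ ln σ u') (hln : 0 < ln σ u) (hL : L ≤ L')
    (i : ℤ) : gup σ K u L i w ≤ gup σ K u' L' i w := by
  rw [gup_eq h hg, gup_eq h hg']
  apply neg_le_neg
  refine glo_mono h.rfw hg hg' (rf_fst_pos h.hσ hu1 hu3) (rf_slope h.hσ hu1 hu2 hu3)
    (rf_fst_pos h.hσ hu1' hu3') ?_ ?_ ?_ hL _
  · rw [det_rf h.hσ]
    have : det u' u = -det u u' := by unfold det; ring
    linarith
  · rw [ln_rf h.hσ]; exact hln'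
  · rw [ln_rf h.hσ]; exact hln

/-- (M3) Upper classes are below the lower classes of steeper walls. -/
theorem gup_le_glo0 (h : Cb σ K w) (hg : GUp σ K u w) (hg' : GLo σ K u' w) (hu1 : 0 < u.1) (hu2 : u.2 ≤ u.1)
    (hu1' : 0 < u'.1) (hu2' : -u'.1 ≤ u'.2) (hdet : 0 < det u u') (i : ℤ) :
    gup σ K u L i w ≤ glo σ K u' L' i w := by
  have hc : 0 ≤ K.toReal := ENNReal.toReal_nonneg
  by_cases hi : OKup σ K u L i w
  · by_cases hi' : OKlo σ K u' L' i w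
    · obtain ⟨f1, f2⟩ := hg L i hi
      obtain ⟨f1', f2'⟩ := hg' L' i hi'
      obtain ⟨q, hq⟩ := BI_wup_le_wlo_far (w := w) (L := (L : ℤ)) (L' := (L' : ℤ)) h.hσ (h.stp 0) hu1 hu2 hu1' hu2'
        hdet (x := i) (x' := i + 1) (by omega) (fun j hj => hi'.pt_in hj) (fun j hj => hi.pt_in hj)
      refine le_of_tendsto_of_tendsto f2 f2' ?_
      filter_upwards [f1, f1', (tendsto_tlo_fst (σ := σ) (L := (L' : ℤ)) hu1').eventually_gt_atTop q,
        (tendsto_tup_fst (σ := σ) (L := (L : ℤ)) hu1).eventually_gt_atTop q,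
        tup_not_mem_ev (σ := σ) (L := (L : ℤ)) (L' := (L' : ℤ)) hdet] with m a1 a2 a3 a4 a5
      exact hq _ _ a3 a4 a5 a1 a2
    · rw [glo_of_not hi']
      exact (abs_le.1 (abs_gup_le σ K u L i w)).2
  · rw [gup_of_not hi]
    exact (abs_le.1 (abs_glo_le σ K u' L' i w)).1

/-! ### (M4): domination of the increments towards targets -/

theorem Cb.abs_BI_univ (h : Cb σ K w) (k : ℤ) (t : V) (i : ℤ) :
    |BI w σ univ (ck σ w K k) t i (i + 1)| ≤ 2 * K.toReal := by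
  rw [← two_K]
  exact abs_BI_succ_le h.hσ (h.stp k) (h.opn k) h.hK (cin_univ i) t

/-- (M4), lower walls. -/
theorem BI_le_glo0 (h : Cb σ K w) (hg : GLo σ K u w) (hu1 : 0 < u.1) (hu2 : -u.1 ≤ u.2) {t : V}
    (ht : t ∈ Rg σ w K 0) (ht₂ : det u t < -(L * ln σ u) + u.1)
    (hxt : ck σ w K 0 i ≤ t.1 ∨ t ∉ Wlo σ u L) :
    BI w σ univ (ck σ w K 0) t i (i + 1) ≤ glo σ K u L i w := by
  by_cases hi : OKlo σ K u L i w
  · obtain ⟨f1, f2⟩ := hg L i hi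
    exact BI_le_lim h.hσ (h.stp 0) hu1 hu2 (x := i) (x' := i + 1) (by omega)
      (fun v _ _ => trivial) ht₂ hxt (fun j hj => hi.pt_in hj)
      (TI_univ_ne_top h.hσ (h.stp 0) (h.opn 0) h.hK h.fin _ ht) f1 f2
  · rw [glo_of_not hi]
    exact (abs_le.1 (h.abs_BI_univ 0 t i)).2

/-- (M4), upper walls. -/
theorem gup_le_BI0 (h : Cb σ K w) (hg : GUp σ K u w) (hu1 : 0 < u.1) (hu2 : σ = 0 → u.2 ≤ u.1)
    (hu3 : σ = 1 → 0 < u.2) {t : V} (ht : t ∈ Rg σ w K 0) (ht₂ : L * ln σ u - (rf σ u).1 < det u t)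
    (hxt : (rf σ (pt σ (ck σ w K 0) (i + 1))).1 ≤ (rf σ t).1 ∨ t ∉ Wup σ u L) :
    gup σ K u L i w ≤ BI w σ univ (ck σ w K 0) t i (i + 1) := by
  by_cases hi : OKup σ K u L i w
  · obtain ⟨f1, f2⟩ := hg L i hi
    exact lim_le_BI h.hσ h.hw (h.stp 0) hu1 hu2 hu3 (x := i) (x' := i + 1) (by omega)
      (fun v _ _ => trivial) ht₂ hxt (fun j hj => hi.pt_in hj)
      (TI_univ_ne_top h.hσ (h.stp 0) (h.opn 0) h.hK h.fin _ ht) f1 f2
  · rw [gup_of_not hi]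
    exact (abs_le.1 (h.abs_BI_univ 0 t i)).1

/-! ### (M6): the conditions hold for large `L` -/

theorem exists_bal_wlo_one {c : ℤ → ℤ} (h : Stp 1 c) (hu1 : 0 < u.1) (hu2 : 0 ≤ u.2) (i : ℤ) :
    ∃ L₀ : ℤ, ∀ L, L₀ ≤ L → ∀ j, i ≤ j → Bal (pt 1 c j) ⊆ Wlo 1 u L := by
  have hB : ∀ j, i ≤ j → u.1 * (c i + i) - u.2 * c i ≤ det u (pt 1 c j) := by
    intro j hj
    have h1 := stp_le (Or.inr rfl) h hj
    simp only [sub_self, zero_mul] at h1
    unfold det pt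
    simp only [one_mul]
    have h2 : u.1 * (c i + i) ≤ u.1 * (c j + j) := mul_le_mul_of_nonneg_left (by omega) hu1.le
    have h3 : u.2 * c j ≤ u.2 * c i := mul_le_mul_of_nonneg_left (by omega) hu2
    linarith
  set B := u.1 * (c i + i) - u.2 * c i
  refine ⟨|B| + |u.1| + |u.2|, fun L hL j hj v hv => ?_⟩
  change -(L * ln 1 u) ≤ det u v
  have h1 := hB j hj
  obtain ⟨hv1, hv2⟩ := hv
  have h2 : det u v = det u (pt 1 c j) + (u.1 * (v.2 - (pt 1 c j).2) - u.2 * (v.1 - (pt 1 c j).1)) := by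
    unfold det; ring
  have h3 : -(|u.1| + |u.2|) ≤ u.1 * (v.2 - (pt 1 c j).2) - u.2 * (v.1 - (pt 1 c j).1) := by
    have h4 : |u.1 * (v.2 - (pt 1 c j).2)| ≤ |u.1| * 1 := by
      rw [abs_mul]; exact mul_le_mul_of_nonneg_left hv2 (abs_nonneg _)
    have h5 : |u.2 * (v.1 - (pt 1 c j).1)| ≤ |u.2| * 1 := by
      rw [abs_mul]; exact mul_le_mul_of_nonneg_left hv1 (abs_nonneg _)
    rw [abs_le] at h4 h5
    linarith [h4.1, h5.2]
  have h6 := neg_abs_le B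
  have hln : 0 < ln 1 u := by unfold ln; omega
  have h7 : L * 1 ≤ L * ln 1 u := mul_le_mul_of_nonneg_left (by omega) (le_trans (by positivity) hL)
  linarith

/-- (M6), lower walls. -/
theorem exists_OKlo (h : Cb σ K w) (hu1 : 0 < u.1) (hln : 0 < ln σ u)
    (hu3 : u.2 ≤ u.1 ∨ (σ = 1 ∧ 0 ≤ u.2)) (i : ℤ) : ∃ L₀ : ℕ, ∀ L, L₀ ≤ L → OKlo σ K u L i w := by
  have key : ∃ L₀ : ℤ, ∀ L, L₀ ≤ L → ∀ j, i ≤ j → Bal (pt σ (ck σ w K 0) j) ⊆ Wlo σ u L := by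
    rcases hu3 with h3 | ⟨rfl, h3⟩
    · exact exists_bal_wlo h.hσ (h.stp 0) hu1 hln h3 (k := 0) h.ln_pt i
    · exact exists_bal_wlo_one (h.stp 0) hu1 h3 i
  obtain ⟨L₀, hL₀⟩ := key
  refine ⟨L₀.toNat, fun L hL j hj => ?_⟩
  exact cin_of_bal h.hσ (h.stp 0) (hL₀ L (by omega) j hj)

/-- (M6), upper walls. -/
theorem exists_OKup (h : Cb σ K w) (hu1 : 0 < u.1) (hln : 0 < ln σ u) (hu3 : σ = 1 → 0 < u.2)
    (hu4 : σ = 0 → -u.1 ≤ u.2) (i : ℤ) : ∃ L₀ : ℕ, ∀ L, L₀ ≤ L → OKup σ K u L i w := by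
  obtain ⟨L₀, hL₀⟩ := exists_OKlo (u := rf σ u) h.rfw (rf_fst_pos h.hσ hu1 hu3) (by rw [ln_rf h.hσ]; exact hln)
    (by
      rcases h.hσ with rfl | rfl
      · left
        rw [rf_zero]
        have := hu4 rfl
        simp only
        omega
      · right
        refine ⟨rfl, ?_⟩
        rw [rf_one]
        exact hu1.le) (-i - 1)
  exact ⟨L₀, fun L hL => (okup_iff h).2 (hL₀ L hL)⟩

/-! ### negative slopes for `σ = 1`, and almost every configuration -/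

theorem tlo_mem_reg_neg (hc : Iaf 1 (-1) w K (Cone (-1))) (hu1 : 0 < u.1) (hu2 : u.2 ≤ 0)
    (hu3 : 0 < u.1 + 2 * u.2) (L : ℕ) : ∀ᶠ m : ℤ in atTop, tlo 1 u L m ∈ reg 1 (ck 1 w K 0) := by
  obtain ⟨a, ha⟩ := hc
  filter_upwards [eventually_ge_atTop (a : ℤ), eventually_ge_atTop (L : ℤ), eventually_ge_atTop 0] with m hma hmL hm0
  have hi : (a : ℤ) ≤ -1 * ix 1 (tlo 1 u L m) := by
    unfold tlo ix
    simp only [one_mul]
    nlinarith
  have h1 := ha _ hi (mem_Bal _)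
  change |(pk 1 w K 0 (ix 1 (tlo 1 u L m))).1| ≤ 2 * (-1 * (pk 1 w K 0 (ix 1 (tlo 1 u L m))).2) at h1
  change ck 1 w K 0 (ix 1 (tlo 1 u L m)) ≤ (tlo 1 u L m).1
  have e1 : (pk 1 w K 0 (ix 1 (tlo 1 u L m))).1 = ck 1 w K 0 (ix 1 (tlo 1 u L m)) := rfl
  have e2 : (pk 1 w K 0 (ix 1 (tlo 1 u L m))).2 =
      ck 1 w K 0 (ix 1 (tlo 1 u L m)) + ix 1 (tlo 1 u L m) := by
    unfold pk pt; simp
  rw [e1, e2] at h1
  have h2 := (le_abs_self _).trans h1
  set c := ck 1 w K 0 (ix 1 (tlo 1 u L m)) with hcdef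
  have h3 : ix 1 (tlo 1 u L m) = m * u.2 - L - (m * u.1 + L) := by
    unfold tlo ix; simp
  have h4 : (tlo 1 u L m).1 = m * u.1 + L := by unfold tlo; simp
  rw [h3] at h2
  rw [h4]
  nlinarith

/-- Admissible directions. -/
def Dir (σ : ℤ) (u : V) : Prop :=
  0 < u.1 ∧ (σ = 0 → -u.1 < u.2 ∧ u.2 < u.1) ∧ (σ = 1 → 0 < u.1 + 2 * u.2)

theorem Cb.conv_lo (h : Cb σ K w) (hc : σ = 1 → Iaf 1 (-1) w K (Cone (-1))) (hu : Dir σ u) : GLo σ K u w := by
  obtain ⟨hu1, hu2, hu3⟩ := hu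
  rcases h.hσ with rfl | rfl
  · exact gl_zero h hu1 (hu2 rfl).1 (hu2 rfl).2
  · rcases le_or_gt u.2 0 with h0 | h0
    · exact gl_of_fin h hu1 fun _ _ hi => TI_wlo_ne_top_ev (Or.inr rfl) (h.stp 0) (h.opn 0) h.hK h.fin hu1
        (fun h' => absurd h' (by norm_num)) hi (fun _ => tlo_mem_reg_neg (hc rfl) hu1 h0 (hu3 rfl) _)
    · exact gl_one h hu1 h0

/-- The reflected system, for the upper walls. -/
theorem Cb.conv_rf (h : Cb σ K w) (hu1 : 0 < u.1) (h0 : σ = 0 → -u.1 < u.2 ∧ u.2 < u.1)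
    (h1 : σ = 1 → 0 < u.2) : GLo σ K (rf σ u) (C7.rfw σ w) := by
  rcases h.hσ with rfl | rfl
  · obtain ⟨h2, h3⟩ := h0 rfl
    refine gl_zero h.rfw ?_ ?_ ?_
    · rw [rf_zero]; exact hu1
    · rw [rf_zero]; simp only; omega
    · rw [rf_zero]; simp only; omega
  · refine gl_one h.rfw ?_ ?_
    · rw [rf_one]; exact h1 rfl
    · rw [rf_one]; exact hu1

theorem Cb.conv_up (h : Cb σ K w) (hu1 : 0 < u.1) (h0 : σ = 0 → -u.1 < u.2 ∧ u.2 < u.1)
    (h1 : σ = 1 → 0 < u.2) : GUp σ K u w := gup_conv h (h.conv_rf hu1 h0 h1)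

section prob

variable {F : Measure ℝ} [IsProbabilityMeasure F]

theorem cb_wt (hK : K ≠ ⊤) (hσ : σ = 0 ∨ σ = 1) {ω : Om} (hg : Good σ (wt ω) K) : Cb σ K (wt ω) where
  hσ := hσ
  hK := hK
  hw := fun _ => rfl
  good := hg
  fin := fun _ => ⟨ENNReal.ofReal_ne_top, ENNReal.ofReal_ne_top⟩

theorem ae_cb (hK : SmallK F K) (hσ : σ = 0 ∨ σ = 1) : ∀ᵐ ω ∂(iid Ed F), Cb σ K (wt ω) := by
  filter_upwards [ae_good_wt hK hσ] with ω hω
  exact cb_wt hK.1 hσ hω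

theorem ae_glo (hK : SmallK F K) (hσ : σ = 0 ∨ σ = 1) :
    ∀ᵐ ω ∂(iid Ed F), ∀ u, Dir σ u → GLo σ K u (wt ω) := by
  filter_upwards [ae_cb hK hσ, (ae_iaf hK hσ (s := -1) (Or.inr rfl)).1] with ω h1 h2 u hu
  exact h1.conv_lo (by rintro rfl; exact h2) hu

end prob

end

end C7
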