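import Pool.Agent.Lib.MP_c725eb_pr.GenU
import Pool.Agent.Lib.MP_c725eb_pr.Flow
import Pool.Agent.Lib.MP_c725eb_pr.GDom

/-!
# Almost all configurations are regular
-/

set_option autoImplicit false

namespace C7

open MeasureTheory Filter Set
open scoped ENNReal Topology

variable {F : Measure ℝ} [IsProbabilityMeasure F] {K : ℝ≥0∞} {σ : ℤ}

theorem ae_cfg (hK : SmallK F K) (hσ : σ = 0 ∨ σ = 1) (hF : ∀ a, F {a} = 0) (hF0 : F (Iio 0) = 0) :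
    ∀ᵐ ω ∂(iid Ed F), Cfg σ K (wt ω) := by
  filter_upwards [ae_cb hK hσ, ae_gen hF hF0, ae_pos (hF 0) hF0] with ω h1 h2 h3
  exact ⟨hσ, h1.hK, h1.hw, h1.good, h1.fin, fun v => ⟨wt_ne_zero h3 v 0, wt_ne_zero h3 v 1⟩, h2.1, h2.2⟩

end C7
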