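import Mathlib
import Pool.Agent.Lib.MP_c725eb_pr.Fin1
import Pool.Agent.Lib.MP_c725eb_pr.GenC

/-!
# The diamond case
-/

set_option autoImplicit false

namespace C7

open MeasureTheory Filter Set
open scoped ENNReal NNReal Topology

theorem tgt_of_tig {σ : ℤ} {K : ℝ≥0∞} {w : W} {l : ℤ} {v : V} {t : ℕ → V} {𝓤 : Filter ℕ}
    (h : Tig σ K w l v t 𝓤 1) (h' : Tig σ K w l v t 𝓤 (-1)) : Tgt σ K w 𝓤 v t l := by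
  obtain ⟨M, hM⟩ := h.both h'
  refine ⟨M, ?_⟩
  filter_upwards [hM] with n hn i hi he
  have := hn i he.le
  omega

variable {K : ℝ≥0∞} {F : Measure ℝ} [IsProbabilityMeasure F]

/-- **The diamond case.** -/
theorem final_D (hK : SmallK F K) (hF : ∀ a, F {a} = 0) (hF0 : F (Iio 0) = 0) (X : XSys 1 K F)
    (hki : ∀ ω k l x u, X.ki ω k l x u = kiU 1 K ω k l x u)
    (hph : ∀ ω n h k x, X.Z.ph ω n h k x = phS 1 K (wt ω) n h k x)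
    (hvS : ∀ ω n k l h x, X.Z.v ω n k l h x = vS 1 K (wt ω) n k l h x)
    (hφ : ∀ᵐ ω ∂(iid Ed F), ∀ k i, X.S.φ ω k i - X.S.φ ω k (i + 1) = mv 1 (blo 1 K) k i (wt ω))
    (hrel : ∀ᵐ ω ∂(iid Ed F), Frel (kiU 1 K) X.S ω)
    (hcone : ∀ᵐ ω ∂(iid Ed F), ConeB X.S ω)
    (hT : ∀ᵐ ω ∂(iid Ed F), ∀ (v : V) (l : ℤ), Tig 1 K (wt ω) l v (fun n => ((n : ℤ), 0)) atTop 1)
    (hlab : ∀ δ > 0, ∃ L L' : ℕ, EV 1 F (glo 1 K (1, 2) L) < δ ∧ -EV 1 F (gup 1 K (2, 1) L') < δ)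
    {μ : ℝ} (hμ : 0 < μ)
    (hal : ∀ᵐ ω ∂(iid Ed F), ∀ k z : ℤ, ∀ ε : ℝ, 0 < ε → ∃ C : ℝ, ∀ x ≤ z,
      X.al ω k x - X.al ω k z ≤ -(μ - ε) * ((z - x : ℤ) : ℝ) + C)
    (hup : ∀ (v : V) (k z : ℤ) (ε : ℝ), 0 < ε → Lk F fun m ω =>
      (T (wt ω) univ (pk 1 (wt ω) K k (z - 2 * m)) (v.1, v.2 - m)).toReal ≤ (μ + ε) * m) :
    ∀ᵐ ω ∂(iid Ed F), ∀ (v : V) (𝓤 : Ultrafilter ℕ), (𝓤 : Filter ℕ) ≤ atTop → ¬ OnG (wt ω) v 𝓤 := by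
  have hσ : (1 : ℤ) = 0 ∨ (1 : ℤ) = 1 := Or.inr rfl
  have hcfg : ∀ᵐ ω ∂(iid Ed F), Cfg 1 K (wt ω) := ae_cfg hK hσ hF hF0
  have eki : X.ki = kiU 1 K := by
    funext ω k l x u
    exact hki ω k l x u
  have hun : ∀ᵐ ω ∂(iid Ed F), UniqArg (kiU 1 K) X.S ω := by
    rw [← eki]
    exact X.ae_uniqArg
  -- no escape
  have hA := esc_imp_esc X.S hcfg hF hF0 hun hcone (ae_fluct hK hσ) (by
    filter_upwards [hT] with ω h1 v l _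
    obtain ⟨M, hM⟩ := (h1 v l).ne
    exact ⟨M, hM.mono fun n hn i hi => hn i (by omega)⟩)
  have hB := ae_esc_B hK hF hF0 hlab
  have hD1 : ∀ᵐ ω ∂(iid Ed F), ∀ (v : V) (𝓤 : Ultrafilter ℕ), (𝓤 : Filter ℕ) ≤ atTop →
      OnG (wt ω) v 𝓤 → ¬ Esc K (wt ω) v 𝓤 := by
    filter_upwards [hA, hB] with ω h1 h2 v 𝓤 h𝓤 hon hesc
    exact h2 v 𝓤 inferInstance hon hesc (h1 v 𝓤 h𝓤 hon hesc)
  -- tightness
  have htg : ∀ᵐ ω ∂(iid Ed F), TgOn 1 K (wt ω) := by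
    filter_upwards [hD1, hT] with ω h1 h2 v 𝓤 h𝓤 hon l
    exact tgt_of_tig ((h2 v l).mono h𝓤) (tig_of_not_esc (h1 v 𝓤 h𝓤 hon) l)
  have hmem := ae_tgt (F := F) hK hσ
  have hPD := ae_PD X hcfg hki hph hvS hφ hrel hmem (fun _ => ae_fluct hK hσ) htg
  have hDat : ∀ᵐ ω ∂(iid Ed F), ∀ (v : V) (𝓤 : Ultrafilter ℕ), (𝓤 : Filter ℕ) ≤ atTop →
      OnG (wt ω) v 𝓤 → ∃ z κ, Dat X ω 𝓤 z κ := by
    filter_upwards [hPD, hmem] with ω h1 h2 v 𝓤 h𝓤 hon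
    obtain ⟨z, κ, h3, h4, h5⟩ := h1 v 𝓤 h𝓤 hon
    exact ⟨z, κ, h3, fun k => h𝓤 (h2 k), h4, fun k x => h5 k x (z k)⟩
  have hno := no_dat X hcfg hF hF0 hμ hal hup
  have hx := (measurePreserving_gO F aut_rx).quasiMeasurePreserving
  filter_upwards [hDat, hx.ae hDat, hno] with ω h1 h2 h3 v 𝓤 h𝓤 hon
  obtain ⟨z, κ, hd⟩ := h1 v 𝓤 h𝓤 hon
  have hon' : OnG (wt (gO rx ω)) (rx v) 𝓤 := by
    rw [wt_gO aut_rx]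
    exact hon.rx (wt_two ω)
  obtain ⟨z', κ', hd'⟩ := h2 (rx v) 𝓤 h𝓤 hon'
  exact h3 v 𝓤 inferInstance hon z κ hd z' κ' hd'

end C7
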