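import Pool.Agent.Lib.MP_c725eb_pr.ClsVal

/-!
# Reflections of the classes, positivity of the time constant
-/

set_option autoImplicit false

namespace C7

open MeasureTheory Filter Set
open scoped ENNReal Topology

/-! ### positivity -/

section pos

variable {F : Measure ℝ} [IsProbabilityMeasure F] {K : ℝ≥0∞}

theorem tf_ge (hK : SmallK F K) (hF : ∀ a, F {a} = 0) (hF0 : F (Iio 0) = 0) :
    ∃ c : ℝ, 0 < c ∧ ∀ᵐ ω ∂(iid Ed F), ∃ C : ℝ, ∀ n : ℕ,
      ENNReal.ofReal (c * n - C) ≤ tf 0 K 0 (n • ((1, 0) : V)) ω := by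
  obtain ⟨c, hc, h⟩ := ae_T_linear (F := F) hF hF0
  refine ⟨c, hc, ?_⟩
  filter_upwards [h, ae_good_wt (F := F) hK (Or.inl rfl : (0 : ℤ) = 0 ∨ (0 : ℤ) = 1)] with ω h1 hg
  obtain ⟨C, hC, h2⟩ := h1 (op 0 K 0 ω)
  refine ⟨C + c * |((op 0 K 0 ω).1 : ℝ)|, fun n => ?_⟩
  refine le_trans (ENNReal.ofReal_le_ofReal ?_) (h2 univ (op 0 K (n • ((1, 0) : V)) ω))
  have h3 : (n : ℤ) ≤ (op 0 K (n • ((1, 0) : V)) ω).1 := by
    have h4 := le_ln_pk (Or.inl rfl : (0 : ℤ) = 0 ∨ (0 : ℤ) = 1) hg (ln 0 (n • ((1, 0) : V))) (ix 0 (n • ((1, 0) : V)))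
    unfold op
    rw [ln_nsmul] at h4 ⊢
    have e : ln 0 ((1, 0) : V) = 1 := by unfold ln; norm_num
    rw [e, mul_one] at h4 ⊢
    unfold ln at h4
    simpa using h4
  have h5 : (n : ℝ) - |((op 0 K 0 ω).1 : ℝ)| ≤
      |(((op 0 K (n • ((1, 0) : V)) ω).1 - (op 0 K 0 ω).1 : ℤ) : ℝ)| := by
    push_cast
    have h6 : (n : ℝ) ≤ ((op 0 K (n • ((1, 0) : V)) ω).1 : ℝ) := by exact_mod_cast h3
    have h7 := le_abs_self ((op 0 K 0 ω).1 : ℝ)
    have h8 := le_abs_self (((op 0 K (n • ((1, 0) : V)) ω).1 : ℝ) - ((op 0 K 0 ω).1 : ℝ))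
    linarith
  have h6 := abs_nonneg ((((op 0 K (n • ((1, 0) : V)) ω).2 - (op 0 K 0 ω).2 : ℤ)) : ℝ)
  have h7 := mul_le_mul_of_nonneg_left h5 hc.le
  have h8 := mul_nonneg hc.le h6
  nlinarith

theorem rho_pos (hK : SmallK F K) {σ : ℤ} (hσ : σ = 0 ∨ σ = 1) (hF : ∀ a, F {a} = 0)
    (hF0 : F (Iio 0) = 0) : 0 < rho σ F K (1, 0) := by
  have h0 : (0 : ℤ) = 0 ∨ (0 : ℤ) = 1 := Or.inl rfl
  rw [rho_sys hK hσ h0]
  obtain ⟨c, hc, h⟩ := tf_ge (F := F) hK hF hF0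
  have h1 : ENNReal.ofReal (c / 2) ≤ liminf (fun n : ℕ =>
      ∫⁻ ω, tf 0 K 0 (n • ((1, 0) : V)) ω / n ∂(iid Ed F)) atTop := by
    refine le_trans ?_ (lintegral_liminf_le fun n => (measurable_tf 0 K 0 _).div_const _)
    have h2 : ∀ᵐ ω ∂(iid Ed F), ENNReal.ofReal (c / 2) ≤
        liminf (fun n : ℕ => tf 0 K 0 (n • ((1, 0) : V)) ω / n) atTop := by
      filter_upwards [h] with ω hω
      obtain ⟨C, hC⟩ := hω
      refine le_liminf_of_le (by isBoundedDefault) ?_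
      obtain ⟨N, hN⟩ := exists_nat_gt (2 * |C| / c)
      filter_upwards [eventually_ge_atTop (N + 1)] with n hn
      have hn0 : (0 : ℝ) < n := by
        have : (N : ℝ) + 1 ≤ n := by exact_mod_cast hn
        have := Nat.cast_nonneg (α := ℝ) N
        linarith
      rw [ENNReal.le_div_iff_mul_le (Or.inl (by exact_mod_cast (by omega : n ≠ 0)))
        (Or.inl (ENNReal.natCast_ne_top n)), ← ENNReal.ofReal_natCast, ← ENNReal.ofReal_mul (by positivity)]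
      refine le_trans (ENNReal.ofReal_le_ofReal ?_) (hC n)
      rw [div_lt_iff₀ hc] at hN
      have h3 : (N : ℝ) ≤ n := by exact_mod_cast (by omega : N ≤ n)
      have h4 := le_abs_self C
      nlinarith
    calc ENNReal.ofReal (c / 2) = ∫⁻ _ω, ENNReal.ofReal (c / 2) ∂(iid Ed F) := by
          rw [lintegral_const, measure_univ, mul_one]
      _ ≤ _ := lintegral_mono_ae h2
  have h2 := tendsto_rho hK h0 (F := F) ((1, 0) : V)
  have h3 : Tendsto (fun n : ℕ => ∫⁻ ω, tf 0 K 0 (n • ((1, 0) : V)) ω / n ∂(iid Ed F)) atTop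
      (𝓝 (ENNReal.ofReal (rho 0 F K (1, 0)))) := by
    refine ((ENNReal.continuous_ofReal.tendsto _).comp h2).congr' ?_
    filter_upwards [eventually_gt_atTop 0] with n hn
    have hn0 : (0 : ℝ) < n := by exact_mod_cast hn
    simp only [Function.comp]
    unfold em
    rw [ENNReal.ofReal_div_of_pos hn0, ENNReal.ofReal_toReal (tf_fin hK h0 _ _), ENNReal.ofReal_natCast]
    simp only [ENNReal.div_eq_inv_mul]
    rw [lintegral_const_mul _ (measurable_tf 0 K 0 _)]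
  rw [h3.liminf_eq] at h1
  have h4 : 0 < ENNReal.ofReal (rho 0 F K (1, 0)) := lt_of_lt_of_le (by
    rw [ENNReal.ofReal_pos]; positivity) h1
  exact ENNReal.ofReal_pos.1 h4

end pos

/-! ### reflections of the classes -/

theorem Dup.rf {σ : ℤ} (hσ : σ = 0 ∨ σ = 1) {u : V} (hu : Dup σ u) : Dlo σ (rf σ u) := by
  have h1 := hu.pos
  have h2 := hu.ln
  rcases hσ with rfl | rfl
  · have h3 := hu.zero rfl
    rw [rf_zero]
    exact ⟨h1, by simp only; omega, fun _ => by simp only; omega⟩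
  · have h3 := hu.one rfl
    rw [rf_one]
    exact ⟨h3, by simp only; omega, fun h => absurd h (by norm_num)⟩

section refl

variable {σ : ℤ} {K : ℝ≥0∞} {w : W} {u : V}

theorem oklo_rf (hσ : σ = 0 ∨ σ = 1) (u : V) (L : ℕ) (i : ℤ) :
    OKlo σ K (rf σ u) L i (rfw σ w) ↔ OKup σ K u L (-i - 1) w := by
  unfold OKlo OKup
  rw [ck_rfw hσ]
  have hE := mem_wup_rf hσ u (L : ℤ)
  have hE' : ∀ x, rf σ x ∈ Wlo σ (rf σ u) L ↔ x ∈ Wup σ u L := by
    intro x
    rw [← hE, rf_rf hσ]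
  constructor
  · intro h j hj
    have h1 := cin_rf hσ hE' (h (-j - 1) (by omega))
    rw [rfc_rfc, show -(-j - 1) - 1 = j by ring] at h1
    exact h1
  · intro h j hj
    have h1 := cin_rf hσ hE (h (-j - 1) (by omega))
    rw [show -(-j - 1) - 1 = j by ring] at h1
    exact h1

/-- Lower classes of the reflected configuration. -/
theorem glo_rf (hσ : σ = 0 ∨ σ = 1) (hK : K ≠ ⊤) (hN : Nice σ K w) (hN' : Nice σ K (rfw σ w))
    (hu : Dup σ u) (L : ℕ) (i : ℤ) : glo σ K (rf σ u) L i (rfw σ w) = -gup σ K u L (-i - 1) w := by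
  by_cases h : OKup σ K u L (-i - 1) w
  · have h' := (oklo_rf hσ u L i).2 h
    have h1 := tendsto_glo hσ hK hN' (hu.rf hσ) h'
    have h2 := (tendsto_gup hσ hK hN hu h).neg
    refine tendsto_nhds_unique h1 (h2.congr fun m => ?_)
    rw [BI_wup hσ hN.diag, ck_rfw hσ, BI_neg, neg_neg]
    congr 1 <;> ring
  · have h' := fun hh => h ((oklo_rf (w := w) (K := K) hσ u L i).1 hh)
    unfold glo gup
    rw [if_neg h, if_neg h', neg_neg]

end refl

section reflae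

variable {F : Measure ℝ} [IsProbabilityMeasure F] {K : ℝ≥0∞} (hK : SmallK F K) {σ : ℤ}
  (hσ : σ = 0 ∨ σ = 1)

include hK hσ

theorem ae_nice_rfw : ∀ᵐ ω ∂(iid Ed F), Nice σ K (rfw σ (wt ω)) := by
  have h := (measurePreserving_gO F (aut_rf hσ)).quasiMeasurePreserving.ae (ae_nice (F := F) hK hσ)
  filter_upwards [h] with ω hω
  rwa [wt_gO_rf hσ] at hω

theorem ae_glo_rf : ∀ᵐ ω ∂(iid Ed F), ∀ u : V, Dup σ u → ∀ (L : ℕ) (i : ℤ),
    glo σ K (rf σ u) L i (wt (gO (rf σ) ω)) = -gup σ K u L (-i - 1) (wt ω) := by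
  filter_upwards [ae_nice (F := F) hK hσ, ae_nice_rfw (F := F) hK hσ] with ω h1 h2 u hu L i
  rw [wt_gO_rf hσ]
  exact glo_rf hσ hK.1 h1 h2 hu L i

theorem ae_Glo_rf : ∀ᵐ ω ∂(iid Ed F), ∀ u : V, Dup σ u → ∀ (i : ℤ),
    Glo σ K (rf σ u) i (wt (gO (rf σ) ω)) = -Gup σ K u (-i - 1) (wt ω) := by
  filter_upwards [ae_nice (F := F) hK hσ, ae_nice_rfw (F := F) hK hσ, ae_glo_rf (F := F) hK hσ]
    with ω h1 h2 h3 u hu i
  have h4 := tendsto_gup_L hσ hK.1 h1 hu (-i - 1)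
  have h5 : Tendsto (fun L : ℕ => glo σ K (rf σ u) L i (wt (gO (rf σ) ω))) atTop
      (𝓝 (Glo σ K (rf σ u) i (wt (gO (rf σ) ω)))) := by
    rw [wt_gO_rf hσ]
    exact tendsto_glo_L hσ hK.1 h2 (hu.rf hσ) i
  exact tendsto_nhds_unique h5 (h4.neg.congr fun L => (h3 u hu L i).symm)

omit hσ in
/-- `σ = 0`: the class `a` is the mirror image of the class `b`. -/
theorem ae_alo_rf : ∀ᵐ ω ∂(iid Ed F), ∀ i : ℤ,
    alo 0 K i (wt (gO (rf 0) ω)) = -blo 0 K (-i - 1) (wt ω) := by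
  have h0 : (0 : ℤ) = 0 ∨ (0 : ℤ) = 1 := Or.inl rfl
  filter_upwards [ae_nice (F := F) hK h0, ae_nice_rfw (F := F) hK h0, ae_Glo_rf (F := F) hK h0,
    ae_blo_eq_bup (F := F) hK h0] with ω h1 h2 h3 h4 i
  have h5 : Tendsto (fun j : ℕ => Glo 0 K (ua j) i (wt (gO (rf 0) ω))) atTop
      (𝓝 (alo 0 K i (wt (gO (rf 0) ω)))) := by
    rw [wt_gO_rf h0]
    exact tendsto_Glo_ua h0 hK.1 h2 i
  have h6 := (tendsto_Gup_ub h0 hK.1 h1 (-i - 1)).comp (tendsto_add_atTop_nat 2)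
  rw [h4]
  refine tendsto_nhds_unique h5 (h6.neg.congr fun j => ?_)
  have e : ua j = rf 0 (ub (j + 2)) := by
    rw [rf_zero]
    unfold ua ub
    simp only [Prod.mk.injEq, and_true]
    push_cast; ring
  rw [e]
  exact (h3 (ub (j + 2)) (dup_ub 0 (j + 2)) i).symm

theorem integral_gup_vert (u : V) (L : ℕ) (i : ℤ) :
    ∫ ω, gup σ K u L i (wt ω) ∂(iid Ed F) = ∫ ω, gup σ K u (L + 1) (i + (1 + σ)) (wt ω) ∂(iid Ed F) := by
  have h := measurePreserving_shO F (vert σ)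
  have h2 := integral_map h.measurable.aemeasurable
    (measurable_gup measurable_wt3 σ K u L i).aestronglyMeasurable (μ := iid Ed F)
  rw [h.map_eq] at h2
  rw [h2]
  refine integral_congr_ae (Eventually.of_forall fun ω => ?_)
  simp only
  rw [wt_shO, gup_vert hσ]

theorem EV_glo_rf {u : V} (hu : Dup σ u) (L : ℕ) :
    EV σ F (glo σ K (rf σ u) L) = -EV σ F (gup σ K u (L + 1)) := by
  rw [EV_eq hσ (adm_glo σ K (rf σ u) L), EV_eq hσ (adm_gup σ K u (L + 1)), ← Finset.sum_neg_distrib]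
  have h1 : ∀ i : ℤ, ∫ ω, glo σ K (rf σ u) L i (wt ω) ∂(iid Ed F) =
      -∫ ω, gup σ K u (L + 1) (-i - 1 + (1 + σ)) (wt ω) ∂(iid Ed F) := by
    intro i
    rw [← integral_gup_vert hK hσ, ← integral_neg]
    have h := measurePreserving_gO F (aut_rf hσ)
    have h2 := integral_map h.measurable.aemeasurable
      (measurable_glo measurable_wt3 σ K (rf σ u) L i).aestronglyMeasurable (μ := iid Ed F)
    rw [h.map_eq] at h2
    rw [h2]
    refine integral_congr_ae ?_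
    filter_upwards [ae_glo_rf (F := F) hK hσ] with ω h3
    exact h3 u hu L i
  simp only [h1]
  rcases hσ with rfl | rfl
  · have e : per 0 = 1 := rfl
    rw [e]
    simp
  · have e : per 1 = 2 := rfl
    rw [e]
    simp only [Finset.sum_range_succ, Finset.range_zero, Finset.sum_empty, zero_add, Nat.cast_one,
      Nat.cast_zero]
    rw [add_comm]
    norm_num

theorem tendsto_EV_gup {u : V} (hu : Dup σ u) :
    Tendsto (fun L : ℕ => EV σ F (gup σ K u L)) atTop (𝓝 (EV σ F (Gup σ K u))) := by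
  rw [EV_eq hσ (adm_Gup σ K u)]
  have h : ∀ L : ℕ, EV σ F (gup σ K u L) =
      ∑ j ∈ Finset.range (per σ), ∫ ω, gup σ K u L j (wt ω) ∂(iid Ed F) := fun L =>
    EV_eq hσ (adm_gup σ K u L)
  simp only [h]
  refine tendsto_finsetSum _ fun i _ => tendsto_integral_bdd
    (fun L => measurable_gup measurable_wt3 σ K u L i) (fun L ω => abs_gup_le σ K u L i (wt ω)) ?_
  exact (ae_nice (F := F) hK hσ).mono fun _ h => tendsto_gup_L hσ hK.1 h hu i

theorem tendsto_EV_glo {u : V} (hu : Dlo σ u) :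
    Tendsto (fun L : ℕ => EV σ F (glo σ K u L)) atTop (𝓝 (EV σ F (Glo σ K u))) := by
  rw [EV_eq hσ (adm_Glo σ K u)]
  have h : ∀ L : ℕ, EV σ F (glo σ K u L) =
      ∑ j ∈ Finset.range (per σ), ∫ ω, glo σ K u L j (wt ω) ∂(iid Ed F) := fun L =>
    EV_eq hσ (adm_glo σ K u L)
  simp only [h]
  refine tendsto_finsetSum _ fun i _ => tendsto_integral_bdd
    (fun L => measurable_glo measurable_wt3 σ K u L i) (fun L ω => abs_glo_le σ K u L i (wt ω)) ?_
  exact (ae_nice (F := F) hK hσ).mono fun _ h => tendsto_glo_L hσ hK.1 h hu i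

end reflae

/-- `σ = 1`, diamond: the label of the upper class of slope `1/2` is nonnegative. -/
theorem EV_Gup_two_one {F : Measure ℝ} [IsProbabilityMeasure F] {K : ℝ≥0∞} (hK : SmallK F K)
    (h : rho 1 F K (1, 1) = 2 * rho 1 F K (1, 0)) : 0 ≤ EV 1 F (Gup 1 K (2, 1)) := by
  have h1 : (1 : ℤ) = 0 ∨ (1 : ℤ) = 1 := Or.inr rfl
  have h2 := label_Gup (F := F) hK h1 (dup_ub 1 0) (ub_slope 0) (N := 1) one_pos 1
  have e0 : ub 0 = ((2, 1) : V) := rfl
  have e1 : 1 • ub 0 = ((2, 1) : V) := by rw [one_smul]; rfl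
  have e2 : 1 • ub 0 - ((1 : ℕ) : ℤ) • vert 1 = ((3, 0) : V) := by
    rw [e1]; rfl
  rw [e2, e1, rho_diamond hK h1 h 2 1, rho_diamond hK h1 h 3 0, e0] at h2
  norm_num at h2
  exact h2

/-- `σ = 1`, diamond: zero drift of the classes of the slopes `2` and `1/2`. -/
theorem zero_drift {F : Measure ℝ} [IsProbabilityMeasure F] {K : ℝ≥0∞} (hK : SmallK F K)
    (h : rho 1 F K (1, 1) = 2 * rho 1 F K (1, 0)) {ε : ℝ} (hε : 0 < ε) :
    ∀ᶠ L : ℕ in atTop, EV 1 F (glo 1 K (1, 2) L) ≤ ε ∧ -ε ≤ EV 1 F (gup 1 K (2, 1) L) := by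
  have h1 : (1 : ℤ) = 0 ∨ (1 : ℤ) = 1 := Or.inr rfl
  have hu : Dup 1 ((2, 1) : V) := dup_ub 1 0
  have h2 := EV_Gup_two_one (F := F) hK h
  have h3 := (tendsto_EV_gup (F := F) hK h1 hu).eventually (eventually_gt_nhds (by linarith : -ε < _))
  have h4 := (tendsto_add_atTop_nat 1).eventually h3
  filter_upwards [h3, h4] with L h5 h6
  refine ⟨?_, h5.le⟩
  have e : ((1, 2) : V) = rf 1 (2, 1) := by rw [rf_one]
  rw [e, EV_glo_rf hK h1 hu]
  linarith

end C7
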