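import Pool.Agent.Lib.MP_c725eb_pr.A0
import Pool.Agent.Lib.MP_c725eb_pr.ClsRefl
import Pool.Agent.Lib.MP_c725eb_pr.GenC

/-!
# The generic base functionals in the two cases

* Case `rho (1,1) < 2 rho (1,0)` (system `σ = 0`): the classes `b` and `a` are generic and are not
  extremal on the lines.
* Case `rho (1,1) = 2 rho (1,0)` (system `σ = 1`): the class `b` is generic and is not extremal on
  the lines; all targets of the cone are governed by it.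
-/

set_option autoImplicit false

namespace C7

open MeasureTheory Filter Set
open scoped ENNReal Topology

section

variable {F : Measure ℝ} [IsProbabilityMeasure F] {K : ℝ≥0∞}

theorem rho_vert_pos (hK : SmallK F K) {σ : ℤ} (hσ : σ = 0 ∨ σ = 1) (hF : ∀ a, F {a} = 0)
    (hF0 : F (Iio 0) = 0) : 0 < rho σ F K (vert σ) := by
  have h1 := rho_pos hK hσ hF hF0
  rcases hσ with rfl | rfl
  · rwa [rho_vert_zero hK]
  · have e : vert 1 = ((-1, 1) : V) := rfl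
    rw [e, rho_neg_fst hK (Or.inr rfl)]
    have h2 := rho_ge_axis (F := F) hK (Or.inr rfl : (1 : ℤ) = 0 ∨ (1 : ℤ) = 1) 1 1
    simp only [Int.cast_one, abs_one, one_mul] at h2
    linarith

/-! ### the case of strict convexity -/

theorem ae_lim_blo_zero (hK : SmallK F K) (hF : ∀ a, F {a} = 0) (hF0 : F (Iio 0) = 0)
    (h : rho 0 F K (1, 1) < 2 * rho 0 F K (1, 0)) : ∃ τ : ℕ → V, ∀ᵐ ω ∂(iid Ed F),
      Lim 0 K (wt ω) (fun l => pot fun i => mv 0 (blo 0 K) l i (wt ω)) τ := by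
  have hσ : (0 : ℤ) = 0 ∨ (0 : ℤ) = 1 := Or.inl rfl
  have h1 := nondiamond (F := F) hK h (ε := 1) (Or.inl rfl)
  push_cast at h1
  rw [one_mul] at h1
  obtain ⟨j₀, hj₀⟩ : ∃ j₀ : ℕ, EV 0 F (Glo 0 K (ub j₀)) < rho 0 F K (vert 0) := by
    have h2 := EV_tendsto (F := F) hσ (fun j : ℕ => adm_Glo 0 K (ub j)) (adm_blo 0 K) (by
      intro i
      filter_upwards [ae_nice (F := F) hK hσ] with ω hN
      exact tendsto_Glo_ub hσ hK.1 hN i)
    exact (h2.eventually_lt_const h1).exists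
  refine ae_lim0 hK hj₀ ?_ (rho_vert_pos hK hσ hF hF0)
  have hd : Dup 0 ((1, 0) : V) := ⟨⟨by norm_num, by norm_num, fun _ => by norm_num⟩,
    fun h => absurd h (by norm_num)⟩
  have h3 := label_Gup (F := F) hK hσ hd (by norm_num) (N := 1) one_pos 1
  have e1 : 1 • ((1, 0) : V) = ((1, 0) : V) := one_smul _ _
  have e2 : ((1, 0) : V) - ((1 : ℕ) : ℤ) • vert 0 = (1, -1) := by
    refine Prod.ext ?_ ?_
    · rw [Prod.fst_sub, zsmul_fst]; unfold vert; norm_num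
    · rw [Prod.snd_sub, zsmul_snd]; unfold vert; norm_num
  rw [e1, e2, rho_neg_snd hK hσ] at h3
  rw [rho_vert_zero hK]
  push_cast at h3
  linarith

/-- The class `b` is generic. -/
theorem ae_genG_blo_zero (hK : SmallK F K) (hF : ∀ a, F {a} = 0) (hF0 : F (Iio 0) = 0)
    (h : rho 0 F K (1, 1) < 2 * rho 0 F K (1, 0)) : ∀ᵐ ω ∂(iid Ed F), GenG 0 K (blo 0 K) ω := by
  have hσ : (0 : ℤ) = 0 ∨ (0 : ℤ) = 1 := Or.inl rfl
  obtain ⟨τ, hτ⟩ := ae_lim_blo_zero hK hF hF0 h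
  exact ae_genG hσ hK.1 hF hF0 (adm_blo 0 K) (loc_blo 0 K) (ae_cfg hK hσ hF hF0)
    (hτ.mono fun ω h => ⟨τ, h⟩)

/-- The class `a` is generic. -/
theorem ae_genG_alo_zero (hK : SmallK F K) (hF : ∀ a, F {a} = 0) (hF0 : F (Iio 0) = 0)
    (h : rho 0 F K (1, 1) < 2 * rho 0 F K (1, 0)) : ∀ᵐ ω ∂(iid Ed F), GenG 0 K (alo 0 K) ω := by
  have hσ : (0 : ℤ) = 0 ∨ (0 : ℤ) = 1 := Or.inl rfl
  obtain ⟨τ, hτ⟩ := ae_lim_blo_zero hK hF hF0 h
  exact ae_genG hσ hK.1 hF hF0 (adm_alo 0 K) (loc_alo 0 K) (ae_cfg hK hσ hF hF0)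
    ((ae_lim_alo hK hτ).mono fun ω h => ⟨_, h⟩)

/-- The class `b` is not extremal. -/
theorem abs_EV_blo_zero (hK : SmallK F K) (h : rho 0 F K (1, 1) < 2 * rho 0 F K (1, 0)) :
    |EV 0 F (blo 0 K)| < rho 0 F K (vert 0) := by
  have h1 := nondiamond (F := F) hK h (ε := 1) (Or.inl rfl)
  have h2 := nondiamond (F := F) hK h (ε := -1) (Or.inr rfl)
  push_cast at h1 h2
  rw [abs_lt]
  constructor <;> linarith

/-- The class `a` is not extremal. -/
theorem abs_EV_alo_zero (hK : SmallK F K) (h : rho 0 F K (1, 1) < 2 * rho 0 F K (1, 0)) :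
    |EV 0 F (alo 0 K)| < rho 0 F K (vert 0) := by
  rw [EV_alo_zero hK, abs_neg]
  exact abs_EV_blo_zero hK h

/-! ### the diamond case -/

theorem ae_bc1_diamond (hK : SmallK F K) (hF : ∀ a, F {a} = 0) (hF0 : F (Iio 0) = 0)
    (h : rho 1 F K (1, 1) = 2 * rho 1 F K (1, 0)) : ∀ᵐ ω ∂(iid Ed F), BC1 K F ω := by
  have hσ : (1 : ℤ) = 0 ∨ (1 : ℤ) = 1 := Or.inr rfl
  have hd12 : Dlo 1 ((1, 2) : V) := ⟨by norm_num, by norm_num, fun h => absurd h (by norm_num)⟩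
  refine ae_bc1 hK ?_ (fun j => ?_) (rho_vert_pos hK hσ hF hF0)
  · refine le_of_forall_pos_le_add fun ε hε => ?_
    rw [zero_add]
    exact le_of_tendsto (tendsto_EV_glo (F := F) hK hσ hd12) ((zero_drift (F := F) hK h hε).mono fun L h => h.1)
  · have h2 := label_Gup (F := F) hK hσ (dup_ub 1 j) (ub_slope j) (N := 1) one_pos 1
    have e1 : 1 • ub j = (((j : ℤ) + 2, 1) : V) := by rw [one_smul]; rfl
    have e2 : 1 • ub j - ((1 : ℕ) : ℤ) • vert 1 = (((j : ℤ) + 3, 0) : V) := by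
      rw [e1]
      refine Prod.ext ?_ ?_
      · rw [Prod.fst_sub, zsmul_fst]; unfold vert; push_cast; ring
      · rw [Prod.snd_sub, zsmul_snd]; unfold vert; norm_num
    rw [e2, e1, rho_diamond hK hσ h ((j : ℤ) + 2) 1, rho_diamond hK hσ h ((j : ℤ) + 3) 0] at h2
    have e3 : |((((j : ℤ) + 2 : ℤ)) : ℝ)| = (j : ℝ) + 2 := by
      push_cast
      exact abs_of_nonneg (by positivity)
    have e4 : |((((j : ℤ) + 3 : ℤ)) : ℝ)| = (j : ℝ) + 3 := by
      push_cast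
      exact abs_of_nonneg (by positivity)
    rw [e3, e4] at h2
    norm_num at h2
    have e5 : ub j = (((j : ℤ) + 2, 1) : V) := rfl
    rw [← e5]
    linarith

/-- The class `b` is generic. -/
theorem ae_genG_blo_one (hK : SmallK F K) (hF : ∀ a, F {a} = 0) (hF0 : F (Iio 0) = 0)
    (h : rho 1 F K (1, 1) = 2 * rho 1 F K (1, 0)) : ∀ᵐ ω ∂(iid Ed F), GenG 1 K (blo 1 K) ω := by
  have hσ : (1 : ℤ) = 0 ∨ (1 : ℤ) = 1 := Or.inr rfl
  exact ae_genG hσ hK.1 hF hF0 (adm_blo 1 K) (loc_blo 1 K) (ae_cfg hK hσ hF hF0)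
    ((ae_bc1_diamond hK hF hF0 h).mono fun ω h => ⟨_, h.lim tendsto_diag⟩)

/-- The class `b` is not extremal. -/
theorem abs_EV_blo_one (hK : SmallK F K) (hF : ∀ a, F {a} = 0) (hF0 : F (Iio 0) = 0)
    (h : rho 1 F K (1, 1) = 2 * rho 1 F K (1, 0)) :
    |EV 1 F (blo 1 K)| < rho 1 F K (vert 1) := by
  rw [EV_blo_one hK h, abs_zero]
  exact rho_vert_pos hK (Or.inr rfl) hF hF0

/-- The two cases. -/
theorem case_split (hK : SmallK F K) :
    rho 0 F K (1, 1) < 2 * rho 0 F K (1, 0) ∨ rho 1 F K (1, 1) = 2 * rho 1 F K (1, 0) := by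
  have h0 : (0 : ℤ) = 0 ∨ (0 : ℤ) = 1 := Or.inl rfl
  have h1 : (1 : ℤ) = 0 ∨ (1 : ℤ) = 1 := Or.inr rfl
  rcases (rho_diag_le (F := F) hK h0).lt_or_eq with h | h
  · exact Or.inl h
  · right
    rw [rho_sys hK h1 h0, rho_sys hK h1 h0, h]

end

end C7
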