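import Pool.Agent.Lib.MP_c725eb_pr.Rho
import Pool.Agent.Lib.MP_c725eb_pr.Cover
import Pool.Agent.Lib.MP_c725eb_pr.DTwo
import Pool.Agent.Lib.MP_c725eb_pr.StripInst

/-!
# Upper deviations of the passage times, in probability
-/

set_option autoImplicit false

namespace C7

open MeasureTheory Filter Set
open scoped ENNReal Topology

/-! ### likely events -/

section lk

variable {F : Measure ℝ} [IsProbabilityMeasure F]

/-- Almost surely eventually implies likely. -/
theorem lk_of_ae {P : ℕ → Om → Prop} (hm : ∀ m, MeasurableSet {ω | P m ω})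
    (h : ∀ᵐ ω ∂(iid Ed F), ∀ᶠ m in atTop, P m ω) : Lk F P := by
  set B : ℕ → Set Om := fun m => ⋃ m' ≥ m, {ω | P m' ω}ᶜ with hB
  have hanti : Antitone B := by
    intro m m' hmm ω hω
    simp only [hB, mem_iUnion] at hω ⊢
    obtain ⟨i, hi, h⟩ := hω
    exact ⟨i, le_trans hmm hi, h⟩
  have hBm : ∀ m, MeasurableSet (B m) := fun m =>
    MeasurableSet.biUnion (to_countable _) fun i _ => (hm i).compl
  have h0 : iid Ed F (⋂ m, B m) = 0 := by
    refine measure_mono_null ?_ (ae_iff.1 h)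
    intro ω hω
    simp only [mem_iInter, hB, mem_iUnion, mem_compl_iff, mem_ofPred_eq, eventually_atTop, not_exists,
      not_forall] at hω ⊢
    intro m
    obtain ⟨i, hi, h⟩ := hω m
    exact ⟨i, hi, h⟩
  have h1 : Tendsto (fun m => iid Ed F (B m)) atTop (𝓝 0) := by
    rw [← h0]
    exact tendsto_measure_iInter_atTop (fun m => (hBm m).nullMeasurableSet) hanti ⟨0, measure_ne_top _ _⟩
  refine tendsto_of_tendsto_of_tendsto_of_le_of_le tendsto_const_nhds h1 (fun _ => zero_le) fun m => ?_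
  refine measure_mono fun ω hω => ?_
  simp only [hB, mem_iUnion]
  exact ⟨m, le_rfl, hω⟩

omit [IsProbabilityMeasure F] in
theorem Lk.comp_tendsto {P : ℕ → Om → Prop} (h : Lk F P) {φ : ℕ → ℕ} (hφ : Tendsto φ atTop atTop) :
    Lk F fun m ω => P (φ m) ω := by
  have h' : Tendsto (fun m => (iid Ed F) {ω | ¬ P m ω}) atTop (𝓝 0) := h
  exact h'.comp hφ

/-- A random variable is small against `n`. -/
theorem lk_small {g : Om → ℝ≥0∞} (hg : Measurable g) (hfin : ∀ᵐ ω ∂(iid Ed F), g ω ≠ ⊤) {ε : ℝ} (hε : 0 < ε) :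
    Lk F fun n ω => g ω ≤ ENNReal.ofReal (ε * n) := by
  refine lk_of_ae (fun m => measurableSet_le hg measurable_const) ?_
  filter_upwards [hfin] with ω hω
  obtain ⟨N, hN⟩ := exists_nat_gt ((g ω).toReal / ε)
  filter_upwards [eventually_ge_atTop N] with n hn
  rw [div_lt_iff₀ hε] at hN
  rw [← ENNReal.ofReal_toReal hω]
  refine ENNReal.ofReal_le_ofReal ?_
  have : (N : ℝ) ≤ n := by exact_mod_cast hn
  nlinarith

/-- Moving likely events. -/
theorem Lk.shO {P : ℕ → Om → Prop} (h : Lk F P) (hm : ∀ m, MeasurableSet {ω | P m ω}) (s : ℕ → V) :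
    Lk F fun m ω => P m (C7.shO (s m) ω) := by
  refine tendsto_of_tendsto_of_tendsto_of_le_of_le tendsto_const_nhds h (fun _ => zero_le) fun n => ?_
  exact ((measurePreserving_shO F (s n)).measure_preimage (hm n).compl.nullMeasurableSet).le

/-- A moving random variable is small against `n`. -/
theorem lk_small_shO {g : Om → ℝ≥0∞} (hg : Measurable g) (hfin : ∀ᵐ ω ∂(iid Ed F), g ω ≠ ⊤) {ε : ℝ}
    (hε : 0 < ε) (s : ℕ → V) : Lk F fun n ω => g (shO (s n) ω) ≤ ENNReal.ofReal (ε * n) := by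
  have h := lk_small (F := F) hg hfin hε
  refine tendsto_of_tendsto_of_tendsto_of_le_of_le tendsto_const_nhds h (fun _ => zero_le) fun n => ?_
  have hm : MeasurableSet {ω | ¬ g ω ≤ ENNReal.ofReal (ε * n)} :=
    (measurableSet_le hg measurable_const).compl
  exact ((measurePreserving_shO F (s n)).measure_preimage hm.nullMeasurableSet).le

omit [IsProbabilityMeasure F] in
theorem lk_true {P : ℕ → Om → Prop} (h : ∀ m ω, P m ω) : Lk F P := by
  have e : ∀ m, iid Ed F {ω | ¬ P m ω} = 0 := by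
    intro m
    have : {ω | ¬ P m ω} = ∅ := by
      ext ω
      simp [h m ω]
    rw [this, measure_empty]
  unfold Lk
  simp only [e]
  exact tendsto_const_nhds

end lk

/-! ### Birkhoff sums of integrable functions, in probability -/

theorem min_add_tsub (a M : ℝ≥0∞) : min a M + (a - M) = a := by
  rcases le_total a M with h | h
  · rw [min_eq_left h, tsub_eq_zero_of_le h, add_zero]
  · rw [min_eq_right h, add_tsub_cancel_of_le h]

theorem bs_add_fun (θ : Om → Om) (f g : Om → ℝ≥0∞) (n : ℕ) (ω : Om) :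
    bs θ (fun ω => f ω + g ω) n ω = bs θ f n ω + bs θ g n ω := by
  unfold bs
  rw [Finset.sum_add_distrib]

section birk

variable {F : Measure ℝ} [IsProbabilityMeasure F]

theorem lk_bs_le {s : V} (hs : s ≠ 0) {f : Om → ℝ≥0∞} (hf : Measurable f)
    (hint : ∫⁻ ω, f ω ∂(iid Ed F) ≠ ⊤) {c : ℝ} (hc : (∫⁻ ω, f ω ∂(iid Ed F)).toReal < c) :
    Lk F fun q ω => bs (shO s) f q ω ≤ ENNReal.ofReal (c * q) := by
  obtain ⟨c₁, hc1, hc2⟩ := exists_between hc
  have hc1' : 0 ≤ c₁ := ENNReal.toReal_nonneg.trans hc1.le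
  set δ := c - c₁ with hδ
  have hδ0 : 0 < δ := by linarith
  have hmp := measurePreserving_shO F s
  have hfin : ∀ᵐ ω ∂(iid Ed F), f ω ≠ ⊤ := (ae_lt_top hf hint).mono fun _ h => h.ne
  -- the truncated part
  have htr : ∀ M : ℕ, Lk F fun q ω => bs (shO s) (fun ω => min (f ω) M) q ω ≤ ENNReal.ofReal (c₁ * q) := by
    intro M
    have hm : Measurable fun ω => min (f ω) (M : ℝ≥0∞) := hf.min measurable_const
    have hfM : ∀ ω, min (f ω) (M : ℝ≥0∞) ≠ ⊤ := fun ω =>
      ne_top_of_le_ne_top (ENNReal.natCast_ne_top M) (min_le_right _ _)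
    refine lk_of_ae (fun q => measurableSet_le (measurable_bs hmp.measurable hm q) measurable_const) ?_
    have hb : ∀ ω, |(min (f ω) (M : ℝ≥0∞)).toReal| ≤ M := by
      intro ω
      rw [abs_of_nonneg ENNReal.toReal_nonneg]
      have := ENNReal.toReal_mono (ENNReal.natCast_ne_top M) (min_le_right (f ω) (M : ℝ≥0∞))
      simpa using this
    have hi : ∫ ω, (min (f ω) (M : ℝ≥0∞)).toReal ∂(iid Ed F) < c₁ := by
      rw [integral_toReal hm.aemeasurable (Eventually.of_forall fun ω => (hfM ω).lt_top)]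
      exact lt_of_le_of_lt (ENNReal.toReal_mono hint (lintegral_mono fun ω => min_le_left _ _)) hc1
    filter_upwards [birkhoff_le (ergodic_shO F hs) hm.ennreal_toReal hb hi] with ω hω
    filter_upwards [hω] with q hq
    have e : bs (shO s) (fun ω => min (f ω) (M : ℝ≥0∞)) q ω =
        ENNReal.ofReal (bs (shO s) (fun ω => (min (f ω) (M : ℝ≥0∞)).toReal) q ω) := by
      unfold bs
      rw [ENNReal.ofReal_sum_of_nonneg fun _ _ => ENNReal.toReal_nonneg]
      exact Finset.sum_congr rfl fun i _ => (ENNReal.ofReal_toReal (hfM _)).symm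
    rw [e]
    exact ENNReal.ofReal_le_ofReal hq
  -- the tails
  have htail : Tendsto (fun M : ℕ => ∫⁻ ω, (f ω - M) ∂(iid Ed F)) atTop (𝓝 0) := by
    have h1 : Tendsto (fun M : ℕ => ∫⁻ ω, (f ω - M) ∂(iid Ed F)) atTop (𝓝 (∫⁻ _ω, 0 ∂(iid Ed F))) := by
      refine tendsto_lintegral_of_dominated_convergence f (fun M => hf.sub measurable_const)
        (fun M => Eventually.of_forall fun ω => tsub_le_self) hint ?_
      filter_upwards [hfin] with ω hω
      obtain ⟨N, hN⟩ := ENNReal.exists_nat_gt hω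
      refine tendsto_const_nhds.congr' ?_
      filter_upwards [eventually_ge_atTop N] with M hM
      rw [tsub_eq_zero_of_le]
      exact hN.le.trans (by exact_mod_cast hM)
    simpa using h1
  rw [Lk, ENNReal.tendsto_nhds_zero]
  intro η hη
  by_cases hηt : η = ⊤
  · exact Eventually.of_forall fun _ => by rw [hηt]; exact le_top
  have hη2 : 0 < η / 2 := ENNReal.half_pos hη.ne'
  have hpos : 0 < ENNReal.ofReal δ * (η / 2) := ENNReal.mul_pos (by simpa using hδ0) hη2.ne'
  obtain ⟨M, hM⟩ := ((ENNReal.tendsto_nhds_zero.1 htail) _ hpos).exists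
  filter_upwards [(ENNReal.tendsto_nhds_zero.1 (htr M)) _ hη2, eventually_gt_atTop 0] with q hq hq0
  have hq0' : (q : ℝ≥0∞) ≠ 0 := by exact_mod_cast hq0.ne'
  -- Markov
  have hmk : iid Ed F {ω | ENNReal.ofReal (δ * q) ≤ bs (shO s) (fun ω => f ω - M) q ω} ≤ η / 2 := by
    have hm2 : Measurable fun ω => f ω - (M : ℝ≥0∞) := hf.sub measurable_const
    have h1 := mul_meas_ge_le_lintegral (μ := iid Ed F) (measurable_bs hmp.measurable hm2 q)
      (ENNReal.ofReal (δ * q))
    rw [lintegral_bs hmp hm2] at h1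
    have h2 : ENNReal.ofReal (δ * q) = q * ENNReal.ofReal δ := by
      rw [mul_comm δ, ENNReal.ofReal_mul (by positivity), ENNReal.ofReal_natCast]
    rw [h2, mul_assoc] at h1
    rw [h2]
    have h3 := (ENNReal.mul_le_mul_iff_right hq0' (ENNReal.natCast_ne_top q)).1 h1
    have h4 := h3.trans hM
    exact (ENNReal.mul_le_mul_iff_right (by simpa using hδ0 : ENNReal.ofReal δ ≠ 0) ENNReal.ofReal_ne_top).1 h4
  calc iid Ed F {ω | ¬ bs (shO s) f q ω ≤ ENNReal.ofReal (c * q)}
      ≤ iid Ed F ({ω | ¬ bs (shO s) (fun ω => min (f ω) M) q ω ≤ ENNReal.ofReal (c₁ * q)} ∪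
          {ω | ENNReal.ofReal (δ * q) ≤ bs (shO s) (fun ω => f ω - M) q ω}) := by
        refine measure_mono fun ω hω => ?_
        by_contra hcon
        simp only [mem_union, mem_ofPred_eq, not_or, not_le, not_lt] at hcon hω
        refine absurd hω (not_lt.2 ?_)
        have e : bs (shO s) f q ω = bs (shO s) (fun ω => min (f ω) M) q ω +
            bs (shO s) (fun ω => f ω - M) q ω := by
          rw [← bs_add_fun]
          simp only [min_add_tsub]
        rw [e]
        refine (add_le_add hcon.1 hcon.2.le).trans ?_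
        rw [← ENNReal.ofReal_add (by positivity) (by positivity)]
        refine ENNReal.ofReal_le_ofReal (le_of_eq ?_)
        rw [hδ]; ring
    _ ≤ η / 2 + η / 2 := (measure_union_le _ _).trans (add_le_add hq hmk)
    _ = η := ENNReal.add_halves η

end birk

/-! ### passage times -/

section tf

variable {F : Measure ℝ} [IsProbabilityMeasure F] {K : ℝ≥0∞} (hK : SmallK F K) {σ : ℤ}
  (hσ : σ = 0 ∨ σ = 1)

include hK hσ

omit hK in
theorem tf_le_bs (y : V) (q : ℕ) (ω : Om) : tf σ K 0 (q • y) ω ≤ bs (shO y) (tf σ K 0 y) q ω := by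
  induction q with
  | zero =>
    rw [zero_smul, bs_zero]
    exact (T_self _ (mem_univ _)).le
  | succ q ih =>
    rw [bs_succ, shO_iterate, tf_shO hσ, zero_add]
    refine (tf_triangle 0 (q • y) _ ω).trans (add_le_add ih (le_of_eq ?_))
    rw [succ_nsmul, add_comm]

theorem ae_tf_ne_top (x y : V) : ∀ᵐ ω ∂(iid Ed F), tf σ K x y ω ≠ ⊤ :=
  (ae_lt_top (measurable_tf σ K x y) (tf_fin hK hσ x y)).mono fun _ h => h.ne

/-- UPPER DEVIATIONS of the passage times between the curve vertices. -/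
theorem lk_tf_le {x : V} (hx : x ≠ 0) {c : ℝ} (hc : rho σ F K x < c) :
    Lk F fun n ω => tf σ K 0 (n • x) ω ≤ ENNReal.ofReal (c * n) := by
  obtain ⟨c₁, h1, h2⟩ := exists_between hc
  have hc1 : 0 ≤ c₁ := (rho_nonneg hK hσ x).trans h1.le
  set ε := c - c₁ with hε
  have hε0 : 0 < ε := by linarith
  obtain ⟨N, hN, hN0⟩ : ∃ N : ℕ, em σ F K (N • x) / N < c₁ ∧ 0 < N :=
    (((tendsto_rho hK hσ x).eventually (eventually_lt_nhds h1)).and (eventually_gt_atTop 0)).exists
  have hN0' : (0 : ℝ) < N := by exact_mod_cast hN0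
  rw [div_lt_iff₀ hN0'] at hN
  have hNx : N • x ≠ 0 := smul_ne_zero hN0.ne' hx
  have hA := lk_bs_le (F := F) hNx (measurable_tf σ K 0 (N • x)) (tf_fin hK hσ 0 (N • x)) hN
  have hA' := hA.comp_tendsto (φ := fun n => n / N) (Nat.tendsto_div_const_atTop hN0.ne')
  -- the remainder
  set g : Om → ℝ≥0∞ := fun ω => ∑ r ∈ Finset.range N, tf σ K 0 (r • x) ω with hg
  have hgm : Measurable g := Finset.measurable_sum _ fun r _ => measurable_tf σ K 0 (r • x)
  have hgf : ∀ᵐ ω ∂(iid Ed F), g ω ≠ ⊤ := by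
    have h : ∀ᵐ ω ∂(iid Ed F), ∀ r : ℕ, tf σ K 0 (r • x) ω ≠ ⊤ :=
      ae_all_iff.2 fun r => ae_tf_ne_top hK hσ 0 (r • x)
    filter_upwards [h] with ω hω
    exact ENNReal.sum_ne_top.2 fun r _ => hω r
  have hB := lk_small_shO (F := F) hgm hgf hε0 (fun n => (n / N) • (N • x))
  refine (hA'.and hB).mono fun n ω h => ?_
  obtain ⟨ha, hb⟩ := h
  have e1 : n • x = (n % N) • x + (n / N) • (N • x) := by
    rw [smul_smul, ← add_smul]
    congr 1
    rw [mul_comm]
    exact (Nat.mod_add_div n N).symm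
  have h3 : tf σ K 0 (n • x) ω ≤ tf σ K 0 ((n / N) • (N • x)) ω + g (shO ((n / N) • (N • x)) ω) := by
    refine (tf_triangle 0 ((n / N) • (N • x)) _ ω).trans (add_le_add le_rfl ?_)
    have h4 : tf σ K 0 ((n % N) • x) (shO ((n / N) • (N • x)) ω) ≤ g (shO ((n / N) • (N • x)) ω) :=
      Finset.single_le_sum (f := fun r => tf σ K 0 (r • x) (shO ((n / N) • (N • x)) ω))
        (fun _ _ => zero_le) (Finset.mem_range.2 (Nat.mod_lt n hN0))
    rw [tf_shO hσ, zero_add, ← e1] at h4
    exact h4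
  refine h3.trans ((add_le_add ((tf_le_bs hσ _ _ _).trans ha) hb).trans ?_)
  rw [← ENNReal.ofReal_add (by positivity) (by positivity)]
  refine ENNReal.ofReal_le_ofReal ?_
  have h5 : ((n / N : ℕ) : ℝ) * N ≤ n := by exact_mod_cast Nat.div_mul_le_self n N
  have h6 : c₁ * (((n / N : ℕ) : ℝ) * N) ≤ c₁ * n := mul_le_mul_of_nonneg_left h5 hc1
  rw [hε]
  nlinarith

end tf

/-- Upper deviations between a vertex of a curve of the diagonal system and a vertex below `v`. -/
theorem lk_up {F : Measure ℝ} [IsProbabilityMeasure F] {K : ℝ≥0∞} (hK : SmallK F K)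
    (v : V) (k z : ℤ) (ε : ℝ) (hε : 0 < ε) : Lk F fun m ω =>
      (T (wt ω) univ (pk 1 (wt ω) K k (z - 2 * m)) (v.1, v.2 - m)).toReal ≤
        (rho 1 F K (1, 0) + ε) * m := by
  have h1 : (1 : ℤ) = 0 ∨ (1 : ℤ) = 1 := Or.inr rfl
  set μ := rho 1 F K (1, 0) with hμ
  have hμ0 : 0 ≤ μ := rho_nonneg hK h1 _
  obtain ⟨z', p, hz1, hz2, hp⟩ : ∃ z' p : ℤ, z ≤ z' ∧ z' ≤ z + 1 ∧ 2 * p + z' = k :=
    ⟨z + (k - z) % 2, (k - (z + (k - z) % 2)) / 2, by omega, by omega, by omega⟩
  set x₀ : V := (p, p + z') with hx₀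
  set g : Om → ℝ≥0∞ := fun ω => T (wt ω) univ (op 1 K x₀ ω) v with hg
  have hgm : Measurable g :=
    measurable_T measurable_wt3 (fun _ => MeasurableSet.const _) (measurable_op 1 K x₀) measurable_const
  have hgf : ∀ᵐ ω ∂(iid Ed F), g ω ≠ ⊤ := Eventually.of_forall fun ω => T_univ_ne_top (wt_ne_top ω) _ _
  have hne : ((1, 0) : V) ≠ 0 := by
    intro h
    have := congrArg Prod.fst h
    simp at this
  have l1 := (lk_tf_le (F := F) hK h1 hne (c := μ + ε / 2) (by linarith)).shO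
    (fun m => measurableSet_le (measurable_tf 1 K 0 _) measurable_const)
    (fun m => x₀ + ((0, -(m : ℤ)) : V))
  have l2 := lk_small_shO (F := F) hgm hgf (by linarith : 0 < ε / 4) (fun m => ((0, -(m : ℤ)) : V))
  have l3 := lk_small (F := F) (g := fun _ => 2 * K) measurable_const
    (Eventually.of_forall fun _ => ENNReal.mul_ne_top (by norm_num) hK.1) (by linarith : 0 < ε / 4)
  refine ((l1.and l2).and l3).mono_ae ?_
  filter_upwards [ae_good_wt (F := F) hK h1] with ω hgood m hm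
  obtain ⟨⟨a1, a2⟩, a3⟩ := hm
  rw [tf_shO h1, zero_add] at a1
  -- the three parts
  have b1 : T (wt ω) univ (pk 1 (wt ω) K k (z - 2 * m)) (pk 1 (wt ω) K k (z' - 2 * m)) ≤ 2 * K := by
    rcases (by omega : z' = z ∨ z' = z + 1) with e | e
    · rw [e, T_self _ (mem_univ _)]
      exact zero_le
    · rw [e, show z + 1 - 2 * (m : ℤ) = z - 2 * m + 1 by ring]
      exact (T_mono (subset_univ _) _ _).trans (T_pk_succ h1 hgood k _)
  have b2 : pk 1 (wt ω) K k (z' - 2 * m) = op 1 K (m • ((1, 0) : V) + (x₀ + ((0, -(m : ℤ)) : V))) ω := by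
    unfold op
    congr 1
    · rw [ln_add, ln_add, ln_nsmul]
      unfold ln
      simp only [hx₀]
      linarith
    · rw [ix_add, ix_add, ix_nsmul]
      unfold ix
      simp only [hx₀]
      ring
  have b3 : g (shO ((0, -(m : ℤ)) : V) ω) =
      T (wt ω) univ (op 1 K (x₀ + ((0, -(m : ℤ)) : V)) ω) (v.1, v.2 - m) := by
    simp only [hg]
    rw [T_shO, op_shO h1, image_tr_univ]
    congr 1
    unfold tr
    ext
    · simp
    · simp only; ring
  rw [b3] at a2
  have b4 : T (wt ω) univ (pk 1 (wt ω) K k (z' - 2 * m)) (op 1 K (x₀ + ((0, -(m : ℤ)) : V)) ω) ≤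
      ENNReal.ofReal ((μ + ε / 2) * m) := by
    rw [b2, T_comm]
    exact a1
  have key : T (wt ω) univ (pk 1 (wt ω) K k (z - 2 * m)) (v.1, v.2 - m) ≤
      ENNReal.ofReal (ε / 4 * m) + (ENNReal.ofReal ((μ + ε / 2) * m) + ENNReal.ofReal (ε / 4 * m)) :=
    (T_triangle _ _ _ (pk 1 (wt ω) K k (z' - 2 * m)) _).trans (add_le_add (b1.trans a3)
      ((T_triangle _ _ _ (op 1 K (x₀ + ((0, -(m : ℤ)) : V)) ω) _).trans (add_le_add b4 a2)))
  rw [← ENNReal.ofReal_add (by positivity) (by positivity),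
    ← ENNReal.ofReal_add (by positivity) (by positivity)] at key
  have h5 := ENNReal.toReal_mono ENNReal.ofReal_ne_top key
  rw [ENNReal.toReal_ofReal (by positivity)] at h5
  linarith

end C7
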