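import Pool.Agent.Lib.MP_c725eb_pr.XInst
import Pool.Agent.Lib.MP_c725eb_pr.ConeC
import Pool.Agent.Lib.MP_c725eb_pr.FinD
import Pool.Agent.Lib.MP_c725eb_pr.Fin2
import Pool.Agent.Lib.MP_c725eb_pr.UpDev
import Pool.Agent.Lib.MP_c725eb_pr.ClsFin
import Pool.Agent.Lib.MP_c725eb_pr.GenAll

/-!
# Assembly of the diamond case
-/

set_option autoImplicit false

namespace C7

open MeasureTheory Filter Set
open scoped ENNReal Topology

section

variable {K : ℝ≥0∞} {F : Measure ℝ} [IsProbabilityMeasure F]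

/-- The relation of the flow `b` with its potential. -/
theorem xsys_frel {σ : ℤ} (H : XH σ K F) : ∀ᵐ ω ∂(iid Ed F), Frel (kiU σ K) (xsys H).S ω := by
  filter_upwards [H.gen] with ω h
  exact frel_of_flw h.cfg h.flw fun k l x hkl => h.en hkl x

theorem xsys_incr {σ : ℤ} (H : XH σ K F) : ∀ᵐ ω ∂(iid Ed F), ∀ k i,
    (xsys H).S.φ ω k i - (xsys H).S.φ ω k (i + 1) = mv σ (blo σ K) k i (wt ω) := by
  filter_upwards [H.gen] with ω h k i
  exact phG_sub_succ (h.gd k) i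

/-- The hypotheses of Theorem X in the diamond case. -/
theorem xh_one (hK : SmallK F K) (hF : ∀ a, F {a} = 0) (hF0 : F (Iio 0) = 0)
    (hd : rho 1 F K (1, 1) = 2 * rho 1 F K (1, 0)) : XH 1 K F :=
  ⟨hK, Or.inr rfl, hF, hF0, ae_genG_blo_one hK hF hF0 hd, abs_EV_blo_one hK hF hF0 hd⟩

/-- The hypotheses of Theorem X in the other case. -/
theorem xh_zero (hK : SmallK F K) (hF : ∀ a, F {a} = 0) (hF0 : F (Iio 0) = 0)
    (hd : rho 0 F K (1, 1) < 2 * rho 0 F K (1, 0)) : XH 0 K F :=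
  ⟨hK, Or.inl rfl, hF, hF0, ae_genG_blo_zero hK hF hF0 hd, abs_EV_blo_zero hK hd⟩

/-- **THE DIAMOND CASE**. -/
theorem diamond_case (hK : SmallK F K) (hF : ∀ a, F {a} = 0) (hF0 : F (Iio 0) = 0)
    (hd : rho 1 F K (1, 1) = 2 * rho 1 F K (1, 0)) :
    ∀ᵐ ω ∂(iid Ed F), ∀ (v : V) (𝓤 : Ultrafilter ℕ), (𝓤 : Filter ℕ) ≤ atTop → ¬ OnG (wt ω) v 𝓤 := by
  have H := xh_one hK hF hF0 hd
  have hμ := rho_pos hK (Or.inr rfl : (1 : ℤ) = 0 ∨ (1 : ℤ) = 1) hF hF0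
  have hlab := hlab_diamond (F := F) hK hd
  obtain ⟨j, L, hL⟩ := diamond_lo hK hd hμ
  have hj := Int.natCast_nonneg j
  have hDir : Dir 1 (ub j) := ⟨by unfold ub; simp only; omega, fun h => absurd h (by norm_num),
    fun _ => by unfold ub; simp only; omega⟩
  refine final_D hK hF hF0 (xsys H) (fun _ _ _ _ _ => rfl) (fun _ _ _ _ _ => rfl)
    (fun _ _ _ _ _ _ => rfl) (xsys_incr H) (xsys_frel H) ?_
    (ae_tig_up hK (Or.inr rfl) hDir (by unfold ub; simp only; omega) hL)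
    hlab hμ ?_ (fun v k z ε hε => lk_up hK v k z ε hε)
  · filter_upwards [ae_cone hK hF hF0 hlab (hcls_diamond hK hd), xsys_incr H] with ω h1 h2
    refine ⟨fun l i ε hε => ?_, h1.2⟩
    obtain ⟨N, hN⟩ := h1.1 l i ε hε
    refine ⟨N, fun t ht hNt => ?_⟩
    rw [h2]
    exact hN t ht hNt
  · exact ae_drift_below (adm_alo 1 K) (ae_good_wt hK (Or.inr rfl)) (EV_alo_one hK hd)

end

end C7
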