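import Pool.Agent.Lib.MP_c725eb_pr.B1

/-!
# The class `b` of the vertical system (`σ = 0`), in the case of strict convexity
-/

set_option autoImplicit false

namespace C7

open MeasureTheory Filter Set
open scoped ENNReal Topology

section

variable {K : ℝ≥0∞} {F : Measure ℝ} [IsProbabilityMeasure F]

omit [IsProbabilityMeasure F] in
/-- Nonnegative functions with summable means tend to `0`. -/
theorem ae_tendsto_zero_of_sum {f : ℕ → Om → ℝ} (hm : ∀ n, Measurable (f n)) (h0 : ∀ n, ∀ᵐ ω ∂(iid Ed F), 0 ≤ f n ω)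
    {ε : ℕ → ℝ} (hε : Summable ε) (h0ε : ∀ n, 0 ≤ ε n)
    (h : ∀ n, ∫⁻ ω, ENNReal.ofReal (f n ω) ∂(iid Ed F) ≤ ENNReal.ofReal (ε n)) :
    ∀ᵐ ω ∂(iid Ed F), Tendsto (fun n => f n ω) atTop (𝓝 0) := by
  have h1 : ∫⁻ ω, ∑' n, ENNReal.ofReal (f n ω) ∂(iid Ed F) ≠ ⊤ := by
    rw [lintegral_tsum fun n => (hm n).ennreal_ofReal.aemeasurable]
    refine ne_top_of_le_ne_top ?_ (ENNReal.tsum_le_tsum h)
    rw [← ENNReal.ofReal_tsum_of_nonneg h0ε hε]
    exact ENNReal.ofReal_ne_top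
  have h2 := ae_lt_top (Measurable.tsum fun n => (hm n).ennreal_ofReal) h1
  have h3 : ∀ᵐ ω ∂(iid Ed F), ∀ n, 0 ≤ f n ω := ae_all_iff.2 h0
  filter_upwards [h2, h3] with ω h4 h5
  have h6 := ENNReal.tendsto_atTop_zero_of_tsum_ne_top h4.ne
  have h7 := (ENNReal.tendsto_toReal ENNReal.zero_ne_top).comp h6
  rw [ENNReal.toReal_zero] at h7
  refine h7.congr fun n => ?_
  simp only [Function.comp]
  exact ENNReal.toReal_ofReal (h5 n)

theorem exists_levelG (hK : SmallK F K) (r : ℕ) : ∃ L : ℕ,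
    ∫⁻ ω, ENNReal.ofReal (Gup 0 K (ub r) 0 (wt ω) - gup 0 K (ub r) L 0 (wt ω)) ∂(iid Ed F) ≤
      ENNReal.ofReal ((1 / 2) ^ r) := by
  have hσ : (0 : ℤ) = 0 ∨ (0 : ℤ) = 1 := Or.inl rfl
  have hnice := ae_nice (F := F) hK hσ
  have h1 : Tendsto (fun L : ℕ => ∫⁻ ω, ENNReal.ofReal (Gup 0 K (ub r) 0 (wt ω) - gup 0 K (ub r) L 0 (wt ω))
      ∂(iid Ed F)) atTop (𝓝 (∫⁻ _, 0 ∂(iid Ed F))) := by
    refine tendsto_lintegral_of_dominated_convergence (fun _ => ENNReal.ofReal (4 * K.toReal)) ?_ ?_ ?_ ?_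
    · intro L
      exact ((measurable_Gup_wt 0 K (ub r) 0).sub (measurable_gup measurable_wt3 0 K (ub r) L 0)).ennreal_ofReal
    · intro L
      refine Eventually.of_forall fun ω => ENNReal.ofReal_le_ofReal ?_
      have h2 := (abs_le.1 (abs_Gup_le 0 K (ub r) 0 (wt ω))).2
      have h3 := (abs_le.1 (abs_gup_le 0 K (ub r) L 0 (wt ω))).1
      linarith
    · rw [lintegral_const]
      exact ENNReal.mul_ne_top ENNReal.ofReal_ne_top (measure_ne_top _ _)
    · filter_upwards [hnice] with ω hN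
      have h2 := (tendsto_gup_L hσ hK.1 hN (dup_ub 0 r) 0).const_sub (Gup 0 K (ub r) 0 (wt ω))
      rw [sub_self] at h2
      have h3 := (ENNReal.continuous_ofReal.tendsto 0).comp h2
      rwa [ENNReal.ofReal_zero] at h3
  rw [lintegral_zero] at h1
  have h2 : (0 : ℝ≥0∞) < ENNReal.ofReal ((1 / 2) ^ r) := by positivity
  obtain ⟨L, hL⟩ := (h1.eventually_lt_const h2).exists
  exact ⟨L, hL.le⟩

theorem mv_zero (g : ℤ → W → ℝ) (k i : ℤ) (w : W) : mv 0 g k i w = g 0 (sh (k, i) w) := by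
  unfold mv rr ss
  simp

/-- The lattice sequence of targets. -/
def tauS (Lr : ℕ → ℕ) (r : ℕ) : V :=
  ((((Lr r : ℤ) + r) * (r + 2) + r + 1) * (r + 1), ((Lr r : ℤ) + r) * (r + 2) + r + 1)

theorem ae_lim0 (hK : SmallK F K) {j₀ : ℕ} (ha : EV 0 F (Glo 0 K (ub j₀)) < rho 0 F K (vert 0))
    (hb : -rho 0 F K (vert 0) < EV 0 F (Gup 0 K (1, 0))) (hr : 0 < rho 0 F K (vert 0)) :
    ∃ τ : ℕ → V, ∀ᵐ ω ∂(iid Ed F),
      Lim 0 K (wt ω) (fun l => pot fun i => mv 0 (blo 0 K) l i (wt ω)) τ := by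
  have hσ : (0 : ℤ) = 0 ∨ (0 : ℤ) = 1 := Or.inl rfl
  have hnice := ae_nice (F := F) hK hσ
  have hd10 : Dup 0 ((1, 0) : V) := ⟨⟨by norm_num, by norm_num, fun _ => by norm_num⟩,
    fun h => absurd h (by norm_num)⟩
  choose Lr hLr using exists_levelG (F := F) hK
  refine ⟨tauS Lr, ?_⟩
  -- admissible levels
  obtain ⟨L1, hL1⟩ : ∃ L : ℕ, EV 0 F (glo 0 K (ub j₀) L) < rho 0 F K (vert 0) := by
    have h := EV_tendsto (F := F) hσ (fun L : ℕ => adm_glo 0 K (ub j₀) L) (adm_Glo 0 K (ub j₀)) (by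
      intro i
      filter_upwards [hnice] with ω hN
      exact tendsto_glo_L hσ hK.1 hN (dup_ub 0 j₀).toDlo i)
    exact (h.eventually_lt_const ha).exists
  obtain ⟨L2, hL2⟩ : ∃ L : ℕ, -rho 0 F K (vert 0) < EV 0 F (gup 0 K (1, 0) L) := by
    have h := EV_tendsto (F := F) hσ (fun L : ℕ => adm_gup 0 K (1, 0) L) (adm_Gup 0 K (1, 0)) (by
      intro i
      filter_upwards [hnice] with ω hN
      exact tendsto_gup_L hσ hK.1 hN hd10 i)
    exact (h.eventually_const_lt hb).exists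
  obtain ⟨η1, hη1, hc1⟩ := coer_line hK hσ (adm_glo 0 K (ub j₀) L1) (ε := 1) (Or.inl rfl) (by
    push_cast; linarith)
  obtain ⟨η2, hη2, hc2⟩ := coer_line hK hσ (adm_gup 0 K (1, 0) L2) (ε := -1) (Or.inr rfl) (by
    push_cast; linarith)
  -- the errors
  have herr0 : ∀ᵐ ω ∂(iid Ed F), Tendsto (fun r : ℕ =>
      Gup 0 K (ub r) 0 (wt ω) - gup 0 K (ub r) (Lr r) 0 (wt ω)) atTop (𝓝 0) := by
    refine ae_tendsto_zero_of_sum (fun r => (measurable_Gup_wt 0 K (ub r) 0).sub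
      (measurable_gup measurable_wt3 0 K (ub r) (Lr r) 0)) (fun r => Eventually.of_forall fun ω =>
        sub_nonneg.2 (gup_le_Gup 0 K (ub r) (Lr r) 0 (wt ω))) (summable_geometric_two)
      (fun r => by positivity) hLr
  have herr := ae_shift_all (F := F) (P := fun w => Tendsto (fun r : ℕ =>
      Gup 0 K (ub r) 0 w - gup 0 K (ub r) (Lr r) 0 w) atTop (𝓝 0)) herr0
  have hbe := ae_shift_all (F := F) (P := fun w => ∀ i, blo 0 K i w = bup 0 K i w)
    (ae_blo_eq_bup hK hσ)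
  filter_upwards [ae_cb (F := F) hK hσ, ae_shift_all (F := F) hnice, hc1, hc2, herr, hbe,
    ae_co0 hK hσ hr] with ω h1 h2 h3 h4 h5 h6 h7
  -- size of the targets
  have hn : ∀ r : ℕ, (r : ℤ) ≤ (tauS Lr r).2 := by
    intro r
    unfold tauS
    simp only
    have : (0 : ℤ) ≤ Lr r := by positivity
    nlinarith
  have hfst : ∀ r : ℕ, (tauS Lr r).1 = (tauS Lr r).2 * (r + 1) := fun r => rfl
  have hmem : ∀ l, ∀ᶠ r : ℕ in atTop, tauS Lr r ∈ Rg 0 (wt ω) K l := by
    intro l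
    filter_upwards [eventually_ge_atTop ((ck 0 (wt ω) K l 0).natAbs + 1)] with r hr1
    change ck 0 (wt ω) K l (ix 0 (tauS Lr r)) ≤ (tauS Lr r).1
    have h8 : ix 0 (tauS Lr r) = (tauS Lr r).2 := by unfold ix; ring
    rw [h8, hfst]
    have h9 := hn r
    have h10 := stp_le hσ (h1.stp l) (i := 0) (j := (tauS Lr r).2) (by omega)
    simp only [sub_zero, one_mul] at h10
    have h11 := le_abs_self (ck 0 (wt ω) K l 0)
    have h12 : |ck 0 (wt ω) K l 0| + 1 ≤ (r : ℤ) := by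
      rw [Int.abs_eq_natAbs]; exact_mod_cast hr1
    have h13 : (0 : ℤ) ≤ r := by positivity
    have h14 := abs_nonneg (ck 0 (wt ω) K l 0)
    have h15 : 1 * (r : ℤ) ≤ (tauS Lr r).2 * r := mul_le_mul_of_nonneg_right (by omega) h13
    have h16 : (tauS Lr r).2 * ((r : ℤ) + 1) = (tauS Lr r).2 * r + (tauS Lr r).2 := by ring
    linarith [h10.2]
  have hlo : ∀ (j L : ℕ) (k J : ℤ), ∀ᶠ r : ℕ in atTop, ∀ i, J ≤ i →
      BI (wt ω) 0 univ (ck 0 (wt ω) K k) (tauS Lr r) i (i + 1) ≤ mv 0 (glo 0 K (ub j) L) k i (wt ω) := by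
    intro j L k J
    have hu1 : 0 < (ub j).1 := by change 0 < (j : ℤ) + 2; omega
    have hu2 : -(ub j).1 < (ub j).2 := by change -((j : ℤ) + 2) < 1; omega
    have hu3 : (ub j).2 < (ub j).1 := by change (1 : ℤ) < (j : ℤ) + 2; omega
    obtain ⟨B, hB⟩ := exists_dom_lo h1 (u := ub j) (h1.lo hu1 (fun _ => ⟨hu2, hu3⟩)
      (fun h => absurd h (by norm_num))) hu1 hu2.le (fun h => absurd h (by norm_num)) L k J
    filter_upwards [hmem k, eventually_ge_atTop (B.natAbs + 1), eventually_ge_atTop (j + 2)] with r hr1 hr2 hr3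
    refine hB _ hr1 ?_
    have h8 : det (ub j) (tauS Lr r) = -((tauS Lr r).2 * (r - j - 1)) := by
      unfold det
      rw [hfst]
      unfold ub
      simp only
      ring
    rw [h8]
    have h9 := hn r
    have h10 : (B.natAbs : ℤ) + 1 ≤ r := by exact_mod_cast hr2
    have h11 : (j : ℤ) + 2 ≤ r := by exact_mod_cast hr3
    have h12 : (tauS Lr r).2 * 1 ≤ (tauS Lr r).2 * (r - j - 1) :=
      mul_le_mul_of_nonneg_left (by omega) (by omega)
    omega
  have hup : ∀ (L : ℕ) (k J : ℤ), ∀ᶠ r : ℕ in atTop, ∀ i ≤ J,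
      mv 0 (gup 0 K (1, 0) L) k i (wt ω) ≤ BI (wt ω) 0 univ (ck 0 (wt ω) K k) (tauS Lr r) i (i + 1) := by
    intro L k J
    obtain ⟨B, hB⟩ := exists_dom_up h1 (u := (1, 0)) (h1.up (by norm_num) (fun _ => by norm_num)
      (fun h => absurd h (by norm_num))) (by norm_num) (fun _ => by norm_num)
      (fun h => absurd h (by norm_num)) L k J
    filter_upwards [hmem k, eventually_ge_atTop (B.natAbs + 1)] with r hr1 hr2
    refine hB _ hr1 ?_
    have h8 : det (1, 0) (tauS Lr r) = (tauS Lr r).2 := by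
      unfold det; simp
    rw [h8]
    have h9 := hn r
    have h10 : (B.natAbs : ℤ) + 1 ≤ r := by exact_mod_cast hr2
    omega
  -- the lower bound along the sequence
  have hlow : ∀ k i : ℤ, ∀ᶠ r : ℕ in atTop,
      mv 0 (gup 0 K (ub r) (Lr r)) k i (wt ω) ≤ BI (wt ω) 0 univ (ck 0 (wt ω) K k) (tauS Lr r) i (i + 1) := by
    intro k i
    filter_upwards [hmem k, eventually_ge_atTop (k.natAbs + i.natAbs)] with r hr1 hr2
    have hu1 : 0 < (ub r).1 := by change 0 < (r : ℤ) + 2; omega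
    have hu2 : -(ub r).1 < (ub r).2 := by change -((r : ℤ) + 2) < 1; omega
    have hu3 : (ub r).2 < (ub r).1 := by change (1 : ℤ) < (r : ℤ) + 2; omega
    refine mv_le_BI h1 (h1.up hu1 (fun _ => ⟨hu2, hu3⟩) (fun h => absurd h (by norm_num))) hu1
      (fun _ => hu3.le) (fun h => absurd h (by norm_num)) hr1 ?_
    have e1 : det (ub r) (tauS Lr r) = (tauS Lr r).2 := by
      unfold det
      rw [hfst]
      unfold ub
      simp only
      ring
    have e2 : ss 0 k i = (k, i) := by unfold ss; simp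
    have e3 : (tauS Lr r).2 = ((Lr r : ℤ) + r) * (r + 2) + r + 1 := rfl
    rw [e1, e2, e3]
    unfold det ub ln
    simp only [zero_mul, add_zero]
    have h8 : (k.natAbs : ℤ) + i.natAbs ≤ r := by exact_mod_cast hr2
    have h9 : i * ((r : ℤ) + 2) ≤ r * ((r : ℤ) + 2) := mul_le_mul_of_nonneg_right (by omega) (by omega)
    have h10 : ((Lr r : ℤ) + r) * (r + 2) = Lr r * (r + 2) + r * (r + 2) := by ring
    have h11 : ((r : ℤ) + 2) * i = i * (r + 2) := by ring
    have h12 : -(r : ℤ) ≤ k := by omega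
    linarith
  -- convergence
  have hconv : ∀ l i, Tendsto (fun r : ℕ => BI (wt ω) 0 univ (ck 0 (wt ω) K l) (tauS Lr r) i (i + 1)) atTop
      (𝓝 (mv 0 (blo 0 K) l i (wt ω))) := by
    intro l i
    have hN := h2 (l, i)
    rw [tendsto_order]
    constructor
    · intro a ha
      have e1 : mv 0 (blo 0 K) l i (wt ω) = bup 0 K 0 (sh (l, i) (wt ω)) := by
        rw [mv_zero]; exact h6 (l, i) 0
      rw [e1] at ha
      have h8 := h5 (l, i)
      have h9 : ∀ᶠ r : ℕ in atTop, Gup 0 K (ub r) 0 (sh (l, i) (wt ω)) -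
          gup 0 K (ub r) (Lr r) 0 (sh (l, i) (wt ω)) < bup 0 K 0 (sh (l, i) (wt ω)) - a :=
        h8.eventually_lt_const (by linarith)
      filter_upwards [h9, hlow l i] with r hr1 hr2
      have h10 := bup_le_Gup_ub (σ := 0) (K := K) (w := sh (l, i) (wt ω)) r 0
      rw [mv_zero] at hr2
      linarith
    · intro a ha
      rw [mv_zero] at ha
      have h8 := tendsto_Glo_ub hσ hK.1 hN 0
      obtain ⟨j, hj⟩ := (h8.eventually_lt_const ha).exists
      have h9 := tendsto_glo_L hσ hK.1 hN (dup_ub 0 j).toDlo 0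
      obtain ⟨L, hL⟩ := (h9.eventually_lt_const hj).exists
      filter_upwards [hlo j L l i] with r hr1
      have h10 := hr1 i le_rfl
      rw [mv_zero] at h10
      exact h10.trans_lt hL
  refine ⟨hmem, ?_, ?_, h7, fun l => ?_⟩
  · rw [tendsto_atTop]
    intro b
    filter_upwards [eventually_ge_atTop b.natAbs] with r hr1
    rw [hfst]
    have h9 := hn r
    have h10 : (b.natAbs : ℤ) ≤ r := by exact_mod_cast hr1
    have h13 : (0 : ℤ) ≤ r := by positivity
    have h14 : 0 ≤ (tauS Lr r).2 * r := mul_nonneg (h13.trans h9) h13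
    have h16 : (tauS Lr r).2 * ((r : ℤ) + 1) = (tauS Lr r).2 * r + (tauS Lr r).2 := by ring
    have h17 : b ≤ b.natAbs := by omega
    linarith
  · intro l i
    simp only [tpot_eq_pot]
    unfold pot
    exact (tendsto_finsetSum _ fun j _ => hconv l j).sub (tendsto_finsetSum _ fun j _ => hconv l j)
  · obtain ⟨C1, hC1⟩ := h3 l
    obtain ⟨C2, hC2⟩ := h4 l
    refine ⟨min η1 η2, lt_min hη1 hη2, max C1 C2, ?_⟩
    filter_upwards [hlo j₀ L1 l 0, hup L2 l 0] with r ht1 ht2 j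
    exact co_target hC1 hC2 (fun j hj => ht1 j hj) (fun j hj => ht2 j hj) j

end

end C7
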