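import Pool.Agent.Lib.MP_c725eb_pr.BCom

/-!
# The class `b` of the diagonal system (`σ = 1`) in the case of a diamond
-/

set_option autoImplicit false

namespace C7

open MeasureTheory Filter Set
open scoped ENNReal Topology

/-- Coercivity of the increments towards a target, from dominations on both sides. -/
theorem co_target {σ : ℤ} {K : ℝ≥0∞} {w : W} {l : ℤ} {t : V} {βlo βup : ℤ → ℝ} {η1 η2 C1 C2 : ℝ}
    (h1 : ∀ j : ℤ, 0 ≤ (1 : ℤ) * j → η1 * |(j : ℝ)| - C1 ≤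
      (T w univ (pk σ w K l 0) (pk σ w K l j)).toReal + pot βlo j)
    (h2 : ∀ j : ℤ, 0 ≤ (-1 : ℤ) * j → η2 * |(j : ℝ)| - C2 ≤
      (T w univ (pk σ w K l 0) (pk σ w K l j)).toReal + pot βup j)
    (hlo : ∀ j, 0 ≤ j → BI w σ univ (ck σ w K l) t j (j + 1) ≤ βlo j)
    (hup : ∀ j, j ≤ 0 → βup j ≤ BI w σ univ (ck σ w K l) t j (j + 1)) (j : ℤ) :
    min η1 η2 * |(j : ℝ)| - max C1 C2 ≤ (T w univ (pk σ w K l 0) (pk σ w K l j)).toReal +
      (tpot σ K w t l j - tpot σ K w t l 0) := by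
  rw [tpot_eq_pot]
  rcases le_total 0 j with hj | hj
  · have h3 := h1 j (by rw [one_mul]; exact hj)
    have h4 := pot_le_of_le (f := fun i => BI w σ univ (ck σ w K l) t i (i + 1)) (g := βlo) hj
      (fun i hi _ => hlo i hi)
    rw [pot_zero, pot_zero] at h4
    have h5 : min η1 η2 * |(j : ℝ)| ≤ η1 * |(j : ℝ)| :=
      mul_le_mul_of_nonneg_right (min_le_left _ _) (abs_nonneg _)
    have h6 := le_max_left C1 C2
    linarith
  · have h3 := h2 j (by linarith)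
    have h4 := pot_le_of_le (f := βup) (g := fun i => BI w σ univ (ck σ w K l) t i (i + 1)) hj
      (fun i _ hi => hup i hi.le)
    rw [pot_zero, pot_zero] at h4
    have h5 : min η1 η2 * |(j : ℝ)| ≤ η2 * |(j : ℝ)| :=
      mul_le_mul_of_nonneg_right (min_le_right _ _) (abs_nonneg _)
    have h6 := le_max_right C1 C2
    linarith

/-- The cone of targets. -/
def CnS : Set V := {t | 2 * t.1 ≤ 3 * t.2 ∧ 2 * t.2 ≤ 3 * t.1}

/-- The filter of the targets in the cone which tend to infinity. -/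
noncomputable def cnF : Filter V := comap Prod.fst atTop ⊓ 𝓟 CnS

instance : cnF.IsCountablyGenerated := by unfold cnF; infer_instance

theorem tendsto_diag : Tendsto (fun r : ℕ => (((r : ℤ), (r : ℤ)) : V)) atTop cnF := by
  unfold cnF
  rw [tendsto_inf, tendsto_comap_iff, tendsto_principal]
  refine ⟨tendsto_natCast_atTop_atTop, Eventually.of_forall fun r => ?_⟩
  constructor
  · simp only; omega
  · simp only; omega

instance : cnF.NeBot := tendsto_diag.neBot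

theorem cnF_ge (N : ℤ) : ∀ᶠ t in cnF, N ≤ t.1 :=
  (tendsto_comap.mono_left inf_le_left : Tendsto Prod.fst cnF atTop).eventually_ge_atTop N

theorem cnF_mem : ∀ᶠ t in cnF, t ∈ CnS := by
  unfold cnF
  exact mem_inf_of_right (mem_principal_self _)

theorem cnF_mem_Rg {K : ℝ≥0∞} {w : W} (hg : Good 1 w K) (l : ℤ) : ∀ᶠ t in cnF, t ∈ Rg 1 w K l := by
  filter_upwards [cnF_ge (3 * |ck 1 w K l 0|), cnF_mem] with t ht ⟨h1, h2⟩
  change ck 1 w K l (ix 1 t) ≤ t.1
  have hst := ck_stp (Or.inr rfl) hg l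
  have a1 := le_abs_self (ck 1 w K l 0)
  have a2 := abs_nonneg (ck 1 w K l 0)
  unfold ix at *
  simp only [one_mul]
  rcases le_total 0 (t.2 - t.1) with h | h
  · have h3 := stp_le (Or.inr rfl) hst h
    simp only [sub_self, zero_mul] at h3
    omega
  · have h3 := stp_le (Or.inr rfl) hst h
    omega

section

variable {K : ℝ≥0∞} {F : Measure ℝ} [IsProbabilityMeasure F]

/-- Generic configurations for the class `b`, `σ = 1`. -/
structure BC1 (K : ℝ≥0∞) (F : Measure ℝ) (ω : Om) : Prop where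
  cb : Cb 1 K (wt ω)
  conv : ∀ l i, Tendsto (fun t => BI (wt ω) 1 univ (ck 1 (wt ω) K l) t i (i + 1)) cnF
    (𝓝 (mv 1 (blo 1 K) l i (wt ω)))
  co0 : ∀ l, ∃ η > 0, ∃ C, ∀ j : ℤ, η * |(j : ℝ)| - C ≤
    (T (wt ω) univ (pk 1 (wt ω) K l 0) (pk 1 (wt ω) K l j)).toReal
  co : ∀ l, ∃ η > 0, ∃ C, ∀ᶠ t in cnF, ∀ j : ℤ, η * |(j : ℝ)| - C ≤
    (T (wt ω) univ (pk 1 (wt ω) K l 0) (pk 1 (wt ω) K l j)).toReal +
      (tpot 1 K (wt ω) t l j - tpot 1 K (wt ω) t l 0)

theorem EV_zero {σ : ℤ} : EV σ F (fun _ _ => (0 : ℝ)) = 0 := by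
  unfold EV
  have : ∀ ω : Om, pot (fun i => mv σ (fun _ _ => (0 : ℝ)) 0 i (wt ω)) (1 + σ) = 0 := by
    intro ω
    unfold pot mv
    simp
  simp [this]

/-- Coercivity of the passage times. -/
theorem ae_co0 {σ : ℤ} (hK : SmallK F K) (hσ : σ = 0 ∨ σ = 1) (hr : 0 < rho σ F K (vert σ)) :
    ∀ᵐ ω ∂(iid Ed F), ∀ l, ∃ η > 0, ∃ C, ∀ j : ℤ, η * |(j : ℝ)| - C ≤
      (T (wt ω) univ (pk σ (wt ω) K l 0) (pk σ (wt ω) K l j)).toReal := by
  obtain ⟨η1, hη1, hc1⟩ := coer_line hK hσ (g := fun _ _ => 0) adm_zero (ε := 1) (Or.inl rfl) (by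
    rw [EV_zero]; simpa using hr)
  obtain ⟨η2, hη2, hc2⟩ := coer_line hK hσ (g := fun _ _ => 0) adm_zero (ε := -1) (Or.inr rfl) (by
    rw [EV_zero]; simpa using hr)
  filter_upwards [hc1, hc2] with ω h1 h2 l
  obtain ⟨C1, hC1⟩ := h1 l
  obtain ⟨C2, hC2⟩ := h2 l
  have e : ∀ j, pot (fun i => mv σ (fun _ _ => (0 : ℝ)) l i (wt ω)) j = 0 := by
    intro j
    unfold pot mv
    simp
  refine ⟨min η1 η2, lt_min hη1 hη2, max C1 C2, fun j => ?_⟩
  rcases le_total 0 j with hj | hj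
  · have h3 := hC1 j (by rw [one_mul]; exact hj)
    rw [e] at h3
    have h5 : min η1 η2 * |(j : ℝ)| ≤ η1 * |(j : ℝ)| :=
      mul_le_mul_of_nonneg_right (min_le_left _ _) (abs_nonneg _)
    have h6 := le_max_left C1 C2
    linarith
  · have h3 := hC2 j (by linarith)
    rw [e] at h3
    have h5 : min η1 η2 * |(j : ℝ)| ≤ η2 * |(j : ℝ)| :=
      mul_le_mul_of_nonneg_right (min_le_right _ _) (abs_nonneg _)
    have h6 := le_max_right C1 C2
    linarith

/-- All classes of directions in the quadrant agree with `b`. -/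
theorem ae_b_eq (hK : SmallK F K) (hE1 : EV 1 F (Glo 1 K (1, 2)) ≤ 0)
    (hE2 : ∀ j : ℕ, 0 ≤ EV 1 F (Gup 1 K ((j : ℤ) + 2, 1))) :
    ∀ᵐ ω ∂(iid Ed F), ∀ k i, mv 1 (blo 1 K) k i (wt ω) = mv 1 (Glo 1 K (1, 2)) k i (wt ω) ∧
      mv 1 (blo 1 K) k i (wt ω) = mv 1 (Gup 1 K (2, 1)) k i (wt ω) ∧
      mv 1 (blo 1 K) k i (wt ω) = mv 1 (bup 1 K) k i (wt ω) := by
  have hσ : (1 : ℤ) = 0 ∨ (1 : ℤ) = 1 := Or.inr rfl
  have hnice := ae_nice (F := F) hK hσ
  have hd12 : Dlo 1 ((1, 2) : V) := ⟨by norm_num, by norm_num, fun h => absurd h (by norm_num)⟩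
  have hd21 : Dup 1 ((2, 1) : V) := ⟨⟨by norm_num, by norm_num, fun h => absurd h (by norm_num)⟩,
    fun _ => by norm_num⟩
  -- pointwise inequalities
  have p1 : ∀ w, Nice 1 K w → ∀ i, bup 1 K i w ≤ Glo 1 K (1, 2) i w := by
    intro w hN i
    refine (bup_le_blo hσ hK.1 hN i).trans ((blo_le_Glo 0 i).trans ?_)
    refine Glo_le_Glo hσ hK.1 hN (dlo_pos 0 2 le_rfl) hd12 ?_
    unfold det; norm_num
  have p2 : ∀ w, Nice 1 K w → ∀ i, blo 1 K i w ≤ Glo 1 K (1, 2) i w := by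
    intro w hN i
    refine (blo_le_Glo 0 i).trans ?_
    refine Glo_le_Glo hσ hK.1 hN (dlo_pos 0 2 le_rfl) hd12 ?_
    unfold det; norm_num
  have p3 : ∀ w, Nice 1 K w → ∀ i, Gup 1 K (2, 1) i w ≤ Glo 1 K (1, 2) i w := by
    intro w hN i
    refine Gup_le_Glo hσ hK.1 hN hd21 (by norm_num) hd12 ?_
    unfold det; norm_num
  have p4 : ∀ w, ∀ i, bup 1 K i w ≤ Gup 1 K (2, 1) i w := by
    intro w i
    have := bup_le_Gup (σ := 1) (K := K) (w := w) 0 i
    simpa using this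
  -- the mean of `bup`
  have hEb : 0 ≤ EV 1 F (bup 1 K) := by
    refine ge_of_tendsto' (EV_tendsto (F := F) hσ (fun j : ℕ => adm_Gup 1 K ((j : ℤ) + 2, 1)) (adm_bup 1 K) ?_) hE2
    intro i
    filter_upwards [hnice] with ω hN
    exact tendsto_Gup_pos hσ hK.1 hN i
  have h1 := EV_ae_eq (F := F) hσ (adm_bup 1 K) (adm_Glo 1 K (1, 2)) (fun i => hnice.mono fun ω hN => p1 _ hN i)
    (hE1.trans hEb)
  have h2 := ae_shift_all (F := F) hnice
  filter_upwards [h1, h2] with ω h3 h4 k i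
  have h5 := h3 k i
  unfold mv at h5 ⊢
  have hN := h4 (ss 1 k i)
  have q1 := bup_le_blo hσ hK.1 hN (rr 1 k i)
  have q2 := p2 _ hN (rr 1 k i)
  have q3 := p3 _ hN (rr 1 k i)
  have q4 := p4 (sh (ss 1 k i) (wt ω)) (rr 1 k i)
  refine ⟨?_, ?_, ?_⟩
  · linarith
  · linarith
  · linarith

theorem ae_bc1 (hK : SmallK F K) (hE1 : EV 1 F (Glo 1 K (1, 2)) ≤ 0)
    (hE2 : ∀ j : ℕ, 0 ≤ EV 1 F (Gup 1 K ((j : ℤ) + 2, 1))) (hr : 0 < rho 1 F K (vert 1)) :
    ∀ᵐ ω ∂(iid Ed F), BC1 K F ω := by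
  have hσ : (1 : ℤ) = 0 ∨ (1 : ℤ) = 1 := Or.inr rfl
  have hnice := ae_nice (F := F) hK hσ
  have hd12 : Dlo 1 ((1, 2) : V) := ⟨by norm_num, by norm_num, fun h => absurd h (by norm_num)⟩
  have hd21 : Dup 1 ((2, 1) : V) := ⟨⟨by norm_num, by norm_num, fun h => absurd h (by norm_num)⟩,
    fun _ => by norm_num⟩
  -- admissible levels
  obtain ⟨L1, hL1⟩ : ∃ L : ℕ, EV 1 F (glo 1 K (1, 2) L) < rho 1 F K (vert 1) := by
    have h := EV_tendsto (F := F) hσ (fun L : ℕ => adm_glo 1 K (1, 2) L) (adm_Glo 1 K (1, 2)) (by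
      intro i
      filter_upwards [hnice] with ω hN
      exact tendsto_glo_L hσ hK.1 hN hd12 i)
    exact (h.eventually_lt_const (hE1.trans_lt hr)).exists
  obtain ⟨L2, hL2⟩ : ∃ L : ℕ, -rho 1 F K (vert 1) < EV 1 F (gup 1 K (2, 1) L) := by
    have h := EV_tendsto (F := F) hσ (fun L : ℕ => adm_gup 1 K (2, 1) L) (adm_Gup 1 K (2, 1)) (by
      intro i
      filter_upwards [hnice] with ω hN
      exact tendsto_gup_L hσ hK.1 hN hd21 i)
    have h0 : 0 ≤ EV 1 F (Gup 1 K (2, 1)) := by simpa using hE2 0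
    exact (h.eventually_const_lt (by linarith : -rho 1 F K (vert 1) < EV 1 F (Gup 1 K (2, 1)))).exists
  obtain ⟨η1, hη1, hc1⟩ := coer_line hK hσ (adm_glo 1 K (1, 2) L1) (ε := 1) (Or.inl rfl) (by
    push_cast; linarith)
  obtain ⟨η2, hη2, hc2⟩ := coer_line hK hσ (adm_gup 1 K (2, 1) L2) (ε := -1) (Or.inr rfl) (by
    push_cast; linarith)
  have hcb := ae_cb (F := F) hK hσ
  filter_upwards [hcb, ae_shift_all (F := F) hnice, hc1, hc2, ae_b_eq hK hE1 hE2, ae_co0 hK hσ hr]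
    with ω h1 h2 h3 h4 h5 h6
  have hlo : ∀ (L : ℕ) (k J : ℤ), ∀ᶠ t in cnF, ∀ j, J ≤ j →
      BI (wt ω) 1 univ (ck 1 (wt ω) K k) t j (j + 1) ≤ mv 1 (glo 1 K (1, 2) L) k j (wt ω) := by
    intro L k J
    obtain ⟨B, hB⟩ := exists_dom_lo h1 (u := (1, 2)) (h1.lo (by norm_num) (fun h => absurd h (by norm_num))
      (fun _ => by norm_num)) (by norm_num) (by norm_num) (fun _ => by norm_num) L k J
    filter_upwards [cnF_ge (2 * |B| + 2), cnF_mem, cnF_mem_Rg h1.good k] with t ht ht1 ht2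
    refine hB t ht2 ?_
    have := le_abs_self B
    unfold det
    simp only [one_mul]
    obtain ⟨h7, h8⟩ := ht1
    omega
  have hup : ∀ (L : ℕ) (k J : ℤ), ∀ᶠ t in cnF, ∀ j ≤ J,
      mv 1 (gup 1 K (2, 1) L) k j (wt ω) ≤ BI (wt ω) 1 univ (ck 1 (wt ω) K k) t j (j + 1) := by
    intro L k J
    obtain ⟨B, hB⟩ := exists_dom_up h1 (u := (2, 1)) (h1.up (by norm_num) (fun h => absurd h (by norm_num))
      (fun _ => by norm_num)) (by norm_num) (fun h => absurd h (by norm_num)) (fun _ => by norm_num) L k J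
    filter_upwards [cnF_ge (3 * |B| + 3), cnF_mem, cnF_mem_Rg h1.good k] with t ht ht1 ht2
    refine hB t ht2 ?_
    have := le_abs_self B
    unfold det
    simp only [one_mul]
    obtain ⟨h7, h8⟩ := ht1
    omega
  refine ⟨h1, fun l i => ?_, h6, fun l => ?_⟩
  · obtain ⟨e1, e2, -⟩ := h5 l i
    rw [tendsto_order]
    constructor
    · intro a ha
      rw [e2] at ha
      have h7 := tendsto_gup_L hσ hK.1 (h2 (ss 1 l i)) hd21 (rr 1 l i)
      obtain ⟨L, hL⟩ := (h7.eventually_const_lt ha).exists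
      filter_upwards [hup L l i] with t ht
      exact hL.trans_le (ht i le_rfl)
    · intro a ha
      rw [e1] at ha
      have h7 := tendsto_glo_L hσ hK.1 (h2 (ss 1 l i)) hd12 (rr 1 l i)
      obtain ⟨L, hL⟩ := (h7.eventually_lt_const ha).exists
      filter_upwards [hlo L l i] with t ht
      exact (ht i le_rfl).trans_lt hL
  · obtain ⟨C1, hC1⟩ := h3 l
    obtain ⟨C2, hC2⟩ := h4 l
    refine ⟨min η1 η2, lt_min hη1 hη2, max C1 C2, ?_⟩
    filter_upwards [hlo L1 l 0, hup L2 l 0] with t ht1 ht2 j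
    exact co_target hC1 hC2 (fun j hj => ht1 j hj) (fun j hj => ht2 j hj) j

/-- The potentials of the class `b` are limits of the target potentials, for all sequences of
targets in the cone. -/
theorem BC1.lim {ω : Om} (h : BC1 K F ω) {τ : ℕ → V} (hτ : Tendsto τ atTop cnF) :
    Lim 1 K (wt ω) (fun l => pot fun i => mv 1 (blo 1 K) l i (wt ω)) τ where
  mem := fun l => hτ.eventually (cnF_mem_Rg h.cb.good l)
  col := (tendsto_comap.mono_left inf_le_left : Tendsto Prod.fst cnF atTop).comp hτ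
  lim := fun l i => by
    simp only [tpot_eq_pot]
    unfold pot
    exact (tendsto_finsetSum _ fun j _ => (h.conv l j).comp hτ).sub
      (tendsto_finsetSum _ fun j _ => (h.conv l j).comp hτ)
  co0 := h.co0
  co := fun l => by
    obtain ⟨η, hη, C, hC⟩ := h.co l
    exact ⟨η, hη, C, hτ.eventually hC⟩

/-- The last entrances towards the targets of the cone are those of the class `b`. -/
theorem BC1.am {ω : Om} (h : BC1 K F ω) (hg : GenG 1 K (blo 1 K) ω) {k l : ℤ} (hkl : k ≤ l) (x : ℤ) :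
    ∀ᶠ t in cnF, AM (wt ω) 1 univ (ck 1 (wt ω) K k) (ck 1 (wt ω) K l) t x
      (vG 1 K (blo 1 K) ω k l x) := by
  rw [eventually_iff_seq_eventually]
  intro τ hτ
  have hL := h.lim hτ
  have e : (fun l => pot fun i => mv 1 (blo 1 K) l i (wt ω)) = phG 1 K (blo 1 K) ω := by
    funext l j
    rw [phG_of_gd (hg.gd l)]
  rw [e] at hL
  exact hL.eventually_am hg.cfg hg.uniq hkl (hg.en hkl x)

end

end C7
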