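import Pool.Agent.Lib.MP_c725eb_pr.FlowG
import Pool.Agent.Lib.MP_c725eb_pr.ClsVal

/-!
# Means of base functionals; limits; coercivity of the increments towards targets
-/

set_option autoImplicit false

namespace C7

open MeasureTheory Filter Set
open scoped ENNReal Topology

section EV

variable {σ : ℤ} {F : Measure ℝ} [IsProbabilityMeasure F] {g g' : ℤ → W → ℝ} {M : ℝ}

theorem Adm.measurable_wt (hg : Adm g M) (i : ℤ) : Measurable fun ω : Om => g i (wt ω) :=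
  hg.meas wt measurable_wt3 i

theorem Adm.integrable (hg : Adm g M) (i : ℤ) : Integrable (fun ω : Om => g i (wt ω)) (iid Ed F) :=
  Integrable.of_bound (hg.measurable_wt i).aestronglyMeasurable M
    (Eventually.of_forall fun ω => by rw [Real.norm_eq_abs]; exact hg.bdd i _)

theorem mv_zero_line (hσ : σ = 0 ∨ σ = 1) (g : ℤ → W → ℝ) {i : ℤ} (h0 : 0 ≤ i) (h1 : i < 1 + σ) (w : W) :
    mv σ g 0 i w = g i w := by
  have e1 : rr σ 0 i = i := by
    unfold rr
    rcases hσ with rfl | rfl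
    · have : i = 0 := by omega
      rw [this]; simp
    · rw [one_mul, zero_add]; omega
  have e2 : ss σ 0 i = (0, 0) := by
    unfold ss
    rcases hσ with rfl | rfl
    · have : i = 0 := by omega
      rw [this]; simp
    · rw [if_neg one_ne_zero, zero_add]
      have : i / 2 = 0 := by omega
      rw [this]; simp
  have h3 : sh (0, 0) w = w := by
    funext v d
    unfold sh
    simp
  unfold mv
  rw [e1, e2, h3]

theorem EV_eq_sum (hσ : σ = 0 ∨ σ = 1) (hg : Adm g M) :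
    EV σ F g = ∑ i ∈ Finset.Ico 0 (1 + σ), ∫ ω, g i (wt ω) ∂(iid Ed F) := by
  unfold EV
  rw [← integral_finsetSum _ fun i _ => hg.integrable i]
  congr 1
  funext ω
  have h := pot_sub (f := fun i => mv σ g 0 i (wt ω)) (a := 0) (b := 1 + σ) (by rcases hσ with rfl | rfl <;> norm_num)
  rw [pot_zero, zero_sub] at h
  rw [h]
  exact Finset.sum_congr rfl fun i hi =>
    mv_zero_line hσ g (Finset.mem_Ico.1 hi).1 (Finset.mem_Ico.1 hi).2 _

theorem EV_mono (hσ : σ = 0 ∨ σ = 1) {M' : ℝ} (hg : Adm g M) (hg' : Adm g' M')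
    (h : ∀ i, ∀ᵐ ω ∂(iid Ed F), g i (wt ω) ≤ g' i (wt ω)) : EV σ F g ≤ EV σ F g' := by
  rw [EV_eq_sum hσ hg, EV_eq_sum hσ hg']
  exact Finset.sum_le_sum fun i _ => integral_mono_ae (hg.integrable i) (hg'.integrable i) (h i)

/-- Ordered functionals with the same mean are equal. -/
theorem EV_ae_eq (hσ : σ = 0 ∨ σ = 1) {M' : ℝ} (hg : Adm g M) (hg' : Adm g' M')
    (h : ∀ i, ∀ᵐ ω ∂(iid Ed F), g i (wt ω) ≤ g' i (wt ω)) (hE : EV σ F g' ≤ EV σ F g) :
    ∀ᵐ ω ∂(iid Ed F), ∀ k i, mv σ g k i (wt ω) = mv σ g' k i (wt ω) := by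
  have h1 : ∀ i ∈ Finset.Ico 0 (1 + σ), ∫ ω, g i (wt ω) ∂(iid Ed F) = ∫ ω, g' i (wt ω) ∂(iid Ed F) := by
    rw [EV_eq_sum hσ hg, EV_eq_sum hσ hg'] at hE
    have h2 : ∀ i ∈ Finset.Ico 0 (1 + σ), ∫ ω, g i (wt ω) ∂(iid Ed F) ≤ ∫ ω, g' i (wt ω) ∂(iid Ed F) :=
      fun i _ => integral_mono_ae (hg.integrable i) (hg'.integrable i) (h i)
    exact (Finset.sum_eq_sum_iff_of_le h2).1 (le_antisymm (Finset.sum_le_sum h2) hE)
  have h3 : ∀ᵐ ω ∂(iid Ed F), ∀ i ∈ Finset.Ico 0 (1 + σ), g i (wt ω) = g' i (wt ω) := by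
    rw [Filter.eventually_all_finset]
    intro i hi
    have h4 : ∫ ω, (g' i (wt ω) - g i (wt ω)) ∂(iid Ed F) = 0 := by
      rw [integral_sub (hg'.integrable i) (hg.integrable i), h1 i hi, sub_self]
    have h5 := (integral_eq_zero_iff_of_nonneg_ae (by
      filter_upwards [h i] with ω h6
      exact sub_nonneg.2 h6) ((hg'.integrable i).sub (hg.integrable i))).1 h4
    filter_upwards [h5] with ω h6
    have h7 : g' i (wt ω) - g i (wt ω) = 0 := h6
    linarith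
  filter_upwards [ae_shift_all (F := F) (P := fun w => ∀ i ∈ Finset.Ico 0 (1 + σ), g i w = g' i w) h3] with ω h4 k i
  unfold mv
  refine h4 _ _ ?_
  rw [Finset.mem_Ico]
  rcases rr_cases hσ k i with h5 | ⟨h5, h6⟩
  · rw [h5]; rcases hσ with rfl | rfl <;> norm_num
  · rw [h6, h5]; norm_num

theorem EV_tendsto (hσ : σ = 0 ∨ σ = 1) {gn : ℕ → ℤ → W → ℝ} (hgn : ∀ n, Adm (gn n) M) (hg : Adm g M)
    (h : ∀ i, ∀ᵐ ω ∂(iid Ed F), Tendsto (fun n => gn n i (wt ω)) atTop (𝓝 (g i (wt ω)))) :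
    Tendsto (fun n => EV σ F (gn n)) atTop (𝓝 (EV σ F g)) := by
  simp only [fun n => EV_eq_sum (F := F) hσ (hgn n), EV_eq_sum (F := F) hσ hg]
  refine tendsto_finsetSum _ fun i _ => ?_
  refine tendsto_integral_of_dominated_convergence (fun _ => M)
    (fun n => ((hgn n).measurable_wt i).aestronglyMeasurable) (integrable_const _)
    (fun n => Eventually.of_forall fun ω => ?_) (h i)
  rw [Real.norm_eq_abs]
  exact (hgn n).bdd i _

end EV

/-! ### admissibility of the classes -/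

section adm

variable {σ : ℤ} {K : ℝ≥0∞}

theorem adm_zero : Adm (fun _ _ => (0 : ℝ)) 0 :=
  ⟨fun _ _ _ => measurable_const, fun _ _ => by simp⟩

theorem dlo_pos (j : ℕ) (c : ℤ) (hc : 2 ≤ c) : Dlo σ ((j : ℤ) + c, 1) :=
  ⟨by simp only; omega, by simp only; omega, fun _ => by simp only; omega⟩

theorem dup_pos (j : ℕ) (c : ℤ) (hc : 2 ≤ c) : Dup σ ((j : ℤ) + c, 1) :=
  ⟨dlo_pos j c hc, fun _ => by simp⟩

theorem dlo_neg (j : ℕ) : Dlo σ ((j : ℤ) + 4, -1) :=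
  ⟨by simp only; omega, by simp only; omega, fun _ => by simp only; omega⟩

end adm

section nice

variable {σ : ℤ} {K : ℝ≥0∞} {w : W} (hσ : σ = 0 ∨ σ = 1) (hK : K ≠ ⊤) (hN : Nice σ K w)

include hσ hK hN

theorem antitone_Glo_pos (i : ℤ) : Antitone fun j : ℕ => Glo σ K ((j : ℤ) + 2, 1) i w := by
  intro j j' hj
  rcases hj.eq_or_lt with rfl | hj
  · exact le_rfl
  · refine Glo_le_Glo hσ hK hN (dlo_pos j' 2 le_rfl) (dlo_pos j 2 le_rfl) ?_
    unfold det
    simp only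
    omega

theorem antitone_Gup_pos (i : ℤ) : Antitone fun j : ℕ => Gup σ K ((j : ℤ) + 2, 1) i w := by
  intro j j' hj
  rcases hj.eq_or_lt with rfl | hj
  · exact le_rfl
  · refine Gup_le_Gup hσ hK hN (dup_pos j' 2 le_rfl) (dup_pos j 2 le_rfl) ?_
    unfold det
    simp only
    omega

theorem monotone_Glo_neg (i : ℤ) : Monotone fun j : ℕ => Glo σ K ((j : ℤ) + 4, -1) i w := by
  intro j j' hj
  rcases hj.eq_or_lt with rfl | hj
  · exact le_rfl
  · refine Glo_le_Glo hσ hK hN (dlo_neg j) (dlo_neg j') ?_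
    unfold det
    simp only
    omega

theorem tendsto_Glo_pos (i : ℤ) :
    Tendsto (fun j : ℕ => Glo σ K ((j : ℤ) + 2, 1) i w) atTop (𝓝 (blo σ K i w)) :=
  tendsto_atTop_ciInf (antitone_Glo_pos hσ hK hN i) (bddBelow_of_abs fun _ => abs_Glo_le σ K _ i w)

theorem tendsto_Gup_pos (i : ℤ) :
    Tendsto (fun j : ℕ => Gup σ K ((j : ℤ) + 2, 1) i w) atTop (𝓝 (bup σ K i w)) :=
  tendsto_atTop_ciInf (antitone_Gup_pos hσ hK hN i) (bddBelow_of_abs fun _ => abs_Gup_le σ K _ i w)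

theorem tendsto_Glo_neg (i : ℤ) :
    Tendsto (fun j : ℕ => Glo σ K ((j : ℤ) + 4, -1) i w) atTop (𝓝 (alo σ K i w)) :=
  tendsto_atTop_ciSup (monotone_Glo_neg hσ hK hN i) (bddAbove_of_abs fun _ => abs_Glo_le σ K _ i w)

omit hσ hK hN in
theorem blo_le_Glo (j : ℕ) (i : ℤ) : blo σ K i w ≤ Glo σ K ((j : ℤ) + 2, 1) i w :=
  ciInf_le (bddBelow_of_abs fun _ => abs_Glo_le σ K _ i w) j

omit hσ hK hN in
theorem bup_le_Gup (j : ℕ) (i : ℤ) : bup σ K i w ≤ Gup σ K ((j : ℤ) + 2, 1) i w :=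
  ciInf_le (bddBelow_of_abs fun _ => abs_Gup_le σ K _ i w) j

end nice

end C7
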