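import Pool.Agent.Lib.MP_c725eb_pr.ClsLim

/-!
# The classes: invariance in the direction of the lines, labels
-/

set_option autoImplicit false

namespace C7

open MeasureTheory Filter Set
open scoped ENNReal Topology

/-! ### shifts by `vert` -/

theorem tr_pt {σ : ℤ} {c c' : ℤ → ℤ} (s : V) (hc : ∀ i, c' i = c (i + ix σ s) - s.1) (j : ℤ) :
    tr s (pt σ c' j) = pt σ c (j + ix σ s) := by
  unfold tr pt
  rw [hc]
  unfold ix
  ext
  · simp
  · simp only; ring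

theorem cin_sh {σ : ℤ} {E E' : Set V} {c c' : ℤ → ℤ} (s : V) (hc : ∀ i, c' i = c (i + ix σ s) - s.1)
    (hE : ∀ v, v ∈ E' ↔ tr s v ∈ E) (j : ℤ) : Cin σ E' c' j ↔ Cin σ E c (j + ix σ s) := by
  have e1 : j + ix σ s + 1 = j + 1 + ix σ s := by ring
  have hcj := hc j
  have hcj1 := hc (j + 1)
  rw [← e1] at hcj1
  unfold Cin
  rw [hE, hE, tr_pt s hc, tr_pt s hc, e1]
  rw [← e1]
  refine and_congr_right fun _ => and_congr_right fun _ => and_congr ?_ ?_
  · refine imp_congr_right fun h0 => ?_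
    subst h0
    rw [hE]
    have e2 : tr s (c' j + 1, j) = (c (j + ix 0 s) + 1, j + ix 0 s) := by
      unfold tr
      rw [hcj]
      unfold ix
      ext
      · simp only; ring
      · simp only; ring
    rw [e2]
    exact imp_congr (by omega) Iff.rfl
  · refine imp_congr_right fun h0 => ?_
    subst h0
    rw [hE]
    have e2 : tr s (c' j, j + 1) = (c (j + ix 0 s), j + ix 0 s + 1) := by
      unfold tr
      rw [hcj]
      unfold ix
      ext
      · simp only; ring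
      · simp only; ring
    rw [e2]
    exact imp_congr (by omega) Iff.rfl

section vert

variable {σ : ℤ} {K : ℝ≥0∞} {w : W}

theorem ck_vert (hσ : σ = 0 ∨ σ = 1) (i : ℤ) :
    ck σ (sh (vert σ) w) K 0 i = ck σ w K 0 (i + ix σ (vert σ)) - (vert σ).1 := by
  have := ck_sh hσ (w := w) (K := K) (vert σ) 0 i
  rwa [ln_vt, sub_zero] at this

theorem mem_Wlo_vert (u : V) (L : ℤ) (v : V) : v ∈ Wlo σ u (L + 1) ↔ tr (vert σ) v ∈ Wlo σ u L := by
  change -((L + 1) * ln σ u) ≤ det u v ↔ -(L * ln σ u) ≤ det u (tr (vert σ) v)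
  have e : det u (tr (vert σ) v) = det u v + ln σ u := by
    unfold det tr vert ln
    simp only
    ring
  rw [e]
  constructor <;> intro h <;> linarith

theorem mem_Wup_vert (u : V) (L : ℤ) (v : V) : v ∈ Wup σ u L ↔ tr (vert σ) v ∈ Wup σ u (L + 1) := by
  change det u v ≤ L * ln σ u ↔ det u (tr (vert σ) v) ≤ (L + 1) * ln σ u
  have e : det u (tr (vert σ) v) = det u v + ln σ u := by
    unfold det tr vert ln
    simp only
    ring
  rw [e]
  constructor <;> intro h <;> linarith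

theorem tr_tlo (u : V) (L m : ℤ) : tr (vert σ) (tlo σ u (L + 1) m) = tlo σ u L m := by
  unfold tr tlo vert
  ext
  · simp only; ring
  · simp only; ring

theorem tr_tup (u : V) (L m : ℤ) : tr (vert σ) (tup σ u L m) = tup σ u (L + 1) m := by
  unfold tr tup vert
  ext
  · simp only; ring
  · simp only; ring

theorem oklo_vert (hσ : σ = 0 ∨ σ = 1) (u : V) (L : ℕ) (i : ℤ) :
    OKlo σ K u (L + 1) i (sh (vert σ) w) ↔ OKlo σ K u L (i + (1 + σ)) w := by
  unfold OKlo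
  have key := fun j => cin_sh (σ := σ) (vert σ) (ck_vert (w := w) (K := K) hσ)
    (mem_Wlo_vert u (L : ℤ)) j
  rw [ix_vt hσ] at key
  constructor
  · intro h j hj
    have h1 := (key (j - (1 + σ))).1 (by
      have := h (j - (1 + σ)) (by omega)
      push_cast at this
      exact this)
    rwa [sub_add_cancel] at h1
  · intro h j hj
    push_cast
    exact (key j).2 (h _ (by omega))

theorem okup_vert (hσ : σ = 0 ∨ σ = 1) (u : V) (L : ℕ) (i : ℤ) :
    OKup σ K u L i (sh (vert σ) w) ↔ OKup σ K u (L + 1) (i + (1 + σ)) w := by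
  unfold OKup
  have key := fun j => cin_sh (σ := σ) (vert σ) (ck_vert (w := w) (K := K) hσ)
    (mem_Wup_vert u (L : ℤ)) j
  rw [ix_vt hσ] at key
  constructor
  · intro h j hj
    have h1 := (key (j - (1 + σ))).1 (h (j - (1 + σ)) (by omega))
    rw [sub_add_cancel] at h1
    push_cast
    exact h1
  · intro h j hj
    have := h (j + (1 + σ)) (by omega)
    push_cast at this
    exact (key j).2 this

theorem BI_wlo_vert (hσ : σ = 0 ∨ σ = 1) (u : V) (L m : ℤ) (x y : ℤ) :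
    BI (sh (vert σ) w) σ (Wlo σ u (L + 1)) (ck σ (sh (vert σ) w) K 0) (tlo σ u (L + 1) m) x y =
      BI w σ (Wlo σ u L) (ck σ w K 0) (tlo σ u L m) (x + (1 + σ)) (y + (1 + σ)) := by
  have key := fun x => TI_sh (w := w) (vert σ) (ck_vert (w := w) (K := K) hσ) (mem_Wlo_vert u L) x
    (tlo σ u (L + 1) m)
  rw [ix_vt hσ, tr_tlo] at key
  unfold BI
  rw [key, key]

theorem BI_wup_vert (hσ : σ = 0 ∨ σ = 1) (u : V) (L m : ℤ) (x y : ℤ) :
    BI (sh (vert σ) w) σ (Wup σ u L) (ck σ (sh (vert σ) w) K 0) (tup σ u L m) x y =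
      BI w σ (Wup σ u (L + 1)) (ck σ w K 0) (tup σ u (L + 1) m) (x + (1 + σ)) (y + (1 + σ)) := by
  have key := fun x => TI_sh (w := w) (vert σ) (ck_vert (w := w) (K := K) hσ) (mem_Wup_vert u L) x
    (tup σ u L m)
  rw [ix_vt hσ, tr_tup] at key
  unfold BI
  rw [key, key]

open Classical in
theorem glo_vert (hσ : σ = 0 ∨ σ = 1) (u : V) (L : ℕ) (i : ℤ) :
    glo σ K u (L + 1) i (sh (vert σ) w) = glo σ K u L (i + (1 + σ)) w := by
  unfold glo
  have e : i + 1 + (1 + σ) = i + (1 + σ) + 1 := by ring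
  simp only [Nat.cast_add, Nat.cast_one, BI_wlo_vert hσ, e]
  exact if_congr (oklo_vert hσ u L i) rfl rfl

open Classical in
theorem gup_vert (hσ : σ = 0 ∨ σ = 1) (u : V) (L : ℕ) (i : ℤ) :
    gup σ K u L i (sh (vert σ) w) = gup σ K u (L + 1) (i + (1 + σ)) w := by
  unfold gup
  have e : i + 1 + (1 + σ) = i + (1 + σ) + 1 := by ring
  simp only [Nat.cast_add, Nat.cast_one, BI_wup_vert hσ, e]
  exact if_congr (okup_vert hσ u L i) rfl rfl

end vert

/-! ### the classes of one direction -/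

/-- Lower class of the direction `u`. -/
noncomputable def Glo (σ : ℤ) (K : ℝ≥0∞) (u : V) (i : ℤ) (w : W) : ℝ := ⨅ L : ℕ, glo σ K u L i w

/-- Upper class of the direction `u`. -/
noncomputable def Gup (σ : ℤ) (K : ℝ≥0∞) (u : V) (i : ℤ) (w : W) : ℝ := ⨆ L : ℕ, gup σ K u L i w

theorem abs_Glo_le (σ : ℤ) (K : ℝ≥0∞) (u : V) (i : ℤ) (w : W) : |Glo σ K u i w| ≤ 2 * K.toReal :=
  abs_ciInf_le fun _ => abs_glo_le _ _ _ _ _ _

theorem abs_Gup_le (σ : ℤ) (K : ℝ≥0∞) (u : V) (i : ℤ) (w : W) : |Gup σ K u i w| ≤ 2 * K.toReal :=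
  abs_ciSup_le fun _ => abs_gup_le _ _ _ _ _ _

theorem bddBelow_of_abs {ι : Type*} {f : ι → ℝ} {c : ℝ} (h : ∀ n, |f n| ≤ c) : BddBelow (range f) :=
  ⟨-c, by rintro _ ⟨n, rfl⟩; exact (abs_le.1 (h n)).1⟩

theorem bddAbove_of_abs {ι : Type*} {f : ι → ℝ} {c : ℝ} (h : ∀ n, |f n| ≤ c) : BddAbove (range f) :=
  ⟨c, by rintro _ ⟨n, rfl⟩; exact (abs_le.1 (h n)).2⟩

theorem Glo_le_glo (σ : ℤ) (K : ℝ≥0∞) (u : V) (L : ℕ) (i : ℤ) (w : W) :
    Glo σ K u i w ≤ glo σ K u L i w :=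
  ciInf_le (bddBelow_of_abs fun L => abs_glo_le σ K u L i w) L

theorem gup_le_Gup (σ : ℤ) (K : ℝ≥0∞) (u : V) (L : ℕ) (i : ℤ) (w : W) :
    gup σ K u L i w ≤ Gup σ K u i w :=
  le_ciSup (bddAbove_of_abs fun L => abs_gup_le σ K u L i w) L

section cls

variable {σ : ℤ} {K : ℝ≥0∞} {w : W} {u u' : V} {i : ℤ}

theorem tendsto_glo_L (hσ : σ = 0 ∨ σ = 1) (hK : K ≠ ⊤) (hN : Nice σ K w) (hu : Dlo σ u) (i : ℤ) :
    Tendsto (fun L : ℕ => glo σ K u L i w) atTop (𝓝 (Glo σ K u i w)) :=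
  tendsto_atTop_ciInf (glo_anti_L hσ hK hN hu i) (bddBelow_of_abs fun L => abs_glo_le σ K u L i w)

theorem tendsto_gup_L (hσ : σ = 0 ∨ σ = 1) (hK : K ≠ ⊤) (hN : Nice σ K w) (hu : Dup σ u) (i : ℤ) :
    Tendsto (fun L : ℕ => gup σ K u L i w) atTop (𝓝 (Gup σ K u i w)) :=
  tendsto_atTop_ciSup (gup_mono_L hσ hK hN hu i) (bddAbove_of_abs fun L => abs_gup_le σ K u L i w)

theorem Glo_le_Glo (hσ : σ = 0 ∨ σ = 1) (hK : K ≠ ⊤) (hN : Nice σ K w) (hu : Dlo σ u) (hu' : Dlo σ u')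
    (hdet : 0 < det u u') : Glo σ K u i w ≤ Glo σ K u' i w :=
  ciInf_mono (bddBelow_of_abs fun L => abs_glo_le σ K u L i w) fun _ =>
    glo_le_glo hσ hK hN hu hu' hdet

theorem Gup_le_Gup (hσ : σ = 0 ∨ σ = 1) (hK : K ≠ ⊤) (hN : Nice σ K w) (hu : Dup σ u) (hu' : Dup σ u')
    (hdet : 0 < det u u') : Gup σ K u i w ≤ Gup σ K u' i w :=
  ciSup_mono (bddAbove_of_abs fun L => abs_gup_le σ K u' L i w) fun _ =>
    gup_le_gup hσ hK hN hu hu' hdet

theorem Gup_le_Glo (hσ : σ = 0 ∨ σ = 1) (hK : K ≠ ⊤) (hN : Nice σ K w) (hu : Dup σ u) (hu2 : u.2 ≤ u.1)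
    (hu' : Dlo σ u') (hdet : 0 < det u u') : Gup σ K u i w ≤ Glo σ K u' i w :=
  ciSup_le fun _ => le_ciInf fun _ => gup_le_glo hσ hK hN hu hu2 hu' hdet

theorem Glo_vert (hσ : σ = 0 ∨ σ = 1) (hK : K ≠ ⊤) (hN : Nice σ K (sh (vert σ) w)) (hu : Dlo σ u) (i : ℤ) :
    Glo σ K u i (sh (vert σ) w) = Glo σ K u (i + (1 + σ)) w := by
  have h1 := (tendsto_glo_L hσ hK hN hu i).comp (tendsto_add_atTop_nat 1)
  have h2 : ∀ L : ℕ, glo σ K u (L + 1) i (sh (vert σ) w) = glo σ K u L (i + (1 + σ)) w :=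
    fun L => glo_vert hσ u L i
  have h3 : Antitone fun L : ℕ => glo σ K u L (i + (1 + σ)) w := by
    intro L L' hL
    change glo σ K u L' (i + (1 + σ)) w ≤ glo σ K u L (i + (1 + σ)) w
    rw [← h2, ← h2]
    exact glo_anti_L hσ hK hN hu i (by omega)
  have h4 := tendsto_atTop_ciInf h3 (bddBelow_of_abs fun L => abs_glo_le σ K u L _ w)
  refine tendsto_nhds_unique h1 (h4.congr fun L => ?_)
  exact (h2 L).symm

theorem Gup_vert (hσ : σ = 0 ∨ σ = 1) (hK : K ≠ ⊤) (hN : Nice σ K w) (hu : Dup σ u) (i : ℤ) :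
    Gup σ K u i (sh (vert σ) w) = Gup σ K u (i + (1 + σ)) w := by
  have h1 := (tendsto_gup_L hσ hK hN hu (i + (1 + σ))).comp (tendsto_add_atTop_nat 1)
  have h2 : ∀ L : ℕ, gup σ K u L i (sh (vert σ) w) = gup σ K u (L + 1) (i + (1 + σ)) w :=
    fun L => gup_vert hσ u L i
  have h3 : Monotone fun L : ℕ => gup σ K u L i (sh (vert σ) w) := by
    intro L L' hL
    change gup σ K u L i (sh (vert σ) w) ≤ gup σ K u L' i (sh (vert σ) w)
    rw [h2, h2]
    exact gup_mono_L hσ hK hN hu _ (by omega)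
  have h4 := tendsto_atTop_ciSup h3 (bddAbove_of_abs fun L => abs_gup_le σ K u L _ (sh (vert σ) w))
  refine tendsto_nhds_unique (h4.congr fun L => ?_) h1
  exact h2 L

end cls

theorem measurable_Glo_wt (σ : ℤ) (K : ℝ≥0∞) (u : V) (i : ℤ) :
    Measurable fun ω : Om => Glo σ K u i (wt ω) :=
  Measurable.iInf fun L => measurable_glo measurable_wt3 σ K u L i

theorem measurable_Gup_wt (σ : ℤ) (K : ℝ≥0∞) (u : V) (i : ℤ) :
    Measurable fun ω : Om => Gup σ K u i (wt ω) :=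
  Measurable.iSup fun L => measurable_gup measurable_wt3 σ K u L i

theorem T_Wal_lo (σ : ℤ) (K : ℝ≥0∞) (u : V) (L : ℤ) (w : W) (i : ℤ) (t : V) :
    T w (Wal 1 σ u L ∩ Rg σ w K 0) (pk σ w K 0 i) t = TI w σ (Wlo σ u L) (ck σ w K 0) i t := by
  unfold TI
  rw [Wlo_eq_Wal, inter_comm]
  rfl

theorem T_Wal_up (σ : ℤ) (K : ℝ≥0∞) (u : V) (L : ℤ) (w : W) (i : ℤ) (t : V) :
    T w (Wal (-1) σ u L ∩ Rg σ w K 0) (pk σ w K 0 i) t = TI w σ (Wup σ u L) (ck σ w K 0) i t := by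
  unfold TI
  rw [Wup_eq_Wal, inter_comm]
  rfl

theorem oklo_of_ia {σ : ℤ} {K : ℝ≥0∞} {w : W} (hσ : σ = 0 ∨ σ = 1) (hN : Nice σ K w) {u : V} (hu : Dlo σ u)
    (hu2 : 2 * |u.2| ≤ u.1) (L : ℕ) {j : ℤ} (hj : (ia σ 1 w K (Wal 1 σ u L) : ℤ) ≤ j) :
    OKlo σ K u L j w := by
  have h1 : Iaf σ 1 w K (Wal 1 σ u L) := (hN.cone 1 (Or.inl rfl)).mono
    (cone_subset_Wal (Or.inl rfl) σ (hu.ln_pos hσ) hu2 (by positivity))
  refine oklo_of_bal hσ hN fun l hl => ?_
  rw [Wlo_eq_Wal]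
  exact ia_spec h1 (by omega)

theorem okup_of_ia {σ : ℤ} {K : ℝ≥0∞} {w : W} (hσ : σ = 0 ∨ σ = 1) (hN : Nice σ K w) {u : V} (hu : Dlo σ u)
    (hu2 : 2 * |u.2| ≤ u.1) (L : ℕ) {j : ℤ} (hj : (ia σ (-1) w K (Wal (-1) σ u L) : ℤ) ≤ -j) :
    OKup σ K u L j w := by
  have h1 : Iaf σ (-1) w K (Wal (-1) σ u L) := (hN.cone (-1) (Or.inr rfl)).mono
    (cone_subset_Wal (Or.inr rfl) σ (hu.ln_pos hσ) hu2 (by positivity))
  refine okup_of_bal hσ hN fun l hl => ?_
  rw [Wup_eq_Wal]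
  exact ia_spec h1 (by omega)

section labels

variable {F : Measure ℝ} [IsProbabilityMeasure F] {K : ℝ≥0∞} (hK : SmallK F K) {σ : ℤ}
  (hσ : σ = 0 ∨ σ = 1)

include hK hσ

theorem ae_nice_shO (s : V) : ∀ᵐ ω ∂(iid Ed F), Nice σ K (sh s (wt ω)) := by
  filter_upwards [ae_shO (ae_nice (F := F) hK hσ) s] with ω h
  rwa [wt_shO] at h

theorem integral_Glo_per {u : V} (hu : Dlo σ u) (i : ℤ) :
    ∫ ω, Glo σ K u (i + (1 + σ)) (wt ω) ∂(iid Ed F) = ∫ ω, Glo σ K u i (wt ω) ∂(iid Ed F) := by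
  have h1 : ∫ ω, Glo σ K u i (wt (shO (vert σ) ω)) ∂(iid Ed F) = ∫ ω, Glo σ K u i (wt ω) ∂(iid Ed F) := by
    have h := measurePreserving_shO F (vert σ)
    have h2 := integral_map h.measurable.aemeasurable
      (measurable_Glo_wt σ K u i).aestronglyMeasurable (μ := iid Ed F)
    rw [h.map_eq] at h2
    exact h2.symm
  rw [← h1]
  refine integral_congr_ae ?_
  filter_upwards [ae_nice_shO (F := F) hK hσ (vert σ)] with ω h
  rw [wt_shO, Glo_vert hσ hK.1 h hu]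

theorem integral_Gup_per {u : V} (hu : Dup σ u) (i : ℤ) :
    ∫ ω, Gup σ K u (i + (1 + σ)) (wt ω) ∂(iid Ed F) = ∫ ω, Gup σ K u i (wt ω) ∂(iid Ed F) := by
  have h1 : ∫ ω, Gup σ K u i (wt (shO (vert σ) ω)) ∂(iid Ed F) = ∫ ω, Gup σ K u i (wt ω) ∂(iid Ed F) := by
    have h := measurePreserving_shO F (vert σ)
    have h2 := integral_map h.measurable.aemeasurable
      (measurable_Gup_wt σ K u i).aestronglyMeasurable (μ := iid Ed F)
    rw [h.map_eq] at h2
    exact h2.symm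
  rw [← h1]
  refine integral_congr_ae ?_
  filter_upwards [ae_nice (F := F) hK hσ] with ω h
  rw [wt_shO, Gup_vert hσ hK.1 h hu]

/-- LABEL of the lower classes. -/
theorem label_lo {u : V} (hu : Dlo σ u) (hu2 : 2 * |u.2| ≤ u.1) {N : ℕ} (hN : 0 < N) (k : ℕ) :
    k * ∑ j ∈ Finset.range (per σ), ∫ ω, Glo σ K u j (wt ω) ∂(iid Ed F) ≤
      rho σ F K (N • u + (k : ℤ) • vert σ) - rho σ F K (N • u) := by
  have hln := hu.ln_pos hσ
  have key := label_lim (F := F) hK hσ (s := 1) (Or.inl rfl) hln hu2 hN k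
    (g := fun L j ω => glo σ K u L j (wt ω)) (gi := fun j ω => Glo σ K u j (wt ω)) ?_ ?_
    (fun L j => measurable_glo measurable_wt3 σ K u L j) (C := 2 * K.toReal)
    (fun L j ω => abs_glo_le σ K u L j (wt ω)) ?_ ?_
  · simpa only [one_mul] using key
  · intro L
    filter_upwards [ae_nice (F := F) hK hσ] with ω hω
    have h1 := lo_fin_ev hσ hK.1 hω hu (oklo_of_ia hσ hω hu hu2 L le_rfl)
    have h2 : ∀ᶠ m : ℕ in atTop, TI (wt ω) σ (Wlo σ u L) (ck σ (wt ω) K 0)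
        (ia σ 1 (wt ω) K (Wal 1 σ u L)) (tlo σ u L m) ≠ ⊤ := tendsto_natCast_atTop_atTop.eventually h1
    filter_upwards [h2] with m hm
    unfold xb
    rw [T_Wal_lo, ← tlo_eq_tar]
    simpa using hm
  · intro L
    filter_upwards [ae_nice (F := F) hK hσ] with ω hω j hj
    have h1 := tendsto_glo hσ hK.1 hω hu (oklo_of_ia hσ hω hu hu2 L (by exact_mod_cast hj) :
      OKlo σ K u L (j : ℤ) (wt ω))
    have h2 := h1.comp tendsto_natCast_atTop_atTop
    refine h2.congr fun m => ?_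
    simp only [T_Wal_lo, ← tlo_eq_tar, one_mul, Function.comp]
    rfl
  · intro j
    filter_upwards [ae_nice (F := F) hK hσ] with ω hω
    exact tendsto_glo_L hσ hK.1 hω hu j
  · intro j
    have := integral_Glo_per (F := F) hK hσ hu j
    push_cast
    rw [per_cast hσ]
    exact this

/-- LABEL of the upper classes. -/
theorem label_up {u : V} (hu : Dup σ u) (hu2 : 2 * |u.2| ≤ u.1) {N : ℕ} (hN : 0 < N) (k : ℕ) :
    rho σ F K (N • u) - rho σ F K (N • u - (k : ℤ) • vert σ) ≤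
      k * ∑ j ∈ Finset.range (per σ), ∫ ω, Gup σ K u j (wt ω) ∂(iid Ed F) := by
  have hln := hu.toDlo.ln_pos hσ
  have hint : ∀ i : ℤ, ∫ ω, Gup σ K u (i + (1 + σ)) (wt ω) ∂(iid Ed F) =
      ∫ ω, Gup σ K u i (wt ω) ∂(iid Ed F) := fun i => integral_Gup_per hK hσ hu i
  have key := label_lim (F := F) hK hσ (s := -1) (Or.inr rfl) hln hu2 hN k
    (g := fun L j ω => -gup σ K u L (-j - 1) (wt ω)) (gi := fun j ω => -Gup σ K u (-j - 1) (wt ω)) ?_ ?_
    (fun L j => (measurable_gup measurable_wt3 σ K u L _).neg) (C := 2 * K.toReal)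
    (fun L j ω => by rw [abs_neg]; exact abs_gup_le σ K u L _ (wt ω)) ?_ ?_
  · have h1 : ∑ j ∈ Finset.range (per σ), ∫ ω, -Gup σ K u (-j - 1) (wt ω) ∂(iid Ed F) =
        -∑ j ∈ Finset.range (per σ), ∫ ω, Gup σ K u j (wt ω) ∂(iid Ed F) := by
      simp only [integral_neg, Finset.sum_neg_distrib, neg_inj]
      rcases hσ with rfl | rfl
      · have h2 := hint (-1)
        simp only [add_zero, neg_add_cancel] at h2
        simp [per, h2]
      · have h2 := hint (-1)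
        have h3 := hint (-2)
        norm_num at h2 h3
        have e : per 1 = 2 := rfl
        rw [e, Finset.sum_range_succ, Finset.sum_range_succ, Finset.sum_range_succ, Finset.sum_range_succ]
        simp only [Finset.range_zero, Finset.sum_empty, zero_add, Nat.cast_zero, Nat.cast_one]
        norm_num
        linarith
    rw [h1] at key
    have e : N • u + (-1 * (k : ℤ)) • vert σ = N • u - (k : ℤ) • vert σ := by
      rw [neg_one_mul, neg_smul, sub_eq_add_neg]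
    rw [e] at key
    linarith
  · intro L
    filter_upwards [ae_nice (F := F) hK hσ] with ω hω
    have hok : OKup σ K u L (-(ia σ (-1) (wt ω) K (Wal (-1) σ u L) : ℤ) - 1) (wt ω) :=
      okup_of_ia hσ hω hu.toDlo hu2 L (by omega)
    have h1 := up_fin_ev hσ hK.1 hω hu hok
    have h2 := tendsto_natCast_atTop_atTop.eventually h1
    filter_upwards [h2] with m hm
    unfold xb
    rw [T_Wal_up, ← tup_eq_tar]
    rw [sub_add_cancel] at hm
    simpa using hm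
  · intro L
    filter_upwards [ae_nice (F := F) hK hσ] with ω hω j hj
    have hok : OKup σ K u L (-(j : ℤ) - 1) (wt ω) :=
      okup_of_ia hσ hω hu.toDlo hu2 L (by omega)
    have h1 := (tendsto_gup hσ hK.1 hω hu hok).neg
    have h2 := h1.comp tendsto_natCast_atTop_atTop
    refine h2.congr fun m => ?_
    simp only [T_Wal_up, ← tup_eq_tar, Function.comp, BI]
    rw [show -(j : ℤ) - 1 + 1 = -1 * j by ring, show -(j : ℤ) - 1 = -1 * (j + 1) by ring]
    ring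
  · intro j
    filter_upwards [ae_nice (F := F) hK hσ] with ω hω
    exact (tendsto_gup_L hσ hK.1 hω hu _).neg
  · intro j
    have := hint (-((j + per σ : ℕ) : ℤ) - 1)
    rw [integral_neg, integral_neg, ← this]
    push_cast
    rw [per_cast hσ]
    congr 3
    funext ω
    congr 1
    ring

end labels

end C7
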