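import Mathlib
import Pool.Agent.Lib.MP_c725eb_pr.Label

/-!
# The truncation lemma for labels, for targets which may be unreachable

`G m` is the event that the target at distance `m` is reachable.
-/

set_option autoImplicit false

namespace C7

open MeasureTheory Filter Topology

variable {Ω : Type*} [MeasurableSpace Ω] {P : Measure Ω} [IsProbabilityMeasure P]

open Classical in
/-- The truncated increments. -/
noncomputable def YG (θ : Ω → Ω) (G : ℕ → Set Ω) (Φ : ℕ → Ω → ℝ) (V : ℝ) (m : ℕ) (ω : Ω) : ℝ :=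
  if θ ω ∈ G m then max (Φ (m + 1) ω - Φ m (θ ω)) (-V) else -V

/-- THE TRUNCATION LEMMA, when the passage times `Φ m` are finite only on `G m`. -/
theorem trunc_label_G {θ : Ω → Ω} (hθ : MeasurePreserving θ P P) {G : ℕ → Set Ω}
    (hGm : ∀ m, MeasurableSet (G m)) (hG : ∀ m, ∀ᵐ ω ∂P, θ ω ∈ G m → ω ∈ G (m + 1))
    (hGt : Tendsto (fun m => P.real (G m)ᶜ) atTop (𝓝 0)) {Φ : ℕ → Ω → ℝ}
    (hΦm : ∀ m, Measurable (Φ m))
    {ξ : Ω → ℝ} (hξm : Measurable ξ) (hξ : Integrable ξ P) (hξ0 : ∀ ω, 0 ≤ ξ ω)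
    (h1 : ∀ m, ∀ᵐ ω ∂P, θ ω ∈ G m → Φ (m + 1) ω ≤ ξ ω + Φ m (θ ω))
    {S : ℕ → Ω → ℝ} (hS : ∀ J, Integrable (S J) P) {lam : ℝ}
    (hlam : ∀ J : ℕ, J * lam ≤ ∫ ω, S J ω ∂P)
    (h2 : ∀ J m, ∀ᵐ ω ∂P, θ^[J] ω ∈ G m → S J ω ≤ Φ (m + J) ω + Φ m (θ^[J] ω))
    (h3 : ∀ J, ∀ᵐ ω ∂P, S J ω ≤ ∑ j ∈ Finset.range J, ξ (θ^[j] ω))
    {V : ℝ} (hV : 0 ≤ V) {η : ℝ} (hη : 0 < η) :
    ∃ᶠ m in atTop, lam - η ≤ ∫ ω, YG θ G Φ V m ω ∂P := by
  classical
  rw [frequently_atTop]
  intro m₀
  by_contra hcon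
  push Not at hcon
  have hit : ∀ j, MeasurePreserving (θ^[j]) P P := fun j => hθ.iterate j
  -- the truncated increments
  let Y : ℕ → Ω → ℝ := fun m ω => YG θ G Φ V m ω
  have hYm : ∀ m, Measurable (Y m) := fun m =>
    Measurable.ite (hθ.measurable (hGm m))
      (((hΦm _).sub ((hΦm _).comp hθ.measurable)).max measurable_const) measurable_const
  have hYlow : ∀ m ω, -V ≤ Y m ω := by
    intro m ω
    change -V ≤ YG θ G Φ V m ω
    unfold YG
    split_ifs
    · exact le_max_right _ _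
    · exact le_rfl
  have hYint : ∀ m, Integrable (Y m) P := by
    intro m
    refine Integrable.mono' (g := fun ω => ξ ω + V) (hξ.add (integrable_const _))
      (hYm m).aestronglyMeasurable ?_
    filter_upwards [h1 m] with ω h
    have h0 := hξ0 ω
    rw [Real.norm_eq_abs, abs_le]
    constructor
    · have := hYlow m ω
      linarith
    · change YG θ G Φ V m ω ≤ ξ ω + V
      unfold YG
      split_ifs with hg
      · have := h hg
        refine max_le ?_ ?_ <;> linarith
      · linarith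
  have hYj : ∀ m j, Integrable (fun ω => Y m (θ^[j] ω)) P := fun m j =>
    (hit j).integrable_comp_of_integrable (hYint m)
  have hYE : ∀ m j, ∫ ω, Y m (θ^[j] ω) ∂P = ∫ ω, Y m ω ∂P := by
    intro m j
    have h := integral_map (μ := P) (hit j).measurable.aemeasurable
      (f := Y m) (hYm m).aestronglyMeasurable
    rw [(hit j).map_eq] at h
    exact h.symm
  -- constants
  set ξ' : Ω → ℝ := fun ω => ξ ω + V with hξ'
  have hξ'm : Measurable ξ' := hξm.add measurable_const
  have hξ'i : Integrable ξ' P := hξ.add (integrable_const _)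
  obtain ⟨b, hb0, hb⟩ := exists_tail_integral_lt (P := P) hξ'm hξ'i (ε := η / 4) (by positivity)
  have hε : 0 < η / (8 * (b + 1)) := by positivity
  obtain ⟨m₁, hm₁, hm₁'⟩ : ∃ m₁, m₀ ≤ m₁ ∧ P.real (G m₁)ᶜ < η / (8 * (b + 1)) := by
    obtain ⟨m, hm⟩ := ((hGt.eventually (gt_mem_nhds hε)).and (eventually_ge_atTop m₀)).exists
    exact ⟨m, hm.2, hm.1⟩
  obtain ⟨a, ha0, ha⟩ := exists_tail_lt (P := P) (Z := fun ω => 2 * Φ m₁ ω)
    (measurable_const.mul (hΦm m₁)) (ε := η / (8 * (b + 1))) hε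
  obtain ⟨J, hJ⟩ := exists_nat_gt (2 * a / η)
  have hJ' : 2 * a < J * η := by rwa [div_lt_iff₀ hη] at hJ
  -- expectation of the sum
  let Sg : Ω → ℝ := fun ω => ∑ j ∈ Finset.range J, Y (m₁ + J - 1 - j) (θ^[j] ω)
  have hSgint : Integrable Sg P := integrable_finsetSum _ fun j _ => hYj _ _
  have hSgE : ∫ ω, Sg ω ∂P ≤ J * (lam - η) := by
    change ∫ ω, ∑ j ∈ Finset.range J, Y (m₁ + J - 1 - j) (θ^[j] ω) ∂P ≤ _
    rw [integral_finsetSum _ fun j _ => hYj _ _]
    calc ∑ j ∈ Finset.range J, ∫ ω, Y (m₁ + J - 1 - j) (θ^[j] ω) ∂P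
        ≤ ∑ j ∈ Finset.range J, (lam - η) := by
          refine Finset.sum_le_sum fun j hj => ?_
          rw [hYE]
          have hj' := Finset.mem_range.1 hj
          exact (hcon (m₁ + J - 1 - j) (by omega)).le
      _ = J * (lam - η) := by rw [Finset.sum_const, Finset.card_range, nsmul_eq_mul]
  -- pointwise lower bound
  let B : Set Ω := {ω | a < 2 * Φ m₁ ω} ∪ (G m₁)ᶜ
  have hB : MeasurableSet B :=
    (measurableSet_lt measurable_const (measurable_const.mul (hΦm m₁))).union (hGm m₁).compl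
  let A : Set Ω := (θ^[J]) ⁻¹' B
  have hA : MeasurableSet A := (hit J).measurable hB
  have hPA : P.real A < η / (4 * (b + 1)) := by
    have e : P.real A = P.real B := by
      rw [measureReal_def, (hit J).measure_preimage hB.nullMeasurableSet]
      rfl
    rw [e]
    have h5 : P.real B ≤ P.real {ω | a < 2 * Φ m₁ ω} + P.real (G m₁)ᶜ := measureReal_union_le _ _
    have h6 : η / (8 * (b + 1)) + η / (8 * (b + 1)) = η / (4 * (b + 1)) := by
      field_simp; ring
    linarith
  -- propagation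
  have hprop : ∀ᵐ ω ∂P, θ^[J] ω ∈ G m₁ → ∀ j < J, θ^[j + 1] ω ∈ G (m₁ + J - 1 - j) := by
    have h5 : ∀ᵐ ω ∂P, ∀ m j, θ (θ^[j] ω) ∈ G m → θ^[j] ω ∈ G (m + 1) := by
      rw [ae_all_iff]; intro m
      rw [ae_all_iff]; intro j
      exact (hit j).quasiMeasurePreserving.ae (hG m)
    filter_upwards [h5] with ω h5 h6
    have h7 : ∀ i, i ≤ J → θ^[J - i] ω ∈ G (m₁ + i) := by
      intro i
      induction i with
      | zero => intro _; simpa using h6
      | succ i ih =>
        intro hi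
        have h8 := ih (by omega)
        have e : J - i = (J - (i + 1)) + 1 := by omega
        rw [e, Function.iterate_succ_apply'] at h8
        exact h5 _ _ h8
    intro j hj
    have h8 := h7 (J - 1 - j) (by omega)
    have e1 : J - (J - 1 - j) = j + 1 := by omega
    have e2 : m₁ + (J - 1 - j) = m₁ + J - 1 - j := by omega
    rwa [e1, e2] at h8
  -- telescoping
  have htel : ∀ ω, ∀ n ≤ J, ∑ j ∈ Finset.range n,
      (Φ (m₁ + J - j) (θ^[j] ω) - Φ (m₁ + J - 1 - j) (θ^[j + 1] ω)) =
        Φ (m₁ + J) ω - Φ (m₁ + J - n) (θ^[n] ω) := by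
    intro ω n
    induction n with
    | zero => intro _; simp
    | succ n ih =>
      intro hn
      rw [Finset.sum_range_succ, ih (by omega)]
      have e : m₁ + J - 1 - n = m₁ + J - (n + 1) := by omega
      rw [e]
      ring
  have hlow1 : ∀ᵐ ω ∂P, θ^[J] ω ∈ G m₁ → Φ (m₁ + J) ω - Φ m₁ (θ^[J] ω) ≤ Sg ω := by
    filter_upwards [hprop] with ω hp hg
    have h := htel ω J le_rfl
    have e : m₁ + J - J = m₁ := by omega
    rw [e] at h
    rw [← h]
    refine Finset.sum_le_sum fun j hj => ?_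
    have hj' := Finset.mem_range.1 hj
    have e1 : m₁ + J - j = m₁ + J - 1 - j + 1 := by omega
    have e2 : θ^[j + 1] ω = θ (θ^[j] ω) := by rw [Function.iterate_succ_apply']
    have h9 := hp hg j hj'
    rw [e1, e2]
    rw [e2] at h9
    change _ ≤ YG θ G Φ V _ _
    unfold YG
    rw [if_pos h9]
    exact le_max_left _ _
  have hlow2 : ∀ ω, -(J * V) ≤ Sg ω := by
    intro ω
    calc -(J * V) = ∑ j ∈ Finset.range J, (-V) := by
          rw [Finset.sum_const, Finset.card_range, nsmul_eq_mul]; ring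
      _ ≤ Sg ω := Finset.sum_le_sum fun j _ => hYlow _ _
  let X : Ω → ℝ := fun ω => ∑ j ∈ Finset.range J, A.indicator (fun ω => ξ' (θ^[j] ω)) ω
  have hξj : ∀ j, Integrable (fun ω => ξ' (θ^[j] ω)) P := fun j =>
    (hit j).integrable_comp_of_integrable hξ'i
  have hXint : Integrable X P :=
    integrable_finsetSum _ fun j _ => (hξj j).indicator hA
  have hpt : ∀ᵐ ω ∂P, S J ω - a - X ω ≤ Sg ω := by
    filter_upwards [h2 J m₁, h3 J, hlow1] with ω e2 e3 e5
    by_cases hω : ω ∈ A
    · have hX : X ω = ∑ j ∈ Finset.range J, ξ' (θ^[j] ω) :=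
        Finset.sum_congr rfl fun j _ => Set.indicator_of_mem hω _
      have hX2 : X ω = ∑ j ∈ Finset.range J, ξ (θ^[j] ω) + J * V := by
        rw [hX, hξ']
        simp only [Finset.sum_add_distrib, Finset.sum_const, Finset.card_range, nsmul_eq_mul]
      have := hlow2 ω
      linarith
    · have hX : X ω = 0 := Finset.sum_eq_zero fun j _ => Set.indicator_of_notMem hω _
      have hg : θ^[J] ω ∈ G m₁ := by
        by_contra h
        exact hω (Or.inr h)
      have h6 : 2 * Φ m₁ (θ^[J] ω) ≤ a := not_lt.1 fun h => hω (Or.inl h)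
      have := e5 hg
      have := e2 hg
      linarith
  -- expectation of the error
  have hXE : ∫ ω, X ω ∂P ≤ J * (η / 2) := by
    change ∫ ω, ∑ j ∈ Finset.range J, A.indicator (fun ω => ξ' (θ^[j] ω)) ω ∂P ≤ _
    rw [integral_finsetSum _ fun j _ => (hξj j).indicator hA]
    have hj : ∀ j ∈ Finset.range J, ∫ ω, A.indicator (fun ω => ξ' (θ^[j] ω)) ω ∂P ≤ η / 2 := by
      intro j _
      have hpt2 : ∀ ω, A.indicator (fun ω => ξ' (θ^[j] ω)) ω ≤
          {ω | b < ξ' ω}.indicator ξ' (θ^[j] ω) + b * A.indicator (fun _ => (1 : ℝ)) ω := by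
        intro ω
        have h0 : 0 ≤ ξ' (θ^[j] ω) := add_nonneg (hξ0 _) hV
        by_cases hω : ω ∈ A
        · rw [Set.indicator_of_mem hω, Set.indicator_of_mem hω]
          by_cases hbx : b < ξ' (θ^[j] ω)
          · rw [Set.indicator_of_mem (show θ^[j] ω ∈ {ω | b < ξ' ω} from hbx)]
            linarith
          · rw [Set.indicator_of_notMem (show θ^[j] ω ∉ {ω | b < ξ' ω} from hbx)]
            linarith [not_lt.1 hbx]
        · rw [Set.indicator_of_notMem hω, Set.indicator_of_notMem hω, mul_zero, add_zero]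
          by_cases hbx : b < ξ' (θ^[j] ω)
          · rw [Set.indicator_of_mem (show θ^[j] ω ∈ {ω | b < ξ' ω} from hbx)]
            linarith
          · rw [Set.indicator_of_notMem (show θ^[j] ω ∉ {ω | b < ξ' ω} from hbx)]
      have hmsb : MeasurableSet {ω | b < ξ' ω} := measurableSet_lt measurable_const hξ'm
      have i1 : Integrable ({ω | b < ξ' ω}.indicator ξ') P := hξ'i.indicator hmsb
      have i2 : Integrable (fun ω => {ω | b < ξ' ω}.indicator ξ' (θ^[j] ω)) P :=
        (hit j).integrable_comp_of_integrable i1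
      have i3 : Integrable (fun ω => b * A.indicator (fun _ => (1 : ℝ)) ω) P :=
        ((integrable_const (1 : ℝ)).indicator hA).const_mul b
      have e1 : ∫ ω, {ω | b < ξ' ω}.indicator ξ' (θ^[j] ω) ∂P =
          ∫ ω, {ω | b < ξ' ω}.indicator ξ' ω ∂P := by
        have h := integral_map (μ := P) (hit j).measurable.aemeasurable
          (f := {ω | b < ξ' ω}.indicator ξ') (hξ'm.indicator hmsb).aestronglyMeasurable
        rw [(hit j).map_eq] at h
        exact h.symm
      calc ∫ ω, A.indicator (fun ω => ξ' (θ^[j] ω)) ω ∂P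
          ≤ ∫ ω, ({ω | b < ξ' ω}.indicator ξ' (θ^[j] ω) +
              b * A.indicator (fun _ => (1 : ℝ)) ω) ∂P :=
            integral_mono ((hξj j).indicator hA) (i2.add i3) hpt2
        _ = ∫ ω, {ω | b < ξ' ω}.indicator ξ' ω ∂P + b * P.real A := by
            rw [integral_add i2 i3, e1, integral_const_mul, integral_indicator_const _ hA]
            simp
        _ ≤ η / 4 + b * (η / (4 * (b + 1))) := by
            gcongr
        _ ≤ η / 2 := by
            have : b * (η / (4 * (b + 1))) ≤ η / 4 := by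
              rw [mul_div_assoc', div_le_div_iff₀ (by positivity) (by norm_num)]
              nlinarith
            linarith
    calc _ ≤ ∑ j ∈ Finset.range J, η / 2 := Finset.sum_le_sum hj
      _ = J * (η / 2) := by rw [Finset.sum_const, Finset.card_range, nsmul_eq_mul]
  have hfin : J * lam - a - J * (η / 2) ≤ J * (lam - η) := by
    have i1 : Integrable (fun ω => S J ω - a) P := (hS J).sub (integrable_const _)
    have h4 : ∫ ω, (S J ω - a - X ω) ∂P ≤ ∫ ω, Sg ω ∂P :=
      integral_mono_ae (i1.sub hXint) hSgint hpt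
    rw [integral_sub i1 hXint, integral_sub (hS J) (integrable_const _), integral_const] at h4
    simp only [probReal_univ, smul_eq_mul, one_mul] at h4
    have := hlam J
    linarith
  nlinarith

end C7
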