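import Mathlib
import Pool.Agent.Lib.MP_c725eb_pr.Sym
import Pool.Agent.Lib.MP_c725eb_pr.CoalPre

/-!
# Time constants

`rho σ F K x` is the time constant in the direction `x`, defined with the vertices of the curves of
the system `σ`.  It does not depend on `σ`, it is a symmetric subadditive homogeneous function, and
it is also the time constant of the passage times restricted to the regions.
-/

set_option autoImplicit false

namespace C7

open MeasureTheory ProbabilityTheory Filter Set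
open scoped ENNReal Topology

/-! ### good points -/

theorem ln_add (σ : ℤ) (x y : V) : ln σ (x + y) = ln σ x + ln σ y := by
  unfold ln; simp only [Prod.fst_add, Prod.snd_add]; ring

theorem ix_add (σ : ℤ) (x y : V) : ix σ (x + y) = ix σ x + ix σ y := by
  unfold ix; simp only [Prod.fst_add, Prod.snd_add]; ring

theorem ln_neg (σ : ℤ) (x : V) : ln σ (-x) = -ln σ x := by
  unfold ln; simp only [Prod.fst_neg, Prod.snd_neg]; ring

theorem ix_neg (σ : ℤ) (x : V) : ix σ (-x) = -ix σ x := by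
  unfold ix; simp only [Prod.fst_neg, Prod.snd_neg]; ring

theorem ln_zero (σ : ℤ) : ln σ (0 : V) = 0 := by unfold ln; simp

theorem ix_zero (σ : ℤ) : ix σ (0 : V) = 0 := by unfold ix; simp

theorem tr_eq_add (s v : V) : tr s v = v + s := rfl

/-- The vertex of index `ix σ x` of the curve of the line of `x`. -/
noncomputable def op (σ : ℤ) (K : ℝ≥0∞) (x : V) (ω : Om) : V :=
  pk σ (wt ω) K (ln σ x) (ix σ x)

theorem measurable_op (σ : ℤ) (K : ℝ≥0∞) (x : V) : Measurable (op σ K x) :=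
  measurable_pk_wt σ K _ _

section cov

variable {σ : ℤ} (hσ : σ = 0 ∨ σ = 1) {K : ℝ≥0∞}
include hσ

theorem op_shO (s x : V) (ω : Om) : tr s (op σ K x (shO s ω)) = op σ K (x + s) ω := by
  unfold op
  rw [wt_shO]
  have h := pk_sh (w := wt ω) (K := K) hσ s (ln σ x + ln σ s) (ix σ x)
  rw [add_sub_cancel_right] at h
  rw [h, ln_add, ix_add]
  unfold tr
  simp

theorem pk_shO (s : V) (k i : ℤ) (ω : Om) :
    tr s (pk σ (wt (shO s ω)) K k i) = pk σ (wt ω) K (k + ln σ s) (i + ix σ s) := by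
  rw [wt_shO]
  have h := pk_sh (w := wt ω) (K := K) hσ s (k + ln σ s) i
  rw [add_sub_cancel_right] at h
  rw [h]
  unfold tr
  simp

theorem image_Rg (s : V) (k : ℤ) (ω : Om) :
    tr s '' Rg σ (wt (shO s ω)) K k = Rg σ (wt ω) K (k + ln σ s) := by
  rw [wt_shO]
  ext x
  have h := mem_Rg_sh (w := wt ω) (K := K) hσ s (k + ln σ s)
  simp only [add_sub_cancel_right] at h
  constructor
  · rintro ⟨y, hy, rfl⟩
    exact (h y).1 hy
  · intro hx
    refine ⟨tr (-s.1, -s.2) x, (h _).2 ?_, tr_tr' s x⟩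
    have e : ((tr (-s.1, -s.2) x).1 + s.1, (tr (-s.1, -s.2) x).2 + s.2) = x := tr_tr' s x
    rw [e]; exact hx

omit hσ in
theorem T_shO (s : V) (D : Set V) (x y : V) (ω : Om) :
    T (wt (shO s ω)) D x y = T (wt ω) (tr s '' D) (tr s x) (tr s y) := by
  rw [wt_shO, T_sh]

omit hσ in
theorem image_tr_univ (s : V) : tr s '' (univ : Set V) = univ := by
  rw [image_univ]
  exact range_eq_univ.2 fun x => ⟨tr (-s.1, -s.2) x, tr_tr' s x⟩

end cov

/-- Passage time between good points in the full plane. -/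
noncomputable def tf (σ : ℤ) (K : ℝ≥0∞) (x y : V) (ω : Om) : ℝ≥0∞ :=
  T (wt ω) univ (op σ K x ω) (op σ K y ω)

/-- Passage time between good points in the region of the line `k`. -/
noncomputable def tg (σ : ℤ) (K : ℝ≥0∞) (k : ℤ) (x y : V) (ω : Om) : ℝ≥0∞ :=
  T (wt ω) (Rg σ (wt ω) K k) (op σ K x ω) (op σ K y ω)

theorem measurable_tf (σ : ℤ) (K : ℝ≥0∞) (x y : V) : Measurable (tf σ K x y) :=
  measurable_T measurable_wt3 (D := fun _ => univ) (fun v => by simp) (measurable_op σ K x)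
    (measurable_op σ K y)

theorem measurable_tg (σ : ℤ) (K : ℝ≥0∞) (k : ℤ) (x y : V) : Measurable (tg σ K k x y) :=
  measurable_T measurable_wt3 (fun v => measurableSet_mem_Rg_wt σ K k v) (measurable_op σ K x)
    (measurable_op σ K y)

section

variable {σ : ℤ} {K : ℝ≥0∞}

theorem tf_comm (x y : V) (ω : Om) : tf σ K x y ω = tf σ K y x ω := T_comm _ _ _ _

theorem tg_comm (k : ℤ) (x y : V) (ω : Om) : tg σ K k x y ω = tg σ K k y x ω := T_comm _ _ _ _

theorem tf_triangle (x y z : V) (ω : Om) : tf σ K x z ω ≤ tf σ K x y ω + tf σ K y z ω :=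
  T_triangle _ _ _ _ _

theorem tg_triangle (k : ℤ) (x y z : V) (ω : Om) :
    tg σ K k x z ω ≤ tg σ K k x y ω + tg σ K k y z ω := T_triangle _ _ _ _ _

theorem tf_le_tg (k : ℤ) (x y : V) (ω : Om) : tf σ K x y ω ≤ tg σ K k x y ω :=
  T_mono (subset_univ _) _ _

theorem tg_anti (hσ : σ = 0 ∨ σ = 1) {ω : Om} (hg : Good σ (wt ω) K) {k l : ℤ} (h : k ≤ l)
    (x y : V) : tg σ K k x y ω ≤ tg σ K l x y ω := T_mono (Rg_anti hσ hg h) _ _

theorem tf_shO (hσ : σ = 0 ∨ σ = 1) (s x y : V) (ω : Om) :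
    tf σ K x y (shO s ω) = tf σ K (x + s) (y + s) ω := by
  unfold tf
  rw [T_shO, op_shO hσ, op_shO hσ, image_tr_univ]

theorem tg_shO (hσ : σ = 0 ∨ σ = 1) (s : V) (k : ℤ) (x y : V) (ω : Om) :
    tg σ K k x y (shO s ω) = tg σ K (k + ln σ s) (x + s) (y + s) ω := by
  unfold tg
  rw [T_shO, op_shO hσ, op_shO hσ, image_Rg hσ]

end

section integrals

variable {F : Measure ℝ} [IsProbabilityMeasure F] {K : ℝ≥0∞} {σ : ℤ}

theorem lintegral_shO {f : Om → ℝ≥0∞} (hf : Measurable f) (s : V) :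
    ∫⁻ ω, f (shO s ω) ∂(iid Ed F) = ∫⁻ ω, f ω ∂(iid Ed F) :=
  (measurePreserving_shO F s).lintegral_comp hf

theorem lintegral_tf_shift (hσ : σ = 0 ∨ σ = 1) (s x y : V) :
    ∫⁻ ω, tf σ K (x + s) (y + s) ω ∂(iid Ed F) = ∫⁻ ω, tf σ K x y ω ∂(iid Ed F) := by
  rw [← lintegral_shO (measurable_tf σ K x y) s]
  exact lintegral_congr fun ω => (tf_shO hσ s x y ω).symm

theorem lintegral_tg_shift (hσ : σ = 0 ∨ σ = 1) (s : V) (k : ℤ) (x y : V) :
    ∫⁻ ω, tg σ K (k + ln σ s) (x + s) (y + s) ω ∂(iid Ed F) =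
      ∫⁻ ω, tg σ K k x y ω ∂(iid Ed F) := by
  rw [← lintegral_shO (measurable_tg σ K k x y) s]
  exact lintegral_congr fun ω => (tg_shO hσ s k x y ω).symm

theorem tg_fin (hK : SmallK F K) (hσ : σ = 0 ∨ σ = 1) {k : ℤ} {x y : V} (hx : k ≤ ln σ x)
    (hy : k ≤ ln σ y) : ∫⁻ ω, tg σ K k x y ω ∂(iid Ed F) ≠ ⊤ := by
  have key : ∀ x y : V, k ≤ ln σ x → ln σ x ≤ ln σ y →
      ∫⁻ ω, tg σ K k x y ω ∂(iid Ed F) ≠ ⊤ := by
    intro x y hx hxy
    have h1 : ∫⁻ ω, tg σ K k x y ω ∂(iid Ed F) ≤ ∫⁻ ω, tg σ K (ln σ x) x y ω ∂(iid Ed F) :=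
      lintegral_mono_ae ((ae_good_wt hK hσ).mono fun ω hg => tg_anti hσ hg hx x y)
    refine ne_top_of_le_ne_top ?_ h1
    have h2 := lintegral_tg_shift (F := F) (K := K) hσ x 0 0 (y - x)
    rw [zero_add, zero_add, sub_add_cancel] at h2
    rw [h2]
    obtain ⟨n, hn⟩ : ∃ n : ℕ, (n : ℤ) = ln σ (y - x) := by
      refine ⟨(ln σ (y - x)).toNat, Int.toNat_of_nonneg ?_⟩
      rw [sub_eq_add_neg, ln_add, ln_neg]
      omega
    have h3 := lintegral_T_ne_top hK hσ n 0 (ix σ (y - x))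
    rw [hn] at h3
    have e : ∀ ω : Om, tg σ K 0 0 (y - x) ω = T (wt ω) (Rg σ (wt ω) K 0) (pk σ (wt ω) K 0 0)
        (pk σ (wt ω) K (ln σ (y - x)) (ix σ (y - x))) := fun ω => by
      unfold tg op
      rw [ln_zero, ix_zero]
    simpa only [e] using h3
  rcases le_total (ln σ x) (ln σ y) with h | h
  · exact key x y hx h
  · have h1 := key y x hy h
    simpa only [tg_comm k y x] using h1

theorem tf_fin (hK : SmallK F K) (hσ : σ = 0 ∨ σ = 1) (x y : V) :
    ∫⁻ ω, tf σ K x y ω ∂(iid Ed F) ≠ ⊤ :=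
  ne_top_of_le_ne_top (tg_fin hK hσ (k := min (ln σ x) (ln σ y)) (min_le_left _ _)
    (min_le_right _ _)) (lintegral_mono fun _ => tf_le_tg _ _ _ _)

end integrals

/-! ### the time constant -/

/-- Mean passage time. -/
noncomputable def em (σ : ℤ) (F : Measure ℝ) (K : ℝ≥0∞) (x : V) : ℝ :=
  (∫⁻ ω, tf σ K 0 x ω ∂(iid Ed F)).toReal

/-- Mean passage time in the region of the line `k`. -/
noncomputable def eg (σ : ℤ) (F : Measure ℝ) (K : ℝ≥0∞) (k : ℤ) (x : V) : ℝ :=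
  (∫⁻ ω, tg σ K k 0 x ω ∂(iid Ed F)).toReal

/-- The time constant. -/
noncomputable def rho (σ : ℤ) (F : Measure ℝ) (K : ℝ≥0∞) (x : V) : ℝ :=
  sInf ((fun n : ℕ => em σ F K (n • x) / n) '' Ici 1)

section rho

variable {F : Measure ℝ} [IsProbabilityMeasure F] {K : ℝ≥0∞} (hK : SmallK F K) {σ : ℤ}
  (hσ : σ = 0 ∨ σ = 1)

omit [IsProbabilityMeasure F] in
theorem em_nonneg (x : V) : 0 ≤ em σ F K x := ENNReal.toReal_nonneg

include hK hσ

theorem em_add_le (x y : V) : em σ F K (x + y) ≤ em σ F K x + em σ F K y := by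
  unfold em
  rw [← ENNReal.toReal_add (tf_fin hK hσ _ _) (tf_fin hK hσ _ _)]
  refine ENNReal.toReal_mono (ENNReal.add_ne_top.2 ⟨tf_fin hK hσ _ _, tf_fin hK hσ _ _⟩) ?_
  have h1 := lintegral_tf_shift (F := F) (K := K) hσ x 0 y
  rw [zero_add, add_comm y x] at h1
  rw [← h1, ← lintegral_add_left (measurable_tf σ K 0 x)]
  exact lintegral_mono fun ω => tf_triangle _ _ _ _

omit hK in
theorem em_neg (x : V) : em σ F K (-x) = em σ F K x := by
  unfold em
  congr 1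
  have h1 := lintegral_tf_shift (F := F) (K := K) hσ x 0 (-x)
  rw [zero_add, neg_add_cancel] at h1
  rw [← h1]
  exact lintegral_congr fun ω => tf_comm _ _ _

omit [IsProbabilityMeasure F] hK hσ in
theorem em_zero : em σ F K 0 = 0 := by
  unfold em
  have e : ∀ ω : Om, tf σ K 0 0 ω = 0 := fun ω => T_self _ (mem_univ _)
  simp only [e, lintegral_zero, ENNReal.toReal_zero]

theorem em_subadditive (x : V) : Subadditive fun n : ℕ => em σ F K (n • x) := by
  intro m n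
  simp only [add_smul]
  exact em_add_le hK hσ _ _

omit [IsProbabilityMeasure F] hK hσ in
theorem em_bdd (x : V) : BddBelow (range fun n : ℕ => em σ F K (n • x) / n) := by
  refine ⟨0, ?_⟩
  rintro _ ⟨n, rfl⟩
  exact div_nonneg (em_nonneg _) (Nat.cast_nonneg n)

omit [IsProbabilityMeasure F] hK hσ in
theorem lim_eq_rho {x : V} (h : Subadditive fun n : ℕ => em σ F K (n • x)) :
    h.lim = rho σ F K x := by
  rw [Subadditive.lim]
  rfl

theorem tendsto_rho (x : V) :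
    Tendsto (fun n : ℕ => em σ F K (n • x) / n) atTop (𝓝 (rho σ F K x)) := by
  rw [← lim_eq_rho (em_subadditive hK hσ x)]
  exact (em_subadditive hK hσ x).tendsto_lim (em_bdd x)

theorem mul_rho_le (x : V) (n : ℕ) : n * rho σ F K x ≤ em σ F K (n • x) := by
  rcases Nat.eq_zero_or_pos n with rfl | hn
  · simp only [Nat.cast_zero, zero_mul]
    exact em_nonneg _
  · have h := (em_subadditive hK hσ x).lim_le_div (em_bdd x) hn.ne'
    rw [lim_eq_rho] at h
    have hn' : (0 : ℝ) < n := by exact_mod_cast hn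
    rw [mul_comm]
    exact (le_div_iff₀ hn').1 h

theorem rho_le_em (x : V) : rho σ F K x ≤ em σ F K x := by
  have := mul_rho_le hK hσ x 1
  simpa using this

theorem rho_nonneg (x : V) : 0 ≤ rho σ F K x :=
  ge_of_tendsto' (tendsto_rho hK hσ x) fun n => div_nonneg (em_nonneg _) (Nat.cast_nonneg n)

theorem rho_add_le (x y : V) : rho σ F K (x + y) ≤ rho σ F K x + rho σ F K y := by
  refine le_of_tendsto_of_tendsto' (tendsto_rho hK hσ (x + y))
    ((tendsto_rho hK hσ x).add (tendsto_rho hK hσ y)) fun n => ?_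
  rw [smul_add, ← add_div]
  exact div_le_div_of_nonneg_right (em_add_le hK hσ _ _) (Nat.cast_nonneg n)

theorem rho_nsmul (m : ℕ) (x : V) : rho σ F K (m • x) = m * rho σ F K x := by
  rcases Nat.eq_zero_or_pos m with rfl | hm
  · have h := tendsto_rho hK hσ (0 : V)
    simp only [smul_zero, em_zero, zero_div] at h
    have h2 := tendsto_nhds_unique h tendsto_const_nhds
    rw [zero_smul, h2]; simp
  · have hm' : (0 : ℝ) < m := by exact_mod_cast hm
    have h1 := (tendsto_rho hK hσ x).comp (tendsto_id.const_mul_atTop' hm (f := fun n : ℕ => n))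
    have h2 := h1.const_mul (m : ℝ)
    refine tendsto_nhds_unique (tendsto_rho hK hσ (m • x)) (h2.congr fun n => ?_)
    simp only [Function.comp]
    rw [smul_smul, mul_comm n m]
    rcases Nat.eq_zero_or_pos n with rfl | hn
    · simp
    · have hn' : (0 : ℝ) < n := by exact_mod_cast hn
      push_cast
      field_simp

theorem rho_neg (x : V) : rho σ F K (-x) = rho σ F K x := by
  refine tendsto_nhds_unique (tendsto_rho hK hσ (-x)) ((tendsto_rho hK hσ x).congr fun n => ?_)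
  rw [smul_neg, em_neg hσ]

omit hK in
/-- Invariance under the reflection of the system. -/
theorem em_rf (x : V) : em σ F K (rf σ x) = em σ F K x := by
  unfold em
  congr 1
  rw [← (measurePreserving_gO F (aut_rf hσ)).lintegral_comp (measurable_tf σ K 0 x)]
  refine lintegral_congr fun ω => ?_
  unfold tf op
  rw [wt_gO_rf hσ, pk_rfw hσ, pk_rfw hσ, rfw_eq_gw, T_gw_univ (aut_rf hσ) (fun v => wt_two ω v),
    rf_rf hσ, rf_rf hσ, ln_rf hσ, ix_rf hσ, ln_zero, ix_zero, neg_zero]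

theorem rho_rf (x : V) : rho σ F K (rf σ x) = rho σ F K x := by
  refine tendsto_nhds_unique (tendsto_rho hK hσ (rf σ x))
    ((tendsto_rho hK hσ x).congr fun n => ?_)
  have e : n • rf σ x = rf σ (n • x) := by
    rcases hσ with rfl | rfl
    · rw [rf_zero, rf_zero]
      ext <;> simp
    · rw [rf_one, rf_one]
      ext <;> simp
  rw [e, em_rf hσ]

end rho

section compare

variable {F : Measure ℝ} [IsProbabilityMeasure F] {K : ℝ≥0∞} (hK : SmallK F K)
include hK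

/-- The distance between the good points of the two systems. -/
theorem exists_cmp : ∃ c : ℝ, ∀ x : V, em 1 F K x ≤ em 0 F K x + c ∧ em 0 F K x ≤ em 1 F K x + c := by
  have h0 : (0 : ℤ) = 0 ∨ (0 : ℤ) = 1 := Or.inl rfl
  have h1 : (1 : ℤ) = 0 ∨ (1 : ℤ) = 1 := Or.inr rfl
  set P := iid Ed F with hP
  let dd : V → Om → ℝ≥0∞ := fun x ω => T (wt ω) univ (op 0 K x ω) (op 1 K x ω)
  have hdm : ∀ x, Measurable (dd x) := fun x =>
    measurable_T measurable_wt3 (D := fun _ => univ) (fun v => by simp) (measurable_op 0 K x)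
      (measurable_op 1 K x)
  have hd0 : ∫⁻ ω, dd 0 ω ∂P ≠ ⊤ := by
    have h := lintegral_T_cross_ne_top hK
    have e : ∀ ω : Om, dd 0 ω = T (wt ω) univ (pk 0 (wt ω) K 0 0) (pk 1 (wt ω) K 0 0) := fun ω => by
      change T _ _ (op 0 K 0 ω) (op 1 K 0 ω) = _
      unfold op
      rw [ln_zero, ix_zero, ln_zero, ix_zero]
    simpa only [e] using h
  have hds : ∀ x, ∫⁻ ω, dd x ω ∂P = ∫⁻ ω, dd 0 ω ∂P := by
    intro x
    rw [hP, ← lintegral_shO (hdm 0) x]
    refine lintegral_congr fun ω => ?_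
    change T (wt ω) univ (op 0 K x ω) (op 1 K x ω) =
      T (wt (shO x ω)) univ (op 0 K 0 (shO x ω)) (op 1 K 0 (shO x ω))
    rw [T_shO, op_shO h0, op_shO h1, image_tr_univ, zero_add]
  refine ⟨((∫⁻ ω, dd 0 ω ∂P) + ∫⁻ ω, dd 0 ω ∂P).toReal, fun x => ?_⟩
  have htop : (∫⁻ ω, dd 0 ω ∂P) + ∫⁻ ω, dd 0 ω ∂P ≠ ⊤ := ENNReal.add_ne_top.2 ⟨hd0, hd0⟩
  constructor
  · unfold em
    rw [← ENNReal.toReal_add (tf_fin hK h0 _ _) htop]
    refine ENNReal.toReal_mono (ENNReal.add_ne_top.2 ⟨tf_fin hK h0 _ _, htop⟩) ?_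
    have e2 : (∫⁻ ω, dd 0 ω ∂P) + ∫⁻ ω, dd 0 ω ∂P = (∫⁻ ω, dd 0 ω ∂P) + ∫⁻ ω, dd x ω ∂P := by
      rw [hds x]
    rw [e2, ← lintegral_add_left (hdm 0), ← lintegral_add_left (measurable_tf 0 K 0 x)]
    refine lintegral_mono fun ω => ?_
    change T (wt ω) univ (op 1 K 0 ω) (op 1 K x ω) ≤ T (wt ω) univ (op 0 K 0 ω) (op 0 K x ω) +
      (T (wt ω) univ (op 0 K 0 ω) (op 1 K 0 ω) + T (wt ω) univ (op 0 K x ω) (op 1 K x ω))
    calc T (wt ω) univ (op 1 K 0 ω) (op 1 K x ω)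
        ≤ T (wt ω) univ (op 1 K 0 ω) (op 0 K 0 ω) + (T (wt ω) univ (op 0 K 0 ω) (op 0 K x ω) +
          T (wt ω) univ (op 0 K x ω) (op 1 K x ω)) :=
          (T_triangle _ _ _ _ _).trans (add_le_add le_rfl (T_triangle _ _ _ _ _))
      _ = _ := by
          rw [T_comm (wt ω) univ (op 1 K 0 ω) (op 0 K 0 ω)]
          ring
  · unfold em
    rw [← ENNReal.toReal_add (tf_fin hK h1 _ _) htop]
    refine ENNReal.toReal_mono (ENNReal.add_ne_top.2 ⟨tf_fin hK h1 _ _, htop⟩) ?_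
    have e2 : (∫⁻ ω, dd 0 ω ∂P) + ∫⁻ ω, dd 0 ω ∂P = (∫⁻ ω, dd 0 ω ∂P) + ∫⁻ ω, dd x ω ∂P := by
      rw [hds x]
    rw [e2, ← lintegral_add_left (hdm 0), ← lintegral_add_left (measurable_tf 1 K 0 x)]
    refine lintegral_mono fun ω => ?_
    change T (wt ω) univ (op 0 K 0 ω) (op 0 K x ω) ≤ T (wt ω) univ (op 1 K 0 ω) (op 1 K x ω) +
      (T (wt ω) univ (op 0 K 0 ω) (op 1 K 0 ω) + T (wt ω) univ (op 0 K x ω) (op 1 K x ω))
    calc T (wt ω) univ (op 0 K 0 ω) (op 0 K x ω)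
        ≤ T (wt ω) univ (op 0 K 0 ω) (op 1 K 0 ω) + (T (wt ω) univ (op 1 K 0 ω) (op 1 K x ω) +
          T (wt ω) univ (op 1 K x ω) (op 0 K x ω)) :=
          (T_triangle _ _ _ _ _).trans (add_le_add le_rfl (T_triangle _ _ _ _ _))
      _ = _ := by
          rw [T_comm (wt ω) univ (op 1 K x ω) (op 0 K x ω)]
          ring

/-- The time constant does not depend on the system. -/
theorem rho_eq (x : V) : rho 1 F K x = rho 0 F K x := by
  obtain ⟨c, hc⟩ := exists_cmp hK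
  have hz : Tendsto (fun n : ℕ => c / (n : ℝ)) atTop (𝓝 0) :=
    tendsto_const_div_atTop_nhds_zero_nat c
  have t0 := tendsto_rho hK (Or.inl rfl : (0 : ℤ) = 0 ∨ (0 : ℤ) = 1) x
  have t1 := tendsto_rho hK (Or.inr rfl : (1 : ℤ) = 0 ∨ (1 : ℤ) = 1) x
  apply le_antisymm
  · have t2 := t0.add hz
    rw [add_zero] at t2
    refine le_of_tendsto_of_tendsto' t1 t2 fun n => ?_
    rw [← add_div]
    exact div_le_div_of_nonneg_right (hc _).1 (Nat.cast_nonneg n)
  · have t2 := t1.add hz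
    rw [add_zero] at t2
    refine le_of_tendsto_of_tendsto' t0 t2 fun n => ?_
    rw [← add_div]
    exact div_le_div_of_nonneg_right (hc _).2 (Nat.cast_nonneg n)

theorem rho_sys {σ τ : ℤ} (hσ : σ = 0 ∨ σ = 1) (hτ : τ = 0 ∨ τ = 1) (x : V) :
    rho σ F K x = rho τ F K x := by
  rcases hσ with rfl | rfl <;> rcases hτ with rfl | rfl <;>
    first | rfl | exact rho_eq hK x | exact (rho_eq hK x).symm

/-- All lattice symmetries. -/
theorem rho_swap {σ : ℤ} (hσ : σ = 0 ∨ σ = 1) (a b : ℤ) : rho σ F K (b, a) = rho σ F K (a, b) := by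
  have h1 : (1 : ℤ) = 0 ∨ (1 : ℤ) = 1 := Or.inr rfl
  rw [rho_sys hK hσ h1, rho_sys hK hσ h1]
  have := rho_rf hK h1 ((a, b) : V)
  rwa [rf_one] at this

theorem rho_neg_snd {σ : ℤ} (hσ : σ = 0 ∨ σ = 1) (a b : ℤ) :
    rho σ F K (a, -b) = rho σ F K (a, b) := by
  have h0 : (0 : ℤ) = 0 ∨ (0 : ℤ) = 1 := Or.inl rfl
  rw [rho_sys hK hσ h0, rho_sys hK hσ h0]
  have := rho_rf hK h0 ((a, b) : V)
  rwa [rf_zero] at this

theorem rho_neg_fst {σ : ℤ} (hσ : σ = 0 ∨ σ = 1) (a b : ℤ) :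
    rho σ F K (-a, b) = rho σ F K (a, b) := by
  rw [rho_swap hK hσ b (-a), rho_neg_snd hK hσ, rho_swap hK hσ]

theorem rho_abs {σ : ℤ} (hσ : σ = 0 ∨ σ = 1) (a b : ℤ) :
    rho σ F K (|a|, |b|) = rho σ F K (a, b) := by
  rcases abs_choice a with h | h <;> rcases abs_choice b with h' | h' <;> rw [h, h']
  · rw [rho_neg_snd hK hσ]
  · rw [rho_neg_fst hK hσ]
  · rw [rho_neg_fst hK hσ, rho_neg_snd hK hσ]

end compare

/-! ### regions -/

/-- Passage times in an increasing union. -/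
theorem T_iUnion (w : W) {D : ℕ → Set V} (hD : Monotone D) (x y : V) :
    T w (⋃ n, D n) x y = ⨅ n, T w (D n) x y := by
  apply le_antisymm
  · exact le_iInf fun n => T_mono (subset_iUnion D n) _ _
  · refine le_T fun l hl => ?_
    have h1 : ∃ n, ∀ v ∈ l, v ∈ D n := by
      have h2 : ∀ l : List V, (∀ v ∈ l, v ∈ ⋃ n, D n) → ∃ n, ∀ v ∈ l, v ∈ D n := by
        intro l
        induction l with
        | nil => intro _; exact ⟨0, by simp⟩
        | cons a l ih =>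
          intro h
          obtain ⟨n, hn⟩ := ih fun v hv => h v (List.mem_cons_of_mem _ hv)
          obtain ⟨m, hm⟩ := mem_iUnion.1 (h a (by simp))
          refine ⟨max m n, fun v hv => ?_⟩
          rcases List.mem_cons.1 hv with rfl | hv
          · exact hD (le_max_left _ _) hm
          · exact hD (le_max_right _ _) (hn v hv)
      exact h2 l hl.2.2
    obtain ⟨n, hn⟩ := h1
    exact (iInf_le _ n).trans (T_le ⟨hl.1, hl.2.1, hn⟩)

theorem iUnion_Rg {σ : ℤ} (hσ : σ = 0 ∨ σ = 1) {w : W} {K : ℝ≥0∞}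
    (h : ∀ i c : ℤ, ∃ k, ∀ k' ≤ k, ln σ (pk σ w K k' i) < c) :
    (⋃ n : ℕ, Rg σ w K (-n)) = univ := by
  refine eq_univ_of_forall fun x => ?_
  obtain ⟨k, hk⟩ := h (ix σ x) (ln σ x)
  refine mem_iUnion.2 ⟨k.natAbs, ?_⟩
  exact (mem_reg_iff_ln hσ _ _).2 (hk (-(k.natAbs : ℤ)) (by omega)).le

section region

variable {F : Measure ℝ} [IsProbabilityMeasure F] {K : ℝ≥0∞} (hK : SmallK F K) {σ : ℤ}
  (hσ : σ = 0 ∨ σ = 1)

omit [IsProbabilityMeasure F] in
theorem eg_nonneg (k : ℤ) (x : V) : 0 ≤ eg σ F K k x := ENNReal.toReal_nonneg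

include hK hσ

theorem em_le_eg {k : ℤ} {x : V} (h0 : k ≤ 0) (hx : k ≤ ln σ x) : em σ F K x ≤ eg σ F K k x :=
  ENNReal.toReal_mono (tg_fin hK hσ (by rw [ln_zero]; exact h0) hx)
    (lintegral_mono fun _ => tf_le_tg _ _ _ _)

/-- The regions of the lines far to the left. -/
theorem tendsto_eg (x : V) : ∀ ε > 0, ∃ M : ℕ, -(M : ℤ) ≤ ln σ x ∧
    eg σ F K (-M) x ≤ em σ F K x + ε := by
  intro ε hε
  -- start at `k0`
  obtain ⟨k0, hk0⟩ : ∃ k0 : ℕ, -(k0 : ℤ) ≤ ln σ x := ⟨(ln σ x).natAbs, by omega⟩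
  have h1 := lintegral_iInf_ae (μ := iid Ed F) (f := fun n ω => tg σ K (-((k0 + n : ℕ) : ℤ)) 0 x ω)
    (fun n => measurable_tg _ _ _ _ _) (fun n => (ae_good_wt hK hσ).mono fun ω hg =>
      tg_anti hσ hg (by push_cast; omega) 0 x)
    (tg_fin hK hσ (by rw [ln_zero]; omega) (by simpa using hk0))
  have h2 : ∫⁻ ω, ⨅ n : ℕ, tg σ K (-((k0 + n : ℕ) : ℤ)) 0 x ω ∂(iid Ed F) =
      ∫⁻ ω, tf σ K 0 x ω ∂(iid Ed F) := by
    refine lintegral_congr_ae ?_
    filter_upwards [ae_good_wt hK hσ, ae_left hσ (ae_good_wt hK hσ)] with ω hg hl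
    have hU := iUnion_Rg hσ hl
    have hmono : Monotone fun n : ℕ => Rg σ (wt ω) K (-((k0 + n : ℕ) : ℤ)) := fun m n hmn =>
      Rg_anti hσ hg (by push_cast; omega)
    have hU' : (⋃ n : ℕ, Rg σ (wt ω) K (-((k0 + n : ℕ) : ℤ))) = univ := by
      refine eq_univ_of_univ_subset ?_
      rw [← hU]
      refine iUnion_subset fun n => ?_
      exact (Rg_anti hσ hg (by push_cast; omega)).trans
        (subset_iUnion (fun n : ℕ => Rg σ (wt ω) K (-((k0 + n : ℕ) : ℤ))) n)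
    have h3 := T_iUnion (wt ω) hmono (op σ K 0 ω) (op σ K x ω)
    rw [hU'] at h3
    exact h3.symm
  rw [h2] at h1
  have hfin := tf_fin hK hσ (0 : V) x
  have h4 : ⨅ n : ℕ, ∫⁻ ω, tg σ K (-((k0 + n : ℕ) : ℤ)) 0 x ω ∂(iid Ed F) <
      ∫⁻ ω, tf σ K 0 x ω ∂(iid Ed F) + ENNReal.ofReal ε := by
    rw [← h1]
    exact ENNReal.lt_add_right hfin (by simpa using hε)
  obtain ⟨n, hn⟩ := iInf_lt_iff.1 h4
  refine ⟨k0 + n, by push_cast; omega, ?_⟩
  unfold eg em
  have h5 := ENNReal.toReal_mono (ENNReal.add_ne_top.2 ⟨hfin, ENNReal.ofReal_ne_top⟩) hn.le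
  rwa [ENNReal.toReal_add hfin ENNReal.ofReal_ne_top, ENNReal.toReal_ofReal hε.le] at h5

theorem eg_add_le {k : ℤ} {x y : V} (h0 : k ≤ 0) (hx : 0 ≤ ln σ x) (hy : 0 ≤ ln σ y) :
    eg σ F K k (x + y) ≤ eg σ F K k x + eg σ F K k y := by
  have f0 : k ≤ ln σ (0 : V) := by rw [ln_zero]; exact h0
  have fx : ∫⁻ ω, tg σ K k 0 x ω ∂(iid Ed F) ≠ ⊤ := tg_fin hK hσ f0 (by omega)
  have fy : ∫⁻ ω, tg σ K k 0 y ω ∂(iid Ed F) ≠ ⊤ := tg_fin hK hσ f0 (by omega)
  unfold eg
  rw [← ENNReal.toReal_add fx fy]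
  refine ENNReal.toReal_mono (ENNReal.add_ne_top.2 ⟨fx, fy⟩) ?_
  have h1 := lintegral_tg_shift (F := F) (K := K) hσ x k 0 y
  rw [zero_add, add_comm y x] at h1
  rw [← h1, ← lintegral_add_left (measurable_tg σ K k 0 x)]
  refine lintegral_mono_ae ((ae_good_wt hK hσ).mono fun ω hg => ?_)
  exact (tg_triangle k 0 x (x + y) ω).trans (add_le_add le_rfl (tg_anti hσ hg (by omega) _ _))

theorem eg_nsmul_le {k : ℤ} {x : V} (h0 : k ≤ 0) (hx : 0 ≤ ln σ x) (j : ℕ) :
    eg σ F K k (j • x) ≤ j * eg σ F K k x := by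
  induction j with
  | zero =>
    have e : ∀ᵐ ω ∂(iid Ed F), tg σ K k 0 0 ω = 0 := by
      filter_upwards [ae_good_wt hK hσ] with ω hg
      refine T_self _ (Rg_anti hσ hg (by rw [ln_zero]; exact h0) (pk_mem _ _))
    simp only [zero_smul, Nat.cast_zero, zero_mul]
    unfold eg
    rw [lintegral_congr_ae e]
    simp
  | succ j ih =>
    have hjx : 0 ≤ ln σ (j • x) := by rw [ln_nsmul]; positivity
    rw [add_smul, one_smul]
    refine (eg_add_le hK hσ h0 hjx hx).trans ?_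
    push_cast
    linarith

theorem eg_subadditive {x : V} (hx : 0 ≤ ln σ x) :
    Subadditive fun n : ℕ => eg σ F K 0 (n • x) := by
  intro m n
  simp only [add_smul]
  exact eg_add_le hK hσ le_rfl (by rw [ln_nsmul]; positivity) (by rw [ln_nsmul]; positivity)

/-- Comparison of the regions of the lines `0` and `-M`. -/
theorem eg_zero_le (M : ℕ) : ∃ C : ℝ, ∀ x : V, 0 ≤ ln σ x →
    eg σ F K 0 x ≤ C + eg σ F K (-M) x := by
  set s : V := (M, 0) with hs
  have hls : ln σ s = M := by rw [hs]; unfold ln; simp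
  refine ⟨eg σ F K 0 s + eg σ F K 0 s, fun x hx => ?_⟩
  have f0 : (0 : ℤ) ≤ ln σ (0 : V) := by rw [ln_zero]
  have fs : ∫⁻ ω, tg σ K 0 0 s ω ∂(iid Ed F) ≠ ⊤ := tg_fin hK hσ f0 (by rw [hls]; positivity)
  have fx : ∫⁻ ω, tg σ K (-M) 0 x ω ∂(iid Ed F) ≠ ⊤ :=
    tg_fin hK hσ (by rw [ln_zero]; omega) (by omega)
  unfold eg
  rw [← ENNReal.toReal_add fs fs, ← ENNReal.toReal_add (ENNReal.add_ne_top.2 ⟨fs, fs⟩) fx]
  refine ENNReal.toReal_mono (ENNReal.add_ne_top.2 ⟨ENNReal.add_ne_top.2 ⟨fs, fs⟩, fx⟩) ?_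
  have h1 := lintegral_tg_shift (F := F) (K := K) hσ s (-M) 0 x
  rw [zero_add, hls, neg_add_cancel] at h1
  have h2 := lintegral_tg_shift (F := F) (K := K) hσ x 0 0 s
  rw [zero_add, zero_add] at h2
  have e2 : (∫⁻ ω, tg σ K 0 0 s ω ∂(iid Ed F)) + (∫⁻ ω, tg σ K 0 0 s ω ∂(iid Ed F)) +
      ∫⁻ ω, tg σ K (-M) 0 x ω ∂(iid Ed F) = ∫⁻ ω, ((tg σ K 0 0 s ω + tg σ K 0 s (x + s) ω) +
        tg σ K (ln σ x) x (s + x) ω) ∂(iid Ed F) := by
    rw [lintegral_add_left (f := fun ω => tg σ K 0 0 s ω + tg σ K 0 s (x + s) ω)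
      ((measurable_tg σ K 0 0 s).add (measurable_tg σ K 0 s (x + s))),
      lintegral_add_left (measurable_tg σ K 0 0 s), h1, h2]
    ring
  rw [e2]
  refine lintegral_mono_ae ((ae_good_wt hK hσ).mono fun ω hg => ?_)
  calc tg σ K 0 0 x ω ≤ tg σ K 0 0 s ω + (tg σ K 0 s (x + s) ω + tg σ K 0 (x + s) x ω) :=
        (tg_triangle 0 0 s x ω).trans (add_le_add le_rfl (tg_triangle 0 s (x + s) x ω))
    _ ≤ (tg σ K 0 0 s ω + tg σ K 0 s (x + s) ω) + tg σ K (ln σ x) x (s + x) ω := by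
        rw [add_assoc, tg_comm 0 (x + s) x, add_comm s x]
        gcongr
        exact tg_anti hσ hg hx _ _

/-- The time constant of the passage times in the region. -/
theorem tendsto_eg_rho {x : V} (hx : 0 ≤ ln σ x) :
    Tendsto (fun n : ℕ => eg σ F K 0 (n • x) / n) atTop (𝓝 (rho σ F K x)) := by
  have hbdd : BddBelow (range fun n : ℕ => eg σ F K 0 (n • x) / n) := by
    refine ⟨0, ?_⟩
    rintro _ ⟨n, rfl⟩
    exact div_nonneg (eg_nonneg _ _) (Nat.cast_nonneg n)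
  have hsub := eg_subadditive hK hσ hx
  have ht := hsub.tendsto_lim hbdd
  have hkey : hsub.lim = rho σ F K x := by
    apply le_antisymm
    · -- `lim ≤ em (k • x) / k`
      refine ge_of_tendsto (tendsto_rho hK hσ x) ?_
      filter_upwards [eventually_ge_atTop 1] with k hk
      have hk' : (0 : ℝ) < k := by exact_mod_cast hk
      rw [le_div_iff₀ hk']
      refine le_of_forall_pos_le_add fun ε hε => ?_
      obtain ⟨M, -, hM⟩ := tendsto_eg hK hσ (k • x) (ε / 2) (by positivity)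
      obtain ⟨C, hC⟩ := eg_zero_le hK hσ (F := F) (K := K) M
      have hkx : 0 ≤ ln σ (k • x) := by rw [ln_nsmul]; positivity
      -- for all `j ≥ 1`
      have h1 : ∀ j : ℕ, 1 ≤ j → j * (hsub.lim * k) ≤ C + j * (em σ F K (k • x) + ε / 2) := by
        intro j hj
        have h2 := hsub.lim_le_div hbdd (show j * k ≠ 0 by positivity)
        have hjk : (0 : ℝ) < ((j * k : ℕ) : ℝ) := by positivity
        rw [le_div_iff₀ hjk] at h2
        have h3 := hC ((j * k) • x) (by rw [ln_nsmul]; positivity)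
        have h4 : eg σ F K (-M) ((j * k) • x) ≤ j * eg σ F K (-M) (k • x) := by
          rw [mul_smul]
          exact eg_nsmul_le hK hσ (by omega) hkx j
        have hj' : (0 : ℝ) ≤ j := Nat.cast_nonneg j
        have h5 : (j : ℝ) * eg σ F K (-M) (k • x) ≤ j * (em σ F K (k • x) + ε / 2) :=
          mul_le_mul_of_nonneg_left hM hj'
        push_cast at h2
        nlinarith
      by_contra hcon
      push Not at hcon
      set δ : ℝ := hsub.lim * k - (em σ F K (k • x) + ε / 2) with hδ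
      have hδ0 : 0 < δ := by rw [hδ]; linarith
      obtain ⟨j, hj⟩ := exists_nat_gt (C / δ)
      have h6 := h1 (j + 1) (by omega)
      rw [div_lt_iff₀ hδ0] at hj
      push_cast at h6
      nlinarith
    · refine le_of_tendsto_of_tendsto' (tendsto_rho hK hσ x) ht fun n => ?_
      exact div_le_div_of_nonneg_right (em_le_eg hK hσ le_rfl (by rw [ln_nsmul]; positivity))
        (Nat.cast_nonneg n)
  rw [← hkey]
  exact ht

end region

end C7
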