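import Mathlib
import Pool.Agent.Lib.MP_c725eb_pr.Label2
import Pool.Agent.Lib.MP_c725eb_pr.Rho

/-!
# The label inequality for one block

`D` is a domain which contains a cone and is invariant under the translation by `d`; `t m` are
targets with `t (m + 1) = t m + d`.
-/

set_option autoImplicit false

namespace C7

open MeasureTheory ProbabilityTheory Filter Set
open scoped ENNReal Topology

/-! ### deterministic facts -/

theorem abs_toReal_sub_le {w : W} {D : Set V} {x y : V} {M : ℝ≥0∞} (h : T w D x y ≤ M)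
    (hM : M ≠ ⊤) (t : V) : |(T w D x t).toReal - (T w D y t).toReal| ≤ M.toReal := by
  have h1 : T w D x t ≤ M + T w D y t := (T_triangle w D x y t).trans (add_le_add h le_rfl)
  have h2 : T w D y t ≤ M + T w D x t := by
    refine (T_triangle w D y x t).trans (add_le_add ?_ le_rfl)
    rw [T_comm]; exact h
  by_cases hx : T w D x t = ⊤
  · have hy : T w D y t = ⊤ := by
      by_contra hne
      exact (ne_top_of_le_ne_top (ENNReal.add_ne_top.2 ⟨hM, hne⟩) h1) hx
    rw [hx, hy]; simp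
  · have hy : T w D y t ≠ ⊤ := ne_top_of_le_ne_top (ENNReal.add_ne_top.2 ⟨hM, hx⟩) h2
    have e1 := ENNReal.toReal_mono (ENNReal.add_ne_top.2 ⟨hM, hy⟩) h1
    have e2 := ENNReal.toReal_mono (ENNReal.add_ne_top.2 ⟨hM, hx⟩) h2
    rw [ENNReal.toReal_add hM hy] at e1
    rw [ENNReal.toReal_add hM hx] at e2
    rw [abs_le]
    constructor <;> linarith

theorem bal_tr (d x : V) : Bal (tr d x) = tr d '' Bal x := by
  ext v
  constructor
  · intro h
    refine ⟨tr (-d.1, -d.2) v, ?_, tr_tr' d v⟩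
    simp only [Bal, tr, mem_ofPred_eq] at h ⊢
    constructor
    · have := h.1
      rwa [show v.1 - (x.1 + d.1) = v.1 + -d.1 - x.1 by ring] at this
    · have := h.2
      rwa [show v.2 - (x.2 + d.2) = v.2 + -d.2 - x.2 by ring] at this
  · rintro ⟨u, hu, rfl⟩
    simp only [Bal, tr, mem_ofPred_eq] at hu ⊢
    constructor
    · rw [show u.1 + d.1 - (x.1 + d.1) = u.1 - x.1 by ring]; exact hu.1
    · rw [show u.2 + d.2 - (x.2 + d.2) = u.2 - x.2 by ring]; exact hu.2

theorem tr_injective (d : V) : Function.Injective (tr d) := by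
  intro x y h
  rw [← tr_tr d x, ← tr_tr d y, h]

theorem T_pk_abs {σ : ℤ} (hσ : σ = 0 ∨ σ = 1) {w : W} {K : ℝ≥0∞} (hg : Good σ w K) {k i j : ℤ}
    {n : ℕ} (hn : |j - i| ≤ n) {D : Set V} (hD : Rg σ w K k ⊆ D) :
    T w D (pk σ w K k i) (pk σ w K k j) ≤ n * (2 * K) := by
  have h := T_curve_le' hσ (ck_stp hσ hg k) (pk_open hg k) (D := univ) hn
    (fun _ _ _ => subset_univ _)
  rw [univ_inter] at h
  exact (T_mono hD _ _).trans h

/-! ### general covariant points -/

section covpt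

variable {F : Measure ℝ} [IsProbabilityMeasure F] {K : ℝ≥0∞}

theorem measurable_shO (v : V) : Measurable (shO v : Om → Om) := measurable_reix _

theorem measurable_tr_comp {X : Om → V} (hX : Measurable X) (v : V) :
    Measurable fun ω => tr v (X (shO v ω)) :=
  (measurable_of_countable (tr v)).comp (hX.comp (measurable_shO v))

theorem measurable_T_univ {x y : Om → V} (hx : Measurable x) (hy : Measurable y) :
    Measurable fun ω => T (wt ω) univ (x ω) (y ω) :=
  measurable_T measurable_wt3 (D := fun _ => univ) (fun v => by simp) hx hy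

/-- Mean passage time between the point `X` and its translate. -/
noncomputable def eX (F : Measure ℝ) (X : Om → V) (v : V) : ℝ≥0∞ :=
  ∫⁻ ω, T (wt ω) univ (X ω) (tr v (X (shO v ω))) ∂(iid Ed F)

theorem tr_add (v v' x : V) : tr v (tr v' x) = tr (v + v') x := by
  simp only [tr_eq_add]
  abel

theorem eX_add_le {X : Om → V} (hX : Measurable X) (v v' : V) :
    eX F X (v + v') ≤ eX F X v + eX F X v' := by
  have hm : Measurable fun ω => T (wt ω) univ (X ω) (tr v (X (shO v ω))) :=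
    measurable_T_univ hX (measurable_tr_comp hX v)
  have hm' : Measurable fun ω => T (wt ω) univ (X ω) (tr v' (X (shO v' ω))) :=
    measurable_T_univ hX (measurable_tr_comp hX v')
  unfold eX
  rw [← lintegral_shO hm' v, ← lintegral_add_left hm]
  refine lintegral_mono fun ω => ?_
  rw [T_shO, image_tr_univ, tr_add, shO_add, add_comm v' v]
  exact T_triangle _ _ _ _ _

theorem eX_nsmul_le {X : Om → V} (hX : Measurable X) (v : V) {n : ℕ} (hn : 0 < n) :
    eX F X (n • v) ≤ n * eX F X v := by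
  induction n, hn using Nat.le_induction with
  | base => simp
  | succ n hn ih =>
    rw [add_smul, one_smul]
    refine (eX_add_le hX _ _).trans ?_
    push_cast
    rw [add_mul, one_mul]
    exact add_le_add ih le_rfl

theorem rho_le_eX (hK : SmallK F K) {σ : ℤ} (hσ : σ = 0 ∨ σ = 1) {X : Om → V} (hX : Measurable X)
    (hXi : ∫⁻ ω, T (wt ω) univ (op σ K 0 ω) (X ω) ∂(iid Ed F) ≠ ⊤) (v : V) :
    eX F X v ≠ ⊤ ∧ rho σ F K v ≤ (eX F X v).toReal := by
  set P := iid Ed F with hP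
  set c : ℝ≥0∞ := ∫⁻ ω, T (wt ω) univ (op σ K 0 ω) (X ω) ∂P with hc
  have hm0 : Measurable fun ω => T (wt ω) univ (op σ K 0 ω) (X ω) :=
    measurable_T_univ (measurable_op σ K 0) hX
  have hshift : ∀ v : V, ∫⁻ ω, T (wt ω) univ (op σ K v ω) (tr v (X (shO v ω))) ∂P = c := by
    intro v
    rw [hc, hP, ← lintegral_shO hm0 v]
    refine lintegral_congr fun ω => ?_
    rw [T_shO, image_tr_univ, op_shO hσ, zero_add]
  have hmv : ∀ v : V, Measurable fun ω => T (wt ω) univ (op σ K v ω) (tr v (X (shO v ω))) :=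
    fun v => measurable_T_univ (measurable_op σ K v) (measurable_tr_comp hX v)
  have hmX : ∀ v : V, Measurable fun ω => T (wt ω) univ (X ω) (tr v (X (shO v ω))) :=
    fun v => measurable_T_univ hX (measurable_tr_comp hX v)
  -- upper bound of `em`
  have h1 : ∀ v : V, ∫⁻ ω, tf σ K 0 v ω ∂P ≤ c + (eX F X v + c) := by
    intro v
    have e : c + (eX F X v + c) = ∫⁻ ω, (T (wt ω) univ (op σ K 0 ω) (X ω) +
        (T (wt ω) univ (X ω) (tr v (X (shO v ω))) +
          T (wt ω) univ (op σ K v ω) (tr v (X (shO v ω))))) ∂P := by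
      rw [lintegral_add_left hm0, lintegral_add_left (hmX v), hshift v]
      rfl
    rw [e]
    refine lintegral_mono fun ω => ?_
    rw [T_comm (wt ω) univ (op σ K v ω) (tr v (X (shO v ω)))]
    exact (T_triangle _ _ _ _ _).trans (add_le_add le_rfl (T_triangle _ _ _ _ _))
  have h2 : ∀ v : V, eX F X v ≤ c + (∫⁻ ω, tf σ K 0 v ω ∂P + c) := by
    intro v
    have e : c + (∫⁻ ω, tf σ K 0 v ω ∂P + c) = ∫⁻ ω, (T (wt ω) univ (op σ K 0 ω) (X ω) +
        (tf σ K 0 v ω + T (wt ω) univ (op σ K v ω) (tr v (X (shO v ω))))) ∂P := by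
      rw [lintegral_add_left hm0, lintegral_add_left (measurable_tf σ K 0 v), hshift v]
    rw [e]
    refine lintegral_mono fun ω => ?_
    rw [T_comm (wt ω) univ (op σ K 0 ω) (X ω)]
    exact (T_triangle _ _ _ _ _).trans (add_le_add le_rfl (T_triangle _ _ _ _ _))
  have hfin : ∀ v, eX F X v ≠ ⊤ := fun v => ne_top_of_le_ne_top
    (ENNReal.add_ne_top.2 ⟨hXi, ENNReal.add_ne_top.2 ⟨tf_fin hK hσ _ _, hXi⟩⟩) (h2 v)
  refine ⟨hfin v, ?_⟩
  have h3 : ∀ n : ℕ, 0 < n → n * rho σ F K v ≤ 2 * c.toReal + n * (eX F X v).toReal := by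
    intro n hn
    have h4 := mul_rho_le hK hσ v n
    have h5 : em σ F K (n • v) ≤ c.toReal + ((eX F X (n • v)).toReal + c.toReal) := by
      unfold em
      rw [← ENNReal.toReal_add (hfin _) hXi, ← ENNReal.toReal_add hXi
        (ENNReal.add_ne_top.2 ⟨hfin _, hXi⟩)]
      exact ENNReal.toReal_mono (ENNReal.add_ne_top.2 ⟨hXi, ENNReal.add_ne_top.2 ⟨hfin _, hXi⟩⟩)
        (h1 _)
    have h6 : (eX F X (n • v)).toReal ≤ n * (eX F X v).toReal := by
      have := ENNReal.toReal_mono (ENNReal.mul_ne_top (ENNReal.natCast_ne_top n) (hfin v))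
        (eX_nsmul_le (F := F) hX v hn)
      rwa [ENNReal.toReal_mul, ENNReal.toReal_natCast] at this
    linarith
  by_contra hcon
  push Not at hcon
  set δ : ℝ := rho σ F K v - (eX F X v).toReal with hδ
  have hδ0 : 0 < δ := by rw [hδ]; linarith
  obtain ⟨j, hj⟩ := exists_nat_gt (2 * c.toReal / δ)
  have h7 := h3 (j + 1) (by omega)
  rw [div_lt_iff₀ hδ0] at hj
  push_cast at h7
  nlinarith

end covpt

/-! ### the starting point -/

/-- The starting point: first good index of the curve of the line `0`, raised to `c`. -/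
noncomputable def xb (σ s : ℤ) (K : ℝ≥0∞) (D : Set V) (c : ℕ) (ω : Om) : V :=
  pk σ (wt ω) K 0 (s * (max (ia σ s (wt ω) K D) c : ℕ))

section start

variable {σ s : ℤ} {K : ℝ≥0∞} {D : Set V}

theorem measurable_comp_nat {f : ℕ → Om → V} (hf : ∀ n, Measurable (f n)) {N : Om → ℕ}
    (hN : Measurable N) : Measurable fun ω => f (N ω) ω := by
  have h1 : Measurable fun p : ℕ × Om => f p.1 p.2 :=
    measurable_from_prod_countable_right hf
  exact h1.comp (hN.prodMk measurable_id)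

theorem measurable_xb (σ s : ℤ) (K : ℝ≥0∞) (D : Set V) (c : ℕ) : Measurable (xb σ s K D c) :=
  measurable_comp_nat (f := fun n ω => pk σ (wt ω) K 0 (s * (max n c : ℕ)))
    (fun _ => measurable_pk_wt σ K 0 _) (measurable_ia σ s K D)

theorem image_inter_Rg (hσ : σ = 0 ∨ σ = 1) {d : V} (hDd : tr d '' D = D) (k : ℤ) (ω : Om) :
    tr d '' (D ∩ Rg σ (wt (shO d ω)) K k) = D ∩ Rg σ (wt ω) K (k + ln σ d) := by
  rw [image_inter (tr_injective d), hDd, image_Rg hσ]

theorem T_shift_dom (hσ : σ = 0 ∨ σ = 1) {d : V} (hDd : tr d '' D = D) (k : ℤ) (ω : Om) (x y : V) :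
    T (wt (shO d ω)) (D ∩ Rg σ (wt (shO d ω)) K k) x y =
      T (wt ω) (D ∩ Rg σ (wt ω) K (k + ln σ d)) (tr d x) (tr d y) := by
  rw [T_shO, image_inter_Rg hσ hDd]

theorem measurable_T_dom {x y : Om → V} (hx : Measurable x) (hy : Measurable y) (D : Set V)
    (k : ℤ) : Measurable fun ω => T (wt ω) (D ∩ Rg σ (wt ω) K k) (x ω) (y ω) :=
  measurable_T measurable_wt3
    (fun v => (MeasurableSet.const _).inter (measurableSet_mem_Rg_wt σ K k v)) hx hy

theorem T_xb_le (hσ : σ = 0 ∨ σ = 1) (hs : s = 1 ∨ s = -1) {ω : Om} (hg : Good σ (wt ω) K)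
    (hi : Iaf σ s (wt ω) K D) (c : ℕ) :
    T (wt ω) (D ∩ Rg σ (wt ω) K 0) (xb σ s K D c ω) (xb σ s K D 0 ω) ≤ c * (2 * K) := by
  unfold xb
  refine T_curve_le' hσ (ck_stp hσ hg 0) (pk_open hg 0) ?_ ?_
  · rcases hs with rfl | rfl
    · rw [abs_le]; push_cast; omega
    · rw [abs_le]; push_cast; omega
  · intro k hk1 hk2
    refine ia_spec (s := s) hi ?_
    rcases hs with rfl | rfl
    · push_cast at *; omega
    · push_cast at *; omega

variable {F : Measure ℝ} [IsProbabilityMeasure F]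

theorem ae_shO {p : Om → Prop} (h : ∀ᵐ ω ∂(iid Ed F), p ω) (d : V) :
    ∀ᵐ ω ∂(iid Ed F), p (shO d ω) :=
  (measurePreserving_shO F d).quasiMeasurePreserving.ae h

/-- Domination of the passage times of one block, uniformly in the domain. -/
theorem exists_dom_block (hK : SmallK F K) (hσ : σ = 0 ∨ σ = 1) (hs : s = 1 ∨ s = -1) {d : V}
    (hd : 0 ≤ ln σ d) (c : ℕ) :
    ∃ Dm : Om → ℝ≥0∞, Measurable Dm ∧ ∫⁻ ω, Dm ω ∂(iid Ed F) ≠ ⊤ ∧
      ∀ᵐ ω ∂(iid Ed F), ∀ D : Set V, Cone s ⊆ D → tr d '' D = D →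
        T (wt ω) (D ∩ Rg σ (wt ω) K 0) (xb σ s K D 0 ω) (tr d (xb σ s K D c (shO d ω))) ≤ Dm ω := by
  obtain ⟨n, hn⟩ : ∃ n : ℕ, (n : ℤ) = ln σ d := ⟨(ln σ d).toNat, Int.toNat_of_nonneg hd⟩
  set A : Om → ℕ := fun ω => ia σ s (wt ω) K (Cone s) +
    (ia σ s (wt (shO d ω)) K (Cone s) + (c + (ix σ d).natAbs)) with hA
  have hm1 := measurable_ia σ s K (Cone s)
  have hm2 : Measurable fun ω => ia σ s (wt (shO d ω)) K (Cone s) := hm1.comp (measurable_shO d)
  have hAm : Measurable A := hm1.add (hm2.add measurable_const)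
  have hi1 := (ae_iaf (F := F) hK hσ hs).2
  have hc1 : Measurable fun ω : Om => (ia σ s (wt ω) K (Cone s) : ℝ≥0∞) :=
    (measurable_from_top (f := fun n : ℕ => (n : ℝ≥0∞))).comp hm1
  have hi2 : ∫⁻ ω, (ia σ s (wt (shO d ω)) K (Cone s) : ℝ≥0∞) ∂(iid Ed F) ≠ ⊤ := by
    rw [lintegral_shO hc1 d]; exact hi1
  have hc2 : Measurable fun ω : Om => (ia σ s (wt (shO d ω)) K (Cone s) : ℝ≥0∞) :=
    hc1.comp (measurable_shO d)
  have habs1 := le_abs_self (ix σ d)
  have habs2 := neg_abs_le (ix σ d)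
  have hAi : ∫⁻ ω, (A ω : ℝ≥0∞) ∂(iid Ed F) ≠ ⊤ := by
    rw [hA]
    push_cast
    rw [lintegral_add_left hc1, lintegral_add_left hc2, lintegral_const]
    refine ENNReal.add_ne_top.2 ⟨hi1, ENNReal.add_ne_top.2 ⟨hi2, ENNReal.mul_ne_top ?_
      (measure_ne_top _ _)⟩⟩
    exact_mod_cast ENNReal.natCast_ne_top (c + (ix σ d).natAbs)
  obtain ⟨Dm, h1, h2, h3⟩ := exists_dom hK hσ hs n hAm hAi
  refine ⟨Dm, h1, h2, ?_⟩
  filter_upwards [h3, (ae_iaf (F := F) hK hσ hs).1, ae_shO (ae_iaf (F := F) hK hσ hs).1 d]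
    with ω hdom hf hf' D hDc hDd
  have hle := ia_anti hf hDc
  have hle' := ia_anti hf' hDc
  have e : tr d (xb σ s K D c (shO d ω)) = pk σ (wt ω) K n
      (s * (max (ia σ s (wt (shO d ω)) K D) c : ℕ) + ix σ d) := by
    unfold xb
    rw [pk_shO hσ, zero_add, hn]
  rw [e]
  refine hdom D hDc _ _ ?_ ?_ ?_ ?_
  · simp only [hA]
    rcases hs with rfl | rfl
    · rw [abs_le]; push_cast; omega
    · rw [abs_le]; push_cast; omega
  · simp only [hA]
    rcases hs with rfl | rfl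
    · rw [abs_le]; push_cast; omega
    · rw [abs_le]; push_cast; omega
  · intro i hi
    refine ia_spec (s := s) (hf.mono hDc) ?_
    rcases hs with rfl | rfl
    · push_cast at *; omega
    · push_cast at *; omega
  · intro i hi
    have e2 : pk σ (wt ω) K n i = tr d (pk σ (wt (shO d ω)) K 0 (i - ix σ d)) := by
      rw [pk_shO hσ, zero_add, hn, sub_add_cancel]
    rw [e2, bal_tr, ← hDd]
    refine image_mono (ia_spec (s := s) (hf'.mono hDc) ?_)
    rcases hs with rfl | rfl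
    · push_cast at *; omega
    · push_cast at *; omega

/-- THE BLOCK INEQUALITY. -/
theorem block_ineq (hK : SmallK F K) (hσ : σ = 0 ∨ σ = 1) (hs : s = 1 ∨ s = -1)
    (hDc : Cone s ⊆ D) {d : V} (hd : 0 ≤ ln σ d) (hDd : tr d '' D = D) {t : ℕ → V}
    (ht : ∀ m, t (m + 1) = tr d (t m)) (c : ℕ)
    (hfin : ∀ᵐ ω ∂(iid Ed F), ∀ᶠ m in atTop,
      T (wt ω) (D ∩ Rg σ (wt ω) K 0) (xb σ s K D 0 ω) (t m) ≠ ⊤) {β : Om → ℝ}
    (hβ : ∀ᵐ ω ∂(iid Ed F), Tendsto (fun m =>
      (T (wt ω) (D ∩ Rg σ (wt ω) K 0) (xb σ s K D c ω) (t m)).toReal -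
        (T (wt ω) (D ∩ Rg σ (wt ω) K 0) (xb σ s K D 0 ω) (t m)).toReal) atTop (𝓝 (β ω))) :
    rho σ F K d ≤ (∫⁻ ω, T (wt ω) (D ∩ Rg σ (wt ω) K 0) (xb σ s K D 0 ω)
      (tr d (xb σ s K D c (shO d ω))) ∂(iid Ed F)).toReal + ∫ ω, β ω ∂(iid Ed F) := by
  set P := iid Ed F with hP
  have hKt : (c : ℝ≥0∞) * (2 * K) ≠ ⊤ :=
    ENNReal.mul_ne_top (ENNReal.natCast_ne_top _) (ENNReal.mul_ne_top (by norm_num) hK.1)
  set θ : Om → Om := shO d with hθdef
  have hθ : MeasurePreserving θ P P := measurePreserving_shO F d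
  -- the passage times
  let TT : Om → V → V → ℝ≥0∞ := fun ω x y => T (wt ω) (D ∩ Rg σ (wt ω) K 0) x y
  let z : ℕ → Om → ℝ≥0∞ := fun c ω => TT ω (xb σ s K D 0 ω) (tr d (xb σ s K D c (θ ω)))
  have hzm : ∀ c, Measurable (z c) := fun c => measurable_T_dom (measurable_xb σ s K D 0)
    (measurable_tr_comp (measurable_xb σ s K D c) d) D 0
  have hzi : ∀ c, ∫⁻ ω, z c ω ∂P ≠ ⊤ := by
    intro c
    obtain ⟨Dm, -, h2, h3⟩ := exists_dom_block (F := F) hK hσ hs hd c
    exact ne_top_of_le_ne_top h2 (lintegral_mono_ae (h3.mono fun ω h => h D hDc hDd))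
  have hzfin : ∀ c, ∀ᵐ ω ∂P, z c ω ≠ ⊤ := fun c =>
    (ae_lt_top (hzm c) (hzi c)).mono fun ω h => h.ne
  let Φ : ℕ → Om → ℝ := fun m ω => (TT ω (xb σ s K D 0 ω) (t m)).toReal
  let Ψ : ℕ → Om → ℝ := fun m ω => (TT ω (xb σ s K D c ω) (t m)).toReal
  let G : ℕ → Set Om := fun m => {ω | TT ω (xb σ s K D 0 ω) (t m) ≠ ⊤}
  have hTm : ∀ c m, Measurable fun ω => TT ω (xb σ s K D c ω) (t m) := fun c m =>
    measurable_T_dom (measurable_xb σ s K D c) measurable_const D 0
  have hΦm : ∀ m, Measurable (Φ m) := fun m => (hTm 0 m).ennreal_toReal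
  have hΨm : ∀ m, Measurable (Ψ m) := fun m => (hTm c m).ennreal_toReal
  have hGm : ∀ m, MeasurableSet (G m) := fun m => by
    have : G m = (fun ω => TT ω (xb σ s K D 0 ω) (t m)) ⁻¹' {⊤}ᶜ := rfl
    rw [this]
    exact hTm 0 m (measurableSet_singleton _).compl
  -- a.e. facts
  have hgood := ae_good_wt (F := F) hK hσ
  have hiaf : ∀ᵐ ω ∂P, Iaf σ s (wt ω) K D :=
    (ae_iaf (F := F) hK hσ hs).1.mono fun ω h => h.mono hDc
  -- decomposition at the curve `n`
  have hdec : ∀ c' m, ∀ᵐ ω ∂P, TT ω (xb σ s K D 0 ω) (t (m + 1)) ≤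
      z c' ω + TT (θ ω) (xb σ s K D c' (θ ω)) (t m) := by
    intro c' m
    filter_upwards [hgood] with ω hg
    change _ ≤ z c' ω + T (wt (shO d ω)) (D ∩ Rg σ (wt (shO d ω)) K 0) _ _
    rw [T_shift_dom hσ hDd, zero_add, ht]
    refine (T_triangle _ _ _ (tr d (xb σ s K D c' (shO d ω))) _).trans (add_le_add le_rfl ?_)
    exact T_mono (inter_subset_inter_right _ (Rg_anti hσ hg hd)) _ _
  have hG : ∀ m, ∀ᵐ ω ∂P, θ ω ∈ G m → ω ∈ G (m + 1) := by
    intro m
    filter_upwards [hdec 0 m, hzfin 0] with ω h1 h2 h3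
    exact ne_top_of_le_ne_top (ENNReal.add_ne_top.2 ⟨h2, h3⟩) h1
  have hGt : Tendsto (fun m => P.real (G m)ᶜ) atTop (𝓝 0) := by
    have h1 : Tendsto (fun m : ℕ => ∫ ω, ((G m)ᶜ.indicator (fun _ => (1 : ℝ)) ω) ∂P)
        atTop (𝓝 (∫ _, (0 : ℝ) ∂P)) := by
      refine tendsto_integral_of_dominated_convergence (fun _ => (1 : ℝ)) (fun m => ?_)
        (integrable_const _) (fun m => ?_) ?_
      · exact (measurable_const.indicator (hGm m).compl).aestronglyMeasurable
      · refine Eventually.of_forall fun ω => ?_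
        rw [indicator_apply]
        split_ifs <;> simp
      · filter_upwards [hfin] with ω h
        refine tendsto_const_nhds.congr' ?_
        filter_upwards [h] with m hm
        rw [indicator_of_notMem]
        exact fun h' => h' hm
    rw [integral_zero] at h1
    refine h1.congr fun m => ?_
    rw [integral_indicator_const _ (hGm m).compl]
    simp
  -- the block variable
  let ξ : Om → ℝ := fun ω => (z 0 ω).toReal
  have hξm : Measurable ξ := (hzm 0).ennreal_toReal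
  have hξ : Integrable ξ P := integrable_toReal_of_lintegral_ne_top (hzm 0).aemeasurable (hzi 0)
  have hξ0 : ∀ ω, 0 ≤ ξ ω := fun ω => ENNReal.toReal_nonneg
  have h1 : ∀ m, ∀ᵐ ω ∂P, θ ω ∈ G m → Φ (m + 1) ω ≤ ξ ω + Φ m (θ ω) := by
    intro m
    filter_upwards [hdec 0 m, hzfin 0] with ω h1 h2 h3
    have := ENNReal.toReal_mono (ENNReal.add_ne_top.2 ⟨h2, h3⟩) h1
    rwa [ENNReal.toReal_add h2 h3] at this
  -- iterates
  have hit : ∀ J : ℕ, θ^[J] = shO (J • d) := fun J => funext fun ω => shO_iterate d J ω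
  let S : ℕ → Om → ℝ := fun J ω =>
    (T (wt ω) univ (xb σ s K D 0 ω) (tr (J • d) (xb σ s K D 0 (shO (J • d) ω)))).toReal
  have hXi : ∫⁻ ω, T (wt ω) univ (op σ K 0 ω) (xb σ s K D 0 ω) ∂P ≠ ⊤ := by
    have hi1 := (ae_iaf (F := F) hK hσ hs).2
    have hcm : Measurable fun ω : Om => (ia σ s (wt ω) K (Cone s) : ℝ≥0∞) :=
      (measurable_from_top (f := fun n : ℕ => (n : ℝ≥0∞))).comp (measurable_ia σ s K (Cone s))
    have hi2 : ∫⁻ ω, (ia σ s (wt ω) K (Cone s) : ℝ≥0∞) * (2 * K) ∂P ≠ ⊤ := by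
      rw [lintegral_mul_const _ hcm]
      exact ENNReal.mul_ne_top hi1 (ENNReal.mul_ne_top (by norm_num) hK.1)
    refine ne_top_of_le_ne_top hi2 (lintegral_mono_ae ?_)
    filter_upwards [hgood, (ae_iaf (F := F) hK hσ hs).1] with ω hg hf
    have hle := ia_anti hf hDc
    unfold op xb
    rw [ln_zero, ix_zero]
    refine T_pk_abs hσ hg ?_ (subset_univ _)
    rcases hs with rfl | rfl
    · rw [abs_le]; push_cast; omega
    · rw [abs_le]; push_cast; omega
  have hS : ∀ J, Integrable (S J) P := fun J =>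
    integrable_toReal_of_lintegral_ne_top (measurable_T_univ (measurable_xb σ s K D 0)
      (measurable_tr_comp (measurable_xb σ s K D 0) _)).aemeasurable
      (rho_le_eX (F := F) hK hσ (measurable_xb σ s K D 0) hXi (J • d)).1
  have hlam : ∀ J : ℕ, J * rho σ F K d ≤ ∫ ω, S J ω ∂P := by
    intro J
    rw [← rho_nsmul hK hσ]
    have h2 := rho_le_eX (F := F) hK hσ (measurable_xb σ s K D 0) hXi (J • d)
    refine h2.2.trans (le_of_eq ?_)
    have hm := measurable_T_univ (measurable_xb σ s K D 0)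
      (measurable_tr_comp (measurable_xb σ s K D 0) (J • d))
    exact (integral_toReal hm.aemeasurable (ae_lt_top hm h2.1)).symm
  -- the triangle inequality along the blocks
  have hGJ : ∀ J m, ∀ᵐ ω ∂P, θ^[J] ω ∈ G m → ω ∈ G (m + J) := by
    intro J
    induction J with
    | zero => intro m; exact Eventually.of_forall fun ω h => h
    | succ J ih =>
      intro m
      have h5 := (hθ.iterate J).quasiMeasurePreserving.ae (hG m)
      filter_upwards [ih (m + 1), h5] with ω h6 h7 h8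
      rw [Function.iterate_succ_apply'] at h8
      have h9 := h6 (h7 h8)
      rwa [show m + 1 + J = m + (J + 1) by ring] at h9
  have htJ : ∀ J m : ℕ, t (m + J) = tr (J • d) (t m) := by
    intro J
    induction J with
    | zero => intro m; simp [tr]
    | succ J ih =>
      intro m
      rw [show m + (J + 1) = (m + 1) + J by ring, ih, ht, tr_add, add_smul, one_smul]
  have hDdJ : ∀ J : ℕ, tr (J • d) '' D = D := by
    intro J
    induction J with
    | zero =>
      have : tr ((0 : ℕ) • d) = id := by funext x; simp [tr]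
      rw [this, image_id]
    | succ J ih =>
      have e : tr ((J + 1) • d) = tr (J • d) ∘ tr d := by
        funext x
        rw [Function.comp, tr_add, add_smul, one_smul]
      rw [e, image_comp, hDd, ih]
  have h2 : ∀ J m, ∀ᵐ ω ∂P, θ^[J] ω ∈ G m → S J ω ≤ Φ (m + J) ω + Φ m (θ^[J] ω) := by
    intro J m
    filter_upwards [hGJ J m, hgood] with ω h3 hg h4
    have h5 : TT ω (xb σ s K D 0 ω) (t (m + J)) ≠ ⊤ := h3 h4
    have h6 : TT (θ^[J] ω) (xb σ s K D 0 (θ^[J] ω)) (t m) ≠ ⊤ := h4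
    rw [hit J] at h6 ⊢
    have e6 : TT (shO (J • d) ω) (xb σ s K D 0 (shO (J • d) ω)) (t m) =
        T (wt ω) (D ∩ Rg σ (wt ω) K (0 + ln σ (J • d))) (tr (J • d) (xb σ s K D 0 (shO (J • d) ω)))
          (t (m + J)) := by
      rw [htJ]
      exact T_shift_dom hσ (hDdJ J) 0 ω _ _
    have h7 : T (wt ω) univ (xb σ s K D 0 ω) (tr (J • d) (xb σ s K D 0 (shO (J • d) ω))) ≤
        TT ω (xb σ s K D 0 ω) (t (m + J)) +
          TT (shO (J • d) ω) (xb σ s K D 0 (shO (J • d) ω)) (t m) := by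
      rw [e6, T_comm (wt ω) (D ∩ Rg σ (wt ω) K (0 + ln σ (J • d)))]
      refine (T_triangle _ _ _ (t (m + J)) _).trans (add_le_add ?_ ?_)
      · exact T_mono (subset_univ _) _ _
      · exact T_mono (subset_univ _) _ _
    have h8 := ENNReal.toReal_mono (ENNReal.add_ne_top.2 ⟨h5, h6⟩) h7
    rwa [ENNReal.toReal_add h5 h6] at h8
  have h3 : ∀ J, ∀ᵐ ω ∂P, S J ω ≤ ∑ j ∈ Finset.range J, ξ (θ^[j] ω) := by
    intro J
    have h4 : ∀ᵐ ω ∂P, ∀ j, z 0 (θ^[j] ω) ≠ ⊤ := by
      rw [ae_all_iff]; intro j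
      exact (hθ.iterate j).quasiMeasurePreserving.ae (hzfin 0)
    filter_upwards [h4] with ω h4
    have h5 : ∀ J : ℕ, T (wt ω) univ (xb σ s K D 0 ω) (tr (J • d) (xb σ s K D 0 (shO (J • d) ω))) ≤
        ∑ j ∈ Finset.range J, z 0 (θ^[j] ω) := by
      intro J
      induction J with
      | zero =>
        have e0 : tr ((0 : ℕ) • d) (xb σ s K D 0 (shO ((0 : ℕ) • d) ω)) = xb σ s K D 0 ω := by
          rw [zero_smul, shO_zero]; simp [tr]
        rw [e0, T_self _ (mem_univ _)]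
        exact zero_le
      | succ J ih =>
        rw [Finset.sum_range_succ]
        refine (T_triangle _ _ _ (tr (J • d) (xb σ s K D 0 (shO (J • d) ω))) _).trans
          (add_le_add ih ?_)
        rw [hit J]
        change _ ≤ T (wt (shO (J • d) ω)) (D ∩ Rg σ (wt (shO (J • d) ω)) K 0)
          (xb σ s K D 0 (shO (J • d) ω)) (tr d (xb σ s K D 0 (shO d (shO (J • d) ω))))
        rw [T_shift_dom hσ (hDdJ J), tr_add, shO_add, add_smul, one_smul, add_comm d (J • d)]
        exact T_mono (subset_univ _) _ _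
    have h6 : ∑ j ∈ Finset.range J, z 0 (θ^[j] ω) ≠ ⊤ := ENNReal.sum_ne_top.2 fun j _ => h4 j
    have h7 := ENNReal.toReal_mono h6 (h5 J)
    rwa [ENNReal.toReal_sum fun j _ => h4 j] at h7
  -- the truncation lemma
  set V₀ : ℝ := ((c : ℝ≥0∞) * (2 * K)).toReal with hV₀
  have hV₀0 : 0 ≤ V₀ := ENNReal.toReal_nonneg
  have hfreq : ∀ η > 0, ∃ᶠ m in atTop, rho σ F K d - η ≤ ∫ ω, YG θ G Φ V₀ m ω ∂P :=
    fun η hη => trunc_label_G hθ hGm hG hGt hΦm hξm hξ hξ0 h1 hS hlam h2 h3 hV₀0 hη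
  -- bound of the truncated increments
  have hβb : ∀ m, ∀ᵐ ω ∂P, |Ψ m ω - Φ m ω| ≤ V₀ := by
    intro m
    filter_upwards [hgood, hiaf] with ω hg hi
    exact abs_toReal_sub_le (T_xb_le hσ hs hg hi c) hKt _
  have hβint : ∀ m, Integrable (fun ω => Ψ m ω - Φ m ω) P := fun m =>
    Integrable.mono' (integrable_const V₀) ((hΨm m).sub (hΦm m)).aestronglyMeasurable
      ((hβb m).mono fun ω h => h)
  have hβθ : ∀ m, ∫ ω, (Ψ m (θ ω) - Φ m (θ ω)) ∂P = ∫ ω, (Ψ m ω - Φ m ω) ∂P := by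
    intro m
    have h := integral_map (μ := P) hθ.measurable.aemeasurable
      (f := fun ω => Ψ m ω - Φ m ω) ((hΨm m).sub (hΦm m)).aestronglyMeasurable
    rw [hθ.map_eq] at h
    exact h.symm
  have hzr : Integrable (fun ω => (z c ω).toReal) P :=
    integrable_toReal_of_lintegral_ne_top (hzm c).aemeasurable (hzi c)
  have hYm : ∀ m, Measurable (YG θ G Φ V₀ m) := fun m => by
    classical
    exact Measurable.ite (hθ.measurable (hGm m))
      (((hΦm _).sub ((hΦm _).comp hθ.measurable)).max measurable_const) measurable_const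
  have hYint : ∀ m, Integrable (YG θ G Φ V₀ m) P := by
    intro m
    refine Integrable.mono' (g := fun ω => ξ ω + V₀) (hξ.add (integrable_const _))
      (hYm m).aestronglyMeasurable ?_
    filter_upwards [h1 m] with ω h
    have h0 := hξ0 ω
    rw [Real.norm_eq_abs, abs_le]
    unfold YG
    split_ifs with hg
    · have := h hg
      exact ⟨by linarith [le_max_right (Φ (m + 1) ω - Φ m (θ ω)) (-V₀)],
        max_le (by linarith) (by linarith)⟩
    · constructor <;> linarith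
  have hYle : ∀ m, ∫ ω, YG θ G Φ V₀ m ω ∂P ≤
      (∫⁻ ω, z c ω ∂P).toReal + ∫ ω, (Ψ m ω - Φ m ω) ∂P := by
    intro m
    have e1 : (∫⁻ ω, z c ω ∂P).toReal = ∫ ω, (z c ω).toReal ∂P :=
      (integral_toReal (hzm c).aemeasurable (ae_lt_top (hzm c) (hzi c))).symm
    have hθint : Integrable (fun ω => Ψ m (θ ω) - Φ m (θ ω)) P :=
      hθ.integrable_comp_of_integrable (hβint m)
    rw [e1, ← hβθ m, ← integral_add hzr hθint]
    refine integral_mono_ae (hYint m) (hzr.add hθint) ?_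
    filter_upwards [hdec c m, hzfin c, ae_shO hgood d, ae_shO hiaf d] with ω h4 h5 hg' hi'
    have h6 : |Ψ m (θ ω) - Φ m (θ ω)| ≤ V₀ := abs_toReal_sub_le (T_xb_le hσ hs hg' hi' c) hKt _
    have h7 : 0 ≤ (z c ω).toReal := ENNReal.toReal_nonneg
    rw [abs_le] at h6
    change YG θ G Φ V₀ m ω ≤ (z c ω).toReal + (Ψ m (θ ω) - Φ m (θ ω))
    unfold YG
    split_ifs with hgm
    · refine max_le ?_ (by linarith)
      have h8 : TT (θ ω) (xb σ s K D c (θ ω)) (t m) ≠ ⊤ := by
        have h9 : TT (θ ω) (xb σ s K D c (θ ω)) (t m) ≤ c * (2 * K) +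
            TT (θ ω) (xb σ s K D 0 (θ ω)) (t m) :=
          (T_triangle _ _ _ (xb σ s K D 0 (θ ω)) _).trans
            (add_le_add (T_xb_le hσ hs hg' hi' c) le_rfl)
        exact ne_top_of_le_ne_top (ENNReal.add_ne_top.2 ⟨hKt, hgm⟩) h9
      have h10 := ENNReal.toReal_mono (ENNReal.add_ne_top.2 ⟨h5, h8⟩) h4
      rw [ENNReal.toReal_add h5 h8] at h10
      have h11 : Φ (m + 1) ω ≤ (z c ω).toReal + Ψ m (θ ω) := h10
      linarith
    · linarith
  -- the limit
  have hlim : Tendsto (fun m => ∫ ω, (Ψ m ω - Φ m ω) ∂P) atTop (𝓝 (∫ ω, β ω ∂P)) := by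
    refine tendsto_integral_of_dominated_convergence (fun _ => V₀)
      (fun m => ((hΨm m).sub (hΦm m)).aestronglyMeasurable) (integrable_const _) hβb ?_
    exact hβ
  refine le_of_forall_pos_le_add fun η hη => ?_
  have h4 := (hfreq (η / 2) (by positivity)).and_eventually
    (hlim.eventually (gt_mem_nhds (show ∫ ω, β ω ∂P < ∫ ω, β ω ∂P + η / 2 by linarith)))
  obtain ⟨m, h5, h6⟩ := h4.exists
  have h7 := hYle m
  change rho σ F K d ≤ (∫⁻ ω, z c ω ∂P).toReal + ∫ ω, β ω ∂P + η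
  linarith

end start

end C7
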