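import Mathlib
import Pool.Agent.Lib.MP_c725eb_pr.LabelBlock
import Pool.Agent.Lib.MP_c725eb_pr.Region

/-!
# The label inequality: limits

Walls `Wal s σ u L` (`s = 1`: above the wall, `s = -1`: below the wall), targets `tar s σ u L m`.
Main result: `label_lim`.
-/

set_option autoImplicit false

namespace C7

open MeasureTheory ProbabilityTheory Filter Set
open scoped ENNReal Topology

/-! ### walls -/

/-- The wall domains. -/
def Wal (s σ : ℤ) (u : V) (L : ℤ) : Set V := DW s u (L * ln σ u)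

/-- The targets on the walls. -/
def tar (s σ : ℤ) (u : V) (L m : ℤ) : V := (m * u.1 + s * (σ * L), m * u.2 - s * L)

theorem Wlo_eq_Wal (σ : ℤ) (u : V) (L : ℤ) : Wlo σ u L = Wal 1 σ u L := by
  ext x
  simp only [Wlo, Wal, DW, det, mem_ofPred_eq]
  constructor <;> intro h <;> linarith

theorem Wup_eq_Wal (σ : ℤ) (u : V) (L : ℤ) : Wup σ u L = Wal (-1) σ u L := by
  ext x
  simp only [Wup, Wal, DW, det, mem_ofPred_eq]
  constructor <;> intro h <;> linarith

theorem tlo_eq_tar (σ : ℤ) (u : V) (L m : ℤ) : tlo σ u L m = tar 1 σ u L m := by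
  unfold tlo tar
  simp only [Prod.mk.injEq]
  constructor <;> ring

theorem tup_eq_tar (σ : ℤ) (u : V) (L m : ℤ) : tup σ u L m = tar (-1) σ u L m := by
  unfold tup tar
  simp only [Prod.mk.injEq]
  constructor <;> ring

theorem Wal_mono (s σ : ℤ) {u : V} (hu : 0 < ln σ u) {L L' : ℤ} (h : L ≤ L') :
    Wal s σ u L ⊆ Wal s σ u L' :=
  DW_mono s u (mul_le_mul_of_nonneg_right h hu.le)

theorem cone_subset_Wal {s : ℤ} (hs : s = 1 ∨ s = -1) (σ : ℤ) {u : V} (hu : 0 < ln σ u)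
    (hu2 : 2 * |u.2| ≤ u.1) {L : ℤ} (hL : 0 ≤ L) : Cone s ⊆ Wal s σ u L :=
  fun _ hv => mem_DW hs hu2 (by positivity) hv

theorem nsmul_fst (N : ℕ) (u : V) : (N • u).1 = N * u.1 := by rw [Prod.smul_fst, nsmul_eq_mul]

theorem nsmul_snd (N : ℕ) (u : V) : (N • u).2 = N * u.2 := by rw [Prod.smul_snd, nsmul_eq_mul]

theorem zsmul_fst (a : ℤ) (u : V) : (a • u).1 = a * u.1 := by rw [Prod.smul_fst, smul_eq_mul]

theorem zsmul_snd (a : ℤ) (u : V) : (a • u).2 = a * u.2 := by rw [Prod.smul_snd, smul_eq_mul]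

theorem tr_image_Wal (s σ : ℤ) (u : V) (L : ℤ) (N : ℕ) : tr (N • u) '' Wal s σ u L = Wal s σ u L := by
  have key : ∀ x : V, tr (N • u) x ∈ Wal s σ u L ↔ x ∈ Wal s σ u L := by
    rintro ⟨a, b⟩
    simp only [Wal, DW, tr, mem_ofPred_eq]
    have e : s * (u.2 * (a + (N • u).1) - u.1 * (b + (N • u).2)) = s * (u.2 * a - u.1 * b) := by
      rw [nsmul_fst, nsmul_snd]
      ring
    rw [e]
  ext x
  constructor
  · rintro ⟨y, hy, rfl⟩
    exact (key y).2 hy
  · intro hx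
    refine ⟨tr (-(N • u).1, -(N • u).2) x, ?_, tr_tr' _ x⟩
    rw [← key, tr_tr']
    exact hx

theorem tar_succ (s σ : ℤ) (u : V) (L : ℤ) (N : ℕ) (m : ℕ) :
    tar s σ u L (((m + 1) * N : ℕ) : ℤ) = tr (N • u) (tar s σ u L ((m * N : ℕ) : ℤ)) := by
  unfold tar tr
  rw [nsmul_fst, nsmul_snd]
  simp only [Prod.mk.injEq]
  push_cast
  constructor <;> ring

theorem exists_bal_Wal (s σ : ℤ) (hs : s = 1 ∨ s = -1) {u : V} (hu : 0 < ln σ u) (x : V) :
    ∀ᶠ L : ℕ in atTop, Bal x ⊆ Wal s σ u L := by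
  filter_upwards [eventually_ge_atTop ((|u.2 * x.1 - u.1 * x.2| + |u.1| + |u.2|).toNat)] with L hL v hv
  have h1 : |u.2 * x.1 - u.1 * x.2| + |u.1| + |u.2| ≤ L := by
    have := Int.self_le_toNat (|u.2 * x.1 - u.1 * x.2| + |u.1| + |u.2|)
    omega
  have h2 : (L : ℤ) ≤ L * ln σ u := by nlinarith
  simp only [Wal, DW, mem_ofPred_eq]
  have hv1 := hv.1
  have hv2 := hv.2
  have e1 : u.2 * (v.1 - x.1) ≤ |u.2| := by
    calc u.2 * (v.1 - x.1) ≤ |u.2 * (v.1 - x.1)| := le_abs_self _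
      _ = |u.2| * |v.1 - x.1| := abs_mul _ _
      _ ≤ |u.2| * 1 := mul_le_mul_of_nonneg_left hv1 (abs_nonneg _)
      _ = |u.2| := mul_one _
  have e2 : -|u.2| ≤ u.2 * (v.1 - x.1) := by
    have : -(u.2 * (v.1 - x.1)) ≤ |u.2| := by
      calc -(u.2 * (v.1 - x.1)) ≤ |u.2 * (v.1 - x.1)| := neg_le_abs _
        _ = |u.2| * |v.1 - x.1| := abs_mul _ _
        _ ≤ |u.2| * 1 := mul_le_mul_of_nonneg_left hv1 (abs_nonneg _)
        _ = |u.2| := mul_one _
    linarith
  have e3 : u.1 * (v.2 - x.2) ≤ |u.1| := by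
    calc u.1 * (v.2 - x.2) ≤ |u.1 * (v.2 - x.2)| := le_abs_self _
      _ = |u.1| * |v.2 - x.2| := abs_mul _ _
      _ ≤ |u.1| * 1 := mul_le_mul_of_nonneg_left hv2 (abs_nonneg _)
      _ = |u.1| := mul_one _
  have e4 : -|u.1| ≤ u.1 * (v.2 - x.2) := by
    have : -(u.1 * (v.2 - x.2)) ≤ |u.1| := by
      calc -(u.1 * (v.2 - x.2)) ≤ |u.1 * (v.2 - x.2)| := neg_le_abs _
        _ = |u.1| * |v.2 - x.2| := abs_mul _ _
        _ ≤ |u.1| * 1 := mul_le_mul_of_nonneg_left hv2 (abs_nonneg _)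
        _ = |u.1| := mul_one _
    linarith
  have e5 := le_abs_self (u.2 * x.1 - u.1 * x.2)
  have e6 := neg_abs_le (u.2 * x.1 - u.1 * x.2)
  rcases hs with rfl | rfl
  · nlinarith
  · nlinarith

/-- Eventually the first good index is `0`. -/
theorem ia_eventually_zero {σ s : ℤ} (hs : s = 1 ∨ s = -1) {u : V} (hu : 0 < ln σ u)
    {w : W} {K : ℝ≥0∞} (h : Iaf σ s w K (Wal s σ u 0)) :
    ∀ᶠ L : ℕ in atTop, ia σ s w K (Wal s σ u L) = 0 := by
  obtain ⟨a, ha⟩ := h
  have h1 : ∀ᶠ L : ℕ in atTop, ∀ j ∈ Finset.range a, Bal (pk σ w K 0 (s * j)) ⊆ Wal s σ u L := by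
    rw [eventually_all_finset]
    intro j _
    exact exists_bal_Wal s σ hs hu _
  filter_upwards [h1] with L hL
  refine Nat.le_zero.1 (ia_le fun i hi => ?_)
  by_cases hia : (a : ℤ) ≤ s * i
  · exact (ha i hia).trans (Wal_mono s σ hu (by positivity))
  · have h2 := hL (s * i).toNat (Finset.mem_range.2 (by omega))
    have e : s * (((s * i).toNat : ℕ) : ℤ) = i := by
      rw [Int.toNat_of_nonneg (by exact_mod_cast hi)]
      rcases hs with rfl | rfl <;> ring
    rwa [e] at h2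

theorem tendsto_T_Wal {s σ : ℤ} (hs : s = 1 ∨ s = -1) {u : V} (hu : 0 < ln σ u) (w : W) (R : Set V)
    (x y : V) : Tendsto (fun L : ℕ => T w (Wal s σ u L ∩ R) x y) atTop (𝓝 (T w R x y)) := by
  have hmono : Monotone fun L : ℕ => Wal s σ u L ∩ R := fun L L' h =>
    inter_subset_inter_left _ (Wal_mono s σ hu (by exact_mod_cast h))
  have hU : (⋃ L : ℕ, Wal s σ u L ∩ R) = R := by
    rw [← iUnion_inter]
    have : (⋃ L : ℕ, Wal s σ u L) = univ := by
      refine eq_univ_of_forall fun x => ?_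
      obtain ⟨L, hL⟩ := (exists_bal_Wal s σ hs hu x).exists
      exact mem_iUnion.2 ⟨L, hL (mem_Bal x)⟩
    rw [this, univ_inter]
  have h1 := T_iUnion w hmono x y
  rw [hU] at h1
  rw [h1]
  exact tendsto_atTop_iInf fun L L' h => T_mono (hmono h) _ _

/-! ### the vertical direction -/

/-- Period of the indices. -/
def per (σ : ℤ) : ℕ := (1 + σ).toNat

theorem per_cast {σ : ℤ} (hσ : σ = 0 ∨ σ = 1) : (per σ : ℤ) = 1 + σ := by
  rcases hσ with rfl | rfl <;> rfl

theorem ln_vt (σ : ℤ) : ln σ (vert σ) = 0 := by unfold ln vert; ring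

theorem ix_vt {σ : ℤ} (hσ : σ = 0 ∨ σ = 1) : ix σ (vert σ) = 1 + σ := by
  unfold ix vert
  rcases hσ with rfl | rfl <;> rfl

theorem ln_zsmul (σ : ℤ) (n : ℤ) (a : V) : ln σ (n • a) = n * ln σ a := by
  unfold ln; simp only [Prod.smul_fst, Prod.smul_snd, smul_eq_mul]; ring

theorem ix_zsmul (σ : ℤ) (n : ℤ) (a : V) : ix σ (n • a) = n * ix σ a := by
  unfold ix; simp only [Prod.smul_fst, Prod.smul_snd, smul_eq_mul]; ring

section limits

variable {F : Measure ℝ} [IsProbabilityMeasure F] {K : ℝ≥0∞} (hK : SmallK F K) {σ s : ℤ}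
  (hσ : σ = 0 ∨ σ = 1) (hs : s = 1 ∨ s = -1) {u : V} (hu : 0 < ln σ u) (hu2 : 2 * |u.2| ≤ u.1)

include hK hσ hs hu hu2

/-- The label inequality with one fixed wall. -/
theorem label_wall {N : ℕ} (L c : ℕ)
    (hfin : ∀ᵐ ω ∂(iid Ed F), ∀ᶠ m : ℕ in atTop,
      T (wt ω) (Wal s σ u L ∩ Rg σ (wt ω) K 0) (xb σ s K (Wal s σ u L) 0 ω)
        (tar s σ u L m) ≠ ⊤) {g : ℕ → Om → ℝ}
    (hg : ∀ᵐ ω ∂(iid Ed F), ∀ j : ℕ, ia σ s (wt ω) K (Wal s σ u L) ≤ j →
      Tendsto (fun m : ℕ =>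
        (T (wt ω) (Wal s σ u L ∩ Rg σ (wt ω) K 0) (pk σ (wt ω) K 0 (s * j)) (tar s σ u L m)).toReal -
        (T (wt ω) (Wal s σ u L ∩ Rg σ (wt ω) K 0) (pk σ (wt ω) K 0 (s * (j + 1)))
          (tar s σ u L m)).toReal) atTop (𝓝 (g j ω))) (hN : 0 < N) :
    rho σ F K (N • u) ≤ (∫⁻ ω, T (wt ω) (Wal s σ u L ∩ Rg σ (wt ω) K 0)
      (xb σ s K (Wal s σ u L) 0 ω) (tr (N • u) (xb σ s K (Wal s σ u L) c (shO (N • u) ω)))
        ∂(iid Ed F)).toReal +
      ∫ ω, -(∑ j ∈ Finset.range c, if ia σ s (wt ω) K (Wal s σ u L) ≤ j then g j ω else 0)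
        ∂(iid Ed F) := by
  have hmul : Tendsto (fun m : ℕ => m * N) atTop atTop :=
    tendsto_atTop_mono (fun m => Nat.le_mul_of_pos_right m hN) tendsto_id
  refine block_ineq hK hσ hs (cone_subset_Wal hs σ hu hu2 (by positivity))
    (by rw [ln_nsmul]; positivity) (tr_image_Wal s σ u L N) (t := fun m => tar s σ u L ((m * N : ℕ) : ℤ))
    (fun m => tar_succ s σ u L N m) c ?_ ?_
  · filter_upwards [hfin] with ω h
    exact hmul.eventually h
  · filter_upwards [hg] with ω h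
    set a := ia σ s (wt ω) K (Wal s σ u L) with ha
    -- telescoping
    let f : ℕ → ℕ → ℝ := fun m j => (T (wt ω) (Wal s σ u L ∩ Rg σ (wt ω) K 0)
      (pk σ (wt ω) K 0 (s * j)) (tar s σ u L m)).toReal
    have h1 : ∀ m, f m (max a c) - f m a = -(∑ j ∈ Finset.Ico a (max a c), (f m j - f m (j + 1))) := by
      intro m
      have : ∀ b, a ≤ b → f m b - f m a = -(∑ j ∈ Finset.Ico a b, (f m j - f m (j + 1))) := by
        intro b hb
        induction b, hb using Nat.le_induction with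
        | base => simp
        | succ b hb ih =>
          rw [Finset.sum_Ico_succ_top hb, neg_add, ← ih]
          ring
      exact this _ (le_max_left _ _)
    have h2 : (∑ j ∈ Finset.range c, if a ≤ j then g j ω else 0) =
        ∑ j ∈ Finset.Ico a (max a c), g j ω := by
      rw [← Finset.sum_filter]
      refine Finset.sum_congr ?_ fun _ _ => rfl
      ext j
      simp only [Finset.mem_filter, Finset.mem_range, Finset.mem_Ico]
      omega
    rw [h2]
    have h3 : Tendsto (fun m : ℕ => f m (max a c) - f m a) atTop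
        (𝓝 (-(∑ j ∈ Finset.Ico a (max a c), g j ω))) := by
      simp only [h1]
      refine Tendsto.neg (tendsto_finsetSum _ fun j hj => ?_)
      have h4 := h j (Finset.mem_Ico.1 hj).1
      simpa only [f, Nat.cast_add, Nat.cast_one] using h4
    have h5 := h3.comp hmul
    refine h5.congr fun m => ?_
    simp only [Function.comp, f, xb]
    rw [← ha]
    simp

/-- The label inequality, `L → ∞`. -/
theorem label_block {N : ℕ} (hN : 0 < N) (k : ℕ)
    (hfin : ∀ L : ℕ, ∀ᵐ ω ∂(iid Ed F), ∀ᶠ m : ℕ in atTop,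
      T (wt ω) (Wal s σ u L ∩ Rg σ (wt ω) K 0) (xb σ s K (Wal s σ u L) 0 ω)
        (tar s σ u L m) ≠ ⊤) {g : ℕ → ℕ → Om → ℝ}
    (hg : ∀ L : ℕ, ∀ᵐ ω ∂(iid Ed F), ∀ j : ℕ, ia σ s (wt ω) K (Wal s σ u L) ≤ j →
      Tendsto (fun m : ℕ =>
        (T (wt ω) (Wal s σ u L ∩ Rg σ (wt ω) K 0) (pk σ (wt ω) K 0 (s * j)) (tar s σ u L m)).toReal -
        (T (wt ω) (Wal s σ u L ∩ Rg σ (wt ω) K 0) (pk σ (wt ω) K 0 (s * (j + 1)))
          (tar s σ u L m)).toReal) atTop (𝓝 (g L j ω)))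
    (hgm : ∀ L j, Measurable (g L j)) {C : ℝ} (hgb : ∀ L j ω, |g L j ω| ≤ C)
    {gi : ℕ → Om → ℝ}
    (hgi : ∀ j, ∀ᵐ ω ∂(iid Ed F), Tendsto (fun L => g L j ω) atTop (𝓝 (gi j ω))) :
    rho σ F K (N • u) + ∑ j ∈ Finset.range (k * per σ), ∫ ω, gi j ω ∂(iid Ed F) ≤
      eg σ F K 0 (N • u + (s * k) • vert σ) := by
  set P := iid Ed F with hP
  set c : ℕ := k * per σ with hc
  set d : V := N • u with hd
  have hd0 : 0 ≤ ln σ d := by rw [hd, ln_nsmul]; positivity
  have hC0 : 0 ≤ C := (abs_nonneg _).trans (hgb 0 0 (fun _ => 0))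
  have hgood := ae_good_wt (F := F) hK hσ
  have hiaf : ∀ᵐ ω ∂P, Iaf σ s (wt ω) K (Wal s σ u 0) :=
    (ae_iaf (F := F) hK hσ hs).1.mono fun ω h => h.mono (cone_subset_Wal hs σ hu hu2 le_rfl)
  have h1 := fun L : ℕ => label_wall hK hσ hs hu hu2 (N := N) L c (hfin L) (hg L) hN
  -- first limit
  obtain ⟨Dm, hDm, hDi, hDom⟩ := exists_dom_block (F := F) (K := K) hK hσ hs hd0 c
  have hz : Tendsto (fun L : ℕ => ∫⁻ ω, T (wt ω) (Wal s σ u L ∩ Rg σ (wt ω) K 0)
      (xb σ s K (Wal s σ u L) 0 ω) (tr d (xb σ s K (Wal s σ u L) c (shO d ω))) ∂P) atTop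
      (𝓝 (∫⁻ ω, tg σ K 0 0 (d + (s * k) • vert σ) ω ∂P)) := by
    refine tendsto_lintegral_of_dominated_convergence Dm (fun L => ?_) (fun L => ?_) hDi ?_
    · exact measurable_T_dom (measurable_xb σ s K _ 0)
        (measurable_tr_comp (measurable_xb σ s K _ c) d) _ 0
    · filter_upwards [hDom] with ω h
      exact h _ (cone_subset_Wal hs σ hu hu2 (by positivity)) (tr_image_Wal s σ u L N)
    · filter_upwards [hiaf, ae_shO hiaf d] with ω hi hi'
      have e0 : op σ K 0 ω = pk σ (wt ω) K 0 (s * (0 : ℕ)) := by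
        unfold op; rw [ln_zero, ix_zero]; simp
      have e1 : op σ K (d + (s * k) • vert σ) ω =
          tr d (pk σ (wt (shO d ω)) K 0 (s * (c : ℕ))) := by
        unfold op
        rw [pk_shO hσ, ln_add, ix_add, ln_zsmul, ix_zsmul, ln_vt, ix_vt hσ, hc]
        push_cast
        rw [per_cast hσ]
        congr 1 <;> ring
      have h2 := tendsto_T_Wal (σ := σ) hs hu (wt ω) (Rg σ (wt ω) K 0) (op σ K 0 ω)
        (op σ K (d + (s * k) • vert σ) ω)
      refine h2.congr' ?_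
      filter_upwards [ia_eventually_zero hs hu hi, ia_eventually_zero hs hu hi'] with L e2 e3
      rw [e0, e1]
      unfold xb
      rw [e2, e3]
      simp
  have hzfin : ∫⁻ ω, tg σ K 0 0 (d + (s * k) • vert σ) ω ∂P ≠ ⊤ :=
    tg_fin hK hσ (by rw [ln_zero]) (by rw [ln_add, ln_zsmul, ln_vt]; simpa using hd0)
  have hz' := (ENNReal.tendsto_toReal hzfin).comp hz
  -- second limit
  have hβ : Tendsto (fun L : ℕ => ∫ ω, -(∑ j ∈ Finset.range c,
      if ia σ s (wt ω) K (Wal s σ u L) ≤ j then g L j ω else 0) ∂P) atTop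
      (𝓝 (∫ ω, -(∑ j ∈ Finset.range c, gi j ω) ∂P)) := by
    refine tendsto_integral_of_dominated_convergence (fun _ => c * C) (fun L => ?_)
      (integrable_const _) (fun L => ?_) ?_
    · refine (Measurable.neg (Finset.measurable_sum _ fun j _ => ?_)).aestronglyMeasurable
      exact Measurable.ite ((measurable_ia σ s K _) (MeasurableSet.of_discrete (s := {n | n ≤ j})))
        (hgm L j) measurable_const
    · refine Eventually.of_forall fun ω => ?_
      rw [norm_neg, Real.norm_eq_abs]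
      refine (Finset.abs_sum_le_sum_abs _ _).trans ?_
      calc _ ≤ ∑ j ∈ Finset.range c, C := by
            refine Finset.sum_le_sum fun j _ => ?_
            split_ifs
            · exact hgb L j ω
            · rw [abs_zero]; exact hC0
        _ = c * C := by rw [Finset.sum_const, Finset.card_range, nsmul_eq_mul]
    · have hgi' : ∀ᵐ ω ∂P, ∀ j, Tendsto (fun L => g L j ω) atTop (𝓝 (gi j ω)) :=
        ae_all_iff.2 hgi
      filter_upwards [hgi', hiaf] with ω h2 hi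
      refine Tendsto.neg (tendsto_finsetSum _ fun j _ => ?_)
      refine (h2 j).congr' ?_
      filter_upwards [ia_eventually_zero hs hu hi] with L e2
      rw [e2, if_pos (Nat.zero_le j)]
  have hgiint : ∀ j, Integrable (gi j) P := by
    intro j
    have hm : AEStronglyMeasurable (gi j) P :=
      aestronglyMeasurable_of_tendsto_ae atTop (fun L => (hgm L j).aestronglyMeasurable) (hgi j)
    refine Integrable.mono' (integrable_const C) hm ?_
    filter_upwards [hgi j] with ω h2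
    rw [Real.norm_eq_abs]
    exact le_of_tendsto' h2.abs fun L => hgb L j ω
  have h3 := ge_of_tendsto' (hz'.add hβ) h1
  have h4 : ∫ ω, -(∑ j ∈ Finset.range c, gi j ω) ∂P = -(∑ j ∈ Finset.range c, ∫ ω, gi j ω ∂P) := by
    rw [integral_neg, integral_finsetSum _ fun j _ => hgiint j]
  rw [h4] at h3
  change rho σ F K d + ∑ j ∈ Finset.range c, ∫ ω, gi j ω ∂P ≤
    (∫⁻ ω, tg σ K 0 0 (d + (s * k) • vert σ) ω ∂P).toReal
  linarith

/-- THE LABEL INEQUALITY. -/
theorem label_lim {N : ℕ} (hN : 0 < N) (k : ℕ)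
    (hfin : ∀ L : ℕ, ∀ᵐ ω ∂(iid Ed F), ∀ᶠ m : ℕ in atTop,
      T (wt ω) (Wal s σ u L ∩ Rg σ (wt ω) K 0) (xb σ s K (Wal s σ u L) 0 ω)
        (tar s σ u L m) ≠ ⊤) {g : ℕ → ℕ → Om → ℝ}
    (hg : ∀ L : ℕ, ∀ᵐ ω ∂(iid Ed F), ∀ j : ℕ, ia σ s (wt ω) K (Wal s σ u L) ≤ j →
      Tendsto (fun m : ℕ =>
        (T (wt ω) (Wal s σ u L ∩ Rg σ (wt ω) K 0) (pk σ (wt ω) K 0 (s * j)) (tar s σ u L m)).toReal -
        (T (wt ω) (Wal s σ u L ∩ Rg σ (wt ω) K 0) (pk σ (wt ω) K 0 (s * (j + 1)))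
          (tar s σ u L m)).toReal) atTop (𝓝 (g L j ω)))
    (hgm : ∀ L j, Measurable (g L j)) {C : ℝ} (hgb : ∀ L j ω, |g L j ω| ≤ C)
    {gi : ℕ → Om → ℝ}
    (hgi : ∀ j, ∀ᵐ ω ∂(iid Ed F), Tendsto (fun L => g L j ω) atTop (𝓝 (gi j ω)))
    (hper : ∀ j, ∫ ω, gi (j + per σ) ω ∂(iid Ed F) = ∫ ω, gi j ω ∂(iid Ed F)) :
    k * ∑ j ∈ Finset.range (per σ), ∫ ω, gi j ω ∂(iid Ed F) ≤
      rho σ F K (N • u + (s * k) • vert σ) - rho σ F K (N • u) := by
  set P := iid Ed F with hP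
  set I : ℝ := ∑ j ∈ Finset.range (per σ), ∫ ω, gi j ω ∂P with hI
  have hsum : ∀ k : ℕ, ∑ j ∈ Finset.range (k * per σ), ∫ ω, gi j ω ∂P = k * I := by
    have hper' : ∀ k j : ℕ, ∫ ω, gi (j + k * per σ) ω ∂P = ∫ ω, gi j ω ∂P := by
      intro k
      induction k with
      | zero => intro j; simp
      | succ k ih =>
        intro j
        rw [show j + (k + 1) * per σ = (j + k * per σ) + per σ by ring, hper, ih]
    intro k
    induction k with
    | zero => simp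
    | succ k ih =>
      rw [Nat.succ_mul, Finset.sum_range_add, ih]
      have : ∑ x ∈ Finset.range (per σ), ∫ ω, gi (k * per σ + x) ω ∂P = I := by
        refine Finset.sum_congr rfl fun j _ => ?_
        rw [add_comm, hper']
      rw [this]
      push_cast
      ring
  have hx0 : 0 ≤ ln σ (N • u + (s * k) • vert σ) := by
    rw [ln_add, ln_zsmul, ln_vt, mul_zero, add_zero, ln_nsmul]
    positivity
  have key : ∀ M : ℕ, 0 < M → rho σ F K (N • u) + k * I ≤
      eg σ F K 0 (M • (N • u + (s * k) • vert σ)) / M := by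
    intro M hM
    have hM' : (0 : ℝ) < M := by exact_mod_cast hM
    have h1 := label_block hK hσ hs hu hu2 (N := M * N) (Nat.mul_pos hM hN) (M * k) hfin hg hgm
      hgb hgi
    rw [hsum] at h1
    have e1 : (M * N) • u = M • (N • u) := mul_smul M N u
    have e2 : (M * N) • u + (s * ((M * k : ℕ) : ℤ)) • vert σ =
        M • (N • u + (s * k) • vert σ) := by
      rw [smul_add, e1]
      congr 1
      refine Prod.ext ?_ ?_
      · rw [nsmul_fst, zsmul_fst, zsmul_fst]; push_cast; ring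
      · rw [nsmul_snd, zsmul_snd, zsmul_snd]; push_cast; ring
    rw [e2, e1, rho_nsmul hK hσ] at h1
    rw [le_div_iff₀ hM']
    push_cast at h1
    linarith
  have h2 := tendsto_eg_rho (F := F) hK hσ hx0
  have h3 : rho σ F K (N • u) + k * I ≤ rho σ F K (N • u + (s * k) • vert σ) := by
    refine ge_of_tendsto h2 ?_
    filter_upwards [eventually_gt_atTop 0] with M hM
    exact key M hM
  linarith

end limits

end C7
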