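import Pool.Agent.Lib.MP_c725eb_pr.Cls
import Pool.Agent.Lib.MP_c725eb_pr.StripInst
import Pool.Agent.Lib.MP_c725eb_pr.LabelLim

/-!
# The classes as limits: convergence, monotonicity, domination, order
-/

set_option autoImplicit false

namespace C7

open MeasureTheory Filter Set
open scoped ENNReal Topology

/-! ### the almost sure facts -/

/-- Almost sure facts on one configuration. -/
structure Nice (σ : ℤ) (K : ℝ≥0∞) (w : W) : Prop where
  good : Good σ w K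
  diag : ∀ v, w v 2 = ⊤
  fin : ∀ v, w v 0 ≠ ⊤ ∧ w v 1 ≠ ⊤
  tlo : ∀ (u : V) (L : ℤ), 0 < ln σ u → ∀ᶠ m : ℤ in atTop, C7.tlo σ u L m ∈ Rg σ w K 0
  tup : ∀ (u : V) (L : ℤ), 0 < ln σ u → ∀ᶠ m : ℤ in atTop, C7.tup σ u L m ∈ Rg σ w K 0
  cone : ∀ s : ℤ, s = 1 ∨ s = -1 → Iaf σ s w K (Cone s)

theorem ln_tlo {σ : ℤ} (h : σ = 0 ∨ σ = 1) (u : V) (L m : ℤ) :
    ln σ (tlo σ u L m) = m * ln σ u := by
  unfold ln tlo
  rcases h with rfl | rfl <;> simp only <;> ring

theorem ln_tup {σ : ℤ} (h : σ = 0 ∨ σ = 1) (u : V) (L m : ℤ) :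
    ln σ (tup σ u L m) = m * ln σ u := by
  unfold ln tup
  rcases h with rfl | rfl <;> simp only <;> ring

theorem eventually_int_of_nat {p : ℤ → Prop} (h : ∀ᶠ m : ℕ in atTop, p m) :
    ∀ᶠ m : ℤ in atTop, p m := by
  obtain ⟨N, hN⟩ := eventually_atTop.1 h
  filter_upwards [eventually_ge_atTop (N : ℤ)] with m hm
  have := hN m.toNat (by omega)
  rwa [Int.toNat_of_nonneg (by omega)] at this

theorem ae_mem_Rg {F : Measure ℝ} [IsProbabilityMeasure F] {K : ℝ≥0∞} (hK : SmallK F K) {σ : ℤ}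
    (hσ : σ = 0 ∨ σ = 1) {t : ℤ → V} (ht : ∀ m : ℕ, (m : ℤ) ≤ ln σ (t m)) :
    ∀ᵐ ω ∂(iid Ed F), ∀ᶠ m : ℤ in atTop, t m ∈ Rg σ (wt ω) K 0 := by
  have h1 : ∑' m : ℕ, iid Ed F {ω : Om | t m ∉ Rg σ (wt ω) K 0} ≠ ⊤ := by
    have h2 : ∀ m : ℕ, iid Ed F {ω : Om | t m ∉ Rg σ (wt ω) K 0} ≤ 162 * (1 / 2) ^ m := by
      intro m
      refine le_trans (measure_mono ?_) ((pk_tail_wt hK hσ 0 (ix σ (t m)) m).trans ?_)
      · intro ω hω
        simp only [mem_ofPred_eq] at hω ⊢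
        by_contra hlt
        push Not at hlt
        refine hω ((mem_reg_iff_ln hσ _ _).2 ?_)
        have := ht m
        unfold pk at hlt
        omega
      · gcongr
        norm_num
    refine ne_top_of_le_ne_top ?_ (ENNReal.tsum_le_tsum h2)
    rw [ENNReal.tsum_mul_left]
    exact ENNReal.mul_ne_top (by norm_num) tsum_geom_half
  filter_upwards [ae_eventually_notMem h1] with ω hω
  refine eventually_int_of_nat ?_
  filter_upwards [hω] with m hm
  simpa using hm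

theorem ae_nice {F : Measure ℝ} [IsProbabilityMeasure F] {K : ℝ≥0∞} (hK : SmallK F K) {σ : ℤ}
    (hσ : σ = 0 ∨ σ = 1) : ∀ᵐ ω ∂(iid Ed F), Nice σ K (wt ω) := by
  have h1 : ∀ᵐ ω ∂(iid Ed F), ∀ (u : V) (L : ℤ), 0 < ln σ u → ∀ᶠ m : ℤ in atTop,
      tlo σ u L m ∈ Rg σ (wt ω) K 0 := by
    rw [ae_all_iff]; intro u
    rw [ae_all_iff]; intro L
    by_cases hu : 0 < ln σ u
    · filter_upwards [ae_mem_Rg (F := F) hK hσ (t := fun m => tlo σ u L m) (fun m => by
        rw [ln_tlo hσ]; nlinarith [Int.natCast_nonneg m])] with ω hω _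
      exact hω
    · exact Eventually.of_forall fun _ h => absurd h hu
  have h2 : ∀ᵐ ω ∂(iid Ed F), ∀ (u : V) (L : ℤ), 0 < ln σ u → ∀ᶠ m : ℤ in atTop,
      tup σ u L m ∈ Rg σ (wt ω) K 0 := by
    rw [ae_all_iff]; intro u
    rw [ae_all_iff]; intro L
    by_cases hu : 0 < ln σ u
    · filter_upwards [ae_mem_Rg (F := F) hK hσ (t := fun m => tup σ u L m) (fun m => by
        rw [ln_tup hσ]; nlinarith [Int.natCast_nonneg m])] with ω hω _
      exact hω
    · exact Eventually.of_forall fun _ h => absurd h hu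
  filter_upwards [h1, h2, ae_good_wt (F := F) hK hσ, (ae_iaf (F := F) hK hσ (s := 1) (Or.inl rfl)).1,
    (ae_iaf (F := F) hK hσ (s := -1) (Or.inr rfl)).1] with ω a1 a2 a3 a4 a5
  refine ⟨a3, wt_two ω, wt_ne_top ω, a1, a2, ?_⟩
  rintro s (rfl | rfl)
  · exact a4
  · exact a5

/-! ### directions -/

/-- Directions of the lower walls. -/
structure Dlo (σ : ℤ) (u : V) : Prop where
  pos : 0 < u.1
  ln : 0 < u.1 + u.2
  zero : σ = 0 → u.2 < u.1

/-- Directions of the upper walls. -/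
structure Dup (σ : ℤ) (u : V) : Prop extends Dlo σ u where
  one : σ = 1 → 0 < u.2

theorem Dlo.ln_pos {σ : ℤ} (hσ : σ = 0 ∨ σ = 1) {u : V} (hu : Dlo σ u) : 0 < C7.ln σ u := by
  have h1 := hu.pos
  have h2 := hu.ln
  unfold C7.ln
  rcases hσ with rfl | rfl
  · simpa using h1
  · simpa using h2

theorem wlo_mono_L {σ : ℤ} {u : V} (hu : 0 < ln σ u) {L L' : ℤ} (h : L ≤ L') :
    Wlo σ u L ⊆ Wlo σ u L' := by
  rw [Wlo_eq_Wal, Wlo_eq_Wal]
  exact Wal_mono 1 σ hu h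

theorem wup_mono_L {σ : ℤ} {u : V} (hu : 0 < ln σ u) {L L' : ℤ} (h : L ≤ L') :
    Wup σ u L ⊆ Wup σ u L' := by
  rw [Wup_eq_Wal, Wup_eq_Wal]
  exact Wal_mono (-1) σ hu h

/-- The basic identity for the domains of two directions. -/
theorem det_ln (σ : ℤ) (hσ : σ = 0 ∨ σ = 1) (u u' v : V) :
    det u v * ln σ u' - det u' v * ln σ u = det u u' * ln σ v := by
  unfold det ln
  rcases hσ with rfl | rfl <;> ring

section det

variable {σ : ℤ} {K : ℝ≥0∞} {w : W} {u u' : V} {L L' : ℕ} {i : ℤ}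

/-- The steeper lower wall is above the less steep one, right of the line `0`. -/
theorem wlo_sub (hσ : σ = 0 ∨ σ = 1) (hu : 0 < ln σ u) (hu' : 0 < ln σ u') (hdet : 0 ≤ det u u') {L : ℤ}
    {v : V} (hv : 0 ≤ ln σ v) (h : v ∈ Wlo σ u' L) : v ∈ Wlo σ u L := by
  have h1 : -(L * ln σ u') ≤ det u' v := h
  change -(L * ln σ u) ≤ det u v
  have h2 := det_ln σ hσ u u' v
  have h3 : 0 ≤ det u u' * ln σ v := mul_nonneg hdet hv
  by_contra hlt
  push Not at hlt
  have h4 : (det u v + L * ln σ u) * ln σ u' < 0 := mul_neg_of_neg_of_pos (by linarith) hu'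
  have h5 : 0 ≤ (det u' v + L * ln σ u') * ln σ u := mul_nonneg (by linarith) hu.le
  nlinarith

theorem wup_sub (hσ : σ = 0 ∨ σ = 1) (hu : 0 < ln σ u) (hu' : 0 < ln σ u') (hdet : 0 ≤ det u u') {L : ℤ}
    {v : V} (hv : 0 ≤ ln σ v) (h : v ∈ Wup σ u L) : v ∈ Wup σ u' L := by
  have h1 : det u v ≤ L * ln σ u := h
  change det u' v ≤ L * ln σ u'
  have h2 := det_ln σ hσ u u' v
  have h3 : 0 ≤ det u u' * ln σ v := mul_nonneg hdet hv
  by_contra hlt
  push Not at hlt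
  have h4 : 0 < (det u' v - L * ln σ u') * ln σ u := mul_pos (by linarith) hu
  have h5 : 0 ≤ (L * ln σ u - det u v) * ln σ u' := mul_nonneg (by linarith) hu'.le
  nlinarith

theorem OKlo.mono_env (hσ : σ = 0 ∨ σ = 1) (hN : Nice σ K w)
    (hE : ∀ v ∈ Rg σ w K 0, v ∈ Wlo σ u L → v ∈ Wlo σ u' L') (h : OKlo σ K u L i w) :
    OKlo σ K u' L' i w := fun j hj => cin_mono hE hσ (ck_stp hσ hN.good 0) (h j hj)

theorem OKup.mono_env (hσ : σ = 0 ∨ σ = 1) (hN : Nice σ K w)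
    (hE : ∀ v ∈ Rg σ w K 0, v ∈ Wup σ u L → v ∈ Wup σ u' L') (h : OKup σ K u L i w) :
    OKup σ K u' L' i w := fun j hj => cin_mono hE hσ (ck_stp hσ hN.good 0) (h j hj)

theorem OKlo.mono_i {i' : ℤ} (h : OKlo σ K u L i w) (hi : i ≤ i') : OKlo σ K u L i' w :=
  fun j hj => h j (hi.trans hj)

theorem OKup.mono_i {i' : ℤ} (h : OKup σ K u L i w) (hi : i' ≤ i) : OKup σ K u L i' w :=
  fun j hj => h j (hj.trans hi)

theorem oklo_of_bal (hσ : σ = 0 ∨ σ = 1) (hN : Nice σ K w)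
    (h : ∀ j, i ≤ j → Bal (pk σ w K 0 j) ⊆ Wlo σ u L) : OKlo σ K u L i w :=
  fun j hj => cin_of_bal hσ (ck_stp hσ hN.good 0) (h j hj)

theorem okup_of_bal (hσ : σ = 0 ∨ σ = 1) (hN : Nice σ K w)
    (h : ∀ j, j ≤ i → Bal (pk σ w K 0 j) ⊆ Wup σ u L) : OKup σ K u L i w :=
  fun j hj => cin_of_bal hσ (ck_stp hσ hN.good 0) (h j hj)

theorem okup_pt {j : ℤ} (h : OKup σ K u L i w) (hj : j ≤ i + 1) :
    pt σ (ck σ w K 0) j ∈ Wup σ u L := by
  have := (h (j - 1) (by omega)).2.1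
  rwa [sub_add_cancel] at this

/-! ### convergence -/

theorem two_mul_toReal (K : ℝ≥0∞) : (2 * K).toReal = 2 * K.toReal := by
  rw [ENNReal.toReal_mul]; norm_num

theorem lo_fin_ev (hσ : σ = 0 ∨ σ = 1) (hK : K ≠ ⊤) (hN : Nice σ K w) (hu : Dlo σ u)
    (h : OKlo σ K u L i w) :
    ∀ᶠ m : ℤ in atTop, TI w σ (Wlo σ u L) (ck σ w K 0) i (tlo σ u L m) ≠ ⊤ := by
  refine TI_wlo_ne_top_ev hσ (ck_stp hσ hN.good 0) (pk_open hN.good 0) hK hN.fin hu.pos ?_ h ?_
  · intro h0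
    have h1 := hu.ln
    exact ⟨by omega, hu.zero h0⟩
  · intro _
    exact hN.tlo u L (hu.ln_pos hσ)

theorem up_fin_ev (hσ : σ = 0 ∨ σ = 1) (hK : K ≠ ⊤) (hN : Nice σ K w) (hu : Dup σ u)
    (h : OKup σ K u L i w) :
    ∀ᶠ m : ℤ in atTop, TI w σ (Wup σ u L) (ck σ w K 0) (i + 1) (tup σ u L m) ≠ ⊤ := by
  refine TI_wup_ne_top_ev hσ hN.diag (ck_stp hσ hN.good 0) (pk_open hN.good 0) hK hN.fin hu.pos ?_
    hu.one (fun l hl => h l (by omega)) ?_
  · intro h0
    have h1 := hu.ln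
    exact ⟨by omega, hu.zero h0⟩
  · intro _
    exact hN.tup u L (hu.toDlo.ln_pos hσ)

theorem limsup_clp_eq {f : ℤ → ℝ} {c ℓ : ℝ} (hf : ∀ m, |f m| ≤ c) (h : Tendsto f atTop (𝓝 ℓ)) :
    limsup (fun m : ℕ => clp c (f m)) atTop = ℓ := by
  have h1 : (fun m : ℕ => clp c (f m)) = fun m : ℕ => f m := by
    funext m
    exact clp_of_abs_le (hf m)
  rw [h1]
  exact (h.comp tendsto_natCast_atTop_atTop).limsup_eq

/-- The lower class is the limit along the lower wall. -/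
theorem tendsto_glo (hσ : σ = 0 ∨ σ = 1) (hK : K ≠ ⊤) (hN : Nice σ K w) (hu : Dlo σ u)
    (h : OKlo σ K u L i w) :
    Tendsto (fun m : ℤ => BI w σ (Wlo σ u L) (ck σ w K 0) (tlo σ u L m) i (i + 1)) atTop
      (𝓝 (glo σ K u L i w)) := by
  obtain ⟨ℓ, hℓ⟩ := exists_lim_wlo hσ (ck_stp hσ hN.good 0) (pk_open hN.good 0) hK hu.pos
    (x := i) (x' := i + 1) (by omega) (fun l h1 _ => h l h1) (lo_fin_ev hσ hK hN hu h)
  have h1 : glo σ K u L i w = ℓ := by
    unfold glo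
    rw [if_pos h]
    have hb : ∀ m : ℤ, |BI w σ (Wlo σ u L) (ck σ w K 0) (tlo σ u L m) i (i + 1)| ≤ 2 * K.toReal := by
      intro m
      have := abs_BI_succ_le hσ (ck_stp hσ hN.good 0) (pk_open hN.good 0) hK (h i le_rfl) (tlo σ u L m)
      rwa [two_mul_toReal] at this
    exact limsup_clp_eq (f := fun m : ℤ => BI w σ (Wlo σ u L) (ck σ w K 0) (tlo σ u L m) i (i + 1)) hb hℓ
  rw [h1]
  exact hℓ

/-- The upper class is the limit along the upper wall. -/
theorem tendsto_gup (hσ : σ = 0 ∨ σ = 1) (hK : K ≠ ⊤) (hN : Nice σ K w) (hu : Dup σ u)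
    (h : OKup σ K u L i w) :
    Tendsto (fun m : ℤ => BI w σ (Wup σ u L) (ck σ w K 0) (tup σ u L m) i (i + 1)) atTop
      (𝓝 (gup σ K u L i w)) := by
  have hf : ∀ᶠ m : ℤ in atTop, TI w σ (Wup σ u L) (ck σ w K 0) i (tup σ u L m) ≠ ⊤ := by
    filter_upwards [up_fin_ev hσ hK hN hu h] with m hm
    exact (TI_ne_top_iff hσ (ck_stp hσ hN.good 0) (pk_open hN.good 0) hK (x := i) (x' := i + 1)
      (by omega) (fun l h1 h2 => h l (by omega)) _).2 hm
  obtain ⟨ℓ, hℓ⟩ := exists_lim_wup hσ hN.diag (ck_stp hσ hN.good 0) (pk_open hN.good 0) hK hu.pos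
    hu.one (x := i) (x' := i + 1) (by omega) (fun l h1 h2 => h l (by omega)) hf
  have h1 : gup σ K u L i w = ℓ := by
    unfold gup
    rw [if_pos h]
    have hb : ∀ m : ℤ, |BI w σ (Wup σ u L) (ck σ w K 0) (tup σ u L m) i (i + 1)| ≤ 2 * K.toReal := by
      intro m
      have := abs_BI_succ_le hσ (ck_stp hσ hN.good 0) (pk_open hN.good 0) hK (h i le_rfl) (tup σ u L m)
      rwa [two_mul_toReal] at this
    exact limsup_clp_eq (f := fun m : ℤ => BI w σ (Wup σ u L) (ck σ w K 0) (tup σ u L m) i (i + 1)) hb hℓ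
  rw [h1]
  exact hℓ

/-! ### domination -/

/-- DOMINATION by the lower classes. -/
theorem BI_le_glo (hσ : σ = 0 ∨ σ = 1) (hK : K ≠ ⊤) (hN : Nice σ K w) (hu : Dlo σ u) {E : Set V}
    (hE : ∀ v ∈ Rg σ w K 0, v ∈ Wlo σ u L → v ∈ E) (hci : Cin σ E (ck σ w K 0) i) {t : V}
    (ht : det u t < -(L * ln σ u) + u.1) (hxt : ck σ w K 0 i ≤ t.1 ∨ t ∉ Wlo σ u L)
    (hT : TI w σ E (ck σ w K 0) (i + 1) t ≠ ⊤) :
    BI w σ E (ck σ w K 0) t i (i + 1) ≤ glo σ K u L i w := by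
  by_cases h : OKlo σ K u L i w
  · exact BI_le_lim hσ (ck_stp hσ hN.good 0) hu.pos (by have := hu.ln; omega) (x := i)
      (x' := i + 1) (by omega) hE ht hxt (fun j hj => (h j hj).1) hT (lo_fin_ev hσ hK hN hu h)
      (tendsto_glo hσ hK hN hu h)
  · unfold glo
    rw [if_neg h]
    have := abs_BI_succ_le hσ (ck_stp hσ hN.good 0) (pk_open hN.good 0) hK hci t
    rw [two_mul_toReal] at this
    exact (le_abs_self _).trans this

/-- DOMINATION by the upper classes. -/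
theorem gup_le_BI (hσ : σ = 0 ∨ σ = 1) (hK : K ≠ ⊤) (hN : Nice σ K w) (hu : Dup σ u) {E : Set V}
    (hE : ∀ v ∈ Rg σ w K 0, v ∈ Wup σ u L → v ∈ E) (hci : Cin σ E (ck σ w K 0) i) {t : V}
    (ht : L * ln σ u - (rf σ u).1 < det u t)
    (hxt : (rf σ (pt σ (ck σ w K 0) (i + 1))).1 ≤ (rf σ t).1 ∨ t ∉ Wup σ u L)
    (hT : TI w σ E (ck σ w K 0) i t ≠ ⊤) :
    gup σ K u L i w ≤ BI w σ E (ck σ w K 0) t i (i + 1) := by
  by_cases h : OKup σ K u L i w
  · exact lim_le_BI hσ hN.diag (ck_stp hσ hN.good 0) hu.pos (fun h0 => (hu.zero h0).le) hu.one (x := i)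
      (x' := i + 1) (by omega) hE ht hxt (fun j hj => okup_pt h hj) hT (up_fin_ev hσ hK hN hu h)
      (tendsto_gup hσ hK hN hu h)
  · unfold gup
    rw [if_neg h]
    have := abs_BI_succ_le hσ (ck_stp hσ hN.good 0) (pk_open hN.good 0) hK hci t
    rw [two_mul_toReal] at this
    have h2 := neg_abs_le (BI w σ E (ck σ w K 0) t i (i + 1))
    linarith

/-- DOMINATION in strips by the lower classes. -/
theorem BI_lft_le_glo (hσ : σ = 0 ∨ σ = 1) (hK : K ≠ ⊤) (hN : Nice σ K w) (hu : Dlo σ u)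
    {d : ℤ → ℤ} (hd : Stp σ d) (hcd : ∀ i, ck σ w K 0 i + (1 - σ) ≤ d i) {h : ℤ}
    (hb : ∀ i, i ≤ h → det u (pt σ d i) + 2 * (|u.1| + |u.2|) < -(L * ln σ u)) :
    BI w σ (lft σ d) (ck σ w K 0) (pt σ d h) i (i + 1) ≤ glo σ K u L i w := by
  have hci := cin_lft hσ hcd
  by_cases hok : OKlo σ K u L i w
  · have ht : pt σ d h ∈ reg σ (ck σ w K 0) ∧ pt σ d h ∈ lft σ d := by
      constructor
      · change ck σ w K 0 (ix σ (pt σ d h)) ≤ (pt σ d h).1
        rw [ix_pt]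
        have := hcd h
        have e : (pt σ d h).1 = d h := rfl
        rcases hσ with rfl | rfl <;> omega
      · change (pt σ d h).1 ≤ d (ix σ (pt σ d h))
        rw [ix_pt]
        exact le_rfl
    exact BI_lft_le_lim hσ hN.diag (ck_stp hσ hN.good 0) hd hu.pos (by have := hu.ln; omega) (x := i)
      (x' := i + 1) (by omega) hb (hci i).1 (fun j hj => (hok j hj).1)
      (TI_lft_ne_top hσ (ck_stp hσ hN.good 0) hd (pk_open hN.good 0) hK hN.fin hcd _ ht.1 ht.2)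
      (lo_fin_ev hσ hK hN hu hok) (tendsto_glo hσ hK hN hu hok)
  · unfold glo
    rw [if_neg hok]
    have := abs_BI_succ_le hσ (ck_stp hσ hN.good 0) (pk_open hN.good 0) hK (hci i) (pt σ d h)
    rw [two_mul_toReal] at this
    exact (le_abs_self _).trans this

/-- DOMINATION in strips by the upper classes. -/
theorem gup_le_BI_lft (hσ : σ = 0 ∨ σ = 1) (hK : K ≠ ⊤) (hN : Nice σ K w) (hu : Dup σ u)
    {d : ℤ → ℤ} (hd : Stp σ d) (hcd : ∀ i, ck σ w K 0 i + (1 - σ) ≤ d i) {h : ℤ}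
    (hb : ∀ i, h ≤ i → L * ln σ u < det u (pt σ d i) - 2 * (|u.1| + |u.2|)) :
    gup σ K u L i w ≤ BI w σ (lft σ d) (ck σ w K 0) (pt σ d h) i (i + 1) := by
  have hci := cin_lft hσ hcd
  by_cases hok : OKup σ K u L i w
  · have ht : pt σ d h ∈ reg σ (ck σ w K 0) ∧ pt σ d h ∈ lft σ d := by
      constructor
      · change ck σ w K 0 (ix σ (pt σ d h)) ≤ (pt σ d h).1
        rw [ix_pt]
        have := hcd h
        have e : (pt σ d h).1 = d h := rfl
        rcases hσ with rfl | rfl <;> omega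
      · change (pt σ d h).1 ≤ d (ix σ (pt σ d h))
        rw [ix_pt]
        exact le_rfl
    exact lim_le_BI_lft hσ hN.diag (ck_stp hσ hN.good 0) hd hu.pos (fun h0 => (hu.zero h0).le) hu.one
      (x := i) (x' := i + 1) (by omega) hb (hci (i + 1)).1 (fun j hj => okup_pt hok hj)
      (TI_lft_ne_top hσ (ck_stp hσ hN.good 0) hd (pk_open hN.good 0) hK hN.fin hcd _ ht.1 ht.2)
      (up_fin_ev hσ hK hN hu hok) (tendsto_gup hσ hK hN hu hok)
  · unfold gup
    rw [if_neg hok]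
    have := abs_BI_succ_le hσ (ck_stp hσ hN.good 0) (pk_open hN.good 0) hK (hci i) (pt σ d h)
    rw [two_mul_toReal] at this
    have h2 := neg_abs_le (BI w σ (lft σ d) (ck σ w K 0) (pt σ d h) i (i + 1))
    linarith

/-! ### order -/

/-- The lower classes are nondecreasing in the slope. -/
theorem glo_le_glo (hσ : σ = 0 ∨ σ = 1) (hK : K ≠ ⊤) (hN : Nice σ K w) (hu : Dlo σ u) (hu' : Dlo σ u')
    (hdet : 0 < det u u') : glo σ K u L i w ≤ glo σ K u' L i w := by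
  by_cases h : OKlo σ K u' L i w
  · have hE : ∀ v ∈ Rg σ w K 0, v ∈ Wlo σ u' L → v ∈ Wlo σ u L := fun v hv hv' =>
      wlo_sub hσ (hu.ln_pos hσ) (hu'.ln_pos hσ) hdet.le (le_ln_of_mem hσ hN.good hv) hv'
    have hok : OKlo σ K u L i w := h.mono_env hσ hN hE
    refine le_of_tendsto (tendsto_glo hσ hK hN hu hok) ?_
    filter_upwards [lo_fin_ev hσ hK hN hu (hok.mono_i (by omega : i ≤ i + 1)),
      tlo_not_mem_ev (σ := σ) (L := (L : ℤ)) (L' := (L : ℤ)) hdet] with m h1 h2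
    exact BI_le_glo hσ hK hN hu' hE (hok i le_rfl)
      (by have := det_lt_of_not_mem h2; have := hu'.pos; omega) (Or.inr h2) h1
  · have := (le_abs_self _).trans (abs_glo_le σ K u L i w)
    conv_rhs => unfold glo
    rw [if_neg h]
    exact this

/-- The upper classes are nondecreasing in the slope. -/
theorem gup_le_gup (hσ : σ = 0 ∨ σ = 1) (hK : K ≠ ⊤) (hN : Nice σ K w) (hu : Dup σ u) (hu' : Dup σ u')
    (hdet : 0 < det u u') : gup σ K u L i w ≤ gup σ K u' L i w := by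
  by_cases h : OKup σ K u L i w
  · have hE : ∀ v ∈ Rg σ w K 0, v ∈ Wup σ u L → v ∈ Wup σ u' L := fun v hv hv' =>
      wup_sub hσ (hu.toDlo.ln_pos hσ) (hu'.toDlo.ln_pos hσ) hdet.le (le_ln_of_mem hσ hN.good hv) hv'
    have hok : OKup σ K u' L i w := h.mono_env hσ hN hE
    refine ge_of_tendsto (tendsto_gup hσ hK hN hu' hok) ?_
    filter_upwards [up_fin_ev hσ hK hN hu' (hok.mono_i (by omega : i - 1 ≤ i)),
      eventually_gt_atTop (0 : ℤ)] with m h1 h2
    have hd : L * ln σ u < det u (tup σ u' L m) := by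
      have e : det u (tup σ u' L m) = m * det u u' + L * ln σ u := by
        unfold det tup ln
        simp only
        ring
      rw [e]
      have := mul_pos h2 hdet
      linarith
    have hpos := rf_fst_pos hσ hu.pos hu.one
    rw [sub_add_cancel] at h1
    exact gup_le_BI hσ hK hN hu hE (hok i le_rfl) (by omega) (Or.inr fun hm => by
      have : det u (tup σ u' L m) ≤ L * ln σ u := hm
      omega) h1
  · have := (abs_le.1 (abs_gup_le σ K u' L i w)).1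
    conv_lhs => unfold gup
    rw [if_neg h]
    exact this

/-- The upper classes are below the steeper lower classes. -/
theorem gup_le_glo (hσ : σ = 0 ∨ σ = 1) (hK : K ≠ ⊤) (hN : Nice σ K w) (hu : Dup σ u) (hu2 : u.2 ≤ u.1)
    (hu' : Dlo σ u') (hdet : 0 < det u u') : gup σ K u L i w ≤ glo σ K u' L' i w := by
  by_cases h : OKup σ K u L i w
  · by_cases h' : OKlo σ K u' L' i w
    · obtain ⟨q, hq⟩ := BI_wup_le_wlo_far (w := w) hσ (ck_stp hσ hN.good 0) hu.pos hu2 hu'.pos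
        (by have := hu'.ln; omega) hdet (x := i) (x' := i + 1) (by omega)
        (fun j hj => (h' j hj).1) (fun j hj => okup_pt h hj)
      refine le_of_tendsto_of_tendsto (tendsto_gup hσ hK hN hu h) (tendsto_glo hσ hK hN hu' h') ?_
      filter_upwards [lo_fin_ev hσ hK hN hu' h', up_fin_ev hσ hK hN hu h,
        (tendsto_tlo_fst (σ := σ) (L := (L' : ℤ)) hu'.pos).eventually_gt_atTop q,
        (tendsto_tup_fst (σ := σ) (L := (L : ℤ)) hu.pos).eventually_gt_atTop q,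
        tup_not_mem_ev (σ := σ) (L := (L : ℤ)) (L' := (L' : ℤ)) hdet] with m h1 h2 h3 h4 h5
      exact hq _ _ h3 h4 h5 h2 h1
    · have := (le_abs_self _).trans (abs_gup_le σ K u L i w)
      conv_rhs => unfold glo
      rw [if_neg h']
      exact this
  · have := (abs_le.1 (abs_glo_le σ K u' L' i w)).1
    conv_lhs => unfold gup
    rw [if_neg h]
    exact this

/-- The lower classes are nonincreasing in `L`. -/
theorem glo_anti_L (hσ : σ = 0 ∨ σ = 1) (hK : K ≠ ⊤) (hN : Nice σ K w) (hu : Dlo σ u) (i : ℤ) :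
    Antitone fun L : ℕ => glo σ K u L i w := by
  intro L L' hL
  change glo σ K u L' i w ≤ glo σ K u L i w
  have hL' : (L : ℤ) ≤ L' := by exact_mod_cast hL
  by_cases h : OKlo σ K u L i w
  · have hE : ∀ v ∈ Rg σ w K 0, v ∈ Wlo σ u L → v ∈ Wlo σ u L' := fun v _ hv' =>
      wlo_mono_L (hu.ln_pos hσ) hL' hv'
    have hok : OKlo σ K u L' i w := h.mono_env hσ hN hE
    refine le_of_tendsto (tendsto_glo hσ hK hN hu hok) ?_
    filter_upwards [lo_fin_ev hσ hK hN hu (hok.mono_i (by omega : i ≤ i + 1)),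
      (tendsto_tlo_fst (σ := σ) (L := (L' : ℤ)) hu.pos).eventually_ge_atTop (ck σ w K 0 i)] with m h1 h2
    refine BI_le_glo hσ hK hN hu hE (hok i le_rfl) ?_ (Or.inl h2) h1
    rw [det_tlo]
    have h3 : (L : ℤ) * ln σ u ≤ L' * ln σ u := mul_le_mul_of_nonneg_right hL' (hu.ln_pos hσ).le
    have := hu.pos
    omega
  · have := (le_abs_self _).trans (abs_glo_le σ K u L' i w)
    conv_rhs => unfold glo
    rw [if_neg h]
    exact this

/-- The upper classes are nondecreasing in `L`. -/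
theorem gup_mono_L (hσ : σ = 0 ∨ σ = 1) (hK : K ≠ ⊤) (hN : Nice σ K w) (hu : Dup σ u) (i : ℤ) :
    Monotone fun L : ℕ => gup σ K u L i w := by
  intro L L' hL
  change gup σ K u L i w ≤ gup σ K u L' i w
  have hL' : (L : ℤ) ≤ L' := by exact_mod_cast hL
  by_cases h : OKup σ K u L i w
  · have hE : ∀ v ∈ Rg σ w K 0, v ∈ Wup σ u L → v ∈ Wup σ u L' := fun v _ hv' =>
      wup_mono_L (hu.toDlo.ln_pos hσ) hL' hv'
    have hok : OKup σ K u L' i w := h.mono_env hσ hN hE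
    have hpos := rf_fst_pos hσ hu.pos hu.one
    refine ge_of_tendsto (tendsto_gup hσ hK hN hu hok) ?_
    filter_upwards [up_fin_ev hσ hK hN hu (hok.mono_i (by omega : i - 1 ≤ i)),
      (tendsto_tlo_fst (σ := σ) (L := (L' : ℤ)) hpos).eventually_ge_atTop
        (rf σ (pt σ (ck σ w K 0) (i + 1))).1] with m h1 h2
    rw [sub_add_cancel] at h1
    rw [← rf_tup hσ] at h2
    refine gup_le_BI hσ hK hN hu hE (hok i le_rfl) ?_ (Or.inl h2) h1
    rw [det_tup]
    have h3 : (L : ℤ) * ln σ u ≤ L' * ln σ u := mul_le_mul_of_nonneg_right hL' (hu.toDlo.ln_pos hσ).le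
    omega
  · have := (abs_le.1 (abs_gup_le σ K u L' i w)).1
    conv_lhs => unfold gup
    rw [if_neg h]
    exact this

end det

end C7
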