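import Pool.Agent.Lib.MP_c725eb_pr.Hex
import Pool.Agent.Lib.MP_c725eb_pr.Curve

/-!
# Crossing lemmas for the regions `reg σ c`

`Conn S u v`: `u` and `v` are joined by a path of the triangular lattice inside `S`.
`cross_bot`: a path from the lower point `pt σ c x` to the far right meets a path from the upper point
`pt σ c x'` to the bottom. `cross_top`: mirror image.
-/

set_option autoImplicit false

namespace C7

/-- Connection inside a set. -/
def Conn (S : Set V) : V → V → Prop := Relation.ReflTransGen fun u v => Adj u v ∧ u ∈ S ∧ v ∈ S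

theorem Conn.refl {S : Set V} (u : V) : Conn S u u := Relation.ReflTransGen.refl

theorem Conn.trans {S : Set V} {u v x : V} (h : Conn S u v) (h' : Conn S v x) : Conn S u x :=
  Relation.ReflTransGen.trans h h'

theorem Conn.symm {S : Set V} {u v : V} (h : Conn S u v) : Conn S v u := by
  induction h with
  | refl => exact Conn.refl _
  | tail _ h ih => exact Relation.ReflTransGen.head ⟨h.1.symm, h.2.2, h.2.1⟩ ih

theorem Conn.mono {S S' : Set V} (hS : S ⊆ S') {u v : V} (h : Conn S u v) : Conn S' u v := by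
  induction h with
  | refl => exact Conn.refl _
  | tail _ h ih => exact Relation.ReflTransGen.tail ih ⟨h.1, hS h.2.1, hS h.2.2⟩

theorem Conn.step {S : Set V} {u v : V} (h : Adj u v) (hu : u ∈ S) (hv : v ∈ S) : Conn S u v :=
  Relation.ReflTransGen.single ⟨h, hu, hv⟩

/-- A connection is a chain. -/
theorem Conn.exists_list {S : Set V} {u v : V} (h : Conn S u v) (hu : u ∈ S) :
    ∃ l : List V, List.IsChain Adj l ∧ l.head? = some u ∧ l.getLast? = some v ∧ ∀ p ∈ l, p ∈ S := by
  induction h with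
  | refl => exact ⟨[u], by simp, rfl, rfl, by simpa using hu⟩
  | @tail b c _ h ih =>
    obtain ⟨l, h1, h2, h3, h4⟩ := ih
    refine ⟨l ++ [c], ?_, ?_, by simp, ?_⟩
    · rw [List.isChain_append]
      refine ⟨h1, by simp, ?_⟩
      intro x hx y hy
      rw [h3] at hx
      simp at hx hy
      subst hx
      subst hy
      exact h.1
    · cases l with
      | nil => simp at h2
      | cons a l' => simpa using h2
    · intro p hp
      rw [List.mem_append] at hp
      rcases hp with hp | hp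
      · exact h4 p hp
      · simp at hp
        rw [hp]; exact h.2.2

/-- A chain is a connection. -/
theorem conn_of_list {S : Set V} : ∀ {l : List V} {u v : V}, List.IsChain Adj l → l.head? = some u →
    l.getLast? = some v → (∀ p ∈ l, p ∈ S) → Conn S u v := by
  intro l
  induction l with
  | nil => intro u v _ h; simp at h
  | cons a l ih =>
    intro u v hc hu hv hS
    simp at hu
    subst hu
    cases l with
    | nil => simp at hv; subst hv; exact Conn.refl _
    | cons b l' =>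
      rw [List.isChain_cons_cons] at hc
      exact (Conn.step hc.1 (hS _ (by simp)) (hS _ (by simp))).trans
        (ih hc.2 rfl (by simpa using hv) fun p hp => hS p (List.mem_cons_of_mem _ hp))

/-- A walk of finite cost is a connection. -/
theorem IsW.conn {D : Set V} {x y : V} {l : List V} (h : IsW D x y l) {w : W} (hc : cost w l ≠ ⊤) :
    Conn {p | p ∈ l} x y :=
  conn_of_list (chain_of_cost_ne_top hc) h.1 h.2.1 fun _ hp => hp

/-- A line segment in a direction of the lattice. -/
theorem conn_line {S : Set V} {u d : V} (hd : ∀ v : V, Adj v (v.1 + d.1, v.2 + d.2)) (n : ℕ)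
    (h : ∀ t : ℕ, t ≤ n → (u.1 + t * d.1, u.2 + t * d.2) ∈ S) :
    Conn S u (u.1 + n * d.1, u.2 + n * d.2) := by
  induction n with
  | zero => simpa using Conn.refl u
  | succ n ih =>
    refine (ih fun t ht => h t (by omega)).trans ?_
    have h1 := h n (by omega)
    have h2 := h (n + 1) le_rfl
    have e : ((u.1 + ((n + 1 : ℕ) : ℤ) * d.1, u.2 + ((n + 1 : ℕ) : ℤ) * d.2) : V) =
        ((u.1 + n * d.1) + d.1, (u.2 + n * d.2) + d.2) := by
      ext <;> push_cast <;> ring
    rw [e] at h2 ⊢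
    exact Conn.step (hd _) h1 h2

/-- Infinite form of the crossing lemma. -/
theorem hexInf {S S' : Set V} {s t : V} (hS : ∀ p ∈ S, s.1 ≤ p.1 ∧ p.1 < t.1)
    (hS' : Conn S' s t) (hs : s ∈ S')
    (hv : ∀ R : ℤ, ∃ a b : V, R < a.2 ∧ b.2 < -R ∧ a ∈ S ∧ Conn S a b) : ∃ v, v ∈ S ∧ v ∈ S' := by
  obtain ⟨m, hm, hms, hmt, hmS⟩ := hS'.exists_list hs
  obtain ⟨R, hR⟩ : ∃ R : ℤ, ∀ v ∈ m, -R ≤ v.2 ∧ v.2 ≤ R := by
    clear hm hms hmt hmS
    induction m with
    | nil => exact ⟨0, by simp⟩
    | cons a m ih =>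
      obtain ⟨R, hR⟩ := ih
      refine ⟨max R |a.2|, ?_⟩
      intro v hv
      rcases List.mem_cons.1 hv with rfl | hv
      · have := neg_abs_le v.2
        have := le_abs_self v.2
        have := le_max_right R |v.2|
        omega
      · have := hR v hv
        have := le_max_left R |a.2|
        omega
  obtain ⟨a, b, ha, hb, haS, hab⟩ := hv R
  obtain ⟨l, hl, hla, hlb, hlS⟩ := hab.exists_list haS
  obtain ⟨c, hc, hc'⟩ := hex hl hm hla hlb hms hmt
    (fun v hv => ⟨by have := hR v hv; omega, by have := hR v hv; omega⟩)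
    (fun p hp => (hS p (hlS p hp)).1) (fun p hp => (hS p (hlS p hp)).2)
  exact ⟨c, hlS c hc, hmS c hc'⟩

theorem adj_right (v : V) : Adj v (v.1 + 1, v.2) := Or.inl rfl
theorem adj_up (v : V) : Adj v (v.1, v.2 + 1) := by unfold Adj; tauto
theorem adj_diag (v : V) : Adj v (v.1 + 1, v.2 + 1) := by unfold Adj; tauto

theorem adj_neg {σ : ℤ} (hσ : σ = 0 ∨ σ = 1) (v : V) : Adj v (v.1 + -1, v.2 + -σ) := by
  obtain ⟨a, b⟩ := v
  unfold Adj
  rcases hσ with rfl | rfl
  · right; left
    ext <;> simp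
  · right; right; right; right; right
    ext <;> simp

theorem adj_pos {σ : ℤ} (hσ : σ = 0 ∨ σ = 1) (v : V) : Adj v (v.1 + 1, v.2 + σ) := by
  rcases hσ with rfl | rfl
  · have := adj_right v
    simpa using this
  · exact adj_diag v

theorem adj_down (v : V) : Adj v (v.1 + 0, v.2 + -1) := by
  obtain ⟨a, b⟩ := v
  unfold Adj
  right; right; right; left
  ext <;> simp

/-- A left ray: from `u` to the column `q` in the direction `-(1, σ)`. -/
theorem conn_left {σ : ℤ} (hσ : σ = 0 ∨ σ = 1) {S : Set V} {u : V} {q : ℤ} (hq : q ≤ u.1)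
    (h : ∀ v : V, ix σ v = ix σ u → q ≤ v.1 → v.1 ≤ u.1 → v ∈ S) : Conn S u (q, σ * q + ix σ u) := by
  have h1 := conn_line (S := S) (u := u) (d := (-1, -σ)) (adj_neg hσ) (u.1 - q).toNat (by
    intro t ht
    apply h
    · unfold ix; simp only; ring
    · simp only; omega
    · simp only; omega)
  have e : ((u.1 + ((u.1 - q).toNat : ℤ) * -1, u.2 + ((u.1 - q).toNat : ℤ) * -σ) : V) = (q, σ * q + ix σ u) := by
    rw [Int.toNat_of_nonneg (by omega)]
    unfold ix
    ext
    · simp
    · simp only; ring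
  simp only at h1
  rw [e] at h1
  exact h1

/-- A right ray: from `u` to the column `q` in the direction `(1, σ)`. -/
theorem conn_right {σ : ℤ} (hσ : σ = 0 ∨ σ = 1) {S : Set V} {u : V} {q : ℤ} (hq : u.1 ≤ q)
    (h : ∀ v : V, ix σ v = ix σ u → u.1 ≤ v.1 → v.1 ≤ q → v ∈ S) : Conn S u (q, σ * q + ix σ u) := by
  have h1 := conn_line (S := S) (u := u) (d := (1, σ)) (adj_pos hσ) (q - u.1).toNat (by
    intro t ht
    apply h
    · unfold ix; simp only; ring
    · simp only; omega
    · simp only; omega)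
  have e : ((u.1 + ((q - u.1).toNat : ℤ) * 1, u.2 + ((q - u.1).toNat : ℤ) * σ) : V) = (q, σ * q + ix σ u) := by
    rw [Int.toNat_of_nonneg (by omega)]
    unfold ix
    ext
    · simp
    · simp only; ring
  simp only at h1
  rw [e] at h1
  exact h1

/-- A vertical segment downwards. -/
theorem conn_down {S : Set V} {u : V} {r : ℤ} (hr : r ≤ u.2)
    (h : ∀ v : V, v.1 = u.1 → r ≤ v.2 → v.2 ≤ u.2 → v ∈ S) : Conn S u (u.1, r) := by
  have h1 := conn_line (S := S) (u := u) (d := (0, -1)) adj_down (u.2 - r).toNat (by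
    intro t ht
    apply h
    · simp
    · simp only; omega
    · simp only; omega)
  have e : ((u.1 + ((u.2 - r).toNat : ℤ) * 0, u.2 + ((u.2 - r).toNat : ℤ) * -1) : V) = (u.1, r) := by
    rw [Int.toNat_of_nonneg (by omega)]
    ext <;> simp
  simp only at h1
  rw [e] at h1
  exact h1

/-- A vertical segment upwards. -/
theorem conn_up {S : Set V} {u : V} {r : ℤ} (hr : u.2 ≤ r)
    (h : ∀ v : V, v.1 = u.1 → u.2 ≤ v.2 → v.2 ≤ r → v ∈ S) : Conn S u (u.1, r) := by
  have h1 := conn_down (S := S) (u := (u.1, r)) (r := u.2) hr (fun v h1 h2 h3 => h v h1 h2 h3)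
  exact h1.symm

/-- A horizontal segment to the right. -/
theorem conn_hor {S : Set V} {u : V} {q : ℤ} (hq : u.1 ≤ q)
    (h : ∀ v : V, v.2 = u.2 → u.1 ≤ v.1 → v.1 ≤ q → v ∈ S) : Conn S u (q, u.2) := by
  have h1 := conn_right (σ := 0) (Or.inl rfl) (S := S) (u := u) (q := q) hq (by
    intro v h1 h2 h3
    apply h v _ h2 h3
    unfold ix at h1
    simpa using h1)
  unfold ix at h1
  simpa using h1

/-- A common lower bound for the columns of a finite connection. -/
theorem exists_le_fst (l : List V) : ∃ Q : ℤ, ∀ v ∈ l, Q ≤ v.1 := by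
  induction l with
  | nil => exact ⟨0, by simp⟩
  | cons a l ih =>
    obtain ⟨Q, hQ⟩ := ih
    refine ⟨min Q a.1, ?_⟩
    intro v hv
    rcases List.mem_cons.1 hv with rfl | hv
    · exact min_le_right _ _
    · exact (min_le_left _ _).trans (hQ v hv)

theorem exists_fst_le (l : List V) : ∃ Q : ℤ, ∀ v ∈ l, v.1 ≤ Q := by
  induction l with
  | nil => exact ⟨0, by simp⟩
  | cons a l ih =>
    obtain ⟨Q, hQ⟩ := ih
    refine ⟨max Q a.1, ?_⟩
    intro v hv
    rcases List.mem_cons.1 hv with rfl | hv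
    · exact le_max_right _ _
    · exact (hQ v hv).trans (le_max_left _ _)

theorem exists_le_snd (l : List V) : ∃ Q : ℤ, ∀ v ∈ l, Q ≤ v.2 := by
  induction l with
  | nil => exact ⟨0, by simp⟩
  | cons a l ih =>
    obtain ⟨Q, hQ⟩ := ih
    refine ⟨min Q a.2, ?_⟩
    intro v hv
    rcases List.mem_cons.1 hv with rfl | hv
    · exact min_le_right _ _
    · exact (min_le_left _ _).trans (hQ v hv)

theorem exists_snd_le (l : List V) : ∃ Q : ℤ, ∀ v ∈ l, v.2 ≤ Q := by
  induction l with
  | nil => exact ⟨0, by simp⟩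
  | cons a l ih =>
    obtain ⟨Q, hQ⟩ := ih
    refine ⟨max Q a.2, ?_⟩
    intro v hv
    rcases List.mem_cons.1 hv with rfl | hv
    · exact le_max_right _ _
    · exact (hQ v hv).trans (le_max_left _ _)

/-- CROSSING, lower form: a path from `pt σ c x` to the right of everything meets a path from the
higher point `pt σ c x'` to the bottom. -/
theorem cross_bot {σ : ℤ} (hσ : σ = 0 ∨ σ = 1) {c : ℤ → ℤ} {x x' : ℤ} (hx : x < x') {SA SB : Set V} {t : V}
    (hA : Conn SA (pt σ c x) t) (hA0 : pt σ c x ∈ SA) (hB0 : pt σ c x' ∈ SB)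
    (hB : ∀ R : ℤ, ∃ b : V, b.2 < R ∧ Conn SB (pt σ c x') b)
    (hct : c x' < t.1) (hBr : ∀ p ∈ SB, p.1 < t.1) (hBl : ∃ Q : ℤ, ∀ p ∈ SB, Q ≤ p.1)
    (hAx : ∀ v ∈ SA, ix σ v = x' → c x' ≤ v.1) (hBx : ∀ v ∈ SB, ix σ v = x → c x ≤ v.1) :
    ∃ v, v ∈ SA ∧ v ∈ SB := by
  obtain ⟨m, hm, hms, hmt, hmS⟩ := hA.exists_list hA0
  obtain ⟨Q1, hQ1⟩ := exists_le_fst m
  obtain ⟨Q2, hQ2⟩ := hBl
  -- the column of the vertical segment
  obtain ⟨q, hq1, hq2, hq3, hq4⟩ : ∃ q : ℤ, q < Q1 ∧ q ≤ Q2 ∧ q ≤ c x' ∧ q ≤ c x :=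
    ⟨min (min (Q1 - 1) Q2) (min (c x') (c x)), by omega, by omega, by omega, by omega⟩
  set S : Set V := SB ∪ ({v | ix σ v = x' ∧ q ≤ v.1 ∧ v.1 ≤ c x'} ∪ {v | v.1 = q ∧ x' ≤ ix σ v}) with hS
  set S' : Set V := {v | v ∈ m} ∪ {v | ix σ v = x ∧ q - 1 ≤ v.1 ∧ v.1 ≤ c x} with hS'
  have hpx : (pt σ c x).1 = c x := rfl
  have hpx' : (pt σ c x').1 = c x' := rfl
  have key := hexInf (S := S) (S' := S') (s := (q - 1, σ * (q - 1) + x)) (t := t) ?_ ?_ ?_ ?_
  · obtain ⟨v, hv, hv'⟩ := key
    have hm0 : pt σ c x ∈ m := by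
      have : m ≠ [] := by rintro rfl; simp at hms
      exact List.mem_of_head? hms
    rcases hv' with hv' | hv'
    · rcases hv with hv | hv | hv
      · exact ⟨v, hmS v hv', hv⟩
      · have h1 := hAx v (hmS v hv') hv.1
        have e : v = pt σ c x' := by
          have h2 : v.1 = c (ix σ v) := by rw [hv.1]; exact le_antisymm hv.2.2 h1
          rw [eq_pt h2, hv.1]
        exact ⟨v, hmS v hv', e ▸ hB0⟩
      · have h1 := hQ1 v hv'
        have h2 : v.1 = q := hv.1
        omega
    · rcases hv with hv | hv | hv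
      · have h1 := hBx v hv hv'.1
        have e : v = pt σ c x := by
          have h2 : v.1 = c (ix σ v) := by rw [hv'.1]; exact le_antisymm hv'.2.2 h1
          rw [eq_pt h2, hv'.1]
        exact ⟨v, e ▸ hA0, hv⟩
      · have h1 := hv.1
        have h2 := hv'.1
        omega
      · have h1 := hv.2
        have h2 := hv'.1
        omega
  · -- columns of S
    intro p hp
    rcases hp with hp | hp | hp
    · have h1 := hBr p hp
      have h2 := hQ2 p hp
      simp only; omega
    · have := hp.2; simp only; omega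
    · have h1 : p.1 = q := hp.1
      simp only; omega
  · -- connection from left to right
    have h1 : Conn S' (pt σ c x) (q - 1, σ * (q - 1) + ix σ (pt σ c x)) := by
      apply conn_left hσ (by rw [hpx]; omega)
      intro v h1 h2 h3
      right
      rw [ix_pt] at h1
      exact ⟨h1, h2, h3⟩
    rw [ix_pt] at h1
    exact h1.symm.trans (conn_of_list hm hms hmt fun p hp => Or.inl hp)
  · right
    refine ⟨?_, le_rfl, by simp only; omega⟩
    unfold ix; simp only; ring
  · intro R
    obtain ⟨b, hb1, hb2⟩ := hB (-R)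
    have h1 : Conn S (pt σ c x') (q, σ * q + ix σ (pt σ c x')) := by
      apply conn_left hσ (by rw [hpx']; omega)
      intro v h1 h2 h3
      right; left
      rw [ix_pt] at h1
      exact ⟨h1, h2, h3⟩
    rw [ix_pt] at h1
    set r : ℤ := max (R + 1) (σ * q + x') with hr
    have h2 : Conn S (q, σ * q + x') (q, r) := by
      apply conn_up (u := (q, σ * q + x')) (le_max_right _ _)
      intro v h1 h2 h3
      right; right
      refine ⟨h1, ?_⟩
      simp only at h1 h2
      unfold ix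
      rw [h1]; omega
    refine ⟨(q, r), b, ?_, hb1, ?_, ?_⟩
    · simp only; omega
    · right; right
      refine ⟨rfl, ?_⟩
      unfold ix; simp only; omega
    · exact (h1.trans h2).symm.trans (hb2.mono fun v hv => Or.inl hv)

/-- CROSSING, upper form: a path from `pt σ c x` to the right of everything meets a path from the
lower point `pt σ c x'` to the top. -/
theorem cross_top {σ : ℤ} (hσ : σ = 0 ∨ σ = 1) {c : ℤ → ℤ} {x x' : ℤ} (hx : x' < x) {SA SB : Set V} {t : V}
    (hA : Conn SA (pt σ c x) t) (hA0 : pt σ c x ∈ SA) (hB0 : pt σ c x' ∈ SB)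
    (hB : ∀ R : ℤ, ∃ b : V, R < b.2 ∧ Conn SB (pt σ c x') b)
    (hct : c x' < t.1) (hBr : ∀ p ∈ SB, p.1 < t.1) (hBl : ∃ Q : ℤ, ∀ p ∈ SB, Q ≤ p.1)
    (hAx : ∀ v ∈ SA, ix σ v = x' → c x' ≤ v.1) (hBx : ∀ v ∈ SB, ix σ v = x → c x ≤ v.1) :
    ∃ v, v ∈ SA ∧ v ∈ SB := by
  obtain ⟨m, hm, hms, hmt, hmS⟩ := hA.exists_list hA0
  obtain ⟨Q1, hQ1⟩ := exists_le_fst m
  obtain ⟨Q2, hQ2⟩ := hBl
  obtain ⟨q, hq1, hq2, hq3, hq4⟩ : ∃ q : ℤ, q < Q1 ∧ q ≤ Q2 ∧ q ≤ c x' ∧ q ≤ c x :=
    ⟨min (min (Q1 - 1) Q2) (min (c x') (c x)), by omega, by omega, by omega, by omega⟩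
  set S : Set V := SB ∪ ({v | ix σ v = x' ∧ q ≤ v.1 ∧ v.1 ≤ c x'} ∪ {v | v.1 = q ∧ ix σ v ≤ x'}) with hS
  set S' : Set V := {v | v ∈ m} ∪ {v | ix σ v = x ∧ q - 1 ≤ v.1 ∧ v.1 ≤ c x} with hS'
  have hpx : (pt σ c x).1 = c x := rfl
  have hpx' : (pt σ c x').1 = c x' := rfl
  have key := hexInf (S := S) (S' := S') (s := (q - 1, σ * (q - 1) + x)) (t := t) ?_ ?_ ?_ ?_
  · obtain ⟨v, hv, hv'⟩ := key
    rcases hv' with hv' | hv'
    · rcases hv with hv | hv | hv
      · exact ⟨v, hmS v hv', hv⟩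
      · have h1 := hAx v (hmS v hv') hv.1
        have e : v = pt σ c x' := by
          have h2 : v.1 = c (ix σ v) := by rw [hv.1]; exact le_antisymm hv.2.2 h1
          rw [eq_pt h2, hv.1]
        exact ⟨v, hmS v hv', e ▸ hB0⟩
      · have h1 := hQ1 v hv'
        have h2 : v.1 = q := hv.1
        omega
    · rcases hv with hv | hv | hv
      · have h1 := hBx v hv hv'.1
        have e : v = pt σ c x := by
          have h2 : v.1 = c (ix σ v) := by rw [hv'.1]; exact le_antisymm hv'.2.2 h1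
          rw [eq_pt h2, hv'.1]
        exact ⟨v, e ▸ hA0, hv⟩
      · have h1 := hv.1
        have h2 := hv'.1
        omega
      · have h1 := hv.2
        have h2 := hv'.1
        omega
  · intro p hp
    rcases hp with hp | hp | hp
    · have h1 := hBr p hp
      have h2 := hQ2 p hp
      simp only; omega
    · have := hp.2; simp only; omega
    · have h1 : p.1 = q := hp.1
      simp only; omega
  · have h1 : Conn S' (pt σ c x) (q - 1, σ * (q - 1) + ix σ (pt σ c x)) := by
      apply conn_left hσ (by rw [hpx]; omega)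
      intro v h1 h2 h3
      right
      rw [ix_pt] at h1
      exact ⟨h1, h2, h3⟩
    rw [ix_pt] at h1
    exact h1.symm.trans (conn_of_list hm hms hmt fun p hp => Or.inl hp)
  · right
    refine ⟨?_, le_rfl, by simp only; omega⟩
    unfold ix; simp only; ring
  · intro R
    obtain ⟨b, hb1, hb2⟩ := hB R
    have h1 : Conn S (pt σ c x') (q, σ * q + ix σ (pt σ c x')) := by
      apply conn_left hσ (by rw [hpx']; omega)
      intro v h1 h2 h3
      right; left
      rw [ix_pt] at h1
      exact ⟨h1, h2, h3⟩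
    rw [ix_pt] at h1
    set r : ℤ := min (-R - 1) (σ * q + x') with hr
    have h2 : Conn S (q, σ * q + x') (q, r) := by
      apply conn_down (u := (q, σ * q + x')) (min_le_right _ _)
      intro v h1 h2 h3
      right; right
      refine ⟨h1, ?_⟩
      simp only at h1 h3
      unfold ix
      rw [h1]; omega
    refine ⟨b, (q, r), hb1, ?_, ?_, ?_⟩
    · simp only; omega
    · left
      obtain ⟨l, _, hl2, hl3, hl4⟩ := hb2.exists_list hB0
      exact hl4 b (List.mem_of_getLast? hl3)
    · exact (hb2.mono fun v hv => Or.inl hv).symm.trans (h1.trans h2)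

end C7
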