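import Pool.Agent.Lib.MP_c725eb_pr.Dom

/-!
# Upper walls, from the lower ones by reflection
-/

set_option autoImplicit false

namespace C7

open scoped ENNReal Topology
open Filter

section upper

variable {σ : ℤ} {w : W} {E : Set V} {c d : ℤ → ℤ} {u u' : V} {L L' : ℤ} {K : ℝ≥0∞}

theorem rfw_zero (v : V) (hσ : σ = 0 ∨ σ = 1) : rfw σ w (rf σ v) 0 = if σ = 0 then w v 0 else w v 1 := by
  unfold rfw
  rw [if_pos rfl, rf_rf hσ]
  obtain ⟨a, b⟩ := v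
  rcases hσ with rfl | rfl
  · rw [rf_zero, rf_zero, if_pos rfl]
    simp only [neg_neg]
    exact step_right w (a, b)
  · rw [rf_one, rf_one, if_neg (by norm_num)]
    exact step_up w (a, b)

theorem rfw_one_one (v : V) : rfw 1 w (rf 1 v) 1 = w v 0 := by
  unfold rfw
  rw [if_neg (by decide), if_pos rfl, rf_rf (Or.inr rfl)]
  obtain ⟨a, b⟩ := v
  rw [rf_one, rf_one]
  exact step_right w (a, b)

theorem rfw_zero_one (v : V) : rfw 0 w (rf 0 v) 1 = w (v.1, v.2 - 1) 1 := by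
  unfold rfw
  rw [if_neg (by decide), if_pos rfl, rf_rf (Or.inl rfl)]
  obtain ⟨a, b⟩ := v
  rw [rf_zero, rf_zero]
  simp only [neg_add_rev, neg_neg]
  have h := step_up w (a, b - 1)
  simp only [sub_add_cancel] at h
  rw [step_comm, ← h]
  congr 1
  ext
  · rfl
  · simp only; ring

theorem opn_rfw_rf (hσ : σ = 0 ∨ σ = 1) (v : V) : Opn σ (rfw σ w) K (rf σ v) ↔ Opn σ w K v := by
  rcases hσ with rfl | rfl
  · unfold Opn
    rw [rfw_zero v (Or.inl rfl), if_pos rfl, rfw_zero_one]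
    have e : ((rf 0 v).1, (rf 0 v).2 - 1) = rf 0 (v.1, v.2 + 1) := by
      rw [rf_zero, rf_zero]
      ext
      · rfl
      · simp only; ring
    rw [e, rfw_zero_one]
    simp only [add_sub_cancel_right, Prod.mk.eta, true_implies]
    tauto
  · unfold Opn
    rw [rfw_zero v (Or.inr rfl), if_neg (by norm_num), rfw_one_one]
    simp only [one_ne_zero, false_implies, and_true]
    tauto

theorem opn_rfc (hσ : σ = 0 ∨ σ = 1) (ho : ∀ i, Opn σ w K (pt σ c i)) (i : ℤ) :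
    Opn σ (rfw σ w) K (pt σ (rfc σ c) i) := by
  rw [pt_rfc hσ, opn_rfw_rf hσ]
  exact ho _

theorem rfw_ne_top (hσ : σ = 0 ∨ σ = 1) (hw : ∀ v, w v 0 ≠ ⊤ ∧ w v 1 ≠ ⊤) (v : V) :
    rfw σ w v 0 ≠ ⊤ ∧ rfw σ w v 1 ≠ ⊤ := by
  rw [← rf_rf hσ v]
  rcases hσ with rfl | rfl
  · rw [rfw_zero _ (Or.inl rfl), rfw_zero_one, if_pos rfl]
    exact ⟨(hw _).1, (hw _).2⟩
  · rw [rfw_zero _ (Or.inr rfl), rfw_one_one, if_neg (by norm_num)]
    exact ⟨(hw _).2, (hw _).1⟩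

/-- Connections in the reflected system. -/
theorem cin_rf (hσ : σ = 0 ∨ σ = 1) {E E' : Set V} (hE : ∀ x, rf σ x ∈ E ↔ x ∈ E') {i : ℤ} (h : Cin σ E c i) :
    Cin σ E' (rfc σ c) (-i - 1) := by
  obtain ⟨h1, h2, h3, h4⟩ := h
  refine ⟨?_, ?_, ?_, ?_⟩
  · rw [pt_rfc hσ, ← hE, rf_rf hσ, show -(-i - 1) = i + 1 by ring]
    exact h2
  · rw [pt_rfc hσ, ← hE, rf_rf hσ, show -(-i - 1 + 1) = i by ring]
    exact h1
  · rintro rfl hc
    unfold rfc at hc ⊢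
    rw [show -(-i - 1 + 1) = i by ring, show -(-i - 1) = i + 1 by ring] at hc
    rw [show -(-i - 1) = i + 1 by ring, ← hE, rf_zero]
    simp only [zero_mul, sub_zero] at hc ⊢
    have := h4 rfl (by omega)
    rw [← hc, show -(-i - 1) = i + 1 by ring]
    exact this
  · rintro rfl hc
    unfold rfc at hc ⊢
    rw [show -(-i - 1 + 1) = i by ring, show -(-i - 1) = i + 1 by ring] at hc
    rw [show -(-i - 1) = i + 1 by ring, ← hE, rf_zero]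
    simp only [zero_mul, sub_zero] at hc ⊢
    have := h3 rfl (by omega)
    rw [show c (i + 1) = c i + 1 by omega, show -(-i - 1 + 1) = i by ring]
    exact this

theorem BI_rfw (hσ : σ = 0 ∨ σ = 1) (hw : ∀ v, w v 2 = ⊤) {E E' : Set V} (hE : ∀ x, rf σ x ∈ E ↔ x ∈ E')
    (t : V) (x y : ℤ) : BI w σ E c t x y = BI (rfw σ w) σ E' (rfc σ c) (rf σ t) (-x) (-y) := by
  unfold BI
  rw [TI_rfw hσ hw hE, TI_rfw hσ hw hE, rf_rf hσ, neg_neg, neg_neg]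

theorem rf_tup (hσ : σ = 0 ∨ σ = 1) (u : V) (L m : ℤ) : rf σ (tup σ u L m) = tlo σ (rf σ u) L m := by
  rw [← rf_tlo hσ, rf_rf hσ]

/-- First coordinate of the reflected vertex. -/
theorem rfc_neg (hσ : σ = 0 ∨ σ = 1) (x : ℤ) : rfc σ c (-x) = (rf σ (pt σ c x)).1 := by
  have h := pt_rfc hσ c (-x)
  rw [neg_neg] at h
  rw [← h]
  rfl

theorem rf_fst_pos (hσ : σ = 0 ∨ σ = 1) (hu1 : 0 < u.1) (hu3 : σ = 1 → 0 < u.2) : 0 < (rf σ u).1 := by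
  rcases hσ with rfl | rfl
  · rw [rf_zero]; exact hu1
  · rw [rf_one]; exact hu3 rfl

theorem rf_slope (hσ : σ = 0 ∨ σ = 1) (hu1 : 0 < u.1) (hu2 : σ = 0 → u.2 ≤ u.1) (hu3 : σ = 1 → 0 < u.2) :
    -(rf σ u).1 ≤ (rf σ u).2 := by
  rcases hσ with rfl | rfl
  · rw [rf_zero]
    have := hu2 rfl
    simp only; omega
  · rw [rf_one]
    have := hu3 rfl
    simp only; omega

/-- (1) Monotonicity in the target, upper walls. -/
theorem BI_wup_anti (hσ : σ = 0 ∨ σ = 1) (hw : ∀ v, w v 2 = ⊤) (hu1 : 0 < u.1) (hu3 : σ = 1 → 0 < u.2)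
    {x x' m m' : ℤ} (hx : x ≤ x') (hm : m ≤ m')
    (hcx : (rf σ (pt σ c x)).1 ≤ (rf σ (tup σ u L m)).1) (hcx' : (rf σ (pt σ c x')).1 ≤ (rf σ (tup σ u L m)).1)
    (h1 : TI w σ (Wup σ u L) c x (tup σ u L m) ≠ ⊤) (h2 : TI w σ (Wup σ u L) c x' (tup σ u L m') ≠ ⊤) :
    BI w σ (Wup σ u L) c (tup σ u L m') x x' ≤ BI w σ (Wup σ u L) c (tup σ u L m) x x' := by
  rw [TI_wup hσ hw] at h1 h2
  rw [BI_wup hσ hw, BI_wup hσ hw, BI_neg (-x') (-x), BI_neg (-x') (-x)]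
  apply neg_le_neg
  rw [rf_tup hσ] at hcx hcx'
  exact BI_wlo_mono hσ (rf_fst_pos hσ hu1 hu3) (neg_le_neg hx) hm (by rw [rfc_neg hσ]; exact hcx')
    (by rw [rfc_neg hσ]; exact hcx) h1 h2

/-- (2) Domination, upper walls. -/
theorem wup_le_BI_far (hσ : σ = 0 ∨ σ = 1) (hw : ∀ v, w v 2 = ⊤) (h : Stp σ c) (hu1 : 0 < u.1)
    (hu2 : σ = 0 → u.2 ≤ u.1) (hu3 : σ = 1 → 0 < u.2)
    {x x' : ℤ} (hx : x ≤ x') (hE : ∀ v ∈ reg σ c, v ∈ Wup σ u L → v ∈ E) {t₂ : V}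
    (ht₂ : L * ln σ u - (rf σ u).1 < det u t₂) (hxt : (rf σ (pt σ c x')).1 ≤ (rf σ t₂).1 ∨ t₂ ∉ Wup σ u L)
    (hin : ∀ j, j ≤ x' → pt σ c j ∈ Wup σ u L) (hT : TI w σ E c x t₂ ≠ ⊤) {ε : ℝ} (hε : 0 < ε) :
    ∃ q : ℤ, ∀ t₁ : V, q < (rf σ t₁).1 → TI w σ (Wup σ u L) c x' t₁ ≠ ⊤ →
      BI w σ (Wup σ u L) c t₁ x x' ≤ BI w σ E c t₂ x x' + ε := by
  have hEE : ∀ v, rf σ v ∈ E ↔ v ∈ rf σ ⁻¹' E := fun v => Iff.rfl
  have hWW : ∀ v, rf σ v ∈ Wup σ u L ↔ v ∈ Wlo σ (rf σ u) L := mem_wup_rf hσ u L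
  have e1 : ∀ y t, TI (rfw σ w) σ (rf σ ⁻¹' E) (rfc σ c) (-y) (rf σ t) = TI w σ E c y t := by
    intro y t
    rw [TI_rfw hσ hw hEE, neg_neg, rf_rf hσ]
  have e2 : ∀ y t, TI (rfw σ w) σ (Wlo σ (rf σ u) L) (rfc σ c) (-y) (rf σ t) = TI w σ (Wup σ u L) c y t := by
    intro y t
    rw [TI_rfw hσ hw hWW, neg_neg, rf_rf hσ]
  obtain ⟨q, hq⟩ := BI_le_wlo_far (w := rfw σ w) (σ := σ) (E := rf σ ⁻¹' E) (c := rfc σ c) (u := rf σ u) (L := L)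
    hσ (rfc_stp hσ h) (rf_fst_pos hσ hu1 hu3) (rf_slope hσ hu1 hu2 hu3) (neg_le_neg hx)
    (by
      intro v hv hv'
      exact hE (rf σ v) ((mem_reg_rf hσ c v).2 hv) ((hWW v).2 hv'))
    (t₂ := rf σ t₂)
    (by
      rw [det_rf hσ, ln_rf hσ]
      linarith)
    (by
      rw [rfc_neg hσ]
      rcases hxt with h | h
      · exact Or.inl h
      · right
        intro h'
        apply h
        have := (hWW (rf σ t₂)).2 h'
        rwa [rf_rf hσ] at this)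
    (by
      intro j hj
      rw [pt_rfc hσ, ← hWW, rf_rf hσ]
      exact hin _ (by omega))
    (by rw [e1]; exact hT) hε
  refine ⟨q, fun t₁ ht₁ hT₁ => ?_⟩
  have key := hq (rf σ t₁) ht₁ (by rw [e2]; exact hT₁)
  rw [BI_rfw hσ hw hEE, BI_rfw hσ hw hWW, BI_neg (-x') (-x), BI_neg (-x') (-x)]
  linarith

theorem wup_le_BI_ev (hσ : σ = 0 ∨ σ = 1) (hw : ∀ v, w v 2 = ⊤) (h : Stp σ c) (hu1 : 0 < u.1)
    (hu2 : σ = 0 → u.2 ≤ u.1) (hu3 : σ = 1 → 0 < u.2)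
    {x x' : ℤ} (hx : x ≤ x') (hE : ∀ v ∈ reg σ c, v ∈ Wup σ u L → v ∈ E) {t₂ : V}
    (ht₂ : L * ln σ u - (rf σ u).1 < det u t₂) (hxt : (rf σ (pt σ c x')).1 ≤ (rf σ t₂).1 ∨ t₂ ∉ Wup σ u L)
    (hin : ∀ j, j ≤ x' → pt σ c j ∈ Wup σ u L) (hT : TI w σ E c x t₂ ≠ ⊤)
    (hfin : ∀ᶠ m : ℤ in atTop, TI w σ (Wup σ u L) c x' (tup σ u L m) ≠ ⊤) {ε : ℝ} (hε : 0 < ε) :
    ∀ᶠ m : ℤ in atTop, BI w σ (Wup σ u L) c (tup σ u L m) x x' ≤ BI w σ E c t₂ x x' + ε := by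
  obtain ⟨q, hq⟩ := wup_le_BI_far hσ hw h hu1 hu2 hu3 hx hE ht₂ hxt hin hT hε
  filter_upwards [hfin, (tendsto_tlo_fst (σ := σ) (L := L) (rf_fst_pos hσ hu1 hu3)).eventually_gt_atTop q] with m h1 h2
  exact hq _ (by rw [rf_tup hσ]; exact h2) h1

theorem lim_le_BI (hσ : σ = 0 ∨ σ = 1) (hw : ∀ v, w v 2 = ⊤) (h : Stp σ c) (hu1 : 0 < u.1)
    (hu2 : σ = 0 → u.2 ≤ u.1) (hu3 : σ = 1 → 0 < u.2)
    {x x' : ℤ} (hx : x ≤ x') (hE : ∀ v ∈ reg σ c, v ∈ Wup σ u L → v ∈ E) {t₂ : V}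
    (ht₂ : L * ln σ u - (rf σ u).1 < det u t₂) (hxt : (rf σ (pt σ c x')).1 ≤ (rf σ t₂).1 ∨ t₂ ∉ Wup σ u L)
    (hin : ∀ j, j ≤ x' → pt σ c j ∈ Wup σ u L) (hT : TI w σ E c x t₂ ≠ ⊤)
    (hfin : ∀ᶠ m : ℤ in atTop, TI w σ (Wup σ u L) c x' (tup σ u L m) ≠ ⊤) {ℓ : ℝ}
    (hℓ : Tendsto (fun m : ℤ => BI w σ (Wup σ u L) c (tup σ u L m) x x') atTop (𝓝 ℓ)) :
    ℓ ≤ BI w σ E c t₂ x x' := by
  apply le_of_forall_pos_le_add
  intro ε hε
  exact le_of_tendsto hℓ (wup_le_BI_ev hσ hw h hu1 hu2 hu3 hx hE ht₂ hxt hin hT hfin hε)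

/-- (3) Eventual finiteness along an upper wall. -/
theorem TI_wup_ne_top_ev (hσ : σ = 0 ∨ σ = 1) (hw2 : ∀ v, w v 2 = ⊤) (h : Stp σ c)
    (ho : ∀ i, Opn σ w K (pt σ c i)) (hK : K ≠ ⊤) (hw : ∀ v, w v 0 ≠ ⊤ ∧ w v 1 ≠ ⊤)
    (hu1 : 0 < u.1) (hu2 : σ = 0 → -u.1 < u.2 ∧ u.2 < u.1) (hu3 : σ = 1 → 0 < u.2) {i : ℤ}
    (hi : ∀ l, l < i → Cin σ (Wup σ u L) c l) (ht : σ = 1 → ∀ᶠ m : ℤ in atTop, tup σ u L m ∈ reg σ c) :
    ∀ᶠ m : ℤ in atTop, TI w σ (Wup σ u L) c i (tup σ u L m) ≠ ⊤ := by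
  have key := TI_wlo_ne_top_ev (w := rfw σ w) (c := rfc σ c) (u := rf σ u) (L := L) (i := -i) hσ (rfc_stp hσ h)
    (opn_rfc hσ ho) hK (rfw_ne_top hσ hw) (rf_fst_pos hσ hu1 hu3) (by
      rintro rfl
      have := hu2 rfl
      rw [rf_zero]
      simp only; omega)
    (by
      intro l hl
      have := cin_rf hσ (mem_wup_rf hσ u L) (hi (-l - 1) (by omega))
      rwa [show -(-l - 1) - 1 = l by ring] at this)
    (by
      rintro rfl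
      filter_upwards [ht rfl] with m hm
      rw [← rf_tup (Or.inr rfl), ← mem_reg_rf (Or.inr rfl), rf_rf (Or.inr rfl)]
      exact hm)
  filter_upwards [key] with m hm
  rw [TI_wup hσ hw2]
  exact hm

theorem exists_lim_wup (hσ : σ = 0 ∨ σ = 1) (hw2 : ∀ v, w v 2 = ⊤) (h : Stp σ c)
    (ho : ∀ i, Opn σ w K (pt σ c i)) (hK : K ≠ ⊤) (hu1 : 0 < u.1) (hu3 : σ = 1 → 0 < u.2)
    {x x' : ℤ} (hx : x ≤ x') (hi : ∀ i, x ≤ i → i < x' → Cin σ (Wup σ u L) c i)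
    (hfin : ∀ᶠ m : ℤ in atTop, TI w σ (Wup σ u L) c x (tup σ u L m) ≠ ⊤) :
    ∃ ℓ : ℝ, Tendsto (fun m : ℤ => BI w σ (Wup σ u L) c (tup σ u L m) x x') atTop (𝓝 ℓ) := by
  have h3 : ∀ᶠ m : ℤ in atTop, TI w σ (Wup σ u L) c x' (tup σ u L m) ≠ ⊤ := by
    filter_upwards [hfin] with m hm
    exact (TI_ne_top_iff hσ h ho hK hx hi _).1 hm
  obtain ⟨ℓ, hℓ⟩ := exists_lim_wlo (w := rfw σ w) (c := rfc σ c) (u := rf σ u) (L := L) hσ (rfc_stp hσ h)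
    (opn_rfc hσ ho) hK (rf_fst_pos hσ hu1 hu3) (neg_le_neg hx)
    (by
      intro l h1 h2
      have := cin_rf hσ (mem_wup_rf hσ u L) (hi (-l - 1) (by omega) (by omega))
      rwa [show -(-l - 1) - 1 = l by ring] at this)
    (by
      filter_upwards [h3] with m hm
      rw [TI_wup hσ hw2] at hm
      exact hm)
  refine ⟨-ℓ, ?_⟩
  have := hℓ.neg
  refine this.congr fun m => ?_
  rw [BI_wup hσ hw2, BI_neg (-x') (-x)]

end upper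

/-! ### upper walls against lower walls -/

section ul

variable {σ : ℤ} {w : W} {E : Set V} {c d : ℤ → ℤ} {u u' : V} {L L' : ℤ} {K : ℝ≥0∞}

/-- The intersection of the half plane below a wall and the half plane above a steeper wall is
bounded on the right. -/
theorem exists_wlo_wup (hu : 0 < u.1) (hu' : 0 < u'.1) (hdet : 0 < det u u') :
    ∃ q : ℤ, ∀ p ∈ Wlo σ u' L', p ∈ Wup σ u L → p.1 ≤ q := by
  refine ⟨max 0 (u.1 * (L' * ln σ u') + u'.1 * (L * ln σ u)), ?_⟩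
  rintro ⟨a, b⟩ hp hp'
  have h1 : -(L' * ln σ u') ≤ det u' (a, b) := hp
  have h2 : det u (a, b) ≤ L * ln σ u := hp'
  by_cases ha : a ≤ 0
  · exact ha.trans (le_max_left _ _)
  · push Not at ha
    refine le_trans ?_ (le_max_right _ _)
    unfold det at h1 h2 hdet
    simp only at h1 h2 ⊢
    have h3 : u.1 * -(L' * ln σ u') ≤ u.1 * (u'.1 * b - u'.2 * a) := mul_le_mul_of_nonneg_left h1 hu.le
    have h4 : u'.1 * (u.1 * b - u.2 * a) ≤ u'.1 * (L * ln σ u) := mul_le_mul_of_nonneg_left h2 hu'.le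
    have h5 : a * 1 ≤ a * (u.1 * u'.2 - u.2 * u'.1) := mul_le_mul_of_nonneg_left hdet ha.le
    nlinarith

/-- CROSS DOMINATION: upper walls are below steeper lower walls. -/
theorem BI_wup_le_wlo_far (hσ : σ = 0 ∨ σ = 1) (h : Stp σ c) (hu1 : 0 < u.1) (hu2 : u.2 ≤ u.1)
    (hu1' : 0 < u'.1) (hu2' : -u'.1 ≤ u'.2) (hdet : 0 < det u u') {x x' : ℤ} (hx : x ≤ x')
    (hin : ∀ j, x ≤ j → pt σ c j ∈ Wlo σ u' L') (hin' : ∀ j, j ≤ x' → pt σ c j ∈ Wup σ u L) :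
    ∃ q : ℤ, ∀ t₁ t₂ : V, q < t₁.1 → q < t₂.1 → t₂ ∉ Wlo σ u' L' →
      TI w σ (Wup σ u L) c x' t₂ ≠ ⊤ → TI w σ (Wlo σ u' L') c x t₁ ≠ ⊤ →
      BI w σ (Wup σ u L) c t₂ x x' ≤ BI w σ (Wlo σ u' L') c t₁ x x' := by
  obtain ⟨q, hq⟩ := exists_wlo_wup (σ := σ) (L := L) (L' := L') hu1 hu1' hdet
  refine ⟨q + 1, fun t₁ t₂ h1 h2 h3 h4 h5 => ?_⟩
  exact toReal_exchange (wall_cross hσ hu1 hu1' hx h3
    (fun p hp hp' => by have := hq p hp hp'; omega) (hin x' hx) (hin' x hx)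
    (hxc_lo hσ h hu1' hu2' hin) (hxc_up hσ h hu1 hu2 (hin' x' le_rfl))) h4 h5

theorem tup_fst (σ : ℤ) (u : V) (L m : ℤ) : (tup σ u L m).1 = m * u.1 - σ * L := rfl

theorem tendsto_tup_fst (hu1 : 0 < u.1) : Tendsto (fun m : ℤ => (tup σ u L m).1) atTop atTop := by
  have h1 : Tendsto (fun m : ℤ => m + -(σ * L)) atTop atTop := tendsto_atTop_add_const_right _ _ tendsto_id
  refine tendsto_atTop_mono' _ ?_ h1
  filter_upwards [eventually_ge_atTop 0] with m hm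
  rw [tup_fst]
  nlinarith

/-- The targets of an upper wall are eventually below a steeper lower wall. -/
theorem tup_not_mem_ev (hdet : 0 < det u u') : ∀ᶠ m : ℤ in atTop, tup σ u L m ∉ Wlo σ u' L' := by
  filter_upwards [eventually_gt_atTop (|L' * ln σ u'| + |L * ln σ u'|)] with m hm h
  have h1 : -(L' * ln σ u') ≤ det u' (tup σ u L m) := h
  have h2 : det u' (tup σ u L m) = L * ln σ u' - m * det u u' := by
    unfold det tup ln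
    simp only
    ring
  rw [h2] at h1
  have h3 := le_abs_self (L' * ln σ u')
  have h4 := le_abs_self (L * ln σ u')
  have h5 := abs_nonneg (L' * ln σ u')
  have h6 := abs_nonneg (L * ln σ u')
  nlinarith

theorem tlo_not_mem_ev (hdet : 0 < det u u') : ∀ᶠ m : ℤ in atTop, tlo σ u L m ∉ Wlo σ u' L' := by
  filter_upwards [eventually_gt_atTop (|L' * ln σ u'| + |L * ln σ u'|)] with m hm h
  have h1 : -(L' * ln σ u') ≤ det u' (tlo σ u L m) := h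
  have h2 : det u' (tlo σ u L m) = -(L * ln σ u') - m * det u u' := by
    unfold det tlo ln
    simp only
    ring
  rw [h2] at h1
  have h3 := le_abs_self (L' * ln σ u')
  have h4 := neg_abs_le (L * ln σ u')
  have h5 := abs_nonneg (L' * ln σ u')
  have h6 := abs_nonneg (L * ln σ u')
  nlinarith

end ul

end C7
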