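import Pool.Agent.Lib.MP_c725eb_pr.Cross
import Pool.Agent.Lib.MP_c725eb_pr.Region

/-!
# Exchange of walks; Monge inequality in strips; walls
-/

set_option autoImplicit false

namespace C7

open scoped ENNReal

/-- First part of a list ending at a given element. -/
theorem exists_prefix {α : Type*} {l : List α} {v : α} (hv : v ∈ l) :
    ∃ l₁ l₂, l = l₁ ++ v :: l₂ := List.append_of_mem hv

theorem IsW.pre {D : Set V} {x y p : V} {l₁ l₂ : List V} (h : IsW D x y (l₁ ++ p :: l₂)) :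
    IsW D x p (l₁ ++ [p]) := by
  refine ⟨?_, by simp, ?_⟩
  · have := h.1
    cases l₁ with
    | nil => simpa using this
    | cons a l' => simpa using this
  · intro v hv
    apply h.2.2 v
    simp at hv ⊢
    tauto

theorem IsW.suffix {D : Set V} {x y p : V} {l₁ l₂ : List V} (h : IsW D x y (l₁ ++ p :: l₂)) :
    IsW D p y (p :: l₂) := by
  refine ⟨rfl, ?_, ?_⟩
  · have := h.2.1
    rw [List.getLast?_append_of_ne_nil _ (by simp)] at this
    exact this
  · intro v hv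
    apply h.2.2 v
    simp at hv ⊢
    tauto

theorem cost_prefix_ne_top {w : W} {l₁ l₂ : List V} {p : V} (h : cost w (l₁ ++ p :: l₂) ≠ ⊤) :
    cost w (l₁ ++ [p]) ≠ ⊤ := by
  rw [cost_append] at h
  exact fun h' => h (by rw [h', top_add])

/-- EXCHANGE for two given walks. -/
theorem exchange_list {w : W} {D₁ D₂ : Set V} {x x' t₁ t₂ : V} {A B : List V} (hA : IsW D₂ x' t₂ A)
    (hB : IsW D₁ x t₁ B) (hAB : ∃ v ∈ A, v ∈ B)
    (hA1 : ∀ l₁ p l₂, A = l₁ ++ p :: l₂ → (∀ v ∈ l₁, v ∉ B) → ∀ v ∈ l₁, v ∈ D₁)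
    (hB1 : ∀ l₁ p l₂, B = l₁ ++ p :: l₂ → (∀ v ∈ l₁, v ∉ A) → ∀ v ∈ l₁, v ∈ D₂) :
    T w D₁ x' t₁ + T w D₂ x t₂ ≤ cost w A + cost w B := by
  obtain ⟨A1, a, A2, rfl, haB, hA1B⟩ := exists_first (P := fun v => v ∈ B) hAB
  obtain ⟨B1, b, B2, hBe, hbA, hB1A⟩ := exists_first (P := fun v => v ∈ A1 ++ a :: A2) (l := B)
    (by obtain ⟨v, h1, h2⟩ := hAB; exact ⟨v, h2, h1⟩)
  -- `a` is on the second part of `B`
  have ha2 : a ∈ b :: B2 := by
    rw [hBe, List.mem_append] at haB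
    rcases haB with h | h
    · exact absurd (by simp : a ∈ A1 ++ a :: A2) (hB1A a h)
    · exact h
  have hb2 : b ∈ a :: A2 := by
    rw [List.mem_append] at hbA
    rcases hbA with h | h
    · exact absurd (by rw [hBe]; simp : b ∈ B) (hA1B b h)
    · exact h
  obtain ⟨C1, C2, hC⟩ := exists_prefix ha2
  obtain ⟨E1, E2, hE⟩ := exists_prefix hb2
  have hA1D := hA1 A1 a A2 rfl hA1B
  have hB1D := hB1 B1 b B2 hBe hB1A
  have haD : a ∈ D₁ := hB.2.2 a haB
  have hbD : b ∈ D₂ := hA.2.2 b hbA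
  -- the two new walks
  have w1 : IsW D₁ x' a (A1 ++ [a]) := by
    refine ⟨hA.pre.1, by simp, ?_⟩
    intro v hv
    rw [List.mem_append] at hv
    rcases hv with hv | hv
    · exact hA1D v hv
    · simp at hv; rw [hv]; exact haD
  have w2 : IsW D₂ x b (B1 ++ [b]) := by
    rw [hBe] at hB
    refine ⟨hB.pre.1, by simp, ?_⟩
    intro v hv
    rw [List.mem_append] at hv
    rcases hv with hv | hv
    · exact hB1D v hv
    · simp at hv; rw [hv]; exact hbD
  have w3 : IsW D₁ a t₁ (a :: C2) := by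
    rw [hBe] at hB
    have := hB.suffix
    rw [hC] at this
    exact this.suffix
  have w4 : IsW D₂ b t₂ (b :: E2) := by
    have := hA.suffix
    rw [hE] at this
    exact this.suffix
  have c1 : cost w (a :: C2) ≤ cost w (b :: B2) := by
    rw [hC, cost_append]
    exact le_add_self
  have c2 : cost w (b :: E2) ≤ cost w (a :: A2) := by
    rw [hE, cost_append]
    exact le_add_self
  calc T w D₁ x' t₁ + T w D₂ x t₂
      ≤ (T w D₁ x' a + T w D₁ a t₁) + (T w D₂ x b + T w D₂ b t₂) :=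
        add_le_add (T_triangle _ _ _ _ _) (T_triangle _ _ _ _ _)
    _ ≤ (cost w (A1 ++ [a]) + cost w (b :: B2)) + (cost w (B1 ++ [b]) + cost w (a :: A2)) :=
        add_le_add (add_le_add (T_le w1) ((T_le w3).trans c1)) (add_le_add (T_le w2) ((T_le w4).trans c2))
    _ = cost w (A1 ++ a :: A2) + cost w B := by
        rw [hBe, cost_append w A1 A2 a, cost_append w B1 B2 b]
        ring

/-- EXCHANGE with one given walk. -/
theorem exchange_fix {w : W} {D₁ D₂ : Set V} {x x' t₁ t₂ : V} {A : List V} (hA : IsW D₂ x' t₂ A)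
    (h : ∀ B, IsW D₁ x t₁ B → cost w B ≠ ⊤ → (∃ v ∈ A, v ∈ B) ∧
      (∀ l₁ p l₂, A = l₁ ++ p :: l₂ → (∀ v ∈ l₁, v ∉ B) → ∀ v ∈ l₁, v ∈ D₁) ∧
      (∀ l₁ p l₂, B = l₁ ++ p :: l₂ → (∀ v ∈ l₁, v ∉ A) → ∀ v ∈ l₁, v ∈ D₂)) :
    T w D₁ x' t₁ + T w D₂ x t₂ ≤ cost w A + T w D₁ x t₁ := by
  conv_rhs => rw [T, ENNReal.add_iInf]
  refine le_iInf fun B => ?_
  rw [ENNReal.add_iInf]
  refine le_iInf fun hB => ?_
  by_cases hc : cost w B = ⊤
  · rw [hc, add_top]; exact le_top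
  · obtain ⟨h1, h2, h3⟩ := h B hB hc
    exact exchange_list hA hB h1 h2 h3

/-- EXCHANGE. -/
theorem exchange {w : W} {D₁ D₂ : Set V} {x x' t₁ t₂ : V}
    (h : ∀ A B, IsW D₂ x' t₂ A → cost w A ≠ ⊤ → IsW D₁ x t₁ B → cost w B ≠ ⊤ → (∃ v ∈ A, v ∈ B) ∧
      (∀ l₁ p l₂, A = l₁ ++ p :: l₂ → (∀ v ∈ l₁, v ∉ B) → ∀ v ∈ l₁, v ∈ D₁) ∧
      (∀ l₁ p l₂, B = l₁ ++ p :: l₂ → (∀ v ∈ l₁, v ∉ A) → ∀ v ∈ l₁, v ∈ D₂)) :
    T w D₁ x' t₁ + T w D₂ x t₂ ≤ T w D₂ x' t₂ + T w D₁ x t₁ := by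
  conv_rhs => rw [T, ENNReal.iInf_add]
  refine le_iInf fun A => ?_
  rw [ENNReal.iInf_add]
  refine le_iInf fun hA => ?_
  by_cases hc : cost w A = ⊤
  · rw [hc, top_add]; exact le_top
  · exact exchange_fix hA fun B hB hcB => h A B hA hc hB hcB

/-- EXCHANGE in one domain: only a common vertex is needed. -/
theorem exchange_same {w : W} {D : Set V} {x x' t₁ t₂ : V}
    (h : ∀ A B, IsW D x' t₂ A → cost w A ≠ ⊤ → IsW D x t₁ B → cost w B ≠ ⊤ → ∃ v ∈ A, v ∈ B) :
    T w D x' t₁ + T w D x t₂ ≤ T w D x' t₂ + T w D x t₁ := by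
  apply exchange
  intro A B hA hcA hB hcB
  refine ⟨h A B hA hcA hB hcB, ?_, ?_⟩
  · rintro l₁ p l₂ rfl _ v hv
    exact hA.2.2 v (by simp [hv])
  · rintro l₁ p l₂ rfl _ v hv
    exact hB.2.2 v (by simp [hv])

/-! ### strips -/

section strip

variable {σ : ℤ} {w : W} {c d : ℤ → ℤ}

/-- Two walks in a strip with interlaced end points meet. -/
theorem strip_meet (hσ : σ = 0 ∨ σ = 1) {x x' h h' : ℤ} (hx : x ≤ x') (hh : h ≤ h') {A B : List V}
    (hA : IsW (reg σ c ∩ lft σ d) (pt σ c x') (pt σ d h) A) (hcA : cost w A ≠ ⊤)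
    (hB : IsW (reg σ c ∩ lft σ d) (pt σ c x) (pt σ d h') B) (hcB : cost w B ≠ ⊤) : ∃ v ∈ A, v ∈ B := by
  rcases hx.eq_or_lt with rfl | hx
  · obtain ⟨a, rfl⟩ := hA.eq_cons
    obtain ⟨b, rfl⟩ := hB.eq_cons
    exact ⟨pt σ c x, by simp, by simp⟩
  rcases hh.eq_or_lt with rfl | hh
  · obtain ⟨a, rfl⟩ := hA.eq_concat
    obtain ⟨b, rfl⟩ := hB.eq_concat
    exact ⟨pt σ d h, by simp, by simp⟩
  obtain ⟨Q1, hQ1⟩ := exists_fst_le A
  obtain ⟨Q2, hQ2⟩ := exists_fst_le B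
  obtain ⟨Q3, hQ3⟩ := exists_le_fst A
  obtain ⟨q, hq1, hq2, hq3, hq4, hq5⟩ : ∃ q : ℤ, Q1 < q ∧ Q2 < q ∧ c x' < q ∧ c x < q ∧ d h' < q :=
    ⟨max (max (Q1 + 1) (Q2 + 1)) (max (max (c x' + 1) (c x + 1)) (d h' + 1)),
      by omega, by omega, by omega, by omega, by omega⟩
  have hdh : d h < q := by
    have := hQ1 _ (by obtain ⟨a, rfl⟩ := hA.eq_concat; simp : pt σ d h ∈ A)
    have e : (pt σ d h).1 = d h := rfl
    omega
  have hdh1 : c h ≤ d h := by
    have := hA.right_mem.1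
    have h2 : c (ix σ (pt σ d h)) ≤ (pt σ d h).1 := this
    rw [ix_pt] at h2
    exact h2
  have hdh2 : c h' ≤ d h' := by
    have := hB.right_mem.1
    have h2 : c (ix σ (pt σ d h')) ≤ (pt σ d h').1 := this
    rw [ix_pt] at h2
    exact h2
  set SA : Set V := {p | p ∈ B} ∪ {v | ix σ v = h' ∧ d h' ≤ v.1} with hSA
  set SB : Set V := {p | p ∈ A} ∪ ({v | ix σ v = h ∧ d h ≤ v.1 ∧ v.1 ≤ q} ∪ {v | v.1 = q ∧ ix σ v ≤ h}) with hSB
  have key := cross_bot hσ (c := c) hx (SA := SA) (SB := SB) (t := (q + 1, σ * (q + 1) + h')) ?_ ?_ ?_ ?_ ?_ ?_ ?_ ?_ ?_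
  · obtain ⟨v, hv, hv'⟩ := key
    rcases hv with hv | hv
    · rcases hv' with hv' | hv' | hv'
      · exact ⟨v, hv', hv⟩
      · -- `v ∈ B` on the right ray of `h`
        have h1 : v.1 ≤ d (ix σ v) := (hB.2.2 v hv).2
        rw [hv'.1] at h1
        have e : v = pt σ d h := by
          have h2 : v.1 = d (ix σ v) := by rw [hv'.1]; exact le_antisymm h1 hv'.2.1
          rw [eq_pt h2, hv'.1]
        subst e
        exact ⟨_, by obtain ⟨a, rfl⟩ := hA.eq_concat; simp, hv⟩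
      · have h1 := hQ2 v hv
        have h2 : v.1 = q := hv'.1
        omega
    · rcases hv' with hv' | hv' | hv'
      · have h1 : v.1 ≤ d (ix σ v) := (hA.2.2 v hv').2
        rw [hv.1] at h1
        have e : v = pt σ d h' := by
          have h2 : v.1 = d (ix σ v) := by rw [hv.1]; exact le_antisymm h1 hv.2
          rw [eq_pt h2, hv.1]
        subst e
        exact ⟨_, hv', by obtain ⟨a, rfl⟩ := hB.eq_concat; simp⟩
      · have h1 := hv.1
        have h2 := hv'.1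
        omega
      · have h1 := hv.1
        have h2 := hv'.2
        omega
  · have h1 : Conn SA (pt σ c x) (pt σ d h') := (hB.conn hcB).mono fun p hp => Or.inl hp
    have h2 : Conn SA (pt σ d h') (q + 1, σ * (q + 1) + ix σ (pt σ d h')) := by
      apply conn_right hσ
      · have e : (pt σ d h').1 = d h' := rfl
        omega
      · intro v h1 h2 h3
        rw [ix_pt] at h1
        exact Or.inr ⟨h1, h2⟩
    rw [ix_pt] at h2
    exact h1.trans h2
  · obtain ⟨b, rfl⟩ := hB.eq_cons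
    exact Or.inl (by simp)
  · obtain ⟨b, rfl⟩ := hA.eq_cons
    exact Or.inl (by simp)
  · intro R
    have h1 : Conn SB (pt σ c x') (pt σ d h) := (hA.conn hcA).mono fun p hp => Or.inl hp
    have h2 : Conn SB (pt σ d h) (q, σ * q + ix σ (pt σ d h)) := by
      apply conn_right hσ
      · have e : (pt σ d h).1 = d h := rfl
        omega
      · intro v h1 h2 h3
        rw [ix_pt] at h1
        exact Or.inr (Or.inl ⟨h1, h2, h3⟩)
    rw [ix_pt] at h2
    have h3 : Conn SB (q, σ * q + h) (q, min (R - 1) (σ * q + h)) := by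
      apply conn_down (u := (q, σ * q + h)) (min_le_right _ _)
      intro v h1 h2 h3
      right; right
      refine ⟨h1, ?_⟩
      simp only at h1 h3
      unfold ix
      rw [h1]; omega
    exact ⟨_, by simp only; omega, h1.trans (h2.trans h3)⟩
  · simp only; omega
  · intro p hp
    rcases hp with hp | hp | hp
    · have := hQ1 p hp; simp only; omega
    · have := hp.2.2; simp only; omega
    · have h1 : p.1 = q := hp.1; simp only; omega
  · refine ⟨min Q3 (min (d h) q), ?_⟩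
    intro p hp
    rcases hp with hp | hp | hp
    · have := hQ3 p hp; omega
    · have := hp.2.1; omega
    · have h1 : p.1 = q := hp.1; omega
  · intro v hv hvx
    rcases hv with hv | hv
    · have h1 : c (ix σ v) ≤ v.1 := (hB.2.2 v hv).1
      rwa [hvx] at h1
    · have h1 := hv.1
      have h2 := hv.2
      have h3 : h' = x' := by rw [← h1, hvx]
      subst h3
      omega
  · intro v hv hvx
    rcases hv with hv | hv | hv
    · have h1 : c (ix σ v) ≤ v.1 := (hA.2.2 v hv).1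
      rwa [hvx] at h1
    · have h1 := hv.1
      have h2 := hv.2.1
      have h3 : h = x := by rw [← h1, hvx]
      subst h3
      omega
    · have h1 : v.1 = q := hv.1
      omega

/-- MONGE INEQUALITY in strips. -/
theorem strip_monge (hσ : σ = 0 ∨ σ = 1) {x x' h h' : ℤ} (hx : x ≤ x') (hh : h ≤ h') :
    TI w σ (lft σ d) c x (pt σ d h) + TI w σ (lft σ d) c x' (pt σ d h') ≤
      TI w σ (lft σ d) c x' (pt σ d h) + TI w σ (lft σ d) c x (pt σ d h') := by
  unfold TI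
  rw [add_comm]
  exact exchange_same fun A B hA hcA hB hcB => strip_meet hσ hx hh hA hcA hB hcB

end strip

end C7
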