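import Pool.Agent.Lib.MP_c725eb_pr.Cls
import Pool.Agent.Lib.MP_c725eb_pr.Exch
import Pool.Agent.Lib.MP_c725eb_pr.Sym

/-!
# Entrances: the last entrance of an optimal walk for a potential; existence and uniqueness

`D ⊇ R` are domains, `p ∈ D` the starting point, `q u ∈ R` the possible entrances, `φ` a potential
on the indices. `Ent w D R p q φ u`: the walk through the last entrance `q u` is optimal.
-/

set_option autoImplicit false

namespace C7

open MeasureTheory Filter Set
open scoped ENNReal Topology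

/-! ### deletion of an edge -/

open Classical in
/-- Deletion of an edge. -/
noncomputable def del (e : Ed) (w : W) : W := fun v d => if v = e.1 ∧ d = e.2.castSucc then ⊤ else w v d

theorem le_del (e : Ed) (w : W) (v : V) (d : Fin 3) : w v d ≤ del e w v d := by
  unfold del
  split_ifs
  · exact le_top
  · exact le_rfl

theorem step_le_del (e : Ed) (w : W) (x y : V) : step w x y ≤ step (del e w) x y := by
  unfold step
  split_ifs
  · exact le_del _ _ _ _
  · exact le_del _ _ _ _
  · exact le_del _ _ _ _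
  · exact le_del _ _ _ _
  · exact le_del _ _ _ _
  · exact le_del _ _ _ _
  · exact le_rfl

theorem cost_le_del (e : Ed) (w : W) (l : List V) : cost w l ≤ cost (del e w) l := by
  induction l with
  | nil => exact le_rfl
  | cons a l ih =>
    cases l with
    | nil => exact le_rfl
    | cons b l' =>
      rw [cost_cons_cons, cost_cons_cons]
      exact add_le_add (step_le_del e w a b) ih

theorem T_le_del (e : Ed) (w : W) (D : Set V) (x y : V) : T w D x y ≤ T (del e w) D x y :=
  le_T fun l hl => (T_le hl).trans (cost_le_del e w l)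

theorem del_of_ne {e : Ed} {v : V} {d : Fin 2} (h : (v, d) ≠ e) (w : W) :
    del e w v d.castSucc = w v d.castSucc := by
  unfold del
  rw [if_neg]
  rintro ⟨h1, h2⟩
  apply h
  rw [h1, Fin.castSucc_injective 2 h2]

theorem del_self (e : Ed) (w : W) : del e w e.1 e.2.castSucc = ⊤ := by
  unfold del
  rw [if_pos ⟨rfl, rfl⟩]

theorem del_two {w : W} (hw : ∀ v, w v 2 = ⊤) (e : Ed) (v : V) : del e w v 2 = ⊤ :=
  top_le_iff.1 ((hw v) ▸ le_del e w v 2)

/-- Steps between other pairs are not changed. -/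
theorem step_del_of_ne {e : Ed} {w : W} (hw : ∀ v, w v 2 = ⊤) {x y : V} (h : toE x y ≠ e) :
    step (del e w) x y = step w x y := by
  by_cases hn : Nb x y
  · have h0 : ∀ v, (v, 0) ≠ e → del e w v 0 = w v 0 := fun v h => del_of_ne (d := 0) h w
    have h1 : ∀ v, (v, 1) ≠ e → del e w v 1 = w v 1 := fun v h => del_of_ne (d := 1) h w
    unfold toE at h
    unfold step
    split_ifs at h ⊢ with h2 h3 h4 h5 h6 h7
    · exact h0 _ h
    · exact h0 _ h
    · exact h1 _ h
    · exact h1 _ h
    · rw [del_two hw, hw]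
    · rw [del_two hw, hw]
    · rfl
  · have h1 : step w x y = ⊤ := by
      by_contra hne
      exact hn (nb_of_step_ne_top hw hne)
    rw [h1]
    exact top_le_iff.1 (h1 ▸ step_le_del e w x y)

/-- Deletion of the edge `a b`: a walk uses it or not. -/
theorem min_del_le {w : W} (hw : ∀ v, w v 2 = ⊤) {D : Set V} {x z a b : V} (hab : Nb a b) :
    min (T (del (toE a b) w) D x z) (T w D x b + T w D b z) ≤ T w D x z := by
  refine le_T fun l hl => ?_
  by_cases hb : b ∈ l
  · obtain ⟨l₁, l₂, rfl⟩ := exists_prefix hb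
    refine (min_le_right _ _).trans ?_
    rw [cost_append]
    exact add_le_add (T_le hl.pre) (T_le hl.suffix)
  · refine (min_le_left _ _).trans ((T_le hl).trans ?_)
    have key : ∀ {l : List V}, b ∉ l → cost (del (toE a b) w) l = cost w l := by
      intro l
      induction l with
      | nil => intro _; rfl
      | cons c l ih =>
        cases l with
        | nil => intro _; rfl
        | cons d l' =>
          intro hb
          simp only [List.mem_cons, not_or] at hb
          rw [cost_cons_cons, cost_cons_cons, ih (by simp only [List.mem_cons, not_or]; exact hb.2)]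
          congr 1
          by_cases hcd : Nb c d
          · apply step_del_of_ne hw
            intro he
            have h1 := toE_eq hab
            have h2 := toE_eq hcd
            rw [he] at h2
            rcases h1 with ⟨h1, h1'⟩ | ⟨h1, h1'⟩ <;> rcases h2 with ⟨h2, h2'⟩ | ⟨h2, h2'⟩
            · exact hb.2.1 (h1'.symm.trans h2')
            · exact hb.1 (h1'.symm.trans h2')
            · exact hb.1 (h1.symm.trans h2)
            · exact hb.2.1 (h1.symm.trans h2)
          · have h1 : step w c d = ⊤ := by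
              by_contra hne
              exact hcd (nb_of_step_ne_top hw hne)
            rw [h1]
            exact top_le_iff.1 (h1 ▸ step_le_del _ w c d)
    exact (key hb).le

/-! ### entrances -/

/-- `u` is an entrance for the potential `φ`. -/
def Ent (w : W) (D R : Set V) (p : V) (q : ℤ → V) (φ : ℤ → ℝ) (u : ℤ) : Prop :=
  Kn w D R p (q u) ≠ ⊤ ∧ ∀ j, (Kn w D R p (q u)).toReal + φ u ≤ (T w D p (q j)).toReal + φ j

/-- Standing hypotheses. -/
structure EH (w : W) (D R : Set V) (p : V) (q : ℤ → V) : Prop where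
  hw : ∀ v, w v 2 = ⊤
  sub : R ⊆ D
  hp : p ∈ D
  hq : ∀ u, q u ∈ R
  dec : ∀ j, T w D p (q j) = ⨅ u, Kn w D R p (q u) + T w R (q u) (q j)
  fin : ∀ j, T w D p (q j) ≠ ⊤
  fin' : ∀ u j, T w R (q u) (q j) ≠ ⊤

/-- The potential is Lipschitz. -/
def Lip (w : W) (R : Set V) (q : ℤ → V) (φ : ℤ → ℝ) : Prop :=
  ∀ u j, φ u - φ j ≤ (T w R (q u) (q j)).toReal

section

variable {w : W} {D R : Set V} {p : V} {q : ℤ → V} {φ : ℤ → ℝ}

/-- The kernel of an entrance is the passage time. -/
theorem Ent.kn_eq (h : EH w D R p q) (hφ : Lip w R q φ) {u : ℤ} (hu : Ent w D R p q φ u) :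
    Kn w D R p (q u) = T w D p (q u) := by
  apply le_antisymm _ (T_le_Kn h.hp (h.sub (h.hq u)))
  by_contra hlt
  rw [not_le, h.dec u, iInf_lt_iff] at hlt
  obtain ⟨j, hj⟩ := hlt
  have hK : Kn w D R p (q j) ≠ ⊤ := fun h' => by rw [h', top_add] at hj; exact not_top_lt hj
  have h1 := ENNReal.toReal_strict_mono hu.1 hj
  rw [ENNReal.toReal_add hK (h.fin' _ _)] at h1
  have h2 := hφ j u
  have h3 := hu.2 j
  have h4 := ENNReal.toReal_mono hK (T_le_Kn (w := w) (R := R) h.hp (h.sub (h.hq j)))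
  linarith

theorem Ent.le_kn (h : EH w D R p q) {u j : ℤ} (hu : Ent w D R p q φ u)
    (hj : Kn w D R p (q j) ≠ ⊤) :
    (Kn w D R p (q u)).toReal + φ u ≤ (Kn w D R p (q j)).toReal + φ j := by
  have h4 := ENNReal.toReal_mono hj (T_le_Kn (w := w) (R := R) h.hp (h.sub (h.hq j)))
  linarith [hu.2 j]

/-- The kernel is attained at a last vertex outside `R`. -/
theorem exists_kn {z : V} (hw : ∀ v, w v 2 = ⊤) (hpz : p ≠ z) (hK : Kn w D R p z ≠ ⊤) :
    ∃ y ∈ D, y ∉ R ∧ Nb y z ∧ Kn w D R p z = T w D p y + step w y z := by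
  classical
  set N : Finset V := ({(z.1 + 1, z.2), (z.1 - 1, z.2), (z.1, z.2 + 1), (z.1, z.2 - 1)} : Finset V).filter
    (fun y => y ∈ D ∧ y ∉ R) with hN
  have hmem : ∀ y ∈ D, y ∉ R → step w y z ≠ ⊤ → y ∈ N := by
    intro y h1 h2 h3
    rw [hN, Finset.mem_filter]
    refine ⟨?_, h1, h2⟩
    obtain ⟨y1, y2⟩ := y
    obtain ⟨z1, z2⟩ := z
    rcases nb_of_step_ne_top hw h3 with h | h | h | h <;> simp only [Prod.mk.injEq] at h <;>
      obtain ⟨rfl, rfl⟩ := h <;> simp
  have hKe : Kn w D R p z = ⨅ (y : V) (_ : y ∈ D \ R), T w D p y + step w y z := by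
    unfold Kn
    rw [if_neg hpz, min_eq_right le_top]
  have hne : N.Nonempty := by
    by_contra hemp
    rw [Finset.not_nonempty_iff_eq_empty] at hemp
    apply hK
    rw [hKe]
    refine top_le_iff.1 (le_iInf₂ fun y hy => ?_)
    by_contra hlt
    have h3 : step w y z ≠ ⊤ := fun h' => hlt (by rw [h', add_top])
    have := hmem y hy.1 hy.2 h3
    rw [hemp] at this
    simp at this
  obtain ⟨y, hy, hmin⟩ := Finset.exists_min_image N (fun y => T w D p y + step w y z) hne
  have hy' := (Finset.mem_filter.1 (hN ▸ hy)).2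
  have he : Kn w D R p z = T w D p y + step w y z := by
    apply le_antisymm (Kn_le hy'.1 hy'.2)
    rw [hKe]
    refine le_iInf₂ fun y' hy2 => ?_
    by_cases h3 : step w y' z = ⊤
    · rw [h3, add_top]; exact le_top
    · exact hmin y' (hmem y' hy2.1 hy2.2 h3)
  refine ⟨y, hy'.1, hy'.2, ?_, he⟩
  apply nb_of_step_ne_top hw
  intro h'
  rw [h', add_top] at he
  exact hK he

/-- No tie: with the edge `y z`, `z = q u`, and without it towards `q j`. -/
def NoTie (w : W) (D : Set V) (p : V) (q : ℤ → V) (φ : ℤ → ℝ) (y : V) (u j : ℤ) : Prop :=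
  (T (del (toE y (q u)) w) D p y).toReal + (step w y (q u)).toReal + φ u ≠
    (T (del (toE y (q u)) w) D p (q j)).toReal + φ j

/-- If `u` and `j` are entrances, `p ≠ q u`, and there is no tie, then `q u` is strictly closer. -/
theorem Ent.lt (h : EH w D R p q) (hφ : Lip w R q φ) (hpos : ∀ x y, x ≠ y → T w D x y ≠ 0)
    {u j : ℤ} (hu : Ent w D R p q φ u) (hj : Ent w D R p q φ j) (hpu : p ≠ q u) (huj : q u ≠ q j)
    (hnt : ∀ y ∈ D, y ∉ R → Nb y (q u) → NoTie w D p q φ y u j) :
    T w D p (q u) < T w D p (q j) := by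
  obtain ⟨y, hy, hyR, hyz, hK⟩ := exists_kn h.hw hpu hu.1
  have hKT := hu.kn_eq h hφ
  have hn := hnt y hy hyR hyz
  have hyq : y ≠ q u := fun e => hyR (e ▸ h.hq u)
  have hstep0 : step w y (q u) ≠ 0 := fun h0 => hpos y (q u) hyq
    (le_antisymm ((T_le_step w hy (h.sub (h.hq u))).trans_eq h0) zero_le)
  have hTy : T w D p y ≠ ⊤ := fun h' => hu.1 (by rw [hK, h', top_add])
  have hst : step w y (q u) ≠ ⊤ := fun h' => hu.1 (by rw [hK, h', add_top])
  -- the passage time to `y` does not use the edge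
  have h1 : T (del (toE y (q u)) w) D p y = T w D p y := by
    apply le_antisymm _ (T_le_del _ _ _ _ _)
    have h2 := min_del_le h.hw (D := D) (x := p) (z := y) hyz
    rcases min_le_iff.1 h2 with h3 | h3
    · exact h3
    · exfalso
      have h4 : T w D p y < T w D p (q u) := by
        rw [← hKT, hK]
        exact ENNReal.lt_add_right hTy hstep0
      exact absurd (h4.trans_le (le_self_add.trans h3)) (lt_irrefl _)
  have h2 := min_del_le h.hw (D := D) (x := p) (z := q j) hyz
  rcases min_le_iff.1 h2 with h3 | h3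
  · exfalso
    apply hn
    have h4 : T (del (toE y (q u)) w) D p (q j) = T w D p (q j) := le_antisymm h3 (T_le_del _ _ _ _ _)
    rw [h1, h4, ← ENNReal.toReal_add hTy hst, ← hK]
    apply le_antisymm
    · exact hu.2 j
    · rw [← hj.kn_eq h hφ]
      refine (hj.2 u).trans ?_
      rw [hKT]
  · refine lt_of_lt_of_le ?_ h3
    exact ENNReal.lt_add_right (h.fin u) (hpos _ _ huj)

/-- UNIQUENESS of the entrance. -/
theorem Ent.unique (h : EH w D R p q) (hφ : Lip w R q φ) (hpos : ∀ x y, x ≠ y → T w D x y ≠ 0)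
    (hinj : ∀ u j, q u = q j → u = j)
    (hnt : ∀ y ∈ D, y ∉ R → ∀ u j, u ≠ j → Nb y (q u) → NoTie w D p q φ y u j) {u j : ℤ}
    (hu : Ent w D R p q φ u) (hj : Ent w D R p q φ j) : u = j := by
  by_contra hne
  have hq : q u ≠ q j := fun e => hne (hinj _ _ e)
  have A : p ≠ q u → T w D p (q u) < T w D p (q j) := fun hp =>
    hu.lt h hφ hpos hj hp hq fun y hy hyR hn => hnt y hy hyR u j hne hn
  have B : p ≠ q j → T w D p (q j) < T w D p (q u) := fun hp =>
    hj.lt h hφ hpos hu hp hq.symm fun y hy hyR hn => hnt y hy hyR j u (Ne.symm hne) hn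
  by_cases hpu : p = q u
  · have hpj : p ≠ q j := fun e => hq (hpu.symm.trans e)
    have h1 := B hpj
    rw [← hpu, T_self w h.hp] at h1
    exact not_lt_zero h1
  · by_cases hpj : p = q j
    · have h1 := A hpu
      rw [← hpj, T_self w h.hp] at h1
      exact not_lt_zero h1
    · exact lt_asymm (A hpu) (B hpj)

/-- EXISTENCE of the entrance. -/
theorem Ent.exists (h : EH w D R p q) (hφ : Lip w R q φ)
    (hc : ∀ M : ℝ, {j | (T w D p (q j)).toReal + φ j ≤ M}.Finite)
    (hc' : ∀ M : ℝ, {j | (T w D p (q j)).toReal ≤ M}.Finite) : ∃ u, Ent w D R p q φ u := by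
  classical
  -- the minimum of `T + φ`
  obtain ⟨j, hj⟩ : ∃ j, ∀ i, (T w D p (q j)).toReal + φ j ≤ (T w D p (q i)).toReal + φ i := by
    set S := (hc ((T w D p (q 0)).toReal + φ 0)).toFinset with hS
    have h0 : (0 : ℤ) ∈ S := by rw [hS]; simp
    obtain ⟨j, hj, hmin⟩ := Finset.exists_min_image S (fun j => (T w D p (q j)).toReal + φ j) ⟨0, h0⟩
    refine ⟨j, fun i => ?_⟩
    by_cases hi : i ∈ S
    · exact hmin i hi
    · rw [hS] at hi
      simp only [Finite.mem_toFinset, mem_ofPred_eq, not_le] at hi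
      exact (hmin 0 h0).trans hi.le
  -- the infimum over the entrances is attained
  set f : ℤ → ℝ≥0∞ := fun u => Kn w D R p (q u) + T w R (q u) (q j) with hf
  have hfin : (⨅ u, f u) ≠ ⊤ := by rw [← h.dec j]; exact h.fin j
  set S := (hc' ((T w D p (q j)).toReal + 1)).toFinset with hS
  have hout : ∀ u, u ∉ S → T w D p (q j) + 1 ≤ f u := by
    intro u hu
    rw [hS] at hu
    simp only [Finite.mem_toFinset, mem_ofPred_eq, not_le] at hu
    have h1 : T w D p (q u) ≤ f u := (T_le_Kn h.hp (h.sub (h.hq u))).trans le_self_add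
    refine le_trans ?_ h1
    rw [← ENNReal.ofReal_toReal (h.fin j), ← ENNReal.ofReal_toReal (h.fin u), ← ENNReal.ofReal_one,
      ← ENNReal.ofReal_add ENNReal.toReal_nonneg zero_le_one]
    exact ENNReal.ofReal_le_ofReal hu.le
  have hne : S.Nonempty := by
    refine ⟨j, ?_⟩
    rw [hS]
    simp
  obtain ⟨u, hu, hmin⟩ := Finset.exists_min_image S f hne
  have hfu : f u = T w D p (q j) := by
    rw [h.dec j]
    apply le_antisymm
    · refine le_iInf fun i => ?_
      by_cases hi : i ∈ S
      · exact hmin i hi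
      · by_contra hlt
        rw [not_le] at hlt
        have h1 : ∀ i, T w D p (q j) + 1 ≤ f i ∨ f u ≤ f i := fun i => by
          by_cases hi : i ∈ S
          · exact Or.inr (hmin i hi)
          · exact Or.inl (hout i hi)
        have h2 : min (T w D p (q j) + 1) (f u) ≤ T w D p (q j) := by
          conv_rhs => rw [h.dec j]
          refine le_iInf fun i => ?_
          rcases h1 i with h3 | h3
          · exact (min_le_left _ _).trans h3
          · exact (min_le_right _ _).trans h3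
        rcases min_le_iff.1 h2 with h3 | h3
        · exact absurd h3 (not_le.2 (ENNReal.lt_add_right (h.fin j) one_ne_zero))
        · have h4 := (hlt.trans_le h3).trans_le (le_self_add.trans (hout i hi))
          exact lt_irrefl _ h4
    · exact iInf_le _ u
  have hK : Kn w D R p (q u) ≠ ⊤ := fun h' => by
    have : f u = ⊤ := by rw [hf]; simp [h']
    rw [hfu] at this
    exact h.fin j this
  refine ⟨u, hK, fun i => ?_⟩
  refine le_trans ?_ (hj i)
  have h1 : (Kn w D R p (q u)).toReal + (T w R (q u) (q j)).toReal = (T w D p (q j)).toReal := by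
    rw [← ENNReal.toReal_add hK (h.fin' u j), ← hfu]
  have h2 := hφ u j
  linarith

/-! ### the minimum -/

/-- `m` is the minimum of `T + φ`. -/
def IsMin (w : W) (D : Set V) (p : V) (q : ℤ → V) (φ : ℤ → ℝ) (m : ℝ) : Prop :=
  (∀ j, m ≤ (T w D p (q j)).toReal + φ j) ∧ ∃ j, (T w D p (q j)).toReal + φ j = m

theorem Ent.isMin (h : EH w D R p q) (hφ : Lip w R q φ) {u : ℤ} (hu : Ent w D R p q φ u) :
    IsMin w D p q φ ((T w D p (q u)).toReal + φ u) := by
  refine ⟨fun j => ?_, u, rfl⟩
  have := hu.2 j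
  rwa [hu.kn_eq h hφ] at this

theorem IsMin.unique {m m' : ℝ} (h : IsMin w D p q φ m) (h' : IsMin w D p q φ m') : m = m' := by
  obtain ⟨h1, j, h2⟩ := h
  obtain ⟨h1', j', h2'⟩ := h'
  have h3 := h1 j'
  have h4 := h1' j
  linarith

theorem IsMin.ent_iff (h : EH w D R p q) (hφ : Lip w R q φ) {m : ℝ} (hm : IsMin w D p q φ m) (u : ℤ) :
    Ent w D R p q φ u ↔ Kn w D R p (q u) ≠ ⊤ ∧ (Kn w D R p (q u)).toReal + φ u = m := by
  constructor
  · intro hu
    refine ⟨hu.1, ?_⟩
    rw [hu.kn_eq h hφ]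
    exact (hu.isMin h hφ).unique hm
  · rintro ⟨h1, h2⟩
    exact ⟨h1, fun j => h2 ▸ hm.1 j⟩

/-- Adding a constant to the potential. -/
theorem Ent.add_const {u : ℤ} (c : ℝ) (hu : Ent w D R p q φ u) : Ent w D R p q (fun j => φ j + c) u :=
  ⟨hu.1, fun j => by have := hu.2 j; linarith⟩

theorem ent_congr {φ' : ℤ → ℝ} (hφ : ∀ i j, φ i - φ j = φ' i - φ' j) {u : ℤ} :
    Ent w D R p q φ u ↔ Ent w D R p q φ' u := by
  constructor
  · rintro ⟨h1, h2⟩
    exact ⟨h1, fun j => by have := h2 j; have := hφ u j; linarith⟩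
  · rintro ⟨h1, h2⟩
    exact ⟨h1, fun j => by have := h2 j; have := hφ u j; linarith⟩

/-! ### limits -/

/-- LIMIT of the minima: potentials `φr n → φ` pointwise, uniformly coercive. -/
theorem IsMin.tendsto {φr : ℕ → ℤ → ℝ} {mr : ℕ → ℝ} {m : ℝ}
    (hlim : ∀ j, Tendsto (fun n => φr n j) atTop (𝓝 (φ j)))
    (hm : IsMin w D p q φ m) (hmr : ∀ᶠ n in atTop, IsMin w D p q (φr n) (mr n))
    (hc : ∀ M : ℝ, ∃ J : Finset ℤ, ∀ᶠ n in atTop, ∀ j ∉ J, M < (T w D p (q j)).toReal + φr n j) :
    Tendsto mr atTop (𝓝 m) := by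
  rw [Metric.tendsto_atTop]
  intro ε hε
  obtain ⟨J, hJ⟩ := hc (m + ε)
  obtain ⟨j0, hj0⟩ := hm.2
  have h1 : ∀ᶠ n in atTop, ∀ j ∈ insert j0 J, |φr n j - φ j| < ε := by
    rw [Filter.eventually_all_finset]
    intro j _
    have := (Metric.tendsto_nhds.1 (hlim j)) ε hε
    simpa [Real.dist_eq] using this
  obtain ⟨N, hN⟩ := eventually_atTop.1 ((h1.and hmr).and hJ)
  refine ⟨N, fun n hn => ?_⟩
  obtain ⟨⟨h2, h3⟩, h4⟩ := hN n hn
  rw [Real.dist_eq, abs_lt]
  have h5 := h2 j0 (Finset.mem_insert_self _ _)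
  rw [abs_lt] at h5
  have h6 := h3.1 j0
  constructor
  · obtain ⟨j, hj⟩ := h3.2
    by_cases hjJ : j ∈ J
    · have h7 := h2 j (Finset.mem_insert_of_mem hjJ)
      rw [abs_lt] at h7
      have h8 := hm.1 j
      linarith
    · have := h4 j hjJ
      linarith
  · linarith

/-- LIMIT of the entrances. -/
theorem Ent.eventually_eq (h : EH w D R p q) (hφ : Lip w R q φ) {φr : ℕ → ℤ → ℝ} {ur : ℕ → ℤ}
    (hlim : ∀ j, Tendsto (fun n => φr n j) atTop (𝓝 (φ j)))
    (hu : ∀ᶠ n in atTop, Ent w D R p q (φr n) (ur n))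
    (hc : ∀ M : ℝ, ∃ J : Finset ℤ, ∀ᶠ n in atTop, ∀ j ∉ J, M < (T w D p (q j)).toReal + φr n j)
    {u : ℤ} (hun : ∀ j, Ent w D R p q φ j → j = u) : ∀ᶠ n in atTop, ur n = u := by
  have hK0 : (T w D p (q 0)).toReal + φ 0 < (T w D p (q 0)).toReal + φ 0 + 1 := by linarith
  obtain ⟨J, hJ⟩ := hc ((T w D p (q 0)).toReal + φ 0 + 1)
  have h0 : ∀ᶠ n in atTop, φr n 0 < φ 0 + 1 := (hlim 0).eventually_lt_const (by linarith)
  -- the entrances are in `J`
  have hin : ∀ᶠ n in atTop, ur n ∈ J := by
    filter_upwards [hu, hJ, h0] with n h1 h2 h3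
    by_contra hn
    have h4 := h2 _ hn
    have h5 := h1.2 0
    have h6 := ENNReal.toReal_mono h1.1 (T_le_Kn (w := w) (R := R) h.hp (h.sub (h.hq (ur n))))
    linarith
  -- a value which is not `u` is excluded
  have hex : ∀ j ∈ J, j ≠ u → ∀ᶠ n in atTop, ur n ≠ j := by
    intro j _ hju
    by_contra hcon
    have hfr : ∃ᶠ n in atTop, ur n = j := by
      intro h'
      exact hcon (h'.mono fun n hn => hn)
    apply hju
    apply hun
    have hfr2 : ∃ᶠ n in atTop, Ent w D R p q (φr n) j := by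
      refine (hfr.and_eventually hu).mono ?_
      rintro n ⟨rfl, h2⟩
      exact h2
    refine ⟨hfr2.exists.choose_spec.1, fun i => ?_⟩
    have h7 : Tendsto (fun n => (Kn w D R p (q j)).toReal + φr n j) atTop
        (𝓝 ((Kn w D R p (q j)).toReal + φ j)) := (hlim j).const_add _
    have h8 : Tendsto (fun n => (T w D p (q i)).toReal + φr n i) atTop
        (𝓝 ((T w D p (q i)).toReal + φ i)) := (hlim i).const_add _
    have h9 := le_of_tendsto_of_frequently (h7.sub h8) (b := 0)
      (hfr2.mono fun n hn => sub_nonpos.2 (hn.2 i))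
    linarith
  have hex' : ∀ᶠ n in atTop, ∀ j ∈ J, j ≠ u → ur n ≠ j := by
    rw [Filter.eventually_all_finset]
    intro j hj
    by_cases hju : j = u
    · exact Eventually.of_forall fun n h' => absurd hju h'
    · exact (hex j hj hju).mono fun n hn _ => hn
  filter_upwards [hin, hex'] with n h1 h2
  by_contra hne
  exact h2 _ h1 hne rfl

end

end C7
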