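import Pool.Agent.Lib.MP_c725eb_pr.DTwo
import Pool.Agent.Lib.MP_c725eb_pr.Transfer
import Pool.Agent.Lib.MP_c725eb_pr.ClsFin

/-!
# The final merge
-/

set_option autoImplicit false

namespace C7

open MeasureTheory Filter Set
open scoped ENNReal Topology

theorem finite_of_no_ultra {w : W} {v : V}
    (h : ∀ 𝓤 : Ultrafilter ℕ, (𝓤 : Filter ℕ) ≤ atTop → ¬ OnG w v 𝓤) :
    Set.Finite {n : ℕ | T w univ (-(n : ℤ), 0) v + T w univ v ((n : ℤ), 0) =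
      T w univ (-(n : ℤ), 0) ((n : ℤ), 0)} := by
  by_contra hinf
  have h1 : ∃ᶠ n : ℕ in atTop, T w univ (-(n : ℤ), 0) v + T w univ v ((n : ℤ), 0) =
      T w univ (-(n : ℤ), 0) ((n : ℤ), 0) := Nat.frequently_atTop_iff_infinite.2 hinf
  have : NeBot (atTop ⊓ 𝓟 {n : ℕ | T w univ (-(n : ℤ), 0) v + T w univ v ((n : ℤ), 0) =
      T w univ (-(n : ℤ), 0) ((n : ℤ), 0)}) := frequently_mem_iff_neBot.1 h1
  have h2 := Ultrafilter.of_le (atTop ⊓ 𝓟 {n : ℕ | T w univ (-(n : ℤ), 0) v + T w univ v ((n : ℤ), 0) =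
      T w univ (-(n : ℤ), 0) ((n : ℤ), 0)})
  exact h _ (h2.trans inf_le_left) (le_principal_iff.1 (h2.trans inf_le_right))

/-- The final statement from the two cases. -/
theorem merge
    (hC : ∀ (F : Measure ℝ) [IsProbabilityMeasure F] (K : ℝ≥0∞), SmallK F K → F (Iio 0) = 0 →
      (∀ a, F {a} = 0) → rho 0 F K (1, 1) < 2 * rho 0 F K (1, 0) →
      ∀ᵐ ω ∂(iid Ed F), ∀ (v : V) (𝓤 : Ultrafilter ℕ), (𝓤 : Filter ℕ) ≤ atTop → ¬ OnG (wt ω) v 𝓤)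
    (hD : ∀ (F : Measure ℝ) [IsProbabilityMeasure F] (K : ℝ≥0∞), SmallK F K → F (Iio 0) = 0 →
      (∀ a, F {a} = 0) → rho 1 F K (1, 1) = 2 * rho 1 F K (1, 0) → 0 < rho 1 F K (1, 0) →
      ∀ᵐ ω ∂(iid Ed F), ∀ (v : V) (𝓤 : Ultrafilter ℕ), (𝓤 : Filter ℕ) ≤ atTop → ¬ OnG (wt ω) v 𝓤) :
    ∀ (F : Measure ℝ) [IsProbabilityMeasure F], F (Iio 0) = 0 → (∀ a, F {a} = 0) →
      ∀ᵐ ω ∂(iid Ed F), ∀ v : V, Set.Finite {n : ℕ |
        T (wt ω) univ (-(n : ℤ), 0) v + T (wt ω) univ v ((n : ℤ), 0) =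
          T (wt ω) univ (-(n : ℤ), 0) ((n : ℤ), 0)} := by
  intro F _ hF0 hF
  obtain ⟨K, hK⟩ := exists_smallK F
  have h0 : (0 : ℤ) = 0 ∨ (0 : ℤ) = 1 := Or.inl rfl
  have h1 : (1 : ℤ) = 0 ∨ (1 : ℤ) = 1 := Or.inr rfl
  have key : ∀ᵐ ω ∂(iid Ed F), ∀ (v : V) (𝓤 : Ultrafilter ℕ), (𝓤 : Filter ℕ) ≤ atTop →
      ¬ OnG (wt ω) v 𝓤 := by
    rcases (rho_diag_le (F := F) hK h0).lt_or_eq with h | h
    · exact hC F K hK hF0 hF h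
    · refine hD F K hK hF0 hF ?_ (rho_pos hK h1 hF hF0)
      rw [rho_sys hK h1 h0, rho_sys hK h1 h0]
      exact h
  filter_upwards [key] with ω hω v
  exact finite_of_no_ultra (hω v)

end C7
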