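import Pool.Agent.Lib.MP_c725eb_pr.FlowG
import Pool.Agent.Lib.MP_c725eb_pr.Final0

/-!
# The reflected flow system
-/

set_option autoImplicit false

namespace C7

open MeasureTheory Filter Set
open scoped ENNReal Topology

section det

variable {σ : ℤ} {K : ℝ≥0∞} {w : W}

theorem image_Rg_rfw (hσ : σ = 0 ∨ σ = 1) (k : ℤ) : rf σ '' Rg σ (rfw σ w) K k = Rg σ w K k := by
  ext x
  rw [rf_image hσ, mem_Rg_rfw hσ, rf_rf hσ]

theorem T_Rg_rfw (hσ : σ = 0 ∨ σ = 1) (hw : ∀ v, w v 2 = ⊤) (k l x j : ℤ) :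
    T (rfw σ w) (Rg σ (rfw σ w) K k) (pk σ (rfw σ w) K k x) (pk σ (rfw σ w) K l j) =
      T w (Rg σ w K k) (pk σ w K k (-x)) (pk σ w K l (-j)) := by
  rw [T_rfw hσ hw, image_Rg_rfw hσ, pk_rfw hσ, pk_rfw hσ, rf_rf hσ, rf_rf hσ]

theorem image_Hl_rf (hσ : σ = 0 ∨ σ = 1) (l : ℤ) : rf σ '' Hl σ l = Hl σ l := by
  ext x
  rw [rf_image hσ]
  show l ≤ ln σ (rf σ x) ↔ l ≤ ln σ x
  rw [ln_rf hσ]

theorem T_Hl_rfw (hσ : σ = 0 ∨ σ = 1) (hw : ∀ v, w v 2 = ⊤) (l i j : ℤ) :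
    T (rfw σ w) (Hl σ l) (pk σ (rfw σ w) K l i) (pk σ (rfw σ w) K l j) =
      T w (Hl σ l) (pk σ w K l (-i)) (pk σ w K l (-j)) := by
  rw [T_rfw hσ hw, image_Hl_rf hσ, pk_rfw hσ, pk_rfw hσ, rf_rf hσ, rf_rf hσ]

theorem Kn_rfw (hσ : σ = 0 ∨ σ = 1) (hw : ∀ v, w v 2 = ⊤) (D R : Set V) (x y : V) :
    Kn (rfw σ w) D R x y = Kn w (rf σ '' D) (rf σ '' R) (rf σ x) (rf σ y) := by
  have hinj : Function.Injective (rf σ) := fun a b hab => by
    rw [← rf_rf hσ a, ← rf_rf hσ b, hab]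
  have hsurj : Function.Surjective (rf σ) := fun a => ⟨_, rf_rf hσ a⟩
  unfold Kn
  congr 1
  · by_cases h : x = y
    · rw [if_pos h, if_pos (by rw [h])]
    · rw [if_neg h, if_neg (fun h' => h (hinj h'))]
  · rw [← hsurj.iInf_comp (g := fun p => ⨅ (_ : p ∈ rf σ '' D \ rf σ '' R),
      T w (rf σ '' D) (rf σ x) p + step w p (rf σ y))]
    refine iInf_congr fun p => ?_
    have e : rf σ p ∈ rf σ '' D \ rf σ '' R ↔ p ∈ D \ R := by
      simp only [Set.mem_sdiff, hinj.mem_set_image]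
    by_cases hp : p ∈ D \ R
    · rw [iInf_pos hp, iInf_pos (e.2 hp), T_rfw hσ hw, step_rfw hσ hw]
    · rw [iInf_neg hp, iInf_neg (fun h' => hp (e.1 h'))]

theorem Kn_Rg_rfw (hσ : σ = 0 ∨ σ = 1) (hw : ∀ v, w v 2 = ⊤) (k l x u : ℤ) :
    Kn (rfw σ w) (Rg σ (rfw σ w) K k) (Rg σ (rfw σ w) K l) (pk σ (rfw σ w) K k x) (pk σ (rfw σ w) K l u) =
      Kn w (Rg σ w K k) (Rg σ w K l) (pk σ w K k (-x)) (pk σ w K l (-u)) := by
  rw [Kn_rfw hσ hw, image_Rg_rfw hσ, image_Rg_rfw hσ, pk_rfw hσ, pk_rfw hσ, rf_rf hσ, rf_rf hσ]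

theorem ln_nxt_ge (hσ : σ = 0 ∨ σ = 1) (e : Ed) : ln σ e.1 ≤ ln σ (nxt e) := by
  unfold nxt ln
  rcases hσ with rfl | rfl <;> split_ifs <;> simp only <;> omega

theorem ln_gE_rf (hσ : σ = 0 ∨ σ = 1) (e : Ed) : ln σ e.1 ≤ ln σ (gE (rf σ) e).1 := by
  have h := toE_eq ((aut_rf hσ).nb (nb_nxt e))
  unfold gE
  rcases h with ⟨h, -⟩ | ⟨h, -⟩
  · rw [h, ln_rf hσ]
  · rw [h, ln_rf hσ]; exact ln_nxt_ge hσ e

theorem AgreeR.rf (hσ : σ = 0 ∨ σ = 1) {l : ℤ} {ω ω' : Om} (h : AgreeR σ l ω ω') :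
    AgreeR σ l (gO (C7.rf σ) ω) (gO (C7.rf σ) ω') := fun e he =>
  h _ (he.trans (ln_gE_rf hσ e))

end det

section flow

variable {σ : ℤ} {K : ℝ≥0∞} {F : Measure ℝ} [IsProbabilityMeasure F]

/-- The reflected flow system. -/
noncomputable def FlowSys.refl (S : FlowSys σ K F) (hσ : σ = 0 ∨ σ = 1) : FlowSys σ K F where
  v := fun ω k l i => -S.v (gO (rf σ) ω) k l (-i)
  φ := fun ω k i => S.φ (gO (rf σ) ω) k (-i)
  mono := by
    have h := (measurePreserving_gO F (aut_rf hσ)).quasiMeasurePreserving.ae S.mono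
    filter_upwards [h] with ω h1 k l hkl i j hij
    exact neg_le_neg (h1 k l hkl (neg_le_neg hij))
  comp := by
    have h := (measurePreserving_gO F (aut_rf hσ)).quasiMeasurePreserving.ae S.comp
    filter_upwards [h] with ω h1 k l m hkl hlm i
    rw [neg_neg, h1 k l m hkl hlm]
  shift := by
    intro s
    have h := (measurePreserving_gO F (aut_rf hσ)).quasiMeasurePreserving.ae (S.shift (rf σ s))
    filter_upwards [h] with ω h1 k l i hkl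
    have h2 := h1 k l (-i) hkl
    have e : gO (rf σ) (shO s ω) = shO (rf σ s) (gO (rf σ) ω) := by
      have := gO_shO (aut_rf hσ) (rf_tr hσ) (rf σ s) ω
      rwa [rf_rf hσ] at this
    rw [ln_rf hσ, ix_rf hσ] at h2
    rw [e]
    have e2 : -(i + ix σ s) = -i + -ix σ s := by ring
    rw [e2, ← h2]
    ring
  meas := by
    intro k l i j hkl
    have h1 := (S.meas k l (-i) (-j) hkl).preimage
      (measurePreserving_gO F (aut_rf hσ)).quasiMeasurePreserving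
    have e : {ω | -S.v (gO (rf σ) ω) k l (-i) = j} =
        gO (rf σ) ⁻¹' {ω | S.v ω k l (-i) = -j} := by
      ext ω
      show -S.v (gO (rf σ) ω) k l (-i) = j ↔ S.v (gO (rf σ) ω) k l (-i) = -j
      constructor <;> intro h <;> linarith
    rw [e]
    exact h1
  dep_v := by
    intro l N i ω ω' hlN hag
    rw [S.dep_v l N (-i) _ _ hlN (hag.rf hσ)]
  dep_φ := by
    intro l i j ω ω' hag
    exact S.dep_φ l (-i) (-j) _ _ (hag.rf hσ)
  opt := by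
    have h := (measurePreserving_gO F (aut_rf hσ)).quasiMeasurePreserving.ae S.opt
    filter_upwards [h] with ω h1 k l x hkl
    obtain ⟨φx, h2, h3, h4⟩ := h1 k l (-x) hkl
    rw [wt_gO_rf hσ, T_Rg_rfw hσ (wt_two ω), neg_neg] at h3
    refine ⟨φx, fun j => ?_, by rw [neg_neg]; exact h3, by rw [neg_neg]; exact h4⟩
    have h5 := h2 (-j)
    rwa [wt_gO_rf hσ, T_Rg_rfw hσ (wt_two ω), neg_neg, neg_neg] at h5
  coer := by
    have h := (measurePreserving_gO F (aut_rf hσ)).quasiMeasurePreserving.ae S.coer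
    filter_upwards [h] with ω h1 l u
    obtain ⟨L0, δ, hδ, h2⟩ := h1 l (-u)
    refine ⟨L0, δ, hδ, fun j hj => ?_⟩
    have h3 := h2 (-j) (by
      have e : -j - -u = -(j - u) := by ring
      rw [e, abs_neg]; exact hj)
    rwa [wt_gO_rf hσ, T_Hl_rfw hσ (wt_two ω), neg_neg, neg_neg] at h3

theorem FlowSys.refl_v (S : FlowSys σ K F) (hσ : σ = 0 ∨ σ = 1) (ω : Om) (k l i : ℤ) :
    (S.refl hσ).v ω k l i = -S.v (gO (rf σ) ω) k l (-i) := rfl

theorem FlowSys.refl_φ (S : FlowSys σ K F) (hσ : σ = 0 ∨ σ = 1) (ω : Om) (k i : ℤ) :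
    (S.refl hσ).φ ω k i = S.φ (gO (rf σ) ω) k (-i) := rfl

/-- Uniqueness of the minimisers of the reflected flow. -/
theorem UniqArg.refl {S : FlowSys σ K F} (hσ : σ = 0 ∨ σ = 1) {ki : Om → ℤ → ℤ → ℤ → ℤ → ℝ≥0∞}
    {ω : Om} (hki : ∀ k l x u, ki (gO (rf σ) ω) k l x u = ki ω k l (-x) (-u))
    (h : UniqArg ki S (gO (rf σ) ω)) : UniqArg ki (S.refl hσ) ω := by
  intro k l x hkl
  obtain ⟨h1, h2⟩ := h k l (-x) hkl
  rw [hki, neg_neg] at h1
  refine ⟨h1, fun u hu hfin => ?_⟩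
  have h3 := h2 (-u) (fun e => hu (by
    rw [FlowSys.refl_v, ← e, neg_neg])) (by rw [hki, neg_neg, neg_neg]; exact hfin)
  rw [hki, hki, neg_neg, neg_neg] at h3
  rw [FlowSys.refl_v, FlowSys.refl_φ, FlowSys.refl_φ, neg_neg]
  exact h3

end flow

end C7
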