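import Pool.Agent.Lib.MP_c725eb_pr.Fin1
import Pool.Agent.Lib.MP_c725eb_pr.FlowRf
import Pool.Agent.Lib.MP_c725eb_pr.ClsRefl

/-!
# The non-diamond case
-/

set_option autoImplicit false

namespace C7

open MeasureTheory Filter Set
open scoped ENNReal NNReal Topology

section det

variable {σ : ℤ} {K : ℝ≥0∞} {w : W}

theorem rfw_rfw (hσ : σ = 0 ∨ σ = 1) (hw : ∀ v, w v 2 = ⊤) : rfw σ (rfw σ w) = w := by
  have h : ∀ u v, step (rfw σ (rfw σ w)) u v = step w u v := fun u v => by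
    rw [step_rfw hσ (rfw_diag σ w), step_rfw hσ hw, rf_rf hσ, rf_rf hσ]
  funext v d
  fin_cases d
  · have := h v (v.1 + 1, v.2)
    rwa [step_right, step_right] at this
  · have := h v (v.1, v.2 + 1)
    rwa [step_up, step_up] at this
  · rw [show (⟨2, by decide⟩ : Fin 3) = 2 from rfl, hw]
    exact rfw_diag σ _ v

/-- Vertical covariance of the class `b`. -/
theorem blo_vert (hσ : σ = 0 ∨ σ = 1) (hK : K ≠ ⊤) (hN : Nice σ K (sh (vert σ) w)) (i : ℤ) :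
    blo σ K i (sh (vert σ) w) = blo σ K (i + (1 + σ)) w := by
  rw [blo_eq, blo_eq]
  exact iInf_congr fun j => Glo_vert hσ hK hN (dup_ub σ j).toDlo i

/-- The reflected targets. -/
theorem tpot_rfw0 (hw : ∀ v, w v 2 = ⊤) (n : ℤ) (k i : ℤ) :
    tpot 0 K (rfw 0 w) (n, 0) k i = tpot 0 K w (n, 0) k (-i) := by
  have h0 : (0 : ℤ) = 0 ∨ (0 : ℤ) = 1 := Or.inl rfl
  unfold tpot
  have e : rf 0 (((n : ℤ), 0) : V) = (n, 0) := by rw [rf_zero]; simp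
  rw [T_rfw h0 hw, image_Rg_rfw h0, pk_rfw h0, rf_rf h0, e]

end det

section prob

variable {K : ℝ≥0∞} {F : Measure ℝ} [IsProbabilityMeasure F]

/-- The class `a` is the mirror image of the class `b`, on all lines. -/
theorem ae_mv_alo (hK : SmallK F K) : ∀ᵐ ω ∂(iid Ed F), ∀ k i : ℤ,
    mv 0 (alo 0 K) k i (wt ω) = -mv 0 (blo 0 K) k (-i - 1) (wt (gO (rf 0) ω)) := by
  have h0 : (0 : ℤ) = 0 ∨ (0 : ℤ) = 1 := Or.inl rfl
  have h1 := ae_alo_rf (F := F) hK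
  have h2 := (measurePreserving_gO F (aut_rf h0)).quasiMeasurePreserving.ae h1
  have h3 : ∀ᵐ ω ∂(iid Ed F), ∀ s : V, ∀ i : ℤ,
      alo 0 K i (wt (gO (rf 0) (gO (rf 0) (shO s ω)))) = -blo 0 K (-i - 1) (wt (gO (rf 0) (shO s ω))) := by
    rw [ae_all_iff]
    intro s
    exact (measurePreserving_shO F s).quasiMeasurePreserving.ae h2
  have h4 := ae_shift_all (F := F) (P := fun w => Nice 0 K w) (ae_nice (F := F) hK h0)
  have h5 := (measurePreserving_gO F (aut_rf h0)).quasiMeasurePreserving.ae h4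
  filter_upwards [h3, h5] with ω h6 h7 k i
  set ω' := gO (rf 0) ω with hω'
  have hss : ∀ j, ss 0 k j = (k, j) := fun j => by unfold ss; simp
  have hrr : ∀ j, rr 0 k j = 0 := fun j => by unfold rr; simp
  have e1 : gO (rf 0) (shO (k, i) ω) = shO (k, -i) ω' := by
    have := gO_shO (aut_rf h0) (rf_tr h0) ((k, -i) : V) ω
    rw [rf_zero] at this
    simpa using this
  have h8 := h6 (k, i) 0
  rw [wt_gO_rf h0, wt_gO_rf h0, rfw_rfw h0 (wt_two _), ← wt_gO_rf h0, e1] at h8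
  unfold mv
  rw [hss, hss, hrr, hrr, ← wt_shO, h8, wt_shO]
  congr 1
  have e2 : sh ((k, -i) : V) (wt ω') = sh (vert 0) (sh ((k, -i - 1) : V) (wt ω')) := by
    rw [sh_sh]
    congr 1
    unfold vert
    refine Prod.ext ?_ ?_
    · simp
    · simp
  rw [e2, blo_vert h0 hK.1 (by rw [← e2]; exact h7 _)]
  congr 1

omit [IsProbabilityMeasure F] in
/-- Two-sided tightness for columns. -/
theorem ae_tgOn_zero (hT : ∀ᵐ ω ∂(iid Ed F), ∀ (v : V) (l : ℤ), Tig 0 K (wt ω) l v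
      (fun n => ((n : ℤ), 0)) atTop 1)
    (hT' : ∀ᵐ ω ∂(iid Ed F), ∀ (v : V) (l : ℤ), Tig 0 K (wt ω) l v
      (fun n => ((n : ℤ), 0)) atTop (-1)) : ∀ᵐ ω ∂(iid Ed F), TgOn 0 K (wt ω) := by
  filter_upwards [hT, hT'] with ω h1 h2 v 𝓤 h𝓤 _ l
  obtain ⟨M, hM⟩ := ((h1 v l).mono h𝓤).both ((h2 v l).mono h𝓤)
  refine ⟨M, ?_⟩
  filter_upwards [hM] with n hn i hi he
  exact absurd (hn i he.le) (not_le.2 hi)

/-- **The non-diamond case.** -/
theorem final_C (hK : SmallK F K) (hF : ∀ a, F {a} = 0) (hF0 : F (Iio 0) = 0) (X : XSys 0 K F)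
    (hki : ∀ ω k l x u, X.ki ω k l x u = kiU 0 K ω k l x u)
    (hph : ∀ ω n h k x, X.Z.ph ω n h k x = phS 0 K (wt ω) n h k x)
    (hvS : ∀ ω n k l h x, X.Z.v ω n k l h x = vS 0 K (wt ω) n k l h x)
    (hφ : ∀ᵐ ω ∂(iid Ed F), ∀ k i, X.S.φ ω k i - X.S.φ ω k (i + 1) = mv 0 (blo 0 K) k i (wt ω))
    (hal : ∀ᵐ ω ∂(iid Ed F), ∀ k i, X.al ω k i - X.al ω k (i + 1) = mv 0 (alo 0 K) k i (wt ω))
    (hcfg : ∀ᵐ ω ∂(iid Ed F), Cfg 0 K (wt ω))
    (hrel : ∀ᵐ ω ∂(iid Ed F), Frel (kiU 0 K) X.S ω)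
    (hT : ∀ᵐ ω ∂(iid Ed F), ∀ (v : V) (l : ℤ), Tig 0 K (wt ω) l v (fun n => ((n : ℤ), 0)) atTop 1)
    (hT' : ∀ᵐ ω ∂(iid Ed F), ∀ (v : V) (l : ℤ), Tig 0 K (wt ω) l v
      (fun n => ((n : ℤ), 0)) atTop (-1)) :
    ∀ᵐ ω ∂(iid Ed F), ∀ (v : V) (𝓤 : Ultrafilter ℕ), (𝓤 : Filter ℕ) ≤ atTop → ¬ OnG (wt ω) v 𝓤 := by
  have h0 : (0 : ℤ) = 0 ∨ (0 : ℤ) = 1 := Or.inl rfl
  set Sa := X.S.refl h0 with hSa
  have hgood : ∀ᵐ ω ∂(iid Ed F), Good 0 (wt ω) K := hcfg.mono fun ω h => h.good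
  have hmp := (measurePreserving_gO F (aut_rf h0)).quasiMeasurePreserving
  -- increments of the reflected flow
  have hSφ : ∀ᵐ ω ∂(iid Ed F), ∀ k i, Sa.φ ω k i - Sa.φ ω k (i + 1) =
      -mv 0 (blo 0 K) k (-i - 1) (wt (gO (rf 0) ω)) := by
    filter_upwards [hmp.ae hφ] with ω h k i
    have h1 := h k (-i - 1)
    rw [← h1, hSa, FlowSys.refl_φ, FlowSys.refl_φ, show -(i + 1) = -i - 1 by ring,
      show -i - 1 + 1 = -i by ring]
    ring
  have hal' : ∀ᵐ ω ∂(iid Ed F), ∀ k i j, X.al ω k i - X.al ω k j = Sa.φ ω k i - Sa.φ ω k j := by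
    filter_upwards [hal, hSφ, ae_mv_alo hK] with ω h1 h2 h3 k i j
    have key : ∀ i, X.al ω k i - X.al ω k (i + 1) = Sa.φ ω k i - Sa.φ ω k (i + 1) := fun i => by
      rw [h1, h2, h3]
    rcases le_total i j with hij | hij
    · exact le_antisymm (incr_le (fun i => (key i).le) hij) (incr_le (fun i => (key i).ge) hij)
    · have h4 := incr_le (f := X.al ω k) (g := Sa.φ ω k) (fun i => (key i).le) hij
      have h5 := incr_le (f := Sa.φ ω k) (g := X.al ω k) (fun i => (key i).ge) hij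
      linarith
  have hua : ∀ᵐ ω ∂(iid Ed F), UniqArg X.ki Sa ω := by
    filter_upwards [hmp.ae X.ae_uniqArg] with ω h
    refine UniqArg.refl h0 (fun k l x u => ?_) h
    rw [hki, hki]
    unfold kiU
    rw [KI_univ, KI_univ, wt_gO_rf h0]
    exact Kn_Rg_rfw h0 (wt_two ω) k l x u
  have hmem := ae_tgt (F := F) hK h0
  filter_upwards [no_path h0 X Sa hal' hua hgood hF hF0,
    ae_PD X hcfg hki hph hvS hφ hrel hmem (fun h => absurd h (by norm_num)) (ae_tgOn_zero hT hT'),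
    hSφ, hcfg, hmp.ae hcfg, hmp.ae hmem] with ω h1 h2 h3 h4 h5 h6 v 𝓤 h𝓤 hon
  obtain ⟨z, κ, hPD, -, hlim⟩ := h2 v 𝓤 h𝓤 hon
  refine h1 z κ hPD fun k i => ?_
  rw [h3 k i]
  refine le_of_forall_pos_le_add fun δ hδ => ?_
  have h7 := dom_hor h5 h6 k (-i - 1) hδ
  have h8 := (hlim k i (i + 1)).const_add δ
  rw [add_comm δ (κ k i - κ k (i + 1))] at h8
  refine ge_of_tendsto h8 ?_
  filter_upwards [h𝓤 h7] with n hn
  rw [wt_gO_rf h0, tpot_rfw0 (wt_two ω), tpot_rfw0 (wt_two ω), show -(-i - 1) = i + 1 by ring,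
    show -(-i - 1 + 1) = i by ring, ← wt_gO_rf h0] at hn
  linarith

end prob

end C7
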