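import Pool.Agent.Lib.MP_c725eb_pr.Mono
import Pool.Agent.Lib.MP_c725eb_pr.Lin

/-!
# Generic configurations

Cutting loops, uniqueness of geodesics (no atoms), existence of geodesics (local finiteness).
-/

set_option autoImplicit false

namespace C7

open MeasureTheory Filter Set
open scoped ENNReal Topology

/-! ### Cutting loops -/

theorem step_pos {w : W} (hw : ∀ v d, w v d ≠ 0) (u v : V) : step w u v ≠ 0 := by
  unfold step
  split_ifs <;> first | exact hw _ _ | exact ENNReal.top_ne_zero

theorem cost_pos {w : W} (hw : ∀ v d, w v d ≠ 0) {l : List V} (hl : 2 ≤ l.length) :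
    cost w l ≠ 0 := by
  match l, hl with
  | a :: b :: l', _ =>
    rw [cost_cons_cons]
    intro h
    exact step_pos hw a b (add_eq_zero.1 h).1

/-- Cutting one loop. -/
theorem IsW.cut {D : Set V} {x y : V} {l : List V} (h : IsW D x y l) (hn : ¬ l.Nodup) :
    ∃ l' m : List V, IsW D x y l' ∧ l'.length < l.length ∧ 2 ≤ m.length ∧ l' ⊆ l ∧
      ∀ w : W, cost w l = cost w l' + cost w m := by
  induction l generalizing x with
  | nil => exact absurd List.nodup_nil hn
  | cons a t ih =>
    have hxa : a = x := by simpa using h.1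
    subst hxa
    by_cases hat : a ∈ t
    · obtain ⟨s, r, rfl⟩ := List.append_of_mem hat
      refine ⟨a :: r, a :: (s ++ [a]), ⟨rfl, ?_, fun v hv => h.2.2 v ?_⟩, ?_, ?_, ?_, fun w => ?_⟩
      · have h1 := h.2.1
        have h2 : a :: (s ++ a :: r) = (a :: s) ++ (a :: r) := rfl
        rw [h2, List.getLast?_append_of_ne_nil _ (by simp)] at h1
        exact h1
      · simp only [List.mem_cons, List.mem_append] at hv ⊢
        tauto
      · simp only [List.length_cons, List.length_append]
        omega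
      · simp
      · intro v hv
        simp only [List.mem_cons, List.mem_append] at hv ⊢
        tauto
      · have h2 : a :: (s ++ a :: r) = (a :: s) ++ (a :: r) := rfl
        rw [h2, cost_append, add_comm]
        rfl
    · have hnt : ¬ t.Nodup := fun h1 => hn (List.nodup_cons.2 ⟨hat, h1⟩)
      cases t with
      | nil => exact absurd List.nodup_nil hnt
      | cons b t' =>
        have hb : IsW D b y (b :: t') := ⟨rfl, by simpa using h.2.1, fun v hv => h.2.2 v (by simp [hv])⟩
        obtain ⟨l', m, h1, h2, h3, h4, h5⟩ := ih hb hnt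
        obtain ⟨l'', rfl⟩ := h1.eq_cons
        refine ⟨a :: b :: l'', m, ⟨rfl, ?_, ?_⟩, ?_, h3, ?_, fun w => ?_⟩
        · simpa using h1.2.1
        · intro v hv
          rcases List.mem_cons.1 hv with rfl | hv
          · exact h.2.2 _ (by simp)
          · exact h1.2.2 v hv
        · simp only [List.length_cons] at h2 ⊢
          omega
        · exact List.cons_subset_cons a h4
        · rw [cost_cons_cons, cost_cons_cons, h5 w, add_assoc]

/-- Loop erasure. -/
theorem IsW.exists_nodup {D : Set V} {x y : V} {l : List V} (h : IsW D x y l) :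
    ∃ l' : List V, IsW D x y l' ∧ l'.Nodup ∧ l' ⊆ l ∧ ∀ w : W, cost w l' ≤ cost w l := by
  induction hn : l.length using Nat.strong_induction_on generalizing l with
  | _ n ih =>
    by_cases hd : l.Nodup
    · exact ⟨l, h, hd, fun _ hv => hv, fun _ => le_rfl⟩
    · obtain ⟨l', m, h1, h2, -, h4, h5⟩ := h.cut hd
      obtain ⟨l'', h6, h7, h8, h9⟩ := ih l'.length (hn ▸ h2) h1 rfl
      exact ⟨l'', h6, h7, fun v hv => h4 (h8 hv), fun w => (h9 w).trans (by rw [h5 w]; exact le_self_add)⟩

/-- Minimal walks are simple. -/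
theorem nodup_of_minW {w : W} (hw : ∀ v d, w v d ≠ 0) {D : Set V} {x y : V} {l : List V}
    (h : IsW D x y l) (hmin : cost w l = T w D x y) (hfin : T w D x y ≠ ⊤) : l.Nodup := by
  by_contra hn
  obtain ⟨l', m, h1, -, h3, -, h5⟩ := h.cut hn
  have h6 := T_le (w := w) h1
  have h7 := h5 w
  have h8 : cost w l' ≠ ⊤ := fun h8 => hfin (by rw [← hmin, h7, h8, top_add])
  have h9 : cost w l' < cost w l' + cost w m := ENNReal.lt_add_right h8 (cost_pos hw h3)
  rw [← h7, hmin] at h9
  exact absurd h6 (not_le.2 h9)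

/-! ### Existence of geodesics -/

theorem finite_nodup {B : Set V} (hB : B.Finite) : {l : List V | l.Nodup ∧ ∀ v ∈ l, v ∈ B}.Finite := by
  classical
  have : Fintype B := hB.fintype
  refine (Set.finite_range (fun l : {l : List B // l.Nodup} => l.1.map Subtype.val)).subset ?_
  rintro l ⟨h1, h2⟩
  have hinj : Function.Injective (fun v : {x // x ∈ l} => (⟨v.1, h2 v.1 v.2⟩ : B)) := by
    intro a b hab
    exact Subtype.ext (by simpa using hab)
  refine ⟨⟨l.attach.map (fun v => (⟨v.1, h2 v.1 v.2⟩ : B)), (List.nodup_attach.2 h1).map hinj⟩, ?_⟩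
  show List.map Subtype.val (l.attach.map (fun v => (⟨v.1, h2 v.1 v.2⟩ : B))) = l
  rw [List.map_map]
  exact List.attach_map_subtype_val l

/-- Existence of geodesics. -/
theorem exGeo_of_finite {w : W} (h : ∀ (v : V) (M : ℝ≥0∞), M ≠ ⊤ → {x | T w univ v x ≤ M}.Finite) :
    ExGeo w := by
  intro D x y hT
  set M : ℝ≥0∞ := T w D x y + 1 with hM
  have hMt : M ≠ ⊤ := ENNReal.add_ne_top.2 ⟨hT, ENNReal.one_ne_top⟩
  have hS : {l : List V | IsW D x y l ∧ l.Nodup ∧ cost w l ≤ M}.Finite := by
    refine (finite_nodup (h x M hMt)).subset ?_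
    rintro l ⟨h1, h2, h3⟩
    refine ⟨h2, fun v hv => ?_⟩
    obtain ⟨l₁, l₂, -, h5, -, h7⟩ := h1.split hv
    have h8 : T w univ x v ≤ cost w (l₁ ++ [v]) := T_le (h5.mono (subset_univ _))
    exact h8.trans ((le_self_add.trans (h7 w).ge).trans h3)
  have hne : {l : List V | IsW D x y l ∧ l.Nodup ∧ cost w l ≤ M}.Nonempty := by
    have h1 : T w D x y < M := ENNReal.lt_add_right hT one_ne_zero
    rw [T] at h1
    obtain ⟨l, h2⟩ := iInf_lt_iff.1 h1
    obtain ⟨h3, h4⟩ := iInf_lt_iff.1 h2
    obtain ⟨l', h5, h6, -, h8⟩ := h3.exists_nodup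
    exact ⟨l', h5, h6, (h8 w).trans h4.le⟩
  obtain ⟨l, hl, hmin⟩ := hS.exists_minimalFor (cost w) _ hne
  refine ⟨l, hl.1, le_antisymm (le_T fun l' hl' => ?_) (T_le hl.1)⟩
  obtain ⟨l'', h5, h6, -, h8⟩ := hl'.exists_nodup
  refine le_trans ?_ (h8 w)
  by_cases hc : cost w l'' ≤ M
  · rcases le_total (cost w l) (cost w l'') with h9 | h9
    · exact h9
    · exact hmin ⟨h5, h6, hc⟩ h9
  · exact hl.2.2.trans (not_le.1 hc).le

/-! ### Uniqueness of geodesics -/

@[simp] theorem eds_nil : eds [] = [] := rfl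
@[simp] theorem eds_single (u : V) : eds [u] = [] := rfl

theorem toE_inj {u v u' v' : V} (h : Nb u v) (h' : Nb u' v') (he : toE u v = toE u' v') :
    (u = u' ∧ v = v') ∨ (u = v' ∧ v = u') := by
  have h1 := toE_eq h
  have h2 := toE_eq h'
  rw [← he] at h2
  rcases h1 with ⟨a, b⟩ | ⟨a, b⟩ <;> rcases h2 with ⟨c, d⟩ | ⟨c, d⟩
  · exact Or.inl ⟨a.symm.trans c, b.symm.trans d⟩
  · exact Or.inr ⟨a.symm.trans c, b.symm.trans d⟩
  · exact Or.inr ⟨b.symm.trans d, a.symm.trans c⟩
  · exact Or.inl ⟨b.symm.trans d, a.symm.trans c⟩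

theorem mem_eds {l : List V} (h : List.IsChain Nb l) {e : Ed} (he : e ∈ eds l) :
    ∃ u ∈ l, ∃ v ∈ l, Nb u v ∧ e = toE u v := by
  induction l with
  | nil => simp at he
  | cons a l ih =>
    cases l with
    | nil => simp at he
    | cons b l' =>
      rw [List.isChain_cons_cons] at h
      rw [eds_cons_cons, List.mem_cons] at he
      rcases he with rfl | he
      · exact ⟨a, by simp, b, by simp, h.1, rfl⟩
      · obtain ⟨u, hu, v, hv, h1, h2⟩ := ih h.2 he
        exact ⟨u, List.mem_cons_of_mem _ hu, v, List.mem_cons_of_mem _ hv, h1, h2⟩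

theorem eq_single_of_nodup {x : V} {l : List V} (hn : l.Nodup) (h1 : l.head? = some x)
    (h2 : l.getLast? = some x) : l = [x] := by
  cases l with
  | nil => simp at h1
  | cons a t =>
    have ha : a = x := by simpa using h1
    subst ha
    cases t with
    | nil => rfl
    | cons b t' =>
      exfalso
      have h3 : (b :: t').getLast? = some a := by simpa using h2
      have h4 := List.mem_of_getLast? h3
      exact (List.nodup_cons.1 hn).1 h4

/-- Two simple walks with the same end points use some edge a different number of times. -/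
theorem exists_count_ne {l l' : List V} {x y : V} (h : List.IsChain Nb l) (h' : List.IsChain Nb l')
    (hn : l.Nodup) (hn' : l'.Nodup) (h1 : l.head? = some x) (h1' : l'.head? = some x)
    (h2 : l.getLast? = some y) (h2' : l'.getLast? = some y) (hne : l ≠ l') :
    ∃ e, (eds l).count e ≠ (eds l').count e := by
  induction l generalizing l' x with
  | nil => simp at h1
  | cons a t ih =>
    have ha : a = x := by simpa using h1
    subst ha
    obtain ⟨t', rfl⟩ : ∃ t', l' = a :: t' := by
      cases l' with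
      | nil => simp at h1'
      | cons b t' => exact ⟨t', by have : b = a := by simpa using h1'
                                   rw [this]⟩
    cases t with
    | nil =>
      have hy : a = y := by simpa using h2
      subst hy
      exact absurd (eq_single_of_nodup hn' h1' h2').symm hne
    | cons b s =>
      cases t' with
      | nil =>
        have hy : a = y := by simpa using h2'
        subst hy
        exact absurd (eq_single_of_nodup hn h1 h2) hne
      | cons b' s' =>
        rw [List.isChain_cons_cons] at h h'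
        by_cases hb : b = b'
        · subst hb
          obtain ⟨e, he⟩ := ih h.2 h'.2 (List.nodup_cons.1 hn).2 (List.nodup_cons.1 hn').2 rfl rfl
            (by simpa using h2) (by simpa using h2') (fun h3 => hne (by rw [h3]))
          refine ⟨e, fun h3 => he ?_⟩
          rw [eds_cons_cons, eds_cons_cons, List.count_cons, List.count_cons] at h3
          omega
        · refine ⟨toE a b, fun h3 => ?_⟩
          rw [eds_cons_cons, List.count_cons_self, eds_cons_cons] at h3
          have h4 : toE a b ∉ toE a b' :: eds (b' :: s') := by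
            intro h5
            rcases List.mem_cons.1 h5 with h6 | h6
            · rcases toE_inj h.1 h'.1 h6 with ⟨-, h7⟩ | ⟨h7, -⟩
              · exact hb h7
              · apply (List.nodup_cons.1 hn').1
                rw [h7]; simp
            · obtain ⟨u, hu, v, hv, h7, h8⟩ := mem_eds h'.2 h6
              rcases toE_inj h.1 h7 h8 with ⟨h9, -⟩ | ⟨h9, -⟩
              · exact (List.nodup_cons.1 hn').1 (h9 ▸ hu)
              · exact (List.nodup_cons.1 hn').1 (h9 ▸ hv)
          rw [List.count_eq_zero.2 h4] at h3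
          omega

theorem sum_split (L : List Ed) (e : Ed) (ω : Om) :
    (L.map ω).sum = (L.count e : ℝ) * ω e + ((L.filter fun f => f ≠ e).map ω).sum := by
  induction L with
  | nil => simp
  | cons a L ih =>
    rw [List.map_cons, List.sum_cons, ih]
    by_cases ha : a = e
    · subst ha
      rw [List.count_cons_self, List.filter_cons_of_neg (by simp)]
      push_cast
      ring
    · rw [List.count_cons_of_ne ha, List.filter_cons_of_pos (by simp [ha]), List.map_cons, List.sum_cons]
      ring

theorem measurable_list_sum (L : List Ed) : Measurable fun ω : Om => (L.map ω).sum := by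
  induction L with
  | nil => simp only [List.map_nil, List.sum_nil]; exact measurable_const
  | cons a L ih =>
    simp only [List.map_cons, List.sum_cons]
    exact (measurable_pi_apply a).add ih

theorem conc_zero' {F : Measure ℝ} (hF : ∀ a, F {a} = 0) : conc F 0 = 0 := by
  unfold conc
  simp [hF]

theorem null_sum_eq {F : Measure ℝ} [IsProbabilityMeasure F] (hF : ∀ a, F {a} = 0) {L L' : List Ed}
    (h : ∃ e, L.count e ≠ L'.count e) : ∀ᵐ ω ∂(iid Ed F), (L.map ω).sum ≠ (L'.map ω).sum := by
  obtain ⟨e, he⟩ := h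
  set c : ℝ := (L.count e : ℝ) - (L'.count e : ℝ) with hc
  have hc0 : c ≠ 0 := by
    rw [hc, sub_ne_zero]
    exact_mod_cast he
  set g : Om → ℝ := fun ω => (((L'.filter fun f => f ≠ e).map ω).sum -
    ((L.filter fun f => f ≠ e).map ω).sum) / c with hg
  have hgm : Measurable g := ((measurable_list_sum _).sub (measurable_list_sum _)).div_const c
  have hdep : DepOn ({e}ᶜ : Set Ed) g := by
    intro ω ω' hω
    have key : ∀ M : List Ed, ((M.filter fun f => f ≠ e).map ω) = ((M.filter fun f => f ≠ e).map ω') := by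
      intro M
      refine List.map_congr_left fun f hf => hω f ?_
      have := (List.mem_filter.1 hf).2
      simpa using this
    simp only [hg, key]
  have h1 := near_tie F e hgm hdep 0
  rw [conc_zero' hF, nonpos_iff_eq_zero] at h1
  have h2 : ∀ᵐ ω ∂(iid Ed F), ω ∉ {ω : Om | |ω e - g ω| ≤ 0} := measure_eq_zero_iff_ae_notMem.1 h1
  filter_upwards [h2] with ω h3 h4
  apply h3
  show |ω e - g ω| ≤ 0
  rw [sum_split L e, sum_split L' e] at h4
  rw [abs_nonpos_iff, sub_eq_zero]
  simp only [hg]
  rw [eq_div_iff hc0, hc]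
  linarith

theorem ae_pos {F : Measure ℝ} [IsProbabilityMeasure F] (hF : F {0} = 0) (hF0 : F (Iio 0) = 0) :
    ∀ᵐ ω ∂(iid Ed F), ∀ e, 0 < ω e := by
  rw [ae_all_iff]
  intro e
  have h4 : MeasurePreserving (Function.eval e) (iid Ed F) F := by
    unfold iid
    exact measurePreserving_eval_infinitePi (fun _ : Ed => F) e
  have h5 : ∀ᵐ a ∂F, 0 < a := by
    rw [ae_iff]
    have h6 : {a : ℝ | ¬ 0 < a} = Iio 0 ∪ {0} := by
      ext a
      simp [le_iff_lt_or_eq]
    rw [h6]
    exact measure_union_null hF0 hF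
  exact h4.quasiMeasurePreserving.ae h5

theorem wt_ne_zero {ω : Om} (h : ∀ e, 0 < ω e) (v : V) (d : Fin 3) : wt ω v d ≠ 0 := by
  unfold wt
  split_ifs
  · exact (ENNReal.ofReal_pos.2 (h _)).ne'
  · exact (ENNReal.ofReal_pos.2 (h _)).ne'
  · exact ENNReal.top_ne_zero

theorem sum_ofReal {ω : Om} (h : ∀ e, 0 ≤ ω e) (L : List Ed) :
    (L.map fun e => ENNReal.ofReal (ω e)).sum = ENNReal.ofReal (L.map ω).sum := by
  induction L with
  | nil => simp
  | cons a L ih =>
    have h1 : 0 ≤ (L.map ω).sum := List.sum_nonneg (by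
      intro r hr
      obtain ⟨e, -, rfl⟩ := List.mem_map.1 hr
      exact h e)
    rw [List.map_cons, List.sum_cons, ih, List.map_cons, List.sum_cons, ENNReal.ofReal_add (h a) h1]

/-- **Uniqueness of geodesics.** -/
theorem ae_uniqGeo {F : Measure ℝ} [IsProbabilityMeasure F] (hF : ∀ a, F {a} = 0)
    (hF0 : F (Iio 0) = 0) : ∀ᵐ ω ∂(iid Ed F), UniqGeo (wt ω) := by
  have h1 : ∀ᵐ ω ∂(iid Ed F), ∀ L L' : List Ed, (∃ e, L.count e ≠ L'.count e) →
      (L.map ω).sum ≠ (L'.map ω).sum := by
    rw [ae_all_iff]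
    intro L
    rw [ae_all_iff]
    intro L'
    by_cases h : ∃ e, L.count e ≠ L'.count e
    · filter_upwards [null_sum_eq hF h] with ω h1 _
      exact h1
    · exact Eventually.of_forall fun ω h' => absurd h' h
  filter_upwards [h1, ae_pos (hF 0) hF0] with ω h2 h3 D x y l l' hl hl' hm hm' hfin
  by_contra hne
  have hw : ∀ v, wt ω v 2 = ⊤ := fun v => wt_two ω v
  have hc : List.IsChain Nb l := chain_nb hw (by rw [hm]; exact hfin)
  have hc' : List.IsChain Nb l' := chain_nb hw (by rw [hm']; exact hfin)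
  have hn := nodup_of_minW (wt_ne_zero h3) hl hm hfin
  have hn' := nodup_of_minW (wt_ne_zero h3) hl' hm' hfin
  refine h2 _ _ (exists_count_ne hc hc' hn hn' hl.1 hl'.1 hl.2.1 hl'.2.1 hne) ?_
  have h4 : cost (wt ω) l = cost (wt ω) l' := hm.trans hm'.symm
  rw [cost_wt ω hc, cost_wt ω hc', sum_ofReal fun e => (h3 e).le, sum_ofReal fun e => (h3 e).le] at h4
  have h5 : ∀ L : List Ed, 0 ≤ (L.map ω).sum := fun L => List.sum_nonneg (by
      intro r hr
      obtain ⟨e, -, rfl⟩ := List.mem_map.1 hr
      exact (h3 e).le)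
  exact (ENNReal.ofReal_eq_ofReal_iff (h5 _) (h5 _)).1 h4

/-! ### Existence of geodesics and balls -/

theorem ae_finite_ball {F : Measure ℝ} [IsProbabilityMeasure F] (hF : ∀ a, F {a} = 0)
    (hF0 : F (Iio 0) = 0) : ∀ᵐ ω ∂(iid Ed F), ∀ (v : V) (M : ℝ≥0∞), M ≠ ⊤ →
      {x | T (wt ω) univ v x ≤ M}.Finite := by
  obtain ⟨c, hc, h⟩ := ae_T_linear hF hF0
  filter_upwards [h] with ω hω v M hM
  obtain ⟨C, hC, h1⟩ := hω v
  obtain ⟨N, hN⟩ := exists_nat_ge ((M.toReal + C) / c)
  refine ((finite_Icc (v.1 - N) (v.1 + N)).prod (finite_Icc (v.2 - N) (v.2 + N))).subset ?_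
  intro x hx
  have h2 := (h1 univ x).trans hx
  rw [ENNReal.ofReal_le_iff_le_toReal hM] at h2
  have h3 : |((x.1 - v.1 : ℤ) : ℝ)| + |((x.2 - v.2 : ℤ) : ℝ)| ≤ (N : ℝ) := by
    refine le_trans ?_ hN
    rw [le_div_iff₀ hc]
    linarith
  have h4 : |x.1 - v.1| + |x.2 - v.2| ≤ (N : ℤ) := by exact_mod_cast h3
  have h5 := abs_nonneg (x.1 - v.1)
  have h6 := abs_nonneg (x.2 - v.2)
  have h7 : |x.1 - v.1| ≤ (N : ℤ) := by omega
  have h8 : |x.2 - v.2| ≤ (N : ℤ) := by omega
  rw [abs_le] at h7 h8
  exact mem_prod.2 ⟨mem_Icc.2 ⟨by omega, by omega⟩, mem_Icc.2 ⟨by omega, by omega⟩⟩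

/-- **Generic configurations.** -/
theorem ae_gen {F : Measure ℝ} [IsProbabilityMeasure F] (hF : ∀ a, F {a} = 0)
    (hF0 : F (Iio 0) = 0) : ∀ᵐ ω ∂(iid Ed F), UniqGeo (wt ω) ∧ ExGeo (wt ω) := by
  filter_upwards [ae_uniqGeo hF hF0, ae_finite_ball hF hF0] with ω h1 h2
  exact ⟨h1, exGeo_of_finite h2⟩

end C7
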