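import Pool.Agent.Lib.MP_c725eb_pr.Basic

/-!
# The crossing lemma on the triangular lattice (parity proof)
-/

set_option autoImplicit false

namespace C7

/-- The edge `p q` joins the rows `v.2` and `v.2 + 1` and its lower endpoint is to the left of `v`. -/
def Ce (p q v : V) : Prop :=
  (p.2 = v.2 ∧ q.2 = v.2 + 1 ∧ p.1 < v.1) ∨ (q.2 = v.2 ∧ p.2 = v.2 + 1 ∧ q.1 < v.1)

instance (p q v : V) : Decidable (Ce p q v) := by unfold Ce; infer_instance

/-- Number (mod 2) of edges of the list crossing the row of `v` on the left of `v`. -/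
def cr : List V → V → ZMod 2
  | [], _ => 0
  | [_], _ => 0
  | p :: q :: l, v => (if Ce p q v then 1 else 0) + cr (q :: l) v

@[simp] theorem cr_nil (v : V) : cr [] v = 0 := rfl
@[simp] theorem cr_single (p v : V) : cr [p] v = 0 := rfl
@[simp] theorem cr_cons_cons (p q : V) (l : List V) (v : V) :
    cr (p :: q :: l) v = (if Ce p q v then 1 else 0) + cr (q :: l) v := rfl

/-- `p, q` are consecutive vertices of the list. -/
inductive Cons2 (p q : V) : List V → Prop
  | here (l : List V) : Cons2 p q (p :: q :: l)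
  | there (a : V) {l : List V} (h : Cons2 p q l) : Cons2 p q (a :: l)

theorem adj_of_cons2 {l : List V} (hl : List.IsChain Adj l) {p q : V} (h : Cons2 p q l) : Adj p q := by
  induction h with
  | here l => exact (List.isChain_cons_cons.1 hl).1
  | there a h ih => exact ih hl.tail

theorem mem_of_cons2 {l : List V} {p q : V} (h : Cons2 p q l) : p ∈ l ∧ q ∈ l := by
  induction h with
  | here l => simp
  | there a h ih => exact ⟨List.mem_cons_of_mem _ ih.1, List.mem_cons_of_mem _ ih.2⟩

/-- Abstract telescoping: if every edge contributes `f p + f q` then the sum is `f head + f last`. -/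
theorem cr_telescope {v v' : V} (f : V → ZMod 2) :
    ∀ (l : List V) (a b : V), l.head? = some a → l.getLast? = some b →
      (∀ p q, Cons2 p q l → (if Ce p q v then (1 : ZMod 2) else 0) + (if Ce p q v' then 1 else 0) = f p + f q) →
      cr l v + cr l v' = f a + f b := by
  intro l
  induction l with
  | nil => intro a b h; simp at h
  | cons p l ih =>
    intro a b ha hb h
    simp at ha
    subst ha
    cases l with
    | nil =>
      simp at hb
      subst hb
      simp [CharTwo.add_self_eq_zero]
    | cons q l' =>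
      have hb' : (q :: l').getLast? = some b := by simpa using hb
      have h1 := ih q b rfl hb' (fun r s hrs => h r s (Cons2.there _ hrs))
      have h2 := h p q (Cons2.here _)
      rw [cr_cons_cons, cr_cons_cons]
      calc (if Ce p q v then (1 : ZMod 2) else 0) + cr (q :: l') v + ((if Ce p q v' then (1 : ZMod 2) else 0) + cr (q :: l') v')
          = ((if Ce p q v then (1 : ZMod 2) else 0) + (if Ce p q v' then (1 : ZMod 2) else 0)) + (cr (q :: l') v + cr (q :: l') v') := by ring
        _ = (f p + f q) + (f q + f b) := by rw [h1, h2]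
        _ = f p + f b + (f q + f q) := by ring
        _ = f p + f b := by rw [CharTwo.add_self_eq_zero, add_zero]

/-- Indicator of the part of a row to the left of a column. -/
def lf (b a : ℤ) (v : V) : ZMod 2 := if v.2 = b ∧ v.1 < a then 1 else 0

theorem cr_right {l : List V} {v : V} (hv : v ∉ l) : cr l (v.1 + 1, v.2) = cr l v := by
  induction l with
  | nil => rfl
  | cons p l ih =>
    cases l with
    | nil => rfl
    | cons q l' =>
      have hp : v ≠ p := fun h => hv (by simp [h])
      have hq : v ≠ q := fun h => hv (by simp [h])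
      have h2 : v ∉ q :: l' := fun h => hv (List.mem_cons_of_mem _ h)
      rw [cr_cons_cons, cr_cons_cons, ih h2]
      congr 1
      have : Ce p q (v.1 + 1, v.2) ↔ Ce p q v := by
        unfold Ce
        have h3 : ¬ (p.1 = v.1 ∧ p.2 = v.2) := fun h => hp (Prod.ext h.1.symm h.2.symm)
        have h4 : ¬ (q.1 = v.1 ∧ q.2 = v.2) := fun h => hq (Prod.ext h.1.symm h.2.symm)
        simp only
        omega
      simp only [this]

theorem cr_up {l : List V} (hl : List.IsChain Adj l) {a b v : V} (ha : l.head? = some a) (hb : l.getLast? = some b)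
    (hv' : (v.1, v.2 + 1) ∉ l) : cr l v + cr l (v.1, v.2 + 1) = lf (v.2 + 1) v.1 a + lf (v.2 + 1) v.1 b := by
  apply cr_telescope (lf (v.2 + 1) v.1) l a b ha hb
  intro p q hpq
  have hadj := adj_of_cons2 hl hpq
  obtain ⟨hp, hq⟩ := mem_of_cons2 hpq
  have hp' : ¬ (p.1 = v.1 ∧ p.2 = v.2 + 1) := fun h => hv' (by rw [← h.1, ← h.2]; exact hp)
  have hq' : ¬ (q.1 = v.1 ∧ q.2 = v.2 + 1) := fun h => hv' (by rw [← h.1, ← h.2]; exact hq)
  obtain ⟨p1, p2⟩ := p
  obtain ⟨q1, q2⟩ := q
  obtain ⟨v1, v2⟩ := v
  simp only [Adj, Prod.mk.injEq] at hadj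
  simp only [Ce, lf] at *
  have h11 : (1 : ZMod 2) + 1 = 0 := by decide
  split_ifs <;> first | rfl | (exfalso; omega)

theorem cr_diag {l : List V} (hl : List.IsChain Adj l) {a b v : V} (ha : l.head? = some a) (hb : l.getLast? = some b)
    (hv : v ∉ l) (hv' : (v.1 + 1, v.2 + 1) ∉ l) :
    cr l v + cr l (v.1 + 1, v.2 + 1) = lf (v.2 + 1) (v.1 + 1) a + lf (v.2 + 1) (v.1 + 1) b := by
  apply cr_telescope (lf (v.2 + 1) (v.1 + 1)) l a b ha hb
  intro p q hpq
  have hadj := adj_of_cons2 hl hpq
  obtain ⟨hp, hq⟩ := mem_of_cons2 hpq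
  have hp' : ¬ (p.1 = v.1 + 1 ∧ p.2 = v.2 + 1) := fun h => hv' (by rw [← h.1, ← h.2]; exact hp)
  have hq' : ¬ (q.1 = v.1 + 1 ∧ q.2 = v.2 + 1) := fun h => hv' (by rw [← h.1, ← h.2]; exact hq)
  have hp2 : ¬ (p.1 = v.1 ∧ p.2 = v.2) := fun h => hv (by rw [show v = p from Prod.ext h.1.symm h.2.symm]; exact hp)
  have hq2 : ¬ (q.1 = v.1 ∧ q.2 = v.2) := fun h => hv (by rw [show v = q from Prod.ext h.1.symm h.2.symm]; exact hq)
  obtain ⟨p1, p2⟩ := p
  obtain ⟨q1, q2⟩ := q
  obtain ⟨v1, v2⟩ := v
  simp only [Adj, Prod.mk.injEq] at hadj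
  simp only [Ce, lf] at *
  have h11 : (1 : ZMod 2) + 1 = 0 := by decide
  split_ifs <;> first | rfl | (exfalso; omega)

/-- Parity is constant along a step avoiding the curve, if the endpoints of the curve are not in the rows used. -/
theorem cr_adj {l : List V} (hl : List.IsChain Adj l) {a b : V} (ha : l.head? = some a) (hb : l.getLast? = some b)
    {v v' : V} (hadj : Adj v v') (hv : v ∉ l) (hv' : v' ∉ l) (h1 : a.2 ≠ v.2 ∧ a.2 ≠ v'.2) (h2 : b.2 ≠ v.2 ∧ b.2 ≠ v'.2) :
    cr l v = cr l v' := by
  have key : ∀ {x y : ZMod 2}, x + y = 0 → x = y := by decide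
  have hlf : ∀ {c r : ℤ} {u : V}, u.2 ≠ r → lf r c u = 0 := by
    intro c r u h; unfold lf; rw [if_neg]; tauto
  rcases hadj with h | h | h | h | h | h
  · subst h; exact (cr_right hv).symm
  · subst h; exact cr_right hv'
  · subst h
    apply key
    rw [cr_up hl ha hb hv', hlf h1.2, hlf h2.2, add_zero]
  · subst h
    symm
    apply key
    rw [cr_up hl ha hb hv, hlf h1.1, hlf h2.1, add_zero]
  · subst h
    apply key
    rw [cr_diag hl ha hb hv hv', hlf h1.2, hlf h2.2, add_zero]
  · subst h
    symm
    apply key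
    rw [cr_diag hl ha hb hv' hv, hlf h1.1, hlf h2.1, add_zero]

/-- Parity is constant along a walk avoiding the curve. -/
theorem cr_walk {l : List V} (hl : List.IsChain Adj l) {a b : V} (ha : l.head? = some a) (hb : l.getLast? = some b) :
    ∀ (m : List V) (s t : V), List.IsChain Adj m → m.head? = some s → m.getLast? = some t →
      (∀ v ∈ m, v ∉ l) → (∀ v ∈ m, a.2 ≠ v.2 ∧ b.2 ≠ v.2) → cr l s = cr l t := by
  intro m
  induction m with
  | nil => intro s t _ h; simp at h
  | cons p m ih =>
    intro s t hm hs ht hd hr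
    simp at hs
    subst hs
    cases m with
    | nil => simp at ht; rw [ht]
    | cons q m' =>
      rw [List.isChain_cons_cons] at hm
      have hp : p ∈ p :: q :: m' := by simp
      have hq : q ∈ p :: q :: m' := by simp
      rw [cr_adj hl ha hb hm.1 (hd p hp) (hd q hq) ⟨(hr p hp).1, (hr q hq).1⟩ ⟨(hr p hp).2, (hr q hq).2⟩]
      exact ih q t hm.2 rfl (by simpa using ht) (fun v hv => hd v (List.mem_cons_of_mem _ hv))
        (fun v hv => hr v (List.mem_cons_of_mem _ hv))

/-- No crossing on the left of all vertices. -/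
theorem cr_left {l : List V} {v : V} (h : ∀ p ∈ l, v.1 ≤ p.1) : cr l v = 0 := by
  induction l with
  | nil => rfl
  | cons p l ih =>
    cases l with
    | nil => rfl
    | cons q l' =>
      rw [cr_cons_cons, ih (fun r hr => h r (List.mem_cons_of_mem _ hr)), if_neg, add_zero]
      have h1 := h p (by simp)
      have h2 := h q (by simp)
      unfold Ce
      omega

/-- Total number of crossings of a row, on the right of all vertices. -/
theorem cr_far {l : List V} (hl : List.IsChain Adj l) {v : V} (h : ∀ p ∈ l, p.1 < v.1) :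
    ∀ {a b : V}, l.head? = some a → l.getLast? = some b →
      cr l v = (if v.2 < a.2 then 1 else 0) + (if v.2 < b.2 then 1 else 0) := by
  induction l with
  | nil => intro a b ha; simp at ha
  | cons p l ih =>
    intro a b ha hb
    simp at ha
    subst ha
    cases l with
    | nil =>
      simp at hb
      subst hb
      simp [CharTwo.add_self_eq_zero]
    | cons q l' =>
      rw [List.isChain_cons_cons] at hl
      rw [cr_cons_cons, ih hl.2 (fun r hr => h r (List.mem_cons_of_mem _ hr)) rfl (by simpa using hb)]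
      have h1 := h p (by simp)
      have h2 := h q (by simp)
      have hadj := hl.1
      obtain ⟨p1, p2⟩ := p
      obtain ⟨q1, q2⟩ := q
      obtain ⟨v1, v2⟩ := v
      simp only [Adj, Prod.mk.injEq] at hadj
      have h11 : (1 : ZMod 2) + 1 = 0 := by decide
      have : (if Ce (p1, p2) (q1, q2) (v1, v2) then (1 : ZMod 2) else 0) + (if v2 < q2 then 1 else 0) = if v2 < p2 then 1 else 0 := by
        simp only [Ce]
        simp only at h1 h2
        split_ifs <;> first | rfl | (exfalso; omega)
      simp only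
      rw [← add_assoc, this]

/-- CROSSING LEMMA: a walk from the top to the bottom and a walk from the left to the right share a vertex. -/
theorem hex {l m : List V} (hl : List.IsChain Adj l) (hm : List.IsChain Adj m) {a b s t : V}
    (ha : l.head? = some a) (hb : l.getLast? = some b) (hs : m.head? = some s) (ht : m.getLast? = some t)
    (hrow : ∀ v ∈ m, b.2 < v.2 ∧ v.2 < a.2) (hleft : ∀ p ∈ l, s.1 ≤ p.1) (hright : ∀ p ∈ l, p.1 < t.1) :
    ∃ c, c ∈ l ∧ c ∈ m := by
  by_contra hcon
  push Not at hcon
  have hd : ∀ v ∈ m, v ∉ l := fun v hv hv' => hcon v hv' hv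
  have h1 := cr_walk hl ha hb m s t hm hs ht hd
    (fun v hv => ⟨(hrow v hv).2.ne', (hrow v hv).1.ne⟩)
  have htm : t ∈ m := List.mem_of_getLast? ht
  rw [cr_left hleft, cr_far hl hright ha hb, if_pos (hrow t htm).2, if_neg (not_lt.2 (hrow t htm).1.le)] at h1
  simp at h1

end C7
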