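import Pool.Agent.Lib.MP_c725eb_pr.AsmC
import Pool.Agent.Lib.MP_c725eb_pr.AsmD
import Pool.Agent.Lib.MP_c725eb_pr.Transfer

/-!
# The main theorem for canonical environments
-/

set_option autoImplicit false

namespace C7

open MeasureTheory Filter Set
open scoped ENNReal Topology

/-- **THE MAIN THEOREM** for the product measures of a distribution without atoms. -/
theorem canonical_main (F : Measure ℝ) [IsProbabilityMeasure F] (hF0 : F (Iio 0) = 0)
    (hF : ∀ a, F {a} = 0) :
    ∀ᵐ ω ∂(iid Ed F), ∀ v : V, Set.Finite {n : ℕ | T (wt ω) univ (-(n : ℤ), 0) v +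
      T (wt ω) univ v ((n : ℤ), 0) = T (wt ω) univ (-(n : ℤ), 0) ((n : ℤ), 0)} := by
  obtain ⟨K, hK⟩ := exists_smallK F
  have h : ∀ᵐ ω ∂(iid Ed F), ∀ (v : V) (𝓤 : Ultrafilter ℕ), (𝓤 : Filter ℕ) ≤ atTop →
      ¬ OnG (wt ω) v 𝓤 := by
    rcases case_split hK with hd | hd
    · exact nondiamond_case hK hF hF0 hd
    · exact diamond_case hK hF hF0 hd
  filter_upwards [h] with ω hω v
  exact finite_of_not_onG hω v

end C7
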