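import Pool.Agent.Lib.MP_c725eb_pr.Cross

/-!
# The planar lemma for the monotonicity of the last entrance
-/

set_option autoImplicit false

namespace C7

theorem cr_append (l₁ l₂ : List V) (c v : V) :
    cr (l₁ ++ c :: l₂) v = cr (l₁ ++ [c]) v + cr (c :: l₂) v := by
  induction l₁ with
  | nil => simp
  | cons a l ih =>
    cases l with
    | nil => simp
    | cons b l' =>
      simp only [List.cons_append, cr_cons_cons] at ih ⊢
      rw [ih, add_assoc]

/-- No edge of the list has its lower endpoint on the left of `v`. -/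
theorem cr_zero {l : List V} {v : V} (h : ∀ p ∈ l, ¬ (p.2 = v.2 ∧ p.1 < v.1)) : cr l v = 0 := by
  induction l with
  | nil => rfl
  | cons p l ih =>
    cases l with
    | nil => rfl
    | cons q l' =>
      rw [cr_cons_cons, ih (fun r hr => h r (List.mem_cons_of_mem _ hr)), if_neg, add_zero]
      have h1 := h p (by simp)
      have h2 := h q (by simp)
      unfold Ce
      tauto

theorem cons2_append {p q : V} {l₁ l₂ : List V} (h : Cons2 p q (l₁ ++ l₂)) :
    Cons2 p q l₁ ∨ (l₁.getLast? = some p ∧ l₂.head? = some q) ∨ Cons2 p q l₂ := by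
  induction l₁ with
  | nil => exact Or.inr (Or.inr h)
  | cons a l ih =>
    rw [List.cons_append] at h
    cases l with
    | nil =>
      rw [List.nil_append] at h
      cases h with
      | here l => exact Or.inr (Or.inl ⟨rfl, rfl⟩)
      | there _ h => exact Or.inr (Or.inr h)
    | cons b l' =>
      rw [List.cons_append] at h
      cases h with
      | here l => exact Or.inl (Cons2.here _)
      | there _ h =>
        rcases ih h with h | h | h
        · exact Or.inl (Cons2.there _ h)
        · right; left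
          refine ⟨?_, h.2⟩
          have := h.1
          simpa using this
        · exact Or.inr (Or.inr h)

/-- `cr_up` if the vertex `(v.1, v.2 + 1)` is on the list but its neighbours in the list are not on the left. -/
theorem cr_up_N {l : List V} (hl : List.IsChain Adj l) {a b v : V} (ha : l.head? = some a) (hb : l.getLast? = some b)
    (hN : ∀ p q, Cons2 p q l → (q = (v.1, v.2 + 1) → v.1 ≤ p.1) ∧ (p = (v.1, v.2 + 1) → v.1 ≤ q.1)) :
    cr l v + cr l (v.1, v.2 + 1) = lf (v.2 + 1) v.1 a + lf (v.2 + 1) v.1 b := by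
  apply cr_telescope (lf (v.2 + 1) v.1) l a b ha hb
  intro p q hpq
  have hadj := adj_of_cons2 hl hpq
  obtain ⟨h1, h2⟩ := hN p q hpq
  obtain ⟨p1, p2⟩ := p
  obtain ⟨q1, q2⟩ := q
  obtain ⟨v1, v2⟩ := v
  simp only [Adj, Prod.mk.injEq] at hadj h1 h2
  simp only [Ce, lf] at *
  have h11 : (1 : ZMod 2) + 1 = 0 := by decide
  split_ifs <;> first | rfl | (exfalso; omega)

theorem cr_diag_N {l : List V} (hl : List.IsChain Adj l) {a b v : V} (ha : l.head? = some a) (hb : l.getLast? = some b)
    (hv : v ∉ l)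
    (hN : ∀ p q, Cons2 p q l → (q = (v.1 + 1, v.2 + 1) → v.1 + 1 ≤ p.1) ∧ (p = (v.1 + 1, v.2 + 1) → v.1 + 1 ≤ q.1)) :
    cr l v + cr l (v.1 + 1, v.2 + 1) = lf (v.2 + 1) (v.1 + 1) a + lf (v.2 + 1) (v.1 + 1) b := by
  apply cr_telescope (lf (v.2 + 1) (v.1 + 1)) l a b ha hb
  intro p q hpq
  have hadj := adj_of_cons2 hl hpq
  obtain ⟨hp, hq⟩ := mem_of_cons2 hpq
  obtain ⟨h1, h2⟩ := hN p q hpq
  have hp2 : ¬ (p.1 = v.1 ∧ p.2 = v.2) := fun h => hv (by rw [show v = p from Prod.ext h.1.symm h.2.symm]; exact hp)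
  have hq2 : ¬ (q.1 = v.1 ∧ q.2 = v.2) := fun h => hv (by rw [show v = q from Prod.ext h.1.symm h.2.symm]; exact hq)
  obtain ⟨p1, p2⟩ := p
  obtain ⟨q1, q2⟩ := q
  obtain ⟨v1, v2⟩ := v
  simp only [Adj, Prod.mk.injEq] at hadj h1 h2
  simp only [Ce, lf] at *
  have h11 : (1 : ZMod 2) + 1 = 0 := by decide
  split_ifs <;> first | rfl | (exfalso; omega)

/-- The row function `f` is admissible for the end `e` at the vertex `v`. -/
def Okk (f : ℤ → ZMod 2) (e v : V) : Prop := lf v.2 v.1 e = f (v.2 - 1) + f v.2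

/-- Correction of an end prolonged by its left ray. -/
def eL (e : V) (r : ℤ) : ZMod 2 := if r < e.2 then 1 else 0

theorem okk_left {e v : V} (h : ¬ (v.2 = e.2 ∧ v.1 ≤ e.1)) : Okk (eL e) e v := by
  obtain ⟨e1, e2⟩ := e
  obtain ⟨v1, v2⟩ := v
  unfold Okk lf eL
  simp only at *
  have h11 : (1 : ZMod 2) + 1 = 0 := by decide
  split_ifs <;> first | rfl | (exfalso; omega)

theorem okk_right {e v : V} (h : ¬ (v.2 = e.2 ∧ e.1 < v.1)) : Okk (fun _ => 0) e v := by
  obtain ⟨e1, e2⟩ := e
  obtain ⟨v1, v2⟩ := v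
  unfold Okk lf
  simp only at *
  rw [if_neg (by omega), add_zero]

/-- Parity with corrections. -/
def PP (l : List V) (fa fb : ℤ → ZMod 2) (v : V) : ZMod 2 := cr l v + fa v.2 + fb v.2

theorem pp_aux {x y a a' b b' : ZMod 2} (h : x + y = (a + a') + (b + b')) : x + a + b = y + a' + b' := by
  revert x y a a' b b'; decide

theorem pp_adj {l : List V} (hl : List.IsChain Adj l) {a b : V} (ha : l.head? = some a) (hb : l.getLast? = some b)
    {fa fb : ℤ → ZMod 2} {v v' : V} (hadj : Adj v v') (hv : v ∉ l) (hv' : v' ∉ l)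
    (h1 : Okk fa a v) (h2 : Okk fa a v') (h3 : Okk fb b v) (h4 : Okk fb b v') :
    PP l fa fb v = PP l fa fb v' := by
  unfold Okk at *
  unfold PP
  rcases hadj with h | h | h | h | h | h
  · subst h
    rw [cr_right hv]
  · subst h
    rw [cr_right hv']
  · subst h
    apply pp_aux
    simp only [add_sub_cancel_right] at h2 h4
    rw [cr_up hl ha hb hv', h2, h4]
  · subst h
    symm
    apply pp_aux
    simp only [add_sub_cancel_right] at h1 h3
    rw [cr_up hl ha hb hv, h1, h3]
  · subst h
    apply pp_aux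
    simp only [add_sub_cancel_right] at h2 h4
    rw [cr_diag hl ha hb hv hv', h2, h4]
  · subst h
    symm
    apply pp_aux
    simp only [add_sub_cancel_right] at h1 h3
    rw [cr_diag hl ha hb hv' hv, h1, h3]

theorem pp_conn {l : List V} (hl : List.IsChain Adj l) {a b : V} (ha : l.head? = some a) (hb : l.getLast? = some b)
    {fa fb : ℤ → ZMod 2} {S : Set V} (hS : ∀ v ∈ S, v ∉ l ∧ Okk fa a v ∧ Okk fb b v) {v v' : V}
    (h : Conn S v v') : PP l fa fb v = PP l fa fb v' := by
  induction h with
  | refl => rfl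
  | tail _ h ih =>
    rw [ih]
    have h1 := hS _ h.2.1
    have h2 := hS _ h.2.2
    exact pp_adj hl ha hb h.1 h1.1 h2.1 h1.2.1 h2.2.1 h1.2.2 h2.2.2

/-- PLANAR LEMMA. The region is `{p | f p.2 ≤ p.1}`; rows are minus the indices. -/
theorem mono_planar {f : ℤ → ℤ} (hf : ∀ r, f (r + 1) - f r ≤ 1) {α B α' B' : List V} {P Q P' Q' U U' t : V}
    (hγ : List.IsChain Adj (α ++ B)) (hγ' : List.IsChain Adj (α' ++ B'))
    (hαP : α.head? = some P) (hαQ : α.getLast? = some Q) (hBU : B.head? = some U) (hBt : B.getLast? = some t)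
    (hα'P : α'.head? = some P') (hα'Q : α'.getLast? = some Q') (hBU' : B'.head? = some U')
    (hBt' : B'.getLast? = some t)
    (hPP : P'.2 < P.2) (hUU : U.2 < U'.2) (hU' : U'.1 = f U'.2)
    (hB : ∀ p ∈ B, f p.2 ≤ p.1) (hB' : ∀ p ∈ B', f p.2 ≤ p.1) (hQ : Q.1 < f Q.2) (hQ' : Q'.1 < f Q'.2)
    (d1 : ∀ p ∈ α', p ∉ α ∧ p ∉ B) (d2 : ∀ p ∈ B', p ∉ α)
    (r1 : ∀ p ∈ α', ¬ (p.2 = P.2 ∧ p.1 ≤ P.1)) (r2 : ∀ p ∈ B', ¬ (p.2 = P.2 ∧ p.1 ≤ P.1))
    (r3 : ∀ p ∈ α ++ B, ¬ (p.2 = P'.2 ∧ p.1 ≤ P'.1))
    (r4 : ∀ p ∈ α, ¬ (p.2 = t.2 ∧ t.1 ≤ p.1)) (r5 : ∀ p ∈ α', ¬ (p.2 = t.2 ∧ t.1 < p.1)) : False := by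
  have hP'α : P' ∈ α' := List.mem_of_head? hα'P
  have hQ'α : Q' ∈ α' := List.mem_of_getLast? hα'Q
  have hU'B : U' ∈ B' := List.mem_of_head? hBU'
  have htB' : t ∈ B' := List.mem_of_getLast? hBt'
  have htB : t ∈ B := List.mem_of_getLast? hBt
  -- chains
  have hα : List.IsChain Adj α := (List.isChain_append.1 hγ).1
  have hα' : List.IsChain Adj α' := (List.isChain_append.1 hγ').1
  have hBc' : List.IsChain Adj B' := (List.isChain_append.1 hγ').2.1
  have hadjQU : Adj Q U := (List.isChain_append.1 hγ).2.2 Q hαQ U hBU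
  have hadjQU' : Adj Q' U' := (List.isChain_append.1 hγ').2.2 Q' hα'Q U' hBU'
  have hγP : (α ++ B).head? = some P := by
    cases α with
    | nil => simp at hαP
    | cons a l => simpa using hαP
  have hγt : (α ++ B).getLast? = some t := by
    rw [List.getLast?_append_of_ne_nil _ (by rintro rfl; simp at hBU)]
    exact hBt
  -- (a)
  have ha : PP (α ++ B) (eL P) (fun _ => 0) Q' = 1 := by
    obtain ⟨M, hM⟩ := exists_le_fst (α ++ B)
    set M' := min M P'.1 with hM'
    have hS : ∀ v ∈ ({v | v.2 = P'.2 ∧ v.1 ≤ P'.1} ∪ {v | v ∈ α'} : Set V),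
        v ∉ α ++ B ∧ Okk (eL P) P v ∧ Okk (fun _ => 0) t v := by
      rintro v (hv | hv)
      · refine ⟨fun h => r3 v h hv, okk_left ?_, okk_right ?_⟩
        · rintro ⟨h1, h2⟩
          have := hv.1
          omega
        · rintro ⟨h1, h2⟩
          have h3 := r5 P' hP'α
          have h4 := hv.1
          have h5 := hv.2
          apply h3
          constructor
          · omega
          · omega
      · refine ⟨?_, okk_left (r1 v hv), okk_right (r5 v hv)⟩
        rw [List.mem_append]
        have := d1 v hv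
        tauto
    have h1 : Conn ({v | v.2 = P'.2 ∧ v.1 ≤ P'.1} ∪ {v | v ∈ α'} : Set V) (M', P'.2) P' :=
      conn_hor (u := (M', P'.2)) (q := P'.1) (min_le_right _ _) fun v h1 _ h3 => Or.inl ⟨h1, h3⟩
    have h2 : Conn ({v | v.2 = P'.2 ∧ v.1 ≤ P'.1} ∪ {v | v ∈ α'} : Set V) P' Q' :=
      conn_of_list hα' hα'P hα'Q fun p hp => Or.inr hp
    rw [← pp_conn hγ hγP hγt hS (h1.trans h2)]
    unfold PP
    rw [cr_left (v := (M', P'.2)) (fun p hp => (min_le_left _ _).trans (hM p hp))]
    unfold eL
    simp only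
    rw [if_pos hPP]
    simp
  -- (b)
  have hb : PP (α ++ B) (eL P) (fun _ => 0) U' = 1 := by
    rw [← ha]
    have o1 : Okk (eL P) P U' := okk_left (r2 U' hU'B)
    have o2 : Okk (eL P) P Q' := okk_left (r1 Q' hQ'α)
    have o3 : Okk (fun _ => 0) t Q' := okk_right (r5 Q' hQ'α)
    have o4 : Okk (fun _ => 0) t U' := okk_right (by
      rintro ⟨h1, h2⟩
      have h3 := hB t htB
      rw [← h1] at h3
      omega)
    have hQ'γ : Q' ∉ α ++ B := by
      rw [List.mem_append]
      have := d1 Q' hQ'α
      tauto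
    -- neighbours of `U'` on `γ` are in the region
    have hN : ∀ p q, Cons2 p q (α ++ B) → (q = U' → f p.2 ≤ p.1 ∧ Adj p q) ∧ (p = U' → f q.2 ≤ q.1 ∧ Adj p q) := by
      intro p q hpq
      have hadj := adj_of_cons2 hγ hpq
      constructor
      · rintro rfl
        rcases cons2_append hpq with h | h | h
        · exact absurd (mem_of_cons2 h).2 (d2 _ hU'B)
        · have h1 := h.2
          rw [hBU] at h1
          simp at h1
          rw [h1] at hUU
          exact absurd hUU (lt_irrefl _)
        · exact ⟨hB _ (mem_of_cons2 h).1, hadj⟩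
      · rintro rfl
        rcases cons2_append hpq with h | h | h
        · exact absurd (mem_of_cons2 h).1 (d2 _ hU'B)
        · exact absurd (List.mem_of_getLast? h.1) (d2 _ hU'B)
        · exact ⟨hB _ (mem_of_cons2 h).2, hadj⟩
    unfold Okk at o1 o2 o3 o4
    unfold PP
    obtain ⟨q1, q2⟩ := Q'
    obtain ⟨u1, u2⟩ := U'
    simp only at hU' hQ'
    rcases hadjQU' with h | h | h | h | h | h <;> simp only [Prod.mk.injEq] at h
    · obtain ⟨rfl, rfl⟩ := h
      have := cr_right hQ'γ
      simp only at this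
      rw [this]
    · obtain ⟨rfl, rfl⟩ := h
      omega
    · obtain ⟨rfl, rfl⟩ := h
      symm
      apply pp_aux
      simp only [add_sub_cancel_right] at o1 o4
      have := cr_up_N hγ hγP hγt (v := (u1, q2)) (by
        intro p q hpq
        obtain ⟨n1, n2⟩ := hN p q hpq
        constructor
        · rintro rfl
          obtain ⟨n3, n4⟩ := n1 rfl
          obtain ⟨p1, p2⟩ := p
          simp only [Adj, Prod.mk.injEq] at n4
          simp only at n3 ⊢
          rcases n4 with h | h | h | h | h | h
          · obtain ⟨e1, e2⟩ := h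
            subst e2
            omega
          · omega
          · omega
          · omega
          · obtain ⟨e1, e2⟩ := h
            have e3 : p2 = q2 := by omega
            subst e3
            omega
          · omega
        · rintro rfl
          obtain ⟨n3, n4⟩ := n2 rfl
          obtain ⟨p1, p2⟩ := q
          simp only [Adj, Prod.mk.injEq] at n4
          simp only at n3 ⊢
          rcases n4 with h | h | h | h | h | h
          · omega
          · obtain ⟨e1, e2⟩ := h
            subst e2
            omega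
          · omega
          · omega
          · omega
          · obtain ⟨e1, e2⟩ := h
            have e3 : p2 = q2 := by omega
            subst e3
            omega)
      simp only at this
      rw [this, o1, o4]
    · obtain ⟨rfl, rfl⟩ := h
      apply pp_aux
      simp only [add_sub_cancel_right] at o2 o3
      have := cr_up hγ hγP hγt (v := (q1, u2)) hQ'γ
      simp only at this
      rw [this, o2, o3]
    · obtain ⟨rfl, rfl⟩ := h
      symm
      apply pp_aux
      simp only [add_sub_cancel_right] at o1 o4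
      have := cr_diag_N hγ hγP hγt (v := (q1, q2)) hQ'γ (by
        intro p q hpq
        obtain ⟨n1, n2⟩ := hN p q hpq
        constructor
        · rintro rfl
          obtain ⟨n3, n4⟩ := n1 rfl
          obtain ⟨p1, p2⟩ := p
          simp only [Adj, Prod.mk.injEq] at n4
          simp only at n3 ⊢
          rcases n4 with h | h | h | h | h | h
          · obtain ⟨e1, e2⟩ := h
            subst e2
            omega
          · omega
          · omega
          · omega
          · obtain ⟨e1, e2⟩ := h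
            have e3 : p2 = q2 := by omega
            subst e3
            omega
          · omega
        · rintro rfl
          obtain ⟨n3, n4⟩ := n2 rfl
          obtain ⟨p1, p2⟩ := q
          simp only [Adj, Prod.mk.injEq] at n4
          simp only at n3 ⊢
          rcases n4 with h | h | h | h | h | h
          · omega
          · obtain ⟨e1, e2⟩ := h
            subst e2
            omega
          · omega
          · omega
          · omega
          · obtain ⟨e1, e2⟩ := h
            have e3 : p2 = q2 := by omega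
            subst e3
            omega)
      simp only at this
      rw [this, o1, o4]
    · obtain ⟨rfl, rfl⟩ := h
      have := hf u2
      omega
  -- (c)
  have hc : cr (Q :: B) U' + eL Q U'.2 = 0 := by
    have h1 : cr (Q :: B) U' = 0 := by
      obtain ⟨B₁, rfl⟩ : ∃ B₁, B = U :: B₁ := by
        cases B with
        | nil => simp at hBU
        | cons b l => simp at hBU; exact ⟨l, by rw [hBU]⟩
      rw [cr_cons_cons, cr_zero (fun p hp => by
        rintro ⟨h1, h2⟩
        have h3 := hB p hp
        rw [h1] at h3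
        omega), add_zero, if_neg]
      unfold Ce
      omega
    rw [h1, zero_add]
    unfold eL
    rw [if_neg]
    obtain ⟨q1, q2⟩ := Q
    obtain ⟨u1, u2⟩ := U
    unfold Adj at hadjQU
    simp only [Prod.mk.injEq] at hadjQU
    simp only at hUU ⊢
    omega
  -- (d)
  have hd : PP α (eL P) (eL Q) U' = 0 := by
    obtain ⟨M, hM⟩ := exists_fst_le α
    set M' := max (M + 1) t.1 with hM'
    have hS : ∀ v ∈ ({v | v.2 = t.2 ∧ t.1 ≤ v.1} ∪ {v | v ∈ B'} : Set V),
        v ∉ α ∧ Okk (eL P) P v ∧ Okk (eL Q) Q v := by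
      rintro v (hv | hv)
      · refine ⟨fun h => r4 v h hv, okk_left ?_, okk_left ?_⟩
        · rintro ⟨h1, h2⟩
          have h3 := r2 t htB'
          have h4 := hv.1
          have h5 := hv.2
          omega
        · rintro ⟨h1, h2⟩
          have h3 := hB' t htB'
          have h4 := hv.1
          have h5 := hv.2
          rw [← h4, h1] at h3
          omega
      · refine ⟨d2 v hv, okk_left (r2 v hv), okk_left ?_⟩
        rintro ⟨h1, h2⟩
        have h3 := hB' v hv
        rw [h1] at h3
        omega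
    have h1 : Conn ({v | v.2 = t.2 ∧ t.1 ≤ v.1} ∪ {v | v ∈ B'} : Set V) U' t :=
      conn_of_list hBc' hBU' hBt' fun p hp => Or.inr hp
    have h2 : Conn ({v | v.2 = t.2 ∧ t.1 ≤ v.1} ∪ {v | v ∈ B'} : Set V) t (M', t.2) :=
      conn_hor (le_max_right _ _) fun v h1 h2 _ => Or.inl ⟨h1, h2⟩
    rw [pp_conn hα hαP hαQ hS (h1.trans h2)]
    unfold PP
    rw [cr_far hα (v := (M', t.2)) (fun p hp => by have := hM p hp; simp only; omega) hαP hαQ]
    unfold eL
    simp only
    have : ∀ x y : ZMod 2, x + y + x + y = 0 := by decide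
    exact this _ _
  -- conclusion
  obtain ⟨α₀, rfl⟩ : ∃ α₀, α = α₀ ++ [Q] := by
    rcases α.eq_nil_or_concat with rfl | ⟨l, q, rfl⟩
    · simp at hαQ
    · simp at hαQ
      exact ⟨l, by rw [hαQ]; simp⟩
  have e1 : (α₀ ++ [Q]) ++ B = α₀ ++ Q :: B := by simp
  unfold PP at hb hd
  rw [e1, cr_append] at hb
  have : ∀ x y z q : ZMod 2, x + y + z + 0 = 1 → x + z + q = 0 → y + q = 0 → False := by decide
  exact this _ _ _ _ hb hd hc

end C7
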