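import Mathlib

/-!
# Planarity for walks in the triangular lattice

`Tri` is the graph on `ℤ × ℤ` (column, height) with the edges `(1,0), (0,1), (1,1)`.  For a walk `A`
and a vertex `u` let `side A u` be the number, modulo 2, of the edges of `A` between the columns
`u.1` and `u.1 + 1` whose left end is above `u`.  It changes in a controlled way along the edges
which do not meet `A`.  This gives crossing lemmas for walks in strips and wedges with curved
boundary.
-/

namespace Pool.Agent.MPc725eb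

open SimpleGraph

/-- `v` is the successor of `u` in one of the directions `(1,0), (0,1), (1,1)` -/
def TriStep (u v : ℤ × ℤ) : Prop :=
  (v.1 = u.1 + 1 ∧ v.2 = u.2) ∨ (v.1 = u.1 ∧ v.2 = u.2 + 1) ∨ (v.1 = u.1 + 1 ∧ v.2 = u.2 + 1)

/-- the triangular lattice -/
def Tri : SimpleGraph (ℤ × ℤ) where
  Adj u v := TriStep u v ∨ TriStep v u
  symm := ⟨fun _ _ h => h.symm⟩
  loopless := ⟨fun u h => by
    unfold TriStep at h
    omega⟩

theorem tri_adj {u v : ℤ × ℤ} : Tri.Adj u v ↔ TriStep u v ∨ TriStep v u := Iff.rfl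

/-- the step `x y` is between the columns `u.1`, `u.1 + 1`, its left end above `u` -/
def cr (u x y : ℤ × ℤ) : ZMod 2 :=
  if (x.1 = u.1 ∧ y.1 = u.1 + 1 ∧ u.2 < x.2) ∨ (y.1 = u.1 ∧ x.1 = u.1 + 1 ∧ u.2 < y.2) then 1 else 0

/-- `x` is in the column of `v`, above `v` -/
def ab (v x : ℤ × ℤ) : ZMod 2 := if x.1 = v.1 ∧ v.2 < x.2 then 1 else 0

/-- the number modulo 2 of the edges of the walk between the columns `u.1`, `u.1 + 1` whose left end
is above `u` -/
def side {G : SimpleGraph (ℤ × ℤ)} {a t : ℤ × ℤ} (A : G.Walk a t) (u : ℤ × ℤ) : ZMod 2 :=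
  (A.darts.map fun d => cr u d.fst d.snd).sum

section

variable {G : SimpleGraph (ℤ × ℤ)} {a t : ℤ × ℤ}

@[simp] theorem side_nil (u : ℤ × ℤ) : side (Walk.nil : G.Walk a a) u = 0 := rfl

@[simp] theorem side_cons {x y z : ℤ × ℤ} (h : G.Adj x y) (p : G.Walk y z) (u : ℤ × ℤ) :
    side (Walk.cons h p) u = cr u x y + side p u := by
  simp [side]

theorem add_self_zmod2 (x : ZMod 2) : x + x = 0 := by
  revert x; decide

/-- telescoping: if every step of the walk contributes `f x + f y`, then the walk contributes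
`f a + f t` -/
theorem side_eq_of_step (A : G.Walk a t) (F : ℤ × ℤ → ℤ × ℤ → ZMod 2) (f : ℤ × ℤ → ZMod 2)
    (h : ∀ x y, x ∈ A.support → y ∈ A.support → G.Adj x y → F x y = f x + f y) :
    (A.darts.map fun d => F d.fst d.snd).sum = f a + f t := by
  induction A with
  | nil => simp [add_self_zmod2]
  | cons hxy p ih =>
    rename_i x y z
    have h1 := h x y (by simp) (by simp) hxy
    have h2 := ih fun x' y' hx' hy' hadj => h x' y' (by simp [hx']) (by simp [hy']) hadj
    rw [Walk.darts_cons, List.map_cons, List.sum_cons, h2]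
    show F x y + (f y + f z) = f x + f z
    rw [h1]
    have := add_self_zmod2 (f y)
    linear_combination this

end

/-! ### Steps -/

/-- a step which does not meet the right neighbour `v` of `u` nor `u` -/
theorem cr_right {u v x y : ℤ × ℤ} (h1 : v.1 = u.1 + 1) (h2 : v.2 = u.2 ∨ v.2 = u.2 + 1)
    (hxy : Tri.Adj x y) (hxu : x ≠ u) (hxv : x ≠ v) (hyu : y ≠ u) (hyv : y ≠ v) :
    cr u x y + cr v x y = ab v x + ab v y := by
  obtain ⟨u1, u2⟩ := u
  obtain ⟨v1, v2⟩ := v
  obtain ⟨x1, x2⟩ := x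
  obtain ⟨y1, y2⟩ := y
  simp only [tri_adj, TriStep, cr, ab, ne_eq, Prod.mk.injEq] at *
  have e : (1 : ZMod 2) + 1 = 0 := by decide
  split_ifs <;> simp only [e, add_zero, zero_add] <;> first | rfl | omega

/-- a step which does not meet `u` nor the vertex above `u` -/
theorem cr_up {u v x y : ℤ × ℤ} (h1 : v.1 = u.1) (h2 : v.2 = u.2 + 1)
    (hxy : Tri.Adj x y) (hxu : x ≠ u) (hxv : x ≠ v) (hyu : y ≠ u) (hyv : y ≠ v) :
    cr u x y = cr v x y := by
  obtain ⟨u1, u2⟩ := u
  obtain ⟨v1, v2⟩ := v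
  obtain ⟨x1, x2⟩ := x
  obtain ⟨y1, y2⟩ := y
  simp only [tri_adj, TriStep, cr, ne_eq, Prod.mk.injEq] at *
  split_ifs <;> first | rfl | omega

/-- a step to the right of the column of `u` -/
theorem cr_left_end {u x y : ℤ × ℤ} (hxy : Tri.Adj x y) (hx : u.1 ≤ x.1) (hy : u.1 ≤ y.1)
    (hxu : x ≠ u) (hyu : y ≠ u) : cr u x y = ab u x + ab u y := by
  obtain ⟨u1, u2⟩ := u
  obtain ⟨x1, x2⟩ := x
  obtain ⟨y1, y2⟩ := y
  simp only [tri_adj, TriStep, cr, ab, ne_eq, Prod.mk.injEq] at *
  have e : (1 : ZMod 2) + 1 = 0 := by decide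
  split_ifs <;> simp only [e, add_zero, zero_add] <;> first | rfl | omega

section

variable {G : SimpleGraph (ℤ × ℤ)} {a t : ℤ × ℤ}

theorem side_right (hG : G ≤ Tri) (A : G.Walk a t) {u v : ℤ × ℤ} (h1 : v.1 = u.1 + 1)
    (h2 : v.2 = u.2 ∨ v.2 = u.2 + 1) (hu : u ∉ A.support) (hv : v ∉ A.support) :
    side A u + side A v = ab v a + ab v t := by
  rw [← side_eq_of_step A (fun x y => cr u x y + cr v x y) (ab v) fun x y hx hy hxy =>
    cr_right h1 h2 (hG hxy) (fun h => hu (h ▸ hx)) (fun h => hv (h ▸ hx)) (fun h => hu (h ▸ hy))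
      (fun h => hv (h ▸ hy))]
  unfold side
  rw [← List.sum_map_add]

theorem side_up (hG : G ≤ Tri) (A : G.Walk a t) {u v : ℤ × ℤ} (h1 : v.1 = u.1)
    (h2 : v.2 = u.2 + 1) (hu : u ∉ A.support) (hv : v ∉ A.support) : side A u = side A v := by
  unfold side
  congr 1
  refine List.map_congr_left fun d hd => ?_
  have hx := A.dart_fst_mem_support_of_mem_darts hd
  have hy := A.dart_snd_mem_support_of_mem_darts hd
  exact cr_up h1 h2 (hG d.adj) (fun h => hu (h ▸ hx)) (fun h => hv (h ▸ hx)) (fun h => hu (h ▸ hy))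
      (fun h => hv (h ▸ hy))

theorem side_start (hG : G ≤ Tri) (A : G.Walk a t) {u : ℤ × ℤ} (hA : ∀ w ∈ A.support, u.1 ≤ w.1)
    (hu : u ∉ A.support) : side A u = ab u a + ab u t := by
  exact side_eq_of_step A (fun x y => cr u x y) (ab u) fun x y hx hy hxy =>
    cr_left_end (hG hxy) (hA x hx) (hA y hy) (fun h => hu (h ▸ hx)) (fun h => hu (h ▸ hy))

end

/-! ### Crossing lemmas with a straight left boundary -/

section

variable {G : SimpleGraph (ℤ × ℤ)} {a t b s : ℤ × ℤ}

/-- a function which does not change along the edges of a walk has the same value at its ends -/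
theorem walk_const (hG : G ≤ Tri) (B : G.Walk b s) (f : ℤ × ℤ → ZMod 2)
    (h : ∀ x y, x ∈ B.support → y ∈ B.support → TriStep x y → f x = f y) : f b = f s := by
  induction B with
  | nil => rfl
  | cons hxy p ih =>
    rename_i x y z
    have h1 : f x = f y := by
      rcases hG hxy with h1 | h1
      · exact h x y (by simp) (by simp) h1
      · exact (h y x (by simp) (by simp) h1).symm
    rw [h1]
    exact ih fun x' y' hx' hy' => h x' y' (by simp [hx']) (by simp [hy'])

theorem ab_eq_zero {v x : ℤ × ℤ} (h : ¬ (x.1 = v.1 ∧ v.2 < x.2)) : ab v x = 0 := if_neg h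

theorem ab_eq_one {v x : ℤ × ℤ} (h : x.1 = v.1 ∧ v.2 < x.2) : ab v x = 1 := if_pos h

theorem eq_of_add {x y z : ZMod 2} (h : x + y = z) : x = y + z := by
  revert x y z; decide

/-- **Crossing lemma in a strip.** -/
theorem cross_strip (hG : G ≤ Tri) {k N : ℤ} (A : G.Walk a t) (B : G.Walk b s)
    (hA : ∀ w ∈ A.support, k ≤ w.1 ∧ w.1 ≤ N) (hB : ∀ w ∈ B.support, k ≤ w.1 ∧ w.1 ≤ N)
    (ha : a.1 = k) (hb : b.1 = k) (ht : t.1 = N) (hs : s.1 = N) (hab : a.2 ≤ b.2)
    (hst : s.2 ≤ t.2) : ∃ w, w ∈ A.support ∧ w ∈ B.support := by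
  by_contra hcon
  have hdis : ∀ w ∈ B.support, w ∉ A.support := fun w hw hw' => hcon ⟨w, hw', hw⟩
  have hsB : s ∈ B.support := B.end_mem_support
  have hbB : b ∈ B.support := B.start_mem_support
  have htA : t ∈ A.support := A.end_mem_support
  have hne : s ≠ t := fun h => hdis s hsB (h ▸ htA)
  -- the invariant
  have key := walk_const hG B (fun w => side A w + ab w t) (by
    intro x y hx hy hxy
    show side A x + ab x t = side A y + ab y t
    have hyt : y ≠ t := fun h => hdis y hy (h ▸ htA)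
    have hx1 := hB x hx
    have hy1 := hB y hy
    rcases hxy with h | h | h
    · have h2 := side_right hG A h.1 (Or.inl h.2) (hdis x hx) (hdis y hy)
      rw [ab_eq_zero (v := y) (x := a) (by omega), zero_add] at h2
      rw [ab_eq_zero (v := x) (x := t) (by omega), add_zero]
      exact eq_of_add h2
    · have h2 := side_up hG A h.1 h.2 (hdis x hx) (hdis y hy)
      rw [h2]
      congr 1
      unfold ab
      have : (t.1 = x.1 ∧ x.2 < t.2) ↔ (t.1 = y.1 ∧ y.2 < t.2) := by
        have h3 : ¬ (y.1 = t.1 ∧ y.2 = t.2) := fun h3 => hyt (Prod.ext h3.1 h3.2)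
        omega
      simp only [this]
    · have h2 := side_right hG A h.1 (Or.inr h.2) (hdis x hx) (hdis y hy)
      rw [ab_eq_zero (v := y) (x := a) (by omega), zero_add] at h2
      rw [ab_eq_zero (v := x) (x := t) (by omega), add_zero]
      exact eq_of_add h2)
  have h1 := side_start hG A (u := b) (fun w hw => by rw [hb]; exact (hA w hw).1) (hdis b hbB)
  have h2 : side A s = 0 := by
    unfold side
    refine List.sum_eq_zero fun c hc => ?_
    obtain ⟨d, hd, rfl⟩ := List.mem_map.mp hc
    have hx := hA _ (A.dart_fst_mem_support_of_mem_darts hd)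
    have hy := hA _ (A.dart_snd_mem_support_of_mem_darts hd)
    exact if_neg (by omega)
  have h3 : ab s t = 1 := ab_eq_one (by
    have h3 : ¬ (s.1 = t.1 ∧ s.2 = t.2) := fun h3 => hne (Prod.ext h3.1 h3.2)
    omega)
  have h4 : ab b a = 0 := ab_eq_zero (by omega)
  simp only [h1, h2, h3, h4, zero_add] at key
  rw [add_self_zmod2] at key
  exact absurd key (by decide)

/-- **Crossing lemma, targets on a lower boundary.**  `A` starts below `B` and ends to the right of
the end of `B`; `B` does not go below the end of `A`, `A` does not go below the end of `B`. -/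
theorem cross_lower_flat (hG : G ≤ Tri) {k : ℤ} (A : G.Walk a t) (B : G.Walk b s)
    (hA : ∀ w ∈ A.support, k ≤ w.1) (hB : ∀ w ∈ B.support, k ≤ w.1)
    (ha : a.1 = k) (hb : b.1 = k) (hab : a.2 ≤ b.2) (hst : s.1 < t.1)
    (hBt : ∀ w ∈ B.support, w.1 = t.1 → t.2 ≤ w.2) (hAs : ∀ w ∈ A.support, w.1 = s.1 → s.2 ≤ w.2) :
    ∃ w, w ∈ A.support ∧ w ∈ B.support := by
  by_contra hcon
  have hdis : ∀ w ∈ B.support, w ∉ A.support := fun w hw hw' => hcon ⟨w, hw', hw⟩
  have hsB : s ∈ B.support := B.end_mem_support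
  have hbB : b ∈ B.support := B.start_mem_support
  have htA : t ∈ A.support := A.end_mem_support
  have hzero : ∀ w ∈ B.support, ab w t = 0 := fun w hw => ab_eq_zero fun h => by
    have := hBt w hw h.1.symm
    omega
  have key := walk_const hG B (fun w => side A w) (by
    intro x y hx hy hxy
    have hx1 := hB x hx
    rcases hxy with h | h | h
    · have h2 := side_right hG A h.1 (Or.inl h.2) (hdis x hx) (hdis y hy)
      rw [ab_eq_zero (v := y) (x := a) (by omega), zero_add, hzero y hy] at h2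
      exact (eq_of_add h2).trans (add_zero _)
    · exact side_up hG A h.1 h.2 (hdis x hx) (hdis y hy)
    · have h2 := side_right hG A h.1 (Or.inr h.2) (hdis x hx) (hdis y hy)
      rw [ab_eq_zero (v := y) (x := a) (by omega), zero_add, hzero y hy] at h2
      exact (eq_of_add h2).trans (add_zero _))
  have h1 := side_start hG A (u := b) (fun w hw => by rw [hb]; exact hA w hw) (hdis b hbB)
  rw [hzero b hbB, ab_eq_zero (by omega), add_zero] at h1
  have h2 := side_eq_of_step A (fun x y => cr s x y) (fun x => if x.1 ≤ s.1 then 1 else 0) (by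
    intro x y hx hy hxy
    have hx1 := hAs x hx
    have hy1 := hAs y hy
    have hxs : ¬ (x.1 = s.1 ∧ x.2 = s.2) := fun h => hdis s hsB (by
      rw [show s = x from (Prod.ext h.1 h.2).symm]
      exact hx)
    have hys : ¬ (y.1 = s.1 ∧ y.2 = s.2) := fun h => hdis s hsB (by
      rw [show s = y from (Prod.ext h.1 h.2).symm]
      exact hy)
    have hadj := hG hxy
    simp only [tri_adj, TriStep] at hadj
    have e : (1 : ZMod 2) + 1 = 0 := by decide
    simp only [cr]
    split_ifs <;> simp only [e, add_zero, zero_add] <;> first | rfl | omega)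
  have h3 : side A s = 1 := by
    unfold side
    rw [h2]
    have h4 := hB s hsB
    rw [if_pos (by omega), if_neg (by omega), add_zero]
  have key' : side A b = side A s := key
  rw [h1, h3] at key'
  exact absurd key' (by decide)

/-- **Crossing lemma, targets on an upper boundary.** -/
theorem cross_upper_flat (hG : G ≤ Tri) {k : ℤ} (A : G.Walk a t) (B : G.Walk b s)
    (hA : ∀ w ∈ A.support, k ≤ w.1) (hB : ∀ w ∈ B.support, k ≤ w.1)
    (ha : a.1 = k) (hb : b.1 = k) (hab : b.2 ≤ a.2) (hst : s.1 < t.1)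
    (hBt : ∀ w ∈ B.support, w.1 = t.1 → w.2 ≤ t.2) (hAs : ∀ w ∈ A.support, w.1 = s.1 → w.2 ≤ s.2) :
    ∃ w, w ∈ A.support ∧ w ∈ B.support := by
  by_contra hcon
  have hdis : ∀ w ∈ B.support, w ∉ A.support := fun w hw hw' => hcon ⟨w, hw', hw⟩
  have hsB : s ∈ B.support := B.end_mem_support
  have hbB : b ∈ B.support := B.start_mem_support
  have htA : t ∈ A.support := A.end_mem_support
  have haA : a ∈ A.support := A.start_mem_support
  have e : (1 : ZMod 2) + 1 = 0 := by decide
  have key := walk_const hG B (fun w => side A w + if t.1 ≤ w.1 then 1 else 0) (by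
    intro x y hx hy hxy
    show side A x + (if t.1 ≤ x.1 then 1 else 0) = side A y + (if t.1 ≤ y.1 then 1 else 0)
    have hx1 := hB x hx
    have hyt : ¬ (y.1 = t.1 ∧ y.2 = t.2) := fun h => hdis y hy (by
      rw [show y = t from Prod.ext h.1 h.2]
      exact htA)
    have hyt' := hBt y hy
    have hright : y.1 = x.1 + 1 → (y.2 = x.2 ∨ y.2 = x.2 + 1) →
        side A x + (if t.1 ≤ x.1 then 1 else 0) = side A y + (if t.1 ≤ y.1 then 1 else 0) := by
      intro h1 h2
      have h3 := side_right hG A h1 h2 (hdis x hx) (hdis y hy)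
      rw [ab_eq_zero (v := y) (x := a) (by omega), zero_add] at h3
      rw [eq_of_add h3, add_assoc]
      congr 1
      unfold ab
      split_ifs <;> simp only [e, add_zero, zero_add] <;> first | rfl | omega
    rcases hxy with h | h | h
    · exact hright h.1 (Or.inl h.2)
    · have h2 := side_up hG A h.1 h.2 (hdis x hx) (hdis y hy)
      rw [h2, h.1]
    · exact hright h.1 (Or.inr h.2))
  have h1 := side_start hG A (u := b) (fun w hw => by rw [hb]; exact hA w hw) (hdis b hbB)
  have hsk := hB s hsB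
  have hba : ¬ (a.1 = b.1 ∧ a.2 = b.2) := fun h => hdis b hbB (by
    rw [show b = a from (Prod.ext h.1 h.2).symm]
    exact haA)
  rw [ab_eq_one (by omega), ab_eq_zero (by omega), add_zero] at h1
  have h2 : side A s = 0 := by
    unfold side
    refine List.sum_eq_zero fun c hc => ?_
    obtain ⟨d, hd, rfl⟩ := List.mem_map.mp hc
    have hx := hAs _ (A.dart_fst_mem_support_of_mem_darts hd)
    have hy := hAs _ (A.dart_snd_mem_support_of_mem_darts hd)
    exact if_neg (by omega)
  have key' : side A b + (if t.1 ≤ b.1 then 1 else 0) = side A s + (if t.1 ≤ s.1 then 1 else 0) :=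
    key
  rw [h1, h2, if_neg (by omega), if_neg (by omega)] at key'
  exact absurd key' (by decide)

end

/-! ### Horizontal walks -/

theorem exists_hwalk (i : ℤ) {j₁ j₂ : ℤ} (h : j₁ ≤ j₂) :
    ∃ p : Tri.Walk (j₁, i) (j₂, i), ∀ w ∈ p.support, w.2 = i ∧ j₁ ≤ w.1 ∧ w.1 ≤ j₂ := by
  induction j₂, h using Int.leInduction with
  | base => exact ⟨Walk.nil, fun w hw => by
      rw [Walk.support_nil, List.mem_singleton] at hw
      subst hw
      exact ⟨rfl, le_rfl, le_rfl⟩⟩
  | succ j h ih =>
    obtain ⟨p, hp⟩ := ih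
    have hadj : Tri.Adj (j, i) (j + 1, i) := Or.inl (Or.inl ⟨rfl, rfl⟩)
    refine ⟨p.concat hadj, fun w hw => ?_⟩
    rw [Walk.support_concat, List.mem_append, List.mem_singleton] at hw
    rcases hw with hw | hw
    · have := hp w hw
      exact ⟨this.1, this.2.1, by omega⟩
    · subst hw
      exact ⟨rfl, by show j₁ ≤ j + 1; omega, le_rfl⟩

theorem exists_lower (l : List (ℤ × ℤ)) : ∃ k : ℤ, ∀ w ∈ l, k ≤ w.1 := by
  induction l with
  | nil => exact ⟨0, by simp⟩
  | cons x l ih =>
    obtain ⟨k, hk⟩ := ih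
    refine ⟨min k x.1, fun w hw => ?_⟩
    rcases List.mem_cons.mp hw with rfl | hw
    · exact min_le_right _ _
    · exact (min_le_left _ _).trans (hk w hw)

theorem exists_upper (l : List (ℤ × ℤ)) : ∃ N : ℤ, ∀ w ∈ l, w.1 ≤ N := by
  induction l with
  | nil => exact ⟨0, by simp⟩
  | cons x l ih =>
    obtain ⟨k, hk⟩ := ih
    refine ⟨max k x.1, fun w hw => ?_⟩
    rcases List.mem_cons.mp hw with rfl | hw
    · exact le_max_right _ _
    · exact (hk w hw).trans (le_max_left _ _)

/-! ### Crossing lemmas with curved boundaries -/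

section

variable {G : SimpleGraph (ℤ × ℤ)} {a t b s : ℤ × ℤ}

theorem support_mapLe (hG : G ≤ Tri) (A : G.Walk a t) : (A.mapLe hG).support = A.support := by
  simp

/-- **Crossing lemma in a strip between two curves** `j = L i` and `j = R i`. -/
theorem cross_curved (hG : G ≤ Tri) {L R : ℤ → ℤ} (A : G.Walk a t) (B : G.Walk b s)
    (hA : ∀ w ∈ A.support, L w.2 ≤ w.1 ∧ w.1 ≤ R w.2)
    (hB : ∀ w ∈ B.support, L w.2 ≤ w.1 ∧ w.1 ≤ R w.2)
    (ha : a.1 = L a.2) (hb : b.1 = L b.2) (ht : t.1 = R t.2) (hs : s.1 = R s.2)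
    (hab : a.2 ≤ b.2) (hst : s.2 ≤ t.2) : ∃ w, w ∈ A.support ∧ w ∈ B.support := by
  obtain ⟨k, hk⟩ := exists_lower (A.support ++ B.support)
  obtain ⟨N, hN⟩ := exists_upper (A.support ++ B.support)
  have hkA : ∀ w ∈ A.support, k ≤ w.1 := fun w hw => hk w (List.mem_append_left _ hw)
  have hkB : ∀ w ∈ B.support, k ≤ w.1 := fun w hw => hk w (List.mem_append_right _ hw)
  have hNA : ∀ w ∈ A.support, w.1 ≤ N := fun w hw => hN w (List.mem_append_left _ hw)
  have hNB : ∀ w ∈ B.support, w.1 ≤ N := fun w hw => hN w (List.mem_append_right _ hw)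
  obtain ⟨a1, a2⟩ := a
  obtain ⟨b1, b2⟩ := b
  obtain ⟨t1, t2⟩ := t
  obtain ⟨s1, s2⟩ := s
  obtain ⟨pa, hpa⟩ := exists_hwalk a2 (hkA _ A.start_mem_support)
  obtain ⟨pb, hpb⟩ := exists_hwalk b2 (hkB _ B.start_mem_support)
  obtain ⟨pt, hpt⟩ := exists_hwalk t2 (hNA _ A.end_mem_support)
  obtain ⟨ps, hps⟩ := exists_hwalk s2 (hNB _ B.end_mem_support)
  have hA' : ∀ w, w ∈ ((pa.append (A.mapLe hG)).append pt).support ↔
      (w ∈ pa.support ∨ w ∈ A.support) ∨ w ∈ pt.support := fun w => by
    rw [Walk.mem_support_append_iff, Walk.mem_support_append_iff, support_mapLe]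
  have hB' : ∀ w, w ∈ ((pb.append (B.mapLe hG)).append ps).support ↔
      (w ∈ pb.support ∨ w ∈ B.support) ∨ w ∈ ps.support := fun w => by
    rw [Walk.mem_support_append_iff, Walk.mem_support_append_iff, support_mapLe]
  have haA := hkA _ A.start_mem_support
  have hbB := hkB _ B.start_mem_support
  have htA := hNA _ A.end_mem_support
  have hsB := hNB _ B.end_mem_support
  have ha' := hNA _ A.start_mem_support
  have hb' := hNB _ B.start_mem_support
  have ht' := hkA _ A.end_mem_support
  have hs' := hkB _ B.end_mem_support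
  obtain ⟨w, hw1, hw2⟩ := cross_strip (le_refl Tri) ((pa.append (A.mapLe hG)).append pt)
    ((pb.append (B.mapLe hG)).append ps) (k := k) (N := N) (by
      intro w hw
      rcases (hA' w).mp hw with (h | h) | h
      · have := hpa w h
        exact ⟨this.2.1, this.2.2.trans ha'⟩
      · exact ⟨hkA w h, hNA w h⟩
      · have := hpt w h
        exact ⟨ht'.trans this.2.1, this.2.2⟩) (by
      intro w hw
      rcases (hB' w).mp hw with (h | h) | h
      · have := hpb w h
        exact ⟨this.2.1, this.2.2.trans hb'⟩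
      · exact ⟨hkB w h, hNB w h⟩
      · have := hps w h
        exact ⟨hs'.trans this.2.1, this.2.2⟩) rfl rfl rfl rfl hab hst
  have hstartA := A.start_mem_support
  have hstartB := B.start_mem_support
  have hendA := A.end_mem_support
  have hendB := B.end_mem_support
  have e1 := hA _ hstartA
  have e2 := hB _ hstartB
  have e3 := hA _ hendA
  have e4 := hB _ hendB
  simp only at ha hb ht hs e1 e2 e3 e4 hab hst
  rcases (hA' w).mp hw1 with (h1 | h1) | h1 <;> rcases (hB' w).mp hw2 with (h2 | h2) | h2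
  · -- both on the left half lines
    obtain ⟨p1, p2, p3⟩ := hpa w h1
    obtain ⟨q1, q2, q3⟩ := hpb w h2
    have h3 : a2 = b2 := by omega
    subst h3
    have h4 : a1 = b1 := by omega
    subst h4
    exact ⟨_, hstartA, hstartB⟩
  · obtain ⟨p1, p2, p3⟩ := hpa w h1
    have h3 := hB w h2
    rw [p1] at h3
    have h4 : w = (a1, a2) := Prod.ext (by show w.1 = a1; omega) p1
    exact ⟨w, by rw [h4]; exact hstartA, h2⟩
  · obtain ⟨p1, p2, p3⟩ := hpa w h1
    obtain ⟨q1, q2, q3⟩ := hps w h2
    have h3 : a2 = s2 := by omega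
    subst h3
    have h4 : a1 = s1 := by omega
    subst h4
    exact ⟨_, hstartA, hendB⟩
  · obtain ⟨q1, q2, q3⟩ := hpb w h2
    have h3 := hA w h1
    rw [q1] at h3
    have h4 : w = (b1, b2) := Prod.ext (by show w.1 = b1; omega) q1
    exact ⟨w, h1, by rw [h4]; exact hstartB⟩
  · exact ⟨w, h1, h2⟩
  · obtain ⟨q1, q2, q3⟩ := hps w h2
    have h3 := hA w h1
    rw [q1] at h3
    have h4 : w = (s1, s2) := Prod.ext (by show w.1 = s1; omega) q1
    exact ⟨w, h1, by rw [h4]; exact hendB⟩
  · obtain ⟨p1, p2, p3⟩ := hpt w h1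
    obtain ⟨q1, q2, q3⟩ := hpb w h2
    have h3 : t2 = b2 := by omega
    subst h3
    have h4 : t1 = b1 := by omega
    subst h4
    exact ⟨_, hendA, hstartB⟩
  · obtain ⟨p1, p2, p3⟩ := hpt w h1
    have h3 := hB w h2
    rw [p1] at h3
    have h4 : w = (t1, t2) := Prod.ext (by show w.1 = t1; omega) p1
    exact ⟨w, by rw [h4]; exact hendA, h2⟩
  · obtain ⟨p1, p2, p3⟩ := hpt w h1
    obtain ⟨q1, q2, q3⟩ := hps w h2
    have h3 : t2 = s2 := by omega
    subst h3
    have h4 : t1 = s1 := by omega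
    subst h4
    exact ⟨_, hendA, hendB⟩

end

section

variable {G : SimpleGraph (ℤ × ℤ)} {a t b s : ℤ × ℤ}

/-- the common vertices of two walks in the region `L w.2 ≤ w.1`, extended by horizontal half lines
from their starting points on the boundary, give common vertices of the walks -/
theorem common_of_extended {L : ℤ → ℤ} {A : G.Walk a t} {B : G.Walk b s} {k : ℤ}
    (hA : ∀ w ∈ A.support, L w.2 ≤ w.1) (hB : ∀ w ∈ B.support, L w.2 ≤ w.1)
    (ha : a.1 = L a.2) (hb : b.1 = L b.2) {w : ℤ × ℤ}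
    (h1 : (w.2 = a.2 ∧ k ≤ w.1 ∧ w.1 ≤ a.1) ∨ w ∈ A.support)
    (h2 : (w.2 = b.2 ∧ k ≤ w.1 ∧ w.1 ≤ b.1) ∨ w ∈ B.support) :
    ∃ w, w ∈ A.support ∧ w ∈ B.support := by
  rcases h1 with h1 | h1 <;> rcases h2 with h2 | h2
  · have h3 : a = b := Prod.ext (by rw [ha, hb, ← h1.1, ← h2.1]) (by rw [← h1.1, ← h2.1])
    exact ⟨a, A.start_mem_support, by rw [h3]; exact B.start_mem_support⟩
  · have h3 := hB w h2
    rw [h1.1, ← ha] at h3
    have h4 : w = a := Prod.ext (by omega) h1.1
    exact ⟨w, by rw [h4]; exact A.start_mem_support, h2⟩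
  · have h3 := hA w h1
    rw [h2.1, ← hb] at h3
    have h4 : w = b := Prod.ext (by omega) h2.1
    exact ⟨w, h1, by rw [h4]; exact B.start_mem_support⟩
  · exact ⟨w, h1, h2⟩

/-- **Crossing lemma in a wedge with a curved left boundary `j = L i` and a lower boundary
`i = lo j`**: `A` starts below `B` and ends to the right of the end of `B`. -/
theorem cross_lower (hG : G ≤ Tri) {L lo : ℤ → ℤ} (A : G.Walk a t) (B : G.Walk b s)
    (hA : ∀ w ∈ A.support, L w.2 ≤ w.1 ∧ lo w.1 ≤ w.2)
    (hB : ∀ w ∈ B.support, L w.2 ≤ w.1 ∧ lo w.1 ≤ w.2)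
    (ha : a.1 = L a.2) (hb : b.1 = L b.2) (ht : t.2 = lo t.1) (hs : s.2 = lo s.1)
    (hab : a.2 ≤ b.2) (hst : s.1 ≤ t.1) (has : a.1 ≤ s.1) (hbs : b.1 ≤ s.1) :
    ∃ w, w ∈ A.support ∧ w ∈ B.support := by
  rcases hst.eq_or_lt with hst | hst
  · have h3 : s = t := Prod.ext hst (by rw [hs, ht, hst])
    exact ⟨s, by rw [h3]; exact A.end_mem_support, B.end_mem_support⟩
  obtain ⟨k, hk⟩ := exists_lower (A.support ++ B.support)
  have hkA : ∀ w ∈ A.support, k ≤ w.1 := fun w hw => hk w (List.mem_append_left _ hw)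
  have hkB : ∀ w ∈ B.support, k ≤ w.1 := fun w hw => hk w (List.mem_append_right _ hw)
  obtain ⟨a1, a2⟩ := a
  obtain ⟨b1, b2⟩ := b
  obtain ⟨pa, hpa⟩ := exists_hwalk a2 (hkA _ A.start_mem_support)
  obtain ⟨pb, hpb⟩ := exists_hwalk b2 (hkB _ B.start_mem_support)
  have hA' : ∀ w, w ∈ (pa.append (A.mapLe hG)).support ↔ w ∈ pa.support ∨ w ∈ A.support :=
    fun w => by rw [Walk.mem_support_append_iff, support_mapLe]
  have hB' : ∀ w, w ∈ (pb.append (B.mapLe hG)).support ↔ w ∈ pb.support ∨ w ∈ B.support :=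
    fun w => by rw [Walk.mem_support_append_iff, support_mapLe]
  simp only at hab has hbs
  obtain ⟨w, hw1, hw2⟩ := cross_lower_flat (le_refl Tri) (pa.append (A.mapLe hG))
    (pb.append (B.mapLe hG)) (k := k) (by
      intro w hw
      rcases (hA' w).mp hw with h | h
      · exact (hpa w h).2.1
      · exact hkA w h) (by
      intro w hw
      rcases (hB' w).mp hw with h | h
      · exact (hpb w h).2.1
      · exact hkB w h) rfl rfl hab hst (by
      intro w hw hwt
      rcases (hB' w).mp hw with h | h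
      · have := hpb w h
        omega
      · rw [ht, ← hwt]
        exact (hB w h).2) (by
      intro w hw hws
      rcases (hA' w).mp hw with h | h
      · have h1 := hpa w h
        have h2 := (hA _ A.start_mem_support).2
        simp only at h2
        have h3 : a1 = s.1 := by omega
        rw [hs, ← h3, h1.1]
        exact h2
      · rw [hs, ← hws]
        exact (hA w h).2)
  refine common_of_extended (k := k) (w := w) (fun w hw => (hA w hw).1) (fun w hw => (hB w hw).1)
    ha hb ?_ ?_
  · rcases (hA' w).mp hw1 with h | h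
    · exact Or.inl (hpa w h)
    · exact Or.inr h
  · rcases (hB' w).mp hw2 with h | h
    · exact Or.inl (hpb w h)
    · exact Or.inr h

/-- **Crossing lemma in a wedge with a curved left boundary `j = L i` and an upper boundary
`i = up j`**: `A` starts above `B` and ends to the right of the end of `B`. -/
theorem cross_upper (hG : G ≤ Tri) {L up : ℤ → ℤ} (A : G.Walk a t) (B : G.Walk b s)
    (hA : ∀ w ∈ A.support, L w.2 ≤ w.1 ∧ w.2 ≤ up w.1)
    (hB : ∀ w ∈ B.support, L w.2 ≤ w.1 ∧ w.2 ≤ up w.1)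
    (ha : a.1 = L a.2) (hb : b.1 = L b.2) (ht : t.2 = up t.1) (hs : s.2 = up s.1)
    (hab : b.2 ≤ a.2) (hst : s.1 ≤ t.1) (has : a.1 ≤ s.1) (hbs : b.1 ≤ s.1) :
    ∃ w, w ∈ A.support ∧ w ∈ B.support := by
  rcases hst.eq_or_lt with hst | hst
  · have h3 : s = t := Prod.ext hst (by rw [hs, ht, hst])
    exact ⟨s, by rw [h3]; exact A.end_mem_support, B.end_mem_support⟩
  obtain ⟨k, hk⟩ := exists_lower (A.support ++ B.support)
  have hkA : ∀ w ∈ A.support, k ≤ w.1 := fun w hw => hk w (List.mem_append_left _ hw)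
  have hkB : ∀ w ∈ B.support, k ≤ w.1 := fun w hw => hk w (List.mem_append_right _ hw)
  obtain ⟨a1, a2⟩ := a
  obtain ⟨b1, b2⟩ := b
  obtain ⟨pa, hpa⟩ := exists_hwalk a2 (hkA _ A.start_mem_support)
  obtain ⟨pb, hpb⟩ := exists_hwalk b2 (hkB _ B.start_mem_support)
  have hA' : ∀ w, w ∈ (pa.append (A.mapLe hG)).support ↔ w ∈ pa.support ∨ w ∈ A.support :=
    fun w => by rw [Walk.mem_support_append_iff, support_mapLe]
  have hB' : ∀ w, w ∈ (pb.append (B.mapLe hG)).support ↔ w ∈ pb.support ∨ w ∈ B.support :=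
    fun w => by rw [Walk.mem_support_append_iff, support_mapLe]
  simp only at hab has hbs
  obtain ⟨w, hw1, hw2⟩ := cross_upper_flat (le_refl Tri) (pa.append (A.mapLe hG))
    (pb.append (B.mapLe hG)) (k := k) (by
      intro w hw
      rcases (hA' w).mp hw with h | h
      · exact (hpa w h).2.1
      · exact hkA w h) (by
      intro w hw
      rcases (hB' w).mp hw with h | h
      · exact (hpb w h).2.1
      · exact hkB w h) rfl rfl hab hst (by
      intro w hw hwt
      rcases (hB' w).mp hw with h | h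
      · have := hpb w h
        omega
      · rw [ht, ← hwt]
        exact (hB w h).2) (by
      intro w hw hws
      rcases (hA' w).mp hw with h | h
      · have h1 := hpa w h
        have h2 := (hA _ A.start_mem_support).2
        simp only at h2
        have h3 : a1 = s.1 := by omega
        rw [hs, ← h3, h1.1]
        exact h2
      · rw [hs, ← hws]
        exact (hA w h).2)
  refine common_of_extended (k := k) (w := w) (fun w hw => (hA w hw).1) (fun w hw => (hB w hw).1)
    ha hb ?_ ?_
  · rcases (hA' w).mp hw1 with h | h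
    · exact Or.inl (hpa w h)
    · exact Or.inr h
  · rcases (hB' w).mp hw2 with h | h
    · exact Or.inl (hpb w h)
    · exact Or.inr h

end

end Pool.Agent.MPc725eb
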