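import Pool.Agent.Lib.MP_c725eb_pr.Mono
import Pool.Agent.Lib.MP_c725eb_pr.StripDom

/-!
# Facts on strips: finiteness, Monge, bounds, defects
-/

set_option autoImplicit false

namespace C7

open scoped ENNReal
open MeasureTheory Finset

/-! ### strips -/

section strips

variable {σ : ℤ} {w : W} {K : ℝ≥0∞} {c c' d e : ℤ → ℤ}

/-- Potential of the strip. -/
noncomputable def phi (w : W) (σ : ℤ) (d c : ℤ → ℤ) (h x : ℤ) : ℝ :=
  (TI w σ (lft σ d) c x (pt σ d h)).toReal

/-- Difference of consecutive potentials. -/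
noncomputable def dF (w : W) (σ : ℤ) (d c : ℤ → ℤ) (h x : ℤ) : ℝ := phi w σ d c h x - phi w σ d c (h + 1) x

/-- Defect of `u` as an entrance from `x` for the reference target `r`. -/
noncomputable def dfc (w : W) (σ : ℤ) (d c c' : ℤ → ℤ) (r x u : ℤ) : ℝ :=
  (KI w σ (lft σ d) c c' x u).toReal + phi w σ d c' r u - phi w σ d c r x

/-- Hypotheses on the strips. -/
structure StripH (σ : ℤ) (w : W) (K : ℝ≥0∞) (d e : ℤ → ℤ) : Prop where
  hσ : σ = 0 ∨ σ = 1
  hw2 : ∀ v, w v 2 = ⊤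
  hw : ∀ v, w v 0 ≠ ⊤ ∧ w v 1 ≠ ⊤
  hK : K ≠ ⊤
  he : Stp σ e
  hoe : ∀ i, Opn σ w K (pt σ e i)
  hd : ∀ i, d i = e i + (1 - σ)

/-- A curve of the strip. -/
structure CurvH (σ : ℤ) (w : W) (K : ℝ≥0∞) (e c : ℤ → ℤ) : Prop where
  hc : Stp σ c
  ho : ∀ i, Opn σ w K (pt σ c i)
  hce : ∀ i, c i ≤ e i

theorem StripH.hds (H : StripH σ w K d e) : Stp σ d := by
  intro i
  have := H.he i
  rw [H.hd, H.hd]
  omega

theorem StripH.fin (H : StripH σ w K d e) (hc : CurvH σ w K e c) (h x : ℤ) :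
    TI w σ (lft σ d) c x (pt σ d h) ≠ ⊤ := by
  refine TI_lft_ne_top H.hσ hc.hc H.hds hc.ho H.hK H.hw (fun i => ?_) x ?_ ?_
  · rw [H.hd]
    have := hc.hce i
    omega
  · change c (ix σ (pt σ d h)) ≤ (pt σ d h).1
    rw [ix_pt]
    have := hc.hce h
    have h1 : (pt σ d h).1 = d h := rfl
    rw [h1, H.hd]
    rcases H.hσ with rfl | rfl <;> omega
  · change (pt σ d h).1 ≤ d (ix σ (pt σ d h))
    rw [ix_pt]
    exact le_rfl

/-- Monge, in real form. -/
theorem StripH.monge (H : StripH σ w K d e) (hc : CurvH σ w K e c) {h h' x x' : ℤ} (hh : h ≤ h')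
    (hx : x ≤ x') : phi w σ d c h x - phi w σ d c h' x ≤ phi w σ d c h x' - phi w σ d c h' x' := by
  have := strip_monge (w := w) (c := c) (d := d) H.hσ hx hh
  have h1 := ENNReal.toReal_mono (ENNReal.add_ne_top.2 ⟨H.fin hc h x', H.fin hc h' x⟩) this
  rw [ENNReal.toReal_add (H.fin hc h x) (H.fin hc h' x'), ENNReal.toReal_add (H.fin hc h x') (H.fin hc h' x)] at h1
  unfold phi
  linarith

theorem StripH.dF_mono (H : StripH σ w K d e) (hc : CurvH σ w K e c) (h : ℤ) :
    Monotone (dF w σ d c h) := fun _ _ hx => H.monge hc (by omega) hx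

theorem StripH.abs_dF_le (H : StripH σ w K d e) (hc : CurvH σ w K e c) (h x : ℤ) :
    |dF w σ d c h x| ≤ 4 * K.toReal := by
  have h1 := T_wh_succ (w := w) (c := c) H.hσ H.he H.hoe hc.hce H.hd h
  have h4K : 4 * K ≠ ⊤ := ENNReal.mul_ne_top (by norm_num) H.hK
  have h2 : TI w σ (lft σ d) c x (pt σ d (h + 1)) ≤ TI w σ (lft σ d) c x (pt σ d h) + 4 * K :=
    (T_triangle _ _ _ _ _).trans (add_le_add le_rfl h1)
  have h3 : TI w σ (lft σ d) c x (pt σ d h) ≤ TI w σ (lft σ d) c x (pt σ d (h + 1)) + 4 * K :=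
    (T_triangle _ _ _ _ _).trans (add_le_add le_rfl (by rw [T_comm]; exact h1))
  have e4 : (4 * K).toReal = 4 * K.toReal := by
    rw [ENNReal.toReal_mul]; norm_num
  have h5 := ENNReal.toReal_mono (ENNReal.add_ne_top.2 ⟨H.fin hc h x, h4K⟩) h2
  have h6 := ENNReal.toReal_mono (ENNReal.add_ne_top.2 ⟨H.fin hc (h + 1) x, h4K⟩) h3
  rw [ENNReal.toReal_add (H.fin hc h x) h4K, e4] at h5
  rw [ENNReal.toReal_add (H.fin hc (h + 1) x) h4K, e4] at h6
  unfold dF phi
  rw [abs_le]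
  constructor <;> linarith

theorem StripH.abs_psi_le (H : StripH σ w K d e) (hc : CurvH σ w K e c) {h r : ℤ} (hr : h ≤ r) (x : ℤ) :
    |phi w σ d c h x - phi w σ d c r x| ≤ 4 * K.toReal * (r - h) := by
  induction r, hr using Int.leInduction with
  | base => simp
  | succ y hy ih =>
    have h1 := H.abs_dF_le hc y x
    have h2 : phi w σ d c h x - phi w σ d c (y + 1) x =
        (phi w σ d c h x - phi w σ d c y x) + dF w σ d c y x := by
      unfold dF; ring
    rw [h2]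
    refine (abs_add_le _ _).trans ?_
    push_cast
    linarith

/-- The basic inequality: differences of potentials decrease along the last entrance. -/
theorem StripH.drift (H : StripH σ w K d e) (hc' : CurvH σ w K e c')
    (hcc : ∀ i, c i ≤ c' i) {h r x u : ℤ} (hu : AM w σ (lft σ d) c c' (pt σ d h) x u) :
    phi w σ d c' h u - phi w σ d c' r u ≤ phi w σ d c h x - phi w σ d c r x := by
  have h1 := TI_le (w := w) (σ := σ) (E := lft σ d) (x := x) (u := u) (t := pt σ d r) hcc hu.mem.1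
  have h2 := hu.1
  have h3 := ENNReal.toReal_mono (ENNReal.add_ne_top.2 ⟨hu.fin.1, H.fin hc' r u⟩) h1
  rw [ENNReal.toReal_add hu.fin.1 (H.fin hc' r u)] at h3
  have h4 := congrArg ENNReal.toReal h2
  rw [ENNReal.toReal_add hu.fin.1 hu.fin.2] at h4
  unfold phi
  linarith

/-- The defect in terms of potentials. -/
theorem dfc_eq {h r x u : ℤ} (hu : AM w σ (lft σ d) c c' (pt σ d h) x u) :
    dfc w σ d c c' r x u =
      (phi w σ d c h x - phi w σ d c r x) - (phi w σ d c' h u - phi w σ d c' r u) := by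
  have h4 := congrArg ENNReal.toReal hu.1
  rw [ENNReal.toReal_add hu.fin.1 hu.fin.2] at h4
  unfold dfc phi
  linarith

theorem StripH.dfc_nonneg (H : StripH σ w K d e) (hc' : CurvH σ w K e c')
    (hcc : ∀ i, c i ≤ c' i) {h r x u : ℤ} (hu : AM w σ (lft σ d) c c' (pt σ d h) x u) :
    0 ≤ dfc w σ d c c' r x u := by
  rw [dfc_eq hu]
  have := H.drift hc' hcc (r := r) hu
  linarith

/-- The defect is nondecreasing in the reference. -/
theorem StripH.dfc_mono (H : StripH σ w K d e) (hc : CurvH σ w K e c) (hc' : CurvH σ w K e c')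
    (hcc : ∀ i, c i ≤ c' i) (hU : UniqGeo w) (hE : ExGeo w) {h r r' x u : ℤ} (hr : h ≤ r) (hr' : r ≤ r')
    (hu : AM w σ (lft σ d) c c' (pt σ d h) x u) : dfc w σ d c c' r x u ≤ dfc w σ d c c' r' x u := by
  have hmem : pt σ d r ∈ reg σ c' ∩ lft σ d := by
    by_contra hne
    exact H.fin hc' r u (T_eq_top_of_right hne)
  obtain ⟨u', hu'⟩ := exists_AM H.hσ H.hw2 hE hc'.hc hcc (E := lft σ d) (x := x) hmem (H.fin hc r x)
  have h1 : u ≤ u' := AM.mono_target H.hσ hU hE hcc hr hu hu'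
  have h2 := H.drift hc' hcc (r := r') hu'
  have h3 := H.monge hc' hr' h1
  rw [dfc_eq hu, dfc_eq hu]
  linarith

end strips

end C7
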