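import Pool.Agent.Lib.MP_c725eb_pr.Ent

/-!
# Absence of ties for local potentials
-/

set_option autoImplicit false

namespace C7

open MeasureTheory Filter Set
open scoped ENNReal Topology

section

variable {σ : ℤ} {K : ℝ≥0∞}

/-- The curves depend only on the open edges. -/
theorem ck_of_open {w w' : W} (h : ∀ v (d : Fin 2), w v d.castSucc ≤ K ↔ w' v d.castSucc ≤ K)
    (k : ℤ) : ck σ w K k = ck σ w' K k := by
  have h0 : ∀ v, w v 0 ≤ K ↔ w' v 0 ≤ K := fun v => h v 0
  have h1 : ∀ v, w v 1 ≤ K ↔ w' v 1 ≤ K := fun v => h v 1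
  have e : ClP σ w K = ClP σ w' K := by
    funext v
    unfold ClP Opn
    simp only [h0, h1]
  unfold ck crv
  rw [e]

theorem Rg_of_open {w w' : W} (h : ∀ v (d : Fin 2), w v d.castSucc ≤ K ↔ w' v d.castSucc ≤ K)
    (k : ℤ) : Rg σ w K k = Rg σ w' K k := by unfold Rg; rw [ck_of_open h]

theorem pk_of_open {w w' : W} (h : ∀ v (d : Fin 2), w v d.castSucc ≤ K ↔ w' v d.castSucc ≤ K)
    (k i : ℤ) : pk σ w K k i = pk σ w' K k i := by unfold pk; rw [ck_of_open h]

/-- Replacing the value of one edge. -/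
noncomputable def upd (e : Ed) (s : ℝ) (ω : Om) : Om := Function.update ω e s

theorem upd_self (e : Ed) (s : ℝ) (ω : Om) : upd e s ω e = s := by
  unfold upd; rw [Function.update_self]

theorem upd_of_ne {e f : Ed} (h : f ≠ e) (s : ℝ) (ω : Om) : upd e s ω f = ω f := by
  unfold upd; rw [Function.update_of_ne h]

theorem measurable_upd (e : Ed) (s : ℝ) : Measurable (upd e s) := by
  refine measurable_pi_lambda _ fun f => ?_
  by_cases h : f = e
  · subst h
    simp only [upd_self]
    exact measurable_const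
  · simp only [upd_of_ne h]
    exact measurable_pi_apply f

theorem wt_eq (ω : Om) (v : V) (d : Fin 2) : wt ω v d.castSucc = ENNReal.ofReal (ω (v, d)) := by
  fin_cases d
  · rfl
  · rfl

theorem wt_upd_of_ne {e : Ed} {v : V} {d : Fin 2} (h : (v, d) ≠ e) (s : ℝ) (ω : Om) :
    wt (upd e s ω) v d.castSucc = wt ω v d.castSucc := by
  rw [wt_eq, wt_eq, upd_of_ne h]

/-- The two representative values. -/
noncomputable def rep (K : ℝ≥0∞) (s : Fin 2) : ℝ := if s = 0 then 0 else K.toReal + 1

theorem open_upd (hK : K ≠ ⊤) (e : Ed) (ω : Om) : ∃ s : Fin 2, ∀ v (d : Fin 2),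
    (wt ω v d.castSucc ≤ K ↔ wt (upd e (rep K s) ω) v d.castSucc ≤ K) := by
  by_cases h : ENNReal.ofReal (ω e) ≤ K
  · refine ⟨0, fun v d => ?_⟩
    by_cases he : (v, d) = e
    · rw [wt_eq, wt_eq, he, upd_self]
      simp [h, rep]
    · rw [wt_upd_of_ne he]
  · refine ⟨1, fun v d => ?_⟩
    by_cases he : (v, d) = e
    · rw [wt_eq, wt_eq, he, upd_self]
      have h2 : ¬ ENNReal.ofReal (rep K 1) ≤ K := by
        unfold rep
        rw [if_neg (by decide), not_le]
        calc K = ENNReal.ofReal K.toReal := (ENNReal.ofReal_toReal hK).symm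
          _ < _ := (ENNReal.ofReal_lt_ofReal_iff (by positivity)).2 (by linarith)
      exact iff_of_false h h2
    · rw [wt_upd_of_ne he]

theorem del_upd (e : Ed) (s : ℝ) (ω : Om) : del e (wt (upd e s ω)) = del e (wt ω) := by
  funext v d
  by_cases hd : d = 2
  · subst hd
    rw [del_two (fun v => wt_two _ v), del_two (fun v => wt_two _ v)]
  · obtain ⟨d', rfl⟩ : ∃ d' : Fin 2, d = d'.castSucc := by
      fin_cases d
      · exact ⟨0, rfl⟩
      · exact ⟨1, rfl⟩
      · exact absurd rfl hd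
    by_cases he : (v, d') = e
    · subst he
      rw [del_self (v, d') (wt (upd (v, d') s ω)), del_self (v, d') (wt ω)]
    · rw [del_of_ne he, del_of_ne he, wt_upd_of_ne he]

theorem step_upd {e : Ed} (s : ℝ) (ω : Om) {a b : V} (h : toE a b ≠ e) :
    step (wt (upd e s ω)) a b = step (wt ω) a b := by
  rw [← step_del_of_ne (fun v => wt_two _ v) h, ← step_del_of_ne (fun v => wt_two _ v) h, del_upd]

/-- Local potentials. -/
def LocP (σ : ℤ) (K : ℝ≥0∞) (φ : Om → ℤ → ℤ → ℝ) : Prop :=
  ∀ ω ω' l, Same σ K l (wt ω) (wt ω') → ∀ i j, φ ω l i - φ ω l j = φ ω' l i - φ ω' l j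

variable {F : Measure ℝ} [IsProbabilityMeasure F]

omit [IsProbabilityMeasure F] in
theorem conc_zero (hF : ∀ a, F {a} = 0) : conc F 0 = 0 := by
  unfold conc
  simp [hF]

theorem measurable_del {Ω : Type*} [MeasurableSpace Ω] {w : Ω → W}
    (hm : ∀ v d, Measurable fun ω => w ω v d) (e : Ed) (v : V) (d : Fin 3) :
    Measurable fun ω => del e (w ω) v d := by
  unfold del
  split_ifs
  · exact measurable_const
  · exact hm v d

/-- NO TIES for one edge. -/
theorem null_tie (hK : K ≠ ⊤) (hF : ∀ a, F {a} = 0) (hF0 : F (Iio 0) = 0) {φ : Om → ℤ → ℤ → ℝ}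
    (hφ : LocP σ K φ) (hm : ∀ l i j, Measurable fun ω => φ ω l i - φ ω l j) (k l x u j : ℤ)
    {y z : V} (hyz : Nb y z) :
    ∀ᵐ ω ∂(iid Ed F), y ∉ Rg σ (wt ω) K l → pk σ (wt ω) K l u = z →
      NoTie (wt ω) (Rg σ (wt ω) K k) (pk σ (wt ω) K k x) (pk σ (wt ω) K l) (φ ω l) y u j := by
  set e := toE y z with he
  set g : Om → ℝ := fun ω =>
    (T (del e (wt ω)) (Rg σ (wt ω) K k) (pk σ (wt ω) K k x) (pk σ (wt ω) K l j)).toReal -
      (T (del e (wt ω)) (Rg σ (wt ω) K k) (pk σ (wt ω) K k x) y).toReal + (φ ω l j - φ ω l u) with hg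
  have hgm : Measurable g := by
    have hd : ∀ v d, Measurable fun ω : Om => del e (wt ω) v d := measurable_del measurable_wt3 e
    refine Measurable.add (Measurable.sub ?_ ?_) (hm l j u)
    · exact (measurable_T hd (fun v => measurableSet_mem_Rg_wt σ K k v) (measurable_pk_wt σ K k x)
        (measurable_pk_wt σ K l j)).ennreal_toReal
    · exact (measurable_T hd (fun v => measurableSet_mem_Rg_wt σ K k v) (measurable_pk_wt σ K k x)
        measurable_const).ennreal_toReal
  have h1 := near_tie_fin F e (g := fun s ω => g (upd e (rep K s) ω)) (κ := Fin 2)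
    (fun s => hgm.comp (measurable_upd e _)) (by
      intro s ω ω' hω
      show g (upd e (rep K s) ω) = g (upd e (rep K s) ω')
      congr 1
      funext f
      by_cases hf : f = e
      · subst hf; rw [upd_self, upd_self]
      · rw [upd_of_ne hf, upd_of_ne hf]
        exact hω f hf) 0
  rw [conc_zero hF, mul_zero, nonpos_iff_eq_zero] at h1
  have h2 : ∀ᵐ ω ∂(iid Ed F), ¬ ∃ s, |ω e - g (upd e (rep K s) ω)| ≤ 0 :=
    measure_eq_zero_iff_ae_notMem.1 h1
  have h3 : ∀ᵐ ω ∂(iid Ed F), 0 ≤ ω e := by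
    have h4 : MeasurePreserving (Function.eval e) (iid Ed F) F := by
      unfold iid
      exact measurePreserving_eval_infinitePi (fun _ : Ed => F) e
    have h5 : ∀ᵐ a ∂F, 0 ≤ a := by
      rw [ae_iff]
      simpa [Iio] using hF0
    exact h4.quasiMeasurePreserving.ae h5
  filter_upwards [h2, h3] with ω h4 h5 hy hz htie
  apply h4
  obtain ⟨s, hs⟩ := open_upd hK e ω
  refine ⟨s, ?_⟩
  have hg1 : g (upd e (rep K s) ω) = g ω := by
    have hsame : Same σ K l (wt (upd e (rep K s) ω)) (wt ω) := by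
      refine ⟨(ck_of_open hs l).symm, fun a ha b hb => ?_⟩
      have hRg := Rg_of_open (σ := σ) hs l
      rw [← hRg] at ha hb
      by_cases hab : Nb a b
      · apply step_upd
        intro h6
        have h7 := toE_eq hab
        have h8 := toE_eq hyz
        rw [h6] at h7
        rcases h7 with ⟨h7, h7'⟩ | ⟨h7, h7'⟩ <;> rcases h8 with ⟨h8, h8'⟩ | ⟨h8, h8'⟩
        · exact hy ((h7.symm.trans h8) ▸ ha)
        · exact hy ((h7'.symm.trans h8') ▸ hb)
        · exact hy ((h7.symm.trans h8) ▸ hb)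
        · exact hy ((h7'.symm.trans h8') ▸ ha)
      · have h6 : ∀ w : W, (∀ v, w v 2 = ⊤) → step w a b = ⊤ := fun w hw => by
          by_contra hne
          exact hab (nb_of_step_ne_top hw hne)
        rw [h6 _ fun v => wt_two _ v, h6 _ fun v => wt_two _ v]
    simp only [hg, del_upd]
    rw [hφ _ _ l hsame]
    simp only [← Rg_of_open hs, ← pk_of_open hs]
  rw [hg1, abs_nonpos_iff, sub_eq_zero]
  have h6 : (step (wt ω) y (pk σ (wt ω) K l u)).toReal = ω e := by
    rw [hz, step_wt_eq ω hyz, ENNReal.toReal_ofReal h5]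
  rw [h6, hz] at htie
  simp only [hg]
  rw [← he] at htie
  linarith

end

end C7
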