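import Pool.Agent.Lib.MP_c725eb_pr.Walls

/-!
# An upper wall of smaller slope is dominated by a lower wall of larger slope
-/

set_option autoImplicit false

namespace C7

open scoped ENNReal

section cross

variable {σ : ℤ} {w : W} {c : ℤ → ℤ} {u u' : V} {L L' : ℤ}

theorem wup_down (hu : 0 < u.1) {a b r : ℤ} (h : (a, b) ∈ Wup σ u L) (hr : r ≤ b) : (a, r) ∈ Wup σ u L := by
  change det u (a, r) ≤ L * ln σ u
  have h1 : det u (a, b) ≤ L * ln σ u := h
  refine le_trans ?_ h1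
  unfold det
  simp only
  nlinarith

theorem not_wup_up (hu : 0 < u.1) {a b r : ℤ} (h : (a, b) ∉ Wup σ u L) (hr : b ≤ r) :
    (a, r) ∉ Wup σ u L := fun h' => h (wup_down hu h' hr)

/-- Mirror image of `wlo_core`. -/
theorem wup_core (hσ : σ = 0 ∨ σ = 1) {x x' : ℤ} (hx : x < x') {A B : List V} {v t : V}
    (hA : IsW (reg σ c ∩ Wup σ u L) (pt σ c x') t A) (hcA : cost w A ≠ ⊤)
    (hB : IsW (reg σ c) (pt σ c x) v B) (hcB : cost w B ≠ ⊤)
    (hv : ∀ r, v.2 < r → (v.1, r) ∉ Wup σ u L) (hcol : ∀ p ∈ B, p.1 < t.1)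
    (hxv : ∀ r, v.2 < r → ix σ (v.1, r) = x' → c x' ≤ v.1) : ∃ p ∈ B, p ∈ A := by
  obtain ⟨Q, hQ⟩ := exists_le_fst B
  have hvB : v ∈ B := by obtain ⟨a, rfl⟩ := hB.eq_concat; simp
  have hxB : pt σ c x ∈ B := by obtain ⟨a, rfl⟩ := hB.eq_cons; simp
  have hxA : pt σ c x' ∈ A := by obtain ⟨a, rfl⟩ := hA.eq_cons; simp
  obtain ⟨p, hp, hp'⟩ := cross_top hσ (c := c) hx (SA := {p | p ∈ A})
    (SB := {p | p ∈ B} ∪ {p | p.1 = v.1 ∧ v.2 < p.2}) (t := t) (hA.conn hcA) hxA (Or.inl hxB) (by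
      intro R
      have h1 : Conn ({p | p ∈ B} ∪ {p | p.1 = v.1 ∧ v.2 < p.2}) (pt σ c x) v :=
        (hB.conn hcB).mono fun p hp => Or.inl hp
      refine ⟨(v.1, max (R + 1) v.2), by simp only; omega, h1.trans ?_⟩
      apply conn_up (le_max_right _ _)
      intro q h1 h2 h3
      rcases h2.eq_or_lt with h2 | h2
      · left
        rw [show q = v from Prod.ext h1 h2.symm]
        exact hvB
      · exact Or.inr ⟨h1, h2⟩)
    (hcol _ hxB) (by
      intro p hp
      rcases hp with hp | hp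
      · exact hcol p hp
      · rw [hp.1]; exact hcol v hvB)
    ⟨Q, by
      intro p hp
      rcases hp with hp | hp
      · exact hQ p hp
      · rw [hp.1]; exact hQ v hvB⟩
    (by
      intro p hp hpx
      have h1 : c (ix σ p) ≤ p.1 := (hA.2.2 p hp).1
      rwa [hpx] at h1)
    (by
      intro p hp hpx
      rcases hp with hp | hp
      · have h1 : c (ix σ p) ≤ p.1 := hB.2.2 p hp
        rwa [hpx] at h1
      · rw [hp.1]
        exact hxv p.2 hp.2 (by rw [← hp.1]; exact hpx))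
  rcases hp' with hp' | hp'
  · exact ⟨p, hp', hp⟩
  · exfalso
    have h1 := (hA.2.2 p hp).2
    apply hv p.2 hp'.2
    rw [← hp'.1]
    exact h1

/-- The first vertex of a list outside a set is at most one column to the right of the set. -/
theorem col_first {S : Set V} {x y : V} {D : Set V} {n₁ : List V} {v : V} (h : IsW D x y (n₁ ++ [v]))
    (hc : cost w (n₁ ++ [v]) ≠ ⊤) (hx : x ∈ S) (hn : ∀ z ∈ n₁, z ∈ S) (hv : v ∉ S) {q : ℤ}
    (hq : ∀ z ∈ n₁, z ∈ S → z.1 + 1 < q) : v.1 < q := by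
  rcases n₁.eq_nil_or_concat with rfl | ⟨n₀, z, rfl⟩
  · have := h.1
    simp at this
    exact absurd (this ▸ hx) hv
  · have hz := hq z (by simp) (hn z (by simp))
    have e3 : (n₀.concat z) ++ [v] = n₀ ++ z :: [v] := by simp
    rw [e3, cost_append] at hc
    have hst : step w z v ≠ ⊤ := by
      intro h'
      apply hc
      rw [cost_cons_cons, h', top_add, add_top]
    have hadj := adj_of_step_ne_top hst
    obtain ⟨z1, z2⟩ := z
    obtain ⟨v1, v2⟩ := v
    unfold Adj at hadj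
    simp only [Prod.mk.injEq] at hadj
    simp only at hz ⊢
    omega

/-- CROSS DOMINATION: increments of the upper wall (target `t₂`) are at most those of the lower wall
(target `t₁`), if the intersection of the two half planes is to the left of both targets. -/
theorem wall_cross (hσ : σ = 0 ∨ σ = 1) (hu : 0 < u.1) (hu' : 0 < u'.1) {x x' : ℤ} (hx : x ≤ x')
    {t₁ t₂ : V} (ht₂ : t₂ ∉ Wlo σ u' L')
    (hcol : ∀ p ∈ Wlo σ u' L', p ∈ Wup σ u L → p.1 + 1 < t₁.1 ∧ p.1 + 1 < t₂.1)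
    (hx'lo : pt σ c x' ∈ Wlo σ u' L') (hxup : pt σ c x ∈ Wup σ u L)
    (hxc : ∀ v ∈ reg σ c, x ≤ ix σ v → v.1 < c x → v ∈ Wlo σ u' L')
    (hxc' : ∀ v ∈ reg σ c, ix σ v ≤ x' → v.1 < c x' → v ∈ Wup σ u L) :
    TI w σ (Wlo σ u' L') c x' t₁ + TI w σ (Wup σ u L) c x t₂ ≤
      TI w σ (Wup σ u L) c x' t₂ + TI w σ (Wlo σ u' L') c x t₁ := by
  unfold TI
  rcases hx.eq_or_lt with rfl | hx
  · rw [add_comm]
  apply exchange
  intro A B hA hcA hB hcB
  -- heads of `A` stay above the lower wall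
  have headA : ∀ l₁ l₂, A = l₁ ++ l₂ → (∀ v ∈ l₁, v ∉ B) → ∀ v ∈ l₁, v ∈ Wlo σ u' L' := by
    rintro l₁ l₂ rfl hdis v₀ hv₀
    by_contra hv₀W
    obtain ⟨n₁, v, n₂, rfl, hv, hn₁⟩ := exists_first (P := fun v => v ∉ Wlo σ u' L') ⟨v₀, hv₀, hv₀W⟩
    have hn₁' : ∀ z ∈ n₁, z ∈ Wlo σ u' L' := fun z hz => not_not.1 (hn₁ z hz)
    have e : (n₁ ++ v :: n₂) ++ l₂ = n₁ ++ v :: (n₂ ++ l₂) := by simp
    have hA' : IsW (reg σ c ∩ Wup σ u L) (pt σ c x') v (n₁ ++ [v]) := by rw [e] at hA; exact hA.pre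
    have hcA' : cost w (n₁ ++ [v]) ≠ ⊤ := by rw [e] at hcA; exact cost_prefix_ne_top hcA
    have hvcol : v.1 < t₁.1 := col_first hA' hcA' hx'lo hn₁' hv fun z hz hzW =>
      (hcol z hzW (hA'.2.2 z (by simp [hz])).2).1
    obtain ⟨q, hq, hq'⟩ := wlo_core hσ hx hB hcB (hA'.mono Set.inter_subset_left) hcA'
      (fun r hr => not_wlo_down (b := v.2) hu' hv hr.le)
      (by
        intro p hp
        rw [List.mem_append] at hp
        rcases hp with hp | hp
        · have := (hcol p (hn₁' p hp) (hA'.2.2 p (by simp [hp])).2).1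
          omega
        · simp at hp; rw [hp]; exact hvcol)
      (by
        intro r hr hrx
        by_contra hlt
        push Not at hlt
        apply hv
        refine hxc v (hA'.2.2 v (by simp)).1 ?_ hlt
        rw [← hrx]
        unfold ix
        simp only; omega)
    exact hdis q (by simp at hq ⊢; tauto) hq'
  have headB : ∀ l₁ l₂, B = l₁ ++ l₂ → (∀ v ∈ l₁, v ∉ A) → ∀ v ∈ l₁, v ∈ Wup σ u L := by
    rintro l₁ l₂ rfl hdis v₀ hv₀
    by_contra hv₀W
    obtain ⟨n₁, v, n₂, rfl, hv, hn₁⟩ := exists_first (P := fun v => v ∉ Wup σ u L) ⟨v₀, hv₀, hv₀W⟩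
    have hn₁' : ∀ z ∈ n₁, z ∈ Wup σ u L := fun z hz => not_not.1 (hn₁ z hz)
    have e : (n₁ ++ v :: n₂) ++ l₂ = n₁ ++ v :: (n₂ ++ l₂) := by simp
    have hB' : IsW (reg σ c ∩ Wlo σ u' L') (pt σ c x) v (n₁ ++ [v]) := by rw [e] at hB; exact hB.pre
    have hcB' : cost w (n₁ ++ [v]) ≠ ⊤ := by rw [e] at hcB; exact cost_prefix_ne_top hcB
    have hvcol : v.1 < t₂.1 := col_first hB' hcB' hxup hn₁' hv fun z hz hzW =>
      (hcol z (hB'.2.2 z (by simp [hz])).2 hzW).2
    obtain ⟨q, hq, hq'⟩ := wup_core hσ hx hA hcA (hB'.mono Set.inter_subset_left) hcB'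
      (fun r hr => not_wup_up (b := v.2) hu hv hr.le)
      (by
        intro p hp
        rw [List.mem_append] at hp
        rcases hp with hp | hp
        · have := (hcol p (hB'.2.2 p (by simp [hp])).2 (hn₁' p hp)).2
          omega
        · simp at hp; rw [hp]; exact hvcol)
      (by
        intro r hr hrx
        by_contra hlt
        push Not at hlt
        apply hv
        refine hxc' v (hB'.2.2 v (by simp)).1 ?_ hlt
        rw [← hrx]
        unfold ix
        simp only; omega)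
    exact hdis q (by simp at hq ⊢; tauto) hq'
  refine ⟨?_, ?_, ?_⟩
  · by_contra hcon
    push Not at hcon
    have h1 := headA A [] (by simp) hcon t₂ (by obtain ⟨a, rfl⟩ := hA.eq_concat; simp)
    exact ht₂ h1
  · intro l₁ p l₂ hl hdis v hv
    exact ⟨(hA.2.2 v (by rw [hl]; simp [hv])).1, headA l₁ (p :: l₂) hl hdis v hv⟩
  · intro l₁ p l₂ hl hdis v hv
    exact ⟨(hB.2.2 v (by rw [hl]; simp [hv])).1, headB l₁ (p :: l₂) hl hdis v hv⟩

end cross

end C7
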