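import Pool.Agent.Lib.MP_c725eb_pr.Exch

/-!
# Lower walls: monotonicity in the target and domination of all lower targets
-/

set_option autoImplicit false

namespace C7

open scoped ENNReal

/-- Real form of an exchange inequality. -/
theorem toReal_exchange {a b c d : ℝ≥0∞} (h : a + b ≤ c + d) (hc : c ≠ ⊤) (hd : d ≠ ⊤) :
    b.toReal - c.toReal ≤ d.toReal - a.toReal := by
  have ht : c + d ≠ ⊤ := ENNReal.add_ne_top.2 ⟨hc, hd⟩
  have hab := ne_top_of_le_ne_top ht h
  have ha := (ENNReal.add_ne_top.1 hab).1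
  have hb := (ENNReal.add_ne_top.1 hab).2
  have := ENNReal.toReal_mono ht h
  rw [ENNReal.toReal_add ha hb, ENNReal.toReal_add hc hd] at this
  linarith

section lower

variable {σ : ℤ} {w : W} {c d : ℤ → ℤ} {u : V} {L : ℤ}

theorem wlo_up (hu : 0 < u.1) {a b r : ℤ} (h : (a, b) ∈ Wlo σ u L) (hr : b ≤ r) : (a, r) ∈ Wlo σ u L := by
  change -(L * ln σ u) ≤ det u (a, r)
  have h1 : -(L * ln σ u) ≤ det u (a, b) := h
  refine h1.trans ?_
  unfold det
  simp only
  nlinarith

theorem not_wlo_down (hu : 0 < u.1) {a b r : ℤ} (h : (a, b) ∉ Wlo σ u L) (hr : r ≤ b) :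
    (a, r) ∉ Wlo σ u L := fun h' => h (wlo_up hu h' hr)

theorem not_wlo_below_tlo (hu : 0 < u.1) {m r : ℤ} (hr : r < (tlo σ u L m).2) :
    ((tlo σ u L m).1, r) ∉ Wlo σ u L := by
  intro h
  have h1 : -(L * ln σ u) ≤ det u ((tlo σ u L m).1, r) := h
  rw [← det_tlo σ u L m] at h1
  unfold det at h1
  simp only at h1
  nlinarith

/-- A walk above the wall from the lower point meets a walk from the higher point which ends at the
wall or below it (the first walk ends to the right of the second one). -/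
theorem wlo_core (hσ : σ = 0 ∨ σ = 1) {x x' : ℤ} (hx : x < x') {A B : List V} {v t : V}
    (hB : IsW (reg σ c ∩ Wlo σ u L) (pt σ c x) t B) (hcB : cost w B ≠ ⊤)
    (hA : IsW (reg σ c) (pt σ c x') v A) (hcA : cost w A ≠ ⊤)
    (hv : ∀ r, r < v.2 → (v.1, r) ∉ Wlo σ u L) (hcol : ∀ p ∈ A, p.1 < t.1)
    (hxv : ∀ r, r < v.2 → ix σ (v.1, r) = x → c x ≤ v.1) : ∃ p ∈ A, p ∈ B := by
  obtain ⟨Q, hQ⟩ := exists_le_fst A
  have hvA : v ∈ A := by obtain ⟨a, rfl⟩ := hA.eq_concat; simp
  have hxA : pt σ c x' ∈ A := by obtain ⟨a, rfl⟩ := hA.eq_cons; simp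
  have hxB : pt σ c x ∈ B := by obtain ⟨a, rfl⟩ := hB.eq_cons; simp
  obtain ⟨p, hp, hp'⟩ := cross_bot hσ (c := c) hx (SA := {p | p ∈ B})
    (SB := {p | p ∈ A} ∪ {p | p.1 = v.1 ∧ p.2 < v.2}) (t := t) (hB.conn hcB) hxB (Or.inl hxA) (by
      intro R
      have h1 : Conn ({p | p ∈ A} ∪ {p | p.1 = v.1 ∧ p.2 < v.2}) (pt σ c x') v :=
        (hA.conn hcA).mono fun p hp => Or.inl hp
      refine ⟨(v.1, min (R - 1) v.2), by simp only; omega, h1.trans ?_⟩
      apply conn_down (min_le_right _ _)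
      intro q h1 h2 h3
      rcases h3.eq_or_lt with h3 | h3
      · left
        rw [show q = v from Prod.ext h1 h3]
        exact hvA
      · exact Or.inr ⟨h1, h3⟩)
    (hcol _ hxA) (by
      intro p hp
      rcases hp with hp | hp
      · exact hcol p hp
      · rw [hp.1]; exact hcol v hvA)
    ⟨Q, by
      intro p hp
      rcases hp with hp | hp
      · exact hQ p hp
      · rw [hp.1]; exact hQ v hvA⟩
    (by
      intro p hp hpx
      have h1 : c (ix σ p) ≤ p.1 := (hB.2.2 p hp).1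
      rwa [hpx] at h1)
    (by
      intro p hp hpx
      rcases hp with hp | hp
      · have h1 : c (ix σ p) ≤ p.1 := hA.2.2 p hp
        rwa [hpx] at h1
      · rw [hp.1]
        exact hxv p.2 hp.2 (by rw [← hp.1]; exact hpx))
  rcases hp' with hp' | hp'
  · exact ⟨p, hp', hp⟩
  · exfalso
    have h1 := (hB.2.2 p hp).2
    apply hv p.2 hp'.2
    rw [← hp'.1]
    exact h1

/-- The head of a walk before its first common vertex with a walk above the wall stays above the wall. -/
theorem wlo_head (hσ : σ = 0 ∨ σ = 1) (hu : 0 < u.1) {x x' : ℤ} (hx : x < x') {E : Set V} {A B : List V} {t t' : V}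
    (hB : IsW (reg σ c ∩ Wlo σ u L) (pt σ c x) t B) (hcB : cost w B ≠ ⊤)
    (hA : IsW (reg σ c ∩ E) (pt σ c x') t' A) (hcA : cost w A ≠ ⊤)
    (hcol : ∀ p ∈ A, p.1 < t.1)
    (hxc : ∀ v ∈ reg σ c, x ≤ ix σ v → v.1 < c x → v ∈ Wlo σ u L) :
    ∀ l₁ p l₂, A = l₁ ++ p :: l₂ → (∀ v ∈ l₁, v ∉ B) → ∀ v ∈ l₁, v ∈ Wlo σ u L := by
  rintro l₁ p l₂ rfl hdis v hv
  by_contra hvW
  obtain ⟨m₁, m₂, rfl⟩ := exists_prefix hv
  have e : (m₁ ++ v :: m₂) ++ p :: l₂ = m₁ ++ v :: (m₂ ++ p :: l₂) := by simp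
  rw [e] at hA hcA hcol
  have hA' : IsW (reg σ c) (pt σ c x') v (m₁ ++ [v]) := hA.pre.mono Set.inter_subset_left
  obtain ⟨q, hq, hq'⟩ := wlo_core hσ hx hB hcB hA' (cost_prefix_ne_top hcA)
    (fun r hr => not_wlo_down (b := v.2) hu hvW hr.le)
    (fun p hp => hcol p (by simp at hp ⊢; tauto))
    (by
      intro r hr hrx
      by_contra hlt
      push Not at hlt
      apply hvW
      refine hxc v (hA'.2.2 v (by simp)) ?_ hlt
      rw [← hrx]
      unfold ix
      simp only; omega)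
  exact hdis q (by simp at hq ⊢; tauto) hq'

/-- DOMINATION with one given walk: an environment `E ⊇ Wlo`, a target `t₂` at the wall or below it,
a target `t₁` of the wall domain far to the right. -/
theorem wlo_dom_fix (hσ : σ = 0 ∨ σ = 1) (hu : 0 < u.1) {x x' : ℤ} (hx : x ≤ x') {E : Set V}
    (hE : Wlo σ u L ⊆ E) {A : List V} {t₁ t₂ : V}
    (hA : IsW (reg σ c ∩ E) (pt σ c x') t₂ A) (hcA : cost w A ≠ ⊤)
    (ht₂ : ∀ r, r < t₂.2 → (t₂.1, r) ∉ Wlo σ u L) (hxt : c x ≤ t₂.1 ∨ t₂ ∉ Wlo σ u L)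
    (hcol : ∀ p ∈ A, p.1 < t₁.1)
    (hxc : ∀ v ∈ reg σ c, x ≤ ix σ v → v.1 < c x → v ∈ Wlo σ u L) :
    TI w σ (Wlo σ u L) c x' t₁ + TI w σ E c x t₂ ≤ cost w A + TI w σ (Wlo σ u L) c x t₁ := by
  unfold TI
  rcases hx.eq_or_lt with rfl | hx
  · rw [add_comm]
    exact add_le_add (T_le hA) le_rfl
  apply exchange_fix hA
  intro B hB hcB
  refine ⟨?_, ?_, ?_⟩
  · refine wlo_core hσ hx hB hcB (hA.mono Set.inter_subset_left) hcA ht₂ hcol ?_
    intro r hr hrx
    rcases hxt with h | h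
    · exact h
    · by_contra hlt
      push Not at hlt
      apply h
      refine hxc t₂ hA.right_mem.1 ?_ hlt
      rw [← hrx]
      unfold ix
      simp only; omega
  · intro l₁ p l₂ hl hdis v hv
    exact ⟨(hA.2.2 v (by rw [hl]; simp [hv])).1, wlo_head hσ hu hx hB hcB hA hcA hcol hxc l₁ p l₂ hl hdis v hv⟩
  · rintro l₁ p l₂ rfl _ v hv
    have := hB.2.2 v (by simp [hv])
    exact ⟨this.1, hE this.2⟩

/-- MONOTONICITY of the wall increments in the target. -/
theorem wlo_mono (hσ : σ = 0 ∨ σ = 1) (hu : 0 < u.1) {x x' m m' : ℤ} (hx : x ≤ x') (hm : m ≤ m')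
    (hcx : c x ≤ (tlo σ u L m).1) (hcx' : c x' ≤ (tlo σ u L m).1) :
    TI w σ (Wlo σ u L) c x' (tlo σ u L m') + TI w σ (Wlo σ u L) c x (tlo σ u L m) ≤
      TI w σ (Wlo σ u L) c x' (tlo σ u L m) + TI w σ (Wlo σ u L) c x (tlo σ u L m') := by
  unfold TI
  apply exchange_same
  intro A B hA hcA hB hcB
  have hxA : pt σ c x' ∈ A := by obtain ⟨a, rfl⟩ := hA.eq_cons; simp
  have hxB : pt σ c x ∈ B := by obtain ⟨a, rfl⟩ := hB.eq_cons; simp
  have htA : tlo σ u L m ∈ A := by obtain ⟨a, rfl⟩ := hA.eq_concat; simp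
  have htB : tlo σ u L m' ∈ B := by obtain ⟨a, rfl⟩ := hB.eq_concat; simp
  rcases hx.eq_or_lt with rfl | hx
  · exact ⟨_, hxA, hxB⟩
  rcases hm.eq_or_lt with rfl | hm
  · exact ⟨_, htA, htB⟩
  have htt : (tlo σ u L m).1 < (tlo σ u L m').1 := by
    unfold tlo; simp only; nlinarith
  obtain ⟨Q1, hQ1⟩ := exists_fst_le A
  obtain ⟨Q2, hQ2⟩ := exists_le_fst A
  obtain ⟨R1, hR1⟩ := exists_le_snd A
  obtain ⟨q, hq1, hq2⟩ : ∃ q : ℤ, Q1 < q ∧ (tlo σ u L m').1 < q :=
    ⟨max (Q1 + 1) ((tlo σ u L m').1 + 1), by omega, by omega⟩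
  obtain ⟨r, hr1, hr2, hr3⟩ : ∃ r : ℤ, r < R1 ∧ r < (tlo σ u L m').2 ∧ r < (tlo σ u L m).2 :=
    ⟨min (R1 - 1) (min ((tlo σ u L m').2 - 1) ((tlo σ u L m).2 - 1)), by omega, by omega, by omega⟩
  obtain ⟨p, hp, hp'⟩ := cross_bot hσ (c := c) hx
    (SA := {p | p ∈ B} ∪ ({p | p.1 = (tlo σ u L m').1 ∧ p.2 < (tlo σ u L m').2} ∪
      {p | (tlo σ u L m').1 ≤ p.1 ∧ p.2 = r}))
    (SB := {p | p ∈ A} ∪ {p | p.1 = (tlo σ u L m).1 ∧ p.2 < (tlo σ u L m).2}) (t := (q, r))
    (by
      have h1 : Conn ({p | p ∈ B} ∪ ({p | p.1 = (tlo σ u L m').1 ∧ p.2 < (tlo σ u L m').2} ∪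
          {p | (tlo σ u L m').1 ≤ p.1 ∧ p.2 = r})) (pt σ c x) (tlo σ u L m') :=
        (hB.conn hcB).mono fun p hp => Or.inl hp
      have h2 : Conn ({p | p ∈ B} ∪ ({p | p.1 = (tlo σ u L m').1 ∧ p.2 < (tlo σ u L m').2} ∪
          {p | (tlo σ u L m').1 ≤ p.1 ∧ p.2 = r})) (tlo σ u L m') ((tlo σ u L m').1, r) := by
        apply conn_down hr2.le
        intro z h1 h2 h3
        rcases h3.eq_or_lt with h3 | h3
        · left
          rw [show z = tlo σ u L m' from Prod.ext h1 h3]
          exact htB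
        · exact Or.inr (Or.inl ⟨h1, h3⟩)
      refine (h1.trans h2).trans ?_
      exact conn_hor (u := ((tlo σ u L m').1, r)) (by simp only; omega) fun z h1 h2 _ => Or.inr (Or.inr ⟨h2, h1⟩))
    (Or.inl hxB) (Or.inl hxA)
    (by
      intro R
      have h1 : Conn ({p | p ∈ A} ∪ {p | p.1 = (tlo σ u L m).1 ∧ p.2 < (tlo σ u L m).2}) (pt σ c x')
        (tlo σ u L m) := (hA.conn hcA).mono fun p hp => Or.inl hp
      refine ⟨((tlo σ u L m).1, min (R - 1) (tlo σ u L m).2), by simp only; omega, h1.trans ?_⟩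
      apply conn_down (min_le_right _ _)
      intro z h1 h2 h3
      rcases h3.eq_or_lt with h3 | h3
      · left
        rw [show z = tlo σ u L m from Prod.ext h1 h3]
        exact htA
      · exact Or.inr ⟨h1, h3⟩)
    (by simp only; omega)
    (by
      intro p hp
      rcases hp with hp | hp
      · have := hQ1 p hp; simp only; omega
      · have := hp.1; simp only; omega)
    ⟨min Q2 (tlo σ u L m).1, by
      intro p hp
      rcases hp with hp | hp
      · have := hQ2 p hp; omega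
      · have := hp.1; omega⟩
    (by
      intro p hp hpx
      rcases hp with hp | hp | hp
      · have h1 : c (ix σ p) ≤ p.1 := (hB.2.2 p hp).1
        rwa [hpx] at h1
      · have := hp.1; omega
      · have := hp.1; omega)
    (by
      intro p hp hpx
      rcases hp with hp | hp
      · have h1 : c (ix σ p) ≤ p.1 := (hA.2.2 p hp).1
        rwa [hpx] at h1
      · have := hp.1; omega)
  rcases hp with hp | hp | hp
  · rcases hp' with hp' | hp'
    · exact ⟨p, hp', hp⟩
    · exfalso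
      have h1 := (hB.2.2 p hp).2
      apply not_wlo_below_tlo (σ := σ) (L := L) hu hp'.2
      rw [← hp'.1]
      exact h1
  · rcases hp' with hp' | hp'
    · exfalso
      have h1 := (hA.2.2 p hp').2
      apply not_wlo_below_tlo (σ := σ) (L := L) hu hp.2
      rw [← hp.1]
      exact h1
    · exfalso
      have h1 := hp.1
      have h2 := hp'.1
      omega
  · rcases hp' with hp' | hp'
    · exfalso
      have h1 := hR1 p hp'
      have h2 := hp.2
      omega
    · exfalso
      have h1 := hp.1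
      have h2 := hp'.1
      omega

/-- DOMINATION in strips with one given walk: `t₂ = pt σ d h` at the wall or below it; vertices of the
wall domain just to the right of the curve `d` have index above `h`. -/
theorem wlo_dom_strip_fix (hσ : σ = 0 ∨ σ = 1) (hu : 0 < u.1) (hd : Stp σ d) (hw : ∀ v, w v 2 = ⊤)
    {x x' h : ℤ} (hx : x ≤ x') {A : List V} {t₁ : V}
    (hA : IsW (reg σ c ∩ lft σ d) (pt σ c x') (pt σ d h) A) (hcA : cost w A ≠ ⊤)
    (ht₂ : ∀ r, r < (pt σ d h).2 → ((pt σ d h).1, r) ∉ Wlo σ u L)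
    (hxt : c x ≤ d h ∨ pt σ d h ∉ Wlo σ u L)
    (hcol : ∀ p ∈ A, p.1 < t₁.1) (hxd : pt σ c x ∈ lft σ d)
    (hxc : ∀ v ∈ reg σ c, x ≤ ix σ v → v.1 < c x → v ∈ Wlo σ u L)
    (hr : ∀ v ∈ Wlo σ u L, d (ix σ v) < v.1 → v.1 ≤ d (ix σ v) + 2 → h < ix σ v) :
    TI w σ (Wlo σ u L) c x' t₁ + TI w σ (lft σ d) c x (pt σ d h) ≤
      cost w A + TI w σ (Wlo σ u L) c x t₁ := by
  unfold TI
  rcases hx.eq_or_lt with rfl | hx
  · rw [add_comm]
    exact add_le_add (T_le hA) le_rfl
  apply exchange_fix hA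
  intro B hB hcB
  have hxA : pt σ c x' ∈ A := by obtain ⟨a, rfl⟩ := hA.eq_cons; simp
  have htA : pt σ d h ∈ A := by obtain ⟨a, rfl⟩ := hA.eq_concat; simp
  refine ⟨?_, ?_, ?_⟩
  · refine wlo_core hσ hx hB hcB (hA.mono Set.inter_subset_left) hcA ht₂ hcol ?_
    intro r hr hrx
    rcases hxt with h1 | h1
    · exact h1
    · by_contra hlt
      push Not at hlt
      apply h1
      refine hxc _ hA.right_mem.1 ?_ hlt
      rw [← hrx]
      unfold ix
      simp only at hr ⊢; omega
  · intro l₁ p l₂ hl hdis v hv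
    exact ⟨(hA.2.2 v (by rw [hl]; simp [hv])).1, wlo_head hσ hu hx hB hcB hA hcA hcol hxc l₁ p l₂ hl hdis v hv⟩
  · rintro l₁ p l₂ rfl hdis v₀ hv₀
    refine ⟨(hB.2.2 v₀ (by simp [hv₀])).1, ?_⟩
    by_contra hv₀d
    -- the first vertex outside the strip
    obtain ⟨n₁, v, n₂, rfl, hv, hn₁⟩ := exists_first (P := fun v => v ∉ lft σ d) ⟨v₀, hv₀, hv₀d⟩
    have hn₁' : ∀ z ∈ n₁, z ∈ lft σ d := fun z hz => not_not.1 (hn₁ z hz)
    have e : (n₁ ++ v :: n₂) ++ p :: l₂ = n₁ ++ v :: (n₂ ++ p :: l₂) := by simp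
    have hB' : IsW (reg σ c ∩ Wlo σ u L) (pt σ c x) v (n₁ ++ [v]) := by rw [e] at hB; exact hB.pre
    have hcB' : cost w (n₁ ++ [v]) ≠ ⊤ := by rw [e] at hcB; exact cost_prefix_ne_top hcB
    have hdis' : ∀ z ∈ n₁ ++ [v], z ∉ A := fun z hz => hdis z (by simp at hz ⊢; tauto)
    have hvd : d (ix σ v) < v.1 := not_le.1 hv
    have hvd2 : v.1 ≤ d (ix σ v) + 2 := by
      -- the previous vertex is in the strip
      rcases n₁.eq_nil_or_concat with rfl | ⟨n₀, z, rfl⟩
      · have := hB'.1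
        simp at this
        exact absurd (this ▸ hxd) hv
      · have hz := hn₁' z (by simp)
        have hz1 : z.1 ≤ d (ix σ z) := hz
        have hst : step w z v ≠ ⊤ := by
          have e3 : (n₀.concat z) ++ [v] = n₀ ++ z :: [v] := by simp
          rw [e3, cost_append] at hcB'
          intro h'
          apply hcB'
          rw [cost_cons_cons, h', top_add, add_top]
        have hnb := nb_of_step_ne_top hw hst
        obtain ⟨z1, z2⟩ := z
        obtain ⟨v1, v2⟩ := v
        unfold ix at hz1 ⊢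
        simp only at hz1 ⊢
        rcases hσ with rfl | rfl
        · simp only [zero_mul, sub_zero] at hz1 ⊢
          rcases hnb with e | e | e | e <;> simp only [Prod.mk.injEq] at e
          · rw [e.2]; omega
          · rw [← e.2]; omega
          · have := hd z2
            rw [e.2]; omega
          · have := hd v2
            rw [e.2] at hz1; omega
        · simp only [one_mul] at hz1 ⊢
          rcases hnb with e | e | e | e <;> simp only [Prod.mk.injEq] at e
          · have := hd (z2 - z1 - 1)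
            rw [sub_add_cancel] at this
            have e5 : v2 - v1 = z2 - z1 - 1 := by omega
            rw [e5]; omega
          · have := hd (v2 - v1 - 1)
            rw [sub_add_cancel] at this
            have e5 : z2 - z1 = v2 - v1 - 1 := by omega
            rw [e5] at hz1; omega
          · have := hd (z2 - z1)
            have e5 : v2 - v1 = z2 - z1 + 1 := by omega
            rw [e5]; omega
          · have := hd (v2 - v1)
            have e5 : z2 - z1 = v2 - v1 + 1 := by omega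
            rw [e5] at hz1; omega
    have hvW : v ∈ Wlo σ u L := (hB'.2.2 v (by simp)).2
    have hhv := hr v hvW hvd hvd2
    obtain ⟨Q1, hQ1⟩ := exists_fst_le A
    obtain ⟨Q2, hQ2⟩ := exists_fst_le (n₁ ++ [v])
    obtain ⟨Q3, hQ3⟩ := exists_le_fst A
    obtain ⟨q, hq1, hq2, hq3, hq4⟩ : ∃ q : ℤ, Q1 < q ∧ Q2 < q ∧ c x' < q ∧ c x < q :=
      ⟨max (max (Q1 + 1) (Q2 + 1)) (max (c x' + 1) (c x + 1)), by omega, by omega, by omega, by omega⟩
    have hdh : d h < q := by
      have := hQ1 _ htA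
      have e : (pt σ d h).1 = d h := rfl
      omega
    have hvq : v.1 < q := by
      have := hQ2 v (by simp)
      omega
    have hch : c h ≤ d h := by
      have h2 : c (ix σ (pt σ d h)) ≤ (pt σ d h).1 := hA.right_mem.1
      rw [ix_pt] at h2
      exact h2
    obtain ⟨z, hz, hz'⟩ := cross_bot hσ (c := c) hx
      (SA := {p | p ∈ n₁ ++ [v]} ∪ {p | ix σ p = ix σ v ∧ v.1 ≤ p.1})
      (SB := {p | p ∈ A} ∪ ({p | ix σ p = h ∧ d h ≤ p.1 ∧ p.1 ≤ q} ∪ {p | p.1 = q ∧ ix σ p ≤ h}))
      (t := (q + 1, σ * (q + 1) + ix σ v))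
      (by
        have h1 : Conn ({p | p ∈ n₁ ++ [v]} ∪ {p | ix σ p = ix σ v ∧ v.1 ≤ p.1}) (pt σ c x) v :=
          (hB'.conn hcB').mono fun p hp => Or.inl hp
        exact h1.trans (conn_right hσ (by omega) fun z h1 h2 _ => Or.inr ⟨h1, h2⟩))
      (by left; obtain ⟨a, ha⟩ := hB'.eq_cons; change pt σ c x ∈ n₁ ++ [v]; rw [ha]; simp)
      (Or.inl hxA)
      (by
        intro R
        have h1 : Conn ({p | p ∈ A} ∪ ({p | ix σ p = h ∧ d h ≤ p.1 ∧ p.1 ≤ q} ∪ {p | p.1 = q ∧ ix σ p ≤ h}))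
          (pt σ c x') (pt σ d h) := (hA.conn hcA).mono fun p hp => Or.inl hp
        have h2 : Conn ({p | p ∈ A} ∪ ({p | ix σ p = h ∧ d h ≤ p.1 ∧ p.1 ≤ q} ∪ {p | p.1 = q ∧ ix σ p ≤ h}))
            (pt σ d h) (q, σ * q + ix σ (pt σ d h)) := by
          apply conn_right hσ
          · have e : (pt σ d h).1 = d h := rfl
            omega
          · intro v h1 h2 h3
            rw [ix_pt] at h1
            exact Or.inr (Or.inl ⟨h1, h2, h3⟩)
        rw [ix_pt] at h2
        have h3 : Conn ({p | p ∈ A} ∪ ({p | ix σ p = h ∧ d h ≤ p.1 ∧ p.1 ≤ q} ∪ {p | p.1 = q ∧ ix σ p ≤ h}))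
            (q, σ * q + h) (q, min (R - 1) (σ * q + h)) := by
          apply conn_down (u := (q, σ * q + h)) (min_le_right _ _)
          intro v h1 h2 h3
          right; right
          refine ⟨h1, ?_⟩
          simp only at h1 h3
          unfold ix
          rw [h1]; omega
        exact ⟨_, by simp only; omega, h1.trans (h2.trans h3)⟩)
      (by simp only; omega)
      (by
        intro p hp
        rcases hp with hp | hp | hp
        · have := hQ1 p hp; simp only; omega
        · have := hp.2.2; simp only; omega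
        · have h1 : p.1 = q := hp.1; simp only; omega)
      ⟨min Q3 (min (d h) q), by
        intro p hp
        rcases hp with hp | hp | hp
        · have := hQ3 p hp; omega
        · have := hp.2.1; omega
        · have h1 : p.1 = q := hp.1; omega⟩
      (by
        intro p hp hpx
        rcases hp with hp | hp
        · have h1 : c (ix σ p) ≤ p.1 := (hB'.2.2 p hp).1
          rwa [hpx] at h1
        · have h1 : c (ix σ v) ≤ v.1 := (hB'.2.2 v (by simp)).1
          have h2 := hp.2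
          rw [← hp.1, hpx] at h1
          omega)
      (by
        intro p hp hpx
        rcases hp with hp | hp | hp
        · have h1 : c (ix σ p) ≤ p.1 := (hA.2.2 p hp).1
          rwa [hpx] at h1
        · have h1 := hp.1
          have h2 := hp.2.1
          have h3 : h = x := by rw [← h1, hpx]
          subst h3
          omega
        · have h1 : p.1 = q := hp.1
          omega)
    rcases hz with hz | hz
    · rcases hz' with hz' | hz' | hz'
      · exact hdis' z hz hz'
      · have hzz : z ∈ n₁ ++ [v] := hz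
        rw [List.mem_append] at hzz
        rcases hzz with hz2 | hz2
        · have h1 : z.1 ≤ d (ix σ z) := hn₁' z hz2
          rw [hz'.1] at h1
          have e : z = pt σ d h := by
            have h2 : z.1 = d (ix σ z) := by rw [hz'.1]; exact le_antisymm h1 hz'.2.1
            rw [eq_pt h2, hz'.1]
          exact hdis' z hz (e ▸ htA)
        · simp at hz2
          subst hz2
          have := hz'.1
          omega
      · have h1 := hQ2 z hz
        have h2 : z.1 = q := hz'.1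
        omega
    · rcases hz' with hz' | hz' | hz'
      · have h1 : z.1 ≤ d (ix σ z) := (hA.2.2 z hz').2
        rw [hz.1] at h1
        have := hz.2
        omega
      · have h1 := hz.1
        have h2 := hz'.1
        omega
      · have h1 := hz.1
        have h2 := hz'.2
        omega

end lower

end C7
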