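import Pool.Agent.Lib.MP_c725eb_pr.X
import Pool.Agent.Lib.MP_c725eb_pr.DomX
import Pool.Agent.Lib.MP_c725eb_pr.BCom
import Pool.Agent.Lib.MP_c725eb_pr.GenC

/-!
# The instance of Theorem X: strips, the classes `b` (slopes `0+`) and `a` (slopes `0-`)
-/

set_option autoImplicit false

namespace C7

open MeasureTheory Filter Set
open scoped ENNReal Topology
open FlowSys (av ln_av)

section choice

variable {F : Measure ℝ} [IsProbabilityMeasure F] {K : ℝ≥0∞} {σ : ℤ}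

theorem tendsto_lint_zero {f : ℕ → Om → ℝ} {C : ℝ} (hm : ∀ n, Measurable (f n))
    (hb : ∀ n ω, |f n ω| ≤ C) (h : ∀ᵐ ω ∂(iid Ed F), Tendsto (fun n => f n ω) atTop (𝓝 0)) :
    Tendsto (fun n => ∫⁻ ω, ENNReal.ofReal (f n ω) ∂(iid Ed F)) atTop (𝓝 0) := by
  have h1 := tendsto_lintegral_of_dominated_convergence (μ := iid Ed F)
    (F := fun n ω => ENNReal.ofReal (f n ω)) (f := fun _ => (0 : ℝ≥0∞)) (fun _ => ENNReal.ofReal C)
    (fun n => (hm n).ennreal_ofReal)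
    (fun n => Eventually.of_forall fun ω => ENNReal.ofReal_le_ofReal ((le_abs_self _).trans (hb n ω)))
    (by rw [lintegral_const, measure_univ, mul_one]; exact ENNReal.ofReal_ne_top) (by
      filter_upwards [h] with ω hω
      have := ENNReal.tendsto_ofReal hω
      rwa [ENNReal.ofReal_zero] at this)
  rwa [lintegral_zero] at h1

theorem exists_gup_near (hK : SmallK F K) (hσ : σ = 0 ∨ σ = 1) (r : ℕ) : ∃ L : ℕ,
    ∀ i ∈ ({0, 1} : Finset ℤ), ∫⁻ ω, ENNReal.ofReal (Gup σ K (ub r) i (wt ω) - gup σ K (ub r) L i (wt ω))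
      ∂(iid Ed F) ≤ ENNReal.ofReal (1 / ((r : ℝ) + 1)) := by
  have h1 : ∀ᶠ L : ℕ in atTop, ∀ i ∈ ({0, 1} : Finset ℤ),
      ∫⁻ ω, ENNReal.ofReal (Gup σ K (ub r) i (wt ω) - gup σ K (ub r) L i (wt ω)) ∂(iid Ed F) ≤
        ENNReal.ofReal (1 / ((r : ℝ) + 1)) := by
    rw [Filter.eventually_all_finset]
    intro i _
    refine (tendsto_lint_zero (C := 2 * K.toReal + 2 * K.toReal) (fun L =>
      (measurable_Gup_wt σ K (ub r) i).sub (measurable_gup measurable_wt3 σ K (ub r) L i))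
      (fun L ω => (abs_sub _ _).trans (add_le_add (abs_Gup_le _ _ _ _ _) (abs_gup_le _ _ _ _ _ _))) ?_
      ).eventually_le_const (ENNReal.ofReal_pos.2 (by positivity))
    filter_upwards [ae_nice (F := F) hK hσ] with ω hω
    have h2 := (tendsto_gup_L hσ hK.1 hω (dup_ub σ r) i).const_sub (Gup σ K (ub r) i (wt ω))
    rwa [sub_self] at h2
  exact h1.exists

theorem exists_glo_near (hK : SmallK F K) (hσ : σ = 0 ∨ σ = 1) (r : ℕ) : ∃ L : ℕ,
    ∀ i ∈ ({0, 1} : Finset ℤ), ∫⁻ ω, ENNReal.ofReal (glo σ K (ua r) L i (wt ω) - Glo σ K (ua r) i (wt ω))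
      ∂(iid Ed F) ≤ ENNReal.ofReal (1 / ((r : ℝ) + 1)) := by
  have h1 : ∀ᶠ L : ℕ in atTop, ∀ i ∈ ({0, 1} : Finset ℤ),
      ∫⁻ ω, ENNReal.ofReal (glo σ K (ua r) L i (wt ω) - Glo σ K (ua r) i (wt ω)) ∂(iid Ed F) ≤
        ENNReal.ofReal (1 / ((r : ℝ) + 1)) := by
    rw [Filter.eventually_all_finset]
    intro i _
    refine (tendsto_lint_zero (C := 2 * K.toReal + 2 * K.toReal) (fun L =>
      (measurable_glo measurable_wt3 σ K (ua r) L i).sub (measurable_Glo_wt σ K (ua r) i))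
      (fun L ω => (abs_sub _ _).trans (add_le_add (abs_glo_le _ _ _ _ _ _) (abs_Glo_le _ _ _ _ _))) ?_
      ).eventually_le_const (ENNReal.ofReal_pos.2 (by positivity))
    filter_upwards [ae_nice (F := F) hK hσ] with ω hω
    have h2 := (tendsto_glo_L hσ hK.1 hω (dlo_ua σ r) i).sub_const (Glo σ K (ua r) i (wt ω))
    rwa [sub_self] at h2
  exact h1.exists

/-- The environment of the upper wedge of the slope `1 / (r + 2)`. -/
noncomputable def Lu (hK : SmallK F K) (hσ : σ = 0 ∨ σ = 1) (r : ℕ) : ℕ :=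
  (exists_gup_near hK hσ r).choose

/-- The environment of the lower wedge of the slope `-1 / (r + 4)`. -/
noncomputable def Ll (hK : SmallK F K) (hσ : σ = 0 ∨ σ = 1) (r : ℕ) : ℕ :=
  (exists_glo_near hK hσ r).choose

theorem rr_mem (hσ : σ = 0 ∨ σ = 1) (k i : ℤ) : rr σ k i ∈ ({0, 1} : Finset ℤ) := by
  rcases rr_cases hσ k i with h | ⟨_, h⟩
  · rw [h]; simp
  · rw [h]; simp

/-- The mean of a nonnegative part of moved functionals. -/
theorem lint_mv (g g' : ℤ → W → ℝ) {M M' : ℝ} (hg : Adm g M) (hg' : Adm g' M') (l j : ℤ) :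
    ∫⁻ ω, ENNReal.ofReal (mv σ g l j (wt ω) - mv σ g' l j (wt ω)) ∂(iid Ed F) =
      ∫⁻ ω, ENNReal.ofReal (g (rr σ l j) (wt ω) - g' (rr σ l j) (wt ω)) ∂(iid Ed F) := by
  rw [← lintegral_shO (F := F) (f := fun ω => ENNReal.ofReal (g (rr σ l j) (wt ω) - g' (rr σ l j) (wt ω)))
    ((hg.measurable_wt _).sub (hg'.measurable_wt _)).ennreal_ofReal (ss σ l j)]
  refine lintegral_congr fun ω => ?_
  rw [wt_shO]
  rfl

theorem lint_cu_le (hK : SmallK F K) (hσ : σ = 0 ∨ σ = 1) (r : ℕ) (l j : ℤ) :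
    ∫⁻ ω, ENNReal.ofReal (mv σ (blo σ K) l j (wt ω) - mv σ (gup σ K (ub r) (Lu hK hσ r)) l j (wt ω))
      ∂(iid Ed F) ≤ ENNReal.ofReal (1 / ((r : ℝ) + 1)) := by
  rw [lint_mv _ _ (adm_blo σ K) (adm_gup σ K _ _)]
  refine le_trans (lintegral_mono_ae ?_) ((exists_gup_near hK hσ r).choose_spec (rr σ l j) (rr_mem hσ l j))
  filter_upwards [ae_blo_eq_bup (F := F) hK hσ] with ω hω
  refine ENNReal.ofReal_le_ofReal (sub_le_sub_right ?_ _)
  rw [hω]
  exact bup_le_Gup_ub r _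

theorem lint_cl_le (hK : SmallK F K) (hσ : σ = 0 ∨ σ = 1) (r : ℕ) (l j : ℤ) :
    ∫⁻ ω, ENNReal.ofReal (mv σ (glo σ K (ua r) (Ll hK hσ r)) l j (wt ω) - mv σ (alo σ K) l j (wt ω))
      ∂(iid Ed F) ≤ ENNReal.ofReal (1 / ((r : ℝ) + 1)) := by
  rw [lint_mv _ _ (adm_glo σ K _ _) (adm_alo σ K)]
  refine le_trans (lintegral_mono fun ω => ?_)
    ((exists_glo_near hK hσ r).choose_spec (rr σ l j) (rr_mem hσ l j))
  exact ENNReal.ofReal_le_ofReal (sub_le_sub_left (Glo_ua_le_alo r _) _)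

theorem tendsto_one_div_zero : Tendsto (fun r : ℕ => ENNReal.ofReal (1 / ((r : ℝ) + 1))) atTop (𝓝 0) := by
  have h := ENNReal.tendsto_ofReal (tendsto_one_div_add_atTop_nhds_zero_nat (𝕜 := ℝ))
  rwa [ENNReal.ofReal_zero] at h

end choice

/-! ### the instance -/

section inst

variable {σ : ℤ} {K : ℝ≥0∞} {F : Measure ℝ} [IsProbabilityMeasure F]

theorem ae_limUp (hK : SmallK F K) (hσ : σ = 0 ∨ σ = 1) {u : V} (hu : Dup σ u) (L : ℕ) :
    ∀ᵐ ω ∂(iid Ed F), LimUp σ K u L (wt ω) := by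
  filter_upwards [ae_nice (F := F) hK hσ] with ω hω i hi
  exact ⟨up_fin_ev hσ hK.1 hω hu hi, tendsto_gup hσ hK.1 hω hu hi⟩

theorem ae_limLo (hK : SmallK F K) (hσ : σ = 0 ∨ σ = 1) {u : V} (hu : Dlo σ u) (L : ℕ) :
    ∀ᵐ ω ∂(iid Ed F), LimLo σ K u L (wt ω) := by
  filter_upwards [ae_nice (F := F) hK hσ] with ω hω i hi
  exact ⟨lo_fin_ev hσ hK.1 hω hu hi, tendsto_glo hσ hK.1 hω hu hi⟩

theorem phG_sub_succ {g : ℤ → W → ℝ} {ω : Om} {l : ℤ} (h : Gd σ K (wt ω) l) (j : ℤ) :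
    phG σ K g ω l j - phG σ K g ω l (j + 1) = mv σ g l j (wt ω) := by
  rw [phG_of_gd h, phG_of_gd h]
  exact pot_sub_succ (fun i => mv σ g l i (wt ω)) j

/-- The hypotheses on the class `b` under which the instance exists. -/
structure XH (σ : ℤ) (K : ℝ≥0∞) (F : Measure ℝ) [IsProbabilityMeasure F] : Prop where
  hK : SmallK F K
  hσ : σ = 0 ∨ σ = 1
  hF : ∀ a, F {a} = 0
  hF0 : F (Iio 0) = 0
  gen : ∀ᵐ ω ∂(iid Ed F), GenG σ K (blo σ K) ω
  ev : |EV σ F (blo σ K)| < rho σ F K (vert σ)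

theorem ae_shift_cu (H : XH σ K F) (g : ℤ → W → ℝ) : ∀ᵐ ω ∂(iid Ed F), ∀ l j,
    phG σ K (blo σ K) (shO (-av σ) ω) l j - phG σ K (blo σ K) (shO (-av σ) ω) l (j + 1) -
      mv σ g l j (wt (shO (-av σ) ω)) =
    phG σ K (blo σ K) ω l (j - (1 + σ)) - phG σ K (blo σ K) ω l (j - (1 + σ) + 1) -
      mv σ g l (j - (1 + σ)) (wt ω) := by
  filter_upwards [H.gen, ae_shO (F := F) H.gen (-av σ)] with ω h h' l j
  have e1 : ln σ (-av σ) = 0 := by unfold ln av; simp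
  have e2 : ix σ (-av σ) = -(1 + σ) := by
    unfold ix av
    rcases H.hσ with rfl | rfl <;> simp
  rw [phG_sub_succ (h'.gd l), phG_sub_succ (h.gd l), mv_wt_shO H.hσ, mv_wt_shO H.hσ, e1, e2, add_zero,
    ← sub_eq_add_neg]

/-- THE INSTANCE OF THEOREM X. -/
noncomputable def xsys (H : XH σ K F) : XSys σ K F where
  Z := stripSys H.hσ H.hK.1 (ae_good_wt H.hK H.hσ) (ae_gen H.hF H.hF0)
  S := flowG σ K (blo σ K) F H.hK H.hσ (adm_blo σ K) (loc_blo σ K) H.gen H.ev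
  ki := fun ω k l x u => KI (wt ω) σ univ (ck σ (wt ω) K k) (ck σ (wt ω) K l) x u
  ki_fin := by
    filter_upwards [H.gen] with ω h k l x hkl
    rw [KI_univ]
    exact (h.en hkl x).1
  ki_le := Filter.Eventually.of_forall fun ω n k l x u _ _ => KI_univ_le n k l x u
  ki_ev := by
    filter_upwards [H.gen] with ω h k l x hkl
    have h1 : KI (wt ω) σ univ (ck σ (wt ω) K k) (ck σ (wt ω) K l) x (vG σ K (blo σ K) ω k l x) ≠ ⊤ := by
      rw [KI_univ]
      exact (h.en hkl x).1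
    exact Filter.eventually_atTop.1 (KI_eq_ev H.hσ h.cfg.good h.cfg.eg hkl h1)
  gap := by
    filter_upwards [H.gen] with ω h k l x hkl
    obtain ⟨η, hη, h1⟩ := h.gap hkl x
    refine ⟨η, hη, fun u hu hfin => ?_⟩
    simp only [KI_univ] at hfin ⊢
    exact h1 u hu hfin
  al := phG σ K (alo σ K)
  cu := fun r ω l j => mv σ (gup σ K (ub r) (Lu H.hK H.hσ r)) l j (wt ω)
  cl := fun r ω l j => mv σ (glo σ K (ua r) (Ll H.hK H.hσ r)) l j (wt ω)
  e := fun r => 4 / ((r : ℝ) + 2)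
  he := by
    have h := (tendsto_const_div_atTop_nhds_zero_nat (4 : ℝ)).comp (tendsto_add_atTop_nat 2)
    refine h.congr fun r => ?_
    simp
  meas_cu := fun r l j => (((measurable_phG (adm_blo σ K) l j).sub
    (measurable_phG (adm_blo σ K) l (j + 1))).sub ((adm_gup σ K _ _).measurable_mv σ l j)).aemeasurable
  meas_cl := fun r l j => (((adm_glo σ K _ _).measurable_mv σ l j).sub
    ((measurable_phG (adm_alo σ K) l j).sub (measurable_phG (adm_alo σ K) l (j + 1)))).aemeasurable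
  shift_cu := fun r => ae_shift_cu H _
  lim_cu := by
    intro l j
    refine tendsto_of_tendsto_of_tendsto_of_le_of_le tendsto_const_nhds tendsto_one_div_zero
      (fun _ => zero_le) fun r => ?_
    refine le_trans (le_of_eq (lintegral_congr_ae ?_)) (lint_cu_le H.hK H.hσ r l j)
    filter_upwards [H.gen] with ω h
    change ENNReal.ofReal (phG σ K (blo σ K) ω l j - phG σ K (blo σ K) ω l (j + 1) - _) = _
    rw [phG_sub_succ (h.gd l)]
  lim_cl := by
    intro l j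
    refine tendsto_of_tendsto_of_tendsto_of_le_of_le tendsto_const_nhds tendsto_one_div_zero
      (fun _ => zero_le) fun r => ?_
    refine le_trans (le_of_eq (lintegral_congr_ae ?_)) (lint_cl_le H.hK H.hσ r l j)
    filter_upwards [H.gen] with ω h
    change ENNReal.ofReal (_ - (phG σ K (alo σ K) ω l j - phG σ K (alo σ K) ω l (j + 1))) = _
    rw [phG_sub_succ (h.gd l)]
  dom_cu := by
    intro r δ hδ
    have h0 : (0 : ℝ) < (r : ℝ) + 2 := by positivity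
    have h1 : 2 * ((ub r).2 : ℝ) < δ * (ub r).1 := by
      rw [div_lt_iff₀ h0] at hδ
      unfold ub
      push_cast
      linarith
    filter_upwards [ae_dom_cu H.hσ H.hK (u := ub r) (dup_ub σ r).pos (by unfold ub; simp)
      (by unfold ub; simp only; omega) (ae_limUp H.hK H.hσ (dup_ub σ r) (Lu H.hK H.hσ r)) h1] with ω h l J
    obtain ⟨n0, hn0⟩ := h l J
    refine ⟨n0, fun n hn R hR j hj => ?_⟩
    rw [neg_mul]
    exact hn0 n hn R hR j hj
  dom_cl := by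
    intro r δ hδ
    have h0 : (0 : ℝ) < (r : ℝ) + 2 := by positivity
    have hδ0 : 0 < δ := lt_of_le_of_lt (by positivity) hδ
    have h1 : -(4 * ((ua r).2 : ℝ)) < δ * (ua r).1 := by
      rw [div_lt_iff₀ h0] at hδ
      unfold ua
      push_cast
      linarith
    filter_upwards [ae_dom_cl H.hσ H.hK (u := ua r) (by unfold ua; simp)
      (by unfold ua; simp only; omega) (ae_limLo H.hK H.hσ (dlo_ua σ r) (Ll H.hK H.hσ r)) h1] with ω h l J
    obtain ⟨n0, hn0⟩ := h l (-J)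
    refine ⟨n0, fun n hn R hR j hj => ?_⟩
    rw [neg_mul]
    exact hn0 n hn R hR j (neg_le_of_abs_le hj)

theorem xsys_v (H : XH σ K F) (ω : Om) (k l x : ℤ) : (xsys H).S.v ω k l x = vG σ K (blo σ K) ω k l x := rfl

theorem xsys_φ (H : XH σ K F) (ω : Om) (l j : ℤ) : (xsys H).S.φ ω l j = phG σ K (blo σ K) ω l j := rfl

theorem xsys_al (H : XH σ K F) (ω : Om) (l j : ℤ) : (xsys H).al ω l j = phG σ K (alo σ K) ω l j := rfl

theorem xsys_ph (H : XH σ K F) (ω : Om) (n h k x : ℤ) : (xsys H).Z.ph ω n h k x = phS σ K (wt ω) n h k x := rfl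

theorem xsys_vS (H : XH σ K F) (ω : Om) (n k l h x : ℤ) :
    (xsys H).Z.v ω n k l h x = vS σ K (wt ω) n k l h x := rfl

theorem xsys_ki (H : XH σ K F) (ω : Om) (k l x u : ℤ) : (xsys H).ki ω k l x u =
    Kn (wt ω) (Rg σ (wt ω) K k) (Rg σ (wt ω) K l) (pk σ (wt ω) K k x) (pk σ (wt ω) K l u) :=
  KI_univ _ _ _ _

end inst

end C7
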